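import Pool.Agent.Lib.P07318f.DefsC
import Pool.Agent.Lib.P07318s.EulerA

/-!
# The Euler product `AA` in the region `RegA`

Adapt `AX_bound`, `AX_continuousOn_prod`, `AX_diff` of P07318s/EulerA.lean (they treat `z_j = w_j + i x_j`, `z'_j = -w_j + i x_j`) to independent
`z, z'` in the simpler region `Re z_j > -1/6`, `Re z'_j < 1/6`: by `Afac_eq`, `Afac z z' p = JJ X Y` with `‖X_j‖ = p^(-(1/2+Re z_j)) ≤ p^(-1/3)`,
`‖Y_j‖ = p^(-(1/2-Re z'_j)) ≤ p^(-1/3)`; `JJ_bound` with `τ = q = p^(-1/3)` gives `‖Afac - 1‖ ≤ C p^(-4/3)`, summable over the primes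
(`k = 0`: the factor is `1`). Continuity: `Summable.hasProdLocallyUniformlyOn_one_add` and `JJ_continuousOn`; holomorphy along curves: the same with
`JJ_diff` on the open set `S`.
-/

set_option autoImplicit false

namespace Pool.Agent.P07318f

open MeasureTheory Complex Pool.Agent.P07318s

namespace AAregAux

theorem isOpen_RegA (k : ℕ) : IsOpen (RegA k) := by
  have h : RegA k = (⋂ j : Fin k, {P : (Fin k → ℂ) × (Fin k → ℂ) | -(1 / 6) < (P.1 j).re}) ∩
      ⋂ j : Fin k, {P : (Fin k → ℂ) × (Fin k → ℂ) | (P.2 j).re < 1 / 6} := by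
    ext P
    simp [RegA]
  rw [h]
  refine IsOpen.inter ?_ ?_
  · refine isOpen_iInter_of_finite fun j => ?_
    exact isOpen_lt continuous_const
      (Complex.continuous_re.comp ((continuous_apply j).comp continuous_fst))
  · refine isOpen_iInter_of_finite fun j => ?_
    exact isOpen_lt (Complex.continuous_re.comp ((continuous_apply j).comp continuous_snd))
      continuous_const

theorem norm1 {k : ℕ} (z : Fin k → ℂ) {p : ℕ} (hp : 1 ≤ p) (j : Fin k) :
    ‖(p : ℂ) ^ (-(1 / 2 + z j))‖ = (p : ℝ) ^ (-(1 / 2) - (z j).re) := by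
  rw [Complex.norm_natCast_cpow_of_pos hp]
  congr 1
  simp
  ring

theorem norm2 {k : ℕ} (z' : Fin k → ℂ) {p : ℕ} (hp : 1 ≤ p) (j : Fin k) :
    ‖(p : ℂ) ^ (-(1 / 2 - z' j))‖ = (p : ℝ) ^ (-(1 / 2) + (z' j).re) := by
  rw [Complex.norm_natCast_cpow_of_pos hp]
  congr 1
  simp
  ring

theorem lt_one {k : ℕ} {P : (Fin k → ℂ) × (Fin k → ℂ)} (hP : P ∈ RegA k) {p : ℕ} (hp : 2 ≤ p)
    (j : Fin k) : (p : ℝ) ^ (-(1 / 2) - (P.1 j).re) < 1 ∧ (p : ℝ) ^ (-(1 / 2) + (P.2 j).re) < 1 := by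
  have hp' : (1 : ℝ) < p := by exact_mod_cast hp
  have h1 := hP.1 j
  have h2 := hP.2 j
  exact ⟨Real.rpow_lt_one_of_one_lt_of_neg hp' (by linarith),
    Real.rpow_lt_one_of_one_lt_of_neg hp' (by linarith)⟩

theorem fac_bound (k : ℕ) : ∃ C : ℝ, 0 < C ∧ ∀ P ∈ RegA k, ∀ p : Nat.Primes,
    ‖Afac P.1 P.2 p - 1‖ ≤ C * ((p : ℕ) : ℝ) ^ (-(4 / 3) : ℝ) := by
  obtain ⟨C, hC, h⟩ := JJ_bound k
  refine ⟨C, hC, fun P hP p => ?_⟩
  have hp2 : 2 ≤ (p : ℕ) := p.2.two_le
  have hp1 : 1 ≤ (p : ℕ) := by omega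
  have hp' : (1 : ℝ) < ((p : ℕ) : ℝ) := by exact_mod_cast hp2
  have hp0 : (0 : ℝ) < ((p : ℕ) : ℝ) := by linarith
  rcases Nat.eq_zero_or_pos k with rfl | hk
  · have : Afac P.1 P.2 p = 1 := by
      unfold Afac
      simp
    rw [this, sub_self, norm_zero]
    positivity
  have hX : ∀ j, ‖((p : ℕ) : ℂ) ^ (-(1 / 2 + P.1 j))‖ ≤ ((p : ℕ) : ℝ) ^ (-(1 / 3) : ℝ) := by
    intro j
    rw [norm1 P.1 hp1]
    have := hP.1 j
    exact Real.rpow_le_rpow_of_exponent_le hp'.le (by linarith)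
  have hY : ∀ j, ‖((p : ℕ) : ℂ) ^ (-(1 / 2 - P.2 j))‖ ≤ ((p : ℕ) : ℝ) ^ (-(1 / 3) : ℝ) := by
    intro j
    rw [norm2 P.2 hp1]
    have := hP.2 j
    exact Real.rpow_le_rpow_of_exponent_le hp'.le (by linarith)
  rw [Afac_eq P.1 P.2 hp1]
  have hb := h (fun j => ((p : ℕ) : ℂ) ^ (-(1 / 2 + P.1 j)))
    (fun j => ((p : ℕ) : ℂ) ^ (-(1 / 2 - P.2 j))) ⟨0, hk⟩
    (((p : ℕ) : ℝ) ^ (-(1 / 3) : ℝ)) (((p : ℕ) : ℝ) ^ (-(1 / 3) : ℝ)) (Real.rpow_nonneg hp0.le _)
    le_rfl (Real.rpow_lt_one_of_one_lt_of_neg hp' (by norm_num)) (hX _) (hY _)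
    (fun j _ => ⟨hX j, hY j⟩)
  refine hb.trans (le_of_eq ?_)
  rw [← Real.rpow_add hp0, ← Real.rpow_natCast, ← Real.rpow_mul hp0.le]
  congr 2
  norm_num

theorem summ (C : ℝ) :
    Summable (fun p : Nat.Primes => C * ((p : ℕ) : ℝ) ^ (-(4 / 3) : ℝ)) := by
  apply Summable.mul_left
  exact Nat.Primes.summable_rpow.2 (by norm_num)

theorem fac_cont {k : ℕ} (p : Nat.Primes) :
    ContinuousOn (fun P : (Fin k → ℂ) × (Fin k → ℂ) => Afac P.1 P.2 p) (RegA k) := by
  have hp2 : 2 ≤ (p : ℕ) := p.2.two_le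
  have hp1 : 1 ≤ (p : ℕ) := by omega
  have hp0 : ((p : ℕ) : ℂ) ≠ 0 := by
    have : (p : ℕ) ≠ 0 := by omega
    exact_mod_cast this
  have hc : Continuous (fun P : (Fin k → ℂ) × (Fin k → ℂ) =>
      ((fun j => ((p : ℕ) : ℂ) ^ (-(1 / 2 + P.1 j)),
        fun j => ((p : ℕ) : ℂ) ^ (-(1 / 2 - P.2 j))) :
        (Fin k → ℂ) × (Fin k → ℂ))) := by
    refine Continuous.prodMk (continuous_pi fun j => ?_) (continuous_pi fun j => ?_)
    · refine Continuous.const_cpow ?_ (Or.inl hp0)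
      fun_prop
    · refine Continuous.const_cpow ?_ (Or.inl hp0)
      fun_prop
  refine ((JJ_continuousOn k).comp hc.continuousOn ?_).congr ?_
  · intro P hP
    refine ⟨fun j => ?_, fun j => ?_⟩
    · change ‖((p : ℕ) : ℂ) ^ (-(1 / 2 + P.1 j))‖ < 1
      rw [norm1 P.1 hp1]
      exact (lt_one hP hp2 j).1
    · change ‖((p : ℕ) : ℂ) ^ (-(1 / 2 - P.2 j))‖ < 1
      rw [norm2 P.2 hp1]
      exact (lt_one hP hp2 j).2
  · intro P _
    exact Afac_eq P.1 P.2 hp1

end AAregAux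

open AAregAux

theorem aa_bound (k : ℕ) : ∃ C : ℝ, 0 < C ∧ ∀ P ∈ RegA k,
    (Multipliable fun p : Nat.Primes => Afac P.1 P.2 p) ∧ ‖AA P.1 P.2‖ ≤ C := by
  obtain ⟨C, hC, h⟩ := fac_bound k
  refine ⟨Real.exp (∑' p : Nat.Primes, C * ((p : ℕ) : ℝ) ^ (-(4 / 3) : ℝ)), Real.exp_pos _,
    fun P hP => ?_⟩
  have hs := summ C
  set a : Nat.Primes → ℂ := fun p => Afac P.1 P.2 p - 1 with ha
  have hsa : Summable (fun p => ‖a p‖) :=
    Summable.of_nonneg_of_le (fun _ => norm_nonneg _) (fun p => h P hP p) hs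
  have hm : Multipliable fun p : Nat.Primes => 1 + a p := multipliable_one_add_of_summable hsa
  have he1 : (fun p : Nat.Primes => Afac P.1 P.2 p) = fun p => 1 + a p := by
    funext p
    rw [ha]
    ring
  rw [he1]
  refine ⟨hm, ?_⟩
  unfold AA
  rw [he1]
  have ht := (hm.hasProd.norm : Filter.Tendsto _ _ _)
  refine le_of_tendsto ht (Filter.Eventually.of_forall fun s => ?_)
  change ∏ p ∈ s, ‖1 + a p‖ ≤ _
  calc ∏ p ∈ s, ‖1 + a p‖ ≤ ∏ p ∈ s, Real.exp ‖a p‖ := by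
        refine Finset.prod_le_prod (fun p _ => norm_nonneg _) (fun p _ => ?_)
        refine (norm_add_le _ _).trans ?_
        rw [norm_one, add_comm]
        exact Real.add_one_le_exp _
    _ = Real.exp (∑ p ∈ s, ‖a p‖) := (Real.exp_sum _ _).symm
    _ ≤ Real.exp (∑' p : Nat.Primes, C * ((p : ℕ) : ℝ) ^ (-(4 / 3) : ℝ)) := by
        rw [Real.exp_le_exp]
        refine (Finset.sum_le_sum fun p _ => h P hP p).trans ?_
        exact hs.sum_le_tsum s (fun p _ => by positivity)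

theorem aa_cont (k : ℕ) : ContinuousOn (fun P : (Fin k → ℂ) × (Fin k → ℂ) => AA P.1 P.2) (RegA k) := by
  obtain ⟨C, hC, h⟩ := fac_bound k
  have hs := summ C
  have hu := Summable.hasProdLocallyUniformlyOn_one_add (K := RegA k)
    (f := fun (p : Nat.Primes) (P : (Fin k → ℂ) × (Fin k → ℂ)) => Afac P.1 P.2 p - 1)
    (isOpen_RegA k) hs
    (Filter.Eventually.of_forall fun p P hP => h P hP p)
    (fun p => (fac_cont p).sub continuousOn_const)
  have hc := TendstoLocallyUniformlyOn.continuousOn hu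
    (Filter.Frequently.of_forall fun s => ?_)
  · refine hc.congr fun P _ => ?_
    unfold AA
    refine tprod_congr fun p => ?_
    ring
  · refine continuousOn_finsetProd s fun p _ => ?_
    exact continuousOn_const.add ((fac_cont p).sub continuousOn_const)

theorem aa_diff {k : ℕ} (f g : ℂ → Fin k → ℂ) (S : Set ℂ) (hS : IsOpen S) (hf : ∀ j, DifferentiableOn ℂ (fun z => f z j) S)
    (hg : ∀ j, DifferentiableOn ℂ (fun z => g z j) S) (hR : ∀ z ∈ S, (f z, g z) ∈ RegA k) :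
    DifferentiableOn ℂ (fun z => AA (f z) (g z)) S := by
  obtain ⟨C, hC, h⟩ := fac_bound k
  have hsum := summ C
  have hd : ∀ p : Nat.Primes, DifferentiableOn ℂ (fun z => Afac (f z) (g z) p - 1) S := by
    intro p t ht
    have hp2 : 2 ≤ (p : ℕ) := p.2.two_le
    have hp1 : 1 ≤ (p : ℕ) := by omega
    have hp0 : ((p : ℕ) : ℂ) ≠ 0 := by
      have : (p : ℕ) ≠ 0 := by omega
      exact_mod_cast this
    have h1 := JJ_diff (k := k)
      (X := fun s i => ((p : ℕ) : ℂ) ^ (-(1 / 2 + f s i)))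
      (Y := fun s i => ((p : ℕ) : ℂ) ^ (-(1 / 2 - g s i)))
      (s₀ := t) ?_ ?_ ?_ ?_
    · refine DifferentiableAt.differentiableWithinAt ?_
      refine DifferentiableAt.sub_const ?_ 1
      refine h1.congr_of_eventuallyEq (Filter.Eventually.of_forall fun s => ?_)
      exact Afac_eq (f s) (g s) hp1
    · intro i
      filter_upwards [hS.mem_nhds ht] with s hs
      refine DifferentiableAt.const_cpow ?_ (Or.inl hp0)
      exact (((hf i).differentiableAt (hS.mem_nhds hs)).const_add _).neg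
    · intro i
      filter_upwards [hS.mem_nhds ht] with s hs
      refine DifferentiableAt.const_cpow ?_ (Or.inl hp0)
      exact (((hg i).differentiableAt (hS.mem_nhds hs)).const_sub _).neg
    · intro i
      rw [norm1 (f t) hp1]
      exact (lt_one (hR t ht) hp2 i).1
    · intro i
      rw [norm2 (g t) hp1]
      exact (lt_one (hR t ht) hp2 i).2
  have hu := Summable.hasProdLocallyUniformlyOn_one_add (K := S)
    (f := fun (p : Nat.Primes) (z : ℂ) => Afac (f z) (g z) p - 1)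
    hS hsum
    (Filter.Eventually.of_forall fun p t ht => h (f t, g t) (hR t ht) p)
    (fun p => (hd p).continuousOn)
  have hdd := TendstoLocallyUniformlyOn.differentiableOn hu
    (Filter.Eventually.of_forall fun F => ?_) hS
  · refine hdd.congr fun z _ => ?_
    unfold AA
    refine tprod_congr fun p => ?_
    ring
  · refine DifferentiableOn.fun_finsetProd fun p _ => ?_
    exact (hd p).const_add 1

end Pool.Agent.P07318f
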