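import Pool.Agent.Lib.P07318f.Defs

/-!
# Abel summation in two variables

`f(X,Y) = ∫_{X' > X} ∫_{Y' > Y} D(X',Y')`, `∫_{X ≥ 1} ∫_{Y > 0} X Y ‖D‖ < ∞`. Then, by Fubini (absolutely convergent, since the number of
`(m,m')` with `m < X`, `m' < Y` is `≤ X Y`),
`∑_{m,m'} c(m,m') f(m,m') = ∫_{X ≥ 1}∫_{Y>0} #{m < X, m' < Y : c} D`, and for each `m`: `∫_0^∞ f(m,Y) dY = ∫_{X > m} ∫_{Y>0} Y D(X,Y) dY dX`, so
`∑_m dens(m) ∫_0^∞ f(m,Y) dY = ∫_{X ≥ 1}∫_{Y>0} (∑_{m < X} dens m) Y D`. The difference is `∫∫ disc(X,Y) D(X,Y)` (for almost all `X, Y` `m < X` is `m ≤ X`).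
`0 ≤ dens ≤ 1`.
-/

set_option autoImplicit false

namespace Pool.Agent.P07318f

open MeasureTheory Complex
open scoped ENNReal

namespace AbelTwoAux

noncomputable def mu : Measure (ℝ × ℝ) :=
  (volume.restrict (Set.Ioi (1:ℝ))).prod (volume.restrict (Set.Ioi (0:ℝ)))

instance : SFinite mu := by unfold mu; infer_instance

theorem mu_eq : mu = (volume.prod volume).restrict (Set.Ioi (1:ℝ) ×ˢ Set.Ioi (0:ℝ)) := by
  unfold mu
  rw [Measure.prod_restrict]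

theorem ae_pos : ∀ᵐ p ∂mu, 1 < p.1 ∧ 0 < p.2 := by
  rw [mu_eq]
  filter_upwards [ae_restrict_mem (measurableSet_Ioi.prod measurableSet_Ioi)] with p hp
  exact ⟨hp.1, hp.2⟩

theorem ae_ne : ∀ᵐ p ∂mu, (∀ n : ℕ, (n:ℝ) ≠ p.1) ∧ ∀ n : ℕ, (n:ℝ) ≠ p.2 := by
  have h0 : ∀ s : Set ℝ, ∀ᵐ x ∂(volume.restrict s), ∀ n : ℕ, (n:ℝ) ≠ x := by
    intro s
    refine ae_all_iff.2 fun n => ?_
    refine ae_restrict_of_ae ?_
    rw [ae_iff]
    simp
  unfold mu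
  have h1 := (Measure.quasiMeasurePreserving_fst (μ := volume.restrict (Set.Ioi (1:ℝ)))
    (ν := volume.restrict (Set.Ioi (0:ℝ)))).ae (h0 _)
  have h2 := (Measure.quasiMeasurePreserving_snd (μ := volume.restrict (Set.Ioi (1:ℝ)))
    (ν := volume.restrict (Set.Ioi (0:ℝ)))).ae (h0 _)
  filter_upwards [h1, h2] with p hp hq
  exact ⟨hp, hq⟩

theorem cnt {x : ℝ} (hx : 0 ≤ x) :
    ∑' m : ℕ+, (if ((m:ℕ):ℝ) < x then (1:ℝ≥0∞) else 0) ≤ ENNReal.ofReal x := by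
  rw [tsum_pnat_eq_tsum_succ (f := fun k : ℕ => (if (k:ℝ) < x then (1:ℝ≥0∞) else 0))]
  rw [tsum_eq_sum (s := Finset.range ⌊x⌋₊)]
  · calc ∑ b ∈ Finset.range ⌊x⌋₊, (if ((b + 1 : ℕ):ℝ) < x then (1:ℝ≥0∞) else 0)
        ≤ ∑ b ∈ Finset.range ⌊x⌋₊, (1:ℝ≥0∞) := by
          refine Finset.sum_le_sum fun b _ => ?_
          split_ifs <;> simp
      _ = ((⌊x⌋₊ : ℕ) : ℝ≥0∞) := by simp
      _ ≤ ENNReal.ofReal x := by
          rw [← ENNReal.ofReal_natCast]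
          exact ENNReal.ofReal_le_ofReal (Nat.floor_le hx)
  · intro b hb
    rw [Finset.mem_range, not_lt] at hb
    rw [if_neg]
    intro h
    have h1 : b + 1 ≤ ⌊x⌋₊ := Nat.le_floor h.le
    omega

theorem integrable_tsum' {α ι : Type*} [Countable ι] [MeasurableSpace α] {μ : Measure α} {f : ι → α → ℂ}
    (hf : ∀ i, AEStronglyMeasurable (f i) μ) (h : ∑' i, ∫⁻ a, ‖f i a‖ₑ ∂μ ≠ ⊤) :
    Integrable (fun a => ∑' i, f i a) μ := by
  have hf'' : ∀ i, AEMeasurable (fun x => ‖f i x‖ₑ) μ := fun i => (hf i).enorm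
  have h1 : ∫⁻ a, ∑' i, ‖f i a‖ₑ ∂μ ≠ ⊤ := by rwa [lintegral_tsum hf'']
  have h2 : ∀ᵐ a ∂μ, ∑' i, ‖f i a‖ₑ < ⊤ := ae_lt_top' (AEMeasurable.tsum hf'') h1
  have h3 : ∀ᵐ a ∂μ, Summable fun i => f i a := by
    filter_upwards [h2] with a ha
    have : Summable fun i => (‖f i a‖ₑ).toReal := ENNReal.summable_toReal ha.ne
    simp only [toReal_enorm] at this
    exact this.of_norm
  refine ⟨?_, ?_⟩
  · refine aestronglyMeasurable_of_tendsto_ae Filter.atTop (f := fun s : Finset ι => fun a => ∑ i ∈ s, f i a) ?_ ?_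
    · intro s
      exact Finset.aestronglyMeasurable_fun_sum s fun i _ => hf i
    · filter_upwards [h3] with a ha
      exact ha.hasSum
  · refine lt_of_le_of_lt (lintegral_mono_ae ?_) (lt_top_iff_ne_top.2 h1)
    filter_upwards [h2] with a ha
    exact enorm_tsum_le_tsum_enorm

section

variable {D : ℝ → ℝ → ℂ}

/-- the indicator version -/
noncomputable def G (D : ℝ → ℝ → ℂ) (X Y : ℝ) (p : ℝ × ℝ) : ℂ := if X < p.1 ∧ Y < p.2 then D p.1 p.2 else 0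

noncomputable def H (D : ℝ → ℝ → ℂ) (X : ℝ) (p : ℝ × ℝ) : ℂ := if X < p.1 then (p.2 : ℂ) * D p.1 p.2 else 0

theorem G_meas (hD : Measurable (Function.uncurry D)) (X Y : ℝ) : Measurable (G D X Y) := by
  unfold G
  refine Measurable.ite ?_ hD measurable_const
  exact (measurableSet_lt measurable_const measurable_fst).inter
    (measurableSet_lt measurable_const measurable_snd)

theorem H_meas (hD : Measurable (Function.uncurry D)) (X : ℝ) : Measurable (H D X) := by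
  unfold H
  refine Measurable.ite ?_ ?_ measurable_const
  · exact measurableSet_lt measurable_const measurable_fst
  · exact (Complex.measurable_ofReal.comp measurable_snd).mul hD

theorem w_fin (hint : ∫⁻ X in Set.Ioi (1:ℝ), ∫⁻ Y in Set.Ioi (0:ℝ), ENNReal.ofReal (X * Y) * ‖D X Y‖ₑ ≠ ⊤) :
    ∫⁻ p, ENNReal.ofReal (p.1 * p.2) * ‖D p.1 p.2‖ₑ ∂mu ≠ ⊤ :=
  ne_top_of_le_ne_top hint (lintegral_prod_le (fun p : ℝ × ℝ => ENNReal.ofReal (p.1 * p.2) * ‖D p.1 p.2‖ₑ))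

theorem G_int (hD : Measurable (Function.uncurry D))
    (hW : ∫⁻ p, ENNReal.ofReal (p.1 * p.2) * ‖D p.1 p.2‖ₑ ∂mu ≠ ⊤) {X Y : ℝ} (hY : 0 < Y) :
    Integrable (G D X Y) mu := by
  refine ⟨(G_meas hD X Y).aestronglyMeasurable, ?_⟩
  have h1 : ∫⁻ p, ‖G D X Y p‖ₑ ∂mu ≤
      ∫⁻ p, (ENNReal.ofReal Y)⁻¹ * (ENNReal.ofReal (p.1 * p.2) * ‖D p.1 p.2‖ₑ) ∂mu := by
    refine lintegral_mono_ae ?_
    filter_upwards [ae_pos] with p hp
    unfold G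
    split_ifs with h
    · rw [← mul_assoc]
      have h2 : 1 ≤ (ENNReal.ofReal Y)⁻¹ * ENNReal.ofReal (p.1 * p.2) := by
        have h3 : ENNReal.ofReal Y ≤ ENNReal.ofReal (p.1 * p.2) := by
          refine ENNReal.ofReal_le_ofReal ?_
          nlinarith [hp.1, hp.2, h.2]
        calc 1 = (ENNReal.ofReal Y)⁻¹ * ENNReal.ofReal Y := by
              rw [ENNReal.inv_mul_cancel]
              · simpa using hY
              · exact ENNReal.ofReal_ne_top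
          _ ≤ _ := by gcongr
      calc ‖D p.1 p.2‖ₑ = 1 * ‖D p.1 p.2‖ₑ := (one_mul _).symm
        _ ≤ _ := by gcongr
    · simp
  refine lt_of_le_of_lt h1 ?_
  rw [lintegral_const_mul' _ _ (by simpa using hY)]
  exact ENNReal.mul_lt_top (by simpa using hY) (lt_top_iff_ne_top.2 hW)

theorem f_eq (hD : Measurable (Function.uncurry D))
    (hW : ∫⁻ p, ENNReal.ofReal (p.1 * p.2) * ‖D p.1 p.2‖ₑ ∂mu ≠ ⊤) {X Y : ℝ} (hX : 1 ≤ X) (hY : 0 < Y) :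
    ∫ X' in Set.Ioi X, ∫ Y' in Set.Ioi Y, D X' Y' = ∫ p, G D X Y p ∂mu := by
  have hG : G D X Y = (Set.Ioi X ×ˢ Set.Ioi Y).indicator (Function.uncurry D) := by
    funext p
    unfold G
    rw [Set.indicator_apply]
    rfl
  have hms : MeasurableSet (Set.Ioi X ×ˢ Set.Ioi Y) := measurableSet_Ioi.prod measurableSet_Ioi
  have hsub : (Set.Ioi X ×ˢ Set.Ioi Y) ∩ (Set.Ioi (1:ℝ) ×ˢ Set.Ioi (0:ℝ)) = Set.Ioi X ×ˢ Set.Ioi Y := by
    refine Set.inter_eq_left.2 (Set.prod_mono (Set.Ioi_subset_Ioi hX) (Set.Ioi_subset_Ioi hY.le))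
  have h1 := G_int hD hW (X := X) hY
  rw [hG, integrable_indicator_iff hms, IntegrableOn, mu_eq, Measure.restrict_restrict hms, hsub] at h1
  rw [hG, integral_indicator hms, mu_eq, Measure.restrict_restrict hms, hsub,
    setIntegral_prod _ h1]
  rfl

theorem H_le (X : ℝ) : ∀ᵐ p ∂mu, ‖H D X p‖ₑ ≤ ENNReal.ofReal (p.1 * p.2) * ‖D p.1 p.2‖ₑ := by
  filter_upwards [ae_pos] with p hp
  unfold H
  split_ifs with h
  · rw [enorm_mul]
    gcongr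
    rw [← ofReal_norm, Complex.norm_real, Real.norm_of_nonneg hp.2.le]
    refine ENNReal.ofReal_le_ofReal ?_
    nlinarith [hp.1, hp.2]
  · simp

theorem H_int (hD : Measurable (Function.uncurry D))
    (hW : ∫⁻ p, ENNReal.ofReal (p.1 * p.2) * ‖D p.1 p.2‖ₑ ∂mu ≠ ⊤) (X : ℝ) :
    Integrable (H D X) mu := by
  refine ⟨(H_meas hD X).aestronglyMeasurable, ?_⟩
  exact lt_of_le_of_lt (lintegral_mono_ae (H_le X)) (lt_top_iff_ne_top.2 hW)

/-- Tonelli -/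
theorem G_lint (hD : Measurable (Function.uncurry D)) (X : ℝ) :
    ∫⁻ Y in Set.Ioi (0:ℝ), ∫⁻ p, ‖G D X Y p‖ₑ ∂mu = ∫⁻ p, ‖H D X p‖ₑ ∂mu := by
  have hm : Measurable (fun q : ℝ × (ℝ × ℝ) => ‖G D X q.1 q.2‖ₑ) := by
    unfold G
    refine Measurable.enorm ?_
    refine Measurable.ite ?_ (hD.comp measurable_snd) measurable_const
    exact (measurableSet_lt measurable_const (measurable_fst.comp measurable_snd)).inter
      (measurableSet_lt measurable_fst (measurable_snd.comp measurable_snd))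
  rw [lintegral_lintegral_swap hm.aemeasurable]
  refine lintegral_congr_ae ?_
  filter_upwards [ae_pos] with p hp
  unfold G H
  by_cases h : X < p.1
  · simp only [h, true_and, if_true]
    have h1 : ∀ Y : ℝ, ‖(if Y < p.2 then D p.1 p.2 else 0)‖ₑ = (Set.Iio p.2).indicator (fun _ => ‖D p.1 p.2‖ₑ) Y := by
      intro Y
      rw [Set.indicator_apply]
      by_cases h2 : Y < p.2
      · simp [h2]
      · simp [h2]
    simp_rw [h1]
    rw [lintegral_indicator measurableSet_Iio, Measure.restrict_restrict measurableSet_Iio,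
      lintegral_const, Measure.restrict_apply MeasurableSet.univ, Set.univ_inter]
    have h3 : Set.Iio p.2 ∩ Set.Ioi (0:ℝ) = Set.Ioo 0 p.2 := by
      ext y; simp [and_comm]
    rw [h3, Real.volume_Ioo, sub_zero, enorm_mul, mul_comm]
    congr 1
    rw [← ofReal_norm, Complex.norm_real, Real.norm_of_nonneg hp.2.le]
  · simp [h]

theorem G_fub (hD : Measurable (Function.uncurry D))
    (hW : ∫⁻ p, ENNReal.ofReal (p.1 * p.2) * ‖D p.1 p.2‖ₑ ∂mu ≠ ⊤) (X : ℝ) :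
    ∫ Y in Set.Ioi (0:ℝ), ∫ p, G D X Y p ∂mu = ∫ p, H D X p ∂mu := by
  have hm : Measurable (fun q : ℝ × (ℝ × ℝ) => G D X q.1 q.2) := by
    unfold G
    refine Measurable.ite ?_ (hD.comp measurable_snd) measurable_const
    exact (measurableSet_lt measurable_const (measurable_fst.comp measurable_snd)).inter
      (measurableSet_lt measurable_fst (measurable_snd.comp measurable_snd))
  rw [integral_integral_swap]
  · refine integral_congr_ae ?_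
    filter_upwards [ae_pos] with p hp
    unfold G H
    by_cases h : X < p.1
    · simp only [h, true_and, if_true]
      have h1 : ∀ Y : ℝ, (if Y < p.2 then D p.1 p.2 else 0) = (Set.Iio p.2).indicator (fun _ => D p.1 p.2) Y := by
        intro Y
        rw [Set.indicator_apply]
        rfl
      simp_rw [h1]
      rw [integral_indicator measurableSet_Iio, Measure.restrict_restrict measurableSet_Iio]
      have h3 : Set.Iio p.2 ∩ Set.Ioi (0:ℝ) = Set.Ioo 0 p.2 := by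
        ext y; simp [and_comm]
      rw [h3, setIntegral_const, Measure.real, Real.volume_Ioo, sub_zero, ENNReal.toReal_ofReal hp.2.le]
      simp
    · simp [h]
  · refine ⟨hm.aestronglyMeasurable, ?_⟩
    show ∫⁻ q : ℝ × (ℝ × ℝ), ‖G D X q.1 q.2‖ₑ ∂_ < ⊤
    rw [lintegral_prod _ hm.enorm.aemeasurable, G_lint hD X]
    exact lt_of_le_of_lt (lintegral_mono_ae (H_le X)) (lt_top_iff_ne_top.2 hW)

theorem inj : Function.Injective (fun m : ℕ+ × ℕ+ => ((m.1 : ℕ), (m.2 : ℕ))) := by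
  intro x y h
  simp only [Prod.mk.injEq, PNat.coe_inj] at h
  exact Prod.ext h.1 h.2

theorem lt_iff {x : ℝ} (hx : 0 ≤ x) (hn : ∀ n : ℕ, (n:ℝ) ≠ x) (m : ℕ) : (m:ℝ) < x ↔ m ≤ ⌊x⌋₊ := by
  rw [Nat.le_floor_iff hx]
  exact ⟨le_of_lt, fun h => lt_of_le_of_ne h (hn m)⟩

open Classical in
theorem sumG (a b n : ℕ+) (l : ℤ) (p : ℝ × ℝ) (hp : 1 < p.1 ∧ 0 < p.2)
    (hne : (∀ n : ℕ, (n:ℝ) ≠ p.1) ∧ ∀ n : ℕ, (n:ℝ) ≠ p.2) :
    (∑' m : ℕ+ × ℕ+, if ((b * n : ℕ) : ℤ) ∣ ((a : ℕ) : ℤ) * (m.1 : ℕ) * (m.2 : ℕ) - l then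
        G D (m.1 : ℕ) (m.2 : ℕ) p else 0) =
      ((∑ m ∈ Finset.Icc 1 ⌊p.1⌋₊, (((Finset.Icc 1 ⌊p.2⌋₊).filter
        (fun m' : ℕ => ((b * n : ℕ) : ℤ) ∣ ((a : ℕ) : ℤ) * m * m' - l)).card : ℝ) : ℝ) : ℂ) * D p.1 p.2 := by
  have h1 := inj.tsum_eq (f := fun m : ℕ × ℕ => if 1 ≤ m.1 ∧ 1 ≤ m.2 ∧
    ((b * n : ℕ) : ℤ) ∣ ((a : ℕ) : ℤ) * (m.1 : ℕ) * (m.2 : ℕ) - l then
        G D (m.1 : ℕ) (m.2 : ℕ) p else 0) (by
    intro m hm
    rw [Function.mem_support] at hm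
    by_cases h : 1 ≤ m.1 ∧ 1 ≤ m.2
    · exact ⟨(⟨m.1, h.1⟩, ⟨m.2, h.2⟩), rfl⟩
    · exfalso
      apply hm
      rw [if_neg]
      rintro ⟨h2, h3, _⟩
      exact h ⟨h2, h3⟩)
  have h2 : (∑' m : ℕ+ × ℕ+, if ((b * n : ℕ) : ℤ) ∣ ((a : ℕ) : ℤ) * (m.1 : ℕ) * (m.2 : ℕ) - l then
        G D (m.1 : ℕ) (m.2 : ℕ) p else 0) = ∑' c : ℕ+ × ℕ+, (fun m : ℕ × ℕ => if 1 ≤ m.1 ∧ 1 ≤ m.2 ∧
    ((b * n : ℕ) : ℤ) ∣ ((a : ℕ) : ℤ) * (m.1 : ℕ) * (m.2 : ℕ) - l then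
        G D (m.1 : ℕ) (m.2 : ℕ) p else 0) ((c.1 : ℕ), (c.2 : ℕ)) := by
    refine tsum_congr fun m => ?_
    have ha : 1 ≤ (m.1 : ℕ) := m.1.2
    have hb : 1 ≤ (m.2 : ℕ) := m.2.2
    simp only [ha, hb, true_and]
  rw [h2, h1, tsum_eq_sum (s := Finset.Icc 1 ⌊p.1⌋₊ ×ˢ Finset.Icc 1 ⌊p.2⌋₊)]
  · rw [Finset.sum_product, Complex.ofReal_sum, Finset.sum_mul]
    refine Finset.sum_congr rfl fun m hm => ?_
    rw [Finset.mem_Icc] at hm
    have h3 : ∀ m' ∈ Finset.Icc 1 ⌊p.2⌋₊, (if 1 ≤ m ∧ 1 ≤ m' ∧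
        ((b * n : ℕ) : ℤ) ∣ ((a : ℕ) : ℤ) * (m : ℕ) * (m' : ℕ) - l then
        G D (m : ℕ) (m' : ℕ) p else 0) = if ((b * n : ℕ) : ℤ) ∣ ((a : ℕ) : ℤ) * (m : ℕ) * (m' : ℕ) - l then
          D p.1 p.2 else 0 := by
      intro m' hm'
      rw [Finset.mem_Icc] at hm'
      have h4 : G D (m : ℕ) (m' : ℕ) p = D p.1 p.2 := by
        unfold G
        rw [if_pos]
        exact ⟨(lt_iff (by linarith [hp.1]) hne.1 m).2 hm.2, (lt_iff hp.2.le hne.2 m').2 hm'.2⟩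
      simp only [hm.1, hm'.1, true_and, h4]
    rw [Finset.sum_congr rfl h3, ← Finset.sum_filter, Finset.sum_const, nsmul_eq_mul]
    norm_cast
  · intro m hm
    by_cases h : 1 ≤ m.1 ∧ 1 ≤ m.2
    · have h5 : G D (m.1 : ℕ) (m.2 : ℕ) p = 0 := by
        unfold G
        rw [if_neg]
        rintro ⟨h6, h7⟩
        apply hm
        rw [Finset.mem_product, Finset.mem_Icc, Finset.mem_Icc]
        exact ⟨⟨h.1, (lt_iff (by linarith [hp.1]) hne.1 _).1 h6⟩, ⟨h.2, (lt_iff hp.2.le hne.2 _).1 h7⟩⟩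
      rw [h5, ite_self]
    · rw [if_neg]
      rintro ⟨h2, h3, _⟩
      exact h ⟨h2, h3⟩

theorem sumH (a b n : ℕ+) (l : ℤ) (p : ℝ × ℝ) (hp : 1 < p.1 ∧ 0 < p.2)
    (hne : (∀ n : ℕ, (n:ℝ) ≠ p.1) ∧ ∀ n : ℕ, (n:ℝ) ≠ p.2) :
    (∑' m : ℕ+, (dens a b n l m : ℂ) * H D (m : ℕ) p) =
      ((∑ m ∈ Finset.Icc 1 ⌊p.1⌋₊, (if ((Nat.gcd ((a : ℕ) * m) (b * n : ℕ) : ℕ) : ℤ) ∣ l then
        (Nat.gcd ((a : ℕ) * m) (b * n : ℕ) : ℝ) / ((b : ℕ) * (n : ℕ)) else 0) * p.2 : ℝ) : ℂ) * D p.1 p.2 := by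
  have h1 := PNat.coe_injective.tsum_eq (f := fun m : ℕ => if 1 ≤ m then
    (((if ((Nat.gcd ((a : ℕ) * m) (b * n : ℕ) : ℕ) : ℤ) ∣ l then
        (Nat.gcd ((a : ℕ) * m) (b * n : ℕ) : ℝ) / ((b : ℕ) * (n : ℕ)) else 0 : ℝ) : ℂ)) * H D (m : ℕ) p else 0) (by
    intro m hm
    rw [Function.mem_support] at hm
    by_cases h : 1 ≤ m
    · exact ⟨⟨m, h⟩, rfl⟩
    · exfalso
      apply hm
      rw [if_neg h])
  have h2 : (∑' m : ℕ+, (dens a b n l m : ℂ) * H D (m : ℕ) p) = ∑' c : ℕ+, (fun m : ℕ => if 1 ≤ m then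
    (((if ((Nat.gcd ((a : ℕ) * m) (b * n : ℕ) : ℕ) : ℤ) ∣ l then
        (Nat.gcd ((a : ℕ) * m) (b * n : ℕ) : ℝ) / ((b : ℕ) * (n : ℕ)) else 0 : ℝ) : ℂ)) * H D (m : ℕ) p else 0) (c : ℕ) := by
    refine tsum_congr fun m => ?_
    have ha : 1 ≤ (m : ℕ) := m.2
    simp only [ha, if_true]
    rfl
  rw [h2, h1, tsum_eq_sum (s := Finset.Icc 1 ⌊p.1⌋₊)]
  · rw [Complex.ofReal_sum, Finset.sum_mul]
    refine Finset.sum_congr rfl fun m hm => ?_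
    rw [Finset.mem_Icc] at hm
    have h4 : H D (m : ℕ) p = (p.2 : ℂ) * D p.1 p.2 := by
      unfold H
      rw [if_pos]
      exact (lt_iff (by linarith [hp.1]) hne.1 m).2 hm.2
    rw [if_pos hm.1, h4, Complex.ofReal_mul, mul_assoc]
  · intro m hm
    by_cases h : 1 ≤ m
    · have h5 : H D (m : ℕ) p = 0 := by
        unfold H
        rw [if_neg]
        intro h6
        apply hm
        rw [Finset.mem_Icc]
        exact ⟨h, (lt_iff (by linarith [hp.1]) hne.1 _).1 h6⟩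
      rw [h5, mul_zero, ite_self]
    · rw [if_neg h]

theorem dens_nonneg (a b n : ℕ+) (l : ℤ) (m : ℕ+) : 0 ≤ dens a b n l m := by
  unfold dens
  split_ifs
  · positivity
  · exact le_rfl

theorem dens_le (a b n : ℕ+) (l : ℤ) (m : ℕ+) : dens a b n l m ≤ 1 := by
  unfold dens
  split_ifs
  · have h : 0 < ((b : ℕ) : ℝ) * ((n : ℕ) : ℝ) := by
      have hb : 0 < (b : ℕ) := b.2
      have hn : 0 < (n : ℕ) := n.2
      positivity
    rw [div_le_one h]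
    have h2 : Nat.gcd (a * m : ℕ) (b * n : ℕ) ≤ (b * n : ℕ) :=
      Nat.le_of_dvd (Nat.mul_pos b.2 n.2) (Nat.gcd_dvd_right _ _)
    exact_mod_cast h2
  · exact zero_le_one

theorem lintG_sum (hD : Measurable (Function.uncurry D))
    (hW : ∫⁻ p, ENNReal.ofReal (p.1 * p.2) * ‖D p.1 p.2‖ₑ ∂mu ≠ ⊤) :
    ∑' m : ℕ+ × ℕ+, ∫⁻ p, ‖G D (m.1 : ℕ) (m.2 : ℕ) p‖ₑ ∂mu ≠ ⊤ := by
  rw [← lintegral_tsum fun m => (G_meas hD _ _).enorm.aemeasurable]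
  refine ne_top_of_le_ne_top hW (lintegral_mono_ae ?_)
  filter_upwards [ae_pos] with p hp
  have h1 : ∀ m : ℕ+ × ℕ+, ‖G D (m.1 : ℕ) (m.2 : ℕ) p‖ₑ =
      ((if ((m.1:ℕ):ℝ) < p.1 then (1:ℝ≥0∞) else 0) * (if ((m.2:ℕ):ℝ) < p.2 then (1:ℝ≥0∞) else 0)) * ‖D p.1 p.2‖ₑ := by
    intro m
    unfold G
    by_cases h1 : ((m.1:ℕ):ℝ) < p.1 <;> by_cases h2 : ((m.2:ℕ):ℝ) < p.2 <;> simp [h1, h2]
  simp_rw [h1]
  rw [ENNReal.tsum_mul_right]
  gcongr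
  rw [ENNReal.tsum_prod (f := fun i j : ℕ+ => (if ((i:ℕ):ℝ) < p.1 then (1:ℝ≥0∞) else 0) *
    (if ((j:ℕ):ℝ) < p.2 then (1:ℝ≥0∞) else 0))]
  simp_rw [ENNReal.tsum_mul_left]
  rw [ENNReal.tsum_mul_right, ENNReal.ofReal_mul (by linarith [hp.1])]
  gcongr
  · exact cnt (by linarith [hp.1])
  · exact cnt hp.2.le

theorem lintH_sum (hD : Measurable (Function.uncurry D))
    (hW : ∫⁻ p, ENNReal.ofReal (p.1 * p.2) * ‖D p.1 p.2‖ₑ ∂mu ≠ ⊤) :
    ∑' m : ℕ+, ∫⁻ p, ‖H D (m : ℕ) p‖ₑ ∂mu ≠ ⊤ := by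
  rw [← lintegral_tsum fun m => (H_meas hD _).enorm.aemeasurable]
  refine ne_top_of_le_ne_top hW (lintegral_mono_ae ?_)
  filter_upwards [ae_pos] with p hp
  have h1 : ∀ m : ℕ+, ‖H D (m : ℕ) p‖ₑ =
      (if ((m:ℕ):ℝ) < p.1 then (1:ℝ≥0∞) else 0) * (ENNReal.ofReal p.2 * ‖D p.1 p.2‖ₑ) := by
    intro m
    unfold H
    by_cases h1 : ((m:ℕ):ℝ) < p.1
    · simp only [h1, if_true, one_mul, enorm_mul]
      congr 1
      rw [← ofReal_norm, Complex.norm_real, Real.norm_of_nonneg hp.2.le]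
    · simp [h1]
  simp_rw [h1]
  rw [ENNReal.tsum_mul_right, ENNReal.ofReal_mul (by linarith [hp.1]), mul_assoc]
  gcongr
  exact cnt (by linarith [hp.1])

end

end AbelTwoAux

open AbelTwoAux in
theorem abel_two (a b n : ℕ+) (l : ℤ) (f D : ℝ → ℝ → ℂ) (hD : Measurable (Function.uncurry D))
    (hint : ∫⁻ X in Set.Ioi (1:ℝ), ∫⁻ Y in Set.Ioi (0:ℝ), ENNReal.ofReal (X * Y) * ‖D X Y‖ₑ ≠ ⊤)
    (hf : ∀ X Y : ℝ, 1 ≤ X → 0 < Y → f X Y = ∫ X' in Set.Ioi X, ∫ Y' in Set.Ioi Y, D X' Y') :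
    (Summable fun m : ℕ+ × ℕ+ => if ((b * n : ℕ) : ℤ) ∣ ((a : ℕ) : ℤ) * (m.1 : ℕ) * (m.2 : ℕ) - l then
      ‖f (m.1 : ℕ) (m.2 : ℕ)‖ else 0) ∧
    (Summable fun m : ℕ+ => dens a b n l m * ∫ Y in Set.Ioi (0:ℝ), ‖f (m : ℕ) Y‖) ∧
    ‖(∑' m : ℕ+ × ℕ+, if ((b * n : ℕ) : ℤ) ∣ ((a : ℕ) : ℤ) * (m.1 : ℕ) * (m.2 : ℕ) - l then
        f (m.1 : ℕ) (m.2 : ℕ) else 0) -
      ∑' m : ℕ+, (dens a b n l m : ℂ) * ∫ Y in Set.Ioi (0:ℝ), f (m : ℕ) Y‖ₑ ≤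
      ∫⁻ X in Set.Ioi (1:ℝ), ∫⁻ Y in Set.Ioi (0:ℝ), ENNReal.ofReal |disc a b n l X Y| * ‖D X Y‖ₑ := by
  have hW := w_fin hint
  have hpos : ∀ m : ℕ+, (1:ℝ) ≤ ((m : ℕ) : ℝ) := fun m => by exact_mod_cast m.2
  have hfG : ∀ (m : ℕ+) (Y : ℝ), 0 < Y → f (m : ℕ) Y = ∫ p, G D (m : ℕ) Y p ∂mu := by
    intro m Y hY
    rw [hf _ _ (hpos m) hY, f_eq hD hW (hpos m) hY]
  have hGs := lintG_sum hD hW
  have hHs := lintH_sum hD hW
  have hHi : ∀ m : ℕ+, ∫ Y in Set.Ioi (0:ℝ), f (m : ℕ) Y = ∫ p, H D (m : ℕ) p ∂mu := by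
    intro m
    rw [← G_fub hD hW]
    exact setIntegral_congr_fun measurableSet_Ioi fun Y hY => hfG m Y hY
  have hHn : ∀ m : ℕ+, ‖∫ Y in Set.Ioi (0:ℝ), ‖f (m : ℕ) Y‖‖ₑ ≤ ∫⁻ p, ‖H D (m : ℕ) p‖ₑ ∂mu := by
    intro m
    refine (enorm_integral_le_lintegral_enorm _).trans ?_
    rw [← G_lint hD]
    refine setLIntegral_mono' measurableSet_Ioi fun Y hY => ?_
    rw [enorm_norm, hfG m Y hY]
    exact enorm_integral_le_lintegral_enorm _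
  refine ⟨?_, ?_, ?_⟩
  · have h1 := ENNReal.summable_toReal hGs
    refine Summable.of_nonneg_of_le (fun m => ?_) (fun m => ?_) h1
    · split_ifs
      · exact norm_nonneg _
      · exact le_rfl
    · split_ifs
      · have h2 : ‖f (m.1 : ℕ) (m.2 : ℕ)‖ₑ ≤ ∫⁻ p, ‖G D (m.1 : ℕ) (m.2 : ℕ) p‖ₑ ∂mu := by
          rw [hfG m.1 (m.2 : ℕ) (by exact_mod_cast m.2.2)]
          exact enorm_integral_le_lintegral_enorm _
        rw [← toReal_enorm]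
        exact ENNReal.toReal_mono (ENNReal.ne_top_of_tsum_ne_top hGs m) h2
      · exact ENNReal.toReal_nonneg
  · have h1 := ENNReal.summable_toReal hHs
    refine Summable.of_nonneg_of_le (fun m => ?_) (fun m => ?_) h1
    · exact mul_nonneg (dens_nonneg _ _ _ _ _) (integral_nonneg fun _ => norm_nonneg _)
    · have h2 : ∫ Y in Set.Ioi (0:ℝ), ‖f (m : ℕ) Y‖ ≤ (∫⁻ p, ‖H D (m : ℕ) p‖ₑ ∂mu).toReal := by
        have h3 := ENNReal.toReal_mono (ENNReal.ne_top_of_tsum_ne_top hHs m) (hHn m)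
        rw [toReal_enorm] at h3
        exact (le_abs_self _).trans h3
      calc dens a b n l m * ∫ Y in Set.Ioi (0:ℝ), ‖f (m : ℕ) Y‖
          ≤ 1 * ∫ Y in Set.Ioi (0:ℝ), ‖f (m : ℕ) Y‖ :=
            mul_le_mul_of_nonneg_right (dens_le _ _ _ _ _) (integral_nonneg fun _ => norm_nonneg _)
        _ ≤ _ := by rw [one_mul]; exact h2
  · set G' : ℕ+ × ℕ+ → ℝ × ℝ → ℂ := fun m p =>
      if ((b * n : ℕ) : ℤ) ∣ ((a : ℕ) : ℤ) * (m.1 : ℕ) * (m.2 : ℕ) - l then G D (m.1 : ℕ) (m.2 : ℕ) p else 0 with hG'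
    set H' : ℕ+ → ℝ × ℝ → ℂ := fun m p => (dens a b n l m : ℂ) * H D (m : ℕ) p with hH'
    have hG'm : ∀ m, AEStronglyMeasurable (G' m) mu := by
      intro m
      rw [hG']
      dsimp only
      split_ifs
      · exact (G_meas hD _ _).aestronglyMeasurable
      · exact aestronglyMeasurable_const
    have hH'm : ∀ m, AEStronglyMeasurable (H' m) mu := by
      intro m
      exact ((H_meas hD _).const_mul _).aestronglyMeasurable
    have hG's : ∑' m, ∫⁻ p, ‖G' m p‖ₑ ∂mu ≠ ⊤ := by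
      refine ne_top_of_le_ne_top hGs (ENNReal.tsum_le_tsum fun m => lintegral_mono fun p => ?_)
      rw [hG']
      dsimp only
      split_ifs
      · exact le_rfl
      · simp
    have hH's : ∑' m, ∫⁻ p, ‖H' m p‖ₑ ∂mu ≠ ⊤ := by
      refine ne_top_of_le_ne_top hHs (ENNReal.tsum_le_tsum fun m => lintegral_mono fun p => ?_)
      rw [hH']
      dsimp only
      rw [enorm_mul]
      calc ‖((dens a b n l m : ℝ) : ℂ)‖ₑ * ‖H D (m : ℕ) p‖ₑ ≤ 1 * ‖H D (m : ℕ) p‖ₑ := by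
            gcongr
            rw [← ofReal_norm, Complex.norm_real, Real.norm_of_nonneg (dens_nonneg _ _ _ _ _)]
            exact ENNReal.ofReal_le_one.2 (dens_le _ _ _ _ _)
        _ = _ := one_mul _
    have e1 : (∑' m : ℕ+ × ℕ+, if ((b * n : ℕ) : ℤ) ∣ ((a : ℕ) : ℤ) * (m.1 : ℕ) * (m.2 : ℕ) - l then
        f (m.1 : ℕ) (m.2 : ℕ) else 0) = ∫ p, ∑' m, G' m p ∂mu := by
      rw [integral_tsum hG'm hG's]
      refine tsum_congr fun m => ?_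
      rw [hG']
      dsimp only
      split_ifs
      · exact hfG m.1 (m.2 : ℕ) (by exact_mod_cast m.2.2)
      · simp
    have e2 : ∑' m : ℕ+, (dens a b n l m : ℂ) * ∫ Y in Set.Ioi (0:ℝ), f (m : ℕ) Y = ∫ p, ∑' m, H' m p ∂mu := by
      rw [integral_tsum hH'm hH's]
      refine tsum_congr fun m => ?_
      rw [hH']
      dsimp only
      rw [hHi, integral_const_mul]
    rw [e1, e2, ← integral_sub (integrable_tsum' hG'm hG's) (integrable_tsum' hH'm hH's)]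
    refine (enorm_integral_le_lintegral_enorm _).trans ?_
    refine le_trans (le_of_eq ?_) (lintegral_prod_le
      (fun p : ℝ × ℝ => ENNReal.ofReal |disc a b n l p.1 p.2| * ‖D p.1 p.2‖ₑ))
    refine lintegral_congr_ae ?_
    filter_upwards [ae_pos, ae_ne] with p hp hne
    rw [hG', hH']
    dsimp only
    rw [sumG a b n l p hp hne, sumH a b n l p hp hne, ← sub_mul, enorm_mul, ← Complex.ofReal_sub,
      ← Finset.sum_sub_distrib]
    congr 1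
    rw [← ofReal_norm, Complex.norm_real, Real.norm_eq_abs]
    rfl

end Pool.Agent.P07318f
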