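import Pool.Agent.Lib.P07318f.DefsC
import Pool.Agent.Lib.P07318s.OneVar

/-!
# The diagonal terms: shift of the contour

`f(w) = Gw s w / w · X2 x (2w) · RR H (uD s w)`, `uD s w = (s+w, 2s+w, s+w, 2s+w)`, `Pi4 (uD s w) = (2s+2w)(3s+2w)²(4s+2w)`, and
`Gw s w = exp(w²) (1-w/s)(1+w/s) (1-2w/(3s))² (1+2w/(3s))² (1-w/(2s)) (1+w/(2s))`, so `Gw s w / Pi4 = exp(w²) P(w)`,
`P(w) = (1-w/s)(1-2w/(3s))²(1-w/(2s)) / (72 s⁴)` a polynomial (this holds where `Pi4 ≠ 0`; on the path of integration and on the left line `Pi4 ≠ 0`: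
`|Re(s + w)| > 0` etc.). Cauchy on the rectangle `-1/32 ≤ Re w ≤ cz`, `|Im w| ≤ L/2` for `exp(w²) P(w) X2 x (2w) H(uD s w) / w`: (`hH.holo` with
`f = uD s`; the arguments stay in `Bx L`: `|Im| ≤ L/2 + 2ρ < L`, `|Re| ≤ 1/32 + 2ρ`), simple pole at `0` with residue `P(0) H(uD s 0) = RR H (uD s 0)`,
`uD s 0 = ![s, 2s, s, 2s]`. Left side: `≤ C B (x/2π)^(-1/16)`, horizontal sides `≤ C B x^(1/100) exp(-L²/4) (1+L)^4`. `C` may depend on `rho` (`‖s‖ = rho`) only.
(For `1 ≤ x`: `(x/2π)^(-1/16) ≤ 2 x^(-1/16)`.)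
-/

set_option autoImplicit false

namespace Pool.Agent.P07318f

open MeasureTheory Complex

namespace AbsDAux

open P07318s.OneVarAux

/-- the residue theorem for a simple pole in a rectangle -/
lemma RI_simple {G : ℂ → ℂ} {a c Y : ℝ} (ha : a < 0) (hc : 0 < c) (hY : 0 < Y)
    (hG : DifferentiableOn ℂ G (K a c Y)) :
    RI (fun s => G s * s⁻¹) a c Y = 2 * Real.pi * I * G 0 := by
  have hK : K a c Y ∈ nhds (0 : ℂ) := by
    have h1 : ∀ᶠ s : ℂ in nhds 0, a < s.re :=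
      continuous_re.continuousAt.eventually (lt_mem_nhds (by simpa using ha))
    have h2 : ∀ᶠ s : ℂ in nhds 0, s.re < c :=
      continuous_re.continuousAt.eventually (gt_mem_nhds (by simpa using hc))
    have h3 : ∀ᶠ s : ℂ in nhds 0, |s.im| < Y :=
      (continuous_abs.comp continuous_im).continuousAt.eventually
        (gt_mem_nhds (by simpa using hY))
    filter_upwards [h1, h2, h3] with s s1 s2 s3
    exact ⟨s1.le, s2.le, s3.le⟩
  have hd1 : DifferentiableOn ℂ (dslope G 0) (K a c Y) := (differentiableOn_dslope hK).mpr hG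
  set h := dslope G 0 with hh
  have hdec : ∀ s ∈ K a c Y, s ≠ 0 → G s * s⁻¹ = G 0 * s⁻¹ + h s := by
    intro s _ hs
    rw [hh, dslope_of_ne _ hs, slope_def_field, sub_zero]
    field_simp
    ring
  have c2 : Sides (fun s : ℂ => G 0 * s⁻¹) a c Y := sides ha hc hY (by
    intro s hs
    apply ContinuousAt.continuousWithinAt
    exact continuousAt_const.mul (continuousAt_inv₀ hs.2))
  have c3 : Sides h a c Y := sides ha hc hY (hd1.continuousOn.mono Set.sdiff_subset)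
  rw [RI_congr ha hc hY hdec, RI_add c2 c3, RI_mul, RI_inv ha hc hY,
    RI_zero (by linarith) hY.le hd1]
  ring

/-- shift of a contour over a simple pole -/
lemma shift {G : ℂ → ℂ} {a c Y M : ℝ} (ha : a < 0) (hc : 0 < c) (hac : c - a ≤ 1) (hY : 0 < Y)
    (hG : DifferentiableOn ℂ G (K a c Y)) (hM : 0 ≤ M)
    (hb : ∀ s : ℂ, a ≤ s.re → s.re ≤ c → |s.im| = Y → ‖G s‖ ≤ M) :
    ‖(∫ v in (-Y)..Y, G ((c : ℂ) + v * I) / ((c : ℂ) + v * I)) -
      (∫ v in (-Y)..Y, G ((a : ℂ) + v * I) / ((a : ℂ) + v * I)) - 2 * Real.pi * G 0‖ ≤ 2 * M / Y := by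
  have h1 := RI_simple ha hc hY hG
  unfold RI at h1
  have hv : ∀ x : ℝ, (∫ v in (-Y)..Y, G ((x : ℂ) + v * I) / ((x : ℂ) + v * I)) =
      vs (fun s => G s * s⁻¹) x Y := fun x => by
    unfold vs
    simp only [div_eq_mul_inv]
  rw [hv, hv]
  have h2 : I * (vs (fun s => G s * s⁻¹) c Y - vs (fun s => G s * s⁻¹) a Y - 2 * Real.pi * G 0) =
      hs (fun s => G s * s⁻¹) a c Y - hs (fun s => G s * s⁻¹) a c (-Y) := by
    linear_combination h1
  have h3 : ∀ y : ℝ, |y| = Y → ‖hs (fun s => G s * s⁻¹) a c y‖ ≤ M / Y := by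
    intro y hy
    unfold hs
    have h4 := intervalIntegral.norm_integral_le_of_norm_le_const (a := a) (b := c)
      (f := fun x : ℝ => G ((x : ℂ) + (y : ℂ) * I) * ((x : ℂ) + (y : ℂ) * I)⁻¹) (C := M / Y)
      (fun x hx => by
        rw [Set.uIoc_of_le (by linarith)] at hx
        rw [norm_mul, norm_inv, div_eq_mul_inv]
        have h5 : Y ≤ ‖(x : ℂ) + (y : ℂ) * I‖ := by
          have := Complex.abs_im_le_norm ((x : ℂ) + (y : ℂ) * I)
          rw [im_line, hy] at this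
          exact this
        exact mul_le_mul (hb _ (by rw [re_line]; exact hx.1.le) (by rw [re_line]; exact hx.2)
          (by rw [im_line]; exact hy)) (inv_anti₀ hY h5) (by positivity) hM)
    refine h4.trans ?_
    rw [abs_of_pos (by linarith)]
    exact mul_le_of_le_one_right (by positivity) hac
  calc ‖vs (fun s => G s * s⁻¹) c Y - vs (fun s => G s * s⁻¹) a Y - 2 * Real.pi * G 0‖
      = ‖I * (vs (fun s => G s * s⁻¹) c Y - vs (fun s => G s * s⁻¹) a Y - 2 * Real.pi * G 0)‖ := by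
        rw [norm_mul, norm_I, one_mul]
    _ = ‖hs (fun s => G s * s⁻¹) a c Y - hs (fun s => G s * s⁻¹) a c (-Y)‖ := by rw [h2]
    _ ≤ M / Y + M / Y := (norm_sub_le _ _).trans (add_le_add (h3 Y (abs_of_pos hY))
        (h3 (-Y) (by rw [abs_neg, abs_of_pos hY])))
    _ = 2 * M / Y := by ring

lemma gauss6 (v : ℝ) : Real.exp (-v ^ 2) * (2 + |v|) ^ 6 ≤ 1728 * Real.exp (-(v ^ 2 / 2)) := by
  have h0 := abs_nonneg v
  have h1 : (2 + |v|) ^ 2 ≤ 12 * Real.exp (v ^ 2 / 6) := by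
    have h2 := Real.add_one_le_exp (v ^ 2 / 6)
    have h3 := sq_abs v
    nlinarith [sq_nonneg (|v| - 2)]
  have h2 : (2 + |v|) ^ 6 ≤ 1728 * Real.exp (v ^ 2 / 2) := by
    calc (2 + |v|) ^ 6 = ((2 + |v|) ^ 2) ^ 3 := by ring
      _ ≤ (12 * Real.exp (v ^ 2 / 6)) ^ 3 := pow_le_pow_left₀ (by positivity) h1 3
      _ = 1728 * Real.exp (v ^ 2 / 2) := by
          rw [mul_pow, ← Real.exp_nat_mul]
          norm_num
          ring_nf
  calc Real.exp (-v ^ 2) * (2 + |v|) ^ 6 ≤ Real.exp (-v ^ 2) * (1728 * Real.exp (v ^ 2 / 2)) :=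
        mul_le_mul_of_nonneg_left h2 (Real.exp_pos _).le
    _ = 1728 * (Real.exp (-v ^ 2) * Real.exp (v ^ 2 / 2)) := by ring
    _ = 1728 * Real.exp (-(v ^ 2 / 2)) := by
        rw [← Real.exp_add]
        congr 2
        ring

/-- the Gaussian factor with a polynomial of degree at most six -/
lemma kernel_bound {w : ℂ} (hw : |w.re| ≤ 1) :
    ‖cexp (w ^ 2)‖ * (1 + ‖w‖) ^ 6 ≤ 5184 * Real.exp (-(w.im ^ 2 / 2)) := by
  rw [Complex.norm_exp]
  have e1 : (w ^ 2).re = w.re ^ 2 - w.im ^ 2 := by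
    rw [pow_two, Complex.mul_re]
    ring
  have e2 : Real.exp ((w ^ 2).re) ≤ 3 * Real.exp (-w.im ^ 2) := by
    have h1 : Real.exp 1 ≤ 3 := by
      have := Real.exp_one_lt_d9
      linarith
    have h2 : Real.exp ((w ^ 2).re) ≤ Real.exp 1 * Real.exp (-w.im ^ 2) := by
      rw [← Real.exp_add, e1]
      apply Real.exp_le_exp.mpr
      have := abs_le.1 hw
      nlinarith
    exact h2.trans (mul_le_mul_of_nonneg_right h1 (Real.exp_pos _).le)
  have e3 : 1 + ‖w‖ ≤ 2 + |w.im| := by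
    have := Complex.norm_le_abs_re_add_abs_im w
    linarith
  calc Real.exp ((w ^ 2).re) * (1 + ‖w‖) ^ 6 ≤ (3 * Real.exp (-w.im ^ 2)) * (2 + |w.im|) ^ 6 :=
        mul_le_mul e2 (pow_le_pow_left₀ (by positivity) e3 6) (by positivity) (by positivity)
    _ = 3 * (Real.exp (-w.im ^ 2) * (2 + |w.im|) ^ 6) := by ring
    _ ≤ 3 * (1728 * Real.exp (-(w.im ^ 2 / 2))) := mul_le_mul_of_nonneg_left (gauss6 _) (by norm_num)
    _ = _ := by ring

lemma gauss_int (Y : ℝ) (hY : 0 ≤ Y) : ∫ v in (-Y)..Y, Real.exp (-(v ^ 2 / 2)) ≤ 2 * Real.pi := by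
  have h1 : ∀ v : ℝ, Real.exp (-(v ^ 2 / 2)) ≤ 2 * (1 / (1 + v ^ 2)) := by
    intro v
    have h2 := Real.add_one_le_exp (v ^ 2 / 2)
    rw [Real.exp_neg, mul_one_div, inv_eq_one_div, div_le_div_iff₀ (Real.exp_pos _) (by positivity)]
    nlinarith
  have h3 : IntervalIntegrable (fun v : ℝ => 2 * (1 / (1 + v ^ 2))) volume (-Y) Y := by
    apply Continuous.intervalIntegrable
    refine continuous_const.mul (continuous_const.div (by fun_prop) fun v => ?_)
    positivity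
  have h4 := intervalIntegral.integral_mono_on (by linarith) (Continuous.intervalIntegrable
    (by fun_prop : Continuous fun v : ℝ => Real.exp (-(v ^ 2 / 2))) (-Y) Y) h3 fun v _ => h1 v
  refine h4.trans ?_
  rw [intervalIntegral.integral_const_mul, integral_one_div_one_add_sq]
  have h5 := Real.arctan_lt_pi_div_two Y
  have h6 := Real.neg_pi_div_two_lt_arctan (-Y)
  linarith

lemma rho_pos : 0 < rho := by unfold rho; positivity

/-- linear factors -/
lemma lin_bound {s w t : ℂ} (hs : ‖s‖ = rho) (ht : ‖t‖ ≤ 1) :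
    ‖1 - t * w / s‖ ≤ rho⁻¹ * (1 + ‖w‖) := by
  have hr := rho_pos
  have hr1 : 1 ≤ rho⁻¹ := by
    rw [one_le_inv₀ hr]
    unfold rho
    norm_num
  have h1 : ‖1 - t * w / s‖ ≤ 1 + ‖w‖ / rho := by
    refine (norm_sub_le _ _).trans ?_
    rw [norm_one, norm_div, norm_mul, hs]
    have h2 : ‖t‖ * ‖w‖ ≤ ‖w‖ := mul_le_of_le_one_left (norm_nonneg _) ht
    have := div_le_div_of_nonneg_right h2 hr.le
    linarith
  refine h1.trans ?_
  rw [mul_add, mul_one, div_eq_inv_mul]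
  linarith

/-- the polynomial -/
noncomputable def P (s w : ℂ) : ℂ :=
  (1 - 1 * w / s) * (1 - (2 / 3) * w / s) ^ 2 * (1 - (1 / 2) * w / s) / (72 * s ^ 4)

lemma Gw_eq {s : ℂ} (hs : s ≠ 0) (w : ℂ) :
    Gw s w = cexp (w ^ 2) * P s w * Pi4 (uD s w) := by
  unfold Gw P Pi4 uD
  simp only [Matrix.cons_val_zero, Matrix.cons_val_one, Matrix.cons_val]
  field_simp
  ring

lemma P_bound {s w : ℂ} (hs : ‖s‖ = rho) : ‖P s w‖ ≤ rho⁻¹ ^ 8 * (1 + ‖w‖) ^ 6 := by
  have hr := rho_pos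
  have hr1 : 1 ≤ rho⁻¹ := by
    rw [one_le_inv₀ hr]
    unfold rho
    norm_num
  unfold P
  have h1 := lin_bound (w := w) (t := 1) hs (by simp)
  have h2 := lin_bound (w := w) (t := 2 / 3) hs (by norm_num)
  have h3 := lin_bound (w := w) (t := 1 / 2) hs (by norm_num)
  rw [norm_div, norm_mul, norm_mul, norm_pow, norm_mul, norm_pow, hs]
  have h72 : ‖(72 : ℂ)‖ = 72 := by simp
  rw [h72]
  set y : ℝ := rho⁻¹ * (1 + ‖w‖) with hy
  have hy0 : 0 ≤ y := by positivity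
  have h4 : ‖1 - 1 * w / s‖ * ‖1 - 2 / 3 * w / s‖ ^ 2 * ‖1 - 1 / 2 * w / s‖ ≤ y * y ^ 2 * y := by
    gcongr
  have h5 : (72 * rho ^ 4)⁻¹ ≤ rho⁻¹ ^ 4 := by
    rw [mul_inv, inv_pow]
    exact mul_le_of_le_one_left (by positivity) (by norm_num)
  have hw1 : 1 ≤ 1 + ‖w‖ := by linarith [norm_nonneg w]
  calc ‖1 - 1 * w / s‖ * ‖1 - 2 / 3 * w / s‖ ^ 2 * ‖1 - 1 / 2 * w / s‖ / (72 * rho ^ 4)
      ≤ (y * y ^ 2 * y) * rho⁻¹ ^ 4 := by
        rw [div_eq_mul_inv]
        exact mul_le_mul h4 h5 (by positivity) (by positivity)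
    _ = rho⁻¹ ^ 8 * (1 + ‖w‖) ^ 4 := by rw [hy]; ring
    _ ≤ rho⁻¹ ^ 8 * (1 + ‖w‖) ^ 6 :=
        mul_le_mul_of_nonneg_left (pow_le_pow_right₀ hw1 (by norm_num)) (by positivity)

lemma norm_X2 {x : ℝ} (hx : 0 < x) (z : ℂ) : ‖X2 x z‖ = (x / (2 * Real.pi)) ^ z.re := by
  unfold X2
  rw [Complex.norm_cpow_eq_rpow_re_of_pos (by positivity)]

lemma X2_zero (x : ℝ) : X2 x 0 = 1 := by
  unfold X2
  rw [cpow_zero]

lemma X2_left {x : ℝ} (hx : 1 ≤ x) :
    (x / (2 * Real.pi)) ^ (-(1 / 16) : ℝ) ≤ 2 * x ^ (-(1 / 16) : ℝ) := by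
  have hp := Real.pi_pos
  rw [Real.div_rpow (by linarith) (by positivity), div_eq_mul_inv, mul_comm]
  refine mul_le_mul_of_nonneg_right ?_ (by positivity)
  rw [← Real.rpow_neg (by positivity), neg_neg]
  have h1 : 2 * Real.pi ≤ (2 : ℝ) ^ (16 : ℝ) := by
    have := Real.pi_lt_four
    norm_num
    linarith
  calc (2 * Real.pi) ^ (1 / 16 : ℝ) ≤ ((2 : ℝ) ^ (16 : ℝ)) ^ (1 / 16 : ℝ) :=
        Real.rpow_le_rpow (by positivity) h1 (by norm_num)
    _ = 2 := by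
        rw [← Real.rpow_mul (by norm_num)]
        norm_num

lemma X2_mid {x σ : ℝ} (hx : 1 ≤ x) (h1 : -(1 / 16) ≤ σ) (h2 : σ ≤ 1 / 100) :
    (x / (2 * Real.pi)) ^ σ ≤ 3 * x ^ (1 / 100 : ℝ) := by
  have hp := Real.pi_gt_three
  have hX : 0 < x / (2 * Real.pi) := by positivity
  have h3 := rpow_between hX h1 h2
  have h4 := X2_left hx
  have h5 : x ^ (-(1 / 16) : ℝ) ≤ x ^ (1 / 100 : ℝ) :=
    Real.rpow_le_rpow_of_exponent_le hx (by norm_num)
  have h6 : (x / (2 * Real.pi)) ^ (1 / 100 : ℝ) ≤ x ^ (1 / 100 : ℝ) := by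
    refine Real.rpow_le_rpow hX.le ?_ (by norm_num)
    exact div_le_self (by linarith) (by linarith)
  linarith

lemma X2_diff {x : ℝ} (hx : 0 < x) (c : ℂ) : Differentiable ℂ fun w : ℂ => X2 x (c * w) := by
  intro w
  unfold X2
  have h0 : ((x / (2 * Real.pi) : ℝ) : ℂ) ≠ 0 := by
    have : 0 < x / (2 * Real.pi) := by positivity
    exact_mod_cast this.ne'
  exact DifferentiableAt.const_cpow (by fun_prop) (Or.inl h0)

end AbsDAux

open AbsDAux P07318s.OneVarAux in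
theorem abs_d : ∃ C : ℝ, 0 < C ∧ ∀ (x L B : ℝ) (H : (Fin 4 → ℂ) → ℂ) (s : ℂ), 1 ≤ x → 1 ≤ L → Hol4 L B H → ‖s‖ = rho →
    ‖DT H s x L - RR H ![s, 2 * s, s, 2 * s]‖ ≤
      C * B * (x ^ (-(1 / 16) : ℝ) + x ^ (1 / 100 : ℝ) * Real.exp (-(L ^ 2 / 1000))) := by
  refine ⟨5184 * rho⁻¹ ^ 8 * 1000, by have := rho_pos; positivity, ?_⟩
  intro x L B H s hx hL hH hs
  have hr := rho_pos
  have hrho : rho = 1 / 10 ^ 7 := rfl
  have hczv : cz = 1 / 10 ^ 5 := rfl
  have hx0 : 0 < x := by linarith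
  have hs0 : s ≠ 0 := by
    intro h
    rw [h, norm_zero] at hs
    linarith
  have hre : |s.re| ≤ rho := hs ▸ Complex.abs_re_le_norm s
  have him : |s.im| ≤ rho := hs ▸ Complex.abs_im_le_norm s
  have hre' := abs_le.1 hre
  have him' := abs_le.1 him
  have hB : 0 ≤ B := (norm_nonneg _).trans (hH.bound (fun _ => 0) (fun _ => by
    simp only [zero_re, zero_im, abs_zero]
    exact ⟨by norm_num, by linarith⟩))
  obtain ⟨a, ha⟩ : ∃ a : ℝ, a = -(1 / 32) := ⟨_, rfl⟩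
  obtain ⟨Y, hY⟩ : ∃ Y : ℝ, Y = L / 2 := ⟨_, rfl⟩
  have hY0 : 0 < Y := by linarith
  -- the function
  set G : ℂ → ℂ := fun w => cexp (w ^ 2) * P s w * X2 x (2 * w) * H (uD s w) with hG
  -- the arguments are in the box
  have hbox : ∀ w : ℂ, |w.re| < 1 / 20 → |w.im| < 3 / 4 * L → uD s w ∈ Bx L := by
    intro w h1 h2
    rw [abs_lt] at h1 h2
    rw [hrho] at hre' him'
    intro i
    fin_cases i <;> simp only [uD, Matrix.cons_val_zero, Matrix.cons_val_one, Matrix.cons_val,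
      add_re, add_im, mul_re, mul_im, re_ofNat, im_ofNat, zero_mul, sub_zero, add_zero, abs_lt,
      Fin.zero_eta, Fin.mk_one, Fin.reduceFinMk] <;>
      refine ⟨⟨?_, ?_⟩, ⟨?_, ?_⟩⟩ <;> linarith
  have hKbox : ∀ w ∈ K a cz Y, |w.re| < 1 / 20 ∧ |w.im| < 3 / 4 * L := by
    rintro w ⟨h1, h2, h3⟩
    refine ⟨?_, ?_⟩
    · rw [abs_lt]
      rw [hczv] at h2
      constructor <;> linarith
    · linarith
  have hHd : DifferentiableOn ℂ (fun w => H (uD s w)) {w : ℂ | |w.re| < 1 / 20 ∧ |w.im| < 3 / 4 * L} := by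
    refine hH.holo (uD s) _ ?_ ?_ fun w hw => hbox w hw.1 hw.2
    · exact (isOpen_lt (continuous_abs.comp continuous_re) continuous_const).inter
        (isOpen_lt (continuous_abs.comp continuous_im) continuous_const)
    · intro i
      fin_cases i <;> simp only [uD, Matrix.cons_val_zero, Matrix.cons_val_one, Matrix.cons_val,
        Fin.zero_eta, Fin.mk_one, Fin.reduceFinMk] <;> fun_prop
  have hGd : DifferentiableOn ℂ G (K a cz Y) := by
    have h1 : DifferentiableOn ℂ (fun w : ℂ => cexp (w ^ 2) * P s w) (K a cz Y) := by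
      unfold P
      fun_prop
    have h2 : DifferentiableOn ℂ (fun w : ℂ => X2 x (2 * w)) (K a cz Y) :=
      (X2_diff hx0 2).differentiableOn
    exact (h1.mul h2).mul (hHd.mono fun w hw => hKbox w hw)
  -- bound
  have hGb : ∀ w : ℂ, a ≤ w.re → w.re ≤ cz → |w.im| ≤ Y → ∀ T : ℝ, 0 ≤ T →
      (x / (2 * Real.pi)) ^ (2 * w.re) ≤ T →
      ‖G w‖ ≤ 5184 * rho⁻¹ ^ 8 * B * T * Real.exp (-(w.im ^ 2 / 2)) := by
    intro w h1 h2 h3 T hT0 hT
    have h4 := hKbox w ⟨h1, h2, h3⟩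
    have h5 := hH.bound _ (hbox w h4.1 h4.2)
    have h6 := kernel_bound (w := w) (by linarith [h4.1])
    have h7 := P_bound (w := w) hs
    have h8 : ‖X2 x (2 * w)‖ ≤ T := by
      rw [norm_X2 hx0]
      have : (2 * w).re = 2 * w.re := by simp
      rw [this]
      exact hT
    rw [hG]
    simp only [norm_mul]
    calc ‖cexp (w ^ 2)‖ * ‖P s w‖ * ‖X2 x (2 * w)‖ * ‖H (uD s w)‖
        ≤ ‖cexp (w ^ 2)‖ * (rho⁻¹ ^ 8 * (1 + ‖w‖) ^ 6) * T * B := by gcongr
      _ = rho⁻¹ ^ 8 * (‖cexp (w ^ 2)‖ * (1 + ‖w‖) ^ 6) * T * B := by ring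
      _ ≤ rho⁻¹ ^ 8 * (5184 * Real.exp (-(w.im ^ 2 / 2))) * T * B := by gcongr
      _ = _ := by ring
  -- the horizontal sides
  set M : ℝ := 5184 * rho⁻¹ ^ 8 * B * (3 * x ^ (1 / 100 : ℝ)) * Real.exp (-(Y ^ 2 / 2)) with hM
  have hM0 : 0 ≤ M := by positivity
  have hsh := shift (G := G) (a := a) (c := cz) (Y := Y) (M := M) (by rw [ha]; norm_num)
    (by rw [hczv]; norm_num) (by rw [ha, hczv]; norm_num) hY0 hGd hM0 (fun w h1 h2 h3 => by
      have h4 := hGb w h1 h2 h3.le (3 * x ^ (1 / 100 : ℝ)) (by positivity)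
        (X2_mid hx (by linarith) (by rw [hczv] at h2; linarith))
      have h5 : w.im ^ 2 = Y ^ 2 := by rw [← sq_abs, h3]
      rw [h5] at h4
      exact h4)
  -- the left side
  have hleft : ‖∫ v in (-Y)..Y, G ((a : ℂ) + v * I) / ((a : ℂ) + v * I)‖ ≤
      5184 * rho⁻¹ ^ 8 * B * (2 * x ^ (-(1 / 16) : ℝ)) * 32 * (2 * Real.pi) := by
    have h1 : ∀ v : ℝ, |v| ≤ Y → ‖G ((a : ℂ) + v * I) / ((a : ℂ) + v * I)‖ ≤
        5184 * rho⁻¹ ^ 8 * B * (2 * x ^ (-(1 / 16) : ℝ)) * 32 * Real.exp (-(v ^ 2 / 2)) := by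
      intro v hv
      have h2 := hGb ((a : ℂ) + v * I) (by rw [re_line])
        (by rw [re_line, ha, hczv]; norm_num) (by rw [im_line]; exact hv)
        (2 * x ^ (-(1 / 16) : ℝ)) (by positivity) (by
          rw [re_line, ha]
          have : 2 * -(1 / 32 : ℝ) = -(1 / 16) := by norm_num
          rw [this]
          exact X2_left hx)
      rw [im_line] at h2
      have h3 : 1 / 32 ≤ ‖(a : ℂ) + v * I‖ := by
        have h4 := Complex.abs_re_le_norm ((a : ℂ) + v * I)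
        rw [re_line] at h4
        have h5 : |a| = 1 / 32 := by rw [ha, abs_neg, abs_of_pos (by norm_num)]
        rwa [h5] at h4
      rw [norm_div, div_eq_mul_inv]
      have h4 : ‖(a : ℂ) + v * I‖⁻¹ ≤ 32 := by
        have := inv_anti₀ (by norm_num : (0 : ℝ) < 1 / 32) h3
        norm_num at this
        exact this
      calc ‖G ((a : ℂ) + v * I)‖ * ‖(a : ℂ) + v * I‖⁻¹
          ≤ (5184 * rho⁻¹ ^ 8 * B * (2 * x ^ (-(1 / 16) : ℝ)) * Real.exp (-(v ^ 2 / 2))) * 32 :=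
            mul_le_mul h2 h4 (by positivity) (by positivity)
        _ = _ := by ring
    have h5 : ‖∫ v in (-Y)..Y, G ((a : ℂ) + v * I) / ((a : ℂ) + v * I)‖ ≤
        ∫ v in (-Y)..Y, 5184 * rho⁻¹ ^ 8 * B * (2 * x ^ (-(1 / 16) : ℝ)) * 32 *
          Real.exp (-(v ^ 2 / 2)) := by
      refine intervalIntegral.norm_integral_le_of_norm_le (by linarith) ?_
        (Continuous.intervalIntegrable (by fun_prop) _ _)
      refine Filter.Eventually.of_forall fun v hv => h1 v ?_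
      exact abs_le.2 ⟨hv.1.le, hv.2⟩
    refine h5.trans ?_
    rw [intervalIntegral.integral_const_mul]
    exact mul_le_mul_of_nonneg_left (gauss_int Y hY0.le) (by positivity)
  -- the integrand on the line
  have hDT : DT H s x L = (2 * Real.pi : ℂ)⁻¹ *
      ∫ v in (-Y)..Y, G ((cz : ℂ) + v * I) / ((cz : ℂ) + v * I) := by
    unfold DT
    rw [← hY]
    congr 1
    refine intervalIntegral.integral_congr fun v _ => ?_
    set w : ℂ := (cz : ℂ) + v * I with hw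
    have hwre : w.re = cz := by rw [hw, re_line]
    have hne : ∀ c : ℝ, 1 ≤ c → c ≤ 4 → ∀ d : ℝ, d = 2 → (c : ℂ) * s + (d : ℂ) * w ≠ 0 := by
      intro c hc1 hc4 d hd h
      have h1 := congrArg Complex.re h
      rw [add_re, re_ofReal_mul, re_ofReal_mul, zero_re, hwre, hd, hczv] at h1
      rw [hrho] at hre'
      nlinarith
    have hPi : Pi4 (uD s w) ≠ 0 := by
      unfold Pi4 uD
      simp only [Matrix.cons_val_zero, Matrix.cons_val_one, Matrix.cons_val]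
      have e1 := hne 2 (by norm_num) (by norm_num) 2 rfl
      have e2 := hne 3 (by norm_num) (by norm_num) 2 rfl
      have e3 := hne 4 (by norm_num) (by norm_num) 2 rfl
      push_cast at e1 e2 e3
      refine mul_ne_zero (mul_ne_zero ?_ ?_) (mul_ne_zero ?_ ?_)
      · convert e1 using 1; ring
      · convert e2 using 1; ring
      · convert e2 using 1; ring
      · convert e3 using 1; ring
    change Gw s w / w * X2 x (2 * w) * RR H (uD s w) =
      cexp (w ^ 2) * P s w * X2 x (2 * w) * H (uD s w) / w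
    unfold RR
    rw [Gw_eq hs0 w]
    field_simp
  have hRR : RR H ![s, 2 * s, s, 2 * s] = G 0 := by
    change RR H ![s, 2 * s, s, 2 * s] = cexp (0 ^ 2) * P s 0 * X2 x (2 * 0) * H (uD s 0)
    have h1 : uD s 0 = ![s, 2 * s, s, 2 * s] := by
      unfold uD
      simp
    rw [mul_zero, X2_zero, h1]
    unfold RR P Pi4
    simp only [Matrix.cons_val_zero, Matrix.cons_val_one, Matrix.cons_val]
    simp only [ne_eq, OfNat.ofNat_ne_zero, not_false_eq_true, zero_pow, exp_zero, mul_zero,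
      zero_div, sub_zero, one_pow, mul_one, one_mul]
    field_simp
    ring
  rw [hDT, hRR]
  have hpi0 : (2 * Real.pi : ℂ) ≠ 0 := by
    have := Real.pi_pos
    exact_mod_cast (by positivity : (2 * Real.pi : ℝ) ≠ 0)
  have hpin : ‖(2 * Real.pi : ℂ)⁻¹‖ ≤ 1 := by
    rw [norm_inv]
    have h1 : ‖(2 * Real.pi : ℂ)‖ = 2 * Real.pi := by
      have h2 : (2 * Real.pi : ℂ) = ((2 * Real.pi : ℝ) : ℂ) := by push_cast; rfl
      rw [h2, Complex.norm_real, Real.norm_of_nonneg (by positivity)]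
    rw [h1]
    exact inv_le_one_of_one_le₀ (by linarith [Real.pi_gt_three])
  set I1 := ∫ v in (-Y)..Y, G ((cz : ℂ) + v * I) / ((cz : ℂ) + v * I) with hI1
  set I2 := ∫ v in (-Y)..Y, G ((a : ℂ) + v * I) / ((a : ℂ) + v * I) with hI2
  have hfin : (2 * Real.pi : ℂ)⁻¹ * I1 - G 0 = (2 * Real.pi : ℂ)⁻¹ *
      ((I1 - I2 - 2 * Real.pi * G 0) + I2) := by
    field_simp
    ring
  rw [hfin, norm_mul]
  have hsum : ‖(I1 - I2 - 2 * Real.pi * G 0) + I2‖ ≤ 2 * M / Y +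
      5184 * rho⁻¹ ^ 8 * B * (2 * x ^ (-(1 / 16) : ℝ)) * 32 * (2 * Real.pi) :=
    (norm_add_le _ _).trans (add_le_add hsh hleft)
  have hexp : Real.exp (-(Y ^ 2 / 2)) ≤ Real.exp (-(L ^ 2 / 1000)) := by
    apply Real.exp_le_exp.2
    rw [hY]
    nlinarith
  have hYinv : 2 * M / Y ≤ 4 * M := by
    rw [div_le_iff₀ hY0, hY]
    nlinarith
  have hM2 : M ≤ 5184 * rho⁻¹ ^ 8 * B * (3 * x ^ (1 / 100 : ℝ)) * Real.exp (-(L ^ 2 / 1000)) :=
    mul_le_mul_of_nonneg_left hexp (by positivity)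
  have hpi4 := Real.pi_lt_four
  set Q : ℝ := 5184 * rho⁻¹ ^ 8 * B with hQ
  have hQ0 : 0 ≤ Q := by positivity
  set x1 : ℝ := x ^ (-(1 / 16) : ℝ) with hx1
  have hx10 : 0 ≤ x1 := by positivity
  set x2 : ℝ := x ^ (1 / 100 : ℝ) * Real.exp (-(L ^ 2 / 1000)) with hx2
  have hx20 : 0 ≤ x2 := by positivity
  calc ‖(2 * Real.pi : ℂ)⁻¹‖ * ‖(I1 - I2 - 2 * Real.pi * G 0) + I2‖
      ≤ 1 * (2 * M / Y + Q * (2 * x1) * 32 * (2 * Real.pi)) :=
        mul_le_mul hpin hsum (norm_nonneg _) (by norm_num)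
    _ ≤ 4 * (Q * 3 * x2) + Q * (2 * x1) * 32 * (2 * 4) := by
        have h1 : M ≤ Q * 3 * x2 := by
          refine hM2.trans (le_of_eq ?_)
          rw [hx2]
          ring
        have h2 : Q * (2 * x1) * 32 * (2 * Real.pi) ≤ Q * (2 * x1) * 32 * (2 * 4) :=
          mul_le_mul_of_nonneg_left (by linarith) (by positivity)
        linarith
    _ ≤ 1000 * Q * (x1 + x2) := by
        have := mul_nonneg hQ0 hx10
        have := mul_nonneg hQ0 hx20
        nlinarith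
    _ = 5184 * rho⁻¹ ^ 8 * 1000 * B * (x1 + x2) := by
        rw [hQ]
        ring

end Pool.Agent.P07318f
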