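import Pool.Agent.Lib.P07318f.DefsC
import Pool.Agent.Lib.P07318f.AbsD

/-!
# The last integral over `w`

`uW s α β w = (3s-α+w, -β-w, 3s-β+w, -α-w)`, `Pi4 = (6s-α-β+2w)(3s-2α)(3s-2β)(-α-β-2w)`. For `(α,β) = (s,s)` the zeros in `w` are `-2s` and `-s`, for
`(2s,2s)` they are `-s` and `-2s`, for `(s,2s)`, `(2s,s)` a double zero at `-3s/2`: in each case `Gw s w / Pi4(uW)` is `exp(w²)` times a polynomial (as in
`AbsD`), so `Gw s w/w · RR H (uW)` is `exp(w²) P(w) H(uW)/w` off the zeros, holomorphic on `|Re w| ≤ cw`, `|Im w| ≤ L/8` except the simple pole `w = 0`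
with residue `RR H ![3s-α, -β, 3s-β, -α]` (`Gw s 0 = 1`, `3s-2α = ±s ≠ 0`). `abs_w1`: Cauchy on this rectangle, horizontal sides
`≤ C B exp(-L²/64)(1+L)^5 ≤ C' B exp(-L²/1000)` (`|P| ≤ C(1+|w|)^4`, `C` depends on `rho`).
`abs_w2`: substitute `v ↦ -v` and put `w' = -(cw - i v)`-wise, i.e. `w ↦ -w`: `Gw` is even in `s` and in `w`, `dw/w` changes sign, and
`uW (-s) (-α) (-β) (-w) = (-(3s-α)-w, β+w, -(3s-β)-w, α+w)`, by the symmetry of `RR H` (`Sym4 H`, `Pi4` symmetric) it may be replaced by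
`(β+w, -(3s-α)-w, α+w, -(3s-β)-w) = uW s (3s-β) (3s-α) w`.
-/

set_option autoImplicit false

namespace Pool.Agent.P07318f

open MeasureTheory Complex

namespace AbsWAux

open P07318s.OneVarAux AbsDAux

/-- the case of equal shifts -/
noncomputable def Q1 (s w : ℂ) : ℂ :=
  (1 - 1 * w / s) * (1 - (1 / 2) * w / s) * (1 - (2 / 3) * w / s) ^ 2 * (1 - (-(2 / 3)) * w / s) ^ 2 /
    (-8 * s ^ 4)

/-- the case of different shifts -/
noncomputable def Q2 (s w : ℂ) : ℂ :=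
  (1 - 1 * w / s) * (1 - (-1) * w / s) * ((1 - (1 / 2) * w / s) * (1 - (-(1 / 2)) * w / s)) *
    (1 - (2 / 3) * w / s) ^ 2 / (9 * s ^ 4)

lemma prod6 {a b c d e f y : ℝ} (ha0 : 0 ≤ a) (hb0 : 0 ≤ b) (hc0 : 0 ≤ c) (hd0 : 0 ≤ d) (he0 : 0 ≤ e)
    (hf0 : 0 ≤ f) (ha : a ≤ y) (hb : b ≤ y) (hc : c ≤ y) (hd : d ≤ y) (he : e ≤ y) (hf : f ≤ y) :
    a * b * (c * d) * (e * f) ≤ y ^ 6 := by
  have hy : 0 ≤ y := ha0.trans ha
  calc a * b * (c * d) * (e * f) ≤ y * y * (y * y) * (y * y) := by gcongr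
    _ = y ^ 6 := by ring

lemma inv_small {k : ℝ} (hk : 1 ≤ k) : (k * rho ^ 4)⁻¹ ≤ rho⁻¹ ^ 4 := by
  have hr := rho_pos
  rw [mul_inv, inv_pow]
  exact mul_le_of_le_one_left (by positivity) (inv_le_one_of_one_le₀ hk)

lemma Q1_bound {s w : ℂ} (hs : ‖s‖ = rho) : ‖Q1 s w‖ ≤ rho⁻¹ ^ 10 * (1 + ‖w‖) ^ 6 := by
  have hr := rho_pos
  have h1 := lin_bound (w := w) (t := 1) hs (by simp)
  have h2 := lin_bound (w := w) (t := 1 / 2) hs (by norm_num)
  have h3 := lin_bound (w := w) (t := 2 / 3) hs (by norm_num)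
  have h4 := lin_bound (w := w) (t := -(2 / 3)) hs (by norm_num)
  have h5 := prod6 (norm_nonneg _) (norm_nonneg _) (norm_nonneg _) (norm_nonneg _) (norm_nonneg _)
    (norm_nonneg _) h1 h2 h3 h3 h4 h4
  unfold Q1
  rw [norm_div, norm_mul, norm_mul, norm_mul, norm_pow, norm_pow, norm_mul, norm_pow, hs]
  have h8 : ‖(-8 : ℂ)‖ = 8 := by simp
  rw [h8]
  calc ‖1 - 1 * w / s‖ * ‖1 - 1 / 2 * w / s‖ * ‖1 - 2 / 3 * w / s‖ ^ 2 *
        ‖1 - -(2 / 3) * w / s‖ ^ 2 / (8 * rho ^ 4)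
      = ‖1 - 1 * w / s‖ * ‖1 - 1 / 2 * w / s‖ * (‖1 - 2 / 3 * w / s‖ * ‖1 - 2 / 3 * w / s‖) *
        (‖1 - -(2 / 3) * w / s‖ * ‖1 - -(2 / 3) * w / s‖) * (8 * rho ^ 4)⁻¹ := by
        rw [div_eq_mul_inv]; ring
    _ ≤ (rho⁻¹ * (1 + ‖w‖)) ^ 6 * rho⁻¹ ^ 4 :=
        mul_le_mul h5 (inv_small (by norm_num)) (by positivity) (by positivity)
    _ = _ := by ring

lemma Q2_bound {s w : ℂ} (hs : ‖s‖ = rho) : ‖Q2 s w‖ ≤ rho⁻¹ ^ 10 * (1 + ‖w‖) ^ 6 := by
  have hr := rho_pos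
  have h1 := lin_bound (w := w) (t := 1) hs (by simp)
  have h1' := lin_bound (w := w) (t := -1) hs (by simp)
  have h2 := lin_bound (w := w) (t := 1 / 2) hs (by norm_num)
  have h2' := lin_bound (w := w) (t := -(1 / 2)) hs (by norm_num)
  have h3 := lin_bound (w := w) (t := 2 / 3) hs (by norm_num)
  have h5 := prod6 (norm_nonneg _) (norm_nonneg _) (norm_nonneg _) (norm_nonneg _) (norm_nonneg _)
    (norm_nonneg _) h1 h1' h2 h2' h3 h3
  unfold Q2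
  rw [norm_div, norm_mul, norm_mul, norm_mul, norm_mul, norm_pow, norm_mul, norm_pow, hs]
  have h8 : ‖(9 : ℂ)‖ = 9 := by simp
  rw [h8]
  calc ‖1 - 1 * w / s‖ * ‖1 - -1 * w / s‖ * (‖1 - 1 / 2 * w / s‖ * ‖1 - -(1 / 2) * w / s‖) *
        ‖1 - 2 / 3 * w / s‖ ^ 2 / (9 * rho ^ 4)
      = ‖1 - 1 * w / s‖ * ‖1 - -1 * w / s‖ * (‖1 - 1 / 2 * w / s‖ * ‖1 - -(1 / 2) * w / s‖) *
        (‖1 - 2 / 3 * w / s‖ * ‖1 - 2 / 3 * w / s‖) * (9 * rho ^ 4)⁻¹ := by
        rw [div_eq_mul_inv]; ring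
    _ ≤ (rho⁻¹ * (1 + ‖w‖)) ^ 6 * rho⁻¹ ^ 4 :=
        mul_le_mul h5 (inv_small (by norm_num)) (by positivity) (by positivity)
    _ = _ := by ring

/-- the quotient of the weight by the denominator -/
lemma exists_Q {s α β : ℂ} (hs : ‖s‖ = rho) (hα : α = s ∨ α = 2 * s) (hβ : β = s ∨ β = 2 * s) :
    ∃ Q : ℂ → ℂ, Differentiable ℂ Q ∧ (∀ w, Gw s w = cexp (w ^ 2) * Q w * Pi4 (uW s α β w)) ∧
      ∀ w, ‖Q w‖ ≤ rho⁻¹ ^ 10 * (1 + ‖w‖) ^ 6 := by
  have hs0 : s ≠ 0 := by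
    intro h
    have := rho_pos
    rw [h, norm_zero] at hs
    linarith
  have hd1 : Differentiable ℂ (Q1 s) := by
    unfold Q1
    fun_prop
  have hd2 : Differentiable ℂ (Q2 s) := by
    unfold Q2
    fun_prop
  rcases hα with rfl | rfl <;> rcases hβ with rfl | rfl
  · refine ⟨Q1 β, hd1, fun w => ?_, fun w => Q1_bound hs⟩
    unfold Gw Q1 Pi4 uW
    simp only [Matrix.cons_val_zero, Matrix.cons_val_one, Matrix.cons_val]
    field_simp
    ring
  · refine ⟨Q2 α, hd2, fun w => ?_, fun w => Q2_bound hs⟩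
    unfold Gw Q2 Pi4 uW
    simp only [Matrix.cons_val_zero, Matrix.cons_val_one, Matrix.cons_val]
    field_simp
    ring
  · refine ⟨Q2 β, hd2, fun w => ?_, fun w => Q2_bound hs⟩
    unfold Gw Q2 Pi4 uW
    simp only [Matrix.cons_val_zero, Matrix.cons_val_one, Matrix.cons_val]
    field_simp
    ring
  · refine ⟨Q1 s, hd1, fun w => ?_, fun w => Q1_bound hs⟩
    unfold Gw Q1 Pi4 uW
    simp only [Matrix.cons_val_zero, Matrix.cons_val_one, Matrix.cons_val]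
    field_simp
    ring

lemma Gw_zero (s : ℂ) : Gw s 0 = 1 := by
  unfold Gw
  simp

lemma Gw_ne {s w : ℂ} (hs : s ≠ 0) (hw : 2 * ‖s‖ < ‖w‖) : Gw s w ≠ 0 := by
  have hs' : 0 < ‖s‖ := norm_pos_iff.2 hs
  have key : ∀ c : ℝ, 0 < c → c ≤ 4 → ∀ u : ℂ, (c : ℂ) * s ^ 2 = u → w ^ 2 = u → False := by
    intro c hc hc4 u h1 h2
    have h3 : ‖w‖ ^ 2 = c * ‖s‖ ^ 2 := by
      rw [← norm_pow, h2, ← h1, norm_mul, norm_pow, Complex.norm_real, Real.norm_of_nonneg hc.le]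
    nlinarith
  unfold Gw
  refine mul_ne_zero (exp_ne_zero _) (mul_ne_zero (mul_ne_zero ?_ (pow_ne_zero 2 ?_)) ?_)
  · intro h
    refine key 1 one_pos (by norm_num) (s ^ 2) (by simp) ?_
    rw [sub_eq_zero, eq_div_iff (pow_ne_zero 2 hs), one_mul] at h
    exact h.symm
  · intro h
    refine key (9 / 4) (by norm_num) (by norm_num) (9 / 4 * s ^ 2) (by push_cast; ring) ?_
    rw [sub_eq_zero, eq_div_iff (mul_ne_zero (by norm_num) (pow_ne_zero 2 hs)), one_mul] at h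
    linear_combination -(1 / 4) * h
  · intro h
    refine key 4 (by norm_num) le_rfl (4 * s ^ 2) (by push_cast; ring) ?_
    rw [sub_eq_zero, eq_div_iff (mul_ne_zero (by norm_num) (pow_ne_zero 2 hs)), one_mul] at h
    exact h.symm

end AbsWAux

open AbsWAux AbsDAux P07318s.OneVarAux in
theorem abs_w1 : ∃ C : ℝ, 0 < C ∧ ∀ (L B : ℝ) (H : (Fin 4 → ℂ) → ℂ) (s α β : ℂ), 1 ≤ L → Hol4 L B H → ‖s‖ = rho →
    (α = s ∨ α = 2 * s) → (β = s ∨ β = 2 * s) →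
    ‖WT cw H s α β L - WT (-cw) H s α β L - RR H ![3 * s - α, -β, 3 * s - β, -α]‖ ≤
      C * B * Real.exp (-(L ^ 2 / 1000)) := by
  refine ⟨5184 * rho⁻¹ ^ 10 * 16, by have := rho_pos; positivity, ?_⟩
  intro L B H s α β hL hH hs hα hβ
  obtain ⟨Q, hQd, hQ, hQb⟩ := exists_Q hs hα hβ
  have hr := rho_pos
  have hrho : rho = 1 / 10 ^ 7 := rfl
  have hcwv : cw = 1 / 32 := rfl
  have hs0 : s ≠ 0 := by
    intro h
    rw [h, norm_zero] at hs
    linarith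
  have hB : 0 ≤ B := (norm_nonneg _).trans (hH.bound (fun _ => 0) (fun _ => by
    simp only [zero_re, zero_im, abs_zero]
    exact ⟨by norm_num, by linarith⟩))
  -- real and imaginary parts of the shifts
  have hre : |s.re| ≤ rho := hs ▸ Complex.abs_re_le_norm s
  have him : |s.im| ≤ rho := hs ▸ Complex.abs_im_le_norm s
  have hre' := abs_le.1 hre
  have him' := abs_le.1 him
  have hshift : ∀ γ : ℂ, (γ = s ∨ γ = 2 * s) →
      (-(2 * rho) ≤ γ.re ∧ γ.re ≤ 2 * rho) ∧ (-(2 * rho) ≤ γ.im ∧ γ.im ≤ 2 * rho) := by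
    rintro γ (rfl | rfl)
    · exact ⟨⟨by linarith, by linarith⟩, ⟨by linarith, by linarith⟩⟩
    · simp only [mul_re, mul_im, re_ofNat, im_ofNat, zero_mul, sub_zero, add_zero]
      exact ⟨⟨by linarith, by linarith⟩, ⟨by linarith, by linarith⟩⟩
  obtain ⟨⟨ha1, ha2⟩, ⟨ha3, ha4⟩⟩ := hshift α hα
  obtain ⟨⟨hb1, hb2⟩, ⟨hb3, hb4⟩⟩ := hshift β hβ
  obtain ⟨hre1, hre2⟩ := hre'
  obtain ⟨him1, him2⟩ := him'
  obtain ⟨Y, hY⟩ : ∃ Y : ℝ, Y = L / 8 := ⟨_, rfl⟩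
  have hY0 : 0 < Y := by linarith
  set G : ℂ → ℂ := fun w => cexp (w ^ 2) * Q w * H (uW s α β w) with hG
  have hbox : ∀ w : ℂ, |w.re| < 1 / 20 → |w.im| < 1 / 4 * L → uW s α β w ∈ Bx L := by
    intro w h1 h2
    rw [abs_lt] at h1 h2
    rw [hrho] at hre1 hre2 him1 him2 ha1 ha2 ha3 ha4 hb1 hb2 hb3 hb4
    intro i
    fin_cases i <;> simp only [uW, Matrix.cons_val_zero, Matrix.cons_val_one, Matrix.cons_val,
      add_re, add_im, mul_re, mul_im, re_ofNat, im_ofNat, zero_mul, sub_zero, add_zero, abs_lt,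
      sub_re, sub_im, neg_re, neg_im,
      Fin.zero_eta, Fin.mk_one, Fin.reduceFinMk] <;>
      refine ⟨⟨?_, ?_⟩, ⟨?_, ?_⟩⟩ <;> linarith
  have hKbox : ∀ w ∈ K (-cw) cw Y, |w.re| < 1 / 20 ∧ |w.im| < 1 / 4 * L := by
    rintro w ⟨h1, h2, h3⟩
    rw [hcwv] at h1 h2
    refine ⟨?_, ?_⟩
    · rw [abs_lt]
      constructor <;> linarith
    · linarith
  have hHd : DifferentiableOn ℂ (fun w => H (uW s α β w))
      {w : ℂ | |w.re| < 1 / 20 ∧ |w.im| < 1 / 4 * L} := by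
    refine hH.holo (uW s α β) _ ?_ ?_ fun w hw => hbox w hw.1 hw.2
    · exact (isOpen_lt (continuous_abs.comp continuous_re) continuous_const).inter
        (isOpen_lt (continuous_abs.comp continuous_im) continuous_const)
    · intro i
      fin_cases i <;> simp only [uW, Matrix.cons_val_zero, Matrix.cons_val_one, Matrix.cons_val,
        Fin.zero_eta, Fin.mk_one, Fin.reduceFinMk] <;> fun_prop
  have hGd : DifferentiableOn ℂ G (K (-cw) cw Y) := by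
    have h1 : DifferentiableOn ℂ (fun w : ℂ => cexp (w ^ 2) * Q w) (K (-cw) cw Y) := by
      refine DifferentiableOn.mul ?_ hQd.differentiableOn
      fun_prop
    exact h1.mul (hHd.mono fun w hw => hKbox w hw)
  set M : ℝ := 5184 * rho⁻¹ ^ 10 * B * Real.exp (-(Y ^ 2 / 2)) with hM
  have hM0 : 0 ≤ M := by positivity
  have hGb : ∀ w : ℂ, -cw ≤ w.re → w.re ≤ cw → |w.im| = Y → ‖G w‖ ≤ M := by
    intro w h1 h2 h3
    have h4 := hKbox w ⟨h1, h2, h3.le⟩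
    have h5 := hH.bound _ (hbox w h4.1 h4.2)
    have h6 := kernel_bound (w := w) (by linarith [h4.1])
    have h7 := hQb w
    have h8 : w.im ^ 2 = Y ^ 2 := by rw [← sq_abs, h3]
    rw [h8] at h6
    rw [hG]
    simp only [norm_mul]
    calc ‖cexp (w ^ 2)‖ * ‖Q w‖ * ‖H (uW s α β w)‖
        ≤ ‖cexp (w ^ 2)‖ * (rho⁻¹ ^ 10 * (1 + ‖w‖) ^ 6) * B := by gcongr
      _ = rho⁻¹ ^ 10 * (‖cexp (w ^ 2)‖ * (1 + ‖w‖) ^ 6) * B := by ring
      _ ≤ rho⁻¹ ^ 10 * (5184 * Real.exp (-(Y ^ 2 / 2))) * B := by gcongr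
      _ = M := by rw [hM]; ring
  have hsh := shift (G := G) (a := -cw) (c := cw) (Y := Y) (M := M) (by rw [hcwv]; norm_num)
    (by rw [hcwv]; norm_num) (by rw [hcwv]; norm_num) hY0 hGd hM0 hGb
  -- the integrands on the lines
  have hline : ∀ c : ℝ, |c| = 1 / 32 → WT c H s α β L = (2 * Real.pi : ℂ)⁻¹ *
      ∫ v in (-Y)..Y, G ((c : ℂ) + v * I) / ((c : ℂ) + v * I) := by
    intro c hc
    unfold WT
    rw [← hY]
    congr 1
    refine intervalIntegral.integral_congr fun v _ => ?_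
    set w : ℂ := (c : ℂ) + v * I with hw
    have hwn : 2 * ‖s‖ < ‖w‖ := by
      have h1 := Complex.abs_re_le_norm w
      rw [hw, re_line, hc, ← hw] at h1
      rw [hs, hrho]
      refine lt_of_lt_of_le ?_ h1
      norm_num
    have hne := Gw_ne hs0 hwn
    have hPi : Pi4 (uW s α β w) ≠ 0 := by
      intro h
      rw [hQ w, h, mul_zero] at hne
      exact hne rfl
    change Gw s w / w * RR H (uW s α β w) = cexp (w ^ 2) * Q w * H (uW s α β w) / w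
    unfold RR
    rw [hQ w]
    field_simp
  have hRR : RR H ![3 * s - α, -β, 3 * s - β, -α] = G 0 := by
    change RR H ![3 * s - α, -β, 3 * s - β, -α] = cexp (0 ^ 2) * Q 0 * H (uW s α β 0)
    have h1 : uW s α β 0 = ![3 * s - α, -β, 3 * s - β, -α] := by
      unfold uW
      simp
    have h2 := hQ 0
    rw [Gw_zero, h1] at h2
    have hPi : Pi4 ![3 * s - α, -β, 3 * s - β, -α] ≠ 0 := by
      intro h
      rw [h, mul_zero] at h2
      exact one_ne_zero h2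
    rw [h1]
    unfold RR
    rw [div_eq_iff hPi]
    linear_combination H ![3 * s - α, -β, 3 * s - β, -α] * h2
  have hl1 := hline cw (by rw [hcwv, abs_of_pos (by norm_num)])
  have hl2 := hline (-cw) (by rw [hcwv, abs_neg, abs_of_pos (by norm_num)])
  rw [hl1, hl2, hRR]
  set I1 := ∫ v in (-Y)..Y, G ((cw : ℂ) + v * I) / ((cw : ℂ) + v * I) with hI1
  set I2 := ∫ v in (-Y)..Y, G (((-cw : ℝ) : ℂ) + v * I) / (((-cw : ℝ) : ℂ) + v * I) with hI2
  have hpi0 : (Real.pi : ℂ) ≠ 0 := by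
    exact_mod_cast Real.pi_ne_zero
  have hpin : ‖(2 * Real.pi : ℂ)⁻¹‖ ≤ 1 := by
    rw [norm_inv]
    have h1 : ‖(2 * Real.pi : ℂ)‖ = 2 * Real.pi := by
      have h2 : (2 * Real.pi : ℂ) = ((2 * Real.pi : ℝ) : ℂ) := by push_cast; rfl
      rw [h2, Complex.norm_real, Real.norm_of_nonneg (by positivity)]
    rw [h1]
    exact inv_le_one_of_one_le₀ (by linarith [Real.pi_gt_three])
  have hfin : (2 * Real.pi : ℂ)⁻¹ * I1 - (2 * Real.pi : ℂ)⁻¹ * I2 - G 0 = (2 * Real.pi : ℂ)⁻¹ *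
      (I1 - I2 - 2 * Real.pi * G 0) := by
    field_simp
  rw [hfin, norm_mul]
  have hexp : Real.exp (-(Y ^ 2 / 2)) ≤ Real.exp (-(L ^ 2 / 1000)) := by
    apply Real.exp_le_exp.2
    rw [hY]
    nlinarith
  have hYinv : 2 * M / Y ≤ 16 * M := by
    rw [div_le_iff₀ hY0, hY]
    nlinarith
  calc ‖(2 * Real.pi : ℂ)⁻¹‖ * ‖I1 - I2 - 2 * Real.pi * G 0‖ ≤ 1 * (16 * M) :=
        mul_le_mul hpin (hsh.trans hYinv) (norm_nonneg _) (by norm_num)
    _ = 5184 * rho⁻¹ ^ 10 * 16 * B * Real.exp (-(Y ^ 2 / 2)) := by rw [hM]; ring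
    _ ≤ 5184 * rho⁻¹ ^ 10 * 16 * B * Real.exp (-(L ^ 2 / 1000)) :=
        mul_le_mul_of_nonneg_left hexp (by positivity)

theorem abs_w2 (L : ℝ) (H : (Fin 4 → ℂ) → ℂ) (hH : Sym4 H) (s α β : ℂ) (hs : s ≠ 0) :
    WT cw H (-s) (-α) (-β) L = -WT (-cw) H s (3 * s - β) (3 * s - α) L := by
  have hu : ∀ w : ℂ, RR H (uW (-s) (-α) (-β) w) = RR H (uW s (3 * s - β) (3 * s - α) (-w)) := by
    intro w
    have h1 : uW (-s) (-α) (-β) w = ![α - 3 * s + w, β - w, β - 3 * s + w, α - w] := by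
      unfold uW
      congr 1
      · ring
      · congr 1
        · ring
        · congr 1
          · ring
          · congr 1
            ring
    have h2 : uW s (3 * s - β) (3 * s - α) (-w) = ![β - w, α - 3 * s + w, α - w, β - 3 * s + w] := by
      unfold uW
      congr 1
      · ring
      · congr 1
        · ring
        · congr 1
          · ring
          · congr 1
            ring
    rw [h1, h2]
    have h3 : H ![α - 3 * s + w, β - w, β - 3 * s + w, α - w] =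
        H ![β - w, α - 3 * s + w, α - w, β - 3 * s + w] := by
      rw [(hH _ _ _ _).1, (hH _ _ _ _).2]
    unfold RR
    rw [h3]
    congr 1
    unfold Pi4
    simp only [Matrix.cons_val_zero, Matrix.cons_val_one, Matrix.cons_val]
    ring
  have hG : ∀ w : ℂ, Gw (-s) w = Gw s (-w) := by
    intro w
    unfold Gw
    simp only [neg_pow_two]
  unfold WT
  have hsub := intervalIntegral.integral_comp_neg (a := -(L / 8)) (b := L / 8)
    (f := fun v : ℝ => Gw s (((-cw : ℝ) : ℂ) + v * I) / (((-cw : ℝ) : ℂ) + v * I) *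
      RR H (uW s (3 * s - β) (3 * s - α) (((-cw : ℝ) : ℂ) + v * I)))
  rw [neg_neg] at hsub
  rw [← hsub, ← mul_neg, ← intervalIntegral.integral_neg]
  congr 1
  refine intervalIntegral.integral_congr fun v _ => ?_
  have h1 : (((-cw : ℝ) : ℂ) + ((-v : ℝ) : ℂ) * I) = -((cw : ℂ) + (v : ℂ) * I) := by
    push_cast
    ring
  simp only [h1]
  rw [hu, hG, div_neg]
  ring

end Pool.Agent.P07318f
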