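import Pool.Agent.Lib.P07318f.DefsC
import Pool.Agent.Lib.P07318s.OneVar

/-!
# The zero frequency terms: shift of the contours of `z1`, `z2`

For fixed `w = cw + i v1`, `|v1| ≤ L/8`. `Pi4 (uZ ..) = (6s-α-β+2w+2z1+2z2)(3s-2α+2z1)(3s-2β+2z2)(-α-β-2w)`.
With `α ∈ {s, 2s}`: `3s - 2α = ± s`, and `Gz s z = exp(z²)(1-2z/s)(1+2z/s)`, so `Gz s z1/(3s-2α+2z1) = exp(z1²) (1 ∓ 2z1/s)(± 1/s)` is entire, the same for
`z2`, `β`. So the integrand is `A(w,z1,z2)/(z1 z2)`, `A = Gw s (w+(z1+z2)/2)/(w+(z1+z2)/2) · exp(z1²+z2²)·(polynomials)·X2 x (-α-β+z1+z2) ·`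
`H(uZ)/((6s-α-β+2w+2z1+2z2)(-α-β-2w))`, holomorphic for `-1/100 ≤ Re z_i ≤ cz`, `|Im z_i| ≤ L/8`: `Re(w+(z1+z2)/2) ≥ 1/32 - 1/100 > 0`,
`Re(6s-α-β+2w+2z1+2z2) ≥ 1/16 - 1/25 - 6ρ > 0`, `Re(-α-β-2w) < 0`; the arguments `uZ` stay in `Bx L` (`|Re| ≤ 1/32+1/50+..`, `|Im| ≤ 3L/8 + 9ρ < L`).
`|A| ≤ C B x^(4ρ + Re z1 + Re z2) exp(-(v1+(v2+v3)/2)²/2 - v2²/2 - v3²/2)·` (Gaussian times polynomial; `C` depends on `rho`).
(1) for fixed `v1, v3` shift `z1` to `Re z1 = -1/100`: residue at `z1 = 0` (simple pole, gives `A(w,0,z2)/z2`; `Gz s 0 = 1`), the line `Re z1 = -1/100` contributes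
`≤ C B x^(-1/100+cz+4ρ)`, the horizontal segments `≤ C B x^(1/100) exp(-L²/256)`. (2) in the residue term shift `z2` in the same way. Result:
`X2 x (-α-β) (2π)⁻¹ ∫_{|v1| ≤ L/8} Gw s w / w · H(uW)/Pi4(uW) dv1` since `uZ s α β w 0 0 = uW s α β w` (there `Pi4 ≠ 0`).
-/

set_option autoImplicit false

namespace Pool.Agent.P07318f

open MeasureTheory Complex

namespace AbsZAux

open Pool.Agent.P07318s.OneVarAux

/-! ### one variable -/

theorem RI_simple {G : ℂ → ℂ} {a c Y : ℝ} (ha : a < 0) (hc : 0 < c) (hY : 0 < Y)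
    (hG : DifferentiableOn ℂ G (K a c Y)) :
    RI (fun s => G s * s⁻¹) a c Y = 2 * Real.pi * I * G 0 := by
  have hK : K a c Y ∈ nhds (0 : ℂ) := by
    have h1 : ∀ᶠ s : ℂ in nhds 0, a < s.re :=
      continuous_re.continuousAt.eventually (lt_mem_nhds (by simpa using ha))
    have h2 : ∀ᶠ s : ℂ in nhds 0, s.re < c :=
      continuous_re.continuousAt.eventually (gt_mem_nhds (by simpa using hc))
    have h3 : ∀ᶠ s : ℂ in nhds 0, |s.im| < Y :=
      (continuous_abs.comp continuous_im).continuousAt.eventually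
        (gt_mem_nhds (by simpa using hY))
    filter_upwards [h1, h2, h3] with s s1 s2 s3
    exact ⟨s1.le, s2.le, s3.le⟩
  have hd1 : DifferentiableOn ℂ (dslope G 0) (K a c Y) := (differentiableOn_dslope hK).mpr hG
  set h := dslope G 0 with hh
  have hdec : ∀ s ∈ K a c Y, s ≠ 0 → G s * s⁻¹ = G 0 * s⁻¹ + h s := by
    intro s _ hs
    rw [hh, dslope_of_ne _ hs, slope_def_field, sub_zero]
    field_simp
    ring
  have c2 : Sides (fun s : ℂ => G 0 * s⁻¹) a c Y := sides ha hc hY (by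
    intro s hs
    apply ContinuousAt.continuousWithinAt
    exact continuousAt_const.mul (continuousAt_inv₀ hs.2))
  have c3 : Sides h a c Y := sides ha hc hY (hd1.continuousOn.mono Set.sdiff_subset)
  rw [RI_congr ha hc hY hdec, RI_add c2 c3, RI_mul, RI_inv ha hc hY, RI_zero (by linarith) hY.le hd1]
  ring

/-- the Gaussian integral -/
noncomputable def K8 : ℝ := ∫ v : ℝ, Real.exp (-(v ^ 2 / 8))

theorem gauss_int : Integrable fun v : ℝ => Real.exp (-(v ^ 2 / 8)) := by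
  have := integrable_exp_neg_mul_sq (b := 1 / 8) (by norm_num)
  refine this.congr (Filter.Eventually.of_forall fun v => ?_)
  show Real.exp _ = Real.exp _
  congr 1
  ring

theorem K8_nonneg : 0 ≤ K8 := integral_nonneg fun _ => (Real.exp_pos _).le

theorem gauss_le {T : ℝ} (hT : 0 ≤ T) : ∫ v in (-T)..T, Real.exp (-(v ^ 2 / 8)) ≤ K8 := by
  rw [intervalIntegral.integral_of_le (by linarith)]
  exact setIntegral_le_integral gauss_int (Filter.Eventually.of_forall fun v => (Real.exp_pos _).le)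

/-- an interval integral with a Gaussian bound -/
theorem norm_int_le {f : ℝ → ℂ} {T M : ℝ} (hT : 0 ≤ T) (hM : 0 ≤ M)
    (h : ∀ v, |v| ≤ T → ‖f v‖ ≤ M * Real.exp (-(v ^ 2 / 8))) :
    ‖∫ v in (-T)..T, f v‖ ≤ M * K8 := by
  have h1 : ‖∫ v in (-T)..T, f v‖ ≤ ∫ v in (-T)..T, M * Real.exp (-(v ^ 2 / 8)) := by
    refine intervalIntegral.norm_integral_le_of_norm_le (by linarith)
      (Filter.Eventually.of_forall fun v hv => h v (abs_le.2 ⟨hv.1.le, hv.2⟩)) ?_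
    exact (by fun_prop : Continuous fun v : ℝ => M * Real.exp (-(v ^ 2 / 8))).intervalIntegrable _ _
  refine h1.trans ?_
  rw [intervalIntegral.integral_const_mul]
  exact mul_le_mul_of_nonneg_left (gauss_le hT) hM

theorem two_pi_inv_le : ‖(2 * Real.pi : ℂ)⁻¹‖ ≤ 1 := by
  rw [norm_inv, norm_mul, Complex.norm_real, Real.norm_eq_abs, abs_of_pos Real.pi_pos]
  have := Real.pi_gt_three
  simp only [Complex.norm_ofNat]
  exact inv_le_one_of_one_le₀ (by linarith)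

theorem shift_bd {G : ℂ → ℂ} {a c Y M₁ M₂ : ℝ} (ha : a < 0) (hc : 0 < c) (hY : 1 / 8 ≤ Y)
    (hG : DifferentiableOn ℂ G (K a c Y)) (hM₁ : 0 ≤ M₁) (hM₂ : 0 ≤ M₂)
    (h1 : ∀ v : ℝ, |v| ≤ Y → ‖G ((a : ℂ) + (v : ℂ) * I)‖ ≤ M₁ * Real.exp (-(v ^ 2 / 8)))
    (h2 : ∀ x y : ℝ, a ≤ x → x ≤ c → |y| = Y → ‖G ((x : ℂ) + (y : ℂ) * I)‖ ≤ M₂) :
    ‖(2 * Real.pi : ℂ)⁻¹ * (∫ v in (-Y)..Y, G ((c : ℂ) + (v : ℂ) * I) / ((c : ℂ) + (v : ℂ) * I)) -
      G 0‖ ≤ M₁ / (-a) * K8 + 16 * (c - a) * M₂ := by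
  have hY0 : 0 < Y := by linarith
  have h3 := RI_simple ha hc hY0 hG
  set F : ℂ → ℂ := fun s => G s * s⁻¹ with hF
  have hv : ∫ v in (-Y)..Y, G ((c : ℂ) + (v : ℂ) * I) / ((c : ℂ) + (v : ℂ) * I) = vs F c Y := by
    unfold vs
    simp only [hF, div_eq_mul_inv]
  rw [hv]
  have hpi : (2 * Real.pi : ℂ) ≠ 0 := by
    have := Real.pi_pos.ne'
    simp [this]
  have e : (2 * Real.pi : ℂ)⁻¹ * vs F c Y - G 0 =
      (2 * Real.pi : ℂ)⁻¹ * (vs F a Y + (hs F a c Y - hs F a c (-Y)) * (-I)) := by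
    unfold RI at h3
    have h4 : I * vs F c Y = 2 * Real.pi * I * G 0 + I * vs F a Y + (hs F a c Y - hs F a c (-Y)) := by
      linear_combination h3
    have h5 : vs F c Y = 2 * Real.pi * G 0 + vs F a Y + (hs F a c Y - hs F a c (-Y)) * (-I) := by
      have h6 : vs F c Y = -I * (I * vs F c Y) := by
        rw [← mul_assoc, neg_mul, Complex.I_mul_I]
        ring
      rw [h6, h4]
      linear_combination (-(2 * (Real.pi : ℂ) * G 0) - vs F a Y) * Complex.I_mul_I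
    rw [h5]
    field_simp
    ring
  rw [e, norm_mul]
  have hb1 : ‖vs F a Y‖ ≤ M₁ / (-a) * K8 := by
    unfold vs
    refine norm_int_le hY0.le (div_nonneg hM₁ (by linarith)) fun v hv => ?_
    simp only [hF, norm_mul, norm_inv]
    have h7 : -a ≤ ‖(a : ℂ) + (v : ℂ) * I‖ := by
      have := Complex.abs_re_le_norm ((a : ℂ) + (v : ℂ) * I)
      rw [re_line, abs_of_neg ha] at this
      exact this
    have h8 : ‖(a : ℂ) + (v : ℂ) * I‖⁻¹ ≤ (-a)⁻¹ := inv_anti₀ (by linarith) h7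
    have h9 := h1 v hv
    have h10 : 0 ≤ (-a)⁻¹ := inv_nonneg.2 (by linarith)
    calc ‖G ((a : ℂ) + (v : ℂ) * I)‖ * ‖(a : ℂ) + (v : ℂ) * I‖⁻¹
        ≤ (M₁ * Real.exp (-(v ^ 2 / 8))) * (-a)⁻¹ :=
          mul_le_mul h9 h8 (by positivity) (by positivity)
      _ = _ := by ring
  have hb2 : ∀ y : ℝ, |y| = Y → ‖hs F a c y‖ ≤ 8 * M₂ * (c - a) := by
    intro y hy
    unfold hs
    have h7 := intervalIntegral.norm_integral_le_of_norm_le_const (a := a) (b := c) (C := 8 * M₂)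
      (f := fun x : ℝ => F ((x : ℂ) + (y : ℂ) * I)) (fun x hx => by
        rw [Set.uIoc_of_le (by linarith)] at hx
        simp only [hF, norm_mul, norm_inv]
        have h8 : Y ≤ ‖(x : ℂ) + (y : ℂ) * I‖ := by
          have := Complex.abs_im_le_norm ((x : ℂ) + (y : ℂ) * I)
          rw [im_line, hy] at this
          exact this
        have h9 : ‖(x : ℂ) + (y : ℂ) * I‖⁻¹ ≤ 8 := by
          rw [inv_le_comm₀ (by linarith) (by norm_num)]
          linarith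
        have h10 := h2 x y hx.1.le hx.2 hy
        calc ‖G ((x : ℂ) + (y : ℂ) * I)‖ * ‖(x : ℂ) + (y : ℂ) * I‖⁻¹ ≤ M₂ * 8 :=
              mul_le_mul h10 h9 (by positivity) hM₂
          _ = 8 * M₂ := by ring)
    rwa [abs_of_pos (by linarith : 0 < c - a)] at h7
  have hb3 : ‖(hs F a c Y - hs F a c (-Y)) * (-I)‖ ≤ 16 * (c - a) * M₂ := by
    rw [norm_mul, norm_neg, Complex.norm_I, mul_one]
    have h7 := hb2 Y (abs_of_pos hY0)
    have h8 := hb2 (-Y) (by rw [abs_neg]; exact abs_of_pos hY0)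
    refine (norm_sub_le _ _).trans ?_
    linarith
  refine (mul_le_of_le_one_left (norm_nonneg _) two_pi_inv_le).trans ?_
  exact (norm_add_le _ _).trans (add_le_add hb1 hb3)

/-! ### the regular part of the integrand -/

noncomputable def gz (κ z : ℂ) : ℂ := cexp (z ^ 2) * ((1 - 2 * z / κ) / κ)

/-- the integrand is `Ar / (z1 z2)` -/
noncomputable def Ar (H : (Fin 4 → ℂ) → ℂ) (s α β : ℂ) (x : ℝ) (w z1 z2 : ℂ) : ℂ :=
  Gw s (w + (z1 + z2) / 2) / (w + (z1 + z2) / 2) * (gz (3 * s - 2 * α) z1 * gz (3 * s - 2 * β) z2) *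
    X2 x (-α - β + z1 + z2) * (H (uZ s α β w z1 z2) /
      ((6 * s - α - β + 2 * w + 2 * z1 + 2 * z2) * (-α - β - 2 * w)))

theorem Gz_eq {s κ z : ℂ} (hκ : κ ≠ 0) (h : κ ^ 2 = s ^ 2) : Gz s z = gz κ z * (κ + 2 * z) := by
  unfold Gz gz
  rw [← h]
  field_simp
  ring

/-- the region -/
structure Dm (L : ℝ) (w z1 z2 : ℂ) : Prop where
  wr : w.re = cw
  wi : |w.im| ≤ L / 8
  r1 : |z1.re| ≤ 1 / 50
  r2 : |z2.re| ≤ 1 / 50
  r12 : -(1 / 50) ≤ z1.re + z2.re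
  i1 : |z1.im| ≤ L / 7
  i2 : |z2.im| ≤ L / 7

theorem rho_eq : rho = 1 / 10 ^ 7 := rfl
theorem cz_eq : cz = 1 / 10 ^ 5 := rfl
theorem cw_eq : cw = 1 / 32 := rfl

/-- consequences of the assumptions on `s`, `α` -/
structure Pm (s α : ℂ) : Prop where
  s0 : s ≠ 0
  k0 : 3 * s - 2 * α ≠ 0
  k2 : (3 * s - 2 * α) ^ 2 = s ^ 2
  kn : ‖3 * s - 2 * α‖ = rho
  sr : |s.re| ≤ rho
  si : |s.im| ≤ rho
  ar : |α.re| ≤ 2 * rho
  ai : |α.im| ≤ 2 * rho

theorem rho_pos : 0 < rho := by rw [rho_eq]; norm_num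

theorem pm {s α : ℂ} (hs : ‖s‖ = rho) (hα : α = s ∨ α = 2 * s) : Pm s α := by
  have hr := rho_pos
  have hs0 : s ≠ 0 := by
    rintro rfl
    rw [norm_zero] at hs
    linarith
  have h1 := Complex.abs_re_le_norm s
  have h2 := Complex.abs_im_le_norm s
  rw [hs] at h1 h2
  rcases hα with rfl | rfl
  · have e : 3 * α - 2 * α = α := by ring
    refine ⟨hs0, ?_, ?_, ?_, h1, h2, by linarith, by linarith⟩
    · rw [e]; exact hs0
    · rw [e]
    · rw [e]; exact hs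
  · have e : 3 * s - 2 * (2 * s) = -s := by ring
    refine ⟨hs0, ?_, ?_, ?_, h1, h2, ?_, ?_⟩
    · rw [e]; exact neg_ne_zero.2 hs0
    · rw [e]; ring
    · rw [e, norm_neg]; exact hs
    · have : (2 * s).re = 2 * s.re := by simp
      rw [this, abs_mul, abs_two]
      linarith
    · have : (2 * s).im = 2 * s.im := by simp
      rw [this, abs_mul, abs_two]
      linarith

section

variable {L : ℝ} {s α β w z1 z2 : ℂ}

theorem mem_box (hL : 1 ≤ L) (hα : Pm s α) (hβ : Pm s β) (h : Dm L w z1 z2) :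
    uZ s α β w z1 z2 ∈ Bx L := by
  obtain ⟨wr, wi, r1, r2, r12, i1, i2⟩ := h
  obtain ⟨-, -, -, -, sr, si, ar, ai⟩ := hα
  obtain ⟨-, -, -, -, -, -, br, bi⟩ := hβ
  rw [rho_eq] at *
  rw [cw_eq] at wr
  rw [abs_le] at *
  intro i
  rw [abs_lt, abs_lt]
  fin_cases i <;> simp [uZ] <;> refine ⟨⟨?_, ?_⟩, ⟨?_, ?_⟩⟩ <;> linarith

theorem om_re (h : Dm L w z1 z2) : 1 / 50 ≤ (w + (z1 + z2) / 2).re := by
  obtain ⟨wr, wi, r1, r2, r12, i1, i2⟩ := h
  rw [cw_eq] at wr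
  simp
  linarith

theorem om_re' (h : Dm L w z1 z2) : (w + (z1 + z2) / 2).re ≤ 1 := by
  obtain ⟨wr, wi, r1, r2, r12, i1, i2⟩ := h
  rw [cw_eq] at wr
  rw [abs_le] at r1 r2
  simp
  linarith

theorem d1_re (hα : Pm s α) (hβ : Pm s β) (h : Dm L w z1 z2) :
    1 / 50 ≤ (6 * s - α - β + 2 * w + 2 * z1 + 2 * z2).re := by
  obtain ⟨wr, wi, r1, r2, r12, i1, i2⟩ := h
  obtain ⟨-, -, -, -, sr, si, ar, ai⟩ := hα
  obtain ⟨-, -, -, -, -, -, br, bi⟩ := hβ
  rw [rho_eq] at *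
  rw [cw_eq] at wr
  rw [abs_le] at *
  simp
  linarith

theorem d2_re (hα : Pm s α) (hβ : Pm s β) (h : Dm L w z1 z2) :
    1 / 50 ≤ -(-α - β - 2 * w).re := by
  obtain ⟨wr, wi, r1, r2, r12, i1, i2⟩ := h
  obtain ⟨-, -, -, -, sr, si, ar, ai⟩ := hα
  obtain ⟨-, -, -, -, -, -, br, bi⟩ := hβ
  rw [rho_eq] at *
  rw [cw_eq] at wr
  rw [abs_le] at *
  simp
  linarith

theorem ne_of_re {z : ℂ} (h : 1 / 50 ≤ z.re) : z ≠ 0 := by
  rintro rfl
  simp at h
  linarith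

theorem d2_ne (hα : Pm s α) (hβ : Pm s β) (h : Dm L w z1 z2) : -α - β - 2 * w ≠ 0 := by
  intro h0
  have := d2_re hα hβ h
  rw [h0] at this
  simp at this
  linarith

end

/-! ### bounds -/

theorem poly_exp (m : ℕ) (hm : 1 ≤ m) (t : ℝ) :
    (1 + t ^ 2) ^ m * Real.exp (-t ^ 2) ≤ (2 * m) ^ m * Real.exp (-(t ^ 2 / 2)) := by
  have hm' : (1 : ℝ) ≤ m := by exact_mod_cast hm
  have h1 : 1 + t ^ 2 ≤ 2 * m * Real.exp (t ^ 2 / (2 * m)) := by
    have h2 := Real.add_one_le_exp (t ^ 2 / (2 * m))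
    have h3 : 2 * (m : ℝ) * (t ^ 2 / (2 * m) + 1) = t ^ 2 + 2 * m := by field_simp
    have h4 : 2 * (m : ℝ) * (t ^ 2 / (2 * m) + 1) ≤ 2 * m * Real.exp (t ^ 2 / (2 * m)) :=
      mul_le_mul_of_nonneg_left h2 (by positivity)
    linarith
  have h5 : (1 + t ^ 2) ^ m ≤ (2 * m) ^ m * Real.exp (t ^ 2 / 2) := by
    calc (1 + t ^ 2) ^ m ≤ (2 * m * Real.exp (t ^ 2 / (2 * m))) ^ m :=
          pow_le_pow_left₀ (by positivity) h1 m
      _ = (2 * m) ^ m * Real.exp (t ^ 2 / 2) := by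
          rw [mul_pow, ← Real.exp_nat_mul]
          congr 2
          field_simp
  calc (1 + t ^ 2) ^ m * Real.exp (-t ^ 2) ≤
        ((2 * m) ^ m * Real.exp (t ^ 2 / 2)) * Real.exp (-t ^ 2) :=
        mul_le_mul_of_nonneg_right h5 (Real.exp_pos _).le
    _ = (2 * m) ^ m * Real.exp (-(t ^ 2 / 2)) := by
        rw [mul_assoc, ← Real.exp_add]
        congr 2
        ring

theorem norm_exp_sq (z : ℂ) (h : |z.re| ≤ 1) :
    ‖cexp (z ^ 2)‖ ≤ Real.exp 1 * Real.exp (-z.im ^ 2) := by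
  rw [Complex.norm_exp, ← Real.exp_add]
  apply Real.exp_le_exp.2
  have h1 : (z ^ 2).re = z.re ^ 2 - z.im ^ 2 := by
    rw [pow_two, Complex.mul_re]
    ring
  have h2 : z.re ^ 2 ≤ 1 := by
    rw [← sq_abs]
    exact pow_le_one₀ (abs_nonneg _) h
  rw [h1]
  linarith

theorem norm_sq_le (z : ℂ) (h : |z.re| ≤ 1) : ‖z‖ ^ 2 ≤ 1 + z.im ^ 2 := by
  rw [← Complex.normSq_eq_norm_sq, Complex.normSq_apply]
  have h2 : z.re ^ 2 ≤ 1 := by
    rw [← sq_abs]
    exact pow_le_one₀ (abs_nonneg _) h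
  nlinarith

theorem fac_bd {s z : ℂ} (hs : ‖s‖ = rho) (h : |z.re| ≤ 1) {q : ℂ} (hq : ‖q‖ ≤ 1) :
    ‖1 - q * (z ^ 2 / s ^ 2)‖ ≤ (1 + 1 / rho ^ 2) * (1 + z.im ^ 2) := by
  have hr := rho_pos
  have h1 := norm_sq_le z h
  refine (norm_sub_le _ _).trans ?_
  rw [norm_one, norm_mul, norm_div, norm_pow, norm_pow, hs]
  have h2 : ‖q‖ * (‖z‖ ^ 2 / rho ^ 2) ≤ (1 + z.im ^ 2) / rho ^ 2 := by
    calc ‖q‖ * (‖z‖ ^ 2 / rho ^ 2) ≤ 1 * (‖z‖ ^ 2 / rho ^ 2) :=
          mul_le_mul_of_nonneg_right hq (by positivity)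
      _ = ‖z‖ ^ 2 / rho ^ 2 := one_mul _
      _ ≤ _ := div_le_div_of_nonneg_right h1 (by positivity)
  have h3 : (1 + 1 / rho ^ 2) * (1 + z.im ^ 2) = 1 + z.im ^ 2 + (1 + z.im ^ 2) / rho ^ 2 := by
    field_simp
  rw [h3]
  have h4 : 0 ≤ z.im ^ 2 := sq_nonneg _
  linarith

/-- constant of `Gw` -/
noncomputable def CG : ℝ := 50 * Real.exp 1 * (1 + 1 / rho ^ 2) ^ 4 * (2 * (4 : ℕ)) ^ 4

theorem Gw_bd {s z : ℂ} (hs : ‖s‖ = rho) (h1 : 1 / 50 ≤ z.re) (h2 : z.re ≤ 1) :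
    ‖Gw s z / z‖ ≤ CG * Real.exp (-(z.im ^ 2 / 2)) := by
  have hr := rho_pos
  have habs : |z.re| ≤ 1 := abs_le.2 ⟨by linarith, h2⟩
  have hz : (50 : ℝ)⁻¹ ≤ ‖z‖ := by
    have := (Complex.abs_re_le_norm z)
    rw [abs_of_pos (by linarith)] at this
    linarith
  have hzi : ‖z‖⁻¹ ≤ 50 := inv_le_of_inv_le₀ (by norm_num) hz
  have e : Gw s z = cexp (z ^ 2) * ((1 - 1 * (z ^ 2 / s ^ 2)) *
      (1 - (4 / 9 : ℂ) * (z ^ 2 / s ^ 2)) ^ 2 * (1 - (1 / 4 : ℂ) * (z ^ 2 / s ^ 2))) := by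
    unfold Gw
    have hs0 : s ≠ 0 := by
      rintro rfl
      rw [norm_zero] at hs
      linarith
    field_simp
  rw [e, norm_div, norm_mul, norm_mul, norm_mul, norm_pow, div_eq_mul_inv]
  have f1 := fac_bd hs habs (q := 1) (by simp)
  have f2 := fac_bd hs habs (q := 4 / 9) (by norm_num)
  have f3 := fac_bd hs habs (q := 1 / 4) (by norm_num)
  have f0 := norm_exp_sq z habs
  set R := 1 + 1 / rho ^ 2 with hR
  have hR0 : 0 < R := by positivity
  have hy : 0 < 1 + z.im ^ 2 := by positivity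
  calc ‖cexp (z ^ 2)‖ * (‖1 - 1 * (z ^ 2 / s ^ 2)‖ * ‖1 - (4 / 9 : ℂ) * (z ^ 2 / s ^ 2)‖ ^ 2 *
        ‖1 - (1 / 4 : ℂ) * (z ^ 2 / s ^ 2)‖) * ‖z‖⁻¹
      ≤ (Real.exp 1 * Real.exp (-z.im ^ 2)) * ((R * (1 + z.im ^ 2)) * (R * (1 + z.im ^ 2)) ^ 2 *
        (R * (1 + z.im ^ 2))) * 50 := by gcongr
    _ = 50 * Real.exp 1 * R ^ 4 * ((1 + z.im ^ 2) ^ 4 * Real.exp (-z.im ^ 2)) := by ring
    _ ≤ 50 * Real.exp 1 * R ^ 4 * ((2 * (4 : ℕ)) ^ 4 * Real.exp (-(z.im ^ 2 / 2))) := by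
        apply mul_le_mul_of_nonneg_left _ (by positivity)
        exact poly_exp 4 (by norm_num) z.im
    _ = _ := by
        unfold CG
        ring

/-- constant of `gz` -/
noncomputable def Cg : ℝ := Real.exp 1 * ((1 + 4 / rho) / rho) * (2 * (1 : ℕ)) ^ 1

theorem gz_bd {κ z : ℂ} (hs : ‖κ‖ = rho) (h : |z.re| ≤ 1) :
    ‖gz κ z‖ ≤ Cg * Real.exp (-(z.im ^ 2 / 2)) := by
  have hr := rho_pos
  have f0 := norm_exp_sq z h
  have f1 : ‖z‖ ≤ 2 * (1 + z.im ^ 2) := by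
    have h1 := norm_sq_le z h
    have h2 : 0 ≤ z.im ^ 2 := sq_nonneg _
    have h3 := norm_nonneg z
    nlinarith [sq_nonneg (‖z‖ - 1)]
  have f2 : ‖1 - 2 * z / κ‖ ≤ (1 + 4 / rho) * (1 + z.im ^ 2) := by
    refine (norm_sub_le _ _).trans ?_
    rw [norm_one, norm_div, norm_mul, hs]
    simp only [Complex.norm_ofNat]
    have h3 : 2 * ‖z‖ / rho ≤ 4 * (1 + z.im ^ 2) / rho := by
      apply div_le_div_of_nonneg_right _ hr.le
      linarith
    have h4 : (1 + 4 / rho) * (1 + z.im ^ 2) = 1 + z.im ^ 2 + 4 * (1 + z.im ^ 2) / rho := by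
      field_simp
    rw [h4]
    have h2 : 0 ≤ z.im ^ 2 := sq_nonneg _
    linarith
  unfold gz
  rw [norm_mul, norm_div, hs]
  calc ‖cexp (z ^ 2)‖ * (‖1 - 2 * z / κ‖ / rho)
      ≤ (Real.exp 1 * Real.exp (-z.im ^ 2)) * ((1 + 4 / rho) * (1 + z.im ^ 2) / rho) := by gcongr
    _ = Real.exp 1 * ((1 + 4 / rho) / rho) * ((1 + z.im ^ 2) ^ 1 * Real.exp (-z.im ^ 2)) := by
        ring
    _ ≤ Real.exp 1 * ((1 + 4 / rho) / rho) * ((2 * (1 : ℕ)) ^ 1 * Real.exp (-(z.im ^ 2 / 2))) := by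
        apply mul_le_mul_of_nonneg_left _ (by positivity)
        exact poly_exp 1 le_rfl z.im
    _ = _ := by
        unfold Cg
        ring

theorem X2_bd {x σ : ℝ} {u : ℂ} (hx : 1 ≤ x) (h1 : -1 ≤ u.re) (h2 : u.re ≤ σ) :
    ‖X2 x u‖ ≤ 7 * x ^ σ := by
  have hpi := Real.pi_pos
  have hx0 : 0 < x := by linarith
  have hp : 0 < x / (2 * Real.pi) := by positivity
  unfold X2
  rw [Complex.norm_cpow_eq_rpow_re_of_pos hp, div_eq_mul_inv,
    Real.mul_rpow hx0.le (by positivity), Real.inv_rpow (by positivity),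
    ← Real.rpow_neg (by positivity)]
  have h3 : x ^ u.re ≤ x ^ σ := Real.rpow_le_rpow_of_exponent_le hx h2
  have h4 : (2 * Real.pi) ^ (-u.re) ≤ 7 := by
    have h5 : 1 ≤ 2 * Real.pi := by linarith [Real.pi_gt_three]
    calc (2 * Real.pi) ^ (-u.re) ≤ (2 * Real.pi) ^ (1 : ℝ) :=
          Real.rpow_le_rpow_of_exponent_le h5 (by linarith)
      _ = 2 * Real.pi := Real.rpow_one _
      _ ≤ 7 := by linarith [Real.pi_lt_d2]
  calc x ^ u.re * (2 * Real.pi) ^ (-u.re) ≤ x ^ σ * 7 :=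
        mul_le_mul h3 h4 (by positivity) (by positivity)
    _ = _ := by ring

/-- the total constant -/
noncomputable def C0 : ℝ := CG * (Cg * Cg) * 7 * 2500

theorem CG_pos : 0 < CG := by
  have := rho_pos
  unfold CG
  positivity

theorem Cg_pos : 0 < Cg := by
  have := rho_pos
  unfold Cg
  positivity

theorem C0_pos : 0 < C0 := by
  have := CG_pos
  have := Cg_pos
  unfold C0
  positivity

theorem Ar_bd {H : (Fin 4 → ℂ) → ℂ} {L B x σ : ℝ} {s α β w z1 z2 : ℂ} (hx : 1 ≤ x) (hL : 1 ≤ L)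
    (hH : Hol4 L B H) (hs : ‖s‖ = rho) (hα : Pm s α) (hβ : Pm s β) (h : Dm L w z1 z2)
    (hσ : z1.re + z2.re + 4 * rho ≤ σ) :
    ‖Ar H s α β x w z1 z2‖ ≤ C0 * B * x ^ σ *
      Real.exp (-((w.im ^ 2 + z1.im ^ 2 + z2.im ^ 2) / 8)) := by
  have hb := hH.bound _ (mem_box hL hα hβ h)
  have hB : 0 ≤ B := (norm_nonneg _).trans hb
  have hx0 : 0 < x := by linarith
  have hG := Gw_bd hs (om_re h) (om_re' h)
  have hr1 : |z1.re| ≤ 1 := h.r1.trans (by norm_num)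
  have hr2 : |z2.re| ≤ 1 := h.r2.trans (by norm_num)
  have hg1 := gz_bd hα.kn hr1
  have hg2 := gz_bd hβ.kn hr2
  have hX : ‖X2 x (-α - β + z1 + z2)‖ ≤ 7 * x ^ σ := by
    have ha := abs_le.1 hα.ar
    have hb' := abs_le.1 hβ.ar
    have h1 := abs_le.1 h.r1
    have h2 := abs_le.1 h.r2
    have e : (-α - β + z1 + z2).re = -α.re - β.re + z1.re + z2.re := by simp
    have hr : rho = 1 / 10 ^ 7 := rfl
    refine X2_bd hx ?_ ?_
    · rw [e]
      rw [hr] at ha hb'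
      linarith
    · rw [e]
      linarith
  have hD : ‖H (uZ s α β w z1 z2) /
      ((6 * s - α - β + 2 * w + 2 * z1 + 2 * z2) * (-α - β - 2 * w))‖ ≤ B * 2500 := by
    rw [norm_div, norm_mul]
    have e1 : 1 / 50 ≤ ‖6 * s - α - β + 2 * w + 2 * z1 + 2 * z2‖ :=
      (d1_re hα hβ h).trans ((le_abs_self _).trans (Complex.abs_re_le_norm _))
    have e2 : 1 / 50 ≤ ‖-α - β - 2 * w‖ :=
      (d2_re hα hβ h).trans ((neg_le_abs _).trans (Complex.abs_re_le_norm _))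
    have e3 : 1 / 2500 ≤ ‖6 * s - α - β + 2 * w + 2 * z1 + 2 * z2‖ * ‖-α - β - 2 * w‖ := by
      calc (1 : ℝ) / 2500 = 1 / 50 * (1 / 50) := by norm_num
        _ ≤ _ := mul_le_mul e1 e2 (by norm_num) (norm_nonneg _)
    rw [div_le_iff₀ (by linarith)]
    nlinarith
  have hCG := CG_pos
  have hCg := Cg_pos
  unfold Ar
  rw [norm_mul, norm_mul, norm_mul]
  have hxs : 0 < x ^ σ := Real.rpow_pos_of_pos hx0 _
  rw [norm_mul (gz _ _)]
  calc _ ≤ (CG * Real.exp (-((w + (z1 + z2) / 2).im ^ 2 / 2))) *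
        ((Cg * Real.exp (-(z1.im ^ 2 / 2))) * (Cg * Real.exp (-(z2.im ^ 2 / 2)))) * (7 * x ^ σ) *
          (B * 2500) := by gcongr
    _ = C0 * B * x ^ σ * (Real.exp (-((w + (z1 + z2) / 2).im ^ 2 / 2)) *
          (Real.exp (-(z1.im ^ 2 / 2)) * Real.exp (-(z2.im ^ 2 / 2)))) := by
        unfold C0
        ring
    _ ≤ _ := by
        apply mul_le_mul_of_nonneg_left _ (by have := C0_pos; positivity)
        rw [← Real.exp_add, ← Real.exp_add]
        apply Real.exp_le_exp.2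
        have e : (w + (z1 + z2) / 2).im = w.im + (z1.im + z2.im) / 2 := by simp
        rw [e]
        nlinarith [sq_nonneg (w.im + (z1.im + z2.im) / 2), sq_nonneg (z1.im - z2.im),
          sq_nonneg (w.im * 2 + (z1.im + z2.im)), sq_nonneg (w.im - z1.im), sq_nonneg (w.im - z2.im),
          sq_nonneg (z1.im + z2.im), sq_nonneg (w.im + z1.im + z2.im)]

/-! ### regularity -/

theorem Gw_diff (s : ℂ) : Differentiable ℂ (Gw s) := by
  unfold Gw
  fun_prop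

theorem gz_diff (κ : ℂ) : Differentiable ℂ (gz κ) := by
  unfold gz
  fun_prop

theorem X2_diff {x : ℝ} (hx : 0 < x) : Differentiable ℂ (X2 x) := by
  have hpi := Real.pi_pos
  have hp : ((x / (2 * Real.pi) : ℝ) : ℂ) ≠ 0 := by
    have : (0 : ℝ) < x / (2 * Real.pi) := by positivity
    exact_mod_cast this.ne'
  have e : X2 x = fun w => cexp (Complex.log ((x / (2 * Real.pi) : ℝ) : ℂ) * w) := by
    funext w
    unfold X2
    rw [Complex.cpow_def_of_ne_zero hp]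
  rw [e]
  fun_prop

theorem Ar_diff {H : (Fin 4 → ℂ) → ℂ} {L B x : ℝ} {s α β w : ℂ} (hx : 1 ≤ x) (hL : 1 ≤ L)
    (hH : Hol4 L B H) (hα : Pm s α) (hβ : Pm s β) {f1 f2 : ℂ → ℂ} {S : Set ℂ} (hS : IsOpen S)
    (hf1 : Differentiable ℂ f1) (hf2 : Differentiable ℂ f2)
    (h : ∀ z ∈ S, Dm L w (f1 z) (f2 z)) :
    DifferentiableOn ℂ (fun z => Ar H s α β x w (f1 z) (f2 z)) S := by
  have hx0 : 0 < x := by linarith
  unfold Ar
  refine DifferentiableOn.mul (DifferentiableOn.mul (DifferentiableOn.mul ?_ ?_) ?_) ?_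
  · refine DifferentiableOn.div ?_ (by fun_prop) fun z hz => ne_of_re (om_re (h z hz))
    exact ((Gw_diff s).comp (by fun_prop)).differentiableOn
  · exact (((gz_diff _).comp hf1).mul ((gz_diff _).comp hf2)).differentiableOn
  · exact ((X2_diff hx0).comp (by fun_prop)).differentiableOn
  · refine DifferentiableOn.div ?_ (by fun_prop) fun z hz =>
      mul_ne_zero (ne_of_re (d1_re hα hβ (h z hz))) (d2_ne hα hβ (h z hz))
    refine hH.holo (fun z => uZ s α β w (f1 z) (f2 z)) S hS ?_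
      (fun z hz => mem_box hL hα hβ (h z hz))
    intro i
    fin_cases i <;> simp only [uZ] <;> simp <;> fun_prop

theorem Ar_cont {H : (Fin 4 → ℂ) → ℂ} {L B x : ℝ} {s α β : ℂ} (hx : 1 ≤ x) (hL : 1 ≤ L)
    (hH : Hol4 L B H) (hα : Pm s α) (hβ : Pm s β) {X : Type} [TopologicalSpace X]
    {fw f1 f2 : X → ℂ} (hfw : Continuous fw)
    (hf1 : Continuous f1) (hf2 : Continuous f2) (h : ∀ p, Dm L (fw p) (f1 p) (f2 p)) :
    Continuous (fun p => Ar H s α β x (fw p) (f1 p) (f2 p)) := by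
  have hx0 : 0 < x := by linarith
  unfold Ar
  refine Continuous.mul (Continuous.mul (Continuous.mul ?_ ?_) ?_) ?_
  · refine Continuous.div ?_ (by fun_prop) fun p => ne_of_re (om_re (h p))
    exact (Gw_diff s).continuous.comp (by fun_prop)
  · exact ((gz_diff _).continuous.comp hf1).mul ((gz_diff _).continuous.comp hf2)
  · exact (X2_diff hx0).continuous.comp (by fun_prop)
  · refine Continuous.div ?_ (by fun_prop) fun p =>
      mul_ne_zero (ne_of_re (d1_re hα hβ (h p))) (d2_ne hα hβ (h p))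
    refine hH.cont.comp_continuous ?_ (fun p => mem_box hL hα hβ (h p))
    refine continuous_pi fun i => ?_
    fin_cases i <;> simp only [uZ] <;> simp <;> fun_prop

theorem ker_eq {H : (Fin 4 → ℂ) → ℂ} {L x : ℝ} {s α β w z1 z2 : ℂ}
    (hα : Pm s α) (hβ : Pm s β) (h : Dm L w z1 z2) (h1 : cz ≤ z1.re) (h2 : cz ≤ z2.re) :
    Zker s α β x w z1 z2 * RR H (uZ s α β w z1 z2) = Ar H s α β x w z1 z2 / z1 / z2 := by
  have hk : ∀ {γ z : ℂ}, Pm s γ → cz ≤ z.re → (3 * s - 2 * γ) + 2 * z ≠ 0 := by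
    intro γ z hγ hz h0
    have e := congrArg Complex.re h0
    have e1 := (Complex.abs_re_le_norm (3 * s - 2 * γ))
    rw [hγ.kn, abs_le, rho_eq] at e1
    rw [Complex.add_re, Complex.zero_re] at e
    have e2 : (2 * z).re = 2 * z.re := by simp
    rw [e2] at e
    rw [cz_eq] at hz
    linarith [e1.1]
  have k1 := hk hα h1
  have k2 := hk hβ h2
  have hz1 : z1 ≠ 0 := by
    rintro rfl
    rw [Complex.zero_re, cz_eq] at h1
    norm_num at h1
  have hz2 : z2 ≠ 0 := by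
    rintro rfl
    rw [Complex.zero_re, cz_eq] at h2
    norm_num at h2
  have hD1 := ne_of_re (d1_re hα hβ h)
  have hD2 := d2_ne hα hβ h
  have hom := ne_of_re (om_re h)
  unfold Zker RR Ar
  rw [Gz_eq hα.k0 hα.k2 (z := z1), Gz_eq hβ.k0 hβ.k2 (z := z2)]
  have hP : Pi4 (uZ s α β w z1 z2) = (6 * s - α - β + 2 * w + 2 * z1 + 2 * z2) *
      ((3 * s - 2 * α) + 2 * z1) * (((3 * s - 2 * β) + 2 * z2) * (-α - β - 2 * w)) := by
    unfold Pi4 uZ
    simp
    ring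
  rw [hP]
  generalize (3 * s - 2 * α) + 2 * z1 = k at *
  generalize (3 * s - 2 * β) + 2 * z2 = k' at *
  generalize 6 * s - α - β + 2 * w + 2 * z1 + 2 * z2 = D1 at *
  generalize -α - β - 2 * w = D2 at *
  generalize w + (z1 + z2) / 2 = om at *
  generalize gz (3 * s - 2 * α) z1 = g1 at *
  generalize gz (3 * s - 2 * β) z2 = g2 at *
  generalize H (uZ s α β w z1 z2) = h' at *
  field_simp

/-! ### the two shifts -/

/-- the size of the error -/
noncomputable def QQ (x L : ℝ) : ℝ :=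
  x ^ (-(1 / 200) : ℝ) + x ^ (1 / 100 : ℝ) * Real.exp (-(L ^ 2 / 1000))

theorem QQ_nonneg {x : ℝ} (hx : 1 ≤ x) (L : ℝ) : 0 ≤ QQ x L := by
  have : 0 < x := by linarith
  unfold QQ
  positivity

/-- the constant after one shift -/
noncomputable def C1 : ℝ := C0 * (100 * K8 + 1)

theorem C1_nonneg : 0 ≤ C1 := by
  have := C0_pos
  have := K8_nonneg
  unfold C1
  positivity

theorem one_shift {x L B t : ℝ} {G : ℂ → ℂ} (hx : 1 ≤ x) (hL : 1 ≤ L) (hB : 0 ≤ B)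
    (hG : DifferentiableOn ℂ G {z | -(1 / 50) < z.re ∧ z.re < 1 / 50 ∧ |z.im| < L / 7})
    (hb : ∀ (σ : ℝ) (z : ℂ), -(1 / 100) ≤ z.re → z.re ≤ cz → |z.im| ≤ L / 8 →
      cz + z.re + 4 * rho ≤ σ → ‖G z‖ ≤ C0 * B * x ^ σ * Real.exp (-((t + z.im ^ 2) / 8))) :
    ‖(2 * Real.pi : ℂ)⁻¹ * (∫ v in (-(L / 8))..(L / 8), G ((cz : ℂ) + (v : ℂ) * I) /
      ((cz : ℂ) + (v : ℂ) * I)) - G 0‖ ≤ C1 * B * QQ x L * Real.exp (-(t / 8)) := by
  have hx0 : 0 < x := by linarith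
  have hC := C0_pos
  have hK := K8_nonneg
  have hcz : cz = 1 / 10 ^ 5 := rfl
  have hrho : rho = 1 / 10 ^ 7 := rfl
  set M₁ : ℝ := C0 * B * x ^ (-(1 / 200) : ℝ) * Real.exp (-(t / 8)) with hM₁
  set M₂ : ℝ := C0 * B * x ^ (1 / 100 : ℝ) * Real.exp (-(t / 8)) * Real.exp (-(L ^ 2 / 1000)) with hM₂
  have hKs : K (-(1 / 100)) cz (L / 8) ⊆ {z | -(1 / 50) < z.re ∧ z.re < 1 / 50 ∧ |z.im| < L / 7} := by
    rintro z ⟨h1, h2, h3⟩
    refine ⟨by linarith, ?_, by linarith⟩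
    rw [hcz] at h2
    linarith
  have h := shift_bd (G := G) (a := -(1 / 100)) (c := cz) (Y := L / 8) (M₁ := M₁) (M₂ := M₂)
    (by norm_num) (by rw [hcz]; norm_num) (by linarith) (hG.mono hKs) (by positivity) (by positivity)
    (by
      intro v hv
      have := hb (-(1 / 200)) (((-(1 / 100) : ℝ) : ℂ) + (v : ℂ) * I) (by rw [re_line])
        (by rw [re_line, hcz]; norm_num) (by rw [im_line]; exact hv)
        (by rw [re_line, hcz, hrho]; norm_num)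
      rw [im_line] at this
      refine this.trans (le_of_eq ?_)
      rw [hM₁]
      have e : -((t + v ^ 2) / 8) = -(t / 8) + -(v ^ 2 / 8) := by ring
      rw [e, Real.exp_add]
      ring)
    (by
      intro a y h1 h2 hy
      have := hb (1 / 100) ((a : ℂ) + (y : ℂ) * I) (by rw [re_line]; exact h1)
        (by rw [re_line]; exact h2) (by rw [im_line, hy])
        (by rw [re_line, hrho]; rw [hcz] at *; linarith)
      rw [im_line] at this
      refine this.trans ?_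
      rw [hM₂]
      have e : -((t + y ^ 2) / 8) = -(t / 8) + -(y ^ 2 / 8) := by ring
      have e2 : y ^ 2 = (L / 8) ^ 2 := by rw [← sq_abs, hy]
      rw [e, Real.exp_add, e2]
      have e3 : Real.exp (-((L / 8) ^ 2 / 8)) ≤ Real.exp (-(L ^ 2 / 1000)) := by
        apply Real.exp_le_exp.2
        nlinarith [sq_nonneg L]
      calc C0 * B * x ^ (1 / 100 : ℝ) * (Real.exp (-(t / 8)) * Real.exp (-((L / 8) ^ 2 / 8)))
          = C0 * B * x ^ (1 / 100 : ℝ) * Real.exp (-(t / 8)) * Real.exp (-((L / 8) ^ 2 / 8)) := by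
            ring
        _ ≤ _ := mul_le_mul_of_nonneg_left e3 (by positivity))
  refine h.trans ?_
  have h1 : 0 < x ^ (-(1 / 200) : ℝ) := Real.rpow_pos_of_pos hx0 _
  have h2 : 0 < x ^ (1 / 100 : ℝ) := Real.rpow_pos_of_pos hx0 _
  have h3 := Real.exp_pos (-(t / 8))
  have h4 := Real.exp_pos (-(L ^ 2 / 1000))
  have h5 : M₁ / (-(-(1 / 100))) * K8 = C0 * B * x ^ (-(1 / 200) : ℝ) * Real.exp (-(t / 8)) * (100 * K8) := by
    rw [hM₁]
    ring
  have h6 : 16 * (cz - -(1 / 100)) * M₂ ≤ M₂ := by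
    have hM2 : 0 ≤ M₂ := by positivity
    rw [hcz]
    norm_num
    linarith
  rw [h5]
  have h7 : C1 * B * QQ x L * Real.exp (-(t / 8)) =
      C0 * B * x ^ (-(1 / 200) : ℝ) * Real.exp (-(t / 8)) * (100 * K8) +
        C0 * B * x ^ (-(1 / 200) : ℝ) * Real.exp (-(t / 8)) +
        M₂ * (100 * K8) + M₂ := by
    rw [hM₂]
    unfold C1 QQ
    ring
  rw [h7]
  have h8 : 0 ≤ C0 * B * x ^ (-(1 / 200) : ℝ) * Real.exp (-(t / 8)) := by positivity
  have h9 : 0 ≤ M₂ * (100 * K8) := by positivity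
  linarith

/-- clamping -/
noncomputable def cl (T v : ℝ) : ℝ := max (-T) (min v T)

theorem cl_cont (T : ℝ) : Continuous (cl T) := by
  unfold cl
  fun_prop

theorem cl_abs {T : ℝ} (hT : 0 ≤ T) (v : ℝ) : |cl T v| ≤ T := by
  unfold cl
  rw [abs_le]
  exact ⟨le_max_left _ _, max_le (by linarith) (min_le_right _ _)⟩

theorem cl_eq {T v : ℝ} (hv : |v| ≤ T) : cl T v = v := by
  rw [abs_le] at hv
  unfold cl
  rw [min_eq_left hv.2, max_eq_right hv.1]

/-- point on a vertical line, clamped -/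
noncomputable def ln (T c v : ℝ) : ℂ := (c : ℂ) + ((cl T v : ℝ) : ℂ) * I

theorem ln_cont (T c : ℝ) : Continuous (ln T c) := by
  unfold ln
  have := cl_cont T
  fun_prop

theorem ln_re (T c v : ℝ) : (ln T c v).re = c := by simp [ln]

theorem ln_im (T c v : ℝ) : (ln T c v).im = cl T v := by simp [ln]

theorem ln_eq {T c v : ℝ} (hv : |v| ≤ T) : ln T c v = (c : ℂ) + (v : ℂ) * I := by
  unfold ln
  rw [cl_eq hv]

end AbsZAux

open AbsZAux in
theorem abs_z : ∃ C : ℝ, 0 < C ∧ ∀ (x L B : ℝ) (H : (Fin 4 → ℂ) → ℂ) (s α β : ℂ), 1 ≤ x → 1 ≤ L → Hol4 L B H → ‖s‖ = rho →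
    (α = s ∨ α = 2 * s) → (β = s ∨ β = 2 * s) →
    ‖ZT H s α β x L - X2 x (-α - β) * WT cw H s α β L‖ ≤
      C * B * (x ^ (-(1 / 200) : ℝ) + x ^ (1 / 100 : ℝ) * Real.exp (-(L ^ 2 / 1000))) := by
  have hC1 := C1_nonneg
  have hK := K8_nonneg
  have hcz : cz = 1 / 10 ^ 5 := rfl
  have hcz0 : 0 < cz := by rw [hcz]; norm_num
  refine ⟨C1 * (K8 / cz + 1) * K8 + 1, by positivity, ?_⟩
  intro x L B H s α β hx hL hH hs hα' hβ'
  have hα := pm hs hα'
  have hβ := pm hs hβ'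
  have hx0 : 0 < x := by linarith
  have hB : 0 ≤ B := by
    refine (norm_nonneg (H 0)).trans (hH.bound 0 ?_)
    intro i
    simp
    linarith
  set T : ℝ := L / 8 with hT
  have hT0 : 0 ≤ T := by rw [hT]; linarith
  set Q := QQ x L with hQ
  have hQ0 : 0 ≤ Q := QQ_nonneg hx L
  set D : ℝ := C1 * B * Q with hD
  have hD0 : 0 ≤ D := by positivity
  set W : ℝ → ℂ := ln T cw with hW
  set Z : ℝ → ℂ := ln T cz with hZ
  set A : ℂ → ℂ → ℂ → ℂ := Ar H s α β x with hA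
  have hcW : Continuous W := ln_cont T cw
  have hcZ : Continuous Z := ln_cont T cz
  have hWi : ∀ v, |(W v).im| ≤ L / 8 := fun v => by rw [hW, ln_im]; exact cl_abs hT0 v
  have hZi : ∀ v, |(Z v).im| ≤ L / 7 := fun v => by
    rw [hZ, ln_im]
    have := cl_abs hT0 v
    linarith
  have hZi' : ∀ v, |(Z v).im| ≤ L / 8 := fun v => by rw [hZ, ln_im]; exact cl_abs hT0 v
  have hZ0 : ∀ v, Z v ≠ 0 := fun v h0 => by
    have := congrArg Complex.re h0
    rw [hZ, ln_re, Complex.zero_re] at this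
    linarith
  have hZn : ∀ v, ‖Z v‖⁻¹ ≤ 1 / cz := fun v => by
    have h1 : cz ≤ ‖Z v‖ := by
      have := Complex.abs_re_le_norm (Z v)
      rw [hZ, ln_re, abs_of_pos hcz0] at this
      exact this
    rw [one_div]
    exact inv_anti₀ hcz0 h1
  have dm3 : ∀ v1 v2 v3, Dm L (W v1) (Z v2) (Z v3) := fun v1 v2 v3 => by
    refine ⟨ln_re _ _ _, hWi v1, ?_, ?_, ?_, hZi v2, hZi v3⟩
    · rw [hZ, ln_re, hcz, abs_of_pos (by norm_num)]; norm_num
    · rw [hZ, ln_re, hcz, abs_of_pos (by norm_num)]; norm_num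
    · rw [hZ, ln_re, ln_re, hcz]; norm_num
  have dm2 : ∀ v1 v2, Dm L (W v1) (Z v2) 0 := fun v1 v2 => by
    refine ⟨ln_re _ _ _, hWi v1, ?_, ?_, ?_, hZi v2, ?_⟩
    · rw [hZ, ln_re, hcz, abs_of_pos (by norm_num)]; norm_num
    · simp
    · rw [hZ, ln_re, hcz, Complex.zero_re]; norm_num
    · simp; linarith
  have dm1 : ∀ v1, Dm L (W v1) 0 0 := fun v1 => by
    refine ⟨ln_re _ _ _, hWi v1, ?_, ?_, ?_, ?_, ?_⟩
    · simp
    · simp
    · simp
    · simp; linarith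
    · simp; linarith
  -- continuity
  have c3 : Continuous fun p : (ℝ × ℝ) × ℝ => A (W p.1.1) (Z p.1.2) (Z p.2) / Z p.1.2 / Z p.2 := by
    refine Continuous.div (Continuous.div ?_ (by fun_prop) fun p => hZ0 _) (by fun_prop) fun p => hZ0 _
    exact Ar_cont hx hL hH hα hβ (by fun_prop) (by fun_prop) (by fun_prop) fun p => dm3 _ _ _
  have c2 : Continuous fun p : ℝ × ℝ => A (W p.1) (Z p.2) 0 / Z p.2 := by
    refine Continuous.div ?_ (by fun_prop) fun p => hZ0 _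
    exact Ar_cont hx hL hH hα hβ (by fun_prop) (by fun_prop) (by fun_prop) fun p => dm2 _ _
  have c1 : Continuous fun v : ℝ => A (W v) 0 0 :=
    Ar_cont hx hL hH hα hβ (by fun_prop) (by fun_prop) (by fun_prop) fun p => dm1 _
  set J3 : ℝ × ℝ → ℂ := fun p => ∫ v3 in (-T)..T, A (W p.1) (Z p.2) (Z v3) / Z p.2 / Z v3 with hJ3
  have cJ3 : Continuous J3 :=
    intervalIntegral.continuous_parametric_intervalIntegral_of_continuous' (f := fun (p : ℝ × ℝ)
      (v3 : ℝ) => A (W p.1) (Z p.2) (Z v3) / Z p.2 / Z v3) c3 _ _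
  set J2 : ℝ → ℂ := fun v1 => ∫ v2 in (-T)..T, J3 (v1, v2) with hJ2
  have cJ2 : Continuous J2 :=
    intervalIntegral.continuous_parametric_intervalIntegral_of_continuous' (f := fun (v1 v2 : ℝ) =>
      J3 (v1, v2)) cJ3 _ _
  set S2 : ℝ → ℂ := fun v1 => ∫ v2 in (-T)..T, A (W v1) (Z v2) 0 / Z v2 with hS2
  have cS2 : Continuous S2 :=
    intervalIntegral.continuous_parametric_intervalIntegral_of_continuous' (f := fun (v1 v2 : ℝ) =>
      A (W v1) (Z v2) 0 / Z v2) c2 _ _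
  have hSo : IsOpen {z : ℂ | -(1 / 50) < z.re ∧ z.re < 1 / 50 ∧ |z.im| < L / 7} := by
    refine (isOpen_lt continuous_const Complex.continuous_re).inter
      ((isOpen_lt Complex.continuous_re continuous_const).inter
        (isOpen_lt (continuous_abs.comp Complex.continuous_im) continuous_const))
  -- first shift
  have F1 : ∀ v1 v2, |v1| ≤ T → |v2| ≤ T →
      ‖(2 * Real.pi : ℂ)⁻¹ * J3 (v1, v2) - A (W v1) (Z v2) 0 / Z v2‖ ≤
        D / cz * Real.exp (-(v1 ^ 2 / 8)) * Real.exp (-(v2 ^ 2 / 8)) := by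
    intro v1 v2 h1 h2
    have hre2 : (Z v2).re = cz := ln_re _ _ _
    have hsh := one_shift (x := x) (L := L) (B := B) (t := v1 ^ 2 + v2 ^ 2)
      (G := fun z => A (W v1) (Z v2) z) hx hL hB
      (Ar_diff hx hL hH hα hβ hSo (differentiable_const _) differentiable_id (by
        rintro z ⟨hz1, hz2, hz3⟩
        refine ⟨ln_re _ _ _, hWi v1, ?_, abs_le.2 ⟨hz1.le, hz2.le⟩, ?_, hZi v2, hz3.le⟩
        · rw [hre2, hcz, abs_of_pos (by norm_num)]; norm_num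
        · rw [hre2, hcz]
          have : z.re = (id z).re := rfl
          linarith))
      (by
        intro σ z hz1 hz2 hz3 hσ
        have hdm : Dm L (W v1) (Z v2) z := by
          refine ⟨ln_re _ _ _, hWi v1, ?_, abs_le.2 ⟨by linarith, ?_⟩, ?_, hZi v2, by linarith⟩
          · rw [hre2, hcz, abs_of_pos (by norm_num)]; norm_num
          · rw [hcz] at hz2; linarith
          · rw [hre2, hcz]; linarith
        have := Ar_bd hx hL hH hs hα hβ hdm (σ := σ) (by rw [hre2]; linarith)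
        have e1 : (W v1).im = v1 := by rw [hW, ln_im, cl_eq h1]
        have e2 : (Z v2).im = v2 := by rw [hZ, ln_im, cl_eq h2]
        rw [e1, e2] at this
        exact this)
    have e3 : J3 (v1, v2) = (∫ v in (-T)..T, A (W v1) (Z v2) ((cz : ℂ) + (v : ℂ) * I) /
        ((cz : ℂ) + (v : ℂ) * I)) / Z v2 := by
      simp only [hJ3]
      rw [← intervalIntegral.integral_div]
      apply intervalIntegral.integral_congr
      intro v hv
      rw [Set.uIcc_of_le (by linarith)] at hv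
      have : Z v = (cz : ℂ) + (v : ℂ) * I := ln_eq (abs_le.2 hv)
      simp only [this]
      rw [div_right_comm]
    have e4 : (2 * Real.pi : ℂ)⁻¹ * J3 (v1, v2) - A (W v1) (Z v2) 0 / Z v2 =
        ((2 * Real.pi : ℂ)⁻¹ * (∫ v in (-T)..T, A (W v1) (Z v2) ((cz : ℂ) + (v : ℂ) * I) /
          ((cz : ℂ) + (v : ℂ) * I)) - A (W v1) (Z v2) 0) / Z v2 := by
      rw [e3]
      ring
    rw [e4, norm_div, div_eq_mul_inv]
    calc _ ≤ (C1 * B * QQ x L * Real.exp (-((v1 ^ 2 + v2 ^ 2) / 8))) * (1 / cz) :=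
          mul_le_mul hsh (hZn v2) (by positivity) (by positivity)
      _ = D / cz * (Real.exp (-(v1 ^ 2 / 8)) * Real.exp (-(v2 ^ 2 / 8))) := by
          rw [← Real.exp_add, hD, hQ]
          have : -((v1 ^ 2 + v2 ^ 2) / 8) = -(v1 ^ 2 / 8) + -(v2 ^ 2 / 8) := by ring
          rw [this]
          ring
      _ = _ := by ring
  have F2 : ∀ v1, |v1| ≤ T → ‖(2 * Real.pi : ℂ)⁻¹ * J2 v1 - S2 v1‖ ≤
      D / cz * Real.exp (-(v1 ^ 2 / 8)) * K8 := by
    intro v1 h1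
    have e1 : (2 * Real.pi : ℂ)⁻¹ * J2 v1 - S2 v1 =
        ∫ v2 in (-T)..T, ((2 * Real.pi : ℂ)⁻¹ * J3 (v1, v2) - A (W v1) (Z v2) 0 / Z v2) := by
      rw [intervalIntegral.integral_sub, intervalIntegral.integral_const_mul]
      · exact (by fun_prop : Continuous fun v2 : ℝ => (2 * Real.pi : ℂ)⁻¹ * J3 (v1, v2)).intervalIntegrable _ _
      · exact (c2.comp (by fun_prop : Continuous fun v2 : ℝ => (v1, v2))).intervalIntegrable _ _
    rw [e1]
    exact norm_int_le hT0 (by positivity) fun v2 h2 => F1 v1 v2 h1 h2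
  have F3 : ∀ v1, |v1| ≤ T → ‖(2 * Real.pi : ℂ)⁻¹ * S2 v1 - A (W v1) 0 0‖ ≤
      D * Real.exp (-(v1 ^ 2 / 8)) := by
    intro v1 h1
    have hsh := one_shift (x := x) (L := L) (B := B) (t := v1 ^ 2)
      (G := fun z => A (W v1) z 0) hx hL hB
      (Ar_diff hx hL hH hα hβ hSo differentiable_id (differentiable_const _) (by
        rintro z ⟨hz1, hz2, hz3⟩
        refine ⟨ln_re _ _ _, hWi v1, abs_le.2 ⟨hz1.le, hz2.le⟩, ?_, ?_, hz3.le, ?_⟩
        · simp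
        · have : z.re = (id z).re := rfl
          rw [Complex.zero_re]
          linarith
        · simp; linarith))
      (by
        intro σ z hz1 hz2 hz3 hσ
        have hdm : Dm L (W v1) z 0 := by
          refine ⟨ln_re _ _ _, hWi v1, abs_le.2 ⟨by linarith, ?_⟩, ?_, ?_, by linarith, ?_⟩
          · rw [hcz] at hz2; linarith
          · simp
          · rw [Complex.zero_re]; linarith
          · simp; linarith
        have := Ar_bd hx hL hH hs hα hβ hdm (σ := σ) (by rw [Complex.zero_re]; linarith)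
        have e1 : (W v1).im = v1 := by rw [hW, ln_im, cl_eq h1]
        rw [e1, Complex.zero_im] at this
        refine this.trans (le_of_eq ?_)
        congr 3
        ring)
    have e3 : S2 v1 = ∫ v in (-T)..T, A (W v1) ((cz : ℂ) + (v : ℂ) * I) 0 /
        ((cz : ℂ) + (v : ℂ) * I) := by
      simp only [hS2]
      apply intervalIntegral.integral_congr
      intro v hv
      rw [Set.uIcc_of_le (by linarith)] at hv
      have : Z v = (cz : ℂ) + (v : ℂ) * I := ln_eq (abs_le.2 hv)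
      simp only [this]
    rw [e3]
    exact hsh
  have hpi1 := two_pi_inv_le
  have F4 : ∀ v1, |v1| ≤ T → ‖(2 * Real.pi : ℂ)⁻¹ * ((2 * Real.pi : ℂ)⁻¹ * J2 v1) - A (W v1) 0 0‖ ≤
      (D / cz * K8 + D) * Real.exp (-(v1 ^ 2 / 8)) := by
    intro v1 h1
    have e1 : (2 * Real.pi : ℂ)⁻¹ * ((2 * Real.pi : ℂ)⁻¹ * J2 v1) - A (W v1) 0 0 =
        (2 * Real.pi : ℂ)⁻¹ * ((2 * Real.pi : ℂ)⁻¹ * J2 v1 - S2 v1) +
          ((2 * Real.pi : ℂ)⁻¹ * S2 v1 - A (W v1) 0 0) := by ring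
    rw [e1]
    refine (norm_add_le _ _).trans ?_
    rw [norm_mul]
    have h2 : ‖(2 * Real.pi : ℂ)⁻¹‖ * ‖(2 * Real.pi : ℂ)⁻¹ * J2 v1 - S2 v1‖ ≤
        ‖(2 * Real.pi : ℂ)⁻¹ * J2 v1 - S2 v1‖ := mul_le_of_le_one_left (norm_nonneg _) hpi1
    have h3 := F2 v1 h1
    have h4 := F3 v1 h1
    have h5 : (D / cz * K8 + D) * Real.exp (-(v1 ^ 2 / 8)) =
        D / cz * Real.exp (-(v1 ^ 2 / 8)) * K8 + D * Real.exp (-(v1 ^ 2 / 8)) := by ring
    rw [h5]
    linarith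
  -- the two sides
  have E1 : ZT H s α β x L = (2 * Real.pi : ℂ)⁻¹ *
      ∫ v1 in (-T)..T, (2 * Real.pi : ℂ)⁻¹ * ((2 * Real.pi : ℂ)⁻¹ * J2 v1) := by
    unfold ZT
    rw [intervalIntegral.integral_const_mul, intervalIntegral.integral_const_mul]
    have e0 : ((2 * Real.pi : ℂ) ^ 3)⁻¹ = (2 * Real.pi : ℂ)⁻¹ * ((2 * Real.pi : ℂ)⁻¹ *
        (2 * Real.pi : ℂ)⁻¹) := by
      rw [← mul_inv, ← mul_inv]
      congr 1
      ring
    rw [e0]
    simp only [mul_assoc]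
    congr 3
    apply intervalIntegral.integral_congr
    intro v1 hv1
    rw [Set.uIcc_of_le (by linarith)] at hv1
    apply intervalIntegral.integral_congr
    intro v2 hv2
    rw [Set.uIcc_of_le (by linarith)] at hv2
    apply intervalIntegral.integral_congr
    intro v3 hv3
    rw [Set.uIcc_of_le (by linarith)] at hv3
    have w1 : W v1 = (cw : ℂ) + (v1 : ℂ) * I := ln_eq (abs_le.2 hv1)
    have w2 : Z v2 = (cz : ℂ) + (v2 : ℂ) * I := ln_eq (abs_le.2 hv2)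
    have w3 : Z v3 = (cz : ℂ) + (v3 : ℂ) * I := ln_eq (abs_le.2 hv3)
    have := ker_eq (H := H) (x := x) hα hβ (dm3 v1 v2 v3) (by rw [hZ, ln_re]) (by rw [hZ, ln_re])
    simp only [← w1, ← w2, ← w3]
    exact this
  have E2 : X2 x (-α - β) * WT cw H s α β L = (2 * Real.pi : ℂ)⁻¹ * ∫ v1 in (-T)..T, A (W v1) 0 0 := by
    unfold WT
    rw [mul_left_comm, ← intervalIntegral.integral_const_mul]
    congr 1
    apply intervalIntegral.integral_congr
    intro v1 hv1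
    rw [Set.uIcc_of_le (by linarith)] at hv1
    have w1 : W v1 = (cw : ℂ) + (v1 : ℂ) * I := ln_eq (abs_le.2 hv1)
    simp only [← w1, hA]
    unfold Ar RR gz
    have hu : uZ s α β (W v1) 0 0 = uW s α β (W v1) := by
      unfold uZ uW
      simp
    have hP : Pi4 (uW s α β (W v1)) = (6 * s - α - β + 2 * W v1 + 2 * 0 + 2 * 0) *
        (3 * s - 2 * α) * ((3 * s - 2 * β) * (-α - β - 2 * W v1)) := by
      unfold Pi4 uW
      simp
      ring
    rw [hu, hP]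
    have k1 := hα.k0
    have k2 := hβ.k0
    have hD1 := ne_of_re (d1_re hα hβ (dm1 v1))
    have hD2 := d2_ne hα hβ (dm1 v1)
    have e5 : W v1 + (0 + 0) / 2 = W v1 := by ring
    have e6 : -α - β + 0 + 0 = -α - β := by ring
    have e7 : (0 : ℂ) ^ 2 = 0 := by norm_num
    rw [e5, e6, e7, Complex.exp_zero]
    generalize 6 * s - α - β + 2 * W v1 + 2 * 0 + 2 * 0 = D1 at *
    generalize -α - β - 2 * W v1 = D2 at *
    generalize 3 * s - 2 * α = k at *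
    generalize 3 * s - 2 * β = k' at *
    field_simp
    ring
  have E3 : ZT H s α β x L - X2 x (-α - β) * WT cw H s α β L = (2 * Real.pi : ℂ)⁻¹ *
      ∫ v1 in (-T)..T, ((2 * Real.pi : ℂ)⁻¹ * ((2 * Real.pi : ℂ)⁻¹ * J2 v1) - A (W v1) 0 0) := by
    rw [intervalIntegral.integral_sub]
    · rw [E1, E2]
      ring
    · exact (by fun_prop : Continuous fun v1 : ℝ =>
        (2 * Real.pi : ℂ)⁻¹ * ((2 * Real.pi : ℂ)⁻¹ * J2 v1)).intervalIntegrable _ _
    · exact c1.intervalIntegrable _ _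
  rw [E3, norm_mul]
  have h6 := norm_int_le (f := fun v1 => (2 * Real.pi : ℂ)⁻¹ * ((2 * Real.pi : ℂ)⁻¹ * J2 v1) -
    A (W v1) 0 0) hT0 (M := D / cz * K8 + D) (by positivity) F4
  calc _ ≤ (D / cz * K8 + D) * K8 :=
        (mul_le_of_le_one_left (norm_nonneg _) hpi1).trans h6
    _ = C1 * (K8 / cz + 1) * K8 * B * Q := by
        rw [hD]
        ring
    _ ≤ C1 * (K8 / cz + 1) * K8 * B * Q + B * Q := le_add_of_nonneg_right (by positivity)
    _ = (C1 * (K8 / cz + 1) * K8 + 1) * B *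
        (x ^ (-(1 / 200) : ℝ) + x ^ (1 / 100 : ℝ) * Real.exp (-(L ^ 2 / 1000))) := by
        rw [hQ]
        unfold QQ
        ring

end Pool.Agent.P07318f
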