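import Pool.Agent.Lib.P07318f.AbsD
import Pool.Agent.Lib.P07318f.AbsZ
import Pool.Agent.Lib.P07318f.AbsW

/-!
# The six swap terms

Apply `abs_d`, `abs_z` for `s` and for `-s` (with `-α, -β`), multiply by `X2 x (±3s)` (`‖X2 x (3s)‖ ≤ (x/2π)^(3ρ)·..≤ 2 x^(1/10^6)`). `X2 x (3s) X2 x (-α-β) =`
`X2 x (3s-α-β)` (`x > 0`). By `abs_w2` the term of `-s`, `(-α,-β)` is `-X2 x (-3s+α+β) WT (-cw) H s (3s-β) (3s-α)`, and with `α' = 3s-β`, `β' = 3s-α`
(`3s - s = 2s`, `3s - 2s = s`) the exponent is `3s-α'-β'`; as `(α,β)` runs through `{s,2s}²` so does `(α',β')`. So the sum of the eight `W`-terms is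
`∑_{α,β} X2 x (3s-α-β) (WT cw - WT (-cw))`, and `abs_w1` gives `∑ X2 x (3s-α-β) RR H ![3s-α, -β, 3s-β, -α]`, the last four terms of `Six`.
-/

set_option autoImplicit false

namespace Pool.Agent.P07318f

open MeasureTheory Complex

/-- truncated main term of one half -/
noncomputable def MT (H : (Fin 4 → ℂ) → ℂ) (s : ℂ) (x L : ℝ) : ℂ :=
  DT H s x L + (ZT H s s s x L + ZT H s s (2 * s) x L + (ZT H s (2 * s) s x L + ZT H s (2 * s) (2 * s) x L))

namespace AbsMainAux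

open AbsDAux

lemma X2_add {x : ℝ} (hx : 0 < x) (a b : ℂ) : X2 x (a + b) = X2 x a * X2 x b := by
  unfold X2
  have h0 : ((x / (2 * Real.pi) : ℝ) : ℂ) ≠ 0 := by
    have : 0 < x / (2 * Real.pi) := by positivity
    exact_mod_cast this.ne'
  exact cpow_add _ _ h0

lemma X2_small {x σ : ℝ} (hx : 1 ≤ x) (h : |σ| ≤ 1 / 1000) :
    (x / (2 * Real.pi)) ^ σ ≤ 3 * x ^ (1 / 1000 : ℝ) := by
  have hp := Real.pi_gt_three
  have hp4 := Real.pi_lt_four
  have hX : 0 < x / (2 * Real.pi) := by positivity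
  rw [abs_le] at h
  have h3 := P07318s.OneVarAux.rpow_between hX h.1 h.2
  have h4 : (x / (2 * Real.pi)) ^ (-(1 / 1000) : ℝ) ≤ 2 * x ^ (1 / 1000 : ℝ) := by
    rw [Real.div_rpow (by linarith) (by positivity), div_eq_mul_inv, mul_comm]
    refine mul_le_mul ?_ (Real.rpow_le_rpow_of_exponent_le hx (by norm_num)) (by positivity)
      (by norm_num)
    rw [← Real.rpow_neg (by positivity), neg_neg]
    calc (2 * Real.pi) ^ (1 / 1000 : ℝ) ≤ ((2 : ℝ) ^ (3 : ℝ)) ^ (1 / 1000 : ℝ) :=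
          Real.rpow_le_rpow (by positivity) (by norm_num; linarith) (by norm_num)
      _ = (2 : ℝ) ^ (3 / 1000 : ℝ) := by
          rw [← Real.rpow_mul (by norm_num)]
          norm_num
      _ ≤ (2 : ℝ) ^ (1 : ℝ) := Real.rpow_le_rpow_of_exponent_le (by norm_num) (by norm_num)
      _ = 2 := Real.rpow_one 2
  have h6 : (x / (2 * Real.pi)) ^ (1 / 1000 : ℝ) ≤ x ^ (1 / 1000 : ℝ) := by
    refine Real.rpow_le_rpow hX.le ?_ (by norm_num)
    exact div_le_self (by linarith) (by linarith)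
  linarith

lemma norm_X2_small {x : ℝ} (hx : 1 ≤ x) {z : ℂ} (h : ‖z‖ ≤ 1 / 1000) :
    ‖X2 x z‖ ≤ 3 * x ^ (1 / 1000 : ℝ) := by
  rw [norm_X2 (by linarith)]
  exact X2_small hx ((Complex.abs_re_le_norm z).trans h)

end AbsMainAux

open AbsMainAux AbsDAux in
theorem abs_main : ∃ C : ℝ, 0 < C ∧ ∀ (x L B : ℝ) (H : (Fin 4 → ℂ) → ℂ) (s : ℂ), 1 ≤ x → 1 ≤ L → Hol4 L B H → Sym4 H →
    ‖s‖ = rho →
    ‖X2 x (3 * s) * MT H s x L + X2 x (-3 * s) * MT H (-s) x L - Six H x s‖ ≤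
      C * B * (x ^ (-(1 / 250) : ℝ) + x ^ (1 / 50 : ℝ) * Real.exp (-(L ^ 2 / 1000))) := by
  obtain ⟨C1, hC1, h1⟩ := abs_d
  obtain ⟨C2, hC2, h2⟩ := abs_z
  obtain ⟨C3, hC3, h3⟩ := abs_w1
  refine ⟨3 * (2 * C1 + 8 * C2 + 4 * C3), by positivity, ?_⟩
  intro x L B H s hx hL hH hS hs
  have hrho : rho = 1 / 10 ^ 7 := rfl
  have hr := rho_pos
  have hx0 : 0 < x := by linarith
  have hs0 : s ≠ 0 := by
    intro h
    rw [h, norm_zero] at hs
    linarith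
  have hB : 0 ≤ B := (norm_nonneg _).trans (hH.bound (fun _ => 0) (fun _ => by
    simp only [zero_re, zero_im, abs_zero]
    exact ⟨by norm_num, by linarith⟩))
  have hsn : ‖-s‖ = rho := by rw [norm_neg, hs]
  set e : ℝ := Real.exp (-(L ^ 2 / 1000)) with he
  have he0 : 0 < e := Real.exp_pos _
  have he1 : e ≤ 1 := Real.exp_le_one_iff.2 (by
    have : 0 ≤ L ^ 2 / 1000 := by positivity
    linarith)
  -- the errors
  have d1 := h1 x L B H s hx hL hH hs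
  have d2 := h1 x L B H (-s) hx hL hH hsn
  have z11 := h2 x L B H s s s hx hL hH hs (Or.inl rfl) (Or.inl rfl)
  have z12 := h2 x L B H s s (2 * s) hx hL hH hs (Or.inl rfl) (Or.inr rfl)
  have z21 := h2 x L B H s (2 * s) s hx hL hH hs (Or.inr rfl) (Or.inl rfl)
  have z22 := h2 x L B H s (2 * s) (2 * s) hx hL hH hs (Or.inr rfl) (Or.inr rfl)
  have y11 := h2 x L B H (-s) (-s) (-s) hx hL hH hsn (Or.inl rfl) (Or.inl rfl)
  have y12 := h2 x L B H (-s) (-s) (2 * -s) hx hL hH hsn (Or.inl rfl) (Or.inr rfl)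
  have y21 := h2 x L B H (-s) (2 * -s) (-s) hx hL hH hsn (Or.inr rfl) (Or.inl rfl)
  have y22 := h2 x L B H (-s) (2 * -s) (2 * -s) hx hL hH hsn (Or.inr rfl) (Or.inr rfl)
  have w11 := h3 L B H s s s hL hH hs (Or.inl rfl) (Or.inl rfl)
  have w12 := h3 L B H s s (2 * s) hL hH hs (Or.inl rfl) (Or.inr rfl)
  have w21 := h3 L B H s (2 * s) s hL hH hs (Or.inr rfl) (Or.inl rfl)
  have w22 := h3 L B H s (2 * s) (2 * s) hL hH hs (Or.inr rfl) (Or.inr rfl)
  -- reflection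
  have v11 := abs_w2 L H hS s s s hs0
  have v12 := abs_w2 L H hS s s (2 * s) hs0
  have v21 := abs_w2 L H hS s (2 * s) s hs0
  have v22 := abs_w2 L H hS s (2 * s) (2 * s) hs0
  have a1 : 3 * s - s = 2 * s := by ring
  have a2 : 3 * s - 2 * s = s := by ring
  have a3 : -(2 * s) = 2 * -s := by ring
  rw [a1] at v11 w11 v12 w12 v21 w21
  rw [a2] at v12 v21 v22 w12 w21 w22
  rw [a3] at v12 v21 v22
  -- the powers
  have p11 : X2 x (3 * s) * X2 x (-s - s) = X2 x s := by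
    rw [← X2_add hx0]; congr 1; ring
  have p12 : X2 x (3 * s) * X2 x (-s - 2 * s) = 1 := by
    rw [← X2_add hx0, ← X2_zero x]; congr 1; ring
  have p21 : X2 x (3 * s) * X2 x (-(2 * s) - s) = 1 := by
    rw [← X2_add hx0, ← X2_zero x]; congr 1; ring
  have p22 : X2 x (3 * s) * X2 x (-(2 * s) - 2 * s) = X2 x (-s) := by
    rw [← X2_add hx0]; congr 1; ring
  have q11 : X2 x (-3 * s) * X2 x (- -s - -s) = X2 x (-s) := by
    rw [← X2_add hx0]; congr 1; ring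
  have q12 : X2 x (-3 * s) * X2 x (- -s - 2 * -s) = 1 := by
    rw [← X2_add hx0, ← X2_zero x]; congr 1; ring
  have q21 : X2 x (-3 * s) * X2 x (-(2 * -s) - -s) = 1 := by
    rw [← X2_add hx0, ← X2_zero x]; congr 1; ring
  have q22 : X2 x (-3 * s) * X2 x (-(2 * -s) - 2 * -s) = X2 x s := by
    rw [← X2_add hx0]; congr 1; ring
  have n1 : ‖X2 x (3 * s)‖ ≤ 3 * x ^ (1 / 1000 : ℝ) := norm_X2_small hx (by
    rw [norm_mul, hs, hrho]; norm_num)
  have n2 : ‖X2 x (-3 * s)‖ ≤ 3 * x ^ (1 / 1000 : ℝ) := norm_X2_small hx (by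
    rw [norm_mul, hs, hrho]; norm_num)
  have n3 : ‖X2 x s‖ ≤ 3 * x ^ (1 / 1000 : ℝ) := norm_X2_small hx (by
    rw [hs, hrho]; norm_num)
  have n4 : ‖X2 x (-s)‖ ≤ 3 * x ^ (1 / 1000 : ℝ) := norm_X2_small hx (by
    rw [norm_neg, hs, hrho]; norm_num)
  have hid : X2 x (3 * s) * MT H s x L + X2 x (-3 * s) * MT H (-s) x L - Six H x s =
      X2 x (3 * s) * ((DT H s x L - RR H ![s, 2 * s, s, 2 * s]) +
        (ZT H s s s x L - X2 x (-s - s) * WT cw H s s s L) +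
        (ZT H s s (2 * s) x L - X2 x (-s - 2 * s) * WT cw H s s (2 * s) L) +
        (ZT H s (2 * s) s x L - X2 x (-(2 * s) - s) * WT cw H s (2 * s) s L) +
        (ZT H s (2 * s) (2 * s) x L - X2 x (-(2 * s) - 2 * s) * WT cw H s (2 * s) (2 * s) L)) +
      X2 x (-3 * s) * ((DT H (-s) x L - RR H ![-s, 2 * -s, -s, 2 * -s]) +
        (ZT H (-s) (-s) (-s) x L - X2 x (- -s - -s) * WT cw H (-s) (-s) (-s) L) +
        (ZT H (-s) (-s) (2 * -s) x L - X2 x (- -s - 2 * -s) * WT cw H (-s) (-s) (2 * -s) L) +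
        (ZT H (-s) (2 * -s) (-s) x L - X2 x (-(2 * -s) - -s) * WT cw H (-s) (2 * -s) (-s) L) +
        (ZT H (-s) (2 * -s) (2 * -s) x L -
          X2 x (-(2 * -s) - 2 * -s) * WT cw H (-s) (2 * -s) (2 * -s) L)) +
      X2 x s * (WT cw H s s s L - WT (-cw) H s s s L - RR H ![2 * s, -s, 2 * s, -s]) +
      (WT cw H s s (2 * s) L - WT (-cw) H s s (2 * s) L - RR H ![2 * s, -(2 * s), s, -s]) +
      (WT cw H s (2 * s) s L - WT (-cw) H s (2 * s) s L - RR H ![s, -s, 2 * s, -(2 * s)]) +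
      X2 x (-s) * (WT cw H s (2 * s) (2 * s) L - WT (-cw) H s (2 * s) (2 * s) L -
        RR H ![s, -(2 * s), s, -(2 * s)]) := by
    have hR : RR H ![-s, -(2 * s), -s, -(2 * s)] = RR H ![-s, 2 * -s, -s, 2 * -s] := by rw [a3]
    unfold MT Six
    rw [v11, v12, v21, v22, hR]
    linear_combination
      WT cw H s s s L * p11 + WT cw H s s (2 * s) L * p12 + WT cw H s (2 * s) s L * p21 +
      WT cw H s (2 * s) (2 * s) L * p22 - WT (-cw) H s (2 * s) (2 * s) L * q11 -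
      WT (-cw) H s s (2 * s) L * q12 - WT (-cw) H s (2 * s) s L * q21 - WT (-cw) H s s s L * q22
  rw [hid]
  have bnd : ∀ {X a b c d f : ℂ} {k E F : ℝ}, ‖X‖ ≤ k → ‖a‖ ≤ E → ‖b‖ ≤ F → ‖c‖ ≤ F → ‖d‖ ≤ F →
      ‖f‖ ≤ F → ‖X * (a + b + c + d + f)‖ ≤ k * (E + 4 * F) := by
    intro X a b c d f k E F hX ha hb hc hd hf
    rw [norm_mul]
    refine mul_le_mul hX ?_ (norm_nonneg _) ((norm_nonneg _).trans hX)
    refine (norm_add_le _ _).trans ?_
    have i1 := norm_add_le (a + b + c) d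
    have i2 := norm_add_le (a + b) c
    have i3 := norm_add_le a b
    linarith
  set k : ℝ := 3 * x ^ (1 / 1000 : ℝ) with hk
  have hk1 : 1 ≤ k := by
    have := Real.one_le_rpow hx (by norm_num : (0 : ℝ) ≤ 1 / 1000)
    rw [hk]
    linarith
  have t1 := bnd n1 d1 z11 z12 z21 z22
  have t2 := bnd n2 d2 y11 y12 y21 y22
  have t3 : ‖X2 x s * (WT cw H s s s L - WT (-cw) H s s s L - RR H ![2 * s, -s, 2 * s, -s])‖ ≤
      k * (C3 * B * e) := by
    rw [norm_mul]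
    exact mul_le_mul n3 w11 (norm_nonneg _) (by linarith)
  have t4 : ‖X2 x (-s) * (WT cw H s (2 * s) (2 * s) L - WT (-cw) H s (2 * s) (2 * s) L -
        RR H ![s, -(2 * s), s, -(2 * s)])‖ ≤ k * (C3 * B * e) := by
    rw [norm_mul]
    exact mul_le_mul n4 w22 (norm_nonneg _) (by linarith)
  have t5 : C3 * B * e ≤ k * (C3 * B * e) := le_mul_of_one_le_left (by positivity) hk1
  have hA : ∀ (a b c d f g : ℂ), ‖a + b + c + d + f + g‖ ≤ ‖a‖ + ‖b‖ + ‖c‖ + ‖d‖ + ‖f‖ + ‖g‖ := by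
    intro a b c d f g
    have i0 := norm_add_le (a + b + c + d + f) g
    have i1 := norm_add_le (a + b + c + d) f
    have i2 := norm_add_le (a + b + c) d
    have i3 := norm_add_le (a + b) c
    have i4 := norm_add_le a b
    linarith
  refine (hA _ _ _ _ _ _).trans ?_
  -- exponents
  set m : ℝ := x ^ (-(1 / 250) : ℝ) with hm
  set n : ℝ := x ^ (1 / 50 : ℝ) with hn
  have g1 : x ^ (1 / 1000 : ℝ) * x ^ (-(1 / 16) : ℝ) ≤ m := by
    rw [← Real.rpow_add hx0]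
    exact Real.rpow_le_rpow_of_exponent_le hx (by norm_num)
  have g2 : x ^ (1 / 1000 : ℝ) * x ^ (-(1 / 200) : ℝ) ≤ m := by
    rw [← Real.rpow_add hx0]
    exact Real.rpow_le_rpow_of_exponent_le hx (by norm_num)
  have g3 : x ^ (1 / 1000 : ℝ) * x ^ (1 / 100 : ℝ) ≤ n := by
    rw [← Real.rpow_add hx0]
    exact Real.rpow_le_rpow_of_exponent_le hx (by norm_num)
  have g4 : x ^ (1 / 1000 : ℝ) ≤ n := Real.rpow_le_rpow_of_exponent_le hx (by norm_num)
  have f1 : k * (C1 * B * (x ^ (-(1 / 16) : ℝ) + x ^ (1 / 100 : ℝ) * e)) ≤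
      3 * C1 * B * (m + n * e) := by
    calc k * (C1 * B * (x ^ (-(1 / 16) : ℝ) + x ^ (1 / 100 : ℝ) * e)) =
        3 * C1 * B * (x ^ (1 / 1000 : ℝ) * x ^ (-(1 / 16) : ℝ) +
          (x ^ (1 / 1000 : ℝ) * x ^ (1 / 100 : ℝ)) * e) := by rw [hk]; ring
      _ ≤ 3 * C1 * B * (m + n * e) := by gcongr
  have f2 : k * (C2 * B * (x ^ (-(1 / 200) : ℝ) + x ^ (1 / 100 : ℝ) * e)) ≤
      3 * C2 * B * (m + n * e) := by
    calc k * (C2 * B * (x ^ (-(1 / 200) : ℝ) + x ^ (1 / 100 : ℝ) * e)) =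
        3 * C2 * B * (x ^ (1 / 1000 : ℝ) * x ^ (-(1 / 200) : ℝ) +
          (x ^ (1 / 1000 : ℝ) * x ^ (1 / 100 : ℝ)) * e) := by rw [hk]; ring
      _ ≤ 3 * C2 * B * (m + n * e) := by gcongr
  have hm0 : 0 < m := by positivity
  have f3 : k * (C3 * B * e) ≤ 3 * C3 * B * (m + n * e) := by
    calc k * (C3 * B * e) = 3 * C3 * B * (x ^ (1 / 1000 : ℝ) * e) := by rw [hk]; ring
      _ ≤ 3 * C3 * B * (n * e) := by gcongr
      _ ≤ 3 * C3 * B * (m + n * e) := by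
          refine mul_le_mul_of_nonneg_left ?_ (by positivity)
          linarith
  have e1 : k * (C1 * B * (x ^ (-(1 / 16) : ℝ) + x ^ (1 / 100 : ℝ) * e) +
      4 * (C2 * B * (x ^ (-(1 / 200) : ℝ) + x ^ (1 / 100 : ℝ) * e))) ≤
      3 * C1 * B * (m + n * e) + 4 * (3 * C2 * B * (m + n * e)) := by
    rw [mul_add]
    linarith
  have e2 : 3 * (2 * C1 + 8 * C2 + 4 * C3) * B * (m + n * e) =
      2 * (3 * C1 * B * (m + n * e) + 4 * (3 * C2 * B * (m + n * e))) +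
        4 * (3 * C3 * B * (m + n * e)) := by ring
  rw [e2]
  linarith

end Pool.Agent.P07318f
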