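import Pool.Agent.Lib.P07318f.Defs
import Pool.Agent.Lib.P07318s.WMellin

/-!
# The smooth cut-off `ph`

Explicit formula: `ph s L = (2√π)⁻¹ ∫_L^∞ exp(-u²/4) du - (s²)⁻¹ (√π)⁻¹ L exp(-L²/4)`.
-/

set_option autoImplicit false

namespace Pool.Agent.P07318f

open MeasureTheory Complex Pool.Agent.P07318s

namespace PhiFnAux

open WMellinAux

lemma poly_exp (t : ℝ) (ht : 0 ≤ t) : (1 + t) ^ 4 * Real.exp (-(t / 2)) ≤ 384 * Real.exp (1 / 2) := by
  have h1 := Real.pow_div_factorial_le_exp (x := (1 + t) / 2) (by positivity) 4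
  have h2 : Real.exp ((1 + t) / 2) = Real.exp (1 / 2) * Real.exp (t / 2) := by
    rw [← Real.exp_add]; congr 1; ring
  have h3 : ((Nat.factorial 4 : ℕ) : ℝ) = 24 := by norm_num [Nat.factorial]
  rw [h2, h3, div_le_iff₀ (by norm_num)] at h1
  have h4 : (1 + t) ^ 4 ≤ 384 * Real.exp (1 / 2) * Real.exp (t / 2) := by
    have : ((1 + t) / 2) ^ 4 = (1 + t) ^ 4 / 16 := by ring
    rw [this] at h1
    linarith
  calc (1 + t) ^ 4 * Real.exp (-(t / 2)) ≤
      384 * Real.exp (1 / 2) * Real.exp (t / 2) * Real.exp (-(t / 2)) :=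
        mul_le_mul_of_nonneg_right h4 (Real.exp_pos _).le
    _ = 384 * Real.exp (1 / 2) := by
        rw [mul_assoc, ← Real.exp_add]
        simp

lemma norm_sq_z (a v : ℝ) : ‖(a : ℂ) + v * I‖ ^ 2 = a ^ 2 + v ^ 2 := by
  rw [← Complex.normSq_eq_norm_sq, Complex.normSq_add_mul_I]

lemma core_bound (r c : ℝ) (hr : 0 < r) : ∃ C : ℝ, 0 < C ∧ ∀ a v : ℝ, a ^ 2 ≤ c ^ 2 →
    Real.exp (a ^ 2 - v ^ 2) * (1 + ‖(a : ℂ) + v * I‖ ^ 2 / r ^ 2) ^ 4 ≤ C * Real.exp (-(v ^ 2 / 2)) := by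
  set D : ℝ := 1 + (c ^ 2 + 1) / r ^ 2 with hD
  have hD0 : 0 < D := by positivity
  refine ⟨Real.exp (c ^ 2) * D ^ 4 * (384 * Real.exp (1 / 2)), by positivity, fun a v ha => ?_⟩
  have h1 : 1 + ‖(a : ℂ) + v * I‖ ^ 2 / r ^ 2 ≤ D * (1 + v ^ 2) := by
    rw [norm_sq_z, hD]
    have h2 : (a ^ 2 + v ^ 2) / r ^ 2 ≤ (c ^ 2 + 1) * (1 + v ^ 2) / r ^ 2 := by
      apply div_le_div_of_nonneg_right _ (by positivity)
      nlinarith [sq_nonneg c, sq_nonneg v, mul_nonneg (sq_nonneg c) (sq_nonneg v)]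
    have h3 : (1 + (c ^ 2 + 1) / r ^ 2) * (1 + v ^ 2) =
        1 + v ^ 2 + (c ^ 2 + 1) * (1 + v ^ 2) / r ^ 2 := by ring
    rw [h3]
    have := sq_nonneg v
    linarith
  have h2 : (1 + ‖(a : ℂ) + v * I‖ ^ 2 / r ^ 2) ^ 4 ≤ (D * (1 + v ^ 2)) ^ 4 :=
    pow_le_pow_left₀ (by positivity) h1 4
  have h3 : Real.exp (a ^ 2 - v ^ 2) ≤ Real.exp (c ^ 2) * Real.exp (-(v ^ 2 / 2)) *
      Real.exp (-(v ^ 2 / 2)) := by
    rw [← Real.exp_add, ← Real.exp_add]
    apply Real.exp_le_exp.2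
    linarith
  have h4 := poly_exp (v ^ 2) (sq_nonneg v)
  calc Real.exp (a ^ 2 - v ^ 2) * (1 + ‖(a : ℂ) + v * I‖ ^ 2 / r ^ 2) ^ 4
      ≤ (Real.exp (c ^ 2) * Real.exp (-(v ^ 2 / 2)) * Real.exp (-(v ^ 2 / 2))) *
        (D * (1 + v ^ 2)) ^ 4 := mul_le_mul h3 h2 (by positivity) (by positivity)
    _ = Real.exp (c ^ 2) * D ^ 4 * Real.exp (-(v ^ 2 / 2)) *
        ((1 + v ^ 2) ^ 4 * Real.exp (-(v ^ 2 / 2))) := by ring
    _ ≤ Real.exp (c ^ 2) * D ^ 4 * Real.exp (-(v ^ 2 / 2)) * (384 * Real.exp (1 / 2)) :=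
        mul_le_mul_of_nonneg_left h4 (by positivity)
    _ = _ := by ring

lemma fac {s z : ℂ} {r k : ℝ} (hs : ‖s‖ = r) (hr : 0 < r) (hk0 : 0 ≤ k) (hk : k ≤ 1) :
    ‖1 - (k : ℂ) * z ^ 2 / s ^ 2‖ ≤ 1 + ‖z‖ ^ 2 / r ^ 2 := by
  refine (norm_sub_le _ _).trans ?_
  rw [norm_one, norm_div, norm_mul, norm_pow, norm_pow, hs, Complex.norm_real, Real.norm_eq_abs,
    abs_of_nonneg hk0]
  have : k * ‖z‖ ^ 2 / r ^ 2 ≤ 1 * ‖z‖ ^ 2 / r ^ 2 := by gcongr
  rw [one_mul] at this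
  linarith

end PhiFnAux

open PhiFnAux WMellinAux

theorem Gz_bound (r c : ℝ) (hr : 0 < r) : ∃ C : ℝ, 0 < C ∧ ∀ s : ℂ, ‖s‖ = r → ∀ v : ℝ,
    ‖Gz s (c + v * I)‖ ≤ C * Real.exp (-(v ^ 2 / 2)) := by
  obtain ⟨C, hC, h⟩ := core_bound r c hr
  refine ⟨4 * C, by positivity, fun s hs v => ?_⟩
  unfold Gz
  rw [norm_mul, norm_exp_sq]
  have h1 := h c v le_rfl
  set X : ℝ := ‖(c : ℂ) + v * I‖ ^ 2 / r ^ 2 with hX
  have hX0 : 0 ≤ X := by positivity
  have h2 : ‖1 - 4 * ((c : ℂ) + v * I) ^ 2 / s ^ 2‖ ≤ 1 + 4 * X := by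
    refine (norm_sub_le _ _).trans ?_
    rw [norm_one, norm_div, norm_mul, norm_pow, norm_pow, hs]
    have : ‖(4 : ℂ)‖ = 4 := by simp
    rw [this, hX]
    apply le_of_eq
    ring
  have h3 : 1 + 4 * X ≤ 4 * (1 + X) ^ 4 := by
    have h4 : (1:ℝ) ≤ 1 + X := by linarith
    have h5 : 1 + X ≤ (1 + X) ^ 4 := le_self_pow₀ h4 (by norm_num)
    linarith
  calc Real.exp (c ^ 2 - v ^ 2) * ‖1 - 4 * ((c : ℂ) + v * I) ^ 2 / s ^ 2‖
      ≤ Real.exp (c ^ 2 - v ^ 2) * (4 * (1 + X) ^ 4) :=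
        mul_le_mul_of_nonneg_left (h2.trans h3) (Real.exp_pos _).le
    _ = 4 * (Real.exp (c ^ 2 - v ^ 2) * (1 + X) ^ 4) := by ring
    _ ≤ 4 * (C * Real.exp (-(v ^ 2 / 2))) := by linarith
    _ = _ := by ring

theorem Gw_bound (r c : ℝ) (hr : 0 < r) : ∃ C : ℝ, 0 < C ∧ ∀ s : ℂ, ‖s‖ = r → ∀ a v : ℝ, |a| ≤ c →
    ‖Gw s (a + v * I)‖ ≤ C * Real.exp (-(v ^ 2 / 2)) := by
  obtain ⟨C, hC, h⟩ := core_bound r c hr
  refine ⟨C, hC, fun s hs a v ha => ?_⟩
  have hac : a ^ 2 ≤ c ^ 2 := by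
    rw [← sq_abs]
    exact pow_le_pow_left₀ (abs_nonneg _) ha 2
  refine le_trans ?_ (h a v hac)
  unfold Gw
  rw [norm_mul, norm_exp_sq, norm_mul, norm_mul, norm_pow]
  set w : ℂ := (a : ℂ) + v * I
  set Y : ℝ := 1 + ‖w‖ ^ 2 / r ^ 2
  have hY : 0 ≤ Y := by positivity
  have hs0 : s ≠ 0 := by
    intro h0
    rw [h0, norm_zero] at hs
    linarith
  have h1 : ‖1 - w ^ 2 / s ^ 2‖ ≤ Y := by
    have := fac (z := w) hs hr (k := 1) (by norm_num) le_rfl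
    simpa using this
  have h2 : ‖1 - 4 * w ^ 2 / (9 * s ^ 2)‖ ≤ Y := by
    have := fac (z := w) hs hr (k := 4 / 9) (by norm_num) (by norm_num)
    have e : 1 - 4 * w ^ 2 / (9 * s ^ 2) = 1 - ((4 / 9 : ℝ) : ℂ) * w ^ 2 / s ^ 2 := by
      push_cast
      field_simp
    rw [e]
    exact this
  have h3 : ‖1 - w ^ 2 / (4 * s ^ 2)‖ ≤ Y := by
    have := fac (z := w) hs hr (k := 1 / 4) (by norm_num) (by norm_num)
    have e : 1 - w ^ 2 / (4 * s ^ 2) = 1 - ((1 / 4 : ℝ) : ℂ) * w ^ 2 / s ^ 2 := by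
      push_cast
      field_simp
    rw [e]
    exact this
  have h4 : ‖1 - w ^ 2 / s ^ 2‖ * ‖1 - 4 * w ^ 2 / (9 * s ^ 2)‖ ^ 2 * ‖1 - w ^ 2 / (4 * s ^ 2)‖ ≤ Y ^ 4 := by
    calc ‖1 - w ^ 2 / s ^ 2‖ * ‖1 - 4 * w ^ 2 / (9 * s ^ 2)‖ ^ 2 * ‖1 - w ^ 2 / (4 * s ^ 2)‖
        ≤ Y * Y ^ 2 * Y := by gcongr
      _ = Y ^ 4 := by ring
  exact mul_le_mul_of_nonneg_left h4 (Real.exp_pos _).le

namespace PhiFnAux

/-- `erfc (L/2)` -/
noncomputable def Hf (L : ℝ) : ℝ := (Real.sqrt Real.pi)⁻¹ * ∫ u in Set.Ioi L, Real.exp (-u ^ 2 / 4)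

/-- the Gaussian -/
noncomputable def e0 (L : ℝ) : ℝ := Real.exp (-L ^ 2 / 4)

/-- explicit form of `ph` -/
noncomputable def phx (s : ℂ) (L : ℝ) : ℂ :=
  ((Hf L / 2 : ℝ) : ℂ) - (s ^ 2)⁻¹ * (((Real.sqrt Real.pi)⁻¹ * L * e0 L : ℝ) : ℂ)

lemma cont_z (c : ℝ) : Continuous fun v : ℝ => (c : ℂ) + v * I :=
  continuous_const.add (Complex.continuous_ofReal.mul continuous_const)

lemma integrable_of_le {f : ℝ → ℂ} (hf : Continuous f) {C : ℝ}
    (h : ∀ v, ‖f v‖ ≤ C * Real.exp (-(v ^ 2 / 2))) : Integrable f := by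
  have h1 : Integrable (fun x : ℝ => Real.exp (-(1 / 2) * x ^ 2)) :=
    integrable_exp_neg_mul_sq (by norm_num)
  refine ((h1.const_mul C).congr (Filter.Eventually.of_forall fun x => ?_)).mono'
    hf.aestronglyMeasurable (Filter.Eventually.of_forall h)
  simp only
  congr 2
  ring

lemma norm_e (c L v : ℝ) : ‖cexp (((c : ℂ) + v * I) ^ 2 - ((c : ℂ) + v * I) * L)‖ =
    Real.exp (c ^ 2 - v ^ 2) * Real.exp (-(c * L)) := by
  rw [Complex.exp_sub, norm_div, norm_exp_sq, Complex.norm_exp, Complex.re_mul_ofReal, re_s,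
    Real.exp_neg, div_eq_mul_inv]

lemma int_lin (c L α β : ℝ) :
    Integrable fun v : ℝ => ((α : ℂ) * ((c : ℂ) + v * I) + (β : ℂ)) *
      cexp (((c : ℂ) + v * I) ^ 2 - ((c : ℂ) + v * I) * L) := by
  obtain ⟨C, hC, h⟩ := core_bound 1 c one_pos
  refine integrable_of_le (C := (|α| + |β|) * Real.exp (-(c * L)) * C) ?_ fun v => ?_
  · have := cont_z c
    fun_prop
  · rw [norm_mul, norm_e]
    have h1 := h c v le_rfl
    rw [one_pow, div_one] at h1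
    set n : ℝ := ‖(c : ℂ) + v * I‖ with hn
    have hn0 : 0 ≤ n := norm_nonneg _
    have h2 : ‖(α : ℂ) * ((c : ℂ) + v * I) + (β : ℂ)‖ ≤ (|α| + |β|) * (1 + n ^ 2) ^ 4 := by
      refine (norm_add_le _ _).trans ?_
      rw [norm_mul, Complex.norm_real, Complex.norm_real, Real.norm_eq_abs, Real.norm_eq_abs, ← hn]
      have e1 : (1:ℝ) ≤ 1 + n ^ 2 := by nlinarith
      have e2 : 1 + n ^ 2 ≤ (1 + n ^ 2) ^ 4 := le_self_pow₀ e1 (by norm_num)
      have e3 : n ≤ (1 + n ^ 2) ^ 4 := by nlinarith [sq_nonneg (n - 1)]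
      have e4 : (1:ℝ) ≤ (1 + n ^ 2) ^ 4 := e1.trans e2
      have := abs_nonneg α
      have := abs_nonneg β
      nlinarith
    calc ‖(α : ℂ) * ((c : ℂ) + v * I) + (β : ℂ)‖ * (Real.exp (c ^ 2 - v ^ 2) * Real.exp (-(c * L)))
        ≤ ((|α| + |β|) * (1 + n ^ 2) ^ 4) * (Real.exp (c ^ 2 - v ^ 2) * Real.exp (-(c * L))) := by
          gcongr
      _ = (|α| + |β|) * Real.exp (-(c * L)) * (Real.exp (c ^ 2 - v ^ 2) * (1 + n ^ 2) ^ 4) := by ring
      _ ≤ (|α| + |β|) * Real.exp (-(c * L)) * (C * Real.exp (-(v ^ 2 / 2))) := by gcongr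
      _ = _ := by ring

lemma int_second (c L : ℝ) :
    ∫ v : ℝ, ((c : ℂ) + v * I) * cexp (((c : ℂ) + v * I) ^ 2 - ((c : ℂ) + v * I) * L) =
      ((L / 2 * (Real.sqrt Real.pi * e0 L) : ℝ) : ℂ) := by
  have hder : ∀ v : ℝ, HasDerivAt
      (fun v : ℝ => cexp (((c : ℂ) + v * I) ^ 2 - ((c : ℂ) + v * I) * L))
      (I * ((((2:ℝ) : ℂ) * ((c : ℂ) + v * I) + ((-L : ℝ) : ℂ)) *
        cexp (((c : ℂ) + v * I) ^ 2 - ((c : ℂ) + v * I) * L))) v := by
    intro v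
    have h1 : HasDerivAt (fun v : ℝ => (c : ℂ) + v * I) I v := by
      have := ((Complex.ofRealCLM.hasDerivAt (x := v)).mul_const I).const_add (c : ℂ)
      simpa using this
    refine HasDerivAt.congr_deriv (f' := cexp (((c : ℂ) + v * I) ^ 2 - ((c : ℂ) + v * I) * L) *
      (((2 : ℕ) : ℂ) * ((c : ℂ) + v * I) ^ (2 - 1) * I - I * L))
      (((h1.pow 2).sub (h1.mul_const (L : ℂ))).cexp) ?_
    push_cast
    ring
  have h3 := integral_eq_zero_of_hasDerivAt_of_integrable hder ((int_lin c L 2 (-L)).const_mul I) (by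
    have := int_lin c L 0 1
    simpa using this)
  rw [integral_const_mul] at h3
  have h4 : ∫ v : ℝ, (((2:ℝ) : ℂ) * ((c : ℂ) + v * I) + ((-L : ℝ) : ℂ)) *
        cexp (((c : ℂ) + v * I) ^ 2 - ((c : ℂ) + v * I) * L) = 0 := by
    rcases mul_eq_zero.1 h3 with h | h
    · exact absurd h Complex.I_ne_zero
    · exact h
  have i1 : Integrable fun v : ℝ => ((c : ℂ) + v * I) *
      cexp (((c : ℂ) + v * I) ^ 2 - ((c : ℂ) + v * I) * L) := by
    have := int_lin c L 1 0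
    simpa using this
  have i2 : Integrable fun v : ℝ => cexp (((c : ℂ) + v * I) ^ 2 - ((c : ℂ) + v * I) * L) := by
    have := int_lin c L 0 1
    simpa using this
  have h5 : (fun v : ℝ => (((2:ℝ) : ℂ) * ((c : ℂ) + v * I) + ((-L : ℝ) : ℂ)) *
        cexp (((c : ℂ) + v * I) ^ 2 - ((c : ℂ) + v * I) * L)) = fun v : ℝ =>
      2 * (((c : ℂ) + v * I) * cexp (((c : ℂ) + v * I) ^ 2 - ((c : ℂ) + v * I) * L)) -
        (L : ℂ) * cexp (((c : ℂ) + v * I) ^ 2 - ((c : ℂ) + v * I) * L) := by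
    funext v
    push_cast
    ring
  rw [h5, integral_sub (i1.const_mul 2) (i2.const_mul (L : ℂ)), integral_const_mul,
    integral_const_mul, gauss_vert] at h4
  unfold e0
  push_cast at h4 ⊢
  linear_combination (1 / 2 : ℂ) * h4

lemma main {s : ℂ} (hs : s ≠ 0) {c : ℝ} (hc : 0 < c) (L : ℝ) :
    Integrable (fun v : ℝ => Gz s (c + v * I) / (c + v * I) * cexp (-((c + v * I) * L))) ∧
    (2 * Real.pi : ℂ)⁻¹ * ∫ v : ℝ, Gz s (c + v * I) / (c + v * I) * cexp (-((c + v * I) * L)) =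
      phx s L := by
  have hy : 0 < Real.exp L := Real.exp_pos L
  have h1 := W_integrand_integrable hc hy
  have h2 := W_eq hc hy
  have hpw : ∀ z : ℂ, ((Real.exp L : ℝ) : ℂ) ^ (-z) = cexp (-(z * L)) := by
    intro z
    rw [cpow_eq hy, Real.log_exp]
  simp only [hpw] at h1 h2
  have i1 : Integrable fun v : ℝ => ((c : ℂ) + v * I) *
      cexp (((c : ℂ) + v * I) ^ 2 - ((c : ℂ) + v * I) * L) := by
    have := int_lin c L 1 0
    simpa using this
  have h3 : (fun v : ℝ => Gz s (c + v * I) / (c + v * I) * cexp (-((c + v * I) * L))) = fun v : ℝ =>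
      cexp (((c : ℂ) + v * I) ^ 2) * cexp (-(((c : ℂ) + v * I) * L)) / ((c : ℂ) + v * I) -
        4 * (s ^ 2)⁻¹ * (((c : ℂ) + v * I) * cexp (((c : ℂ) + v * I) ^ 2 - ((c : ℂ) + v * I) * L)) := by
    funext v
    have hz := s_ne_zero hc v
    have hexp : cexp (((c : ℂ) + v * I) ^ 2 - ((c : ℂ) + v * I) * L) =
        cexp (((c : ℂ) + v * I) ^ 2) * cexp (-(((c : ℂ) + v * I) * L)) := by
      rw [← Complex.exp_add]; congr 1
    unfold Gz
    rw [hexp]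
    set z : ℂ := (c : ℂ) + v * I
    field_simp
  rw [h3]
  refine ⟨h1.sub (i1.const_mul _), ?_⟩
  rw [integral_sub h1 (i1.const_mul _), integral_const_mul, int_second]
  have hpi : (Real.pi : ℂ) ≠ 0 := by exact_mod_cast Real.pi_ne_zero
  have h4 : ∫ v : ℝ, cexp (((c : ℂ) + v * I) ^ 2) * cexp (-(((c : ℂ) + v * I) * L)) /
      ((c : ℂ) + v * I) = Real.pi * (Hf L : ℂ) := by
    have hW : W (Real.exp L) = Hf L := by
      unfold W Hf
      rw [Real.log_exp]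
    rw [hW] at h2
    rw [h2, ← mul_assoc, mul_inv_cancel₀ hpi, one_mul]
  rw [h4]
  unfold phx
  have hsp : ((Real.sqrt Real.pi : ℝ) : ℂ) ≠ 0 := by
    exact_mod_cast sqrt_pi_pos.ne'
  have hsq : ((Real.sqrt Real.pi : ℝ) : ℂ) * ((Real.sqrt Real.pi : ℝ) : ℂ) = Real.pi := by
    exact_mod_cast Real.mul_self_sqrt Real.pi_pos.le
  push_cast
  rw [← hsq]
  field_simp
  ring

end PhiFnAux

theorem ph_mellin {s : ℂ} (hs : s ≠ 0) {c : ℝ} (hc : 0 < c) (L : ℝ) :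
    Integrable (fun v : ℝ => Gz s (c + v * I) / (c + v * I) * cexp (-((c + v * I) * L))) ∧
    ph s L = (2 * Real.pi : ℂ)⁻¹ * ∫ v : ℝ, Gz s (c + v * I) / (c + v * I) * cexp (-((c + v * I) * L)) := by
  obtain ⟨h1, h2⟩ := main hs hc L
  obtain ⟨_, h3⟩ := main hs one_pos L
  refine ⟨h1, ?_⟩
  rw [h2, ← h3]
  unfold ph
  simp only [Complex.ofReal_one]

lemma PhiFnAux.ph_eq {s : ℂ} (hs : s ≠ 0) (L : ℝ) : ph s L = phx s L := by
  obtain ⟨_, h3⟩ := main hs one_pos L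
  rw [← h3]
  unfold ph
  simp only [Complex.ofReal_one]

theorem ph_add {s : ℂ} (hs : s ≠ 0) (L : ℝ) : ph s L + ph s (-L) = 1 := by
  rw [ph_eq hs, ph_eq hs]
  have h1 : Hf L + Hf (-L) = 2 := by
    unfold Hf
    have h2 : ∫ u in Set.Ioi (-L), Real.exp (-u ^ 2 / 4) = ∫ u in Set.Iic L, Real.exp (-u ^ 2 / 4) := by
      have := integral_comp_neg_Ioi (-L) (fun u : ℝ => Real.exp (-u ^ 2 / 4))
      simpa using this
    have h3 := intervalIntegral.integral_Iic_add_Ioi (b := L) (f := fun u : ℝ => Real.exp (-u ^ 2 / 4))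
      (μ := volume) integrable_g0.integrableOn integrable_g0.integrableOn
    rw [integral_g0] at h3
    rw [h2, ← mul_add, add_comm, h3]
    have := sqrt_pi_pos
    field_simp
  have h4 : e0 (-L) = e0 L := by
    unfold e0
    rw [neg_sq]
  unfold phx
  rw [h4]
  have h5 : ((Hf L : ℝ) : ℂ) + ((Hf (-L) : ℝ) : ℂ) = 2 := by exact_mod_cast h1
  push_cast
  linear_combination (1 / 2 : ℂ) * h5

namespace PhiFnAux

/-- first derivative -/
noncomputable def ph1 (s : ℂ) (L : ℝ) : ℂ :=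
  ((-((2 * Real.sqrt Real.pi)⁻¹ * e0 L) : ℝ) : ℂ) -
    (s ^ 2)⁻¹ * (((Real.sqrt Real.pi)⁻¹ * ((1 - L ^ 2 / 2) * e0 L) : ℝ) : ℂ)

/-- second derivative -/
noncomputable def ph2 (s : ℂ) (L : ℝ) : ℂ :=
  (((2 * Real.sqrt Real.pi)⁻¹ * (L / 2 * e0 L) : ℝ) : ℂ) -
    (s ^ 2)⁻¹ * (((Real.sqrt Real.pi)⁻¹ * ((L ^ 3 / 4 - 3 * L / 2) * e0 L) : ℝ) : ℂ)

lemma e0_deriv (L : ℝ) : HasDerivAt e0 (-(L / 2) * e0 L) L := by
  have h1 : HasDerivAt (fun x : ℝ => -x ^ 2 / 4) (-(L / 2)) L := by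
    have := ((hasDerivAt_pow 2 L).neg).div_const 4
    refine HasDerivAt.congr_deriv this ?_
    norm_num
    ring
  have h2 := h1.exp
  refine HasDerivAt.congr_deriv h2 ?_
  unfold e0
  ring

lemma Hf_deriv (L : ℝ) : HasDerivAt Hf (-((Real.sqrt Real.pi)⁻¹ * e0 L)) L := by
  have h1 : ∀ x : ℝ, ∫ u in Set.Ioi x, Real.exp (-u ^ 2 / 4) =
      (∫ u in Set.Ioi (0:ℝ), Real.exp (-u ^ 2 / 4)) -
        ∫ u in (0:ℝ)..x, Real.exp (-u ^ 2 / 4) := by
    intro x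
    have h := intervalIntegral.integral_Ioi_sub_Ioi' (a := 0) (b := x)
      (f := fun u : ℝ => Real.exp (-u ^ 2 / 4)) (μ := volume)
      integrable_g0.integrableOn integrable_g0.integrableOn
    linarith
  have h2 : Hf = fun x => (Real.sqrt Real.pi)⁻¹ *
      ((∫ u in Set.Ioi (0:ℝ), Real.exp (-u ^ 2 / 4)) - ∫ u in (0:ℝ)..x, Real.exp (-u ^ 2 / 4)) := by
    funext x
    unfold Hf
    rw [h1 x]
  have hc : Continuous fun u : ℝ => Real.exp (-u ^ 2 / 4) := by fun_prop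
  have h3 : HasDerivAt (fun x => ∫ u in (0:ℝ)..x, Real.exp (-u ^ 2 / 4)) (e0 L) L :=
    intervalIntegral.integral_hasDerivAt_right (hc.intervalIntegrable _ _)
      hc.stronglyMeasurable.stronglyMeasurableAtFilter hc.continuousAt
  rw [h2]
  refine HasDerivAt.congr_deriv ((h3.const_sub _).const_mul _) ?_
  ring

lemma phx_deriv (s : ℂ) (L : ℝ) : HasDerivAt (phx s) (ph1 s L) L := by
  have h1 : HasDerivAt (fun L : ℝ => Hf L / 2) (-((2 * Real.sqrt Real.pi)⁻¹ * e0 L)) L := by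
    refine HasDerivAt.congr_deriv ((Hf_deriv L).div_const 2) ?_
    rw [mul_inv]
    ring
  have h2 : HasDerivAt (fun L : ℝ => (Real.sqrt Real.pi)⁻¹ * L * e0 L)
      ((Real.sqrt Real.pi)⁻¹ * ((1 - L ^ 2 / 2) * e0 L)) L := by
    refine HasDerivAt.congr_deriv (((hasDerivAt_id L).const_mul ((Real.sqrt Real.pi)⁻¹)).mul
      (e0_deriv L)) ?_
    simp only [id]
    ring
  exact h1.ofReal_comp.sub (h2.ofReal_comp.const_mul _)

lemma ph1_deriv (s : ℂ) (L : ℝ) : HasDerivAt (ph1 s) (ph2 s L) L := by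
  have h1 : HasDerivAt (fun L : ℝ => -((2 * Real.sqrt Real.pi)⁻¹ * e0 L))
      ((2 * Real.sqrt Real.pi)⁻¹ * (L / 2 * e0 L)) L := by
    refine HasDerivAt.congr_deriv (((e0_deriv L).const_mul _).neg) ?_
    ring
  have h2 : HasDerivAt (fun L : ℝ => (Real.sqrt Real.pi)⁻¹ * ((1 - L ^ 2 / 2) * e0 L))
      ((Real.sqrt Real.pi)⁻¹ * ((L ^ 3 / 4 - 3 * L / 2) * e0 L)) L := by
    have h3 : HasDerivAt (fun L : ℝ => 1 - L ^ 2 / 2) (-L) L := by
      refine HasDerivAt.congr_deriv (((hasDerivAt_pow 2 L).div_const 2).const_sub 1) ?_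
      norm_num
    refine HasDerivAt.congr_deriv ((h3.mul (e0_deriv L)).const_mul _) ?_
    ring
  exact h1.ofReal_comp.sub (h2.ofReal_comp.const_mul _)

lemma ph1_contDiff (s : ℂ) : ContDiff ℝ 1 (ph1 s) := by
  have h0 : ContDiff ℝ 1 e0 := by
    unfold e0
    fun_prop
  have h1 : ContDiff ℝ 1 (fun L : ℝ => -((2 * Real.sqrt Real.pi)⁻¹ * e0 L)) := by fun_prop
  have h2 : ContDiff ℝ 1 (fun L : ℝ => (Real.sqrt Real.pi)⁻¹ * ((1 - L ^ 2 / 2) * e0 L)) := by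
    fun_prop
  exact (Complex.ofRealCLM.contDiff.comp h1).sub
    (contDiff_const.mul (Complex.ofRealCLM.contDiff.comp h2))

/-- the majorant -/
noncomputable def mm (L : ℝ) : ℝ := min 1 (Real.exp (-(10 * L)))

lemma mm_nonneg (L : ℝ) : 0 ≤ mm L := le_min zero_le_one (Real.exp_pos _).le

lemma gauss_poly (k : ℕ) (hk : k ≤ 3) (L : ℝ) : |L| ^ k * e0 L ≤ 6 * Real.exp 121 * mm L := by
  have h1 := Real.pow_div_factorial_le_exp (x := |L|) (abs_nonneg L) k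
  have hf : ((Nat.factorial k : ℕ) : ℝ) ≤ 6 := by
    have : Nat.factorial k ≤ Nat.factorial 3 := Nat.factorial_le hk
    have h6 : Nat.factorial 3 = 6 := rfl
    rw [h6] at this
    exact_mod_cast this
  have hf0 : (0:ℝ) < ((Nat.factorial k : ℕ) : ℝ) := by exact_mod_cast Nat.factorial_pos k
  have h2 : |L| ^ k ≤ 6 * Real.exp |L| := by
    rw [div_le_iff₀ hf0] at h1
    calc |L| ^ k ≤ Real.exp |L| * ((Nat.factorial k : ℕ) : ℝ) := h1
      _ ≤ Real.exp |L| * 6 := mul_le_mul_of_nonneg_left hf (Real.exp_pos _).le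
      _ = _ := by ring
  have h3 : e0 L ≤ Real.exp (121 - 11 * |L|) := by
    unfold e0
    apply Real.exp_le_exp.2
    nlinarith [sq_nonneg (|L| / 2 - 11), sq_abs L]
  have h4 : Real.exp (-(10 * |L|)) ≤ mm L := by
    unfold mm
    apply le_min
    · rw [Real.exp_le_one_iff]
      have := abs_nonneg L
      linarith
    · apply Real.exp_le_exp.2
      have := le_abs_self L
      linarith
  calc |L| ^ k * e0 L ≤ (6 * Real.exp |L|) * Real.exp (121 - 11 * |L|) :=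
        mul_le_mul h2 h3 (Real.exp_pos _).le (by positivity)
    _ = 6 * Real.exp 121 * Real.exp (-(10 * |L|)) := by
        rw [mul_assoc, mul_assoc, ← Real.exp_add, ← Real.exp_add]
        congr 2
        ring
    _ ≤ 6 * Real.exp 121 * mm L := mul_le_mul_of_nonneg_left h4 (by positivity)

lemma Hf_bound : ∃ C : ℝ, 0 < C ∧ ∀ L, 0 ≤ Hf L ∧ Hf L ≤ C * mm L := by
  obtain ⟨C1, hC1, h1⟩ := W_le_rpow 10 (by norm_num)
  refine ⟨2 + C1, by linarith, fun L => ?_⟩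
  have hW : Hf L = W (Real.exp L) := by
    unfold W Hf
    rw [Real.log_exp]
  rw [hW]
  refine ⟨W_nonneg _, ?_⟩
  have h2 := W_le_two (Real.exp L)
  have h3 := h1 (Real.exp L) (Real.exp_pos L)
  have h4 : Real.exp L ^ (-10 : ℝ) = Real.exp (-(10 * L)) := by
    rw [← Real.exp_mul]
    congr 1
    ring
  rw [h4] at h3
  unfold mm
  rcases min_choice 1 (Real.exp (-(10 * L))) with e | e
  · rw [e]; linarith
  · rw [e]
    have := Real.exp_pos (-(10 * L))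
    nlinarith

lemma inv_sqrt_pi : (Real.sqrt Real.pi)⁻¹ ≤ 1 := by
  apply inv_le_one_of_one_le₀
  rw [Real.one_le_sqrt]
  have := Real.pi_gt_three
  linarith

end PhiFnAux

theorem ph_bound (r : ℝ) (hr : 0 < r) : ∃ C : ℝ, 1 ≤ C ∧ ∀ s : ℂ, ‖s‖ = r → PhiB (fun L => ph s L / C) := by
  obtain ⟨C0, hC0, hH⟩ := Hf_bound
  set K : ℝ := 6 * Real.exp 121 with hK
  have hK0 : 0 < K := by positivity
  set R : ℝ := (r ^ 2)⁻¹ with hR
  have hR0 : 0 < R := by positivity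
  set C : ℝ := 1 + C0 + K + 2 * (R * K) with hC
  have hCpos : 1 ≤ C := by
    have : 0 < R * K := by positivity
    rw [hC]; linarith
  have hC0' : 0 < C := by linarith
  refine ⟨C, hCpos, fun s hs => ?_⟩
  have hs0 : s ≠ 0 := by
    intro h0
    rw [h0, norm_zero] at hs
    linarith
  have hRn : ‖(s ^ 2)⁻¹‖ = R := by rw [norm_inv, norm_pow, hs]
  have hi0 : 0 ≤ (Real.sqrt Real.pi)⁻¹ := by positivity
  have hi1 := inv_sqrt_pi
  have he0 : ∀ L, 0 ≤ e0 L := fun L => (Real.exp_pos _).le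
  have hfun : (fun L => ph s L / (C : ℂ)) = fun L => phx s L / (C : ℂ) := by
    funext L
    rw [ph_eq hs0]
  have hd1 : ∀ L, HasDerivAt (fun L => phx s L / (C : ℂ)) (ph1 s L / (C : ℂ)) L :=
    fun L => (phx_deriv s L).div_const _
  have hd2 : ∀ L, HasDerivAt (fun L => ph1 s L / (C : ℂ)) (ph2 s L / (C : ℂ)) L :=
    fun L => (ph1_deriv s L).div_const _
  have e1 : deriv (fun L => phx s L / (C : ℂ)) = fun L => ph1 s L / (C : ℂ) := by
    funext L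
    exact (hd1 L).deriv
  have e2 : deriv (fun L => ph1 s L / (C : ℂ)) = fun L => ph2 s L / (C : ℂ) := by
    funext L
    exact (hd2 L).deriv
  have g0 : ∀ L, e0 L ≤ K * mm L := fun L => by simpa using gauss_poly 0 (by norm_num) L
  have g1 : ∀ L, |L| * e0 L ≤ K * mm L := fun L => by simpa using gauss_poly 1 (by norm_num) L
  have g2 : ∀ L, L ^ 2 * e0 L ≤ K * mm L := fun L => by
    have := gauss_poly 2 (by norm_num) L
    rwa [sq_abs] at this
  have g3 : ∀ L, |L| ^ 3 * e0 L ≤ K * mm L := fun L => gauss_poly 3 le_rfl L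
  have fin : ∀ (x : ℂ) (L : ℝ), ‖x‖ ≤ C * mm L → ‖x / (C : ℂ)‖ ≤ mm L := by
    intro x L hx
    rw [norm_div, Complex.norm_real, Real.norm_eq_abs, abs_of_pos hC0', div_le_iff₀ hC0']
    linarith
  rw [hfun]
  refine ⟨?_, fun L => ?_⟩
  · rw [show (2 : WithTop ℕ∞) = 1 + 1 by norm_num, contDiff_succ_iff_deriv]
    refine ⟨fun L => (hd1 L).differentiableAt, by simp, ?_⟩
    rw [e1]
    exact (ph1_contDiff s).div_const _
  · rw [e1, e2]
    have hm := mm_nonneg L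
    refine ⟨fin _ L ?_, fin _ L ?_, fin _ L ?_⟩
    · unfold phx
      refine (norm_sub_le _ _).trans ?_
      rw [norm_mul, hRn, Complex.norm_real, Complex.norm_real, Real.norm_eq_abs, Real.norm_eq_abs]
      have h1 : |Hf L / 2| ≤ C0 * mm L := by
        rw [abs_of_nonneg (by linarith [(hH L).1])]
        have := (hH L).2
        have := (hH L).1
        linarith
      have h2 : |(Real.sqrt Real.pi)⁻¹ * L * e0 L| ≤ K * mm L := by
        rw [abs_mul, abs_mul, abs_of_nonneg hi0, abs_of_nonneg (he0 L), mul_assoc]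
        have := g1 L
        have h3 : 0 ≤ |L| * e0 L := mul_nonneg (abs_nonneg _) (he0 L)
        nlinarith
      have h3 := mul_le_mul_of_nonneg_left h2 hR0.le
      have h4 : 0 ≤ R * K * mm L := by positivity
      have h5 : 0 ≤ K * mm L := by positivity
      rw [hC]
      nlinarith
    · unfold ph1
      refine (norm_sub_le _ _).trans ?_
      rw [norm_mul, hRn, Complex.norm_real, Complex.norm_real, Real.norm_eq_abs, Real.norm_eq_abs]
      have h1 : |-((2 * Real.sqrt Real.pi)⁻¹ * e0 L)| ≤ K * mm L := by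
        rw [abs_neg, abs_of_nonneg (mul_nonneg (by positivity) (he0 L)), mul_inv]
        have := g0 L
        have := he0 L
        have h6 : (2:ℝ)⁻¹ * (Real.sqrt Real.pi)⁻¹ ≤ 1 := by nlinarith
        nlinarith
      have h2 : |(Real.sqrt Real.pi)⁻¹ * ((1 - L ^ 2 / 2) * e0 L)| ≤ 2 * (K * mm L) := by
        rw [abs_mul, abs_of_nonneg hi0, abs_mul, abs_of_nonneg (he0 L)]
        have h6 : |1 - L ^ 2 / 2| ≤ 1 + L ^ 2 / 2 := by
          refine (abs_sub _ _).trans ?_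
          rw [abs_one, abs_of_nonneg (by positivity)]
        have h7 : |1 - L ^ 2 / 2| * e0 L ≤ (1 + L ^ 2 / 2) * e0 L :=
          mul_le_mul_of_nonneg_right h6 (he0 L)
        have h8 : 0 ≤ |1 - L ^ 2 / 2| * e0 L := mul_nonneg (abs_nonneg _) (he0 L)
        have := g0 L
        have := g2 L
        have h9 : 0 ≤ K * mm L := by positivity
        nlinarith
      have h3 := mul_le_mul_of_nonneg_left h2 hR0.le
      have h5 : 0 ≤ K * mm L := by positivity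
      rw [hC]
      nlinarith
    · unfold ph2
      refine (norm_sub_le _ _).trans ?_
      rw [norm_mul, hRn, Complex.norm_real, Complex.norm_real, Real.norm_eq_abs, Real.norm_eq_abs]
      have h1 : |(2 * Real.sqrt Real.pi)⁻¹ * (L / 2 * e0 L)| ≤ K * mm L := by
        rw [abs_mul, abs_mul, abs_of_nonneg (show (0:ℝ) ≤ (2 * Real.sqrt Real.pi)⁻¹ by positivity),
          abs_of_nonneg (he0 L), mul_inv, abs_div,
          abs_of_pos (show (0:ℝ) < 2 by norm_num)]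
        have h7 := g1 L
        have h8 : 0 ≤ |L| * e0 L := mul_nonneg (abs_nonneg _) (he0 L)
        have h6 : (2:ℝ)⁻¹ * (Real.sqrt Real.pi)⁻¹ ≤ 1 := by nlinarith
        have h9 : (2:ℝ)⁻¹ * (Real.sqrt Real.pi)⁻¹ * (|L| / 2 * e0 L) ≤ 1 * (|L| / 2 * e0 L) :=
          mul_le_mul_of_nonneg_right h6 (mul_nonneg (by positivity) (he0 L))
        linarith
      have h2 : |(Real.sqrt Real.pi)⁻¹ * ((L ^ 3 / 4 - 3 * L / 2) * e0 L)| ≤ 2 * (K * mm L) := by
        rw [abs_mul, abs_of_nonneg hi0, abs_mul, abs_of_nonneg (he0 L)]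
        have h6 : |L ^ 3 / 4 - 3 * L / 2| ≤ |L| ^ 3 / 4 + 3 * |L| / 2 := by
          refine (abs_sub _ _).trans (le_of_eq ?_)
          rw [abs_div, abs_div, abs_pow, abs_mul]
          norm_num
        have h7 : |L ^ 3 / 4 - 3 * L / 2| * e0 L ≤ (|L| ^ 3 / 4 + 3 * |L| / 2) * e0 L :=
          mul_le_mul_of_nonneg_right h6 (he0 L)
        have h8 : 0 ≤ |L ^ 3 / 4 - 3 * L / 2| * e0 L := mul_nonneg (abs_nonneg _) (he0 L)
        have := g1 L
        have := g3 L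
        have h9 : 0 ≤ K * mm L := by positivity
        nlinarith
      have h3 := mul_le_mul_of_nonneg_left h2 hR0.le
      have h5 : 0 ≤ K * mm L := by positivity
      rw [hC]
      nlinarith

end Pool.Agent.P07318f
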