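import Pool.Agent.Lib.P07318s.FourthM
import Pool.Agent.Lib.P07318s.Crude
import Pool.Agent.Lib.P07318s.OneVar

/-!
# The fourth moment to the right of the critical line

Let `σ ∈ [1/2+κ, 2]`, `z = σ + iy`, `y ≥ 1`. By Cauchy on the rectangle `1/2-σ ≤ Re u ≤ 1`, `|Im u| ≤ y/2` (`ζ(z+u)` has no pole there since
`Im(z+u) ≥ y/2 > 0`): `ζ(z)² = (1/2πi) ∮ ζ(z+u)² exp(u²) du/u`. Horizontal sides: `≤ C exp(-y²/4) (1+y)²` (`zeta_bound_im`). Right side `Re u = 1`:
`Re(z+u) ≥ 3/2`, bounded by `C`. Left side: `Re(z+u) = 1/2`, `|u| ≥ κ`: `≤ (C/κ) ∫ |ζ(1/2+i(y+v))|² exp(-v²) dv` over `|v| ≤ y/2`. Hence, by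
Cauchy-Schwarz, `|ζ(z)|⁴ ≤ C_κ (1 + ∫_{|v|≤y/2} |ζ(1/2+i(y+v))|⁴ exp(-v²) dv)`, and integrate over `y ∈ [T, T+T]`-type intervals (heights
`y + v ∈ [y/2, 3y/2]`): `zeta_fourth` (P07318s) on finitely many intervals `[b, b+T]`, `T ≤ b ≤ 3T` covering `[U/8, 20U]`.
Statement: for all real `a ≤ b` in `[U/4, 12U]`.
-/

set_option autoImplicit false

namespace Pool.Agent.P07318f

open MeasureTheory Complex

namespace ZMomAux

open Pool.Agent.P07318s Pool.Agent.P07318s.OneVarAux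

/-- the residue theorem for a simple pole in a rectangle -/
lemma ri_simple {G : ℂ → ℂ} {a c Y : ℝ} (ha : a < 0) (hc : 0 < c) (hY : 0 < Y)
    (hG : DifferentiableOn ℂ G (K a c Y)) :
    RI (fun s => G s * s⁻¹) a c Y = 2 * Real.pi * I * G 0 := by
  have hK : K a c Y ∈ nhds (0 : ℂ) := by
    have h1 : ∀ᶠ s : ℂ in nhds 0, a < s.re :=
      continuous_re.continuousAt.eventually (lt_mem_nhds (by simpa using ha))
    have h2 : ∀ᶠ s : ℂ in nhds 0, s.re < c :=
      continuous_re.continuousAt.eventually (gt_mem_nhds (by simpa using hc))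
    have h3 : ∀ᶠ s : ℂ in nhds 0, |s.im| < Y :=
      (continuous_abs.comp continuous_im).continuousAt.eventually
        (gt_mem_nhds (by simpa using hY))
    filter_upwards [h1, h2, h3] with s s1 s2 s3
    exact ⟨s1.le, s2.le, s3.le⟩
  have hd1 : DifferentiableOn ℂ (dslope G 0) (K a c Y) := (differentiableOn_dslope hK).mpr hG
  have hdec : ∀ s ∈ K a c Y, s ≠ 0 → G s * s⁻¹ = G 0 * s⁻¹ + dslope G 0 s := by
    intro s _ hs
    rw [dslope_of_ne _ hs, slope_def_field, sub_zero]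
    field_simp
    ring
  have c2 : Sides (fun s : ℂ => G 0 * s⁻¹) a c Y := sides ha hc hY (by
    intro s hs
    apply ContinuousAt.continuousWithinAt
    exact continuousAt_const.mul (continuousAt_inv₀ hs.2))
  have c3 : Sides (dslope G 0) a c Y := sides ha hc hY (hd1.continuousOn.mono Set.sdiff_subset)
  rw [RI_congr ha hc hY hdec, RI_add c2 c3, RI_mul,
    RI_inv ha hc hY, RI_zero (by linarith) hY.le hd1]
  ring

lemma gauss_pt (v : ℝ) : Real.exp (-v ^ 2) ≤ (1 + v ^ 2)⁻¹ := by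
  rw [Real.exp_neg]
  apply inv_anti₀ (by positivity)
  have := Real.add_one_le_exp (v ^ 2)
  linarith

lemma gauss_le (a b : ℝ) (hab : a ≤ b) : ∫ v in a..b, Real.exp (-v ^ 2) ≤ Real.pi := by
  have hc : Continuous fun v : ℝ => (1 + v ^ 2)⁻¹ := by
    apply Continuous.inv₀ (by fun_prop)
    intro v
    positivity
  have h1 : ∫ v in a..b, Real.exp (-v ^ 2) ≤ ∫ v in a..b, (1 + v ^ 2)⁻¹ := by
    apply intervalIntegral.integral_mono_on hab
    · exact Continuous.intervalIntegrable (by fun_prop) _ _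
    · exact hc.intervalIntegrable _ _
    · intro v _
      exact gauss_pt v
  rw [integral_inv_one_add_sq] at h1
  have h2 := Real.arctan_lt_pi_div_two b
  have h3 := Real.neg_pi_div_two_lt_arctan a
  linarith

lemma hor_num {y : ℝ} (hy : 2 ≤ y) :
    (1 + 3 * y / 2) ^ 4 * Real.exp (9 / 4 - y ^ 2 / 4) ≤ 1024 * Real.exp (9 / 4) := by
  have h1 : (1 + 3 * y / 2) ^ 4 ≤ (2 * y) ^ 4 := pow_le_pow_left₀ (by linarith) (by linarith) 4
  have h2 : Real.exp (9 / 4 - y ^ 2 / 4) = Real.exp (9 / 4) * (Real.exp (y ^ 2 / 4))⁻¹ := by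
    rw [← Real.exp_neg, ← Real.exp_add]
    congr 1
  have h3 : y ^ 4 / 64 ≤ Real.exp (y ^ 2 / 4) := by
    have h4 : Real.exp (y ^ 2 / 4) = Real.exp (y ^ 2 / 8) ^ 2 := by
      rw [← Real.exp_nat_mul]
      congr 1
      push_cast
      ring
    have h5 : y ^ 2 / 8 ≤ Real.exp (y ^ 2 / 8) := by
      have := Real.add_one_le_exp (y ^ 2 / 8)
      linarith
    rw [h4]
    calc y ^ 4 / 64 = (y ^ 2 / 8) ^ 2 := by ring
      _ ≤ _ := pow_le_pow_left₀ (by positivity) h5 2
  have h6 : (2 * y) ^ 4 * (Real.exp (y ^ 2 / 4))⁻¹ ≤ 1024 := by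
    rw [← div_eq_mul_inv, div_le_iff₀ (Real.exp_pos _)]
    calc (2 * y) ^ 4 = 1024 * (y ^ 4 / 64) := by ring
      _ ≤ _ := by gcongr
  calc (1 + 3 * y / 2) ^ 4 * Real.exp (9 / 4 - y ^ 2 / 4)
      ≤ (2 * y) ^ 4 * Real.exp (9 / 4 - y ^ 2 / 4) := by gcongr
    _ = ((2 * y) ^ 4 * (Real.exp (y ^ 2 / 4))⁻¹) * Real.exp (9 / 4) := by rw [h2]; ring
    _ ≤ 1024 * Real.exp (9 / 4) := by gcongr

lemma norm_exp_sq (x v : ℝ) : ‖Complex.exp (((x : ℂ) + (v : ℂ) * I) ^ 2)‖ = Real.exp (x ^ 2 - v ^ 2) := by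
  rw [Complex.norm_exp]
  congr 1
  have : (((x : ℂ) + (v : ℂ) * I) ^ 2) = ((x ^ 2 - v ^ 2 : ℝ) : ℂ) + ((2 * x * v : ℝ) : ℂ) * I := by
    push_cast
    ring_nf
    rw [I_sq]
    ring
  rw [this, re_line]

/-- fourth power of zeta on the critical line -/
noncomputable def g4 (x : ℝ) : ℝ := ‖riemannZeta (1 / 2 + x * I)‖ ^ 4

lemma g4_nonneg (x : ℝ) : 0 ≤ g4 x := by unfold g4; positivity

lemma g4_cont : Continuous g4 := by
  have hζc : Continuous fun x : ℝ => riemannZeta (1 / 2 + x * I) := by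
    refine continuous_iff_continuousAt.2 fun v => ?_
    refine ContinuousAt.comp (g := riemannZeta) ?_ (by fun_prop)
    refine (differentiableAt_riemannZeta ?_).continuousAt
    intro h
    have := congrArg Complex.re h
    simp at this
  exact hζc.norm.pow 4

/-- pointwise bound by Cauchy -/
lemma point_bd (κ : ℝ) (hκ : 0 < κ) : ∃ A B : ℝ, 0 < A ∧ 0 < B ∧ ∀ σ y : ℝ, 1 / 2 + κ ≤ σ →
    σ ≤ 2 → 2 ≤ y → ‖riemannZeta (σ + y * I)‖ ^ 4 ≤
      A + B * ∫ v in (-(y / 2))..(y / 2), g4 (y + v) * Real.exp (-v ^ 2) := by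
  obtain ⟨C1, hC1, h1⟩ := zeta_bound_im (1 / 2) (by norm_num)
  obtain ⟨C2, hC2, h2⟩ := zeta_bound_re (1 / 2) (by norm_num)
  refine ⟨2 * (C1 ^ 4 * (1024 * Real.exp (9 / 4)) * (5 / 2)) + C2 ^ 4 * Real.exp 1 * Real.pi,
    Real.exp (9 / 4) / κ, by positivity, by positivity, ?_⟩
  intro σ y hσ1 hσ2 hy
  obtain ⟨a, ha⟩ : ∃ a : ℝ, a = 1 / 2 - σ := ⟨_, rfl⟩
  obtain ⟨Y, hY⟩ : ∃ Y : ℝ, Y = y / 2 := ⟨_, rfl⟩
  have ha0 : a < 0 := by linarith
  have hY1 : 1 ≤ Y := by linarith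
  have hY0 : 0 < Y := by linarith
  obtain ⟨z, hz⟩ : ∃ z : ℂ, z = σ + y * I := ⟨_, rfl⟩
  have hzre : z.re = σ := by rw [hz]; simp
  have hzim : z.im = y := by rw [hz]; simp
  obtain ⟨G, hG⟩ : ∃ G : ℂ → ℂ, G = fun u => riemannZeta (z + u) ^ 4 * Complex.exp (u ^ 2) :=
    ⟨_, rfl⟩
  have hGd : DifferentiableOn ℂ G (K a 1 Y) := by
    intro s hs
    have hne : z + s ≠ 1 := by
      intro h
      have h3 := congrArg Complex.im h
      rw [add_im, hzim, one_im] at h3
      have h4 := abs_le.mp hs.2.2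
      linarith
    rw [hG]
    apply DifferentiableAt.differentiableWithinAt
    apply DifferentiableAt.mul
    · apply DifferentiableAt.pow
      exact DifferentiableAt.comp (g := riemannZeta) s (differentiableAt_riemannZeta hne)
        (by fun_prop)
    · fun_prop
  have hS : Sides (fun s => G s * s⁻¹) a 1 Y := sides ha0 one_pos hY0 (by
    intro s hs
    exact ((hGd s hs.1).continuousWithinAt.mono Set.sdiff_subset).mul
      (continuousAt_inv₀ hs.2).continuousWithinAt)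
  have hmain := ri_simple ha0 one_pos hY0 hGd
  have hG0 : ‖G 0‖ = ‖riemannZeta (σ + y * I)‖ ^ 4 := by
    rw [hG, hz]
    simp
  have hGn : ∀ x v : ℝ, ‖G ((x : ℂ) + (v : ℂ) * I)‖ =
      ‖riemannZeta (z + ((x : ℂ) + (v : ℂ) * I))‖ ^ 4 * Real.exp (x ^ 2 - v ^ 2) := by
    intro x v
    rw [hG]
    simp only
    rw [norm_mul, norm_pow, norm_exp_sq]
  -- horizontal sides
  have hhor : ∀ v : ℝ, |v| = Y → ‖hs (fun s => G s * s⁻¹) a 1 v‖ ≤
      C1 ^ 4 * (1024 * Real.exp (9 / 4)) * (5 / 2) := by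
    intro v hv
    unfold hs
    have hb : ∀ x ∈ Set.uIoc a 1, ‖G ((x : ℂ) + (v : ℂ) * I) * ((x : ℂ) + (v : ℂ) * I)⁻¹‖ ≤
        C1 ^ 4 * (1024 * Real.exp (9 / 4)) := by
      intro x hx
      rw [Set.uIoc_of_le (by linarith)] at hx
      have hw1 : (z + ((x : ℂ) + (v : ℂ) * I)).re = σ + x := by
        rw [add_re, hzre, re_line]
      have hw2 : (z + ((x : ℂ) + (v : ℂ) * I)).im = y + v := by
        rw [add_im, hzim, im_line]
      have hv2 := abs_le.mp hv.le
      have hζ := h1 (z + ((x : ℂ) + (v : ℂ) * I)) (by rw [hw1]; linarith [hx.1])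
        (by rw [hw1]; linarith [hx.2]) (by
          refine le_trans ?_ (Complex.abs_im_le_norm _)
          rw [sub_im, hw2, one_im, sub_zero, abs_of_nonneg (by linarith)]
          linarith)
      rw [hw2, abs_of_nonneg (by linarith)] at hζ
      have hζ' : ‖riemannZeta (z + ((x : ℂ) + (v : ℂ) * I))‖ ≤ C1 * (1 + 3 * y / 2) := by
        refine hζ.trans ?_
        gcongr
        linarith
      have hinv : ‖((x : ℂ) + (v : ℂ) * I)⁻¹‖ ≤ 1 := by
        rw [norm_inv]
        apply inv_le_one_of_one_le₀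
        refine le_trans ?_ (Complex.abs_im_le_norm _)
        rw [im_line, hv]
        exact hY1
      have hx2 : x ^ 2 ≤ 9 / 4 := by nlinarith [hx.1, hx.2]
      have hv3 : v ^ 2 = y ^ 2 / 4 := by
        rw [← sq_abs, hv, hY]
        ring
      rw [norm_mul, hGn]
      calc ‖riemannZeta (z + ((x : ℂ) + (v : ℂ) * I))‖ ^ 4 * Real.exp (x ^ 2 - v ^ 2) *
            ‖((x : ℂ) + (v : ℂ) * I)⁻¹‖
          ≤ (C1 * (1 + 3 * y / 2)) ^ 4 * Real.exp (9 / 4 - y ^ 2 / 4) * 1 := by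
            rw [hv3]
            gcongr
        _ = C1 ^ 4 * ((1 + 3 * y / 2) ^ 4 * Real.exp (9 / 4 - y ^ 2 / 4)) := by ring
        _ ≤ _ := mul_le_mul_of_nonneg_left (hor_num hy) (by positivity)
    refine (intervalIntegral.norm_integral_le_of_norm_le_const hb).trans ?_
    rw [abs_of_nonneg (by linarith)]
    gcongr
    linarith
  -- right side
  have hrig : ‖vs (fun s => G s * s⁻¹) 1 Y‖ ≤ C2 ^ 4 * Real.exp 1 * Real.pi := by
    unfold vs
    have hb : ∀ᵐ v : ℝ, v ∈ Set.Ioc (-Y) Y →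
        ‖G (((1 : ℝ) : ℂ) + (v : ℂ) * I) * (((1 : ℝ) : ℂ) + (v : ℂ) * I)⁻¹‖ ≤
        C2 ^ 4 * Real.exp 1 * Real.exp (-v ^ 2) := by
      refine Filter.Eventually.of_forall fun v _ => ?_
      have hζ := h2 (z + (((1 : ℝ) : ℂ) + (v : ℂ) * I)) (by
        rw [add_re, hzre, re_line]
        linarith)
      have hinv : ‖(((1 : ℝ) : ℂ) + (v : ℂ) * I)⁻¹‖ ≤ 1 := by
        rw [norm_inv]
        apply inv_le_one_of_one_le₀
        refine le_trans ?_ (Complex.abs_re_le_norm _)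
        rw [re_line, abs_one]
      rw [norm_mul, hGn]
      calc ‖riemannZeta (z + (((1 : ℝ) : ℂ) + (v : ℂ) * I))‖ ^ 4 * Real.exp (1 ^ 2 - v ^ 2) *
            ‖(((1 : ℝ) : ℂ) + (v : ℂ) * I)⁻¹‖
          ≤ C2 ^ 4 * Real.exp (1 ^ 2 - v ^ 2) * 1 := by gcongr
        _ = C2 ^ 4 * Real.exp 1 * Real.exp (-v ^ 2) := by
            rw [one_pow, sub_eq_add_neg, Real.exp_add]
            ring
    refine (intervalIntegral.norm_integral_le_of_norm_le (by linarith) hb
      (Continuous.intervalIntegrable (by fun_prop) _ _)).trans ?_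
    rw [intervalIntegral.integral_const_mul]
    gcongr
    exact gauss_le _ _ (by linarith)
  -- left side
  have hlef : ‖vs (fun s => G s * s⁻¹) a Y‖ ≤
      Real.exp (9 / 4) / κ * ∫ v in (-Y)..Y, g4 (y + v) * Real.exp (-v ^ 2) := by
    unfold vs
    rw [← intervalIntegral.integral_const_mul]
    have hb : ∀ᵐ v : ℝ, v ∈ Set.Ioc (-Y) Y →
        ‖G ((a : ℂ) + (v : ℂ) * I) * ((a : ℂ) + (v : ℂ) * I)⁻¹‖ ≤
        Real.exp (9 / 4) / κ * (g4 (y + v) * Real.exp (-v ^ 2)) := by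
      refine Filter.Eventually.of_forall fun v _ => ?_
      have hw : z + ((a : ℂ) + (v : ℂ) * I) = 1 / 2 + ((y + v : ℝ) : ℂ) * I := by
        rw [hz, ha]
        push_cast
        ring
      have hinv : ‖((a : ℂ) + (v : ℂ) * I)⁻¹‖ ≤ 1 / κ := by
        rw [norm_inv, ← one_div]
        apply one_div_le_one_div_of_le hκ
        refine le_trans ?_ (Complex.abs_re_le_norm _)
        rw [re_line, abs_of_neg ha0]
        linarith
      have ha2 : a ^ 2 ≤ 9 / 4 := by nlinarith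
      rw [norm_mul, hGn, hw]
      have hg : ‖riemannZeta (1 / 2 + ((y + v : ℝ) : ℂ) * I)‖ ^ 4 = g4 (y + v) := rfl
      rw [hg]
      have := g4_nonneg (y + v)
      calc g4 (y + v) * Real.exp (a ^ 2 - v ^ 2) * ‖((a : ℂ) + (v : ℂ) * I)⁻¹‖
          ≤ g4 (y + v) * Real.exp (9 / 4 - v ^ 2) * (1 / κ) := by gcongr
        _ = Real.exp (9 / 4) / κ * (g4 (y + v) * Real.exp (-v ^ 2)) := by
            rw [sub_eq_add_neg, Real.exp_add]
            ring
    refine intervalIntegral.norm_integral_le_of_norm_le (by linarith) hb ?_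
    apply Continuous.intervalIntegrable
    have := g4_cont
    fun_prop
  have hn : ‖(2 * Real.pi * I * G 0 : ℂ)‖ = 2 * Real.pi * ‖G 0‖ := by
    rw [norm_mul, norm_mul, norm_mul, norm_I, Complex.norm_real, Real.norm_of_nonneg Real.pi_pos.le]
    simp
  have htri : 2 * Real.pi * ‖G 0‖ ≤ ‖hs (fun s => G s * s⁻¹) a 1 (-Y)‖ +
      ‖hs (fun s => G s * s⁻¹) a 1 Y‖ + ‖vs (fun s => G s * s⁻¹) 1 Y‖ +
      ‖vs (fun s => G s * s⁻¹) a Y‖ := by
    rw [← hn, ← hmain]
    unfold RI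
    have e1 : ∀ w : ℂ, ‖I * w‖ = ‖w‖ := fun w => by rw [norm_mul, norm_I, one_mul]
    refine (norm_sub_le _ _).trans ?_
    rw [e1]
    refine add_le_add ?_ le_rfl
    refine (norm_add_le _ _).trans ?_
    rw [e1]
    refine add_le_add ?_ le_rfl
    exact norm_sub_le _ _
  have hb1 := hhor (-Y) (by rw [abs_neg, abs_of_pos hY0])
  have hb2 := hhor Y (abs_of_pos hY0)
  have hpi : 1 ≤ 2 * Real.pi := by
    have := Real.pi_gt_three
    linarith
  rw [← hG0, ← hY]
  have hG0n : 0 ≤ ‖G 0‖ := norm_nonneg _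
  have : ‖G 0‖ ≤ 2 * Real.pi * ‖G 0‖ := by nlinarith
  linarith

/-- change of variables and enlargement of the range -/
lemma inner_le {y c d : ℝ} (hy : 0 ≤ y) (hc : c ≤ y / 2) (hd : 3 * y / 2 ≤ d) :
    ∫ v in (-(y / 2))..(y / 2), g4 (y + v) * Real.exp (-v ^ 2) ≤
      ∫ x in c..d, g4 x * Real.exp (-(x - y) ^ 2) := by
  have h1 := intervalIntegral.integral_comp_add_left (a := -(y / 2)) (b := y / 2)
    (fun x => g4 x * Real.exp (-(x - y) ^ 2)) y
  simp only [add_sub_cancel_left] at h1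
  rw [h1]
  have hcont : Continuous fun x => g4 x * Real.exp (-(x - y) ^ 2) := by
    have := g4_cont
    fun_prop
  apply intervalIntegral.integral_mono_interval (by linarith) (by linarith) (by linarith)
  · refine Filter.Eventually.of_forall fun x => ?_
    exact mul_nonneg (g4_nonneg x) (Real.exp_pos _).le
  · exact hcont.intervalIntegrable _ _

lemma swap_le {a b c d : ℝ} (hab : a ≤ b) (hcd : c ≤ d) :
    ∫ y in a..b, ∫ x in c..d, g4 x * Real.exp (-(x - y) ^ 2) ≤
      Real.pi * ∫ x in c..d, g4 x := by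
  have hcont : Continuous (Function.uncurry fun y x : ℝ => g4 x * Real.exp (-(x - y) ^ 2)) := by
    have := g4_cont
    unfold Function.uncurry
    fun_prop
  have hint : Integrable (Function.uncurry fun y x : ℝ => g4 x * Real.exp (-(x - y) ^ 2))
      ((volume.restrict (Set.Ioc a b)).prod (volume.restrict (Set.Ioc c d))) := by
    rw [Measure.prod_restrict]
    have h1 : IntegrableOn (Function.uncurry fun y x : ℝ => g4 x * Real.exp (-(x - y) ^ 2))
        (Set.Icc a b ×ˢ Set.Icc c d) (volume.prod volume) :=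
      hcont.continuousOn.integrableOn_compact (isCompact_Icc.prod isCompact_Icc)
    exact h1.mono_set (Set.prod_mono Set.Ioc_subset_Icc_self Set.Ioc_subset_Icc_self)
  have hswap := integral_integral_swap hint
  rw [intervalIntegral.integral_of_le hab]
  simp_rw [intervalIntegral.integral_of_le hcd]
  rw [hswap]
  have h2 : ∀ x : ℝ, ∫ y in Set.Ioc a b, g4 x * Real.exp (-(x - y) ^ 2) ≤ Real.pi * g4 x := by
    intro x
    rw [← intervalIntegral.integral_of_le hab, intervalIntegral.integral_const_mul,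
      intervalIntegral.integral_comp_sub_left (fun t => Real.exp (-t ^ 2)) x, mul_comm Real.pi]
    exact mul_le_mul_of_nonneg_left (gauss_le _ _ (by linarith)) (g4_nonneg x)
  rw [← integral_const_mul]
  apply integral_mono_of_nonneg
  · refine Filter.Eventually.of_forall fun x => ?_
    apply integral_nonneg
    intro y
    exact mul_nonneg (g4_nonneg x) (Real.exp_pos _).le
  · have hc : Continuous fun x => Real.pi * g4 x := by
      have := g4_cont
      fun_prop
    exact (hc.continuousOn.integrableOn_Icc).mono_set Set.Ioc_subset_Icc_self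
  · exact Filter.Eventually.of_forall h2

lemma long (ε : ℝ) (hε : 0 < ε) : ∃ C : ℝ, 0 < C ∧ ∀ U : ℝ, 8 ≤ U →
    ∫ x in (U / 8)..(18 * U), g4 x ≤ C * U ^ (1 + ε) := by
  obtain ⟨C, hC, h⟩ := zeta_fourth ε hε
  refine ⟨8 * C * 16 ^ (1 + ε), by positivity, fun U hU => ?_⟩
  have hU0 : 0 < U := by linarith
  have hint : ∀ a b : ℝ, IntervalIntegrable g4 volume a b := fun a b =>
    g4_cont.intervalIntegrable _ _
  have h1 : ∫ x in (U / 8)..(18 * U), g4 x ≤ ∫ x in (U / 8)..(U / 8 * 2 ^ 8), g4 x := by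
    apply intervalIntegral.integral_mono_interval le_rfl (by linarith) (by linarith)
    · exact Filter.Eventually.of_forall fun x => g4_nonneg x
    · exact hint _ _
  have h2 := intervalIntegral.sum_integral_adjacent_intervals (f := g4) (μ := volume)
    (a := fun k : ℕ => U / 8 * 2 ^ k) (n := 8) (fun k _ => hint _ _)
  simp only [pow_zero, mul_one] at h2
  rw [← h2] at h1
  refine h1.trans ?_
  have h3 : ∀ k ∈ Finset.range 8, ∫ x in (U / 8 * 2 ^ k)..(U / 8 * 2 ^ (k + 1)), g4 x ≤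
      C * (16 * U) ^ (1 + ε) := by
    intro k hk
    rw [Finset.mem_range] at hk
    have hT1 : 1 ≤ U / 8 * 2 ^ k := by
      have : (1 : ℝ) ≤ 2 ^ k := one_le_pow₀ (by norm_num)
      nlinarith
    have h4 := h (U / 8 * 2 ^ k) (U / 8 * 2 ^ k) hT1 le_rfl (by linarith)
    have e : U / 8 * 2 ^ k + U / 8 * 2 ^ k = U / 8 * 2 ^ (k + 1) := by ring
    rw [e] at h4
    have h5 : U / 8 * 2 ^ k ≤ 16 * U := by
      have : (2 : ℝ) ^ k ≤ 2 ^ 7 := pow_le_pow_right₀ (by norm_num) (by omega)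
      nlinarith
    calc ∫ x in (U / 8 * 2 ^ k)..(U / 8 * 2 ^ (k + 1)), g4 x ≤ C * (U / 8 * 2 ^ k) ^ (1 + ε) := h4
      _ ≤ C * (16 * U) ^ (1 + ε) := by gcongr
  refine (Finset.sum_le_sum h3).trans (le_of_eq ?_)
  rw [Finset.sum_const, Finset.card_range, nsmul_eq_mul, Real.mul_rpow (by norm_num) hU0.le]
  push_cast
  ring

end ZMomAux

open ZMomAux

theorem zmom (κ ε : ℝ) (hκ : 0 < κ) (hε : 0 < ε) : ∃ C : ℝ, 0 < C ∧ ∀ U σ a b : ℝ, 8 ≤ U → 1 / 2 + κ ≤ σ → σ ≤ 2 →
    U / 4 ≤ a → a ≤ b → b ≤ 12 * U →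
    ∫ y in a..b, ‖riemannZeta (σ + y * I)‖ ^ 4 ≤ C * U ^ (1 + ε) := by
  obtain ⟨A, B, hA, hB, hpt⟩ := point_bd κ hκ
  obtain ⟨C, hC, hl⟩ := long ε hε
  refine ⟨12 * A + B * (Real.pi * C), by positivity, ?_⟩
  intro U σ a b hU hσ1 hσ2 ha hab hb
  have hU0 : 0 < U := by linarith
  have hcd : U / 8 ≤ 18 * U := by linarith
  have hcont : Continuous (Function.uncurry fun y x : ℝ => g4 x * Real.exp (-(x - y) ^ 2)) := by
    have := g4_cont
    unfold Function.uncurry
    fun_prop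
  have hcJ : Continuous fun y : ℝ => ∫ x in (U / 8)..(18 * U), g4 x * Real.exp (-(x - y) ^ 2) :=
    intervalIntegral.continuous_parametric_intervalIntegral_of_continuous' hcont _ _
  have hζc : ContinuousOn (fun y : ℝ => ‖riemannZeta (σ + y * I)‖ ^ 4) (Set.Icc a b) := by
    intro y hy
    apply ContinuousAt.continuousWithinAt
    refine (ContinuousAt.norm ?_).pow 4
    refine ContinuousAt.comp (g := riemannZeta) ?_ (by fun_prop)
    refine (differentiableAt_riemannZeta ?_).continuousAt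
    intro h
    have h1 := congrArg Complex.im h
    simp at h1
    linarith [hy.1]
  have h1 : ∫ y in a..b, ‖riemannZeta (σ + y * I)‖ ^ 4 ≤
      ∫ y in a..b, (A + B * ∫ x in (U / 8)..(18 * U), g4 x * Real.exp (-(x - y) ^ 2)) := by
    apply intervalIntegral.integral_mono_on hab
    · apply ContinuousOn.intervalIntegrable
      rwa [Set.uIcc_of_le hab]
    · exact Continuous.intervalIntegrable (by fun_prop) _ _
    · intro y hy
      refine (hpt σ y hσ1 hσ2 (by linarith [hy.1])).trans ?_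
      have := inner_le (y := y) (c := U / 8) (d := 18 * U) (by linarith [hy.1]) (by linarith [hy.1])
        (by linarith [hy.2])
      gcongr
  refine h1.trans ?_
  rw [intervalIntegral.integral_add intervalIntegrable_const
    (Continuous.intervalIntegrable (by fun_prop) _ _), intervalIntegral.integral_const,
    intervalIntegral.integral_const_mul, smul_eq_mul]
  have h2 := swap_le (a := a) (b := b) (c := U / 8) (d := 18 * U) hab hcd
  have h3 := hl U hU
  have h4 : U ≤ U ^ (1 + ε) := by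
    conv_lhs => rw [← Real.rpow_one U]
    exact Real.rpow_le_rpow_of_exponent_le (by linarith) (by linarith)
  have h5 : (b - a) * A ≤ 12 * A * U ^ (1 + ε) := by
    calc (b - a) * A ≤ (12 * U) * A := by
          gcongr
          linarith
      _ = 12 * A * U := by ring
      _ ≤ _ := by gcongr
  have h6 : B * ∫ y in a..b, ∫ x in (U / 8)..(18 * U), g4 x * Real.exp (-(x - y) ^ 2) ≤
      B * (Real.pi * (C * U ^ (1 + ε))) := by
    have hpi := Real.pi_pos
    refine mul_le_mul_of_nonneg_left (h2.trans ?_) hB.le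
    gcongr
  calc (b - a) * A + B * ∫ y in a..b, ∫ x in (U / 8)..(18 * U), g4 x * Real.exp (-(x - y) ^ 2)
      ≤ 12 * A * U ^ (1 + ε) + B * (Real.pi * (C * U ^ (1 + ε))) := add_le_add h5 h6
    _ = _ := by ring

end Pool.Agent.P07318f
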