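import Pool.Agent.Lib.P07318f.Gam4
import Pool.Agent.Lib.P07318f.ZMom
import Pool.Agent.Lib.P07318f.PhiFn
import Pool.Agent.Lib.P07318s.AFE

/-!
# Approximate functional equation for the product of four zeta functions

`c = cz = 10^(-5)`, `‖s‖ = ρ = 10^(-7)`, `x ≥ x₀`. Let `f(w) = Gw s w / w · G4 s w x / G4 s 0 x · L4 s w x` on the rectangle `|Re w| ≤ c`,
`|Im w| ≤ x/4`: holomorphic except a simple pole at `0` with residue `FF s x` (the poles of the zetas have `|Im w| ≥ x - 1`, the arguments of `Gammaℝ` have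
real part `> 1/4`). Cauchy: `FF s x = (1/2π)∫_{|v|≤x/4} f(c+iv) dv - (1/2π)∫ f(-c+iv) dv + horizontal sides`. Horizontal sides: `|exp(w²)| ≤ C exp(-x²/16)`,
the Gamma quotient is `≤ C x^(2c) exp(C x/4)·..` (`g4_ratio`), zetas polynomially bounded (`zeta_bound_im`): `≤ C exp(-x)`. Left side: `w ↦ -w`, `Gw` even:
`Gammaℝ(z) ζ(z) = Gammaℝ(1-z) ζ(1-z)` (`completedZeta`, `riemannZeta_def_of_ne_zero`) for the four factors turns `G4 s (-w) x L4 s (-w) x` into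
`G4 (-s) w x L4 (-s) w x`. So `FF s x = (1/2π)∫_{|v|≤x/4} (Gw s w/w) (G4 s w x L4 s w x + G4 (-s) w x L4 (-s) w x)/G4 s 0 x dv + O(e^(-x))`, `w = c+iv`
(`Gw (-s) = Gw s`). Replace the Gamma quotients by `X2 x (2w)` and `X2 x (2w-6s)` (`g4_ratio`): the error is
`≤ C ∫ exp(-v²/2+C|v|) x^(2c+6ρ-1) |L4| dv`; integrate over `x ∈ [U/2, 8U]`: Hoelder and `zmom` (heights `x±v ∈ [3x/4, 5x/4]`, `κ = 10^(-6)`): `≤ C U^(1/10)`.
Then shift the truncated integrals from `Re w = c` to `Re w = 2` (holomorphic in the box `c ≤ Re w ≤ 2`, `|Im w| ≤ x/4`, horizontal sides `≤ C exp(-x²/32)`), and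
complete them: for `|v| > x/4` and `Re w = 2` the four zetas are bounded (`zeta_bound_re`) and `|X2| ≤ x^5`. For `x < x₀` (bounded `U`) everything is bounded.
-/

set_option autoImplicit false

namespace Pool.Agent.P07318f

open MeasureTheory Complex Pool.Agent.P07318s

noncomputable def L4 (s w : ℂ) (x : ℝ) : ℂ :=
  riemannZeta (1 / 2 + s + w + x * I) * riemannZeta (1 / 2 + 2 * s + w + x * I) *
    (riemannZeta (1 / 2 + s + w - x * I) * riemannZeta (1 / 2 + 2 * s + w - x * I))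

/-- one half of the approximate functional equation -/
noncomputable def AH (s : ℂ) (x : ℝ) : ℂ :=
  (2 * Real.pi : ℂ)⁻¹ * ∫ v : ℝ, Gw s (2 + v * I) / (2 + v * I) * X2 x (2 * (2 + v * I)) * L4 s (2 + v * I) x

namespace Afe4Aux

/-- the polynomial of the weight -/
noncomputable def pl (s w : ℂ) : ℂ :=
  (1 - w ^ 2 / s ^ 2) * (1 - 4 * w ^ 2 / (9 * s ^ 2)) ^ 2 * (1 - w ^ 2 / (4 * s ^ 2))

theorem Gw_eq (s w : ℂ) : Gw s w = cexp (w ^ 2) * pl s w := rfl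

theorem pl_zero (s : ℂ) : pl s 0 = 1 := by
  unfold pl
  simp

theorem pl_neg (s w : ℂ) : pl s (-w) = pl (-s) w := by
  unfold pl
  rw [neg_sq, neg_sq]

theorem Gw_neg (s w : ℂ) : Gw (-s) w = Gw s w := by
  unfold Gw
  rw [neg_sq]

/-- the product of the completed functions -/
noncomputable def Fx (s : ℂ) (x : ℝ) (w : ℂ) : ℂ :=
  pl s w * (xi0 (1 / 2 + s + w + x * I) * xi0 (1 / 2 + 2 * s + w + x * I) *
    (xi0 (1 / 2 + s + w - x * I) * xi0 (1 / 2 + 2 * s + w - x * I)))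

theorem Fx_diff (s : ℂ) (x : ℝ) : Differentiable ℂ (Fx s x) := by
  have h1 : Differentiable ℂ (fun w : ℂ => 1 / 2 + s + w + x * I) := by fun_prop
  have h2 : Differentiable ℂ (fun w : ℂ => 1 / 2 + 2 * s + w + x * I) := by fun_prop
  have h3 : Differentiable ℂ (fun w : ℂ => 1 / 2 + s + w - x * I) := by fun_prop
  have h4 : Differentiable ℂ (fun w : ℂ => 1 / 2 + 2 * s + w - x * I) := by fun_prop
  have h5 : Differentiable ℂ (pl s) := by unfold pl; fun_prop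
  exact h5.mul (((xi0_diff.comp h1).mul (xi0_diff.comp h2)).mul ((xi0_diff.comp h3).mul (xi0_diff.comp h4)))

theorem Fx_neg (s : ℂ) (x : ℝ) (w : ℂ) : Fx s x (-w) = Fx (-s) x w := by
  unfold Fx
  rw [pl_neg, ← xi0_one_sub (1 / 2 + s + -w + x * I), ← xi0_one_sub (1 / 2 + 2 * s + -w + x * I),
    ← xi0_one_sub (1 / 2 + s + -w - x * I), ← xi0_one_sub (1 / 2 + 2 * s + -w - x * I)]
  have e1 : 1 - (1 / 2 + s + -w + x * I) = 1 / 2 + -s + w - x * I := by ring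
  have e2 : 1 - (1 / 2 + 2 * s + -w + x * I) = 1 / 2 + 2 * -s + w - x * I := by ring
  have e3 : 1 - (1 / 2 + s + -w - x * I) = 1 / 2 + -s + w + x * I := by ring
  have e4 : 1 - (1 / 2 + 2 * s + -w - x * I) = 1 / 2 + 2 * -s + w + x * I := by ring
  rw [e1, e2, e3, e4]
  ring

theorem rho_le : rho ≤ 1 / 1000000 := by unfold rho; norm_num

theorem rho_pos : 0 < rho := by unfold rho; norm_num

/-- the real parts -/
theorem re_bd {s : ℂ} (hs : ‖s‖ = rho) : |s.re| ≤ rho ∧ |(2 * s).re| ≤ 2 * rho ∧ |s.im| ≤ rho ∧ |(2 * s).im| ≤ 2 * rho := by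
  have h1 := Complex.abs_re_le_norm s
  have h2 := Complex.abs_im_le_norm s
  have h3 := Complex.abs_re_le_norm (2 * s)
  have h4 := Complex.abs_im_le_norm (2 * s)
  have h5 : ‖2 * s‖ = 2 * rho := by rw [norm_mul, hs]; simp
  rw [hs] at h1 h2
  rw [h5] at h3 h4
  exact ⟨h1, h3, h2, h4⟩

theorem xi_bd : ∃ C : ℝ, 0 < C ∧ ∀ z : ℂ, 0 ≤ z.re → z.re ≤ 1 → ‖xi0 z‖ ≤ C * (2 + ‖z‖) ^ 4 := by
  obtain ⟨C, hC, h⟩ := xi0_bound
  refine ⟨C, hC, fun z h0 h1 => ?_⟩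
  by_cases hz : 1 / 2 ≤ z.re
  · refine (h z hz (by linarith)).trans ?_
    gcongr
    norm_num
  · rw [← xi0_one_sub]
    refine (h (1 - z) (by simp; linarith) (by simp; linarith)).trans ?_
    have := norm_sub_le (1 : ℂ) z
    rw [norm_one] at this
    exact mul_le_mul_of_nonneg_left (pow_le_pow_left₀ (by positivity) (by linarith) 4) hC.le

theorem pl_bd {s : ℂ} (w : ℂ) (hs : ‖s‖ = rho) : ‖pl s w‖ ≤ (1 + ‖w‖ ^ 2 / rho ^ 2) ^ 4 := by
  have hr := rho_pos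
  have key : ∀ z : ℂ, ‖z‖ ≤ ‖w‖ ^ 2 / rho ^ 2 → ‖1 - z‖ ≤ 1 + ‖w‖ ^ 2 / rho ^ 2 := by
    intro z hz
    have := norm_sub_le (1 : ℂ) z
    rw [norm_one] at this
    linarith
  have k1 : ‖w ^ 2 / s ^ 2‖ ≤ ‖w‖ ^ 2 / rho ^ 2 := by
    rw [norm_div, norm_pow, norm_pow, hs]
  have k2 : ‖4 * w ^ 2 / (9 * s ^ 2)‖ ≤ ‖w‖ ^ 2 / rho ^ 2 := by
    rw [norm_div, norm_mul, norm_mul, norm_pow, norm_pow, hs]
    simp only [Complex.norm_ofNat]
    rw [div_le_div_iff₀ (by positivity) (by positivity)]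
    have : 0 ≤ ‖w‖ ^ 2 * rho ^ 2 := by positivity
    nlinarith
  have k3 : ‖w ^ 2 / (4 * s ^ 2)‖ ≤ ‖w‖ ^ 2 / rho ^ 2 := by
    rw [norm_div, norm_mul, norm_pow, norm_pow, hs]
    simp only [Complex.norm_ofNat]
    rw [div_le_div_iff₀ (by positivity) (by positivity)]
    have : 0 ≤ ‖w‖ ^ 2 * rho ^ 2 := by positivity
    nlinarith
  have j1 := key _ k1
  have j2 := key _ k2
  have j3 := key _ k3
  unfold pl
  rw [norm_mul, norm_mul, norm_pow]
  calc _ ≤ (1 + ‖w‖ ^ 2 / rho ^ 2) * (1 + ‖w‖ ^ 2 / rho ^ 2) ^ 2 * (1 + ‖w‖ ^ 2 / rho ^ 2) := by gcongr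
    _ = _ := by ring

theorem norm_w_le {w : ℂ} (h : |w.re| ≤ 1) : ‖w‖ ≤ 1 + |w.im| := by
  refine (Complex.norm_le_abs_re_add_abs_im w).trans ?_
  linarith

theorem pow_exp_bd (n : ℕ) {t : ℝ} (ht : 0 ≤ t) : (1 + t) ^ n ≤ Real.exp (n * t) := by
  rw [Real.exp_nat_mul]
  apply pow_le_pow_left₀ (by positivity)
  have := Real.add_one_le_exp t
  linarith

theorem aux_lin {X t n u w : ℝ} (hX : 0 ≤ X) (ht : 0 ≤ t) (hn : n ≤ 1 / 2 + u + w + X) (hu : u ≤ 1) (hw : w ≤ 1 + t) :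
    2 + n ≤ (5 + X) * (1 + t) := by
  have := mul_nonneg hX ht
  linarith [this]

theorem aux_prod {P B D t a1 a2 a3 a4 : ℝ} (hP0 : 0 ≤ P) (hP : P ≤ B * (1 + t) ^ 8) (h1 : 0 ≤ a1)
    (h2 : 0 ≤ a2) (h3 : 0 ≤ a3) (h4 : 0 ≤ a4) (k1 : a1 ≤ D * (1 + t) ^ 4) (k2 : a2 ≤ D * (1 + t) ^ 4)
    (k3 : a3 ≤ D * (1 + t) ^ 4) (k4 : a4 ≤ D * (1 + t) ^ 4) :
    P * (a1 * a2 * (a3 * a4)) ≤ (B * D ^ 4) * (1 + t) ^ 24 := by
  have hD : 0 ≤ D * (1 + t) ^ 4 := h1.trans k1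
  have m1 : a1 * a2 ≤ (D * (1 + t) ^ 4) * (D * (1 + t) ^ 4) := mul_le_mul k1 k2 h2 hD
  have m2 : a3 * a4 ≤ (D * (1 + t) ^ 4) * (D * (1 + t) ^ 4) := mul_le_mul k3 k4 h4 hD
  have m3 : a1 * a2 * (a3 * a4) ≤ ((D * (1 + t) ^ 4) * (D * (1 + t) ^ 4)) * ((D * (1 + t) ^ 4) * (D * (1 + t) ^ 4)) :=
    mul_le_mul m1 m2 (mul_nonneg h3 h4) (mul_nonneg hD hD)
  have m4 := mul_le_mul hP m3 (mul_nonneg (mul_nonneg h1 h2) (mul_nonneg h3 h4)) (hP0.trans hP)
  refine m4.trans (le_of_eq ?_)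
  ring

theorem Fx_bound {s : ℂ} (hs : ‖s‖ = rho) (x : ℝ) : ∃ K : ℝ, ∀ w : ℂ, -cz ≤ w.re → w.re ≤ cz →
    ‖Fx s x w‖ ≤ K * Real.exp (K * |w.im|) := by
  obtain ⟨C, hC, h⟩ := xi_bd
  have hr := rho_le
  have hr0 := rho_pos
  have hcz : cz = 1 / 10 ^ 5 := rfl
  obtain ⟨b1, b2, -, -⟩ := re_bd hs
  rw [abs_le] at b1 b2
  obtain ⟨B, hB⟩ : ∃ B : ℝ, B = (1 + 1 / rho ^ 2) ^ 4 := ⟨_, rfl⟩
  obtain ⟨D, hD⟩ : ∃ D : ℝ, D = C * (5 + |x|) ^ 4 := ⟨_, rfl⟩
  have hB0 : 0 ≤ B := by rw [hB]; positivity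
  have hD0 : 0 ≤ D := by rw [hD]; positivity
  refine ⟨24 + B * D ^ 4, fun w h1 h2 => ?_⟩
  have hw1 : |w.re| ≤ 1 := by
    rw [abs_le]
    constructor <;> linarith
  have hw := norm_w_le hw1
  have hone : ∀ u : ℂ, ‖u‖ ≤ 2 * rho → |u.re| ≤ 2 * rho → ∀ ε : ℝ, |ε| = 1 →
      ‖xi0 (1 / 2 + u + w + (ε * x : ℝ) * I)‖ ≤ D * (1 + |w.im|) ^ 4 := by
    intro u hu hu' ε hε
    rw [abs_le] at hu'
    have hre : (1 / 2 + u + w + (ε * x : ℝ) * I).re = 1 / 2 + u.re + w.re := by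
      rw [Complex.add_re, Complex.re_ofReal_mul, Complex.I_re]
      simp
    refine (h _ (by rw [hre]; linarith) (by rw [hre]; linarith)).trans ?_
    rw [hD, mul_assoc, ← mul_pow]
    apply mul_le_mul_of_nonneg_left _ hC.le
    apply pow_le_pow_left₀ (by positivity)
    have e1 : ‖1 / 2 + u + w + (ε * x : ℝ) * I‖ ≤ 1 / 2 + ‖u‖ + ‖w‖ + |x| := by
      refine (norm_add_le _ _).trans ?_
      refine add_le_add ((norm_add_le _ _).trans ?_) ?_
      · apply add_le_add_left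
        refine (norm_add_le _ _).trans ?_
        norm_num
      · rw [norm_mul, Complex.norm_I, mul_one, Complex.norm_real, Real.norm_eq_abs, abs_mul, hε, one_mul]
    exact aux_lin (abs_nonneg _) (abs_nonneg _) e1 (by linarith) hw
  have h2s : ‖2 * s‖ = 2 * rho := by rw [norm_mul, hs]; simp
  have f1 := hone s (by rw [hs]; linarith) (by rw [abs_le]; constructor <;> linarith) 1 (by norm_num)
  have f2 := hone (2 * s) (by rw [h2s]) (by rw [abs_le]; exact b2) 1 (by norm_num)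
  have f3 := hone s (by rw [hs]; linarith) (by rw [abs_le]; constructor <;> linarith) (-1) (by norm_num)
  have f4 := hone (2 * s) (by rw [h2s]) (by rw [abs_le]; exact b2) (-1) (by norm_num)
  have g1 : 1 / 2 + s + w + ((1 * x : ℝ) : ℂ) * I = 1 / 2 + s + w + x * I := by push_cast; ring
  have g2 : 1 / 2 + 2 * s + w + ((1 * x : ℝ) : ℂ) * I = 1 / 2 + 2 * s + w + x * I := by push_cast; ring
  have g3 : 1 / 2 + s + w + ((-1 * x : ℝ) : ℂ) * I = 1 / 2 + s + w - x * I := by push_cast; ring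
  have g4 : 1 / 2 + 2 * s + w + ((-1 * x : ℝ) : ℂ) * I = 1 / 2 + 2 * s + w - x * I := by push_cast; ring
  rw [g1] at f1
  rw [g2] at f2
  rw [g3] at f3
  rw [g4] at f4
  have fp : ‖pl s w‖ ≤ B * (1 + |w.im|) ^ 8 := by
    refine (pl_bd w hs).trans ?_
    have : (1 + |w.im|) ^ 8 = ((1 + |w.im|) ^ 2) ^ 4 := by ring
    rw [hB, this, ← mul_pow]
    apply pow_le_pow_left₀ (by positivity)
    have e : ‖w‖ ^ 2 ≤ (1 + |w.im|) ^ 2 := pow_le_pow_left₀ (norm_nonneg _) hw 2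
    have e2 : 1 ≤ (1 + |w.im|) ^ 2 := one_le_pow₀ (by have := abs_nonneg w.im; linarith)
    calc 1 + ‖w‖ ^ 2 / rho ^ 2 ≤ (1 + |w.im|) ^ 2 + (1 + |w.im|) ^ 2 / rho ^ 2 :=
          add_le_add e2 (div_le_div_of_nonneg_right e (by positivity))
      _ = _ := by ring
  unfold Fx
  rw [norm_mul, norm_mul, norm_mul, norm_mul]
  refine (aux_prod (norm_nonneg _) fp (norm_nonneg _) (norm_nonneg _) (norm_nonneg _) (norm_nonneg _) f1 f2 f3 f4).trans ?_
  have hexp := pow_exp_bd 24 (abs_nonneg w.im)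
  have hBD : 0 ≤ B * D ^ 4 := mul_nonneg hB0 (pow_nonneg hD0 4)
  have hexp2 : (1 + |w.im|) ^ 24 ≤ Real.exp ((24 + B * D ^ 4) * |w.im|) := by
    refine hexp.trans (Real.exp_le_exp.2 ?_)
    push_cast
    apply mul_le_mul_of_nonneg_right _ (abs_nonneg _)
    linarith
  exact mul_le_mul (by linarith) hexp2 (by positivity) (by linarith)

theorem cz_pos : 0 < cz := by unfold cz; norm_num

/-- the exact formula -/
theorem exact (s : ℂ) (hs : ‖s‖ = rho) (x : ℝ) :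
    (∫ v : ℝ, Fx s x (cz + v * I) * cexp ((cz + v * I) ^ 2) / (cz + v * I)) +
      (∫ v : ℝ, Fx (-s) x (cz + v * I) * cexp ((cz + v * I) ^ 2) / (cz + v * I)) = 2 * Real.pi * Fx s x 0 := by
  obtain ⟨K, hK⟩ := Fx_bound hs x
  have hc := cz_pos
  have hs2 : 0 < Real.sqrt 2 := Real.sqrt_pos.mpr (by norm_num)
  have h := P4f18dfV.shift_pole (Fx_diff s x) (a := -cz) (b := cz) (K := K) hK hs2 0 0 (by simpa using hc) (by simpa using hc)
  simp only [ShiftAux.gk_eq, sub_zero] at h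
  have hneg : (∫ t : ℝ, Fx s x (((-cz : ℝ) : ℂ) + t * I) * cexp ((((-cz : ℝ) : ℂ) + t * I) ^ 2) /
      (((-cz : ℝ) : ℂ) + t * I)) =
      - ∫ v : ℝ, Fx (-s) x (cz + v * I) * cexp (((cz : ℂ) + v * I) ^ 2) / ((cz : ℂ) + v * I) := by
    rw [← integral_neg_eq_self, ← integral_neg]
    congr 1
    funext v
    have e : ((-cz : ℝ) : ℂ) + ((-v : ℝ) : ℂ) * I = -((cz : ℂ) + v * I) := by
      push_cast
      ring
    rw [e, Fx_neg, neg_sq, div_neg]
  rw [hneg] at h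
  linear_combination h

/-! ### the quotients -/

noncomputable def qf (u : ℂ) (x : ℝ) : ℂ := (1 / 2 + u + x * I) * (1 - (1 / 2 + u + x * I))

theorem qf_eq (u : ℂ) (x : ℝ) : qf u x = ((1 / 4 + x ^ 2 : ℝ) : ℂ) - (u ^ 2 + 2 * u * x * I) := by
  unfold qf
  push_cast
  ring_nf
  rw [I_sq]
  ring

theorem qf_lower {u : ℂ} (hu : ‖u‖ ≤ 1 / 100) {x : ℝ} (hx : 2 ≤ |x|) : x ^ 2 / 2 ≤ ‖qf u x‖ := by
  rw [qf_eq]
  have h1 := norm_sub_norm_le ((1 / 4 + x ^ 2 : ℝ) : ℂ) (u ^ 2 + 2 * u * x * I)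
  have h2 : ‖((1 / 4 + x ^ 2 : ℝ) : ℂ)‖ = 1 / 4 + x ^ 2 := by
    rw [Complex.norm_real, Real.norm_of_nonneg (by positivity)]
  have h3 : ‖u ^ 2 + 2 * u * x * I‖ ≤ ‖u‖ ^ 2 + 2 * ‖u‖ * |x| := by
    refine (norm_add_le _ _).trans ?_
    rw [norm_pow, norm_mul, norm_mul, norm_mul, Complex.norm_I, mul_one, Complex.norm_real, Real.norm_eq_abs]
    simp
  have h4 : ‖u‖ ^ 2 ≤ 1 / 10000 := by
    have := pow_le_pow_left₀ (norm_nonneg u) hu 2
    norm_num at this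
    linarith
  have h5 : 2 * ‖u‖ * |x| ≤ 2 * (1 / 100) * |x| := by
    apply mul_le_mul_of_nonneg_right _ (abs_nonneg _)
    linarith
  have h6 : |x| ^ 2 = x ^ 2 := sq_abs x
  have h7 : 2 * |x| ≤ |x| ^ 2 := by
    rw [sq]
    exact mul_le_mul_of_nonneg_right hx (abs_nonneg _)
  rw [h2] at h1
  linarith

theorem qf_ratio {u u₀ : ℂ} (hu : ‖u₀‖ ≤ 1 / 100) {x : ℝ} (hx : 2 ≤ |x|) :
    qf u₀ x ≠ 0 ∧ ‖qf u x / qf u₀ x - 1‖ ≤ 4 * (1 + ‖u‖) ^ 2 / |x| := by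
  have h1 := qf_lower hu hx
  have hx0 : 0 < |x| := by linarith
  have hx2 : 0 < x ^ 2 := by
    rw [← sq_abs]
    positivity
  have h2 : 0 < ‖qf u₀ x‖ := by linarith
  have h3 : qf u₀ x ≠ 0 := norm_pos_iff.1 h2
  refine ⟨h3, ?_⟩
  have h4 : qf u x / qf u₀ x - 1 = (qf u x - qf u₀ x) / qf u₀ x := by
    field_simp
  rw [h4, norm_div, div_le_div_iff₀ h2 hx0]
  have h5 : ‖qf u x - qf u₀ x‖ ≤ 2 * |x| * (1 + ‖u‖) ^ 2 := by
    have e : qf u x - qf u₀ x = u₀ ^ 2 - u ^ 2 + 2 * (u₀ - u) * x * I := by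
      rw [qf_eq, qf_eq]
      ring
    rw [e]
    have k1 : ‖u₀ ^ 2 - u ^ 2 + 2 * (u₀ - u) * x * I‖ ≤ (‖u₀‖ ^ 2 + ‖u‖ ^ 2) + 2 * (‖u₀‖ + ‖u‖) * |x| := by
      refine (norm_add_le _ _).trans (add_le_add ?_ ?_)
      · refine (norm_sub_le _ _).trans ?_
        rw [norm_pow, norm_pow]
      · rw [norm_mul, norm_mul, norm_mul, Complex.norm_I, mul_one, Complex.norm_real, Real.norm_eq_abs]
        simp only [Complex.norm_ofNat]
        have := norm_sub_le u₀ u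
        gcongr
    refine k1.trans ?_
    have n0 := norm_nonneg u
    have k2 : ‖u₀‖ ^ 2 ≤ 1 := by
      have := pow_le_pow_left₀ (norm_nonneg u₀) hu 2
      norm_num at this
      linarith
    have k3 : 0 ≤ (|x| - 2) * ‖u‖ ^ 2 := mul_nonneg (by linarith) (sq_nonneg _)
    have k4 : 2 * (‖u₀‖ + ‖u‖) * |x| ≤ 2 * (1 / 100 + ‖u‖) * |x| := by
      apply mul_le_mul_of_nonneg_right _ hx0.le
      linarith
    have k5 : 0 ≤ |x| * ‖u‖ := mul_nonneg hx0.le n0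
    nlinarith
  calc ‖qf u x - qf u₀ x‖ * |x| ≤ 2 * |x| * (1 + ‖u‖) ^ 2 * |x| := by gcongr
    _ = 4 * (1 + ‖u‖) ^ 2 * (x ^ 2 / 2) := by
        rw [← sq_abs x]
        ring
    _ ≤ 4 * (1 + ‖u‖) ^ 2 * ‖qf u₀ x‖ := by gcongr

noncomputable def Qp (s w : ℂ) (x : ℝ) : ℂ :=
  qf (s + w) x * qf (2 * s + w) x * (qf (s + w) (-x) * qf (2 * s + w) (-x))

theorem small_s {s : ℂ} (hs : ‖s‖ = rho) : ‖s + 0‖ ≤ 1 / 100 ∧ ‖2 * s + 0‖ ≤ 1 / 100 := by
  have hr := rho_le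
  have hr0 := rho_pos
  rw [add_zero, add_zero, norm_mul, hs]
  simp only [Complex.norm_ofNat]
  constructor <;> linarith

theorem Qp_ne {s : ℂ} (hs : ‖s‖ = rho) {x : ℝ} (hx : 2 ≤ x) : Qp s 0 x ≠ 0 := by
  obtain ⟨a1, a2⟩ := small_s hs
  have hx1 : 2 ≤ |x| := by rw [abs_of_nonneg (by linarith)]; exact hx
  have hx2 : 2 ≤ |-x| := by rw [abs_neg]; exact hx1
  unfold Qp
  exact mul_ne_zero (mul_ne_zero (qf_ratio (u := 0) a1 hx1).1 (qf_ratio (u := 0) a2 hx1).1)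
    (mul_ne_zero (qf_ratio (u := 0) a1 hx2).1 (qf_ratio (u := 0) a2 hx2).1)

theorem Qp_ratio {s s' : ℂ} (hs : ‖s‖ = rho) (hs' : ‖s'‖ = rho) {x : ℝ} (hx : 2 ≤ x) (w : ℂ) :
    ‖Qp s' w x / Qp s 0 x - 1‖ ≤ 15 * (4 * (2 + ‖w‖) ^ 2) ^ 4 / x := by
  obtain ⟨a1, a2⟩ := small_s hs
  obtain ⟨b1, b2⟩ := small_s hs'
  rw [add_zero] at b1 b2
  have hx0 : 0 < x := by linarith
  have hxa : |x| = x := abs_of_pos hx0
  have hx1 : 2 ≤ |x| := by rw [hxa]; exact hx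
  have hxn : |-x| = x := by rw [abs_neg, hxa]
  have hx2 : 2 ≤ |-x| := by rw [hxn]; exact hx
  have c1 := (qf_ratio (u := s' + w) a1 hx1).2
  have c2 := (qf_ratio (u := 2 * s' + w) a2 hx1).2
  have c3 := (qf_ratio (u := s' + w) a1 hx2).2
  have c4 := (qf_ratio (u := 2 * s' + w) a2 hx2).2
  rw [hxa] at c1 c2
  rw [hxn] at c3 c4
  have d1 : (1 + ‖s' + w‖) ^ 2 ≤ (2 + ‖w‖) ^ 2 := by
    apply pow_le_pow_left₀ (by positivity)
    have := norm_add_le s' w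
    linarith
  have d2 : (1 + ‖2 * s' + w‖) ^ 2 ≤ (2 + ‖w‖) ^ 2 := by
    apply pow_le_pow_left₀ (by positivity)
    have := norm_add_le (2 * s') w
    linarith
  obtain ⟨M, hM⟩ : ∃ M : ℝ, M = 4 * (2 + ‖w‖) ^ 2 := ⟨_, rfl⟩
  have hM1 : 1 ≤ M := by
    rw [hM]
    have := norm_nonneg w
    nlinarith
  have e1 : 4 * (1 + ‖s' + w‖) ^ 2 / x ≤ M / x := by
    rw [hM]
    gcongr
  have e2 : 4 * (1 + ‖2 * s' + w‖) ^ 2 / x ≤ M / x := by
    rw [hM]
    gcongr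
  rw [← hM]
  have e : Qp s' w x / Qp s 0 x = (qf (s' + w) x / qf (s + 0) x * (qf (2 * s' + w) x / qf (2 * s + 0) x)) *
      (qf (s' + w) (-x) / qf (s + 0) (-x) * (qf (2 * s' + w) (-x) / qf (2 * s + 0) (-x))) := by
    unfold Qp
    rw [div_mul_div_comm, div_mul_div_comm, div_mul_div_comm]
  rw [e]
  have p1 := KernelAux.prod_sub_one (qf (s' + w) x / qf (s + 0) x * (qf (2 * s' + w) x / qf (2 * s + 0) x))
    (qf (s' + w) (-x) / qf (s + 0) (-x) * (qf (2 * s' + w) (-x) / qf (2 * s + 0) (-x)))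
  have p2 := KernelAux.prod_sub_one (qf (s' + w) x / qf (s + 0) x) (qf (2 * s' + w) x / qf (2 * s + 0) x)
  have p3 := KernelAux.prod_sub_one (qf (s' + w) (-x) / qf (s + 0) (-x)) (qf (2 * s' + w) (-x) / qf (2 * s + 0) (-x))
  have q1 := c1.trans e1
  have q2 := c2.trans e2
  have q3 := c3.trans e1
  have q4 := c4.trans e2
  obtain ⟨δ, hδ⟩ : ∃ δ : ℝ, δ = M / x := ⟨_, rfl⟩
  rw [← hδ] at q1 q2 q3 q4
  have hδ0 : 0 ≤ δ := by rw [hδ]; positivity
  have hδM : δ ≤ M := by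
    rw [hδ]
    exact div_le_self (by linarith) (by linarith)
  have r2 : 1 + ‖qf (s' + w) x / qf (s + 0) x * (qf (2 * s' + w) x / qf (2 * s + 0) x) - 1‖ ≤ (1 + δ) * (1 + δ) :=
    p2.trans (mul_le_mul (by linarith) (by linarith) (by positivity) (by positivity))
  have r3 : 1 + ‖qf (s' + w) (-x) / qf (s + 0) (-x) * (qf (2 * s' + w) (-x) / qf (2 * s + 0) (-x)) - 1‖ ≤
      (1 + δ) * (1 + δ) :=
    p3.trans (mul_le_mul (by linarith) (by linarith) (by positivity) (by positivity))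
  have r1 := p1.trans (mul_le_mul r2 r3 (by positivity) (by positivity))
  have t1 : ((1 + δ) * (1 + δ)) * ((1 + δ) * (1 + δ)) - 1 ≤ 15 * M ^ 3 * δ := by
    have u1 : δ ^ 2 ≤ M * δ := by rw [sq]; exact mul_le_mul_of_nonneg_right hδM hδ0
    have u2 : δ ^ 3 ≤ M ^ 2 * δ := by
      have := mul_le_mul_of_nonneg_right (pow_le_pow_left₀ hδ0 hδM 2) hδ0
      calc δ ^ 3 = δ ^ 2 * δ := by ring
        _ ≤ _ := this
    have u3 : δ ^ 4 ≤ M ^ 3 * δ := by
      have := mul_le_mul_of_nonneg_right (pow_le_pow_left₀ hδ0 hδM 3) hδ0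
      calc δ ^ 4 = δ ^ 3 * δ := by ring
        _ ≤ _ := this
    have v1 : M ≤ M ^ 3 := le_self_pow₀ hM1 (by norm_num)
    have v2 : M ^ 2 ≤ M ^ 3 := pow_le_pow_right₀ hM1 (by norm_num)
    have v3 : 1 ≤ M ^ 3 := one_le_pow₀ hM1
    have w1 : M * δ ≤ M ^ 3 * δ := mul_le_mul_of_nonneg_right v1 hδ0
    have w2 : M ^ 2 * δ ≤ M ^ 3 * δ := mul_le_mul_of_nonneg_right v2 hδ0
    have w3 : 1 * δ ≤ M ^ 3 * δ := mul_le_mul_of_nonneg_right v3 hδ0
    have e : ((1 + δ) * (1 + δ)) * ((1 + δ) * (1 + δ)) - 1 = 4 * δ + 6 * δ ^ 2 + 4 * δ ^ 3 + δ ^ 4 := by ring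
    rw [e]
    linarith
  have t2 : 15 * M ^ 3 * δ = 15 * M ^ 4 / x := by rw [hδ]; ring
  linarith

/-- rough upper bound of `Gammaℝ` -/
theorem gr_upper : ∃ M : ℝ, 1 ≤ M ∧ ∀ z : ℂ, 2 / 5 ≤ z.re → z.re ≤ 2 → ‖Gammaℝ z‖ ≤ M := by
  have hcont : ContinuousOn Real.Gamma (Set.Icc (1 / 5 : ℝ) 1) := by
    intro x hx
    have hx0 : 0 < x := by
      have := hx.1
      linarith
    exact (Real.differentiableAt_Gamma (fun m => by
      have : (0 : ℝ) ≤ m := Nat.cast_nonneg m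
      linarith)).continuousAt.continuousWithinAt
  obtain ⟨M, hM⟩ := isCompact_Icc.exists_bound_of_continuousOn hcont
  refine ⟨max M 1, le_max_right _ _, fun z h1 h2 => ?_⟩
  rw [Gammaℝ_def, norm_mul, Complex.norm_cpow_eq_rpow_re_of_pos Real.pi_pos]
  have e1 : (-z / 2).re = -(z.re / 2) := by
    simp
    ring
  have e2 : (z / 2).re = z.re / 2 := by simp
  have g1 : ‖Gamma (z / 2)‖ ≤ Real.Gamma (z.re / 2) := by
    have := gamma_upper (s := z / 2) (by rw [e2]; linarith)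
    rwa [e2] at this
  have g2 := hM (z.re / 2) ⟨by linarith, by linarith⟩
  rw [Real.norm_eq_abs] at g2
  have g3 := (le_abs_self _).trans g2
  have g4 : Real.pi ^ ((-z / 2).re) ≤ 1 := by
    rw [e1]
    apply Real.rpow_le_one_of_one_le_of_nonpos
    · linarith [Real.pi_gt_three]
    · linarith
  calc Real.pi ^ ((-z / 2).re) * ‖Gamma (z / 2)‖ ≤ 1 * M := by
        apply mul_le_mul g4 (g1.trans g3) (norm_nonneg _) (by norm_num)
    _ ≤ max M 1 := by rw [one_mul]; exact le_max_left _ _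

theorem gr_lower : ∃ m : ℝ, 0 < m ∧ ∀ x : ℝ, m * Real.exp (-(2 * |x|)) ≤ ‖Gammaℝ (1 / 2 + x * I)‖ := by
  obtain ⟨c, hc, h⟩ := gamma_quarter_lower
  refine ⟨Real.pi ^ (-(1 / 4) : ℝ) * c, by positivity, fun x => ?_⟩
  rw [Gammaℝ_def, norm_mul, Complex.norm_cpow_eq_rpow_re_of_pos Real.pi_pos, mul_assoc]
  have e1 : (-(1 / 2 + x * I : ℂ) / 2).re = -(1 / 4) := by
    simp
    norm_num
  have e2 : (1 / 2 + x * I : ℂ) / 2 = 1 / 4 + ((x / 2 : ℝ) : ℂ) * I := by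
    push_cast
    ring
  rw [e1, e2]
  apply mul_le_mul_of_nonneg_left _ (by positivity)
  refine le_trans ?_ (h (x / 2))
  apply mul_le_mul_of_nonneg_left _ hc.le
  apply Real.exp_le_exp.2
  have h1 : |x / 2| = |x| / 2 := by rw [abs_div]; norm_num
  rw [h1]
  have := Real.pi_lt_d2
  have := abs_nonneg x
  nlinarith

theorem X2_norm {x : ℝ} (hx : 0 < x) (c : ℂ) : ‖X2 x c‖ = (x / (2 * Real.pi)) ^ c.re := by
  unfold X2
  rw [Complex.norm_cpow_eq_rpow_re_of_pos (by positivity)]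

theorem X2_le {x : ℝ} (hx : 1 ≤ x) {c : ℂ} {E : ℝ} (h0 : 0 ≤ c.re) (hE : c.re ≤ E) : ‖X2 x c‖ ≤ x ^ E := by
  rw [X2_norm (by linarith)]
  have h1 : x / (2 * Real.pi) ≤ x := by
    apply div_le_self (by linarith)
    linarith [Real.pi_gt_three]
  calc (x / (2 * Real.pi)) ^ c.re ≤ x ^ c.re := Real.rpow_le_rpow (by positivity) h1 h0
    _ ≤ x ^ E := Real.rpow_le_rpow_of_exponent_le hx hE

/-- `G4 s 0 x` is not too small -/
theorem g4_lower : ∃ C : ℝ, 0 < C ∧ ∀ (s : ℂ) (x : ℝ), ‖s‖ = rho → 2 ≤ x → G4 s 0 x ≠ 0 ∧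
    ‖G4 s 0 x‖⁻¹ ≤ C * Real.exp (9 * x) := by
  obtain ⟨C, hC, h⟩ := g4_ratio
  obtain ⟨m, hm, hl⟩ := gr_lower
  have hr := rho_le
  have hr0 := rho_pos
  refine ⟨(7 + C) * (m ^ 4)⁻¹, by positivity, fun s x hs hx => ?_⟩
  have hx0 : 0 < x := by linarith
  obtain ⟨h1, h2⟩ := h s 0 0 x hx (by rw [hs]; linarith) (by simp) (by simp; linarith) (by simp)
  refine ⟨h1, ?_⟩
  have hre := (re_bd hs).1
  rw [abs_le] at hre
  have e0 : (3 * 0 - 3 * s + 2 * 0 : ℂ) = -3 * s := by ring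
  rw [e0] at h2
  have e1 : (3 * (0 - s).re + 2 * (0 : ℂ).re - 1) = -3 * s.re - 1 := by simp
  rw [e1, norm_zero, mul_zero, Real.exp_zero, mul_one] at h2
  have k1 : x ^ (-3 * s.re - 1) ≤ x := by
    calc x ^ (-3 * s.re - 1) ≤ x ^ (1 : ℝ) := Real.rpow_le_rpow_of_exponent_le (by linarith) (by linarith)
      _ = x := Real.rpow_one x
  have k2 : ‖X2 x (-3 * s)‖ ≤ 7 * x := by
    rw [X2_norm hx0]
    have e2 : (-3 * s : ℂ).re = -3 * s.re := by simp
    rw [e2]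
    by_cases hc : 1 ≤ x / (2 * Real.pi)
    · calc (x / (2 * Real.pi)) ^ (-3 * s.re) ≤ (x / (2 * Real.pi)) ^ (1 : ℝ) :=
            Real.rpow_le_rpow_of_exponent_le hc (by linarith)
        _ = x / (2 * Real.pi) := Real.rpow_one _
        _ ≤ x := by
            apply div_le_self hx0.le
            linarith [Real.pi_gt_three]
        _ ≤ 7 * x := by linarith
    · push Not at hc
      calc (x / (2 * Real.pi)) ^ (-3 * s.re) ≤ (x / (2 * Real.pi)) ^ (-1 : ℝ) :=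
            Real.rpow_le_rpow_of_exponent_ge (by positivity) hc.le (by linarith)
        _ = (2 * Real.pi) / x := by rw [Real.rpow_neg_one, inv_div]
        _ ≤ 7 * x := by
            rw [div_le_iff₀ hx0]
            have := Real.pi_lt_d2
            nlinarith
  have k3 : ‖G4 0 0 x / G4 s 0 x‖ ≤ (7 + C) * x := by
    have := norm_sub_norm_le (G4 0 0 x / G4 s 0 x) (X2 x (-3 * s))
    have k4 : C * x ^ (-3 * s.re - 1) ≤ C * x := by gcongr
    linarith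
  have k5 : m ^ 4 * Real.exp (-(8 * x)) ≤ ‖G4 0 0 x‖ := by
    unfold G4
    have l1 := hl x
    have l2 := hl (-x)
    rw [abs_neg] at l2
    rw [abs_of_pos hx0] at l1 l2
    have f1 : (1 / 2 + 0 + 0 + x * I : ℂ) = 1 / 2 + x * I := by ring
    have f2 : (1 / 2 + 2 * 0 + 0 + x * I : ℂ) = 1 / 2 + x * I := by ring
    have f3 : (1 / 2 + 0 + 0 - x * I : ℂ) = 1 / 2 + ((-x : ℝ) : ℂ) * I := by push_cast; ring
    have f4 : (1 / 2 + 2 * 0 + 0 - x * I : ℂ) = 1 / 2 + ((-x : ℝ) : ℂ) * I := by push_cast; ring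
    rw [f1, f2, f3, f4, norm_mul, norm_mul, norm_mul]
    have e3 : m ^ 4 * Real.exp (-(8 * x)) = (m * Real.exp (-(2 * x))) * (m * Real.exp (-(2 * x))) *
        ((m * Real.exp (-(2 * x))) * (m * Real.exp (-(2 * x)))) := by
      have : Real.exp (-(8 * x)) = Real.exp (-(2 * x)) * Real.exp (-(2 * x)) * (Real.exp (-(2 * x)) * Real.exp (-(2 * x))) := by
        rw [← Real.exp_add, ← Real.exp_add]
        congr 1
        ring
      rw [this]
      ring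
    rw [e3]
    gcongr
  rw [norm_div, div_eq_mul_inv] at k3
  have hg : 0 < ‖G4 0 0 x‖ := lt_of_lt_of_le (by positivity) k5
  have k6 : ‖G4 s 0 x‖⁻¹ ≤ (7 + C) * x * ‖G4 0 0 x‖⁻¹ := by
    rw [← div_eq_mul_inv, le_div_iff₀ hg, mul_comm]
    exact k3
  have k7 : ‖G4 0 0 x‖⁻¹ ≤ (m ^ 4)⁻¹ * Real.exp (8 * x) := by
    rw [inv_le_comm₀ hg (by positivity), mul_inv, inv_inv, ← Real.exp_neg]
    exact k5
  have k8 : x * Real.exp (8 * x) ≤ Real.exp (9 * x) := by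
    have : Real.exp (9 * x) = Real.exp x * Real.exp (8 * x) := by
      rw [← Real.exp_add]
      congr 1
      ring
    rw [this]
    apply mul_le_mul_of_nonneg_right _ (by positivity)
    have := Real.add_one_le_exp x
    linarith
  calc ‖G4 s 0 x‖⁻¹ ≤ (7 + C) * x * ((m ^ 4)⁻¹ * Real.exp (8 * x)) := k6.trans (by gcongr)
    _ = (7 + C) * (m ^ 4)⁻¹ * (x * Real.exp (8 * x)) := by ring
    _ ≤ _ := by gcongr

theorem g4_upper : ∃ M : ℝ, 1 ≤ M ∧ ∀ (s w : ℂ) (x : ℝ), ‖s‖ = rho → |w.re| ≤ cz → ‖G4 s w x‖ ≤ M := by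
  obtain ⟨M, hM, h⟩ := gr_upper
  have hr := rho_le
  refine ⟨M * M * (M * M), by nlinarith [mul_nonneg (by linarith : (0:ℝ) ≤ M) (by linarith : (0:ℝ) ≤ M), one_le_mul_of_one_le_of_one_le hM hM], fun s w x hs hw => ?_⟩
  obtain ⟨b1, b2, -, -⟩ := re_bd hs
  have hcz : cz = 1 / 10 ^ 5 := rfl
  rw [abs_le] at b1 b2 hw
  have r : ∀ u : ℂ, -(2 * rho) ≤ u.re → u.re ≤ 2 * rho → ∀ y : ℝ, ‖Gammaℝ (1 / 2 + u + w + y * I)‖ ≤ M := by
    intro u h1 h2 y
    apply h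
    · simp
      linarith
    · simp
      linarith
  unfold G4
  rw [norm_mul, norm_mul, norm_mul]
  have hr0 := rho_pos
  have c1 := r s (by linarith) (by linarith) x
  have c2 := r (2 * s) (by linarith) (by linarith) x
  have c3 := r s (by linarith) (by linarith) (-x)
  have c4 := r (2 * s) (by linarith) (by linarith) (-x)
  have f3 : (1 / 2 + s + w + ((-x : ℝ) : ℂ) * I : ℂ) = 1 / 2 + s + w - x * I := by push_cast; ring
  have f4 : (1 / 2 + 2 * s + w + ((-x : ℝ) : ℂ) * I : ℂ) = 1 / 2 + 2 * s + w - x * I := by push_cast; ring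
  rw [f3] at c3
  rw [f4] at c4
  gcongr

noncomputable def Rq (s s' w : ℂ) (x : ℝ) : ℂ := Qp s' w x * G4 s' w x / (Qp s 0 x * G4 s 0 x)

theorem P_bd {w : ℂ} {v : ℝ} (hw : ‖w‖ ≤ 1 + |v|) :
    (4 * (2 + ‖w‖) ^ 2) ^ 4 ≤ 256 * 3 ^ 8 * Real.exp (8 * |v|) := by
  have hv := abs_nonneg v
  have h1 : 2 + ‖w‖ ≤ 3 * (1 + |v|) := by linarith
  have h2 : (2 + ‖w‖) ^ 8 ≤ (3 * (1 + |v|)) ^ 8 := pow_le_pow_left₀ (by positivity) h1 8
  have h3 := pow_exp_bd 8 hv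
  push_cast at h3
  calc (4 * (2 + ‖w‖) ^ 2) ^ 4 = 256 * (2 + ‖w‖) ^ 8 := by ring
    _ ≤ 256 * (3 * (1 + |v|)) ^ 8 := by gcongr
    _ = 256 * 3 ^ 8 * (1 + |v|) ^ 8 := by ring
    _ ≤ _ := by gcongr

theorem w_re (v : ℝ) : ((cz : ℂ) + v * I).re = cz := by simp

theorem w_im (v : ℝ) : ((cz : ℂ) + v * I).im = v := by simp

theorem w_norm (v : ℝ) : ‖(cz : ℂ) + v * I‖ ≤ 1 + |v| := by
  have h := norm_w_le (w := (cz : ℂ) + v * I) (by rw [w_re]; unfold cz; norm_num)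
  rwa [w_im] at h

theorem expo {s s' : ℂ} (hs : ‖s‖ = rho) (hs' : ‖s'‖ = rho) (v : ℝ) :
    0 ≤ 3 * (s' - s).re + 2 * cz ∧ 3 * (s' - s).re + 2 * cz ≤ 1 / 1000 ∧
      (3 * s' - 3 * s + 2 * ((cz : ℂ) + v * I)).re = 3 * (s' - s).re + 2 * cz := by
  have h1 := (re_bd hs).1
  have h2 := (re_bd hs').1
  have hr := rho_le
  have hcz : cz = 1 / 10 ^ 5 := rfl
  rw [abs_le] at h1 h2
  refine ⟨?_, ?_, ?_⟩
  · rw [Complex.sub_re]
    linarith
  · rw [Complex.sub_re]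
    linarith
  · simp
    ring

theorem Rq_bd : ∃ C K : ℝ, 0 < C ∧ 0 < K ∧ ∀ (s s' : ℂ) (x v : ℝ), ‖s‖ = rho → ‖s'‖ = rho → 2 ≤ x →
    ‖Rq s s' (cz + v * I) x - X2 x (3 * s' - 3 * s + 2 * (cz + v * I))‖ ≤
      C * x ^ (1 / 1000 - 1 : ℝ) * Real.exp (K * |v|) := by
  obtain ⟨C0, hC0, h0⟩ := g4_ratio
  obtain ⟨C1, hC1, h1⟩ := g4_lower
  obtain ⟨M, hM, h2⟩ := g4_upper
  have hM0 : 0 < M := by linarith
  obtain ⟨A, hA⟩ : ∃ A : ℝ, A = 256 * 3 ^ 8 := ⟨_, rfl⟩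
  have hA0 : 0 < A := by rw [hA]; positivity
  refine ⟨A * (16 * C0 * Real.exp C0 + 15) + (16 * A * M * C1 * Real.exp 36 + 1) * 4, C0 + 45, by positivity, by positivity, ?_⟩
  intro s s' x v hs hs' hx
  have hx0 : 0 < x := by linarith
  have hv := abs_nonneg v
  have hr := rho_le
  obtain ⟨w, hw⟩ : ∃ w : ℂ, w = cz + v * I := ⟨_, rfl⟩
  have hwre : w.re = cz := by rw [hw, w_re]
  have hwn : ‖w‖ ≤ 1 + |v| := by rw [hw]; exact w_norm v
  obtain ⟨e1, e2, e3⟩ := expo hs hs' v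
  rw [← hw] at e3 ⊢
  obtain ⟨P, hP⟩ : ∃ P : ℝ, P = (4 * (2 + ‖w‖) ^ 2) ^ 4 := ⟨_, rfl⟩
  have hPA : P ≤ A * Real.exp (8 * |v|) := by rw [hP, hA]; exact P_bd hwn
  have hP1 : 1 ≤ P := by
    rw [hP]
    apply one_le_pow₀
    have := norm_nonneg w
    nlinarith
  have hQ := Qp_ratio hs hs' hx w
  rw [← hP] at hQ
  have hQn : ‖Qp s' w x / Qp s 0 x‖ ≤ 16 * P := by
    have k1 := norm_sub_norm_le (Qp s' w x / Qp s 0 x) 1
    rw [norm_one] at k1
    have k2 : 15 * P / x ≤ 15 * P := div_le_self (by linarith) (by linarith)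
    linarith
  have hXn : ‖X2 x (3 * s' - 3 * s + 2 * w)‖ ≤ x ^ (1 / 1000 : ℝ) :=
    X2_le (by linarith) (by rw [e3]; exact e1) (by rw [e3]; exact e2)
  have hRe : Rq s s' w x = (Qp s' w x / Qp s 0 x) * (G4 s' w x / G4 s 0 x) := by
    unfold Rq
    rw [div_mul_div_comm]
  have hpow : x ^ (1 / 1000 : ℝ) = x * x ^ (1 / 1000 - 1 : ℝ) := by
    have := Real.rpow_add hx0 1 (1 / 1000 - 1)
    rw [Real.rpow_one] at this
    rw [← this]
    congr 1
    ring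
  obtain ⟨Y, hY⟩ : ∃ Y : ℝ, Y = x ^ (1 / 1000 - 1 : ℝ) := ⟨_, rfl⟩
  have hY0 : 0 < Y := by rw [hY]; positivity
  rw [← hY] at hpow ⊢
  have hE : Real.exp ((C0 + 45) * |v|) = Real.exp (8 * |v|) * Real.exp (C0 * |v|) * Real.exp (37 * |v|) := by
    rw [← Real.exp_add, ← Real.exp_add]
    congr 1
    ring
  have o1 : 1 ≤ Real.exp (8 * |v|) := Real.one_le_exp (by positivity)
  have o2 : 1 ≤ Real.exp (C0 * |v|) := Real.one_le_exp (by positivity)
  have o3 : 1 ≤ Real.exp (37 * |v|) := Real.one_le_exp (by positivity)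
  by_cases hc : ‖w‖ ≤ x / 4
  · obtain ⟨-, g2⟩ := h0 s s' w x hx (by rw [hs]; linarith) (by rw [hs']; linarith) hc (by rw [hwre]; unfold cz; norm_num)
    rw [hwre] at g2
    have g3 : ‖G4 s' w x / G4 s 0 x - X2 x (3 * s' - 3 * s + 2 * w)‖ ≤ C0 * Y * (Real.exp C0 * Real.exp (C0 * |v|)) := by
      refine g2.trans ?_
      have k1 : x ^ (3 * (s' - s).re + 2 * cz - 1) ≤ Y := by
        rw [hY]
        exact Real.rpow_le_rpow_of_exponent_le (by linarith) (by linarith)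
      have k2 : Real.exp (C0 * ‖w‖) ≤ Real.exp C0 * Real.exp (C0 * |v|) := by
        rw [← Real.exp_add]
        apply Real.exp_le_exp.2
        have := mul_le_mul_of_nonneg_left hwn hC0.le
        linarith
      gcongr
    have g4 : Rq s s' w x - X2 x (3 * s' - 3 * s + 2 * w) =
        (Qp s' w x / Qp s 0 x) * (G4 s' w x / G4 s 0 x - X2 x (3 * s' - 3 * s + 2 * w)) +
        (Qp s' w x / Qp s 0 x - 1) * X2 x (3 * s' - 3 * s + 2 * w) := by
      rw [hRe]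
      ring
    rw [g4]
    refine (norm_add_le _ _).trans ?_
    rw [norm_mul, norm_mul]
    have g5 : ‖Qp s' w x / Qp s 0 x - 1‖ * ‖X2 x (3 * s' - 3 * s + 2 * w)‖ ≤ 15 * P * Y := by
      calc _ ≤ (15 * P / x) * x ^ (1 / 1000 : ℝ) := by gcongr
        _ = 15 * P * Y := by
            rw [hpow]
            field_simp
    have g6 : ‖Qp s' w x / Qp s 0 x‖ * ‖G4 s' w x / G4 s 0 x - X2 x (3 * s' - 3 * s + 2 * w)‖ ≤
        16 * P * (C0 * Y * (Real.exp C0 * Real.exp (C0 * |v|))) := by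
      gcongr
    calc _ ≤ 16 * P * (C0 * Y * (Real.exp C0 * Real.exp (C0 * |v|))) + 15 * P * Y := add_le_add g6 g5
      _ ≤ 16 * (A * Real.exp (8 * |v|)) * (C0 * Y * (Real.exp C0 * Real.exp (C0 * |v|))) +
          15 * (A * Real.exp (8 * |v|)) * Y := by gcongr
      _ ≤ 16 * (A * Real.exp (8 * |v|)) * (C0 * Y * (Real.exp C0 * Real.exp (C0 * |v|))) * Real.exp (37 * |v|) +
          15 * (A * Real.exp (8 * |v|)) * Y * (Real.exp (C0 * |v|) * Real.exp (37 * |v|)) := by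
          apply add_le_add
          · exact le_mul_of_one_le_right (by positivity) o3
          · exact le_mul_of_one_le_right (by positivity) (one_le_mul_of_one_le_of_one_le o2 o3)
      _ = A * (16 * C0 * Real.exp C0 + 15) * Y * Real.exp ((C0 + 45) * |v|) := by
          rw [hE]
          ring
      _ ≤ _ := by
          have : 0 ≤ (16 * A * M * C1 * Real.exp 36 + 1) * 4 := by positivity
          exact mul_le_mul_of_nonneg_right (mul_le_mul_of_nonneg_right (by linarith) hY0.le) (Real.exp_pos _).le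
  · push Not at hc
    obtain ⟨-, g2⟩ := h1 s x hs hx
    have g3 := h2 s' w x hs' (by rw [hwre]; unfold cz; norm_num)
    have k0 : x ≤ 4 * ‖w‖ := by linarith
    have k1 : Real.exp (9 * x) ≤ Real.exp 36 * Real.exp (36 * |v|) := by
      rw [← Real.exp_add]
      apply Real.exp_le_exp.2
      linarith
    have k2 : x ≤ 4 * Real.exp |v| := by
      have := Real.add_one_le_exp |v|
      linarith
    have k3 : ‖Rq s s' w x‖ ≤ 16 * P * (M * (C1 * (Real.exp 36 * Real.exp (36 * |v|)))) := by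
      rw [hRe, norm_mul, norm_div (G4 s' w x)]
      refine mul_le_mul hQn ?_ (by positivity) (by positivity)
      rw [div_eq_mul_inv]
      refine mul_le_mul g3 (g2.trans ?_) (by positivity) (by positivity)
      gcongr
    have k4 : x ^ (1 / 1000 : ℝ) ≤ 4 * Real.exp |v| * Y := by
      rw [hpow]
      gcongr
    have k5 : 1 ≤ x ^ (1 / 1000 : ℝ) := Real.one_le_rpow (by linarith) (by norm_num)
    have hE2 : Real.exp (37 * |v|) = Real.exp (36 * |v|) * Real.exp |v| := by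
      rw [← Real.exp_add]
      congr 1
      ring
    have o4 : 1 ≤ Real.exp (36 * |v|) := Real.one_le_exp (by positivity)
    have o5 : 1 ≤ Real.exp |v| := Real.one_le_exp hv
    have k6 : ‖X2 x (3 * s' - 3 * s + 2 * w)‖ ≤ 4 * Real.exp |v| * Y := hXn.trans k4
    have k7 : ‖Rq s s' w x‖ ≤ 16 * (A * Real.exp (8 * |v|)) * (M * (C1 * (Real.exp 36 * Real.exp (36 * |v|)))) *
        (4 * Real.exp |v| * Y) := by
      refine k3.trans ?_
      calc 16 * P * (M * (C1 * (Real.exp 36 * Real.exp (36 * |v|))))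
          ≤ 16 * (A * Real.exp (8 * |v|)) * (M * (C1 * (Real.exp 36 * Real.exp (36 * |v|)))) := by gcongr
        _ ≤ _ := le_mul_of_one_le_right (by positivity) (k5.trans k4)
    refine (norm_sub_le _ _).trans ?_
    calc _ ≤ 16 * (A * Real.exp (8 * |v|)) * (M * (C1 * (Real.exp 36 * Real.exp (36 * |v|)))) *
        (4 * Real.exp |v| * Y) + 4 * Real.exp |v| * Y := add_le_add k7 k6
      _ ≤ 16 * (A * Real.exp (8 * |v|)) * (M * (C1 * (Real.exp 36 * Real.exp (36 * |v|)))) *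
        (4 * Real.exp |v| * Y) * Real.exp (C0 * |v|) +
        4 * Real.exp |v| * Y * (Real.exp (8 * |v|) * Real.exp (C0 * |v|) * Real.exp (36 * |v|)) := by
          apply add_le_add
          · exact le_mul_of_one_le_right (by positivity) o2
          · exact le_mul_of_one_le_right (by positivity)
              (one_le_mul_of_one_le_of_one_le (one_le_mul_of_one_le_of_one_le o1 o2) o4)
      _ = (16 * A * M * C1 * Real.exp 36 + 1) * 4 * Y * Real.exp ((C0 + 45) * |v|) := by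
          rw [hE, hE2]
          ring
      _ ≤ _ := by
          have : 0 ≤ A * (16 * C0 * Real.exp C0 + 15) := by positivity
          exact mul_le_mul_of_nonneg_right (mul_le_mul_of_nonneg_right (by linarith) hY0.le) (Real.exp_pos _).le

/-! ### the formula for `FF` -/

theorem Fx_eq {s w : ℂ} {x : ℝ} (h1 : 0 < (1 / 2 + s + w).re) (h1' : (1 / 2 + s + w).re < 1)
    (h2 : 0 < (1 / 2 + 2 * s + w).re) (h2' : (1 / 2 + 2 * s + w).re < 1) :
    Fx s x w = pl s w * (Qp s w x * G4 s w x * L4 s w x) := by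
  have key : ∀ (u : ℂ), 0 < (1 / 2 + u + w).re → (1 / 2 + u + w).re < 1 → ∀ y : ℝ,
      xi0 (1 / 2 + u + w + y * I) = qf (u + w) y * (Gammaℝ (1 / 2 + u + w + y * I) *
        riemannZeta (1 / 2 + u + w + y * I)) := by
    intro u a1 a2 y
    have hre : (1 / 2 + u + w + y * I).re = (1 / 2 + u + w).re := by
      rw [Complex.add_re (1 / 2 + u + w), Complex.re_ofReal_mul, Complex.I_re]
      simp
    have hne : 1 / 2 + u + w + y * I ≠ 1 := by
      intro h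
      have := congrArg Complex.re h
      rw [hre, Complex.one_re] at this
      linarith
    rw [xi0_eq (by rw [hre]; exact a1) hne]
    unfold qf
    have : (1 / 2 + (u + w) + y * I : ℂ) = 1 / 2 + u + w + y * I := by ring
    rw [this]
  have k1 := key s h1 h1' x
  have k2 := key (2 * s) h2 h2' x
  have k3 := key s h1 h1' (-x)
  have k4 := key (2 * s) h2 h2' (-x)
  have f3 : (1 / 2 + s + w + ((-x : ℝ) : ℂ) * I : ℂ) = 1 / 2 + s + w - x * I := by push_cast; ring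
  have f4 : (1 / 2 + 2 * s + w + ((-x : ℝ) : ℂ) * I : ℂ) = 1 / 2 + 2 * s + w - x * I := by push_cast; ring
  rw [f3] at k3
  rw [f4] at k4
  unfold Fx Qp G4 L4
  rw [k1, k2, k3, k4]
  ring

theorem re_range {s : ℂ} (hs : ‖s‖ = rho) {c : ℝ} (h0 : 0 ≤ c) (hc : c ≤ 1 / 4) (v : ℝ) :
    0 < (1 / 2 + s + ((c : ℂ) + v * I)).re ∧ (1 / 2 + s + ((c : ℂ) + v * I)).re < 1 ∧
    0 < (1 / 2 + 2 * s + ((c : ℂ) + v * I)).re ∧ (1 / 2 + 2 * s + ((c : ℂ) + v * I)).re < 1 := by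
  have h1 := (re_bd hs).1
  have hr := rho_le
  rw [abs_le] at h1
  have e1 : (1 / 2 + s + ((c : ℂ) + v * I)).re = 1 / 2 + s.re + c := by simp
  have e2 : (1 / 2 + 2 * s + ((c : ℂ) + v * I)).re = 1 / 2 + 2 * s.re + c := by simp
  rw [e1, e2]
  refine ⟨?_, ?_, ?_, ?_⟩ <;> linarith

noncomputable def Qc (s : ℂ) (v : ℝ) : ℂ := Gw s (cz + v * I) / (cz + v * I)

theorem Qc_neg (s : ℂ) (v : ℝ) : Qc (-s) v = Qc s v := by
  unfold Qc
  rw [Gw_neg]

theorem integrand_eq {s s' : ℂ} (hs' : ‖s'‖ = rho) (hss : pl s' = pl s) (x : ℝ)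
    (hD : Qp s 0 x * G4 s 0 x ≠ 0) (v : ℝ) :
    Fx s' x (cz + v * I) * cexp ((cz + v * I) ^ 2) / (cz + v * I) =
      (Qp s 0 x * G4 s 0 x) * (Qc s v * Rq s s' (cz + v * I) x * L4 s' (cz + v * I) x) := by
  obtain ⟨r1, r2, r3, r4⟩ := re_range hs' (c := cz) cz_pos.le (by unfold cz; norm_num) v
  rw [Fx_eq r1 r2 r3 r4, hss]
  unfold Qc Rq
  rw [Gw_eq]
  generalize Qp s 0 x * G4 s 0 x = D at hD ⊢
  have hw : (cz : ℂ) + v * I ≠ 0 := by
    intro h
    have := congrArg Complex.re h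
    rw [w_re] at this
    simp at this
    have := cz_pos
    linarith
  field_simp

theorem FF_eq {s : ℂ} (hs : ‖s‖ = rho) {x : ℝ} (hx : 2 ≤ x) :
    Integrable (fun v : ℝ => Qc s v * Rq s s (cz + v * I) x * L4 s (cz + v * I) x) ∧
    Integrable (fun v : ℝ => Qc s v * Rq s (-s) (cz + v * I) x * L4 (-s) (cz + v * I) x) ∧
    FF s x = (2 * Real.pi : ℂ)⁻¹ * (∫ v : ℝ, Qc s v * Rq s s (cz + v * I) x * L4 s (cz + v * I) x) +
      (2 * Real.pi : ℂ)⁻¹ * ∫ v : ℝ, Qc s v * Rq s (-s) (cz + v * I) x * L4 (-s) (cz + v * I) x := by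
  obtain ⟨C1, hC1, h1⟩ := g4_lower
  have hD : Qp s 0 x * G4 s 0 x ≠ 0 := mul_ne_zero (Qp_ne hs hx) (h1 s x hs hx).1
  have hs' : ‖-s‖ = rho := by rw [norm_neg, hs]
  have hpl : pl (-s) = pl s := by
    funext w
    rw [← pl_neg]
    unfold pl
    rw [neg_sq]
  have hpi : (2 * Real.pi : ℂ) ≠ 0 := by exact_mod_cast (by positivity : (2 * Real.pi : ℝ) ≠ 0)
  have i1 := fun v => integrand_eq (s := s) (s' := s) hs rfl x hD v
  have i2 := fun v => integrand_eq (s := s) (s' := -s) hs' hpl x hD v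
  have hex := exact s hs x
  simp_rw [i1, i2] at hex
  rw [integral_const_mul, integral_const_mul] at hex
  -- the value at zero
  have h0 : Fx s x 0 = (Qp s 0 x * G4 s 0 x) * FF s x := by
    obtain ⟨r1, r2, r3, r4⟩ := re_range hs (c := 0) le_rfl (by norm_num) 0
    have e : ((0 : ℝ) : ℂ) + ((0 : ℝ) : ℂ) * I = 0 := by simp
    rw [e] at r1 r2 r3 r4
    rw [Fx_eq r1 r2 r3 r4, pl_zero]
    unfold L4 FF
    simp only [add_zero, one_mul]
  -- integrability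
  have hint : ∀ s' : ℂ, ‖s'‖ = rho → Integrable (fun v : ℝ => Fx s' x (cz + v * I) * cexp ((cz + v * I) ^ 2) / (cz + v * I)) := by
    intro s' hs'
    obtain ⟨K, hK⟩ := Fx_bound hs' x
    have hne : ∀ v : ℝ, (cz : ℂ) + v * I ≠ 0 := by
      intro v h
      have := congrArg Complex.re h
      rw [w_re] at this
      simp at this
      have := cz_pos
      linarith
    have hcont : Continuous (fun v : ℝ => Fx s' x (cz + v * I) * cexp ((cz + v * I) ^ 2) / (cz + v * I)) := by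
      refine Continuous.div ?_ (by fun_prop) hne
      exact ((Fx_diff s' x).continuous.comp (by fun_prop)).mul (by fun_prop)
    have hK0 : 0 ≤ K := by
      have := (norm_nonneg _).trans (hK 0 (by simp [cz_pos.le]) (by simp [cz_pos.le]))
      exact nonneg_of_mul_nonneg_left this (Real.exp_pos _)
    have hg : Integrable fun v : ℝ => K * Real.exp (cz ^ 2 + K ^ 2) * cz⁻¹ * Real.exp (-(1 / 2) * v ^ 2) :=
      (integrable_exp_neg_mul_sq (by norm_num)).const_mul _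
    refine hg.mono' hcont.aestronglyMeasurable (Filter.Eventually.of_forall fun v => ?_)
    have k1 := hK (cz + v * I) (by rw [w_re]; linarith [cz_pos]) (by rw [w_re])
    rw [w_im] at k1
    have k2 : ‖cexp (((cz : ℂ) + v * I) ^ 2)‖ = Real.exp (cz ^ 2 - v ^ 2) := WMellinAux.norm_exp_sq cz v
    have k3 : cz ≤ ‖(cz : ℂ) + v * I‖ := by
      have := Complex.abs_re_le_norm ((cz : ℂ) + v * I)
      rw [w_re, abs_of_pos cz_pos] at this
      exact this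
    rw [norm_div, norm_mul, k2, div_eq_mul_inv]
    have k4 : ‖(cz : ℂ) + v * I‖⁻¹ ≤ cz⁻¹ := inv_anti₀ cz_pos k3
    have k5 : Real.exp (K * |v|) * Real.exp (cz ^ 2 - v ^ 2) ≤ Real.exp (cz ^ 2 + K ^ 2) * Real.exp (-(1 / 2) * v ^ 2) := by
      rw [← Real.exp_add, ← Real.exp_add]
      apply Real.exp_le_exp.2
      have := sq_nonneg (K - |v|)
      have e : v ^ 2 = |v| ^ 2 := (sq_abs v).symm
      nlinarith
    have hcz := cz_pos
    calc ‖Fx s' x (cz + v * I)‖ * Real.exp (cz ^ 2 - v ^ 2) * ‖(cz : ℂ) + v * I‖⁻¹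
        ≤ (K * Real.exp (K * |v|)) * Real.exp (cz ^ 2 - v ^ 2) * cz⁻¹ := by gcongr
      _ = K * (Real.exp (K * |v|) * Real.exp (cz ^ 2 - v ^ 2)) * cz⁻¹ := by ring
      _ ≤ K * (Real.exp (cz ^ 2 + K ^ 2) * Real.exp (-(1 / 2) * v ^ 2)) * cz⁻¹ := by gcongr
      _ = _ := by ring
  refine ⟨?_, ?_, ?_⟩
  · refine ((hint s hs).const_mul (Qp s 0 x * G4 s 0 x)⁻¹).congr (Filter.Eventually.of_forall fun v => ?_)
    simp only
    rw [i1, ← mul_assoc, inv_mul_cancel₀ hD, one_mul]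
  · refine ((hint (-s) hs').const_mul (Qp s 0 x * G4 s 0 x)⁻¹).congr (Filter.Eventually.of_forall fun v => ?_)
    simp only
    rw [i2, ← mul_assoc, inv_mul_cancel₀ hD, one_mul]
  · rw [h0] at hex
    have e3 : (Qp s 0 x * G4 s 0 x) * (2 * Real.pi * FF s x) = (Qp s 0 x * G4 s 0 x) *
        ((∫ v : ℝ, Qc s v * Rq s s (cz + v * I) x * L4 s (cz + v * I) x) +
        ∫ v : ℝ, Qc s v * Rq s (-s) (cz + v * I) x * L4 (-s) (cz + v * I) x) := by
      linear_combination -hex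
    have e4 := mul_left_cancel₀ hD e3
    rw [← mul_add, ← e4, ← mul_assoc, inv_mul_cancel₀ hpi, one_mul]

/-! ### rough bound and the moment of `L4` -/

theorem L4_crude : ∃ C : ℝ, 0 < C ∧ ∀ (s w : ℂ) (x : ℝ), ‖s‖ = rho → 0 ≤ w.re → w.re ≤ 2 →
    (w.re ≤ 1 / 4 ∨ 3 / 4 ≤ w.re ∨ (2 ≤ x ∧ |w.im| ≤ x / 4)) →
    ‖L4 s w x‖ ≤ C * (2 + |w.im| + |x|) ^ 4 := by
  obtain ⟨C, hC, h⟩ := zeta_bound_im (2 / 5) (by norm_num)
  have hr := rho_le
  refine ⟨C ^ 4, by positivity, fun s w x hs h0 h1 hc => ?_⟩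
  obtain ⟨b1, b2, b3, b4⟩ := re_bd hs
  have hr0 := rho_pos
  have key : ∀ u : ℂ, |u.re| ≤ 2 * rho → |u.im| ≤ 2 * rho → ∀ y : ℝ, |y| = |x| →
      ‖riemannZeta (1 / 2 + u + w + y * I)‖ ≤ C * (2 + |w.im| + |x|) := by
    intro u hu1 hu2 y hy
    have hre : (1 / 2 + u + w + y * I).re = 1 / 2 + u.re + w.re := by
      rw [Complex.add_re (1 / 2 + u + w), Complex.re_ofReal_mul, Complex.I_re]
      simp
    have him : (1 / 2 + u + w + y * I).im = u.im + w.im + y := by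
      rw [Complex.add_im (1 / 2 + u + w), Complex.im_ofReal_mul, Complex.I_im]
      simp
    have hu1' := abs_le.1 hu1
    have hu2' := abs_le.1 hu2
    have hd : 1 / 10 ≤ ‖(1 / 2 + u + w + y * I) - 1‖ := by
      have n1 := Complex.abs_re_le_norm ((1 / 2 + u + w + y * I) - 1)
      have n2 := Complex.abs_im_le_norm ((1 / 2 + u + w + y * I) - 1)
      rw [Complex.sub_re, hre, Complex.one_re] at n1
      rw [Complex.sub_im, him, Complex.one_im] at n2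
      rcases hc with hc | hc | ⟨hc1, hc2⟩
      · have := neg_abs_le (1 / 2 + u.re + w.re - 1)
        linarith
      · have := le_abs_self (1 / 2 + u.re + w.re - 1)
        linarith
      · have m1 := abs_sub_abs_le_abs_sub y (-(u.im + w.im))
        have e : y - -(u.im + w.im) = u.im + w.im + y - 0 := by ring
        rw [e] at m1
        have m2 : |-(u.im + w.im)| ≤ |u.im| + |w.im| := by
          rw [abs_neg]
          exact abs_add_le _ _
        have m3 : |y| = x := by rw [hy, abs_of_nonneg (by linarith)]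
        linarith
    refine (h _ (by rw [hre]; linarith) (by rw [hre]; linarith) hd).trans ?_
    apply mul_le_mul_of_nonneg_left _ hC.le
    rw [him]
    have m1 := abs_add_le (u.im + w.im) y
    have m2 := abs_add_le u.im w.im
    linarith
  have b1' : |s.re| ≤ 2 * rho := by linarith
  have b3' : |s.im| ≤ 2 * rho := by linarith
  have k1 := key s b1' b3' x rfl
  have k2 := key (2 * s) b2 b4 x rfl
  have k3 := key s b1' b3' (-x) (abs_neg x)
  have k4 := key (2 * s) b2 b4 (-x) (abs_neg x)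
  have f3 : (1 / 2 + s + w + ((-x : ℝ) : ℂ) * I : ℂ) = 1 / 2 + s + w - x * I := by push_cast; ring
  have f4 : (1 / 2 + 2 * s + w + ((-x : ℝ) : ℂ) * I : ℂ) = 1 / 2 + 2 * s + w - x * I := by push_cast; ring
  rw [f3] at k3
  rw [f4] at k4
  unfold L4
  rw [norm_mul, norm_mul, norm_mul]
  calc _ ≤ (C * (2 + |w.im| + |x|)) * (C * (2 + |w.im| + |x|)) *
        ((C * (2 + |w.im| + |x|)) * (C * (2 + |w.im| + |x|))) := by gcongr
    _ = _ := by ring

theorem zeta_cont_line {X : Type*} [TopologicalSpace X] {f : X → ℂ} (hf : Continuous f) (h1 : ∀ p, (f p).re ≠ 1) :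
    Continuous fun p => riemannZeta (f p) := by
  refine continuous_iff_continuousAt.2 fun p => ?_
  refine ContinuousAt.comp (g := riemannZeta) ?_ hf.continuousAt
  refine (differentiableAt_riemannZeta ?_).continuousAt
  intro h
  apply h1 p
  rw [h]
  simp

theorem L4c_cont {s : ℂ} (hs : ‖s‖ = rho) : Continuous fun p : ℝ × ℝ => L4 s (cz + p.2 * I) p.1 := by
  have h1 := (re_bd hs).1
  have hr := rho_le
  have hcz : cz = 1 / 10 ^ 5 := rfl
  rw [abs_le] at h1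
  unfold L4
  refine ((zeta_cont_line (by fun_prop) fun p => ?_).mul (zeta_cont_line (by fun_prop) fun p => ?_)).mul
    ((zeta_cont_line (by fun_prop) fun p => ?_).mul (zeta_cont_line (by fun_prop) fun p => ?_))
  all_goals
    apply ne_of_lt
    simp
    linarith

theorem amgm (a b c d : ℝ) :
    a * b * (c * d) ≤ a ^ 4 + b ^ 4 + (c ^ 4 + d ^ 4) := by
  nlinarith [sq_nonneg (a * b - c * d), sq_nonneg (a ^ 2 - b ^ 2), sq_nonneg (c ^ 2 - d ^ 2), sq_nonneg (a * b),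
    sq_nonneg (c * d), sq_nonneg (a ^ 2), sq_nonneg (b ^ 2), sq_nonneg (c ^ 2), sq_nonneg (d ^ 2)]

theorem lint4 {S : Set ℝ} {f1 f2 f3 f4 : ℝ → ENNReal} (h1 : Measurable f1) (h2 : Measurable f2) (h3 : Measurable f3) :
    ∫⁻ x in S, ((f1 x + f2 x) + (f3 x + f4 x)) =
      ((∫⁻ x in S, f1 x) + ∫⁻ x in S, f2 x) + ((∫⁻ x in S, f3 x) + ∫⁻ x in S, f4 x) := by
  have h12 : Measurable fun x => f1 x + f2 x := h1.add h2
  rw [lintegral_add_left h12, lintegral_add_left h1, lintegral_add_left h3]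

/-- one factor -/
theorem one_factor : ∃ C : ℝ, 0 < C ∧ ∀ (U σ c : ℝ) (S : Set ℝ), 8 ≤ U → 1 / 2 + cz / 2 ≤ σ → σ ≤ 1 → σ ≠ 1 →
    (∀ x ∈ S, U / 4 ≤ x + c ∧ x + c ≤ 12 * U) → MeasurableSet S →
    ∫⁻ x in S, ENNReal.ofReal (‖riemannZeta (σ + ((x + c : ℝ) : ℂ) * I)‖ ^ 4) ≤ ENNReal.ofReal (C * U ^ (1 + 1 / 100 : ℝ)) := by
  have hcz := cz_pos
  obtain ⟨C, hC, h⟩ := zmom (cz / 2) (1 / 100) (by positivity) (by norm_num)
  refine ⟨C, hC, fun U σ c S hU h1 h2 h3 hS hSm => ?_⟩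
  have hm := h U σ (U / 4) (12 * U) hU h1 (by linarith) le_rfl (by linarith) le_rfl
  have hcont : Continuous fun y : ℝ => ‖riemannZeta (σ + (y : ℂ) * I)‖ ^ 4 := by
    refine (Continuous.norm (zeta_cont_line (by fun_prop) fun p => ?_)).pow 4
    simpa using h3
  calc ∫⁻ x in S, ENNReal.ofReal (‖riemannZeta (σ + ((x + c : ℝ) : ℂ) * I)‖ ^ 4)
      = ∫⁻ x, S.indicator (fun x => ENNReal.ofReal (‖riemannZeta (σ + ((x + c : ℝ) : ℂ) * I)‖ ^ 4)) x := by
        rw [lintegral_indicator hSm]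
    _ ≤ ∫⁻ x, (Set.Icc (U / 4) (12 * U)).indicator (fun y => ENNReal.ofReal (‖riemannZeta (σ + ((y : ℝ) : ℂ) * I)‖ ^ 4)) (x + c) := by
        refine lintegral_mono fun x => ?_
        by_cases hx : x ∈ S
        · rw [Set.indicator_of_mem hx, Set.indicator_of_mem (Set.mem_Icc.2 (hS x hx))]
        · rw [Set.indicator_of_notMem hx]
          exact bot_le
    _ = ∫⁻ x, (Set.Icc (U / 4) (12 * U)).indicator (fun y => ENNReal.ofReal (‖riemannZeta (σ + ((y : ℝ) : ℂ) * I)‖ ^ 4)) x :=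
        lintegral_add_right_eq_self (fun x => (Set.Icc (U / 4) (12 * U)).indicator
          (fun y => ENNReal.ofReal (‖riemannZeta (σ + ((y : ℝ) : ℂ) * I)‖ ^ 4)) x) c
    _ = ∫⁻ x in Set.Icc (U / 4) (12 * U), ENNReal.ofReal (‖riemannZeta (σ + ((x : ℝ) : ℂ) * I)‖ ^ 4) := by
        rw [lintegral_indicator measurableSet_Icc]
    _ = ENNReal.ofReal (∫ x in Set.Icc (U / 4) (12 * U), ‖riemannZeta (σ + ((x : ℝ) : ℂ) * I)‖ ^ 4) := by
        rw [ofReal_integral_eq_lintegral_ofReal]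
        · exact hcont.continuousOn.integrableOn_Icc
        · exact Filter.Eventually.of_forall fun x => by positivity
    _ ≤ _ := by
        apply ENNReal.ofReal_le_ofReal
        rw [integral_Icc_eq_integral_Ioc, ← intervalIntegral.integral_of_le (by linarith)]
        exact hm

theorem inner_mom : ∃ C : ℝ, 0 < C ∧ ∀ (U v : ℝ) (s : ℂ), 1 ≤ U → ‖s‖ = rho →
    ∫⁻ x in Set.Icc (U / 2) (8 * U), ‖L4 s (cz + v * I) x‖ₑ ≤
      ENNReal.ofReal (C * (1 + |v|) ^ 4 * U ^ (1 + 1 / 100 : ℝ)) := by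
  obtain ⟨C1, hC1, h1⟩ := L4_crude
  obtain ⟨C2, hC2, h2⟩ := one_factor
  refine ⟨C1 * 8 ^ 4 * 64 * 16 ^ 4 + 4 * C2, by positivity, fun U v s hU hs => ?_⟩
  have hv := abs_nonneg v
  have hr := rho_le
  have hr0 := rho_pos
  have hcz : cz = 1 / 10 ^ 5 := rfl
  have hU0 : 0 < U := by linarith
  have hUp : U ≤ U ^ (1 + 1 / 100 : ℝ) := by
    calc U = U ^ (1 : ℝ) := (Real.rpow_one U).symm
      _ ≤ _ := Real.rpow_le_rpow_of_exponent_le hU (by norm_num)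
  have hv4 : 1 ≤ (1 + |v|) ^ 4 := one_le_pow₀ (by linarith)
  have hcr : ∀ x, ‖L4 s (cz + v * I) x‖ ≤ C1 * (2 + |v| + |x|) ^ 4 := by
    intro x
    have := h1 s (cz + v * I) x hs (by rw [w_re]; exact cz_pos.le) (by rw [w_re, hcz]; norm_num)
      (Or.inl (by rw [w_re, hcz]; norm_num))
    rwa [w_im] at this
  by_cases hU8 : U < 8
  · calc ∫⁻ x in Set.Icc (U / 2) (8 * U), ‖L4 s (cz + v * I) x‖ₑ
        ≤ ∫⁻ x in Set.Icc (U / 2) (8 * U), ENNReal.ofReal (C1 * (66 * (1 + |v|)) ^ 4) := by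
          refine setLIntegral_mono' measurableSet_Icc fun x hx => ?_
          rw [← ofReal_norm]
          apply ENNReal.ofReal_le_ofReal
          refine (hcr x).trans ?_
          have hx0 : |x| ≤ 64 := by
            rw [abs_of_nonneg (by linarith [hx.1])]
            linarith [hx.2]
          have : 2 + |v| + |x| ≤ 66 * (1 + |v|) := by linarith
          gcongr
      _ = ENNReal.ofReal (C1 * (66 * (1 + |v|)) ^ 4) * volume (Set.Icc (U / 2) (8 * U)) := by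
          rw [setLIntegral_const]
      _ = ENNReal.ofReal (C1 * (66 * (1 + |v|)) ^ 4 * (8 * U - U / 2)) := by
          rw [Real.volume_Icc, ← ENNReal.ofReal_mul (by positivity)]
      _ ≤ _ := by
          apply ENNReal.ofReal_le_ofReal
          calc C1 * (66 * (1 + |v|)) ^ 4 * (8 * U - U / 2) ≤ C1 * (66 * (1 + |v|)) ^ 4 * (8 * U) := by
                gcongr
                linarith
            _ = (C1 * (66 ^ 4 * 8)) * (1 + |v|) ^ 4 * U := by ring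
            _ ≤ (C1 * 8 ^ 4 * 64 * 16 ^ 4) * (1 + |v|) ^ 4 * U ^ (1 + 1 / 100 : ℝ) := by
                refine mul_le_mul (mul_le_mul_of_nonneg_right ?_ (by positivity)) hUp hU0.le (by positivity)
                linarith
            _ ≤ _ := by
                gcongr
                linarith
  push Not at hU8
  obtain ⟨b1, b2, b3, b4⟩ := re_bd hs
  set S : Set ℝ := Set.Icc (U / 2) (8 * U) with hS
  set S1 : Set ℝ := S ∩ {x | 4 * |v| ≤ x} with hS1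
  set S2 : Set ℝ := S ∩ {x | x < 4 * |v|} with hS2
  have hS1m : MeasurableSet S1 := measurableSet_Icc.inter (measurableSet_le measurable_const measurable_id)
  have hS2m : MeasurableSet S2 := measurableSet_Icc.inter (measurableSet_lt measurable_id measurable_const)
  have hcov : S ⊆ S1 ∪ S2 := by
    intro x hx
    by_cases h : 4 * |v| ≤ x
    · exact Or.inl ⟨hx, h⟩
    · exact Or.inr ⟨hx, not_le.1 h⟩
  have hA : ∫⁻ x in S2, ‖L4 s (cz + v * I) x‖ₑ ≤ ENNReal.ofReal (C1 * 8 ^ 4 * 64 * 16 ^ 4 * (1 + |v|) ^ 4 * U ^ (1 + 1 / 100 : ℝ)) := by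
    calc ∫⁻ x in S2, ‖L4 s (cz + v * I) x‖ₑ
        ≤ ∫⁻ x in S2, ENNReal.ofReal (C1 * (8 * (1 + |v|)) ^ 4) := by
          refine setLIntegral_mono' hS2m fun x hx => ?_
          rw [← ofReal_norm]
          apply ENNReal.ofReal_le_ofReal
          refine (hcr x).trans ?_
          have hx0 : |x| ≤ 4 * |v| := by
            rw [abs_of_nonneg (by linarith [hx.1.1])]
            exact le_of_lt hx.2
          have : 2 + |v| + |x| ≤ 8 * (1 + |v|) := by linarith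
          gcongr
      _ = ENNReal.ofReal (C1 * (8 * (1 + |v|)) ^ 4) * volume S2 := by
          rw [setLIntegral_const]
      _ ≤ ENNReal.ofReal (C1 * (8 * (1 + |v|)) ^ 4) * volume S := by
          gcongr
          exact Set.inter_subset_left
      _ = ENNReal.ofReal (C1 * (8 * (1 + |v|)) ^ 4 * (8 * U - U / 2)) := by
          rw [hS, Real.volume_Icc, ← ENNReal.ofReal_mul (by positivity)]
      _ ≤ _ := by
          apply ENNReal.ofReal_le_ofReal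
          calc C1 * (8 * (1 + |v|)) ^ 4 * (8 * U - U / 2) ≤ C1 * (8 * (1 + |v|)) ^ 4 * (8 * U) := by
                gcongr
                linarith
            _ = (C1 * 8 ^ 4 * 8) * (1 + |v|) ^ 4 * U := by ring
            _ ≤ (C1 * 8 ^ 4 * 64 * 16 ^ 4) * (1 + |v|) ^ 4 * U ^ (1 + 1 / 100 : ℝ) := by
                refine mul_le_mul (mul_le_mul_of_nonneg_right ?_ (by positivity)) hUp hU0.le (by positivity)
                linarith
  have hB : ∫⁻ x in S1, ‖L4 s (cz + v * I) x‖ₑ ≤ ENNReal.ofReal (4 * C2 * (1 + |v|) ^ 4 * U ^ (1 + 1 / 100 : ℝ)) := by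
    -- the four factors
    have e : ∀ x : ℝ, ∀ u : ℂ, 1 / 2 + u + (cz + v * I) + x * I = ((1 / 2 + u.re + cz : ℝ) : ℂ) + ((x + (v + u.im) : ℝ) : ℂ) * I := by
      intro x u
      apply Complex.ext <;> simp
      ring
    have e' : ∀ x : ℝ, ∀ u : ℂ, 1 / 2 + u + (cz + v * I) - x * I = (starRingEnd ℂ) (((1 / 2 + u.re + cz : ℝ) : ℂ) + ((x + -(v + u.im) : ℝ) : ℂ) * I) := by
      intro x u
      apply Complex.ext <;> simp
      ring
    have hpt : ∀ x : ℝ, ‖L4 s (cz + v * I) x‖ₑ ≤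
        (ENNReal.ofReal (‖riemannZeta (((1 / 2 + s.re + cz : ℝ) : ℂ) + ((x + (v + s.im) : ℝ) : ℂ) * I)‖ ^ 4) +
        ENNReal.ofReal (‖riemannZeta (((1 / 2 + (2 * s).re + cz : ℝ) : ℂ) + ((x + (v + (2 * s).im) : ℝ) : ℂ) * I)‖ ^ 4)) +
        (ENNReal.ofReal (‖riemannZeta (((1 / 2 + s.re + cz : ℝ) : ℂ) + ((x + -(v + s.im) : ℝ) : ℂ) * I)‖ ^ 4) +
        ENNReal.ofReal (‖riemannZeta (((1 / 2 + (2 * s).re + cz : ℝ) : ℂ) + ((x + -(v + (2 * s).im) : ℝ) : ℂ) * I)‖ ^ 4)) := by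
      intro x
      rw [← ENNReal.ofReal_add (by positivity) (by positivity), ← ENNReal.ofReal_add (by positivity) (by positivity),
        ← ENNReal.ofReal_add (by positivity) (by positivity), ← ofReal_norm]
      apply ENNReal.ofReal_le_ofReal
      unfold L4
      rw [e x s, e x (2 * s), e' x s, e' x (2 * s), riemannZeta_conj, riemannZeta_conj, norm_mul, norm_mul, norm_mul,
        Complex.norm_conj, Complex.norm_conj]
      exact amgm _ _ _ _
    have c1 := abs_le.1 b1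
    have c2 := abs_le.1 b2
    have c3 := abs_le.1 b3
    have c4 := abs_le.1 b4
    have hvv := abs_le.1 (le_refl |v|)
    have f1 := h2 U (1 / 2 + s.re + cz) (v + s.im) S1 hU8 (by linarith) (by linarith) (by apply ne_of_lt; linarith)
      (fun x hx => ⟨by linarith [hx.1.1, hx.2.out], by linarith [hx.1.2, hx.2.out]⟩) hS1m
    have f2 := h2 U (1 / 2 + (2 * s).re + cz) (v + (2 * s).im) S1 hU8 (by linarith) (by linarith) (by apply ne_of_lt; linarith)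
      (fun x hx => ⟨by linarith [hx.1.1, hx.2.out], by linarith [hx.1.2, hx.2.out]⟩) hS1m
    have f3 := h2 U (1 / 2 + s.re + cz) (-(v + s.im)) S1 hU8 (by linarith) (by linarith) (by apply ne_of_lt; linarith)
      (fun x hx => ⟨by linarith [hx.1.1, hx.2.out], by linarith [hx.1.2, hx.2.out]⟩) hS1m
    have f4 := h2 U (1 / 2 + (2 * s).re + cz) (-(v + (2 * s).im)) S1 hU8 (by linarith) (by linarith) (by apply ne_of_lt; linarith)
      (fun x hx => ⟨by linarith [hx.1.1, hx.2.out], by linarith [hx.1.2, hx.2.out]⟩) hS1m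
    have mz : ∀ σ c : ℝ, σ ≠ 1 → Measurable fun x : ℝ => ENNReal.ofReal (‖riemannZeta ((σ : ℂ) + ((x + c : ℝ) : ℂ) * I)‖ ^ 4) := by
      intro σ c hσ
      refine (Continuous.measurable ?_).ennreal_ofReal
      refine (Continuous.norm (zeta_cont_line (by fun_prop) fun p => ?_)).pow 4
      simpa using hσ
    have n1 : (1 / 2 + s.re + cz) ≠ 1 := by apply ne_of_lt; linarith
    have n2 : (1 / 2 + (2 * s).re + cz) ≠ 1 := by apply ne_of_lt; linarith
    refine (lintegral_mono hpt).trans ?_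
    rw [lint4 (mz _ _ n1) (mz _ _ n2) (mz _ _ n1)]
    have hsum : ENNReal.ofReal (4 * C2 * (1 + |v|) ^ 4 * U ^ (1 + 1 / 100 : ℝ)) ≥
        (ENNReal.ofReal (C2 * U ^ (1 + 1 / 100 : ℝ)) + ENNReal.ofReal (C2 * U ^ (1 + 1 / 100 : ℝ))) +
        (ENNReal.ofReal (C2 * U ^ (1 + 1 / 100 : ℝ)) + ENNReal.ofReal (C2 * U ^ (1 + 1 / 100 : ℝ))) := by
      rw [← ENNReal.ofReal_add (by positivity) (by positivity), ← ENNReal.ofReal_add (by positivity) (by positivity)]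
      apply ENNReal.ofReal_le_ofReal
      have : C2 * U ^ (1 + 1 / 100 : ℝ) * 1 ≤ C2 * U ^ (1 + 1 / 100 : ℝ) * (1 + |v|) ^ 4 :=
        mul_le_mul_of_nonneg_left hv4 (by positivity)
      linarith
    exact (add_le_add (add_le_add f1 f2) (add_le_add f3 f4)).trans hsum
  calc ∫⁻ x in S, ‖L4 s (cz + v * I) x‖ₑ ≤ ∫⁻ x in S1 ∪ S2, ‖L4 s (cz + v * I) x‖ₑ := lintegral_mono_set hcov
    _ ≤ (∫⁻ x in S1, ‖L4 s (cz + v * I) x‖ₑ) + ∫⁻ x in S2, ‖L4 s (cz + v * I) x‖ₑ := lintegral_union_le _ _ _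
    _ ≤ ENNReal.ofReal (4 * C2 * (1 + |v|) ^ 4 * U ^ (1 + 1 / 100 : ℝ)) +
        ENNReal.ofReal (C1 * 8 ^ 4 * 64 * 16 ^ 4 * (1 + |v|) ^ 4 * U ^ (1 + 1 / 100 : ℝ)) := add_le_add hB hA
    _ = _ := by
        rw [← ENNReal.ofReal_add (by positivity) (by positivity)]
        congr 1
        ring

/-- the weighted moment -/
noncomputable def MM4 (K : ℝ) (s : ℂ) (x : ℝ) : ENNReal :=
  ∫⁻ v : ℝ, ENNReal.ofReal (Real.exp (K * |v| - v ^ 2 / 2)) * ‖L4 s (cz + v * I) x‖ₑ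

theorem kint (K : ℝ) : Integrable fun v : ℝ => Real.exp (K * |v| - v ^ 2 / 2) * (1 + |v|) ^ 4 := by
  have h1 : Integrable fun v : ℝ => Real.exp ((|K| + 4) ^ 2) * Real.exp (-(1 / 4) * v ^ 2) :=
    (integrable_exp_neg_mul_sq (by norm_num)).const_mul _
  refine h1.mono' (Continuous.aestronglyMeasurable (by fun_prop)) (Filter.Eventually.of_forall fun v => ?_)
  have hv := abs_nonneg v
  rw [Real.norm_of_nonneg (by positivity)]
  have h2 := pow_exp_bd 4 hv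
  push_cast at h2
  calc Real.exp (K * |v| - v ^ 2 / 2) * (1 + |v|) ^ 4 ≤ Real.exp (K * |v| - v ^ 2 / 2) * Real.exp (4 * |v|) := by gcongr
    _ = Real.exp (K * |v| - v ^ 2 / 2 + 4 * |v|) := by rw [← Real.exp_add]
    _ ≤ Real.exp ((|K| + 4) ^ 2 + -(1 / 4) * v ^ 2) := by
        apply Real.exp_le_exp.2
        have := sq_nonneg ((|K| + 4) - |v| / 2)
        have e : v ^ 2 = |v| ^ 2 := (sq_abs v).symm
        have k1 : K * |v| ≤ |K| * |v| := mul_le_mul_of_nonneg_right (le_abs_self K) hv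
        nlinarith
    _ = _ := Real.exp_add _ _

theorem mom (K : ℝ) : ∃ C : ℝ, 0 < C ∧ ∀ (U : ℝ) (s : ℂ), 1 ≤ U → ‖s‖ = rho →
    ∫⁻ x in Set.Icc (U / 2) (8 * U), MM4 K s x ≤ ENNReal.ofReal (C * U ^ (1 + 1 / 100 : ℝ)) := by
  obtain ⟨C, hC, h⟩ := inner_mom
  have hk := kint K
  have hk0 : 0 ≤ ∫ v : ℝ, Real.exp (K * |v| - v ^ 2 / 2) * (1 + |v|) ^ 4 := integral_nonneg fun v => by positivity
  refine ⟨C * (∫ v : ℝ, Real.exp (K * |v| - v ^ 2 / 2) * (1 + |v|) ^ 4) + 1, by positivity, fun U s hU hs => ?_⟩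
  have hmeas : Measurable fun p : ℝ × ℝ => ENNReal.ofReal (Real.exp (K * |p.2| - p.2 ^ 2 / 2)) * ‖L4 s (cz + p.2 * I) p.1‖ₑ := by
    have m1 : Measurable fun p : ℝ × ℝ => ENNReal.ofReal (Real.exp (K * |p.2| - p.2 ^ 2 / 2)) :=
      (Continuous.measurable (by fun_prop)).ennreal_ofReal
    have m2 : Measurable fun p : ℝ × ℝ => ‖L4 s (cz + p.2 * I) p.1‖ₑ := (L4c_cont hs).measurable.enorm
    exact m1.mul m2
  unfold MM4
  rw [lintegral_lintegral_swap hmeas.aemeasurable]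
  calc ∫⁻ v : ℝ, ∫⁻ x in Set.Icc (U / 2) (8 * U), ENNReal.ofReal (Real.exp (K * |v| - v ^ 2 / 2)) * ‖L4 s (cz + v * I) x‖ₑ
      ≤ ∫⁻ v : ℝ, ENNReal.ofReal (C * U ^ (1 + 1 / 100 : ℝ)) * ENNReal.ofReal (Real.exp (K * |v| - v ^ 2 / 2) * (1 + |v|) ^ 4) := by
        refine lintegral_mono fun v => ?_
        rw [lintegral_const_mul' _ _ ENNReal.ofReal_ne_top, ← ENNReal.ofReal_mul (by positivity)]
        refine (mul_le_mul_right (h U v s hU hs) _).trans ?_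
        rw [← ENNReal.ofReal_mul (by positivity)]
        apply ENNReal.ofReal_le_ofReal
        apply le_of_eq
        ring
    _ = ENNReal.ofReal (C * U ^ (1 + 1 / 100 : ℝ)) * ENNReal.ofReal (∫ v : ℝ, Real.exp (K * |v| - v ^ 2 / 2) * (1 + |v|) ^ 4) := by
        rw [lintegral_const_mul' _ _ ENNReal.ofReal_ne_top, ofReal_integral_eq_lintegral_ofReal hk
          (Filter.Eventually.of_forall fun v => by positivity)]
    _ = ENNReal.ofReal (C * U ^ (1 + 1 / 100 : ℝ) * ∫ v : ℝ, Real.exp (K * |v| - v ^ 2 / 2) * (1 + |v|) ^ 4) :=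
        (ENNReal.ofReal_mul (by positivity)).symm
    _ ≤ _ := by
        apply ENNReal.ofReal_le_ofReal
        have hUp : 0 ≤ U ^ (1 + 1 / 100 : ℝ) := by positivity
        nlinarith

/-! ### the shift of the contour -/

noncomputable def Hs (s : ℂ) (x : ℝ) (w : ℂ) : ℂ := Gw s w / w * X2 x (2 * w) * L4 s w x

theorem kintn (K : ℝ) (n : ℕ) : Integrable fun v : ℝ => Real.exp (K * |v| - v ^ 2 / 2) * (1 + |v|) ^ n := by
  have h1 : Integrable fun v : ℝ => Real.exp ((|K| + n) ^ 2) * Real.exp (-(1 / 4) * v ^ 2) :=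
    (integrable_exp_neg_mul_sq (by norm_num)).const_mul _
  refine h1.mono' (Continuous.aestronglyMeasurable (by fun_prop)) (Filter.Eventually.of_forall fun v => ?_)
  have hv := abs_nonneg v
  rw [Real.norm_of_nonneg (by positivity)]
  have h2 := pow_exp_bd n hv
  calc Real.exp (K * |v| - v ^ 2 / 2) * (1 + |v|) ^ n ≤ Real.exp (K * |v| - v ^ 2 / 2) * Real.exp (n * |v|) := by gcongr
    _ = Real.exp (K * |v| - v ^ 2 / 2 + n * |v|) := by rw [← Real.exp_add]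
    _ ≤ Real.exp ((|K| + n) ^ 2 + -(1 / 4) * v ^ 2) := by
        apply Real.exp_le_exp.2
        have := sq_nonneg ((|K| + n) - |v| / 2)
        have e : v ^ 2 = |v| ^ 2 := (sq_abs v).symm
        have k1 : K * |v| ≤ |K| * |v| := mul_le_mul_of_nonneg_right (le_abs_self K) hv
        nlinarith
    _ = _ := Real.exp_add _ _

theorem Hs_bd : ∃ C : ℝ, 0 < C ∧ ∀ (s w : ℂ) (x : ℝ), ‖s‖ = rho → 2 ≤ x → cz ≤ w.re → w.re ≤ 2 →
    (w.re ≤ 1 / 4 ∨ 3 / 4 ≤ w.re ∨ |w.im| ≤ x / 4) →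
    ‖Hs s x w‖ ≤ C * Real.exp (-(w.im ^ 2 / 2)) * (x ^ 4 * (2 + |w.im| + x) ^ 4) := by
  obtain ⟨C1, hC1, h1⟩ := Gw_bound rho 2 rho_pos
  obtain ⟨C2, hC2, h2⟩ := L4_crude
  have hcz := cz_pos
  refine ⟨C1 * cz⁻¹ * C2, by positivity, fun s w x hs hx hw1 hw2 hc => ?_⟩
  have hx0 : 0 < x := by linarith
  have k1 := h1 s hs w.re w.im (by rw [abs_of_nonneg (by linarith)]; exact hw2)
  rw [Complex.re_add_im] at k1
  have k2 := h2 s w x hs (by linarith) hw2 (by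
    rcases hc with h | h | h
    · exact Or.inl h
    · exact Or.inr (Or.inl h)
    · exact Or.inr (Or.inr ⟨hx, h⟩))
  rw [abs_of_pos hx0] at k2
  have k3 : ‖X2 x (2 * w)‖ ≤ x ^ 4 := by
    have := X2_le (x := x) (by linarith) (c := 2 * w) (E := 4) (by simp; linarith) (by simp; linarith)
    calc _ ≤ x ^ (4 : ℝ) := this
      _ = x ^ 4 := by norm_cast
  have k4 : ‖w‖⁻¹ ≤ cz⁻¹ := by
    apply inv_anti₀ hcz
    have := Complex.abs_re_le_norm w
    rw [abs_of_nonneg (by linarith)] at this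
    linarith
  unfold Hs
  rw [norm_mul, norm_mul, norm_div, div_eq_mul_inv]
  calc ‖Gw s w‖ * ‖w‖⁻¹ * ‖X2 x (2 * w)‖ * ‖L4 s w x‖
      ≤ (C1 * Real.exp (-(w.im ^ 2 / 2))) * cz⁻¹ * x ^ 4 * (C2 * (2 + |w.im| + x) ^ 4) := by gcongr
    _ = _ := by ring

theorem Gw_diff (s : ℂ) : Differentiable ℂ (Gw s) := by
  unfold Gw
  fun_prop

theorem X2_diff {x : ℝ} (hx : 0 < x) : Differentiable ℂ fun w : ℂ => X2 x (2 * w) := by
  have e : (fun w : ℂ => X2 x (2 * w)) = fun w : ℂ => cexp (((Real.log (x / (2 * Real.pi)) : ℝ) : ℂ) * (2 * w)) := by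
    funext w
    unfold X2
    rw [AFEX.cpow_pos (by positivity)]
  rw [e]
  fun_prop

/-- the arguments of zeta avoid the pole -/
theorem arg_ne {s w : ℂ} {x : ℝ} (hs : ‖s‖ = rho) (hx : 2 ≤ x)
    (hc : w.re ≤ 1 / 4 ∨ 3 / 4 ≤ w.re ∨ |w.im| ≤ x / 4) :
    1 / 2 + s + w + x * I ≠ 1 ∧ 1 / 2 + 2 * s + w + x * I ≠ 1 ∧ 1 / 2 + s + w - x * I ≠ 1 ∧
      1 / 2 + 2 * s + w - x * I ≠ 1 := by
  have hr := rho_le
  have hr0 := rho_pos
  obtain ⟨b1, b2, b3, b4⟩ := re_bd hs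
  have key : ∀ u : ℂ, |u.re| ≤ 2 * rho → |u.im| ≤ 2 * rho → ∀ y : ℝ, |y| = x → 1 / 2 + u + w + y * I ≠ 1 := by
    intro u hu1 hu2 y hy h
    have h1 := congrArg Complex.re h
    have h2 := congrArg Complex.im h
    rw [Complex.add_re (1 / 2 + u + w), Complex.re_ofReal_mul, Complex.I_re, Complex.one_re] at h1
    rw [Complex.add_im (1 / 2 + u + w), Complex.im_ofReal_mul, Complex.I_im, Complex.one_im] at h2
    have h1' : 1 / 2 + u.re + w.re = 1 := by simpa using h1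
    have h2' : u.im + w.im + y = 0 := by simpa using h2
    rw [abs_le] at hu1
    rcases hc with hc | hc | hc
    · linarith
    · linarith
    · have m1 : |y| ≤ |u.im| + |w.im| := by
        have : y = -(u.im + w.im) := by linarith
        rw [this, abs_neg]
        exact abs_add_le _ _
      linarith
  have b1' : |s.re| ≤ 2 * rho := by linarith
  have b3' : |s.im| ≤ 2 * rho := by linarith
  have hxa : |x| = x := abs_of_nonneg (by linarith)
  have k3 := key s b1' b3' (-x) (by rw [abs_neg, hxa])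
  have k4 := key (2 * s) b2 b4 (-x) (by rw [abs_neg, hxa])
  have f3 : (1 / 2 + s + w + ((-x : ℝ) : ℂ) * I : ℂ) = 1 / 2 + s + w - x * I := by push_cast; ring
  have f4 : (1 / 2 + 2 * s + w + ((-x : ℝ) : ℂ) * I : ℂ) = 1 / 2 + 2 * s + w - x * I := by push_cast; ring
  rw [f3] at k3
  rw [f4] at k4
  exact ⟨key s b1' b3' x hxa, key (2 * s) b2 b4 x hxa, k3, k4⟩

theorem Hs_diffAt {s w : ℂ} {x : ℝ} (hs : ‖s‖ = rho) (hx : 2 ≤ x) (hw : cz ≤ w.re)
    (hc : w.re ≤ 1 / 4 ∨ 3 / 4 ≤ w.re ∨ |w.im| ≤ x / 4) : DifferentiableAt ℂ (Hs s x) w := by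
  obtain ⟨a1, a2, a3, a4⟩ := arg_ne hs hx hc
  have hw0 : w ≠ 0 := by
    rintro rfl
    have := cz_pos
    simp at hw
    linarith
  have z : ∀ f : ℂ → ℂ, DifferentiableAt ℂ f w → f w ≠ 1 → DifferentiableAt ℂ (fun w => riemannZeta (f w)) w := by
    intro f hf h1
    exact (differentiableAt_riemannZeta h1).comp w hf
  unfold Hs L4
  refine DifferentiableAt.mul (DifferentiableAt.mul (DifferentiableAt.div (Gw_diff s w) (by fun_prop) hw0)
    (X2_diff (by linarith) w)) ?_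
  exact ((z _ (by fun_prop) a1).mul (z _ (by fun_prop) a2)).mul ((z _ (by fun_prop) a3).mul (z _ (by fun_prop) a4))

theorem Hs_line {s : ℂ} (hs : ‖s‖ = rho) {x : ℝ} (hx : 2 ≤ x) {c : ℝ} (hc : c = cz ∨ c = 2) :
    Integrable (fun v : ℝ => Hs s x (c + v * I)) := by
  obtain ⟨C, hC, h⟩ := Hs_bd
  have hcz : cz = 1 / 10 ^ 5 := rfl
  have hc1 : cz ≤ c := by rcases hc with h | h <;> rw [h, hcz]; norm_num
  have hc2 : c ≤ 2 := by rcases hc with h | h <;> rw [h]; rw [hcz]; norm_num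
  have hc3 : c ≤ 1 / 4 ∨ 3 / 4 ≤ c := by
    rcases hc with h | h
    · left
      rw [h, hcz]
      norm_num
    · right
      rw [h]
      norm_num
  have hre : ∀ v : ℝ, ((c : ℂ) + v * I).re = c := fun v => by simp
  have him : ∀ v : ℝ, ((c : ℂ) + v * I).im = v := fun v => by simp
  have hc4 : ∀ v : ℝ, ((c : ℂ) + v * I).re ≤ 1 / 4 ∨ 3 / 4 ≤ ((c : ℂ) + v * I).re ∨ |((c : ℂ) + v * I).im| ≤ x / 4 := by
    intro v
    rw [hre]
    rcases hc3 with h | h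
    · exact Or.inl h
    · exact Or.inr (Or.inl h)
  have hcont : Continuous (fun v : ℝ => Hs s x (c + v * I)) := by
    refine continuous_iff_continuousAt.2 fun v => ?_
    refine ContinuousAt.comp (g := Hs s x) ?_ (by fun_prop)
    exact (Hs_diffAt hs hx (by rw [hre]; exact hc1) (hc4 v)).continuousAt
  have hk := (kintn 0 4).const_mul (C * x ^ 4 * (2 + x) ^ 4)
  refine hk.mono' hcont.aestronglyMeasurable (Filter.Eventually.of_forall fun v => ?_)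
  have k := h s (c + v * I) x hs hx (by rw [hre]; exact hc1) (by rw [hre]; exact hc2) (hc4 v)
  rw [him] at k
  refine k.trans ?_
  have hv := abs_nonneg v
  have e1 : (2 + |v| + x) ≤ (2 + x) * (1 + |v|) := by nlinarith
  have e2 : Real.exp (-(v ^ 2 / 2)) = Real.exp (0 * |v| - v ^ 2 / 2) := by
    congr 1
    ring
  have e3 : (2 + |v| + x) ^ 4 ≤ (2 + x) ^ 4 * (1 + |v|) ^ 4 := by
    rw [← mul_pow]
    exact pow_le_pow_left₀ (by positivity) e1 4
  rw [← e2]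
  calc C * Real.exp (-(v ^ 2 / 2)) * (x ^ 4 * (2 + |v| + x) ^ 4)
      ≤ C * Real.exp (-(v ^ 2 / 2)) * (x ^ 4 * ((2 + x) ^ 4 * (1 + |v|) ^ 4)) := by gcongr
    _ = _ := by ring

theorem tail_bd : ∃ C : ℝ, 0 < C ∧ ∀ (s : ℂ) (x c : ℝ), ‖s‖ = rho → 2 ≤ x → (c = cz ∨ c = 2) →
    ‖∫ v in (Set.Ioc (-(x / 4)) (x / 4))ᶜ, Hs s x (c + v * I)‖ ≤ C / x := by
  obtain ⟨C, hC, h⟩ := Hs_bd
  have hk := kintn 0 9
  have hk0 : 0 ≤ ∫ v : ℝ, Real.exp (0 * |v| - v ^ 2 / 2) * (1 + |v|) ^ 9 := integral_nonneg fun v => by positivity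
  refine ⟨C * (4 * 256 * 625) * (∫ v : ℝ, Real.exp (0 * |v| - v ^ 2 / 2) * (1 + |v|) ^ 9) + 1, by positivity, ?_⟩
  intro s x c hs hx hc
  have hx0 : 0 < x := by linarith
  have hcz : cz = 1 / 10 ^ 5 := rfl
  have hc1 : cz ≤ c := by rcases hc with h | h <;> rw [h, hcz]; norm_num
  have hc2 : c ≤ 2 := by rcases hc with h | h <;> rw [h]; rw [hcz]; norm_num
  have hre : ∀ v : ℝ, ((c : ℂ) + v * I).re = c := fun v => by simp
  have him : ∀ v : ℝ, ((c : ℂ) + v * I).im = v := fun v => by simp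
  have hc4 : ∀ v : ℝ, ((c : ℂ) + v * I).re ≤ 1 / 4 ∨ 3 / 4 ≤ ((c : ℂ) + v * I).re ∨ |((c : ℂ) + v * I).im| ≤ x / 4 := by
    intro v
    rw [hre]
    rcases hc with h | h
    · left
      rw [h, hcz]
      norm_num
    · right
      left
      rw [h]
      norm_num
  have hpt : ∀ v ∈ (Set.Ioc (-(x / 4)) (x / 4))ᶜ, ‖Hs s x (c + v * I)‖ ≤
      C * (4 * 256 * 625) / x * (Real.exp (0 * |v| - v ^ 2 / 2) * (1 + |v|) ^ 9) := by
    intro v hv
    have hv4 : x ≤ 4 * |v| := by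
      rw [Set.mem_compl_iff, Set.mem_Ioc, not_and_or, not_lt, not_le] at hv
      rcases hv with hv | hv
      · have := neg_le_abs v
        linarith
      · have := le_abs_self v
        linarith
    have k := h s (c + v * I) x hs hx (by rw [hre]; exact hc1) (by rw [hre]; exact hc2) (hc4 v)
    rw [him] at k
    refine k.trans ?_
    have hv0 := abs_nonneg v
    have e2 : Real.exp (-(v ^ 2 / 2)) = Real.exp (0 * |v| - v ^ 2 / 2) := by
      congr 1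
      ring
    rw [← e2]
    have e3 : (2 + |v| + x) ^ 4 ≤ 625 * (1 + |v|) ^ 4 := by
      calc (2 + |v| + x) ^ 4 ≤ (5 * (1 + |v|)) ^ 4 := pow_le_pow_left₀ (by positivity) (by linarith) 4
        _ = _ := by ring
    have e4 : x ^ 4 * x ≤ (4 * 256) * (1 + |v|) ^ 5 := by
      calc x ^ 4 * x = x ^ 5 := by ring
        _ ≤ (4 * (1 + |v|)) ^ 5 := pow_le_pow_left₀ hx0.le (by linarith) 5
        _ = _ := by ring
    have e5 : x ^ 4 ≤ (4 * 256) * (1 + |v|) ^ 5 / x := by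
      rw [le_div_iff₀ hx0]
      exact e4
    calc C * Real.exp (-(v ^ 2 / 2)) * (x ^ 4 * (2 + |v| + x) ^ 4)
        ≤ C * Real.exp (-(v ^ 2 / 2)) * ((4 * 256) * (1 + |v|) ^ 5 / x * (625 * (1 + |v|) ^ 4)) := by gcongr
      _ = _ := by ring
  have hi : Integrable fun v : ℝ => C * (4 * 256 * 625) / x * (Real.exp (0 * |v| - v ^ 2 / 2) * (1 + |v|) ^ 9) :=
    hk.const_mul _
  calc ‖∫ v in (Set.Ioc (-(x / 4)) (x / 4))ᶜ, Hs s x (c + v * I)‖
      ≤ ∫ v in (Set.Ioc (-(x / 4)) (x / 4))ᶜ, C * (4 * 256 * 625) / x * (Real.exp (0 * |v| - v ^ 2 / 2) * (1 + |v|) ^ 9) := by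
        refine norm_integral_le_of_norm_le hi.integrableOn ?_
        exact (ae_restrict_iff' measurableSet_Ioc.compl).2 (Filter.Eventually.of_forall hpt)
    _ ≤ ∫ v, C * (4 * 256 * 625) / x * (Real.exp (0 * |v| - v ^ 2 / 2) * (1 + |v|) ^ 9) := by
        refine setIntegral_le_integral hi (Filter.Eventually.of_forall fun v => ?_)
        simp only [Pi.zero_apply]
        positivity
    _ = C * (4 * 256 * 625) * (∫ v : ℝ, Real.exp (0 * |v| - v ^ 2 / 2) * (1 + |v|) ^ 9) / x := by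
        rw [integral_const_mul]
        ring
    _ ≤ _ := by
        gcongr
        linarith

theorem horiz_bd : ∃ C : ℝ, 0 < C ∧ ∀ (s : ℂ) (x y : ℝ), ‖s‖ = rho → 2 ≤ x → |y| = x / 4 →
    ‖∫ u in cz..2, Hs s x (u + y * I)‖ ≤ C / x := by
  obtain ⟨C, hC, h⟩ := Hs_bd
  refine ⟨C * (16 * Real.exp 648) * 2, by positivity, fun s x y hs hx hy => ?_⟩
  have hx0 : 0 < x := by linarith
  have hcz : cz = 1 / 10 ^ 5 := rfl
  have hy2 : y ^ 2 = x ^ 2 / 16 := by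
    rw [← sq_abs, hy]
    ring
  have hb : ∀ u ∈ Set.uIoc cz 2, ‖Hs s x (u + y * I)‖ ≤ C * (16 * Real.exp 648) / x := by
    intro u hu
    rw [Set.uIoc_of_le (by rw [hcz]; norm_num)] at hu
    have hre : ((u : ℂ) + y * I).re = u := by simp
    have him : ((u : ℂ) + y * I).im = y := by simp
    have k := h s (u + y * I) x hs hx (by rw [hre]; exact hu.1.le) (by rw [hre]; exact hu.2)
      (Or.inr (Or.inr (by rw [him, hy])))
    rw [him, hy, hy2] at k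
    refine k.trans ?_
    rw [le_div_iff₀ hx0]
    have e1 : (2 + x / 4 + x) ^ 4 ≤ 16 * (1 + x) ^ 4 := by
      calc (2 + x / 4 + x) ^ 4 ≤ (2 * (1 + x)) ^ 4 := pow_le_pow_left₀ (by positivity) (by linarith) 4
        _ = _ := by ring
    have e2 : x ^ 5 ≤ (1 + x) ^ 5 := pow_le_pow_left₀ hx0.le (by linarith) 5
    have e3 := pow_exp_bd 9 hx0.le
    push_cast at e3
    have e4 : Real.exp (-(x ^ 2 / 16 / 2)) * (1 + x) ^ 9 ≤ Real.exp 648 := by
      calc _ ≤ Real.exp (-(x ^ 2 / 16 / 2)) * Real.exp (9 * x) := by gcongr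
        _ = Real.exp (-(x ^ 2 / 16 / 2) + 9 * x) := by rw [← Real.exp_add]
        _ ≤ Real.exp 648 := by
            apply Real.exp_le_exp.2
            nlinarith [sq_nonneg (x - 144)]
    calc C * Real.exp (-(x ^ 2 / 16 / 2)) * (x ^ 4 * (2 + x / 4 + x) ^ 4) * x
        = C * Real.exp (-(x ^ 2 / 16 / 2)) * (x ^ 5 * (2 + x / 4 + x) ^ 4) := by ring
      _ ≤ C * Real.exp (-(x ^ 2 / 16 / 2)) * ((1 + x) ^ 5 * (16 * (1 + x) ^ 4)) := by gcongr
      _ = C * (16 * (Real.exp (-(x ^ 2 / 16 / 2)) * (1 + x) ^ 9)) := by ring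
      _ ≤ _ := by gcongr
  have := intervalIntegral.norm_integral_le_of_norm_le_const hb
  refine this.trans ?_
  have e : |2 - cz| ≤ 2 := by
    rw [hcz]
    norm_num
  calc C * (16 * Real.exp 648) / x * |2 - cz| ≤ C * (16 * Real.exp 648) / x * 2 := by gcongr
    _ = _ := by ring

theorem shift_AH : ∃ C : ℝ, 0 < C ∧ ∀ (s : ℂ) (x : ℝ), ‖s‖ = rho → 2 ≤ x →
    ‖(∫ v : ℝ, Hs s x (cz + v * I)) - ∫ v : ℝ, Hs s x (2 + v * I)‖ ≤ C / x := by
  obtain ⟨C1, hC1, h1⟩ := tail_bd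
  obtain ⟨C2, hC2, h2⟩ := horiz_bd
  refine ⟨2 * C1 + 2 * C2, by positivity, fun s x hs hx => ?_⟩
  have hx0 : 0 < x := by linarith
  have hcz : cz = 1 / 10 ^ 5 := rfl
  have i1 := Hs_line hs hx (c := cz) (Or.inl rfl)
  have i2 := Hs_line hs hx (c := 2) (Or.inr rfl)
  have t1 := h1 s x cz hs hx (Or.inl rfl)
  have t2 := h1 s x 2 hs hx (Or.inr rfl)
  have s1 := integral_add_compl (measurableSet_Ioc (a := -(x / 4)) (b := x / 4)) i1
  have s2 := integral_add_compl (measurableSet_Ioc (a := -(x / 4)) (b := x / 4)) i2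
  have hle : -(x / 4) ≤ x / 4 := by linarith
  rw [← intervalIntegral.integral_of_le hle] at s1 s2
  have hrect := Complex.integral_boundary_rect_eq_zero_of_differentiableOn (Hs s x) ((cz : ℂ) + ((-(x / 4) : ℝ) : ℂ) * I)
    (((2 : ℝ) : ℂ) + ((x / 4 : ℝ) : ℂ) * I) (by
      intro w hw
      have hw' := hw
      rw [Complex.mem_reProdIm] at hw'
      have r1 : ((cz : ℂ) + ((-(x / 4) : ℝ) : ℂ) * I).re = cz := by simp
      have r2 : (((2 : ℝ) : ℂ) + ((x / 4 : ℝ) : ℂ) * I).re = 2 := by simp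
      have r3 : ((cz : ℂ) + ((-(x / 4) : ℝ) : ℂ) * I).im = -(x / 4) := by simp
      have r4 : (((2 : ℝ) : ℂ) + ((x / 4 : ℝ) : ℂ) * I).im = x / 4 := by simp
      rw [r1, r2, r3, r4, Set.uIcc_of_le (by rw [hcz]; norm_num), Set.uIcc_of_le hle] at hw'
      refine (Hs_diffAt hs hx hw'.1.1 (Or.inr (Or.inr ?_))).differentiableWithinAt
      rw [abs_le]
      exact ⟨hw'.2.1, hw'.2.2⟩)
  have r1 : ((cz : ℂ) + ((-(x / 4) : ℝ) : ℂ) * I).re = cz := by simp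
  have r2 : (((2 : ℝ) : ℂ) + ((x / 4 : ℝ) : ℂ) * I).re = 2 := by simp
  have r3 : ((cz : ℂ) + ((-(x / 4) : ℝ) : ℂ) * I).im = -(x / 4) := by simp
  have r4 : (((2 : ℝ) : ℂ) + ((x / 4 : ℝ) : ℂ) * I).im = x / 4 := by simp
  rw [r1, r2, r3, r4] at hrect
  have b1 := h2 s x (-(x / 4)) hs hx (by rw [abs_neg, abs_of_nonneg (by linarith)])
  have b2 := h2 s x (x / 4) hs hx (by rw [abs_of_nonneg (by linarith)])
  set X1 := ∫ u in cz..2, Hs s x (u + ((-(x / 4) : ℝ) : ℂ) * I)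
  set X2' := ∫ u in cz..2, Hs s x (u + ((x / 4 : ℝ) : ℂ) * I)
  set Y2 := ∫ y in (-(x / 4))..(x / 4), Hs s x (((2 : ℝ) : ℂ) + y * I)
  set Y1 := ∫ y in (-(x / 4))..(x / 4), Hs s x ((cz : ℂ) + y * I)
  set T1 := ∫ v in (Set.Ioc (-(x / 4)) (x / 4))ᶜ, Hs s x ((cz : ℂ) + v * I)
  set T2 := ∫ v in (Set.Ioc (-(x / 4)) (x / 4))ᶜ, Hs s x (((2 : ℝ) : ℂ) + v * I)
  have e2 : (∫ v : ℝ, Hs s x (2 + v * I)) = ∫ v : ℝ, Hs s x (((2 : ℝ) : ℂ) + v * I) := by
    push_cast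
    rfl
  rw [e2, ← s1, ← s2]
  have hY : Y1 - Y2 = -I * (X1 - X2') := by
    have hr' : X1 - X2' + I * Y2 - I * Y1 = 0 := by simpa [smul_eq_mul] using hrect
    linear_combination I * hr' + (Y1 - Y2) * I_mul_I
  have hfin : Y1 + T1 - (Y2 + T2) = -I * (X1 - X2') + (T1 - T2) := by
    rw [← hY]
    ring
  rw [hfin]
  have n1 := norm_add_le (-I * (X1 - X2')) (T1 - T2)
  have n2 := norm_sub_le T1 T2
  have n3 := norm_sub_le X1 X2'
  have n4 : ‖-I * (X1 - X2')‖ = ‖X1 - X2'‖ := by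
    rw [norm_mul, norm_neg, Complex.norm_I, one_mul]
  rw [n4] at n1
  have e : (2 * C1 + 2 * C2) / x = C1 / x + C1 / x + (C2 / x + C2 / x) := by ring
  rw [e]
  linarith


/-! ### one half of the formula -/

theorem half_err : ∃ C K : ℝ, 0 < C ∧ 0 < K ∧ ∀ (s s' : ℂ) (x : ℝ), ‖s‖ = rho → ‖s'‖ = rho →
    (∀ v : ℝ, Qc s' v = Qc s v) → 2 ≤ x →
    Integrable (fun v : ℝ => Qc s v * Rq s s' (cz + v * I) x * L4 s' (cz + v * I) x) →
    ‖(∫ v : ℝ, Qc s v * Rq s s' (cz + v * I) x * L4 s' (cz + v * I) x) -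
      X2 x (3 * s' - 3 * s) * ∫ v : ℝ, Hs s' x (cz + v * I)‖ₑ ≤
      ENNReal.ofReal (C * x ^ (1 / 1000 - 1 : ℝ)) * MM4 K s' x := by
  obtain ⟨C0, K, hC0, hK, h0⟩ := Rq_bd
  obtain ⟨C1, hC1, h1⟩ := Gw_bound rho 2 rho_pos
  have hcz := cz_pos
  refine ⟨C1 * cz⁻¹ * C0, K, by positivity, hK, ?_⟩
  intro s s' x hs hs' hQ hx hint
  have hx0 : 0 < x := by linarith
  have i2 := (Hs_line hs' hx (c := cz) (Or.inl rfl)).const_mul (X2 x (3 * s' - 3 * s))
  rw [← integral_const_mul, ← integral_sub hint i2]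
  refine (enorm_integral_le_lintegral_enorm _).trans ?_
  unfold MM4
  rw [← lintegral_const_mul' _ _ ENNReal.ofReal_ne_top]
  refine lintegral_mono fun v => ?_
  have hbase : ((x / (2 * Real.pi) : ℝ) : ℂ) ≠ 0 := by
    exact_mod_cast (by positivity : (x / (2 * Real.pi) : ℝ) ≠ 0)
  have e1 : Qc s v * Rq s s' (cz + v * I) x * L4 s' (cz + v * I) x -
      X2 x (3 * s' - 3 * s) * Hs s' x (cz + v * I) =
      Qc s v * (Rq s s' (cz + v * I) x - X2 x (3 * s' - 3 * s + 2 * (cz + v * I))) * L4 s' (cz + v * I) x := by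
    have e2 : X2 x (3 * s' - 3 * s + 2 * (cz + v * I)) = X2 x (3 * s' - 3 * s) * X2 x (2 * (cz + v * I)) := by
      unfold X2
      exact Complex.cpow_add _ _ hbase
    rw [e2, ← hQ v]
    unfold Hs Qc
    ring
  rw [e1, ← mul_assoc, ← ENNReal.ofReal_mul (by positivity), enorm_mul]
  refine mul_le_mul_left ?_ _
  rw [← ofReal_norm]
  apply ENNReal.ofReal_le_ofReal
  rw [norm_mul]
  have q1 : ‖Qc s v‖ ≤ C1 * Real.exp (-(v ^ 2 / 2)) * cz⁻¹ := by
    unfold Qc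
    rw [norm_div, div_eq_mul_inv]
    have k1 := h1 s hs cz v (by rw [abs_of_pos hcz]; unfold cz; norm_num)
    have k4 : ‖(cz : ℂ) + v * I‖⁻¹ ≤ cz⁻¹ := by
      apply inv_anti₀ hcz
      have := Complex.abs_re_le_norm ((cz : ℂ) + v * I)
      rw [w_re, abs_of_pos hcz] at this
      exact this
    gcongr
  have q2 := h0 s s' x v hs hs' hx
  calc ‖Qc s v‖ * ‖Rq s s' (cz + v * I) x - X2 x (3 * s' - 3 * s + 2 * (cz + v * I))‖
      ≤ (C1 * Real.exp (-(v ^ 2 / 2)) * cz⁻¹) * (C0 * x ^ (1 / 1000 - 1 : ℝ) * Real.exp (K * |v|)) := by gcongr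
    _ = C1 * cz⁻¹ * C0 * x ^ (1 / 1000 - 1 : ℝ) * (Real.exp (K * |v|) * Real.exp (-(v ^ 2 / 2))) := by ring
    _ = _ := by
        rw [← Real.exp_add]
        congr 2

theorem AH_eq (s : ℂ) (x : ℝ) : AH s x = (2 * Real.pi : ℂ)⁻¹ * ∫ v : ℝ, Hs s x (2 + v * I) := rfl

theorem X2_6s {s : ℂ} (hs : ‖s‖ = rho) {x : ℝ} (hx : 1 / 2 ≤ x) : ‖X2 x (-6 * s)‖ ≤ x ^ (1 / 2 : ℝ) + 4 := by
  have hx0 : 0 < x := by linarith
  rw [X2_norm hx0]
  obtain ⟨b1, _, _, _⟩ := re_bd hs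
  have hr := rho_le
  have b1' := abs_le.1 b1
  have hre : (-6 * s).re = -6 * s.re := by simp
  rw [hre]
  set t : ℝ := -6 * s.re with ht
  have ht1 : t ≤ 1 / 2 := by rw [ht]; linarith
  have ht2 : -(1 / 2) ≤ t := by rw [ht]; linarith
  have hpi := Real.pi_gt_three
  have hpi4 := Real.pi_lt_four
  have hy0 : 0 < x / (2 * Real.pi) := by positivity
  have hyx : x / (2 * Real.pi) ≤ x := div_le_self hx0.le (by linarith)
  rcases le_total 1 (x / (2 * Real.pi)) with h | h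
  · have k1 : (x / (2 * Real.pi)) ^ t ≤ (x / (2 * Real.pi)) ^ (1 / 2 : ℝ) :=
      Real.rpow_le_rpow_of_exponent_le h ht1
    have k2 : (x / (2 * Real.pi)) ^ (1 / 2 : ℝ) ≤ x ^ (1 / 2 : ℝ) :=
      Real.rpow_le_rpow hy0.le hyx (by norm_num)
    linarith
  · have k1 : (x / (2 * Real.pi)) ^ t ≤ (x / (2 * Real.pi)) ^ (-(1 / 2) : ℝ) :=
      Real.rpow_le_rpow_of_exponent_ge hy0 h ht2
    have k2 : (x / (2 * Real.pi)) ^ (-(1 / 2) : ℝ) ≤ (1 / 16 : ℝ) ^ (-(1 / 2) : ℝ) := by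
      apply Real.rpow_le_rpow_of_nonpos (by norm_num) _ (by norm_num)
      rw [le_div_iff₀ (by positivity)]
      linarith
    have k3 : (1 / 16 : ℝ) ^ (-(1 / 2) : ℝ) = 4 := by
      rw [show (1 / 16 : ℝ) = (4 : ℝ) ^ (-2 : ℝ) by
        rw [Real.rpow_neg (by norm_num)]
        norm_num, ← Real.rpow_mul (by norm_num)]
      norm_num
    have k4 : 0 ≤ x ^ (1 / 2 : ℝ) := by positivity
    linarith

theorem point_big : ∃ C K : ℝ, 0 < C ∧ 0 < K ∧ ∀ (s : ℂ) (x : ℝ), ‖s‖ = rho → 2 ≤ x →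
    ‖FF s x - (AH s x + X2 x (-6 * s) * AH (-s) x)‖ₑ ≤
      ENNReal.ofReal (C * x ^ (1 / 1000 - 1 : ℝ)) * (MM4 K s x + MM4 K (-s) x) +
        ENNReal.ofReal (C * x ^ (-(1 / 2) : ℝ)) := by
  obtain ⟨C0, K, hC0, hK, h0⟩ := half_err
  obtain ⟨C1, hC1, h1⟩ := shift_AH
  refine ⟨C0 + 6 * C1, K, by positivity, hK, ?_⟩
  intro s x hs hx
  have hx0 : 0 < x := by linarith
  have hs' : ‖-s‖ = rho := by rw [norm_neg, hs]
  obtain ⟨g1, g2, g3⟩ := FF_eq hs hx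
  have a1 := h0 s s x hs hs (fun v => rfl) hx g1
  have a2 := h0 s (-s) x hs hs' (fun v => Qc_neg s v) hx g2
  have b1 := h1 s x hs hx
  have b2 := h1 (-s) x hs' hx
  have hX := X2_6s hs (x := x) (by linarith)
  have hpi := Real.pi_gt_three
  have e1 : X2 x (3 * s - 3 * s) = 1 := by
    rw [sub_self]
    unfold X2
    exact Complex.cpow_zero _
  have e2 : (3 * -s - 3 * s : ℂ) = -6 * s := by ring
  rw [e1, one_mul] at a1
  rw [e2] at a2
  rw [g3, AH_eq, AH_eq]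
  set I1 := ∫ v : ℝ, Qc s v * Rq s s (cz + v * I) x * L4 s (cz + v * I) x
  set I2 := ∫ v : ℝ, Qc s v * Rq s (-s) (cz + v * I) x * L4 (-s) (cz + v * I) x
  set J1 := ∫ v : ℝ, Hs s x (cz + v * I)
  set J2 := ∫ v : ℝ, Hs (-s) x (cz + v * I)
  set M1 := ∫ v : ℝ, Hs s x (2 + v * I)
  set M2 := ∫ v : ℝ, Hs (-s) x (2 + v * I)
  have e3 : (2 * Real.pi : ℂ)⁻¹ * I1 + (2 * Real.pi : ℂ)⁻¹ * I2 -
      ((2 * Real.pi : ℂ)⁻¹ * M1 + X2 x (-6 * s) * ((2 * Real.pi : ℂ)⁻¹ * M2)) =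
      (2 * Real.pi : ℂ)⁻¹ * ((I1 - J1) + (I2 - X2 x (-6 * s) * J2) +
        ((J1 - M1) + X2 x (-6 * s) * (J2 - M2))) := by ring
  rw [e3, enorm_mul]
  have e4 : ‖(2 * Real.pi : ℂ)⁻¹‖ₑ ≤ 1 := by
    rw [← ofReal_norm, ← ENNReal.ofReal_one]
    apply ENNReal.ofReal_le_ofReal
    rw [norm_inv, norm_mul, Complex.norm_real, Real.norm_of_nonneg Real.pi_pos.le]
    apply inv_le_one_of_one_le₀
    norm_num
    linarith
  have hsum : ‖(I1 - J1) + (I2 - X2 x (-6 * s) * J2) + ((J1 - M1) + X2 x (-6 * s) * (J2 - M2))‖ₑ ≤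
      ENNReal.ofReal (C0 * x ^ (1 / 1000 - 1 : ℝ)) * (MM4 K s x + MM4 K (-s) x) +
        ENNReal.ofReal (6 * C1 * x ^ (-(1 / 2) : ℝ)) := by
    refine (enorm_add_le _ _).trans (add_le_add ?_ ?_)
    · refine (enorm_add_le _ _).trans ?_
      rw [mul_add]
      exact add_le_add a1 a2
    · rw [← ofReal_norm]
      apply ENNReal.ofReal_le_ofReal
      refine (norm_add_le _ _).trans ?_
      rw [norm_mul]
      have hxh : 1 ≤ x ^ (1 / 2 : ℝ) := Real.one_le_rpow (by linarith) (by norm_num)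
      have hX' : ‖X2 x (-6 * s)‖ ≤ 5 * x ^ (1 / 2 : ℝ) := by linarith
      have e5 : C1 / x * x ^ (1 / 2 : ℝ) = C1 * x ^ (-(1 / 2) : ℝ) := by
        rw [div_eq_mul_inv, ← Real.rpow_neg_one, mul_assoc, ← Real.rpow_add hx0]
        norm_num
      have hCx : 0 ≤ C1 / x := by positivity
      calc ‖J1 - M1‖ + ‖X2 x (-6 * s)‖ * ‖J2 - M2‖ ≤ C1 / x + 5 * x ^ (1 / 2 : ℝ) * (C1 / x) := by gcongr
        _ ≤ C1 / x * x ^ (1 / 2 : ℝ) + 5 * x ^ (1 / 2 : ℝ) * (C1 / x) := by nlinarith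
        _ = 6 * (C1 / x * x ^ (1 / 2 : ℝ)) := by ring
        _ = _ := by rw [e5]; ring
  calc ‖(2 * Real.pi : ℂ)⁻¹‖ₑ * ‖(I1 - J1) + (I2 - X2 x (-6 * s) * J2) + ((J1 - M1) + X2 x (-6 * s) * (J2 - M2))‖ₑ
      ≤ 1 * (ENNReal.ofReal (C0 * x ^ (1 / 1000 - 1 : ℝ)) * (MM4 K s x + MM4 K (-s) x) +
        ENNReal.ofReal (6 * C1 * x ^ (-(1 / 2) : ℝ))) := mul_le_mul' e4 hsum
    _ ≤ _ := by
        rw [one_mul]
        have p1 : 0 ≤ x ^ (1 / 1000 - 1 : ℝ) := by positivity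
        have p2 : 0 ≤ x ^ (-(1 / 2) : ℝ) := by positivity
        refine add_le_add (mul_le_mul_left (ENNReal.ofReal_le_ofReal ?_) _) (ENNReal.ofReal_le_ofReal ?_)
        · nlinarith
        · nlinarith

theorem point_small : ∃ C : ℝ, 0 < C ∧ ∀ (s : ℂ) (x : ℝ), ‖s‖ = rho → 1 / 2 ≤ x → x ≤ 2 →
    ‖FF s x - (AH s x + X2 x (-6 * s) * AH (-s) x)‖ₑ ≤ ENNReal.ofReal C := by
  obtain ⟨C1, hC1, h1⟩ := Gw_bound rho 2 rho_pos
  obtain ⟨C2, hC2, h2⟩ := L4_crude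
  have hk := kintn 0 4
  set J := ∫ v : ℝ, Real.exp (0 * |v| - v ^ 2 / 2) * (1 + |v|) ^ 4 with hJ
  have hJ0 : 0 ≤ J := integral_nonneg fun v => by positivity
  have hAH : ∀ (s : ℂ) (x : ℝ), ‖s‖ = rho → 1 / 2 ≤ x → x ≤ 2 → ‖AH s x‖ ≤ C1 * C2 * 256 * J := by
    intro s x hs hx1 hx2
    have hx0 : 0 < x := by linarith
    have hpi := Real.pi_gt_three
    rw [AH_eq, norm_mul]
    have e4 : ‖(2 * Real.pi : ℂ)⁻¹‖ ≤ 1 := by
      rw [norm_inv, norm_mul, Complex.norm_real, Real.norm_of_nonneg Real.pi_pos.le]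
      apply inv_le_one_of_one_le₀
      norm_num
      linarith
    have e5 : ‖∫ v : ℝ, Hs s x (2 + v * I)‖ ≤ C1 * C2 * 256 * J := by
      rw [hJ, ← integral_const_mul]
      refine norm_integral_le_of_norm_le (hk.const_mul _) (Filter.Eventually.of_forall fun v => ?_)
      have k1 := h1 s hs 2 v (by norm_num)
      have hw : (2 + v * I : ℂ).re = 2 := by simp
      have hwi : (2 + v * I : ℂ).im = v := by simp
      have k2 := h2 s (2 + v * I) x hs (by rw [hw]; norm_num) (by rw [hw]) (by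
        rw [hw]
        right
        left
        norm_num)
      rw [hwi, abs_of_pos hx0] at k2
      have k3 : ‖X2 x (2 * (2 + v * I))‖ ≤ 1 := by
        rw [X2_norm hx0]
        have e : (2 * (2 + v * I) : ℂ).re = 4 := by
          rw [show (2 * (2 + v * I) : ℂ) = ((2 : ℝ) : ℂ) * (2 + v * I) by push_cast; ring, Complex.re_ofReal_mul, hw]
          norm_num
        rw [e]
        apply Real.rpow_le_one (by positivity) _ (by norm_num)
        rw [div_le_one (by positivity)]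
        linarith
      have k4 : ‖(2 + v * I : ℂ)‖⁻¹ ≤ 1 := by
        apply inv_le_one_of_one_le₀
        have := Complex.abs_re_le_norm (2 + v * I : ℂ)
        rw [hw] at this
        norm_num at this
        linarith
      have hv := abs_nonneg v
      have k5 : (2 + |v| + x) ^ 4 ≤ 256 * (1 + |v|) ^ 4 := by
        have e1 : (2 + |v| + x) ≤ 4 * (1 + |v|) := by linarith
        calc (2 + |v| + x) ^ 4 ≤ (4 * (1 + |v|)) ^ 4 := pow_le_pow_left₀ (by positivity) e1 4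
          _ = _ := by ring
      have e6 : Real.exp (0 * |v| - v ^ 2 / 2) = Real.exp (-(v ^ 2 / 2)) := by
        congr 1
        ring
      unfold Hs
      rw [norm_mul, norm_mul, norm_div, div_eq_mul_inv, e6]
      push_cast at k1
      calc ‖Gw s (2 + v * I)‖ * ‖(2 + v * I : ℂ)‖⁻¹ * ‖X2 x (2 * (2 + v * I))‖ * ‖L4 s (2 + v * I) x‖
          ≤ (C1 * Real.exp (-(v ^ 2 / 2))) * 1 * 1 * (C2 * (256 * (1 + |v|) ^ 4)) := by
            gcongr
            exact k2.trans (mul_le_mul_of_nonneg_left k5 hC2.le)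
        _ = _ := by ring
    calc ‖(2 * Real.pi : ℂ)⁻¹‖ * ‖∫ v : ℝ, Hs s x (2 + v * I)‖ ≤ 1 * (C1 * C2 * 256 * J) := by gcongr
      _ = _ := one_mul _
  refine ⟨C2 * 256 + 7 * (C1 * C2 * 256 * J) + 1, by positivity, fun s x hs hx1 hx2 => ?_⟩
  have hx0 : 0 < x := by linarith
  have hs' : ‖-s‖ = rho := by rw [norm_neg, hs]
  rw [← ofReal_norm]
  apply ENNReal.ofReal_le_ofReal
  have a1 := hAH s x hs hx1 hx2
  have a2 := hAH (-s) x hs' hx1 hx2
  have a3 := X2_6s hs hx1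
  have a4 : ‖FF s x‖ ≤ C2 * 256 := by
    have e : FF s x = L4 s 0 x := by
      unfold FF L4
      simp
    rw [e]
    have k2 := h2 s 0 x hs (by simp) (by simp) (by left; simp)
    rw [Complex.zero_im, abs_zero, abs_of_pos hx0] at k2
    refine k2.trans ?_
    apply mul_le_mul_of_nonneg_left _ hC2.le
    calc (2 + 0 + x) ^ 4 ≤ 4 ^ 4 := pow_le_pow_left₀ (by positivity) (by linarith) 4
      _ = 256 := by norm_num
  have a5 : x ^ (1 / 2 : ℝ) ≤ 2 := by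
    calc x ^ (1 / 2 : ℝ) ≤ 2 ^ (1 / 2 : ℝ) := Real.rpow_le_rpow hx0.le hx2 (by norm_num)
      _ ≤ 2 ^ (1 : ℝ) := Real.rpow_le_rpow_of_exponent_le (by norm_num) (by norm_num)
      _ = 2 := Real.rpow_one 2
  have n1 := norm_sub_le (FF s x) (AH s x + X2 x (-6 * s) * AH (-s) x)
  have n2 := norm_add_le (AH s x) (X2 x (-6 * s) * AH (-s) x)
  rw [norm_mul] at n2
  have hb : 0 ≤ C1 * C2 * 256 * J := by positivity
  have n3 : ‖X2 x (-6 * s)‖ * ‖AH (-s) x‖ ≤ 6 * (C1 * C2 * 256 * J) := by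
    apply mul_le_mul (by linarith) a2 (norm_nonneg _) (by norm_num)
  linarith

end Afe4Aux

open Afe4Aux in
theorem afe4 : ∃ C : ℝ, 0 < C ∧ ∀ (U : ℝ) (s : ℂ), 1 ≤ U → ‖s‖ = rho →
    ∫⁻ x in Set.Icc (U / 2) (8 * U), ‖FF s x - (AH s x + X2 x (-6 * s) * AH (-s) x)‖ₑ ≤
      ENNReal.ofReal (C * U ^ (1 / 2 : ℝ)) := by
  obtain ⟨C0, K, hC0, hK, h0⟩ := point_big
  obtain ⟨C1, hC1, h1⟩ := point_small
  obtain ⟨C2, hC2, h2⟩ := mom K
  refine ⟨(4 * C0 * C2 + 16 * C0) + 2 * C1, by positivity, fun U s hU hs => ?_⟩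
  have hU0 : 0 < U := by linarith
  have hs' : ‖-s‖ = rho := by rw [norm_neg, hs]
  have hUh : 1 ≤ U ^ (1 / 2 : ℝ) := Real.one_le_rpow hU (by norm_num)
  have hsplit : ∫⁻ x in Set.Icc (U / 2) (8 * U), ‖FF s x - (AH s x + X2 x (-6 * s) * AH (-s) x)‖ₑ ≤
      (∫⁻ x in Set.Icc (U / 2) (8 * U) ∩ Set.Ici 2, ‖FF s x - (AH s x + X2 x (-6 * s) * AH (-s) x)‖ₑ) +
      ∫⁻ x in Set.Icc (1 / 2 : ℝ) 2, ‖FF s x - (AH s x + X2 x (-6 * s) * AH (-s) x)‖ₑ := by
    refine (lintegral_mono_set (fun x hx => ?_)).trans (lintegral_union_le _ _ _)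
    rcases le_total 2 x with h | h
    · exact Or.inl ⟨hx, h⟩
    · exact Or.inr ⟨by linarith [hx.1], h⟩
  have hsmall : ∫⁻ x in Set.Icc (1 / 2 : ℝ) 2, ‖FF s x - (AH s x + X2 x (-6 * s) * AH (-s) x)‖ₑ ≤
      ENNReal.ofReal (2 * C1 * U ^ (1 / 2 : ℝ)) := by
    calc _ ≤ ∫⁻ x in Set.Icc (1 / 2 : ℝ) 2, ENNReal.ofReal C1 :=
          setLIntegral_mono' measurableSet_Icc fun x hx => h1 s x hs hx.1 hx.2
      _ = ENNReal.ofReal C1 * ENNReal.ofReal (2 - 1 / 2) := by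
          rw [setLIntegral_const, Real.volume_Icc]
      _ = ENNReal.ofReal (C1 * (2 - 1 / 2)) := (ENNReal.ofReal_mul hC1.le).symm
      _ ≤ _ := by
          apply ENNReal.ofReal_le_ofReal
          nlinarith
  have hbig : ∫⁻ x in Set.Icc (U / 2) (8 * U) ∩ Set.Ici 2, ‖FF s x - (AH s x + X2 x (-6 * s) * AH (-s) x)‖ₑ ≤
      ENNReal.ofReal ((4 * C0 * C2 + 16 * C0) * U ^ (1 / 2 : ℝ)) := by
    have hd1 : (U / 2) ^ (1 / 1000 - 1 : ℝ) ≤ 2 * U ^ (1 / 1000 - 1 : ℝ) := by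
      rw [Real.div_rpow hU0.le (by norm_num)]
      have e : (2 : ℝ) ^ (1 / 1000 - 1 : ℝ) ≥ 1 / 2 := by
        calc (1 / 2 : ℝ) = 2 ^ (-1 : ℝ) := by rw [Real.rpow_neg_one]; norm_num
          _ ≤ 2 ^ (1 / 1000 - 1 : ℝ) := Real.rpow_le_rpow_of_exponent_le (by norm_num) (by norm_num)
      have e0 : 0 ≤ U ^ (1 / 1000 - 1 : ℝ) := by positivity
      rw [div_le_iff₀ (by positivity)]
      nlinarith
    have hd2 : (U / 2) ^ (-(1 / 2) : ℝ) ≤ 2 * U ^ (-(1 / 2) : ℝ) := by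
      rw [Real.div_rpow hU0.le (by norm_num)]
      have e : (2 : ℝ) ^ (-(1 / 2) : ℝ) ≥ 1 / 2 := by
        calc (1 / 2 : ℝ) = 2 ^ (-1 : ℝ) := by rw [Real.rpow_neg_one]; norm_num
          _ ≤ 2 ^ (-(1 / 2) : ℝ) := Real.rpow_le_rpow_of_exponent_le (by norm_num) (by norm_num)
      have e0 : 0 ≤ U ^ (-(1 / 2) : ℝ) := by positivity
      rw [div_le_iff₀ (by positivity)]
      nlinarith
    have hpt : ∀ x ∈ Set.Icc (U / 2) (8 * U) ∩ Set.Ici 2, ‖FF s x - (AH s x + X2 x (-6 * s) * AH (-s) x)‖ₑ ≤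
        ENNReal.ofReal (C0 * (2 * U ^ (1 / 1000 - 1 : ℝ))) * (MM4 K s x + MM4 K (-s) x) +
          ENNReal.ofReal (C0 * (2 * U ^ (-(1 / 2) : ℝ))) := by
      intro x hx
      have hx1 : U / 2 ≤ x := hx.1.1
      refine (h0 s x hs hx.2).trans ?_
      refine add_le_add (mul_le_mul_left (ENNReal.ofReal_le_ofReal ?_) _) (ENNReal.ofReal_le_ofReal ?_)
      · apply mul_le_mul_of_nonneg_left _ hC0.le
        exact (Real.rpow_le_rpow_of_nonpos (by positivity) hx1 (by norm_num)).trans hd1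
      · apply mul_le_mul_of_nonneg_left _ hC0.le
        exact (Real.rpow_le_rpow_of_nonpos (by positivity) hx1 (by norm_num)).trans hd2
    have hms : ∀ s : ℂ, ‖s‖ = rho → Measurable (MM4 K s) := by
      intro s hs
      have hmeas : Measurable fun p : ℝ × ℝ => ENNReal.ofReal (Real.exp (K * |p.2| - p.2 ^ 2 / 2)) * ‖L4 s (cz + p.2 * I) p.1‖ₑ := by
        have m1 : Measurable fun p : ℝ × ℝ => ENNReal.ofReal (Real.exp (K * |p.2| - p.2 ^ 2 / 2)) :=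
          (Continuous.measurable (by fun_prop)).ennreal_ofReal
        have m2 : Measurable fun p : ℝ × ℝ => ‖L4 s (cz + p.2 * I) p.1‖ₑ := (L4c_cont hs).measurable.enorm
        exact m1.mul m2
      exact hmeas.lintegral_prod_right'
    calc _ ≤ ∫⁻ x in Set.Icc (U / 2) (8 * U) ∩ Set.Ici 2,
          (ENNReal.ofReal (C0 * (2 * U ^ (1 / 1000 - 1 : ℝ))) * (MM4 K s x + MM4 K (-s) x) +
          ENNReal.ofReal (C0 * (2 * U ^ (-(1 / 2) : ℝ)))) :=
          setLIntegral_mono' (measurableSet_Icc.inter measurableSet_Ici) hpt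
      _ ≤ ∫⁻ x in Set.Icc (U / 2) (8 * U),
          (ENNReal.ofReal (C0 * (2 * U ^ (1 / 1000 - 1 : ℝ))) * (MM4 K s x + MM4 K (-s) x) +
          ENNReal.ofReal (C0 * (2 * U ^ (-(1 / 2) : ℝ)))) := lintegral_mono_set Set.inter_subset_left
      _ = ENNReal.ofReal (C0 * (2 * U ^ (1 / 1000 - 1 : ℝ))) *
            ((∫⁻ x in Set.Icc (U / 2) (8 * U), MM4 K s x) + ∫⁻ x in Set.Icc (U / 2) (8 * U), MM4 K (-s) x) +
          ENNReal.ofReal (C0 * (2 * U ^ (-(1 / 2) : ℝ))) * ENNReal.ofReal (8 * U - U / 2) := by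
          rw [lintegral_add_right _ measurable_const, lintegral_const_mul' _ _ ENNReal.ofReal_ne_top,
            lintegral_add_right _ (hms (-s) hs'), setLIntegral_const, Real.volume_Icc]
      _ ≤ ENNReal.ofReal (C0 * (2 * U ^ (1 / 1000 - 1 : ℝ))) *
            (ENNReal.ofReal (C2 * U ^ (1 + 1 / 100 : ℝ)) + ENNReal.ofReal (C2 * U ^ (1 + 1 / 100 : ℝ))) +
          ENNReal.ofReal (C0 * (2 * U ^ (-(1 / 2) : ℝ))) * ENNReal.ofReal (8 * U - U / 2) := by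
          gcongr
          · exact h2 U s hU hs
          · exact h2 U (-s) hU hs'
      _ = ENNReal.ofReal (C0 * (2 * U ^ (1 / 1000 - 1 : ℝ)) * (C2 * U ^ (1 + 1 / 100 : ℝ) + C2 * U ^ (1 + 1 / 100 : ℝ)) +
          C0 * (2 * U ^ (-(1 / 2) : ℝ)) * (8 * U - U / 2)) := by
          rw [← ENNReal.ofReal_add (by positivity) (by positivity), ← ENNReal.ofReal_mul (by positivity),
            ← ENNReal.ofReal_mul (by positivity), ← ENNReal.ofReal_add (by positivity)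
              (mul_nonneg (by positivity) (by linarith))]
      _ ≤ _ := by
          apply ENNReal.ofReal_le_ofReal
          have p1 : U ^ (1 / 1000 - 1 : ℝ) * U ^ (1 + 1 / 100 : ℝ) ≤ U ^ (1 / 2 : ℝ) := by
            rw [← Real.rpow_add hU0]
            exact Real.rpow_le_rpow_of_exponent_le hU (by norm_num)
          have p2 : U ^ (-(1 / 2) : ℝ) * U = U ^ (1 / 2 : ℝ) := by
            nth_rewrite 2 [← Real.rpow_one U]
            rw [← Real.rpow_add hU0]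
            norm_num
          have p3 : 0 ≤ U ^ (-(1 / 2) : ℝ) := by positivity
          calc C0 * (2 * U ^ (1 / 1000 - 1 : ℝ)) * (C2 * U ^ (1 + 1 / 100 : ℝ) + C2 * U ^ (1 + 1 / 100 : ℝ)) +
              C0 * (2 * U ^ (-(1 / 2) : ℝ)) * (8 * U - U / 2)
              = 4 * C0 * C2 * (U ^ (1 / 1000 - 1 : ℝ) * U ^ (1 + 1 / 100 : ℝ)) +
                15 * C0 * (U ^ (-(1 / 2) : ℝ) * U) := by ring
            _ ≤ 4 * C0 * C2 * U ^ (1 / 2 : ℝ) + 15 * C0 * U ^ (1 / 2 : ℝ) := by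
                rw [p2]
                gcongr
            _ ≤ _ := by nlinarith
  calc _ ≤ _ := hsplit
    _ ≤ ENNReal.ofReal ((4 * C0 * C2 + 16 * C0) * U ^ (1 / 2 : ℝ)) + ENNReal.ofReal (2 * C1 * U ^ (1 / 2 : ℝ)) :=
        add_le_add hbig hsmall
    _ = ENNReal.ofReal ((4 * C0 * C2 + 16 * C0) * U ^ (1 / 2 : ℝ) + 2 * C1 * U ^ (1 / 2 : ℝ)) :=
        (ENNReal.ofReal_add (by positivity) (by positivity)).symm
    _ = _ := by
        congr 1
        ring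

end Pool.Agent.P07318f
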