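import Pool.Agent.Lib.P07318f.Kloo

/-!
# Incomplete Kloosterman sums

PROOF. Completion: `∑_{1≤m≤X} f(m) = (1/q) ∑_{h mod q} S(-h, k) ∑_{1≤m≤X} e(hm/q)`, and `|∑_{m≤X} e(hm/q)| ≤ 1/|sin(πh/q)|`.
-/

set_option autoImplicit false

namespace Pool.Agent.P07318f

open Complex

namespace IncKlooAux

/-- Kloosterman sum. -/
noncomputable def KS (q : ℕ) [NeZero q] (u v : ZMod q) : ℂ :=
  ∑ x : (ZMod q)ˣ, ZMod.stdAddChar (u * (x : ZMod q) + v * ((x⁻¹ : (ZMod q)ˣ) : ZMod q))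

lemma norm_std (q : ℕ) [NeZero q] (x : ZMod q) : ‖ZMod.stdAddChar x‖ = 1 := by
  rw [ZMod.stdAddChar_apply]
  exact Circle.norm_coe _

lemma completion (q : ℕ) [NeZero q] (k : ZMod q) (m : ℕ) :
    (if Nat.Coprime m q then ZMod.stdAddChar (k * ((m : ZMod q))⁻¹) else 0) =
      (q : ℂ)⁻¹ * ∑ h : ZMod q, ZMod.stdAddChar (h * (m : ZMod q)) * KS q (-h) k := by
  classical
  have hq : (q : ℂ) ≠ 0 := by exact_mod_cast NeZero.ne q
  have h1 : ∑ h : ZMod q, ZMod.stdAddChar (h * (m : ZMod q)) * KS q (-h) k =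
      ∑ x : (ZMod q)ˣ, ZMod.stdAddChar (k * ((x⁻¹ : (ZMod q)ˣ) : ZMod q)) *
        ∑ h : ZMod q, ZMod.stdAddChar (h * ((m : ZMod q) - (x : ZMod q))) := by
    unfold KS
    simp only [Finset.mul_sum]
    rw [Finset.sum_comm]
    refine Finset.sum_congr rfl fun x _ => Finset.sum_congr rfl fun h _ => ?_
    rw [← AddChar.map_add_eq_mul, ← AddChar.map_add_eq_mul]
    congr 1
    ring
  have h2 : ∀ x : (ZMod q)ˣ, ∑ h : ZMod q, ZMod.stdAddChar (h * ((m : ZMod q) - (x : ZMod q))) =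
      if (m : ZMod q) - (x : ZMod q) = 0 then (q : ℂ) else 0 := by
    intro x
    rw [AddChar.sum_mulShift _ (ZMod.isPrimitive_stdAddChar q), ZMod.card]
    split_ifs <;> simp
  rw [h1, Finset.sum_congr rfl fun x _ => by rw [h2 x]]
  by_cases hm : Nat.Coprime m q
  · rw [if_pos hm]
    have h3 : ∀ x : (ZMod q)ˣ, (ZMod.stdAddChar (k * ((x⁻¹ : (ZMod q)ˣ) : ZMod q)) *
        if (m : ZMod q) - (x : ZMod q) = 0 then (q : ℂ) else 0) =
        if x = ZMod.unitOfCoprime m hm then ZMod.stdAddChar (k * ((x⁻¹ : (ZMod q)ˣ) : ZMod q)) * (q : ℂ)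
          else 0 := by
      intro x
      by_cases hx : x = ZMod.unitOfCoprime m hm
      · rw [if_pos hx, if_pos]
        rw [hx, ZMod.coe_unitOfCoprime, sub_self]
      · rw [if_neg hx, if_neg, mul_zero]
        intro h4
        apply hx
        ext
        rw [ZMod.coe_unitOfCoprime]
        exact (sub_eq_zero.1 h4).symm
    rw [Finset.sum_congr rfl fun x _ => h3 x, Finset.sum_ite_eq' Finset.univ, if_pos (Finset.mem_univ _)]
    have h5 : ((((ZMod.unitOfCoprime m hm)⁻¹ : (ZMod q)ˣ)) : ZMod q) = (m : ZMod q)⁻¹ := by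
      rw [← ZMod.inv_coe_unit, ZMod.coe_unitOfCoprime]
    rw [h5]
    field_simp
  · rw [if_neg hm, Finset.sum_eq_zero, mul_zero]
    intro x _
    rw [if_neg, mul_zero]
    intro h4
    apply hm
    rw [← ZMod.isUnit_iff_coprime, sub_eq_zero.1 h4]
    exact x.isUnit

lemma geo (q : ℕ) [NeZero q] (h : ℕ) (h0 : 0 < h) (hq : h < q) (X : ℕ) :
    ‖∑ m ∈ Finset.Icc 1 X, ZMod.stdAddChar ((h : ZMod q) * (m : ZMod q))‖ ≤
      q / 2 * (1 / (h : ℝ) + 1 / ((q - h : ℕ) : ℝ)) := by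
  set z : ℂ := ZMod.stdAddChar (h : ZMod q) with hz
  have hqr : (0:ℝ) < q := by exact_mod_cast (by omega : 0 < q)
  have hhr : (0:ℝ) < h := by exact_mod_cast h0
  have hqh : (0:ℝ) < ((q - h : ℕ) : ℝ) := by exact_mod_cast (by omega : 0 < q - h)
  have hqh' : ((q - h : ℕ) : ℝ) = q - h := by
    rw [Nat.cast_sub hq.le]
  have hzn : ‖z‖ = 1 := norm_std q _
  have h1 : ∀ m : ℕ, ZMod.stdAddChar ((h : ZMod q) * (m : ZMod q)) = z ^ m := by
    intro m
    rw [hz, ← AddChar.map_nsmul_eq_pow, nsmul_eq_mul, mul_comm]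
  rw [Finset.sum_congr rfl fun m _ => h1 m]
  have h2 : (1 - z) * ∑ m ∈ Finset.Icc 1 X, z ^ m = z - z ^ (X + 1) := by
    induction X with
    | zero => simp
    | succ X ih =>
      rw [Finset.sum_Icc_succ_top (by omega), mul_add, ih]
      ring
  have h3 : ‖1 - z‖ * ‖∑ m ∈ Finset.Icc 1 X, z ^ m‖ ≤ 2 := by
    rw [← norm_mul, h2]
    refine (norm_sub_le _ _).trans ?_
    rw [norm_pow, hzn, one_pow]
    norm_num
  have h4 : ‖1 - z‖ = 2 * Real.sin (Real.pi * (h / q)) := by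
    have e1 : z = cexp (((2 * (Real.pi * (h / q)) : ℝ) : ℂ) * I) := by
      rw [hz, show (h : ZMod q) = ((h : ℤ) : ZMod q) by simp, ZMod.stdAddChar_coe]
      congr 1
      push_cast
      ring
    have e2 : 1 - z = -2 * I * cexp (((Real.pi * (h / q) : ℝ) : ℂ) * I) *
        ((Real.sin (Real.pi * (h / q)) : ℝ) : ℂ) := by
      have e3 : z = cexp (((Real.pi * (h / q) : ℝ) : ℂ) * I) ^ 2 := by
        rw [e1, ← Complex.exp_nat_mul]
        congr 1
        push_cast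
        ring
      rw [e3, Complex.exp_mul_I, ← Complex.ofReal_cos, ← Complex.ofReal_sin]
      have h7 : ((Real.cos (Real.pi * (h / q)) : ℝ) : ℂ) ^ 2 +
          ((Real.sin (Real.pi * (h / q)) : ℝ) : ℂ) ^ 2 = 1 := by
        exact_mod_cast Real.cos_sq_add_sin_sq (Real.pi * (h / q))
      set c : ℂ := ((Real.cos (Real.pi * (h / q)) : ℝ) : ℂ)
      set s : ℂ := ((Real.sin (Real.pi * (h / q)) : ℝ) : ℂ)
      linear_combination (-1) * h7 + s ^ 2 * Complex.I_sq
    have e4 : 0 ≤ Real.sin (Real.pi * (h / q)) := by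
      apply Real.sin_nonneg_of_nonneg_of_le_pi
      · positivity
      · have : (h : ℝ) / q ≤ 1 := by
          rw [div_le_one hqr]
          exact_mod_cast hq.le
        have := Real.pi_pos
        nlinarith
    rw [e2, norm_mul, norm_mul, norm_mul, Complex.norm_exp_ofReal_mul_I, Complex.norm_I,
      Complex.norm_real, Real.norm_eq_abs, abs_of_nonneg e4]
    simp
  have h5 : ∀ t : ℝ, 0 < t → t < 1 → 2 * min t (1 - t) ≤ Real.sin (Real.pi * t) := by
    intro t ht0 ht1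
    have hpi := Real.pi_pos
    rcases le_or_gt t (1 / 2) with h | h
    · have h3 := Real.mul_le_sin (x := Real.pi * t) (by nlinarith) (by nlinarith)
      have h4 : 2 / Real.pi * (Real.pi * t) = 2 * t := by field_simp
      rw [h4] at h3
      exact (mul_le_mul_of_nonneg_left (min_le_left _ _) (by norm_num)).trans h3
    · have h3 := Real.mul_le_sin (x := Real.pi * (1 - t)) (by nlinarith) (by nlinarith)
      have h4 : 2 / Real.pi * (Real.pi * (1 - t)) = 2 * (1 - t) := by field_simp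
      have h5 : Real.sin (Real.pi * (1 - t)) = Real.sin (Real.pi * t) := by
        rw [mul_sub, mul_one, Real.sin_pi_sub]
      rw [h4, h5] at h3
      exact (mul_le_mul_of_nonneg_left (min_le_right _ _) (by norm_num)).trans h3
  have h6 := h5 ((h : ℝ) / q) (by positivity) (by
    rw [div_lt_one hqr]
    exact_mod_cast hq)
  have h7 : ∀ N : ℝ, 0 ≤ N → ‖1 - z‖ * N ≤ 2 → N ≤ q / 2 * (1 / (h : ℝ) + 1 / ((q - h : ℕ) : ℝ)) := by
    intro N hN hN2
    rw [h4] at hN2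
    have e1 : 2 * min ((h : ℝ) / q) (1 - h / q) * N ≤ 1 := by
      have := mul_le_mul_of_nonneg_right h6 hN
      linarith
    rcases min_choice ((h : ℝ) / q) (1 - h / q) with e | e
    · rw [e] at e1
      have e2 : N ≤ q / 2 * (1 / (h : ℝ)) := by
        have : 2 * ((h : ℝ) / q) * N * (q / (2 * h)) ≤ 1 * (q / (2 * h)) :=
          mul_le_mul_of_nonneg_right e1 (by positivity)
        have e3 : 2 * ((h : ℝ) / q) * N * (q / (2 * h)) = N := by field_simp
        rw [e3] at this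
        calc N ≤ 1 * (q / (2 * h)) := this
          _ = q / 2 * (1 / (h : ℝ)) := by field_simp
      have e4 : 0 ≤ q / 2 * (1 / ((q - h : ℕ) : ℝ)) := by positivity
      rw [mul_add]
      linarith
    · rw [e] at e1
      have e0 : 1 - (h : ℝ) / q = ((q - h : ℕ) : ℝ) / q := by
        rw [hqh']
        field_simp
      rw [e0] at e1
      set w : ℝ := ((q - h : ℕ) : ℝ)
      have e2 : N ≤ q / 2 * (1 / w) := by
        have : 2 * (w / q) * N * (q / (2 * w)) ≤ 1 * (q / (2 * w)) :=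
          mul_le_mul_of_nonneg_right e1 (by positivity)
        have e3 : 2 * (w / q) * N * (q / (2 * w)) = N := by field_simp
        rw [e3] at this
        calc N ≤ 1 * (q / (2 * w)) := this
          _ = q / 2 * (1 / w) := by field_simp
      have e4 : 0 ≤ q / 2 * (1 / (h : ℝ)) := by positivity
      rw [mul_add]
      linarith
  exact h7 _ (norm_nonneg _) h3

lemma sum_zmod (q : ℕ) [NeZero q] (g : ZMod q → ℝ) :
    ∑ h : ZMod q, g h = ∑ i ∈ Finset.range q, g (i : ZMod q) := by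
  refine Finset.sum_nbij' (fun h => h.val) (fun i => (i : ZMod q)) ?_ ?_ ?_ ?_ ?_
  · intro h _
    exact Finset.mem_range.2 (ZMod.val_lt h)
  · intro i _
    exact Finset.mem_univ _
  · intro h _
    exact ZMod.natCast_zmod_val h
  · intro i hi
    exact ZMod.val_cast_of_lt (Finset.mem_range.1 hi)
  · intro h _
    rw [ZMod.natCast_zmod_val]

lemma sum_geo (q : ℕ) [NeZero q] (X : ℕ) :
    ∑ h : ZMod q, ‖∑ m ∈ Finset.Icc 1 X, ZMod.stdAddChar (h * (m : ZMod q))‖ ≤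
      X + q * (1 + Real.log q) := by
  have hq1 : 1 ≤ q := Nat.pos_of_ne_zero (NeZero.ne q)
  rw [sum_zmod, Finset.range_eq_Ico, Finset.sum_eq_sum_Ico_succ_bot (by omega)]
  have h0 : ‖∑ m ∈ Finset.Icc 1 X, ZMod.stdAddChar (((0 : ℕ) : ZMod q) * (m : ZMod q))‖ ≤ X := by
    refine (norm_sum_le _ _).trans ?_
    simp
  have h1 : ∑ i ∈ Finset.Ico (0 + 1) q,
      ‖∑ m ∈ Finset.Icc 1 X, ZMod.stdAddChar ((i : ZMod q) * (m : ZMod q))‖ ≤
      ∑ i ∈ Finset.Ico 1 q, (q / 2 * (1 / (i : ℝ)) + q / 2 * (1 / ((q - i : ℕ) : ℝ))) := by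
    rw [zero_add]
    refine Finset.sum_le_sum fun i hi => ?_
    rw [Finset.mem_Ico] at hi
    have := geo q i (by omega) hi.2 X
    rwa [mul_add] at this
  have h2 : ∑ i ∈ Finset.Ico 1 q, (q / 2 * (1 / ((q - i : ℕ) : ℝ))) =
      ∑ i ∈ Finset.Ico 1 q, (q / 2 * (1 / (i : ℝ))) := by
    refine Finset.sum_nbij' (fun i => q - i) (fun i => q - i) ?_ ?_ ?_ ?_ ?_
    · intro i hi
      rw [Finset.mem_Ico] at hi ⊢
      omega
    · intro i hi
      rw [Finset.mem_Ico] at hi ⊢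
      omega
    · intro i hi
      rw [Finset.mem_Ico] at hi
      omega
    · intro i hi
      rw [Finset.mem_Ico] at hi
      omega
    · intro i hi
      rfl
  have h3 : ∑ i ∈ Finset.Ico 1 q, (1 / (i : ℝ)) ≤ 1 + Real.log q := by
    have e1 : ∑ i ∈ Finset.Ico 1 q, (1 / (i : ℝ)) ≤ ((harmonic q : ℚ) : ℝ) := by
      rw [harmonic_eq_sum_Icc]
      push_cast
      simp only [one_div]
      refine Finset.sum_le_sum_of_subset_of_nonneg ?_ ?_
      · intro i hi
        rw [Finset.mem_Ico] at hi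
        rw [Finset.mem_Icc]
        omega
      · intro i _ _
        positivity
    exact e1.trans (harmonic_le_one_add_log q)
  have h4 : ∑ i ∈ Finset.Ico 1 q, (q / 2 * (1 / (i : ℝ)) + q / 2 * (1 / ((q - i : ℕ) : ℝ))) =
      q * ∑ i ∈ Finset.Ico 1 q, (1 / (i : ℝ)) := by
    rw [Finset.sum_add_distrib, h2, ← Finset.mul_sum]
    ring
  rw [h4] at h1
  have h5 : (q : ℝ) * ∑ i ∈ Finset.Ico 1 q, (1 / (i : ℝ)) ≤ q * (1 + Real.log q) :=
    mul_le_mul_of_nonneg_left h3 (Nat.cast_nonneg q)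
  linarith

end IncKlooAux

theorem inc_kloo (ε : ℝ) (hε : 0 < ε) : ∃ C : ℝ, 0 < C ∧ ∀ (q : ℕ) [NeZero q] (k : ZMod q) (X : ℕ),
    ‖∑ m ∈ (Finset.Icc 1 X).filter (fun m => Nat.Coprime m q), ZMod.stdAddChar (k * ((m : ZMod q))⁻¹)‖ ≤
      C * (q : ℝ) ^ (3 / 4 + ε) * (Nat.gcd k.val q : ℝ) ^ (1 / 4 : ℝ) * (1 + X / q) := by
  obtain ⟨C, hC, hK⟩ := kloo (ε / 2) (by linarith)
  refine ⟨C * (1 + 2 / ε), by positivity, fun q _ k X => ?_⟩
  have hq1 : 1 ≤ q := Nat.pos_of_ne_zero (NeZero.ne q)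
  have hqr : (1:ℝ) ≤ q := by exact_mod_cast hq1
  have hq0 : (0:ℝ) < q := by linarith
  set G : ℝ := (Nat.gcd k.val q : ℝ) ^ (1 / 4 : ℝ) with hG
  have hG0 : 0 ≤ G := by positivity
  set K : ℝ := C * (q : ℝ) ^ (3 / 4 + ε / 2) * G with hKdef
  have hK0 : 0 ≤ K := by positivity
  have h1 : ∑ m ∈ (Finset.Icc 1 X).filter (fun m => Nat.Coprime m q),
      ZMod.stdAddChar (k * ((m : ZMod q))⁻¹) = (q : ℂ)⁻¹ * ∑ h : ZMod q,
        IncKlooAux.KS q (-h) k * ∑ m ∈ Finset.Icc 1 X, ZMod.stdAddChar (h * (m : ZMod q)) := by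
    rw [Finset.sum_filter, Finset.sum_congr rfl fun m _ => IncKlooAux.completion q k m,
      ← Finset.mul_sum, Finset.sum_comm]
    congr 1
    refine Finset.sum_congr rfl fun h _ => ?_
    rw [Finset.mul_sum]
    exact Finset.sum_congr rfl fun m _ => mul_comm _ _
  rw [h1, norm_mul, norm_inv, Complex.norm_natCast]
  have h2 : ‖∑ h : ZMod q, IncKlooAux.KS q (-h) k *
      ∑ m ∈ Finset.Icc 1 X, ZMod.stdAddChar (h * (m : ZMod q))‖ ≤ K * (X + q * (1 + Real.log q)) := by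
    refine (norm_sum_le _ _).trans ?_
    refine le_trans (Finset.sum_le_sum fun h _ => ?_) (le_trans (le_of_eq
      (Finset.mul_sum Finset.univ (fun h : ZMod q =>
        ‖∑ m ∈ Finset.Icc 1 X, ZMod.stdAddChar (h * (m : ZMod q))‖) K).symm)
      (mul_le_mul_of_nonneg_left (IncKlooAux.sum_geo q X) hK0))
    rw [norm_mul]
    exact mul_le_mul_of_nonneg_right (hK q (-h) k) (norm_nonneg _)
  have h3 : 1 + Real.log q ≤ (1 + 2 / ε) * (q : ℝ) ^ (ε / 2) := by
    have e1 := Real.log_le_rpow_div (x := (q : ℝ)) (by linarith) (show 0 < ε / 2 by linarith)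
    have e2 : (1:ℝ) ≤ (q : ℝ) ^ (ε / 2) := Real.one_le_rpow hqr (by linarith)
    have e3 : (q : ℝ) ^ (ε / 2) / (ε / 2) = 2 / ε * (q : ℝ) ^ (ε / 2) := by field_simp
    rw [e3] at e1
    linarith
  have h4 : (1:ℝ) ≤ (1 + 2 / ε) * (q : ℝ) ^ (ε / 2) := by
    have : 0 ≤ Real.log q := Real.log_nonneg hqr
    linarith
  have h5 : (q : ℝ) ^ (3 / 4 + ε) = (q : ℝ) ^ (3 / 4 + ε / 2) * (q : ℝ) ^ (ε / 2) := by
    rw [← Real.rpow_add hq0]
    congr 1
    ring
  calc (q : ℝ)⁻¹ * ‖∑ h : ZMod q, IncKlooAux.KS q (-h) k *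
      ∑ m ∈ Finset.Icc 1 X, ZMod.stdAddChar (h * (m : ZMod q))‖
      ≤ (q : ℝ)⁻¹ * (K * (X + q * (1 + Real.log q))) := mul_le_mul_of_nonneg_left h2 (by positivity)
    _ = K * (X / q + (1 + Real.log q)) := by field_simp
    _ ≤ K * ((1 + 2 / ε) * (q : ℝ) ^ (ε / 2) * (X / q) + (1 + 2 / ε) * (q : ℝ) ^ (ε / 2)) := by
        refine mul_le_mul_of_nonneg_left (add_le_add ?_ h3) hK0
        exact le_mul_of_one_le_left (by positivity) h4
    _ = C * (1 + 2 / ε) * (q : ℝ) ^ (3 / 4 + ε) * G * (1 + X / q) := by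
        rw [h5, hKdef]
        ring

end Pool.Agent.P07318f
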