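import Pool.Agent.Lib.P07318f.Defs
import Pool.Agent.Lib.P07318f.IncKloo
import Pool.Agent.Lib.KeZhao.Divisor

/-!
# Solutions of `a m₁ m₂ ≡ l (mod b n)` in a box

`disc a b n l X Y = ∑_{m ≤ X} (#{m' ≤ Y : b n | a m m' - l} - [g | l] g Y / (b n))`, `g = g(m) = gcd(a m, b n)`.

PROOF. `q = b n`. For a given `m` the congruence is solvable iff `g | l`, then `m' ≡ c(m) (mod q')`, `q' = q/g`, `c(m) = (am/g)⁻¹ (l/g) mod q'`.
Group by the value `g` of `g(m)`, `g | q`, `g | l` (so `g ≤ |l|`, `q' ≥ q/|l|`; at most `|l|` values). For `c mod q'`: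
`#{m' ≤ Y : m' ≡ c (q')} = (1/q') ∑_{h mod q'} e(hc/q') ∑_{m' ≤ Y} e(-hm'/q')`; the term `h = 0` is `⌊Y⌋/q'`, it differs from `Y/q'` by at most
`1/q'` (total of these over `m ≤ X`: `≤ X |l|/q ≤ |l| X n^(-1/4+ε)`), the others have `(1/q')|∑_{m'≤Y}| ≤ 1/(2|h|)` for the representatives `0 < |h| ≤ q'/2`,
UNIFORMLY in `Y`. So it remains `∑_{0<|h|≤q'/2} (1/2|h|) |S_h|`, `S_h = ∑_{m ≤ X, g(m) = g} e(h c(m)/q')`. `g | am` iff `g₁ | m`, `g₁ = g/gcd(a,g)`; write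
`m = g₁ m₀`, `am/g = a₁ m₀` with `a₁ = a/gcd(a,g)`; `g(m) = g` iff `gcd(a₁ m₀, q') = 1`. If `gcd(a₁, q') > 1` then `S_h = 0`, otherwise
`S_h = ∑_{m₀ ≤ X/g₁, (m₀,q')=1} e(h l' a₁⁻¹ m₀⁻¹/q')`, `l' = l/g`: `inc_kloo` with `k = h l' a₁⁻¹`, `gcd(k,q') = gcd(h l', q') ≤ |l'| gcd(h,q')`, and
`X/(g₁ q') = X gcd(a,g)/q ≤ X a/q`. `∑_{0<|h|≤q'/2} (1/|h|) gcd(h,q')^(1/4) ≤ C q^ε` (`∑_{d|q'} d^(1/4) ∑_{d|h} 1/h ≤ d(q') (1+log q')`). Total:
`|disc| ≤ ∑_g C q^(3/4+2ε) |l|^(1/4) (1 + aX/q) + |l| X/q ≤ C |l|² a b (n^(3/4+2ε) + X n^(-1/4+2ε))` using `q = bn`, `b^(3/4+2ε) ≤ b`. Rename `ε`. (`ε ≤ 1/8`.)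
For `X < 1` everything is `0`; `Y ≥ 0`.
-/

set_option autoImplicit false

namespace Pool.Agent.P07318f

open Complex

namespace CongCountAux

theorem norm_std_sub {q : ℕ} [NeZero q] {h : ZMod q} (hh : h ≠ 0) :
    4 * ((h.val : ℝ) * ((q : ℝ) - h.val)) / (q : ℝ) ^ 2 ≤ ‖ZMod.stdAddChar (-h) - 1‖ := by
  have hq : (0 : ℝ) < q := by exact_mod_cast Nat.pos_of_ne_zero (NeZero.ne q)
  have hv0 : (0 : ℝ) < h.val := by
    have : h.val ≠ 0 := by simpa [ZMod.val_eq_zero] using hh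
    exact_mod_cast Nat.pos_of_ne_zero this
  have hv1 : (h.val : ℝ) < q := by exact_mod_cast ZMod.val_lt h
  have e1 : (ZMod.stdAddChar (-h) : ℂ) = cexp (I * ((-(2 * Real.pi * h.val / q) : ℝ) : ℂ)) := by
    have : (-h : ZMod q) = ((-(h.val : ℤ) : ℤ) : ZMod q) := by
      push_cast
      rw [ZMod.natCast_zmod_val]
    rw [this, ZMod.stdAddChar_coe]
    congr 1
    push_cast
    ring
  rw [e1, Complex.norm_exp_I_mul_ofReal_sub_one, Real.norm_eq_abs, abs_mul, abs_two]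
  set θ : ℝ := h.val / q with hθ
  have hθ0 : 0 < θ := by positivity
  have hθ1 : θ < 1 := (div_lt_one hq).2 hv1
  have e2 : -(2 * Real.pi * h.val / q) / 2 = -(Real.pi * θ) := by
    rw [hθ]; ring
  rw [e2, Real.sin_neg, abs_neg]
  have e3 : 4 * ((h.val : ℝ) * ((q : ℝ) - h.val)) / (q : ℝ) ^ 2 = 2 * (2 * (θ * (1 - θ))) := by
    rw [hθ]; field_simp
    ring
  rw [e3]
  have key : 2 * (θ * (1 - θ)) ≤ Real.sin (Real.pi * θ) := by
    rcases le_total θ (1 / 2) with h1 | h1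
    · have h2 := Real.mul_le_sin (x := Real.pi * θ) (by positivity) (by nlinarith [Real.pi_pos])
      have h3 : 2 / Real.pi * (Real.pi * θ) = 2 * θ := by
        field_simp
      rw [h3] at h2
      nlinarith
    · have h2 := Real.mul_le_sin (x := Real.pi * (1 - θ)) (mul_nonneg Real.pi_pos.le (by linarith))
        (by nlinarith [Real.pi_pos])
      have h3 : 2 / Real.pi * (Real.pi * (1 - θ)) = 2 * (1 - θ) := by
        field_simp
      rw [h3] at h2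
      have h4 : Real.sin (Real.pi * (1 - θ)) = Real.sin (Real.pi * θ) := by
        rw [mul_sub, mul_one, Real.sin_pi_sub]
      rw [h4] at h2
      nlinarith
  have : Real.sin (Real.pi * θ) ≤ |Real.sin (Real.pi * θ)| := le_abs_self _
  linarith

theorem geom_bound {q : ℕ} [NeZero q] {h : ZMod q} (hh : h ≠ 0) (N : ℕ) :
    ‖∑ m ∈ Finset.Icc 1 N, (ZMod.stdAddChar (-(h * (m : ZMod q))) : ℂ)‖ ≤
      q * (1 / (h.val : ℝ) + 1 / ((q : ℝ) - h.val)) := by
  have hq : (0 : ℝ) < q := by exact_mod_cast Nat.pos_of_ne_zero (NeZero.ne q)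
  have hv0 : (0 : ℝ) < h.val := by
    have : h.val ≠ 0 := by simpa [ZMod.val_eq_zero] using hh
    exact_mod_cast Nat.pos_of_ne_zero this
  have hv1 : (h.val : ℝ) < q := by exact_mod_cast ZMod.val_lt h
  set z : ℂ := ZMod.stdAddChar (-h) with hz
  have h1 := norm_std_sub hh
  rw [← hz] at h1
  have hpos : 0 < 4 * ((h.val : ℝ) * ((q : ℝ) - h.val)) / (q : ℝ) ^ 2 := by
    have : 0 < (q : ℝ) - h.val := by linarith
    positivity
  have hz1 : z ≠ 1 := by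
    intro h2
    rw [h2, sub_self, norm_zero] at h1
    linarith
  have hn : ‖z‖ = 1 := by
    rw [hz, ZMod.stdAddChar_apply]
    exact Circle.norm_coe _
  have e1 : ∀ m : ℕ, (ZMod.stdAddChar (-(h * (m : ZMod q))) : ℂ) = z ^ m := by
    intro m
    rw [hz, ← AddChar.map_nsmul_eq_pow]
    congr 1
    rw [nsmul_eq_mul]
    ring
  have e2 : ∑ m ∈ Finset.Icc 1 N, (ZMod.stdAddChar (-(h * (m : ZMod q))) : ℂ) = z * ((z ^ N - 1) / (z - 1)) := by
    rw [← geom_sum_eq hz1, Finset.sum_congr rfl (fun m _ => e1 m)]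
    clear e1
    induction N with
    | zero => simp
    | succ n ih => rw [Finset.sum_Icc_succ_top (by omega), ih, Finset.sum_range_succ, mul_add, pow_succ']
  rw [e2, norm_mul, hn, one_mul, norm_div]
  have h3 : ‖z ^ N - 1‖ ≤ 2 := by
    calc ‖z ^ N - 1‖ ≤ ‖z ^ N‖ + ‖(1 : ℂ)‖ := norm_sub_le _ _
      _ = 2 := by rw [norm_pow, hn]; norm_num
  calc ‖z ^ N - 1‖ / ‖z - 1‖ ≤ 2 / (4 * ((h.val : ℝ) * ((q : ℝ) - h.val)) / (q : ℝ) ^ 2) :=
        div_le_div₀ (by norm_num) h3 hpos h1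
    _ = (1 / 2) * (q * (1 / (h.val : ℝ) + 1 / ((q : ℝ) - h.val))) := by
        have : (q : ℝ) - h.val ≠ 0 := by linarith
        field_simp
        ring
    _ ≤ 1 * (q * (1 / (h.val : ℝ) + 1 / ((q : ℝ) - h.val))) := by
        apply mul_le_mul_of_nonneg_right (by norm_num)
        have : 0 < (q : ℝ) - h.val := by linarith
        positivity
    _ = _ := one_mul _

theorem sum_zmod_val {q : ℕ} [NeZero q] (f : ℕ → ℝ) : ∑ h : ZMod q, f h.val = ∑ i ∈ Finset.range q, f i := by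
  obtain ⟨n, rfl⟩ : ∃ n, q = n + 1 := ⟨q - 1, by have := NeZero.ne q; omega⟩
  exact Fin.sum_univ_eq_sum_range f (n + 1)

theorem gcd_sum_one (q : ℕ) (hq : 1 ≤ q) :
    ∑ i ∈ Finset.Ico 1 q, (Nat.gcd i q : ℝ) / i ≤ (q.divisors.card : ℝ) * (1 + Real.log q) := by
  have h1 : ∀ i ∈ Finset.Ico 1 q, (Nat.gcd i q : ℝ) / i ≤ ∑ d ∈ q.divisors, if d ∣ i then (d : ℝ) / i else 0 := by
    intro i hi
    have h2 : Nat.gcd i q ∈ q.divisors := Nat.mem_divisors.2 ⟨Nat.gcd_dvd_right _ _, by omega⟩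
    refine le_trans ?_ (Finset.single_le_sum (f := fun d : ℕ => if d ∣ i then (d : ℝ) / i else 0) ?_ h2)
    · simp only [Nat.gcd_dvd_left, if_true]
      exact le_rfl
    · intro d _
      split_ifs <;> positivity
  refine le_trans (Finset.sum_le_sum h1) ?_
  rw [Finset.sum_comm]
  have h3 : ∀ d ∈ q.divisors, ∑ i ∈ Finset.Ico 1 q, (if d ∣ i then (d : ℝ) / i else 0) ≤ 1 + Real.log q := by
    intro d hd
    have hd0 : 0 < d := Nat.pos_of_mem_divisors hd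
    rw [← Finset.sum_filter]
    have h4 : (Finset.Ico 1 q).filter (fun i => d ∣ i) ⊆ (Finset.Icc 1 q).image (fun j => d * j) := by
      intro i hi
      rw [Finset.mem_filter, Finset.mem_Ico] at hi
      obtain ⟨⟨h5, h6⟩, j, rfl⟩ := hi
      rw [Finset.mem_image]
      refine ⟨j, ?_, rfl⟩
      rw [Finset.mem_Icc]
      constructor
      · rcases Nat.eq_zero_or_pos j with h | h
        · subst h; simp at h5
        · exact h
      · calc j ≤ d * j := Nat.le_mul_of_pos_left _ hd0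
          _ ≤ q := h6.le
    refine le_trans (Finset.sum_le_sum_of_subset_of_nonneg h4 (fun i _ _ => by positivity)) ?_
    rw [Finset.sum_image (fun x _ y _ h => Nat.eq_of_mul_eq_mul_left hd0 h)]
    have h7 : ∑ x ∈ Finset.Icc 1 q, (d : ℝ) / ((d * x : ℕ) : ℝ) = ((harmonic q : ℚ) : ℝ) := by
      rw [harmonic_eq_sum_Icc]
      push_cast
      apply Finset.sum_congr rfl
      intro x hx
      rw [Finset.mem_Icc] at hx
      have : (x : ℝ) ≠ 0 := by
        have : 0 < x := by omega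
        positivity
      field_simp
    rw [h7]
    exact harmonic_le_one_add_log q
  refine le_trans (Finset.sum_le_sum h3) ?_
  rw [Finset.sum_const, nsmul_eq_mul]

theorem gcd_sum_two (q : ℕ) [NeZero q] :
    ∑ h : ZMod q, (if h = 0 then (0 : ℝ) else (Nat.gcd h.val q : ℝ) * (1 / (h.val : ℝ) + 1 / ((q : ℝ) - h.val))) ≤
      2 * ((q.divisors.card : ℝ) * (1 + Real.log q)) := by
  have hq : 1 ≤ q := Nat.one_le_iff_ne_zero.2 (NeZero.ne q)
  have e1 : ∀ h : ZMod q, (if h = 0 then (0 : ℝ) else (Nat.gcd h.val q : ℝ) * (1 / (h.val : ℝ) + 1 / ((q : ℝ) - h.val))) =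
      (fun i : ℕ => if i = 0 then (0 : ℝ) else (Nat.gcd i q : ℝ) * (1 / (i : ℝ) + 1 / ((q : ℝ) - i))) h.val := by
    intro h
    simp only [ZMod.val_eq_zero]
  rw [Finset.sum_congr rfl (fun h _ => e1 h),
    sum_zmod_val (fun i : ℕ => if i = 0 then (0 : ℝ) else (Nat.gcd i q : ℝ) * (1 / (i : ℝ) + 1 / ((q : ℝ) - i)))]
  rw [Finset.range_eq_Ico, Finset.sum_eq_sum_Ico_succ_bot (by omega)]
  simp only [if_true, zero_add]
  have e2 : ∑ i ∈ Finset.Ico 1 q, (if i = 0 then (0 : ℝ) else (Nat.gcd i q : ℝ) * (1 / (i : ℝ) + 1 / ((q : ℝ) - i))) =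
      ∑ i ∈ Finset.Ico 1 q, (Nat.gcd i q : ℝ) / i + ∑ i ∈ Finset.Ico 1 q, (Nat.gcd i q : ℝ) / ((q : ℝ) - i) := by
    rw [← Finset.sum_add_distrib]
    apply Finset.sum_congr rfl
    intro i hi
    rw [Finset.mem_Ico] at hi
    rw [if_neg (by omega)]
    ring
  have e3 : ∑ i ∈ Finset.Ico 1 q, (Nat.gcd i q : ℝ) / ((q : ℝ) - i) = ∑ i ∈ Finset.Ico 1 q, (Nat.gcd i q : ℝ) / i := by
    apply Finset.sum_nbij' (fun i => q - i) (fun i => q - i)
    · intro i hi; rw [Finset.mem_Ico] at hi ⊢; omega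
    · intro i hi; rw [Finset.mem_Ico] at hi ⊢; omega
    · intro i hi; rw [Finset.mem_Ico] at hi; omega
    · intro i hi; rw [Finset.mem_Ico] at hi; omega
    · intro i hi
      rw [Finset.mem_Ico] at hi
      have h1 : Nat.gcd (q - i) q = Nat.gcd i q := by
        rw [Nat.gcd_comm, Nat.gcd_self_sub_right hi.2.le, Nat.gcd_comm]
      rw [h1, Nat.cast_sub hi.2.le]
  rw [e2, e3]
  have := gcd_sum_one q hq
  linarith

theorem gcd_val_mul_le {q : ℕ} [NeZero q] (x y : ZMod q) :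
    Nat.gcd (x * y).val q ≤ Nat.gcd x.val q * Nat.gcd y.val q := by
  have hq : 0 < q := Nat.pos_of_ne_zero (NeZero.ne q)
  have h1 : Nat.gcd (x * y).val q = Nat.gcd (x.val * y.val) q := by
    rw [ZMod.val_mul, ← Nat.gcd_rec, Nat.gcd_comm]
  rw [h1]
  have h2 : Nat.gcd (x.val * y.val) q ∣ Nat.gcd x.val q * Nat.gcd y.val q := by
    rw [Nat.gcd_comm, Nat.gcd_comm x.val, Nat.gcd_comm y.val]
    exact Nat.gcd_mul_right_dvd_mul_gcd _ _ _
  exact Nat.le_of_dvd (Nat.mul_pos (Nat.gcd_pos_of_pos_right _ hq) (Nat.gcd_pos_of_pos_right _ hq)) h2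

theorem card_eq {q : ℕ} [NeZero q] (c : ZMod q) (N : ℕ) :
    (((Finset.Icc 1 N).filter (fun m' : ℕ => (m' : ZMod q) = c)).card : ℂ) =
      (1 / (q : ℂ)) * ∑ h : ZMod q, (ZMod.stdAddChar (h * c) : ℂ) *
        ∑ m' ∈ Finset.Icc 1 N, (ZMod.stdAddChar (-(h * (m' : ZMod q))) : ℂ) := by
  have hq : (q : ℂ) ≠ 0 := by exact_mod_cast NeZero.ne q
  simp_rw [Finset.mul_sum]
  rw [Finset.sum_comm]
  rw [Finset.card_filter, Nat.cast_sum]
  apply Finset.sum_congr rfl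
  intro m _
  have h1 : ∀ h : ZMod q, (1 / (q : ℂ)) * ((ZMod.stdAddChar (h * c) : ℂ) * (ZMod.stdAddChar (-(h * (m : ZMod q))) : ℂ)) =
      (1 / (q : ℂ)) * (ZMod.stdAddChar (h * (c - (m : ZMod q))) : ℂ) := by
    intro h
    rw [← AddChar.map_add_eq_mul]
    congr 2
    ring
  rw [Finset.sum_congr rfl (fun h _ => h1 h), ← Finset.mul_sum,
    AddChar.sum_mulShift _ (ZMod.isPrimitive_stdAddChar q)]
  by_cases h2 : (m : ZMod q) = c
  · rw [if_pos h2, if_pos (by rw [h2, sub_self]), ZMod.card]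
    field_simp
    simp
  · rw [if_neg h2, if_neg (fun h3 => h2 (sub_eq_zero.1 h3).symm)]
    simp

theorem core {q : ℕ} [NeZero q] (K r : ℝ) (hr : 0 ≤ r) (hK : ∀ (k : ZMod q) (X : ℕ),
    ‖∑ m ∈ (Finset.Icc 1 X).filter (fun m => Nat.Coprime m q), ZMod.stdAddChar (k * ((m : ZMod q))⁻¹)‖ ≤
      K * (Nat.gcd k.val q : ℝ) ^ r * (1 + X / q)) (hK0 : 0 ≤ K) (hr1 : r ≤ 1) (k₀ : ZMod q) (M : ℕ) (Y : ℝ) (hY : 0 ≤ Y) :
    |∑ m ∈ (Finset.Icc 1 M).filter (fun m => Nat.Coprime m q),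
      ((((Finset.Icc 1 ⌊Y⌋₊).filter (fun m' : ℕ => (m' : ZMod q) = k₀ * (m : ZMod q)⁻¹)).card : ℝ) - Y / q)| ≤
      M / q + K * (Nat.gcd k₀.val q : ℝ) ^ r * (1 + M / q) * (2 * ((q.divisors.card : ℝ) * (1 + Real.log q))) := by
  have hq : 1 ≤ q := Nat.one_le_iff_ne_zero.2 (NeZero.ne q)
  have hqR : (0 : ℝ) < q := by exact_mod_cast hq
  set A := (Finset.Icc 1 M).filter (fun m => Nat.Coprime m q) with hA
  set N := ⌊Y⌋₊ with hN
  set S : ZMod q → ℂ := fun h => ∑ m' ∈ Finset.Icc 1 N, (ZMod.stdAddChar (-(h * (m' : ZMod q))) : ℂ) with hS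
  set T : ZMod q → ℂ := fun h => ∑ m ∈ A, (ZMod.stdAddChar (h * k₀ * (m : ZMod q)⁻¹) : ℂ) with hT
  have e1 : ((∑ m ∈ A, ((((Finset.Icc 1 N).filter (fun m' : ℕ => (m' : ZMod q) = k₀ * (m : ZMod q)⁻¹)).card : ℝ) - Y / q) : ℝ) : ℂ) =
      (1 / (q : ℂ)) * ∑ h : ZMod q, T h * S h - (A.card : ℂ) * Y / q := by
    push_cast
    rw [Finset.sum_sub_distrib, Finset.sum_const, nsmul_eq_mul, mul_div_assoc]
    congr 1
    rw [Finset.sum_congr rfl (fun (m : ℕ) _ => card_eq (k₀ * (m : ZMod q)⁻¹) N), ← Finset.mul_sum, Finset.sum_comm]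
    congr 1
    apply Finset.sum_congr rfl
    intro h _
    rw [hT]
    dsimp only
    rw [Finset.sum_mul]
    apply Finset.sum_congr rfl
    intro m _
    rw [mul_assoc]
  have e2 : ∑ h : ZMod q, T h * S h = (A.card : ℂ) * N + ∑ h : ZMod q, if h = 0 then 0 else T h * S h := by
    rw [← Finset.add_sum_erase Finset.univ (fun h => T h * S h) (Finset.mem_univ (0 : ZMod q)),
      ← Finset.add_sum_erase Finset.univ (fun h : ZMod q => if h = 0 then 0 else T h * S h) (Finset.mem_univ (0 : ZMod q))]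
    simp only [if_true, zero_add]
    congr 1
    · rw [hT, hS]
      simp
    · apply Finset.sum_congr rfl
      intro h hh
      rw [if_neg (Finset.ne_of_mem_erase hh)]
  have e3 : ‖∑ h : ZMod q, (if h = 0 then (0 : ℂ) else T h * S h)‖ ≤
      q * (K * (Nat.gcd k₀.val q : ℝ) ^ r * (1 + M / q) * (2 * ((q.divisors.card : ℝ) * (1 + Real.log q)))) := by
    calc ‖∑ h : ZMod q, (if h = 0 then (0 : ℂ) else T h * S h)‖ ≤ ∑ h : ZMod q, ‖(if h = 0 then (0 : ℂ) else T h * S h)‖ :=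
          norm_sum_le _ _
      _ ≤ ∑ h : ZMod q, (q * (K * (Nat.gcd k₀.val q : ℝ) ^ r * (1 + M / q))) *
          (if h = 0 then (0 : ℝ) else (Nat.gcd h.val q : ℝ) * (1 / (h.val : ℝ) + 1 / ((q : ℝ) - h.val))) := by
          apply Finset.sum_le_sum
          intro h _
          by_cases h0 : h = 0
          · rw [if_pos h0, if_pos h0]; simp
          · rw [if_neg h0, if_neg h0, norm_mul]
            have t1 : ‖S h‖ ≤ q * (1 / (h.val : ℝ) + 1 / ((q : ℝ) - h.val)) := geom_bound h0 N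
            have t2 : ‖T h‖ ≤ K * (Nat.gcd (h * k₀).val q : ℝ) ^ r * (1 + M / q) := hK (h * k₀) M
            have t3 : (Nat.gcd (h * k₀).val q : ℝ) ^ r ≤ (Nat.gcd h.val q : ℝ) * (Nat.gcd k₀.val q : ℝ) ^ r := by
              have u1 : ((Nat.gcd (h * k₀).val q : ℕ) : ℝ) ≤ (Nat.gcd h.val q : ℝ) * (Nat.gcd k₀.val q : ℝ) := by
                exact_mod_cast gcd_val_mul_le h k₀
              have u2 : (1 : ℝ) ≤ (Nat.gcd h.val q : ℝ) := by
                exact_mod_cast Nat.gcd_pos_of_pos_right _ hq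
              calc (Nat.gcd (h * k₀).val q : ℝ) ^ r ≤ ((Nat.gcd h.val q : ℝ) * (Nat.gcd k₀.val q : ℝ)) ^ r :=
                    Real.rpow_le_rpow (by positivity) u1 hr
                _ = (Nat.gcd h.val q : ℝ) ^ r * (Nat.gcd k₀.val q : ℝ) ^ r := Real.mul_rpow (by positivity) (by positivity)
                _ ≤ (Nat.gcd h.val q : ℝ) * (Nat.gcd k₀.val q : ℝ) ^ r := by
                    apply mul_le_mul_of_nonneg_right _ (by positivity)
                    calc (Nat.gcd h.val q : ℝ) ^ r ≤ (Nat.gcd h.val q : ℝ) ^ (1 : ℝ) :=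
                          Real.rpow_le_rpow_of_exponent_le u2 hr1
                      _ = _ := Real.rpow_one _
            have hv : (h.val : ℝ) < q := by exact_mod_cast ZMod.val_lt h
            have hv' : (0 : ℝ) < (q : ℝ) - h.val := by linarith
            have t4 : 0 ≤ (1 / (h.val : ℝ) + 1 / ((q : ℝ) - h.val)) := by positivity
            calc ‖T h‖ * ‖S h‖ ≤ (K * ((Nat.gcd h.val q : ℝ) * (Nat.gcd k₀.val q : ℝ) ^ r) * (1 + M / q)) *
                  (q * (1 / (h.val : ℝ) + 1 / ((q : ℝ) - h.val))) := by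
                  apply mul_le_mul _ t1 (norm_nonneg _) (by positivity)
                  refine le_trans t2 ?_
                  apply mul_le_mul_of_nonneg_right _ (by positivity)
                  exact mul_le_mul_of_nonneg_left t3 hK0
              _ = _ := by ring
      _ ≤ _ := by
          rw [← Finset.mul_sum, mul_assoc]
          apply mul_le_mul_of_nonneg_left _ hqR.le
          apply mul_le_mul_of_nonneg_left (gcd_sum_two q) (by positivity)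
  have hAM : (A.card : ℝ) ≤ M := by
    have : A.card ≤ (Finset.Icc 1 M).card := Finset.card_filter_le _ _
    rw [Nat.card_Icc] at this
    exact_mod_cast this
  have hNY : |(N : ℝ) - Y| ≤ 1 := by
    have h1 : (N : ℝ) ≤ Y := Nat.floor_le hY
    have h2 : Y < N + 1 := Nat.lt_floor_add_one Y
    rw [abs_le]
    constructor <;> linarith
  rw [← Real.norm_eq_abs, ← Complex.norm_real, e1, e2]
  have e4 : (1 / (q : ℂ)) * ((A.card : ℂ) * N + ∑ h : ZMod q, if h = 0 then 0 else T h * S h) - (A.card : ℂ) * Y / q =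
      (A.card : ℂ) * (((N : ℝ) - Y : ℝ) : ℂ) / q + (1 / (q : ℂ)) * ∑ h : ZMod q, if h = 0 then 0 else T h * S h := by
    push_cast
    ring
  rw [e4]
  refine le_trans (norm_add_le _ _) ?_
  apply add_le_add
  · rw [norm_div, norm_mul, Complex.norm_real, Complex.norm_natCast, Complex.norm_natCast, Real.norm_eq_abs]
    apply div_le_div_of_nonneg_right _ hqR.le
    calc (A.card : ℝ) * |(N : ℝ) - Y| ≤ M * 1 := mul_le_mul hAM hNY (abs_nonneg _) (by positivity)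
      _ = M := mul_one _
  · rw [norm_mul, norm_div, norm_one, Complex.norm_natCast]
    calc 1 / (q : ℝ) * ‖∑ h : ZMod q, (if h = 0 then (0 : ℂ) else T h * S h)‖ ≤
          1 / (q : ℝ) * (q * (K * (Nat.gcd k₀.val q : ℝ) ^ r * (1 + M / q) * (2 * ((q.divisors.card : ℝ) * (1 + Real.log q))))) :=
          mul_le_mul_of_nonneg_left e3 (by positivity)
      _ = _ := by field_simp

theorem gcd_eq_iff {a q g g₁ a₁ q' : ℕ} (hg0 : 0 < g) (G : ℕ) (hG : 0 < G) (h1 : a = a₁ * G) (h2 : g = g₁ * G)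
    (hco : Nat.Coprime a₁ g₁) (h3 : q = g * q') (m : ℕ) :
    Nat.gcd (a * m) q = g ↔ ∃ m₀, m = g₁ * m₀ ∧ Nat.Coprime (a₁ * m₀) q' := by
  have key : ∀ m₀, Nat.gcd (a * (g₁ * m₀)) q = g * Nat.gcd (a₁ * m₀) q' := by
    intro m₀
    rw [h3, ← Nat.gcd_mul_left, h1]
    congr 1
    rw [h2]; ring
  constructor
  · intro h
    have h4 : g ∣ a * m := by rw [← h]; exact Nat.gcd_dvd_left _ _
    have h5 : g₁ * G ∣ a₁ * m * G := by rw [← h2]; rw [h1] at h4; convert h4 using 1; ring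
    have h6 : g₁ ∣ a₁ * m := Nat.dvd_of_mul_dvd_mul_right hG h5
    obtain ⟨m₀, rfl⟩ := hco.symm.dvd_of_dvd_mul_left h6
    refine ⟨m₀, rfl, ?_⟩
    rw [key] at h
    exact Nat.eq_of_mul_eq_mul_left hg0 (by rw [h, mul_one])
  · rintro ⟨m₀, rfl, h⟩
    rw [key, h, mul_one]

theorem block {a q g q' : ℕ} (ha : 0 < a) (hq' : 0 < q') (hg0 : 0 < g) (h3 : q = g * q') (l l' : ℤ) (hl : l = g * l') (hl0 : l ≠ 0)
    (K r : ℝ) (hr : 0 ≤ r) (hK : ∀ [NeZero q'] (k : ZMod q') (X : ℕ),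
    ‖∑ m ∈ (Finset.Icc 1 X).filter (fun m => Nat.Coprime m q'), ZMod.stdAddChar (k * ((m : ZMod q'))⁻¹)‖ ≤
      K * (Nat.gcd k.val q' : ℝ) ^ r * (1 + X / q')) (hK0 : 0 ≤ K) (hr1 : r ≤ 1) (M : ℕ) (Y : ℝ) (hY : 0 ≤ Y) :
    |∑ m ∈ (Finset.Icc 1 M).filter (fun m => Nat.gcd (a * m) q = g),
      ((((Finset.Icc 1 ⌊Y⌋₊).filter (fun m' : ℕ => (q : ℤ) ∣ (a : ℤ) * m * m' - l)).card : ℝ) - Y / q')| ≤
      M / q' + K * |(l : ℝ)| ^ r * (1 + M / q') * (2 * ((q'.divisors.card : ℝ) * (1 + Real.log q'))) := by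
  have : NeZero q' := ⟨hq'.ne'⟩
  have hq'R : (0 : ℝ) < q' := by exact_mod_cast hq'
  have hlog : 0 ≤ Real.log q' := Real.log_natCast_nonneg _
  set G := Nat.gcd a g with hGdef
  have hG : 0 < G := Nat.gcd_pos_of_pos_left _ ha
  obtain ⟨a₁, h1⟩ : ∃ a₁, a = a₁ * G := ⟨a / G, (Nat.div_mul_cancel (Nat.gcd_dvd_left _ _)).symm⟩
  obtain ⟨g₁, h2⟩ : ∃ g₁, g = g₁ * G := ⟨g / G, (Nat.div_mul_cancel (Nat.gcd_dvd_right _ _)).symm⟩
  have hco : Nat.Coprime a₁ g₁ := by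
    have h4 : G = Nat.gcd a₁ g₁ * G := by
      rw [← Nat.gcd_mul_right, ← h1, ← h2]
    exact Nat.eq_of_mul_eq_mul_right hG (by rw [one_mul]; exact h4.symm)
  have hg₁ : 0 < g₁ := by
    rcases Nat.eq_zero_or_pos g₁ with h | h
    · rw [h, zero_mul] at h2; omega
    · exact h
  have hiff := gcd_eq_iff hg0 G hG h1 h2 hco h3
  by_cases hc : Nat.Coprime a₁ q'
  · have hset : (Finset.Icc 1 M).filter (fun m => Nat.gcd (a * m) q = g) =
        ((Finset.Icc 1 (M / g₁)).filter (fun m => Nat.Coprime m q')).image (fun m => g₁ * m) := by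
      ext m
      rw [Finset.mem_filter, Finset.mem_image, Finset.mem_Icc, hiff]
      constructor
      · rintro ⟨⟨h5, h6⟩, m₀, rfl, h7⟩
        refine ⟨m₀, ?_, rfl⟩
        rw [Finset.mem_filter, Finset.mem_Icc]
        refine ⟨⟨?_, ?_⟩, (Nat.Coprime.coprime_mul_left h7)⟩
        · rcases Nat.eq_zero_or_pos m₀ with h | h
          · subst h; simp at h5
          · exact h
        · rw [Nat.le_div_iff_mul_le hg₁, mul_comm]; exact h6
      · rintro ⟨m₀, h5, rfl⟩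
        rw [Finset.mem_filter, Finset.mem_Icc] at h5
        refine ⟨⟨Nat.mul_pos hg₁ h5.1.1, ?_⟩, m₀, rfl, Nat.Coprime.mul_left hc h5.2⟩
        have := (Nat.le_div_iff_mul_le hg₁).1 h5.1.2
        rwa [mul_comm]
    rw [hset, Finset.sum_image (fun x _ y _ h => Nat.eq_of_mul_eq_mul_left hg₁ h)]
    have hterm : ∀ m ∈ (Finset.Icc 1 (M / g₁)).filter (fun m => Nat.Coprime m q'),
        ((((Finset.Icc 1 ⌊Y⌋₊).filter (fun m' : ℕ => (q : ℤ) ∣ (a : ℤ) * ((g₁ * m : ℕ) : ℤ) * m' - l)).card : ℝ) - Y / q') =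
        ((((Finset.Icc 1 ⌊Y⌋₊).filter (fun m' : ℕ => (m' : ZMod q') = (((a₁ : ZMod q'))⁻¹ * (l' : ZMod q')) * (m : ZMod q')⁻¹)).card : ℝ) - Y / q') := by
      intro m hm
      rw [Finset.mem_filter] at hm
      have hm2 := hm.2
      congr 3
      apply Finset.filter_congr
      intro m' _
      have e1 : (a : ℤ) * ((g₁ * m : ℕ) : ℤ) * m' - l = (g : ℤ) * ((a₁ : ℤ) * m * m' - l') := by
        rw [hl]
        have : (a : ℤ) * g₁ = g * a₁ := by
          rw [h1, h2]; push_cast; ring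
        push_cast
        linear_combination (m * m' : ℤ) * this
      rw [e1, h3]
      push_cast
      rw [mul_dvd_mul_iff_left (by exact_mod_cast hg0.ne')]
      rw [← (ZMod.intCast_zmod_eq_zero_iff_dvd _ _)]
      push_cast
      have ha1 := ZMod.coe_mul_inv_eq_one a₁ hc
      have hm1 := ZMod.coe_mul_inv_eq_one m hm2
      constructor
      · intro h
        have h' : (a₁ : ZMod q') * m * m' = l' := sub_eq_zero.1 h
        rw [← h']
        linear_combination (-(m' : ZMod q') * ((m : ZMod q') * (m : ZMod q')⁻¹)) * ha1 - (m' : ZMod q') * hm1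
      · intro h
        rw [h]
        linear_combination ((l' : ZMod q') * ((m : ZMod q') * (m : ZMod q')⁻¹)) * ha1 + (l' : ZMod q') * hm1
    rw [Finset.sum_congr rfl hterm]
    refine le_trans (core K r hr (fun k X => hK k X) hK0 hr1 _ (M / g₁) Y hY) ?_
    have hM : (((M / g₁ : ℕ) : ℝ)) ≤ M := by exact_mod_cast Nat.div_le_self _ _
    have hM' : (((M / g₁ : ℕ) : ℝ)) / q' ≤ M / q' := div_le_div_of_nonneg_right hM hq'R.le
    have hgcd : ((Nat.gcd (((a₁ : ZMod q'))⁻¹ * (l' : ZMod q')).val q' : ℕ) : ℝ) ≤ |(l : ℝ)| := by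
      have t1 := gcd_val_mul_le (((a₁ : ZMod q'))⁻¹) (l' : ZMod q')
      have t2 : Nat.gcd (((a₁ : ZMod q'))⁻¹).val q' = 1 := by
        have t3 : IsUnit ((a₁ : ZMod q'))⁻¹ := IsUnit.of_mul_eq_one _ (by rw [mul_comm]; exact ZMod.coe_mul_inv_eq_one a₁ hc)
        obtain ⟨u, hu⟩ := t3
        rw [← hu]
        exact ZMod.val_coe_unit_coprime u
      rw [t2, one_mul] at t1
      have t4 : ((Nat.gcd (l' : ZMod q').val q' : ℕ) : ℤ) ∣ l' := by
        have t5 : ((q' : ℕ) : ℤ) ∣ ((l' : ZMod q').val : ℤ) - l' := by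
          rw [← ZMod.intCast_zmod_eq_zero_iff_dvd]
          push_cast
          rw [ZMod.natCast_zmod_val, sub_self]
        have t6 : ((Nat.gcd (l' : ZMod q').val q' : ℕ) : ℤ) ∣ ((l' : ZMod q').val : ℤ) := by
          exact_mod_cast Nat.gcd_dvd_left _ _
        have t7 : ((Nat.gcd (l' : ZMod q').val q' : ℕ) : ℤ) ∣ ((l' : ZMod q').val : ℤ) - l' :=
          dvd_trans (by exact_mod_cast Nat.gcd_dvd_right _ _) t5
        exact (dvd_sub_right t6).1 t7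
      have t8 : ((Nat.gcd (l' : ZMod q').val q' : ℕ) : ℤ) ∣ l := by rw [hl]; exact Dvd.dvd.mul_left t4 _
      have t9 : ((Nat.gcd (l' : ZMod q').val q' : ℕ) : ℤ) ≤ |l| := by
        have := Int.le_of_dvd (abs_pos.2 hl0) ((dvd_abs _ _).2 t8)
        exact this
      have t10 : ((Nat.gcd (((a₁ : ZMod q'))⁻¹ * (l' : ZMod q')).val q' : ℕ) : ℤ) ≤ |l| := by
        refine le_trans ?_ t9
        exact_mod_cast t1
      exact_mod_cast t10
    have hgr := Real.rpow_le_rpow (by positivity) hgcd hr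
    have t0 : 0 ≤ 2 * ((q'.divisors.card : ℝ) * (1 + Real.log q')) :=
      mul_nonneg (by norm_num) (mul_nonneg (Nat.cast_nonneg _) (by linarith))
    refine add_le_add hM' (mul_le_mul_of_nonneg_right ?_ t0)
    apply mul_le_mul (mul_le_mul_of_nonneg_left hgr hK0) (by linarith)
    · have : (0 : ℝ) ≤ (((M / g₁ : ℕ) : ℝ)) / q' := div_nonneg (Nat.cast_nonneg _) hq'R.le
      linarith
    · exact mul_nonneg hK0 (Real.rpow_nonneg (abs_nonneg _) _)
  · have hempty : (Finset.Icc 1 M).filter (fun m => Nat.gcd (a * m) q = g) = ∅ := by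
      rw [Finset.filter_eq_empty_iff]
      intro m _ h
      obtain ⟨m₀, _, h5⟩ := (hiff m).1 h
      exact hc (Nat.Coprime.coprime_mul_right h5)
    rw [hempty, Finset.sum_empty, abs_zero]
    have t0 : 0 ≤ 2 * ((q'.divisors.card : ℝ) * (1 + Real.log q')) :=
      mul_nonneg (by norm_num) (mul_nonneg (Nat.cast_nonneg _) (by linarith))
    have t1 : (0 : ℝ) ≤ (M : ℝ) / q' := div_nonneg (Nat.cast_nonneg _) hq'R.le
    have t2 : 0 ≤ K * |(l : ℝ)| ^ r := mul_nonneg hK0 (Real.rpow_nonneg (abs_nonneg _) _)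
    exact add_nonneg t1 (mul_nonneg (mul_nonneg t2 (by linarith)) t0)

theorem card_dvd_le (q : ℕ) (l : ℤ) (hl : l ≠ 0) :
    (((q.divisors).filter (fun g : ℕ => (g : ℤ) ∣ l)).card : ℝ) ≤ |(l : ℝ)| := by
  have h1 : (q.divisors).filter (fun g : ℕ => (g : ℤ) ∣ l) ⊆ Finset.Icc 1 l.natAbs := by
    intro g hg
    rw [Finset.mem_filter] at hg
    rw [Finset.mem_Icc]
    exact ⟨Nat.pos_of_mem_divisors hg.1, Nat.le_of_dvd (Int.natAbs_pos.2 hl) (Int.natCast_dvd.1 hg.2)⟩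
  have h2 := Finset.card_le_card h1
  rw [Nat.card_Icc, Nat.add_sub_cancel] at h2
  calc (((q.divisors).filter (fun g : ℕ => (g : ℤ) ∣ l)).card : ℝ) ≤ (l.natAbs : ℝ) := by exact_mod_cast h2
    _ = |(l : ℝ)| := by rw [← Int.cast_abs, Int.abs_eq_natAbs]; simp

theorem term_bound {ε : ℝ} (hε : 0 < ε) (hε1 : ε ≤ 1 / 4) {C₁ D L : ℝ} (hC₁ : 0 ≤ C₁) (hD : 0 ≤ D) (hL : 0 ≤ L)
    (b n g q' M : ℕ) (hb : 0 < b) (hn : 0 < n) (hg : 0 < g) (hq' : 0 < q') (h3 : b * n = g * q') (l X τ : ℝ)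
    (hl : 1 ≤ l) (hgl : (g : ℝ) ≤ l) (hX : 0 ≤ X) (hMX : (M : ℝ) ≤ X)
    (hτ : τ ≤ D * L * (q' : ℝ) ^ (ε / 2)) (hτ0 : 0 ≤ τ) :
    (M : ℝ) / q' + (C₁ * (q' : ℝ) ^ (3 / 4 + ε / 2)) * l ^ (1 / 4 : ℝ) * (1 + M / q') * (2 * τ) ≤
      l * ((1 + 2 * (C₁ * (D * L))) * b * ((n : ℝ) ^ (3 / 4 + ε) + X * (n : ℝ) ^ (-(1 / 4) + ε))) := by
  have hbR : (1 : ℝ) ≤ b := by exact_mod_cast hb
  have hnR : (1 : ℝ) ≤ n := by exact_mod_cast hn
  have hgR : (1 : ℝ) ≤ g := by exact_mod_cast hg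
  have hqR : (0 : ℝ) < q' := by exact_mod_cast hq'
  have hbn : (b : ℝ) * n = g * q' := by exact_mod_cast h3
  have hqe : (q' : ℝ) = b * n / g := by rw [hbn]; field_simp
  have hl0 : 0 < l := by linarith
  set P : ℝ := (n : ℝ) ^ (3 / 4 + ε) with hP
  set R : ℝ := (n : ℝ) ^ (-(1 / 4) + ε) with hR
  have hP0 : 0 < P := Real.rpow_pos_of_pos (by linarith) _
  have hR0 : 0 < R := Real.rpow_pos_of_pos (by linarith) _
  have i1 : (M : ℝ) / q' ≤ l * (X * R) := by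
    have e1 : (M : ℝ) / q' = M * g / (b * n) := by rw [hqe]; field_simp
    have e2 : (n : ℝ)⁻¹ ≤ R := by
      rw [← Real.rpow_neg_one, hR]
      exact Real.rpow_le_rpow_of_exponent_le hnR (by linarith)
    rw [e1]
    calc (M : ℝ) * g / (b * n) ≤ X * l / (1 * n) := by
          apply div_le_div₀ (by positivity) (mul_le_mul hMX hgl (by positivity) hX) (by positivity)
          exact mul_le_mul_of_nonneg_right hbR (by positivity)
      _ = l * (X * (n : ℝ)⁻¹) := by rw [one_mul]; ring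
      _ ≤ l * (X * R) := by
          apply mul_le_mul_of_nonneg_left _ hl0.le
          exact mul_le_mul_of_nonneg_left e2 hX
  have i2 : (q' : ℝ) ^ (3 / 4 + ε) ≤ b * P := by
    have hle : (q' : ℝ) ≤ b * n := by rw [hbn]; exact le_mul_of_one_le_left hqR.le hgR
    calc (q' : ℝ) ^ (3 / 4 + ε) ≤ ((b : ℝ) * n) ^ (3 / 4 + ε) := Real.rpow_le_rpow hqR.le hle (by linarith)
      _ = (b : ℝ) ^ (3 / 4 + ε) * P := Real.mul_rpow (by linarith) (by linarith)
      _ ≤ (b : ℝ) ^ (1 : ℝ) * P := by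
          apply mul_le_mul_of_nonneg_right _ hP0.le
          exact Real.rpow_le_rpow_of_exponent_le hbR (by linarith)
      _ = b * P := by rw [Real.rpow_one]
  have i3 : (q' : ℝ) ^ (3 / 4 + ε) * (M / q') ≤ X * R * l ^ (1 / 4 : ℝ) := by
    have e1 : (q' : ℝ) ^ (3 / 4 + ε) * (M / q') = M * (q' : ℝ) ^ (-(1 / 4) + ε) := by
      have : (-(1 / 4) + ε : ℝ) = (3 / 4 + ε) + (-1) := by ring
      rw [this, Real.rpow_add hqR (3 / 4 + ε) (-1), Real.rpow_neg_one]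
      ring
    have e2 : (q' : ℝ) ^ (-(1 / 4) + ε) = (b : ℝ) ^ (-(1 / 4) + ε) * R * (g : ℝ) ^ (1 / 4 - ε) := by
      rw [hqe, Real.div_rpow (by positivity) (by positivity), Real.mul_rpow (by positivity) (by positivity), hR]
      have : (1 / 4 - ε : ℝ) = -(-(1 / 4) + ε) := by ring
      rw [this, Real.rpow_neg (by positivity : (0 : ℝ) ≤ g) (-(1 / 4) + ε), div_eq_mul_inv]
    have e3 : (b : ℝ) ^ (-(1 / 4) + ε) ≤ 1 := Real.rpow_le_one_of_one_le_of_nonpos hbR (by linarith)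
    have e4 : (g : ℝ) ^ (1 / 4 - ε) ≤ l ^ (1 / 4 : ℝ) := by
      calc (g : ℝ) ^ (1 / 4 - ε) ≤ (g : ℝ) ^ (1 / 4 : ℝ) := Real.rpow_le_rpow_of_exponent_le hgR (by linarith)
        _ ≤ l ^ (1 / 4 : ℝ) := Real.rpow_le_rpow (by linarith) hgl (by norm_num)
    rw [e1, e2]
    calc (M : ℝ) * ((b : ℝ) ^ (-(1 / 4) + ε) * R * (g : ℝ) ^ (1 / 4 - ε)) ≤ X * (1 * R * l ^ (1 / 4 : ℝ)) := by
          apply mul_le_mul hMX _ (by positivity) hX
          apply mul_le_mul _ e4 (by positivity) (by positivity)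
          exact mul_le_mul_of_nonneg_right e3 hR0.le
      _ = _ := by ring
  have i4 : l ^ (1 / 4 : ℝ) ≤ l := by
    calc l ^ (1 / 4 : ℝ) ≤ l ^ (1 : ℝ) := Real.rpow_le_rpow_of_exponent_le hl (by norm_num)
      _ = l := Real.rpow_one _
  have i5 : l ^ (1 / 4 : ℝ) * l ^ (1 / 4 : ℝ) ≤ l := by
    rw [← Real.rpow_add hl0]
    calc l ^ (1 / 4 + 1 / 4 : ℝ) ≤ l ^ (1 : ℝ) := Real.rpow_le_rpow_of_exponent_le hl (by norm_num)
      _ = l := Real.rpow_one _
  have hl4 : 0 < l ^ (1 / 4 : ℝ) := Real.rpow_pos_of_pos hl0 _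
  have e5 : (q' : ℝ) ^ (3 / 4 + ε / 2) * (q' : ℝ) ^ (ε / 2) = (q' : ℝ) ^ (3 / 4 + ε) := by
    rw [← Real.rpow_add hqR]; congr 1; ring
  have hMq : (0 : ℝ) ≤ M / q' := by positivity
  have i6 : (C₁ * (q' : ℝ) ^ (3 / 4 + ε / 2)) * l ^ (1 / 4 : ℝ) * (1 + M / q') * (2 * τ) ≤
      2 * (C₁ * (D * L)) * (l * (b * P + X * R)) := by
    calc (C₁ * (q' : ℝ) ^ (3 / 4 + ε / 2)) * l ^ (1 / 4 : ℝ) * (1 + M / q') * (2 * τ) ≤
          (C₁ * (q' : ℝ) ^ (3 / 4 + ε / 2)) * l ^ (1 / 4 : ℝ) * (1 + M / q') * (2 * (D * L * (q' : ℝ) ^ (ε / 2))) := by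
          apply mul_le_mul_of_nonneg_left _ (by positivity)
          linarith
      _ = 2 * (C₁ * (D * L)) * (l ^ (1 / 4 : ℝ) * ((q' : ℝ) ^ (3 / 4 + ε) + (q' : ℝ) ^ (3 / 4 + ε) * (M / q'))) := by
          rw [← e5]; ring
      _ ≤ 2 * (C₁ * (D * L)) * (l ^ (1 / 4 : ℝ) * (b * P + X * R * l ^ (1 / 4 : ℝ))) := by
          apply mul_le_mul_of_nonneg_left _ (by positivity)
          apply mul_le_mul_of_nonneg_left _ hl4.le
          linarith
      _ ≤ 2 * (C₁ * (D * L)) * (l * (b * P + X * R)) := by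
          apply mul_le_mul_of_nonneg_left _ (by positivity)
          have u1 : l ^ (1 / 4 : ℝ) * (b * P) ≤ l * (b * P) := mul_le_mul_of_nonneg_right i4 (by positivity)
          have u2 : (l ^ (1 / 4 : ℝ) * l ^ (1 / 4 : ℝ)) * (X * R) ≤ l * (X * R) :=
            mul_le_mul_of_nonneg_right i5 (by positivity)
          calc l ^ (1 / 4 : ℝ) * (b * P + X * R * l ^ (1 / 4 : ℝ)) =
                l ^ (1 / 4 : ℝ) * (b * P) + (l ^ (1 / 4 : ℝ) * l ^ (1 / 4 : ℝ)) * (X * R) := by ring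
            _ ≤ l * (b * P) + l * (X * R) := add_le_add u1 u2
            _ = _ := by ring
  have hXR : 0 ≤ X * R := by positivity
  have hbXR : X * R ≤ b * (X * R) := le_mul_of_one_le_left hXR hbR
  have hbP : 0 ≤ b * P := by positivity
  calc (M : ℝ) / q' + (C₁ * (q' : ℝ) ^ (3 / 4 + ε / 2)) * l ^ (1 / 4 : ℝ) * (1 + M / q') * (2 * τ) ≤
        l * (X * R) + 2 * (C₁ * (D * L)) * (l * (b * P + X * R)) := add_le_add i1 i6
    _ ≤ l * (b * (P + X * R)) + 2 * (C₁ * (D * L)) * (l * (b * (P + X * R))) := by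
        apply add_le_add
        · apply mul_le_mul_of_nonneg_left _ hl0.le
          linarith
        · apply mul_le_mul_of_nonneg_left _ (by positivity)
          apply mul_le_mul_of_nonneg_left _ hl0.le
          linarith
    _ = _ := by ring

end CongCountAux

open CongCountAux in
theorem cong_count (ε : ℝ) (hε : 0 < ε) (hε1 : ε ≤ 1 / 4) : ∃ C : ℝ, 0 < C ∧ ∀ (a b n : ℕ+) (l : ℤ) (X Y : ℝ), l ≠ 0 →
    Nat.Coprime (a : ℕ) (b : ℕ) → 0 ≤ X → 0 ≤ Y →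
    |disc a b n l X Y| ≤ C * ((a : ℕ) * (b : ℕ)) * (l : ℝ) ^ 2 *
      (((n : ℕ) : ℝ) ^ (3 / 4 + ε) + X * ((n : ℕ) : ℝ) ^ (-(1 / 4) + ε)) := by
  obtain ⟨C₁, hC₁, hinc⟩ := inc_kloo (ε / 2) (by linarith)
  obtain ⟨D, hD, hdiv⟩ := Pool.Agent.KeZhao.divisor_bound (ε / 4) (by linarith)
  set L : ℝ := 1 + 4 / ε with hL
  have hL0 : 0 ≤ L := by positivity
  refine ⟨1 + 2 * (C₁ * (D * L)), by positivity, ?_⟩
  intro a b n l X Y hl hab hX hY
  set q : ℕ := (b : ℕ) * (n : ℕ) with hq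
  have hb : 0 < (b : ℕ) := b.2
  have hn : 0 < (n : ℕ) := n.2
  have ha : 0 < (a : ℕ) := a.2
  have hq0 : 0 < q := Nat.mul_pos hb hn
  have hl1 : (1 : ℝ) ≤ |(l : ℝ)| := by
    have : 1 ≤ |l| := Int.one_le_abs hl
    exact_mod_cast this
  set M := ⌊X⌋₊ with hM
  have hMX : (M : ℝ) ≤ X := Nat.floor_le hX
  set f : ℕ → ℝ := fun m => (((Finset.Icc 1 ⌊Y⌋₊).filter
    (fun m' : ℕ => ((b * n : ℕ) : ℤ) ∣ ((a : ℕ) : ℤ) * m * m' - l)).card : ℝ) -
      (if ((Nat.gcd ((a : ℕ) * m) (b * n : ℕ) : ℕ) : ℤ) ∣ l then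
        (Nat.gcd ((a : ℕ) * m) (b * n : ℕ) : ℝ) / ((b : ℕ) * (n : ℕ)) else 0) * Y with hf
  have e0 : disc a b n l X Y = ∑ m ∈ Finset.Icc 1 M, f m := rfl
  have e1 : ∑ m ∈ Finset.Icc 1 M, f m =
      ∑ g ∈ q.divisors, ∑ m ∈ (Finset.Icc 1 M).filter (fun m => Nat.gcd ((a : ℕ) * m) q = g), f m := by
    rw [Finset.sum_fiberwise_of_maps_to]
    intro m _
    exact Nat.mem_divisors.2 ⟨Nat.gcd_dvd_right _ _, hq0.ne'⟩
  set B : ℝ := |(l : ℝ)| * ((1 + 2 * (C₁ * (D * L))) * ((b : ℕ) : ℝ) * ((((n : ℕ) : ℝ)) ^ (3 / 4 + ε) + X * (((n : ℕ) : ℝ)) ^ (-(1 / 4) + ε)))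
    with hB
  have hB0 : 0 ≤ B := by positivity
  have e2 : ∀ g ∈ q.divisors, |∑ m ∈ (Finset.Icc 1 M).filter (fun m => Nat.gcd ((a : ℕ) * m) q = g), f m| ≤
      if (g : ℤ) ∣ l then B else 0 := by
    intro g hg
    have hg0 : 0 < g := Nat.pos_of_mem_divisors hg
    obtain ⟨q', hq'⟩ := (Nat.mem_divisors.1 hg).1
    have hq'0 : 0 < q' := by
      rcases Nat.eq_zero_or_pos q' with h | h
      · rw [h, mul_zero] at hq'; omega
      · exact h
    have hq'R : (0 : ℝ) < q' := by exact_mod_cast hq'0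
    have hq'1 : (1 : ℝ) ≤ q' := by exact_mod_cast hq'0
    by_cases hgl : (g : ℤ) ∣ l
    · rw [if_pos hgl]
      obtain ⟨l', hl'⟩ := hgl
      have e3 : ∑ m ∈ (Finset.Icc 1 M).filter (fun m => Nat.gcd ((a : ℕ) * m) q = g), f m =
          ∑ m ∈ (Finset.Icc 1 M).filter (fun m => Nat.gcd ((a : ℕ) * m) q = g),
            ((((Finset.Icc 1 ⌊Y⌋₊).filter (fun m' : ℕ => (q : ℤ) ∣ ((a : ℕ) : ℤ) * m * m' - l)).card : ℝ) - Y / q') := by
        apply Finset.sum_congr rfl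
        intro m hm
        rw [Finset.mem_filter] at hm
        have h1 : Nat.gcd ((a : ℕ) * m) ((b : ℕ) * (n : ℕ)) = g := hm.2
        simp only [hf]
        rw [h1, if_pos ⟨l', hl'⟩]
        congr 1
        have h2 : ((b : ℕ) : ℝ) * ((n : ℕ) : ℝ) = g * q' := by exact_mod_cast hq'
        rw [h2]
        have : (g : ℝ) ≠ 0 := by positivity
        field_simp
      rw [e3]
      have hK0 : 0 ≤ C₁ * (q' : ℝ) ^ (3 / 4 + ε / 2) := by positivity
      refine le_trans (block ha hq'0 hg0 hq' l l' hl' hl (C₁ * (q' : ℝ) ^ (3 / 4 + ε / 2)) (1 / 4) (by norm_num)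
        (fun k X => hinc q' k X) hK0 (by norm_num) M Y hY) ?_
      have hlog : 0 ≤ Real.log q' := Real.log_natCast_nonneg _
      apply term_bound hε hε1 hC₁.le (by linarith) hL0 (b : ℕ) (n : ℕ) g q' M hb hn hg0 hq'0 hq' |(l : ℝ)| X _ hl1 _ hX hMX _
        (mul_nonneg (Nat.cast_nonneg _) (by linarith))
      · have h5 : g ≤ l.natAbs := Nat.le_of_dvd (Int.natAbs_pos.2 hl) (Int.natCast_dvd.1 ⟨l', hl'⟩)
        calc (g : ℝ) ≤ (l.natAbs : ℝ) := by exact_mod_cast h5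
          _ = |(l : ℝ)| := by rw [← Int.cast_abs, Int.abs_eq_natAbs]; simp
      · have u1 := hdiv q' hq'0
        have u2 : 1 + Real.log q' ≤ L * (q' : ℝ) ^ (ε / 4) := by
          have v1 := Real.log_le_rpow_div hq'R.le (by linarith : 0 < ε / 4)
          have v2 : (1 : ℝ) ≤ (q' : ℝ) ^ (ε / 4) := Real.one_le_rpow hq'1 (by linarith)
          have v3 : (q' : ℝ) ^ (ε / 4) / (ε / 4) = 4 / ε * (q' : ℝ) ^ (ε / 4) := by field_simp
          rw [v3] at v1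
          rw [hL, add_mul, one_mul]
          exact add_le_add v2 v1
        calc ((q'.divisors.card : ℕ) : ℝ) * (1 + Real.log q') ≤ (D * (q' : ℝ) ^ (ε / 4)) * (L * (q' : ℝ) ^ (ε / 4)) :=
              mul_le_mul u1 u2 (by linarith) (by positivity)
          _ = D * L * ((q' : ℝ) ^ (ε / 4) * (q' : ℝ) ^ (ε / 4)) := by ring
          _ = D * L * (q' : ℝ) ^ (ε / 2) := by
              rw [← Real.rpow_add hq'R]; congr 2; ring
    · rw [if_neg hgl]
      apply le_of_eq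
      rw [abs_eq_zero]
      apply Finset.sum_eq_zero
      intro m hm
      rw [Finset.mem_filter] at hm
      have h1 : Nat.gcd ((a : ℕ) * m) ((b : ℕ) * (n : ℕ)) = g := hm.2
      simp only [hf]
      rw [h1, if_neg hgl, zero_mul, sub_zero, Nat.cast_eq_zero, Finset.card_eq_zero, Finset.filter_eq_empty_iff]
      intro m' _ h2
      apply hgl
      have h3 : (g : ℤ) ∣ ((b * n : ℕ) : ℤ) := by
        rw [← h1]; exact_mod_cast Nat.gcd_dvd_right _ _
      have h4 : (g : ℤ) ∣ ((a : ℕ) : ℤ) * m := by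
        rw [← h1]; exact_mod_cast Nat.gcd_dvd_left _ _
      exact (dvd_sub_right (Dvd.dvd.mul_right h4 _)).1 (dvd_trans h3 h2)
  rw [e0, e1]
  refine le_trans (Finset.abs_sum_le_sum_abs _ _) ?_
  refine le_trans (Finset.sum_le_sum e2) ?_
  rw [← Finset.sum_filter, Finset.sum_const, nsmul_eq_mul]
  calc (((q.divisors).filter (fun g : ℕ => (g : ℤ) ∣ l)).card : ℝ) * B ≤ |(l : ℝ)| * B :=
        mul_le_mul_of_nonneg_right (card_dvd_le q l hl) hB0
    _ = (1 + 2 * (C₁ * (D * L))) * (1 * ((b : ℕ) : ℝ)) * (l : ℝ) ^ 2 *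
        ((((n : ℕ) : ℝ)) ^ (3 / 4 + ε) + X * (((n : ℕ) : ℝ)) ^ (-(1 / 4) + ε)) := by
        rw [hB, ← sq_abs (l : ℝ)]; ring
    _ ≤ (1 + 2 * (C₁ * (D * L))) * (((a : ℕ) : ℝ) * ((b : ℕ) : ℝ)) * (l : ℝ) ^ 2 *
        ((((n : ℕ) : ℝ)) ^ (3 / 4 + ε) + X * (((n : ℕ) : ℝ)) ^ (-(1 / 4) + ε)) := by
        have haR : (1 : ℝ) ≤ ((a : ℕ) : ℝ) := by exact_mod_cast ha
        have hbR : (0 : ℝ) ≤ ((b : ℕ) : ℝ) := by positivity
        have : 1 * ((b : ℕ) : ℝ) ≤ ((a : ℕ) : ℝ) * ((b : ℕ) : ℝ) := mul_le_mul_of_nonneg_right haR hbR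
        have hc : 0 ≤ 1 + 2 * (C₁ * (D * L)) := by positivity
        apply mul_le_mul_of_nonneg_right _ (by positivity)
        apply mul_le_mul_of_nonneg_right _ (by positivity)
        exact mul_le_mul_of_nonneg_left this hc

end Pool.Agent.P07318f
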