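import Pool.Agent.Lib.P07318f.ZSumK

/-!
# A power saving for `∑ n^(iτ)`

See ZSumK.lean (van der Corput's method with finite differences).
-/

set_option autoImplicit false

namespace Pool.Agent.P07318f

open Complex

theorem zsum (η : ℝ) (hη : 0 < η) (hη1 : η ≤ 1) : ∃ c C : ℝ, 0 < c ∧ 0 < C ∧ ∀ (U : ℝ) (N N' : ℕ) (τ : ℝ), 1 ≤ U →
    U ^ η ≤ N → N ≤ N' → N' ≤ 2 * N → U ^ η ≤ |τ| → |τ| ≤ 16 * U →
    ‖∑ n ∈ Finset.Ioc N N', ((n : ℝ) : ℂ) ^ ((τ : ℂ) * I)‖ ≤ C * N * U ^ (-c) :=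
  zsum_k η hη hη1

end Pool.Agent.P07318f
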