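import Pool.Agent.Lib.P07318s.Spaced
import Pool.Agent.Lib.P07318f.ZSum

/-!
# The dual kernel

`Dk δ U Y τ = ∑ over reduced fractions q of height > Y of kap(h) / h · q^(-iτ)`.

PROOF of `dk_bound`. (a) Remove the coprimality: reduced pairs `(a,b)`; for a function `g` of the height decreasing and summable enough,
`∑_{(a,b) = 1} g(ab) (a/b)^(-iτ) = ∑_d μ(d) ∑_{a,b ≥ 1} g(d² ab) (a/b)^(-iτ)` (as `(da/db) = a/b`), `g(h) = 1[h > Y] kap δ U h / h`.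
(b) The inner sum: `g(h) = ∑`/Abel: `g` is decreasing for `h > Y` with a jump at `Y`; with `S(R) = ∑_{ab ≤ R} (a/b)^(-iτ)`,
`∑_{a,b} g(d² ab)(a/b)^(-iτ) = -S(Y/d²) g(Y+) - ∫_{Y/d²}^∞ S(R) d(g(d² R))`, hence it is bounded by
`|S(Y/d²)| g(Y+) + ∫_{Y/d²}^∞ |S(R)| |d g(d² R)|`. (c) CLAIM: `|S(R)| ≤ C (R U^(-c) + 1) log(2+R)` if `R ≥ 1`, (`S(R) = 0` for `R < 1`), with
`c > 0` depending on `δ₀` only. Hyperbola method: `S(R) = ⌊√R⌋ + ∑_{b ≤ √R} b^(iτ) ∑_{b < a ≤ R/b} a^(-iτ)` + conjugate; with `η = δ₀/8`,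
dyadic blocks of `a ∈ (A, 2A]`, `A = b 2^j ≤ R/b`: if `A ≥ U^η` use `zsum` (bound `C A U^(-c₀)`), else the trivial bound `A ≤ U^η`. Total
`≤ √R + C∑_{b≤√R} (R/b) U^(-c₀) + √R U^η`. For `R ≥ U^(δ₀/2)`, `√R U^η ≤ R U^(-δ₀/8)`; for `R < U^(δ₀/2)` use `|S(R)| ≤ C R log(2+R)` instead:
these `R` occur only for `d² ≥ Y/R > U^(δ₀/2)`, and there `∑_{d > U^(δ₀/4)} d^(-2)` gives the saving. So for each `d` the inner sum is
`≤ C d^(-2) log(..) U^δ · (U^(-c) if d² ≤ Y U^(-δ₀/2), 1 otherwise)`: note `∫ R |d g(d²R)| ≤ C d^(-2) ∑ kap/h`-type `≤ C_δ d^(-2) U^δ log(2+Y)..`; all logarithms are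
absorbed by halving `c` and by `U^δ` (the constant `C` may depend on `δ`). Sum over `d`.
`dk_trivial`: `∑ kap(h)/h` over all reduced fractions; the number of reduced fractions of height `h` is at most `d(h)`;
`h ≤ U`: `U^δ ∑ d(h) h^(-1-δ)`, `h > U`: `U² ∑_{h>U} d(h) h^(-3) ≤ C_δ U^δ`.
(Any other organisation of the proof is fine; `dk_bound` for bounded `U` follows from `dk_trivial`.)
-/

set_option autoImplicit false

namespace Pool.Agent.P07318f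

open Complex Pool.Agent.P07318s

namespace DKerAux

/-! ### the weight -/

noncomputable def gg (δ U h : ℝ) : ℝ := kap δ U h * h⁻¹

theorem kap_anti {δ U : ℝ} (hδ : 0 < δ) (hU : 0 < U) {h h' : ℝ} (hh : 0 < h) (hle : h ≤ h') :
    kap δ U h' ≤ kap δ U h := by
  unfold kap
  have hh' : 0 < h' := lt_of_lt_of_le hh hle
  have h0 : U / h' ≤ U / h := div_le_div_of_nonneg_left hU.le hh hle
  have h0' : 0 ≤ U / h' := by positivity
  split_ifs with h1 h2 h2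
  · exact Real.rpow_le_rpow h0' h0 hδ.le
  · exact absurd (hle.trans h1) h2
  · calc (U / h') ^ (2:ℝ) ≤ 1 :=
          Real.rpow_le_one h0' ((div_le_one hh').2 (not_le.1 h1).le) (by norm_num)
      _ ≤ (U / h) ^ δ := Real.one_le_rpow ((one_le_div hh).2 h2) hδ.le
  · exact Real.rpow_le_rpow h0' h0 (by norm_num)

theorem gg_nonneg {δ U h : ℝ} (hU : 0 ≤ U) (hh : 0 ≤ h) : 0 ≤ gg δ U h :=
  mul_nonneg (kap_nonneg hU hh) (inv_nonneg.2 hh)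

theorem gg_anti {δ U : ℝ} (hδ : 0 < δ) (hU : 0 < U) {h h' : ℝ} (hh : 0 < h) (hle : h ≤ h') :
    gg δ U h' ≤ gg δ U h := by
  unfold gg
  exact mul_le_mul (kap_anti hδ hU hh hle) (inv_anti₀ hh hle)
    (inv_nonneg.2 (hh.le.trans hle)) (kap_nonneg hU.le hh.le)

theorem gg_le {δ U h : ℝ} (hδ : δ ≤ 2) (hU : 0 < U) (hh : 0 < h) :
    gg δ U h ≤ U ^ δ * h ^ (-(1 + δ)) := by
  unfold gg
  calc kap δ U h * h⁻¹ ≤ (U / h) ^ δ * h⁻¹ :=
        mul_le_mul_of_nonneg_right (kap_le hδ hU hh) (inv_nonneg.2 hh.le)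
    _ = U ^ δ * h ^ (-(1 + δ)) := by
        rw [Real.div_rpow hU.le hh.le, neg_add, Real.rpow_add hh, Real.rpow_neg_one,
          Real.rpow_neg hh.le]
        ring

theorem gg_zero (δ U : ℝ) : gg δ U 0 = 0 := by simp [gg]

/-- `ζ(1 + δ)` -/
noncomputable def ZZ (δ : ℝ) : ℝ := ∑' n : ℕ+, ((n : ℕ) : ℝ) ^ (-(1 + δ))

theorem summable_ZZ {δ : ℝ} (hδ : 0 < δ) : Summable (fun n : ℕ+ => ((n : ℕ) : ℝ) ^ (-(1 + δ))) := by
  have h : Summable (fun m : ℕ => ((m : ℕ) : ℝ) ^ (-(1 + δ))) :=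
    Real.summable_nat_rpow.2 (by linarith)
  exact h.comp_injective PNat.coe_injective

theorem ZZ_nonneg (δ : ℝ) : 0 ≤ ZZ δ := tsum_nonneg fun _ => Real.rpow_nonneg (Nat.cast_nonneg _) _

theorem ZZ_pos {δ : ℝ} (hδ : 0 < δ) : 0 < ZZ δ := by
  have h1 : (((1 : ℕ+) : ℕ) : ℝ) ^ (-(1 + δ)) ≤ ZZ δ :=
    (summable_ZZ hδ).le_tsum (1 : ℕ+) (fun n _ => Real.rpow_nonneg (Nat.cast_nonneg _) _)
  have h2 : (((1 : ℕ+) : ℕ) : ℝ) ^ (-(1 + δ)) = 1 := by simp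
  linarith

theorem hasSum_hgt {δ : ℝ} (hδ : 0 < δ) :
    HasSum (fun p : ℕ+ × ℕ+ => (hgt p) ^ (-(1 + δ))) (ZZ δ * ZZ δ) := by
  have hs := (summable_ZZ hδ).mul_of_nonneg (summable_ZZ hδ)
    (fun m => Real.rpow_nonneg (Nat.cast_nonneg _) _) (fun m => Real.rpow_nonneg (Nat.cast_nonneg _) _)
  have h := hs.hasSum
  rw [← (summable_ZZ hδ).tsum_mul_tsum (summable_ZZ hδ) hs] at h
  have e : (fun p : ℕ+ × ℕ+ => (hgt p) ^ (-(1 + δ))) =
      fun p : ℕ+ × ℕ+ => ((p.1 : ℕ) : ℝ) ^ (-(1 + δ)) * ((p.2 : ℕ) : ℝ) ^ (-(1 + δ)) := by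
    funext p
    unfold hgt
    rw [Real.mul_rpow (Nat.cast_nonneg _) (Nat.cast_nonneg _)]
  rw [e]
  exact h

theorem scaled {δ : ℝ} (hδ : 0 < δ) (hδ2 : δ ≤ 1 / 2) {U : ℝ} (hU : 1 ≤ U) (d : ℕ+) :
    Summable (fun p : ℕ+ × ℕ+ => gg δ U (((d : ℕ) : ℝ) ^ 2 * hgt p)) ∧
      ∑' p : ℕ+ × ℕ+, gg δ U (((d : ℕ) : ℝ) ^ 2 * hgt p) ≤
        ((d : ℕ) : ℝ) ^ (-2 : ℝ) * (U ^ δ * (ZZ δ * ZZ δ)) := by
  have hd : (1 : ℝ) ≤ ((d : ℕ) : ℝ) := by exact_mod_cast d.2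
  have hd0 : (0 : ℝ) < ((d : ℕ) : ℝ) := by linarith
  have hU0 : 0 < U := by linarith
  have hb : ∀ p : ℕ+ × ℕ+, gg δ U (((d : ℕ) : ℝ) ^ 2 * hgt p) ≤
      ((d : ℕ) : ℝ) ^ (-2 : ℝ) * U ^ δ * (hgt p) ^ (-(1 + δ)) := by
    intro p
    have hp := hgt_pos p
    refine (gg_le (by linarith) hU0 (by positivity)).trans ?_
    rw [Real.mul_rpow (by positivity) hp.le]
    have h1 : ((((d : ℕ) : ℝ) ^ 2) ^ (-(1 + δ)) : ℝ) ≤ ((d : ℕ) : ℝ) ^ (-2 : ℝ) := by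
      rw [← Real.rpow_natCast, ← Real.rpow_mul hd0.le]
      apply Real.rpow_le_rpow_of_exponent_le hd
      push_cast
      linarith
    have h2 : 0 < U ^ δ := Real.rpow_pos_of_pos hU0 _
    have h3 : 0 < (hgt p) ^ (-(1 + δ)) := Real.rpow_pos_of_pos hp _
    calc U ^ δ * ((((d : ℕ) : ℝ) ^ 2) ^ (-(1 + δ)) * hgt p ^ (-(1 + δ)))
        ≤ U ^ δ * (((d : ℕ) : ℝ) ^ (-2 : ℝ) * hgt p ^ (-(1 + δ))) := by gcongr
      _ = _ := by ring
  have hs := (hasSum_hgt hδ).mul_left (((d : ℕ) : ℝ) ^ (-2 : ℝ) * U ^ δ)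
  have h0 : ∀ p : ℕ+ × ℕ+, 0 ≤ gg δ U (((d : ℕ) : ℝ) ^ 2 * hgt p) := fun p =>
    gg_nonneg hU0.le (mul_nonneg (by positivity) (hgt_pos p).le)
  have hsum := Summable.of_nonneg_of_le h0 hb hs.summable
  refine ⟨hsum, ?_⟩
  refine (hsum.tsum_le_tsum hb hs.summable).trans ?_
  rw [hs.tsum_eq]
  exact le_of_eq (by ring)

/-! ### Abel summation -/

theorem block (z : ℕ → ℂ) (N₀ : ℕ) (hN : 1 ≤ N₀) (ε : ℝ) (hε : 0 ≤ ε)
    (hz : ∀ N N' : ℕ, N₀ ≤ N → N ≤ N' → N' ≤ 2 * N → ‖∑ n ∈ Finset.Ioc N N', z n‖ ≤ ε * N) :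
    ∀ N : ℕ, N₀ ≤ N → ‖∑ n ∈ Finset.Ioc N₀ N, z n‖ ≤ 2 * ε * N := by
  intro N
  induction N using Nat.strong_induction_on with
  | _ N ih =>
    intro hN'
    have hNr : (1 : ℝ) ≤ N := by exact_mod_cast hN.trans hN'
    by_cases h1 : N ≤ 2 * N₀
    · refine (hz N₀ N le_rfl hN' h1).trans ?_
      have h2 : (N₀ : ℝ) ≤ N := by exact_mod_cast hN'
      nlinarith
    · push Not at h1
      set M := (N + 1) / 2 with hM
      have hM1 : N ≤ 2 * M := by omega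
      have hM2 : N₀ ≤ M := by omega
      have hM3 : M < N := by omega
      have hM4 : 2 * M ≤ N + 1 := by omega
      have h2 := ih M hM3 hM2
      have h3 := hz M N hM2 hM3.le hM1
      have e : ∑ n ∈ Finset.Ioc N₀ N, z n = ∑ n ∈ Finset.Ioc N₀ M, z n + ∑ n ∈ Finset.Ioc M N, z n :=
        (Finset.sum_Ioc_consecutive _ hM2 hM3.le).symm
      rw [e]
      refine (norm_add_le _ _).trans ?_
      have h4 : (2 : ℝ) * M ≤ N + 1 := by exact_mod_cast hM4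
      have h5 : (3 : ℝ) ≤ N := by
        have : 3 ≤ N := by omega
        exact_mod_cast this
      nlinarith

theorem abel_fin (f : ℕ → ℝ) (z : ℕ → ℂ) (N₀ : ℕ) (ε : ℝ) (hf : ∀ n, 1 ≤ n → f (n + 1) ≤ f n)
    (hz : ∀ N : ℕ, N₀ ≤ N → ‖∑ n ∈ Finset.Ioc N₀ N, z n‖ ≤ ε * N) (hε : 0 ≤ ε) :
    ∀ N : ℕ, N₀ ≤ N → ‖∑ n ∈ Finset.Ioc N₀ N, (f n : ℂ) * z n -
      (f (N + 1) : ℂ) * ∑ n ∈ Finset.Ioc N₀ N, z n‖ ≤
        ε * (∑ n ∈ Finset.Ioc 0 N, f n - N * f (N + 1)) := by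
  intro N hN
  induction N, hN using Nat.le_induction with
  | base =>
    have h1 : ∀ M : ℕ, 0 ≤ ∑ n ∈ Finset.Ioc 0 M, f n - M * f (M + 1) := by
      intro M
      induction M with
      | zero => simp
      | succ M ih =>
        rw [Finset.sum_Ioc_succ_top (by omega)]
        have := hf (M + 1) (by omega)
        push_cast
        have h2 : (0 : ℝ) ≤ M := Nat.cast_nonneg _
        nlinarith
    simp only [Finset.Ioc_self, Finset.sum_empty, mul_zero, sub_zero, norm_zero]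
    exact mul_nonneg hε (h1 N₀)
  | succ N hN ih =>
    rw [Finset.sum_Ioc_succ_top (by omega), Finset.sum_Ioc_succ_top (by omega) (f := fun n => z n),
      Finset.sum_Ioc_succ_top (by omega) (f := fun n => f n)]
    have h1 := hz (N + 1) (by omega)
    rw [Finset.sum_Ioc_succ_top (by omega) (f := fun n => z n)] at h1
    have h2 := hf (N + 1) (by omega)
    set S := ∑ n ∈ Finset.Ioc N₀ N, z n with hS
    set A := ∑ n ∈ Finset.Ioc N₀ N, (f n : ℂ) * z n with hA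
    have e : A + (f (N + 1) : ℂ) * z (N + 1) - (f (N + 1 + 1) : ℂ) * (S + z (N + 1)) =
        (A - (f (N + 1) : ℂ) * S) + ((f (N + 1) - f (N + 1 + 1) : ℝ) : ℂ) * (S + z (N + 1)) := by
      push_cast
      ring
    rw [e]
    refine (norm_add_le _ _).trans ?_
    rw [norm_mul, Complex.norm_real, Real.norm_eq_abs, abs_of_nonneg (by linarith)]
    have h3 : (f (N + 1) - f (N + 1 + 1)) * ‖S + z (N + 1)‖ ≤
        (f (N + 1) - f (N + 1 + 1)) * (ε * ((N + 1 : ℕ) : ℝ)) :=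
      mul_le_mul_of_nonneg_left h1 (by linarith)
    push_cast at h3 ⊢
    linarith

theorem tail_bound (f : ℕ → ℝ) (z : ℕ → ℂ) (N₀ : ℕ) (hN : 1 ≤ N₀) (ε : ℝ) (hε : 0 ≤ ε)
    (hf0 : ∀ n, 0 ≤ f n) (hf : ∀ n, 1 ≤ n → f (n + 1) ≤ f n) (hfs : Summable f)
    (hz1 : ∀ n, ‖z n‖ ≤ 1)
    (hz : ∀ N N' : ℕ, N₀ ≤ N → N ≤ N' → N' ≤ 2 * N → ‖∑ n ∈ Finset.Ioc N N', z n‖ ≤ ε * N) :
    ‖∑' n, if N₀ < n then (f n : ℂ) * z n else 0‖ ≤ 2 * ε * ∑' n, f n := by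
  have hs : Summable (fun n => if N₀ < n then (f n : ℂ) * z n else 0) := by
    refine Summable.of_norm_bounded hfs (fun n => ?_)
    split_ifs
    · rw [norm_mul, Complex.norm_real, Real.norm_eq_abs, abs_of_nonneg (hf0 n)]
      exact mul_le_of_le_one_right (hf0 n) (hz1 n)
    · simpa using hf0 n
  have ht := hs.hasSum.tendsto_sum_nat
  refine le_of_tendsto (ht.norm) ?_
  filter_upwards [Filter.eventually_ge_atTop (N₀ + 1)] with M hM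
  obtain ⟨N, rfl⟩ : ∃ N, M = N + 1 := ⟨M - 1, by omega⟩
  have hNN : N₀ ≤ N := by omega
  have e : ∑ n ∈ Finset.range (N + 1), (if N₀ < n then (f n : ℂ) * z n else 0) =
      ∑ n ∈ Finset.Ioc N₀ N, (f n : ℂ) * z n := by
    rw [← Finset.sum_filter]
    apply Finset.sum_congr _ (fun _ _ => rfl)
    ext n
    simp only [Finset.mem_filter, Finset.mem_range, Finset.mem_Ioc]
    omega
  rw [e]
  have hb := block z N₀ hN ε hε hz
  have h1 := abel_fin f z N₀ (2 * ε) hf hb (by linarith) N hNN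
  have h2 := hb N hNN
  have h3 : ‖(f (N + 1) : ℂ) * ∑ n ∈ Finset.Ioc N₀ N, z n‖ ≤ f (N + 1) * (2 * ε * N) := by
    rw [norm_mul, Complex.norm_real, Real.norm_eq_abs, abs_of_nonneg (hf0 _)]
    exact mul_le_mul_of_nonneg_left h2 (hf0 _)
  have h4 : ‖∑ n ∈ Finset.Ioc N₀ N, (f n : ℂ) * z n‖ ≤
      ‖∑ n ∈ Finset.Ioc N₀ N, (f n : ℂ) * z n - (f (N + 1) : ℂ) * ∑ n ∈ Finset.Ioc N₀ N, z n‖ +
        ‖(f (N + 1) : ℂ) * ∑ n ∈ Finset.Ioc N₀ N, z n‖ := by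
    have := norm_add_le (∑ n ∈ Finset.Ioc N₀ N, (f n : ℂ) * z n -
      (f (N + 1) : ℂ) * ∑ n ∈ Finset.Ioc N₀ N, z n) ((f (N + 1) : ℂ) * ∑ n ∈ Finset.Ioc N₀ N, z n)
    rwa [sub_add_cancel] at this
  have h5 : ∑ n ∈ Finset.Ioc 0 N, f n ≤ ∑' n, f n := hfs.sum_le_tsum _ (fun n _ => hf0 n)
  have h6 : ‖∑ n ∈ Finset.Ioc N₀ N, (f n : ℂ) * z n‖ ≤ 2 * ε * ∑ n ∈ Finset.Ioc 0 N, f n := by
    refine h4.trans ((add_le_add h1 h3).trans (le_of_eq ?_))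
    ring
  exact h6.trans (mul_le_mul_of_nonneg_left h5 (by linarith))

/-! ### Removing the coprimality -/

theorem sum_moebius (m : ℕ) :
    ∑ d ∈ m.divisors, (ArithmeticFunction.moebius d : ℂ) = if m = 1 then 1 else 0 := by
  have h := congrArg (fun g : ArithmeticFunction ℤ => g m) ArithmeticFunction.moebius_mul_coe_zeta
  simp only [ArithmeticFunction.coe_mul_zeta_apply, ArithmeticFunction.one_apply] at h
  have h2 : ((∑ d ∈ m.divisors, ArithmeticFunction.moebius d : ℤ) : ℂ) = ((if m = 1 then 1 else 0 : ℤ) : ℂ) := by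
    rw [h]
  push_cast at h2
  exact h2

/-- multiplication of both entries -/
def dm (d : ℕ+) (p : ℕ+ × ℕ+) : ℕ+ × ℕ+ := (d * p.1, d * p.2)

theorem dm_inj (d : ℕ+) : Function.Injective (dm d) := by
  intro p p' h
  unfold dm at h
  simp only [Prod.mk.injEq] at h
  exact Prod.ext (mul_left_cancel h.1) (mul_left_cancel h.2)

theorem moebius_pair (F : ℕ+ × ℕ+ → ℂ) (b : ℕ+ → ℝ)
    (hs : ∀ d, Summable fun p : ℕ+ × ℕ+ => ‖F (dm d p)‖)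
    (hb : ∀ d, ∑' p, ‖F (dm d p)‖ ≤ b d) (hbs : Summable b) :
    ∑' q : Q, F q.1 = ∑' d : ℕ+, (ArithmeticFunction.moebius (d : ℕ) : ℂ) * ∑' p, F (dm d p) := by
  classical
  set G : ℕ+ × (ℕ+ × ℕ+) → ℂ := fun z => if z.2 ∈ Set.range (dm z.1) then
    (ArithmeticFunction.moebius (z.1 : ℕ) : ℂ) * F z.2 else 0 with hG
  have hmu : ∀ d : ℕ+, ‖(ArithmeticFunction.moebius (d : ℕ) : ℂ)‖ ≤ 1 := by
    intro d
    rw [Complex.norm_intCast]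
    exact_mod_cast ArithmeticFunction.abs_moebius_le_one
  have hcomp : ∀ d p, G (d, dm d p) = (ArithmeticFunction.moebius (d : ℕ) : ℂ) * F (dm d p) := by
    intro d p
    simp [hG]
  have hsupp : ∀ d : ℕ+, ∀ p, p ∉ Set.range (dm d) → G (d, p) = 0 := by
    intro d p hp
    simp only [hG]
    rw [if_neg hp]
  have hinner : ∀ d : ℕ+, Summable fun p => ‖G (d, p)‖ := by
    intro d
    rw [← (dm_inj d).summable_iff (fun p hp => by rw [hsupp d p hp, norm_zero])]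
    refine Summable.of_nonneg_of_le (fun p => norm_nonneg _) (fun p => ?_) (hs d)
    simp only [Function.comp, hcomp, norm_mul]
    exact mul_le_of_le_one_left (norm_nonneg _) (hmu d)
  have htsum : ∀ d : ℕ+, ∑' p, ‖G (d, p)‖ ≤ b d := by
    intro d
    refine le_trans ?_ (hb d)
    rw [← (dm_inj d).tsum_eq (f := fun p => ‖G (d, p)‖) (by
      intro p hp
      by_contra h
      exact hp (by simp only [hsupp d p h, norm_zero]))]
    have h1 : Summable fun p => ‖G (d, dm d p)‖ := (hinner d).comp_injective (dm_inj d)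
    refine h1.tsum_le_tsum (fun p => ?_) (hs d)
    rw [hcomp, norm_mul]
    exact mul_le_of_le_one_left (norm_nonneg _) (hmu d)
  have hGn : Summable fun z => ‖G z‖ := by
    rw [summable_prod_of_nonneg (fun z => norm_nonneg _)]
    exact ⟨hinner, Summable.of_nonneg_of_le (fun d => tsum_nonneg fun p => norm_nonneg _) htsum hbs⟩
  have hGs : Summable G := hGn.of_norm
  have e1 : ∑' d : ℕ+, (ArithmeticFunction.moebius (d : ℕ) : ℂ) * ∑' p, F (dm d p) =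
      ∑' d : ℕ+, ∑' p, G (d, p) := by
    refine tsum_congr fun d => ?_
    rw [← (dm_inj d).tsum_eq (f := fun p => G (d, p)) (by
      intro p hp
      by_contra h
      exact hp (hsupp d p h)), ← tsum_mul_left]
    exact tsum_congr fun p => (hcomp d p).symm
  have e2 : ∑' d : ℕ+, ∑' p, G (d, p) = ∑' p, ∑' d : ℕ+, G (d, p) :=
    (Summable.tsum_comm (f := fun d p => G (d, p)) hGs).symm
  have e3 : ∀ p : ℕ+ × ℕ+, ∑' d : ℕ+, G (d, p) =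
      if Nat.Coprime (p.1 : ℕ) (p.2 : ℕ) then F p else 0 := by
    intro p
    set m := Nat.gcd (p.1 : ℕ) (p.2 : ℕ) with hm
    have hm0 : m ≠ 0 := (Nat.gcd_pos_of_pos_left _ p.1.2).ne'
    have hr : ∀ d : ℕ+, p ∈ Set.range (dm d) ↔ (d : ℕ) ∈ m.divisors := by
      intro d
      rw [Nat.mem_divisors]
      constructor
      · rintro ⟨p', hp'⟩
        refine ⟨Nat.dvd_gcd ?_ ?_, hm0⟩
        · rw [← hp']
          exact ⟨(p'.1 : ℕ), rfl⟩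
        · rw [← hp']
          exact ⟨(p'.2 : ℕ), rfl⟩
      · rintro ⟨h1, -⟩
        have h2 : d ∣ p.1 := PNat.dvd_iff.2 (h1.trans (Nat.gcd_dvd_left _ _))
        have h3 : d ∣ p.2 := PNat.dvd_iff.2 (h1.trans (Nat.gcd_dvd_right _ _))
        obtain ⟨u, hu⟩ := h2
        obtain ⟨v, hv⟩ := h3
        exact ⟨(u, v), Prod.ext hu.symm hv.symm⟩
    have h1 : ∀ d : ℕ+, G (d, p) = (fun n : ℕ => if n ∈ m.divisors then
        (ArithmeticFunction.moebius n : ℂ) * F p else 0) (d : ℕ) := by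
      intro d
      simp only [hG]
      by_cases h : p ∈ Set.range (dm d)
      · rw [if_pos h, if_pos ((hr d).1 h)]
      · rw [if_neg h, if_neg (fun h' => h ((hr d).2 h'))]
    rw [tsum_congr h1, PNat.coe_injective.tsum_eq (f := fun n : ℕ => if n ∈ m.divisors then
        (ArithmeticFunction.moebius n : ℂ) * F p else 0)]
    · rw [tsum_eq_sum (s := m.divisors) (fun n hn => if_neg hn)]
      rw [Finset.sum_congr rfl (fun n hn => if_pos hn), ← Finset.sum_mul, sum_moebius m]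
      by_cases h : m = 1
      · rw [if_pos h, if_pos (show Nat.Coprime (p.1 : ℕ) (p.2 : ℕ) from h), one_mul]
      · rw [if_neg h, if_neg (show ¬ Nat.Coprime (p.1 : ℕ) (p.2 : ℕ) from h), zero_mul]
    · intro n hn
      have hn' : n ∈ m.divisors := by
        by_contra h
        exact hn (if_neg h)
      have : 0 < n := Nat.pos_of_mem_divisors hn'
      exact ⟨⟨n, this⟩, rfl⟩
  rw [e1, e2, tsum_congr e3]
  have e4 : ∑' q : Q, F q.1 = ∑' q : {p : ℕ+ × ℕ+ // Nat.Coprime (p.1 : ℕ) (p.2 : ℕ)}, F q.1 := rfl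
  rw [e4]
  have := tsum_subtype {p : ℕ+ × ℕ+ | Nat.Coprime (p.1 : ℕ) (p.2 : ℕ)} F
  refine this.trans (tsum_congr fun p => ?_)
  simp only [Set.indicator_apply, Set.mem_ofPred_eq]

/-! ### The inner sums -/

/-- the summand, restricted to `a < b` -/
noncomputable def F1 (δ U Y τ : ℝ) (p : ℕ+ × ℕ+) : ℂ :=
  if p.1 < p.2 ∧ Y < hgt p then ((gg δ U (hgt p) : ℝ) : ℂ) * ex τ p else 0

theorem hgt_dm (d : ℕ+) (p : ℕ+ × ℕ+) : hgt (dm d p) = ((d : ℕ) : ℝ) ^ 2 * hgt p := by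
  unfold hgt dm
  push_cast
  ring

theorem lgr_dm (d : ℕ+) (p : ℕ+ × ℕ+) : lgr (dm d p) = lgr p := by
  unfold lgr dm
  have hd : ((d : ℕ) : ℝ) ≠ 0 := by exact_mod_cast d.2.ne'
  have h1 : ((p.1 : ℕ) : ℝ) ≠ 0 := by exact_mod_cast p.1.2.ne'
  have h2 : ((p.2 : ℕ) : ℝ) ≠ 0 := by exact_mod_cast p.2.2.ne'
  push_cast
  rw [Real.log_mul hd h1, Real.log_mul hd h2]
  ring

theorem ex_dm (τ : ℝ) (d : ℕ+) (p : ℕ+ × ℕ+) : ex τ (dm d p) = ex τ p := by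
  unfold ex
  rw [lgr_dm]

theorem F1_norm_le {δ U Y τ : ℝ} (hU : 0 ≤ U) (p : ℕ+ × ℕ+) : ‖F1 δ U Y τ p‖ ≤ gg δ U (hgt p) := by
  have h0 := gg_nonneg (δ := δ) hU (hgt_pos p).le
  unfold F1
  split_ifs
  · rw [norm_mul, norm_ex, mul_one, Complex.norm_real, Real.norm_eq_abs, abs_of_nonneg h0]
  · simpa using h0

theorem ex_eq (τ : ℝ) (p : ℕ+ × ℕ+) : ex τ p =
    Complex.exp (((-(τ * Real.log ((p.1 : ℕ) : ℝ)) : ℝ) : ℂ) * I) *
      ((((p.2 : ℕ) : ℝ) : ℂ) ^ ((τ : ℂ) * I)) := by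
  have h2 : (0 : ℝ) < ((p.2 : ℕ) : ℝ) := by exact_mod_cast p.2.2
  rw [Complex.cpow_def_of_ne_zero (by exact_mod_cast h2.ne'), ← Complex.ofReal_log h2.le,
    ← Complex.exp_add]
  unfold ex lgr
  congr 1
  push_cast
  ring

theorem inner_bound {δ U Y τ : ℝ} (hδ : 0 < δ) (hδ2 : δ ≤ 1 / 2) (hU : 1 ≤ U) (hY : 0 ≤ Y)
    (d a : ℕ+) (ε : ℝ) (hε : 0 ≤ ε)
    (hz : ∀ N N' : ℕ, max (a : ℕ) ⌊Y / (((d : ℕ) : ℝ) ^ 2 * ((a : ℕ) : ℝ))⌋₊ ≤ N → N ≤ N' → N' ≤ 2 * N →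
      ‖∑ n ∈ Finset.Ioc N N', ((n : ℝ) : ℂ) ^ ((τ : ℂ) * I)‖ ≤ ε * N) :
    ‖∑' b : ℕ+, F1 δ U Y τ (dm d (a, b))‖ ≤
      2 * ε * ∑' b : ℕ+, gg δ U (((d : ℕ) : ℝ) ^ 2 * hgt (a, b)) := by
  have hU0 : 0 < U := by linarith
  have hd : (1 : ℝ) ≤ ((d : ℕ) : ℝ) := by exact_mod_cast d.2
  have ha : (1 : ℝ) ≤ ((a : ℕ) : ℝ) := by exact_mod_cast a.2
  have hda : (0 : ℝ) < ((d : ℕ) : ℝ) ^ 2 * ((a : ℕ) : ℝ) := by positivity
  set N₀ := max (a : ℕ) ⌊Y / (((d : ℕ) : ℝ) ^ 2 * ((a : ℕ) : ℝ))⌋₊ with hN₀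
  have hN1 : 1 ≤ N₀ := le_trans a.2 (le_max_left _ _)
  set f : ℕ → ℝ := fun n => gg δ U (((d : ℕ) : ℝ) ^ 2 * ((a : ℕ) : ℝ) * n) with hf
  set z : ℕ → ℂ := fun n => ((n : ℝ) : ℂ) ^ ((τ : ℂ) * I) with hzd
  have hf0 : ∀ n, 0 ≤ f n := fun n => gg_nonneg hU0.le (by positivity)
  have hfanti : ∀ n, 1 ≤ n → f (n + 1) ≤ f n := by
    intro n hn
    have hn' : (1 : ℝ) ≤ n := by exact_mod_cast hn
    apply gg_anti hδ hU0 (by positivity)
    push_cast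
    nlinarith
  have hhgt : ∀ b : ℕ+, f (b : ℕ) = gg δ U (((d : ℕ) : ℝ) ^ 2 * hgt (a, b)) := by
    intro b
    simp only [hf, hgt]
    congr 1
    ring
  have hpn : Summable fun b : ℕ+ => f (b : ℕ) := by
    have h1 := (scaled hδ hδ2 hU d).1
    have h2 : Summable fun b : ℕ+ => gg δ U (((d : ℕ) : ℝ) ^ 2 * hgt (a, b)) :=
      h1.comp_injective (i := fun b : ℕ+ => (a, b)) (fun b b' h => (Prod.mk.inj h).2)
    exact h2.congr fun b => (hhgt b).symm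
  have hfs : Summable f := by
    rw [← PNat.coe_injective.summable_iff (f := f)]
    · exact hpn
    · intro n hn
      have : n = 0 := by
        by_contra h
        exact hn ⟨⟨n, Nat.pos_of_ne_zero h⟩, rfl⟩
      subst this
      simp [hf, gg_zero]
  have hfts : ∑' n, f n = ∑' b : ℕ+, gg δ U (((d : ℕ) : ℝ) ^ 2 * hgt (a, b)) := by
    rw [← PNat.coe_injective.tsum_eq (f := f)]
    · exact tsum_congr hhgt
    · intro n hn
      have : n ≠ 0 := by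
        rintro rfl
        exact hn (by simp [hf, gg_zero])
      exact ⟨⟨n, Nat.pos_of_ne_zero this⟩, rfl⟩
  have hz1 : ∀ n, ‖z n‖ ≤ 1 := by
    intro n
    rcases Nat.eq_zero_or_pos n with rfl | hn
    · simp only [hzd, Nat.cast_zero, Complex.ofReal_zero]
      by_cases h : (τ : ℂ) * I = 0
      · rw [h, Complex.cpow_zero]
        simp
      · rw [Complex.zero_cpow h]
        simp
    · have hn' : (0 : ℝ) < n := by exact_mod_cast hn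
      simp only [hzd]
      rw [Complex.norm_cpow_eq_rpow_re_of_pos hn']
      simp
  have hcond : ∀ b : ℕ+, (a < b ∧ Y < ((d : ℕ) : ℝ) ^ 2 * hgt (a, b)) ↔ N₀ < (b : ℕ) := by
    intro b
    rw [hN₀, max_lt_iff, Nat.floor_lt (by positivity), div_lt_iff₀ hda, PNat.coe_lt_coe]
    refine and_congr Iff.rfl ?_
    have e : ((d : ℕ) : ℝ) ^ 2 * hgt (a, b) = ((b : ℕ) : ℝ) * (((d : ℕ) : ℝ) ^ 2 * ((a : ℕ) : ℝ)) := by
      simp only [hgt]
      ring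
    rw [e]
  have hterm : ∀ b : ℕ+, F1 δ U Y τ (dm d (a, b)) =
      Complex.exp (((-(τ * Real.log ((a : ℕ) : ℝ)) : ℝ) : ℂ) * I) *
        (fun n : ℕ => if N₀ < n then (f n : ℂ) * z n else 0) (b : ℕ) := by
    intro b
    unfold F1
    rw [hgt_dm, ex_dm]
    have h1 : ((dm d (a, b)).1 < (dm d (a, b)).2 ∧ Y < ((d : ℕ) : ℝ) ^ 2 * hgt (a, b)) ↔
        N₀ < (b : ℕ) := by
      rw [← hcond b]
      refine and_congr ?_ Iff.rfl
      simp only [dm]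
      exact mul_lt_mul_iff_left d
    by_cases h : N₀ < (b : ℕ)
    · rw [if_pos (h1.2 h)]
      simp only [if_pos h]
      rw [ex_eq, hhgt]
      ring
    · rw [if_neg (fun h' => h (h1.1 h'))]
      simp only [if_neg h, mul_zero]
  rw [tsum_congr hterm, tsum_mul_left, norm_mul, Complex.norm_exp_ofReal_mul_I, one_mul,
    PNat.coe_injective.tsum_eq (f := fun n : ℕ => if N₀ < n then (f n : ℂ) * z n else 0), ← hfts]
  · exact tail_bound f z N₀ hN1 ε hε hf0 hfanti hfs hz1 hz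
  · intro n hn
    have : N₀ < n := by
      by_contra h
      exact hn (if_neg h)
    exact ⟨⟨n, by omega⟩, rfl⟩

theorem F1_summable {δ U Y τ : ℝ} (hδ : 0 < δ) (hδ2 : δ ≤ 1 / 2) (hU : 1 ≤ U) (d : ℕ+) :
    Summable fun p : ℕ+ × ℕ+ => ‖F1 δ U Y τ (dm d p)‖ := by
  refine Summable.of_nonneg_of_le (fun p => norm_nonneg _) (fun p => ?_) (scaled hδ hδ2 hU d).1
  have := F1_norm_le (δ := δ) (U := U) (Y := Y) (τ := τ) (by linarith) (dm d p)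
  rwa [hgt_dm] at this

theorem F1_trivial {δ U Y τ : ℝ} (hδ : 0 < δ) (hδ2 : δ ≤ 1 / 2) (hU : 1 ≤ U) (d : ℕ+) :
    ∑' p : ℕ+ × ℕ+, ‖F1 δ U Y τ (dm d p)‖ ≤
      ((d : ℕ) : ℝ) ^ (-2 : ℝ) * (U ^ δ * (ZZ δ * ZZ δ)) := by
  refine le_trans ((F1_summable hδ hδ2 hU d).tsum_le_tsum (fun p => ?_) (scaled hδ hδ2 hU d).1)
    (scaled hδ hδ2 hU d).2
  have := F1_norm_le (δ := δ) (U := U) (Y := Y) (τ := τ) (by linarith) (dm d p)
  rwa [hgt_dm] at this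

theorem F1_good {δ U Y τ : ℝ} (hδ : 0 < δ) (hδ2 : δ ≤ 1 / 2) (hU : 1 ≤ U) (hY : 0 ≤ Y)
    (d : ℕ+) (ε : ℝ) (hε : 0 ≤ ε)
    (hz : ∀ (a : ℕ+) (N N' : ℕ), max (a : ℕ) ⌊Y / (((d : ℕ) : ℝ) ^ 2 * ((a : ℕ) : ℝ))⌋₊ ≤ N → N ≤ N' →
      N' ≤ 2 * N → ‖∑ n ∈ Finset.Ioc N N', ((n : ℝ) : ℂ) ^ ((τ : ℂ) * I)‖ ≤ ε * N) :
    ‖∑' p : ℕ+ × ℕ+, F1 δ U Y τ (dm d p)‖ ≤
      2 * ε * (((d : ℕ) : ℝ) ^ (-2 : ℝ) * (U ^ δ * (ZZ δ * ZZ δ))) := by
  have hs := F1_summable (Y := Y) (τ := τ) hδ hδ2 hU d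
  have hsc := (scaled hδ hδ2 hU d).1
  rw [hs.of_norm.tsum_prod]
  have h1 : ∀ a : ℕ+, ‖∑' b : ℕ+, F1 δ U Y τ (dm d (a, b))‖ ≤
      2 * ε * ∑' b : ℕ+, gg δ U (((d : ℕ) : ℝ) ^ 2 * hgt (a, b)) := fun a =>
    inner_bound hδ hδ2 hU hY d a ε hε (hz a)
  have h2 : HasSum (fun a : ℕ+ => 2 * ε * ∑' b : ℕ+, gg δ U (((d : ℕ) : ℝ) ^ 2 * hgt (a, b)))
      (2 * ε * ∑' p : ℕ+ × ℕ+, gg δ U (((d : ℕ) : ℝ) ^ 2 * hgt p)) := by
    rw [hsc.tsum_prod]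
    exact hsc.prod.hasSum.mul_left _
  refine (tsum_of_norm_bounded h2 h1).trans ?_
  exact mul_le_mul_of_nonneg_left (scaled hδ hδ2 hU d).2 (by linarith)

theorem dm_one (p : ℕ+ × ℕ+) : dm 1 p = p := by simp [dm]

theorem F1Q_summable {δ U Y τ : ℝ} (hδ : 0 < δ) (hδ2 : δ ≤ 1 / 2) (hU : 1 ≤ U) :
    Summable fun q : Q => F1 δ U Y τ q.1 := by
  have h := F1_summable (Y := Y) (τ := τ) hδ hδ2 hU 1
  have h2 : Summable fun p : ℕ+ × ℕ+ => F1 δ U Y τ p :=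
    h.of_norm.congr fun p => by rw [dm_one]
  exact h2.comp_injective (i := fun q : Q => q.1) (fun a b h => Subtype.ext h)

theorem F1_bound (δ₀ : ℝ) (hδ₀ : 0 < δ₀) (hδ₁ : δ₀ ≤ 1) : ∃ c : ℝ, 0 < c ∧ ∀ δ : ℝ, 0 < δ →
    δ ≤ 1 / 2 → ∃ C : ℝ, 0 < C ∧ ∀ U Y τ : ℝ, 1 ≤ U → U ^ δ₀ ≤ Y → Y ≤ U → U ^ δ₀ ≤ |τ| →
      |τ| ≤ 16 * U → ‖∑' q : Q, F1 δ U Y τ q.1‖ ≤ C * U ^ (δ - c) := by
  obtain ⟨c₀, C₀, hc₀, hC₀, hz⟩ := zsum (δ₀ / 4) (by linarith) (by linarith)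
  set c := min c₀ (δ₀ / 16) with hc
  have hcpos : 0 < c := lt_min hc₀ (by linarith)
  refine ⟨c, hcpos, fun δ hδ hδ2 => ?_⟩
  set U₀ : ℝ := (2 : ℝ) ^ (8 / δ₀) with hU₀
  have hU₀0 : 0 < U₀ := Real.rpow_pos_of_pos (by norm_num) _
  set K : ℝ := 2 * C₀ + 1 + U₀ ^ c with hK
  have hUc : 0 < U₀ ^ c := Real.rpow_pos_of_pos hU₀0 _
  have hKpos : 0 < K := by positivity
  have hZ := ZZ_pos hδ
  have hZ2 : 0 < ZZ (1 / 2) := ZZ_pos (by norm_num)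
  refine ⟨K * (ZZ δ * ZZ δ) * ZZ (1 / 2), by positivity, ?_⟩
  intro U Y τ hU hYl hYu hτl hτu
  have hU0 : 0 < U := by linarith
  have hUd0 : 1 ≤ U ^ δ₀ := Real.one_le_rpow hU hδ₀.le
  have hY0 : 0 ≤ Y := by linarith
  have hUδ : 0 < U ^ δ := Real.rpow_pos_of_pos hU0 _
  have hUmc : 0 < U ^ (-c) := Real.rpow_pos_of_pos hU0 _
  have hcore : ∀ d : ℕ+, ‖∑' p : ℕ+ × ℕ+, F1 δ U Y τ (dm d p)‖ ≤
      K * U ^ (-c) * (U ^ δ * (ZZ δ * ZZ δ)) * ((d : ℕ) : ℝ) ^ (-(1 + 1 / 2) : ℝ) := by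
    intro d
    have hd : (1 : ℝ) ≤ ((d : ℕ) : ℝ) := by exact_mod_cast d.2
    have hd0 : (0 : ℝ) < ((d : ℕ) : ℝ) := by linarith
    have hX : 0 < U ^ δ * (ZZ δ * ZZ δ) := by positivity
    set X := U ^ δ * (ZZ δ * ZZ δ) with hXdef
    have hd32 : 0 < ((d : ℕ) : ℝ) ^ (-(1 + 1 / 2) : ℝ) := Real.rpow_pos_of_pos hd0 _
    have hd2 : ((d : ℕ) : ℝ) ^ (-2 : ℝ) ≤ ((d : ℕ) : ℝ) ^ (-(1 + 1 / 2) : ℝ) :=
      Real.rpow_le_rpow_of_exponent_le hd (by norm_num)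
    have htriv : ‖∑' p : ℕ+ × ℕ+, F1 δ U Y τ (dm d p)‖ ≤ ((d : ℕ) : ℝ) ^ (-2 : ℝ) * X :=
      (norm_tsum_le_tsum_norm (F1_summable hδ hδ2 hU d)).trans (F1_trivial hδ hδ2 hU d)
    by_cases h1 : U < U₀
    · -- small `U`
      have h2 : 1 ≤ U₀ ^ c * U ^ (-c) := by
        rw [Real.rpow_neg hU0.le, ← div_eq_mul_inv, one_le_div (Real.rpow_pos_of_pos hU0 _)]
        exact Real.rpow_le_rpow hU0.le h1.le hcpos.le
      have h3 : 1 ≤ K * U ^ (-c) := by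
        refine h2.trans (mul_le_mul_of_nonneg_right ?_ hUmc.le)
        rw [hK]
        linarith
      calc _ ≤ ((d : ℕ) : ℝ) ^ (-2 : ℝ) * X := htriv
        _ ≤ ((d : ℕ) : ℝ) ^ (-(1 + 1 / 2) : ℝ) * X := mul_le_mul_of_nonneg_right hd2 hX.le
        _ = 1 * (((d : ℕ) : ℝ) ^ (-(1 + 1 / 2) : ℝ) * X) := (one_mul _).symm
        _ ≤ K * U ^ (-c) * (((d : ℕ) : ℝ) ^ (-(1 + 1 / 2) : ℝ) * X) :=
            mul_le_mul_of_nonneg_right h3 (by positivity)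
        _ = _ := by ring
    push Not at h1
    by_cases h4 : ((d : ℕ) : ℝ) ≤ U ^ (δ₀ / 8)
    · -- the power saving
      have h5 : (2 : ℝ) ≤ U ^ (δ₀ / 8) := by
        calc (2 : ℝ) = U₀ ^ (δ₀ / 8) := by
              rw [hU₀, ← Real.rpow_mul (by norm_num)]
              have : 8 / δ₀ * (δ₀ / 8) = 1 := by field_simp
              rw [this, Real.rpow_one]
          _ ≤ U ^ (δ₀ / 8) := Real.rpow_le_rpow hU₀0.le h1 (by linarith)
      have h6 := F1_good (τ := τ) hδ hδ2 hU hY0 d (C₀ * U ^ (-c₀)) (by positivity) (by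
        intro a N N' hN hN1 hN2
        have ha : (1 : ℝ) ≤ ((a : ℕ) : ℝ) := by exact_mod_cast a.2
        have hU4 : 0 < U ^ (δ₀ / 4) := Real.rpow_pos_of_pos hU0 _
        have hU41 : 1 ≤ U ^ (δ₀ / 4) := Real.one_le_rpow hU (by linarith)
        have hNN : U ^ (δ₀ / 4) ≤ N := by
          by_contra hcon
          push Not at hcon
          have ha2 : ((a : ℕ) : ℝ) < U ^ (δ₀ / 4) := by
            refine lt_of_le_of_lt ?_ hcon
            exact_mod_cast (le_max_left _ _).trans hN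
          have hfl : ⌊Y / (((d : ℕ) : ℝ) ^ 2 * ((a : ℕ) : ℝ))⌋₊ ≤ N := (le_max_right _ _).trans hN
          have hfl2 : Y / (((d : ℕ) : ℝ) ^ 2 * ((a : ℕ) : ℝ)) < N + 1 := by
            have := Nat.lt_floor_add_one (Y / (((d : ℕ) : ℝ) ^ 2 * ((a : ℕ) : ℝ)))
            have h8 : ((⌊Y / (((d : ℕ) : ℝ) ^ 2 * ((a : ℕ) : ℝ))⌋₊ : ℕ) : ℝ) ≤ N := by exact_mod_cast hfl
            linarith
          have hda : (0 : ℝ) < ((d : ℕ) : ℝ) ^ 2 * ((a : ℕ) : ℝ) := by positivity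
          rw [div_lt_iff₀ hda] at hfl2
          have h9 : (N : ℝ) + 1 ≤ 2 * U ^ (δ₀ / 4) := by linarith
          have h10 : ((d : ℕ) : ℝ) ^ 2 * ((a : ℕ) : ℝ) ≤ U ^ (δ₀ / 4) * U ^ (δ₀ / 4) := by
            have h11 : ((d : ℕ) : ℝ) ^ 2 ≤ U ^ (δ₀ / 4) := by
              calc ((d : ℕ) : ℝ) ^ 2 ≤ (U ^ (δ₀ / 8)) ^ 2 := by gcongr
                _ = U ^ (δ₀ / 4) := by
                    rw [← Real.rpow_natCast, ← Real.rpow_mul hU0.le]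
                    congr 1
                    push_cast
                    ring
            exact mul_le_mul h11 ha2.le (by linarith) hU4.le
          have h12 : Y < 2 * U ^ (δ₀ / 4) * (U ^ (δ₀ / 4) * U ^ (δ₀ / 4)) :=
            lt_of_lt_of_le hfl2 (mul_le_mul h9 h10 hda.le (by positivity))
          have h13 : 2 * U ^ (δ₀ / 4) * (U ^ (δ₀ / 4) * U ^ (δ₀ / 4)) ≤
              U ^ (δ₀ / 8) * U ^ (δ₀ / 4) * (U ^ (δ₀ / 4) * U ^ (δ₀ / 4)) := by gcongr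
          have h14 : U ^ (δ₀ / 8) * U ^ (δ₀ / 4) * (U ^ (δ₀ / 4) * U ^ (δ₀ / 4)) ≤ U ^ δ₀ := by
            rw [← Real.rpow_add hU0, ← Real.rpow_add hU0, ← Real.rpow_add hU0]
            exact Real.rpow_le_rpow_of_exponent_le hU (by linarith)
          linarith
        have h15 := hz U N N' τ hU hNN hN1 hN2
          ((Real.rpow_le_rpow_of_exponent_le hU (by linarith)).trans hτl) hτu
        refine h15.trans (le_of_eq ?_)
        ring)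
      have h7 : U ^ (-c₀) ≤ U ^ (-c) :=
        Real.rpow_le_rpow_of_exponent_le hU (neg_le_neg (min_le_left _ _))
      have hd2p : 0 < ((d : ℕ) : ℝ) ^ (-2 : ℝ) := Real.rpow_pos_of_pos hd0 _
      calc _ ≤ 2 * (C₀ * U ^ (-c₀)) * (((d : ℕ) : ℝ) ^ (-2 : ℝ) * X) := h6
        _ ≤ 2 * (C₀ * U ^ (-c)) * (((d : ℕ) : ℝ) ^ (-(1 + 1 / 2) : ℝ) * X) := by gcongr
        _ = 2 * C₀ * (U ^ (-c) * (((d : ℕ) : ℝ) ^ (-(1 + 1 / 2) : ℝ) * X)) := by ring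
        _ ≤ K * (U ^ (-c) * (((d : ℕ) : ℝ) ^ (-(1 + 1 / 2) : ℝ) * X)) := by
            apply mul_le_mul_of_nonneg_right _ (by positivity)
            rw [hK]
            linarith
        _ = _ := by ring
    · push Not at h4
      have hU8 : 0 < U ^ (δ₀ / 8) := Real.rpow_pos_of_pos hU0 _
      have h5 : ((d : ℕ) : ℝ) ^ (-2 : ℝ) ≤ U ^ (-c) * ((d : ℕ) : ℝ) ^ (-(1 + 1 / 2) : ℝ) := by
        have e : ((d : ℕ) : ℝ) ^ (-2 : ℝ) =
            ((d : ℕ) : ℝ) ^ (-(1 / 2) : ℝ) * ((d : ℕ) : ℝ) ^ (-(1 + 1 / 2) : ℝ) := by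
          rw [← Real.rpow_add hd0]
          norm_num
        rw [e]
        apply mul_le_mul_of_nonneg_right _ hd32.le
        calc ((d : ℕ) : ℝ) ^ (-(1 / 2) : ℝ) ≤ (U ^ (δ₀ / 8)) ^ (-(1 / 2) : ℝ) :=
              Real.rpow_le_rpow_of_nonpos hU8 h4.le (by norm_num)
          _ = U ^ (-(δ₀ / 16)) := by
              rw [← Real.rpow_mul hU0.le]
              congr 1
              ring
          _ ≤ U ^ (-c) := Real.rpow_le_rpow_of_exponent_le hU (neg_le_neg (min_le_right _ _))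
      calc _ ≤ ((d : ℕ) : ℝ) ^ (-2 : ℝ) * X := htriv
        _ ≤ (U ^ (-c) * ((d : ℕ) : ℝ) ^ (-(1 + 1 / 2) : ℝ)) * X := mul_le_mul_of_nonneg_right h5 hX.le
        _ = 1 * ((U ^ (-c) * ((d : ℕ) : ℝ) ^ (-(1 + 1 / 2) : ℝ)) * X) := (one_mul _).symm
        _ ≤ K * ((U ^ (-c) * ((d : ℕ) : ℝ) ^ (-(1 + 1 / 2) : ℝ)) * X) := by
            apply mul_le_mul_of_nonneg_right _ (by positivity)
            rw [hK]
            linarith
        _ = _ := by ring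
  have hd2s : Summable fun d : ℕ+ => ((d : ℕ) : ℝ) ^ (-2 : ℝ) * (U ^ δ * (ZZ δ * ZZ δ)) := by
    have h := summable_ZZ (δ := 1) one_pos
    refine Summable.mul_right _ (h.congr fun d => ?_)
    norm_num
  rw [moebius_pair (F1 δ U Y τ) _ (fun d => F1_summable hδ hδ2 hU d)
    (fun d => F1_trivial hδ hδ2 hU d) hd2s]
  have hbound : HasSum (fun d : ℕ+ => K * U ^ (-c) * (U ^ δ * (ZZ δ * ZZ δ)) *
      ((d : ℕ) : ℝ) ^ (-(1 + 1 / 2) : ℝ)) (K * U ^ (-c) * (U ^ δ * (ZZ δ * ZZ δ)) * ZZ (1 / 2)) :=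
    (summable_ZZ (δ := 1 / 2) (by norm_num)).hasSum.mul_left _
  refine (tsum_of_norm_bounded hbound (fun d => ?_)).trans (le_of_eq ?_)
  · rw [norm_mul]
    have hmu : ‖(ArithmeticFunction.moebius (d : ℕ) : ℂ)‖ ≤ 1 := by
      rw [Complex.norm_intCast]
      exact_mod_cast ArithmeticFunction.abs_moebius_le_one
    exact (mul_le_of_le_one_left (norm_nonneg _) hmu).trans (hcore d)
  · rw [show δ - c = δ + -c by ring, Real.rpow_add hU0]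
    ring

/-- exchanging numerator and denominator -/
def swQ : Q ≃ Q where
  toFun q := ⟨q.1.swap, Nat.Coprime.symm q.2⟩
  invFun q := ⟨q.1.swap, Nat.Coprime.symm q.2⟩
  left_inv _ := Subtype.ext (Prod.swap_swap _)
  right_inv _ := Subtype.ext (Prod.swap_swap _)

end DKerAux

open DKerAux

/-- the dual kernel -/
noncomputable def Dk (δ U Y τ : ℝ) : ℂ :=
  ∑' q : Q, if Y < hgt q.1 then ((kap δ U (hgt q.1) * (hgt q.1)⁻¹ : ℝ) : ℂ) * ex τ q.1 else 0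

theorem dk_trivial (δ : ℝ) (hδ : 0 < δ) (hδ2 : δ ≤ 1 / 2) : ∃ C : ℝ, 0 < C ∧ ∀ U : ℝ, 1 ≤ U →
    (Summable fun q : Q => kap δ U (hgt q.1) * (hgt q.1)⁻¹) ∧
      ∑' q : Q, kap δ U (hgt q.1) * (hgt q.1)⁻¹ ≤ C * U ^ δ := by
  have hZ := ZZ_pos hδ
  refine ⟨ZZ δ * ZZ δ, by positivity, fun U hU => ?_⟩
  have hU0 : 0 < U := by linarith
  obtain ⟨h1, h2⟩ := scaled hδ hδ2 hU 1
  have e : ∀ p : ℕ+ × ℕ+, gg δ U ((((1 : ℕ+) : ℕ) : ℝ) ^ 2 * hgt p) = kap δ U (hgt p) * (hgt p)⁻¹ := by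
    intro p
    simp [gg]
  simp only [e] at h1 h2
  have hinj : Function.Injective (fun q : Q => q.1) := fun a b h => Subtype.ext h
  have h3 : Summable fun q : Q => kap δ U (hgt q.1) * (hgt q.1)⁻¹ := h1.comp_injective hinj
  refine ⟨h3, ?_⟩
  refine (h3.tsum_le_tsum_of_inj (fun q : Q => q.1) hinj (fun p _ => ?_) (fun q => le_rfl) h1).trans
    (h2.trans (le_of_eq ?_))
  · exact gg_nonneg hU0.le (hgt_pos p).le
  · simp only [PNat.one_coe, Nat.cast_one, Real.one_rpow]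
    ring

theorem dk_bound (δ₀ : ℝ) (hδ₀ : 0 < δ₀) (hδ₁ : δ₀ ≤ 1) : ∃ c : ℝ, 0 < c ∧ ∀ δ : ℝ, 0 < δ → δ ≤ 1 / 2 → ∃ C : ℝ, 0 < C ∧
    ∀ U Y τ : ℝ, 1 ≤ U → U ^ δ₀ ≤ Y → Y ≤ U → U ^ δ₀ ≤ |τ| → |τ| ≤ 16 * U → ‖Dk δ U Y τ‖ ≤ C * U ^ (δ - c) := by
  obtain ⟨c, hc, h⟩ := F1_bound δ₀ hδ₀ hδ₁
  refine ⟨c, hc, fun δ hδ hδ2 => ?_⟩
  obtain ⟨C, hC, hb⟩ := h δ hδ hδ2
  refine ⟨2 * C, by positivity, ?_⟩
  intro U Y τ hU hYl hYu hτl hτu
  have hU0 : 0 < U := by linarith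
  have hY1 : 1 ≤ Y := (Real.one_le_rpow hU hδ₀.le).trans hYl
  have hterm : ∀ q : Q, (if Y < hgt q.1 then
      ((kap δ U (hgt q.1) * (hgt q.1)⁻¹ : ℝ) : ℂ) * ex τ q.1 else 0) =
        F1 δ U Y τ q.1 + F1 δ U Y (-τ) (swQ q).1 := by
    intro q
    have hs1 : (swQ q).1.1 = q.1.2 := rfl
    have hs2 : (swQ q).1.2 = q.1.1 := rfl
    have hsh : hgt (swQ q).1 = hgt q.1 := by
      unfold hgt
      rw [hs1, hs2]
      ring
    have hse : ex (-τ) (swQ q).1 = ex τ q.1 := by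
      unfold ex lgr
      rw [hs1, hs2]
      congr 3
      ring
    unfold F1
    rw [hsh, hse, hs1, hs2]
    have hg : kap δ U (hgt q.1) * (hgt q.1)⁻¹ = gg δ U (hgt q.1) := rfl
    rw [hg]
    by_cases hY : Y < hgt q.1
    · rcases lt_trichotomy q.1.1 q.1.2 with hlt | heq | hgt'
      · rw [if_pos hY, if_pos ⟨hlt, hY⟩, if_neg (fun h' => absurd h'.1 (not_lt.2 hlt.le)), add_zero]
      · exfalso
        have hq := q.2
        rw [heq] at hq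
        have h1 : ((q.1.2 : ℕ)) = 1 := (Nat.coprime_self _).1 hq
        have h2 : ((q.1.1 : ℕ)) = 1 := by rw [heq]; exact h1
        have : hgt q.1 = 1 := by
          unfold hgt
          rw [h1, h2]
          norm_num
        linarith
      · rw [if_pos hY, if_neg (fun h' => absurd h'.1 (not_lt.2 hgt'.le)), if_pos ⟨hgt', hY⟩, zero_add]
    · rw [if_neg hY, if_neg (fun h' => hY h'.2), if_neg (fun h' => hY h'.2), add_zero]
  have hs1 : Summable fun q : Q => F1 δ U Y τ q.1 := F1Q_summable hδ hδ2 hU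
  have hs2 : Summable fun q : Q => F1 δ U Y (-τ) (swQ q).1 :=
    (F1Q_summable (Y := Y) (τ := -τ) hδ hδ2 hU).comp_injective swQ.injective
  have e : Dk δ U Y τ = ∑' q : Q, F1 δ U Y τ q.1 + ∑' q : Q, F1 δ U Y (-τ) q.1 := by
    unfold Dk
    rw [tsum_congr hterm, hs1.tsum_add hs2, swQ.tsum_eq (fun q : Q => F1 δ U Y (-τ) q.1)]
  rw [e]
  refine (norm_add_le _ _).trans ?_
  have h1 := hb U Y τ hU hYl hYu hτl hτu
  have h2 := hb U Y (-τ) hU hYl hYu (by rwa [abs_neg]) (by rwa [abs_neg])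
  linarith

end Pool.Agent.P07318f
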