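import Pool.Agent.Lib.P07318s.Defs

/-!
The sixth moment of the Riemann zeta function with a genuine fourth power and one free shift: definitions.
-/

set_option autoImplicit false

namespace Pool.Agent.P07318f

open MeasureTheory Complex Pool.Agent.P07318s

/-- `n ^ (-(1/2 + u))` -/
noncomputable def pw (n : ℕ+) (u : ℂ) : ℂ := ((n : ℕ) : ℂ) ^ (-(1 / 2 + u))

/-- the even weight of the approximate functional equation; zeros at `± s`, `± 3 s / 2` (double), `± 2 s` -/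
noncomputable def Gw (s w : ℂ) : ℂ :=
  cexp (w ^ 2) * ((1 - w ^ 2 / s ^ 2) * (1 - 4 * w ^ 2 / (9 * s ^ 2)) ^ 2 * (1 - w ^ 2 / (4 * s ^ 2)))

/-- the even weight of the partition of unity; zeros at `± s / 2` -/
noncomputable def Gz (s z : ℂ) : ℂ := cexp (z ^ 2) * (1 - 4 * z ^ 2 / s ^ 2)

/-- the smooth cut-off: `ph s L + ph s (-L) = 1`, rapidly decreasing for `L → ∞` -/
noncomputable def ph (s : ℂ) (L : ℝ) : ℂ :=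
  (2 * Real.pi : ℂ)⁻¹ * ∫ v : ℝ, Gz s (1 + v * I) / (1 + v * I) * cexp (-((1 + v * I) * L))

/-- the four zeta factors with the shifts `s, 2 s; s, 2 s` -/
noncomputable def FF (s : ℂ) (x : ℝ) : ℂ :=
  riemannZeta (1 / 2 + s + x * I) * riemannZeta (1 / 2 + 2 * s + x * I) *
    (riemannZeta (1 / 2 + s - x * I) * riemannZeta (1 / 2 + 2 * s - x * I))

/-- `(x / 2π) ^ w` -/
noncomputable def X2 (x : ℝ) (w : ℂ) : ℂ := ((x / (2 * Real.pi) : ℝ) : ℂ) ^ w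

/-- the diagonal series of the twisted fourth moment -/
noncomputable def DD (a b : ℕ+) (u1 u2 u3 u4 : ℂ) : ℂ :=
  ∑' q : (ℕ+ × ℕ+) × (ℕ+ × ℕ+), if a * q.1.1 * q.1.2 = b * q.2.1 * q.2.2 then
    pw q.1.1 u1 * pw q.1.2 u2 * (pw q.2.1 u3 * pw q.2.2 u4) else 0

/-- numerator of the reduced fraction `a m / (b n)` -/
def uu (a b m n : ℕ+) : ℕ := (a * m : ℕ) / Nat.gcd (a * m : ℕ) (b * n : ℕ)

/-- denominator of the reduced fraction `a m / (b n)` -/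
def vv (a b m n : ℕ+) : ℕ := (b * n : ℕ) / Nat.gcd (a * m : ℕ) (b * n : ℕ)

/-- the diagonal series without the multiples: `DD = ζ(1 + u2 + u4) * EE` -/
noncomputable def EE (a b : ℕ+) (u1 u2 u3 u4 : ℂ) : ℂ :=
  ∑' p : ℕ+ × ℕ+, pw p.1 u1 * pw p.2 u3 *
    ((((vv a b p.1 p.2 : ℕ) : ℂ) ^ (-(1 / 2 + u2))) * (((uu a b p.1 p.2 : ℕ) : ℂ) ^ (-(1 / 2 + u4))))

/-- fixed parameters -/
noncomputable def rho : ℝ := 1 / 10 ^ 7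
noncomputable def cz : ℝ := 1 / 10 ^ 5
noncomputable def cw : ℝ := 1 / 32

/-- diagonal terms: main term in integral form -/
noncomputable def Dint (s : ℂ) (x : ℝ) (a b : ℕ+) : ℂ :=
  (2 * Real.pi : ℂ)⁻¹ * ∫ v : ℝ, Gw s (cz + v * I) / (cz + v * I) * X2 x (2 * (cz + v * I)) *
    DD a b (s + (cz + v * I)) (2 * s + (cz + v * I)) (s + (cz + v * I)) (2 * s + (cz + v * I))

/-- integrand of the zero frequency terms, `α`, `β` the shifts of the two large variables -/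
noncomputable def Zker (s α β : ℂ) (x : ℝ) (w z1 z2 : ℂ) : ℂ :=
  Gw s (w + (z1 + z2) / 2) / (w + (z1 + z2) / 2) * (Gz s z1 / z1 * (Gz s z2 / z2)) *
    X2 x (-α - β + z1 + z2)

/-- zero frequency terms: main term in integral form -/
noncomputable def Zint (s α β : ℂ) (x : ℝ) (a b : ℕ+) : ℂ :=
  ((2 * Real.pi : ℂ) ^ 3)⁻¹ * ∫ v : ℝ × ℝ × ℝ,
    Zker s α β x (cw + v.1 * I) (cz + v.2.1 * I) (cz + v.2.2 * I) *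
      (riemannZeta (1 - α - β - 2 * (cw + v.1 * I)) *
        EE a b (3 * s - α + (cw + v.1 * I) + (3 * (cz + v.2.1 * I) + (cz + v.2.2 * I)) / 2)
          (-β - (cw + v.1 * I) + ((cz + v.2.2 * I) - (cz + v.2.1 * I)) / 2)
          (3 * s - β + (cw + v.1 * I) + ((cz + v.2.1 * I) + 3 * (cz + v.2.2 * I)) / 2)
          (-α - (cw + v.1 * I) + ((cz + v.2.1 * I) - (cz + v.2.2 * I)) / 2))

/-- main term of the twisted fourth moment (half of it, the other half is `s ↦ -s`) -/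
noncomputable def MI (s : ℂ) (x : ℝ) (a b : ℕ+) : ℂ :=
  Dint s x a b + (Zint s s s x a b + Zint s s (2 * s) x a b +
    (Zint s (2 * s) s x a b + Zint s (2 * s) (2 * s) x a b))

/-- admissible weights at the height `U` and scale `Δ` -/
def Adm (U Δ : ℝ) (Ω : ℝ → ℂ) : Prop :=
  ContDiff ℝ 8 Ω ∧ (∀ x, x ≤ U / 2 → Ω x = 0) ∧ (∀ x, 8 * U ≤ x → Ω x = 0) ∧
    ∀ j : ℕ, j ≤ 8 → ∀ x, ‖iteratedDeriv j Ω x‖ ≤ (Δ⁻¹) ^ j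

/-- bounds of the oscillating kernel -/
def KerB (U Δ : ℝ) (K : ℝ → ℂ) : Prop :=
  ContDiff ℝ 2 K ∧ ∀ y : ℝ, ‖K y‖ ≤ ((1 + Δ * |y|) ^ 8)⁻¹ ∧ ‖deriv K y‖ ≤ U * ((1 + Δ * |y|) ^ 8)⁻¹ ∧
    ‖deriv (deriv K) y‖ ≤ U ^ 2 * ((1 + Δ * |y|) ^ 8)⁻¹

/-- bounds of the cut-off functions -/
def PhiB (φ : ℝ → ℂ) : Prop :=
  ContDiff ℝ 2 φ ∧ ∀ L : ℝ, ‖φ L‖ ≤ min 1 (Real.exp (-(10 * L))) ∧
    ‖deriv φ L‖ ≤ min 1 (Real.exp (-(10 * L))) ∧ ‖deriv (deriv φ) L‖ ≤ min 1 (Real.exp (-(10 * L)))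

/-- the oscillating kernel of the weight `Ω` -/
noncomputable def KK (Ω : ℝ → ℂ) (w : ℂ) (y : ℝ) : ℂ :=
  ∫ x : ℝ, Ω x * X2 x (2 * w) * cexp (((-(x * y) : ℝ) : ℂ) * I)

/-- one term of the four-fold sum: `q = ((m₁, m₂), (n₁, n₂))` -/
noncomputable def T4 (e : Fin 4 → ℂ) (φ₁ φ₂ K : ℝ → ℂ) (a b : ℕ+) (q : (ℕ+ × ℕ+) × (ℕ+ × ℕ+)) : ℂ :=
  ((q.1.1 : ℕ) : ℂ) ^ (-(e 0)) * ((q.1.2 : ℕ) : ℂ) ^ (-(e 1)) *
    (((q.2.1 : ℕ) : ℂ) ^ (-(e 2)) * ((q.2.2 : ℕ) : ℂ) ^ (-(e 3))) *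
    (φ₁ (Real.log (q.1.1 : ℕ) - Real.log (q.1.2 : ℕ)) * φ₂ (Real.log (q.2.1 : ℕ) - Real.log (q.2.2 : ℕ))) *
    K (Real.log (a * q.1.1 * q.1.2 : ℕ) - Real.log (b * q.2.1 * q.2.2 : ℕ))

/-- the off-diagonal sum -/
noncomputable def SOD (e : Fin 4 → ℂ) (φ₁ φ₂ K : ℝ → ℂ) (a b : ℕ+) : ℂ :=
  ∑' q : (ℕ+ × ℕ+) × (ℕ+ × ℕ+), if a * q.1.1 * q.1.2 = b * q.2.1 * q.2.2 then 0 else T4 e φ₁ φ₂ K a b q

/-- the smooth function of `(m₁, m₂)` for given `n₁ = n` and `a m₁ m₂ - b n₁ n₂ = l` -/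
noncomputable def Wf (e : Fin 4 → ℂ) (φ₁ φ₂ K : ℝ → ℂ) (a b n : ℕ+) (l : ℤ) (X Y : ℝ) : ℂ :=
  (X : ℂ) ^ (-(e 0)) * (Y : ℂ) ^ (-(e 1)) *
    (((n : ℕ) : ℂ) ^ (-(e 2)) * (((a : ℕ) * X * Y / ((b : ℕ) * (n : ℕ)) : ℝ) : ℂ) ^ (-(e 3))) *
    (φ₁ (Real.log X - Real.log Y) *
      φ₂ (Real.log (n : ℕ) - Real.log ((a : ℕ) * X * Y / ((b : ℕ) * (n : ℕ))))) *
    K (l / ((a : ℕ) * X * Y))

/-- majorant of `Wf` and its derivatives (`r` the real parts of the exponents) -/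
noncomputable def Wb (U Δ : ℝ) (r : Fin 4 → ℝ) (a b n : ℕ+) (l : ℤ) (X Y : ℝ) : ℝ :=
  X ^ (-(r 0)) * Y ^ (-(r 1)) *
    (((n : ℕ) : ℝ) ^ (-(r 2)) * ((a : ℕ) * X * Y / ((b : ℕ) * (n : ℕ)) : ℝ) ^ (-(r 3))) *
    (min 1 ((X / Y) ^ (-10 : ℝ)) *
      min 1 ((((b : ℕ) : ℝ) * ((n : ℕ) : ℝ) ^ 2 / ((a : ℕ) * X * Y)) ^ (-10 : ℝ))) *
    ((1 + U * (|(l : ℝ)| / ((a : ℕ) * X * Y))) ^ 2 *
      ((1 + Δ * (|(l : ℝ)| / ((a : ℕ) * X * Y))) ^ 8)⁻¹)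

/-- density of the solutions `m₂` of `a m₁ m₂ ≡ l (mod b n)` -/
noncomputable def dens (a b n : ℕ+) (l : ℤ) (m : ℕ+) : ℝ :=
  if ((Nat.gcd (a * m : ℕ) (b * n : ℕ) : ℕ) : ℤ) ∣ l then
    (Nat.gcd (a * m : ℕ) (b * n : ℕ) : ℝ) / ((b : ℕ) * (n : ℕ)) else 0

/-- discrepancy of the solutions of `a m₁ m₂ ≡ l (mod b n)` -/
noncomputable def disc (a b n : ℕ+) (l : ℤ) (X Y : ℝ) : ℝ :=
  ∑ m ∈ Finset.Icc 1 ⌊X⌋₊, ((((Finset.Icc 1 ⌊Y⌋₊).filter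
    (fun m' : ℕ => ((b * n : ℕ) : ℤ) ∣ ((a : ℕ) : ℤ) * m * m' - l)).card : ℝ) -
      (if ((Nat.gcd ((a : ℕ) * m) (b * n : ℕ) : ℕ) : ℤ) ∣ l then
        (Nat.gcd ((a : ℕ) * m) (b * n : ℕ) : ℝ) / ((b : ℕ) * (n : ℕ)) else 0) * Y)

/-- the zero frequency terms -/
noncomputable def ZF (e : Fin 4 → ℂ) (φ₁ φ₂ K : ℝ → ℂ) (a b : ℕ+) : ℂ :=
  ∑' p : ℕ+ × ℕ+, ∑' l : {l : ℤ // l ≠ 0}, ∫ σ in Set.Ioi (0:ℝ),
    ((p.1 : ℕ) : ℂ) ^ (-(e 0)) * (((vv a b p.1 p.2 : ℕ) * σ : ℝ) : ℂ) ^ (-(e 1)) *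
    (((p.2 : ℕ) : ℂ) ^ (-(e 2)) * (((uu a b p.1 p.2 : ℕ) * σ : ℝ) : ℂ) ^ (-(e 3))) *
    (φ₁ (Real.log (p.1 : ℕ) - Real.log ((vv a b p.1 p.2 : ℕ) * σ)) *
      φ₂ (Real.log (p.2 : ℕ) - Real.log ((uu a b p.1 p.2 : ℕ) * σ))) *
    K ((l.1 : ℝ) / ((uu a b p.1 p.2 : ℕ) * (vv a b p.1 p.2 : ℕ) * σ))

/-- exponents `1/2 + w + shift`, in the order (small m, large m, small n, large n) -/
noncomputable def ev (s α β w : ℂ) : Fin 4 → ℂ :=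
  ![1 / 2 + (3 * s - α) + w, 1 / 2 + α + w, 1 / 2 + (3 * s - β) + w, 1 / 2 + β + w]

end Pool.Agent.P07318f
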