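import Pool.Agent.Lib.P07318f.Defs
import Pool.Agent.Lib.P4f18dfV.Defs

/-!
Main terms of the sixth moment with a genuine fourth power and one free shift: definitions.
-/

set_option autoImplicit false

namespace Pool.Agent.P07318f

open MeasureTheory Complex Pool.Agent.P07318s

/-- region in which the Euler product `AA` is bounded -/
def RegA (k : ℕ) : Set ((Fin k → ℂ) × (Fin k → ℂ)) :=
  {P | (∀ j, -(1 / 6) < (P.1 j).re) ∧ ∀ j, (P.2 j).re < 1 / 6}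

/-- `G` (for `k = 3`) at `(u₀ + ix, u₁ + ix, w + iy; -u₂ + ix, -u₃ + ix, -w + iy)` -/
noncomputable def G3 (x y : ℝ) (u : Fin 4 → ℂ) (w : ℂ) : ℂ :=
  GG ![u 0 + x * I, u 1 + x * I, w + y * I] ![-u 2 + x * I, -u 3 + x * I, -w + y * I]

/-- `G3` without the factors `ζ(1 + u_i + u_j) (u_i + u_j)⁻¹` and `ζ(1 + 2 w)` : regular -/
noncomputable def HF (x y : ℝ) (u : Fin 4 → ℂ) (w : ℂ) : ℂ :=
  AA ![u 0 + x * I, u 1 + x * I, w + y * I] ![-u 2 + x * I, -u 3 + x * I, -w + y * I] *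
    (P4f18dfV.zE (1 + u 0 + u 2) * P4f18dfV.zE (1 + u 0 + u 3) *
      (P4f18dfV.zE (1 + u 1 + u 2) * P4f18dfV.zE (1 + u 1 + u 3))) *
    (riemannZeta (1 + u 0 + w - (y - x) * I) * riemannZeta (1 + u 1 + w - (y - x) * I) *
      (riemannZeta (1 + u 2 + w + (y - x) * I) * riemannZeta (1 + u 3 + w + (y - x) * I)))

/-- the residue in the third variable -/
noncomputable def R3 (x y : ℝ) (u : Fin 4 → ℂ) : ℂ :=
  (Real.pi * I)⁻¹ * ∮ w in C(0, 1 / 8), X2 y w / w * G3 x y u w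

/-- numerator of `R3` -/
noncomputable def HH (x y : ℝ) (u : Fin 4 → ℂ) : ℂ :=
  (Real.pi * I)⁻¹ * ∮ w in C(0, 1 / 8), X2 y w / w * (riemannZeta (1 + 2 * w) * HF x y u w)

/-- denominator -/
noncomputable def Pi4 (u : Fin 4 → ℂ) : ℂ := (u 0 + u 2) * (u 0 + u 3) * ((u 1 + u 2) * (u 1 + u 3))

/-- `H / ∏ (u_i + u_j)` -/
noncomputable def RR (H : (Fin 4 → ℂ) → ℂ) (u : Fin 4 → ℂ) : ℂ := H u / Pi4 u

/-- the box -/
def Bx (L : ℝ) : Set (Fin 4 → ℂ) := {u | ∀ i, |(u i).re| < 1 / 10 ∧ |(u i).im| < L}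

/-- holomorphic (along curves) and bounded in a box -/
structure Hol4 (L B : ℝ) (H : (Fin 4 → ℂ) → ℂ) : Prop where
  cont : ContinuousOn H (Bx L)
  holo : ∀ (f : ℂ → Fin 4 → ℂ) (S : Set ℂ), IsOpen S → (∀ i, DifferentiableOn ℂ (fun z => f z i) S) →
    (∀ z ∈ S, f z ∈ Bx L) → DifferentiableOn ℂ (fun z => H (f z)) S
  bound : ∀ u ∈ Bx L, ‖H u‖ ≤ B

/-- symmetric in the first two and in the last two variables -/
def Sym4 (H : (Fin 4 → ℂ) → ℂ) : Prop :=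
  ∀ a b c d : ℂ, H ![a, b, c, d] = H ![b, a, c, d] ∧ H ![a, b, c, d] = H ![a, b, d, c]

/-- the arguments of `DD` in `Dint` -/
noncomputable def uD (s w : ℂ) : Fin 4 → ℂ := ![s + w, 2 * s + w, s + w, 2 * s + w]

/-- the arguments of `EE` in `Zint` -/
noncomputable def uZ (s α β w z1 z2 : ℂ) : Fin 4 → ℂ :=
  ![3 * s - α + w + (3 * z1 + z2) / 2, -β - w + (z2 - z1) / 2, 3 * s - β + w + (z1 + 3 * z2) / 2,
    -α - w + (z1 - z2) / 2]

/-- the arguments after the residues at `z1 = z2 = 0` -/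
noncomputable def uW (s α β w : ℂ) : Fin 4 → ℂ := ![3 * s - α + w, -β - w, 3 * s - β + w, -α - w]

/-- truncated diagonal term -/
noncomputable def DT (H : (Fin 4 → ℂ) → ℂ) (s : ℂ) (x L : ℝ) : ℂ :=
  (2 * Real.pi : ℂ)⁻¹ * ∫ v in (-(L / 2))..(L / 2), Gw s (cz + v * I) / (cz + v * I) *
    X2 x (2 * (cz + v * I)) * RR H (uD s (cz + v * I))

/-- truncated zero frequency term -/
noncomputable def ZT (H : (Fin 4 → ℂ) → ℂ) (s α β : ℂ) (x L : ℝ) : ℂ :=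
  ((2 * Real.pi : ℂ) ^ 3)⁻¹ * ∫ v1 in (-(L / 8))..(L / 8), ∫ v2 in (-(L / 8))..(L / 8),
    ∫ v3 in (-(L / 8))..(L / 8), Zker s α β x (cw + v1 * I) (cz + v2 * I) (cz + v3 * I) *
      RR H (uZ s α β (cw + v1 * I) (cz + v2 * I) (cz + v3 * I))

/-- the remaining integral over `w` -/
noncomputable def WT (c : ℝ) (H : (Fin 4 → ℂ) → ℂ) (s α β : ℂ) (L : ℝ) : ℂ :=
  (2 * Real.pi : ℂ)⁻¹ * ∫ v in (-(L / 8))..(L / 8), Gw s (c + v * I) / (c + v * I) *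
    RR H (uW s α β (c + v * I))

/-- the six swap terms -/
noncomputable def Six (H : (Fin 4 → ℂ) → ℂ) (x : ℝ) (s : ℂ) : ℂ :=
  X2 x (3 * s) * RR H ![s, 2 * s, s, 2 * s] + X2 x (-3 * s) * RR H ![-s, -(2 * s), -s, -(2 * s)] +
    (X2 x s * RR H ![2 * s, -s, 2 * s, -s] + RR H ![2 * s, -(2 * s), s, -s] +
      (RR H ![s, -s, 2 * s, -(2 * s)] + X2 x (-s) * RR H ![s, -(2 * s), s, -(2 * s)]))

/-- the Vandermonde determinant of four variables -/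
noncomputable def vdm (z : Fin 4 → ℂ) : ℂ :=
  (z 1 - z 0) * (z 2 - z 0) * (z 3 - z 0) * ((z 2 - z 1) * (z 3 - z 1) * (z 3 - z 2))

/-- mean over the circle `‖s‖ = rho` -/
noncomputable def av (f : ℂ → ℂ) : ℂ := (2 * Real.pi : ℂ)⁻¹ * ∫ θ in (0:ℝ)..(2 * Real.pi), f (circleMap 0 rho θ)

/-- main term of the twisted fourth moment of `ζ` -/
noncomputable def MM (x : ℝ) (a b : ℕ+) : ℂ :=
  av fun s => X2 x (3 * s) * MI s x a b + X2 x (-3 * s) * MI (-s) x a b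

/-- the sum over all reduced fractions, with the weights of the third factor -/
noncomputable def TT (x y : ℝ) (u : Fin 4 → ℂ) : ℂ :=
  riemannZeta (1 + u 1 + u 3) * ∑' q : Q, (((hgt q.1) ^ (-(1 / 2) : ℝ) * Om (hgt q.1) y : ℝ) : ℂ) *
    ex (y - x) q.1 * EE q.1.1 q.1.2 (u 0) (u 1) (u 2) (u 3)

/-- the main term of the sixth moment with a genuine fourth power and one free shift -/
noncomputable def Mxy (x y : ℝ) : ℂ :=
  (4 * (2 * Real.pi * I) ^ 4)⁻¹ * ∯ z in T((0 : Fin 4 → ℂ), fun _ => 1 / 16),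
    R3 x y ![z 0, z 1, -z 2, -z 3] * X2 x ((z 0 + z 1 - z 2 - z 3) / 2) * vdm z ^ 2 / ∏ i, z i ^ 4

end Pool.Agent.P07318f
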