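import Pool.Agent.Lib.P07318f.Defs
import Pool.Agent.Lib.P5632c9.DivBound

/-!
# Convergence, bounds and holomorphy of `DD` and `EE`

`EE a b u = a^(-1/2-u₄) b^(-1/2-u₂) ∑_{m,n} m^(-1-u₁-u₄) n^(-1-u₂-u₃) g^(1+u₂+u₄)`, `g = gcd(am, bn)` (`u = am/g`, `v = bn/g`). For coprime `a, b`
`g ≤ gcd(a,n) gcd(b,m) gcd(m,n)` (indeed `gcd(am,bn) | gcd(am,b) gcd(am,n)`, `gcd(am,b) = gcd(m,b)`, `gcd(am,n) | gcd(a,n) gcd(m,n)`).
`ee_summable`: region `Re(u₁+u₄) > 0`, `Re(u₂+u₃) > 0`, `Re(u₁+u₃) > 0`. If `Re(1+u₂+u₄) ≤ 0` the gcd factor is `≤ 1`. Otherwise bound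
`g ≤ a b gcd(m,n)`, `∑_{m,n} m^(-1-p) n^(-1-q) gcd(m,n)^r ≤ ∑_e e^r (e^(-1-p) ∑ m'^(-1-p)) (e^(-1-q) ∑ n'^(-1-q))`, `r = Re(1+u₂+u₄)`,
`p = Re(u₁+u₄)`, `q = Re(u₂+u₃)`, `r - 2 - p - q = -1 - Re(u₁+u₃) < -1`. Here `a, b` arbitrary.
`ee_bound` (coprime, in the strip used for the zero frequency terms): `p, q ≥ κ`, `Re(u₁+u₃) ≥ κ`, `Re u₂, Re u₄ ∈ [-1/10, 0]`: then `r ≤ 1` and
`g^r ≤ (gcd(a,n) gcd(b,m) gcd(m,n))^r`; with `e = gcd(m,n)`, `m = e m'`, `n = e n'`: `gcd(b,m) ≤ gcd(b,e) gcd(b,m')` etc., `∑_{m'} gcd(b,m')^r m'^(-1-κ) ≤ C d(b)`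
(`r ≤ 1`, `∑_{d|b} d^(r-1-κ)`), `∑_e e^(-1-κ) gcd(b,e)^r gcd(a,e)^r ≤ C ∑_{d|a, d'|b, coprime} (dd')^(r-1-κ) ≤ C d(a) d(b)`. So
`‖EE‖ ≤ C (ab)^(-1/2+1/10) d(a)² d(b)² ≤ C (ab)^(-1/2+1/9)`.
`dd_bound`: for coprime `a,b`, `a m₁m₂ = b n₁n₂` means `m₁m₂ = b k`, `n₁n₂ = a k`: `∑_k d(bk) d(ak) (abk²)^(-1/2-κ) ≤ C_κ (ab)^(-1/2)`.
Holomorphy: locally uniform limit of holomorphic functions (`differentiableOn_tsum_of_summable_norm`) in one variable along any affine line: stated as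
joint analyticity along curves: if `u₁..u₄ : ℂ → ℂ` are differentiable at `z₀` (on an open set) so is the composition. Continuity likewise.
-/

set_option autoImplicit false

namespace Pool.Agent.P07318f

open MeasureTheory Complex

/-- region of convergence of `EE` -/
def RegE : Set (Fin 4 → ℂ) :=
  {u | 0 < (u 0 + u 3).re ∧ 0 < (u 1 + u 2).re ∧ 0 < (u 0 + u 2).re}

/-- region of convergence of `DD` -/
def RegD : Set (Fin 4 → ℂ) :=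
  {u | 0 < (u 0 + u 3).re ∧ 0 < (u 1 + u 2).re ∧ 0 < (u 0 + u 2).re ∧ 0 < (u 1 + u 3).re}

namespace EEregAux

/-- the gcd -/
def gg (a b m n : ℕ+) : ℕ := Nat.gcd ((a : ℕ) * m) ((b : ℕ) * n)

theorem gg_pos (a b m n : ℕ+) : 0 < gg a b m n :=
  Nat.gcd_pos_of_pos_left _ (Nat.mul_pos a.2 m.2)

theorem uu_mul (a b m n : ℕ+) : gg a b m n * uu a b m n = (a : ℕ) * m :=
  Nat.mul_div_cancel' (Nat.gcd_dvd_left _ _)

theorem vv_mul (a b m n : ℕ+) : gg a b m n * vv a b m n = (b : ℕ) * n :=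
  Nat.mul_div_cancel' (Nat.gcd_dvd_right _ _)

theorem uu_pos (a b m n : ℕ+) : 0 < uu a b m n := by
  have h := uu_mul a b m n
  rcases Nat.eq_zero_or_pos (uu a b m n) with h0 | h0
  · rw [h0, mul_zero] at h
    exact absurd h.symm (Nat.mul_pos a.2 m.2).ne'
  · exact h0

theorem vv_pos (a b m n : ℕ+) : 0 < vv a b m n := by
  have h := vv_mul a b m n
  rcases Nat.eq_zero_or_pos (vv a b m n) with h0 | h0
  · rw [h0, mul_zero] at h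
    exact absurd h.symm (Nat.mul_pos b.2 n.2).ne'
  · exact h0

theorem uv_coprime (a b m n : ℕ+) : Nat.Coprime (uu a b m n) (vv a b m n) :=
  Nat.coprime_div_gcd_div_gcd (gg_pos a b m n)

/-- the term of the series `EE` -/
noncomputable def tm (a b : ℕ+) (u : Fin 4 → ℂ) (p : ℕ+ × ℕ+) : ℂ :=
  pw p.1 (u 0) * pw p.2 (u 2) *
      ((((vv a b p.1 p.2 : ℕ) : ℂ) ^ (-(1 / 2 + u 1))) * (((uu a b p.1 p.2 : ℕ) : ℂ) ^ (-(1 / 2 + u 3))))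

theorem norm_cp {n : ℕ} (hn : 0 < n) (s : ℂ) :
    ‖(n : ℂ) ^ (-(1 / 2 + s))‖ = (n : ℝ) ^ (-(1 / 2 + s.re)) := by
  rw [Complex.norm_natCast_cpow_of_pos hn]
  simp

theorem norm_pw (n : ℕ+) (s : ℂ) : ‖pw n s‖ = ((n : ℕ) : ℝ) ^ (-(1 / 2 + s.re)) :=
  norm_cp n.2 s

/-- the norm of a term -/
theorem norm_tm (a b : ℕ+) (u : Fin 4 → ℂ) (p : ℕ+ × ℕ+) : ‖tm a b u p‖ =
    ((a : ℕ) : ℝ) ^ (-(1 / 2 + (u 3).re)) * ((b : ℕ) : ℝ) ^ (-(1 / 2 + (u 1).re)) *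
      (((p.1 : ℕ) : ℝ) ^ (-(1 + (u 0 + u 3).re)) * ((p.2 : ℕ) : ℝ) ^ (-(1 + (u 1 + u 2).re)) *
        (gg a b p.1 p.2 : ℝ) ^ (1 + (u 1).re + (u 3).re)) := by
  have ha : (0 : ℝ) < (a : ℕ) := by exact_mod_cast a.2
  have hb : (0 : ℝ) < (b : ℕ) := by exact_mod_cast b.2
  have hm : (0 : ℝ) < (p.1 : ℕ) := by exact_mod_cast p.1.2
  have hn : (0 : ℝ) < (p.2 : ℕ) := by exact_mod_cast p.2.2
  have hg : (0 : ℝ) < (gg a b p.1 p.2 : ℝ) := by exact_mod_cast gg_pos a b p.1 p.2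
  have hu : (uu a b p.1 p.2 : ℝ) = (a : ℕ) * (p.1 : ℕ) * (gg a b p.1 p.2 : ℝ)⁻¹ := by
    have h := uu_mul a b p.1 p.2
    have h' : (gg a b p.1 p.2 : ℝ) * uu a b p.1 p.2 = (a : ℕ) * (p.1 : ℕ) := by exact_mod_cast h
    rw [← h']
    field_simp
  have hv : (vv a b p.1 p.2 : ℝ) = (b : ℕ) * (p.2 : ℕ) * (gg a b p.1 p.2 : ℝ)⁻¹ := by
    have h := vv_mul a b p.1 p.2
    have h' : (gg a b p.1 p.2 : ℝ) * vv a b p.1 p.2 = (b : ℕ) * (p.2 : ℕ) := by exact_mod_cast h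
    rw [← h']
    field_simp
  unfold tm
  rw [norm_mul, norm_mul, norm_mul, norm_pw, norm_pw, norm_cp (vv_pos a b p.1 p.2),
    norm_cp (uu_pos a b p.1 p.2), hu, hv, Real.mul_rpow (by positivity) (by positivity),
    Real.mul_rpow (by positivity) (by positivity), Real.mul_rpow (by positivity) (by positivity),
    Real.mul_rpow (by positivity) (by positivity), Real.inv_rpow hg.le, Real.inv_rpow hg.le,
    ← Real.rpow_neg hg.le, ← Real.rpow_neg hg.le]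
  have e1 : ((p.1 : ℕ) : ℝ) ^ (-(1 + (u 0 + u 3).re)) =
      ((p.1 : ℕ) : ℝ) ^ (-(1 / 2 + (u 0).re)) * ((p.1 : ℕ) : ℝ) ^ (-(1 / 2 + (u 3).re)) := by
    rw [← Real.rpow_add hm]
    congr 1
    rw [add_re]
    ring
  have e2 : ((p.2 : ℕ) : ℝ) ^ (-(1 + (u 1 + u 2).re)) =
      ((p.2 : ℕ) : ℝ) ^ (-(1 / 2 + (u 1).re)) * ((p.2 : ℕ) : ℝ) ^ (-(1 / 2 + (u 2).re)) := by
    rw [← Real.rpow_add hn]
    congr 1
    rw [add_re]
    ring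
  have e3 : (gg a b p.1 p.2 : ℝ) ^ (1 + (u 1).re + (u 3).re) =
      (gg a b p.1 p.2 : ℝ) ^ (-(-(1 / 2 + (u 1).re))) * (gg a b p.1 p.2 : ℝ) ^ (-(-(1 / 2 + (u 3).re))) := by
    rw [← Real.rpow_add hg]
    congr 1
    ring
  rw [e1, e2, e3]
  ring

/-! ### gcd facts -/

theorem gg_dvd (a b m n : ℕ+) : gg a b m n ∣ (a : ℕ) * b * Nat.gcd m n := by
  rw [← Nat.gcd_mul_left]
  apply Nat.dvd_gcd
  · exact (Nat.gcd_dvd_left _ _).trans ⟨b, by ring⟩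
  · exact (Nat.gcd_dvd_right _ _).trans ⟨a, by ring⟩

theorem gg_dvd' (a b m n : ℕ+) (hab : Nat.Coprime (a : ℕ) (b : ℕ)) :
    gg a b m n ∣ Nat.gcd b m * Nat.gcd a n * Nat.gcd m n := by
  unfold gg
  have h1 : Nat.gcd ((a : ℕ) * m) ((b : ℕ) * n) ∣
      Nat.gcd ((a : ℕ) * m) b * Nat.gcd ((a : ℕ) * m) n := Nat.gcd_mul_right_dvd_mul_gcd _ _ _
  have h2 : Nat.gcd ((a : ℕ) * m) b ∣ Nat.gcd b m := by
    rw [Nat.Coprime.gcd_mul_left_cancel (m : ℕ) hab, Nat.gcd_comm]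
  have h3 : Nat.gcd ((a : ℕ) * m) n ∣ Nat.gcd a n * Nat.gcd m n := by
    rw [Nat.gcd_comm ((a : ℕ) * m) n, Nat.gcd_comm (a : ℕ) n, Nat.gcd_comm (m : ℕ) n]
    exact Nat.gcd_mul_right_dvd_mul_gcd _ _ _
  calc Nat.gcd ((a : ℕ) * m) ((b : ℕ) * n) ∣ Nat.gcd ((a : ℕ) * m) b * Nat.gcd ((a : ℕ) * m) n := h1
    _ ∣ Nat.gcd b m * (Nat.gcd a n * Nat.gcd m n) := Nat.mul_dvd_mul h2 h3
    _ = Nat.gcd b m * Nat.gcd a n * Nat.gcd m n := by ring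

theorem exists_iota : ∃ ι : ℕ+ × ℕ+ → ℕ+ × (ℕ+ × ℕ+), ∀ p, p.1 = (ι p).1 * (ι p).2.1 ∧
    p.2 = (ι p).1 * (ι p).2.2 ∧ (((ι p).1 : ℕ+) : ℕ) = Nat.gcd p.1 p.2 := by
  have h : ∀ p : ℕ+ × ℕ+, ∃ q : ℕ+ × (ℕ+ × ℕ+), p.1 = q.1 * q.2.1 ∧
      p.2 = q.1 * q.2.2 ∧ ((q.1 : ℕ+) : ℕ) = Nat.gcd p.1 p.2 := by
    intro p
    have hg : 0 < Nat.gcd (p.1 : ℕ) p.2 := Nat.gcd_pos_of_pos_left _ p.1.2
    obtain ⟨c, hc⟩ := Nat.gcd_dvd_left (p.1 : ℕ) p.2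
    obtain ⟨d, hd⟩ := Nat.gcd_dvd_right (p.1 : ℕ) p.2
    have hc0 : 0 < c := by
      rcases Nat.eq_zero_or_pos c with h0 | h0
      · rw [h0, mul_zero] at hc
        exact absurd hc p.1.2.ne'
      · exact h0
    have hd0 : 0 < d := by
      rcases Nat.eq_zero_or_pos d with h0 | h0
      · rw [h0, mul_zero] at hd
        exact absurd hd p.2.2.ne'
      · exact h0
    refine ⟨(⟨_, hg⟩, (⟨c, hc0⟩, ⟨d, hd0⟩)), ?_, ?_, rfl⟩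
    · apply PNat.coe_injective
      simpa using hc
    · apply PNat.coe_injective
      simpa using hd
  choose ι hι using h
  exact ⟨ι, hι⟩

/-- the decomposition `(m, n) = (e m', e n')` -/
noncomputable def io : ℕ+ × ℕ+ → ℕ+ × (ℕ+ × ℕ+) := exists_iota.choose

theorem io1 (p : ℕ+ × ℕ+) : p.1 = (io p).1 * (io p).2.1 := (exists_iota.choose_spec p).1

theorem io2 (p : ℕ+ × ℕ+) : p.2 = (io p).1 * (io p).2.2 := (exists_iota.choose_spec p).2.1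

theorem io3 (p : ℕ+ × ℕ+) : (((io p).1 : ℕ+) : ℕ) = Nat.gcd p.1 p.2 :=
  (exists_iota.choose_spec p).2.2

theorem io_inj : Function.Injective io := by
  intro p q h
  apply Prod.ext
  · rw [io1 p, io1 q, h]
  · rw [io2 p, io2 q, h]

theorem sum_pnat {A : ℝ} (hA : 1 < A) : Summable fun n : ℕ+ => ((n : ℕ) : ℝ) ^ (-A) := by
  have h : Summable fun n : ℕ => (n : ℝ) ^ (-A) := Real.summable_nat_rpow.2 (by linarith)
  exact h.comp_injective PNat.coe_injective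

theorem sum_gcd {A B r : ℝ} (hA : 1 < A) (hB : 1 < B) (hr : 1 < A + B - r) :
    Summable fun p : ℕ+ × ℕ+ => ((p.1 : ℕ) : ℝ) ^ (-A) * ((p.2 : ℕ) : ℝ) ^ (-B) *
      (Nat.gcd p.1 p.2 : ℝ) ^ r := by
  have h1 := (sum_pnat hr).mul_of_nonneg ((sum_pnat hA).mul_of_nonneg (sum_pnat hB)
    (fun _ => by positivity) (fun _ => by positivity)) (fun _ => by positivity)
    (fun _ => by positivity)
  refine (h1.comp_injective io_inj).congr fun p => ?_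
  have he : (0 : ℝ) < ((io p).1 : ℕ) := by exact_mod_cast (io p).1.2
  have hm : (0 : ℝ) < ((io p).2.1 : ℕ) := by exact_mod_cast (io p).2.1.2
  have hn : (0 : ℝ) < ((io p).2.2 : ℕ) := by exact_mod_cast (io p).2.2.2
  have e1 : ((p.1 : ℕ) : ℝ) = ((io p).1 : ℕ) * ((io p).2.1 : ℕ) := by
    exact_mod_cast congrArg (fun x : ℕ+ => (x : ℕ)) (io1 p)
  have e2 : ((p.2 : ℕ) : ℝ) = ((io p).1 : ℕ) * ((io p).2.2 : ℕ) := by
    exact_mod_cast congrArg (fun x : ℕ+ => (x : ℕ)) (io2 p)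
  have e3 : (Nat.gcd p.1 p.2 : ℝ) = ((io p).1 : ℕ) := by rw [io3 p]
  rw [e3, e1, e2, Real.mul_rpow he.le hm.le, Real.mul_rpow he.le hn.le]
  have e4 : (((io p).1 : ℕ) : ℝ) ^ (-(A + B - r)) = (((io p).1 : ℕ) : ℝ) ^ (-A) *
      (((io p).1 : ℕ) : ℝ) ^ (-B) * (((io p).1 : ℕ) : ℝ) ^ r := by
    rw [← Real.rpow_add he, ← Real.rpow_add he]
    congr 1
    ring
  simp only [Function.comp_apply]
  rw [e4]
  ring

/-- local uniform majorant -/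
theorem major (a b : ℕ+) {u₀ : Fin 4 → ℂ} (h0 : u₀ ∈ RegE) : ∃ δ > 0, ∃ M : ℕ+ × ℕ+ → ℝ, Summable M ∧
    ∀ u : Fin 4 → ℂ, (∀ i, ‖u i - u₀ i‖ < δ) → ∀ p, ‖tm a b u p‖ ≤ M p := by
  obtain ⟨hP, hQ, hR⟩ := h0
  obtain ⟨δ, hδ, hδP, hδQ, hδR⟩ : ∃ δ : ℝ, 0 < δ ∧ 12 * δ ≤ (u₀ 0 + u₀ 3).re ∧
      12 * δ ≤ (u₀ 1 + u₀ 2).re ∧ 12 * δ ≤ (u₀ 0 + u₀ 2).re := by
    refine ⟨min (u₀ 0 + u₀ 3).re (min (u₀ 1 + u₀ 2).re (u₀ 0 + u₀ 2).re) / 12, ?_, ?_, ?_, ?_⟩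
    · have := lt_min hP (lt_min hQ hR)
      linarith
    · have := min_le_left (u₀ 0 + u₀ 3).re (min (u₀ 1 + u₀ 2).re (u₀ 0 + u₀ 2).re)
      linarith
    · have := (min_le_right (u₀ 0 + u₀ 3).re (min (u₀ 1 + u₀ 2).re (u₀ 0 + u₀ 2).re)).trans
        (min_le_left _ _)
      linarith
    · have := (min_le_right (u₀ 0 + u₀ 3).re (min (u₀ 1 + u₀ 2).re (u₀ 0 + u₀ 2).re)).trans
        (min_le_right _ _)
      linarith
  simp only [add_re] at hP hQ hR hδP hδQ hδR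
  set A : ℝ := 1 + ((u₀ 0).re + (u₀ 3).re) - 2 * δ with hA
  set B : ℝ := 1 + ((u₀ 1).re + (u₀ 2).re) - 2 * δ with hB
  set r : ℝ := max 0 (1 + (u₀ 1).re + (u₀ 3).re + 2 * δ) with hr
  have hr0 : 0 ≤ r := le_max_left _ _
  have hA1 : 1 < A := by linarith
  have hB1 : 1 < B := by linarith
  have hABr : 1 < A + B - r := by
    rcases max_choice 0 (1 + (u₀ 1).re + (u₀ 3).re + 2 * δ) with h | h
    · rw [hr, h]
      linarith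
    · rw [hr, h]
      linarith
  refine ⟨δ, hδ, fun p => (((a : ℕ) : ℝ) ^ (1 / 2 + |(u₀ 3).re| + δ) *
    ((b : ℕ) : ℝ) ^ (1 / 2 + |(u₀ 1).re| + δ) * (((a : ℕ) : ℝ) * ((b : ℕ) : ℝ)) ^ r) *
    (((p.1 : ℕ) : ℝ) ^ (-A) * ((p.2 : ℕ) : ℝ) ^ (-B) * (Nat.gcd p.1 p.2 : ℝ) ^ r),
    (sum_gcd hA1 hB1 hABr).mul_left _, ?_⟩
  intro u hu p
  have hre : ∀ i, |(u i).re - (u₀ i).re| < δ := fun i => by
    have h1 := Complex.abs_re_le_norm (u i - u₀ i)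
    rw [sub_re] at h1
    exact h1.trans_lt (hu i)
  have h0' := abs_lt.1 (hre 0)
  have h1' := abs_lt.1 (hre 1)
  have h2' := abs_lt.1 (hre 2)
  have h3' := abs_lt.1 (hre 3)
  have ha : (1 : ℝ) ≤ (a : ℕ) := by exact_mod_cast a.2
  have hb : (1 : ℝ) ≤ (b : ℕ) := by exact_mod_cast b.2
  have hm : (1 : ℝ) ≤ (p.1 : ℕ) := by exact_mod_cast p.1.2
  have hn : (1 : ℝ) ≤ (p.2 : ℕ) := by exact_mod_cast p.2.2
  have hg : (1 : ℝ) ≤ (gg a b p.1 p.2 : ℝ) := by exact_mod_cast gg_pos a b p.1 p.2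
  have hgle : (gg a b p.1 p.2 : ℝ) ≤ ((a : ℕ) : ℝ) * ((b : ℕ) : ℝ) * (Nat.gcd p.1 p.2 : ℝ) := by
    have hpos : 0 < (a : ℕ) * b * Nat.gcd p.1 p.2 :=
      Nat.mul_pos (Nat.mul_pos a.2 b.2) (Nat.gcd_pos_of_pos_left _ p.1.2)
    exact_mod_cast Nat.le_of_dvd hpos (gg_dvd a b p.1 p.2)
  rw [norm_tm]
  have b1 : ((a : ℕ) : ℝ) ^ (-(1 / 2 + (u 3).re)) ≤ ((a : ℕ) : ℝ) ^ (1 / 2 + |(u₀ 3).re| + δ) := by
    apply Real.rpow_le_rpow_of_exponent_le ha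
    have := neg_abs_le (u₀ 3).re
    linarith
  have b2 : ((b : ℕ) : ℝ) ^ (-(1 / 2 + (u 1).re)) ≤ ((b : ℕ) : ℝ) ^ (1 / 2 + |(u₀ 1).re| + δ) := by
    apply Real.rpow_le_rpow_of_exponent_le hb
    have := neg_abs_le (u₀ 1).re
    linarith
  have b3 : ((p.1 : ℕ) : ℝ) ^ (-(1 + (u 0 + u 3).re)) ≤ ((p.1 : ℕ) : ℝ) ^ (-A) := by
    apply Real.rpow_le_rpow_of_exponent_le hm
    rw [add_re]
    linarith
  have b4 : ((p.2 : ℕ) : ℝ) ^ (-(1 + (u 1 + u 2).re)) ≤ ((p.2 : ℕ) : ℝ) ^ (-B) := by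
    apply Real.rpow_le_rpow_of_exponent_le hn
    rw [add_re]
    linarith
  have b5 : (gg a b p.1 p.2 : ℝ) ^ (1 + (u 1).re + (u 3).re) ≤
      (((a : ℕ) : ℝ) * ((b : ℕ) : ℝ)) ^ r * (Nat.gcd p.1 p.2 : ℝ) ^ r := by
    rw [← Real.mul_rpow (by positivity) (by positivity)]
    calc (gg a b p.1 p.2 : ℝ) ^ (1 + (u 1).re + (u 3).re) ≤ (gg a b p.1 p.2 : ℝ) ^ r := by
          apply Real.rpow_le_rpow_of_exponent_le hg
          refine le_trans ?_ (le_max_right _ _)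
          linarith
      _ ≤ _ := Real.rpow_le_rpow (by positivity) hgle hr0
  calc ((a : ℕ) : ℝ) ^ (-(1 / 2 + (u 3).re)) * ((b : ℕ) : ℝ) ^ (-(1 / 2 + (u 1).re)) *
      (((p.1 : ℕ) : ℝ) ^ (-(1 + (u 0 + u 3).re)) * ((p.2 : ℕ) : ℝ) ^ (-(1 + (u 1 + u 2).re)) *
        (gg a b p.1 p.2 : ℝ) ^ (1 + (u 1).re + (u 3).re))
      ≤ ((a : ℕ) : ℝ) ^ (1 / 2 + |(u₀ 3).re| + δ) * ((b : ℕ) : ℝ) ^ (1 / 2 + |(u₀ 1).re| + δ) *
      (((p.1 : ℕ) : ℝ) ^ (-A) * ((p.2 : ℕ) : ℝ) ^ (-B) *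
        ((((a : ℕ) : ℝ) * ((b : ℕ) : ℝ)) ^ r * (Nat.gcd p.1 p.2 : ℝ) ^ r)) := by gcongr
    _ = _ := by ring

theorem zeta_pnat {z : ℂ} (hz : 1 < z.re) :
    (Summable fun n : ℕ+ => ‖((n : ℕ) : ℂ) ^ (-z)‖) ∧
      riemannZeta z = ∑' n : ℕ+, ((n : ℕ) : ℂ) ^ (-z) := by
  have h1 : Summable (fun n : ℕ => 1 / (n : ℂ) ^ z) := Complex.summable_one_div_nat_cpow.2 hz
  have h2 : Summable (fun n : ℕ+ => ((n : ℕ) : ℂ) ^ (-z)) := by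
    have := h1.comp_injective PNat.coe_injective
    refine this.congr fun n => ?_
    simp [cpow_neg]
  refine ⟨h2.norm, ?_⟩
  rw [zeta_eq_tsum_one_div_nat_add_one_cpow hz,
    tsum_pnat_eq_tsum_succ (f := fun n : ℕ => (n : ℂ) ^ (-z))]
  refine tsum_congr fun n => ?_
  rw [cpow_neg]
  push_cast
  simp

/-- parametrisation of the solutions of `a m₁ m₂ = b n₁ n₂` -/
def Fi (a b : ℕ+) (x : (ℕ+ × ℕ+) × ℕ+) : (ℕ+ × ℕ+) × (ℕ+ × ℕ+) :=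
  ((x.1.1, ⟨vv a b x.1.1 x.1.2, vv_pos a b x.1.1 x.1.2⟩ * x.2),
    (x.1.2, ⟨uu a b x.1.1 x.1.2, uu_pos a b x.1.1 x.1.2⟩ * x.2))

theorem Fi_inj (a b : ℕ+) : Function.Injective (Fi a b) := by
  rintro ⟨⟨m, n⟩, k⟩ ⟨⟨m', n'⟩, k'⟩ h
  simp only [Fi, Prod.mk.injEq] at h
  obtain ⟨⟨h1, h2⟩, h3, h4⟩ := h
  subst h1 h3
  have h5 := mul_left_cancel h2
  rw [h5]

theorem Fi_cond (a b : ℕ+) (x : (ℕ+ × ℕ+) × ℕ+) :
    a * (Fi a b x).1.1 * (Fi a b x).1.2 = b * (Fi a b x).2.1 * (Fi a b x).2.2 := by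
  apply PNat.coe_injective
  have h1 := uu_mul a b x.1.1 x.1.2
  have h2 := vv_mul a b x.1.1 x.1.2
  simp only [Fi, PNat.mul_coe, PNat.mk_coe]
  rw [← h1, ← h2]
  ring

theorem Fi_range (a b : ℕ+) (q : (ℕ+ × ℕ+) × (ℕ+ × ℕ+))
    (hq : a * q.1.1 * q.1.2 = b * q.2.1 * q.2.2) : q ∈ Set.range (Fi a b) := by
  obtain ⟨⟨m, m2⟩, ⟨n, n2⟩⟩ := q
  simp only at hq
  have hq' : (a : ℕ) * m * m2 = (b : ℕ) * n * n2 := by
    exact_mod_cast congrArg (fun x : ℕ+ => (x : ℕ)) hq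
  have h1 := uu_mul a b m n
  have h2 := vv_mul a b m n
  have hg := gg_pos a b m n
  rw [← h1, ← h2, mul_assoc, mul_assoc] at hq'
  have h3 : uu a b m n * m2 = vv a b m n * n2 := Nat.eq_of_mul_eq_mul_left hg hq'
  have h4 : vv a b m n ∣ (m2 : ℕ) := by
    apply (uv_coprime a b m n).symm.dvd_of_dvd_mul_left
    exact ⟨n2, h3⟩
  obtain ⟨k, hk⟩ := h4
  have hk0 : 0 < k := by
    rcases Nat.eq_zero_or_pos k with h0 | h0
    · rw [h0, mul_zero] at hk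
      exact absurd hk m2.2.ne'
    · exact h0
  have h5 : (n2 : ℕ) = uu a b m n * k := by
    rw [hk] at h3
    have : vv a b m n * (uu a b m n * k) = vv a b m n * n2 := by rw [← h3]; ring
    exact (Nat.eq_of_mul_eq_mul_left (vv_pos a b m n) this).symm
  refine ⟨((m, n), ⟨k, hk0⟩), ?_⟩
  simp only [Fi, Prod.mk.injEq, true_and]
  constructor
  · apply PNat.coe_injective
    simp [hk]
  · apply PNat.coe_injective
    simp [h5]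

/-- the term of the series `DD` -/
noncomputable def td (a b : ℕ+) (u : Fin 4 → ℂ) (q : (ℕ+ × ℕ+) × (ℕ+ × ℕ+)) : ℂ :=
  if a * q.1.1 * q.1.2 = b * q.2.1 * q.2.2 then
      pw q.1.1 (u 0) * pw q.1.2 (u 1) * (pw q.2.1 (u 2) * pw q.2.2 (u 3)) else 0

theorem pw_mul (x y : ℕ+) (s : ℂ) : pw (x * y) s = pw x s * pw y s := by
  unfold pw
  rw [PNat.mul_coe]
  push_cast
  have e1 : ((x : ℕ) : ℂ) = (((x : ℕ) : ℝ) : ℂ) := by norm_cast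
  have e2 : ((y : ℕ) : ℂ) = (((y : ℕ) : ℝ) : ℂ) := by norm_cast
  rw [e1, e2, Complex.mul_cpow_ofReal_nonneg (by positivity) (by positivity)]

theorem td_Fi (a b : ℕ+) (u : Fin 4 → ℂ) (x : (ℕ+ × ℕ+) × ℕ+) :
    td a b u (Fi a b x) = tm a b u x.1 * ((x.2 : ℕ) : ℂ) ^ (-(1 + u 1 + u 3)) := by
  unfold td
  rw [if_pos (Fi_cond a b x)]
  simp only [Fi]
  rw [pw_mul, pw_mul]
  have hk : ((x.2 : ℕ) : ℂ) ≠ 0 := by exact_mod_cast x.2.2.ne'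
  have e : ((x.2 : ℕ) : ℂ) ^ (-(1 + u 1 + u 3)) = pw x.2 (u 1) * pw x.2 (u 3) := by
    unfold pw
    rw [← Complex.cpow_add _ _ hk]
    congr 1
    ring
  rw [e]
  unfold tm
  simp only [pw, PNat.mk_coe]
  ring

theorem td_zero (a b : ℕ+) (u : Fin 4 → ℂ) (q : (ℕ+ × ℕ+) × (ℕ+ × ℕ+))
    (hq : q ∉ Set.range (Fi a b)) : td a b u q = 0 := by
  unfold td
  rw [if_neg]
  intro h
  exact hq (Fi_range a b q h)

theorem tm_summable (a b : ℕ+) {u : Fin 4 → ℂ} (hu : u ∈ RegE) :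
    Summable fun p => ‖tm a b u p‖ := by
  obtain ⟨δ, hδ, M, hM, hb⟩ := major a b hu
  exact Summable.of_nonneg_of_le (fun p => norm_nonneg _)
    (fun p => hb u (fun i => by simpa using hδ) p) hM

theorem td_summable (a b : ℕ+) {u : Fin 4 → ℂ} (hu : u ∈ RegD) :
    Summable fun q => ‖td a b u q‖ := by
  obtain ⟨hP, hQ, hR, hS⟩ := hu
  have hz : 1 < (1 + u 1 + u 3).re := by
    rw [add_assoc, add_re, one_re]
    linarith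
  rw [← (Fi_inj a b).summable_iff (fun q hq => by rw [td_zero a b u q hq, norm_zero])]
  have h1 := (tm_summable a b ⟨hP, hQ, hR⟩ : Summable fun p => ‖tm a b u p‖).mul_of_nonneg
    (zeta_pnat hz).1 (fun _ => norm_nonneg _) (fun _ => norm_nonneg _)
  refine h1.congr fun x => ?_
  simp only [Function.comp_apply]
  rw [td_Fi, norm_mul]

theorem tsum_norm_td (a b : ℕ+) {u : Fin 4 → ℂ} (hu : u ∈ RegD) :
    ∑' q, ‖td a b u q‖ = (∑' p, ‖tm a b u p‖) * ∑' k : ℕ+, ‖((k : ℕ) : ℂ) ^ (-(1 + u 1 + u 3))‖ := by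
  obtain ⟨hP, hQ, hR, hS⟩ := hu
  have hz : 1 < (1 + u 1 + u 3).re := by
    rw [add_assoc, add_re, one_re]
    linarith
  have h0 := tm_summable a b (u := u) ⟨hP, hQ, hR⟩
  have h1 := h0.mul_of_nonneg (zeta_pnat hz).1 (fun _ => norm_nonneg _) (fun _ => norm_nonneg _)
  rw [h0.tsum_mul_tsum (zeta_pnat hz).1 h1, ← (Fi_inj a b).tsum_eq (f := fun q => ‖td a b u q‖)]
  · refine tsum_congr fun x => ?_
    rw [td_Fi, norm_mul]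
  · intro q hq
    by_contra h
    exact hq (by simp [td_zero a b u q h])

/-! ### the sums with a gcd -/

theorem zk_nonneg (κ : ℝ) : 0 ≤ ∑' k : ℕ+, ((k : ℕ) : ℝ) ^ (-(1 + κ)) :=
  tsum_nonneg fun _ => by positivity

theorem hd_sum {κ A r : ℝ} (hκ : 0 < κ) (hA : 1 + κ ≤ A) (hr : r ≤ A) (d : ℕ) (hd : 0 < d) :
    (Summable fun m : ℕ+ => if d ∣ (m : ℕ) then (d : ℝ) ^ r * ((m : ℕ) : ℝ) ^ (-A) else 0) ∧
    ∑' m : ℕ+, (if d ∣ (m : ℕ) then (d : ℝ) ^ r * ((m : ℕ) : ℝ) ^ (-A) else 0) ≤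
      ∑' k : ℕ+, ((k : ℕ) : ℝ) ^ (-(1 + κ)) := by
  obtain ⟨D, rfl⟩ : ∃ D : ℕ+, d = (D : ℕ) := ⟨⟨d, hd⟩, rfl⟩
  have hinj : Function.Injective (fun k : ℕ+ => D * k) := fun x y h => mul_left_cancel h
  have hz : ∀ m : ℕ+, m ∉ Set.range (fun k : ℕ+ => D * k) →
      (if (D : ℕ) ∣ (m : ℕ) then ((D : ℕ) : ℝ) ^ r * ((m : ℕ) : ℝ) ^ (-A) else 0) = 0 := by
    intro m hm
    rw [if_neg]
    rintro ⟨k, hk⟩
    have hk0 : 0 < k := by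
      rcases Nat.eq_zero_or_pos k with h0 | h0
      · rw [h0, mul_zero] at hk
        exact absurd hk m.2.ne'
      · exact h0
    apply hm
    refine ⟨⟨k, hk0⟩, ?_⟩
    apply PNat.coe_injective
    simp [hk]
  have hd1 : (1 : ℝ) ≤ (D : ℕ) := by exact_mod_cast D.2
  have hv : ∀ k : ℕ+, (if (D : ℕ) ∣ ((D * k : ℕ+) : ℕ) then
      ((D : ℕ) : ℝ) ^ r * (((D * k : ℕ+) : ℕ) : ℝ) ^ (-A) else 0) ≤
      ((k : ℕ) : ℝ) ^ (-(1 + κ)) := by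
    intro k
    have hk1 : (1 : ℝ) ≤ (k : ℕ) := by exact_mod_cast k.2
    rw [if_pos (by simp)]
    rw [PNat.mul_coe]
    push_cast
    rw [Real.mul_rpow (by positivity) (by positivity), ← mul_assoc,
      ← Real.rpow_add (by positivity)]
    have e1 : ((D : ℕ) : ℝ) ^ (r + -A) ≤ 1 := Real.rpow_le_one_of_one_le_of_nonpos hd1 (by linarith)
    have e2 : ((k : ℕ) : ℝ) ^ (-A) ≤ ((k : ℕ) : ℝ) ^ (-(1 + κ)) :=
      Real.rpow_le_rpow_of_exponent_le hk1 (by linarith)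
    calc ((D : ℕ) : ℝ) ^ (r + -A) * ((k : ℕ) : ℝ) ^ (-A) ≤ 1 * ((k : ℕ) : ℝ) ^ (-(1 + κ)) := by
          gcongr
      _ = _ := one_mul _
  have hn : ∀ k : ℕ+, 0 ≤ (if (D : ℕ) ∣ ((D * k : ℕ+) : ℕ) then
      ((D : ℕ) : ℝ) ^ r * (((D * k : ℕ+) : ℕ) : ℝ) ^ (-A) else 0) := by
    intro k
    split_ifs
    · positivity
    · exact le_rfl
  have hs : Summable fun k : ℕ+ => ((k : ℕ) : ℝ) ^ (-(1 + κ)) := sum_pnat (by linarith)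
  have hc := Summable.of_nonneg_of_le hn hv hs
  constructor
  · rw [← hinj.summable_iff hz]
    exact hc
  · rw [← hinj.tsum_eq (f := fun m : ℕ+ => if (D : ℕ) ∣ (m : ℕ) then
      ((D : ℕ) : ℝ) ^ r * ((m : ℕ) : ℝ) ^ (-A) else 0)]
    · exact hc.tsum_le_tsum hv hs
    · intro m hm
      by_contra h
      exact hm (hz m h)

theorem sg_sum {κ A r : ℝ} (hκ : 0 < κ) (hA : 1 + κ ≤ A) (hr : r ≤ A) (N : ℕ+) :
    (Summable fun m : ℕ+ => (Nat.gcd N m : ℝ) ^ r * ((m : ℕ) : ℝ) ^ (-A)) ∧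
    ∑' m : ℕ+, (Nat.gcd N m : ℝ) ^ r * ((m : ℕ) : ℝ) ^ (-A) ≤
      ((N : ℕ).divisors.card : ℝ) * ∑' k : ℕ+, ((k : ℕ) : ℝ) ^ (-(1 + κ)) := by
  have hle : ∀ m : ℕ+, (Nat.gcd N m : ℝ) ^ r * ((m : ℕ) : ℝ) ^ (-A) ≤
      ∑ d ∈ (N : ℕ).divisors, if d ∣ (m : ℕ) then (d : ℝ) ^ r * ((m : ℕ) : ℝ) ^ (-A) else 0 := by
    intro m
    have hmem : Nat.gcd N m ∈ (N : ℕ).divisors :=
      Nat.mem_divisors.2 ⟨Nat.gcd_dvd_left _ _, N.2.ne'⟩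
    refine le_trans (le_of_eq ?_) (Finset.single_le_sum (f := fun d : ℕ =>
      if d ∣ (m : ℕ) then (d : ℝ) ^ r * ((m : ℕ) : ℝ) ^ (-A) else 0) (fun d _ => ?_) hmem)
    · rw [if_pos (Nat.gcd_dvd_right _ _)]
    · split_ifs
      · positivity
      · exact le_rfl
  have hsum : Summable fun m : ℕ+ => ∑ d ∈ (N : ℕ).divisors,
      if d ∣ (m : ℕ) then (d : ℝ) ^ r * ((m : ℕ) : ℝ) ^ (-A) else 0 :=
    summable_sum fun d hd => (hd_sum hκ hA hr d (Nat.pos_of_mem_divisors hd)).1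
  have hs := Summable.of_nonneg_of_le (fun m => by positivity) hle hsum
  refine ⟨hs, (hs.tsum_le_tsum hle hsum).trans ?_⟩
  rw [Summable.tsum_finsetSum (fun d hd => (hd_sum hκ hA hr d (Nat.pos_of_mem_divisors hd)).1)]
  calc ∑ d ∈ (N : ℕ).divisors, ∑' m : ℕ+,
        (if d ∣ (m : ℕ) then (d : ℝ) ^ r * ((m : ℕ) : ℝ) ^ (-A) else 0)
      ≤ ∑ _d ∈ (N : ℕ).divisors, ∑' k : ℕ+, ((k : ℕ) : ℝ) ^ (-(1 + κ)) :=
        Finset.sum_le_sum fun d hd => (hd_sum hκ hA hr d (Nat.pos_of_mem_divisors hd)).2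
    _ = _ := by rw [Finset.sum_const, nsmul_eq_mul]

theorem gg_le (a b : ℕ+) (hab : Nat.Coprime (a : ℕ) (b : ℕ)) (p : ℕ+ × ℕ+) :
    gg a b p.1 p.2 ≤ Nat.gcd (a * b : ℕ+) (io p).1 * (Nat.gcd b (io p).2.1 *
      Nat.gcd a (io p).2.2) * (io p).1 := by
  apply Nat.le_of_dvd
  · have h1 := Nat.gcd_pos_of_pos_left (((io p).1 : ℕ+) : ℕ) (a * b : ℕ+).2
    have h2 := Nat.gcd_pos_of_pos_left (((io p).2.1 : ℕ+) : ℕ) b.2
    have h3 := Nat.gcd_pos_of_pos_left (((io p).2.2 : ℕ+) : ℕ) a.2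
    exact Nat.mul_pos (Nat.mul_pos h1 (Nat.mul_pos h2 h3)) (io p).1.2
  · have e1 : (p.1 : ℕ) = (io p).1 * (io p).2.1 := by
      exact_mod_cast congrArg (fun x : ℕ+ => (x : ℕ)) (io1 p)
    have e2 : (p.2 : ℕ) = (io p).1 * (io p).2.2 := by
      exact_mod_cast congrArg (fun x : ℕ+ => (x : ℕ)) (io2 p)
    have h1 : Nat.gcd b p.1 ∣ Nat.gcd b (io p).1 * Nat.gcd b (io p).2.1 := by
      rw [e1]
      exact Nat.gcd_mul_right_dvd_mul_gcd _ _ _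
    have h2 : Nat.gcd a p.2 ∣ Nat.gcd a (io p).1 * Nat.gcd a (io p).2.2 := by
      rw [e2]
      exact Nat.gcd_mul_right_dvd_mul_gcd _ _ _
    have h3 : Nat.gcd (a * b : ℕ+) (io p).1 = Nat.gcd a (io p).1 * Nat.gcd b (io p).1 := by
      rw [PNat.mul_coe, Nat.gcd_comm ((a : ℕ) * b), Nat.Coprime.gcd_mul _ hab,
        Nat.gcd_comm (a : ℕ), Nat.gcd_comm (b : ℕ)]
    calc gg a b p.1 p.2 ∣ Nat.gcd b p.1 * Nat.gcd a p.2 * Nat.gcd p.1 p.2 := gg_dvd' a b _ _ hab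
      _ ∣ (Nat.gcd b (io p).1 * Nat.gcd b (io p).2.1) *
          (Nat.gcd a (io p).1 * Nat.gcd a (io p).2.2) * (io p).1 := by
          have h4 := io3 p
          exact Nat.mul_dvd_mul (Nat.mul_dvd_mul h1 h2) (by rw [h4])
      _ = _ := by rw [h3]; ring

/-- the main bound -/
theorem main_sum {κ A B r : ℝ} (hκ : 0 < κ) (hr : 0 ≤ r) (hA : 1 + κ ≤ A) (hB : 1 + κ ≤ B)
    (hAB : 1 + κ ≤ A + B - r) (hrA : r ≤ A) (hrB : r ≤ B) (hrAB : r ≤ A + B - r) (a b : ℕ+)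
    (hab : Nat.Coprime (a : ℕ) (b : ℕ)) :
    ∑' p : ℕ+ × ℕ+, ((p.1 : ℕ) : ℝ) ^ (-A) * ((p.2 : ℕ) : ℝ) ^ (-B) * (gg a b p.1 p.2 : ℝ) ^ r ≤
      (((a * b : ℕ+) : ℕ).divisors.card * (((b : ℕ).divisors.card : ℝ) * ((a : ℕ).divisors.card : ℝ))) *
        (∑' k : ℕ+, ((k : ℕ) : ℝ) ^ (-(1 + κ))) ^ 3 := by
  have s1 := sg_sum hκ hAB hrAB (a * b)
  have s2 := sg_sum hκ hA hrA b
  have s3 := sg_sum hκ hB hrB a
  have s23 := s2.1.mul_of_nonneg s3.1 (fun _ => by positivity) (fun _ => by positivity)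
  have s123 := s1.1.mul_of_nonneg s23 (fun _ => by positivity) (fun _ => by positivity)
  have hpt : ∀ p : ℕ+ × ℕ+, ((p.1 : ℕ) : ℝ) ^ (-A) * ((p.2 : ℕ) : ℝ) ^ (-B) *
      (gg a b p.1 p.2 : ℝ) ^ r ≤ ((fun x : ℕ+ × (ℕ+ × ℕ+) =>
        (Nat.gcd (a * b : ℕ+) x.1 : ℝ) ^ r * ((x.1 : ℕ) : ℝ) ^ (-(A + B - r)) *
          ((Nat.gcd b x.2.1 : ℝ) ^ r * ((x.2.1 : ℕ) : ℝ) ^ (-A) *
            ((Nat.gcd a x.2.2 : ℝ) ^ r * ((x.2.2 : ℕ) : ℝ) ^ (-B)))) ∘ io) p := by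
    intro p
    have he : (0 : ℝ) < ((io p).1 : ℕ) := by exact_mod_cast (io p).1.2
    have hm : (0 : ℝ) < ((io p).2.1 : ℕ) := by exact_mod_cast (io p).2.1.2
    have hn : (0 : ℝ) < ((io p).2.2 : ℕ) := by exact_mod_cast (io p).2.2.2
    have e1 : ((p.1 : ℕ) : ℝ) = ((io p).1 : ℕ) * ((io p).2.1 : ℕ) := by
      exact_mod_cast congrArg (fun x : ℕ+ => (x : ℕ)) (io1 p)
    have e2 : ((p.2 : ℕ) : ℝ) = ((io p).1 : ℕ) * ((io p).2.2 : ℕ) := by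
      exact_mod_cast congrArg (fun x : ℕ+ => (x : ℕ)) (io2 p)
    have hg : (gg a b p.1 p.2 : ℝ) ≤ (Nat.gcd (a * b : ℕ+) (io p).1 : ℝ) *
        ((Nat.gcd b (io p).2.1 : ℝ) * (Nat.gcd a (io p).2.2 : ℝ)) * ((io p).1 : ℕ) := by
      exact_mod_cast gg_le a b hab p
    have hgr := Real.rpow_le_rpow (by positivity) hg hr
    rw [Real.mul_rpow (by positivity) he.le, Real.mul_rpow (by positivity) (by positivity),
      Real.mul_rpow (by positivity) (by positivity)] at hgr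
    have e4 : (((io p).1 : ℕ) : ℝ) ^ (-(A + B - r)) = (((io p).1 : ℕ) : ℝ) ^ (-A) *
        (((io p).1 : ℕ) : ℝ) ^ (-B) * (((io p).1 : ℕ) : ℝ) ^ r := by
      rw [← Real.rpow_add he, ← Real.rpow_add he]
      congr 1
      ring
    simp only [Function.comp_apply]
    rw [e4, e1, e2, Real.mul_rpow he.le hm.le, Real.mul_rpow he.le hn.le]
    calc _ ≤ (((io p).1 : ℕ) : ℝ) ^ (-A) * (((io p).2.1 : ℕ) : ℝ) ^ (-A) *
          ((((io p).1 : ℕ) : ℝ) ^ (-B) * (((io p).2.2 : ℕ) : ℝ) ^ (-B)) *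
          ((Nat.gcd (a * b : ℕ+) (io p).1 : ℝ) ^ r *
        ((Nat.gcd b (io p).2.1 : ℝ) ^ r * (Nat.gcd a (io p).2.2 : ℝ) ^ r) *
          (((io p).1 : ℕ) : ℝ) ^ r) := by gcongr
      _ = _ := by ring
  have hsF : Summable fun p : ℕ+ × ℕ+ => ((p.1 : ℕ) : ℝ) ^ (-A) * ((p.2 : ℕ) : ℝ) ^ (-B) *
      (gg a b p.1 p.2 : ℝ) ^ r :=
    Summable.of_nonneg_of_le (fun p => by positivity) hpt (s123.comp_injective io_inj)
  have hZ := zk_nonneg κ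
  calc _ ≤ ∑' p, ((fun x : ℕ+ × (ℕ+ × ℕ+) =>
        (Nat.gcd (a * b : ℕ+) x.1 : ℝ) ^ r * ((x.1 : ℕ) : ℝ) ^ (-(A + B - r)) *
          ((Nat.gcd b x.2.1 : ℝ) ^ r * ((x.2.1 : ℕ) : ℝ) ^ (-A) *
            ((Nat.gcd a x.2.2 : ℝ) ^ r * ((x.2.2 : ℕ) : ℝ) ^ (-B)))) ∘ io) p :=
        hsF.tsum_le_tsum hpt (s123.comp_injective io_inj)
    _ ≤ ∑' x : ℕ+ × (ℕ+ × ℕ+),
        (Nat.gcd (a * b : ℕ+) x.1 : ℝ) ^ r * ((x.1 : ℕ) : ℝ) ^ (-(A + B - r)) *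
          ((Nat.gcd b x.2.1 : ℝ) ^ r * ((x.2.1 : ℕ) : ℝ) ^ (-A) *
            ((Nat.gcd a x.2.2 : ℝ) ^ r * ((x.2.2 : ℕ) : ℝ) ^ (-B))) :=
        tsum_comp_le_tsum_of_inj s123 (fun x => by positivity) io_inj
    _ = (∑' m : ℕ+, (Nat.gcd (a * b : ℕ+) m : ℝ) ^ r * ((m : ℕ) : ℝ) ^ (-(A + B - r))) *
        ((∑' m : ℕ+, (Nat.gcd b m : ℝ) ^ r * ((m : ℕ) : ℝ) ^ (-A)) *
          ∑' m : ℕ+, (Nat.gcd a m : ℝ) ^ r * ((m : ℕ) : ℝ) ^ (-B)) := by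
        rw [s2.1.tsum_mul_tsum s3.1 s23, s1.1.tsum_mul_tsum s23 s123]
    _ ≤ (((a * b : ℕ+) : ℕ).divisors.card * ∑' k : ℕ+, ((k : ℕ) : ℝ) ^ (-(1 + κ))) *
        ((((b : ℕ).divisors.card : ℝ) * ∑' k : ℕ+, ((k : ℕ) : ℝ) ^ (-(1 + κ))) *
          (((a : ℕ).divisors.card : ℝ) * ∑' k : ℕ+, ((k : ℕ) : ℝ) ^ (-(1 + κ)))) := by
        have n1 : 0 ≤ ∑' m : ℕ+, (Nat.gcd b m : ℝ) ^ r * ((m : ℕ) : ℝ) ^ (-A) :=
          tsum_nonneg fun _ => by positivity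
        have n2 : 0 ≤ ∑' m : ℕ+, (Nat.gcd a m : ℝ) ^ r * ((m : ℕ) : ℝ) ^ (-B) :=
          tsum_nonneg fun _ => by positivity
        have n3 : 0 ≤ ((a * b : ℕ+) : ℕ).divisors.card * ∑' k : ℕ+, ((k : ℕ) : ℝ) ^ (-(1 + κ)) := by
          positivity
        have n4 : 0 ≤ ((b : ℕ).divisors.card : ℝ) * ∑' k : ℕ+, ((k : ℕ) : ℝ) ^ (-(1 + κ)) := by
          positivity
        exact mul_le_mul s1.2 (mul_le_mul s2.2 s3.2 n2 n4) (mul_nonneg n1 n2) n3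
    _ = _ := by ring

/-- the divisor factors -/
theorem div_fac (ε : ℝ) (hε : 0 < ε) : ∃ C : ℝ, 0 < C ∧ ∀ a b : ℕ+,
    (((a * b : ℕ+) : ℕ).divisors.card * (((b : ℕ).divisors.card : ℝ) * ((a : ℕ).divisors.card : ℝ))) ≤
      C * (((a : ℕ) : ℝ) * ((b : ℕ) : ℝ)) ^ ε := by
  obtain ⟨C, hC1, hC⟩ := Pool.Agent.Lib.P5632c9.card_divisors_le (ε / 2) (by positivity)
  refine ⟨C ^ 3, by positivity, fun a b => ?_⟩
  have ha : (0 : ℝ) < (a : ℕ) := by exact_mod_cast a.2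
  have hb : (0 : ℝ) < (b : ℕ) := by exact_mod_cast b.2
  have h1 := hC a a.2.ne'
  have h2 := hC b b.2.ne'
  have h3 := hC (a * b : ℕ+) (a * b : ℕ+).2.ne'
  rw [PNat.mul_coe] at h3 ⊢
  push_cast at h3
  have hC0 : 0 ≤ C := by linarith
  calc _ ≤ (C * (((a : ℕ) : ℝ) * ((b : ℕ) : ℝ)) ^ (ε / 2)) *
        ((C * ((b : ℕ) : ℝ) ^ (ε / 2)) * (C * ((a : ℕ) : ℝ) ^ (ε / 2))) := by
        gcongr
    _ = C ^ 3 * (((a : ℕ) : ℝ) * ((b : ℕ) : ℝ)) ^ ε := by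
        have e1 : (((a : ℕ) : ℝ) * ((b : ℕ) : ℝ)) ^ ε =
            (((a : ℕ) : ℝ) * ((b : ℕ) : ℝ)) ^ (ε / 2) * (((a : ℕ) : ℝ) ^ (ε / 2) * ((b : ℕ) : ℝ) ^ (ε / 2)) := by
          rw [← Real.mul_rpow ha.le hb.le, ← Real.rpow_add (by positivity)]
          congr 1
          ring
        rw [e1]
        ring

end EEregAux

open EEregAux

theorem ee_summable (a b : ℕ+) {u : Fin 4 → ℂ} (hu : u ∈ RegE) :
    Summable fun p : ℕ+ × ℕ+ => ‖pw p.1 (u 0) * pw p.2 (u 2) *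
      ((((vv a b p.1 p.2 : ℕ) : ℂ) ^ (-(1 / 2 + u 1))) * (((uu a b p.1 p.2 : ℕ) : ℂ) ^ (-(1 / 2 + u 3))))‖ :=
  tm_summable a b hu

theorem dd_summable (a b : ℕ+) {u : Fin 4 → ℂ} (hu : u ∈ RegD) :
    (Summable fun q : (ℕ+ × ℕ+) × (ℕ+ × ℕ+) => ‖if a * q.1.1 * q.1.2 = b * q.2.1 * q.2.2 then
      pw q.1.1 (u 0) * pw q.1.2 (u 1) * (pw q.2.1 (u 2) * pw q.2.2 (u 3)) else 0‖) ∧
    DD a b (u 0) (u 1) (u 2) (u 3) = riemannZeta (1 + u 1 + u 3) * EE a b (u 0) (u 1) (u 2) (u 3) := by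
  refine ⟨td_summable a b hu, ?_⟩
  obtain ⟨hP, hQ, hR, hS⟩ := hu
  have hz : 1 < (1 + u 1 + u 3).re := by
    rw [add_assoc, add_re, one_re]
    linarith
  have h0 := tm_summable a b (u := u) ⟨hP, hQ, hR⟩
  have e1 : DD a b (u 0) (u 1) (u 2) (u 3) = ∑' q, td a b u q := rfl
  have e2 : EE a b (u 0) (u 1) (u 2) (u 3) = ∑' p, tm a b u p := rfl
  rw [e1, e2, (zeta_pnat hz).2, mul_comm, tsum_mul_tsum_of_summable_norm h0 (zeta_pnat hz).1,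
    ← (Fi_inj a b).tsum_eq (f := td a b u)]
  · exact tsum_congr fun x => td_Fi a b u x
  · intro q hq
    by_contra h
    exact hq (td_zero a b u q h)

theorem ee_diff (a b : ℕ+) (f : Fin 4 → ℂ → ℂ) (S : Set ℂ) (hS : IsOpen S) (hf : ∀ i, DifferentiableOn ℂ (f i) S)
    (hR : ∀ z ∈ S, (fun i => f i z) ∈ RegE) : DifferentiableOn ℂ (fun z => EE a b (f 0 z) (f 1 z) (f 2 z) (f 3 z)) S := by
  intro z₀ hz₀
  apply DifferentiableAt.differentiableWithinAt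
  obtain ⟨δ, hδ, M, hM, hb⟩ := major a b (hR z₀ hz₀)
  have hU : IsOpen (S ∩ ⋂ i : Fin 4, (S ∩ (f i) ⁻¹' (Metric.ball (f i z₀) δ))) := by
    refine hS.inter (isOpen_iInter_of_finite fun i => ?_)
    exact (hf i).continuousOn.isOpen_inter_preimage hS Metric.isOpen_ball
  have hz : z₀ ∈ S ∩ ⋂ i : Fin 4, (S ∩ (f i) ⁻¹' (Metric.ball (f i z₀) δ)) := by
    refine ⟨hz₀, Set.mem_iInter.2 fun i => ⟨hz₀, ?_⟩⟩
    simpa using hδ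
  have hd : ∀ i, DifferentiableOn ℂ (f i) (S ∩ ⋂ i : Fin 4, (S ∩ (f i) ⁻¹' (Metric.ball (f i z₀) δ))) :=
    fun i => (hf i).mono Set.inter_subset_left
  refine DifferentiableOn.differentiableAt (s := S ∩ ⋂ i : Fin 4, (S ∩ (f i) ⁻¹' (Metric.ball (f i z₀) δ)))
    ?_ (hU.mem_nhds hz)
  refine Complex.differentiableOn_tsum_of_summable_norm
    (F := fun p z => tm a b (fun i => f i z) p) hM (fun p => ?_) hU (fun p w hw => ?_)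
  · have c1 : ((p.1 : ℕ) : ℂ) ≠ 0 := by exact_mod_cast p.1.2.ne'
    have c2 : ((p.2 : ℕ) : ℂ) ≠ 0 := by exact_mod_cast p.2.2.ne'
    have c3 : ((vv a b p.1 p.2 : ℕ) : ℂ) ≠ 0 := by exact_mod_cast (vv_pos a b p.1 p.2).ne'
    have c4 : ((uu a b p.1 p.2 : ℕ) : ℂ) ≠ 0 := by exact_mod_cast (uu_pos a b p.1 p.2).ne'
    unfold tm pw
    exact ((((hd 0).const_add _).neg.const_cpow (Or.inl c1)).mul
      (((hd 2).const_add _).neg.const_cpow (Or.inl c2))).mul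
      ((((hd 1).const_add _).neg.const_cpow (Or.inl c3)).mul
      (((hd 3).const_add _).neg.const_cpow (Or.inl c4)))
  · apply hb
    intro i
    have h := (Set.mem_iInter.1 hw.2 i).2
    simpa [dist_eq_norm] using h

theorem ee_cont (a b : ℕ+) : ContinuousOn (fun u : Fin 4 → ℂ => EE a b (u 0) (u 1) (u 2) (u 3)) RegE := by
  intro u₀ hu₀
  apply ContinuousAt.continuousWithinAt
  obtain ⟨δ, hδ, M, hM, hb⟩ := major a b hu₀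
  refine ContinuousOn.continuousAt (s := Metric.ball u₀ δ) ?_ (Metric.ball_mem_nhds u₀ hδ)
  refine continuousOn_tsum (f := fun p u => tm a b u p) (fun p => ?_) hM (fun p u hu => ?_)
  · have c1 : ((p.1 : ℕ) : ℂ) ≠ 0 := by exact_mod_cast p.1.2.ne'
    have c2 : ((p.2 : ℕ) : ℂ) ≠ 0 := by exact_mod_cast p.2.2.ne'
    have c3 : ((vv a b p.1 p.2 : ℕ) : ℂ) ≠ 0 := by exact_mod_cast (vv_pos a b p.1 p.2).ne'
    have c4 : ((uu a b p.1 p.2 : ℕ) : ℂ) ≠ 0 := by exact_mod_cast (uu_pos a b p.1 p.2).ne'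
    apply Continuous.continuousOn
    unfold tm pw
    exact ((((continuous_apply 0).const_add _).neg.const_cpow (Or.inl c1)).mul
      (((continuous_apply 2).const_add _).neg.const_cpow (Or.inl c2))).mul
      ((((continuous_apply 1).const_add _).neg.const_cpow (Or.inl c3)).mul
      (((continuous_apply 3).const_add _).neg.const_cpow (Or.inl c4)))
  · apply hb
    intro i
    rw [← dist_eq_norm]
    exact (dist_le_pi_dist u u₀ i).trans_lt hu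

theorem ee_bound (κ : ℝ) (hκ : 0 < κ) : ∃ C : ℝ, 0 < C ∧ ∀ (a b : ℕ+) (u : Fin 4 → ℂ), Nat.Coprime (a : ℕ) (b : ℕ) →
    κ ≤ (u 0 + u 3).re → κ ≤ (u 1 + u 2).re → κ ≤ (u 0 + u 2).re → -(1 / 10) ≤ (u 1).re → (u 1).re ≤ 0 →
    -(1 / 10) ≤ (u 3).re → (u 3).re ≤ 0 →
    ‖EE a b (u 0) (u 1) (u 2) (u 3)‖ ≤ C * ((a : ℕ) * (b : ℕ) : ℝ) ^ (-(1 / 2) + 1 / 9 : ℝ) := by
  obtain ⟨C, hC0, hC⟩ := div_fac (1 / 90) (by norm_num)
  have hZ := zk_nonneg κ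
  refine ⟨C * (∑' k : ℕ+, ((k : ℕ) : ℝ) ^ (-(1 + κ))) ^ 3 + 1, by positivity, ?_⟩
  intro a b u hab hP hQ hR h1 h1' h3 h3'
  have hmem : u ∈ RegE := ⟨by linarith, by linarith, by linarith⟩
  have ha : (1 : ℝ) ≤ (a : ℕ) := by exact_mod_cast a.2
  have hb : (1 : ℝ) ≤ (b : ℕ) := by exact_mod_cast b.2
  have hs := tm_summable a b hmem
  have e1 : EE a b (u 0) (u 1) (u 2) (u 3) = ∑' p, tm a b u p := rfl
  have hms := main_sum (A := 1 + (u 0 + u 3).re) (B := 1 + (u 1 + u 2).re)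
    (r := 1 + (u 1).re + (u 3).re) hκ (by linarith) (by linarith) (by linarith)
    (by simp only [add_re] at hP hQ hR ⊢; linarith)
    (by linarith) (by linarith) (by simp only [add_re] at hP hQ hR ⊢; linarith) a b hab
  have hdf := hC a b
  rw [e1]
  calc ‖∑' p, tm a b u p‖ ≤ ∑' p, ‖tm a b u p‖ := norm_tsum_le_tsum_norm hs
    _ = ((a : ℕ) : ℝ) ^ (-(1 / 2 + (u 3).re)) * ((b : ℕ) : ℝ) ^ (-(1 / 2 + (u 1).re)) *
        ∑' p : ℕ+ × ℕ+, (((p.1 : ℕ) : ℝ) ^ (-(1 + (u 0 + u 3).re)) *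
          ((p.2 : ℕ) : ℝ) ^ (-(1 + (u 1 + u 2).re)) *
          (gg a b p.1 p.2 : ℝ) ^ (1 + (u 1).re + (u 3).re)) := by
        rw [← tsum_mul_left]
        exact tsum_congr fun p => norm_tm a b u p
    _ ≤ ((a : ℕ) : ℝ) ^ (-(1 / 2) + 1 / 10 : ℝ) * ((b : ℕ) : ℝ) ^ (-(1 / 2) + 1 / 10 : ℝ) *
        ((C * (((a : ℕ) : ℝ) * ((b : ℕ) : ℝ)) ^ (1 / 90 : ℝ)) *
          (∑' k : ℕ+, ((k : ℕ) : ℝ) ^ (-(1 + κ))) ^ 3) := by
        have b1 : ((a : ℕ) : ℝ) ^ (-(1 / 2 + (u 3).re)) ≤ ((a : ℕ) : ℝ) ^ (-(1 / 2) + 1 / 10 : ℝ) :=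
          Real.rpow_le_rpow_of_exponent_le ha (by linarith)
        have b2 : ((b : ℕ) : ℝ) ^ (-(1 / 2 + (u 1).re)) ≤ ((b : ℕ) : ℝ) ^ (-(1 / 2) + 1 / 10 : ℝ) :=
          Real.rpow_le_rpow_of_exponent_le hb (by linarith)
        have b3 := hms.trans (mul_le_mul_of_nonneg_right hdf (by positivity))
        have n1 : 0 ≤ ∑' p : ℕ+ × ℕ+, (((p.1 : ℕ) : ℝ) ^ (-(1 + (u 0 + u 3).re)) *
          ((p.2 : ℕ) : ℝ) ^ (-(1 + (u 1 + u 2).re)) *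
          (gg a b p.1 p.2 : ℝ) ^ (1 + (u 1).re + (u 3).re)) := tsum_nonneg fun _ => by positivity
        exact mul_le_mul (mul_le_mul b1 b2 (by positivity) (by positivity)) b3 n1 (by positivity)
    _ = (C * (∑' k : ℕ+, ((k : ℕ) : ℝ) ^ (-(1 + κ))) ^ 3) *
        ((a : ℕ) * (b : ℕ) : ℝ) ^ (-(1 / 2) + 1 / 9 : ℝ) := by
        have e2 : ((a : ℕ) * (b : ℕ) : ℝ) ^ (-(1 / 2) + 1 / 9 : ℝ) =
            ((a : ℕ) : ℝ) ^ (-(1 / 2) + 1 / 10 : ℝ) * ((b : ℕ) : ℝ) ^ (-(1 / 2) + 1 / 10 : ℝ) *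
            (((a : ℕ) : ℝ) * ((b : ℕ) : ℝ)) ^ (1 / 90 : ℝ) := by
          rw [← Real.mul_rpow (by positivity) (by positivity), ← Real.rpow_add (by positivity)]
          congr 1
          norm_num
        rw [e2]
        ring
    _ ≤ _ := by
        apply mul_le_mul_of_nonneg_right _ (by positivity)
        linarith

theorem dd_bound (κ : ℝ) (hκ : 0 < κ) : ∃ C : ℝ, 0 < C ∧ ∀ (a b : ℕ+) (u : Fin 4 → ℂ), Nat.Coprime (a : ℕ) (b : ℕ) →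
    (∀ i, κ ≤ (u i).re) → ‖DD a b (u 0) (u 1) (u 2) (u 3)‖ ≤ C * ((a : ℕ) * (b : ℕ) : ℝ) ^ (-(1 / 2) : ℝ) := by
  obtain ⟨C, hC0, hC⟩ := div_fac κ hκ
  set Z : ℝ := ∑' k : ℕ+, ((k : ℕ) : ℝ) ^ (-(1 + 2 * κ)) with hZdef
  have hZ : 0 ≤ Z := zk_nonneg (2 * κ)
  refine ⟨C * Z ^ 3 * Z + 1, by positivity, ?_⟩
  intro a b u hab hu
  have hmem : u ∈ RegD := by
    refine ⟨?_, ?_, ?_, ?_⟩ <;> rw [add_re]
    · have := hu 0
      have := hu 3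
      linarith
    · have := hu 1
      have := hu 2
      linarith
    · have := hu 0
      have := hu 2
      linarith
    · have := hu 1
      have := hu 3
      linarith
  set v : Fin 4 → ℂ := fun _ => (κ : ℂ) with hv
  have hvre : ∀ i, (v i).re = κ := fun i => by simp [hv]
  have hvD : v ∈ RegD := by
    refine ⟨?_, ?_, ?_, ?_⟩ <;> simp only [add_re, hvre] <;> linarith
  have hvE : v ∈ RegE := ⟨hvD.1, hvD.2.1, hvD.2.2.1⟩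
  have ha : (0 : ℝ) < (a : ℕ) := by exact_mod_cast a.2
  have hb : (0 : ℝ) < (b : ℕ) := by exact_mod_cast b.2
  have e1 : DD a b (u 0) (u 1) (u 2) (u 3) = ∑' q, td a b u q := rfl
  have hle : ∀ q, ‖td a b u q‖ ≤ ‖td a b v q‖ := by
    intro q
    unfold td
    split_ifs
    · rw [norm_mul, norm_mul, norm_mul, norm_mul, norm_mul, norm_mul, norm_pw, norm_pw, norm_pw,
        norm_pw, norm_pw, norm_pw, norm_pw, norm_pw]
      have key : ∀ (x : ℕ+) (i : Fin 4), ((x : ℕ) : ℝ) ^ (-(1 / 2 + (u i).re)) ≤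
          ((x : ℕ) : ℝ) ^ (-(1 / 2 + (v i).re)) := by
        intro x i
        have hx : (1 : ℝ) ≤ (x : ℕ) := by exact_mod_cast x.2
        apply Real.rpow_le_rpow_of_exponent_le hx
        rw [hvre i]
        have := hu i
        linarith
      have k0 := key q.1.1 0
      have k1 := key q.1.2 1
      have k2 := key q.2.1 2
      have k3 := key q.2.2 3
      gcongr
    · exact le_rfl
  have hms := main_sum (κ := 2 * κ) (A := 1 + 2 * κ) (B := 1 + 2 * κ) (r := 1 + 2 * κ)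
    (by positivity) (by positivity) le_rfl le_rfl (by linarith) le_rfl le_rfl (by linarith) a b hab
  have hdf := hC a b
  have hZk : ∑' k : ℕ+, ‖((k : ℕ) : ℂ) ^ (-(1 + v 1 + v 3))‖ = Z := by
    refine tsum_congr fun k => ?_
    rw [Complex.norm_natCast_cpow_of_pos k.pos]
    congr 1
    simp only [neg_re, add_re, one_re, hvre]
    ring
  rw [e1]
  calc ‖∑' q, td a b u q‖ ≤ ∑' q, ‖td a b u q‖ := norm_tsum_le_tsum_norm (td_summable a b hmem)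
    _ ≤ ∑' q, ‖td a b v q‖ := (td_summable a b hmem).tsum_le_tsum hle (td_summable a b hvD)
    _ = (∑' p, ‖tm a b v p‖) * Z := by rw [tsum_norm_td a b hvD, hZk]
    _ = (((a : ℕ) : ℝ) ^ (-(1 / 2 + κ)) * ((b : ℕ) : ℝ) ^ (-(1 / 2 + κ)) *
        ∑' p : ℕ+ × ℕ+, (((p.1 : ℕ) : ℝ) ^ (-(1 + 2 * κ)) * ((p.2 : ℕ) : ℝ) ^ (-(1 + 2 * κ)) *
          (gg a b p.1 p.2 : ℝ) ^ (1 + 2 * κ))) * Z := by
        congr 1
        rw [← tsum_mul_left]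
        refine tsum_congr fun p => ?_
        rw [norm_tm]
        simp only [add_re, hvre]
        rw [show 1 + (κ + κ) = 1 + 2 * κ by ring, show 1 + κ + κ = 1 + 2 * κ by ring]
    _ ≤ (((a : ℕ) : ℝ) ^ (-(1 / 2 + κ)) * ((b : ℕ) : ℝ) ^ (-(1 / 2 + κ)) *
        ((C * (((a : ℕ) : ℝ) * ((b : ℕ) : ℝ)) ^ κ) * Z ^ 3)) * Z := by
        have b3 := hms.trans (mul_le_mul_of_nonneg_right hdf (by positivity))
        gcongr
    _ = (C * Z ^ 3 * Z) * ((a : ℕ) * (b : ℕ) : ℝ) ^ (-(1 / 2) : ℝ) := by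
        have e2 : ((a : ℕ) * (b : ℕ) : ℝ) ^ (-(1 / 2) : ℝ) =
            ((a : ℕ) : ℝ) ^ (-(1 / 2 + κ)) * ((b : ℕ) : ℝ) ^ (-(1 / 2 + κ)) *
            (((a : ℕ) : ℝ) * ((b : ℕ) : ℝ)) ^ κ := by
          rw [← Real.mul_rpow ha.le hb.le, ← Real.rpow_add (by positivity)]
          congr 1
          ring
        rw [e2]
        ring
    _ ≤ _ := by
        apply mul_le_mul_of_nonneg_right _ (by positivity)
        linarith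

end Pool.Agent.P07318f
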