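import Pool.Agent.Lib.P07318f.EulerG
import Pool.Agent.Lib.P07318f.EEreg
import Pool.Agent.Lib.P07318s.EulerD2

/-!
# The Dirichlet series of the diagonal terms

`euler_g` with `k = 3`, `z = (u₀+ix, u₁+ix, w+iy)`, `z' = (-u₂+ix, -u₃+ix, -w+iy)`: `GG z z' = ∑_N hh(1/2+z)(N) hh(1/2-z')(N)`, and expanding the
coefficients (`hh` is a finite sum over `Nat.finMulAntidiag 3 N`) this is the absolutely convergent sum over all `(m₁, m₂, a; n₁, n₂, b)` with
`m₁ m₂ a = n₁ n₂ b` of `m₁^(-1/2-u₀-ix) m₂^(-1/2-u₁-ix) a^(-1/2-w-iy) n₁^(-1/2-u₂+ix) n₂^(-1/2-u₃+ix) b^(-1/2-w+iy)`. Since `m₁m₂/(n₁n₂) = b/a`, the phase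
is `(a/b)^(-i(y-x)) = ex (y-x) (a,b)`, and the sum over `m, n` for given `p = (a,b)` is `hgt p^(-1/2-w) ex (y-x) p DD a b u`.
See `ed2_*` in P07318s/EulerD2.lean for the same rearrangement (sigma type over `N` of pairs of factorisations).
Absolute convergence: real parts `≥ c > 0` of all variables: `∑_N d_3(N)² N^(-1-2c)`.
-/

set_option autoImplicit false

namespace Pool.Agent.P07318f

open MeasureTheory Complex Pool.Agent.P07318s

namespace DirDAux

/-- the arguments of `G3` -/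
noncomputable def zz (x y : ℝ) (u : Fin 4 → ℂ) (w : ℂ) : Fin 3 → ℂ :=
  ![u 0 + x * I, u 1 + x * I, w + y * I]

noncomputable def zz' (x y : ℝ) (u : Fin 4 → ℂ) (w : ℂ) : Fin 3 → ℂ :=
  ![-u 2 + x * I, -u 3 + x * I, -w + y * I]

/-- the term of a tuple of fractions -/
noncomputable def ff (z z' : Fin 3 → ℂ) (p : Fin 3 → ℕ+ × ℕ+) : ℂ :=
  ∏ j, (((p j).1 : ℕ) : ℂ) ^ (-(1 / 2 + z j)) * (((p j).2 : ℕ) : ℂ) ^ (-(1 / 2 - z' j))

theorem ff_norm (z z' : Fin 3 → ℂ) {c : ℝ} (hz : ∀ j, c ≤ (z j).re) (hz' : ∀ j, (z' j).re ≤ -c)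
    (p : Fin 3 → ℕ+ × ℕ+) : ‖ff z z' p‖ ≤ ∏ j, (hgt (p j)) ^ (-(1 / 2 + c)) := by
  unfold ff
  rw [norm_prod]
  refine Finset.prod_le_prod (fun _ _ => norm_nonneg _) fun j _ => ?_
  have h1 : (1 : ℝ) ≤ (((p j).1 : ℕ) : ℝ) := by exact_mod_cast (p j).1.2
  have h2 : (1 : ℝ) ≤ (((p j).2 : ℕ) : ℝ) := by exact_mod_cast (p j).2.2
  rw [norm_mul, Complex.norm_natCast_cpow_of_pos (PNat.pos _),
    Complex.norm_natCast_cpow_of_pos (PNat.pos _)]
  unfold hgt
  rw [Real.mul_rpow (by positivity) (by positivity)]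
  refine mul_le_mul (Real.rpow_le_rpow_of_exponent_le h1 ?_)
    (Real.rpow_le_rpow_of_exponent_le h2 ?_) (by positivity) (by positivity)
  · have : (-(1 / 2 + z j)).re = -(1 / 2 + (z j).re) := by simp
    rw [this]
    linarith [hz j]
  · have : (-(1 / 2 - z' j)).re = -(1 / 2 - (z' j).re) := by simp
    rw [this]
    linarith [hz' j]

theorem ff_hasSum (z z' : Fin 3 → ℂ) {c : ℝ} (hc : 0 < c) (hz : ∀ j, c ≤ (z j).re)
    (hz' : ∀ j, (z' j).re ≤ -c) :
    HasSum (fun p : Fin 3 → ℕ+ × ℕ+ => if lam p = 0 then ff z z' p else 0) (GG z z') := by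
  have hmain : HasSum (fun y : Ed2S 3 => ff z z' (ed2_map y).1) (GG z z') := by
    refine HasSum.sigma_of_hasSum (euler_g z z' (fun j => hc.trans_le (hz j))
      (fun j => (hz' j).trans_lt (by linarith))).2 (fun N => ?_) ?_
    · have h1 := hasSum_fintype (fun y : (Nat.finMulAntidiag 3 N) × (Nat.finMulAntidiag 3 N) =>
        ff z z' (ed2_map (⟨N, y⟩ : Ed2S 3)).1)
      convert! h1 using 1
      rw [Fintype.sum_prod_type]
      unfold hh
      rw [Finset.sum_mul_sum, ← Finset.sum_coe_sort (Nat.finMulAntidiag 3 N)]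
      refine Finset.sum_congr rfl fun m _ => ?_
      rw [← Finset.sum_coe_sort (Nat.finMulAntidiag 3 N)]
      refine Finset.sum_congr rfl fun n _ => ?_
      rw [← Finset.prod_mul_distrib]
      rfl
    · refine Summable.of_norm_bounded (ed2_summable_aux c hc) fun y => ?_
      exact ff_norm z z' hz hz' _
  have h2 := (ed2_hasSum_iff (fun p : Fin 3 → ℕ+ × ℕ+ => ff z z' p) (GG z z')).2 hmain
  convert! h2

theorem ff_summable (z z' : Fin 3 → ℂ) {c : ℝ} (hc : 0 < c) (hz : ∀ j, c ≤ (z j).re)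
    (hz' : ∀ j, (z' j).re ≤ -c) :
    Summable (fun p : Fin 3 → ℕ+ × ℕ+ => ‖if lam p = 0 then ff z z' p else 0‖) := by
  refine Summable.of_nonneg_of_le (fun _ => norm_nonneg _) (fun p => ?_)
    (euler_D2_summable (k := 3) c hc)
  by_cases h : lam p = 0
  · rw [if_pos h, if_pos h]
    exact ff_norm z z' hz hz' p
  · rw [if_neg h, if_neg h, norm_zero]

/-- the rearrangement -/
def eqv : (Fin 3 → ℕ+ × ℕ+) ≃ (ℕ+ × ℕ+) × ((ℕ+ × ℕ+) × (ℕ+ × ℕ+)) where
  toFun p := (p 2, (((p 0).1, (p 1).1), ((p 0).2, (p 1).2)))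
  invFun r := ![(r.2.1.1, r.2.2.1), (r.2.1.2, r.2.2.2), r.1]
  left_inv p := by
    funext j
    fin_cases j <;> rfl
  right_inv r := rfl

/-- the rearranged term -/
noncomputable def gg (x y : ℝ) (u : Fin 4 → ℂ) (w : ℂ)
    (r : (ℕ+ × ℕ+) × ((ℕ+ × ℕ+) × (ℕ+ × ℕ+))) : ℂ :=
  ((hgt r.1 : ℝ) : ℂ) ^ (-(1 / 2 + w)) * ex (y - x) r.1 *
    (if r.1.1 * r.2.1.1 * r.2.1.2 = r.1.2 * r.2.2.1 * r.2.2.2 then
      pw r.2.1.1 (u 0) * pw r.2.1.2 (u 1) * (pw r.2.2.1 (u 2) * pw r.2.2.2 (u 3)) else 0)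

theorem cpN (n : ℕ+) (z : ℂ) : (((n : ℕ) : ℂ)) ^ z = cexp (z * (Real.log (n : ℕ) : ℝ)) := by
  have h1 : (0 : ℝ) < ((n : ℕ) : ℝ) := by exact_mod_cast n.2
  have e1 : ((n : ℕ) : ℂ) = (((n : ℕ) : ℝ) : ℂ) := by norm_cast
  rw [e1, Complex.cpow_def_of_ne_zero (by exact_mod_cast h1.ne'), ← Complex.ofReal_log h1.le,
    mul_comm]

theorem eqv_apply (p : Fin 3 → ℕ+ × ℕ+) :
    eqv p = (p 2, (((p 0).1, (p 1).1), ((p 0).2, (p 1).2))) := rfl

theorem gg_eqv (x y : ℝ) (u : Fin 4 → ℂ) (w : ℂ) (p : Fin 3 → ℕ+ × ℕ+) :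
    gg x y u w (eqv p) = if lam p = 0 then ff (zz x y u w) (zz' x y u w) p else 0 := by
  have hiff : lam p = 0 ↔ (p 2).1 * (p 0).1 * (p 1).1 = (p 2).2 * (p 0).2 * (p 1).2 := by
    rw [ed2_lam, Fin.prod_univ_three, Fin.prod_univ_three, ← PNat.coe_inj]
    simp only [PNat.mul_coe]
    constructor
    · intro h
      calc _ = ((p 0).1 : ℕ) * ((p 1).1 : ℕ) * ((p 2).1 : ℕ) := by ring
        _ = _ := by rw [h]; ring
    · intro h
      calc _ = ((p 2).1 : ℕ) * ((p 0).1 : ℕ) * ((p 1).1 : ℕ) := by ring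
        _ = _ := by rw [h]; ring
  rw [eqv_apply]
  unfold gg
  dsimp only
  by_cases h : lam p = 0
  · rw [if_pos h, if_pos (hiff.1 h)]
    have hl : (lgr (p 0) : ℂ) + lgr (p 1) + lgr (p 2) = 0 := by
      unfold lam at h
      rw [Fin.sum_univ_three] at h
      exact_mod_cast h
    have h1 : (0 : ℝ) < (((p 2).1 : ℕ) : ℝ) := by exact_mod_cast (p 2).1.2
    have h2 : (0 : ℝ) < (((p 2).2 : ℕ) : ℝ) := by exact_mod_cast (p 2).2.2
    have hh2 : ((hgt (p 2) : ℝ) : ℂ) ^ (-(1 / 2 + w)) =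
        cexp (-(1 / 2 + w) * ((Real.log ((p 2).1 : ℕ) + Real.log ((p 2).2 : ℕ) : ℝ) : ℂ)) := by
      rw [Complex.cpow_def_of_ne_zero (by exact_mod_cast (hgt_pos (p 2)).ne'),
        ← Complex.ofReal_log (hgt_pos _).le, mul_comm]
      unfold hgt
      rw [Real.log_mul h1.ne' h2.ne']
    unfold ff zz zz' pw
    rw [Fin.prod_univ_three]
    simp only [Matrix.cons_val_zero, Matrix.cons_val_one,
      Matrix.cons_val_two, Matrix.head_cons, Matrix.tail_cons, Matrix.cons_val]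
    rw [hh2]
    simp only [cpN, ex]
    simp only [← Complex.exp_add]
    congr 1
    unfold lgr at hl ⊢
    push_cast at hl ⊢
    linear_combination (x : ℂ) * I * hl
  · rw [if_neg h, if_neg (fun h' => h (hiff.2 h')), mul_zero]

end DirDAux

open DirDAux in
theorem dir_d (x y : ℝ) (u : Fin 4 → ℂ) (w : ℂ) (hu : ∀ i, 0 < (u i).re) (hw : 0 < w.re) :
    (Summable fun p : ℕ+ × ℕ+ => ‖((hgt p : ℝ) : ℂ) ^ (-(1 / 2 + w)) * ex (y - x) p *
      DD p.1 p.2 (u 0) (u 1) (u 2) (u 3)‖) ∧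
    ∑' p : ℕ+ × ℕ+, ((hgt p : ℝ) : ℂ) ^ (-(1 / 2 + w)) * ex (y - x) p *
      DD p.1 p.2 (u 0) (u 1) (u 2) (u 3) = G3 x y u w := by
  obtain ⟨c1, hc1, hu1⟩ := ed_exists_min u hu
  set c : ℝ := min c1 w.re with hcdef
  have hc : 0 < c := lt_min hc1 hw
  have hcu : ∀ i, c ≤ (u i).re := fun i => (min_le_left _ _).trans (hu1 i)
  have hcw : c ≤ w.re := min_le_right _ _
  have hz : ∀ j, c ≤ (zz x y u w j).re := by
    intro j
    unfold zz
    fin_cases j
    · simpa using hcu 0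
    · simpa using hcu 1
    · simpa using hcw
  have hz' : ∀ j, (zz' x y u w j).re ≤ -c := by
    intro j
    unfold zz'
    fin_cases j
    · simpa using hcu 2
    · simpa using hcu 3
    · simpa using hcw
  have hS : HasSum (gg x y u w) (G3 x y u w) := by
    rw [← eqv.hasSum_iff]
    have h1 := ff_hasSum (zz x y u w) (zz' x y u w) hc hz hz'
    have h2 : gg x y u w ∘ eqv = fun p => if lam p = 0 then
        ff (zz x y u w) (zz' x y u w) p else 0 := by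
      funext p
      exact gg_eqv x y u w p
    rw [h2]
    exact h1
  have hN : Summable fun r => ‖gg x y u w r‖ := by
    rw [← eqv.summable_iff]
    have h1 := ff_summable (zz x y u w) (zz' x y u w) hc hz hz'
    refine h1.congr fun p => ?_
    rw [Function.comp_apply, gg_eqv]
  have hfib : ∀ p : ℕ+ × ℕ+, ∑' q, gg x y u w (p, q) =
      ((hgt p : ℝ) : ℂ) ^ (-(1 / 2 + w)) * ex (y - x) p * DD p.1 p.2 (u 0) (u 1) (u 2) (u 3) := by
    intro p
    unfold DD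
    rw [← tsum_mul_left]
    rfl
  have hfs : ∀ p : ℕ+ × ℕ+, Summable fun q => ‖gg x y u w (p, q)‖ := fun p => hN.prod_factor p
  constructor
  · refine Summable.of_nonneg_of_le (fun _ => norm_nonneg _) (fun p => ?_) hN.prod
    rw [← hfib]
    exact norm_tsum_le_tsum_norm (hfs p)
  · have h1 := hS.prod_fiberwise (fun p => (hfs p).of_norm.hasSum)
    simp_rw [hfib] at h1
    exact h1.tsum_eq

end Pool.Agent.P07318f
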