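import Pool.Agent.Lib.P07318f.DirD
import Pool.Agent.Lib.P07318s.Regroup

/-!
# The Dirichlet series of the zero frequency terms

Absolute convergence by sums over `gcd (a m, b n)`; the identity for positive real parts is `dir_d`
regrouped over the reduced fractions, and the general case follows by the identity theorem along the
line `u + t (1, 1, 1, 1)`.
-/

set_option autoImplicit false

namespace Pool.Agent.P07318f

open MeasureTheory Complex Pool.Agent.P07318s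

namespace DirZAux

open EEregAux Regroup

/-- sums over products of two variables -/
theorem sum_prod_div (h : ℕ+ × ℕ+ → ℝ) (h0 : ∀ P, 0 ≤ h P)
    (hs : Summable fun P : ℕ+ × ℕ+ =>
      ((P.1 : ℕ).divisors.card : ℝ) * ((P.2 : ℕ).divisors.card : ℝ) * h P) :
    Summable fun x : (ℕ+ × ℕ+) × (ℕ+ × ℕ+) => h (x.1.1 * x.1.2, x.2.1 * x.2.2) := by
  classical
  set F : (ℕ+ × ℕ+) × (ℕ+ × ℕ+) → ℝ := fun y =>
    if (y.2.1 : ℕ) ∣ (y.1.1 : ℕ) ∧ (y.2.2 : ℕ) ∣ (y.1.2 : ℕ) then h y.1 else 0 with hF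
  have hF0 : ∀ y, 0 ≤ F y := fun y => by
    rw [hF]
    dsimp only
    split_ifs
    exacts [h0 _, le_rfl]
  have key : ∀ (P : ℕ+ × ℕ+) (s : Finset (ℕ+ × ℕ+)), ∑ d ∈ s, F (P, d) ≤
      ((P.1 : ℕ).divisors.card : ℝ) * ((P.2 : ℕ).divisors.card : ℝ) * h P := by
    intro P s
    rw [hF]
    dsimp only
    rw [← Finset.sum_filter, Finset.sum_const, nsmul_eq_mul]
    refine mul_le_mul_of_nonneg_right ?_ (h0 P)
    have hc : (s.filter fun d => (d.1 : ℕ) ∣ (P.1 : ℕ) ∧ (d.2 : ℕ) ∣ (P.2 : ℕ)).card ≤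
        ((P.1 : ℕ).divisors ×ˢ (P.2 : ℕ).divisors).card := by
      refine Finset.card_le_card_of_injOn (fun d => ((d.1 : ℕ), (d.2 : ℕ))) ?_ ?_
      · intro d hd
        have hd' := (Finset.mem_filter.1 (Finset.mem_coe.1 hd)).2
        exact Finset.mem_coe.2 (Finset.mem_product.2
          ⟨Nat.mem_divisors.2 ⟨hd'.1, P.1.2.ne'⟩, Nat.mem_divisors.2 ⟨hd'.2, P.2.2.ne'⟩⟩)
      · intro d _ e _ hde
        have h1 := congrArg Prod.fst hde
        have h2 := congrArg Prod.snd hde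
        exact Prod.ext (PNat.eq h1) (PNat.eq h2)
    rw [Finset.card_product] at hc
    exact_mod_cast hc
  have hsF : Summable F := by
    rw [summable_prod_of_nonneg hF0]
    refine ⟨fun P => summable_of_sum_le (fun d => hF0 _) (key P), ?_⟩
    exact Summable.of_nonneg_of_le (fun P => tsum_nonneg fun d => hF0 _)
      (fun P => Real.tsum_le_of_sum_le (fun d => hF0 _) (key P)) hs
  have hinj : Function.Injective fun x : (ℕ+ × ℕ+) × (ℕ+ × ℕ+) =>
      (((x.1.1 * x.1.2, x.2.1 * x.2.2), (x.1.1, x.2.1)) : (ℕ+ × ℕ+) × (ℕ+ × ℕ+)) := by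
    rintro ⟨⟨a, m⟩, ⟨b, n⟩⟩ ⟨⟨a', m'⟩, ⟨b', n'⟩⟩ hx
    simp only [Prod.mk.injEq] at hx
    obtain ⟨⟨h1, h2⟩, h3, h4⟩ := hx
    subst h3 h4
    have h5 := mul_left_cancel h1
    have h6 := mul_left_cancel h2
    subst h5 h6
    rfl
  refine (hsF.comp_injective hinj).congr fun x => ?_
  rw [hF]
  simp only [Function.comp_apply, PNat.mul_coe]
  rw [if_pos ⟨Dvd.intro _ rfl, Dvd.intro _ rfl⟩]

theorem sum_four {A B C D r : ℝ} (hA : 0 < A) (hB : 0 < B) (hC : 0 < C) (hD : 0 < D)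
    (h1 : r < 1 + A + B) (h2 : r < 1 + A + D) (h3 : r < 1 + C + B) (h4 : r < 1 + C + D) :
    Summable fun x : (ℕ+ × ℕ+) × (ℕ+ × ℕ+) =>
      ((x.1.1 : ℕ) : ℝ) ^ (-(1 + A)) * ((x.1.2 : ℕ) : ℝ) ^ (-(1 + C)) *
        (((x.2.1 : ℕ) : ℝ) ^ (-(1 + B)) * ((x.2.2 : ℕ) : ℝ) ^ (-(1 + D))) *
          (gg x.1.1 x.2.1 x.1.2 x.2.2 : ℝ) ^ r := by
  obtain ⟨α, β, hα, hβ, hαA, hαC, hβB, hβD, hr⟩ : ∃ α β : ℝ, 0 < α ∧ 0 < β ∧ α ≤ A ∧ α ≤ C ∧ β ≤ B ∧
      β ≤ D ∧ r < 1 + α + β := by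
    refine ⟨min A C, min B D, lt_min hA hC, lt_min hB hD, min_le_left _ _, min_le_right _ _,
      min_le_left _ _, min_le_right _ _, ?_⟩
    rcases min_choice A C with e | e <;> rcases min_choice B D with e' | e' <;> rw [e, e'] <;>
      assumption
  obtain ⟨ε, hε, hεα, hεβ, hεr⟩ : ∃ ε : ℝ, 0 < ε ∧ ε < α ∧ ε < β ∧ r < 1 + α + β - 2 * ε := by
    refine ⟨min (min (α / 2) (β / 2)) ((1 + α + β - r) / 4), ?_, ?_, ?_, ?_⟩
    · refine lt_min (lt_min (by linarith) (by linarith)) (by linarith)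
    · exact ((min_le_left _ _).trans (min_le_left _ _)).trans_lt (by linarith)
    · exact ((min_le_left _ _).trans (min_le_right _ _)).trans_lt (by linarith)
    · have := min_le_right (min (α / 2) (β / 2)) ((1 + α + β - r) / 4)
      linarith
  obtain ⟨K, hK1, hK⟩ := Pool.Agent.Lib.P5632c9.card_divisors_le ε hε
  have hK0 : 0 ≤ K := by linarith
  have base := (sum_gcd (A := 1 + α - ε) (B := 1 + β - ε) (r := r) (by linarith) (by linarith)
    (by linarith)).mul_left (K * K)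
  have s1 : Summable fun P : ℕ+ × ℕ+ =>
      ((P.1 : ℕ).divisors.card : ℝ) * ((P.2 : ℕ).divisors.card : ℝ) *
        (((P.1 : ℕ) : ℝ) ^ (-(1 + α)) * ((P.2 : ℕ) : ℝ) ^ (-(1 + β)) *
          (Nat.gcd P.1 P.2 : ℝ) ^ r) := by
    refine Summable.of_nonneg_of_le (fun P => by positivity) (fun P => ?_) base
    have p1 : (0 : ℝ) < (P.1 : ℕ) := by exact_mod_cast P.1.2
    have p2 : (0 : ℝ) < (P.2 : ℕ) := by exact_mod_cast P.2.2
    have d1 := hK P.1 P.1.2.ne'
    have d2 := hK P.2 P.2.2.ne'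
    have e1 : ((P.1 : ℕ) : ℝ) ^ (-(1 + α - ε)) = ((P.1 : ℕ) : ℝ) ^ ε * ((P.1 : ℕ) : ℝ) ^ (-(1 + α)) := by
      rw [← Real.rpow_add p1]
      congr 1
      ring
    have e2 : ((P.2 : ℕ) : ℝ) ^ (-(1 + β - ε)) = ((P.2 : ℕ) : ℝ) ^ ε * ((P.2 : ℕ) : ℝ) ^ (-(1 + β)) := by
      rw [← Real.rpow_add p2]
      congr 1
      ring
    rw [e1, e2]
    calc _ ≤ (K * ((P.1 : ℕ) : ℝ) ^ ε) * (K * ((P.2 : ℕ) : ℝ) ^ ε) *
        (((P.1 : ℕ) : ℝ) ^ (-(1 + α)) * ((P.2 : ℕ) : ℝ) ^ (-(1 + β)) *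
          (Nat.gcd P.1 P.2 : ℝ) ^ r) := by gcongr
      _ = _ := by ring
  have s2 := sum_prod_div (fun P => ((P.1 : ℕ) : ℝ) ^ (-(1 + α)) * ((P.2 : ℕ) : ℝ) ^ (-(1 + β)) *
          (Nat.gcd P.1 P.2 : ℝ) ^ r) (fun P => by positivity) s1
  refine Summable.of_nonneg_of_le (fun x => by positivity) (fun x => ?_) s2
  have p1 : (1 : ℝ) ≤ (x.1.1 : ℕ) := by exact_mod_cast x.1.1.2
  have p2 : (1 : ℝ) ≤ (x.1.2 : ℕ) := by exact_mod_cast x.1.2.2
  have p3 : (1 : ℝ) ≤ (x.2.1 : ℕ) := by exact_mod_cast x.2.1.2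
  have p4 : (1 : ℝ) ≤ (x.2.2 : ℕ) := by exact_mod_cast x.2.2.2
  have q1 : ((x.1.1 : ℕ) : ℝ) ^ (-(1 + A)) ≤ ((x.1.1 : ℕ) : ℝ) ^ (-(1 + α)) :=
    Real.rpow_le_rpow_of_exponent_le p1 (by linarith)
  have q2 : ((x.1.2 : ℕ) : ℝ) ^ (-(1 + C)) ≤ ((x.1.2 : ℕ) : ℝ) ^ (-(1 + α)) :=
    Real.rpow_le_rpow_of_exponent_le p2 (by linarith)
  have q3 : ((x.2.1 : ℕ) : ℝ) ^ (-(1 + B)) ≤ ((x.2.1 : ℕ) : ℝ) ^ (-(1 + β)) :=
    Real.rpow_le_rpow_of_exponent_le p3 (by linarith)
  have q4 : ((x.2.2 : ℕ) : ℝ) ^ (-(1 + D)) ≤ ((x.2.2 : ℕ) : ℝ) ^ (-(1 + β)) :=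
    Real.rpow_le_rpow_of_exponent_le p4 (by linarith)
  have e5 : (Nat.gcd ((x.1.1 * x.1.2 : ℕ+) : ℕ) ((x.2.1 * x.2.2 : ℕ+) : ℕ) : ℝ) =
      (gg x.1.1 x.2.1 x.1.2 x.2.2 : ℝ) := by
    simp only [PNat.mul_coe, gg]
  simp only []
  rw [e5, PNat.mul_coe, PNat.mul_coe, Nat.cast_mul, Nat.cast_mul,
    Real.mul_rpow (by positivity) (by positivity), Real.mul_rpow (by positivity) (by positivity)]
  gcongr

theorem sum_all {u : Fin 4 → ℂ} {w : ℂ} (hu : u ∈ RegE) (hw : 0 < w.re)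
    (huw : ∀ i, 0 < (u i + w).re) :
    Summable fun x : (ℕ+ × ℕ+) × (ℕ+ × ℕ+) =>
      (hgt x.1) ^ (-(1 / 2 + w.re)) * ‖tm x.1.1 x.1.2 u x.2‖ := by
  obtain ⟨hP, hQ, hR⟩ := hu
  have a0 := huw 0
  have a1 := huw 1
  have a2 := huw 2
  have a3 := huw 3
  simp only [add_re] at hP hQ hR a0 a1 a2 a3
  have h := sum_four (A := w.re + (u 3).re) (B := w.re + (u 1).re) (C := (u 0).re + (u 3).re)
    (D := (u 1).re + (u 2).re) (r := 1 + (u 1).re + (u 3).re) (by linarith) (by linarith)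
    (by linarith) (by linarith) (by linarith) (by linarith) (by linarith) (by linarith)
  have h' := (Equiv.prodProdProdComm ℕ+ ℕ+ ℕ+ ℕ+).summable_iff.2 h
  refine h'.congr fun x => ?_
  obtain ⟨⟨a, b⟩, ⟨m, n⟩⟩ := x
  have ha : (0 : ℝ) < (a : ℕ) := by exact_mod_cast a.2
  have hb : (0 : ℝ) < (b : ℕ) := by exact_mod_cast b.2
  simp only [Function.comp_apply, Equiv.prodProdProdComm_apply, norm_tm, hgt, add_re]
  rw [Real.mul_rpow ha.le hb.le]
  have e1 : ((a : ℕ) : ℝ) ^ (-(1 + (w.re + (u 3).re))) =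
      ((a : ℕ) : ℝ) ^ (-(1 / 2 + w.re)) * ((a : ℕ) : ℝ) ^ (-(1 / 2 + (u 3).re)) := by
    rw [← Real.rpow_add ha]
    congr 1
    ring
  have e2 : ((b : ℕ) : ℝ) ^ (-(1 + (w.re + (u 1).re))) =
      ((b : ℕ) : ℝ) ^ (-(1 / 2 + w.re)) * ((b : ℕ) : ℝ) ^ (-(1 / 2 + (u 1).re)) := by
    rw [← Real.rpow_add hb]
    congr 1
    ring
  rw [e1, e2]
  ring

/-- majorant of the terms of the sum over the reduced fractions -/
noncomputable def MQ (u : Fin 4 → ℂ) (c : ℝ) (q : Q) : ℝ :=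
  (hgt q.1) ^ (-(1 / 2 + c)) * ∑' p, ‖tm q.1.1 q.1.2 u p‖

theorem MQ_nonneg (u : Fin 4 → ℂ) (c : ℝ) (q : Q) : 0 ≤ MQ u c q :=
  mul_nonneg (Real.rpow_nonneg (hgt_pos _).le _) (tsum_nonneg fun _ => norm_nonneg _)

theorem sum_MQ {u : Fin 4 → ℂ} {w : ℂ} (hu : u ∈ RegE) (hw : 0 < w.re)
    (huw : ∀ i, 0 < (u i + w).re) : Summable (MQ u w.re) := by
  have h := sum_all hu hw huw
  have hinj : Function.Injective fun x : Q × (ℕ+ × ℕ+) => ((x.1.1, x.2) : (ℕ+ × ℕ+) × (ℕ+ × ℕ+)) := by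
    rintro ⟨q, p⟩ ⟨q', p'⟩ hx
    simp only [Prod.mk.injEq] at hx
    exact Prod.ext (Subtype.ext hx.1) hx.2
  have h' := (h.comp_injective hinj).prod
  refine h'.congr fun q => ?_
  simp only [Function.comp_apply]
  rw [tsum_mul_left]
  rfl

theorem norm_EE_le (a b : ℕ+) {u : Fin 4 → ℂ} (hu : u ∈ RegE) :
    ‖EE a b (u 0) (u 1) (u 2) (u 3)‖ ≤ ∑' p, ‖tm a b u p‖ :=
  norm_tsum_le_tsum_norm (f := tm a b u) (tm_summable a b hu)

/-- the norms of the terms decrease with the real parts -/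
theorem tm_mono (a b : ℕ+) {u v : Fin 4 → ℂ} (h : ∀ i, (u i).re ≤ (v i).re) (p : ℕ+ × ℕ+) :
    ‖tm a b v p‖ ≤ ‖tm a b u p‖ := by
  have c1 : (1 : ℝ) ≤ ((p.1 : ℕ) : ℝ) := by exact_mod_cast p.1.2
  have c2 : (1 : ℝ) ≤ ((p.2 : ℕ) : ℝ) := by exact_mod_cast p.2.2
  have c3 : (1 : ℝ) ≤ ((vv a b p.1 p.2 : ℕ) : ℝ) := by exact_mod_cast vv_pos a b p.1 p.2
  have c4 : (1 : ℝ) ≤ ((uu a b p.1 p.2 : ℕ) : ℝ) := by exact_mod_cast uu_pos a b p.1 p.2
  have h0 := h 0
  have h1 := h 1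
  have h2 := h 2
  have h3 := h 3
  unfold tm
  rw [norm_mul, norm_mul, norm_mul, norm_mul, norm_mul, norm_mul, norm_pw, norm_pw, norm_pw,
    norm_pw, norm_cp (vv_pos a b p.1 p.2), norm_cp (uu_pos a b p.1 p.2),
    norm_cp (vv_pos a b p.1 p.2), norm_cp (uu_pos a b p.1 p.2)]
  gcongr <;> assumption

theorem MQ_mono {u v : Fin 4 → ℂ} (hu : u ∈ RegE) (hv : v ∈ RegE) (h : ∀ i, (u i).re ≤ (v i).re)
    (c : ℝ) (q : Q) : MQ v c q ≤ MQ u c q := by
  unfold MQ
  refine mul_le_mul_of_nonneg_left ?_ (Real.rpow_nonneg (hgt_pos _).le _)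
  exact Summable.tsum_le_tsum (fun p => tm_mono _ _ h p) (tm_summable _ _ hv) (tm_summable _ _ hu)

theorem norm_hgt_cpow (p : ℕ+ × ℕ+) (w : ℂ) :
    ‖((hgt p : ℝ) : ℂ) ^ (-(1 / 2 + w))‖ = (hgt p) ^ (-(1 / 2 + w.re)) := by
  rw [Complex.norm_cpow_eq_rpow_re_of_pos (hgt_pos p)]
  simp

/-- a term of the sum over the reduced fractions -/
noncomputable def TQ (x : ℝ) (w : ℂ) (u : Fin 4 → ℂ) (q : Q) : ℂ :=
  ((hgt q.1 : ℝ) : ℂ) ^ (-(1 / 2 + w)) * ex x q.1 * EE q.1.1 q.1.2 (u 0) (u 1) (u 2) (u 3)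

theorem norm_TQ (x : ℝ) (w : ℂ) {u : Fin 4 → ℂ} (hu : u ∈ RegE) (q : Q) :
    ‖TQ x w u q‖ ≤ MQ u w.re q := by
  unfold TQ MQ
  rw [norm_mul, norm_mul, norm_hgt_cpow, norm_ex, mul_one]
  exact mul_le_mul_of_nonneg_left (norm_EE_le _ _ hu) (Real.rpow_nonneg (hgt_pos _).le _)

theorem DD_smul (g a b : ℕ+) (u1 u2 u3 u4 : ℂ) : DD (g * a) (g * b) u1 u2 u3 u4 = DD a b u1 u2 u3 u4 := by
  unfold DD
  refine tsum_congr fun q => ?_
  have h : (g * a * q.1.1 * q.1.2 = g * b * q.2.1 * q.2.2) ↔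
      (a * q.1.1 * q.1.2 = b * q.2.1 * q.2.2) := by
    rw [mul_assoc g, mul_assoc g, mul_assoc g, mul_assoc g, mul_right_inj]
  simp only [h]

theorem hgt_cpow_gm (z : Q × ℕ+) (w : ℂ) : ((hgt (gm z) : ℝ) : ℂ) ^ (-(1 / 2 + w)) =
    ((hgt z.1.1 : ℝ) : ℂ) ^ (-(1 / 2 + w)) * ((z.2 : ℕ) : ℂ) ^ (-(1 + 2 * w)) := by
  have hg := gpos z.2
  have hg0 : ((z.2 : ℕ) : ℂ) ≠ 0 := by exact_mod_cast z.2.2.ne'
  rw [hgt_gm, show ((z.2 : ℕ) : ℝ) ^ 2 * hgt z.1.1 = ((z.2 : ℕ) : ℝ) * (((z.2 : ℕ) : ℝ) * hgt z.1.1) by ring,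
    ofReal_mul, Complex.mul_cpow_ofReal_nonneg hg.le (mul_nonneg hg.le (hgt_pos _).le), ofReal_mul,
    Complex.mul_cpow_ofReal_nonneg hg.le (hgt_pos _).le, ofReal_natCast,
    show (-(1 + 2 * w)) = -(1 / 2 + w) + -(1 / 2 + w) by ring, Complex.cpow_add _ _ hg0]
  ring

/-- the case of positive real parts -/
theorem pos_case (x y : ℝ) (u : Fin 4 → ℂ) (w : ℂ) (hu : ∀ i, 0 < (u i).re) (hw : 0 < w.re) :
    riemannZeta (1 + u 1 + u 3) * (riemannZeta (1 + 2 * w) * ∑' q : Q, TQ (y - x) w u q) =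
      G3 x y u w := by
  have h0 := hu 0
  have h1 := hu 1
  have h2 := hu 2
  have h3 := hu 3
  have huE : u ∈ RegE := by
    refine ⟨?_, ?_, ?_⟩ <;> rw [add_re] <;> linarith
  have huD : u ∈ RegD := by
    refine ⟨?_, ?_, ?_, ?_⟩ <;> rw [add_re] <;> linarith
  have hD := (dir_d x y u w hu hw).2
  have hz : 1 < (1 + 2 * w).re := by
    have e : (1 + 2 * w).re = 1 + 2 * w.re := by simp
    rw [e]
    linarith
  have hsQ : Summable fun q : Q => ‖riemannZeta (1 + u 1 + u 3) * TQ (y - x) w u q‖ := by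
    have h := (sum_MQ huE hw (fun i => by rw [add_re]; exact add_pos (hu i) hw)).mul_left
      ‖riemannZeta (1 + u 1 + u 3)‖
    refine Summable.of_nonneg_of_le (fun _ => norm_nonneg _) (fun q => ?_) h
    rw [norm_mul]
    exact mul_le_mul_of_nonneg_left (norm_TQ _ _ huE q) (norm_nonneg _)
  rw [← hD, ← ge.tsum_eq]
  have e1 : ∀ z : Q × ℕ+, ((hgt (ge z) : ℝ) : ℂ) ^ (-(1 / 2 + w)) * ex (y - x) (ge z) *
      DD (ge z).1 (ge z).2 (u 0) (u 1) (u 2) (u 3) =
      riemannZeta (1 + u 1 + u 3) * TQ (y - x) w u z.1 * ((z.2 : ℕ) : ℂ) ^ (-(1 + 2 * w)) := by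
    intro z
    have e2 : DD (gm z).1 (gm z).2 (u 0) (u 1) (u 2) (u 3) =
        riemannZeta (1 + u 1 + u 3) * EE z.1.1.1 z.1.1.2 (u 0) (u 1) (u 2) (u 3) := by
      rw [← (dd_summable z.1.1.1 z.1.1.2 huD).2]
      exact DD_smul z.2 z.1.1.1 z.1.1.2 _ _ _ _
    rw [ge_apply, hgt_cpow_gm, ex_gm, e2]
    unfold TQ
    ring
  rw [tsum_congr e1, ← tsum_mul_tsum_of_summable_norm hsQ (zeta_pnat hz).1, ← (zeta_pnat hz).2,
    tsum_mul_left]
  ring

/-- `G3` without the factor `ζ(1 + u₁ + u₃)` -/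
noncomputable def Rst (x y : ℝ) (u : Fin 4 → ℂ) (w : ℂ) : ℂ :=
  AA ![u 0 + x * I, u 1 + x * I, w + y * I] ![-u 2 + x * I, -u 3 + x * I, -w + y * I] *
    (riemannZeta (1 + u 0 + u 2) * riemannZeta (1 + u 0 + u 3) * riemannZeta (1 + u 1 + u 2) *
      (riemannZeta (1 + u 0 + w + (x - y) * I) * riemannZeta (1 + u 1 + w + (x - y) * I) *
        (riemannZeta (1 + w + u 2 + (y - x) * I) * riemannZeta (1 + w + u 3 + (y - x) * I))) *
      riemannZeta (1 + 2 * w))

theorem G3_eq (x y : ℝ) (u : Fin 4 → ℂ) (w : ℂ) :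
    G3 x y u w = riemannZeta (1 + u 1 + u 3) * Rst x y u w := by
  unfold G3 GG Rst
  simp only [Fin.prod_univ_three, Matrix.cons_val_zero, Matrix.cons_val_one, Matrix.cons_val]
  rw [show 1 + (u 0 + x * I) - (-u 2 + x * I) = 1 + u 0 + u 2 by ring,
    show 1 + (u 0 + x * I) - (-u 3 + x * I) = 1 + u 0 + u 3 by ring,
    show 1 + (u 0 + x * I) - (-w + y * I) = 1 + u 0 + w + (x - y) * I by ring,
    show 1 + (u 1 + x * I) - (-u 2 + x * I) = 1 + u 1 + u 2 by ring,
    show 1 + (u 1 + x * I) - (-u 3 + x * I) = 1 + u 1 + u 3 by ring,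
    show 1 + (u 1 + x * I) - (-w + y * I) = 1 + u 1 + w + (x - y) * I by ring,
    show 1 + (w + y * I) - (-u 2 + x * I) = 1 + w + u 2 + (y - x) * I by ring,
    show 1 + (w + y * I) - (-u 3 + x * I) = 1 + w + u 3 + (y - x) * I by ring,
    show 1 + (w + y * I) - (-w + y * I) = 1 + 2 * w by ring]
  ring

theorem zeta_diff {f : ℂ → ℂ} {S : Set ℂ} (hf : DifferentiableOn ℂ f S)
    (h : ∀ t ∈ S, 1 < (f t).re) : DifferentiableOn ℂ (fun t => riemannZeta (f t)) S := by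
  intro t ht
  have h1 : f t ≠ 1 := by
    intro e
    have := h t ht
    rw [e, one_re] at this
    exact lt_irrefl _ this
  exact (differentiableAt_riemannZeta h1).comp_differentiableWithinAt t (hf t ht)

end DirZAux

open DirZAux EEregAux in
theorem dir_z (x y : ℝ) (u : Fin 4 → ℂ) (w : ℂ) (hu : u ∈ RegE) (hw : 0 < w.re) (hw1 : w.re ≤ 3 / 20)
    (huw : ∀ i, 0 < (u i + w).re) :
    (Summable fun q : Q => (hgt q.1) ^ (-(1 / 2 + w.re)) * ‖EE q.1.1 q.1.2 (u 0) (u 1) (u 2) (u 3)‖) ∧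
    riemannZeta (1 + u 1 + u 3) * (riemannZeta (1 + 2 * w) *
      ∑' q : Q, ((hgt q.1 : ℝ) : ℂ) ^ (-(1 / 2 + w)) * ex (y - x) q.1 *
        EE q.1.1 q.1.2 (u 0) (u 1) (u 2) (u 3)) = G3 x y u w := by
  constructor
  · refine Summable.of_nonneg_of_le (fun q => mul_nonneg (Real.rpow_nonneg (hgt_pos _).le _)
      (norm_nonneg _)) (fun q => ?_) (sum_MQ hu hw huw)
    exact mul_le_mul_of_nonneg_left (norm_EE_le _ _ hu) (Real.rpow_nonneg (hgt_pos _).le _)
  -- the identity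
  have hre : ∀ (t : ℂ) (i : Fin 4), (u i + t).re = (u i).re + t.re := fun t i => add_re _ _
  obtain ⟨ε, hε, hε1, hεP, hεQ, hεR, hεw⟩ : ∃ ε : ℝ, 0 < ε ∧ ε < 1 / 61 ∧ 2 * ε < (u 0 + u 3).re ∧
      2 * ε < (u 1 + u 2).re ∧ 2 * ε < (u 0 + u 2).re ∧ ∀ i, ε < (u i + w).re := by
    obtain ⟨hP, hQ, hR⟩ := hu
    have h0 := huw 0
    have h1 := huw 1
    have h2 := huw 2
    have h3 := huw 3
    set m := min (min (min (u 0 + u 3).re (u 1 + u 2).re) (min (u 0 + u 2).re (1 / 61)))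
      (min (min (u 0 + w).re (u 1 + w).re) (min (u 2 + w).re (u 3 + w).re)) with hm
    have hm0 : 0 < m := lt_min (lt_min (lt_min hP hQ) (lt_min hR (by norm_num)))
      (lt_min (lt_min h0 h1) (lt_min h2 h3))
    have m1 : m ≤ (u 0 + u 3).re := (min_le_left _ _).trans ((min_le_left _ _).trans (min_le_left _ _))
    have m2 : m ≤ (u 1 + u 2).re := (min_le_left _ _).trans ((min_le_left _ _).trans (min_le_right _ _))
    have m3 : m ≤ (u 0 + u 2).re := (min_le_left _ _).trans ((min_le_right _ _).trans (min_le_left _ _))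
    have m4 : m ≤ 1 / 61 := (min_le_left _ _).trans ((min_le_right _ _).trans (min_le_right _ _))
    have m5 : m ≤ (u 0 + w).re := (min_le_right _ _).trans ((min_le_left _ _).trans (min_le_left _ _))
    have m6 : m ≤ (u 1 + w).re := (min_le_right _ _).trans ((min_le_left _ _).trans (min_le_right _ _))
    have m7 : m ≤ (u 2 + w).re := (min_le_right _ _).trans ((min_le_right _ _).trans (min_le_left _ _))
    have m8 : m ≤ (u 3 + w).re := (min_le_right _ _).trans ((min_le_right _ _).trans (min_le_right _ _))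
    refine ⟨m / 4, by linarith, by linarith, by linarith, by linarith, by linarith, fun i => ?_⟩
    fin_cases i
    · show m / 4 < (u 0 + w).re
      linarith
    · show m / 4 < (u 1 + w).re
      linarith
    · show m / 4 < (u 2 + w).re
      linarith
    · show m / 4 < (u 3 + w).re
      linarith
  rw [add_re] at hεP hεQ hεR
  have hεw' : ∀ i, ε < (u i).re + w.re := fun i => by
    have := hεw i
    rwa [add_re] at this
  set S : Set ℂ := {t | -ε < t.re} with hS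
  have hSo : IsOpen S := isOpen_lt continuous_const continuous_re
  have hSc : IsPreconnected S := (convex_halfSpace_re_gt (-ε)).isPreconnected
  set v : ℂ → Fin 4 → ℂ := fun t i => u i + t with hv
  have hvE : ∀ t : ℂ, -ε ≤ t.re → v t ∈ RegE := by
    intro t ht
    refine ⟨?_, ?_, ?_⟩ <;> simp only [hv, add_re] <;> linarith
  have hvd : ∀ i, DifferentiableOn ℂ (fun t => v t i) S := fun i =>
    (differentiableOn_id.const_add (u i))
  set m0 : Fin 4 → ℂ := v ((-ε : ℝ) : ℂ) with hm0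
  have hm0E : m0 ∈ RegE := hvE _ (by rw [ofReal_re])
  have hm0w : ∀ i, 0 < (m0 i + w).re := by
    intro i
    have := hεw' i
    simp only [hm0, hv, add_re, ofReal_re]
    linarith
  have hsum := sum_MQ hm0E hw hm0w
  -- the left side
  have hL : DifferentiableOn ℂ (fun t => riemannZeta (1 + 2 * w) * ∑' q : Q, TQ (y - x) w (v t) q) S := by
    refine DifferentiableOn.const_mul ?_ _
    refine Complex.differentiableOn_tsum_of_summable_norm (F := fun (q : Q) t => TQ (y - x) w (v t) q)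
      hsum (fun q => ?_) hSo (fun q t ht => ?_)
    · unfold TQ
      refine DifferentiableOn.const_mul ?_ _
      exact ee_diff q.1.1 q.1.2 (fun i t => v t i) S hSo hvd (fun t ht => hvE t (le_of_lt ht))
    · refine (norm_TQ _ _ (hvE t (le_of_lt ht)) q).trans (MQ_mono hm0E (hvE t (le_of_lt ht)) ?_ _ q)
      intro i
      have ht' : -ε < t.re := ht
      simp only [hm0, hv, add_re, ofReal_re]
      linarith
  -- the right side
  have hR : DifferentiableOn ℂ (fun t => Rst x y (v t) w) S := by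
    have hre3 : ∀ i, -(3 / 20) < (u i).re := by
      intro i
      have := hεw' i
      linarith
    unfold Rst
    refine DifferentiableOn.mul ?_ ?_
    · refine aa_diff (fun t => ![v t 0 + x * I, v t 1 + x * I, w + y * I])
        (fun t => ![-v t 2 + x * I, -v t 3 + x * I, -w + y * I]) S hSo ?_ ?_ ?_
      · intro j
        fin_cases j
        · exact (hvd 0).add_const _
        · exact (hvd 1).add_const _
        · exact differentiableOn_const _
      · intro j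
        fin_cases j
        · exact (hvd 2).neg.add_const _
        · exact (hvd 3).neg.add_const _
        · exact differentiableOn_const _
      · intro t ht
        have ht' : -ε < t.re := ht
        have g0 := hre3 0
        have g1 := hre3 1
        have g2 := hre3 2
        have g3 := hre3 3
        constructor
        · intro j
          fin_cases j
          · show -(1 / 6) < (v t 0 + x * I).re
            simp [hv]
            linarith
          · show -(1 / 6) < (v t 1 + x * I).re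
            simp [hv]
            linarith
          · show -(1 / 6) < (w + y * I).re
            simp
            linarith
        · intro j
          fin_cases j
          · show (-v t 2 + x * I).re < 1 / 6
            simp [hv]
            linarith
          · show (-v t 3 + x * I).re < 1 / 6
            simp [hv]
            linarith
          · show (-w + y * I).re < 1 / 6
            simp
            linarith
    · have k0 := hεw' 0
      have k1 := hεw' 1
      have k2 := hεw' 2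
      have k3 := hεw' 3
      have d02 : DifferentiableOn ℂ (fun t => riemannZeta (1 + v t 0 + v t 2)) S :=
        zeta_diff (((hvd 0).const_add 1).add (hvd 2)) (fun t ht => by
          have ht' : -ε < t.re := ht
          simp [hv]
          linarith)
      have d03 : DifferentiableOn ℂ (fun t => riemannZeta (1 + v t 0 + v t 3)) S :=
        zeta_diff (((hvd 0).const_add 1).add (hvd 3)) (fun t ht => by
          have ht' : -ε < t.re := ht
          simp [hv]
          linarith)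
      have d12 : DifferentiableOn ℂ (fun t => riemannZeta (1 + v t 1 + v t 2)) S :=
        zeta_diff (((hvd 1).const_add 1).add (hvd 2)) (fun t ht => by
          have ht' : -ε < t.re := ht
          simp [hv]
          linarith)
      have e0 : DifferentiableOn ℂ (fun t => riemannZeta (1 + v t 0 + w + (x - y) * I)) S :=
        zeta_diff ((((hvd 0).const_add 1).add_const w).add_const _) (fun t ht => by
          have ht' : -ε < t.re := ht
          simp [hv]
          linarith)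
      have e1 : DifferentiableOn ℂ (fun t => riemannZeta (1 + v t 1 + w + (x - y) * I)) S :=
        zeta_diff ((((hvd 1).const_add 1).add_const w).add_const _) (fun t ht => by
          have ht' : -ε < t.re := ht
          simp [hv]
          linarith)
      have e2 : DifferentiableOn ℂ (fun t => riemannZeta (1 + w + v t 2 + (y - x) * I)) S :=
        zeta_diff (((hvd 2).const_add (1 + w)).add_const _) (fun t ht => by
          have ht' : -ε < t.re := ht
          simp [hv]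
          linarith)
      have e3 : DifferentiableOn ℂ (fun t => riemannZeta (1 + w + v t 3 + (y - x) * I)) S :=
        zeta_diff (((hvd 3).const_add (1 + w)).add_const _) (fun t ht => by
          have ht' : -ε < t.re := ht
          simp [hv]
          linarith)
      exact (((d02.mul d03).mul d12).mul ((e0.mul e1).mul (e2.mul e3))).mul_const _
  have hev : (fun t => riemannZeta (1 + 2 * w) * ∑' q : Q, TQ (y - x) w (v t) q) =ᶠ[nhds (1 : ℂ)]
      fun t => Rst x y (v t) w := by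
    have hO : {t : ℂ | 3 / 20 < t.re} ∈ nhds (1 : ℂ) :=
      (isOpen_lt continuous_const continuous_re).mem_nhds (by simp; norm_num)
    filter_upwards [hO] with t ht
    have ht' : 3 / 20 < t.re := ht
    have hpos : ∀ i, 0 < (v t i).re := by
      intro i
      have := hεw' i
      simp only [hv, add_re]
      linarith
    have h1 := pos_case x y (v t) w hpos hw
    rw [G3_eq] at h1
    have h2 : riemannZeta (1 + v t 1 + v t 3) ≠ 0 := by
      refine riemannZeta_ne_zero_of_one_lt_re ?_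
      have a1 := hpos 1
      have a3 := hpos 3
      rw [add_re, add_re, one_re]
      linarith
    exact mul_left_cancel₀ h2 h1
  have hEq := (hL.analyticOnNhd hSo).eqOn_of_preconnected_of_eventuallyEq (hR.analyticOnNhd hSo) hSc
    (show (1 : ℂ) ∈ S by simp [hS]; linarith) hev (show (0 : ℂ) ∈ S by simpa [hS] using hε)
  have hv0 : v 0 = u := by
    funext i
    simp [hv]
  simp only [hv0] at hEq
  rw [G3_eq, ← hEq]
  rfl

end Pool.Agent.P07318f
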