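import Pool.Agent.Lib.P07318f.Defs

/-!
# Sum of the error terms

With `P = XY`, `η = |l|/(aP)`, `Wb ≤ X^(-r₀) Y^(-r₁) n^(-r₂) (aP/(bn))^(-r₃) min(1,(X/Y)^(-10)) min(1,(bn²/(aP))^(-10)) (U/Δ)² (1+Δη)^(-6)`
(`(1+Uη)² ≤ (U/Δ)²(1+Δη)²`). `|r_i - 5/2| ≤ δ`. Put `ε = 1/1000`. Replace the minima by powers (`min(1, t^(-10)) ≤ t^(-κ)` for `0 ≤ κ ≤ 10`),
then the sums over `n`, `l` and the integral over `X` are fixed convergent series and integrals, and the integral over `Y` becomes, by scaling,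
`X⁻¹` times a fixed convergent integral over `P`.
-/

set_option autoImplicit false

namespace Pool.Agent.P07318f

open MeasureTheory Complex
open scoped ENNReal

namespace ErrSumAux

theorem min_le_rpow {z κ : ℝ} (hz : 0 < z) (h0 : 0 ≤ κ) (h1 : κ ≤ 10) :
    min 1 (z ^ (-10 : ℝ)) ≤ z ^ (-κ) := by
  rcases le_total z 1 with h | h
  · refine le_trans (min_le_left _ _) ?_
    rw [Real.rpow_neg hz.le]
    exact (one_le_inv₀ (Real.rpow_pos_of_pos hz κ)).2 (Real.rpow_le_one hz.le h h0)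
  · refine le_trans (min_le_right _ _) ?_
    exact Real.rpow_le_rpow_of_exponent_le h (by linarith)

theorem ker_le {U Δ η : ℝ} (hη : 0 ≤ η) (hΔ : 0 < Δ) (hU : Δ ≤ U) :
    (1 + U * η) ^ 2 * ((1 + Δ * η) ^ 8)⁻¹ ≤ (U / Δ) ^ 2 * ((1 + Δ * η) ^ 6)⁻¹ := by
  have h1 : 0 < 1 + Δ * η := by positivity
  have hq : 1 ≤ U / Δ := (one_le_div hΔ).2 hU
  have h2 : 1 + U * η ≤ (U / Δ) * (1 + Δ * η) := by
    have : (U / Δ) * (1 + Δ * η) = U / Δ + U * η := by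
      field_simp
    rw [this]
    linarith
  have hU0 : 0 < U := lt_of_lt_of_le hΔ hU
  have h3 : (1 + U * η) ^ 2 ≤ ((U / Δ) * (1 + Δ * η)) ^ 2 :=
    pow_le_pow_left₀ (by positivity) h2 2
  calc (1 + U * η) ^ 2 * ((1 + Δ * η) ^ 8)⁻¹
      ≤ ((U / Δ) * (1 + Δ * η)) ^ 2 * ((1 + Δ * η) ^ 8)⁻¹ :=
        mul_le_mul_of_nonneg_right h3 (by positivity)
    _ = (U / Δ) ^ 2 * ((1 + Δ * η) ^ 6)⁻¹ := by
        field_simp

theorem lpart {L q s : ℝ} (hL : 1 ≤ L) (hq : 0 < q) (hs : 3 + 1 / 1000 ≤ s) (hs' : s ≤ 6) :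
    L ^ 2 * ((1 + L / q) ^ 6)⁻¹ ≤ L ^ (-(1 + 1 / 1000) : ℝ) * q ^ s := by
  have hL0 : 0 < L := by linarith
  have hx : 0 < L / q := by positivity
  have h1 : (L / q) ^ s ≤ (1 + L / q) ^ 6 := by
    calc (L / q) ^ s ≤ (1 + L / q) ^ s :=
          Real.rpow_le_rpow hx.le (by linarith) (by linarith)
      _ ≤ (1 + L / q) ^ (6 : ℝ) := Real.rpow_le_rpow_of_exponent_le (by linarith) hs'
      _ = (1 + L / q) ^ 6 := by
          rw [← Real.rpow_natCast]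
          norm_num
  have h2 : ((1 + L / q) ^ 6)⁻¹ ≤ ((L / q) ^ s)⁻¹ :=
    inv_anti₀ (Real.rpow_pos_of_pos hx s) h1
  have h3 : L ^ 2 * ((L / q) ^ s)⁻¹ = L ^ (2 - s) * q ^ s := by
    rw [Real.div_rpow hL0.le hq.le, inv_div, Real.rpow_sub hL0, Real.rpow_ofNat]
    ring
  calc L ^ 2 * ((1 + L / q) ^ 6)⁻¹ ≤ L ^ 2 * ((L / q) ^ s)⁻¹ :=
        mul_le_mul_of_nonneg_left h2 (by positivity)
    _ = L ^ (2 - s) * q ^ s := h3
    _ ≤ L ^ (-(1 + 1 / 1000) : ℝ) * q ^ s := by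
        refine mul_le_mul_of_nonneg_right ?_ (Real.rpow_nonneg hq.le s)
        exact Real.rpow_le_rpow_of_exponent_le hL (by linarith)

theorem lpart_min {L q : ℝ} (hL : 1 ≤ L) (hq : 0 < q) :
    L ^ 2 * ((1 + L / q) ^ 6)⁻¹ ≤
      L ^ (-(1 + 1 / 1000) : ℝ) * min (q ^ (6 : ℝ)) (q ^ (3 + 1 / 1000 : ℝ)) := by
  rcases min_choice (q ^ (6 : ℝ)) (q ^ (3 + 1 / 1000 : ℝ)) with h | h
  · rw [h]
    exact lpart hL hq (by norm_num) le_rfl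
  · rw [h]
    exact lpart hL hq le_rfl (by norm_num)

/-- the part of the sum over `n` -/
theorem npart {N Q c κ r2 r3 δ : ℝ} (hN : 1 ≤ N) (hQ : 0 < Q) (hκ : 0 ≤ κ) (hκ' : κ ≤ 10)
    (h2 : |r2 - 5 / 2| ≤ δ) (h3 : |r3 - 5 / 2| ≤ δ)
    (hc : c + 2 * δ - 2 * κ ≤ -(1 + 3 / 1000)) :
    N ^ c * ((N ^ (-r2) * (Q / N) ^ (-r3)) * min 1 ((N ^ 2 / Q) ^ (-10 : ℝ))) ≤
      N ^ (-(1 + 3 / 1000) : ℝ) * Q ^ (-r3 + κ) := by
  have hN0 : 0 < N := by linarith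
  have h2' := abs_le.1 h2
  have h3' := abs_le.1 h3
  have h1 : min 1 ((N ^ 2 / Q) ^ (-10 : ℝ)) ≤ (N ^ 2 / Q) ^ (-κ) :=
    min_le_rpow (by positivity) hκ hκ'
  have h4 : (N ^ 2 / Q) ^ (-κ) = N ^ (-(2 * κ)) * Q ^ κ := by
    rw [Real.div_rpow (by positivity) hQ.le, ← Real.rpow_natCast N 2, ← Real.rpow_mul hN0.le,
      Real.rpow_neg hQ.le κ, div_inv_eq_mul]
    congr 2
    push_cast
    ring
  have h5 : (Q / N) ^ (-r3) = Q ^ (-r3) * N ^ r3 := by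
    rw [Real.div_rpow hQ.le hN0.le, Real.rpow_neg hN0.le, div_inv_eq_mul]
  calc N ^ c * ((N ^ (-r2) * (Q / N) ^ (-r3)) * min 1 ((N ^ 2 / Q) ^ (-10 : ℝ)))
      ≤ N ^ c * ((N ^ (-r2) * (Q / N) ^ (-r3)) * (N ^ 2 / Q) ^ (-κ)) := by
        refine mul_le_mul_of_nonneg_left (mul_le_mul_of_nonneg_left h1 ?_) ?_ <;> positivity
    _ = N ^ (c - r2 + r3 - 2 * κ) * Q ^ (-r3 + κ) := by
        rw [h4, h5, Real.rpow_add hQ, show c - r2 + r3 - 2 * κ = c + (-r2) + r3 + (-(2 * κ)) by ring,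
          Real.rpow_add hN0, Real.rpow_add hN0, Real.rpow_add hN0]
        ring
    _ ≤ N ^ (-(1 + 3 / 1000) : ℝ) * Q ^ (-r3 + κ) := by
        refine mul_le_mul_of_nonneg_right ?_ (by positivity)
        exact Real.rpow_le_rpow_of_exponent_le hN (by linarith)

/-- the part of the integral over `X` -/
theorem xpart {X Y j κ r0 r1 δ : ℝ} (hX : 1 ≤ X) (hY : 0 < Y) (hκ : 0 ≤ κ) (hκ' : κ ≤ 10)
    (h0 : |r0 - 5 / 2| ≤ δ) (h1 : |r1 - 5 / 2| ≤ δ) (hj : j + 2 * δ + 2 / 1000 ≤ 2 * κ) :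
    X ^ j * (X ^ (-r0) * Y ^ (-r1) * min 1 ((X / Y) ^ (-10 : ℝ))) ≤
      X ^ (-(2 / 1000) : ℝ) * (X * Y) ^ (-r1 + κ) := by
  have hX0 : 0 < X := by linarith
  have h0' := abs_le.1 h0
  have h1' := abs_le.1 h1
  have h2 : min 1 ((X / Y) ^ (-10 : ℝ)) ≤ (X / Y) ^ (-κ) :=
    min_le_rpow (by positivity) hκ hκ'
  have h4 : (X / Y) ^ (-κ) = X ^ (-κ) * Y ^ κ := by
    rw [Real.div_rpow hX0.le hY.le, Real.rpow_neg hY.le, div_inv_eq_mul]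
  calc X ^ j * (X ^ (-r0) * Y ^ (-r1) * min 1 ((X / Y) ^ (-10 : ℝ)))
      ≤ X ^ j * (X ^ (-r0) * Y ^ (-r1) * (X / Y) ^ (-κ)) := by
        refine mul_le_mul_of_nonneg_left (mul_le_mul_of_nonneg_left h2 ?_) ?_ <;> positivity
    _ = X ^ (j - r0 - κ) * Y ^ (-r1 + κ) := by
        rw [h4, Real.rpow_add hY, show j - r0 - κ = j + (-r0) + (-κ) by ring,
          Real.rpow_add hX0, Real.rpow_add hX0]
        ring
    _ ≤ X ^ (-(2 / 1000) + (-r1 + κ) : ℝ) * Y ^ (-r1 + κ) := by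
        refine mul_le_mul_of_nonneg_right ?_ (by positivity)
        exact Real.rpow_le_rpow_of_exponent_le hX (by linarith)
    _ = X ^ (-(2 / 1000) : ℝ) * (X * Y) ^ (-r1 + κ) := by
        rw [Real.rpow_add hX0, Real.mul_rpow hX0.le hY.le]
        ring

/-- the function of the product -/
noncomputable def gf (e D P : ℝ) : ℝ :=
  P ^ (e - 1) * min ((P / D) ^ (6 : ℝ)) ((P / D) ^ (3 + 1 / 1000 : ℝ))

theorem gf_nonneg {e D P : ℝ} (hD : 0 < D) (hP : 0 < P) : 0 ≤ gf e D P := by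
  unfold gf
  positivity

theorem scale {c : ℝ} (hc : 0 < c) (f : ℝ → ℝ≥0∞) :
    ∫⁻ y in Set.Ioi (0:ℝ), f (c * y) = ENNReal.ofReal c⁻¹ * ∫⁻ p in Set.Ioi (0:ℝ), f p := by
  have h1 : ∫⁻ p in Set.Ioi (0:ℝ), f p = ∫⁻ p, (Set.Ioi (0:ℝ)).indicator f p :=
    (lintegral_indicator measurableSet_Ioi f).symm
  have h2 : ∫⁻ y in Set.Ioi (0:ℝ), f (c * y) =
      ∫⁻ y, (Set.Ioi (0:ℝ)).indicator f (c * y) := by
    rw [← lintegral_indicator measurableSet_Ioi]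
    refine lintegral_congr fun y => ?_
    by_cases hy : y ∈ Set.Ioi (0:ℝ)
    · have : c * y ∈ Set.Ioi (0:ℝ) := mul_pos hc hy
      rw [Set.indicator_of_mem hy, Set.indicator_of_mem this]
    · have : c * y ∉ Set.Ioi (0:ℝ) := fun h => hy (pos_of_mul_pos_right h hc.le)
      rw [Set.indicator_of_notMem hy, Set.indicator_of_notMem this]
  have h3 : ∫⁻ p, (Set.Ioi (0:ℝ)).indicator f p =
      ENNReal.ofReal c * ∫⁻ y, (Set.Ioi (0:ℝ)).indicator f (c * y) := by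
    conv_lhs => rw [← Real.smul_map_volume_mul_left hc.ne']
    rw [lintegral_smul_measure, abs_of_pos hc]
    have := lintegral_map_equiv (μ := (volume : Measure ℝ)) ((Set.Ioi (0:ℝ)).indicator f)
      (Homeomorph.mulLeft₀ c hc.ne').toMeasurableEquiv
    simp only [Homeomorph.toMeasurableEquiv_coe, Homeomorph.coe_mulLeft₀] at this
    rw [← this]
    rfl
  rw [h1, h2, h3, ← mul_assoc, ← ENNReal.ofReal_mul (by positivity), inv_mul_cancel₀ hc.ne',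
    ENNReal.ofReal_one, one_mul]

/-- dominating function -/
noncomputable def kf (p : ℝ) : ℝ := if p ≤ 1 then 1 else p ^ (-2 : ℝ)

theorem kf_lt_top : ∫⁻ p in Set.Ioi (0:ℝ), ENNReal.ofReal (kf p) < ∞ := by
  have h1 : (Set.Ioi (0:ℝ)) = Set.Ioc 0 1 ∪ Set.Ioi 1 := by
    rw [Set.Ioc_union_Ioi_eq_Ioi zero_le_one]
  rw [h1]
  refine lt_of_le_of_lt (lintegral_union_le _ _ _) ?_
  refine ENNReal.add_lt_top.2 ⟨?_, ?_⟩
  · calc ∫⁻ p in Set.Ioc (0:ℝ) 1, ENNReal.ofReal (kf p)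
        = ∫⁻ p in Set.Ioc (0:ℝ) 1, 1 := by
          refine setLIntegral_congr_fun measurableSet_Ioc fun p hp => ?_
          simp [kf, hp.2]
      _ < ∞ := by simp
  · calc ∫⁻ p in Set.Ioi (1:ℝ), ENNReal.ofReal (kf p)
        = ∫⁻ p in Set.Ioi (1:ℝ), ENNReal.ofReal (p ^ (-2 : ℝ)) := by
          refine setLIntegral_congr_fun measurableSet_Ioi fun p hp => ?_
          have hp' : ¬ p ≤ 1 := not_le.2 (Set.mem_Ioi.1 hp)
          simp only [kf, if_neg hp']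
      _ < ∞ := (integrableOn_Ioi_rpow_of_lt (by norm_num) one_pos).lintegral_lt_top

theorem gf_int {e D : ℝ} (hD : 0 < D) (he1 : -5 ≤ e) (he2 : e ≤ -(4 + 1 / 100)) :
    ∫⁻ P in Set.Ioi (0:ℝ), ENNReal.ofReal (gf e D P) ≤
      ENNReal.ofReal (D ^ e) * ∫⁻ p in Set.Ioi (0:ℝ), ENNReal.ofReal (kf p) := by
  have h1 : ∀ p : ℝ, 0 < p → gf e D (D * p) ≤ D ^ (e - 1) * kf p := by
    intro p hp
    unfold gf kf
    rw [mul_div_cancel_left₀ p hD.ne', Real.mul_rpow hD.le hp.le, mul_assoc]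
    refine mul_le_mul_of_nonneg_left ?_ (by positivity)
    split_ifs with h
    · calc p ^ (e - 1) * min (p ^ (6 : ℝ)) (p ^ (3 + 1 / 1000 : ℝ))
          ≤ p ^ (e - 1) * p ^ (6 : ℝ) :=
            mul_le_mul_of_nonneg_left (min_le_left _ _) (by positivity)
        _ = p ^ (e - 1 + 6) := (Real.rpow_add hp _ _).symm
        _ ≤ 1 := Real.rpow_le_one hp.le h (by linarith)
    · calc p ^ (e - 1) * min (p ^ (6 : ℝ)) (p ^ (3 + 1 / 1000 : ℝ))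
          ≤ p ^ (e - 1) * p ^ (3 + 1 / 1000 : ℝ) :=
            mul_le_mul_of_nonneg_left (min_le_right _ _) (by positivity)
        _ = p ^ (e - 1 + (3 + 1 / 1000)) := (Real.rpow_add hp _ _).symm
        _ ≤ p ^ (-2 : ℝ) := by
            refine Real.rpow_le_rpow_of_exponent_le (not_le.1 h).le ?_
            linarith
  have h2 := scale (inv_pos.2 hD) (fun P => ENNReal.ofReal (gf e D (D * P)))
  have h3 : ∫⁻ P in Set.Ioi (0:ℝ), ENNReal.ofReal (gf e D P) =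
      ∫⁻ y in Set.Ioi (0:ℝ), ENNReal.ofReal (gf e D (D * (D⁻¹ * y))) := by
    refine lintegral_congr fun y => ?_
    rw [mul_inv_cancel_left₀ hD.ne']
  rw [h3, h2, inv_inv]
  calc ENNReal.ofReal D * ∫⁻ p in Set.Ioi (0:ℝ), ENNReal.ofReal (gf e D (D * p))
      ≤ ENNReal.ofReal D * ∫⁻ p in Set.Ioi (0:ℝ),
          ENNReal.ofReal (D ^ (e - 1)) * ENNReal.ofReal (kf p) := by
        gcongr ENNReal.ofReal D * ?_
        refine setLIntegral_mono' measurableSet_Ioi fun p hp => ?_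
        rw [← ENNReal.ofReal_mul (by positivity)]
        exact ENNReal.ofReal_le_ofReal (h1 p hp)
    _ = ENNReal.ofReal (D ^ e) * ∫⁻ p in Set.Ioi (0:ℝ), ENNReal.ofReal (kf p) := by
        rw [lintegral_const_mul' _ _ ENNReal.ofReal_ne_top, ← mul_assoc,
          ← ENNReal.ofReal_mul hD.le]
        congr 2
        rw [Real.rpow_sub_one hD.ne']
        field_simp

theorem qpart {A B P s : ℝ} (hA : 1 ≤ A) (hB : 1 ≤ B) (hP : 0 < P) (hs : 0 ≤ s) (hs' : s ≤ 3) :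
    (A * P / B) ^ (-s) ≤ B ^ 3 * P ^ (-s) := by
  have hA0 : 0 < A := by linarith
  have hB0 : 0 < B := by linarith
  have h1 : (A * P / B) ^ (-s) = (A ^ s)⁻¹ * B ^ s * P ^ (-s) := by
    rw [Real.div_rpow (by positivity) hB0.le, Real.mul_rpow hA0.le hP.le, Real.rpow_neg hA0.le,
      Real.rpow_neg hB0.le, div_inv_eq_mul]
    ring
  rw [h1]
  refine mul_le_mul_of_nonneg_right ?_ (by positivity)
  have h2 : (A ^ s)⁻¹ ≤ 1 := inv_le_one_of_one_le₀ (Real.one_le_rpow hA hs)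
  have h3 : B ^ s ≤ B ^ 3 := by
    rw [← Real.rpow_natCast B 3]
    refine Real.rpow_le_rpow_of_exponent_le hB ?_
    push_cast
    exact hs'
  calc (A ^ s)⁻¹ * B ^ s ≤ 1 * B ^ 3 :=
        mul_le_mul h2 h3 (by positivity) zero_le_one
    _ = B ^ 3 := one_mul _

theorem point {U Δ δ : ℝ} {r : Fin 4 → ℝ} {A B N L X Y : ℝ} (hδ' : δ ≤ 1 / 1000)
    (hΔ : 0 < Δ) (hΔU : Δ ≤ U) (hr : ∀ i, |r i - 5 / 2| ≤ δ) (hA : 1 ≤ A) (hB : 1 ≤ B)
    (hN : 1 ≤ N) (hL : 1 ≤ L) (hX : 1 < X) (hY : 0 < Y) :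
    (A * B) * L ^ 2 * (N ^ (3 / 4 + 1 / 1000 : ℝ) + X * N ^ (-(1 / 4) + 1 / 1000 : ℝ)) *
      ((X * Y)⁻¹ * (X ^ (-(r 0)) * Y ^ (-(r 1)) *
        (N ^ (-(r 2)) * (A * X * Y / (B * N) : ℝ) ^ (-(r 3))) *
        (min 1 ((X / Y) ^ (-10 : ℝ)) * min 1 ((B * N ^ 2 / (A * X * Y)) ^ (-10 : ℝ))) *
        ((1 + U * (L / (A * X * Y))) ^ 2 * ((1 + Δ * (L / (A * X * Y))) ^ 8)⁻¹))) ≤
    N ^ (-(1 + 3 / 1000) : ℝ) * (L ^ (-(1 + 1 / 1000) : ℝ) * ((2 * A * B ^ 4 * (U / Δ) ^ 2) *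
      (X ^ (-(2 / 1000) : ℝ) * gf (-(r 1) - r 3 + (7 / 8 + 5 / 1000)) (Δ / A) (X * Y)))) := by
  have hA0 : 0 < A := by linarith
  have hB0 : 0 < B := by linarith
  have hN0 : 0 < N := by linarith
  have hL0 : 0 < L := by linarith
  have hX0 : 0 < X := by linarith
  have hU0 : 0 < U := by linarith
  have hP : 0 < X * Y := mul_pos hX0 hY
  have e1 : A * X * Y / (B * N) = (A * (X * Y) / B) / N := by
    field_simp
  have e2 : B * N ^ 2 / (A * X * Y) = N ^ 2 / (A * (X * Y) / B) := by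
    field_simp
  have e3 : Δ * (L / (A * X * Y)) = L / ((X * Y) / (Δ / A)) := by
    field_simp
  have hQ : 0 < A * (X * Y) / B := by positivity
  have hq : 0 < (X * Y) / (Δ / A) := by positivity
  have s1 : L ^ 2 * ((1 + U * (L / (A * X * Y))) ^ 2 * ((1 + Δ * (L / (A * X * Y))) ^ 8)⁻¹) ≤
      (U / Δ) ^ 2 * (L ^ (-(1 + 1 / 1000) : ℝ) *
        min (((X * Y) / (Δ / A)) ^ (6 : ℝ)) (((X * Y) / (Δ / A)) ^ (3 + 1 / 1000 : ℝ))) := by
    have h1 := ker_le (η := L / (A * X * Y)) (by positivity) hΔ hΔU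
    have h2 := lpart_min hL hq
    calc L ^ 2 * ((1 + U * (L / (A * X * Y))) ^ 2 * ((1 + Δ * (L / (A * X * Y))) ^ 8)⁻¹)
        ≤ L ^ 2 * ((U / Δ) ^ 2 * ((1 + Δ * (L / (A * X * Y))) ^ 6)⁻¹) :=
          mul_le_mul_of_nonneg_left h1 (by positivity)
      _ = (U / Δ) ^ 2 * (L ^ 2 * ((1 + L / ((X * Y) / (Δ / A))) ^ 6)⁻¹) := by
          rw [e3]
          ring
      _ ≤ _ := mul_le_mul_of_nonneg_left h2 (by positivity)
  have h3' := abs_le.1 (hr 3)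
  have s2 := npart (c := 3 / 4 + 1 / 1000) (κ := 7 / 8 + 3 / 1000) hN hQ (by norm_num)
    (by norm_num) (hr 2) (hr 3) (by linarith)
  have s2' := npart (c := -(1 / 4) + 1 / 1000) (κ := 3 / 8 + 3 / 1000) hN hQ (by norm_num)
    (by norm_num) (hr 2) (hr 3) (by linarith)
  have s3 := xpart (j := 0) (κ := 2 / 1000) hX.le hY (by norm_num) (by norm_num) (hr 0) (hr 1)
    (by linarith)
  have s3' := xpart (j := 1) (κ := 1 / 2 + 2 / 1000) hX.le hY (by norm_num) (by norm_num)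
    (hr 0) (hr 1) (by linarith)
  have q1 := qpart (s := r 3 - (7 / 8 + 3 / 1000)) hA hB hP (by linarith) (by linarith)
  have q2 := qpart (s := r 3 - (3 / 8 + 3 / 1000)) hA hB hP (by linarith) (by linarith)
  rw [show -(r 3 - (7 / 8 + 3 / 1000)) = -(r 3) + (7 / 8 + 3 / 1000) by ring] at q1
  rw [show -(r 3 - (3 / 8 + 3 / 1000)) = -(r 3) + (3 / 8 + 3 / 1000) by ring] at q2
  rw [← e1, ← e2] at s2 s2'
  rw [Real.rpow_zero, one_mul] at s3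
  rw [Real.rpow_one] at s3'
  generalize hm1 : min 1 ((X / Y) ^ (-10 : ℝ)) = m1 at s3 s3' ⊢
  generalize hm2 : min 1 ((B * N ^ 2 / (A * X * Y)) ^ (-10 : ℝ)) = m2 at s2 s2' ⊢
  generalize hkk : (1 + U * (L / (A * X * Y))) ^ 2 * ((1 + Δ * (L / (A * X * Y))) ^ 8)⁻¹ = kk
    at s1 ⊢
  have hm1' : 0 ≤ m1 := by
    rw [← hm1]
    positivity
  have hm2' : 0 ≤ m2 := by
    rw [← hm2]
    positivity
  have hkk' : 0 ≤ kk := by
    rw [← hkk]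
    positivity
  set E0 := X ^ (-(r 0)) * Y ^ (-(r 1)) * m1 with hE0
  set NN := N ^ (-(r 2)) * (A * X * Y / (B * N)) ^ (-(r 3)) * m2 with hNN
  have hE0' : 0 ≤ E0 := by positivity
  have hNN' : 0 ≤ NN := by positivity
  set P := X * Y with hPdef
  set M := min ((P / (Δ / A)) ^ (6 : ℝ)) ((P / (Δ / A)) ^ (3 + 1 / 1000 : ℝ)) with hM
  have hM' : 0 ≤ M := by positivity
  have hs2R : N ^ (3 / 4 + 1 / 1000 : ℝ) * NN ≤
      N ^ (-(1 + 3 / 1000) : ℝ) * (B ^ 3 * P ^ (-(r 3) + (7 / 8 + 3 / 1000))) :=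
    le_trans s2 (mul_le_mul_of_nonneg_left q1 (by positivity))
  have hs2R' : N ^ (-(1 / 4) + 1 / 1000 : ℝ) * NN ≤
      N ^ (-(1 + 3 / 1000) : ℝ) * (B ^ 3 * P ^ (-(r 3) + (3 / 8 + 3 / 1000))) :=
    le_trans s2' (mul_le_mul_of_nonneg_left q2 (by positivity))
  have t1 : E0 * (N ^ (3 / 4 + 1 / 1000 : ℝ) * NN) ≤
      (X ^ (-(2 / 1000) : ℝ) * P ^ (-(r 1) + 2 / 1000)) *
        (N ^ (-(1 + 3 / 1000) : ℝ) * (B ^ 3 * P ^ (-(r 3) + (7 / 8 + 3 / 1000)))) :=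
    mul_le_mul s3 hs2R (by positivity) (by positivity)
  have t2 : (X * E0) * (N ^ (-(1 / 4) + 1 / 1000 : ℝ) * NN) ≤
      (X ^ (-(2 / 1000) : ℝ) * P ^ (-(r 1) + (1 / 2 + 2 / 1000))) *
        (N ^ (-(1 + 3 / 1000) : ℝ) * (B ^ 3 * P ^ (-(r 3) + (3 / 8 + 3 / 1000)))) :=
    mul_le_mul s3' hs2R' (by positivity) (by positivity)
  have u1 : P ^ (-(r 1) + 2 / 1000) * P ^ (-(r 3) + (7 / 8 + 3 / 1000)) =
      P ^ (-(r 1) - r 3 + (7 / 8 + 5 / 1000)) := by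
    rw [← Real.rpow_add hP]
    congr 1
    ring
  have u2 : P ^ (-(r 1) + (1 / 2 + 2 / 1000)) * P ^ (-(r 3) + (3 / 8 + 3 / 1000)) =
      P ^ (-(r 1) - r 3 + (7 / 8 + 5 / 1000)) := by
    rw [← Real.rpow_add hP]
    congr 1
    ring
  have t3 : E0 * (N ^ (3 / 4 + 1 / 1000 : ℝ) * NN) +
      (X * E0) * (N ^ (-(1 / 4) + 1 / 1000 : ℝ) * NN) ≤
      2 * (B ^ 3 * (X ^ (-(2 / 1000) : ℝ) * N ^ (-(1 + 3 / 1000) : ℝ) *
        P ^ (-(r 1) - r 3 + (7 / 8 + 5 / 1000)))) := by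
    calc _ ≤ (X ^ (-(2 / 1000) : ℝ) * P ^ (-(r 1) + 2 / 1000)) *
        (N ^ (-(1 + 3 / 1000) : ℝ) * (B ^ 3 * P ^ (-(r 3) + (7 / 8 + 3 / 1000)))) +
        (X ^ (-(2 / 1000) : ℝ) * P ^ (-(r 1) + (1 / 2 + 2 / 1000))) *
        (N ^ (-(1 + 3 / 1000) : ℝ) * (B ^ 3 * P ^ (-(r 3) + (3 / 8 + 3 / 1000)))) :=
          add_le_add t1 t2
      _ = B ^ 3 * (X ^ (-(2 / 1000) : ℝ) * N ^ (-(1 + 3 / 1000) : ℝ)) *
          (P ^ (-(r 1) + 2 / 1000) * P ^ (-(r 3) + (7 / 8 + 3 / 1000))) +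
          B ^ 3 * (X ^ (-(2 / 1000) : ℝ) * N ^ (-(1 + 3 / 1000) : ℝ)) *
          (P ^ (-(r 1) + (1 / 2 + 2 / 1000)) * P ^ (-(r 3) + (3 / 8 + 3 / 1000))) := by
          ring
      _ = _ := by
          rw [u1, u2]
          ring
  have hg : gf (-(r 1) - r 3 + (7 / 8 + 5 / 1000)) (Δ / A) P =
      P⁻¹ * P ^ (-(r 1) - r 3 + (7 / 8 + 5 / 1000)) * M := by
    unfold gf
    rw [Real.rpow_sub_one hP.ne', ← hM, div_eq_inv_mul]
  rw [hg]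
  calc A * B * L ^ 2 * (N ^ (3 / 4 + 1 / 1000 : ℝ) + X * N ^ (-(1 / 4) + 1 / 1000 : ℝ)) *
      (P⁻¹ * (X ^ (-(r 0)) * Y ^ (-(r 1)) *
        (N ^ (-(r 2)) * (A * X * Y / (B * N)) ^ (-(r 3))) * (m1 * m2) * kk))
      = (A * B * P⁻¹) * ((L ^ 2 * kk) * (E0 * (N ^ (3 / 4 + 1 / 1000 : ℝ) * NN) +
          (X * E0) * (N ^ (-(1 / 4) + 1 / 1000 : ℝ) * NN))) := by
        rw [hE0, hNN]
        ring
    _ ≤ (A * B * P⁻¹) * (((U / Δ) ^ 2 * (L ^ (-(1 + 1 / 1000) : ℝ) * M)) *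
          (2 * (B ^ 3 * (X ^ (-(2 / 1000) : ℝ) * N ^ (-(1 + 3 / 1000) : ℝ) *
            P ^ (-(r 1) - r 3 + (7 / 8 + 5 / 1000)))))) := by
        refine mul_le_mul_of_nonneg_left ?_ (by positivity)
        exact mul_le_mul s1 t3 (by positivity) (by positivity)
    _ = _ := by ring

theorem par {U Δ δ A B e : ℝ} (hU : 1 ≤ U) (hδ : 0 ≤ δ) (hδ' : δ ≤ 1 / 1000)
    (h1 : U ^ (1 - δ) ≤ Δ) (hA : 1 ≤ A) (hB : 1 ≤ B) (hA' : A ≤ U ^ δ) (hB' : B ≤ U ^ δ)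
    (he : -5 ≤ e) (he' : e ≤ -(4 + 12 / 100) + 2 * δ) :
    (2 * A * B ^ 4 * (U / Δ) ^ 2) * (Δ / A) ^ e ≤ 2 * U ^ (-(4 + 1 / 16) : ℝ) := by
  have hU0 : 0 < U := by linarith
  have hA0 : 0 < A := by linarith
  have hB0 : 0 < B := by linarith
  have hΔ : 0 < Δ := lt_of_lt_of_le (Real.rpow_pos_of_pos hU0 _) h1
  have k1 : U / Δ ≤ U ^ δ := by
    rw [div_le_iff₀ hΔ]
    calc U = U ^ δ * U ^ (1 - δ) := by
          rw [← Real.rpow_add hU0]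
          simp
      _ ≤ U ^ δ * Δ := mul_le_mul_of_nonneg_left h1 (by positivity)
  have k2 : U ^ (1 - 2 * δ) ≤ Δ / A := by
    rw [le_div_iff₀ hA0]
    calc U ^ (1 - 2 * δ) * A ≤ U ^ (1 - 2 * δ) * U ^ δ :=
          mul_le_mul_of_nonneg_left hA' (by positivity)
      _ = U ^ (1 - δ) := by
          rw [← Real.rpow_add hU0]
          congr 1
          ring
      _ ≤ Δ := h1
  have k3 : (Δ / A) ^ e ≤ (U ^ (1 - 2 * δ)) ^ e :=
    Real.rpow_le_rpow_of_nonpos (Real.rpow_pos_of_pos hU0 _) k2 (by linarith)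
  have k4 : B ^ 4 ≤ (U ^ δ) ^ 4 := pow_le_pow_left₀ hB0.le hB' 4
  have k5 : (U / Δ) ^ 2 ≤ (U ^ δ) ^ 2 := pow_le_pow_left₀ (by positivity) k1 2
  calc (2 * A * B ^ 4 * (U / Δ) ^ 2) * (Δ / A) ^ e
      ≤ (2 * U ^ δ * (U ^ δ) ^ 4 * (U ^ δ) ^ 2) * (U ^ (1 - 2 * δ)) ^ e := by
        gcongr
    _ = 2 * U ^ (7 * δ + (1 - 2 * δ) * e) := by
        rw [← Real.rpow_mul hU0.le, Real.rpow_add hU0, mul_comm 7 δ, Real.rpow_mul hU0.le δ 7,
          show ((7 : ℝ)) = ((7 : ℕ) : ℝ) by norm_num, Real.rpow_natCast]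
        ring
    _ ≤ 2 * U ^ (-(4 + 1 / 16) : ℝ) := by
        refine mul_le_mul_of_nonneg_left ?_ (by norm_num)
        refine Real.rpow_le_rpow_of_exponent_le hU ?_
        nlinarith [mul_nonneg hδ (by linarith : (0:ℝ) ≤ 5 + e)]

theorem sumn_ne_top :
    ∑' n : ℕ+, ENNReal.ofReal (((n : ℕ) : ℝ) ^ (-(1 + 3 / 1000) : ℝ)) ≠ ∞ := by
  refine Summable.tsum_ofReal_ne_top ?_
  have h : Summable (fun n : ℕ => (n : ℝ) ^ (-(1 + 3 / 1000) : ℝ)) :=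
    Real.summable_nat_rpow.2 (by norm_num)
  exact h.comp_injective PNat.coe_injective

theorem suml_ne_top :
    ∑' l : {l : ℤ // l ≠ 0}, ENNReal.ofReal (|(l.1 : ℝ)| ^ (-(1 + 1 / 1000) : ℝ)) ≠ ∞ := by
  refine Summable.tsum_ofReal_ne_top ?_
  have h : Summable (fun l : ℤ => |(l : ℝ)| ^ (-(1 + 1 / 1000) : ℝ)) :=
    Real.summable_abs_int_rpow (by norm_num)
  exact h.comp_injective Subtype.val_injective

theorem intX_ne_top :
    ∫⁻ X in Set.Ioi (1:ℝ), ENNReal.ofReal (X ^ (-(2 / 1000) : ℝ)) * ENNReal.ofReal X⁻¹ ≠ ∞ := by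
  have h : ∫⁻ X in Set.Ioi (1:ℝ), ENNReal.ofReal (X ^ (-(2 / 1000) : ℝ)) * ENNReal.ofReal X⁻¹ =
      ∫⁻ X in Set.Ioi (1:ℝ), ENNReal.ofReal (X ^ (-(1 + 2 / 1000) : ℝ)) := by
    refine setLIntegral_congr_fun measurableSet_Ioi fun X hX => ?_
    have hX0 : 0 < X := lt_trans one_pos hX
    change ENNReal.ofReal (X ^ (-(2 / 1000) : ℝ)) * ENNReal.ofReal X⁻¹ =
      ENNReal.ofReal (X ^ (-(1 + 2 / 1000) : ℝ))
    rw [← ENNReal.ofReal_mul (by positivity), ← Real.rpow_neg_one X, ← Real.rpow_add hX0]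
    congr 2
    ring
  rw [h]
  exact (integrableOn_Ioi_rpow_of_lt (by norm_num) one_pos).lintegral_lt_top.ne

end ErrSumAux

open ErrSumAux in
theorem err_sum : ∃ C : ℝ, 0 < C ∧ ∀ (U Δ δ : ℝ) (r : Fin 4 → ℝ) (a b : ℕ+), 1 ≤ U → 0 ≤ δ → δ ≤ 1 / 1000 →
    U ^ (1 - δ) ≤ Δ → Δ ≤ U → (∀ i, |r i - 5 / 2| ≤ δ) → ((a : ℕ) : ℝ) ≤ U ^ δ → ((b : ℕ) : ℝ) ≤ U ^ δ →
    ∑' n : ℕ+, ∑' l : {l : ℤ // l ≠ 0}, ∫⁻ X in Set.Ioi (1:ℝ), ∫⁻ Y in Set.Ioi (0:ℝ),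
      ENNReal.ofReal (((a : ℕ) * (b : ℕ)) * (l.1 : ℝ) ^ 2 *
        (((n : ℕ) : ℝ) ^ (3 / 4 + 1 / 1000 : ℝ) + X * ((n : ℕ) : ℝ) ^ (-(1 / 4) + 1 / 1000 : ℝ)) *
          ((X * Y)⁻¹ * Wb U Δ r a b n l.1 X Y)) ≤ ENNReal.ofReal (C * U ^ (-(4 + 1 / 16) : ℝ)) := by
  set Z1 := ∑' n : ℕ+, ENNReal.ofReal (((n : ℕ) : ℝ) ^ (-(1 + 3 / 1000) : ℝ)) with hZ1
  set Z2 := ∑' l : {l : ℤ // l ≠ 0}, ENNReal.ofReal (|(l.1 : ℝ)| ^ (-(1 + 1 / 1000) : ℝ))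
    with hZ2
  set XI := ∫⁻ X in Set.Ioi (1:ℝ), ENNReal.ofReal (X ^ (-(2 / 1000) : ℝ)) * ENNReal.ofReal X⁻¹
    with hXI
  set KI := ∫⁻ p in Set.Ioi (0:ℝ), ENNReal.ofReal (kf p) with hKI
  have f1 : Z1 ≠ ∞ := sumn_ne_top
  have f2 : Z2 ≠ ∞ := suml_ne_top
  have f3 : XI ≠ ∞ := intX_ne_top
  have f4 : KI ≠ ∞ := kf_lt_top.ne
  have f5 : Z1 * (Z2 * (XI * KI)) ≠ ∞ :=
    ENNReal.mul_ne_top f1 (ENNReal.mul_ne_top f2 (ENNReal.mul_ne_top f3 f4))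
  refine ⟨2 * (Z1 * (Z2 * (XI * KI))).toReal + 1, by positivity, ?_⟩
  intro U Δ δ r a b hU hδ hδ' hΔ hΔU hr ha hb
  have hU0 : 0 < U := by linarith
  have hΔ0 : 0 < Δ := lt_of_lt_of_le (Real.rpow_pos_of_pos hU0 _) hΔ
  have hA : (1:ℝ) ≤ ((a : ℕ) : ℝ) := by exact_mod_cast a.2
  have hB : (1:ℝ) ≤ ((b : ℕ) : ℝ) := by exact_mod_cast b.2
  have hA0 : (0:ℝ) < ((a : ℕ) : ℝ) := by linarith
  set A : ℝ := ((a : ℕ) : ℝ) with hAdef
  set B : ℝ := ((b : ℕ) : ℝ) with hBdef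
  set e : ℝ := -(r 1) - r 3 + (7 / 8 + 5 / 1000) with he
  set D : ℝ := Δ / A with hD
  have hD0 : 0 < D := by positivity
  have r1 := abs_le.1 (hr 1)
  have r3 := abs_le.1 (hr 3)
  have he1 : -5 ≤ e := by
    rw [he]
    linarith
  have he2 : e ≤ -(4 + 12 / 100) + 2 * δ := by
    rw [he]
    linarith
  set cc : ℝ := 2 * A * B ^ 4 * (U / Δ) ^ 2 with hcc
  have hcc0 : 0 ≤ cc := by positivity
  have hinner : ∀ X : ℝ, 1 < X →
      ∫⁻ Y in Set.Ioi (0:ℝ), ENNReal.ofReal (gf e D (X * Y)) ≤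
        ENNReal.ofReal X⁻¹ * (ENNReal.ofReal (D ^ e) * KI) := by
    intro X hX
    have h := scale (lt_trans one_pos hX) (fun P => ENNReal.ofReal (gf e D P))
    calc ∫⁻ Y in Set.Ioi (0:ℝ), ENNReal.ofReal (gf e D (X * Y))
        = ENNReal.ofReal X⁻¹ * ∫⁻ P in Set.Ioi (0:ℝ), ENNReal.ofReal (gf e D P) := h
      _ ≤ _ := by
          gcongr ENNReal.ofReal X⁻¹ * ?_
          exact gf_int hD0 he1 (by linarith)
  calc ∑' n : ℕ+, ∑' l : {l : ℤ // l ≠ 0}, ∫⁻ X in Set.Ioi (1:ℝ), ∫⁻ Y in Set.Ioi (0:ℝ),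
      ENNReal.ofReal ((A * B) * (l.1 : ℝ) ^ 2 *
        (((n : ℕ) : ℝ) ^ (3 / 4 + 1 / 1000 : ℝ) + X * ((n : ℕ) : ℝ) ^ (-(1 / 4) + 1 / 1000 : ℝ)) *
          ((X * Y)⁻¹ * Wb U Δ r a b n l.1 X Y))
      ≤ ∑' n : ℕ+, ∑' l : {l : ℤ // l ≠ 0},
        ENNReal.ofReal (((n : ℕ) : ℝ) ^ (-(1 + 3 / 1000) : ℝ)) *
          (ENNReal.ofReal (|(l.1 : ℝ)| ^ (-(1 + 1 / 1000) : ℝ)) *
            (ENNReal.ofReal cc * (XI * (ENNReal.ofReal (D ^ e) * KI)))) := by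
        refine ENNReal.tsum_le_tsum fun n => ENNReal.tsum_le_tsum fun l => ?_
        have hN : (1:ℝ) ≤ ((n : ℕ) : ℝ) := by exact_mod_cast n.2
        have hL : (1:ℝ) ≤ |(l.1 : ℝ)| := by
          have : (1:ℤ) ≤ |l.1| := Int.one_le_abs l.2
          exact_mod_cast this
        have hN0 : (0:ℝ) ≤ ((n : ℕ) : ℝ) ^ (-(1 + 3 / 1000) : ℝ) := by positivity
        have hL0 : (0:ℝ) ≤ |(l.1 : ℝ)| ^ (-(1 + 1 / 1000) : ℝ) := by positivity
        calc ∫⁻ X in Set.Ioi (1:ℝ), ∫⁻ Y in Set.Ioi (0:ℝ),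
            ENNReal.ofReal ((A * B) * (l.1 : ℝ) ^ 2 *
              (((n : ℕ) : ℝ) ^ (3 / 4 + 1 / 1000 : ℝ) +
                X * ((n : ℕ) : ℝ) ^ (-(1 / 4) + 1 / 1000 : ℝ)) *
                ((X * Y)⁻¹ * Wb U Δ r a b n l.1 X Y))
            ≤ ∫⁻ X in Set.Ioi (1:ℝ), ENNReal.ofReal (((n : ℕ) : ℝ) ^ (-(1 + 3 / 1000) : ℝ)) *
              (ENNReal.ofReal (|(l.1 : ℝ)| ^ (-(1 + 1 / 1000) : ℝ)) * (ENNReal.ofReal cc *
                (ENNReal.ofReal (X ^ (-(2 / 1000) : ℝ)) * ENNReal.ofReal X⁻¹ *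
                  (ENNReal.ofReal (D ^ e) * KI)))) := by
              refine setLIntegral_mono' measurableSet_Ioi fun X hX => ?_
              have hX1 : 1 < X := hX
              have hX0 : 0 < X := lt_trans one_pos hX1
              calc ∫⁻ Y in Set.Ioi (0:ℝ), ENNReal.ofReal ((A * B) * (l.1 : ℝ) ^ 2 *
                    (((n : ℕ) : ℝ) ^ (3 / 4 + 1 / 1000 : ℝ) +
                      X * ((n : ℕ) : ℝ) ^ (-(1 / 4) + 1 / 1000 : ℝ)) *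
                      ((X * Y)⁻¹ * Wb U Δ r a b n l.1 X Y))
                  ≤ ∫⁻ Y in Set.Ioi (0:ℝ), ENNReal.ofReal (((n : ℕ) : ℝ) ^ (-(1 + 3 / 1000) : ℝ) *
                    (|(l.1 : ℝ)| ^ (-(1 + 1 / 1000) : ℝ) * (cc * X ^ (-(2 / 1000) : ℝ)))) *
                      ENNReal.ofReal (gf e D (X * Y)) := by
                    refine setLIntegral_mono' measurableSet_Ioi fun Y hY => ?_
                    have hY0 : 0 < Y := hY
                    rw [← ENNReal.ofReal_mul (by positivity)]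
                    refine ENNReal.ofReal_le_ofReal ?_
                    have := point (X := X) (Y := Y) hδ' hΔ0 hΔU hr hA hB hN hL hX1 hY0
                    rw [sq_abs] at this
                    calc _ ≤ _ := this
                      _ = _ := by
                        rw [hcc]
                        ring
                _ = ENNReal.ofReal (((n : ℕ) : ℝ) ^ (-(1 + 3 / 1000) : ℝ) *
                    (|(l.1 : ℝ)| ^ (-(1 + 1 / 1000) : ℝ) * (cc * X ^ (-(2 / 1000) : ℝ)))) *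
                      ∫⁻ Y in Set.Ioi (0:ℝ), ENNReal.ofReal (gf e D (X * Y)) :=
                    lintegral_const_mul' _ _ ENNReal.ofReal_ne_top
                _ ≤ ENNReal.ofReal (((n : ℕ) : ℝ) ^ (-(1 + 3 / 1000) : ℝ) *
                    (|(l.1 : ℝ)| ^ (-(1 + 1 / 1000) : ℝ) * (cc * X ^ (-(2 / 1000) : ℝ)))) *
                      (ENNReal.ofReal X⁻¹ * (ENNReal.ofReal (D ^ e) * KI)) := by
                    gcongr
                    exact hinner X hX1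
                _ = _ := by
                    rw [ENNReal.ofReal_mul hN0, ENNReal.ofReal_mul hL0, ENNReal.ofReal_mul hcc0]
                    ring
          _ = _ := by
              rw [lintegral_const_mul' _ _ ENNReal.ofReal_ne_top,
                lintegral_const_mul' _ _ ENNReal.ofReal_ne_top,
                lintegral_const_mul' _ _ ENNReal.ofReal_ne_top,
                lintegral_mul_const' _ _ (ENNReal.mul_ne_top ENNReal.ofReal_ne_top f4)]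
    _ = Z1 * (Z2 * (ENNReal.ofReal cc * (XI * (ENNReal.ofReal (D ^ e) * KI)))) := by
        simp_rw [ENNReal.tsum_mul_left, ENNReal.tsum_mul_right]
        rfl
    _ = ENNReal.ofReal (cc * D ^ e) * (Z1 * (Z2 * (XI * KI))) := by
        rw [ENNReal.ofReal_mul hcc0]
        ring
    _ ≤ ENNReal.ofReal (2 * U ^ (-(4 + 1 / 16) : ℝ)) * (Z1 * (Z2 * (XI * KI))) := by
        refine mul_le_mul' (ENNReal.ofReal_le_ofReal ?_) le_rfl
        exact par hU hδ hδ' hΔ hA hB ha hb he1 he2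
    _ ≤ ENNReal.ofReal ((2 * (Z1 * (Z2 * (XI * KI))).toReal + 1) * U ^ (-(4 + 1 / 16) : ℝ)) := by
        rw [← ENNReal.ofReal_toReal f5, ← ENNReal.ofReal_mul (by positivity),
          ENNReal.toReal_ofReal ENNReal.toReal_nonneg]
        refine ENNReal.ofReal_le_ofReal ?_
        have : 0 ≤ U ^ (-(4 + 1 / 16) : ℝ) := by positivity
        nlinarith

end Pool.Agent.P07318f
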