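import Pool.Agent.Lib.P07318f.AAreg
import Pool.Agent.Lib.P07318s.EulerD1

/-!
# The Euler product for general shifts

Copy of `euler_D1` (P07318s/EulerD1.lean) with `w_j + i x_j` replaced by `z_j` and `w_j - i x_j` by `-z'_j` (`Re z_j ≥ c > 0`, `Re (-z'_j) ≥ c > 0`):
`hh_mul`, `euler_local`, `ed_bound`, `ed_summable` are general; the Euler factors of `∏_{i,j} ζ(1+z_i-z'_j)` cancel the factors `∏(1 - p^(-1-z_i+z'_j))` of
`Afac`; the product of the `Afac` converges by `aa_bound`.
-/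

set_option autoImplicit false

namespace Pool.Agent.P07318f

open MeasureTheory Complex Pool.Agent.P07318s

theorem euler_g {k : ℕ} (z z' : Fin k → ℂ) (hz : ∀ j, 0 < (z j).re) (hz' : ∀ j, (z' j).re < 0) :
    (Summable fun N : ℕ => ‖hh (fun j => 1 / 2 + z j) N * hh (fun j => 1 / 2 - z' j) N‖) ∧
    HasSum (fun N : ℕ => hh (fun j => 1 / 2 + z j) N * hh (fun j => 1 / 2 - z' j) N) (GG z z') := by
  set s : Fin k → ℂ := fun j => 1 / 2 + z j with hs
  set s' : Fin k → ℂ := fun j => 1 / 2 - z' j with hs'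
  have hre : ∀ j, (s j).re = 1 / 2 + (z j).re := by
    intro j; rw [hs]; simp
  have hre' : ∀ j, (s' j).re = 1 / 2 - (z' j).re := by
    intro j; rw [hs']; simp
  obtain ⟨c1, hc1, hcw1⟩ := ed_exists_min z hz
  obtain ⟨c2, hc2, hcw2⟩ := ed_exists_min (fun j => -z' j) (fun j => by
    rw [Complex.neg_re]
    linarith [hz' j])
  have hsum : Summable fun N : ℕ => ‖hh s N * hh s' N‖ := by
    refine Summable.of_nonneg_of_le (fun _ => norm_nonneg _) (fun N => ?_)
      (ed_summable (2 * k) (s := 1 + (c1 + c2)) (by linarith))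
    rw [norm_mul]
    have h1 := ed_bound s (σ := 1 / 2 + c1) (fun j => by rw [hre]; linarith [hcw1 j]) N
    have h2 := ed_bound s' (σ := 1 / 2 + c2) (fun j => by
      have := hcw2 j
      rw [Complex.neg_re] at this
      rw [hre']
      linarith) N
    refine (mul_le_mul h1 h2 (norm_nonneg _) ((norm_nonneg _).trans h1)).trans (le_of_eq ?_)
    by_cases hN : N = 0
    · subst hN
      have e0 : -(1 / 2 + c1) ≠ 0 := by linarith
      have e0' : -(1 + (c1 + c2)) ≠ 0 := by linarith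
      rw [Nat.cast_zero, Real.zero_rpow e0, Real.zero_rpow e0']
      ring
    have hN0 : (0 : ℝ) < N := by exact_mod_cast Nat.pos_of_ne_zero hN
    rw [mul_mul_mul_comm, ← pow_add, ← Real.rpow_add hN0, two_mul]
    congr 2
    ring
  refine ⟨hsum, ?_⟩
  have hP := EulerProduct.eulerProduct_hasProd (f := fun N : ℕ => hh s N * hh s' N)
    (by simp [ed_hh_one]) (fun {m n} hmn => by
      rw [hh_mul s hmn, hh_mul s' hmn]; ring) hsum (by simp [ed_hh_zero])
  have hA : HasProd (fun p : Nat.Primes => Afac z z' p) (AA z z') := by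
    obtain ⟨C, _, h⟩ := aa_bound k
    have h1 := (h (z, z') ⟨fun j => by have := hz j; show -(1 / 6) < (z j).re; linarith,
      fun j => by have := hz' j; show (z' j).re < 1 / 6; linarith⟩).1
    exact h1.hasProd
  have hZ : HasProd (fun p : Nat.Primes => ∏ l, ∏ j,
      (1 - ((p : ℕ) : ℂ) ^ (-(1 + z l - z' j)))⁻¹)
      (∏ l, ∏ j, riemannZeta (1 + z l - z' j)) := by
    refine hasProd_prod fun l _ => hasProd_prod fun j _ => ?_
    refine riemannZeta_eulerProduct_hasProd ?_
    rw [Complex.sub_re, Complex.add_re, Complex.one_re]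
    linarith [hz l, hz' j]
  have hAZ := hA.mul hZ
  have heq : (fun p : Nat.Primes => ∑' e : ℕ, (hh s ((p : ℕ) ^ e) * hh s' ((p : ℕ) ^ e))) =
      fun p : Nat.Primes => Afac z z' p *
        ∏ l, ∏ j, (1 - ((p : ℕ) : ℂ) ^ (-(1 + z l - z' j)))⁻¹ := by
    funext p
    rw [(euler_local s s' (fun j => by rw [hre]; linarith [hz j])
      (fun j => by rw [hre']; linarith [hz' j]) p.2).2.tsum_eq]
    unfold Afac
    have hne : ∀ l j, (1 - ((p : ℕ) : ℂ) ^ (-(1 + z l - z' j))) ≠ 0 := by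
      intro l j h0
      have h1 : ((p : ℕ) : ℂ) ^ (-(1 + z l - z' j)) = 1 :=
        (sub_eq_zero.1 h0).symm
      have h2 : ‖((p : ℕ) : ℂ) ^ (-(1 + z l - z' j))‖ = 1 := by
        rw [h1, norm_one]
      rw [Complex.norm_natCast_cpow_of_pos p.2.pos] at h2
      have h3 : ((p : ℕ) : ℝ) ^ (-(1 + z l - z' j)).re < 1 := by
        apply Real.rpow_lt_one_of_one_lt_of_neg
        · exact_mod_cast p.2.one_lt
        · rw [Complex.neg_re, Complex.sub_re, Complex.add_re, Complex.one_re]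
          linarith [hz l, hz' j]
      linarith
    have e1 : ∀ l j, (1 - ((p : ℕ) : ℂ) ^ (-1 - z l + z' j)) =
        (1 - ((p : ℕ) : ℂ) ^ (-(1 + z l - z' j))) := by
      intro l j
      congr 2
      ring
    have e2 : ∀ j, (1 / 2 : ℂ) + z j = s j := fun j => by rw [hs]
    have e3 : ∀ j, (1 / 2 : ℂ) - z' j = s' j := fun j => by rw [hs']
    simp_rw [e1, e2, e3]
    rw [mul_right_comm, ← Finset.prod_mul_distrib]
    have e4 : (∏ l, ((∏ j, (1 - ((p : ℕ) : ℂ) ^ (-(1 + z l - z' j)))) *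
        ∏ j, (1 - ((p : ℕ) : ℂ) ^ (-(1 + z l - z' j)))⁻¹)) = 1 := by
      refine Finset.prod_eq_one fun l _ => ?_
      rw [← Finset.prod_mul_distrib]
      exact Finset.prod_eq_one fun j _ => mul_inv_cancel₀ (hne l j)
    rw [e4, one_mul]
  rw [heq] at hP
  have hfin : ∑' N : ℕ, hh s N * hh s' N = GG z z' := by
    rw [hP.unique hAZ]
    rfl
  rw [← hfin]
  exact hsum.of_norm.hasSum

end Pool.Agent.P07318f
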