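import Pool.Agent.Lib.P07318f.Defs

/-!
# Smooth weights

`w(x) = S((x-a)/Δ + 1) S((b-x)/Δ + 1)`, `S = Real.smoothTransition` (`0` for `x ≤ 0`, `1` for `x ≥ 1`, values in `[0,1]`, `C^∞`). Every derivative of `S` of
order `j ≤ 8` is continuous with support of `S^(j)`, `j ≥ 1`, in `[0,1]`, hence bounded. Leibniz for the product: `|w^(j)| ≤ C_j Δ^(-j)`; choose `C₀ ≥ 1` with `C_j ≤ C₀^j` for
`1 ≤ j ≤ 8` (`C₀ = 1 + max C_j`). (`iteratedDeriv` of a composition with an affine map: `iteratedDeriv_comp_const_mul`, `iteratedDeriv_comp_add_const`...)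
-/

set_option autoImplicit false

namespace Pool.Agent.P07318f

namespace WtsAux

open Real

lemma st_bound_one (j : ℕ) : ∃ B : ℝ, ∀ x, |iteratedDeriv j smoothTransition x| ≤ B := by
  have hc : Continuous (iteratedDeriv j smoothTransition) := by
    have h : ContDiff ℝ (j : ℕ∞) smoothTransition := smoothTransition.contDiff
    exact h.continuous_iteratedDeriv j le_rfl
  obtain ⟨B, hB⟩ := (isCompact_Icc (a := (0 : ℝ)) (b := 1)).exists_bound_of_continuousOn
    hc.continuousOn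
  refine ⟨max B 1, fun x => ?_⟩
  rcases lt_or_ge x 0 with h0 | h0
  · have h1 : smoothTransition =ᶠ[nhds x] fun _ => (0 : ℝ) := by
      filter_upwards [gt_mem_nhds h0] with y hy
      exact smoothTransition.zero_of_nonpos hy.le
    rw [h1.iteratedDeriv_eq j, iteratedDeriv_const]
    split_ifs <;> simp
  · rcases lt_or_ge 1 x with h1 | h1
    · have h2 : smoothTransition =ᶠ[nhds x] fun _ => (1 : ℝ) := by
        filter_upwards [lt_mem_nhds h1] with y hy
        exact smoothTransition.one_of_one_le hy.le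
      rw [h2.iteratedDeriv_eq j, iteratedDeriv_const]
      split_ifs <;> simp
    · exact (hB x ⟨h0, h1⟩).trans (le_max_left _ _)

lemma st_bound : ∃ B : ℝ, 1 ≤ B ∧ ∀ j : ℕ, j ≤ 8 → ∀ x, |iteratedDeriv j smoothTransition x| ≤ B := by
  choose B hB using st_bound_one
  refine ⟨1 + ∑ j ∈ Finset.range 9, |B j|, ?_, fun j hj x => ?_⟩
  · have : 0 ≤ ∑ j ∈ Finset.range 9, |B j| := Finset.sum_nonneg fun j _ => abs_nonneg _
    linarith
  · have h1 : |B j| ≤ ∑ j ∈ Finset.range 9, |B j| :=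
      Finset.single_le_sum (f := fun j => |B j|) (fun j _ => abs_nonneg _)
        (Finset.mem_range.2 (by omega))
    have h2 := hB j x
    have h3 := le_abs_self (B j)
    linarith

lemma aff_deriv (c d : ℝ) (j : ℕ) (x : ℝ) :
    iteratedDeriv j (fun x => smoothTransition (c * x + d)) x =
      c ^ j * iteratedDeriv j smoothTransition (c * x + d) := by
  have h1 : ContDiff ℝ (j : ℕ∞) (fun y : ℝ => smoothTransition (y + d)) :=
    smoothTransition.contDiff.comp (contDiff_id.add contDiff_const)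
  have h2 := iteratedDeriv_comp_const_mul (f := fun y => smoothTransition (y + d)) h1 c
  have h3 := congrFun h2 x
  simp only [iteratedDeriv_comp_add_const] at h3
  exact h3

lemma aff_contDiff (c d : ℝ) : ContDiff ℝ 8 (fun x : ℝ => smoothTransition (c * x + d)) := by
  have h : ContDiff ℝ ((8 : ℕ∞) : WithTop ℕ∞) smoothTransition := smoothTransition.contDiff
  exact h.comp ((contDiff_const.mul contDiff_id).add contDiff_const)

end WtsAux

open WtsAux

theorem smooth_weight : ∃ C₀ : ℝ, 1 ≤ C₀ ∧ ∀ a b Δ : ℝ, 0 < Δ → a ≤ b → ∃ w : ℝ → ℝ,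
    ContDiff ℝ 8 w ∧ (∀ x, 0 ≤ w x) ∧ (∀ x, w x ≤ 1) ∧ (∀ x, a ≤ x → x ≤ b → w x = 1) ∧
    (∀ x, x ≤ a - Δ → w x = 0) ∧ (∀ x, b + Δ ≤ x → w x = 0) ∧
    ∀ j : ℕ, j ≤ 8 → ∀ x, ‖iteratedDeriv j (fun x => (w x : ℂ)) x‖ ≤ ((Δ / C₀)⁻¹) ^ j := by
  obtain ⟨B, hB1, hB⟩ := st_bound
  refine ⟨2 * B ^ 2, by nlinarith, fun a b Δ hΔ hab => ?_⟩
  let w1 : ℝ → ℝ := fun x => Real.smoothTransition (Δ⁻¹ * x + (1 - a / Δ))
  let w2 : ℝ → ℝ := fun x => Real.smoothTransition ((-Δ⁻¹) * x + (b / Δ + 1))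
  have hw1 : ContDiff ℝ 8 w1 := aff_contDiff _ _
  have hw2 : ContDiff ℝ 8 w2 := aff_contDiff _ _
  have e1 : ∀ x, Δ⁻¹ * x + (1 - a / Δ) = (x - a) / Δ + 1 := fun x => by
    field_simp
    ring
  have e2 : ∀ x, (-Δ⁻¹) * x + (b / Δ + 1) = (b - x) / Δ + 1 := fun x => by
    field_simp
    ring
  have hn1 : ∀ x, 0 ≤ w1 x := fun x => Real.smoothTransition.nonneg _
  have hn2 : ∀ x, 0 ≤ w2 x := fun x => Real.smoothTransition.nonneg _
  have hl1 : ∀ x, w1 x ≤ 1 := fun x => Real.smoothTransition.le_one _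
  have hl2 : ∀ x, w2 x ≤ 1 := fun x => Real.smoothTransition.le_one _
  refine ⟨fun x => w1 x * w2 x, hw1.mul hw2, fun x => mul_nonneg (hn1 x) (hn2 x),
    fun x => mul_le_one₀ (hl1 x) (hn2 x) (hl2 x), fun x hx1 hx2 => ?_, fun x hx => ?_,
    fun x hx => ?_, fun j hj x => ?_⟩
  · have h1 : w1 x = 1 := by
      refine Real.smoothTransition.one_of_one_le ?_
      rw [e1]
      have : 0 ≤ (x - a) / Δ := div_nonneg (by linarith) hΔ.le
      linarith
    have h2 : w2 x = 1 := by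
      refine Real.smoothTransition.one_of_one_le ?_
      rw [e2]
      have : 0 ≤ (b - x) / Δ := div_nonneg (by linarith) hΔ.le
      linarith
    change w1 x * w2 x = 1
    rw [h1, h2, mul_one]
  · have h1 : w1 x = 0 := by
      refine Real.smoothTransition.zero_of_nonpos ?_
      rw [e1]
      have : (x - a) / Δ ≤ -1 := by
        rw [div_le_iff₀ hΔ]
        linarith
      linarith
    change w1 x * w2 x = 0
    rw [h1, zero_mul]
  · have h2 : w2 x = 0 := by
      refine Real.smoothTransition.zero_of_nonpos ?_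
      rw [e2]
      have : (b - x) / Δ ≤ -1 := by
        rw [div_le_iff₀ hΔ]
        linarith
      linarith
    change w1 x * w2 x = 0
    rw [h2, mul_zero]
  · have hwc : ContDiff ℝ 8 fun x => w1 x * w2 x := hw1.mul hw2
    have hj8 : (j : WithTop ℕ∞) ≤ 8 := by
      have h : (j : WithTop ℕ∞) ≤ ((8 : ℕ) : WithTop ℕ∞) := Nat.cast_le.2 hj
      exact h
    have h1 : ‖iteratedDeriv j (fun x => ((w1 x * w2 x : ℝ) : ℂ)) x‖ =
        ‖iteratedFDeriv ℝ j (fun x => w1 x * w2 x) x‖ := by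
      rw [← norm_iteratedFDeriv_eq_norm_iteratedDeriv]
      exact Complex.ofRealLI.norm_iteratedFDeriv_comp_left (f := fun x => w1 x * w2 x)
        (x := x) hwc.contDiffAt hj8
    rw [h1]
    rcases Nat.eq_zero_or_pos j with rfl | hjpos
    · rw [norm_iteratedFDeriv_zero, pow_zero, Real.norm_of_nonneg (mul_nonneg (hn1 x) (hn2 x))]
      exact mul_le_one₀ (hl1 x) (hn2 x) (hl2 x)
    have hΔi : 0 < Δ⁻¹ := inv_pos.2 hΔ
    have hB0 : 0 < B := by linarith
    have k1 : ∀ i ≤ 8, ‖iteratedFDeriv ℝ i w1 x‖ ≤ (Δ⁻¹) ^ i * B := by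
      intro i hi
      rw [norm_iteratedFDeriv_eq_norm_iteratedDeriv, aff_deriv, norm_mul, norm_pow,
        Real.norm_of_nonneg hΔi.le]
      exact mul_le_mul_of_nonneg_left (hB i hi _) (by positivity)
    have k2 : ∀ i ≤ 8, ‖iteratedFDeriv ℝ i w2 x‖ ≤ (Δ⁻¹) ^ i * B := by
      intro i hi
      rw [norm_iteratedFDeriv_eq_norm_iteratedDeriv, aff_deriv, norm_mul, norm_pow, norm_neg,
        Real.norm_of_nonneg hΔi.le]
      exact mul_le_mul_of_nonneg_left (hB i hi _) (by positivity)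
    refine (norm_iteratedFDeriv_mul_le hw1 hw2 x hj8).trans ?_
    have h2 : ∀ i ∈ Finset.range (j + 1), (j.choose i : ℝ) * ‖iteratedFDeriv ℝ i w1 x‖ *
        ‖iteratedFDeriv ℝ (j - i) w2 x‖ ≤ (j.choose i : ℝ) * ((Δ⁻¹) ^ j * B ^ 2) := by
      intro i hi
      rw [Finset.mem_range] at hi
      have e3 : (Δ⁻¹) ^ j = (Δ⁻¹) ^ i * (Δ⁻¹) ^ (j - i) := by
        rw [← pow_add]
        congr 1
        omega
      calc (j.choose i : ℝ) * ‖iteratedFDeriv ℝ i w1 x‖ * ‖iteratedFDeriv ℝ (j - i) w2 x‖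
          ≤ (j.choose i : ℝ) * ((Δ⁻¹) ^ i * B) * ((Δ⁻¹) ^ (j - i) * B) := by
            gcongr
            · exact k1 i (by omega)
            · exact k2 (j - i) (by omega)
        _ = _ := by rw [e3]; ring
    refine (Finset.sum_le_sum h2).trans ?_
    rw [← Finset.sum_mul]
    have h3 : ∑ i ∈ Finset.range (j + 1), (j.choose i : ℝ) = 2 ^ j := by
      have := Nat.sum_range_choose j
      exact_mod_cast this
    rw [h3, inv_div, div_pow, mul_pow, div_eq_mul_inv, inv_pow]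
    have h4 : B ^ 2 ≤ (B ^ 2) ^ j := by
      have : (1 : ℝ) ≤ B ^ 2 := by nlinarith
      calc B ^ 2 = (B ^ 2) ^ 1 := (pow_one _).symm
        _ ≤ (B ^ 2) ^ j := pow_le_pow_right₀ this hjpos
    calc (2 : ℝ) ^ j * ((Δ ^ j)⁻¹ * B ^ 2) = 2 ^ j * B ^ 2 * (Δ ^ j)⁻¹ := by ring
      _ ≤ 2 ^ j * (B ^ 2) ^ j * (Δ ^ j)⁻¹ := by gcongr

end Pool.Agent.P07318f
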