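import Pool.Agent.Lib.P07318f.SmoothMain
import Pool.Agent.Lib.P07318f.Wts
import Pool.Agent.Lib.P07318s.ZetaGood

/-!
# The sixth moment with a genuine fourth power and one free shift

`U = T/2`, `g(t) = ‖ζ(1/2+i(t+α))‖⁴ ‖ζ(1/2+i(t+h))‖²`, `M(t) = Mxy (t+α) (t+h)`. The interval `[β, β+T]` is `[β, β+U] ∪ [β+U, β+2U]`, `β, β+U ∈ [2U, 6U]`, `α ∈ [2U, 4U]`.
Let `c` be the constant of `smooth_main` (with `B = 2 B₀`, `B₀` the constant of `zeta_good (1/10000)`), `δ = min(c/8, 1/2000)`, `Δ₁ = T^(1-δ)`, `κ₂` the constant of `m_bound (δ/2)`.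
(`T ≤ T₀`: trivial, choose `C` large: the set has measure `≤ T`.) Grid `V_i = i Δ₁`, `0 ≤ i ≤ N`, `N Δ₁ ≤ T < (N+1) Δ₁`. Weights (`smooth_weight` with `Δ₁`):
`w_i⁺ = 1` on `[0, V_{i+1}]`, supported in `[-Δ₁, V_{i+1}+Δ₁]`; `w_i⁻` for `i ≥ 2`: `= 1` on `[Δ₁, V_i - Δ₁]`, supported in `[0, V_i]` (`0` for `i < 2`). For large `T` the
functions `Ω(x) = w_i^±(x - α)` satisfy the hypotheses of `smooth_main` with `Δ = Δ₁/C₀ ≥ U^(1-1/1000)` (`x ∈ [α-Δ₁, α+T+2Δ₁] ⊂ [U, 7U+..] ⊂ (U/2, 8U)`).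
Bad sets: (a) `h - α` not good for `κ = 1/10000` or for `κ₂`: `zeta_good` with `U := T`, `a := β - α ∈ [-T, T]`, `H := T` (`[a, a+T] ⊂ [-3T, 3T]`): measure
`≤ C T^(1-κ')`; `Good κ (T^κ) (B₀ T^κ)` implies `Good κ (U^κ) (2 B₀ U^κ)` (`U = T/2 ≤ T`, `T^κ ≤ 2 U^κ`), so use `B = 2 B₀` in `smooth_main`, `m_bound`.
(b) good `h` for which some `|∫ w_i^±(t) (g - M) dt| > T^(1-c/4)`: Chebyshev with `smooth_main` for each `i`,
`±`: measure `≤ 2(N+1) C U^(3-c) T^(-2+c/2) ≤ C T^(1 - c/2 + δ) ≤ C T^(1-c/4)`. Outside the bad sets, for `V ∈ [V_i, V_{i+1}]` (`V ≤ T`): since `g ≥ 0`,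
`∫ w_i⁻ g ≤ ∫_0^V g ≤ ∫ w_i⁺ g`, so `|∫_0^V g - ∫ w_i⁺ g| ≤ ∫ w_i⁺ g - ∫ w_i⁻ g ≤ |∫ w_i⁺(g-M)| + |∫ w_i⁻(g-M)| + |∫ (w_i⁺-w_i⁻) M|` and `|∫_0^V M - ∫ w_i⁺ M|`,
`|∫ (w_i⁺ - w_i⁻) M| ≤ 8 Δ₁ sup|M| ≤ C T^(1-δ) T^(δ/2)` (`m_bound`). Integrability of `M` on the relevant interval: `m_cont`.
-/

set_option autoImplicit false

namespace Pool.Agent.P07318f

open MeasureTheory Complex Pool.Agent.P07318s

namespace Final6Aux

theorem measurableSet_bad (κ Y B : ℝ) : MeasurableSet {δ : ℝ | ¬ Good κ Y B δ} := by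
  have h : {δ : ℝ | ¬ Good κ Y B δ} = {δ : ℝ | |δ| ≤ 4 * Y} ∪ {δ : ℝ | 4 * Y < |δ| ∧
      ∃ σ v : ℝ, 1 / 2 + κ ≤ σ ∧ σ ≤ 3 ∧ |v| ≤ 2 * Y ∧
        B < ‖riemannZeta (σ + ((δ + v : ℝ) : ℂ) * I)‖} := by
    ext δ
    change ¬ (4 * Y < |δ| ∧ ∀ σ v : ℝ, 1 / 2 + κ ≤ σ → σ ≤ 3 → |v| ≤ 2 * Y →
      ‖riemannZeta (σ + ((δ + v : ℝ) : ℂ) * I)‖ ≤ B) ↔ (|δ| ≤ 4 * Y ∨ (4 * Y < |δ| ∧
      ∃ σ v : ℝ, 1 / 2 + κ ≤ σ ∧ σ ≤ 3 ∧ |v| ≤ 2 * Y ∧
        B < ‖riemannZeta (σ + ((δ + v : ℝ) : ℂ) * I)‖))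
    constructor
    · intro h
      by_cases h1 : |δ| ≤ 4 * Y
      · exact Or.inl h1
      · right
        push Not at h1
        refine ⟨h1, ?_⟩
        by_contra hcon
        push Not at hcon
        exact h ⟨h1, fun σ v a b c => hcon σ v a b c⟩
    · rintro (h1 | ⟨h1, σ, v, a, b, c, d⟩) ⟨h2, h3⟩
      · linarith
      · have := h3 σ v a b c
        linarith
  rw [h]
  refine (measurableSet_le (by fun_prop) (by fun_prop)).union (IsOpen.measurableSet ?_)
  rw [isOpen_iff_mem_nhds]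
  rintro δ₀ ⟨h1, σ, v, h2, h3, h4, h5⟩
  have hne : δ₀ + v ≠ 0 := by
    intro h0
    have h6 : δ₀ = -v := by linarith
    rw [h6, abs_neg] at h1
    have := abs_nonneg v
    linarith
  have hne1 : (σ : ℂ) + ((δ₀ + v : ℝ) : ℂ) * I ≠ 1 := by
    intro h0
    have := congrArg Complex.im h0
    simp at this
    exact hne (by exact_mod_cast this)
  have hc : ContinuousAt (fun δ : ℝ => ‖riemannZeta (σ + ((δ + v : ℝ) : ℂ) * I)‖) δ₀ := by
    apply ContinuousAt.norm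
    apply ContinuousAt.comp (g := riemannZeta) (f := fun δ : ℝ => (σ : ℂ) + ((δ + v : ℝ) : ℂ) * I)
      (differentiableAt_riemannZeta hne1).continuousAt
    fun_prop
  have hc2 : ContinuousAt (fun δ : ℝ => |δ|) δ₀ := by fun_prop
  filter_upwards [hc.eventually (lt_mem_nhds h5), hc2.eventually (lt_mem_nhds h1)] with δ ha hb
  exact ⟨hb, σ, v, h2, h3, h4, ha⟩

theorem measurableSet_good (κ Y B α : ℝ) : MeasurableSet {h : ℝ | Good κ Y B (h - α)} := by
  have h1 : MeasurableSet {δ : ℝ | Good κ Y B δ} := by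
    have := (measurableSet_bad κ Y B).compl
    convert this using 1
    ext δ
    simp
  exact h1.preimage (by fun_prop : Measurable fun h : ℝ => h - α)

theorem zhc : Continuous (fun x : ℝ => riemannZeta (1 / 2 + x * I)) := by
  rw [continuous_iff_continuousAt]
  intro x
  have h1 : ((1:ℂ) / 2 + x * I) ≠ 1 := by
    intro h
    have := congrArg Complex.re h
    simp at this
  exact ContinuousAt.comp (g := riemannZeta) (f := fun x : ℝ => (1:ℂ) / 2 + x * I)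
    (differentiableAt_riemannZeta h1).continuousAt (by fun_prop)

/-- the real integrand -/
noncomputable def gr (x y : ℝ) : ℝ :=
  ‖riemannZeta (1 / 2 + x * I)‖ ^ 4 * ‖riemannZeta (1 / 2 + y * I)‖ ^ 2

theorem gr_nonneg (x y : ℝ) : 0 ≤ gr x y := by
  unfold gr
  positivity

theorem gr_cont2 {X : Type*} [TopologicalSpace X] {u v : X → ℝ} (hu : Continuous u)
    (hv : Continuous v) : Continuous (fun p => gr (u p) (v p)) := by
  have h1 : Continuous (fun p => ‖riemannZeta (1 / 2 + (u p : ℝ) * I)‖ ^ 4) :=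
    (zhc.comp hu).norm.pow 4
  have h2 : Continuous (fun p => ‖riemannZeta (1 / 2 + (v p : ℝ) * I)‖ ^ 2) :=
    (zhc.comp hv).norm.pow 2
  exact h1.mul h2

/-- the sandwich -/
theorem sandwich {p q α V D S : ℝ} {g : ℝ → ℝ} {M : ℝ → ℂ} {Wp Wm : ℝ → ℝ}
    (hg : Continuous g) (hg0 : ∀ x, 0 ≤ g x) (hM : ContinuousOn M (Set.Icc p q))
    (hMS : ∀ x ∈ Set.Icc p q, ‖M x‖ ≤ S) (hS : 0 ≤ S)
    (hWp : Continuous Wp) (hWm : Continuous Wm)
    (hp : p ≤ α) (hV : 0 ≤ V) (hq : α + V ≤ q)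
    (hWp0 : ∀ x, 0 ≤ Wp x) (hWp1 : ∀ x ∈ Set.Icc α (α + V), Wp x = 1)
    (hWps : ∀ x, x ∉ Set.Icc p q → Wp x = 0)
    (hWm1 : ∀ x, Wm x ≤ 1)
    (hWms : ∀ x, x ∉ Set.Icc α (α + V) → Wm x = 0)
    (hD : ∫ x in Set.Icc p q, (Wp x - Wm x) ≤ D) :
    ‖∫ x in α..(α + V), (((g x : ℝ) : ℂ) - M x)‖ ≤
      2 * ‖∫ x, ((Wp x : ℝ) : ℂ) * (((g x : ℝ) : ℂ) - M x)‖ +
      ‖∫ x, ((Wm x : ℝ) : ℂ) * (((g x : ℝ) : ℂ) - M x)‖ + 2 * S * D := by
  set J := Set.Icc p q with hJ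
  have hJm : MeasurableSet J := measurableSet_Icc
  set K := Set.Icc α (α + V) with hK
  have hKJ : K ⊆ J := fun x hx => ⟨hp.trans hx.1, hx.2.trans hq⟩
  -- integrability on `J`
  have igp : IntegrableOn (fun x => Wp x * g x) J := (hWp.mul hg).continuousOn.integrableOn_Icc
  have igm : IntegrableOn (fun x => Wm x * g x) J := (hWm.mul hg).continuousOn.integrableOn_Icc
  have ig : IntegrableOn g J := hg.continuousOn.integrableOn_Icc
  have imp : IntegrableOn (fun x => ((Wp x : ℝ) : ℂ) * M x) J :=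
    ((continuous_ofReal.comp hWp).continuousOn.mul hM).integrableOn_Icc
  have imm : IntegrableOn (fun x => ((Wm x : ℝ) : ℂ) * M x) J :=
    ((continuous_ofReal.comp hWm).continuousOn.mul hM).integrableOn_Icc
  have imM : IntegrableOn M J := hM.integrableOn_Icc
  have iWp : IntegrableOn Wp J := hWp.continuousOn.integrableOn_Icc
  have iWm : IntegrableOn Wm J := hWm.continuousOn.integrableOn_Icc
  -- the weighted integrals
  have hWpint : ∀ W : ℝ → ℝ, Continuous W → (∀ x, x ∉ J → W x = 0) →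
      ∫ x, ((W x : ℝ) : ℂ) * (((g x : ℝ) : ℂ) - M x) =
        ((∫ x in J, W x * g x : ℝ) : ℂ) - ∫ x in J, ((W x : ℝ) : ℂ) * M x := by
    intro W hWc hW
    have h1 : ∫ x, ((W x : ℝ) : ℂ) * (((g x : ℝ) : ℂ) - M x) =
        ∫ x in J, ((W x : ℝ) : ℂ) * (((g x : ℝ) : ℂ) - M x) := by
      symm
      apply setIntegral_eq_integral_of_forall_compl_eq_zero
      intro x hx
      rw [hW x hx]
      simp
    have e1 : IntegrableOn (fun x => ((W x * g x : ℝ) : ℂ)) J :=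
      ((continuous_ofReal.comp (hWc.mul hg))).continuousOn.integrableOn_Icc
    have e2 : IntegrableOn (fun x => ((W x : ℝ) : ℂ) * M x) J :=
      ((continuous_ofReal.comp hWc).continuousOn.mul hM).integrableOn_Icc
    rw [h1, ← integral_complex_ofReal, ← integral_sub e1 e2]
    refine setIntegral_congr_fun hJm fun x _ => ?_
    push_cast
    ring
  have hWms' : ∀ x, x ∉ J → Wm x = 0 := fun x hx => hWms x fun h => hx (hKJ h)
  rw [hWpint Wp hWp hWps, hWpint Wm hWm hWms']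
  -- the middle integral
  have hmid : ∫ x in α..(α + V), (((g x : ℝ) : ℂ) - M x) =
      ((∫ x in K, g x : ℝ) : ℂ) - ∫ x in K, M x := by
    rw [intervalIntegral.integral_of_le (by linarith), ← integral_Icc_eq_integral_Ioc,
      ← integral_complex_ofReal, ← integral_sub]
    · exact ((continuous_ofReal.comp hg)).continuousOn.integrableOn_Icc
    · exact (hM.mono hKJ).integrableOn_Icc
  rw [hmid]
  have hind : ∀ f : ℝ → ℂ, ∫ x in K, f x = ∫ x in J, K.indicator f x := by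
    intro f
    rw [setIntegral_indicator measurableSet_Icc, Set.inter_eq_self_of_subset_right hKJ]
  have hindr : ∀ f : ℝ → ℝ, ∫ x in K, f x = ∫ x in J, K.indicator f x := by
    intro f
    rw [setIntegral_indicator measurableSet_Icc, Set.inter_eq_self_of_subset_right hKJ]
  set Ap : ℝ := ∫ x in J, Wp x * g x with hAp
  set Am : ℝ := ∫ x in J, Wm x * g x with hAm
  set A : ℝ := ∫ x in K, g x with hA
  set mp : ℂ := ∫ x in J, ((Wp x : ℝ) : ℂ) * M x with hmp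
  set mm : ℂ := ∫ x in J, ((Wm x : ℝ) : ℂ) * M x with hmm
  set m : ℂ := ∫ x in K, M x with hm
  have hAle : A ≤ Ap := by
    rw [hA, hindr, hAp]
    refine setIntegral_mono_on (ig.indicator measurableSet_Icc) igp hJm fun x _ => ?_
    by_cases hx : x ∈ K
    · rw [Set.indicator_of_mem hx, hWp1 x hx, one_mul]
    · rw [Set.indicator_of_notMem hx]
      exact mul_nonneg (hWp0 x) (hg0 x)
  have hAge : Am ≤ A := by
    rw [hA, hindr, hAm]
    refine setIntegral_mono_on igm (ig.indicator measurableSet_Icc) hJm fun x _ => ?_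
    by_cases hx : x ∈ K
    · rw [Set.indicator_of_mem hx]
      exact mul_le_of_le_one_left (hg0 x) (hWm1 x)
    · rw [Set.indicator_of_notMem hx, hWms x hx, zero_mul]
  have hSD : ∫ x in J, S * (Wp x - Wm x) ≤ S * D := by
    rw [integral_const_mul]
    exact mul_le_mul_of_nonneg_left hD hS
  have iSD : IntegrableOn (fun x => S * (Wp x - Wm x)) J := (iWp.sub iWm).const_mul S
  have hWmp : ∀ x, Wm x ≤ Wp x := by
    intro x
    by_cases hx : x ∈ K
    · rw [hWp1 x hx]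
      exact hWm1 x
    · rw [hWms x hx]
      exact hWp0 x
  have h1 : ‖mp - mm‖ ≤ S * D := by
    rw [hmp, hmm, ← integral_sub imp imm]
    refine (norm_integral_le_of_norm_le iSD ?_).trans hSD
    refine (ae_restrict_iff' hJm).2 (Filter.Eventually.of_forall fun x hx => ?_)
    have e : ((Wp x : ℝ) : ℂ) * M x - ((Wm x : ℝ) : ℂ) * M x =
        ((Wp x - Wm x : ℝ) : ℂ) * M x := by
      push_cast
      ring
    rw [e, norm_mul, Complex.norm_real, Real.norm_eq_abs,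
      abs_of_nonneg (sub_nonneg.2 (hWmp x)), mul_comm]
    exact mul_le_mul_of_nonneg_right (hMS x hx) (sub_nonneg.2 (hWmp x))
  have h2 : ‖mp - m‖ ≤ S * D := by
    rw [hmp, hm, hind, ← integral_sub imp (imM.indicator measurableSet_Icc)]
    refine (norm_integral_le_of_norm_le iSD ?_).trans hSD
    refine (ae_restrict_iff' hJm).2 (Filter.Eventually.of_forall fun x hx => ?_)
    have hMx := hMS x hx
    by_cases hxK : x ∈ K
    · rw [Set.indicator_of_mem hxK, hWp1 x hxK]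
      simp only [ofReal_one, one_mul, sub_self, norm_zero]
      exact mul_nonneg hS (sub_nonneg.2 (hWm1 x))
    · rw [Set.indicator_of_notMem hxK, sub_zero, hWms x hxK, sub_zero, norm_mul,
        Complex.norm_real, Real.norm_eq_abs, abs_of_nonneg (hWp0 x), mul_comm]
      exact mul_le_mul_of_nonneg_right hMx (hWp0 x)
  -- combination
  have h3 : ‖((A : ℝ) : ℂ) - m‖ ≤ (Ap - A) + ‖((Ap : ℝ) : ℂ) - mp‖ + ‖mp - m‖ := by
    have e : ((A : ℝ) : ℂ) - m = -((Ap - A : ℝ) : ℂ) + (((Ap : ℝ) : ℂ) - mp) + (mp - m) := by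
      push_cast
      ring
    rw [e]
    refine (norm_add_le _ _).trans (add_le_add ((norm_add_le _ _).trans ?_) le_rfl)
    rw [norm_neg, Complex.norm_real, Real.norm_eq_abs, abs_of_nonneg (sub_nonneg.2 hAle)]
  have h4 : Ap - Am ≤ ‖((Ap : ℝ) : ℂ) - mp‖ + ‖((Am : ℝ) : ℂ) - mm‖ + ‖mp - mm‖ := by
    have e : ((Ap - Am : ℝ) : ℂ) = (((Ap : ℝ) : ℂ) - mp) - (((Am : ℝ) : ℂ) - mm) + (mp - mm) := by
      push_cast
      ring
    have h5 : Ap - Am ≤ ‖((Ap - Am : ℝ) : ℂ)‖ := by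
      rw [Complex.norm_real]
      exact le_abs_self _
    refine h5.trans ?_
    rw [e]
    exact (norm_add_le _ _).trans (add_le_add (norm_sub_le _ _) le_rfl)
  linarith

section Cheb

variable (M0 : ℝ → ℝ → ℂ)

/-- the smoothed quantity -/
noncomputable def EE6 (W : ℝ → ℝ) (α h : ℝ) : ℂ :=
  ∫ x, ((W x : ℝ) : ℂ) * (((gr x (x + (h - α)) : ℝ) : ℂ) - M0 x (x + (h - α)))

/-- the region of continuity -/
def PP6 (α : ℝ) : Set (ℝ × ℝ) := {p : ℝ × ℝ | 0 < p.2 ∧ 0 < p.2 + (p.1 - α) ∧ 1 < |p.1 - α|}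

/-- the integrand as a function of two variables -/
noncomputable def F6 (W : ℝ → ℝ) (α : ℝ) (p : ℝ × ℝ) : ℂ :=
  ((W p.2 : ℝ) : ℂ) * (((gr p.2 (p.2 + (p.1 - α)) : ℝ) : ℂ) - M0 p.2 (p.2 + (p.1 - α)))

/-- the integrand, cut off -/
noncomputable def GI (W : ℝ → ℝ) (α : ℝ) : ℝ × ℝ → ℂ := (PP6 α).indicator (F6 M0 W α)

theorem measurableSet_PP6 (α : ℝ) : MeasurableSet (PP6 α) := by
  have a1 : IsOpen {p : ℝ × ℝ | 0 < p.2} := isOpen_lt continuous_const continuous_snd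
  have a2 : IsOpen {p : ℝ × ℝ | 0 < p.2 + (p.1 - α)} :=
    isOpen_lt continuous_const (by fun_prop)
  have a3 : IsOpen {p : ℝ × ℝ | 1 < |p.1 - α|} := isOpen_lt continuous_const (by fun_prop)
  exact (a1.inter (a2.inter a3)).measurableSet

variable {M0} (hM0 : ContinuousOn (fun p : ℝ × ℝ => M0 p.1 p.2)
  {p | 0 < p.1 ∧ 0 < p.2 ∧ 1 < |p.2 - p.1|})

include hM0 in
theorem cont_F6 (W : ℝ → ℝ) (hW : Continuous W) (α : ℝ) : ContinuousOn (F6 M0 W α) (PP6 α) := by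
  have hmap : Continuous (fun p : ℝ × ℝ => ((p.2, p.2 + (p.1 - α)) : ℝ × ℝ)) := by fun_prop
  have hmaps : Set.MapsTo (fun p : ℝ × ℝ => ((p.2, p.2 + (p.1 - α)) : ℝ × ℝ)) (PP6 α)
      {p | 0 < p.1 ∧ 0 < p.2 ∧ 1 < |p.2 - p.1|} := by
    rintro p ⟨h1, h2, h3⟩
    refine ⟨h1, h2, ?_⟩
    simpa using h3
  have hc1 : ContinuousOn (fun p : ℝ × ℝ => M0 p.2 (p.2 + (p.1 - α))) (PP6 α) :=
    ContinuousOn.comp (g := fun p : ℝ × ℝ => M0 p.1 p.2)
      (f := fun p : ℝ × ℝ => ((p.2, p.2 + (p.1 - α)) : ℝ × ℝ)) hM0 hmap.continuousOn hmaps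
  have hc0 : Continuous (fun p : ℝ × ℝ => gr p.2 (p.2 + (p.1 - α))) :=
    gr_cont2 (by fun_prop) (by fun_prop)
  have hc2 : Continuous (fun p : ℝ × ℝ => ((gr p.2 (p.2 + (p.1 - α)) : ℝ) : ℂ)) :=
    continuous_ofReal.comp hc0
  have hc3 : Continuous (fun p : ℝ × ℝ => ((W p.2 : ℝ) : ℂ)) :=
    continuous_ofReal.comp (hW.comp continuous_snd)
  exact hc3.continuousOn.mul (hc2.continuousOn.sub hc1)

include hM0 in
theorem measurable_GI (W : ℝ → ℝ) (hW : Continuous W) (α : ℝ) : Measurable (GI M0 W α) := by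
  classical
  unfold GI
  rw [← Set.piecewise_eq_indicator]
  exact (cont_F6 hM0 W hW α).measurable_piecewise continuousOn_const (measurableSet_PP6 α)

include hM0 in
theorem measurable_ind (W : ℝ → ℝ) (hW : Continuous W) (α : ℝ) :
    Measurable (fun h : ℝ => ∫ x, GI M0 W α (h, x)) :=
  ((measurable_GI hM0 W hW α).stronglyMeasurable.integral_prod_right').measurable

include hM0 in
/-- Chebyshev on a good set -/
theorem cheb {G : Set ℝ} (hG : MeasurableSet G) {W : ℝ → ℝ} (hW : Continuous W) {α : ℝ}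
    (hGW : ∀ h ∈ G, 1 < |h - α| ∧ ∀ x, W x ≠ 0 → 0 < x ∧ 0 < x + (h - α))
    {R l : ℝ} (hl : 0 < l)
    (hR : ∫⁻ h in G, ‖EE6 M0 W α h‖ₑ ^ 2 ≤ ENNReal.ofReal R) :
    volume {h ∈ G | l < ‖EE6 M0 W α h‖} ≤ ENNReal.ofReal (R / l ^ 2) := by
  have hEq : ∀ h ∈ G, EE6 M0 W α h = ∫ x, GI M0 W α (h, x) := by
    intro h hh
    unfold EE6
    refine integral_congr_ae (Filter.Eventually.of_forall fun x => ?_)
    obtain ⟨h1, h2⟩ := hGW h hh
    change ((W x : ℝ) : ℂ) * (((gr x (x + (h - α)) : ℝ) : ℂ) - M0 x (x + (h - α))) =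
      (PP6 α).indicator (F6 M0 W α) (h, x)
    by_cases hx : W x = 0
    · have e1 : F6 M0 W α (h, x) = 0 := by
        change ((W x : ℝ) : ℂ) * _ = 0
        rw [hx, ofReal_zero, zero_mul]
      rw [hx, ofReal_zero, zero_mul]
      by_cases hp : ((h, x) : ℝ × ℝ) ∈ PP6 α
      · rw [Set.indicator_of_mem hp, e1]
      · rw [Set.indicator_of_notMem hp]
    · obtain ⟨h3, h4⟩ := h2 x hx
      have hp : ((h, x) : ℝ × ℝ) ∈ PP6 α := ⟨h3, h4, h1⟩
      rw [Set.indicator_of_mem hp]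
      rfl
  have hmeas : AEMeasurable (fun h => ‖EE6 M0 W α h‖ₑ ^ 2) (volume.restrict G) := by
    refine AEMeasurable.congr ((measurable_ind hM0 W hW α).enorm.pow_const 2).aemeasurable ?_
    refine (ae_restrict_iff' hG).2 (Filter.Eventually.of_forall fun h hh => ?_)
    change ‖_‖ₑ ^ 2 = ‖EE6 M0 W α h‖ₑ ^ 2
    rw [hEq h hh]
  have h1 := mul_meas_ge_le_lintegral₀ hmeas (ENNReal.ofReal (l ^ 2))
  have h2 : volume {h ∈ G | l < ‖EE6 M0 W α h‖} ≤
      (volume.restrict G) {h | ENNReal.ofReal (l ^ 2) ≤ ‖EE6 M0 W α h‖ₑ ^ 2} := by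
    refine le_trans (measure_mono ?_) (Measure.le_restrict_apply _ _)
    rintro h ⟨hh, hlt⟩
    refine ⟨?_, hh⟩
    change ENNReal.ofReal (l ^ 2) ≤ ‖EE6 M0 W α h‖ₑ ^ 2
    rw [← ofReal_norm, ← ENNReal.ofReal_pow (norm_nonneg _)]
    exact ENNReal.ofReal_le_ofReal (pow_le_pow_left₀ hl.le hlt.le 2)
  have hl2 : 0 < l ^ 2 := by positivity
  rw [ENNReal.ofReal_div_of_pos hl2]
  refine h2.trans ?_
  rw [ENNReal.le_div_iff_mul_le (Or.inl (by simpa using hl2.ne'))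
    (Or.inl ENNReal.ofReal_ne_top), mul_comm]
  exact h1.trans hR

end Cheb

/-- change of the height in the definition of good differences -/
theorem good_half {κ T B δ : ℝ} (hκ : 0 ≤ κ) (hκ1 : κ ≤ 1) (hT : 0 < T) (hB : 0 ≤ B)
    (h : Good κ (T ^ κ) (B * T ^ κ) δ) :
    Good κ ((T / 2) ^ κ) (2 * B * (T / 2) ^ κ) δ := by
  have h1 : (T / 2) ^ κ ≤ T ^ κ := Real.rpow_le_rpow (by linarith) (by linarith) hκ
  have h2 : T ^ κ ≤ 2 * (T / 2) ^ κ := by
    have e : T = 2 * (T / 2) := by ring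
    conv_lhs => rw [e]
    rw [Real.mul_rpow (by norm_num) (by linarith)]
    refine mul_le_mul_of_nonneg_right ?_ (Real.rpow_nonneg (by linarith) _)
    calc (2 : ℝ) ^ κ ≤ 2 ^ (1 : ℝ) := Real.rpow_le_rpow_of_exponent_le (by norm_num) hκ1
      _ = 2 := Real.rpow_one 2
  refine ⟨by linarith [h.1], fun σ v h3 h4 h5 => ?_⟩
  refine (h.2 σ v h3 h4 (h5.trans (by linarith))).trans ?_
  calc B * T ^ κ ≤ B * (2 * (T / 2) ^ κ) := mul_le_mul_of_nonneg_left h2 hB
    _ = 2 * B * (T / 2) ^ κ := by ring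

/-- translated bad set -/
theorem bad_shift {κ Y B a b H : ℝ} {K : ENNReal}
    (h : volume {δ ∈ Set.Icc (b - a) (b - a + H) | ¬ Good κ Y B δ} ≤ K) :
    volume {h ∈ Set.Icc b (b + H) | ¬ Good κ Y B (h - a)} ≤ K := by
  rw [← measure_preimage_add_right volume (-a)] at h
  refine le_trans (measure_mono ?_) h
  rintro u ⟨hu, hu'⟩
  rw [sub_eq_add_neg] at hu'
  refine ⟨⟨?_, ?_⟩, hu'⟩
  · change b - a ≤ u + -a
    linarith [hu.1]
  · change u + -a ≤ b - a + H
    linarith [hu.2]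

end Final6Aux

namespace Final6Aux

theorem int_le {J : Set ℝ} (hJ : MeasurableSet J) {F : ℝ → ℝ} {a b : ℝ} (hab : a ≤ b)
    (hF : IntegrableOn F J) (h1 : ∀ x, F x ≤ 1) (h0 : ∀ x, x ∉ Set.Icc a b → F x ≤ 0) :
    ∫ x in J, F x ≤ b - a := by
  have hi : Integrable ((Set.Icc a b).indicator (fun _ => (1:ℝ))) volume := by
    rw [integrable_indicator_iff measurableSet_Icc]
    exact continuousOn_const.integrableOn_Icc
  calc ∫ x in J, F x ≤ ∫ x in J, (Set.Icc a b).indicator (fun _ => (1:ℝ)) x := by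
        refine setIntegral_mono_on hF hi.integrableOn hJ fun x _ => ?_
        by_cases hx : x ∈ Set.Icc a b
        · rw [Set.indicator_of_mem hx]
          exact h1 x
        · rw [Set.indicator_of_notMem hx]
          exact h0 x hx
    _ = volume.real (J ∩ Set.Icc a b) := by
        rw [setIntegral_indicator measurableSet_Icc, setIntegral_const, smul_eq_mul, mul_one]
    _ ≤ volume.real (Set.Icc a b) := by
        refine measureReal_mono Set.inter_subset_right ?_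
        simp
    _ = b - a := Real.volume_real_Icc_of_le hab

theorem int_ge {J : Set ℝ} {F : ℝ → ℝ} {a b : ℝ} (hab : a ≤ b)
    (hF : IntegrableOn F J) (h0 : ∀ x, 0 ≤ F x) (hs : Set.Icc a b ⊆ J)
    (h1 : ∀ x ∈ Set.Icc a b, F x = 1) : b - a ≤ ∫ x in J, F x := by
  calc b - a = volume.real (Set.Icc a b) := (Real.volume_real_Icc_of_le hab).symm
    _ = ∫ _x in Set.Icc a b, (1:ℝ) := by
        rw [setIntegral_const, smul_eq_mul, mul_one]
    _ = ∫ x in Set.Icc a b, F x := by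
        refine setIntegral_congr_fun measurableSet_Icc fun x hx => ?_
        exact (h1 x hx).symm
    _ ≤ ∫ x in J, F x := by
        refine setIntegral_mono_set hF (Filter.Eventually.of_forall fun x => h0 x) ?_
        exact LE.le.eventuallyLE hs

/-- the exponent may be taken at most one -/
theorem smooth_main' (B : ℝ) : ∃ c C : ℝ, 0 < c ∧ c ≤ 1 ∧ 0 < C ∧ ∀ (U Δ α β : ℝ) (Ω : ℝ → ℂ),
    1 ≤ U → U ^ (1 - 1 / 1000 : ℝ) ≤ Δ → Δ ≤ U → 2 * U ≤ α → α ≤ 6 * U → 2 * U ≤ β →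
    β ≤ 6 * U → Adm U Δ Ω →
    (∀ x, Ω x ≠ 0 → U ≤ x ∧ α - U ≤ x ∧ x ≤ α + 4 * U) →
    ∫⁻ h in {h ∈ Set.Icc β (β + U) | Good (1 / 10000) (U ^ (1 / 10000 : ℝ))
        (B * U ^ (1 / 10000 : ℝ)) (h - α)},
      ‖∫ x, Ω x * (((‖riemannZeta (1 / 2 + x * I)‖ ^ 4 *
        ‖riemannZeta (1 / 2 + ((x + (h - α) : ℝ) : ℂ) * I)‖ ^ 2 : ℝ) : ℂ) -
          Mxy x (x + (h - α)))‖ₑ ^ 2 ≤
      ENNReal.ofReal (C * U ^ (3 - c)) := by
  obtain ⟨c, C, hc, hC, h⟩ := smooth_main B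
  refine ⟨min c 1, C, lt_min hc one_pos, min_le_right _ _, hC, ?_⟩
  intro U Δ α β Ω hU h1 h2 h3 h4 h5 h6 h7 h8
  refine (h U Δ α β Ω hU h1 h2 h3 h4 h5 h6 h7 h8).trans (ENNReal.ofReal_le_ofReal ?_)
  refine mul_le_mul_of_nonneg_left ?_ hC.le
  exact Real.rpow_le_rpow_of_exponent_le hU (by linarith [min_le_left c 1])

/-- Chebyshev for one weight -/
theorem chebW {B c Cs C0 T α β D l a b : ℝ} {W : ℝ → ℝ}
    (hs : ∀ (U Δ α β : ℝ) (Ω : ℝ → ℂ),
    1 ≤ U → U ^ (1 - 1 / 1000 : ℝ) ≤ Δ → Δ ≤ U → 2 * U ≤ α → α ≤ 6 * U → 2 * U ≤ β →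
    β ≤ 6 * U → Adm U Δ Ω →
    (∀ x, Ω x ≠ 0 → U ≤ x ∧ α - U ≤ x ∧ x ≤ α + 4 * U) →
    ∫⁻ h in {h ∈ Set.Icc β (β + U) | Good (1 / 10000) (U ^ (1 / 10000 : ℝ))
        (B * U ^ (1 / 10000 : ℝ)) (h - α)},
      ‖∫ x, Ω x * (((‖riemannZeta (1 / 2 + x * I)‖ ^ 4 *
        ‖riemannZeta (1 / 2 + ((x + (h - α) : ℝ) : ℂ) * I)‖ ^ 2 : ℝ) : ℂ) -
          Mxy x (x + (h - α)))‖ₑ ^ 2 ≤
      ENNReal.ofReal (Cs * U ^ (3 - c)))
    (hT : 2 ≤ T) (hα1 : T ≤ α) (hα2 : α ≤ 2 * T) (hβ1 : T ≤ β) (hβ2 : β ≤ 2 * T)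
    (hD8 : D * 8 ≤ T) (hD1 : (T / 2) ^ (1 - 1 / 1000 : ℝ) ≤ D / C0) (hD2 : D / C0 ≤ T / 2)
    (hl : 0 < l) (ha : α ≤ a) (hb : b ≤ α + T + D)
    (hWd : ContDiff ℝ 8 W) (hWl : ∀ x, x ≤ a - D → W x = 0) (hWr : ∀ x, b + D ≤ x → W x = 0)
    (hWj : ∀ j : ℕ, j ≤ 8 → ∀ x, ‖iteratedDeriv j (fun x => (W x : ℂ)) x‖ ≤ ((D / C0)⁻¹) ^ j) :
    volume {h ∈ Set.Icc β (β + T) | Good (1 / 10000) ((T / 2) ^ (1 / 10000 : ℝ))
      (B * (T / 2) ^ (1 / 10000 : ℝ)) (h - α) ∧ l < ‖EE6 Mxy W α h‖} ≤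
      ENNReal.ofReal (2 * (Cs * (T / 2) ^ (3 - c) / l ^ 2)) := by
  set U : ℝ := T / 2 with hU
  have hU1 : 1 ≤ U := by rw [hU]; linarith
  have hTU : T = 2 * U := by rw [hU]; ring
  have hWx : ∀ x, W x ≠ 0 → α - D ≤ x ∧ x ≤ α + T + 2 * D := by
    intro x hx
    constructor
    · by_contra hcon
      push Not at hcon
      exact hx (hWl x (by linarith))
    · by_contra hcon
      push Not at hcon
      exact hx (hWr x (by linarith))
  have hAdm : Adm U (D / C0) (fun x => (W x : ℂ)) := by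
    refine ⟨?_, ?_, ?_, hWj⟩
    · exact (ofRealCLM.contDiff).comp hWd
    · intro x hx
      by_contra hcon
      have hW0 : W x ≠ 0 := fun h0 => hcon (by simp [h0])
      have := (hWx x hW0).1
      linarith
    · intro x hx
      by_contra hcon
      have hW0 : W x ≠ 0 := fun h0 => hcon (by simp [h0])
      have := (hWx x hW0).2
      linarith
  have hkey : ∀ b' : ℝ, T ≤ b' → b' ≤ 2 * T + U →
      volume {h ∈ {h ∈ Set.Icc b' (b' + U) | Good (1 / 10000) (U ^ (1 / 10000 : ℝ))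
        (B * U ^ (1 / 10000 : ℝ)) (h - α)} | l < ‖EE6 Mxy W α h‖} ≤
      ENNReal.ofReal (Cs * U ^ (3 - c) / l ^ 2) := by
    intro b' hb1 hb2
    refine cheb m_cont ?_ hWd.continuous ?_ hl ?_
    · exact measurableSet_Icc.inter (measurableSet_good _ _ _ _)
    · rintro h ⟨hh, hg⟩
      constructor
      · have h1 : (1:ℝ) ≤ U ^ (1 / 10000 : ℝ) := Real.one_le_rpow hU1 (by norm_num)
        linarith [hg.1]
      · intro x hx
        have h1 := (hWx x hx).1
        have h2 := hh.1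
        constructor <;> linarith
    · exact hs U (D / C0) α b' (fun x => (W x : ℂ)) hU1 hD1 hD2 (by linarith) (by linarith)
        (by linarith) (by linarith) hAdm (by
          intro x hx
          have hW0 : W x ≠ 0 := fun h0 => hx (by simp [h0])
          obtain ⟨h1, h2⟩ := hWx x hW0
          refine ⟨by linarith, by linarith, by linarith⟩)
  have h1 := hkey β hβ1 (by linarith)
  have h2 := hkey (β + U) (by linarith) (by linarith)
  have hsub : {h ∈ Set.Icc β (β + T) | Good (1 / 10000) (U ^ (1 / 10000 : ℝ))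
      (B * U ^ (1 / 10000 : ℝ)) (h - α) ∧ l < ‖EE6 Mxy W α h‖} ⊆
      {h ∈ {h ∈ Set.Icc β (β + U) | Good (1 / 10000) (U ^ (1 / 10000 : ℝ))
        (B * U ^ (1 / 10000 : ℝ)) (h - α)} | l < ‖EE6 Mxy W α h‖} ∪
      {h ∈ {h ∈ Set.Icc (β + U) (β + U + U) | Good (1 / 10000) (U ^ (1 / 10000 : ℝ))
        (B * U ^ (1 / 10000 : ℝ)) (h - α)} | l < ‖EE6 Mxy W α h‖} := by
    rintro h ⟨hh, hg, hlt⟩
    rcases le_total h (β + U) with h3 | h3
    · exact Or.inl ⟨⟨⟨hh.1, h3⟩, hg⟩, hlt⟩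
    · refine Or.inr ⟨⟨⟨h3, ?_⟩, hg⟩, hlt⟩
      have := hh.2
      linarith
  refine (measure_mono hsub).trans ((measure_union_le _ _).trans ((add_le_add h1 h2).trans ?_))
  by_cases h0 : 0 ≤ Cs * U ^ (3 - c) / l ^ 2
  · rw [← ENNReal.ofReal_add h0 h0, two_mul]
  · push Not at h0
    rw [ENNReal.ofReal_of_nonpos h0.le]
    simp

end Final6Aux

open Final6Aux

theorem six_moment : ∃ C η : ℝ, 0 < C ∧ 0 < η ∧ ∀ T α β : ℝ, 1 ≤ T → T ≤ α → α ≤ 2 * T → T ≤ β → β ≤ 2 * T →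
    volume {h ∈ Set.Icc β (β + T) | ∃ V ∈ Set.Icc 0 T, C * T ^ (1 - η) <
      ‖∫ t in (0:ℝ)..V, (((‖riemannZeta (1 / 2 + ((t + α : ℝ) : ℂ) * I)‖ ^ 4 *
        ‖riemannZeta (1 / 2 + ((t + h : ℝ) : ℂ) * I)‖ ^ 2 : ℝ) : ℂ) - Mxy (t + α) (t + h))‖} ≤
      ENNReal.ofReal (C * T ^ (1 - η)) := by
  obtain ⟨B0, Cz, kz, hB0, hCz, hkz, hz⟩ := zeta_good (1 / 10000) (by norm_num) (by norm_num)
  obtain ⟨c, Cs, hc, hc1, hCs, hs⟩ := smooth_main' (2 * B0)
  obtain ⟨C0, hC0, hw⟩ := smooth_weight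
  set δ : ℝ := min (c / 8) (1 / 2000) with hδ
  have hδ0 : 0 < δ := lt_min (by linarith) (by norm_num)
  have hδ1 : δ ≤ c / 8 := min_le_left _ _
  have hδ2 : δ ≤ 1 / 2000 := min_le_right _ _
  obtain ⟨κ, hκ, hκ1, hm⟩ := m_bound (δ / 2) (by linarith)
  obtain ⟨B1, C1, k1, hB1, hC1, hk1, hz1⟩ := zeta_good κ hκ (by linarith)
  obtain ⟨Cm, hCm, hmb⟩ := hm (2 * B1)
  set η : ℝ := min (min (c / 4) (δ / 2)) (min kz k1) with hη
  have hη0 : 0 < η := lt_min (lt_min (by linarith) (by linarith)) (lt_min hkz hk1)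
  have hη1 : η ≤ c / 4 := (min_le_left _ _).trans (min_le_left _ _)
  have hη2 : η ≤ δ / 2 := (min_le_left _ _).trans (min_le_right _ _)
  have hη3 : η ≤ kz := (min_le_right _ _).trans (min_le_left _ _)
  have hη4 : η ≤ k1 := (min_le_right _ _).trans (min_le_right _ _)
  set T0 : ℝ := C0 ^ (2000 : ℝ) + (8 : ℝ) ^ (1 / δ) + 2 with hT0
  have hC0p : 0 < C0 := by linarith
  have hp1 : 0 < C0 ^ (2000 : ℝ) := Real.rpow_pos_of_pos hC0p _
  have hp2 : 0 < (8 : ℝ) ^ (1 / δ) := Real.rpow_pos_of_pos (by norm_num) _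
  refine ⟨T0 + 3 + 10 * Cm + 8 * Cs + Cz + C1, η, by linarith, hη0, ?_⟩
  intro T α β hT1 hα1 hα2 hβ1 hβ2
  have hTpos : 0 < T := by linarith
  have hTη : 1 ≤ T ^ (1 - η) := Real.one_le_rpow hT1 (by linarith)
  set C : ℝ := T0 + 3 + 10 * Cm + 8 * Cs + Cz + C1 with hC
  rcases lt_or_ge T T0 with hTs | hTl
  · -- small heights
    have h1 : volume {h ∈ Set.Icc β (β + T) | ∃ V ∈ Set.Icc 0 T, C * T ^ (1 - η) <
      ‖∫ t in (0:ℝ)..V, (((‖riemannZeta (1 / 2 + ((t + α : ℝ) : ℂ) * I)‖ ^ 4 *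
        ‖riemannZeta (1 / 2 + ((t + h : ℝ) : ℂ) * I)‖ ^ 2 : ℝ) : ℂ) - Mxy (t + α) (t + h))‖} ≤
        volume (Set.Icc β (β + T)) := measure_mono fun h hh => hh.1
    refine h1.trans ?_
    rw [Real.volume_Icc]
    apply ENNReal.ofReal_le_ofReal
    have h2 : T0 ≤ C := by linarith
    nlinarith
  -- large heights
  have hT2 : 2 ≤ T := by linarith
  have hC0T : C0 ≤ T ^ (1 / 2000 : ℝ) := by
    have h1 : C0 ^ (2000 : ℝ) ≤ T := by linarith
    calc C0 = (C0 ^ (2000 : ℝ)) ^ (1 / 2000 : ℝ) := by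
          rw [← Real.rpow_mul hC0p.le]
          norm_num
      _ ≤ T ^ (1 / 2000 : ℝ) := Real.rpow_le_rpow hp1.le h1 (by norm_num)
  have h8 : 8 ≤ T ^ δ := by
    have h1 : (8 : ℝ) ^ (1 / δ) ≤ T := by linarith
    calc (8 : ℝ) = ((8 : ℝ) ^ (1 / δ)) ^ δ := by
          rw [← Real.rpow_mul (by norm_num), one_div_mul_cancel hδ0.ne', Real.rpow_one]
      _ ≤ T ^ δ := Real.rpow_le_rpow hp2.le h1 hδ0.le
  set D : ℝ := T ^ (1 - δ) with hD
  have hDp : 0 < D := Real.rpow_pos_of_pos hTpos _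
  have hDT : D * T ^ δ = T := by
    rw [hD, ← Real.rpow_add hTpos]
    simp
  have hD8 : D * 8 ≤ T := by
    have := mul_le_mul_of_nonneg_left h8 hDp.le
    linarith
  have hD1 : (T / 2) ^ (1 - 1 / 1000 : ℝ) ≤ D / C0 := by
    rw [le_div_iff₀ hC0p]
    calc (T / 2) ^ (1 - 1 / 1000 : ℝ) * C0 ≤ T ^ (1 - 1 / 1000 : ℝ) * T ^ (1 / 2000 : ℝ) := by
          apply mul_le_mul _ hC0T hC0p.le (Real.rpow_nonneg hTpos.le _)
          exact Real.rpow_le_rpow (by linarith) (by linarith) (by norm_num)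
      _ = T ^ (1 - 1 / 2000 : ℝ) := by
          rw [← Real.rpow_add hTpos]
          norm_num
      _ ≤ D := Real.rpow_le_rpow_of_exponent_le hT1 (by linarith)
  have hD2 : D / C0 ≤ T / 2 := by
    have h1 : D / C0 ≤ D := div_le_self hDp.le hC0
    linarith
  set l : ℝ := T ^ (1 - c / 4) with hl
  have hlp : 0 < l := Real.rpow_pos_of_pos hTpos _
  choose Wp hWp using fun i : ℕ => hw α (α + (i + 1) * D) D hDp
    (by have : (0:ℝ) ≤ (i + 1) * D := by positivity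
        linarith)
  choose Wm hWm using fun i : ℕ => hw (α + D) (max (α + D) (α + i * D - D)) D hDp
    (le_max_left _ _)
  set N : ℕ := ⌊T / D⌋₊ with hN
  have hND : (N : ℝ) * D ≤ T := by
    have h1 : (N : ℝ) ≤ T / D := Nat.floor_le (by positivity)
    rwa [le_div_iff₀ hDp] at h1
  have hiN : ∀ i ∈ Finset.range (N + 1), (i : ℝ) * D ≤ T := by
    intro i hi
    have h1 : i ≤ N := Nat.lt_succ_iff.mp (Finset.mem_range.mp hi)
    have h2 : (i : ℝ) ≤ N := by exact_mod_cast h1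
    exact (mul_le_mul_of_nonneg_right h2 hDp.le).trans hND
  -- the bad sets
  set Ba : Set ℝ := {h ∈ Set.Icc β (β + T) | ¬ Good (1 / 10000) (T ^ (1 / 10000 : ℝ))
    (B0 * T ^ (1 / 10000 : ℝ)) (h - α)} with hBa
  set Bb : Set ℝ := {h ∈ Set.Icc β (β + T) | ¬ Good κ (T ^ κ) (B1 * T ^ κ) (h - α)} with hBb
  set Bw : (ℝ → ℝ) → Set ℝ := fun W => {h ∈ Set.Icc β (β + T) |
    Good (1 / 10000) ((T / 2) ^ (1 / 10000 : ℝ))
      (2 * B0 * (T / 2) ^ (1 / 10000 : ℝ)) (h - α) ∧ l < ‖EE6 Mxy W α h‖} with hBw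
  set R : ℝ := 2 * (Cs * (T / 2) ^ (3 - c) / l ^ 2) with hR
  have hR0 : 0 ≤ R := by
    have : 0 ≤ (T / 2) ^ (3 - c) := Real.rpow_nonneg (by linarith) _
    positivity
  have mBa : volume Ba ≤ ENNReal.ofReal (Cz * T * T ^ (-kz)) := by
    refine bad_shift (hz T (β - α) T hT1 ?_ (by linarith) (by linarith))
    calc T ^ (1 / 2 : ℝ) ≤ T ^ (1 : ℝ) := Real.rpow_le_rpow_of_exponent_le hT1 (by norm_num)
      _ = T := Real.rpow_one T
  have mBb : volume Bb ≤ ENNReal.ofReal (C1 * T * T ^ (-k1)) := by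
    refine bad_shift (hz1 T (β - α) T hT1 ?_ (by linarith) (by linarith))
    calc T ^ (1 / 2 : ℝ) ≤ T ^ (1 : ℝ) := Real.rpow_le_rpow_of_exponent_le hT1 (by norm_num)
      _ = T := Real.rpow_one T
  have mBp : ∀ i ∈ Finset.range (N + 1), volume (Bw (Wp i)) ≤ ENNReal.ofReal R := by
    intro i hi
    obtain ⟨w1, w2, w3, w4, w5, w6, w7⟩ := hWp i
    have hi1 := hiN i hi
    exact chebW hs hT2 hα1 hα2 hβ1 hβ2 hD8 hD1 hD2 hlp le_rfl (by linarith) w1 w5 w6 w7
  have mBm : ∀ i ∈ Finset.range (N + 1), volume (Bw (Wm i)) ≤ ENNReal.ofReal R := by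
    intro i hi
    obtain ⟨w1, w2, w3, w4, w5, w6, w7⟩ := hWm i
    have hi1 := hiN i hi
    refine chebW hs hT2 hα1 hα2 hβ1 hβ2 hD8 hD1 hD2 hlp (by linarith)
      (max_le (by linarith) (by linarith)) w1 w5 w6 w7
  -- the inclusion
  have hincl : {h ∈ Set.Icc β (β + T) | ∃ V ∈ Set.Icc 0 T, C * T ^ (1 - η) <
      ‖∫ t in (0:ℝ)..V, (((‖riemannZeta (1 / 2 + ((t + α : ℝ) : ℂ) * I)‖ ^ 4 *
        ‖riemannZeta (1 / 2 + ((t + h : ℝ) : ℂ) * I)‖ ^ 2 : ℝ) : ℂ) - Mxy (t + α) (t + h))‖} ⊆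
      (Ba ∪ Bb) ∪ ⋃ i ∈ Finset.range (N + 1), (Bw (Wp i) ∪ Bw (Wm i)) := by
    rintro h ⟨hh, V, hV, hlt⟩
    by_contra hcon
    rw [Set.mem_union, not_or, Set.mem_union, not_or] at hcon
    obtain ⟨⟨hna, hnb⟩, hnw⟩ := hcon
    have hga : Good (1 / 10000) (T ^ (1 / 10000 : ℝ)) (B0 * T ^ (1 / 10000 : ℝ)) (h - α) := by
      by_contra h1
      exact hna ⟨hh, h1⟩
    have hgb : Good κ (T ^ κ) (B1 * T ^ κ) (h - α) := by
      by_contra h1
      exact hnb ⟨hh, h1⟩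
    have hga' := good_half (by norm_num) (by norm_num) hTpos hB0.le hga
    have hgb' := good_half hκ.le (by linarith) hTpos hB1.le hgb
    have hw' : ∀ i ∈ Finset.range (N + 1), ‖EE6 Mxy (Wp i) α h‖ ≤ l ∧
        ‖EE6 Mxy (Wm i) α h‖ ≤ l := by
      intro i hi
      constructor
      · by_contra h1
        push Not at h1
        exact hnw (Set.mem_biUnion hi (Or.inl ⟨hh, hga', h1⟩))
      · by_contra h1
        push Not at h1
        exact hnw (Set.mem_biUnion hi (Or.inr ⟨hh, hga', h1⟩))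
    have habs : 1 < |h - α| := by
      have h1 : (1:ℝ) ≤ T ^ κ := Real.one_le_rpow hT1 hκ.le
      linarith [hgb.1]
    obtain ⟨hV0, hVT⟩ := hV
    obtain ⟨hh1, hh2⟩ := hh
    -- the interval of `V`
    set i : ℕ := ⌊V / D⌋₊ with hi
    have hi1 : (i : ℝ) * D ≤ V := by
      have h1 : (i : ℝ) ≤ V / D := Nat.floor_le (by positivity)
      rwa [le_div_iff₀ hDp] at h1
    have hi2 : V ≤ (i + 1) * D := by
      have h1 : V / D < i + 1 := Nat.lt_floor_add_one _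
      rw [div_lt_iff₀ hDp] at h1
      exact h1.le
    have hiR : i ∈ Finset.range (N + 1) := by
      rw [Finset.mem_range, Nat.lt_succ_iff]
      exact Nat.floor_le_floor (by gcongr)
    obtain ⟨hE1, hE2⟩ := hw' i hiR
    obtain ⟨p1, p2, p3, p4, p5, p6, p7⟩ := hWp i
    obtain ⟨m1, m2, m3, m4, m5, m6, m7⟩ := hWm i
    set J : Set ℝ := Set.Icc (α - D) (α + T + 2 * D) with hJ
    set Wm' : ℝ → ℝ := if 2 ≤ i then Wm i else fun _ => 0 with hWm'
    set S : ℝ := Cm * (T / 2) ^ (δ / 2) with hS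
    have hS0 : 0 ≤ S := mul_nonneg hCm.le (Real.rpow_nonneg (by linarith) _)
    have hWpJ : IntegrableOn (Wp i) J := p1.continuous.continuousOn.integrableOn_Icc
    have hWmc : Continuous Wm' := by
      rw [hWm']
      split_ifs
      · exact m1.continuous
      · exact continuous_const
    have hWmJ : IntegrableOn Wm' J := hWmc.continuousOn.integrableOn_Icc
    have hmax : 2 ≤ i → max (α + D) (α + i * D - D) = α + i * D - D := by
      intro h2i
      have h1 : (2 : ℝ) ≤ i := by exact_mod_cast h2i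
      have h2 : 2 * D ≤ i * D := mul_le_mul_of_nonneg_right h1 hDp.le
      exact max_eq_right (by linarith)
    have hMc : ContinuousOn (fun x => Mxy x (x + (h - α))) J := by
      refine ContinuousOn.comp (g := fun p : ℝ × ℝ => Mxy p.1 p.2)
        (f := fun x : ℝ => ((x, x + (h - α)) : ℝ × ℝ)) m_cont (by fun_prop) ?_
      rintro x ⟨hx1, hx2⟩
      refine ⟨?_, ?_, ?_⟩
      · change 0 < x
        linarith
      · change 0 < x + (h - α)
        linarith
      · change 1 < |x + (h - α) - x|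
        rw [add_sub_cancel_left]
        exact habs
    have hMS : ∀ x ∈ J, ‖Mxy x (x + (h - α))‖ ≤ S := by
      rintro x ⟨hx1, hx2⟩
      refine hmb (T / 2) x (x + (h - α)) (by linarith) (by linarith) (by linarith)
        (by linarith) (by linarith) ?_
      rw [add_sub_cancel_left]
      exact hgb'
    have hDint : ∫ x in J, (Wp i x - Wm' x) ≤ 5 * D := by
      rw [integral_sub hWpJ hWmJ]
      have h1 : ∫ x in J, Wp i x ≤ (α + (i + 1) * D + D) - (α - D) := by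
        refine int_le measurableSet_Icc ?_ hWpJ p3 ?_
        · have : (0:ℝ) ≤ (i + 1) * D := by positivity
          linarith
        · intro x hx
          rw [Set.mem_Icc, not_and_or, not_le, not_le] at hx
          rcases hx with hx | hx
          · exact (p5 x hx.le).le
          · exact (p6 x hx.le).le
      by_cases h2i : 2 ≤ i
      · have h2 : (α + i * D - D) - (α + D) ≤ ∫ x in J, Wm' x := by
          have h3 : (2 : ℝ) ≤ i := by exact_mod_cast h2i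
          have h4 : 2 * D ≤ i * D := mul_le_mul_of_nonneg_right h3 hDp.le
          have e : Wm' = Wm i := by rw [hWm', if_pos h2i]
          refine int_ge (by linarith) hWmJ ?_ ?_ ?_
          · rw [e]
            exact m2
          · intro x hx
            have hx1 := hx.1
            have hx2 := hx.2
            refine ⟨by linarith, by linarith⟩
          · rw [e]
            intro x hx
            exact m4 x hx.1 (by rw [hmax h2i]; exact hx.2)
        linarith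
      · have e : Wm' = fun _ => (0:ℝ) := by rw [hWm', if_neg h2i]
        have h3 : (i : ℝ) ≤ 1 := by
          have : i ≤ 1 := by omega
          exact_mod_cast this
        have h4 : i * D ≤ 1 * D := mul_le_mul_of_nonneg_right h3 hDp.le
        rw [e, integral_zero]
        linarith
    have hEm : ‖∫ x, ((Wm' x : ℝ) : ℂ) * (((gr x (x + (h - α)) : ℝ) : ℂ) -
        Mxy x (x + (h - α)))‖ ≤ l := by
      by_cases h2i : 2 ≤ i
      · have e : Wm' = Wm i := by rw [hWm', if_pos h2i]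
        rw [e]
        exact hE2
      · have e : Wm' = fun _ => (0:ℝ) := by rw [hWm', if_neg h2i]
        rw [e]
        simp only [ofReal_zero, zero_mul, integral_zero, norm_zero]
        exact hlp.le
    have hsw := sandwich (p := α - D) (q := α + T + 2 * D) (α := α) (V := V) (D := 5 * D) (S := S)
      (g := fun x => gr x (x + (h - α))) (M := fun x => Mxy x (x + (h - α))) (Wp := Wp i)
      (Wm := Wm') (gr_cont2 continuous_id (by fun_prop)) (fun x => gr_nonneg _ _) hMc hMS hS0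
      p1.continuous hWmc (by linarith) hV0 (by linarith) p2
      (fun x hx => p4 x hx.1 (by linarith [hx.2]))
      (by
        intro x hx
        rw [Set.mem_Icc, not_and_or, not_le, not_le] at hx
        rcases hx with hx | hx
        · exact p5 x hx.le
        · exact p6 x (by linarith))
      (by
        intro x
        rw [hWm']
        split_ifs
        · exact m3 x
        · exact zero_le_one)
      (by
        intro x hx
        rw [Set.mem_Icc, not_and_or, not_le, not_le] at hx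
        by_cases h2i : 2 ≤ i
        · have e : Wm' = Wm i := by rw [hWm', if_pos h2i]
          rw [e]
          rcases hx with hx | hx
          · exact m5 x (by linarith)
          · refine m6 x ?_
            rw [hmax h2i]
            linarith
        · have e : Wm' = fun _ => (0:ℝ) := by rw [hWm', if_neg h2i]
          rw [e])
      hDint
    -- the integral in the shifted variable
    have hint : ∫ t in (0:ℝ)..V, (((‖riemannZeta (1 / 2 + ((t + α : ℝ) : ℂ) * I)‖ ^ 4 *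
        ‖riemannZeta (1 / 2 + ((t + h : ℝ) : ℂ) * I)‖ ^ 2 : ℝ) : ℂ) - Mxy (t + α) (t + h)) =
        ∫ x in α..(α + V), (((gr x (x + (h - α)) : ℝ) : ℂ) - Mxy x (x + (h - α))) := by
      have e1 : (fun t : ℝ => ((((‖riemannZeta (1 / 2 + ((t + α : ℝ) : ℂ) * I)‖ ^ 4 *
        ‖riemannZeta (1 / 2 + ((t + h : ℝ) : ℂ) * I)‖ ^ 2 : ℝ) : ℂ) - Mxy (t + α) (t + h)))) =
          fun t : ℝ => (fun x : ℝ => (((gr x (x + (h - α)) : ℝ) : ℂ) -
            Mxy x (x + (h - α)))) (t + α) := by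
        funext t
        have e2 : t + α + (h - α) = t + h := by ring
        change _ = ((gr (t + α) (t + α + (h - α)) : ℝ) : ℂ) - Mxy (t + α) (t + α + (h - α))
        rw [e2]
        rfl
      rw [e1, intervalIntegral.integral_comp_add_right (fun x : ℝ =>
        (((gr x (x + (h - α)) : ℝ) : ℂ) - Mxy x (x + (h - α)))) α, zero_add, add_comm V α]
    rw [hint] at hlt
    have hl1 : l ≤ T ^ (1 - η) := Real.rpow_le_rpow_of_exponent_le hT1 (by linarith)
    have hSD : S * D ≤ Cm * T ^ (1 - η) := by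
      calc S * D ≤ (Cm * T ^ (δ / 2)) * D := by
            refine mul_le_mul_of_nonneg_right ?_ hDp.le
            refine mul_le_mul_of_nonneg_left ?_ hCm.le
            exact Real.rpow_le_rpow (by linarith) (by linarith) (by linarith)
        _ = Cm * (T ^ (δ / 2) * T ^ (1 - δ)) := by rw [hD]; ring
        _ = Cm * T ^ (1 - δ / 2) := by
            rw [← Real.rpow_add hTpos]
            congr 2
            ring
        _ ≤ Cm * T ^ (1 - η) := by
            refine mul_le_mul_of_nonneg_left ?_ hCm.le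
            exact Real.rpow_le_rpow_of_exponent_le hT1 (by linarith)
    have hfin : ‖∫ x in α..(α + V), (((gr x (x + (h - α)) : ℝ) : ℂ) -
        Mxy x (x + (h - α)))‖ ≤ (3 + 10 * Cm) * T ^ (1 - η) := by
      refine hsw.trans ?_
      have hE1' : ‖∫ x, ((Wp i x : ℝ) : ℂ) * (((gr x (x + (h - α)) : ℝ) : ℂ) -
        Mxy x (x + (h - α)))‖ ≤ l := hE1
      have e3 : 2 * S * (5 * D) = 10 * (S * D) := by ring
      have e4 : (3 + 10 * Cm) * T ^ (1 - η) = 3 * T ^ (1 - η) + 10 * (Cm * T ^ (1 - η)) := by ring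
      rw [e3, e4]
      linarith
    have hC3 : (3 + 10 * Cm) * T ^ (1 - η) ≤ C * T ^ (1 - η) :=
      mul_le_mul_of_nonneg_right (by linarith) (by linarith)
    linarith
  -- the measure
  refine (measure_mono hincl).trans ?_
  have hunion : volume (⋃ i ∈ Finset.range (N + 1), (Bw (Wp i) ∪ Bw (Wm i))) ≤
      ENNReal.ofReal ((N + 1) * (2 * R)) := by
    refine (measure_biUnion_finset_le _ _).trans ?_
    have h1 : ∀ i ∈ Finset.range (N + 1), volume (Bw (Wp i) ∪ Bw (Wm i)) ≤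
        ENNReal.ofReal (2 * R) := by
      intro i hi
      refine (measure_union_le _ _).trans ((add_le_add (mBp i hi) (mBm i hi)).trans ?_)
      rw [← ENNReal.ofReal_add hR0 hR0, two_mul]
    refine (Finset.sum_le_sum h1).trans ?_
    have e5 : ((N + 1 : ℕ) : ENNReal) = ENNReal.ofReal ((N : ℝ) + 1) := by
      rw [ENNReal.ofReal_add (by positivity) zero_le_one, ENNReal.ofReal_natCast,
        ENNReal.ofReal_one]
      push_cast
      exact rfl
    have e7 : (0 : ℝ) ≤ (N : ℝ) + 1 := by positivity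
    have e6 : ENNReal.ofReal (((N : ℝ) + 1) * (2 * R)) =
        ENNReal.ofReal ((N : ℝ) + 1) * ENNReal.ofReal (2 * R) := ENNReal.ofReal_mul e7
    rw [Finset.sum_const, Finset.card_range, nsmul_eq_mul, e5, e6]
  have hsum : volume ((Ba ∪ Bb) ∪ ⋃ i ∈ Finset.range (N + 1), (Bw (Wp i) ∪ Bw (Wm i))) ≤
      ENNReal.ofReal (Cz * T * T ^ (-kz) + C1 * T * T ^ (-k1) + (N + 1) * (2 * R)) := by
    have q1 : 0 ≤ Cz * T * T ^ (-kz) := by positivity
    have q2 : 0 ≤ C1 * T * T ^ (-k1) := by positivity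
    have q3 : 0 ≤ ((N : ℝ) + 1) * (2 * R) := by positivity
    rw [ENNReal.ofReal_add (add_nonneg q1 q2) q3, ENNReal.ofReal_add q1 q2]
    refine (measure_union_le _ _).trans (add_le_add ?_ hunion)
    exact (measure_union_le _ _).trans (add_le_add mBa mBb)
  refine hsum.trans (ENNReal.ofReal_le_ofReal ?_)
  have r1 : Cz * T * T ^ (-kz) ≤ Cz * T ^ (1 - η) := by
    rw [mul_assoc]
    refine mul_le_mul_of_nonneg_left ?_ hCz.le
    calc T * T ^ (-kz) = T ^ (1 : ℝ) * T ^ (-kz) := by rw [Real.rpow_one]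
      _ = T ^ (1 - kz) := by
          rw [← Real.rpow_add hTpos]
          rfl
      _ ≤ T ^ (1 - η) := Real.rpow_le_rpow_of_exponent_le hT1 (by linarith)
  have r2 : C1 * T * T ^ (-k1) ≤ C1 * T ^ (1 - η) := by
    rw [mul_assoc]
    refine mul_le_mul_of_nonneg_left ?_ hC1.le
    calc T * T ^ (-k1) = T ^ (1 : ℝ) * T ^ (-k1) := by rw [Real.rpow_one]
      _ = T ^ (1 - k1) := by
          rw [← Real.rpow_add hTpos]
          rfl
      _ ≤ T ^ (1 - η) := Real.rpow_le_rpow_of_exponent_le hT1 (by linarith)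
  have r3 : ((N : ℝ) + 1) * (2 * R) ≤ 8 * Cs * T ^ (1 - η) := by
    have hN1 : (N : ℝ) + 1 ≤ 2 * T ^ δ := by
      have h1 : (N : ℝ) ≤ T / D := Nat.floor_le (by positivity)
      have h2 : T / D = T ^ δ := by
        rw [div_eq_iff hDp.ne', mul_comm]
        exact hDT.symm
      have h3 : (1:ℝ) ≤ T ^ δ := Real.one_le_rpow hT1 hδ0.le
      linarith
    have hR1 : R ≤ 2 * Cs * T ^ (1 - c / 2) := by
      rw [hR]
      have h1 : (T / 2) ^ (3 - c) ≤ T ^ (3 - c) :=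
        Real.rpow_le_rpow (by linarith) (by linarith) (by linarith)
      have h2 : l ^ 2 = T ^ (2 - c / 2) := by
        rw [hl, ← Real.rpow_natCast, ← Real.rpow_mul hTpos.le]
        congr 1
        push_cast
        ring
      have h3 : T ^ (3 - c) / T ^ (2 - c / 2) = T ^ (1 - c / 2) := by
        rw [← Real.rpow_sub hTpos]
        congr 1
        ring
      calc 2 * (Cs * (T / 2) ^ (3 - c) / l ^ 2) ≤ 2 * (Cs * T ^ (3 - c) / l ^ 2) := by gcongr
        _ = 2 * Cs * (T ^ (3 - c) / l ^ 2) := by ring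
        _ = 2 * Cs * T ^ (1 - c / 2) := by rw [h2, h3]
    calc ((N : ℝ) + 1) * (2 * R) ≤ (2 * T ^ δ) * (2 * (2 * Cs * T ^ (1 - c / 2))) := by
          apply mul_le_mul hN1 _ (by linarith) (by positivity)
          linarith
      _ = 8 * Cs * (T ^ δ * T ^ (1 - c / 2)) := by ring
      _ = 8 * Cs * T ^ (1 - c / 2 + δ) := by
          rw [← Real.rpow_add hTpos]
          congr 2
          ring
      _ ≤ 8 * Cs * T ^ (1 - η) := by
          refine mul_le_mul_of_nonneg_left ?_ (by linarith)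
          exact Real.rpow_le_rpow_of_exponent_le hT1 (by linarith)
  have hT00 : 0 ≤ T0 := by linarith
  have r4 : (Cz + C1 + 8 * Cs) * T ^ (1 - η) ≤ C * T ^ (1 - η) :=
    mul_le_mul_of_nonneg_right (by linarith) (by linarith)
  linarith

end Pool.Agent.P07318f
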