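import Pool.Agent.Lib.P07318s.Regroup

/-!
# Separation of the variables in the coefficients `Om h x`

`Om h x = ∑_g W(2π g² h/x)/g`. Take a smooth `χ : ℝ → ℝ`, `χ = 1` on `[1, 16]`, supported in `[1/2, 20]`, and expand the `C²` function
`x ↦ χ(x/U) Om(h, x)` (extended with period `32 U`) in a Fourier series: the coefficients are
`(1/32U) ∫_0^{32U} χ(x/U) Om(h,x) e(-k x/32U) dx`, and two integrations by parts give `≤ C/(1+k²) · sup_{x ∈ [U/2, 20U]} (|Om| + U |∂_x Om| +`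
`U² |∂_x² Om|)`. `W y = (√π)⁻¹ ∫_{log y}^∞ exp(-u²/4)`, so `y W'(y) = -(√π)⁻¹ exp(-(log y)²/4)` and
`x ∂_x [W(2πg²h/x)] = (√π)⁻¹ exp(-(log(2πg²h/x))²/4)`, similarly the second derivative; all are
`≤ C min(1, (x/(g²h))^2)` in absolute value, more precisely `≤ C_δ min((x/(g²h))^δ, (x/(g²h))²)` as `exp(-L²/4) (1+|L|) ≤ C_A exp(-A|L|)`.
Hence `|∂^j Om| ≤ C_δ x^(-j) ∑_g g^(-1) min((x/(g² h))^δ, (x/(g² h))²) ≤ C_δ x^(-j) kap(δ, U, h)`: for `h ≤ U` the sum with the exponent `δ` is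
`≤ C (U/h)^δ`, for `h > U` the exponent `2` gives `C (U/h)²` (the bound of `Om` itself is `Om_le_kap` of P07318s/Twist.lean for `x ≤ 4U`,
here the same for `x ≤ 20 U`, `x ≥ U/2`). The Fourier series of a `C²` (or just `C¹` with summable coefficients) periodic function converges to it:
`has_pointwise_sum_fourier_series_of_summable` on `AddCircle (32 U)`, or `hasSum_fourier_series..`.
-/

set_option autoImplicit false

namespace Pool.Agent.P07318f

open Complex MeasureTheory Pool.Agent.P07318s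

namespace FourSepAux

theorem norm_fourierCoeffOn_le {a b : ℝ} (hab : a < b) (f : ℝ → ℂ) (n : ℤ) (B : ℝ)
    (hB : ∀ x ∈ Set.Icc a b, ‖f x‖ ≤ B) : ‖fourierCoeffOn hab f n‖ ≤ B := by
  rw [fourierCoeffOn_eq_integral, norm_smul]
  have h1 : ‖∫ x in a..b, fourier (-n) (x : AddCircle (b - a)) • f x‖ ≤ B * |b - a| := by
    apply intervalIntegral.norm_integral_le_of_norm_le_const
    intro x hx
    rw [Set.uIoc_of_le hab.le] at hx
    rw [norm_smul]
    have : ‖(fourier (-n) (x : AddCircle (b - a)) : ℂ)‖ = 1 := by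
      rw [fourier_apply, Circle.norm_coe]
    rw [this, one_mul]
    exact hB x ⟨hx.1.le, hx.2⟩
  have h2 : 0 < b - a := by linarith
  rw [abs_of_pos h2] at h1
  rw [Real.norm_eq_abs, abs_of_pos (by positivity)]
  calc 1 / (b - a) * ‖∫ x in a..b, fourier (-n) (x : AddCircle (b - a)) • f x‖ ≤ 1 / (b - a) * (B * (b - a)) :=
        mul_le_mul_of_nonneg_left h1 (by positivity)
    _ = B := by field_simp

theorem hab : (1 / 2 : ℝ) < 1 / 2 + 32 := by norm_num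

/-- Fourier coefficients and the Fourier series of a `C²` function vanishing to the second order at the end points -/
theorem coeff_bound {f f' f'' : ℝ → ℂ} (h1 : ∀ x ∈ Set.Icc (1 / 2 : ℝ) (1 / 2 + 32), HasDerivAt f (f' x) x)
    (h2 : ∀ x ∈ Set.Icc (1 / 2 : ℝ) (1 / 2 + 32), HasDerivAt f' (f'' x) x)
    (h3 : ContinuousOn f'' (Set.Icc (1 / 2 : ℝ) (1 / 2 + 32)))
    (e1 : f (1 / 2) = 0) (e2 : f (1 / 2 + 32) = 0) (e3 : f' (1 / 2) = 0) (e4 : f' (1 / 2 + 32) = 0) (B : ℝ)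
    (hB : ∀ x ∈ Set.Icc (1 / 2 : ℝ) (1 / 2 + 32), ‖f x‖ ≤ B)
    (hB'' : ∀ x ∈ Set.Icc (1 / 2 : ℝ) (1 / 2 + 32), ‖f'' x‖ ≤ B) (k : ℤ) :
    ‖fourierCoeffOn hab f k‖ ≤ 60 * B / (1 + (k : ℝ) ^ 2) := by
  have hB0 : 0 ≤ B := le_trans (norm_nonneg _) (hB (1 / 2) ⟨le_rfl, by norm_num⟩)
  by_cases hk : k = 0
  · subst hk
    have := norm_fourierCoeffOn_le hab f 0 B hB
    simp only [Int.cast_zero, ne_eq, OfNat.ofNat_ne_zero, not_false_eq_true, zero_pow, add_zero, div_one]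
    linarith
  · have hI : Set.uIcc (1 / 2 : ℝ) (1 / 2 + 32) = Set.Icc (1 / 2) (1 / 2 + 32) := Set.uIcc_of_le (by norm_num)
    have hc' : ContinuousOn f' (Set.Icc (1 / 2 : ℝ) (1 / 2 + 32)) := fun x hx => (h2 x hx).continuousAt.continuousWithinAt
    have i1 := fourierCoeffOn_of_hasDerivAt hab hk (fun x hx => h1 x (by rwa [hI] at hx))
      ((hc'.mono (by rw [hI])).intervalIntegrable)
    have i2 := fourierCoeffOn_of_hasDerivAt hab hk (fun x hx => h2 x (by rwa [hI] at hx))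
      ((h3.mono (by rw [hI])).intervalIntegrable)
    rw [i1, i2, e1, e2, e3, e4, sub_self, mul_zero, zero_sub, zero_sub]
    have i3 := norm_fourierCoeffOn_le hab f'' k B hB''
    have hk1 : (1 : ℝ) ≤ |(k : ℝ)| := by
      have : 1 ≤ |k| := Int.one_le_abs hk
      exact_mod_cast this
    have hk2 : (1 : ℝ) ≤ (k : ℝ) ^ 2 := by
      rw [← sq_abs]; nlinarith
    have i4 : ‖(1 : ℂ) / (-2 * (Real.pi : ℂ) * I * k)‖ = 1 / (2 * Real.pi * |(k : ℝ)|) := by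
      rw [norm_div, norm_one, norm_mul, norm_mul, norm_mul, norm_neg, Complex.norm_I, mul_one, Complex.norm_intCast,
        Complex.norm_real, Real.norm_eq_abs, abs_of_pos Real.pi_pos]
      norm_num
    have i5 : ‖(((1 / 2 + 32 : ℝ) : ℂ) - ((1 / 2 : ℝ) : ℂ))‖ = 32 := by
      have : (((1 / 2 + 32 : ℝ) : ℂ) - ((1 / 2 : ℝ) : ℂ)) = 32 := by push_cast; ring
      rw [this]
      norm_num
    have i6 : (1 / (2 * Real.pi * |(k : ℝ)|)) * 32 ≤ 32 / 6 / |(k : ℝ)| := by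
      have : (6 : ℝ) ≤ 2 * Real.pi := by linarith [Real.pi_gt_three]
      rw [div_mul_eq_mul_div, one_mul, div_div]
      apply div_le_div_of_nonneg_left (by norm_num) (by positivity)
      exact mul_le_mul_of_nonneg_right this (by positivity)
    calc ‖1 / (-2 * (Real.pi : ℂ) * I * k) * -((((1 / 2 + 32 : ℝ) : ℂ) - ((1 / 2 : ℝ) : ℂ)) *
          (1 / (-2 * (Real.pi : ℂ) * I * k) * -((((1 / 2 + 32 : ℝ) : ℂ) - ((1 / 2 : ℝ) : ℂ)) * fourierCoeffOn hab f'' k)))‖ =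
          ((1 / (2 * Real.pi * |(k : ℝ)|)) * 32) * (((1 / (2 * Real.pi * |(k : ℝ)|)) * 32) * ‖fourierCoeffOn hab f'' k‖) := by
          rw [norm_mul, norm_neg, norm_mul, norm_mul, norm_neg, norm_mul, i4, i5]
          ring
      _ ≤ (32 / 6 / |(k : ℝ)|) * ((32 / 6 / |(k : ℝ)|) * B) := by
          apply mul_le_mul i6 _ (by positivity) (by positivity)
          exact mul_le_mul i6 i3 (norm_nonneg _) (by positivity)
      _ = (32 / 6) ^ 2 * B / (k : ℝ) ^ 2 := by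
          rw [← sq_abs (k : ℝ)]
          field_simp
      _ ≤ 60 * B / (1 + (k : ℝ) ^ 2) := by
          rw [div_le_div_iff₀ (by positivity) (by positivity)]
          nlinarith

theorem series {f : ℝ → ℂ} (h1 : ContinuousOn f (Set.Icc (1 / 2 : ℝ) (1 / 2 + 32))) (e : f (1 / 2) = f (1 / 2 + 32))
    (hs : Summable fun k : ℤ => fourierCoeffOn hab f k) (y : ℝ) (hy1 : 1 / 2 ≤ y) (hy2 : y < 1 / 2 + 32) :
    HasSum (fun k : ℤ => fourierCoeffOn hab f k * cexp (((2 * Real.pi * k * y / 32 : ℝ) : ℂ) * I)) (f y) := by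
  have : Fact ((0 : ℝ) < 32) := ⟨by norm_num⟩
  let F : C(AddCircle (32 : ℝ), ℂ) := ⟨AddCircle.liftIco 32 (1 / 2) f, AddCircle.liftIco_continuous e h1⟩
  have hF : ∀ n, fourierCoeff (F : AddCircle (32 : ℝ) → ℂ) n = fourierCoeffOn hab f n := fun n =>
    fourierCoeff_liftIco_eq (T := 32) (a := 1 / 2) f n
  have h2 : Summable (fourierCoeff (F : AddCircle (32 : ℝ) → ℂ)) := hs.congr fun n => (hF n).symm
  have h3 := has_pointwise_sum_fourier_series_of_summable h2 (y : AddCircle (32 : ℝ))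
  have h4 : F (y : AddCircle (32 : ℝ)) = f y := AddCircle.liftIco_coe_apply ⟨hy1, hy2⟩
  rw [h4] at h3
  refine h3.congr_fun ?_
  intro k
  rw [hF, smul_eq_mul, fourier_coe_apply]
  congr 2
  push_cast
  ring

/-- the Gaussian density of the cut-off -/
noncomputable def Eg (v : ℝ) : ℝ := (Real.sqrt Real.pi)⁻¹ * Real.exp (-v ^ 2 / 4)

theorem W_hasDeriv {l y : ℝ} (hl : 0 < l) (hy : 0 < y) :
    HasDerivAt (fun y : ℝ => W (l / y)) (Eg (Real.log l - Real.log y) / y) y := by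
  have h1 : ∀ x : ℝ, ∫ u in Set.Ioi x, Real.exp (-u ^ 2 / 4) =
      (∫ u in Set.Ioi (0:ℝ), Real.exp (-u ^ 2 / 4)) -
        ∫ u in (0:ℝ)..x, Real.exp (-u ^ 2 / 4) := by
    intro x
    have h := intervalIntegral.integral_Ioi_sub_Ioi' (a := 0) (b := x)
      (f := fun u : ℝ => Real.exp (-u ^ 2 / 4)) (μ := volume)
      WMellinAux.integrable_g0.integrableOn WMellinAux.integrable_g0.integrableOn
    linarith
  have h2 : ∀ x : ℝ, HasDerivAt (fun x : ℝ => ∫ u in (0:ℝ)..x, Real.exp (-u ^ 2 / 4)) (Real.exp (-x ^ 2 / 4)) x := by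
    intro x
    exact (Continuous.integral_hasStrictDerivAt (by fun_prop) 0 x).hasDerivAt
  have h3 : HasDerivAt (fun y : ℝ => Real.log l - Real.log y) (-(1 / y)) y := by
    have := (Real.hasDerivAt_log hy.ne').const_sub (Real.log l)
    rwa [← one_div] at this
  have h4 : HasDerivAt (fun y : ℝ => (Real.sqrt Real.pi)⁻¹ * ((∫ u in Set.Ioi (0:ℝ), Real.exp (-u ^ 2 / 4)) -
        ∫ u in (0:ℝ)..(Real.log l - Real.log y), Real.exp (-u ^ 2 / 4)))
      ((Real.sqrt Real.pi)⁻¹ * (-(Real.exp (-(Real.log l - Real.log y) ^ 2 / 4) * (-(1 / y))))) y :=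
    (((h2 (Real.log l - Real.log y)).comp y h3).const_sub _).const_mul _
  have h5 : Eg (Real.log l - Real.log y) / y =
      ((Real.sqrt Real.pi)⁻¹ * (-(Real.exp (-(Real.log l - Real.log y) ^ 2 / 4) * (-(1 / y))))) := by
    unfold Eg; ring
  rw [h5]
  refine h4.congr_of_eventuallyEq ?_
  filter_upwards [lt_mem_nhds hy] with z hz
  unfold W
  rw [Real.log_div hl.ne' hz.ne', h1]

theorem E_hasDeriv {l y : ℝ} (hy : 0 < y) :
    HasDerivAt (fun y : ℝ => Eg (Real.log l - Real.log y) / y)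
      (((Real.log l - Real.log y) / 2 - 1) * Eg (Real.log l - Real.log y) / y ^ 2) y := by
  have h3 : HasDerivAt (fun y : ℝ => Real.log l - Real.log y) (-(1 / y)) y := by
    have := (Real.hasDerivAt_log hy.ne').const_sub (Real.log l)
    rwa [← one_div] at this
  have h4 : HasDerivAt (fun y : ℝ => -(Real.log l - Real.log y) ^ 2 / 4)
      (-(((2 : ℕ) : ℝ) * (Real.log l - Real.log y) ^ (2 - 1) * (-(1 / y))) / 4) y := ((h3.pow 2).neg).div_const 4
  have h5 := (h4.exp.const_mul (Real.sqrt Real.pi)⁻¹).div (hasDerivAt_id y) hy.ne'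
  refine (h5.congr_deriv ?_)
  simp only [id]
  unfold Eg
  field_simp
  push_cast
  ring

theorem Eg_bound (θ v : ℝ) : (1 + |v|) * Eg v ≤ 2 * Real.exp (1 + 2 * θ ^ 2) * Real.exp (-(θ * v)) := by
  have hs : (Real.sqrt Real.pi)⁻¹ ≤ 1 := by
    apply inv_le_one_of_one_le₀
    rw [Real.one_le_sqrt]
    linarith [Real.pi_gt_three]
  have h1 : 1 + |v| ≤ 2 * Real.exp (v ^ 2 / 8 + 1) := by
    have h2 : |v| / 2 + 1 ≤ Real.exp (|v| / 2) := Real.add_one_le_exp _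
    have h3 : |v| / 2 ≤ v ^ 2 / 8 + 1 := by
      have := sq_nonneg (|v| - 2)
      have h4 : |v| ^ 2 = v ^ 2 := sq_abs v
      nlinarith
    have h5 := Real.exp_le_exp.2 h3
    linarith
  have h6 : Real.exp (v ^ 2 / 8 + 1) * Real.exp (-v ^ 2 / 4) ≤ Real.exp (1 + 2 * θ ^ 2) * Real.exp (-(θ * v)) := by
    rw [← Real.exp_add, ← Real.exp_add]
    apply Real.exp_le_exp.2
    nlinarith [sq_nonneg (v - 4 * θ)]
  unfold Eg
  have h7 : 0 ≤ (Real.sqrt Real.pi)⁻¹ := by positivity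
  have h8 := Real.exp_pos (-v ^ 2 / 4)
  calc (1 + |v|) * ((Real.sqrt Real.pi)⁻¹ * Real.exp (-v ^ 2 / 4)) ≤
        (2 * Real.exp (v ^ 2 / 8 + 1)) * (1 * Real.exp (-v ^ 2 / 4)) := by
        apply mul_le_mul h1 _ (by positivity) (by positivity)
        exact mul_le_mul_of_nonneg_right hs h8.le
    _ = 2 * (Real.exp (v ^ 2 / 8 + 1) * Real.exp (-v ^ 2 / 4)) := by ring
    _ ≤ 2 * (Real.exp (1 + 2 * θ ^ 2) * Real.exp (-(θ * v))) := by linarith
    _ = _ := by ring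

theorem exp_v {l y θ : ℝ} (hl : 0 < l) (hy : 0 < y) :
    Real.exp (-(θ * (Real.log l - Real.log y))) = l ^ (-θ) * y ^ θ := by
  rw [Real.rpow_def_of_pos hl, Real.rpow_def_of_pos hy, ← Real.exp_add]
  congr 1
  ring

/-- the cut-off function -/
noncomputable def ch : ContDiffBump (17 / 2 : ℝ) := ⟨15 / 2, 8, by norm_num, by norm_num⟩

theorem ch_smooth (n : ℕ) : ContDiff ℝ n (ch : ℝ → ℝ) := ch.contDiff

theorem ch_one {y : ℝ} (h1 : 1 ≤ y) (h2 : y ≤ 16) : ch y = 1 := by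
  apply ch.one_of_mem_closedBall
  rw [Metric.mem_closedBall, Real.dist_eq, abs_le]
  show -(15 / 2 : ℝ) ≤ _ ∧ _ ≤ (15 / 2 : ℝ)
  constructor <;> linarith

theorem ch_zero {y : ℝ} (h : 8 ≤ |y - 17 / 2|) : ch y = 0 := by
  apply ch.zero_of_le_dist
  rw [Real.dist_eq]
  exact h

theorem ch_deriv (y : ℝ) : HasDerivAt (ch : ℝ → ℝ) (deriv ch y) y :=
  ((ch_smooth 1).differentiable (by norm_num) y).hasDerivAt

theorem ch_contDiff_deriv : ContDiff ℝ 1 (deriv (ch : ℝ → ℝ)) := by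
  have := ch_smooth 2
  exact ((contDiff_succ_iff_deriv (n := 1)).1 (by exact_mod_cast this)).2.2

theorem ch_deriv2 (y : ℝ) : HasDerivAt (deriv (ch : ℝ → ℝ)) (deriv (deriv ch) y) y :=
  (ch_contDiff_deriv.differentiable (by norm_num) y).hasDerivAt

theorem ch_cont2 : Continuous (deriv (deriv (ch : ℝ → ℝ))) :=
  ch_contDiff_deriv.continuous_deriv le_rfl

theorem ch_deriv_zero {y : ℝ} (h : ch y = 0) : deriv ch y = 0 := by
  apply IsLocalMin.deriv_eq_zero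
  apply Filter.Eventually.of_forall
  intro z
  rw [h]
  exact ch.nonneg

theorem ch_bound : ∃ M : ℝ, 0 < M ∧ ∀ y ∈ Set.Icc (1 / 2 : ℝ) (1 / 2 + 32),
    |ch y| ≤ M ∧ |deriv ch y| ≤ M ∧ |deriv (deriv ch) y| ≤ M := by
  obtain ⟨M₁, h1⟩ := isCompact_Icc.exists_bound_of_continuousOn (s := Set.Icc (1 / 2 : ℝ) (1 / 2 + 32))
    (ch_smooth 0).continuous.continuousOn
  obtain ⟨M₂, h2⟩ := isCompact_Icc.exists_bound_of_continuousOn (s := Set.Icc (1 / 2 : ℝ) (1 / 2 + 32))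
    ch_contDiff_deriv.continuous.continuousOn
  obtain ⟨M₃, h3⟩ := isCompact_Icc.exists_bound_of_continuousOn (s := Set.Icc (1 / 2 : ℝ) (1 / 2 + 32))
    ch_cont2.continuousOn
  refine ⟨|M₁| + |M₂| + |M₃| + 1, by positivity, fun y hy => ?_⟩
  have a1 := h1 y hy
  have a2 := h2 y hy
  have a3 := h3 y hy
  rw [Real.norm_eq_abs] at a1 a2 a3
  have b1 := le_abs_self M₁
  have b2 := le_abs_self M₂
  have b3 := le_abs_self M₃
  have c1 := abs_nonneg M₁
  have c2 := abs_nonneg M₂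
  have c3 := abs_nonneg M₃
  refine ⟨by linarith, by linarith, by linarith⟩

noncomputable def Ff (l y : ℝ) : ℝ := ch y * W (l / y)

noncomputable def Fd1 (l y : ℝ) : ℝ := deriv ch y * W (l / y) + ch y * (Eg (Real.log l - Real.log y) / y)

noncomputable def Fd2 (l y : ℝ) : ℝ := (deriv (deriv ch) y * W (l / y) + deriv ch y * (Eg (Real.log l - Real.log y) / y)) +
  (deriv ch y * (Eg (Real.log l - Real.log y) / y) +
    ch y * (((Real.log l - Real.log y) / 2 - 1) * Eg (Real.log l - Real.log y) / y ^ 2))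

theorem Ff_deriv {l y : ℝ} (hl : 0 < l) (hy : 0 < y) : HasDerivAt (Ff l) (Fd1 l y) y :=
  (ch_deriv y).mul (W_hasDeriv hl hy)

theorem Fd1_deriv {l y : ℝ} (hl : 0 < l) (hy : 0 < y) : HasDerivAt (Fd1 l) (Fd2 l y) y :=
  ((ch_deriv2 y).mul (W_hasDeriv hl hy)).add ((ch_deriv y).mul (E_hasDeriv hy))

theorem Fd2_cont {l : ℝ} (hl : 0 < l) : ContinuousOn (Fd2 l) (Set.Icc (1 / 2 : ℝ) (1 / 2 + 32)) := by
  have hpos : ∀ y ∈ Set.Icc (1 / 2 : ℝ) (1 / 2 + 32), (0 : ℝ) < y := fun y hy => by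
    have := hy.1
    linarith
  have c0 : ContinuousOn (fun y : ℝ => W (l / y)) (Set.Icc (1 / 2 : ℝ) (1 / 2 + 32)) := fun y hy =>
    (W_hasDeriv hl (hpos y hy)).continuousAt.continuousWithinAt
  have c1 : ContinuousOn (fun y : ℝ => Eg (Real.log l - Real.log y) / y) (Set.Icc (1 / 2 : ℝ) (1 / 2 + 32)) :=
    fun y hy => (E_hasDeriv (hpos y hy)).continuousAt.continuousWithinAt
  have c2 : ContinuousOn (fun y : ℝ => Real.log y) (Set.Icc (1 / 2 : ℝ) (1 / 2 + 32)) :=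
    Real.continuousOn_log.mono fun y hy => (hpos y hy).ne'
  have c3 : ContinuousOn (fun y : ℝ => ((Real.log l - Real.log y) / 2 - 1) * Eg (Real.log l - Real.log y) / y ^ 2)
      (Set.Icc (1 / 2 : ℝ) (1 / 2 + 32)) := by
    have e : ∀ y ∈ Set.Icc (1 / 2 : ℝ) (1 / 2 + 32), ((Real.log l - Real.log y) / 2 - 1) * Eg (Real.log l - Real.log y) / y ^ 2 =
        ((Real.log l - Real.log y) / 2 - 1) * ((Eg (Real.log l - Real.log y) / y) / y) := by
      intro y hy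
      have := (hpos y hy).ne'
      field_simp
    refine ContinuousOn.congr ?_ e
    exact (((continuousOn_const.sub c2).div_const 2).sub continuousOn_const).mul
      (c1.div continuousOn_id fun y hy => (hpos y hy).ne')
  exact ((ch_cont2.continuousOn.mul c0).add (ch_contDiff_deriv.continuous.continuousOn.mul c1)).add
    ((ch_contDiff_deriv.continuous.continuousOn.mul c1).add ((ch_smooth 0).continuous.continuousOn.mul c3))

theorem F_bound (θ : ℝ) (hθ : 0 < θ) : ∃ B : ℝ, 0 < B ∧ ∀ l : ℝ, 0 < l → ∀ y ∈ Set.Icc (1 / 2 : ℝ) (1 / 2 + 32),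
    |Ff l y| ≤ B * l ^ (-θ) ∧ |Fd2 l y| ≤ B * l ^ (-θ) := by
  obtain ⟨M, hM, hb⟩ := ch_bound
  obtain ⟨C, hC, hW⟩ := W_le_rpow θ hθ
  refine ⟨M * (C + 16 * Real.exp (1 + 2 * θ ^ 2)) * 33 ^ θ, by positivity, ?_⟩
  intro l hl y hy
  have hy0 : 0 < y := by have := hy.1; linarith
  have hy1 : y ≤ 33 := by have := hy.2; linarith
  have hy2 : 1 / 2 ≤ y := hy.1
  obtain ⟨b1, b2, b3⟩ := hb y hy
  have hyθ : y ^ θ ≤ 33 ^ θ := Real.rpow_le_rpow hy0.le hy1 hθ.le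
  have hlθ : 0 < l ^ (-θ) := Real.rpow_pos_of_pos hl _
  have hw0 : 0 ≤ W (l / y) := W_nonneg _
  have hw : W (l / y) ≤ C * (l ^ (-θ) * 33 ^ θ) := by
    refine le_trans (hW _ (by positivity)) ?_
    apply mul_le_mul_of_nonneg_left _ hC.le
    rw [Real.div_rpow hl.le hy0.le, Real.rpow_neg hy0.le, div_inv_eq_mul]
    exact mul_le_mul_of_nonneg_left hyθ hlθ.le
  set v := Real.log l - Real.log y with hv
  have hE0 : 0 ≤ Eg v := by unfold Eg; positivity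
  have hE : (1 + |v|) * Eg v ≤ 2 * Real.exp (1 + 2 * θ ^ 2) * (l ^ (-θ) * 33 ^ θ) := by
    refine le_trans (Eg_bound θ v) ?_
    apply mul_le_mul_of_nonneg_left _ (by positivity)
    rw [hv, exp_v hl hy0]
    exact mul_le_mul_of_nonneg_left hyθ hlθ.le
  have hv0 := abs_nonneg v
  have hEy : Eg v / y ≤ 2 * ((1 + |v|) * Eg v) := by
    rw [div_le_iff₀ hy0]
    have : 0 ≤ |v| * Eg v := mul_nonneg hv0 hE0
    nlinarith
  have hEy0 : 0 ≤ Eg v / y := div_nonneg hE0 hy0.le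
  have hEyy : |(v / 2 - 1) * Eg v / y ^ 2| ≤ 4 * ((1 + |v|) * Eg v) := by
    rw [abs_div, abs_mul, abs_of_nonneg hE0, abs_of_nonneg (by positivity : (0 : ℝ) ≤ y ^ 2), div_le_iff₀ (by positivity)]
    have t1 : |v / 2 - 1| ≤ 1 + |v| := by
      have h1 := abs_sub (v / 2) 1
      rw [abs_div, abs_one, abs_two] at h1
      linarith
    have t2 : (1 : ℝ) ≤ 4 * y ^ 2 := by nlinarith
    have t3 : 0 ≤ (1 + |v|) * Eg v := by positivity
    calc |v / 2 - 1| * Eg v ≤ (1 + |v|) * Eg v := mul_le_mul_of_nonneg_right t1 hE0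
      _ = ((1 + |v|) * Eg v) * 1 := by ring
      _ ≤ ((1 + |v|) * Eg v) * (4 * y ^ 2) := mul_le_mul_of_nonneg_left t2 t3
      _ = _ := by ring
  set R := l ^ (-θ) * 33 ^ θ with hR
  have hR0 : 0 < R := by positivity
  set X := Real.exp (1 + 2 * θ ^ 2) with hX
  have hX0 : 0 < X := Real.exp_pos _
  have hgoal : M * (C + 16 * X) * 33 ^ θ * l ^ (-θ) = M * (C + 16 * X) * R := by rw [hR]; ring
  rw [hgoal]
  constructor
  · unfold Ff
    rw [abs_mul, abs_of_nonneg hw0]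
    calc |ch y| * W (l / y) ≤ M * (C * R) := mul_le_mul b1 hw hw0 hM.le
      _ ≤ M * (C + 16 * X) * R := by
          rw [mul_assoc]
          apply mul_le_mul_of_nonneg_left _ hM.le
          apply mul_le_mul_of_nonneg_right _ hR0.le
          linarith
  · unfold Fd2
    rw [← hv]
    have u1 : |deriv (deriv ch) y * W (l / y)| ≤ M * (C * R) := by
      rw [abs_mul, abs_of_nonneg hw0]
      exact mul_le_mul b3 hw hw0 hM.le
    have u2 : |deriv ch y * (Eg v / y)| ≤ M * (2 * (2 * X * R)) := by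
      rw [abs_mul, abs_of_nonneg hEy0]
      exact mul_le_mul b2 (by linarith) hEy0 hM.le
    have u3 : |ch y * ((v / 2 - 1) * Eg v / y ^ 2)| ≤ M * (4 * (2 * X * R)) := by
      rw [abs_mul]
      exact mul_le_mul b1 (by linarith) (abs_nonneg _) hM.le
    calc |(deriv (deriv ch) y * W (l / y) + deriv ch y * (Eg v / y)) +
          (deriv ch y * (Eg v / y) + ch y * ((v / 2 - 1) * Eg v / y ^ 2))| ≤
          (|deriv (deriv ch) y * W (l / y)| + |deriv ch y * (Eg v / y)|) +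
          (|deriv ch y * (Eg v / y)| + |ch y * ((v / 2 - 1) * Eg v / y ^ 2)|) :=
          le_trans (abs_add_le _ _) (add_le_add (abs_add_le _ _) (abs_add_le _ _))
      _ ≤ (M * (C * R) + M * (2 * (2 * X * R))) + (M * (2 * (2 * X * R)) + M * (4 * (2 * X * R))) :=
          add_le_add (add_le_add u1 u2) (add_le_add u2 u3)
      _ = _ := by ring

/-- the Fourier coefficients -/
noncomputable def cc (l : ℝ) (k : ℤ) : ℂ := fourierCoeffOn hab (fun y : ℝ => ((Ff l y : ℝ) : ℂ)) k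

theorem Ff_end1 (l : ℝ) : Ff l (1 / 2) = 0 := by
  unfold Ff
  rw [ch_zero (by norm_num), zero_mul]

theorem Ff_end2 (l : ℝ) : Ff l (1 / 2 + 32) = 0 := by
  unfold Ff
  rw [ch_zero (by norm_num), zero_mul]

theorem Fd1_end1 (l : ℝ) : Fd1 l (1 / 2) = 0 := by
  have h : ch (1 / 2) = 0 := ch_zero (by norm_num)
  unfold Fd1
  rw [ch_deriv_zero h, h, zero_mul, zero_mul, add_zero]

theorem Fd1_end2 (l : ℝ) : Fd1 l (1 / 2 + 32) = 0 := by
  have h : ch (1 / 2 + 32) = 0 := ch_zero (by norm_num)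
  unfold Fd1
  rw [ch_deriv_zero h, h, zero_mul, zero_mul, add_zero]

theorem cc_bound (θ : ℝ) (hθ : 0 < θ) : ∃ B : ℝ, 0 < B ∧ ∀ l : ℝ, 0 < l → ∀ k : ℤ,
    ‖cc l k‖ ≤ B * l ^ (-θ) / (1 + (k : ℝ) ^ 2) := by
  obtain ⟨B, hB, hb⟩ := F_bound θ hθ
  refine ⟨60 * B, by positivity, ?_⟩
  intro l hl k
  have hpos : ∀ y ∈ Set.Icc (1 / 2 : ℝ) (1 / 2 + 32), (0 : ℝ) < y := fun y hy => by
    have := hy.1
    linarith
  have := coeff_bound (f := fun y : ℝ => ((Ff l y : ℝ) : ℂ)) (f' := fun y : ℝ => ((Fd1 l y : ℝ) : ℂ))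
    (f'' := fun y : ℝ => ((Fd2 l y : ℝ) : ℂ))
    (fun x hx => (Ff_deriv hl (hpos x hx)).ofReal_comp) (fun x hx => (Fd1_deriv hl (hpos x hx)).ofReal_comp)
    (Complex.continuous_ofReal.comp_continuousOn (Fd2_cont hl))
    (by rw [Ff_end1]; simp) (by rw [Ff_end2]; simp) (by rw [Fd1_end1]; simp) (by rw [Fd1_end2]; simp)
    (B * l ^ (-θ)) (fun x hx => by rw [Complex.norm_real, Real.norm_eq_abs]; exact (hb l hl x hx).1)
    (fun x hx => by rw [Complex.norm_real, Real.norm_eq_abs]; exact (hb l hl x hx).2) k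
  unfold cc
  rw [mul_assoc]
  exact this

theorem summable_inv_sq : Summable (fun k : ℤ => (1 + (k : ℝ) ^ 2)⁻¹) := by
  have h1 : Summable (fun n : ℕ => (1 + (n : ℝ) ^ 2)⁻¹) := by
    refine Summable.of_nonneg_of_le (fun n => by positivity) (fun n => ?_)
      ((summable_nat_add_iff 1).2 (Real.summable_nat_pow_inv.2 (by norm_num : 1 < 2)) |>.mul_left 2)
    push_cast
    rw [← div_eq_mul_inv, inv_eq_one_div, div_le_div_iff₀ (by positivity) (by positivity)]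
    nlinarith [sq_nonneg ((n : ℝ) - 1)]
  refine Summable.of_nat_of_neg ?_ ?_
  · simpa using h1
  · simpa using h1

theorem cc_summable {l : ℝ} (hl : 0 < l) : Summable (fun k : ℤ => cc l k) := by
  obtain ⟨B, hB, hb⟩ := cc_bound 1 one_pos
  refine Summable.of_norm_bounded (summable_inv_sq.mul_left (B * l ^ (-(1 : ℝ)))) (fun k => ?_)
  rw [← div_eq_mul_inv]
  exact hb l hl k

theorem cc_hasSum {l : ℝ} (hl : 0 < l) {y : ℝ} (h1 : 1 ≤ y) (h2 : y ≤ 16) :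
    HasSum (fun k : ℤ => cc l k * cexp (((2 * Real.pi * k * y / 32 : ℝ) : ℂ) * I)) ((W (l / y) : ℝ) : ℂ) := by
  have hpos : ∀ y ∈ Set.Icc (1 / 2 : ℝ) (1 / 2 + 32), (0 : ℝ) < y := fun y hy => by
    have := hy.1
    linarith
  have hc : ContinuousOn (fun y : ℝ => ((Ff l y : ℝ) : ℂ)) (Set.Icc (1 / 2 : ℝ) (1 / 2 + 32)) := fun x hx =>
    (Ff_deriv hl (hpos x hx)).ofReal_comp.continuousAt.continuousWithinAt
  have := series hc (by simp only [Ff_end1, Ff_end2]) (cc_summable hl) y (by linarith) (by linarith)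
  have e : Ff l y = W (l / y) := by
    unfold Ff
    rw [ch_one h1 h2, one_mul]
  rw [e] at this
  exact this

/-- the scale of the term `g` -/
noncomputable def lg (U h : ℝ) (g : ℕ+) : ℝ := 2 * Real.pi * ((g : ℕ) : ℝ) ^ 2 * h / U

theorem lg_pow {U h θ : ℝ} (hU : 1 ≤ U) (hh : 1 ≤ h) (hθ : 0 < θ) (g : ℕ+) :
    (lg U h g) ^ (-θ) / ((g : ℕ) : ℝ) ≤ (U / h) ^ θ * ((g : ℕ) : ℝ) ^ (-1 - 2 * θ) := by
  have hg : (0 : ℝ) < ((g : ℕ) : ℝ) := by exact_mod_cast g.pos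
  have hU0 : 0 < U := by linarith
  have hh0 : 0 < h := by linarith
  have e1 : lg U h g = (2 * Real.pi) * (((g : ℕ) : ℝ) ^ 2 * (U / h)⁻¹) := by
    unfold lg; rw [inv_div]; ring
  have e2 : ((((g : ℕ) : ℝ)) ^ 2) ^ (-θ) = ((g : ℕ) : ℝ) ^ (-2 * θ) := by
    rw [← Real.rpow_natCast, ← Real.rpow_mul hg.le]
    congr 1
    push_cast
    ring
  have e3 : ((U / h)⁻¹) ^ (-θ) = (U / h) ^ θ := by
    rw [Real.inv_rpow (by positivity), Real.rpow_neg (by positivity), inv_inv]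
  have e4 : (2 * Real.pi) ^ (-θ) ≤ 1 :=
    Real.rpow_le_one_of_one_le_of_nonpos (by linarith [Real.pi_gt_three]) (by linarith)
  have e5 : ((g : ℕ) : ℝ) ^ (-1 - 2 * θ) = ((g : ℕ) : ℝ) ^ (-2 * θ) / ((g : ℕ) : ℝ) := by
    rw [div_eq_mul_inv, ← Real.rpow_neg_one, ← Real.rpow_add hg]
    congr 1
    ring
  rw [e1, Real.mul_rpow (x := 2 * Real.pi) (by positivity) (by positivity),
    Real.mul_rpow (x := (((g : ℕ) : ℝ)) ^ 2) (by positivity) (by positivity), e2, e3, e5]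
  have h0 : 0 ≤ ((g : ℕ) : ℝ) ^ (-2 * θ) * (U / h) ^ θ := by positivity
  calc (2 * Real.pi) ^ (-θ) * (((g : ℕ) : ℝ) ^ (-2 * θ) * (U / h) ^ θ) / ((g : ℕ) : ℝ) ≤
        1 * (((g : ℕ) : ℝ) ^ (-2 * θ) * (U / h) ^ θ) / ((g : ℕ) : ℝ) :=
        div_le_div_of_nonneg_right (mul_le_mul_of_nonneg_right e4 h0) hg.le
    _ = _ := by ring

theorem term_le {δ : ℝ} (hδ : 0 < δ) (hδ2 : δ ≤ 1 / 2) : ∃ C : ℝ, 0 < C ∧ ∀ U h : ℝ, 1 ≤ U → 1 ≤ h → ∀ (k : ℤ) (g : ℕ+),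
    ‖((((g : ℕ) : ℝ) : ℂ))⁻¹ * cc (lg U h g) k‖ ≤
      (C / (1 + (k : ℝ) ^ 2)) * (kap δ U h * ((g : ℕ) : ℝ) ^ (-1 - 2 * δ)) := by
  obtain ⟨B₁, hB₁, h1⟩ := cc_bound δ hδ
  obtain ⟨B₂, hB₂, h2⟩ := cc_bound 2 two_pos
  refine ⟨B₁ + B₂, by positivity, ?_⟩
  intro U h hU hh k g
  have hg : (0 : ℝ) < ((g : ℕ) : ℝ) := by exact_mod_cast g.pos
  have hg1 : (1 : ℝ) ≤ ((g : ℕ) : ℝ) := by exact_mod_cast g.pos
  have hU0 : 0 < U := by linarith
  have hh0 : 0 < h := by linarith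
  have hl : 0 < lg U h g := by
    have := Real.pi_pos
    unfold lg; positivity
  have hk : (0 : ℝ) < 1 + (k : ℝ) ^ 2 := by positivity
  have key : ∀ (θ B : ℝ), 0 < θ → 0 < B → δ ≤ θ → B ≤ B₁ + B₂ → kap δ U h = (U / h) ^ θ →
      ‖cc (lg U h g) k‖ ≤ B * (lg U h g) ^ (-θ) / (1 + (k : ℝ) ^ 2) →
      ‖((((g : ℕ) : ℝ) : ℂ))⁻¹ * cc (lg U h g) k‖ ≤
        ((B₁ + B₂) / (1 + (k : ℝ) ^ 2)) * (kap δ U h * ((g : ℕ) : ℝ) ^ (-1 - 2 * δ)) := by
    intro θ B hθ hB hδθ hBB hkap hc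
    rw [norm_mul, norm_inv, Complex.norm_real, Real.norm_eq_abs, abs_of_pos hg, hkap]
    have h3 := lg_pow hU hh hθ g
    have h4 : ((g : ℕ) : ℝ) ^ (-1 - 2 * θ) ≤ ((g : ℕ) : ℝ) ^ (-1 - 2 * δ) :=
      Real.rpow_le_rpow_of_exponent_le hg1 (by linarith)
    have h5 : 0 < (U / h) ^ θ := by positivity
    calc (((g : ℕ) : ℝ))⁻¹ * ‖cc (lg U h g) k‖ ≤ (((g : ℕ) : ℝ))⁻¹ * (B * (lg U h g) ^ (-θ) / (1 + (k : ℝ) ^ 2)) :=
          mul_le_mul_of_nonneg_left hc (by positivity)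
      _ = (B / (1 + (k : ℝ) ^ 2)) * ((lg U h g) ^ (-θ) / ((g : ℕ) : ℝ)) := by ring
      _ ≤ ((B₁ + B₂) / (1 + (k : ℝ) ^ 2)) * ((U / h) ^ θ * ((g : ℕ) : ℝ) ^ (-1 - 2 * δ)) := by
          apply mul_le_mul (div_le_div_of_nonneg_right hBB hk.le) _ (by positivity) (by positivity)
          exact le_trans h3 (mul_le_mul_of_nonneg_left h4 h5.le)
  by_cases hhU : h ≤ U
  · exact key δ B₁ hδ hB₁ le_rfl (by linarith) (by unfold kap; rw [if_pos hhU]) (h1 _ hl k)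
  · exact key 2 B₂ two_pos hB₂ (by linarith) (by linarith) (by unfold kap; rw [if_neg hhU]) (h2 _ hl k)

theorem summable_g {δ : ℝ} (hδ : 0 < δ) : Summable (fun g : ℕ+ => ((g : ℕ) : ℝ) ^ (-1 - 2 * δ)) := by
  have h : Summable (fun g : ℕ => (g : ℝ) ^ (-1 - 2 * δ)) := Real.summable_nat_rpow.2 (by linarith)
  exact h.comp_injective PNat.coe_injective

end FourSepAux

open FourSepAux in
theorem four_sep (δ : ℝ) (hδ : 0 < δ) (hδ2 : δ ≤ 1 / 2) : ∃ C : ℝ, 0 < C ∧ ∀ U : ℝ, 1 ≤ U → ∃ ω : ℤ → ℝ → ℂ,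
    (∀ (k : ℤ) (h : ℝ), 1 ≤ h → ‖ω k h‖ ≤ C / (1 + (k : ℝ) ^ 2) * kap δ U h) ∧
      ∀ h : ℝ, 1 ≤ h → ∀ x : ℝ, U ≤ x → x ≤ 16 * U →
        HasSum (fun k : ℤ => ω k h * cexp (((2 * Real.pi * k * x / (32 * U) : ℝ) : ℂ) * I)) (Om h x : ℂ) := by
  obtain ⟨C, hC, hb⟩ := term_le hδ hδ2
  have hsg := summable_g hδ
  have hz : 0 ≤ ∑' g : ℕ+, ((g : ℕ) : ℝ) ^ (-1 - 2 * δ) := tsum_nonneg fun g => by positivity
  refine ⟨C * (∑' g : ℕ+, ((g : ℕ) : ℝ) ^ (-1 - 2 * δ)) + 1, by positivity, ?_⟩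
  intro U hU
  have hU0 : 0 < U := by linarith
  refine ⟨fun k h => ∑' g : ℕ+, ((((g : ℕ) : ℝ) : ℂ))⁻¹ * cc (lg U h g) k, ?_, ?_⟩
  · intro k h hh
    have hk : (0 : ℝ) < 1 + (k : ℝ) ^ 2 := by positivity
    have hkap : 0 ≤ kap δ U h := kap_nonneg (by linarith) (by linarith)
    have h1 : HasSum (fun g : ℕ+ => (C / (1 + (k : ℝ) ^ 2)) * (kap δ U h * ((g : ℕ) : ℝ) ^ (-1 - 2 * δ)))
        ((C / (1 + (k : ℝ) ^ 2)) * (kap δ U h * ∑' g : ℕ+, ((g : ℕ) : ℝ) ^ (-1 - 2 * δ))) :=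
      (hsg.hasSum.mul_left _).mul_left _
    refine le_trans (tsum_of_norm_bounded h1 (fun g => hb U h hU hh k g)) ?_
    calc (C / (1 + (k : ℝ) ^ 2)) * (kap δ U h * ∑' g : ℕ+, ((g : ℕ) : ℝ) ^ (-1 - 2 * δ)) =
          (C * (∑' g : ℕ+, ((g : ℕ) : ℝ) ^ (-1 - 2 * δ))) / (1 + (k : ℝ) ^ 2) * kap δ U h := by ring
      _ ≤ _ := by
          apply mul_le_mul_of_nonneg_right _ hkap
          apply div_le_div_of_nonneg_right _ hk.le
          linarith
  · intro h hh x hx1 hx2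
    have hy1 : 1 ≤ x / U := by rw [le_div_iff₀ hU0]; linarith
    have hy2 : x / U ≤ 16 := by rw [div_le_iff₀ hU0]; linarith
    have hx0 : 0 < x := by linarith
    have hh0 : 0 < h := by linarith
    have hl : ∀ g : ℕ+, 0 < lg U h g := fun g => by
      have hg : (0 : ℝ) < ((g : ℕ) : ℝ) := by exact_mod_cast g.pos
      have := Real.pi_pos
      unfold lg; positivity
    set e : ℤ → ℂ := fun k => cexp (((2 * Real.pi * k * x / (32 * U) : ℝ) : ℂ) * I) with he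
    have hen : ∀ k, ‖e k‖ = 1 := fun k => by rw [he]; exact Complex.norm_exp_ofReal_mul_I _
    have hS : Summable (fun p : ℤ × ℕ+ => ((((p.2 : ℕ) : ℝ) : ℂ))⁻¹ * cc (lg U h p.2) p.1 * e p.1) := by
      have h1 : Summable (fun p : ℤ × ℕ+ => (C * (1 + (p.1 : ℝ) ^ 2)⁻¹) * (kap δ U h * ((p.2 : ℕ) : ℝ) ^ (-1 - 2 * δ))) := by
        refine Summable.mul_of_nonneg (summable_inv_sq.mul_left C) (hsg.mul_left (kap δ U h)) (fun k => ?_) (fun g => ?_)
        · show (0 : ℝ) ≤ C * (1 + (k : ℝ) ^ 2)⁻¹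
          positivity
        · exact mul_nonneg (kap_nonneg (by linarith) (by linarith)) (by positivity)
      refine Summable.of_norm_bounded h1 (fun p => ?_)
      rw [norm_mul, hen, mul_one, ← div_eq_mul_inv]
      exact hb U h hU hh p.1 p.2
    have h2 := hS.hasSum.prod_fiberwise (fun k => (hS.prod_factor k).hasSum)
    have h3 : ∑' p : ℤ × ℕ+, ((((p.2 : ℕ) : ℝ) : ℂ))⁻¹ * cc (lg U h p.2) p.1 * e p.1 = ((Om h x : ℝ) : ℂ) := by
      rw [hS.tsum_prod, ← Summable.tsum_comm (f := fun (k : ℤ) (g : ℕ+) => ((((g : ℕ) : ℝ) : ℂ))⁻¹ * cc (lg U h g) k * e k) hS]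
      unfold Om
      rw [Complex.ofReal_tsum]
      apply tsum_congr
      intro g
      have h4 := cc_hasSum (hl g) hy1 hy2
      have h5 : (fun k : ℤ => ((((g : ℕ) : ℝ) : ℂ))⁻¹ * cc (lg U h g) k * e k) = fun k : ℤ => ((((g : ℕ) : ℝ) : ℂ))⁻¹ *
          (cc (lg U h g) k * cexp (((2 * Real.pi * k * (x / U) / 32 : ℝ) : ℂ) * I)) := by
        funext k
        rw [mul_assoc, he]
        congr 5
        field_simp
      rw [h5, (h4.mul_left _).tsum_eq]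
      have h6 : lg U h g / (x / U) = 2 * Real.pi * ((g : ℕ) : ℝ) ^ 2 * h / x := by
        unfold lg; field_simp
      rw [h6]
      push_cast
      ring
    rw [h3] at h2
    refine h2.congr_fun ?_
    intro k
    exact tsum_mul_right.symm

end Pool.Agent.P07318f
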