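import Pool.Agent.Lib.P07318f.MultiRes

/-!
# Mean over the circle `‖s‖ = rho`

`multi_res`, Fubini (`s = circleMap 0 rho θ`, the integrand is continuous on the compact set of `(θ, z)`, replace `RR H · X2 · vdm²` by the continuous `K` of
`MultiRes`), and for `|z_i| = 1/16` the function `s ↦ (∏ (z_i²-s²)(z_i²-4s²))⁻¹` is holomorphic for `|s| < 1/32`, so its mean over the circle `|s| = rho` is the value
at `0` (`circleAverage`/`Complex.circleIntegral_sub_center_inv_smul..` mean value property): `(∏ z_i⁴)⁻¹`.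
`six_cont`: continuity of `θ ↦ Six` (`RR H` at the six points: `H` continuous, the denominators are nonzero multiples of `s⁴`).
-/

set_option autoImplicit false

namespace Pool.Agent.P07318f

open MeasureTheory Complex

namespace SAvgAux

lemma rho_pos : 0 < rho := by unfold rho; norm_num

lemma rho_lt : rho < 1 / 10 ^ 6 := by unfold rho; norm_num

lemma norm_cm (θ : ℝ) : ‖circleMap 0 rho θ‖ = rho := by
  rw [norm_circleMap_zero, abs_of_pos rho_pos]

lemma cm_ne (θ : ℝ) : circleMap 0 rho θ ≠ 0 := by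
  rw [← norm_pos_iff, norm_cm]
  exact rho_pos

lemma x2_cont {x : ℝ} (hx : 0 < x) : Continuous (X2 x) := by
  have h : (((x / (2 * Real.pi) : ℝ)) : ℂ) ≠ 0 := by
    have h1 : 0 < x / (2 * Real.pi) := by positivity
    exact_mod_cast h1.ne'
  unfold X2
  exact continuous_id.const_cpow (Or.inl h)

lemma mem_bx {L : ℝ} (hL : 1 / 2 ≤ L) {u : Fin 4 → ℂ} (hu : ∀ i, ‖u i‖ ≤ 1 / 16) : u ∈ Bx L := by
  intro i
  constructor
  · exact lt_of_le_of_lt ((abs_re_le_norm _).trans (hu i)) (by norm_num)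
  · exact lt_of_le_of_lt ((abs_im_le_norm _).trans (hu i)) (by linarith)

lemma rr_cont {L B : ℝ} {H : (Fin 4 → ℂ) → ℂ} (hL : 1 / 2 ≤ L) (hH : Hol4 L B H) (c : Fin 4 → ℂ)
    (hc : ∀ i, ‖c i‖ ≤ 2) (hP : Pi4 c ≠ 0) :
    Continuous fun θ : ℝ => RR H (fun i => c i * circleMap 0 rho θ) := by
  unfold RR
  have h1 : Continuous fun θ : ℝ => (fun i : Fin 4 => c i * circleMap 0 rho θ) := by
    refine continuous_pi fun i => ?_
    exact continuous_const.mul (continuous_circleMap 0 rho)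
  have h2 : Continuous fun θ : ℝ => H (fun i => c i * circleMap 0 rho θ) := by
    refine hH.cont.comp_continuous h1 fun θ => mem_bx hL fun i => ?_
    rw [norm_mul, norm_cm]
    have := hc i
    have h3 := rho_lt
    have h4 := rho_pos
    nlinarith
  have h3 : ∀ θ : ℝ, Pi4 (fun i => c i * circleMap 0 rho θ) = Pi4 c * circleMap 0 rho θ ^ 4 := by
    intro θ
    unfold Pi4
    ring
  simp only [h3]
  refine h2.div (continuous_const.mul ((continuous_circleMap 0 rho).pow 4)) fun θ => ?_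
  exact mul_ne_zero hP (pow_ne_zero _ (cm_ne θ))

lemma vec4 (a b c d s : ℂ) : ![a * s, b * s, c * s, d * s] = fun i => ![a, b, c, d] i * s := by
  funext i
  fin_cases i <;> rfl

lemma term_cont {L B : ℝ} {H : (Fin 4 → ℂ) → ℂ} (hL : 1 / 2 ≤ L) (hH : Hol4 L B H)
    (a b c d : ℂ) (ha : ‖a‖ ≤ 2) (hb : ‖b‖ ≤ 2) (hc : ‖c‖ ≤ 2) (hd : ‖d‖ ≤ 2)
    (hP : (a + c) * (a + d) * ((b + c) * (b + d)) ≠ 0) :
    Continuous fun θ : ℝ => RR H ![a * circleMap 0 rho θ, b * circleMap 0 rho θ,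
      c * circleMap 0 rho θ, d * circleMap 0 rho θ] := by
  simp only [vec4]
  refine rr_cont hL hH ![a, b, c, d] ?_ hP
  intro i
  fin_cases i
  · exact ha
  · exact hb
  · exact hc
  · exact hd

lemma av_eq (f : ℂ → ℂ) : av f = Real.circleAverage f 0 rho := by
  unfold av Real.circleAverage
  rw [Complex.real_smul]
  push_cast
  rfl

/-- the regular numerator -/
noncomputable def KK' (H : (Fin 4 → ℂ) → ℂ) (x : ℝ) (z : Fin 4 → ℂ) : ℂ :=
  H ![z 0, z 1, -z 2, -z 3] * X2 x ((z 0 + z 1 - z 2 - z 3) / 2) * vdm z *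
    ((z 1 - z 0) * (z 3 - z 2))

lemma num_eq (H : (Fin 4 → ℂ) → ℂ) (x : ℝ) (z : Fin 4 → ℂ) :
    RR H ![z 0, z 1, -z 2, -z 3] * X2 x ((z 0 + z 1 - z 2 - z 3) / 2) * vdm z ^ 2 =
      KK' H x z := by
  have hP : Pi4 ![z 0, z 1, -z 2, -z 3] =
      (z 0 - z 2) * (z 0 - z 3) * ((z 1 - z 2) * (z 1 - z 3)) := by
    change (z 0 + -z 2) * (z 0 + -z 3) * ((z 1 + -z 2) * (z 1 + -z 3)) = _
    ring
  have hv : vdm z = Pi4 ![z 0, z 1, -z 2, -z 3] * ((z 1 - z 0) * (z 3 - z 2)) := by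
    rw [hP]
    unfold vdm
    ring
  unfold KK' RR
  by_cases h0 : Pi4 ![z 0, z 1, -z 2, -z 3] = 0
  · have hv0 : vdm z = 0 := by rw [hv, h0, zero_mul]
    rw [hv0]
    ring
  · have h1 : H ![z 0, z 1, -z 2, -z 3] / Pi4 ![z 0, z 1, -z 2, -z 3] * vdm z =
        H ![z 0, z 1, -z 2, -z 3] * ((z 1 - z 0) * (z 3 - z 2)) := by
      rw [hv]
      field_simp
    calc H ![z 0, z 1, -z 2, -z 3] / Pi4 ![z 0, z 1, -z 2, -z 3] *
          X2 x ((z 0 + z 1 - z 2 - z 3) / 2) * vdm z ^ 2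
        = (H ![z 0, z 1, -z 2, -z 3] / Pi4 ![z 0, z 1, -z 2, -z 3] * vdm z) *
          X2 x ((z 0 + z 1 - z 2 - z 3) / 2) * vdm z := by ring
      _ = _ := by rw [h1]; ring

lemma tm_cont : Continuous (torusMap (0 : Fin 4 → ℂ) (fun _ => 1 / 16)) := by
  unfold torusMap
  fun_prop

lemma tm_norm (Θ : Fin 4 → ℝ) (i : Fin 4) :
    ‖torusMap (0 : Fin 4 → ℂ) (fun _ => 1 / 16) Θ i‖ = 1 / 16 := by
  unfold torusMap
  rw [Pi.zero_apply, zero_add, norm_mul, Complex.norm_exp_ofReal_mul_I, mul_one,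
    Complex.norm_real]
  norm_num

lemma kk_cont {L B x : ℝ} {H : (Fin 4 → ℂ) → ℂ} (hx : 0 < x) (hL : 1 / 2 ≤ L) (hH : Hol4 L B H) :
    Continuous fun Θ : Fin 4 → ℝ => KK' H x (torusMap (0 : Fin 4 → ℂ) (fun _ => 1 / 16) Θ) := by
  unfold KK'
  have ht : ∀ i, Continuous fun Θ : Fin 4 → ℝ =>
      torusMap (0 : Fin 4 → ℂ) (fun _ => 1 / 16) Θ i := fun i =>
    (continuous_apply i).comp tm_cont
  have h0 := ht 0
  have h1 := ht 1
  have h2 := ht 2
  have h3 := ht 3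
  refine (((Continuous.mul ?_ ?_).mul ?_).mul ?_)
  · refine hH.cont.comp_continuous ?_ fun Θ => mem_bx hL fun i => ?_
    · refine continuous_pi fun i => ?_
      fin_cases i
      · exact h0
      · exact h1
      · exact h2.neg
      · exact h3.neg
    · fin_cases i
      · exact (tm_norm Θ 0).le
      · exact (tm_norm Θ 1).le
      · change ‖-torusMap (0 : Fin 4 → ℂ) (fun _ => 1 / 16) Θ 2‖ ≤ 1 / 16
        rw [norm_neg]
        exact (tm_norm Θ 2).le
      · change ‖-torusMap (0 : Fin 4 → ℂ) (fun _ => 1 / 16) Θ 3‖ ≤ 1 / 16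
        rw [norm_neg]
        exact (tm_norm Θ 3).le
  · exact (x2_cont hx).comp ((((h0.add h1).sub h2).sub h3).div_const 2)
  · unfold vdm
    fun_prop
  · fun_prop

lemma den_ne {z s : ℂ} (hz : ‖z‖ = 1 / 16) (hs : ‖s‖ < 1 / 32) :
    (z ^ 2 - s ^ 2) * (z ^ 2 - 4 * s ^ 2) ≠ 0 := by
  have h1 : ‖s‖ ^ 2 < (1 / 32) ^ 2 := by
    have := norm_nonneg s
    nlinarith
  refine mul_ne_zero ?_ ?_
  · intro h
    have h2 : z ^ 2 = s ^ 2 := by linear_combination h
    have h3 := congrArg norm h2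
    rw [norm_pow, norm_pow, hz] at h3
    nlinarith
  · intro h
    have h2 : z ^ 2 = 4 * s ^ 2 := by linear_combination h
    have h3 := congrArg norm h2
    rw [norm_mul, norm_pow, norm_pow, hz] at h3
    norm_num at h3
    nlinarith

/-- the denominator -/
noncomputable def gg (z : Fin 4 → ℂ) (s : ℂ) : ℂ := (∏ i, ((z i ^ 2 - s ^ 2) * (z i ^ 2 - 4 * s ^ 2)))⁻¹

lemma gg_zero (z : Fin 4 → ℂ) : gg z 0 = (∏ i, z i ^ 4)⁻¹ := by
  unfold gg
  congr 1
  refine Finset.prod_congr rfl fun i _ => ?_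
  ring

lemma gg_mean {z : Fin 4 → ℂ} (hz : ∀ i, ‖z i‖ = 1 / 16) : av (gg z) = (∏ i, z i ^ 4)⁻¹ := by
  have hne : ∀ s : ℂ, ‖s‖ < 1 / 32 → ∏ i, ((z i ^ 2 - s ^ 2) * (z i ^ 2 - 4 * s ^ 2)) ≠ 0 :=
    fun s hs => Finset.prod_ne_zero_iff.2 fun i _ => den_ne (hz i) hs
  have hd : ∀ s : ℂ, ‖s‖ < 1 / 32 → DifferentiableAt ℂ (gg z) s := by
    intro s hs
    unfold gg
    refine DifferentiableAt.fun_inv ?_ (hne s hs)
    fun_prop
  have hr : rho < 1 / 32 := rho_lt.trans (by norm_num)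
  rw [av_eq, ← gg_zero]
  refine circleAverage_of_differentiable_on_off_countable (s := ∅) Set.countable_empty ?_ ?_
  · intro s hs
    rw [mem_closedBall_zero_iff, abs_of_pos rho_pos] at hs
    exact (hd s (lt_of_le_of_lt hs hr)).continuousAt.continuousWithinAt
  · intro s hs
    have hs1 := hs.1
    rw [mem_ball_zero_iff, abs_of_pos rho_pos] at hs1
    exact hd s (hs1.trans hr)

lemma gg_cont : Continuous fun p : ℝ × (Fin 4 → ℝ) =>
    gg (torusMap (0 : Fin 4 → ℂ) (fun _ => 1 / 16) p.2) (circleMap 0 rho p.1) := by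
  unfold gg
  have hr : rho < 1 / 32 := rho_lt.trans (by norm_num)
  have ht : ∀ i, Continuous fun p : ℝ × (Fin 4 → ℝ) =>
      torusMap (0 : Fin 4 → ℂ) (fun _ => 1 / 16) p.2 i := fun i =>
    (continuous_apply i).comp (tm_cont.comp continuous_snd)
  have hc : Continuous fun p : ℝ × (Fin 4 → ℝ) => circleMap 0 rho p.1 :=
    (continuous_circleMap 0 rho).comp continuous_fst
  refine Continuous.inv₀ ?_ fun p => Finset.prod_ne_zero_iff.2 fun i _ =>
    den_ne (tm_norm p.2 i) (by rw [norm_cm]; exact hr)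
  refine continuous_finsetProd _ fun i _ => ?_
  exact (((ht i).pow 2).sub (hc.pow 2)).mul (((ht i).pow 2).sub (continuous_const.mul (hc.pow 2)))

end SAvgAux

open SAvgAux

theorem six_cont (x L B : ℝ) (H : (Fin 4 → ℂ) → ℂ) (hx : 0 < x) (hL : 1 / 2 ≤ L) (hH : Hol4 L B H) :
    Continuous fun θ : ℝ => Six H x (circleMap 0 rho θ) := by
  have hX : ∀ c : ℂ, Continuous fun θ : ℝ => X2 x (c * circleMap 0 rho θ) := fun c =>
    (x2_cont hx).comp (continuous_const.mul (continuous_circleMap 0 rho))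
  have e : ∀ θ : ℝ, Six H x (circleMap 0 rho θ) =
      X2 x (3 * circleMap 0 rho θ) * RR H ![1 * circleMap 0 rho θ, 2 * circleMap 0 rho θ,
        1 * circleMap 0 rho θ, 2 * circleMap 0 rho θ] +
      X2 x (-3 * circleMap 0 rho θ) * RR H ![-1 * circleMap 0 rho θ, -2 * circleMap 0 rho θ,
        -1 * circleMap 0 rho θ, -2 * circleMap 0 rho θ] +
      (X2 x (1 * circleMap 0 rho θ) * RR H ![2 * circleMap 0 rho θ, -1 * circleMap 0 rho θ,
        2 * circleMap 0 rho θ, -1 * circleMap 0 rho θ] +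
      RR H ![2 * circleMap 0 rho θ, -2 * circleMap 0 rho θ, 1 * circleMap 0 rho θ,
        -1 * circleMap 0 rho θ] +
      (RR H ![1 * circleMap 0 rho θ, -1 * circleMap 0 rho θ, 2 * circleMap 0 rho θ,
        -2 * circleMap 0 rho θ] + X2 x (-1 * circleMap 0 rho θ) *
        RR H ![1 * circleMap 0 rho θ, -2 * circleMap 0 rho θ, 1 * circleMap 0 rho θ,
        -2 * circleMap 0 rho θ])) := by
    intro θ
    unfold Six
    simp only [one_mul, neg_mul]
  simp only [e]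
  have n1 : ‖(1 : ℂ)‖ ≤ 2 := by norm_num
  have n2 : ‖(2 : ℂ)‖ ≤ 2 := by norm_num
  have n3 : ‖(-1 : ℂ)‖ ≤ 2 := by norm_num
  have n4 : ‖(-2 : ℂ)‖ ≤ 2 := by norm_num
  refine (((hX 3).mul (term_cont hL hH 1 2 1 2 n1 n2 n1 n2 (by norm_num))).add
    ((hX (-3)).mul (term_cont hL hH (-1) (-2) (-1) (-2) n3 n4 n3 n4 (by norm_num)))).add
    ((((hX 1).mul (term_cont hL hH 2 (-1) 2 (-1) n2 n3 n2 n3 (by norm_num))).add
      (term_cont hL hH 2 (-2) 1 (-1) n2 n4 n1 n3 (by norm_num))).add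
      ((term_cont hL hH 1 (-1) 2 (-2) n1 n3 n2 n4 (by norm_num)).add
        ((hX (-1)).mul (term_cont hL hH 1 (-2) 1 (-2) n1 n4 n1 n4 (by norm_num)))))

theorem s_avg (x L B : ℝ) (H : (Fin 4 → ℂ) → ℂ) (hx : 0 < x) (hL : 1 / 2 ≤ L) (hH : Hol4 L B H) (hS : Sym4 H) :
    av (fun s => Six H x s) = (4 * (2 * Real.pi * I) ^ 4)⁻¹ * ∯ z in T((0 : Fin 4 → ℂ), fun _ => 1 / 16),
      RR H ![z 0, z 1, -z 2, -z 3] * X2 x ((z 0 + z 1 - z 2 - z 3) / 2) * vdm z ^ 2 / ∏ i, z i ^ 4 := by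
  let z : (Fin 4 → ℝ) → Fin 4 → ℂ := torusMap (0 : Fin 4 → ℂ) (fun _ => 1 / 16)
  let J : (Fin 4 → ℝ) → ℂ := fun Θ => ∏ i : Fin 4, (((1 / 16 : ℝ) : ℂ) * cexp (Θ i * I) * I)
  have hJ : Continuous J := by
    refine continuous_finsetProd _ fun i _ => ?_
    fun_prop
  let F : ℝ → (Fin 4 → ℝ) → ℂ := fun θ Θ => (J Θ * KK' H x (z Θ)) * gg (z Θ) (circleMap 0 rho θ)
  have hF : Continuous (Function.uncurry F) := by
    have h1 : Continuous fun p : ℝ × (Fin 4 → ℝ) => J p.2 * KK' H x (z p.2) :=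
      (hJ.mul (kk_cont hx hL hH)).comp continuous_snd
    exact h1.mul gg_cont
  have hpi : (0 : ℝ) ≤ 2 * Real.pi := by positivity
  have e1 : ∀ θ : ℝ, Six H x (circleMap 0 rho θ) = (4 * (2 * Real.pi * I) ^ 4)⁻¹ *
      ∫ Θ in Set.Icc (0 : Fin 4 → ℝ) (fun _ => 2 * Real.pi), F θ Θ := by
    intro θ
    rw [multi_res x L B H hx hL hH hS _ (norm_cm θ)]
    congr 1
    unfold torusIntegral
    refine integral_congr_ae (Filter.Eventually.of_forall fun Θ => ?_)
    simp only [smul_eq_mul, num_eq]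
    change J Θ * (KK' H x (z Θ) / _) = _
    rw [div_eq_mul_inv, ← mul_assoc]
    rfl
  have hint : Integrable (Function.uncurry F) ((volume.restrict (Set.Ioc 0 (2 * Real.pi))).prod
      (volume.restrict (Set.Icc (0 : Fin 4 → ℝ) (fun _ => 2 * Real.pi)))) := by
    rw [Measure.prod_restrict]
    have h1 : IntegrableOn (Function.uncurry F)
        (Set.Icc 0 (2 * Real.pi) ×ˢ Set.Icc (0 : Fin 4 → ℝ) (fun _ => 2 * Real.pi))
        ((volume : Measure ℝ).prod volume) :=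
      hF.continuousOn.integrableOn_compact (isCompact_Icc.prod isCompact_Icc)
    exact h1.mono_set (Set.prod_mono Set.Ioc_subset_Icc_self le_rfl)
  have e2 : av (fun s => Six H x s) = (4 * (2 * Real.pi * I) ^ 4)⁻¹ *
      ∫ Θ in Set.Icc (0 : Fin 4 → ℝ) (fun _ => 2 * Real.pi), (J Θ * KK' H x (z Θ)) *
        (∏ i, z Θ i ^ 4)⁻¹ := by
    unfold av
    simp only [e1]
    rw [intervalIntegral.integral_const_mul, intervalIntegral.integral_of_le hpi,
      integral_integral_swap hint]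
    rw [mul_left_comm]
    congr 1
    rw [← integral_const_mul]
    refine integral_congr_ae (Filter.Eventually.of_forall fun Θ => ?_)
    change (2 * Real.pi : ℂ)⁻¹ * ∫ θ in Set.Ioc 0 (2 * Real.pi),
      (J Θ * KK' H x (z Θ)) * gg (z Θ) (circleMap 0 rho θ) = _
    rw [integral_const_mul, ← intervalIntegral.integral_of_le hpi, mul_left_comm]
    congr 1
    exact gg_mean (tm_norm Θ)
  rw [e2]
  congr 1
  unfold torusIntegral
  refine integral_congr_ae (Filter.Eventually.of_forall fun Θ => ?_)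
  simp only [smul_eq_mul, num_eq]
  change _ = J Θ * (KK' H x (z Θ) / _)
  rw [div_eq_mul_inv, ← mul_assoc]

end Pool.Agent.P07318f
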