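import Pool.Agent.Lib.P07318s.Spaced
import Pool.Agent.Lib.P07318s.BoxMS
import Pool.Agent.Lib.P07318s.KapSum

/-!
# Large sieve for reduced fractions

PROOF. `∑ ‖c q‖ ≤ B₀ ∑ kap(h) h^(-1/2) < ∞`. Expand the square and integrate (`box_ms` with `n = 1`):
`∫ ‖∑‖² ≤ ∑_{q,q'} ‖c q‖ ‖c q'‖ bb H (lgr q - lgr q')`, and `‖c q‖ ‖c q'‖ ≤ kap(q) kap(q') (1/2) (h⁻¹ B² (q) + h⁻¹ B²(q'))`,
symmetry, `spaced_sum` with `V := H`, `μ = - lgr q` (`bb_neg`). The constant is `C` of `spaced_sum`.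
-/

set_option autoImplicit false

namespace Pool.Agent.P07318f

open MeasureTheory Complex Pool.Agent.P07318s

namespace LargeSAux

lemma pair_le {k k' r r' B B' a a' : ℝ} (hk : 0 ≤ k) (hk' : 0 ≤ k') (hr : 0 ≤ r) (hr' : 0 ≤ r')
    (hB : 0 ≤ B) (hB' : 0 ≤ B') (ha : 0 ≤ a) (ha' : 0 ≤ a') (h : a ≤ k * r * B) (h' : a' ≤ k' * r' * B') :
    a * a' ≤ 1 / 2 * (k * r ^ 2 * B ^ 2) * k' + 1 / 2 * (k' * r' ^ 2 * B' ^ 2) * k := by
  have h1 : a * a' ≤ (k * r * B) * (k' * r' * B') := mul_le_mul h h' ha' (by positivity)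
  have h2 : 0 ≤ k * k' * (r * B - r' * B') ^ 2 := by positivity
  nlinarith

lemma one_box (Z : Q → ℂ) (hZ : Summable fun q => ‖Z q‖) (β : ℝ) {H : ℝ} (hH : 0 ≤ H) :
    ∫⁻ h in Set.Icc β (β + H), ‖∑' q : Q, Z q * ex h q.1‖ₑ ^ 2 ≤
      ∑' q : Q, ∑' q' : Q, ‖Z q‖ₑ * ‖Z q'‖ₑ * ENNReal.ofReal (bb H (lgr q.1 - lgr q'.1)) := by
  have h1 := box_ms Z hZ (n := 1) (fun q _ => lgr q.1) (fun _ => β) hH
  simp only [Fin.prod_univ_one, Fin.sum_univ_one] at h1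
  refine le_trans (le_of_eq ?_) h1
  have h2 := (volume_preserving_funUnique (Fin 1) ℝ).setLIntegral_comp_preimage_emb
    (MeasurableEquiv.measurableEmbedding _) (fun h : ℝ => ‖∑' q : Q, Z q * ex h q.1‖ₑ ^ 2)
    (Set.Icc β (β + H))
  rw [← h2]
  have h3 : (MeasurableEquiv.funUnique (Fin 1) ℝ) ⁻¹' (Set.Icc β (β + H)) =
      Set.Icc (fun _ : Fin 1 => β) (fun _ => β + H) := by
    ext α
    simp only [Set.mem_preimage, Set.mem_Icc, MeasurableEquiv.funUnique_apply, Pi.le_def]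
    constructor
    · rintro ⟨h4, h5⟩
      refine ⟨fun i => ?_, fun i => ?_⟩
      · rw [Subsingleton.elim i default]; exact h4
      · rw [Subsingleton.elim i default]; exact h5
    · rintro ⟨h4, h5⟩
      exact ⟨h4 _, h5 _⟩
  rw [h3]
  rfl

end LargeSAux

open LargeSAux in
theorem large_sieve (δ : ℝ) (hδ : 0 < δ) (hδ2 : δ ≤ 1 / 2) : ∃ C : ℝ, 0 < C ∧ ∀ U H β : ℝ, 1 ≤ U → 0 ≤ H → H ≤ U →
    ∀ (c : Q → ℂ) (B : Q → ℝ) (B₀ : ℝ), (∀ q, 0 ≤ B q) → (∀ q, B q ≤ B₀) →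
    (∀ q, ‖c q‖ ≤ kap δ U (hgt q.1) * (hgt q.1) ^ (-(1 / 2) : ℝ) * B q) →
    (Summable fun q : Q => ‖c q‖) ∧
    ∫⁻ h in Set.Icc β (β + H), ‖∑' q : Q, c q * ex h q.1‖ₑ ^ 2 ≤
      ENNReal.ofReal (C * U ^ (1 + 2 * δ)) *
        ∑' q : Q, ENNReal.ofReal (kap δ U (hgt q.1) * (hgt q.1)⁻¹ * B q ^ 2) := by
  obtain ⟨C, hC, hsp⟩ := spaced_sum δ hδ hδ2
  refine ⟨C, hC, fun U H β hU hH hHU c B B₀ hB0 hB hc => ?_⟩
  have hsum : Summable fun q : Q => ‖c q‖ := by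
    refine Summable.of_nonneg_of_le (fun q => norm_nonneg _) (fun q => ?_)
      ((ww_summable hδ hδ2 hU).mul_right B₀)
    refine (hc q).trans ?_
    have : 0 ≤ ww δ U q := ww_nonneg (by linarith) q
    exact mul_le_mul_of_nonneg_left (hB q) this
  refine ⟨hsum, (one_box c hsum β hH).trans ?_⟩
  set T : Q → ℝ := fun q => kap δ U (hgt q.1) * (hgt q.1)⁻¹ * B q ^ 2 with hT
  have hkap : ∀ q : Q, 0 ≤ kap δ U (hgt q.1) := fun q => kap_nonneg (by linarith) (hgt_pos q.1).le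
  have hT0 : ∀ q, 0 ≤ T q := fun q =>
    mul_nonneg (mul_nonneg (hkap q) (inv_nonneg.2 (hgt_pos q.1).le)) (sq_nonneg _)
  have hbb : ∀ q q' : Q, 0 ≤ bb H (lgr q.1 - lgr q'.1) := fun q q' => bb_nonneg hH _
  have h1 : ∀ q q' : Q, ‖c q‖ₑ * ‖c q'‖ₑ * ENNReal.ofReal (bb H (lgr q.1 - lgr q'.1)) ≤
      ENNReal.ofReal (1 / 2) * (ENNReal.ofReal (T q) *
        ENNReal.ofReal (kap δ U (hgt q'.1) * bb H (lgr q'.1 + (-lgr q.1)))) +
      ENNReal.ofReal (1 / 2) * (ENNReal.ofReal (T q') *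
        ENNReal.ofReal (kap δ U (hgt q.1) * bb H (lgr q.1 + (-lgr q'.1)))) := by
    intro q q'
    have hs : ∀ p : Q, ((hgt p.1) ^ (-(1 / 2) : ℝ)) ^ 2 = (hgt p.1)⁻¹ := by
      intro p
      rw [← Real.rpow_natCast, ← Real.rpow_mul (hgt_pos p.1).le]
      norm_num
      exact Real.rpow_neg_one _
    have h2 := pair_le (hkap q) (hkap q') (Real.rpow_nonneg (hgt_pos q.1).le (-(1 / 2) : ℝ))
      (Real.rpow_nonneg (hgt_pos q'.1).le (-(1 / 2) : ℝ)) (hB0 q) (hB0 q') (norm_nonneg (c q))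
      (norm_nonneg (c q')) (hc q) (hc q')
    rw [hs, hs] at h2
    have e1 : bb H (lgr q'.1 + (-lgr q.1)) = bb H (lgr q.1 - lgr q'.1) := by
      rw [← bb_neg]; congr 1; ring
    have e2 : bb H (lgr q.1 + (-lgr q'.1)) = bb H (lgr q.1 - lgr q'.1) := rfl
    rw [e1, e2, ← ofReal_norm, ← ofReal_norm, ← ENNReal.ofReal_mul (norm_nonneg _),
      ← ENNReal.ofReal_mul (by positivity), ← ENNReal.ofReal_mul (hT0 q), ← ENNReal.ofReal_mul (hT0 q'),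
      ← ENNReal.ofReal_mul (by norm_num), ← ENNReal.ofReal_mul (by norm_num),
      ← ENNReal.ofReal_add (by have := hT0 q; have := hkap q'; have := hbb q q'; positivity)
        (by have := hT0 q'; have := hkap q; have := hbb q q'; positivity)]
    refine ENNReal.ofReal_le_ofReal ?_
    have := mul_le_mul_of_nonneg_right h2 (hbb q q')
    refine this.trans (le_of_eq ?_)
    simp only [hT]
    ring
  refine (ENNReal.tsum_le_tsum fun q => ENNReal.tsum_le_tsum fun q' => h1 q q').trans ?_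
  have hS : ∀ q : Q, ∑' q' : Q, ENNReal.ofReal (kap δ U (hgt q'.1) * bb H (lgr q'.1 + (-lgr q.1))) ≤
      ENNReal.ofReal (C * U ^ (1 + 2 * δ)) := fun q => hsp U H (-lgr q.1) hU hH hHU
  set S := ENNReal.ofReal (C * U ^ (1 + 2 * δ)) with hSdef
  have h2 : ∑' q : Q, ∑' q' : Q, ENNReal.ofReal (1 / 2) * (ENNReal.ofReal (T q) *
        ENNReal.ofReal (kap δ U (hgt q'.1) * bb H (lgr q'.1 + (-lgr q.1)))) ≤
      ENNReal.ofReal (1 / 2) * (S * ∑' q : Q, ENNReal.ofReal (T q)) := by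
    simp only [ENNReal.tsum_mul_left]
    refine mul_le_mul_right ?_ _
    rw [← ENNReal.tsum_mul_left]
    refine ENNReal.tsum_le_tsum fun q => ?_
    rw [mul_comm S]
    exact mul_le_mul_right (hS q) _
  have h3 : ∑' q : Q, ∑' q' : Q, ENNReal.ofReal (1 / 2) * (ENNReal.ofReal (T q') *
        ENNReal.ofReal (kap δ U (hgt q.1) * bb H (lgr q.1 + (-lgr q'.1)))) ≤
      ENNReal.ofReal (1 / 2) * (S * ∑' q : Q, ENNReal.ofReal (T q)) := by
    rw [ENNReal.tsum_comm]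
    exact h2
  have h4 : ∑' q : Q, ∑' q' : Q, (ENNReal.ofReal (1 / 2) * (ENNReal.ofReal (T q) *
        ENNReal.ofReal (kap δ U (hgt q'.1) * bb H (lgr q'.1 + (-lgr q.1)))) +
      ENNReal.ofReal (1 / 2) * (ENNReal.ofReal (T q') *
        ENNReal.ofReal (kap δ U (hgt q.1) * bb H (lgr q.1 + (-lgr q'.1))))) =
      (∑' q : Q, ∑' q' : Q, ENNReal.ofReal (1 / 2) * (ENNReal.ofReal (T q) *
        ENNReal.ofReal (kap δ U (hgt q'.1) * bb H (lgr q'.1 + (-lgr q.1))))) +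
      ∑' q : Q, ∑' q' : Q, ENNReal.ofReal (1 / 2) * (ENNReal.ofReal (T q') *
        ENNReal.ofReal (kap δ U (hgt q.1) * bb H (lgr q.1 + (-lgr q'.1)))) := by
    rw [← ENNReal.tsum_add]
    exact tsum_congr fun q => ENNReal.tsum_add
  rw [h4]
  refine (add_le_add h2 h3).trans (le_of_eq ?_)
  rw [← add_mul, ← ENNReal.ofReal_add (by norm_num) (by norm_num)]
  norm_num [hT]

end Pool.Agent.P07318f
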