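import Pool.Agent.Lib.P07318f.MMb
import Pool.Agent.Lib.P07318f.FourSep
import Pool.Agent.Lib.P07318f.LargeS

/-!
# The main terms of large height are small in mean square

`y = x + h - α ∈ [U, 16U]` (`x - α ≥ -U`, `h ≥ 2U`; `x ≤ 8U`..: `x - α ≤ 4U`, `h ≤ 7U`). For fixed `x` (`δ = 1/50000`): `four_sep`:
`MTail Y x (h-α)·` = `∑_k e(k(x+h-α)/32U) ∑_{h_q > Y} ω_k(h_q) h_q^(-1/2) MM x q ex (-α) q · ex h q`, Cauchy-Schwarz in `k` with the weights `1/(1+k²)` and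
`large_sieve` (`H = U`, `c q = ω_k h_q^(-1/2) MM_q ex(-α) q`, `B q = C (1+k²)⁻¹ ‖MM x q‖` for `h_q > Y`, `0` otherwise): the integral over `h ∈ [β, β+U]` of the square is
`≤ C U^(1+2δ) ∑_{h_q > Y} kap/h_q ‖MM x q‖²`, `‖MM x q‖² ≤ C U^(2/9000) h_q^(-1+2/9)` (`mm_bound`), `kap ≤ (U/h)^δ`: `∑_{h_q>Y} h_q^(-2+2/9) ≤ C Y^(-7/9+δ')`
(`hgt_summable`-type: at most `d(h)` reduced fractions of height `h`), `Y ≥ U^(1/1000)`: total `≤ C U^(1 + 3δ + 2/9000 - 7/9000 + δ'/1000) ≤ C U^(1-1/4000)`. Then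
`‖∫ Ω(x) MTail dx‖² ≤ (∫‖Ω‖) ∫ ‖Ω‖ ‖MTail‖² ≤ 8U ∫_x`, Tonelli in `(x, h)` (`MTail` is jointly continuous: `mm_cont`, uniformly convergent): total
`≤ C U² · U^(1-1/4000)`. Summability of the tail for fixed `x, τ`: `|Om| ≤ C kap(1/2, U, h)`.
-/

set_option autoImplicit false

namespace Pool.Agent.P07318f

open MeasureTheory Complex Pool.Agent.P07318s

/-- the main terms of large height -/
noncomputable def MTail (Y x τ : ℝ) : ℂ :=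
  ∑' q : Q, if Y < hgt q.1 then (((hgt q.1) ^ (-(1 / 2) : ℝ) * Om (hgt q.1) (x + τ) : ℝ) : ℂ) * ex τ q.1 *
    MM x q.1.1 q.1.2 else 0

namespace TailAux

/-- Cauchy-Schwarz for series -/
theorem cs_tsum (f g : ℤ → ENNReal) :
    (∑' k, f k * g k) ^ 2 ≤ (∑' k, f k ^ 2) * ∑' k, g k ^ 2 := by
  have h := ENNReal.lintegral_mul_le_Lp_mul_Lq (Measure.count : Measure ℤ)
    Real.HolderConjugate.two_two (f := f) (g := g) Measurable.of_discrete.aemeasurable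
    Measurable.of_discrete.aemeasurable
  simp only [Pi.mul_apply, lintegral_count] at h
  have h2 := pow_le_pow_left' h 2
  refine h2.trans (le_of_eq ?_)
  rw [mul_pow, ← ENNReal.rpow_natCast, ← ENNReal.rpow_natCast, ← ENNReal.rpow_mul,
    ← ENNReal.rpow_mul]
  norm_num

theorem cs_w (a : ℤ → ENNReal) : (∑' k, a k) ^ 2 ≤
    (∑' k : ℤ, ENNReal.ofReal ((1 + (k : ℝ) ^ 2)⁻¹)) *
      ∑' k : ℤ, ENNReal.ofReal (1 + (k : ℝ) ^ 2) * a k ^ 2 := by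
  have h := cs_tsum (fun k : ℤ => ENNReal.ofReal (√((1 + (k : ℝ) ^ 2)⁻¹)))
    (fun k : ℤ => ENNReal.ofReal (√(1 + (k : ℝ) ^ 2)) * a k)
  have h1 : ∀ k : ℤ, ENNReal.ofReal (√((1 + (k : ℝ) ^ 2)⁻¹)) *
      (ENNReal.ofReal (√(1 + (k : ℝ) ^ 2)) * a k) = a k := by
    intro k
    rw [← mul_assoc, ← ENNReal.ofReal_mul (Real.sqrt_nonneg _), ← Real.sqrt_mul (by positivity),
      inv_mul_cancel₀ (by positivity), Real.sqrt_one, ENNReal.ofReal_one, one_mul]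
  have h2 : ∀ k : ℤ, ENNReal.ofReal (√((1 + (k : ℝ) ^ 2)⁻¹)) ^ 2 =
      ENNReal.ofReal ((1 + (k : ℝ) ^ 2)⁻¹) := by
    intro k
    rw [← ENNReal.ofReal_pow (Real.sqrt_nonneg _), Real.sq_sqrt (by positivity)]
  have h3 : ∀ k : ℤ, (ENNReal.ofReal (√(1 + (k : ℝ) ^ 2)) * a k) ^ 2 =
      ENNReal.ofReal (1 + (k : ℝ) ^ 2) * a k ^ 2 := by
    intro k
    rw [mul_pow, ← ENNReal.ofReal_pow (Real.sqrt_nonneg _), Real.sq_sqrt (by positivity)]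
  simp only [h1, h2, h3] at h
  exact h

theorem w_summable : Summable (fun k : ℤ => (1 + (k : ℝ) ^ 2)⁻¹) := by
  have h1 : Summable (fun k : ℤ => 1 / (k : ℝ) ^ 2) :=
    Real.summable_one_div_int_pow.2 (by norm_num)
  have h2 : Summable (fun k : ℤ => if k = 0 then (1 : ℝ) else 0) :=
    summable_of_ne_finset_zero (s := {0}) fun k hk => by
      rw [if_neg]
      simpa using hk
  refine Summable.of_nonneg_of_le (fun k => by positivity) (fun k => ?_) (h1.add h2)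
  by_cases hk : k = 0
  · subst hk
    simp
  · rw [if_neg hk, add_zero, one_div]
    have : (0 : ℝ) < (k : ℝ) ^ 2 := by positivity
    exact inv_anti₀ this (by linarith)

theorem summable_pnat' : Summable (fun m : ℕ+ => (((m : ℕ) : ℝ)) ^ (-(10 / 9) : ℝ)) := by
  have h : Summable (fun m : ℕ => ((m : ℕ) : ℝ) ^ (-(10 / 9) : ℝ)) :=
    Real.summable_nat_rpow.2 (by norm_num)
  exact h.comp_injective PNat.coe_injective

theorem summable_hgtQ' : Summable (fun q : Q => (hgt q.1) ^ (-(10 / 9) : ℝ)) := by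
  have h := summable_pnat'.mul_of_nonneg summable_pnat'
    (fun m => Real.rpow_nonneg (Nat.cast_nonneg _) _) (fun m => Real.rpow_nonneg (Nat.cast_nonneg _) _)
  have h2 : Summable (fun p : ℕ+ × ℕ+ => (hgt p) ^ (-(10 / 9) : ℝ)) := by
    refine h.congr fun p => ?_
    unfold hgt
    rw [Real.mul_rpow (Nat.cast_nonneg _) (Nat.cast_nonneg _)]
  have hinj : Function.Injective (fun q : Q => q.1) := fun a b h => Subtype.ext h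
  exact h2.comp_injective hinj

theorem sigma_eq : ∑' q : Q, ENNReal.ofReal ((hgt q.1) ^ (-(10 / 9) : ℝ)) =
    ENNReal.ofReal (∑' q : Q, (hgt q.1) ^ (-(10 / 9) : ℝ)) :=
  (ENNReal.ofReal_tsum_of_nonneg (f := fun q : Q => (hgt q.1) ^ (-(10 / 9) : ℝ))
    (fun q => Real.rpow_nonneg (hgt_pos q.1).le _) summable_hgtQ').symm

theorem w_eq : ∑' k : ℤ, ENNReal.ofReal ((1 + (k : ℝ) ^ 2)⁻¹) =
    ENNReal.ofReal (∑' k : ℤ, (1 + (k : ℝ) ^ 2)⁻¹) :=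
  (ENNReal.ofReal_tsum_of_nonneg (f := fun k : ℤ => (1 + (k : ℝ) ^ 2)⁻¹)
    (fun k => by positivity) w_summable).symm

theorem kap_le_pow {δ U h : ℝ} (hδ : 0 < δ) (hδ2 : δ ≤ 2) (hU : 1 ≤ U) (hh : 1 ≤ h) :
    kap δ U h ≤ U ^ δ := by
  refine (kap_le hδ2 (by linarith) (by linarith)).trans ?_
  apply Real.rpow_le_rpow (by positivity) _ hδ.le
  rw [div_le_iff₀ (by linarith)]
  nlinarith

/-- the unit `exp(2π i k x / 32 U)` -/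
noncomputable def ek (U : ℝ) (k : ℤ) (x : ℝ) : ℂ :=
  cexp (((2 * Real.pi * k * x / (32 * U) : ℝ) : ℂ) * I)

theorem norm_ek (U : ℝ) (k : ℤ) (x : ℝ) : ‖ek U k x‖ = 1 := Complex.norm_exp_ofReal_mul_I _

theorem ek_add (U : ℝ) (k : ℤ) (x y : ℝ) : ek U k (x + y) = ek U k x * ek U k y := by
  unfold ek
  rw [← Complex.exp_add]
  congr 1
  push_cast
  ring

theorem continuous_ek (U : ℝ) (k : ℤ) : Continuous (ek U k) := by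
  unfold ek
  fun_prop

theorem continuous_exh (p : ℕ+ × ℕ+) : Continuous (fun h : ℝ => ex h p) := by
  unfold ex
  fun_prop

end TailAux

open TailAux

theorem mm_summable (x y τ : ℝ) (hx : 1 ≤ x) (hy : 0 < y) :
    Summable fun q : Q => ‖(((hgt q.1) ^ (-(1 / 2) : ℝ) * Om (hgt q.1) y : ℝ) : ℂ) * ex τ q.1 * MM x q.1.1 q.1.2‖ := by
  obtain ⟨C, hC, hb⟩ := mm_bound
  refine Summable.of_nonneg_of_le (fun q => norm_nonneg _) (fun q => ?_)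
    ((cfQ_summable hy).mul_right (C * x ^ (1 / 9000 : ℝ)))
  have h1 := hb x q.1.1 q.1.2 hx q.2
  have h2 : 0 ≤ (hgt q.1) ^ (-(1 / 2) : ℝ) * Om (hgt q.1) y :=
    mul_nonneg (Real.rpow_nonneg (hgt_pos q.1).le _) (Om_nonneg _ _)
  rw [norm_mul, norm_mul, norm_ex, mul_one, Complex.norm_real, Real.norm_of_nonneg h2]
  refine mul_le_mul_of_nonneg_left (h1.trans ?_) h2
  refine mul_le_of_le_one_right (by positivity) ?_
  exact Real.rpow_le_one_of_one_le_of_nonpos (one_le_hgt q.1) (by norm_num)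

namespace TailAux

section data

variable (U Y α : ℝ) (Ω : ℝ → ℂ) (ω : ℤ → ℝ → ℂ)

/-- coefficients without the factor `J` -/
noncomputable def cst (k : ℤ) (q : Q) : ℂ :=
  if Y < hgt q.1 then (((hgt q.1) ^ (-(1 / 2) : ℝ) : ℝ) : ℂ) * ω k (hgt q.1) * ex (-α) q.1 else 0

/-- the weight -/
noncomputable def wx (k : ℤ) (q : Q) (x : ℝ) : ℂ := Ω x * ek U k x * MM x q.1.1 q.1.2

/-- the integral over `x` -/
noncomputable def Jx (k : ℤ) (q : Q) : ℂ := ∫ x, wx U Ω k q x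

/-- the coefficients -/
noncomputable def cc (k : ℤ) (q : Q) : ℂ := cst Y α ω k q * Jx U Ω k q

/-- the terms of the expansion -/
noncomputable def tt (h : ℝ) (p : Q × ℤ) (x : ℝ) : ℂ :=
  ek U p.2 (h - α) * ex h p.1.1 * cst Y α ω p.2 p.1 * wx U Ω p.2 p.1 x

end data

variable {U Y α : ℝ} {Ω : ℝ → ℂ} {ω : ℤ → ℝ → ℂ} {C₂ C : ℝ}

theorem norm_cst {δ : ℝ} (hU : 1 ≤ U) (hC₂ : 0 < C₂)
    (hω : ∀ (k : ℤ) (h : ℝ), 1 ≤ h → ‖ω k h‖ ≤ C₂ / (1 + (k : ℝ) ^ 2) * kap δ U h) (k : ℤ) (q : Q) :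
    ‖cst Y α ω k q‖ ≤ kap δ U (hgt q.1) * (hgt q.1) ^ (-(1 / 2) : ℝ) *
      (C₂ / (1 + (k : ℝ) ^ 2) * (if Y < hgt q.1 then 1 else 0)) := by
  unfold cst
  have h0 : 0 ≤ (hgt q.1) ^ (-(1 / 2) : ℝ) := Real.rpow_nonneg (hgt_pos q.1).le _
  split_ifs with h
  · rw [norm_mul, norm_mul, norm_ex, mul_one, Complex.norm_real, Real.norm_of_nonneg h0, mul_one]
    have h1 := hω k (hgt q.1) (one_le_hgt q.1)
    calc (hgt q.1) ^ (-(1 / 2) : ℝ) * ‖ω k (hgt q.1)‖ ≤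
        (hgt q.1) ^ (-(1 / 2) : ℝ) * (C₂ / (1 + (k : ℝ) ^ 2) * kap δ U (hgt q.1)) :=
          mul_le_mul_of_nonneg_left h1 h0
      _ = _ := by ring
  · simp

theorem norm_mm8 (hU : 1 ≤ U) (hC : 0 < C)
    (hb : ∀ (x : ℝ) (a b : ℕ+), 1 ≤ x → Nat.Coprime (a : ℕ) (b : ℕ) →
      ‖MM x a b‖ ≤ C * x ^ (1 / 9000 : ℝ) * ((a : ℕ) * (b : ℕ) : ℝ) ^ (-(1 / 2) + 1 / 9 : ℝ))
    {x : ℝ} (h1 : U ≤ x) (h2 : x ≤ 8 * U) (q : Q) :
    ‖MM x q.1.1 q.1.2‖ ≤ 8 * C * U ^ (1 / 9000 : ℝ) * (hgt q.1) ^ (-(7 / 18) : ℝ) := by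
  have h3 := hb x q.1.1 q.1.2 (by linarith) q.2
  have h4 : x ^ (1 / 9000 : ℝ) ≤ 8 * U ^ (1 / 9000 : ℝ) := by
    calc x ^ (1 / 9000 : ℝ) ≤ (8 * U) ^ (1 / 9000 : ℝ) :=
          Real.rpow_le_rpow (by linarith) h2 (by norm_num)
      _ = 8 ^ (1 / 9000 : ℝ) * U ^ (1 / 9000 : ℝ) := Real.mul_rpow (by norm_num) (by linarith)
      _ ≤ 8 * U ^ (1 / 9000 : ℝ) := by
          apply mul_le_mul_of_nonneg_right _ (by positivity)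
          calc (8 : ℝ) ^ (1 / 9000 : ℝ) ≤ 8 ^ (1 : ℝ) :=
                Real.rpow_le_rpow_of_exponent_le (by norm_num) (by norm_num)
            _ = 8 := Real.rpow_one _
  have h5 : (((q.1.1 : ℕ) : ℝ) * ((q.1.2 : ℕ) : ℝ)) ^ (-(1 / 2) + 1 / 9 : ℝ) =
      (hgt q.1) ^ (-(7 / 18) : ℝ) := by
    unfold hgt
    norm_num
  rw [h5] at h3
  refine h3.trans ?_
  apply mul_le_mul_of_nonneg_right _ (Real.rpow_nonneg (hgt_pos q.1).le _)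
  calc C * x ^ (1 / 9000 : ℝ) ≤ C * (8 * U ^ (1 / 9000 : ℝ)) := mul_le_mul_of_nonneg_left h4 hC.le
    _ = 8 * C * U ^ (1 / 9000 : ℝ) := by ring

theorem wx_zero (hs : ∀ x, Ω x ≠ 0 → U ≤ x ∧ x ≤ 8 * U) (k : ℤ) (q : Q) {x : ℝ}
    (hx : x ∉ Set.Icc U (8 * U)) : wx U Ω k q x = 0 := by
  have : Ω x = 0 := by
    by_contra h
    exact hx (hs x h)
  unfold wx
  rw [this, zero_mul, zero_mul]

theorem norm_wx (hU : 1 ≤ U) (hC : 0 < C)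
    (hb : ∀ (x : ℝ) (a b : ℕ+), 1 ≤ x → Nat.Coprime (a : ℕ) (b : ℕ) →
      ‖MM x a b‖ ≤ C * x ^ (1 / 9000 : ℝ) * ((a : ℕ) * (b : ℕ) : ℝ) ^ (-(1 / 2) + 1 / 9 : ℝ))
    (hΩ1 : ∀ x, ‖Ω x‖ ≤ 1) (k : ℤ) (q : Q)
    {x : ℝ} (hx : x ∈ Set.Icc U (8 * U)) :
    ‖wx U Ω k q x‖ ≤ 8 * C * U ^ (1 / 9000 : ℝ) * (hgt q.1) ^ (-(7 / 18) : ℝ) := by
  unfold wx
  rw [norm_mul, norm_mul, norm_ek, mul_one]
  calc ‖Ω x‖ * ‖MM x q.1.1 q.1.2‖ ≤ 1 * ‖MM x q.1.1 q.1.2‖ :=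
        mul_le_mul_of_nonneg_right (hΩ1 x) (norm_nonneg _)
    _ ≤ _ := by
        rw [one_mul]
        exact norm_mm8 hU hC hb hx.1 hx.2 q

theorem wx_integrable (hU : 1 ≤ U) (hΩ : Continuous Ω)
    (hs : ∀ x, Ω x ≠ 0 → U ≤ x ∧ x ≤ 8 * U) (k : ℤ) (q : Q) : Integrable (wx U Ω k q) := by
  have h1 : ContinuousOn (wx U Ω k q) (Set.Icc U (8 * U)) := by
    unfold wx
    refine ((hΩ.mul (continuous_ek U k)).continuousOn).mul ?_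
    refine (mm_cont q.1.1 q.1.2 q.2).mono ?_
    intro x hx
    exact lt_of_lt_of_le (by linarith) hx.1
  have h2 : IntegrableOn (wx U Ω k q) (Set.Icc U (8 * U)) :=
    h1.integrableOn_compact isCompact_Icc
  refine (integrableOn_iff_integrable_of_support_subset ?_).1 h2
  intro x hx
  by_contra hcon
  exact hx (wx_zero hs k q hcon)

theorem norm_int_wx (hU : 1 ≤ U) (hC : 0 < C)
    (hb : ∀ (x : ℝ) (a b : ℕ+), 1 ≤ x → Nat.Coprime (a : ℕ) (b : ℕ) →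
      ‖MM x a b‖ ≤ C * x ^ (1 / 9000 : ℝ) * ((a : ℕ) * (b : ℕ) : ℝ) ^ (-(1 / 2) + 1 / 9 : ℝ))
    (hΩ : Continuous Ω) (hΩ1 : ∀ x, ‖Ω x‖ ≤ 1)
    (hs : ∀ x, Ω x ≠ 0 → U ≤ x ∧ x ≤ 8 * U) (k : ℤ) (q : Q) :
    ∫ x, ‖wx U Ω k q x‖ ≤
      7 * U * (8 * C * U ^ (1 / 9000 : ℝ) * (hgt q.1) ^ (-(7 / 18) : ℝ)) := by
  have h0 : ∫ x, ‖wx U Ω k q x‖ = ∫ x in Set.Icc U (8 * U), ‖wx U Ω k q x‖ := by
    symm
    apply setIntegral_eq_integral_of_forall_compl_eq_zero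
    intro x hx
    rw [wx_zero hs k q hx, norm_zero]
  rw [h0]
  have h1 := setIntegral_mono_on (μ := volume) (s := Set.Icc U (8 * U))
    ((wx_integrable hU hΩ hs k q).norm.integrableOn)
    (integrableOn_const (C := 8 * C * U ^ (1 / 9000 : ℝ) * (hgt q.1) ^ (-(7 / 18) : ℝ))
      (by exact measure_Icc_lt_top.ne)) measurableSet_Icc
    (fun x hx => norm_wx hU hC hb hΩ1 k q hx)
  refine h1.trans (le_of_eq ?_)
  rw [setIntegral_const, smul_eq_mul, Measure.real, Real.volume_Icc,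
    ENNReal.toReal_ofReal (by linarith)]
  ring

theorem norm_Jx (hU : 1 ≤ U) (hC : 0 < C)
    (hb : ∀ (x : ℝ) (a b : ℕ+), 1 ≤ x → Nat.Coprime (a : ℕ) (b : ℕ) →
      ‖MM x a b‖ ≤ C * x ^ (1 / 9000 : ℝ) * ((a : ℕ) * (b : ℕ) : ℝ) ^ (-(1 / 2) + 1 / 9 : ℝ))
    (hΩ : Continuous Ω) (hΩ1 : ∀ x, ‖Ω x‖ ≤ 1)
    (hs : ∀ x, Ω x ≠ 0 → U ≤ x ∧ x ≤ 8 * U) (k : ℤ) (q : Q) :
    ‖Jx U Ω k q‖ ≤ 7 * U * (8 * C * U ^ (1 / 9000 : ℝ) * (hgt q.1) ^ (-(7 / 18) : ℝ)) :=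
  (norm_integral_le_integral_norm _).trans (norm_int_wx hU hC hb hΩ hΩ1 hs k q)

/-- summable majorant of the coefficients -/
theorem majorant {δ : ℝ} (hδ : 0 < δ) (hδ2 : δ ≤ 1 / 2) (hU : 1 ≤ U) (M : ℝ) :
    Summable (fun p : Q × ℤ => M * (ww δ U p.1 * (1 + (p.2 : ℝ) ^ 2)⁻¹)) :=
  ((ww_summable hδ hδ2 hU).mul_of_nonneg w_summable (fun q => ww_nonneg (by linarith) q)
    (fun k => by positivity)).mul_left M

theorem norm_tt {δ : ℝ} (hU : 1 ≤ U) (hC₂ : 0 < C₂) (hC : 0 < C)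
    (hω : ∀ (k : ℤ) (h : ℝ), 1 ≤ h → ‖ω k h‖ ≤ C₂ / (1 + (k : ℝ) ^ 2) * kap δ U h)
    (h : ℝ) (p : Q × ℤ) {x B : ℝ} (hB : ‖wx U Ω p.2 p.1 x‖ ≤ B * (hgt p.1.1) ^ (-(7 / 18) : ℝ))
    (hB0 : 0 ≤ B) :
    ‖tt U Y α Ω ω h p x‖ ≤ C₂ * B * (ww δ U p.1 * (1 + (p.2 : ℝ) ^ 2)⁻¹) := by
  unfold tt
  rw [norm_mul, norm_mul, norm_mul, norm_ek, norm_ex, one_mul, one_mul]
  have h1 := norm_cst (Y := Y) (α := α) hU hC₂ hω p.2 p.1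
  have h2 : (hgt p.1.1) ^ (-(7 / 18) : ℝ) ≤ 1 :=
    Real.rpow_le_one_of_one_le_of_nonpos (one_le_hgt p.1.1) (by norm_num)
  have h3 : ‖wx U Ω p.2 p.1 x‖ ≤ B := hB.trans (mul_le_of_le_one_right hB0 h2)
  have hw : 0 ≤ ww δ U p.1 := ww_nonneg (by linarith) p.1
  have h4 : ‖cst Y α ω p.2 p.1‖ ≤ ww δ U p.1 * (C₂ * (1 + (p.2 : ℝ) ^ 2)⁻¹) := by
    refine h1.trans ?_
    change ww δ U p.1 * _ ≤ _
    apply mul_le_mul_of_nonneg_left _ hw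
    rw [div_eq_mul_inv]
    refine mul_le_of_le_one_right (by positivity) ?_
    split_ifs <;> norm_num
  calc ‖cst Y α ω p.2 p.1‖ * ‖wx U Ω p.2 p.1 x‖ ≤
      (ww δ U p.1 * (C₂ * (1 + (p.2 : ℝ) ^ 2)⁻¹)) * B :=
        mul_le_mul h4 h3 (norm_nonneg _) (by positivity)
    _ = _ := by ring

/-- the expansion at a point `x` -/
theorem expand {δ β : ℝ} (hδ : 0 < δ) (hδ2 : δ ≤ 1 / 2) (hU : 1 ≤ U) (hC₂ : 0 < C₂) (hC : 0 < C)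
    (hω : ∀ (k : ℤ) (h : ℝ), 1 ≤ h → ‖ω k h‖ ≤ C₂ / (1 + (k : ℝ) ^ 2) * kap δ U h)
    (hω2 : ∀ h : ℝ, 1 ≤ h → ∀ x : ℝ, U ≤ x → x ≤ 16 * U →
      HasSum (fun k : ℤ => ω k h * cexp (((2 * Real.pi * k * x / (32 * U) : ℝ) : ℂ) * I)) (Om h x : ℂ))
    (hb : ∀ (x : ℝ) (a b : ℕ+), 1 ≤ x → Nat.Coprime (a : ℕ) (b : ℕ) →
      ‖MM x a b‖ ≤ C * x ^ (1 / 9000 : ℝ) * ((a : ℕ) * (b : ℕ) : ℝ) ^ (-(1 / 2) + 1 / 9 : ℝ))
    (hΩ1 : ∀ x, ‖Ω x‖ ≤ 1)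
    (hs : ∀ x, Ω x ≠ 0 → U ≤ x ∧ x ≤ 8 * U ∧ α - U ≤ x ∧ x ≤ α + 4 * U)
    (hβ1 : 2 * U ≤ β) (hβ2 : β ≤ 6 * U) {h : ℝ} (hh : h ∈ Set.Icc β (β + U)) (x : ℝ) :
    HasSum (fun p => tt U Y α Ω ω h p x) (Ω x * MTail Y x (h - α)) := by
  by_cases hx : Ω x = 0
  · have h1 : (fun p => tt U Y α Ω ω h p x) = fun _ => 0 := by
      funext p
      unfold tt wx
      rw [hx, zero_mul, zero_mul, mul_zero]
    rw [h1, hx, zero_mul]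
    exact hasSum_zero
  · obtain ⟨hx1, hx2, hx3, hx4⟩ := hs x hx
    obtain ⟨hh1, hh2⟩ := hh
    have hsum : Summable (fun p => tt U Y α Ω ω h p x) := by
      refine Summable.of_norm_bounded (majorant hδ hδ2 hU (C₂ * (8 * C * U ^ (1 / 9000 : ℝ))))
        fun p => ?_
      exact norm_tt hU hC₂ hC hω h p (norm_wx hU hC hb hΩ1 p.2 p.1 ⟨hx1, hx2⟩) (by positivity)
    have hfib : ∀ q : Q, HasSum (fun k : ℤ => tt U Y α Ω ω h (q, k) x)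
        (Ω x * (if Y < hgt q.1 then (((hgt q.1) ^ (-(1 / 2) : ℝ) * Om (hgt q.1) (x + (h - α)) : ℝ) : ℂ) *
          ex (h - α) q.1 * MM x q.1.1 q.1.2 else 0)) := by
      intro q
      by_cases hY : Y < hgt q.1
      · rw [if_pos hY]
        have h1 := (hω2 (hgt q.1) (one_le_hgt q.1) (x + (h - α)) (by linarith) (by linarith)).mul_left
          (Ω x * (((hgt q.1) ^ (-(1 / 2) : ℝ) : ℝ) : ℂ) * ex (h - α) q.1 * MM x q.1.1 q.1.2)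
        have ef : (fun k : ℤ => tt U Y α Ω ω h (q, k) x) = fun k : ℤ =>
            Ω x * (((hgt q.1) ^ (-(1 / 2) : ℝ) : ℝ) : ℂ) * ex (h - α) q.1 * MM x q.1.1 q.1.2 *
              (ω k (hgt q.1) *
                cexp (((2 * Real.pi * k * (x + (h - α)) / (32 * U) : ℝ) : ℂ) * I)) := by
          funext k
          unfold tt cst wx
          rw [if_pos hY]
          have e1 : cexp (((2 * Real.pi * k * (x + (h - α)) / (32 * U) : ℝ) : ℂ) * I) =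
              ek U k x * ek U k (h - α) := ek_add U k x (h - α)
          have e2 : ex (h - α) q.1 = ex h q.1 * ex (-α) q.1 := by
            rw [← lgr_add_aux, sub_eq_add_neg]
          rw [e1, e2]
          ring
        have ev : Ω x * ((((hgt q.1) ^ (-(1 / 2) : ℝ) * Om (hgt q.1) (x + (h - α)) : ℝ) : ℂ) *
            ex (h - α) q.1 * MM x q.1.1 q.1.2) =
            Ω x * (((hgt q.1) ^ (-(1 / 2) : ℝ) : ℝ) : ℂ) * ex (h - α) q.1 * MM x q.1.1 q.1.2 *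
              (Om (hgt q.1) (x + (h - α)) : ℂ) := by
          rw [Complex.ofReal_mul]
          ring
        rw [ef, ev]
        exact h1
      · rw [if_neg hY, mul_zero]
        have h1 : (fun k : ℤ => tt U Y α Ω ω h (q, k) x) = fun _ => 0 := by
          funext k
          unfold tt cst
          rw [if_neg hY, mul_zero, zero_mul]
        rw [h1]
        exact hasSum_zero
    have h1 := hsum.hasSum.prod_fiberwise hfib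
    have h2 : Ω x * MTail Y x (h - α) = ∑' p, tt U Y α Ω ω h p x := by
      rw [← h1.tsum_eq, MTail, tsum_mul_left]
    rw [h2]
    exact hsum.hasSum

theorem int_tt (h : ℝ) (p : Q × ℤ) : ∫ x, tt U Y α Ω ω h p x =
    ek U p.2 (h - α) * (cc U Y α Ω ω p.2 p.1 * ex h p.1.1) := by
  unfold tt
  rw [integral_const_mul]
  unfold cc Jx
  ring

/-- the integral as a double series -/
theorem expand_int {δ β : ℝ} (hδ : 0 < δ) (hδ2 : δ ≤ 1 / 2) (hU : 1 ≤ U) (hC₂ : 0 < C₂) (hC : 0 < C)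
    (hω : ∀ (k : ℤ) (h : ℝ), 1 ≤ h → ‖ω k h‖ ≤ C₂ / (1 + (k : ℝ) ^ 2) * kap δ U h)
    (hω2 : ∀ h : ℝ, 1 ≤ h → ∀ x : ℝ, U ≤ x → x ≤ 16 * U →
      HasSum (fun k : ℤ => ω k h * cexp (((2 * Real.pi * k * x / (32 * U) : ℝ) : ℂ) * I)) (Om h x : ℂ))
    (hb : ∀ (x : ℝ) (a b : ℕ+), 1 ≤ x → Nat.Coprime (a : ℕ) (b : ℕ) →
      ‖MM x a b‖ ≤ C * x ^ (1 / 9000 : ℝ) * ((a : ℕ) * (b : ℕ) : ℝ) ^ (-(1 / 2) + 1 / 9 : ℝ))
    (hΩ : Continuous Ω) (hΩ1 : ∀ x, ‖Ω x‖ ≤ 1)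
    (hs : ∀ x, Ω x ≠ 0 → U ≤ x ∧ x ≤ 8 * U ∧ α - U ≤ x ∧ x ≤ α + 4 * U)
    (hβ1 : 2 * U ≤ β) (hβ2 : β ≤ 6 * U) {h : ℝ} (hh : h ∈ Set.Icc β (β + U)) :
    ‖∫ x, Ω x * MTail Y x (h - α)‖ₑ ≤
      ∑' k : ℤ, ‖∑' q : Q, cc U Y α Ω ω k q * ex h q.1‖ₑ := by
  have hs' : ∀ x, Ω x ≠ 0 → U ≤ x ∧ x ≤ 8 * U := fun x hx => ⟨(hs x hx).1, (hs x hx).2.1⟩
  have hexp := fun x => expand (Y := Y) (β := β) hδ hδ2 hU hC₂ hC hω hω2 hb hΩ1 hs hβ1 hβ2 hh x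
  have hint : ∀ p : Q × ℤ, Integrable (tt U Y α Ω ω h p) := fun p => by
    unfold tt
    exact (wx_integrable hU hΩ hs' p.2 p.1).const_mul _
  have hnorm : Summable fun p : Q × ℤ => ∫ x, ‖tt U Y α Ω ω h p x‖ := by
    refine Summable.of_nonneg_of_le (fun p => integral_nonneg fun x => norm_nonneg _) (fun p => ?_)
      (majorant hδ hδ2 hU (C₂ * (7 * U * (8 * C * U ^ (1 / 9000 : ℝ)))))
    have h1 : ∀ x, ‖tt U Y α Ω ω h p x‖ = ‖cst Y α ω p.2 p.1‖ * ‖wx U Ω p.2 p.1 x‖ := by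
      intro x
      unfold tt
      rw [norm_mul, norm_mul, norm_mul, norm_ek, norm_ex, one_mul, one_mul]
    simp only [h1]
    rw [integral_const_mul]
    have h2 := norm_int_wx hU hC hb hΩ hΩ1 hs' p.2 p.1
    have h3 := norm_cst (Y := Y) (α := α) hU hC₂ hω p.2 p.1
    have h4 : (hgt p.1.1) ^ (-(7 / 18) : ℝ) ≤ 1 :=
      Real.rpow_le_one_of_one_le_of_nonpos (one_le_hgt p.1.1) (by norm_num)
    have h5 : ∫ x, ‖wx U Ω p.2 p.1 x‖ ≤ 7 * U * (8 * C * U ^ (1 / 9000 : ℝ)) := by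
      refine h2.trans ?_
      apply mul_le_mul_of_nonneg_left _ (by positivity)
      exact mul_le_of_le_one_right (by positivity) h4
    have hw : 0 ≤ ww δ U p.1 := ww_nonneg (by linarith) p.1
    have h6 : ‖cst Y α ω p.2 p.1‖ ≤ ww δ U p.1 * (C₂ * (1 + (p.2 : ℝ) ^ 2)⁻¹) := by
      refine h3.trans ?_
      change ww δ U p.1 * _ ≤ _
      apply mul_le_mul_of_nonneg_left _ hw
      rw [div_eq_mul_inv]
      refine mul_le_of_le_one_right (by positivity) ?_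
      split_ifs <;> norm_num
    calc ‖cst Y α ω p.2 p.1‖ * ∫ x, ‖wx U Ω p.2 p.1 x‖ ≤
        (ww δ U p.1 * (C₂ * (1 + (p.2 : ℝ) ^ 2)⁻¹)) * (7 * U * (8 * C * U ^ (1 / 9000 : ℝ))) :=
          mul_le_mul h6 h5 (integral_nonneg fun x => norm_nonneg _) (by positivity)
      _ = _ := by ring
  have hHS := hasSum_integral_of_summable_integral_norm hint hnorm
  have h1 : ∫ x, Ω x * MTail Y x (h - α) = ∑' p : Q × ℤ, ∫ x, tt U Y α Ω ω h p x := by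
    rw [hHS.tsum_eq]
    refine integral_congr_ae (Filter.Eventually.of_forall fun x => ?_)
    exact ((hexp x).tsum_eq).symm
  have hS := hHS.summable
  simp only [int_tt] at h1 hS
  obtain ⟨F, hF⟩ : ∃ F : Q × ℤ → ℂ, F = fun p =>
    ek U p.2 (h - α) * (cc U Y α Ω ω p.2 p.1 * ex h p.1.1) := ⟨_, rfl⟩
  rw [← hF] at h1 hS
  have hS' : Summable fun p : ℤ × Q => F (p.2, p.1) := ((Equiv.prodComm ℤ Q).summable_iff).2 hS
  have h2 : ∑' p : Q × ℤ, F p =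
      ∑' k : ℤ, ek U k (h - α) * ∑' q : Q, cc U Y α Ω ω k q * ex h q.1 := by
    have h3 : ∑' p : Q × ℤ, F p = ∑' p : ℤ × Q, F (p.2, p.1) :=
      ((Equiv.prodComm ℤ Q).tsum_eq F).symm
    rw [h3, hS'.tsum_prod]
    refine tsum_congr fun k => ?_
    rw [← tsum_mul_left, hF]
  rw [h1, h2]
  refine enorm_tsum_le_tsum_enorm.trans (le_of_eq (tsum_congr fun k => ?_))
  rw [enorm_mul, ← ofReal_norm (ek U k (h - α)), norm_ek, ENNReal.ofReal_one, one_mul]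

theorem diag_pt {δ h K b t : ℝ} (hU0 : 0 < U) (hY0 : 0 < Y) (hh : 0 < h) (hYh : Y ≤ h)
    (hC₂ : 0 ≤ C₂) (hC : 0 ≤ C) (hK0 : 0 ≤ K) (hK : K ≤ U ^ δ) (hb0 : 0 ≤ b) (ht : 0 ≤ t)
    (hb : b ≤ C₂ * t * (7 * U * (8 * C * U ^ (1 / 9000 : ℝ) * h ^ (-(7 / 18) : ℝ)))) :
    K * h⁻¹ * b ^ 2 ≤ t ^ 2 * (C₂ ^ 2 * (7 * (8 * C)) ^ 2 * (U * U ^ (1 / 9000 : ℝ)) ^ 2 * U ^ δ *
      Y ^ (-(2 / 3) : ℝ)) * h ^ (-(10 / 9) : ℝ) := by
  have h2 : b ^ 2 ≤ (C₂ * t *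
      (7 * U * (8 * C * U ^ (1 / 9000 : ℝ) * h ^ (-(7 / 18) : ℝ)))) ^ 2 :=
    pow_le_pow_left₀ hb0 hb 2
  have h4 : K * h⁻¹ ≤ U ^ δ * h⁻¹ := mul_le_mul_of_nonneg_right hK (by positivity)
  refine (mul_le_mul h4 h2 (sq_nonneg _) (by positivity)).trans ?_
  have h5 : (h ^ (-(7 / 18) : ℝ)) ^ 2 * h⁻¹ = h ^ (-(2 / 3) : ℝ) * h ^ (-(10 / 9) : ℝ) := by
    rw [← Real.rpow_natCast, ← Real.rpow_mul hh.le, ← Real.rpow_neg_one, ← Real.rpow_add hh,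
      ← Real.rpow_add hh]
    norm_num
  have h6 : h ^ (-(2 / 3) : ℝ) ≤ Y ^ (-(2 / 3) : ℝ) :=
    Real.rpow_le_rpow_of_nonpos hY0 hYh (by norm_num)
  obtain ⟨u, hu⟩ : ∃ u, u = U ^ (1 / 9000 : ℝ) := ⟨_, rfl⟩
  obtain ⟨v, hv⟩ : ∃ v, v = U ^ δ := ⟨_, rfl⟩
  obtain ⟨r, hr⟩ : ∃ r, r = h ^ (-(7 / 18) : ℝ) := ⟨_, rfl⟩
  obtain ⟨r1, hr1⟩ : ∃ r1, r1 = h ^ (-(2 / 3) : ℝ) := ⟨_, rfl⟩
  obtain ⟨r2, hr2⟩ : ∃ r2, r2 = h ^ (-(10 / 9) : ℝ) := ⟨_, rfl⟩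
  obtain ⟨y, hy⟩ : ∃ y, y = Y ^ (-(2 / 3) : ℝ) := ⟨_, rfl⟩
  have hu0 : 0 ≤ u := by rw [hu]; positivity
  have hv0 : 0 ≤ v := by rw [hv]; positivity
  have hr20 : 0 ≤ r2 := by rw [hr2]; positivity
  rw [← hr, ← hr1, ← hr2] at h5
  rw [← hr1, ← hy] at h6
  rw [← hu, ← hv, ← hr, ← hr2, ← hy]
  calc v * h⁻¹ * (C₂ * t * (7 * U * (8 * C * u * r))) ^ 2 =
      t ^ 2 * (C₂ ^ 2 * (7 * (8 * C)) ^ 2 * (U * u) ^ 2 * v) * (r ^ 2 * h⁻¹) := by ring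
    _ = t ^ 2 * (C₂ ^ 2 * (7 * (8 * C)) ^ 2 * (U * u) ^ 2 * v) * (r1 * r2) := by rw [h5]
    _ ≤ t ^ 2 * (C₂ ^ 2 * (7 * (8 * C)) ^ 2 * (U * u) ^ 2 * v) * (y * r2) := by
        apply mul_le_mul_of_nonneg_left _ (by positivity)
        exact mul_le_mul_of_nonneg_right h6 hr20
    _ = t ^ 2 * (C₂ ^ 2 * (7 * (8 * C)) ^ 2 * (U * u) ^ 2 * v * y) * r2 := by ring

theorem final_real {δ w σ C₁ : ℝ} (hδd : δ = 1 / 50000) (hU : 1 ≤ U)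
    (hY : U ^ (1 / 1000 : ℝ) ≤ Y) (hσ0 : 0 ≤ σ) (hC₁ : 0 < C₁) :
    w ^ 2 * (C₁ * U ^ (1 + 2 * δ) * (C₂ ^ 2 * (7 * (8 * C)) ^ 2 * (U * U ^ (1 / 9000 : ℝ)) ^ 2 *
      U ^ δ * Y ^ (-(2 / 3) : ℝ)) * σ) ≤
      (w ^ 2 * (C₁ * (C₂ ^ 2 * (7 * (8 * C)) ^ 2)) * σ + 1) * U ^ (3 - 1 / 4000 : ℝ) := by
  have hU0 : 0 < U := by linarith
  have h1 : Y ^ (-(2 / 3) : ℝ) ≤ U ^ (-(1 / 1500) : ℝ) := by
    calc Y ^ (-(2 / 3) : ℝ) ≤ (U ^ (1 / 1000 : ℝ)) ^ (-(2 / 3) : ℝ) :=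
          Real.rpow_le_rpow_of_nonpos (by positivity) hY (by norm_num)
      _ = U ^ (-(1 / 1500) : ℝ) := by
          rw [← Real.rpow_mul hU0.le]
          norm_num
  have e1 : (U * U ^ (1 / 9000 : ℝ)) ^ 2 = U ^ ((1 + 1 / 9000) * 2 : ℝ) := by
    have : U * U ^ (1 / 9000 : ℝ) = U ^ (1 + 1 / 9000 : ℝ) := by
      rw [Real.rpow_add hU0, Real.rpow_one]
    rw [this, ← Real.rpow_natCast, ← Real.rpow_mul hU0.le]
    norm_num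
  have h2 : U ^ (1 + 2 * δ) * ((U * U ^ (1 / 9000 : ℝ)) ^ 2 * U ^ δ * Y ^ (-(2 / 3) : ℝ)) ≤
      U ^ (3 - 1 / 4000 : ℝ) := by
    calc U ^ (1 + 2 * δ) * ((U * U ^ (1 / 9000 : ℝ)) ^ 2 * U ^ δ * Y ^ (-(2 / 3) : ℝ)) ≤
        U ^ (1 + 2 * δ) * ((U * U ^ (1 / 9000 : ℝ)) ^ 2 * U ^ δ * U ^ (-(1 / 1500) : ℝ)) := by
          gcongr
      _ = U ^ (1 + 2 * δ + ((1 + 1 / 9000) * 2 + δ + -(1 / 1500))) := by
          rw [e1, ← Real.rpow_add hU0, ← Real.rpow_add hU0, ← Real.rpow_add hU0]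
      _ ≤ U ^ (3 - 1 / 4000 : ℝ) := by
          apply Real.rpow_le_rpow_of_exponent_le hU
          rw [hδd]
          norm_num
  have h3 : 0 ≤ w ^ 2 * (C₁ * (C₂ ^ 2 * (7 * (8 * C)) ^ 2)) * σ := by positivity
  have h4 : 0 ≤ U ^ (3 - 1 / 4000 : ℝ) := by positivity
  calc w ^ 2 * (C₁ * U ^ (1 + 2 * δ) * (C₂ ^ 2 * (7 * (8 * C)) ^ 2 * (U * U ^ (1 / 9000 : ℝ)) ^ 2 *
      U ^ δ * Y ^ (-(2 / 3) : ℝ)) * σ) =
      w ^ 2 * (C₁ * (C₂ ^ 2 * (7 * (8 * C)) ^ 2)) * σ *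
        (U ^ (1 + 2 * δ) * ((U * U ^ (1 / 9000 : ℝ)) ^ 2 * U ^ δ * Y ^ (-(2 / 3) : ℝ))) := by
        ring
    _ ≤ w ^ 2 * (C₁ * (C₂ ^ 2 * (7 * (8 * C)) ^ 2)) * σ * U ^ (3 - 1 / 4000 : ℝ) :=
        mul_le_mul_of_nonneg_left h2 h3
    _ ≤ _ := by
        apply mul_le_mul_of_nonneg_right _ h4
        linarith

end TailAux

theorem tail_mm : ∃ C : ℝ, 0 < C ∧ ∀ (U Y α β : ℝ) (Ω : ℝ → ℂ), 1 ≤ U → U ^ (1 / 1000 : ℝ) ≤ Y → 2 * U ≤ α → α ≤ 6 * U →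
    2 * U ≤ β → β ≤ 6 * U → Continuous Ω → (∀ x, ‖Ω x‖ ≤ 1) →
    (∀ x, Ω x ≠ 0 → U ≤ x ∧ x ≤ 8 * U ∧ α - U ≤ x ∧ x ≤ α + 4 * U) →
    ∫⁻ h in Set.Icc β (β + U), ‖∫ x, Ω x * MTail Y x (h - α)‖ₑ ^ 2 ≤
      ENNReal.ofReal (C * U ^ (3 - 1 / 4000 : ℝ)) := by
  obtain ⟨δ, hδd⟩ : ∃ δ : ℝ, δ = 1 / 50000 := ⟨_, rfl⟩
  have hδ : 0 < δ := by rw [hδd]; norm_num
  have hδ2 : δ ≤ 1 / 2 := by rw [hδd]; norm_num
  obtain ⟨C₁, hC₁, hls⟩ := large_sieve δ hδ hδ2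
  obtain ⟨C₂, hC₂, hfs⟩ := four_sep δ hδ hδ2
  obtain ⟨C, hC, hb⟩ := mm_bound
  obtain ⟨w, hw⟩ : ∃ w, w = ∑' k : ℤ, (1 + (k : ℝ) ^ 2)⁻¹ := ⟨_, rfl⟩
  obtain ⟨σ, hσ⟩ : ∃ σ, σ = ∑' q : Q, (hgt q.1) ^ (-(10 / 9) : ℝ) := ⟨_, rfl⟩
  have hw0 : 0 ≤ w := by rw [hw]; exact tsum_nonneg fun k => by positivity
  have hσ0 : 0 ≤ σ := by
    rw [hσ]; exact tsum_nonneg fun q => Real.rpow_nonneg (hgt_pos q.1).le _
  have hwE : ∑' k : ℤ, ENNReal.ofReal ((1 + (k : ℝ) ^ 2)⁻¹) = ENNReal.ofReal w := by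
    rw [hw]
    exact w_eq
  have hσE : ∑' q : Q, ENNReal.ofReal ((hgt q.1) ^ (-(10 / 9) : ℝ)) = ENNReal.ofReal σ := by
    rw [hσ]
    exact sigma_eq
  refine ⟨w ^ 2 * (C₁ * (C₂ ^ 2 * (7 * (8 * C)) ^ 2)) * σ + 1, by positivity, ?_⟩
  intro U Y α β Ω hU hY hα1 hα2 hβ1 hβ2 hΩ hΩ1 hs
  have hU0 : 0 < U := by linarith
  have hs' : ∀ x, Ω x ≠ 0 → U ≤ x ∧ x ≤ 8 * U := fun x hx => ⟨(hs x hx).1, (hs x hx).2.1⟩
  obtain ⟨ω, hω, hω2⟩ := hfs U hU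
  have hY0 : 0 < Y := lt_of_lt_of_le (by positivity) hY
  -- the coefficients
  set B : ℤ → Q → ℝ := fun k q => C₂ / (1 + (k : ℝ) ^ 2) * (if Y < hgt q.1 then 1 else 0) *
    ‖Jx U Ω k q‖ with hB
  have hJ := fun (k : ℤ) (q : Q) => norm_Jx hU hC hb hΩ hΩ1 hs' k q
  have hB0 : ∀ k q, 0 ≤ B k q := fun k q => by
    simp only [hB]
    positivity
  have hpow1 : ∀ q : Q, (hgt q.1) ^ (-(7 / 18) : ℝ) ≤ 1 := fun q =>
    Real.rpow_le_one_of_one_le_of_nonpos (one_le_hgt q.1) (by norm_num)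
  have hcond : ∀ (k : ℤ) (q : Q), ‖cc U Y α Ω ω k q‖ ≤
      kap δ U (hgt q.1) * (hgt q.1) ^ (-(1 / 2) : ℝ) * B k q := by
    intro k q
    unfold cc
    rw [norm_mul]
    calc ‖cst Y α ω k q‖ * ‖Jx U Ω k q‖ ≤ (kap δ U (hgt q.1) * (hgt q.1) ^ (-(1 / 2) : ℝ) *
        (C₂ / (1 + (k : ℝ) ^ 2) * (if Y < hgt q.1 then 1 else 0))) * ‖Jx U Ω k q‖ :=
          mul_le_mul_of_nonneg_right (norm_cst hU hC₂ hω k q) (norm_nonneg _)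
      _ = _ := by simp only [hB]; ring
  have hBle : ∀ (k : ℤ) (q : Q), B k q ≤ C₂ * (7 * U * (8 * C * U ^ (1 / 9000 : ℝ))) := by
    intro k q
    have h1 : C₂ / (1 + (k : ℝ) ^ 2) * (if Y < hgt q.1 then 1 else 0) ≤ C₂ := by
      have h2 : C₂ / (1 + (k : ℝ) ^ 2) ≤ C₂ := by
        apply div_le_self hC₂.le
        nlinarith [sq_nonneg (k : ℝ)]
      split_ifs
      · rwa [mul_one]
      · rw [mul_zero]; exact hC₂.le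
    have h3 : ‖Jx U Ω k q‖ ≤ 7 * U * (8 * C * U ^ (1 / 9000 : ℝ)) := by
      refine (hJ k q).trans ?_
      apply mul_le_mul_of_nonneg_left _ (by positivity)
      exact mul_le_of_le_one_right (by positivity) (hpow1 q)
    exact mul_le_mul h1 h3 (norm_nonneg _) hC₂.le
  have hsum : ∀ k : ℤ, Summable fun q : Q => ‖cc U Y α Ω ω k q‖ := fun k =>
    (hls U U β hU hU0.le le_rfl (cc U Y α Ω ω k) (B k) _ (hB0 k) (hBle k) (hcond k)).1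
  have hLS : ∀ k : ℤ, ∫⁻ h in Set.Icc β (β + U), ‖∑' q : Q, cc U Y α Ω ω k q * ex h q.1‖ₑ ^ 2 ≤
      ENNReal.ofReal (C₁ * U ^ (1 + 2 * δ)) *
        ∑' q : Q, ENNReal.ofReal (kap δ U (hgt q.1) * (hgt q.1)⁻¹ * B k q ^ 2) := fun k =>
    (hls U U β hU hU0.le le_rfl (cc U Y α Ω ω k) (B k) _ (hB0 k) (hBle k) (hcond k)).2
  -- the diagonal sum
  set R : ℝ := C₂ ^ 2 * (7 * (8 * C)) ^ 2 * (U * U ^ (1 / 9000 : ℝ)) ^ 2 * U ^ δ * Y ^ (-(2 / 3) : ℝ)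
    with hR
  have hR0 : 0 ≤ R := by rw [hR]; positivity
  have hdiag : ∀ k : ℤ, ∑' q : Q, ENNReal.ofReal (kap δ U (hgt q.1) * (hgt q.1)⁻¹ * B k q ^ 2) ≤
      ENNReal.ofReal (((1 + (k : ℝ) ^ 2)⁻¹) ^ 2 * R) * ENNReal.ofReal σ := by
    intro k
    rw [← hσE, ← ENNReal.tsum_mul_left]
    refine ENNReal.tsum_le_tsum fun q => ?_
    rw [← ENNReal.ofReal_mul (by positivity)]
    apply ENNReal.ofReal_le_ofReal
    have hK := kap_le_pow hδ (by linarith) hU (one_le_hgt q.1) (δ := δ)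
    by_cases hYq : Y < hgt q.1
    · have h1 : B k q ≤ C₂ * (1 + (k : ℝ) ^ 2)⁻¹ *
          (7 * U * (8 * C * U ^ (1 / 9000 : ℝ) * (hgt q.1) ^ (-(7 / 18) : ℝ))) := by
        simp only [hB, if_pos hYq, mul_one]
        rw [div_eq_mul_inv]
        exact mul_le_mul_of_nonneg_left (hJ k q) (by positivity)
      exact diag_pt hU0 hY0 (hgt_pos q.1) hYq.le hC₂.le hC.le (kap_nonneg hU0.le (hgt_pos q.1).le)
        hK (hB0 k q) (by positivity) h1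
    · have h1 : B k q = 0 := by simp only [hB, if_neg hYq, mul_zero, zero_mul]
      have h2 : 0 ≤ (hgt q.1) ^ (-(10 / 9) : ℝ) := Real.rpow_nonneg (hgt_pos q.1).le _
      have h3 : kap δ U (hgt q.1) * (hgt q.1)⁻¹ * (0 : ℝ) ^ 2 = 0 := by ring
      rw [h1, h3]
      positivity
  -- the pointwise bound
  have hpt : ∀ h ∈ Set.Icc β (β + U), ‖∫ x, Ω x * MTail Y x (h - α)‖ₑ ^ 2 ≤
      ENNReal.ofReal w * ∑' k : ℤ, ENNReal.ofReal (1 + (k : ℝ) ^ 2) *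
        ‖∑' q : Q, cc U Y α Ω ω k q * ex h q.1‖ₑ ^ 2 := by
    intro h hh
    have h1 := expand_int (Y := Y) (β := β) hδ hδ2 hU hC₂ hC hω hω2 hb hΩ hΩ1 hs hβ1 hβ2 hh
    refine (pow_le_pow_left' h1 2).trans ?_
    rw [← hwE]
    exact cs_w _
  have hmeas : ∀ k : ℤ, Measurable fun h : ℝ => ENNReal.ofReal (1 + (k : ℝ) ^ 2) *
      ‖∑' q : Q, cc U Y α Ω ω k q * ex h q.1‖ₑ ^ 2 := by
    intro k
    have hc : Continuous fun h : ℝ => ∑' q : Q, cc U Y α Ω ω k q * ex h q.1 := by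
      refine continuous_tsum (fun q => continuous_const.mul (continuous_exh q.1)) (hsum k) ?_
      intro q h
      rw [norm_mul, norm_ex, mul_one]
    exact (hc.enorm.measurable.pow_const 2).const_mul _
  calc ∫⁻ h in Set.Icc β (β + U), ‖∫ x, Ω x * MTail Y x (h - α)‖ₑ ^ 2 ≤
      ∫⁻ h in Set.Icc β (β + U), ENNReal.ofReal w * ∑' k : ℤ, ENNReal.ofReal (1 + (k : ℝ) ^ 2) *
        ‖∑' q : Q, cc U Y α Ω ω k q * ex h q.1‖ₑ ^ 2 :=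
        setLIntegral_mono' measurableSet_Icc hpt
    _ = ENNReal.ofReal w * ∑' k : ℤ, ENNReal.ofReal (1 + (k : ℝ) ^ 2) *
        ∫⁻ h in Set.Icc β (β + U), ‖∑' q : Q, cc U Y α Ω ω k q * ex h q.1‖ₑ ^ 2 := by
        rw [lintegral_const_mul' _ _ ENNReal.ofReal_ne_top,
          lintegral_tsum fun k => (hmeas k).aemeasurable]
        congr 1
        refine tsum_congr fun k => ?_
        rw [lintegral_const_mul' _ _ ENNReal.ofReal_ne_top]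
    _ ≤ ENNReal.ofReal w * ∑' k : ℤ, ENNReal.ofReal (1 + (k : ℝ) ^ 2) *
        (ENNReal.ofReal (C₁ * U ^ (1 + 2 * δ)) *
          (ENNReal.ofReal (((1 + (k : ℝ) ^ 2)⁻¹) ^ 2 * R) * ENNReal.ofReal σ)) := by
        gcongr with k
        exact (hLS k).trans (by gcongr; exact hdiag k)
    _ = ENNReal.ofReal w * ∑' k : ℤ, ENNReal.ofReal ((1 + (k : ℝ) ^ 2)⁻¹) *
        ENNReal.ofReal (C₁ * U ^ (1 + 2 * δ) * R * σ) := by
        congr 1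
        refine tsum_congr fun k => ?_
        rw [← ENNReal.ofReal_mul (by positivity), ← ENNReal.ofReal_mul (by positivity),
          ← ENNReal.ofReal_mul (by positivity), ← ENNReal.ofReal_mul (by positivity)]
        congr 1
        have : (1 + (k : ℝ) ^ 2) ≠ 0 := by positivity
        field_simp
    _ = ENNReal.ofReal (w ^ 2 * (C₁ * U ^ (1 + 2 * δ) * R * σ)) := by
        rw [ENNReal.tsum_mul_right, hwE, ← ENNReal.ofReal_mul hw0, ← ENNReal.ofReal_mul hw0]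
        congr 1
        ring
    _ ≤ ENNReal.ofReal ((w ^ 2 * (C₁ * (C₂ ^ 2 * (7 * (8 * C)) ^ 2)) * σ + 1) *
          U ^ (3 - 1 / 4000 : ℝ)) := by
        apply ENNReal.ofReal_le_ofReal
        rw [hR]
        exact final_real hδd hU hY hσ0 hC₁

end Pool.Agent.P07318f
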