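import Pool.Agent.Lib.P07318f.Trunc
import Pool.Agent.Lib.P07318f.AbsMain
import Pool.Agent.Lib.P07318f.SAvg
import Pool.Agent.Lib.P07318f.TailMM

/-!
# The sum of all main terms is the main term `Mxy`

`κ = 1/10000`, `L = U^κ ≥ 1`. (1) `∑_q .. MM x q = av (s ↦ X2 x (3s) S(s) + X2 x (-3s) S(-s))`, `S(s) = ∑_q h_q^(-1/2) Om(h_q,y) ex (y-x) q MI s x q`: interchange of `∑_q`
and the mean (`mi_bound`, `mi_cont`: dominated, `hasSum_intervalIntegral_of_summable_norm` or `integral_tsum`); `θ ↦` the function is continuous (uniform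
convergence). (2) `sum_mi`, `trunc_d`, `trunc_z`: `‖S(s) - MT (HH x y) s x L‖ ≤ C U^(-1/20)`, the same for `-s` (`α = -s ∨ α = 2(-s)`), times `‖X2 x (±3s)‖ ≤ C U^(3ρ)`.
(3) `abs_main` with `H = HH x y`, `B = C U^(20κ) = C U^(1/500)` (`hh_hol`, `hh_sym`): error `≤ C U^(1/500) (U^(-1/250) + U^(1/50) exp(-U^(2κ)/1000)) ≤ C U^(-1/1000)`.
(4) `av` of `Six (HH x y) x s` is `Mxy x y`: `s_avg`, and `RR (HH x y) ![z0,z1,-z2,-z3] = R3 x y ![..]` if `Pi4 ≠ 0` (`rr_hh`), otherwise `vdm z = 0` and both integrands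
are `0`. All functions of `θ` are continuous (`six_cont`), so the mean of the difference is at most the sup.
-/

set_option autoImplicit false

namespace Pool.Agent.P07318f

open MeasureTheory Complex Pool.Agent.P07318s

theorem mxy_eq (x y L B : ℝ) (hx : 0 < x) (hL : 1 / 2 ≤ L) (hH : Hol4 L B (HH x y)) :
    av (fun s => Six (HH x y) x s) = Mxy x y := by
  rw [s_avg x L B (HH x y) hx hL hH (hh_sym x y)]
  unfold Mxy
  congr 1
  congr 1
  funext z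
  by_cases h : Pi4 ![z 0, z 1, -z 2, -z 3] = 0
  · have h1 : vdm z = 0 := by
      unfold Pi4 at h
      simp only [Matrix.cons_val_zero, Matrix.cons_val_one, Matrix.cons_val] at h
      have e : vdm z = (z 1 - z 0) * (z 3 - z 2) *
          ((z 0 + -z 2) * (z 0 + -z 3) * ((z 1 + -z 2) * (z 1 + -z 3))) := by
        unfold vdm
        ring
      rw [e, h, mul_zero]
    rw [h1]
    simp
  · rw [rr_hh x y _ h]

namespace FullAux

theorem rho_pos : (0 : ℝ) < rho := by unfold rho; norm_num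

theorem norm_circ (θ : ℝ) : ‖circleMap 0 rho θ‖ = rho := by
  rw [norm_circleMap_zero, abs_of_pos rho_pos]

/-- the size of `X2` -/
theorem X2_bound {U x a : ℝ} {w : ℂ} (hU : 1 ≤ U) (h1 : U ≤ x) (h2 : x ≤ 16 * U) (ha1 : a ≤ 1)
    (hw : |w.re| ≤ a) : ‖X2 x w‖ ≤ 16 * U ^ a := by
  have hpi := Real.pi_gt_three
  have hpi4 := Real.pi_le_four
  have hx : 0 < x := by linarith
  have hr : 0 < x / (2 * Real.pi) := by positivity
  have ha0 : 0 ≤ a := (abs_nonneg _).trans hw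
  have hU16 : (1 : ℝ) ≤ 16 * U := by linarith
  unfold X2
  rw [Complex.norm_cpow_eq_rpow_re_of_pos hr]
  have h3 : (x / (2 * Real.pi)) ^ w.re ≤ (16 * U) ^ a := by
    rcases le_total 0 w.re with h | h
    · rw [abs_of_nonneg h] at hw
      have h4 : x / (2 * Real.pi) ≤ 16 * U := by
        rw [div_le_iff₀ (by positivity)]
        nlinarith
      exact (Real.rpow_le_rpow hr.le h4 h).trans (Real.rpow_le_rpow_of_exponent_le hU16 hw)
    · rw [abs_of_nonpos h] at hw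
      have h4 : (x / (2 * Real.pi))⁻¹ ≤ 16 * U := by
        rw [inv_div, div_le_iff₀ hx]
        nlinarith
      have h5 : (x / (2 * Real.pi)) ^ w.re = ((x / (2 * Real.pi))⁻¹) ^ (-w.re) := by
        rw [Real.inv_rpow hr.le, Real.rpow_neg hr.le, inv_inv]
      rw [h5]
      exact (Real.rpow_le_rpow (by positivity) h4 (by linarith)).trans
        (Real.rpow_le_rpow_of_exponent_le hU16 hw)
  refine h3.trans ?_
  rw [Real.mul_rpow (by norm_num) (by linarith)]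
  apply mul_le_mul_of_nonneg_right _ (by positivity)
  calc (16 : ℝ) ^ a ≤ 16 ^ (1 : ℝ) := Real.rpow_le_rpow_of_exponent_le (by norm_num) ha1
    _ = 16 := Real.rpow_one _

theorem re_three {s : ℂ} (hs : ‖s‖ = rho) : |(3 * s).re| ≤ 1 / 1000000 ∧
    |(-3 * s).re| ≤ 1 / 1000000 := by
  have h1 : |s.re| ≤ rho := (Complex.abs_re_le_norm s).trans hs.le
  have e1 : (3 * s).re = 3 * s.re := by simp
  have e2 : (-3 * s).re = -(3 * s.re) := by simp
  have h2 : |3 * s.re| ≤ 1 / 1000000 := by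
    rw [abs_mul, abs_of_pos (by norm_num : (0 : ℝ) < 3)]
    unfold rho at h1
    linarith
  rw [e1, e2, abs_neg]
  exact ⟨h2, h2⟩

/-- the coefficients -/
noncomputable def cq (x y : ℝ) (q : Q) : ℂ :=
  (((hgt q.1) ^ (-(1 / 2) : ℝ) * Om (hgt q.1) y : ℝ) : ℂ) * ex (y - x) q.1

/-- the integrands -/
noncomputable def Fq (x y : ℝ) (q : Q) (θ : ℝ) : ℂ :=
  cq x y q * (X2 x (3 * circleMap 0 rho θ) * MI (circleMap 0 rho θ) x q.1.1 q.1.2 +
    X2 x (-3 * circleMap 0 rho θ) * MI (-circleMap 0 rho θ) x q.1.1 q.1.2)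

theorem norm_cq (x y : ℝ) (q : Q) :
    ‖cq x y q‖ = (hgt q.1) ^ (-(1 / 2) : ℝ) * Om (hgt q.1) y := by
  unfold cq
  rw [norm_mul, norm_ex, mul_one, Complex.norm_real, Real.norm_of_nonneg]
  exact mul_nonneg (Real.rpow_nonneg (hgt_pos q.1).le _) (Om_nonneg _ _)

theorem Fq_cont {x y : ℝ} (hx : 0 < x) (q : Q) : Continuous (Fq x y q) := by
  have hr : ((x / (2 * Real.pi) : ℝ) : ℂ) ≠ 0 := by
    rw [Complex.ofReal_ne_zero]
    positivity
  have hc : Continuous (circleMap 0 rho) := continuous_circleMap 0 rho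
  have hX : ∀ f : ℝ → ℂ, Continuous f → Continuous fun θ => X2 x (f θ) := by
    intro f hf
    unfold X2
    exact hf.const_cpow (Or.inl hr)
  have hM := mi_cont q.1.1 q.1.2 q.2
  have h1 : Continuous fun θ => MI (circleMap 0 rho θ) x q.1.1 q.1.2 := by
    refine hM.comp_continuous (f := fun θ : ℝ => (circleMap 0 rho θ, x))
      (hc.prodMk continuous_const) fun θ => ⟨?_, hx⟩
    rw [mem_sphere_zero_iff_norm]
    exact norm_circ θ
  have h2 : Continuous fun θ => MI (-circleMap 0 rho θ) x q.1.1 q.1.2 := by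
    refine hM.comp_continuous (f := fun θ : ℝ => (-circleMap 0 rho θ, x))
      (hc.neg.prodMk continuous_const) fun θ => ⟨?_, hx⟩
    rw [mem_sphere_zero_iff_norm, norm_neg]
    exact norm_circ θ
  unfold Fq
  exact continuous_const.mul (((hX _ (continuous_const.mul hc)).mul h1).add
    ((hX _ (continuous_const.mul hc)).mul h2))

theorem norm_Fq {C U x y : ℝ} (hU : 1 ≤ U) (hx1 : U ≤ x) (hx2 : x ≤ 16 * U) (hC : 0 < C)
    (hb : ∀ (x : ℝ) (s : ℂ) (a b : ℕ+), 1 ≤ x → ‖s‖ = rho → Nat.Coprime (a : ℕ) (b : ℕ) →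
      ‖MI s x a b‖ ≤ C * x ^ (1 / 10000 : ℝ) * ((a : ℕ) * (b : ℕ) : ℝ) ^ (-(1 / 2) + 1 / 9 : ℝ))
    (q : Q) (θ : ℝ) :
    ‖Fq x y q θ‖ ≤ ((hgt q.1) ^ (-(1 / 2) : ℝ) * Om (hgt q.1) y) *
      (2 * ((16 * U ^ (1 / 1000000 : ℝ)) * (C * x ^ (1 / 10000 : ℝ)))) := by
  have hx : 1 ≤ x := by linarith
  have hs := norm_circ θ
  have hs' : ‖-circleMap 0 rho θ‖ = rho := by rw [norm_neg, hs]
  obtain ⟨r1, r2⟩ := re_three hs
  have hX1 := X2_bound hU hx1 hx2 (by norm_num) r1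
  have hX2 := X2_bound hU hx1 hx2 (by norm_num) r2
  have hpow : ((q.1.1 : ℕ) * (q.1.2 : ℕ) : ℝ) ^ (-(1 / 2) + 1 / 9 : ℝ) ≤ 1 :=
    Real.rpow_le_one_of_one_le_of_nonpos (one_le_hgt q.1) (by norm_num)
  have hC0 : 0 ≤ C * x ^ (1 / 10000 : ℝ) := by positivity
  have hM1 : ‖MI (circleMap 0 rho θ) x q.1.1 q.1.2‖ ≤ C * x ^ (1 / 10000 : ℝ) :=
    (hb x _ q.1.1 q.1.2 hx hs q.2).trans (mul_le_of_le_one_right hC0 hpow)
  have hM2 : ‖MI (-circleMap 0 rho θ) x q.1.1 q.1.2‖ ≤ C * x ^ (1 / 10000 : ℝ) :=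
    (hb x _ q.1.1 q.1.2 hx hs' q.2).trans (mul_le_of_le_one_right hC0 hpow)
  unfold Fq
  rw [norm_mul, norm_cq]
  apply mul_le_mul_of_nonneg_left _
    (mul_nonneg (Real.rpow_nonneg (hgt_pos q.1).le _) (Om_nonneg _ _))
  refine (norm_add_le _ _).trans ?_
  rw [norm_mul, norm_mul]
  have h1 := mul_le_mul hX1 hM1 (norm_nonneg _) (by positivity)
  have h2 := mul_le_mul hX2 hM2 (norm_nonneg _) (by positivity)
  linarith

/-- the sum of the `Fq` -/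
theorem tsum_Fq {x y : ℝ} (hx : 1 ≤ x) (hy : 0 < y) (θ : ℝ) {s : ℂ} (hs : s = circleMap 0 rho θ) :
    ∑' q : Q, Fq x y q θ =
      X2 x (3 * s) * (DF s x y + (ZG s s s x y + ZG s s (2 * s) x y +
        (ZG s (2 * s) s x y + ZG s (2 * s) (2 * s) x y))) +
      X2 x (-3 * s) * (DF (-s) x y + (ZG (-s) (-s) (-s) x y + ZG (-s) (-s) (2 * -s) x y +
        (ZG (-s) (2 * -s) (-s) x y + ZG (-s) (2 * -s) (2 * -s) x y))) := by
  have hs1 : ‖s‖ = rho := by rw [hs]; exact norm_circ θ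
  have hs2 : ‖-s‖ = rho := by rw [norm_neg, hs1]
  obtain ⟨a1, a2⟩ := sum_mi x y s hx hy hs1
  obtain ⟨b1, b2⟩ := sum_mi x y (-s) hx hy hs2
  have a3 : Summable fun q : Q => cq x y q * MI s x q.1.1 q.1.2 := Summable.of_norm a1
  have b3 : Summable fun q : Q => cq x y q * MI (-s) x q.1.1 q.1.2 := Summable.of_norm b1
  have a4 : ∑' q : Q, cq x y q * MI s x q.1.1 q.1.2 = _ := a2
  have b4 : ∑' q : Q, cq x y q * MI (-s) x q.1.1 q.1.2 = _ := b2
  rw [← a4, ← b4, ← tsum_mul_left, ← tsum_mul_left,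
    ← (a3.mul_left (X2 x (3 * s))).tsum_add (b3.mul_left (X2 x (-3 * s)))]
  refine tsum_congr fun q => ?_
  unfold Fq
  rw [← hs]
  ring

/-- interchange of the sum and the mean -/
theorem swap {C U x y : ℝ} (hU : 1 ≤ U) (hx1 : U ≤ x) (hx2 : x ≤ 16 * U) (hy : 0 < y) (hC : 0 < C)
    (hb : ∀ (x : ℝ) (s : ℂ) (a b : ℕ+), 1 ≤ x → ‖s‖ = rho → Nat.Coprime (a : ℕ) (b : ℕ) →
      ‖MI s x a b‖ ≤ C * x ^ (1 / 10000 : ℝ) * ((a : ℕ) * (b : ℕ) : ℝ) ^ (-(1 / 2) + 1 / 9 : ℝ)) :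
    (Continuous fun θ => ∑' q : Q, Fq x y q θ) ∧
    ∑' q : Q, cq x y q * MM x q.1.1 q.1.2 =
      (2 * Real.pi : ℂ)⁻¹ * ∫ θ in (0 : ℝ)..(2 * Real.pi), ∑' q : Q, Fq x y q θ := by
  have hx : 0 < x := by linarith
  have hsum : Summable fun q : Q => ((hgt q.1) ^ (-(1 / 2) : ℝ) * Om (hgt q.1) y) *
      (2 * ((16 * U ^ (1 / 1000000 : ℝ)) * (C * x ^ (1 / 10000 : ℝ)))) :=
    (cfQ_summable hy).mul_right _
  have hn := fun q θ => norm_Fq (y := y) hU hx1 hx2 hC hb q θ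
  refine ⟨continuous_tsum (fun q => Fq_cont hx q) hsum hn, ?_⟩
  have hint : ∀ q : Q, Integrable (Fq x y q) (volume.restrict (Set.Ioc 0 (2 * Real.pi))) :=
    fun q => ((Fq_cont hx q).intervalIntegrable 0 (2 * Real.pi)).1
  have hpi : (0 : ℝ) ≤ 2 * Real.pi := by positivity
  have hHS := hasSum_integral_of_summable_integral_norm hint (by
    refine Summable.of_nonneg_of_le (fun q => integral_nonneg fun θ => norm_nonneg _) (fun q => ?_)
      (hsum.mul_left (2 * Real.pi))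
    have h1 := setIntegral_mono_on (μ := volume) (s := Set.Ioc 0 (2 * Real.pi))
      (f := fun θ => ‖Fq x y q θ‖) (g := fun _ => ((hgt q.1) ^ (-(1 / 2) : ℝ) * Om (hgt q.1) y) *
      (2 * ((16 * U ^ (1 / 1000000 : ℝ)) * (C * x ^ (1 / 10000 : ℝ)))))
      (hint q).norm (integrableOn_const (by exact measure_Ioc_lt_top.ne)) measurableSet_Ioc
      (fun θ _ => hn q θ)
    refine h1.trans (le_of_eq ?_)
    rw [setIntegral_const, smul_eq_mul, Measure.real, Real.volume_Ioc,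
      ENNReal.toReal_ofReal (by linarith), sub_zero])
  rw [intervalIntegral.integral_of_le hpi, ← hHS.tsum_eq, ← tsum_mul_left]
  refine tsum_congr fun q => ?_
  unfold MM av
  rw [← intervalIntegral.integral_of_le hpi]
  have h2 : ∫ θ in (0 : ℝ)..(2 * Real.pi), Fq x y q θ = cq x y q *
      ∫ θ in (0 : ℝ)..(2 * Real.pi), (X2 x (3 * circleMap 0 rho θ) *
        MI (circleMap 0 rho θ) x q.1.1 q.1.2 +
          X2 x (-3 * circleMap 0 rho θ) * MI (-circleMap 0 rho θ) x q.1.1 q.1.2) := by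
    rw [← intervalIntegral.integral_const_mul]
    rfl
  rw [h2]
  ring

/-- truncation error of one half -/
theorem half_err {C₁ C₂ U x y L : ℝ} {s : ℂ}
    (h1 : ‖DF s x y - DT (HH x y) s x L‖ ≤ C₁ * U ^ (-(1 / 20) : ℝ))
    (h2 : ∀ α β : ℂ, (α = s ∨ α = 2 * s) → (β = s ∨ β = 2 * s) →
      ‖ZG s α β x y - ZT (HH x y) s α β x L‖ ≤ C₂ * U ^ (-(1 / 20) : ℝ)) :
    ‖(DF s x y + (ZG s s s x y + ZG s s (2 * s) x y +
        (ZG s (2 * s) s x y + ZG s (2 * s) (2 * s) x y))) - MT (HH x y) s x L‖ ≤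
      (C₁ + 4 * C₂) * U ^ (-(1 / 20) : ℝ) := by
  have e : (DF s x y + (ZG s s s x y + ZG s s (2 * s) x y +
        (ZG s (2 * s) s x y + ZG s (2 * s) (2 * s) x y))) - MT (HH x y) s x L =
      (DF s x y - DT (HH x y) s x L) + ((ZG s s s x y - ZT (HH x y) s s s x L) +
        (ZG s s (2 * s) x y - ZT (HH x y) s s (2 * s) x L) +
        ((ZG s (2 * s) s x y - ZT (HH x y) s (2 * s) s x L) +
          (ZG s (2 * s) (2 * s) x y - ZT (HH x y) s (2 * s) (2 * s) x L))) := by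
    unfold MT
    ring
  rw [e]
  have a1 := h2 s s (Or.inl rfl) (Or.inl rfl)
  have a2 := h2 s (2 * s) (Or.inl rfl) (Or.inr rfl)
  have a3 := h2 (2 * s) s (Or.inr rfl) (Or.inl rfl)
  have a4 := h2 (2 * s) (2 * s) (Or.inr rfl) (Or.inr rfl)
  refine (norm_add_le _ _).trans ?_
  have b1 := norm_add_le ((ZG s s s x y - ZT (HH x y) s s s x L) +
        (ZG s s (2 * s) x y - ZT (HH x y) s s (2 * s) x L))
        ((ZG s (2 * s) s x y - ZT (HH x y) s (2 * s) s x L) +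
          (ZG s (2 * s) (2 * s) x y - ZT (HH x y) s (2 * s) (2 * s) x L))
  have b2 := norm_add_le (ZG s s s x y - ZT (HH x y) s s s x L)
        (ZG s s (2 * s) x y - ZT (HH x y) s s (2 * s) x L)
  have b3 := norm_add_le (ZG s (2 * s) s x y - ZT (HH x y) s (2 * s) s x L)
          (ZG s (2 * s) (2 * s) x y - ZT (HH x y) s (2 * s) (2 * s) x L)
  linarith

/-- powers against the exponential -/
theorem pow_exp : ∃ K : ℝ, 0 < K ∧ ∀ U : ℝ, 1 ≤ U →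
    U ^ (20 * (1 / 10000) : ℝ) * (U ^ (1 / 50 : ℝ) *
      Real.exp (-((U ^ (1 / 10000 : ℝ)) ^ 2 / 1000))) ≤ K * U ^ (-(1 / 1000) : ℝ) := by
  obtain ⟨K, hK⟩ : ∃ K : ℝ, K = (1000 : ℝ) ^ 115 * (Nat.factorial 115 : ℝ) := ⟨_, rfl⟩
  have hK0 : 0 < K := by
    rw [hK]
    have : (0 : ℝ) < (Nat.factorial 115 : ℝ) := by exact_mod_cast Nat.factorial_pos 115
    positivity
  refine ⟨K, hK0, fun U hU => ?_⟩
  have hU0 : 0 < U := by linarith
  obtain ⟨t, ht⟩ : ∃ t : ℝ, t = U ^ (1 / 5000 : ℝ) := ⟨_, rfl⟩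
  have ht0 : 0 < t := by rw [ht]; positivity
  have e1 : (U ^ (1 / 10000 : ℝ)) ^ 2 = t := by
    rw [ht, ← Real.rpow_natCast, ← Real.rpow_mul hU0.le]
    norm_num
  have e2 : U ^ (20 * (1 / 10000) : ℝ) * U ^ (1 / 50 : ℝ) = t ^ 115 * U ^ (-(1 / 1000) : ℝ) := by
    rw [ht, ← Real.rpow_natCast, ← Real.rpow_mul hU0.le, ← Real.rpow_add hU0, ← Real.rpow_add hU0]
    norm_num
  rw [← mul_assoc, e1, e2]
  have h1 := Real.pow_div_factorial_le_exp (t / 1000) (by positivity) 115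
  have h2 : t ^ 115 * Real.exp (-(t / 1000)) ≤ K := by
    rw [Real.exp_neg, ← div_eq_mul_inv, div_le_iff₀ (Real.exp_pos _)]
    have h3 : t ^ 115 = K * ((t / 1000) ^ 115 / (Nat.factorial 115 : ℝ)) := by
      rw [hK, div_pow]
      have : ((Nat.factorial 115 : ℕ) : ℝ) ≠ 0 := by
        exact_mod_cast (Nat.factorial_pos 115).ne'
      generalize ((Nat.factorial 115 : ℕ) : ℝ) = f at this ⊢
      field_simp
    rw [h3]
    exact mul_le_mul_of_nonneg_left h1 hK0.le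
  have h3 : 0 ≤ U ^ (-(1 / 1000) : ℝ) := by positivity
  calc t ^ 115 * U ^ (-(1 / 1000) : ℝ) * Real.exp (-(t / 1000)) =
      (t ^ 115 * Real.exp (-(t / 1000))) * U ^ (-(1 / 1000) : ℝ) := by ring
    _ ≤ K * U ^ (-(1 / 1000) : ℝ) := mul_le_mul_of_nonneg_right h2 h3

end FullAux

open FullAux

theorem full_sum (B : ℝ) : ∃ C : ℝ, 0 < C ∧ ∀ (U x y : ℝ), 1 ≤ U → U ≤ x → x ≤ 16 * U → U ≤ y → y ≤ 16 * U →
    Good (1 / 10000) (U ^ (1 / 10000 : ℝ)) (B * U ^ (1 / 10000 : ℝ)) (y - x) →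
    ‖(∑' q : Q, (((hgt q.1) ^ (-(1 / 2) : ℝ) * Om (hgt q.1) y : ℝ) : ℂ) * ex (y - x) q.1 * MM x q.1.1 q.1.2) -
      Mxy x y‖ ≤ C * U ^ (-(1 / 1000) : ℝ) := by
  obtain ⟨C₀, hC₀, hmi⟩ := mi_bound
  obtain ⟨C₁, hC₁, htd⟩ := trunc_d (1 / 10000) (by norm_num) (by norm_num) B
  obtain ⟨C₂, hC₂, htz⟩ := trunc_z (1 / 10000) (by norm_num) (by norm_num) B
  obtain ⟨C₃, hC₃, hab⟩ := abs_main
  obtain ⟨C₄, hC₄, hhh⟩ := hh_hol (1 / 10000) (by norm_num) (by norm_num) B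
  obtain ⟨K, hK, hKe⟩ := pow_exp
  refine ⟨2 * (16 * (C₁ + 4 * C₂)) + C₃ * C₄ * (1 + 16 * K), by positivity, ?_⟩
  intro U x y hU hx1 hx2 hy1 hy2 hG
  have hU0 : 0 < U := by linarith
  have hx : 1 ≤ x := by linarith
  have hx0 : 0 < x := by linarith
  have hy : 0 < y := by linarith
  set L : ℝ := U ^ (1 / 10000 : ℝ) with hL
  have hL1 : 1 ≤ L := Real.one_le_rpow hU (by norm_num)
  have hHol := hhh U x y hU hx1 hx2 hy1 hy2 hG
  rw [← hL] at hHol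
  have hB4 : 0 ≤ C₄ * U ^ (20 * (1 / 10000) : ℝ) := by positivity
  obtain ⟨hcont, hswap⟩ := swap hU hx1 hx2 hy hC₀ hmi
  have hsix := six_cont x L _ (HH x y) hx0 (by linarith) hHol
  have hM := mxy_eq x y L _ hx0 (by linarith) hHol
  -- the error at a point of the circle
  obtain ⟨Er, hEr⟩ : ∃ Er, Er = (2 * (16 * (C₁ + 4 * C₂)) + C₃ * C₄ * (1 + 16 * K)) *
      U ^ (-(1 / 1000) : ℝ) := ⟨_, rfl⟩
  have hpt : ∀ θ : ℝ, ‖(∑' q : Q, Fq x y q θ) - Six (HH x y) x (circleMap 0 rho θ)‖ ≤ Er := by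
    intro θ
    obtain ⟨s, hs⟩ : ∃ s, s = circleMap 0 rho θ := ⟨_, rfl⟩
    have hs1 : ‖s‖ = rho := by rw [hs]; exact norm_circ θ
    have hs2 : ‖-s‖ = rho := by rw [norm_neg, hs1]
    rw [tsum_Fq hx hy θ hs, ← hs]
    have a1 := half_err (htd U x y s hU hx1 hx2 hy1 hy2 hG hs1)
      (fun α β hα hβ => htz U x y s α β hU hx1 hx2 hy1 hy2 hG hs1 hα hβ)
    have a2 := half_err (htd U x y (-s) hU hx1 hx2 hy1 hy2 hG hs2)
      (fun α β hα hβ => htz U x y (-s) α β hU hx1 hx2 hy1 hy2 hG hs2 hα hβ)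
    rw [← hL] at a1 a2
    have a3 := hab x L _ (HH x y) s hx hL1 hHol (hh_sym x y) hs1
    obtain ⟨r1, r2⟩ := re_three hs1
    have hX1 := X2_bound hU hx1 hx2 (by norm_num) r1
    have hX2 := X2_bound hU hx1 hx2 (by norm_num) r2
    obtain ⟨S1, hS1⟩ : ∃ S1, S1 = (DF s x y + (ZG s s s x y + ZG s s (2 * s) x y +
        (ZG s (2 * s) s x y + ZG s (2 * s) (2 * s) x y))) := ⟨_, rfl⟩
    obtain ⟨S2, hS2⟩ : ∃ S2, S2 = (DF (-s) x y + (ZG (-s) (-s) (-s) x y +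
        ZG (-s) (-s) (2 * -s) x y + (ZG (-s) (2 * -s) (-s) x y +
          ZG (-s) (2 * -s) (2 * -s) x y))) := ⟨_, rfl⟩
    rw [← hS1] at a1 ⊢
    rw [← hS2] at a2 ⊢
    have e : X2 x (3 * s) * S1 + X2 x (-3 * s) * S2 - Six (HH x y) x s =
        (X2 x (3 * s) * (S1 - MT (HH x y) s x L) + X2 x (-3 * s) * (S2 - MT (HH x y) (-s) x L)) +
        (X2 x (3 * s) * MT (HH x y) s x L + X2 x (-3 * s) * MT (HH x y) (-s) x L -
          Six (HH x y) x s) := by ring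
    rw [e]
    refine (norm_add_le _ _).trans ?_
    have b1 : ‖X2 x (3 * s) * (S1 - MT (HH x y) s x L) +
        X2 x (-3 * s) * (S2 - MT (HH x y) (-s) x L)‖ ≤
        2 * ((16 * U ^ (1 / 1000000 : ℝ)) * ((C₁ + 4 * C₂) * U ^ (-(1 / 20) : ℝ))) := by
      refine (norm_add_le _ _).trans ?_
      rw [norm_mul, norm_mul]
      have h1 := mul_le_mul hX1 a1 (norm_nonneg _) (by positivity)
      have h2 := mul_le_mul hX2 a2 (norm_nonneg _) (by positivity)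
      linarith
    have b2 : U ^ (1 / 1000000 : ℝ) * U ^ (-(1 / 20) : ℝ) ≤ U ^ (-(1 / 1000) : ℝ) := by
      rw [← Real.rpow_add hU0]
      exact Real.rpow_le_rpow_of_exponent_le hU (by norm_num)
    have b3 : U ^ (20 * (1 / 10000) : ℝ) * x ^ (-(1 / 250) : ℝ) ≤ U ^ (-(1 / 1000) : ℝ) := by
      have h1 : x ^ (-(1 / 250) : ℝ) ≤ U ^ (-(1 / 250) : ℝ) :=
        Real.rpow_le_rpow_of_nonpos hU0 hx1 (by norm_num)
      calc U ^ (20 * (1 / 10000) : ℝ) * x ^ (-(1 / 250) : ℝ) ≤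
          U ^ (20 * (1 / 10000) : ℝ) * U ^ (-(1 / 250) : ℝ) :=
            mul_le_mul_of_nonneg_left h1 (by positivity)
        _ = U ^ (20 * (1 / 10000) + -(1 / 250) : ℝ) := (Real.rpow_add hU0 _ _).symm
        _ ≤ _ := Real.rpow_le_rpow_of_exponent_le hU (by norm_num)
    have b4 : U ^ (20 * (1 / 10000) : ℝ) * (x ^ (1 / 50 : ℝ) * Real.exp (-(L ^ 2 / 1000))) ≤
        16 * (K * U ^ (-(1 / 1000) : ℝ)) := by
      have h1 : x ^ (1 / 50 : ℝ) ≤ 16 * U ^ (1 / 50 : ℝ) := by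
        calc x ^ (1 / 50 : ℝ) ≤ (16 * U) ^ (1 / 50 : ℝ) :=
              Real.rpow_le_rpow hx0.le hx2 (by norm_num)
          _ = 16 ^ (1 / 50 : ℝ) * U ^ (1 / 50 : ℝ) := Real.mul_rpow (by norm_num) hU0.le
          _ ≤ 16 * U ^ (1 / 50 : ℝ) := by
              apply mul_le_mul_of_nonneg_right _ (by positivity)
              calc (16 : ℝ) ^ (1 / 50 : ℝ) ≤ 16 ^ (1 : ℝ) :=
                    Real.rpow_le_rpow_of_exponent_le (by norm_num) (by norm_num)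
                _ = 16 := Real.rpow_one _
      have h2 := hKe U hU
      rw [← hL] at h2
      calc U ^ (20 * (1 / 10000) : ℝ) * (x ^ (1 / 50 : ℝ) * Real.exp (-(L ^ 2 / 1000))) ≤
          U ^ (20 * (1 / 10000) : ℝ) * ((16 * U ^ (1 / 50 : ℝ)) * Real.exp (-(L ^ 2 / 1000))) := by
            apply mul_le_mul_of_nonneg_left _ (by positivity)
            exact mul_le_mul_of_nonneg_right h1 (Real.exp_pos _).le
        _ = 16 * (U ^ (20 * (1 / 10000) : ℝ) * (U ^ (1 / 50 : ℝ) *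
              Real.exp (-(L ^ 2 / 1000)))) := by ring
        _ ≤ _ := mul_le_mul_of_nonneg_left h2 (by norm_num)
    obtain ⟨u1, hu1⟩ : ∃ u1, u1 = U ^ (1 / 1000000 : ℝ) := ⟨_, rfl⟩
    obtain ⟨u2, hu2⟩ : ∃ u2, u2 = U ^ (-(1 / 20) : ℝ) := ⟨_, rfl⟩
    obtain ⟨u3, hu3⟩ : ∃ u3, u3 = U ^ (-(1 / 1000) : ℝ) := ⟨_, rfl⟩
    obtain ⟨u4, hu4⟩ : ∃ u4, u4 = U ^ (20 * (1 / 10000) : ℝ) := ⟨_, rfl⟩
    obtain ⟨u5, hu5⟩ : ∃ u5, u5 = x ^ (-(1 / 250) : ℝ) := ⟨_, rfl⟩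
    obtain ⟨u6, hu6⟩ : ∃ u6, u6 = x ^ (1 / 50 : ℝ) * Real.exp (-(L ^ 2 / 1000)) := ⟨_, rfl⟩
    rw [hEr]
    rw [← hu1, ← hu2] at b1
    rw [← hu1, ← hu2, ← hu3] at b2
    rw [← hu4, ← hu5, ← hu3] at b3
    rw [← hu4, ← hu6, ← hu3] at b4
    rw [← hu4, ← hu5, ← hu6] at a3
    rw [← hu3]
    have c1 : 2 * ((16 * u1) * ((C₁ + 4 * C₂) * u2)) ≤ 2 * (16 * (C₁ + 4 * C₂)) * u3 := by
      have := mul_le_mul_of_nonneg_left b2 (by positivity : 0 ≤ 2 * (16 * (C₁ + 4 * C₂)))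
      linarith
    have c2 : C₃ * (C₄ * u4) * (u5 + u6) ≤ C₃ * C₄ * (1 + 16 * K) * u3 := by
      have h1 : u4 * (u5 + u6) ≤ (1 + 16 * K) * u3 := by linarith
      have := mul_le_mul_of_nonneg_left h1 (by positivity : 0 ≤ C₃ * C₄)
      linarith
    linarith
  -- the mean
  have hpi : (0 : ℝ) ≤ 2 * Real.pi := by positivity
  have hsum : ∑' q : Q, (((hgt q.1) ^ (-(1 / 2) : ℝ) * Om (hgt q.1) y : ℝ) : ℂ) *
      ex (y - x) q.1 * MM x q.1.1 q.1.2 =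
      (2 * Real.pi : ℂ)⁻¹ * ∫ θ in (0 : ℝ)..(2 * Real.pi), ∑' q : Q, Fq x y q θ := hswap
  rw [hsum, ← hM]
  unfold av
  rw [← mul_sub, ← intervalIntegral.integral_sub (hcont.intervalIntegrable _ _)
    (hsix.intervalIntegrable _ _), norm_mul]
  have h1 := intervalIntegral.norm_integral_le_of_norm_le_const (a := 0) (b := 2 * Real.pi)
    (f := fun θ => (∑' q : Q, Fq x y q θ) - Six (HH x y) x (circleMap 0 rho θ)) (C := Er)
    (fun θ _ => hpt θ)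
  rw [sub_zero, abs_of_nonneg hpi] at h1
  have h2 : ‖(2 * Real.pi : ℂ)⁻¹‖ = (2 * Real.pi)⁻¹ := by
    rw [norm_inv]
    congr 1
    have : (2 * Real.pi : ℂ) = ((2 * Real.pi : ℝ) : ℂ) := by push_cast; rfl
    rw [this, Complex.norm_real, Real.norm_of_nonneg hpi]
  rw [h2]
  refine (mul_le_mul_of_nonneg_left h1 (by positivity)).trans (le_of_eq ?_)
  rw [← hEr]
  have : (2 * Real.pi) ≠ 0 := by positivity
  field_simp

end Pool.Agent.P07318f
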