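import Pool.Agent.Lib.P07318s.Kernel
import Pool.Agent.Lib.P07318f.Defs

/-!
# Quotients of the Gamma factors

`Gammaℝ z = π^(-z/2) Γ(z/2)`. With `y = x/2`: `Γ((1/2+u+ix)/2) = Γ(1/4+iy+u/2)`, so `gamma_ratio` and `gamma_ratio_conj` of P07318s (`a = u/2`,
`‖a‖ ≤ y/2 = x/4`) give `Gammaℝ(1/2+u+ix) = Gammaℝ(1/2+ix) π^(-u/2) (iy)^(u/2) (1+O(..))` and the conjugate version. For the numerator of `G4 s' w x` the
`u`'s are `s'+w, 2s'+w` (upper), `s'+w, 2s'+w` (lower): the product of the powers is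
`π^(-3s'-2w) (iy)^((3s'+2w)/2) (-iy)^((3s'+2w)/2) = (y/π)^(3s'+2w) = (x/2π)^(3s'+2w)` (`KernelAux.pow_eq`); denominator: `(x/2π)^(3s)`. Each of the eight
relative errors is `≤ exp(C(1+‖a‖²)/y) - 1 ≤ C' (1+‖a‖)²e^(C'(1+‖a‖))/y` as `‖a‖ ≤ y/2`; the inverse factors (in the denominator, `u = s, 2s`, `‖u‖ ≤ 1/50`): for
`x ≥ x₀` they are close to `1`; for `2 ≤ x ≤ x₀` use compactness / crude bounds (`Gammaℝ` has no zeros, continuous, and `‖w‖ ≤ x/4` bounded).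
-/

set_option autoImplicit false

namespace Pool.Agent.P07318f

open MeasureTheory Complex Pool.Agent.P07318s

noncomputable def G4 (s w : ℂ) (x : ℝ) : ℂ :=
  Gammaℝ (1 / 2 + s + w + x * I) * Gammaℝ (1 / 2 + 2 * s + w + x * I) *
    (Gammaℝ (1 / 2 + s + w - x * I) * Gammaℝ (1 / 2 + 2 * s + w - x * I))

namespace Gam4Aux

open KernelAux

/-- the quotient of the Gamma factors is close to the power -/
theorem gx_fac : ∃ C : ℝ, 0 < C ∧ ∀ x : ℝ, 2 ≤ x → ∀ u : ℂ, ‖u‖ ≤ x / 2 →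
    ∃ R : ℂ, gx x u = X2 x u * R ∧ 1 + ‖R - 1‖ ≤ Real.exp (C * (1 + ‖u‖) ^ 2 / x) := by
  obtain ⟨C₁, hC₁, h₁⟩ := gamma_ratio
  obtain ⟨C₂, hC₂, h₂⟩ := gamma_ratio_conj
  refine ⟨4 * (C₁ + C₂), by positivity, ?_⟩
  intro x hx s hs
  have hx0 : 0 < x := by linarith
  have hn := norm_nonneg s
  have hy : 1 ≤ x / 2 := by linarith
  have ha : ‖s / 2‖ ≤ (x / 2) / 2 := by
    rw [norm_div]; norm_num; linarith
  have ha2 : ‖s / 2‖ ^ 2 = ‖s‖ ^ 2 / 4 := by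
    rw [norm_div]; norm_num; ring
  have k1 := h₁ (x / 2) hy (s / 2) ha
  have k2 := h₂ (x / 2) hy (s / 2) ha
  rw [ha2] at k1 k2
  obtain ⟨T, hT⟩ : ∃ T, T = 2 * (C₁ + C₂) * (1 + ‖s‖) ^ 2 / x := ⟨_, rfl⟩
  have hTb : ∀ C' : ℝ, 0 < C' → C' ≤ C₁ + C₂ → C' * (1 + ‖s‖ ^ 2 / 4) / (x / 2) ≤ T := by
    intro C' h0 h1
    rw [hT, div_div_eq_mul_div, div_le_div_iff_of_pos_right hx0]
    have h3 : 1 + ‖s‖ ^ 2 / 4 ≤ (1 + ‖s‖) ^ 2 := by nlinarith
    nlinarith [mul_le_mul h1 h3 (by positivity) (by linarith)]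
  have k1' := k1.trans (sub_le_sub_right (Real.exp_le_exp.2 (hTb C₁ hC₁ (by linarith))) 1)
  have k2' := k2.trans (sub_le_sub_right (Real.exp_le_exp.2 (hTb C₂ hC₂ (by linarith))) 1)
  -- the factorisation
  have hy0 : 0 < x / 2 := by linarith
  have hI : ((x / 2 : ℝ) : ℂ) * I ≠ 0 := mul_ne_zero (by exact_mod_cast hy0.ne') I_ne_zero
  have hc1 : (((x / 2 : ℝ) : ℂ) * I) ^ (s / 2) ≠ 0 := by
    rw [Ne, cpow_eq_zero_iff]; tauto
  have hc2 : (-(((x / 2 : ℝ) : ℂ) * I)) ^ (s / 2) ≠ 0 := by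
    rw [Ne, cpow_eq_zero_iff, neg_eq_zero]; tauto
  obtain ⟨R₁, hR₁⟩ : ∃ R, R = Gamma (1 / 4 + (x / 2 : ℝ) * I + s / 2) /
    (Gamma (1 / 4 + (x / 2 : ℝ) * I) * ((x / 2 : ℝ) * I) ^ (s / 2)) := ⟨_, rfl⟩
  obtain ⟨R₂, hR₂⟩ : ∃ R, R = Gamma (1 / 4 - (x / 2 : ℝ) * I + s / 2) /
    (Gamma (1 / 4 - (x / 2 : ℝ) * I) * (-((x / 2 : ℝ) * I)) ^ (s / 2)) := ⟨_, rfl⟩
  rw [← hR₁] at k1'
  rw [← hR₂] at k2'
  have e1 : Gamma (1 / 4 + (x / 2 : ℝ) * I + s / 2) / Gamma (1 / 4 + (x / 2 : ℝ) * I) =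
      R₁ * ((x / 2 : ℝ) * I) ^ (s / 2) := by
    rw [hR₁, div_mul_eq_mul_div, mul_div_mul_right _ _ hc1]
  have e2 : Gamma (1 / 4 - (x / 2 : ℝ) * I + s / 2) / Gamma (1 / 4 - (x / 2 : ℝ) * I) =
      R₂ * (-((x / 2 : ℝ) * I)) ^ (s / 2) := by
    rw [hR₂, div_mul_eq_mul_div, mul_div_mul_right _ _ hc2]
  have e3 : gx x s = ((x / (2 * Real.pi) : ℝ) : ℂ) ^ s * (R₁ * R₂) := by
    rw [gx_eq, e1, e2, pow_eq hx0]
    ring
  refine ⟨R₁ * R₂, e3, ?_⟩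
  have hE := Real.exp_pos T
  have p2 := prod_sub_one R₁ R₂
  have p3 : (1 + ‖R₁ - 1‖) * (1 + ‖R₂ - 1‖) ≤ Real.exp T * Real.exp T :=
    mul_le_mul (by linarith) (by linarith) (by positivity) hE.le
  rw [← Real.exp_add] at p3
  have e5 : T + T = 4 * (C₁ + C₂) * (1 + ‖s‖) ^ 2 / x := by
    rw [hT]
    ring
  rw [← e5]
  exact p2.trans p3

theorem re_small {u : ℂ} (hu : ‖u‖ ≤ 1 / 50) : -(1 / 50) ≤ u.re ∧ u.re ≤ 1 / 50 :=
  abs_le.mp ((abs_re_le_norm u).trans hu)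

theorem den_ne (x : ℝ) : Gammaℝ (1 / 2 + x * I) * Gammaℝ (1 / 2 - x * I) ≠ 0 := by
  apply mul_ne_zero
  · apply Gammaℝ_ne_zero_of_re_pos
    have : (1 / 2 + (x:ℂ) * I).re = 1 / 2 := by simp
    rw [this]
    norm_num
  · apply Gammaℝ_ne_zero_of_re_pos
    have : (1 / 2 - (x:ℂ) * I).re = 1 / 2 := by simp
    rw [this]
    norm_num

theorem num_ne {x : ℝ} {u : ℂ} (hu : ‖u‖ ≤ 1 / 50) :
    Gammaℝ (1 / 2 + u + x * I) ≠ 0 ∧ Gammaℝ (1 / 2 + u - x * I) ≠ 0 := by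
  have h := (re_small hu).1
  constructor
  · apply Gammaℝ_ne_zero_of_re_pos
    have : (1 / 2 + u + (x:ℂ) * I).re = 1 / 2 + u.re := by simp
    rw [this]
    linarith
  · apply Gammaℝ_ne_zero_of_re_pos
    have : (1 / 2 + u - (x:ℂ) * I).re = 1 / 2 + u.re := by simp
    rw [this]
    linarith

theorem gx_ne {x : ℝ} {u : ℂ} (hu : ‖u‖ ≤ 1 / 50) : gx x u ≠ 0 := by
  unfold gx
  exact div_ne_zero (mul_ne_zero (num_ne hu).1 (num_ne hu).2) (den_ne x)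

theorem X2_ne {x : ℝ} (hx : 0 < x) (u : ℂ) : X2 x u ≠ 0 := by
  unfold X2
  have h1 : ((x / (2 * Real.pi) : ℝ) : ℂ) ≠ 0 := by
    have : (0:ℝ) < x / (2 * Real.pi) := by positivity
    exact_mod_cast this.ne'
  rw [Ne, cpow_eq_zero_iff]
  tauto

/-- compactness for the inverse quotient -/
theorem inv_crude (x₀ : ℝ) : ∃ M : ℝ, 0 < M ∧ ∀ x : ℝ, 2 ≤ x → x ≤ x₀ → ∀ u : ℂ, ‖u‖ ≤ 1 / 50 →
    ‖X2 x u / gx x u‖ ≤ M := by
  set K : Set (ℂ × ℝ) := Metric.closedBall (0:ℂ) (1 / 50) ×ˢ Set.Icc (2:ℝ) x₀ with hK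
  have hKc : IsCompact K := (isCompact_closedBall _ _).prod isCompact_Icc
  set f : ℂ × ℝ → ℂ := fun p => ((p.2 / (2 * Real.pi) : ℝ) : ℂ) ^ p.1 *
    (Gammaℝ (1 / 2 + p.2 * I) * Gammaℝ (1 / 2 - p.2 * I)) *
      ((Gammaℝ (1 / 2 + p.1 + p.2 * I))⁻¹ * (Gammaℝ (1 / 2 + p.1 - p.2 * I))⁻¹) with hf
  have hinv : Continuous fun z : ℂ => (Gammaℝ z)⁻¹ := differentiable_Gammaℝ_inv.continuous
  have hden : ∀ g : ℂ × ℝ → ℂ, Continuous g → (∀ p, (g p).re = 1 / 2) →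
      Continuous fun p => Gammaℝ (g p) := by
    intro g hg hre
    have h1 : Continuous fun p => (Gammaℝ (g p))⁻¹ := hinv.comp hg
    have h2 : ∀ p, (Gammaℝ (g p))⁻¹ ≠ 0 := by
      intro p
      apply inv_ne_zero
      apply Gammaℝ_ne_zero_of_re_pos
      rw [hre p]
      norm_num
    have h3 := h1.inv₀ h2
    refine h3.congr fun p => ?_
    simp
  have hfc : ContinuousOn f K := by
    refine ContinuousOn.mul (ContinuousOn.mul ?_ ?_) ?_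
    · refine ContinuousOn.cpow ?_ continuous_fst.continuousOn ?_
      · exact (Complex.continuous_ofReal.comp (continuous_snd.div_const _)).continuousOn
      · intro p hp
        left
        have hp2 : 2 ≤ p.2 := hp.2.1
        rw [Complex.ofReal_re]
        positivity
    · refine (Continuous.mul ?_ ?_).continuousOn
      · exact hden (fun p => 1 / 2 + p.2 * I) (by fun_prop) (fun p => by simp)
      · exact hden (fun p => 1 / 2 - p.2 * I) (by fun_prop) (fun p => by simp)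
    · refine (Continuous.mul ?_ ?_).continuousOn
      · exact hinv.comp (by fun_prop)
      · exact hinv.comp (by fun_prop)
  obtain ⟨M, hM⟩ := hKc.exists_bound_of_continuousOn hfc
  refine ⟨max M 1, by positivity, ?_⟩
  intro x hx hx0 u hu
  have hmem : (u, x) ∈ K := by
    rw [hK, Set.mem_prod]
    refine ⟨?_, hx, hx0⟩
    rw [mem_closedBall_zero_iff]
    exact hu
  have h1 := hM (u, x) hmem
  have h2 : X2 x u / gx x u = f (u, x) := by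
    simp only [hf]
    unfold X2 gx
    have h3 := (num_ne (x := x) hu).1
    have h4 := (num_ne (x := x) hu).2
    have h5 := den_ne x
    field_simp
  rw [h2]
  exact h1.trans (le_max_left _ _)

/-- the inverse quotient is close to `1` -/
theorem inv_fac : ∃ C : ℝ, 0 < C ∧ ∀ x : ℝ, 2 ≤ x → ∀ u : ℂ, ‖u‖ ≤ 1 / 50 →
    ‖X2 x u / gx x u - 1‖ ≤ C / x := by
  obtain ⟨C₀, hC₀, hfac⟩ := gx_fac
  obtain ⟨M, hM, hcr⟩ := inv_crude (8 * C₀ + 2)
  refine ⟨16 * C₀ + (M + 1) * (8 * C₀ + 2), by positivity, ?_⟩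
  intro x hx u hu
  have hx0 : 0 < x := by linarith
  by_cases hxl : x ≤ 8 * C₀ + 2
  · have h1 := hcr x hx hxl u hu
    have h2 : ‖X2 x u / gx x u - 1‖ ≤ M + 1 := by
      refine (norm_sub_le _ _).trans ?_
      rw [norm_one]
      linarith
    rw [le_div_iff₀ hx0]
    have h3 : ‖X2 x u / gx x u - 1‖ * x ≤ (M + 1) * (8 * C₀ + 2) :=
      mul_le_mul h2 hxl hx0.le (by positivity)
    linarith
  · rw [not_le] at hxl
    obtain ⟨R, hR1, hR2⟩ := hfac x hx u (by linarith)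
    have hX := X2_ne hx0 u
    have hg := gx_ne (x := x) hu
    have hR0 : R ≠ 0 := by
      intro h
      rw [h, mul_zero] at hR1
      exact hg hR1
    have h1 : C₀ * (1 + ‖u‖) ^ 2 / x ≤ 2 * C₀ / x := by
      apply div_le_div_of_nonneg_right _ hx0.le
      have hn := norm_nonneg u
      have : (1 + ‖u‖) ^ 2 ≤ 2 := by nlinarith
      nlinarith
    obtain ⟨t, ht⟩ : ∃ t, t = 2 * C₀ / x := ⟨_, rfl⟩
    rw [← ht] at h1
    have ht0 : 0 < t := by rw [ht]; positivity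
    have htq : t ≤ 1 / 4 := by
      rw [ht, div_le_iff₀ hx0]
      linarith
    have h2 : ‖R - 1‖ ≤ 2 * t := by
      have h3 := Real.exp_le_exp.2 h1
      have h4 : Real.exp t ≤ 1 + 2 * t := by
        have := Real.abs_exp_sub_one_sub_id_le (x := t) (by rw [abs_of_pos ht0]; linarith)
        have := (abs_le.mp this).2
        nlinarith
      linarith
    have h3 : 1 / 2 ≤ ‖R‖ := by
      have : ‖(1:ℂ)‖ ≤ ‖R‖ + ‖R - 1‖ := by
        calc ‖(1:ℂ)‖ = ‖R - (R - 1)‖ := by ring_nf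
          _ ≤ _ := norm_sub_le _ _
      rw [norm_one] at this
      linarith
    have h4 : X2 x u / gx x u - 1 = -(R - 1) / R := by
      rw [hR1]
      field_simp
      ring
    rw [h4, norm_div, norm_neg, div_le_iff₀ (by linarith)]
    have h5 : 4 * t ≤ (16 * C₀ + (M + 1) * (8 * C₀ + 2)) / x := by
      rw [ht, le_div_iff₀ hx0]
      have : 4 * (2 * C₀ / x) * x = 8 * C₀ := by field_simp; ring
      rw [this]
      have : 0 < (M + 1) * (8 * C₀ + 2) := by positivity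
      linarith
    calc ‖R - 1‖ ≤ 2 * t := h2
      _ = (4 * t) * (1 / 2) := by ring
      _ ≤ (16 * C₀ + (M + 1) * (8 * C₀ + 2)) / x * ‖R‖ := by
          apply mul_le_mul h5 h3 (by norm_num) (by positivity)

theorem G4_eq (s w : ℂ) (x : ℝ) : G4 s w x = (gx x (s + w) * gx x (2 * s + w)) *
    (Gammaℝ (1 / 2 + x * I) * Gammaℝ (1 / 2 - x * I)) ^ 2 := by
  unfold G4 gx
  have h := den_ne x
  have e1 : (1 / 2 + (s + w) + x * I : ℂ) = 1 / 2 + s + w + x * I := by ring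
  have e2 : (1 / 2 + (s + w) - x * I : ℂ) = 1 / 2 + s + w - x * I := by ring
  have e3 : (1 / 2 + (2 * s + w) + x * I : ℂ) = 1 / 2 + 2 * s + w + x * I := by ring
  have e4 : (1 / 2 + (2 * s + w) - x * I : ℂ) = 1 / 2 + 2 * s + w - x * I := by ring
  rw [e1, e2, e3, e4]
  generalize Gammaℝ (1 / 2 + s + w + x * I) = a
  generalize Gammaℝ (1 / 2 + s + w - x * I) = b
  generalize Gammaℝ (1 / 2 + 2 * s + w + x * I) = c
  generalize Gammaℝ (1 / 2 + 2 * s + w - x * I) = d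
  generalize Gammaℝ (1 / 2 + x * I) * Gammaℝ (1 / 2 - x * I) = D at h
  field_simp

theorem X2_add {x : ℝ} (hx : 0 < x) (u v : ℂ) : X2 x (u + v) = X2 x u * X2 x v := by
  unfold X2
  have h1 : ((x / (2 * Real.pi) : ℝ) : ℂ) ≠ 0 := by
    have : (0:ℝ) < x / (2 * Real.pi) := by positivity
    exact_mod_cast this.ne'
  exact cpow_add _ _ h1

theorem norm_X2_le {x : ℝ} (hx : 0 < x) (u : ℂ) (hu : -1 ≤ u.re) :
    ‖X2 x u‖ ≤ (2 * Real.pi) * x ^ u.re := by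
  unfold X2
  have hpi := Real.pi_pos
  have hp3 := Real.pi_gt_three
  rw [norm_cpow_eq_rpow_re_of_pos (by positivity), Real.div_rpow hx.le (by positivity),
    div_eq_mul_inv, mul_comm, ← Real.rpow_neg (by positivity)]
  apply mul_le_mul_of_nonneg_right _ (Real.rpow_nonneg hx.le _)
  calc (2 * Real.pi) ^ (-u.re) ≤ (2 * Real.pi) ^ (1:ℝ) :=
        Real.rpow_le_rpow_of_exponent_le (by linarith) (by linarith)
    _ = 2 * Real.pi := Real.rpow_one _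

theorem cancel_aux (A R X Y g h : ℂ) (hg : g ≠ 0) (hh : h ≠ 0) :
    A * (R * (X / g * (Y / h))) * (g * h) = (A * (X * Y)) * R := by
  field_simp

end Gam4Aux

open Gam4Aux KernelAux

theorem g4_ratio : ∃ C : ℝ, 0 < C ∧ ∀ (s s' w : ℂ) (x : ℝ), 2 ≤ x → ‖s‖ ≤ 1 / 100 → ‖s'‖ ≤ 1 / 100 → ‖w‖ ≤ x / 4 →
    |w.re| ≤ 1 / 4 →
    G4 s 0 x ≠ 0 ∧ ‖G4 s' w x / G4 s 0 x - X2 x (3 * s' - 3 * s + 2 * w)‖ ≤
      C * x ^ (3 * (s' - s).re + 2 * w.re - 1) * Real.exp (C * ‖w‖) := by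
  obtain ⟨C₀, hC₀, hfac⟩ := gx_fac
  obtain ⟨C₁, hC₁, hinv⟩ := inv_fac
  obtain ⟨E, hE⟩ : ∃ E, E = 8 * C₀ + 2 * C₁ := ⟨_, rfl⟩
  have hE0 : 0 < E := by rw [hE]; positivity
  refine ⟨2 * Real.pi * (E * 2 * Real.exp (2 * E + 1)) + (2 * E + 1), by positivity, ?_⟩
  intro s s' w x hx hs hs' hw hwre
  have hx0 : 0 < x := by linarith
  have hpi := Real.pi_pos
  have hn := norm_nonneg w
  have h2s : ‖2 * s‖ ≤ 1 / 50 := by
    rw [norm_mul]; norm_num; linarith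
  have h2s' : ‖2 * s'‖ ≤ 1 / 50 := by
    rw [norm_mul]; norm_num; linarith
  have hs50 : ‖s‖ ≤ 1 / 50 := by linarith
  have hu1 : ‖s' + w‖ ≤ ‖w‖ + 1 / 50 := (norm_add_le _ _).trans (by linarith)
  have hu2 : ‖2 * s' + w‖ ≤ ‖w‖ + 1 / 50 := (norm_add_le _ _).trans (by linarith)
  obtain ⟨R₁, hR₁, hR₁'⟩ := hfac x hx (s' + w) (by linarith)
  obtain ⟨R₂, hR₂, hR₂'⟩ := hfac x hx (2 * s' + w) (by linarith)
  have hi1 := hinv x hx s hs50
  have hi2 := hinv x hx (2 * s) h2s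
  obtain ⟨V₁, hV₁⟩ : ∃ V, V = X2 x s / gx x s := ⟨_, rfl⟩
  obtain ⟨V₂, hV₂⟩ : ∃ V, V = X2 x (2 * s) / gx x (2 * s) := ⟨_, rfl⟩
  rw [← hV₁] at hi1
  rw [← hV₂] at hi2
  have hg1 := gx_ne (x := x) hs50
  have hg2 := gx_ne (x := x) h2s
  have hX1 := X2_ne hx0 s
  have hX2 := X2_ne hx0 (2 * s)
  have hD := den_ne x
  have hne : G4 s 0 x ≠ 0 := by
    rw [G4_eq, add_zero, add_zero]
    exact mul_ne_zero (mul_ne_zero hg1 hg2) (pow_ne_zero 2 hD)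
  refine ⟨hne, ?_⟩
  -- the ratio
  have hXX : X2 x (3 * s' - 3 * s + 2 * w) * (X2 x s * X2 x (2 * s)) =
      X2 x (s' + w) * X2 x (2 * s' + w) := by
    rw [← X2_add hx0, ← X2_add hx0, ← X2_add hx0]
    congr 1
    ring
  have hratio : G4 s' w x / G4 s 0 x = X2 x (3 * s' - 3 * s + 2 * w) * ((R₁ * R₂) * (V₁ * V₂)) := by
    rw [G4_eq, G4_eq, add_zero, add_zero, mul_div_mul_right _ _ (pow_ne_zero 2 hD), hR₁, hR₂,
      div_eq_iff (mul_ne_zero hg1 hg2), hV₁, hV₂]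
    have e : X2 x (3 * s' - 3 * s + 2 * w) * (R₁ * R₂ * (X2 x s / gx x s * (X2 x (2 * s) / gx x (2 * s)))) *
        (gx x s * gx x (2 * s)) = (X2 x (3 * s' - 3 * s + 2 * w) * (X2 x s * X2 x (2 * s))) * (R₁ * R₂) :=
      cancel_aux _ _ _ _ _ _ hg1 hg2
    rw [e, hXX]
    ring
  have hsub : G4 s' w x / G4 s 0 x - X2 x (3 * s' - 3 * s + 2 * w) =
      X2 x (3 * s' - 3 * s + 2 * w) * ((R₁ * R₂) * (V₁ * V₂) - 1) := by
    rw [hratio]
    ring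
  rw [hsub, norm_mul]
  -- the exponents
  have hre : (3 * s' - 3 * s + 2 * w).re = 3 * (s' - s).re + 2 * w.re := by
    simp
    ring
  have hXn : ‖X2 x (3 * s' - 3 * s + 2 * w)‖ ≤ (2 * Real.pi) * x ^ (3 * (s' - s).re + 2 * w.re) := by
    have h1 := norm_X2_le hx0 (3 * s' - 3 * s + 2 * w) (by
      rw [hre]
      have h2 := abs_le.mp ((abs_re_le_norm s).trans hs)
      have h3 := abs_le.mp ((abs_re_le_norm s').trans hs')
      have h4 := abs_le.mp hwre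
      rw [sub_re]
      linarith [h2.1, h2.2, h3.1, h3.2, h4.1, h4.2])
    rwa [hre] at h1
  -- the product of the factors
  obtain ⟨t, ht⟩ : ∃ t, t = E * (1 + ‖w‖) ^ 2 / x := ⟨_, rfl⟩
  have hTb : ∀ u : ℂ, ‖u‖ ≤ ‖w‖ + 1 / 50 → C₀ * (1 + ‖u‖) ^ 2 / x ≤ 4 * C₀ * (1 + ‖w‖) ^ 2 / x := by
    intro u hu
    apply div_le_div_of_nonneg_right _ hx0.le
    have h1 : 1 + ‖u‖ ≤ 2 * (1 + ‖w‖) := by linarith
    have h2 : (1 + ‖u‖) ^ 2 ≤ (2 * (1 + ‖w‖)) ^ 2 := pow_le_pow_left₀ (by positivity) h1 2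
    nlinarith
  have q1 := hR₁'.trans (Real.exp_le_exp.2 (hTb _ hu1))
  have q2 := hR₂'.trans (Real.exp_le_exp.2 (hTb _ hu2))
  have q3 : ∀ V : ℂ, ‖V - 1‖ ≤ C₁ / x → 1 + ‖V - 1‖ ≤ Real.exp (C₁ / x) := by
    intro V hV
    have := Real.add_one_le_exp (C₁ / x)
    linarith
  have p1 := prod_sub_one R₁ R₂
  have p2 := prod_sub_one V₁ V₂
  have p3 := prod_sub_one (R₁ * R₂) (V₁ * V₂)
  have p4 : (1 + ‖R₁ - 1‖) * (1 + ‖R₂ - 1‖) ≤ Real.exp (4 * C₀ * (1 + ‖w‖) ^ 2 / x) *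
      Real.exp (4 * C₀ * (1 + ‖w‖) ^ 2 / x) :=
    mul_le_mul q1 q2 (by positivity) (Real.exp_pos _).le
  have p5 : (1 + ‖V₁ - 1‖) * (1 + ‖V₂ - 1‖) ≤ Real.exp (C₁ / x) * Real.exp (C₁ / x) :=
    mul_le_mul (q3 _ hi1) (q3 _ hi2) (by positivity) (Real.exp_pos _).le
  have p6 : 1 + ‖R₁ * R₂ * (V₁ * V₂) - 1‖ ≤
      (Real.exp (4 * C₀ * (1 + ‖w‖) ^ 2 / x) * Real.exp (4 * C₀ * (1 + ‖w‖) ^ 2 / x)) *
        (Real.exp (C₁ / x) * Real.exp (C₁ / x)) :=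
    p3.trans (mul_le_mul (p1.trans p4) (p2.trans p5) (by positivity) (by positivity))
  have p7 : (Real.exp (4 * C₀ * (1 + ‖w‖) ^ 2 / x) * Real.exp (4 * C₀ * (1 + ‖w‖) ^ 2 / x)) *
        (Real.exp (C₁ / x) * Real.exp (C₁ / x)) ≤ Real.exp t := by
    rw [← Real.exp_add, ← Real.exp_add, ← Real.exp_add]
    apply Real.exp_le_exp.2
    rw [ht, hE]
    have h1 : C₁ / x ≤ C₁ * (1 + ‖w‖) ^ 2 / x := by
      apply div_le_div_of_nonneg_right _ hx0.le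
      exact le_mul_of_one_le_right hC₁.le (one_le_pow₀ (by linarith))
    have h2 : (8 * C₀ + 2 * C₁) * (1 + ‖w‖) ^ 2 / x = 4 * C₀ * (1 + ‖w‖) ^ 2 / x +
        4 * C₀ * (1 + ‖w‖) ^ 2 / x + (C₁ * (1 + ‖w‖) ^ 2 / x + C₁ * (1 + ‖w‖) ^ 2 / x) := by
      ring
    rw [h2]
    linarith
  have p8 := exp_sub_one_le t
  have p9 : ‖R₁ * R₂ * (V₁ * V₂) - 1‖ ≤ t * Real.exp t := by
    have := p6.trans p7
    linarith
  have ht0 : 0 ≤ t := by rw [ht]; positivity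
  have htm : t ≤ E * (1 + ‖w‖) := by
    rw [ht, div_le_iff₀ hx0]
    have h1 : 1 + ‖w‖ ≤ x := by linarith
    have h2 : E * (1 + ‖w‖) ^ 2 = E * (1 + ‖w‖) * (1 + ‖w‖) := by ring
    rw [h2]
    exact mul_le_mul_of_nonneg_left h1 (by positivity)
  have hsq : (1 + ‖w‖) ^ 2 ≤ 2 * Real.exp (1 + ‖w‖) := by
    have := Real.quadratic_le_exp_of_nonneg (x := 1 + ‖w‖) (by linarith)
    clear * - this hn
    linarith
  have p10 : t * Real.exp t ≤ E * 2 * Real.exp (2 * E + 1) / x * Real.exp ((2 * E + 1) * ‖w‖) := by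
    have h1 : t ≤ E * (2 * Real.exp (1 + ‖w‖)) / x := by
      rw [ht]
      apply div_le_div_of_nonneg_right _ hx0.le
      exact mul_le_mul_of_nonneg_left hsq hE0.le
    have h2 : Real.exp t ≤ Real.exp (E * (1 + ‖w‖)) := Real.exp_le_exp.2 htm
    calc t * Real.exp t ≤ (E * (2 * Real.exp (1 + ‖w‖)) / x) * Real.exp (E * (1 + ‖w‖)) :=
          mul_le_mul h1 h2 (Real.exp_pos _).le (by positivity)
      _ = E * 2 / x * Real.exp ((E + 1) * (1 + ‖w‖)) := by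
          have e1 : Real.exp ((E + 1) * (1 + ‖w‖)) = Real.exp (1 + ‖w‖) * Real.exp (E * (1 + ‖w‖)) := by
            rw [← Real.exp_add]
            congr 1
            ring
          rw [e1]
          generalize Real.exp (1 + ‖w‖) = a
          generalize Real.exp (E * (1 + ‖w‖)) = b
          ring
      _ ≤ E * 2 / x * Real.exp ((2 * E + 1) + (2 * E + 1) * ‖w‖) := by
          apply mul_le_mul_of_nonneg_left _ (by positivity)
          apply Real.exp_le_exp.2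
          nlinarith
      _ = _ := by
          rw [Real.exp_add]
          ring
  obtain ⟨C, hC⟩ : ∃ C, C = 2 * Real.pi * (E * 2 * Real.exp (2 * E + 1)) + (2 * E + 1) := ⟨_, rfl⟩
  rw [← hC]
  have hC0 : 0 < C := by rw [hC]; positivity
  have hxr : 0 < x ^ (3 * (s' - s).re + 2 * w.re - 1) := Real.rpow_pos_of_pos hx0 _
  have hxs : x ^ (3 * (s' - s).re + 2 * w.re) = x ^ (3 * (s' - s).re + 2 * w.re - 1) * x := by
    rw [Real.rpow_sub_one hx0.ne']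
    field_simp
  have hCe : Real.exp ((2 * E + 1) * ‖w‖) ≤ Real.exp (C * ‖w‖) := by
    apply Real.exp_le_exp.2
    apply mul_le_mul_of_nonneg_right _ hn
    rw [hC]
    have : 0 < 2 * Real.pi * (E * 2 * Real.exp (2 * E + 1)) := by positivity
    linarith
  have hCl : 2 * Real.pi * (E * 2 * Real.exp (2 * E + 1)) ≤ C := by
    rw [hC]
    linarith
  calc ‖X2 x (3 * s' - 3 * s + 2 * w)‖ * ‖R₁ * R₂ * (V₁ * V₂) - 1‖
      ≤ ((2 * Real.pi) * x ^ (3 * (s' - s).re + 2 * w.re)) *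
        (E * 2 * Real.exp (2 * E + 1) / x * Real.exp ((2 * E + 1) * ‖w‖)) :=
        mul_le_mul hXn (p9.trans p10) (norm_nonneg _) (by positivity)
    _ = (2 * Real.pi * (E * 2 * Real.exp (2 * E + 1))) * x ^ (3 * (s' - s).re + 2 * w.re - 1) *
        Real.exp ((2 * E + 1) * ‖w‖) := by
        rw [hxs]
        field_simp
    _ ≤ C * x ^ (3 * (s' - s).re + 2 * w.re - 1) * Real.exp (C * ‖w‖) := by
        apply mul_le_mul _ hCe (Real.exp_pos _).le (by positivity)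
        exact mul_le_mul_of_nonneg_right hCl hxr.le

end Pool.Agent.P07318f
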