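import Pool.Agent.Lib.P07318f.AAreg
import Pool.Agent.Lib.P07318s.Crude
import Pool.Agent.Lib.P07318s.Shift
import Pool.Agent.Lib.P56acde.CTAux

/-!
# Regularity of `HH`

`hh_hol`. For `u ∈ Bx (U^κ)`, `|Re w| ≤ 1/8`, `|Im w| ≤ 1/8`: `HF x y u w` is bounded by `C U^(12κ)` (as in `ResThree`: `aa_bound`; `zE_bound`; the four zeta
factors have real part `≥ 1 - 1/10 - 1/8`, and `Good`), continuous in `(u, w)` and holomorphic along curves (`aa_cont`, `aa_diff`, `zE_diff`,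
`differentiableAt_riemannZeta`: `|Im(u_i + w)| < U^κ + 1/8 < |y-x|`). `HH` = circle integral over `|w| = 1/8` = circle integral over `|w| = κ` (the integrand is
holomorphic for `0 < |w| ≤ 1/8`, `circleIntegral_sub_center_inv_smul`... `Complex.circleIntegral_eq_of_differentiable_on_annulus_off_countable`), hence
`‖HH‖ ≤ 2 sup ≤ (2/κ) (16 U)^κ (C/κ) C U^(12κ)`. Continuity: parametric circle integral of a continuous function; holomorphy along a curve:
`hasDerivAt_integral_of_dominated_loc_of_deriv_le` or Cauchy/Morera (locally uniform limits of Riemann sums), see P07318s/Tele.lean, MainPoint.lean for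
similar statements in the library.
`hh_sym`: `AA` is symmetric under permutations of `z` and of `z'` (`Afac` is), the other factors too.
`rr_hh`: off the poles `G3 = ζ(1+2w) HF / Pi4`. `hh_cont2`: joint continuity in `x, y, u`.
-/

set_option autoImplicit false

namespace Pool.Agent.P07318f

open MeasureTheory Complex Pool.Agent.P07318s


namespace HHaux

/-- enlarged domain -/
def Dm : Set ((ℝ × ℝ) × (Fin 4 → ℂ)) :=
  {p | 0 < p.1.2 ∧ ∀ i, |(p.2 i).re| < 1 / 9 ∧ |(p.2 i).im| + 1 / 4 < |p.1.2 - p.1.1|}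

theorem neM {x y : ℝ} {a w : ℂ} (ha : |a.im| + 1 / 4 < |y - x|) (hw : ‖w‖ < 1 / 7) :
    1 + a + w - ((y : ℂ) - x) * I ≠ 1 := by
  intro h
  have h1 := congrArg Complex.im h
  simp at h1
  have h2 := Complex.abs_im_le_norm w
  have h3 : y - x = a.im + w.im := by linarith
  rw [h3] at ha
  have h4 := abs_add_le a.im w.im
  linarith

theorem neP {x y : ℝ} {a w : ℂ} (ha : |a.im| + 1 / 4 < |y - x|) (hw : ‖w‖ < 1 / 7) :
    1 + a + w + ((y : ℂ) - x) * I ≠ 1 := by
  intro h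
  have h1 := congrArg Complex.im h
  simp at h1
  have h2 := Complex.abs_im_le_norm w
  have h3 : y - x = -(a.im + w.im) := by linarith
  rw [h3, abs_neg] at ha
  have h4 := abs_add_le a.im w.im
  linarith

theorem reg {x y : ℝ} {u : Fin 4 → ℂ} {w : ℂ} (h : ∀ i, |(u i).re| < 1 / 9) (hw : ‖w‖ < 1 / 7) :
    ((![u 0 + x * I, u 1 + x * I, w + y * I] : Fin 3 → ℂ),
      (![-u 2 + x * I, -u 3 + x * I, -w + y * I] : Fin 3 → ℂ)) ∈ RegA 3 := by
  have h0 := abs_lt.1 (h 0)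
  have h1 := abs_lt.1 (h 1)
  have h2 := abs_lt.1 (h 2)
  have h3 := abs_lt.1 (h 3)
  have h4 := abs_lt.1 ((Complex.abs_re_le_norm w).trans_lt hw)
  refine ⟨fun j => ?_, fun j => ?_⟩
  · fin_cases j
    · simp
      linarith
    · simp
      linarith
    · simp
      linarith
  · fin_cases j
    · simp
      linarith
    · simp
      linarith
    · simp
      linarith

theorem zcont {X : Type*} [TopologicalSpace X] {T : Set X} {g : X → ℂ} (hg : ContinuousOn g T)
    (h : ∀ q ∈ T, g q ≠ 1) : ContinuousOn (fun q => riemannZeta (g q)) T := fun q hq =>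
  (differentiableAt_riemannZeta (h q hq)).continuousAt.comp_continuousWithinAt (hg q hq)

theorem zdiff {S : Set ℂ} {g : ℂ → ℂ} (hg : DifferentiableOn ℂ g S)
    (h : ∀ z ∈ S, g z ≠ 1) : DifferentiableOn ℂ (fun z => riemannZeta (g z)) S := fun z hz =>
  (differentiableAt_riemannZeta (h z hz)).comp_differentiableWithinAt z (hg z hz)

theorem hf_cont : ContinuousOn
    (fun q : ((ℝ × ℝ) × (Fin 4 → ℂ)) × ℂ => HF q.1.1.1 q.1.1.2 q.1.2 q.2)
    {q | q.1 ∈ Dm ∧ ‖q.2‖ < 1 / 7} := by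
  unfold HF
  refine ContinuousOn.mul (ContinuousOn.mul ?_ ?_) ?_
  · have hc : Continuous (fun q : ((ℝ × ℝ) × (Fin 4 → ℂ)) × ℂ =>
        ((![q.1.2 0 + q.1.1.1 * I, q.1.2 1 + q.1.1.1 * I, q.2 + q.1.1.2 * I] : Fin 3 → ℂ),
        (![-q.1.2 2 + q.1.1.1 * I, -q.1.2 3 + q.1.1.1 * I, -q.2 + q.1.1.2 * I] : Fin 3 → ℂ))) := by
      refine Continuous.prodMk (continuous_pi fun j => ?_) (continuous_pi fun j => ?_)
      · fin_cases j
        · simp
          fun_prop
        · simp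
          fun_prop
        · simp
          fun_prop
      · fin_cases j
        · simp
          fun_prop
        · simp
          fun_prop
        · simp
          fun_prop
    have hm : Set.MapsTo (fun q : ((ℝ × ℝ) × (Fin 4 → ℂ)) × ℂ =>
        ((![q.1.2 0 + q.1.1.1 * I, q.1.2 1 + q.1.1.1 * I, q.2 + q.1.1.2 * I] : Fin 3 → ℂ),
        (![-q.1.2 2 + q.1.1.1 * I, -q.1.2 3 + q.1.1.1 * I, -q.2 + q.1.1.2 * I] : Fin 3 → ℂ)))
        {q | q.1 ∈ Dm ∧ ‖q.2‖ < 1 / 7} (RegA 3) :=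
      fun q hq => reg (fun i => (hq.1.2 i).1) hq.2
    have hh := ContinuousOn.comp (aa_cont 3) hc.continuousOn hm
    exact hh
  · have hz := P4f18dfV.zE_diff.continuous
    refine Continuous.continuousOn ?_
    refine Continuous.mul (Continuous.mul ?_ ?_) (Continuous.mul ?_ ?_)
    · exact hz.comp (by fun_prop)
    · exact hz.comp (by fun_prop)
    · exact hz.comp (by fun_prop)
    · exact hz.comp (by fun_prop)
  · refine ContinuousOn.mul (ContinuousOn.mul ?_ ?_) (ContinuousOn.mul ?_ ?_)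
    · refine zcont (Continuous.continuousOn ?_) (fun q hq => neM (hq.1.2 0).2 hq.2)
      fun_prop
    · refine zcont (Continuous.continuousOn ?_) (fun q hq => neM (hq.1.2 1).2 hq.2)
      fun_prop
    · refine zcont (Continuous.continuousOn ?_) (fun q hq => neP (hq.1.2 2).2 hq.2)
      fun_prop
    · refine zcont (Continuous.continuousOn ?_) (fun q hq => neP (hq.1.2 3).2 hq.2)
      fun_prop

theorem hf_diff {x y : ℝ} {f : ℂ → Fin 4 → ℂ} {g : ℂ → ℂ} {S : Set ℂ} (hS : IsOpen S)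
    (hf : ∀ i, DifferentiableOn ℂ (fun z => f z i) S) (hg : DifferentiableOn ℂ g S)
    (h : ∀ z ∈ S, ((x, y), f z) ∈ Dm) (h' : ∀ z ∈ S, ‖g z‖ < 1 / 7) :
    DifferentiableOn ℂ (fun z => HF x y (f z) (g z)) S := by
  unfold HF
  have h0 := hf 0
  have h1 := hf 1
  have h2 := hf 2
  have h3 := hf 3
  refine DifferentiableOn.mul (DifferentiableOn.mul ?_ ?_) ?_
  · refine aa_diff (fun z => ![f z 0 + x * I, f z 1 + x * I, g z + y * I])
      (fun z => ![-f z 2 + x * I, -f z 3 + x * I, -g z + y * I]) S hS ?_ ?_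
      (fun z hz => reg (fun i => ((h z hz).2 i).1) (h' z hz))
    · intro j
      fin_cases j
      · simp
        exact h0
      · simp
        exact h1
      · simp
        exact hg
    · intro j
      fin_cases j
      · simp
        exact h2
      · simp
        exact h3
      · simp
        exact hg
  · have hz := P4f18dfV.zE_diff
    refine DifferentiableOn.mul (DifferentiableOn.mul ?_ ?_) (DifferentiableOn.mul ?_ ?_)
    · exact hz.comp_differentiableOn ((h0.const_add 1).add h2)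
    · exact hz.comp_differentiableOn ((h0.const_add 1).add h3)
    · exact hz.comp_differentiableOn ((h1.const_add 1).add h2)
    · exact hz.comp_differentiableOn ((h1.const_add 1).add h3)
  · refine DifferentiableOn.mul (DifferentiableOn.mul ?_ ?_) (DifferentiableOn.mul ?_ ?_)
    · exact zdiff (((h0.const_add 1).add hg).sub_const _) (fun z hz => neM ((h z hz).2 0).2 (h' z hz))
    · exact zdiff (((h1.const_add 1).add hg).sub_const _) (fun z hz => neM ((h z hz).2 1).2 (h' z hz))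
    · exact zdiff (((h2.const_add 1).add hg).add_const _) (fun z hz => neP ((h z hz).2 2).2 (h' z hz))
    · exact zdiff (((h3.const_add 1).add hg).add_const _) (fun z hz => neP ((h z hz).2 3).2 (h' z hz))

/-- the integrand -/
noncomputable def Ei (x y : ℝ) (u : Fin 4 → ℂ) (θ : ℝ) : ℂ :=
  deriv (circleMap 0 (1 / 8)) θ * (X2 y (circleMap 0 (1 / 8) θ) / circleMap 0 (1 / 8) θ *
    (riemannZeta (1 + 2 * circleMap 0 (1 / 8) θ) * HF x y u (circleMap 0 (1 / 8) θ)))

theorem hh_eq (x y : ℝ) (u : Fin 4 → ℂ) :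
    HH x y u = (Real.pi * I)⁻¹ * ∫ θ in (0:ℝ)..(2 * Real.pi), Ei x y u θ := by
  unfold HH circleIntegral Ei
  simp only [smul_eq_mul]

theorem nw (θ : ℝ) : ‖circleMap 0 (1 / 8) θ‖ = 1 / 8 := by
  rw [norm_circleMap_zero]
  norm_num

theorem nw' (θ : ℝ) : ‖circleMap 0 (1 / 8) θ‖ < 1 / 7 := by
  rw [nw]
  norm_num

theorem wne (θ : ℝ) : circleMap 0 (1 / 8) θ ≠ 0 := by
  intro h
  have := nw θ
  rw [h, norm_zero] at this
  norm_num at this

theorem base_mem {y : ℝ} (hy : 0 < y) : ((y / (2 * Real.pi) : ℝ) : ℂ) ∈ slitPlane := by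
  rw [Complex.ofReal_mem_slitPlane]
  positivity

theorem ei_cont : ContinuousOn (fun q : ((ℝ × ℝ) × (Fin 4 → ℂ)) × ℝ => Ei q.1.1.1 q.1.1.2 q.1.2 q.2)
    {q | q.1 ∈ Dm} := by
  unfold Ei
  have hcm : Continuous (fun q : ((ℝ × ℝ) × (Fin 4 → ℂ)) × ℝ => circleMap 0 (1 / 8) q.2) :=
    (continuous_circleMap 0 (1 / 8)).comp continuous_snd
  have hdm : Continuous (fun q : ((ℝ × ℝ) × (Fin 4 → ℂ)) × ℝ => deriv (circleMap 0 (1 / 8)) q.2) := by
    have : Continuous (deriv (circleMap 0 (1 / 8))) := by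
      have : deriv (circleMap 0 (1 / 8)) = fun θ => circleMap 0 (1 / 8) θ * I := by
        funext θ
        simp [deriv_circleMap]
      rw [this]
      fun_prop
    exact this.comp continuous_snd
  refine ContinuousOn.mul hdm.continuousOn ?_
  refine ContinuousOn.mul (ContinuousOn.div ?_ hcm.continuousOn (fun q _ => wne q.2))
    (ContinuousOn.mul ?_ ?_)
  · unfold X2
    refine ContinuousOn.cpow ?_ hcm.continuousOn (fun q hq => base_mem hq.1)
    refine Continuous.continuousOn ?_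
    fun_prop
  · refine zcont (by fun_prop) (fun q _ => ?_)
    have := wne q.2
    intro h
    apply this
    have h2 : 2 * circleMap 0 (1 / 8) q.2 = 0 := by
      linear_combination h
    simp at h2
  · have hm : Set.MapsTo (fun q : ((ℝ × ℝ) × (Fin 4 → ℂ)) × ℝ => (q.1, circleMap 0 (1 / 8) q.2))
        {q | q.1 ∈ Dm} {q | q.1 ∈ Dm ∧ ‖q.2‖ < 1 / 7} := fun q hq => ⟨hq, nw' q.2⟩
    have hh := ContinuousOn.comp hf_cont
      (Continuous.continuousOn (Continuous.prodMk continuous_fst hcm)) hm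
    exact hh

theorem hh_cont : ContinuousOn (fun p : (ℝ × ℝ) × (Fin 4 → ℂ) => HH p.1.1 p.1.2 p.2) Dm := by
  rw [continuousOn_iff_continuous_domRestrict]
  have h1 : Continuous (fun q : Dm × ℝ => Ei q.1.1.1.1 q.1.1.1.2 q.1.1.2 q.2) := by
    have h2 : Continuous (fun q : Dm × ℝ => ((q.1 : (ℝ × ℝ) × (Fin 4 → ℂ)), q.2)) := by
      fun_prop
    exact ei_cont.comp_continuous h2 (fun q => q.1.2)
  have h3 : Continuous (fun p : Dm => ∫ θ in (0:ℝ)..(2 * Real.pi), Ei p.1.1.1 p.1.1.2 p.1.2 θ) :=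
    intervalIntegral.continuous_parametric_intervalIntegral_of_continuous' h1 _ _
  have h4 : Dm.domRestrict (fun p : (ℝ × ℝ) × (Fin 4 → ℂ) => HH p.1.1 p.1.2 p.2) =
      fun p : Dm => (Real.pi * I)⁻¹ * ∫ θ in (0:ℝ)..(2 * Real.pi), Ei p.1.1.1 p.1.1.2 p.1.2 θ := by
    funext p
    exact hh_eq _ _ _
  rw [h4]
  exact continuous_const.mul h3

theorem hh_holo (x y : ℝ) (f : ℂ → Fin 4 → ℂ) (S : Set ℂ) (hS : IsOpen S)
    (hf : ∀ i, DifferentiableOn ℂ (fun z => f z i) S) (h : ∀ z ∈ S, ((x, y), f z) ∈ Dm) :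
    DifferentiableOn ℂ (fun z => HH x y (f z)) S := by
  intro z₀ hz₀
  obtain ⟨R, hR, hRS⟩ := Metric.isOpen_iff.1 hS z₀ hz₀
  have hcb : Metric.closedBall z₀ (R / 2) ⊆ S :=
    (Metric.closedBall_subset_ball (by linarith)).trans hRS
  have hpi : (0:ℝ) ≤ 2 * Real.pi := by positivity
  have hfc : ContinuousOn f S := continuousOn_pi.2 fun i => (hf i).continuousOn
  have hc : ContinuousOn (fun q : ℂ × ℝ => Ei x y (f q.1) q.2)
      (Metric.closedBall z₀ (R / 2) ×ˢ Set.Icc 0 (2 * Real.pi)) := by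
    have h2 : ContinuousOn (fun q : ℂ × ℝ => (((x, y), f q.1), q.2))
        (Metric.closedBall z₀ (R / 2) ×ˢ Set.Icc 0 (2 * Real.pi)) := by
      refine ContinuousOn.prodMk (ContinuousOn.prodMk continuousOn_const ?_) continuousOn_snd
      exact hfc.comp continuousOn_fst (fun q hq => hcb hq.1)
    exact ei_cont.comp h2 (fun q hq => h _ (hcb hq.1))
  obtain ⟨C, hC⟩ := ((isCompact_closedBall z₀ (R / 2)).prod isCompact_Icc).exists_bound_of_continuousOn hc
  have hA := P56acde.int_param (c := 0) (d := 2 * Real.pi) hpi (F := fun z θ => Ei x y (f z) θ)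
    (z₀ := z₀) (R := R / 2) (C := C) (by positivity) ?_ ?_ ?_
  · have h3 : DifferentiableAt ℂ (fun z => HH x y (f z)) z₀ := by
      have h4 : (fun z => HH x y (f z)) = fun z => (Real.pi * I)⁻¹ *
          ∫ θ in (0:ℝ)..(2 * Real.pi), Ei x y (f z) θ := by
        funext z
        exact hh_eq _ _ _
      rw [h4]
      exact hA.differentiableAt.const_mul _
    exact h3.differentiableWithinAt
  · intro z hz
    have h2 : ContinuousOn (fun θ : ℝ => (((x, y), f z), θ)) (Set.Icc 0 (2 * Real.pi)) := by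
      fun_prop
    exact ei_cont.comp h2 (fun θ _ => h _ (hcb (Metric.ball_subset_closedBall hz)))
  · intro θ _
    unfold Ei
    refine DifferentiableOn.const_mul (DifferentiableOn.const_mul (DifferentiableOn.const_mul ?_ _) _) _
    refine (hf_diff hS hf (g := fun _ => circleMap 0 (1 / 8) θ) (differentiableOn_const _) h
      (fun _ _ => nw' θ)).mono ?_
    exact Metric.ball_subset_closedBall.trans hcb
  · intro θ hθ z hz
    exact hC (z, θ) ⟨Metric.ball_subset_closedBall hz, hθ⟩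

/-- `HH` is a derivative -/
theorem hh_deriv {x y : ℝ} {u : Fin 4 → ℂ} (h : ((x, y), u) ∈ Dm) :
    DifferentiableOn ℂ (fun w => X2 y w * P4f18dfV.zE (1 + 2 * w) * HF x y u w) (Metric.ball 0 (1 / 7)) ∧
    HH x y u = deriv (fun w => X2 y w * P4f18dfV.zE (1 + 2 * w) * HF x y u w) 0 := by
  have hd : DifferentiableOn ℂ (fun w => X2 y w * P4f18dfV.zE (1 + 2 * w) * HF x y u w)
      (Metric.ball 0 (1 / 7)) := by
    refine DifferentiableOn.mul (DifferentiableOn.mul ?_ ?_) ?_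
    · unfold X2
      intro w _
      refine DifferentiableAt.differentiableWithinAt ?_
      refine DifferentiableAt.const_cpow differentiableAt_id ?_
      left
      exact Complex.slitPlane_ne_zero (base_mem h.1)
    · refine P4f18dfV.zE_diff.comp_differentiableOn ?_
      fun_prop
    · exact hf_diff Metric.isOpen_ball (f := fun _ => u) (g := fun w => w)
        (fun _ => differentiableOn_const _) differentiableOn_id (fun _ _ => h)
        (fun w hw => by simpa using hw)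
  refine ⟨hd, ?_⟩
  have h1 := DifferentiableOn.deriv_eq_smul_circleIntegral (c := (0:ℂ)) (R := 1 / 8)
    (f := fun w => X2 y w * P4f18dfV.zE (1 + 2 * w) * HF x y u w) (by norm_num)
    (hd.mono (Metric.closedBall_subset_ball (by norm_num)))
  have h2 : (∮ w in C(0, 1 / 8), X2 y w / w * (riemannZeta (1 + 2 * w) * HF x y u w)) =
      ∮ w in C(0, 1 / 8), (1 / 2 : ℂ) • ((1 / (w - 0) ^ 2) •
        (X2 y w * P4f18dfV.zE (1 + 2 * w) * HF x y u w)) := by
    refine circleIntegral.integral_congr (by norm_num) ?_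
    intro w hw
    have hw0 : w ≠ 0 := by
      rintro rfl
      simp at hw
    have hne : 1 + 2 * w ≠ 1 := by
      intro h
      apply hw0
      have h2 : 2 * w = 0 := by linear_combination h
      simpa using h2
    simp only [smul_eq_mul]
    rw [P4f18dfV.zE_of_ne hne]
    field_simp
    ring
  unfold HH
  rw [h2, circleIntegral.integral_smul, h1]
  have hpi : (Real.pi : ℂ) ≠ 0 := by exact_mod_cast Real.pi_ne_zero
  have hI := Complex.I_ne_zero
  simp only [smul_eq_mul]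
  field_simp

theorem x2_bound {κ U y : ℝ} (hκ : 0 < κ) (hκ1 : κ ≤ 1 / 1000) (hU : 1 ≤ U) (h1 : U ≤ y)
    (h2 : y ≤ 16 * U) {w : ℂ} (hw : |w.re| ≤ κ) : ‖X2 y w‖ ≤ 7 * U ^ κ := by
  have hpi := Real.pi_gt_three
  have hpi2 := Real.pi_lt_d2
  have hy : 0 < y := by linarith
  have ht1 : 1 / 7 ≤ y / (2 * Real.pi) := by
    rw [le_div_iff₀ (by positivity)]
    linarith
  have ht2 : y / (2 * Real.pi) ≤ 7 * U := by
    rw [div_le_iff₀ (by positivity)]
    nlinarith
  have ht0 : 0 < y / (2 * Real.pi) := by positivity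
  unfold X2
  rw [Complex.norm_cpow_eq_rpow_re_of_pos ht0]
  have hUk : 1 ≤ U ^ κ := Real.one_le_rpow hU hκ.le
  have h7 : (7:ℝ) ^ κ ≤ 7 := by
    calc (7:ℝ) ^ κ ≤ 7 ^ (1:ℝ) := Real.rpow_le_rpow_of_exponent_le (by norm_num) (by linarith)
      _ = 7 := Real.rpow_one 7
  have hw' := abs_le.1 hw
  rcases le_total 0 w.re with h | h
  · calc (y / (2 * Real.pi)) ^ w.re ≤ (7 * U) ^ w.re := Real.rpow_le_rpow ht0.le ht2 h
      _ ≤ (7 * U) ^ κ := Real.rpow_le_rpow_of_exponent_le (by linarith) hw'.2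
      _ = 7 ^ κ * U ^ κ := Real.mul_rpow (by norm_num) (by linarith)
      _ ≤ 7 * U ^ κ := by gcongr
  · calc (y / (2 * Real.pi)) ^ w.re ≤ (1 / 7) ^ w.re :=
          Real.rpow_le_rpow_of_nonpos (by norm_num) ht1 h
      _ = 7 ^ (-w.re) := by
          rw [one_div, Real.inv_rpow (by norm_num), Real.rpow_neg (by norm_num)]
      _ ≤ 7 ^ κ := Real.rpow_le_rpow_of_exponent_le (by norm_num) (by linarith)
      _ ≤ 7 := h7
      _ ≤ 7 * U ^ κ := by linarith

theorem gzP {κ Y B x y : ℝ} (h : Good κ Y B (y - x)) {a b : ℂ} (h1 : 1 / 2 + κ ≤ 1 + a.re + b.re)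
    (h2 : 1 + a.re + b.re ≤ 3) (h3 : |a.im| ≤ Y) (h4 : |b.im| ≤ Y) :
    ‖riemannZeta (1 + a + b + ((y : ℂ) - x) * I)‖ ≤ B := by
  have := h.2 (1 + a.re + b.re) (a.im + b.im) h1 h2 (by
    calc |a.im + b.im| ≤ |a.im| + |b.im| := abs_add_le _ _
      _ ≤ 2 * Y := by linarith)
  have e1 : 1 + a + b + ((y : ℂ) - x) * I =
      ((1 + a.re + b.re : ℝ) : ℂ) + ((y - x + (a.im + b.im) : ℝ) : ℂ) * I := by
    apply Complex.ext
    · simp
    · simp
      ring
  rw [e1]
  exact this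

theorem gzM {κ Y B x y : ℝ} (h : Good κ Y B (y - x)) {a b : ℂ} (h1 : 1 / 2 + κ ≤ 1 + a.re + b.re)
    (h2 : 1 + a.re + b.re ≤ 3) (h3 : |a.im| ≤ Y) (h4 : |b.im| ≤ Y) :
    ‖riemannZeta (1 + a + b - ((y : ℂ) - x) * I)‖ ≤ B := by
  have e1 : 1 + a + b - ((y : ℂ) - x) * I =
      (starRingEnd ℂ) (1 + (starRingEnd ℂ) a + (starRingEnd ℂ) b + ((y : ℂ) - x) * I) := by
    apply Complex.ext
    · simp
    · simp
      ring
  rw [e1, P07318s.zeta_conj, Complex.norm_conj]
  exact gzP h (by simpa using h1) (by simpa using h2) (by simpa using h3) (by simpa using h4)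

theorem hh_bd (κ : ℝ) (hκ : 0 < κ) (hκ1 : κ ≤ 1 / 1000) (B : ℝ) : ∃ C : ℝ, 0 < C ∧
    ∀ (U x y : ℝ), 1 ≤ U → U ≤ x → x ≤ 16 * U → U ≤ y → y ≤ 16 * U →
    Good κ (U ^ κ) (B * U ^ κ) (y - x) → ∀ u ∈ Bx (U ^ κ), ‖HH x y u‖ ≤ C * U ^ (20 * κ) := by
  obtain ⟨CA, hCA, hA⟩ := aa_bound 3
  obtain ⟨Cz, hCz, hz⟩ := zE_bound (1 / 2) (by norm_num)
  refine ⟨7 * (Cz * 9) * (CA * (25 * Cz) ^ 4 * |B| ^ 4) / κ + 1, by positivity, ?_⟩
  intro U x y hU hx1 hx2 hy1 hy2 hG u hu
  set L : ℝ := U ^ κ with hL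
  have hL1 : 1 ≤ L := Real.one_le_rpow hU hκ.le
  have hy0 : 0 < y := by linarith
  have hG1 : 4 * L < |y - x| := hG.1
  have hmem : ((x, y), u) ∈ Dm := by
    refine ⟨hy0, fun i => ⟨(hu i).1.trans (by norm_num), ?_⟩⟩
    have := (hu i).2
    show |(u i).im| + 1 / 4 < |y - x|
    linarith
  obtain ⟨hd, he⟩ := hh_deriv hmem
  rw [he]
  have hb0 : 0 ≤ B * L := by
    have h1 := hG.2 1 0 (by linarith) (by norm_num) (by rw [abs_zero]; linarith)
    exact (norm_nonneg _).trans h1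
  have hBB : B * L ≤ |B| * L := by gcongr; exact le_abs_self B
  -- bounds for the entire factor
  have hni : ∀ i, ‖u i‖ ≤ 1 / 10 + L := by
    intro i
    have h1 := Complex.norm_le_abs_re_add_abs_im (u i)
    have h2 := hu i
    linarith [h2.1, h2.2]
  have hE : ∀ i j, ‖P4f18dfV.zE (1 + u i + u j)‖ ≤ 25 * Cz * L ^ 2 := by
    intro i j
    have hi := abs_lt.1 (hu i).1
    have hj := abs_lt.1 (hu j).1
    have h1 := hz (1 + u i + u j) (by simp; linarith)
    have h2 : ‖1 + u i + u j‖ ≤ 4 * L := by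
      calc ‖1 + u i + u j‖ ≤ ‖(1 : ℂ) + u i‖ + ‖u j‖ := norm_add_le _ _
        _ ≤ ‖(1 : ℂ)‖ + ‖u i‖ + ‖u j‖ := by gcongr; exact norm_add_le _ _
        _ ≤ 1 + (1 / 10 + L) + (1 / 10 + L) := by
            rw [norm_one]
            gcongr
            · exact hni i
            · exact hni j
        _ ≤ 4 * L := by linarith
    calc ‖P4f18dfV.zE (1 + u i + u j)‖ ≤ Cz * (1 + ‖1 + u i + u j‖) ^ 2 := h1
      _ ≤ Cz * (L + 4 * L) ^ 2 := by gcongr
      _ = 25 * Cz * L ^ 2 := by ring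
  have hmain : ∀ w ∈ Metric.sphere (0:ℂ) κ, ‖X2 y w * P4f18dfV.zE (1 + 2 * w) * HF x y u w‖ ≤
      7 * (Cz * 9) * (CA * (25 * Cz) ^ 4 * |B| ^ 4) * L ^ 13 := by
    intro w hw
    have hwn : ‖w‖ = κ := by simpa using hw
    have hw7 : ‖w‖ < 1 / 7 := by rw [hwn]; linarith
    have hwr : |w.re| ≤ κ := hwn ▸ Complex.abs_re_le_norm w
    have hwi : |w.im| ≤ κ := hwn ▸ Complex.abs_im_le_norm w
    have hwr' := abs_le.1 hwr
    have b1 : ‖X2 y w‖ ≤ 7 * L := x2_bound hκ hκ1 hU hy1 hy2 hwr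
    have b2 : ‖P4f18dfV.zE (1 + 2 * w)‖ ≤ Cz * 9 := by
      have h1 := hz (1 + 2 * w) (by simp; linarith)
      have h2 : ‖1 + 2 * w‖ ≤ 2 := by
        calc ‖1 + 2 * w‖ ≤ ‖(1:ℂ)‖ + ‖2 * w‖ := norm_add_le _ _
          _ = 1 + 2 * κ := by rw [norm_one, norm_mul, hwn]; simp
          _ ≤ 2 := by linarith
      calc ‖P4f18dfV.zE (1 + 2 * w)‖ ≤ Cz * (1 + ‖1 + 2 * w‖) ^ 2 := h1
        _ ≤ Cz * (1 + 2) ^ 2 := by gcongr
        _ = Cz * 9 := by ring
    have b3 := (hA _ (reg (x := x) (y := y) (fun i => (hmem.2 i).1) hw7)).2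
    have hwY : |w.im| ≤ L := by linarith
    have huY : ∀ i, |(u i).im| ≤ L := fun i => (hu i).2.le
    have hur : ∀ i, 1 / 2 + κ ≤ 1 + (u i).re + w.re := fun i => by
      have := abs_lt.1 (hu i).1
      linarith
    have hur2 : ∀ i, 1 + (u i).re + w.re ≤ 3 := fun i => by
      have := abs_lt.1 (hu i).1
      linarith
    have z0 := (gzM hG (hur 0) (hur2 0) (huY 0) hwY).trans hBB
    have z1 := (gzM hG (hur 1) (hur2 1) (huY 1) hwY).trans hBB
    have z2 := (gzP hG (hur 2) (hur2 2) (huY 2) hwY).trans hBB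
    have z3 := (gzP hG (hur 3) (hur2 3) (huY 3) hwY).trans hBB
    have b4 : ‖HF x y u w‖ ≤ CA * (25 * Cz * L ^ 2 * (25 * Cz * L ^ 2) *
        (25 * Cz * L ^ 2 * (25 * Cz * L ^ 2))) * (|B| * L * (|B| * L) * (|B| * L * (|B| * L))) := by
      unfold HF
      simp only [norm_mul]
      have e02 := hE 0 2
      have e03 := hE 0 3
      have e12 := hE 1 2
      have e13 := hE 1 3
      gcongr
    rw [norm_mul, norm_mul]
    calc ‖X2 y w‖ * ‖P4f18dfV.zE (1 + 2 * w)‖ * ‖HF x y u w‖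
        ≤ 7 * L * (Cz * 9) * (CA * (25 * Cz * L ^ 2 * (25 * Cz * L ^ 2) *
        (25 * Cz * L ^ 2 * (25 * Cz * L ^ 2))) * (|B| * L * (|B| * L) * (|B| * L * (|B| * L)))) := by
          gcongr
      _ = 7 * (Cz * 9) * (CA * (25 * Cz) ^ 4 * |B| ^ 4) * L ^ 13 := by ring
  have hcl : DiffContOnCl ℂ (fun w => X2 y w * P4f18dfV.zE (1 + 2 * w) * HF x y u w)
      (Metric.ball 0 κ) := by
    apply DifferentiableOn.diffContOnCl
    rw [closure_ball _ hκ.ne']
    exact hd.mono (Metric.closedBall_subset_ball (by linarith))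
  have hfin := Complex.norm_deriv_le_of_forall_mem_sphere_norm_le hκ hcl hmain
  refine hfin.trans ?_
  have hLp : L ^ 13 ≤ U ^ (20 * κ) := by
    rw [hL, ← Real.rpow_natCast, ← Real.rpow_mul (by linarith)]
    refine Real.rpow_le_rpow_of_exponent_le hU ?_
    push_cast
    linarith
  have hU20 : 0 < U ^ (20 * κ) := Real.rpow_pos_of_pos (by linarith) _
  calc 7 * (Cz * 9) * (CA * (25 * Cz) ^ 4 * |B| ^ 4) * L ^ 13 / κ
      = 7 * (Cz * 9) * (CA * (25 * Cz) ^ 4 * |B| ^ 4) / κ * L ^ 13 := by ring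
    _ ≤ 7 * (Cz * 9) * (CA * (25 * Cz) ^ 4 * |B| ^ 4) / κ * U ^ (20 * κ) := by gcongr
    _ ≤ (7 * (Cz * 9) * (CA * (25 * Cz) ^ 4 * |B| ^ 4) / κ + 1) * U ^ (20 * κ) := by
        gcongr
        linarith

theorem bx_sub {x y L : ℝ} (hy : 0 < y) (h : L + 1 / 4 ≤ |y - x|) {u : Fin 4 → ℂ} (hu : u ∈ Bx L) :
    ((x, y), u) ∈ Dm := by
  refine ⟨hy, fun i => ⟨(hu i).1.trans (by norm_num), ?_⟩⟩
  have := (hu i).2
  show |(u i).im| + 1 / 4 < |y - x|
  linarith

theorem hh_cont1 {x y : ℝ} {T : Set (Fin 4 → ℂ)} (h : ∀ u ∈ T, ((x, y), u) ∈ Dm) :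
    ContinuousOn (HH x y) T := by
  have h2 : ContinuousOn (fun u : Fin 4 → ℂ => ((x, y), u)) T := by
    fun_prop
  have h3 := ContinuousOn.comp (g := fun p : (ℝ × ℝ) × (Fin 4 → ℂ) => HH p.1.1 p.1.2 p.2)
    (f := fun u : Fin 4 → ℂ => ((x, y), u)) (t := Dm) hh_cont h2 h
  exact h3

end HHaux

open HHaux

theorem hh_hol (κ : ℝ) (hκ : 0 < κ) (hκ1 : κ ≤ 1 / 1000) (B : ℝ) : ∃ C : ℝ, 0 < C ∧ ∀ (U x y : ℝ),
    1 ≤ U → U ≤ x → x ≤ 16 * U → U ≤ y → y ≤ 16 * U → Good κ (U ^ κ) (B * U ^ κ) (y - x) →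
    Hol4 (U ^ κ) (C * U ^ (20 * κ)) (HH x y) := by
  obtain ⟨C, hC, h⟩ := hh_bd κ hκ hκ1 B
  refine ⟨C, hC, fun U x y hU hx1 hx2 hy1 hy2 hG => ?_⟩
  have hL1 : 1 ≤ U ^ κ := Real.one_le_rpow hU hκ.le
  have hG1 := hG.1
  have hy0 : 0 < y := by linarith
  have hs : ∀ u ∈ Bx (U ^ κ), ((x, y), u) ∈ Dm := fun u hu => bx_sub hy0 (by linarith) hu
  exact ⟨hh_cont1 hs, fun f S hS hf hfS => hh_holo x y f S hS hf (fun z hz => hs _ (hfS z hz)),
    h U x y hU hx1 hx2 hy1 hy2 hG⟩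

theorem hh_sym (x y : ℝ) : Sym4 (HH x y) := by
  have key : ∀ (u v : Fin 4 → ℂ), (∀ w, HF x y u w = HF x y v w) → HH x y u = HH x y v := by
    intro u v h
    unfold HH
    simp only [h]
  have hA1 : ∀ (a b c d e f : ℂ), AA ![a, b, c] ![d, e, f] = AA ![b, a, c] ![d, e, f] := by
    intro a b c d e f
    unfold AA Afac
    congr 1
    funext p
    congr 1
    · simp only [Fin.prod_univ_three, Matrix.cons_val_zero, Matrix.cons_val_one, Matrix.cons_val]
      ring
    · congr 1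
      funext θ
      simp only [Fin.prod_univ_three, Matrix.cons_val_zero, Matrix.cons_val_one, Matrix.cons_val]
      ring
  have hA2 : ∀ (a b c d e f : ℂ), AA ![a, b, c] ![d, e, f] = AA ![a, b, c] ![e, d, f] := by
    intro a b c d e f
    unfold AA Afac
    congr 1
    funext p
    congr 1
    · simp only [Fin.prod_univ_three, Matrix.cons_val_zero, Matrix.cons_val_one, Matrix.cons_val]
      ring
    · congr 1
      funext θ
      simp only [Fin.prod_univ_three, Matrix.cons_val_zero, Matrix.cons_val_one, Matrix.cons_val]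
      ring
  intro a b c d
  refine ⟨key _ _ fun w => ?_, key _ _ fun w => ?_⟩
  · unfold HF
    simp only [Matrix.cons_val_zero, Matrix.cons_val_one, Matrix.cons_val]
    rw [hA1]
    ring
  · unfold HF
    simp only [Matrix.cons_val_zero, Matrix.cons_val_one, Matrix.cons_val]
    rw [hA2]
    ring

theorem rr_hh (x y : ℝ) (u : Fin 4 → ℂ) (h : Pi4 u ≠ 0) : R3 x y u = RR (HH x y) u := by
  unfold RR R3 HH
  have h02 : u 0 + u 2 ≠ 0 := by
    intro h'
    apply h
    unfold Pi4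
    rw [h']
    ring
  have h03 : u 0 + u 3 ≠ 0 := by
    intro h'
    apply h
    unfold Pi4
    rw [h']
    ring
  have h12 : u 1 + u 2 ≠ 0 := by
    intro h'
    apply h
    unfold Pi4
    rw [h']
    ring
  have h13 : u 1 + u 3 ≠ 0 := by
    intro h'
    apply h
    unfold Pi4
    rw [h']
    ring
  have hz : ∀ i j, u i + u j ≠ 0 → P4f18dfV.zE (1 + u i + u j) = (u i + u j) * riemannZeta (1 + u i + u j) := by
    intro i j hij
    rw [P4f18dfV.zE_of_ne]
    · ring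
    · intro h'
      apply hij
      linear_combination h'
  have key : ∀ w, G3 x y u w = riemannZeta (1 + 2 * w) * HF x y u w / Pi4 u := by
    intro w
    rw [eq_div_iff h]
    unfold G3 GG HF Pi4
    rw [hz 0 2 h02, hz 0 3 h03, hz 1 2 h12, hz 1 3 h13]
    simp only [Fin.prod_univ_three, Matrix.cons_val_zero, Matrix.cons_val_one, Matrix.cons_val]
    have e00 : 1 + (u 0 + x * I) - (-u 2 + x * I) = 1 + u 0 + u 2 := by ring
    have e01 : 1 + (u 0 + x * I) - (-u 3 + x * I) = 1 + u 0 + u 3 := by ring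
    have e10 : 1 + (u 1 + x * I) - (-u 2 + x * I) = 1 + u 1 + u 2 := by ring
    have e11 : 1 + (u 1 + x * I) - (-u 3 + x * I) = 1 + u 1 + u 3 := by ring
    have e02 : 1 + (u 0 + x * I) - (-w + y * I) = 1 + u 0 + w - (y - x) * I := by ring
    have e12 : 1 + (u 1 + x * I) - (-w + y * I) = 1 + u 1 + w - (y - x) * I := by ring
    have e20 : 1 + (w + y * I) - (-u 2 + x * I) = 1 + u 2 + w + (y - x) * I := by ring
    have e21 : 1 + (w + y * I) - (-u 3 + x * I) = 1 + u 3 + w + (y - x) * I := by ring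
    have e22 : 1 + (w + y * I) - (-w + y * I) = 1 + 2 * w := by ring
    rw [e00, e01, e10, e11, e02, e12, e20, e21, e22]
    ring
  have hfun : (fun w => X2 y w / w * G3 x y u w) =
      fun w => (Pi4 u)⁻¹ • (X2 y w / w * (riemannZeta (1 + 2 * w) * HF x y u w)) := by
    funext w
    rw [key w, smul_eq_mul]
    ring
  rw [hfun, circleIntegral.integral_smul, smul_eq_mul]
  ring

theorem hh_hol1 (x y : ℝ) (hx : 0 < x) (hy : 0 < y) (hxy : 1 < |y - x|) : ∃ B : ℝ, Hol4 (1 / 2) B (HH x y) := by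
  have hs : ∀ u ∈ Bx (1 / 2), ((x, y), u) ∈ Dm := fun u hu => bx_sub hy (by linarith) hu
  set K : Set (Fin 4 → ℂ) := Set.univ.pi fun _ => (Set.Icc (-(1 / 10) : ℝ) (1 / 10) ×ℂ Set.Icc (-(1 / 2) : ℝ) (1 / 2))
    with hK
  have hKc : IsCompact K := isCompact_univ_pi fun _ => isCompact_Icc.reProdIm isCompact_Icc
  have hKs : ∀ u ∈ K, ((x, y), u) ∈ Dm := by
    intro u hu
    refine ⟨hy, fun i => ?_⟩
    have h1 := hu i (Set.mem_univ i)
    have h2 : |(u i).re| ≤ 1 / 10 := abs_le.2 h1.1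
    have h3 : |(u i).im| ≤ 1 / 2 := abs_le.2 h1.2
    refine ⟨by linarith, ?_⟩
    show |(u i).im| + 1 / 4 < |y - x|
    linarith
  obtain ⟨B, hB⟩ := hKc.exists_bound_of_continuousOn (hh_cont1 hKs)
  refine ⟨B, hh_cont1 hs, fun f S hS hf hfS => hh_holo x y f S hS hf (fun z hz => hs _ (hfS z hz)),
    fun u hu => hB u ?_⟩
  intro i _
  exact ⟨abs_le.1 (hu i).1.le, abs_le.1 (hu i).2.le⟩

theorem hh_cont2 : ContinuousOn (fun p : (ℝ × ℝ) × (Fin 4 → ℂ) => HH p.1.1 p.1.2 p.2)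
    {p | 0 < p.1.1 ∧ 0 < p.1.2 ∧ 1 < |p.1.2 - p.1.1| ∧ p.2 ∈ Bx (1 / 2)} := by
  refine hh_cont.mono ?_
  rintro ⟨⟨x, y⟩, u⟩ ⟨_, hy, hxy, hu⟩
  exact bx_sub hy (by have : 1 < |y - x| := hxy; linarith) hu

end Pool.Agent.P07318f
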