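import Pool.Agent.Lib.P07318f.Defs

/-!
# The oscillating kernel

`KK Ω w y = ∫ Ω(x) (x/2π)^(2w) exp(-ixy) dx`, `Ω` supported in `[U/2, 8U]`, `C⁸`, `|Ω^(j)| ≤ Δ^(-j)`, `Δ ≤ U`. The function
`g(x) = Ω(x) (x/2π)^(2w) x^i` (`i ≤ 2`) is `C⁸` with compact support in `(0,∞)` (extend `x^(2w)` by a smooth function, or note that near every
`x ≤ U/2`... `Ω = 0` for `x ≤ U/2`, so `g` is smooth on the line: it is `0` on the open set `x < U/2` and smooth on `x > 0`), and by Leibniz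
`|g^(8)| ≤ C (1+‖w‖)^8 U^(2 Re w + i) Δ^(-8)` (`|(x^(2w))^(j)| ≤ C (1+‖w‖)^j x^(2Re w - j) ≤ C(1+‖w‖)^j U^(2 Re w) Δ^(-j)`).
Eight integrations by parts: `|y|^8 |∫ g exp(-ixy)| ≤ 8U sup|g^(8)|`, (or `Real.fourierIntegral_iteratedDeriv` / `pow_mul_fourier..`),
and trivially `|∫ g exp| ≤ 8U sup|g|`. So `|∫ g(x) exp(-ixy) dx| ≤ C (1+‖w‖)^8 U^(1+2Re w+i) (1+Δ|y|)^(-8)`.
The derivatives of `KK` in `y` are `∫ Ω X2 (-ix)^i exp(-ixy) dx`, `i = 1, 2` (differentiation under the integral sign).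
-/

set_option autoImplicit false

namespace Pool.Agent.P07318f

open MeasureTheory Complex Pool.Agent.P07318s

namespace KerKAux

open FourierTransform Topology Filter

/-- the Fourier integral -/
noncomputable def EI (g : ℝ → ℂ) (y : ℝ) : ℂ := ∫ x : ℝ, g x * cexp (((-(x * y) : ℝ) : ℂ) * I)

lemma EI_eq (g : ℝ → ℂ) : EI g = fun y => 𝓕 g (y / (2 * Real.pi)) := by
  funext y
  unfold EI
  rw [Real.fourier_real_eq_integral_exp_smul]
  refine integral_congr_ae (ae_of_all _ fun x => ?_)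
  simp only [smul_eq_mul]
  rw [mul_comm]
  congr 3
  have := Real.pi_ne_zero
  field_simp

lemma hasDerivAt_EI {g : ℝ → ℂ} (hg : Integrable g) (hg' : Integrable fun x : ℝ => (x : ℂ) * g x)
    (y : ℝ) : HasDerivAt (EI g) (EI (fun x => (-(x : ℂ) * I) * g x) y) y := by
  have h1 := Real.hasDerivAt_fourier hg (by simpa using hg') (y / (2 * Real.pi))
  have h2 : HasDerivAt (fun y : ℝ => y / (2 * Real.pi)) (1 / (2 * Real.pi)) y :=
    (hasDerivAt_id y).div_const _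
  have h3 := h1.scomp y h2
  rw [EI_eq, EI_eq]
  have e : (1 / (2 * Real.pi)) • 𝓕 (fun x : ℝ => (-2 * (Real.pi : ℂ) * I * x) • g x)
      (y / (2 * Real.pi)) = 𝓕 (fun x : ℝ => (-(x : ℂ) * I) * g x) (y / (2 * Real.pi)) := by
    rw [Real.fourier_real_eq_integral_exp_smul, Real.fourier_real_eq_integral_exp_smul,
      ← integral_smul]
    refine integral_congr_ae (ae_of_all _ fun x => ?_)
    simp only [smul_eq_mul, Complex.real_smul]
    push_cast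
    have : (Real.pi : ℂ) ≠ 0 := by exact_mod_cast Real.pi_ne_zero
    field_simp
  change HasDerivAt _ (𝓕 (fun x : ℝ => (-(x : ℂ) * I) * g x) (y / (2 * Real.pi))) y
  rw [← e]
  exact h3

lemma EI_deriv {g : ℝ → ℂ} (hg : Integrable g) (hd : Differentiable ℝ g)
    (hg' : Integrable (deriv g)) (y : ℝ) : EI (deriv g) y = (I * y) * EI g y := by
  rw [EI_eq, EI_eq]
  simp only
  rw [Real.fourier_deriv hg hd hg']
  simp only [smul_eq_mul]
  have : (Real.pi : ℂ) ≠ 0 := by exact_mod_cast Real.pi_ne_zero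
  push_cast
  congr 1
  field_simp

section

variable {U Δ : ℝ} {Ω : ℝ → ℂ} {s : ℂ}

/-- the building blocks -/
noncomputable def F (Ω : ℝ → ℂ) (s : ℂ) (k j : ℕ) (x : ℝ) : ℂ :=
  iteratedDeriv k Ω x * (x : ℂ) ^ (s - j)

lemma iter_zero_left (hΩ : Adm U Δ Ω) (k : ℕ) {x : ℝ} (hx : x < U / 2) :
    iteratedDeriv k Ω x = 0 := by
  have h : Ω =ᶠ[𝓝 x] fun _ => 0 := by
    filter_upwards [Iio_mem_nhds hx] with z hz
    exact hΩ.2.1 z hz.le
  rw [h.iteratedDeriv_eq]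
  simp

lemma iter_zero_right (hΩ : Adm U Δ Ω) (k : ℕ) {x : ℝ} (hx : 8 * U < x) :
    iteratedDeriv k Ω x = 0 := by
  have h : Ω =ᶠ[𝓝 x] fun _ => 0 := by
    filter_upwards [Ioi_mem_nhds hx] with z hz
    exact hΩ.2.2.1 z hz.le
  rw [h.iteratedDeriv_eq]
  simp

lemma F_zero (hΩ : Adm U Δ Ω) (k j : ℕ) {x : ℝ} (hx : x ∉ Set.Icc (U / 2) (8 * U)) :
    F Ω s k j x = 0 := by
  unfold F
  rw [Set.mem_Icc, not_and_or, not_le, not_le] at hx
  rcases hx with hx | hx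
  · rw [iter_zero_left hΩ k hx, zero_mul]
  · rw [iter_zero_right hΩ k hx, zero_mul]

lemma F_ev (hU : 1 ≤ U) (hΩ : Adm U Δ Ω) (k j : ℕ) {x : ℝ} (hx : x ≤ 0) :
    F Ω s k j =ᶠ[𝓝 x] fun _ => 0 := by
  have hx' : x < U / 2 := by linarith
  filter_upwards [Iio_mem_nhds hx'] with z hz
  unfold F
  rw [iter_zero_left hΩ k hz, zero_mul]

lemma cpow_hasDerivAt (c : ℂ) {x : ℝ} (hx : 0 < x) :
    HasDerivAt (fun x : ℝ => (x : ℂ) ^ c) (c * (x : ℂ) ^ (c - 1)) x := by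
  have h := (hasDerivAt_id (x : ℂ)).cpow_const (c := c) (Or.inl (by simpa using hx))
  have h2 := h.comp_ofReal
  simpa using h2

lemma F_hasDerivAt (hU : 1 ≤ U) (hΩ : Adm U Δ Ω) {k : ℕ} (hk : k + 1 ≤ 8) (j : ℕ) (x : ℝ) :
    HasDerivAt (F Ω s k j) (F Ω s (k + 1) j x + (s - j) * F Ω s k (j + 1) x) x := by
  rcases le_or_gt x 0 with hx | hx
  · have h1 := F_ev (s := s) hU hΩ k j hx
    have h2 := (F_ev (s := s) hU hΩ (k + 1) j hx).eq_of_nhds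
    have h3 := (F_ev (s := s) hU hΩ k (j + 1) hx).eq_of_nhds
    rw [h2, h3]
    simp only [mul_zero, add_zero]
    exact (hasDerivAt_const x (0 : ℂ)).congr_of_eventuallyEq h1
  · have h1 : HasDerivAt (iteratedDeriv k Ω) (iteratedDeriv (k + 1) Ω x) x := by
      rw [iteratedDeriv_succ]
      exact ((hΩ.1.differentiable_iteratedDeriv k (by exact_mod_cast hk)) x).hasDerivAt
    have h2 := h1.mul (cpow_hasDerivAt (s - j) hx)
    unfold F
    have e : iteratedDeriv (k + 1) Ω x * (x : ℂ) ^ (s - j) +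
        (s - j) * (iteratedDeriv k Ω x * (x : ℂ) ^ (s - ((j + 1 : ℕ) : ℂ))) =
        iteratedDeriv (k + 1) Ω x * (x : ℂ) ^ (s - j) +
        iteratedDeriv k Ω x * ((s - j) * (x : ℂ) ^ (s - j - 1)) := by
      push_cast
      rw [← sub_sub]
      ring
    rw [e]
    exact h2

lemma F_cont (hU : 1 ≤ U) (hΩ : Adm U Δ Ω) {k : ℕ} (hk : k ≤ 8) (j : ℕ) :
    Continuous (F Ω s k j) := by
  rw [continuous_iff_continuousAt]
  intro x
  rcases le_or_gt x 0 with hx | hx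
  · exact continuousAt_const.congr (F_ev (s := s) hU hΩ k j hx).symm
  · have h1 : ContinuousAt (iteratedDeriv k Ω) x :=
      (hΩ.1.continuous_iteratedDeriv k (by exact_mod_cast hk)).continuousAt
    exact h1.mul (cpow_hasDerivAt (s - j) hx).continuousAt

lemma F_int (hU : 1 ≤ U) (hΩ : Adm U Δ Ω) {k : ℕ} (hk : k ≤ 8) (j : ℕ) :
    Integrable (F Ω s k j) :=
  (F_cont hU hΩ hk j).integrable_of_hasCompactSupport
    (HasCompactSupport.intro isCompact_Icc fun _ hx => F_zero hΩ k j hx)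

lemma EI_add {f g : ℝ → ℂ} (hf : Integrable f) (hg : Integrable g) (y : ℝ) :
    EI (fun x => f x + g x) y = EI f y + EI g y := by
  unfold EI
  have hb : ∀ h : ℝ → ℂ, Integrable h →
      Integrable fun x : ℝ => h x * cexp (((-(x * y) : ℝ) : ℂ) * I) := by
    intro h hh
    refine hh.mul_bdd (c := 1) (Continuous.aestronglyMeasurable (by fun_prop))
      (ae_of_all _ fun x => ?_)
    rw [Complex.norm_exp_ofReal_mul_I]
  rw [← integral_add (hb f hf) (hb g hg)]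
  refine integral_congr_ae (ae_of_all _ fun x => ?_)
  simp only [add_mul]

lemma EI_const_mul (c : ℂ) (g : ℝ → ℂ) (y : ℝ) :
    EI (fun x => c * g x) y = c * EI g y := by
  unfold EI
  rw [← integral_const_mul]
  refine integral_congr_ae (ae_of_all _ fun x => ?_)
  simp only [mul_assoc]

lemma parts (hU : 1 ≤ U) (hΩ : Adm U Δ Ω) {k : ℕ} (hk : k + 1 ≤ 8) (j : ℕ) (y : ℝ) :
    (I * y) * EI (F Ω s k j) y = EI (F Ω s (k + 1) j) y + (s - j) * EI (F Ω s k (j + 1)) y := by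
  have hd : deriv (F Ω s k j) = fun x => F Ω s (k + 1) j x + (s - j) * F Ω s k (j + 1) x := by
    funext x
    exact (F_hasDerivAt hU hΩ hk j x).deriv
  have hi1 := F_int (s := s) hU hΩ hk j
  have hi2 := (F_int (s := s) hU hΩ (k := k) (by omega) (j + 1)).const_mul (s - j)
  rw [← EI_deriv (F_int hU hΩ (by omega) j)
    (fun x => (F_hasDerivAt hU hΩ hk j x).differentiableAt) (by rw [hd]; exact hi1.add hi2), hd,
    EI_add hi1 hi2, EI_const_mul]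

lemma rpow_bd {t τ : ℝ} (h1 : 1 / 2 ≤ t) (h8 : t ≤ 8) : t ^ τ ≤ 8 ^ |τ| := by
  have ht : 0 < t := by linarith
  rcases le_total 0 τ with h | h
  · rw [abs_of_nonneg h]
    exact Real.rpow_le_rpow ht.le h8 h
  · rw [abs_of_nonpos h]
    have e : t ^ τ = (t⁻¹) ^ (-τ) := by
      rw [Real.inv_rpow ht.le, ← Real.rpow_neg ht.le, neg_neg]
    rw [e]
    refine Real.rpow_le_rpow (by positivity) ?_ (by linarith)
    rw [inv_le_comm₀ ht (by norm_num)]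
    linarith

lemma F_norm (hU : 1 ≤ U) (hΔ : 0 < Δ) (hs : 0 ≤ s.re) (hΩ : Adm U Δ Ω) {k : ℕ} (hk : k ≤ 8) (j : ℕ)
    {x : ℝ} (hx : x ∈ Set.Icc (U / 2) (8 * U)) :
    ‖F Ω s k j x‖ ≤ Δ⁻¹ ^ k * (U ^ (s.re - j) * 8 ^ (s.re + j)) := by
  have hU0 : 0 < U := by linarith
  have hx0 : 0 < x := by linarith [hx.1]
  unfold F
  rw [norm_mul, Complex.norm_cpow_eq_rpow_re_of_pos hx0]
  refine mul_le_mul (hΩ.2.2.2 k hk x) ?_ (Real.rpow_nonneg hx0.le _) (by positivity)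
  have e1 : (s - (j : ℂ)).re = s.re - j := by simp
  rw [e1]
  have e2 : x = U * (x / U) := by field_simp
  rw [e2, Real.mul_rpow hU0.le (by positivity)]
  refine mul_le_mul_of_nonneg_left ?_ (Real.rpow_nonneg hU0.le _)
  refine (rpow_bd ?_ ?_).trans ?_
  · rw [div_le_div_iff₀ (by norm_num) hU0]
    linarith [hx.1]
  · rw [div_le_iff₀ hU0]
    exact hx.2
  · refine Real.rpow_le_rpow_of_exponent_le (by norm_num) ?_
    rw [abs_le]
    constructor <;> linarith [(Nat.cast_nonneg j : (0:ℝ) ≤ (j:ℝ))]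

lemma EI_norm (hU : 1 ≤ U) (hΔ : 0 < Δ) (hs : 0 ≤ s.re) (hΩ : Adm U Δ Ω) {k : ℕ} (hk : k ≤ 8) (j : ℕ)
    (y : ℝ) : ‖EI (F Ω s k j) y‖ ≤ Δ⁻¹ ^ k * (U ^ (s.re - j) * 8 ^ (s.re + j)) * (8 * U) := by
  have hU0 : 0 < U := by linarith
  unfold EI
  rw [← setIntegral_eq_integral_of_forall_compl_eq_zero (s := Set.Icc (U / 2) (8 * U))]
  · refine (norm_setIntegral_le_of_norm_le_const (C := Δ⁻¹ ^ k * (U ^ (s.re - j) * 8 ^ (s.re + j)))
      measure_Icc_lt_top fun x hx => ?_).trans ?_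
    · rw [norm_mul, Complex.norm_exp_ofReal_mul_I, mul_one]
      exact F_norm hU hΔ hs hΩ hk j hx
    · refine mul_le_mul_of_nonneg_left ?_ (by positivity)
      rw [Real.volume_real_Icc]
      exact max_le (by linarith) (by linarith)
  · intro x hx
    rw [F_zero hΩ k j hx, zero_mul]

lemma induct (hU : 1 ≤ U) (hΔ : 0 < Δ) (hΔU : Δ ≤ U) (hs : 0 ≤ s.re) (hΩ : Adm U Δ Ω) (y : ℝ)
    (n : ℕ) : ∀ k j : ℕ, k + n ≤ 8 → j + n ≤ 8 → |y| ^ n * ‖EI (F Ω s k j) y‖ ≤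
      Δ⁻¹ ^ (k + n) * (U ^ (s.re - j) * 8 ^ (s.re + j)) * (8 * U) * (1 + 8 * (‖s‖ + 8)) ^ n := by
  have hU0 : 0 < U := by linarith
  induction n with
  | zero =>
    intro k j hk _
    simpa using EI_norm hU hΔ hs hΩ (k := k) (by omega) j y
  | succ n ih =>
    intro k j hk hj
    have h1 := ih (k + 1) j (by omega) (by omega)
    have h2 := ih k (j + 1) (by omega) (by omega)
    have h3 := parts (s := s) hU hΩ (k := k) (by omega) j y
    have h4 : |y| * ‖EI (F Ω s k j) y‖ ≤ ‖EI (F Ω s (k + 1) j) y‖ +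
        (‖s‖ + 8) * ‖EI (F Ω s k (j + 1)) y‖ := by
      have h5 : |y| * ‖EI (F Ω s k j) y‖ = ‖(I * y) * EI (F Ω s k j) y‖ := by
        rw [norm_mul, norm_mul, Complex.norm_I, one_mul, Complex.norm_real, Real.norm_eq_abs]
      rw [h5, h3]
      refine (norm_add_le _ _).trans (add_le_add le_rfl ?_)
      rw [norm_mul]
      refine mul_le_mul_of_nonneg_right ((norm_sub_le _ _).trans ?_) (norm_nonneg _)
      have : ‖(j : ℂ)‖ = (j : ℝ) := by simp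
      rw [this]
      have : (j : ℝ) ≤ 8 := by exact_mod_cast (by omega : j ≤ 8)
      linarith
    have hy : 0 ≤ |y| ^ n := by positivity
    have hs0 : 0 ≤ ‖s‖ + 8 := by positivity
    have h6 : Δ⁻¹ ^ (k + n) * (U ^ (s.re - ((j + 1 : ℕ) : ℝ)) * 8 ^ (s.re + ((j + 1 : ℕ) : ℝ))) ≤
        Δ⁻¹ ^ (k + (n + 1)) * (U ^ (s.re - j) * 8 ^ (s.re + j)) * 8 := by
      have e1 : U ^ (s.re - ((j + 1 : ℕ) : ℝ)) = U ^ (s.re - j) * U⁻¹ := by
        push_cast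
        rw [← sub_sub, Real.rpow_sub_one hU0.ne', div_eq_mul_inv]
      have e2 : (8 : ℝ) ^ (s.re + ((j + 1 : ℕ) : ℝ)) = 8 ^ (s.re + j) * 8 := by
        push_cast
        rw [← add_assoc, Real.rpow_add_one (by norm_num)]
      have e3 : Δ⁻¹ ^ (k + (n + 1)) = Δ⁻¹ ^ (k + n) * Δ⁻¹ := by
        rw [← add_assoc, pow_succ]
      rw [e1, e2, e3]
      have e4 : U⁻¹ ≤ Δ⁻¹ := inv_anti₀ hΔ hΔU
      calc Δ⁻¹ ^ (k + n) * (U ^ (s.re - j) * U⁻¹ * (8 ^ (s.re + j) * 8)) =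
          Δ⁻¹ ^ (k + n) * (U ^ (s.re - j) * 8 ^ (s.re + j)) * 8 * U⁻¹ := by ring
        _ ≤ Δ⁻¹ ^ (k + n) * (U ^ (s.re - j) * 8 ^ (s.re + j)) * 8 * Δ⁻¹ :=
          mul_le_mul_of_nonneg_left e4 (by positivity)
        _ = _ := by ring
    set P := Δ⁻¹ ^ (k + (n + 1)) * (U ^ (s.re - j) * 8 ^ (s.re + j)) with hP
    have hP0 : 0 ≤ P := by positivity
    set R := (1 + 8 * (‖s‖ + 8)) ^ n with hR
    have hR0 : 0 ≤ R := by positivity
    have h1' : |y| ^ n * ‖EI (F Ω s (k + 1) j) y‖ ≤ P * (8 * U) * R := by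
      have : k + 1 + n = k + (n + 1) := by omega
      rw [this] at h1
      exact h1
    have h2' : |y| ^ n * ‖EI (F Ω s k (j + 1)) y‖ ≤ P * 8 * (8 * U) * R :=
      h2.trans (mul_le_mul_of_nonneg_right (mul_le_mul_of_nonneg_right h6 (by positivity)) hR0)
    calc |y| ^ (n + 1) * ‖EI (F Ω s k j) y‖ = |y| ^ n * (|y| * ‖EI (F Ω s k j) y‖) := by ring
      _ ≤ |y| ^ n * (‖EI (F Ω s (k + 1) j) y‖ + (‖s‖ + 8) * ‖EI (F Ω s k (j + 1)) y‖) :=
        mul_le_mul_of_nonneg_left h4 hy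
      _ = |y| ^ n * ‖EI (F Ω s (k + 1) j) y‖ +
          (‖s‖ + 8) * (|y| ^ n * ‖EI (F Ω s k (j + 1)) y‖) := by ring
      _ ≤ P * (8 * U) * R + (‖s‖ + 8) * (P * 8 * (8 * U) * R) :=
        add_le_add h1' (mul_le_mul_of_nonneg_left h2' hs0)
      _ = P * (8 * U) * (R * (1 + 8 * (‖s‖ + 8))) := by ring
      _ = _ := by rw [hR, ← pow_succ]

/-- the integrands of the derivatives of the kernel -/
noncomputable def gi (Ω : ℝ → ℂ) (w : ℂ) (i : ℕ) (x : ℝ) : ℂ :=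
  (-(x : ℂ) * I) ^ i * (Ω x * X2 x (2 * w))

lemma gi_eq (hU : 1 ≤ U) (hΩ : Adm U Δ Ω) (w : ℂ) (i : ℕ) :
    gi Ω w i = fun x => (((((2 * Real.pi)⁻¹ : ℝ) : ℂ) ^ (2 * w)) * (-I) ^ i) *
      F Ω (2 * w + i) 0 0 x := by
  funext x
  unfold gi F X2
  rw [iteratedDeriv_zero]
  rcases le_or_gt x 0 with hx | hx
  · rw [hΩ.2.1 x (by linarith)]
    simp
  · have hx' : (x : ℂ) ≠ 0 := by exact_mod_cast hx.ne'
    have e1 : ((x / (2 * Real.pi) : ℝ) : ℂ) = (x : ℂ) * (((2 * Real.pi)⁻¹ : ℝ) : ℂ) := by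
      push_cast
      rw [div_eq_mul_inv]
    rw [e1, Complex.mul_cpow_ofReal_nonneg hx.le (by positivity), Nat.cast_zero, sub_zero,
      Complex.cpow_add _ _ hx', Complex.cpow_natCast]
    have e2 : (-(x : ℂ) * I) ^ i = (x : ℂ) ^ i * (-I) ^ i := by
      rw [← mul_pow]
      congr 1
      ring
    rw [e2]
    ring

lemma gi_cont (hU : 1 ≤ U) (hΩ : Adm U Δ Ω) (w : ℂ) (i : ℕ) : Continuous (gi Ω w i) := by
  rw [gi_eq hU hΩ]
  exact continuous_const.mul (F_cont hU hΩ (by omega) 0)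

lemma gi_zero (hU : 1 ≤ U) (hΩ : Adm U Δ Ω) (w : ℂ) (i : ℕ) {x : ℝ}
    (hx : x ∉ Set.Icc (U / 2) (8 * U)) : gi Ω w i x = 0 := by
  rw [gi_eq hU hΩ]
  simp only
  rw [F_zero hΩ 0 0 hx, mul_zero]

lemma mul_gi_int (hU : 1 ≤ U) (hΩ : Adm U Δ Ω) (w : ℂ) (i : ℕ) {p : ℝ → ℂ} (hp : Continuous p) :
    Integrable fun x => p x * gi Ω w i x :=
  (hp.mul (gi_cont hU hΩ w i)).integrable_of_hasCompactSupport
    (HasCompactSupport.intro isCompact_Icc fun _ hx => by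
      rw [Pi.mul_apply, gi_zero hU hΩ w i hx, mul_zero])

lemma gi_int (hU : 1 ≤ U) (hΩ : Adm U Δ Ω) (w : ℂ) (i : ℕ) : Integrable (gi Ω w i) :=
  (gi_cont hU hΩ w i).integrable_of_hasCompactSupport
    (HasCompactSupport.intro isCompact_Icc fun _ hx => gi_zero hU hΩ w i hx)

lemma gi_deriv (hU : 1 ≤ U) (hΩ : Adm U Δ Ω) (w : ℂ) (i : ℕ) (y : ℝ) :
    HasDerivAt (EI (gi Ω w i)) (EI (gi Ω w (i + 1)) y) y := by
  have h := hasDerivAt_EI (gi_int hU hΩ w i)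
    (mul_gi_int hU hΩ w i (p := fun x => (x : ℂ)) (by fun_prop)) y
  have e : (fun x : ℝ => -(x : ℂ) * I * gi Ω w i x) = gi Ω w (i + 1) := by
    funext x
    unfold gi
    rw [pow_succ]
    ring
  rw [e] at h
  exact h

lemma gi_bound (hU : 1 ≤ U) (hΔ : 0 < Δ) (hΔU : Δ ≤ U) (hΩ : Adm U Δ Ω) {w : ℂ} (hw : 0 ≤ w.re)
    (hw2 : w.re ≤ 2) {i : ℕ} (hi : i ≤ 2) (y : ℝ) :
    ‖EI (gi Ω w i) y‖ ≤ (2 ^ 8 * 8 ^ 7 * 81 ^ 8 * (1 + ‖w‖) ^ 8 * U ^ (1 + 2 * w.re)) *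
      (U ^ i * ((1 + Δ * |y|) ^ 8)⁻¹) := by
  have hU0 : 0 < U := by linarith
  set s : ℂ := 2 * w + i with hs
  have hsre : s.re = 2 * w.re + i := by
    rw [hs]
    simp
  have hs0 : 0 ≤ s.re := by rw [hsre]; positivity
  have hi2 : (i : ℝ) ≤ 2 := by exact_mod_cast hi
  have hs6 : s.re ≤ 6 := by rw [hsre]; linarith
  have hsn : ‖s‖ ≤ 2 * ‖w‖ + 2 := by
    rw [hs]
    refine (norm_add_le _ _).trans (add_le_add ?_ ?_)
    · rw [norm_mul]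
      simp
    · simpa using hi2
  have h0 := induct (s := s) hU hΔ hΔU hs0 hΩ y 0 0 0 (by omega) (by omega)
  have h8 := induct (s := s) hU hΔ hΔU hs0 hΩ y 8 0 0 (by omega) (by omega)
  simp only [pow_zero, one_mul, mul_one, Nat.cast_zero, sub_zero, add_zero, zero_add] at h0 h8
  have e1 : ‖EI (gi Ω w i) y‖ ≤ ‖EI (F Ω s 0 0) y‖ := by
    rw [gi_eq hU hΩ, EI_const_mul, norm_mul, norm_mul, norm_pow, norm_neg, Complex.norm_I, one_pow,
      mul_one, Complex.norm_cpow_eq_rpow_re_of_pos (by positivity)]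
    refine mul_le_of_le_one_left (norm_nonneg _) (Real.rpow_le_one (by positivity) ?_ ?_)
    · exact inv_le_one_of_one_le₀ (by linarith [Real.pi_gt_three])
    · simpa using hw
  refine e1.trans ?_
  have hP : (0 : ℝ) < (1 + Δ * |y|) ^ 8 := by positivity
  rw [← mul_assoc, ← div_eq_mul_inv, le_div_iff₀ hP]
  have hpw : (1 + Δ * |y|) ^ 8 ≤ 2 ^ 7 * (1 ^ 8 + (Δ * |y|) ^ 8) :=
    add_pow_le zero_le_one (by positivity) 8
  have h8' : (Δ * |y|) ^ 8 * ‖EI (F Ω s 0 0) y‖ ≤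
      U ^ s.re * 8 ^ s.re * (8 * U) * (1 + 8 * (‖s‖ + 8)) ^ 8 := by
    calc (Δ * |y|) ^ 8 * ‖EI (F Ω s 0 0) y‖ = Δ ^ 8 * (|y| ^ 8 * ‖EI (F Ω s 0 0) y‖) := by ring
      _ ≤ Δ ^ 8 * (Δ⁻¹ ^ 8 * (U ^ s.re * 8 ^ s.re) * (8 * U) * (1 + 8 * (‖s‖ + 8)) ^ 8) :=
        mul_le_mul_of_nonneg_left h8 (by positivity)
      _ = (Δ * Δ⁻¹) ^ 8 * (U ^ s.re * 8 ^ s.re * (8 * U) * (1 + 8 * (‖s‖ + 8)) ^ 8) := by ring
      _ = _ := by rw [mul_inv_cancel₀ hΔ.ne', one_pow, one_mul]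
  have h86 : (8 : ℝ) ^ s.re ≤ 8 ^ 6 := by
    rw [← Real.rpow_natCast]
    exact Real.rpow_le_rpow_of_exponent_le (by norm_num) (by simpa using hs6)
  have hN : (1 + 8 * (‖s‖ + 8)) ^ 8 ≤ (81 * (1 + ‖w‖)) ^ 8 :=
    pow_le_pow_left₀ (by positivity) (by nlinarith [norm_nonneg w]) 8
  have h1N : 1 ≤ (1 + 8 * (‖s‖ + 8)) ^ 8 := one_le_pow₀ (by nlinarith [norm_nonneg s])
  have hA : 0 ≤ U ^ s.re * 8 ^ s.re * (8 * U) := by positivity
  calc ‖EI (F Ω s 0 0) y‖ * (1 + Δ * |y|) ^ 8 ≤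
        ‖EI (F Ω s 0 0) y‖ * (2 ^ 7 * (1 ^ 8 + (Δ * |y|) ^ 8)) :=
      mul_le_mul_of_nonneg_left hpw (norm_nonneg _)
    _ = 2 ^ 7 * (‖EI (F Ω s 0 0) y‖ + (Δ * |y|) ^ 8 * ‖EI (F Ω s 0 0) y‖) := by ring
    _ ≤ 2 ^ 7 * (U ^ s.re * 8 ^ s.re * (8 * U) * (1 + 8 * (‖s‖ + 8)) ^ 8 +
        U ^ s.re * 8 ^ s.re * (8 * U) * (1 + 8 * (‖s‖ + 8)) ^ 8) := by
      refine mul_le_mul_of_nonneg_left (add_le_add (h0.trans ?_) h8') (by positivity)
      exact le_mul_of_one_le_right hA h1N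
    _ = 2 ^ 8 * (U ^ s.re * 8 ^ s.re * (8 * U)) * (1 + 8 * (‖s‖ + 8)) ^ 8 := by ring
    _ ≤ 2 ^ 8 * (U ^ s.re * 8 ^ 6 * (8 * U)) * (81 * (1 + ‖w‖)) ^ 8 := by
      refine mul_le_mul (mul_le_mul_of_nonneg_left (mul_le_mul_of_nonneg_right
        (mul_le_mul_of_nonneg_left h86 (by positivity)) (by positivity)) (by positivity)) hN
        (by positivity) (by positivity)
    _ = _ := by
      rw [hsre, Real.rpow_add hU0, Real.rpow_natCast, Real.rpow_add hU0, Real.rpow_one, mul_pow]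
      ring

end

end KerKAux

open KerKAux in
theorem kk_bound : ∃ C : ℝ, 1 ≤ C ∧ ∀ (U Δ : ℝ) (Ω : ℝ → ℂ) (w : ℂ), 1 ≤ U → 0 < Δ → Δ ≤ U → Adm U Δ Ω →
    0 ≤ w.re → w.re ≤ 2 →
    KerB U Δ (fun y => KK Ω w y / ((C * (1 + ‖w‖) ^ 8 * U ^ (1 + 2 * w.re) : ℝ) : ℂ)) := by
  refine ⟨2 ^ 8 * 8 ^ 7 * 81 ^ 8, by norm_num, fun U Δ Ω w hU hΔ hΔU hΩ hw hw2 => ?_⟩
  have hU0 : 0 < U := by linarith
  set D : ℝ := 2 ^ 8 * 8 ^ 7 * 81 ^ 8 * (1 + ‖w‖) ^ 8 * U ^ (1 + 2 * w.re) with hD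
  have hD0 : 0 < D := by positivity
  have hDn : ‖(D : ℂ)‖ = D := by rw [Complex.norm_real, Real.norm_eq_abs, abs_of_pos hD0]
  have e0 : (fun y => KK Ω w y / (D : ℂ)) = fun y => EI (gi Ω w 0) y / (D : ℂ) := by
    funext y
    congr 1
    unfold KK EI gi
    simp only [pow_zero, one_mul]
  have e1 : deriv (fun y => EI (gi Ω w 0) y / (D : ℂ)) = fun y => EI (gi Ω w 1) y / (D : ℂ) := by
    funext y
    exact ((gi_deriv hU hΩ w 0 y).div_const (D : ℂ)).deriv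
  have e2 : deriv (fun y => EI (gi Ω w 1) y / (D : ℂ)) = fun y => EI (gi Ω w 2) y / (D : ℂ) := by
    funext y
    exact ((gi_deriv hU hΩ w 1 y).div_const (D : ℂ)).deriv
  have hb : ∀ i ≤ 2, ∀ y, ‖EI (gi Ω w i) y / (D : ℂ)‖ ≤ U ^ i * ((1 + Δ * |y|) ^ 8)⁻¹ := by
    intro i hi y
    rw [norm_div, hDn, div_le_iff₀ hD0, mul_comm _ D]
    exact gi_bound hU hΔ hΔU hΩ hw hw2 hi y
  unfold KerB
  rw [e0, e1, e2]
  refine ⟨?_, fun y => ⟨?_, ?_, ?_⟩⟩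
  · refine ContDiff.div_const ?_ _
    rw [EI_eq]
    have h := Real.contDiff_fourier (N := 2) (f := gi Ω w 0) (fun n _ => by
      have h1 := (mul_gi_int hU hΩ w 0 (p := fun x => (x : ℂ) ^ n) (by fun_prop)).norm
      simpa using h1)
    exact h.comp (contDiff_id.div_const _)
  · simpa using hb 0 (by omega) y
  · simpa using hb 1 (by omega) y
  · exact hb 2 le_rfl y

end Pool.Agent.P07318f
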