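import Mathlib
import Pool.Agent.Lib.P5632c9.DivBound

/-!
# Kloosterman's bound, elementary

PROOF. Let `S(u,v) = ∑_{x unit} e((u x + v x⁻¹)/q)`. Fourth moment: `∑_{u,v mod q} |S(u,v)|⁴ = q² N`, `N` = number of quadruples of units with
`x₁ + x₂ = x₃ + x₄`, `x₁⁻¹ + x₂⁻¹ = x₃⁻¹ + x₄⁻¹` (orthogonality of the additive characters in `u` and in `v`). If `x₁+x₂ = x₃+x₄ =: t`, the second
equation gives `t x₃ x₄ = t x₁ x₂`, and `x₃x₄ - x₁x₂ = -(x₃-x₁)(x₃-x₂)`. With `B = x₃ - x₁`, `C = x₃ - x₂` this is `(2 x₃ - B - C) B C = 0`, which has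
for given `B, C` at most `gcd(2BC, q) ≤ 2 gcd(B,q) gcd(C,q)` solutions `x₃`. So `N ≤ 2 (∑_B gcd(B,q))² ≤ 2 (q d(q))²`.
Lower bound by one orbit: for a unit `a`, `S(ua, v a⁻¹) = S(u,v)`, and the number of units `a` with `v a⁻¹ = v'` is at most `gcd(v,q)`:
`|S(u,v)|⁴ φ(q) ≤ gcd(v,q) q² N`. Finally `q = ∑_{d | q} φ(d) ≤ d(q) φ(q)`.
-/

set_option autoImplicit false

namespace Pool.Agent.P07318f

open Complex

namespace KlooAux

open Finset

section Ring

variable {R : Type*} [CommRing R] [Fintype R] [DecidableEq R]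

/-- the number of `x` with `a x = 0` -/
def G (a : R) : ℕ := (univ.filter fun x : R => a * x = 0).card

lemma card_sol_le (a w : R) : (univ.filter fun x : R => a * x = w).card ≤ G a := by
  classical
  rcases (univ.filter fun x : R => a * x = w).eq_empty_or_nonempty with h | ⟨x₀, hx₀⟩
  · rw [h]; simp
  · have hx₀' : a * x₀ = w := by simpa using hx₀
    refine Finset.card_le_card_of_injOn (fun x => x - x₀) ?_ ?_
    · intro x hx
      have hx' : a * x = w := by simpa using hx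
      simp [mul_sub, hx', hx₀']
    · intro x _ y _ hxy
      simpa using hxy

lemma G_mul (a b : R) : G (a * b) ≤ G a * G b := by
  classical
  unfold G
  have := Finset.card_le_mul_card_image_of_maps_to (s := univ.filter fun x : R => a * b * x = 0)
    (t := univ.filter fun x : R => a * x = 0) (f := fun x => b * x) ?_ (G b) ?_
  · calc _ ≤ G b * (univ.filter fun x : R => a * x = 0).card := this
      _ = _ := by rw [mul_comm]; rfl
  · intro x hx
    have hx' : a * b * x = 0 := by simpa using hx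
    simp [← mul_assoc, hx']
  · intro y _
    refine le_trans (Finset.card_le_card ?_) (card_sol_le b y)
    intro x hx
    simp only [mem_filter, mem_univ, true_and] at hx ⊢
    exact hx.2

end Ring

variable {q : ℕ} [NeZero q]

lemma card_mult_le (q m : ℕ) (_hm : 0 < m) (hmq : m ∣ q) :
    ((range q).filter fun x => m ∣ x).card ≤ q / m := by
  calc ((range q).filter fun x => m ∣ x).card ≤ (range (q / m)).card := by
        refine Finset.card_le_card_of_injOn (fun x => x / m) ?_ ?_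
        · intro x hx
          simp only [coe_filter, mem_range, Set.mem_ofPred_eq] at hx
          simp only [coe_range, Set.mem_Iio]
          exact Nat.div_lt_div_of_lt_of_dvd hmq hx.1
        · intro x hx y hy hxy
          simp only [coe_filter, mem_range, Set.mem_ofPred_eq] at hx hy
          exact (Nat.div_left_inj hx.2 hy.2).mp hxy
    _ = q / m := by simp

lemma G_le (a : ZMod q) : G a ≤ Nat.gcd a.val q := by
  have hq : 0 < q := NeZero.pos q
  set g := Nat.gcd a.val q with hg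
  have hg0 : 0 < g := Nat.gcd_pos_of_pos_right _ hq
  have hgq : g ∣ q := Nat.gcd_dvd_right _ _
  have hm : 0 < q / g := Nat.div_pos (Nat.le_of_dvd hq hgq) hg0
  calc G a ≤ ((range q).filter fun x => q / g ∣ x).card := by
        unfold G
        refine Finset.card_le_card_of_injOn (fun x => x.val) ?_ ?_
        · intro x hx
          have hx' : a * x = 0 := by simpa using hx
          simp only [coe_filter, mem_range, Set.mem_ofPred_eq]
          refine ⟨ZMod.val_lt x, ?_⟩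
          have h1 : q ∣ a.val * x.val := by
            rw [← ZMod.natCast_eq_zero_iff]
            push_cast
            rw [ZMod.natCast_zmod_val, ZMod.natCast_zmod_val, hx']
          have hcop : Nat.Coprime (q / g) (a.val / g) := by
            rw [Nat.coprime_comm]
            exact Nat.coprime_div_gcd_div_gcd hg0
          have h2 : q / g ∣ (a.val / g) * x.val := by
            have h3 : g * (q / g) ∣ g * ((a.val / g) * x.val) := by
              rw [Nat.mul_div_cancel' hgq, ← mul_assoc, Nat.mul_div_cancel' (Nat.gcd_dvd_left _ _)]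
              exact h1
            exact Nat.dvd_of_mul_dvd_mul_left hg0 h3
          exact hcop.dvd_of_dvd_mul_left h2
        · intro x _ y _ hxy
          exact ZMod.val_injective q hxy
    _ ≤ q / (q / g) := card_mult_le q _ hm (Nat.div_dvd_of_dvd hgq)
    _ = g := Nat.div_div_self hgq hq.ne'

lemma sum_gcd_le (q : ℕ) (hq : 0 < q) : ∑ a ∈ range q, Nat.gcd a q ≤ q * q.divisors.card := by
  calc ∑ a ∈ range q, Nat.gcd a q ≤ ∑ a ∈ range q, ∑ d ∈ q.divisors, if d ∣ a then d else 0 := by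
        refine Finset.sum_le_sum fun a _ => ?_
        have : (if Nat.gcd a q ∣ a then Nat.gcd a q else 0) ≤ ∑ d ∈ q.divisors, if d ∣ a then d else 0 := by
          refine Finset.single_le_sum (f := fun d => if d ∣ a then d else 0) (fun _ _ => Nat.zero_le _) ?_
          rw [Nat.mem_divisors]
          exact ⟨Nat.gcd_dvd_right _ _, hq.ne'⟩
        rwa [if_pos (Nat.gcd_dvd_left _ _)] at this
    _ = ∑ d ∈ q.divisors, ∑ a ∈ range q, if d ∣ a then d else 0 := Finset.sum_comm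
    _ ≤ ∑ d ∈ q.divisors, q := by
        refine Finset.sum_le_sum fun d hd => ?_
        rw [Nat.mem_divisors] at hd
        have hd0 : 0 < d := Nat.pos_of_dvd_of_pos hd.1 hq
        rw [← Finset.sum_filter, Finset.sum_const, smul_eq_mul]
        calc _ ≤ q / d * d := Nat.mul_le_mul_right _ (card_mult_le q d hd0 hd.1)
          _ = q := Nat.div_mul_cancel hd.1
    _ = q * q.divisors.card := by rw [Finset.sum_const, smul_eq_mul, mul_comm]

lemma sum_G_le : ∑ a : ZMod q, G a ≤ q * q.divisors.card := by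
  have hq : 0 < q := NeZero.pos q
  calc ∑ a : ZMod q, G a ≤ ∑ a : ZMod q, Nat.gcd a.val q := Finset.sum_le_sum fun a _ => G_le a
    _ = ∑ a ∈ range q, Nat.gcd a q := by
        refine Finset.sum_bij' (fun a _ => a.val) (fun a _ => (a : ZMod q)) ?_ ?_ ?_ ?_ ?_
        · intro a _; simpa using ZMod.val_lt a
        · intro a _; simp
        · intro a _; simp
        · intro a ha; exact ZMod.val_cast_of_lt (by simpa using ha)
        · intro a _; rfl
    _ ≤ _ := sum_gcd_le q hq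

lemma G_two_le : G (2 : ZMod q) ≤ 2 := by
  refine (G_le _).trans ?_
  rcases Nat.lt_or_ge 2 q with h | h
  · have : (2 : ZMod q).val = 2 := by
      have := ZMod.val_cast_of_lt (n := q) (a := 2) h
      simpa using this
    rw [this]
    exact Nat.gcd_le_left _ (by norm_num)
  · exact (Nat.gcd_le_right _ (NeZero.pos q)).trans h

/-- the Kloosterman sum -/
noncomputable def S (u v : ZMod q) : ℂ :=
  ∑ x : (ZMod q)ˣ, ZMod.stdAddChar (u * (x : ZMod q) + v * ((x⁻¹ : (ZMod q)ˣ) : ZMod q))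

lemma conj_char (a : ZMod q) : (starRingEnd ℂ) (ZMod.stdAddChar a) = ZMod.stdAddChar (-a) := by
  rw [AddChar.map_neg_eq_conj]

lemma parseval {ι : Type*} [Fintype ι] [DecidableEq ι] (f g : ι → ZMod q) :
    ∑ u : ZMod q, ∑ v : ZMod q, ‖∑ i, (ZMod.stdAddChar (u * f i + v * g i) : ℂ)‖ ^ 2 =
      (q : ℝ) ^ 2 * ((univ.filter fun p : ι × ι => f p.1 = f p.2 ∧ g p.1 = g p.2).card : ℝ) := by
  have key : ∀ u v : ZMod q, ((‖∑ i, (ZMod.stdAddChar (u * f i + v * g i) : ℂ)‖ ^ 2 : ℝ) : ℂ) =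
      ∑ p : ι × ι, (ZMod.stdAddChar (u * (f p.1 - f p.2)) : ℂ) * ZMod.stdAddChar (v * (g p.1 - g p.2)) := by
    intro u v
    push_cast
    rw [← Complex.mul_conj', map_sum, Finset.sum_mul_sum, Fintype.sum_prod_type]
    refine Finset.sum_congr rfl fun i _ => Finset.sum_congr rfl fun j _ => ?_
    rw [conj_char, ← AddChar.map_add_eq_mul, ← AddChar.map_add_eq_mul]
    congr 1
    ring
  have hψ := ZMod.isPrimitive_stdAddChar q
  have h : ((∑ u : ZMod q, ∑ v : ZMod q, ‖∑ i, (ZMod.stdAddChar (u * f i + v * g i) : ℂ)‖ ^ 2 : ℝ) : ℂ) =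
      (((q : ℝ) ^ 2 * ((univ.filter fun p : ι × ι => f p.1 = f p.2 ∧ g p.1 = g p.2).card : ℝ) : ℝ) : ℂ) := by
    rw [Complex.ofReal_sum]
    calc _ = ∑ u : ZMod q, ∑ v : ZMod q, ∑ p : ι × ι,
          (ZMod.stdAddChar (u * (f p.1 - f p.2)) : ℂ) * ZMod.stdAddChar (v * (g p.1 - g p.2)) := by
          refine Finset.sum_congr rfl fun u _ => ?_
          rw [Complex.ofReal_sum]
          exact Finset.sum_congr rfl fun v _ => key u v
      _ = ∑ p : ι × ι, (∑ u : ZMod q, (ZMod.stdAddChar (u * (f p.1 - f p.2)) : ℂ)) *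
            ∑ v : ZMod q, (ZMod.stdAddChar (v * (g p.1 - g p.2)) : ℂ) := by
          simp_rw [Finset.sum_mul_sum]
          rw [Finset.sum_congr rfl (fun u _ => Finset.sum_comm), Finset.sum_comm]
      _ = ∑ p : ι × ι, if f p.1 = f p.2 ∧ g p.1 = g p.2 then ((q : ℂ)) ^ 2 else 0 := by
          refine Finset.sum_congr rfl fun p _ => ?_
          rw [AddChar.sum_mulShift _ hψ, AddChar.sum_mulShift _ hψ, ZMod.card]
          by_cases h1 : f p.1 = f p.2 <;> by_cases h2 : g p.1 = g p.2 <;>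
            simp [h1, h2, sub_eq_zero, sq]
      _ = _ := by
          rw [← Finset.sum_filter, Finset.sum_const, nsmul_eq_mul]
          push_cast
          ring
  exact_mod_cast h

/-- the number of solutions -/
noncomputable def NN (q : ℕ) [NeZero q] : ℕ :=
  (univ.filter fun p : ((ZMod q)ˣ × (ZMod q)ˣ) × ((ZMod q)ˣ × (ZMod q)ˣ) =>
    (p.1.1 : ZMod q) + (p.1.2 : ZMod q) = (p.2.1 : ZMod q) + (p.2.2 : ZMod q) ∧
      ((p.1.1⁻¹ : (ZMod q)ˣ) : ZMod q) + ((p.1.2⁻¹ : (ZMod q)ˣ) : ZMod q) =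
        ((p.2.1⁻¹ : (ZMod q)ˣ) : ZMod q) + ((p.2.2⁻¹ : (ZMod q)ˣ) : ZMod q)).card

lemma sq_S (u v : ZMod q) : S u v ^ 2 = ∑ p : (ZMod q)ˣ × (ZMod q)ˣ, (ZMod.stdAddChar (u * ((p.1 : ZMod q) + (p.2 : ZMod q)) +
    v * (((p.1⁻¹ : (ZMod q)ˣ) : ZMod q) + ((p.2⁻¹ : (ZMod q)ˣ) : ZMod q))) : ℂ) := by
  rw [sq]
  unfold S
  rw [Finset.sum_mul_sum, Fintype.sum_prod_type]
  refine Finset.sum_congr rfl fun i _ => Finset.sum_congr rfl fun j _ => ?_
  rw [← AddChar.map_add_eq_mul]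
  congr 1
  ring

lemma fourth : ∑ u : ZMod q, ∑ v : ZMod q, ‖S u v‖ ^ 4 = (q : ℝ) ^ 2 * (NN q : ℝ) := by
  have := parseval (q := q) (fun p : (ZMod q)ˣ × (ZMod q)ˣ => (p.1 : ZMod q) + (p.2 : ZMod q))
    (fun p : (ZMod q)ˣ × (ZMod q)ˣ => ((p.1⁻¹ : (ZMod q)ˣ) : ZMod q) + ((p.2⁻¹ : (ZMod q)ˣ) : ZMod q))
  unfold NN
  rw [← this]
  refine Finset.sum_congr rfl fun u _ => Finset.sum_congr rfl fun v _ => ?_
  rw [← sq_S, norm_pow]
  ring

omit [NeZero q] in
lemma key_eq {x₁ x₂ x₃ x₄ : (ZMod q)ˣ} (h1 : (x₁ : ZMod q) + x₂ = x₃ + x₄)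
    (h2 : ((x₁⁻¹ : (ZMod q)ˣ) : ZMod q) + ((x₂⁻¹ : (ZMod q)ˣ) : ZMod q) =
      ((x₃⁻¹ : (ZMod q)ˣ) : ZMod q) + ((x₄⁻¹ : (ZMod q)ˣ) : ZMod q)) :
    2 * (((x₃ : ZMod q) - x₁) * ((x₃ : ZMod q) - x₂)) * (x₃ : ZMod q) =
      (((x₃ : ZMod q) - x₁) + ((x₃ : ZMod q) - x₂)) * (((x₃ : ZMod q) - x₁) * ((x₃ : ZMod q) - x₂)) := by
  have e1 : (x₁ : ZMod q) * ((x₁⁻¹ : (ZMod q)ˣ) : ZMod q) = 1 := Units.mul_inv x₁
  have e2 : (x₂ : ZMod q) * ((x₂⁻¹ : (ZMod q)ˣ) : ZMod q) = 1 := Units.mul_inv x₂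
  have e3 : (x₃ : ZMod q) * ((x₃⁻¹ : (ZMod q)ˣ) : ZMod q) = 1 := Units.mul_inv x₃
  have e4 : (x₄ : ZMod q) * ((x₄⁻¹ : (ZMod q)ˣ) : ZMod q) = 1 := Units.mul_inv x₄
  have h3 : ((x₁ : ZMod q) + x₂) * (x₃ * x₄) = ((x₃ : ZMod q) + x₄) * (x₁ * x₂) := by
    have : (x₁ : ZMod q) * x₂ * x₃ * x₄ * (((x₁⁻¹ : (ZMod q)ˣ) : ZMod q) + ((x₂⁻¹ : (ZMod q)ˣ) : ZMod q)) =
      (x₁ : ZMod q) * x₂ * x₃ * x₄ * (((x₃⁻¹ : (ZMod q)ˣ) : ZMod q) + ((x₄⁻¹ : (ZMod q)ˣ) : ZMod q)) := by rw [h2]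
    linear_combination this - (x₂ : ZMod q) * x₃ * x₄ * e1 - (x₁ : ZMod q) * x₃ * x₄ * e2 +
      (x₁ : ZMod q) * x₂ * x₄ * e3 + (x₁ : ZMod q) * x₂ * x₃ * e4
  have h4 : (x₄ : ZMod q) = x₁ + x₂ - x₃ := by linear_combination -h1
  rw [h4] at h3
  linear_combination (-1 : ZMod q) * h3

lemma NN_le : NN q ≤ 2 * (q * q.divisors.card) ^ 2 := by
  have step1 : NN q ≤ (univ.filter fun t : ZMod q × ZMod q × ZMod q =>
      2 * (t.1 * t.2.1) * t.2.2 = (t.1 + t.2.1) * (t.1 * t.2.1)).card := by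
    unfold NN
    refine Finset.card_le_card_of_injOn
      (fun p => ((p.2.1 : ZMod q) - p.1.1, (p.2.1 : ZMod q) - p.1.2, (p.2.1 : ZMod q))) ?_ ?_
    · intro p hp
      simp only [coe_filter, mem_univ, true_and, Set.mem_ofPred_eq] at hp ⊢
      exact key_eq hp.1 hp.2
    · rintro ⟨⟨a1, a2⟩, a3, a4⟩ hp ⟨⟨b1, b2⟩, b3, b4⟩ hp' h
      simp only [coe_filter, mem_univ, true_and, Set.mem_ofPred_eq] at hp hp'
      simp only [Prod.mk.injEq] at h
      obtain ⟨h1, h2, h3⟩ := h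
      have e3 : a3 = b3 := Units.ext h3
      have e1 : a1 = b1 := by
        apply Units.ext
        rw [h3] at h1
        exact sub_right_injective h1
      have e2 : a2 = b2 := by
        apply Units.ext
        rw [h3] at h2
        exact sub_right_injective h2
      have e4 : a4 = b4 := by
        apply Units.ext
        have := hp.1
        rw [e1, e2, e3, hp'.1] at this
        exact (add_left_cancel this).symm
      rw [e1, e2, e3, e4]
  refine step1.trans ?_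
  have step2 : (univ.filter fun t : ZMod q × ZMod q × ZMod q =>
      2 * (t.1 * t.2.1) * t.2.2 = (t.1 + t.2.1) * (t.1 * t.2.1)).card =
      ∑ B : ZMod q, ∑ C : ZMod q, (univ.filter fun x : ZMod q => 2 * (B * C) * x = (B + C) * (B * C)).card := by
    simp_rw [Finset.card_filter]
    rw [Fintype.sum_prod_type]
    refine Finset.sum_congr rfl fun B _ => ?_
    rw [Fintype.sum_prod_type]
  rw [step2]
  calc _ ≤ ∑ B : ZMod q, ∑ C : ZMod q, 2 * (G B * G C) := by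
        refine Finset.sum_le_sum fun B _ => Finset.sum_le_sum fun C _ => ?_
        calc _ ≤ G (2 * (B * C)) := card_sol_le _ _
          _ ≤ G (2 : ZMod q) * G (B * C) := G_mul _ _
          _ ≤ 2 * (G B * G C) := Nat.mul_le_mul G_two_le (G_mul _ _)
    _ = 2 * (∑ B : ZMod q, G B) ^ 2 := by
        rw [sq, Finset.sum_mul_sum, Finset.mul_sum]
        simp_rw [Finset.mul_sum]
    _ ≤ _ := Nat.mul_le_mul_left _ (Nat.pow_le_pow_left sum_G_le 2)

lemma S_orbit (u v : ZMod q) (a : (ZMod q)ˣ) :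
    S (u * (a : ZMod q)) (v * ((a⁻¹ : (ZMod q)ˣ) : ZMod q)) = S u v := by
  unfold S
  refine Fintype.sum_equiv (Equiv.mulLeft a) _ _ fun x => ?_
  simp only [Equiv.coe_mulLeft, mul_inv_rev, Units.val_mul]
  congr 1
  ring

lemma orbit_le (F : ZMod q → ZMod q → ℝ) (hF : ∀ u v, 0 ≤ F u v) (u v : ZMod q) :
    ∑ a : (ZMod q)ˣ, F (u * (a : ZMod q)) (v * ((a⁻¹ : (ZMod q)ˣ) : ZMod q)) ≤
      (G v : ℝ) * ∑ u' : ZMod q, ∑ v' : ZMod q, F u' v' := by
  classical
  calc _ = ∑ a : (ZMod q)ˣ, ∑ p : ZMod q × ZMod q,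
        if u * (a : ZMod q) = p.1 ∧ v * ((a⁻¹ : (ZMod q)ˣ) : ZMod q) = p.2 then F p.1 p.2 else 0 := by
        refine Finset.sum_congr rfl fun a _ => ?_
        rw [Finset.sum_eq_single (u * (a : ZMod q), v * ((a⁻¹ : (ZMod q)ˣ) : ZMod q))]
        · simp
        · rintro ⟨b1, b2⟩ _ hb
          rw [if_neg]
          rintro ⟨h1, h2⟩
          exact hb (by rw [Prod.mk.injEq]; exact ⟨h1.symm, h2.symm⟩)
        · intro h; exact absurd (Finset.mem_univ _) h
    _ = ∑ p : ZMod q × ZMod q, ∑ a : (ZMod q)ˣ,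
        if u * (a : ZMod q) = p.1 ∧ v * ((a⁻¹ : (ZMod q)ˣ) : ZMod q) = p.2 then F p.1 p.2 else 0 := Finset.sum_comm
    _ ≤ ∑ p : ZMod q × ZMod q, (G v : ℝ) * F p.1 p.2 := by
        refine Finset.sum_le_sum fun p _ => ?_
        rw [← Finset.sum_filter, Finset.sum_const, nsmul_eq_mul]
        refine mul_le_mul_of_nonneg_right ?_ (hF _ _)
        have : (univ.filter fun a : (ZMod q)ˣ =>
            u * (a : ZMod q) = p.1 ∧ v * ((a⁻¹ : (ZMod q)ˣ) : ZMod q) = p.2).card ≤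
            (univ.filter fun x : ZMod q => v * x = p.2).card := by
          refine Finset.card_le_card_of_injOn (fun a => ((a⁻¹ : (ZMod q)ˣ) : ZMod q)) ?_ ?_
          · intro a ha
            simp only [coe_filter, mem_univ, true_and, Set.mem_ofPred_eq] at ha ⊢
            exact ha.2
          · intro a _ b _ hab
            exact inv_injective (Units.ext hab)
        exact_mod_cast this.trans (card_sol_le _ _)
    _ = _ := by rw [← Finset.mul_sum, Fintype.sum_prod_type]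

lemma q_le (q : ℕ) (hq : 0 < q) : q ≤ q.divisors.card * q.totient := by
  calc q = ∑ d ∈ q.divisors, d.totient := (Nat.sum_totient q).symm
    _ ≤ ∑ _d ∈ q.divisors, q.totient := by
        refine Finset.sum_le_sum fun d hd => ?_
        exact Nat.le_of_dvd (Nat.totient_pos.mpr hq) (Nat.totient_dvd_of_dvd (Nat.dvd_of_mem_divisors hd))
    _ = _ := by rw [Finset.sum_const, smul_eq_mul]

lemma four_le (u v : ZMod q) :
    ‖S u v‖ ^ 4 ≤ 2 * (Nat.gcd v.val q : ℝ) * (q : ℝ) ^ 3 * (q.divisors.card : ℝ) ^ 3 := by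
  have hq : 0 < q := NeZero.pos q
  have hq' : (0 : ℝ) < q := by exact_mod_cast hq
  have hd : (0 : ℝ) < q.divisors.card := by
    exact_mod_cast Finset.card_pos.mpr ⟨1, Nat.one_mem_divisors.mpr hq.ne'⟩
  have h1 := orbit_le (fun u v => ‖S u v‖ ^ 4) (fun u v => by positivity) u v
  simp only [S_orbit] at h1
  rw [Finset.sum_const, Finset.card_univ, ZMod.card_units_eq_totient, nsmul_eq_mul, fourth] at h1
  have h2 : (NN q : ℝ) ≤ 2 * ((q : ℝ) * q.divisors.card) ^ 2 := by exact_mod_cast NN_le (q := q)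
  have h3 : (G v : ℝ) ≤ Nat.gcd v.val q := by exact_mod_cast G_le v
  have h4 : (q : ℝ) ≤ q.divisors.card * q.totient := by exact_mod_cast q_le q hq
  have h5 : (q.totient : ℝ) * ‖S u v‖ ^ 4 ≤
      (Nat.gcd v.val q : ℝ) * ((q : ℝ) ^ 2 * (2 * ((q : ℝ) * q.divisors.card) ^ 2)) := by
    refine h1.trans ?_
    gcongr
  have h6 : (q : ℝ) * ‖S u v‖ ^ 4 ≤ (q : ℝ) *
      (2 * (Nat.gcd v.val q : ℝ) * (q : ℝ) ^ 3 * (q.divisors.card : ℝ) ^ 3) := by
    calc (q : ℝ) * ‖S u v‖ ^ 4 ≤ (q.divisors.card * q.totient) * ‖S u v‖ ^ 4 := by gcongr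
      _ = q.divisors.card * (q.totient * ‖S u v‖ ^ 4) := by ring
      _ ≤ q.divisors.card * ((Nat.gcd v.val q : ℝ) * ((q : ℝ) ^ 2 * (2 * ((q : ℝ) * q.divisors.card) ^ 2))) := by
          gcongr
      _ = _ := by ring
  exact le_of_mul_le_mul_left h6 hq'

end KlooAux

open KlooAux in
theorem kloo (ε : ℝ) (hε : 0 < ε) : ∃ C : ℝ, 0 < C ∧ ∀ (q : ℕ) [NeZero q] (u v : ZMod q),
    ‖∑ x : (ZMod q)ˣ, ZMod.stdAddChar (u * (x : ZMod q) + v * ((x⁻¹ : (ZMod q)ˣ) : ZMod q))‖ ≤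
      C * (q : ℝ) ^ (3 / 4 + ε) * (Nat.gcd v.val q : ℝ) ^ (1 / 4 : ℝ) := by
  obtain ⟨C₀, hC₀, hdiv⟩ := Pool.Agent.Lib.P5632c9.card_divisors_le (4 * ε / 3) (by positivity)
  refine ⟨2 * C₀, by positivity, ?_⟩
  intro q _ u v
  have hq : 0 < q := NeZero.pos q
  have hq' : (0 : ℝ) < q := by exact_mod_cast hq
  have hS := four_le u v
  have hd := hdiv q hq.ne'
  have hg : (0 : ℝ) ≤ Nat.gcd v.val q := by positivity
  have hR : 0 ≤ 2 * C₀ * (q : ℝ) ^ (3 / 4 + ε) * (Nat.gcd v.val q : ℝ) ^ (1 / 4 : ℝ) := by positivity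
  have hgoal : ‖S u v‖ ^ 4 ≤ (2 * C₀ * (q : ℝ) ^ (3 / 4 + ε) * (Nat.gcd v.val q : ℝ) ^ (1 / 4 : ℝ)) ^ 4 := by
    have e1 : ((q : ℝ) ^ (3 / 4 + ε)) ^ 4 = (q : ℝ) ^ 3 * ((q : ℝ) ^ (4 * ε / 3)) ^ 3 := by
      rw [← Real.rpow_natCast, ← Real.rpow_mul hq'.le, ← Real.rpow_natCast ((q : ℝ) ^ (4 * ε / 3)),
        ← Real.rpow_mul hq'.le, ← Real.rpow_natCast (q : ℝ) 3, ← Real.rpow_add hq']
      congr 1
      push_cast
      ring
    have e2 : ((Nat.gcd v.val q : ℝ) ^ (1 / 4 : ℝ)) ^ 4 = Nat.gcd v.val q := by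
      rw [← Real.rpow_natCast, ← Real.rpow_mul hg]
      norm_num
    rw [mul_pow, mul_pow, e1, e2]
    calc ‖S u v‖ ^ 4 ≤ 2 * (Nat.gcd v.val q : ℝ) * (q : ℝ) ^ 3 * (q.divisors.card : ℝ) ^ 3 := hS
      _ ≤ 2 * (Nat.gcd v.val q : ℝ) * (q : ℝ) ^ 3 * (C₀ * (q : ℝ) ^ (4 * ε / 3)) ^ 3 := by gcongr
      _ = (2 * C₀ ^ 3) * ((q : ℝ) ^ 3 * ((q : ℝ) ^ (4 * ε / 3)) ^ 3) * (Nat.gcd v.val q : ℝ) := by ring
      _ ≤ (2 * C₀) ^ 4 * ((q : ℝ) ^ 3 * ((q : ℝ) ^ (4 * ε / 3)) ^ 3) * (Nat.gcd v.val q : ℝ) := by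
          gcongr
          nlinarith [pow_pos (by linarith : 0 < C₀) 3]
  exact le_of_pow_le_pow_left₀ (by norm_num) hR hgoal

end Pool.Agent.P07318f
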