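import Mathlib

/-!
# Kusmin-Landau inequality

PROOF. Let `d n = f (n+1) - f n - k ∈ [θ, 1-θ]`, monotone. With `g n = 1 / (1 - e(d n)) = 1/2 + (i/2) cot(π d n)` one has
`e(f n) = (e(f n) - e(f (n+1))) g n`. Abel summation; `cot` is monotone on `(0, π)`, so the sum of the `|g n - g(n-1)|`
telescopes.
-/

set_option autoImplicit false

namespace Pool.Agent.P07318f

open Complex

namespace KusLanAux

/-- `cot (π d)`. -/
noncomputable def ct (d : ℝ) : ℝ := Real.cos (Real.pi * d) / Real.sin (Real.pi * d)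

/-- `1 / (1 - e(d))`. -/
noncomputable def gg (d : ℝ) : ℂ := 1 / 2 + I / 2 * (ct d : ℂ)

lemma sin_ge {θ d : ℝ} (h1 : θ ≤ d) (h2 : d ≤ 1 - θ) (h0 : 0 < θ) : 2 * θ ≤ Real.sin (Real.pi * d) := by
  have hpi := Real.pi_pos
  rcases le_or_gt d (1 / 2) with h | h
  · have h3 := Real.mul_le_sin (x := Real.pi * d) (by nlinarith) (by nlinarith)
    have h4 : 2 / Real.pi * (Real.pi * d) = 2 * d := by field_simp
    rw [h4] at h3
    linarith
  · have h3 := Real.mul_le_sin (x := Real.pi * (1 - d)) (by nlinarith) (by nlinarith)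
    have h4 : 2 / Real.pi * (Real.pi * (1 - d)) = 2 * (1 - d) := by field_simp
    have h5 : Real.sin (Real.pi * (1 - d)) = Real.sin (Real.pi * d) := by
      rw [mul_sub, mul_one, Real.sin_pi_sub]
    rw [h4, h5] at h3
    linarith

lemma ct_abs {θ d : ℝ} (h1 : θ ≤ d) (h2 : d ≤ 1 - θ) (h0 : 0 < θ) : |ct d| ≤ 1 / (2 * θ) := by
  have h3 := sin_ge h1 h2 h0
  have h4 : 0 < Real.sin (Real.pi * d) := by linarith
  unfold ct
  rw [abs_div, abs_of_pos h4, div_le_div_iff₀ h4 (by linarith)]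
  have := Real.abs_cos_le_one (Real.pi * d)
  nlinarith [abs_nonneg (Real.cos (Real.pi * d))]

lemma ct_anti {θ d e : ℝ} (h1 : θ ≤ d) (hde : d ≤ e) (h2 : e ≤ 1 - θ) (h0 : 0 < θ) : ct e ≤ ct d := by
  have h3 := sin_ge h1 (by linarith) h0
  have h4 := sin_ge (d := e) (by linarith) h2 h0
  have hpi := Real.pi_pos
  have h5 : 0 < Real.sin (Real.pi * d) := by linarith
  have h6 : 0 < Real.sin (Real.pi * e) := by linarith
  have h7 : 0 ≤ Real.sin (Real.pi * e - Real.pi * d) := by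
    apply Real.sin_nonneg_of_nonneg_of_le_pi
    · nlinarith
    · nlinarith
  rw [Real.sin_sub] at h7
  unfold ct
  rw [div_le_div_iff₀ h6 h5]
  nlinarith

lemma gg_norm {θ d : ℝ} (h1 : θ ≤ d) (h2 : d ≤ 1 - θ) (h0 : 0 < θ) (hθ2 : θ ≤ 1 / 2) :
    ‖gg d‖ ≤ 1 / (2 * θ) := by
  unfold gg
  refine (norm_add_le _ _).trans ?_
  have h3 := ct_abs h1 h2 h0
  rw [norm_mul, norm_div, norm_div, Complex.norm_real, Real.norm_eq_abs, Complex.norm_I]
  have h4 : (1:ℝ) ≤ 1 / (2 * θ) := by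
    rw [le_div_iff₀ (by linarith)]
    linarith
  simp only [norm_one, Complex.norm_ofNat]
  linarith

lemma gg_mul {θ d : ℝ} (h1 : θ ≤ d) (h2 : d ≤ 1 - θ) (h0 : 0 < θ) :
    (1 - cexp (2 * Real.pi * I * (d : ℂ))) * gg d = 1 := by
  have h3 := sin_ge h1 h2 h0
  have h4 : (Real.sin (Real.pi * d)) ≠ 0 := by linarith
  have h5 : ((Real.sin (Real.pi * d) : ℝ) : ℂ) ≠ 0 := by exact_mod_cast h4
  have h6 : cexp (2 * Real.pi * I * (d : ℂ)) =
      (((Real.cos (Real.pi * d) : ℝ) : ℂ) + ((Real.sin (Real.pi * d) : ℝ) : ℂ) * I) ^ 2 := by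
    rw [show (2 * Real.pi * I * (d : ℂ)) = ((2 : ℕ) : ℂ) * (((Real.pi * d : ℝ) : ℂ) * I) by
      push_cast; ring, Complex.exp_nat_mul, Complex.exp_mul_I, ← Complex.ofReal_cos,
      ← Complex.ofReal_sin]
  have h7 : ((Real.cos (Real.pi * d) : ℝ) : ℂ) ^ 2 + ((Real.sin (Real.pi * d) : ℝ) : ℂ) ^ 2 = 1 := by
    exact_mod_cast Real.cos_sq_add_sin_sq (Real.pi * d)
  rw [h6]
  unfold gg ct
  rw [Complex.ofReal_div]
  set c : ℂ := ((Real.cos (Real.pi * d) : ℝ) : ℂ)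
  set s : ℂ := ((Real.sin (Real.pi * d) : ℝ) : ℂ)
  have hI : I ^ 2 = -1 := Complex.I_sq
  field_simp
  have e1 : (1 - (c + s * I) ^ 2) * (s + c * I) = 2 * s * (c ^ 2 + s ^ 2) +
      (s + c * I) * (1 - (c ^ 2 + s ^ 2)) := by
    linear_combination (-2 * c ^ 2 * s - s ^ 3 - c * s ^ 2 * I) * hI
  rw [e1, h7]
  ring

lemma incr (f : ℕ → ℝ) (a : ℕ) (θ : ℝ) (k : ℤ) (hθ : 0 < θ) (N : ℕ)
    (hmono : ∀ n, a ≤ n → n + 1 < a + (N + 1) → f (n + 1) - f n ≤ f (n + 1 + 1) - f (n + 1))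
    (hd : ∀ n, a ≤ n → n < a + (N + 1) → θ ≤ f (n + 1) - f n - k ∧ f (n + 1) - f n - k ≤ 1 - θ) :
    ∃ R : ℂ, ‖R‖ ≤ (ct (f (a + 1) - f a - k) - ct (f (a + N + 1) - f (a + N) - k)) / 2 ∧
      ∑ n ∈ Finset.Icc a (a + N), cexp (2 * Real.pi * I * (f n : ℂ)) =
        cexp (2 * Real.pi * I * (f a : ℂ)) * gg (f (a + 1) - f a - k) -
        cexp (2 * Real.pi * I * (f (a + N + 1) : ℂ)) * gg (f (a + N + 1) - f (a + N) - k) + R := by
  have key : ∀ n, a ≤ n → n < a + (N + 1) → cexp (2 * Real.pi * I * (f n : ℂ)) =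
      cexp (2 * Real.pi * I * (f n : ℂ)) * gg (f (n + 1) - f n - k) -
      cexp (2 * Real.pi * I * (f (n + 1) : ℂ)) * gg (f (n + 1) - f n - k) := by
    intro n h1 h2
    obtain ⟨h3, h4⟩ := hd n h1 h2
    have h5 := gg_mul h3 h4 hθ
    have h6 : cexp (2 * Real.pi * I * (f (n + 1) : ℂ)) = cexp (2 * Real.pi * I * (f n : ℂ)) *
        cexp (2 * Real.pi * I * ((f (n + 1) - f n - k : ℝ) : ℂ)) := by
      rw [← Complex.exp_add, Complex.exp_eq_exp_iff_exists_int]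
      exact ⟨k, by push_cast; ring⟩
    rw [h6]
    linear_combination (-cexp (2 * Real.pi * I * (f n : ℂ))) * h5
  induction N with
  | zero =>
    refine ⟨0, by simp, ?_⟩
    simp only [Finset.Icc_self, Finset.sum_singleton, add_zero]
    exact key a le_rfl (by omega)
  | succ N ih =>
    obtain ⟨R, hR, hs⟩ := ih (fun n h1 h2 => hmono n h1 (by omega)) (fun n h1 h2 => hd n h1 (by omega))
      (fun n h1 h2 => key n h1 (by omega))
    rw [show a + (N + 1) = a + N + 1 by ring] at *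
    have hk := key (a + N + 1) (by omega) (by omega)
    rw [Finset.sum_Icc_succ_top (by omega), hs]
    refine ⟨R + cexp (2 * Real.pi * I * (f (a + N + 1) : ℂ)) *
      (gg (f (a + N + 1 + 1) - f (a + N + 1) - k) - gg (f (a + N + 1) - f (a + N) - k)), ?_, by
        linear_combination hk⟩
    refine (norm_add_le _ _).trans ?_
    rw [norm_mul]
    have h1 : ‖cexp (2 * Real.pi * I * (f (a + N + 1) : ℂ))‖ = 1 := by
      rw [show (2 * Real.pi * I * (f (a + N + 1) : ℂ)) = ((2 * Real.pi * f (a + N + 1) : ℝ) : ℂ) * I by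
        push_cast; ring]
      exact Complex.norm_exp_ofReal_mul_I _
    obtain ⟨h2, h3⟩ := hd (a + N) (by omega) (by omega)
    obtain ⟨h4, h5⟩ := hd (a + N + 1) (by omega) (by omega)
    have h6 := hmono (a + N) (by omega) (by omega)
    have h7 := ct_anti h2 (by linarith) h5 hθ
    have h8 : ‖gg (f (a + N + 1 + 1) - f (a + N + 1) - k) - gg (f (a + N + 1) - f (a + N) - k)‖ ≤
        (ct (f (a + N + 1) - f (a + N) - k) - ct (f (a + N + 1 + 1) - f (a + N + 1) - k)) / 2 := by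
      unfold gg
      have h9 : (1 / 2 + I / 2 * (ct (f (a + N + 1 + 1) - f (a + N + 1) - k) : ℂ)) -
          (1 / 2 + I / 2 * (ct (f (a + N + 1) - f (a + N) - k) : ℂ)) = I / 2 *
          ((ct (f (a + N + 1 + 1) - f (a + N + 1) - k) - ct (f (a + N + 1) - f (a + N) - k) : ℝ) : ℂ) := by
        push_cast; ring
      rw [h9, norm_mul, norm_div, Complex.norm_I, Complex.norm_real, Real.norm_eq_abs, abs_sub_comm,
        abs_of_nonneg (by linarith)]
      simp only [Complex.norm_ofNat]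
      linarith
    rw [h1, one_mul]
    linarith

lemma incr_bound (f : ℕ → ℝ) (a b : ℕ) (θ : ℝ) (k : ℤ) (hθ : 0 < θ) (hθ2 : θ ≤ 1 / 2)
    (hmono : ∀ m n, a ≤ m → m ≤ n → n < b → f (m + 1) - f m ≤ f (n + 1) - f n)
    (hd : ∀ n, a ≤ n → n < b → θ ≤ f (n + 1) - f n - k ∧ f (n + 1) - f n - k ≤ 1 - θ) :
    ‖∑ n ∈ Finset.Icc a b, cexp (2 * Real.pi * I * (f n : ℂ))‖ ≤ 4 / θ := by
  have hone : ∀ x : ℝ, ‖cexp (2 * Real.pi * I * (x : ℂ))‖ = 1 := by
    intro x
    rw [show (2 * Real.pi * I * (x : ℂ)) = ((2 * Real.pi * x : ℝ) : ℂ) * I by push_cast; ring]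
    exact Complex.norm_exp_ofReal_mul_I _
  have h1 : (1:ℝ) ≤ 1 / (2 * θ) := by
    rw [le_div_iff₀ (by linarith)]
    linarith
  have h4θ : 4 / θ = 8 * (1 / (2 * θ)) := by field_simp; norm_num
  rcases lt_trichotomy b a with h | h | h
  · rw [Finset.Icc_eq_empty (by omega), Finset.sum_empty, norm_zero]
    positivity
  · subst h
    rw [Finset.Icc_self, Finset.sum_singleton, hone, h4θ]
    linarith
  · obtain ⟨N, rfl⟩ : ∃ N, b = a + N + 1 := ⟨b - a - 1, by omega⟩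
    obtain ⟨R, hR, hs⟩ := incr f a θ k hθ N (fun n h1 h2 => hmono n (n + 1) h1 (by omega) (by omega))
      (fun n h1 h2 => hd n h1 (by omega))
    rw [Finset.sum_Icc_succ_top (by omega), hs]
    obtain ⟨h2, h3⟩ := hd a (by omega) (by omega)
    obtain ⟨h4, h5⟩ := hd (a + N) (by omega) (by omega)
    have h6 := gg_norm h2 h3 hθ hθ2
    have h7 := gg_norm h4 h5 hθ hθ2
    have h8 := ct_abs h2 h3 hθ
    have h9 := ct_abs h4 h5 hθ
    have h10 := abs_le.1 h8
    have h11 := abs_le.1 h9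
    refine (norm_add_le _ _).trans ?_
    have h12 := norm_add_le (cexp (2 * Real.pi * I * (f a : ℂ)) * gg (f (a + 1) - f a - k) -
        cexp (2 * Real.pi * I * (f (a + N + 1) : ℂ)) * gg (f (a + N + 1) - f (a + N) - k)) R
    have h13 := norm_sub_le (cexp (2 * Real.pi * I * (f a : ℂ)) * gg (f (a + 1) - f a - k))
        (cexp (2 * Real.pi * I * (f (a + N + 1) : ℂ)) * gg (f (a + N + 1) - f (a + N) - k))
    rw [norm_mul, norm_mul, hone, hone, one_mul, one_mul] at h13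
    rw [hone, h4θ]
    linarith [h10.1, h10.2, h11.1, h11.2]

end KusLanAux

theorem kusmin_landau (f : ℕ → ℝ) (a b : ℕ) (θ : ℝ) (k : ℤ) (hθ : 0 < θ) (hθ2 : θ ≤ 1 / 2)
    (hmono : (∀ m n, a ≤ m → m ≤ n → n < b → f (m + 1) - f m ≤ f (n + 1) - f n) ∨
      (∀ m n, a ≤ m → m ≤ n → n < b → f (n + 1) - f n ≤ f (m + 1) - f m))
    (hd : ∀ n, a ≤ n → n < b → θ ≤ f (n + 1) - f n - k ∧ f (n + 1) - f n - k ≤ 1 - θ) :
    ‖∑ n ∈ Finset.Icc a b, cexp (2 * Real.pi * I * (f n : ℂ))‖ ≤ 4 / θ := by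
  rcases hmono with h | h
  · exact KusLanAux.incr_bound f a b θ k hθ hθ2 h hd
  · have h1 := KusLanAux.incr_bound (fun n => - f n) a b θ (-k - 1) hθ hθ2
      (fun m n h1 h2 h3 => by have := h m n h1 h2 h3; linarith)
      (fun n h1 h2 => by
        obtain ⟨h3, h4⟩ := hd n h1 h2
        push_cast
        constructor <;> linarith)
    have h2 : ∑ n ∈ Finset.Icc a b, cexp (2 * Real.pi * I * (f n : ℂ)) =
        (starRingEnd ℂ) (∑ n ∈ Finset.Icc a b, cexp (2 * Real.pi * I * ((- f n : ℝ) : ℂ))) := by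
      rw [map_sum]
      refine Finset.sum_congr rfl fun n _ => ?_
      rw [← Complex.exp_conj]
      congr 1
      simp only [map_mul, Complex.conj_ofReal, Complex.conj_I]
      have : (starRingEnd ℂ) (2 : ℂ) = 2 := Complex.conj_ofReal 2
      rw [this]
      push_cast
      ring
    rw [h2, RCLike.norm_conj]
    exact h1

end Pool.Agent.P07318f
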