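import Pool.Agent.Lib.P07318f.KusLan

/-!
# van der Corput's second derivative test for `n ^ (iτ)`

Conjugation reduces to `τ ≥ 1`. Let `c = τ / 2π`. If `c > N^2` the trivial bound `N ≤ τ^(1/2)` is enough. Let
`f n = c log n`. The increments `δ n` are decreasing, in `(0, c/N]`, and `δ n - δ (n+1) ≥ c/(n+1)^2 ≥ c/(4 N^2) =: λ`. Let `Δ = λ^(1/2)`.
For each `k = ⌊δ n⌋` the `n` with `δ n` within `Δ` of an integer are at most `2 (Δ/λ + 1)`; the remaining ones form an interval, to which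
`kusmin_landau` applies.
-/

set_option autoImplicit false

namespace Pool.Agent.P07318f

open Complex

namespace VdcTwoAux

/-- the increments of `c log n` -/
noncomputable def dl (c : ℝ) (n : ℕ) : ℝ := c * Real.log ((n + 1 : ℕ) : ℝ) - c * Real.log (n : ℝ)

theorem dl_pos {c : ℝ} (hc : 0 < c) {n : ℕ} (hn : 1 ≤ n) : 0 < dl c n := by
  unfold dl
  have h0 : (0 : ℝ) < n := by exact_mod_cast hn
  have h1 : Real.log (n : ℝ) < Real.log ((n + 1 : ℕ) : ℝ) := by
    apply Real.log_lt_log h0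
    push_cast
    linarith
  nlinarith

theorem dl_le {c : ℝ} (hc : 0 < c) {n : ℕ} (hn : 1 ≤ n) : dl c n ≤ c / n := by
  unfold dl
  have h0 : (0 : ℝ) < n := by exact_mod_cast hn
  have h1 : Real.log ((n + 1 : ℕ) : ℝ) - Real.log (n : ℝ) ≤ 1 / n := by
    rw [← Real.log_div (by positivity) h0.ne']
    have h2 := Real.log_le_sub_one_of_pos (x := ((n + 1 : ℕ) : ℝ) / n) (by positivity)
    have h3 : ((n + 1 : ℕ) : ℝ) / n - 1 = 1 / n := by
      push_cast
      field_simp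
      ring
    linarith
  calc c * Real.log ((n + 1 : ℕ) : ℝ) - c * Real.log (n : ℝ) =
      c * (Real.log ((n + 1 : ℕ) : ℝ) - Real.log (n : ℝ)) := by ring
    _ ≤ c * (1 / n) := by gcongr
    _ = c / n := by ring

theorem dl_step {c : ℝ} (hc : 0 < c) {n : ℕ} (hn : 1 ≤ n) :
    c / ((n + 1 : ℕ) : ℝ) ^ 2 ≤ dl c n - dl c (n + 1) := by
  unfold dl
  have h0 : (0 : ℝ) < n := by exact_mod_cast hn
  have h1 : (0 : ℝ) < ((n + 1 : ℕ) : ℝ) := by positivity
  have h2 : (0 : ℝ) < ((n + 1 + 1 : ℕ) : ℝ) := by positivity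
  have h3 := Real.one_sub_inv_le_log_of_pos
    (x := ((n + 1 : ℕ) : ℝ) ^ 2 / ((n : ℝ) * ((n + 1 + 1 : ℕ) : ℝ))) (by positivity)
  rw [Real.log_div (by positivity) (by positivity), Real.log_pow,
    Real.log_mul h0.ne' h2.ne'] at h3
  have h4 : 1 - (((n + 1 : ℕ) : ℝ) ^ 2 / ((n : ℝ) * ((n + 1 + 1 : ℕ) : ℝ)))⁻¹ =
      1 / ((n + 1 : ℕ) : ℝ) ^ 2 := by
    push_cast
    field_simp
    ring
  rw [h4] at h3
  calc c / ((n + 1 : ℕ) : ℝ) ^ 2 = c * (1 / ((n + 1 : ℕ) : ℝ) ^ 2) := by ring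
    _ ≤ c * ((2 : ℕ) * Real.log ((n + 1 : ℕ) : ℝ) -
        (Real.log (n : ℝ) + Real.log ((n + 1 + 1 : ℕ) : ℝ))) := by gcongr
    _ = _ := by
        push_cast
        ring

theorem dl_sub {c : ℝ} (hc : 0 < c) {N a b : ℕ} (ha : 1 ≤ a) (hab : a ≤ b) (hb : b ≤ 2 * N) :
    (c / (4 * (N : ℝ) ^ 2)) * ((b : ℝ) - a) ≤ dl c a - dl c b := by
  induction b, hab using Nat.le_induction with
  | base => simp
  | succ b hab ih =>
    have h1 := ih (by omega)
    have h2 := dl_step hc (n := b) (by omega)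
    have hN : (0 : ℝ) < N := by
      have : 0 < N := by omega
      exact_mod_cast this
    have h3 : c / (4 * (N : ℝ) ^ 2) ≤ c / ((b + 1 : ℕ) : ℝ) ^ 2 := by
      have h4 : ((b + 1 : ℕ) : ℝ) ≤ 2 * N := by exact_mod_cast hb
      have h5 : (0 : ℝ) < ((b + 1 : ℕ) : ℝ) := by positivity
      apply div_le_div_of_nonneg_left hc.le (by positivity)
      calc ((b + 1 : ℕ) : ℝ) ^ 2 ≤ (2 * N) ^ 2 := by gcongr
        _ = 4 * (N : ℝ) ^ 2 := by ring
    have h6 : (c / (4 * (N : ℝ) ^ 2)) * (((b + 1 : ℕ) : ℝ) - a) =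
        (c / (4 * (N : ℝ) ^ 2)) * ((b : ℝ) - a) + c / (4 * (N : ℝ) ^ 2) := by
      push_cast
      ring
    rw [h6]
    linarith

theorem dl_anti {c : ℝ} (hc : 0 < c) {N a b : ℕ} (ha : 1 ≤ a) (hab : a ≤ b) (hb : b ≤ 2 * N) :
    dl c b ≤ dl c a := by
  have h1 := dl_sub hc ha hab hb
  have h2 : (0 : ℝ) ≤ (b : ℝ) - a := by
    have : (a : ℝ) ≤ b := by exact_mod_cast hab
    linarith
  have h3 : 0 ≤ (c / (4 * (N : ℝ) ^ 2)) * ((b : ℝ) - a) := by positivity
  linarith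

theorem card_le {c : ℝ} (hc : 0 < c) {N : ℕ} (hN : 1 ≤ N) (T : Finset ℕ) (u L : ℝ) (hL : 0 ≤ L)
    (hT : ∀ n ∈ T, 1 ≤ n ∧ n ≤ 2 * N ∧ u ≤ dl c n ∧ dl c n ≤ u + L) :
    (T.card : ℝ) ≤ L / (c / (4 * (N : ℝ) ^ 2)) + 1 := by
  have hN0 : (0 : ℝ) < N := by exact_mod_cast hN
  have hl : 0 < c / (4 * (N : ℝ) ^ 2) := by positivity
  rcases T.eq_empty_or_nonempty with h | h
  · rw [h]
    simp only [Finset.card_empty, Nat.cast_zero]
    positivity
  · have ha := hT _ (T.min'_mem h)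
    have hb := hT _ (T.max'_mem h)
    have hab : T.min' h ≤ T.max' h := T.min'_le _ (T.max'_mem h)
    have h1 := dl_sub hc ha.1 hab hb.2.1
    have h2 : T.card ≤ T.max' h + 1 - T.min' h := by
      have h3 : T ⊆ Finset.Icc (T.min' h) (T.max' h) := fun x hx =>
        Finset.mem_Icc.2 ⟨T.min'_le _ hx, T.le_max' _ hx⟩
      have h4 := Finset.card_le_card h3
      rwa [Nat.card_Icc] at h4
    have h5 : (T.card : ℝ) ≤ (T.max' h : ℝ) + 1 - (T.min' h : ℝ) := by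
      have h6 : T.card + T.min' h ≤ T.max' h + 1 := by omega
      have h7 : (T.card : ℝ) + (T.min' h : ℝ) ≤ (T.max' h : ℝ) + 1 := by exact_mod_cast h6
      linarith
    have h8 : (T.max' h : ℝ) - (T.min' h : ℝ) ≤ L / (c / (4 * (N : ℝ) ^ 2)) := by
      rw [le_div_iff₀ hl]
      linarith [ha.2.2.2, hb.2.2.1]
    linarith

theorem eq_Icc (M : Finset ℕ) (h : M.Nonempty)
    (hM : ∀ x ∈ M, ∀ y ∈ M, ∀ z, x ≤ z → z ≤ y → z ∈ M) :
    M = Finset.Icc (M.min' h) (M.max' h) := by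
  ext z
  rw [Finset.mem_Icc]
  constructor
  · intro hz
    exact ⟨M.min'_le _ hz, M.le_max' _ hz⟩
  · rintro ⟨h1, h2⟩
    exact hM _ (M.min'_mem h) _ (M.max'_mem h) z h1 h2

theorem core {c : ℝ} (hc : 0 < c) {N N' : ℕ} (hN : 1 ≤ N) (hNN : N ≤ N') (h2 : N' ≤ 2 * N)
    (hcN : c ≤ (N : ℝ) ^ 2) :
    ‖∑ n ∈ Finset.Ioc N N', cexp (2 * Real.pi * I * ((c * Real.log (n : ℝ) : ℝ) : ℂ))‖ ≤
      14 * (Real.sqrt c + N / Real.sqrt c) := by
  have hN0 : (0 : ℝ) < N := by exact_mod_cast hN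
  obtain ⟨lam, hlam⟩ : ∃ lam, lam = c / (4 * (N : ℝ) ^ 2) := ⟨_, rfl⟩
  have hl0 : 0 < lam := by rw [hlam]; positivity
  obtain ⟨Δ, hΔ⟩ : ∃ Δ, Δ = Real.sqrt c / (2 * N) := ⟨_, rfl⟩
  have hsc : 0 < Real.sqrt c := Real.sqrt_pos.2 hc
  have hss : Real.sqrt c * Real.sqrt c = c := Real.mul_self_sqrt hc.le
  have hΔ0 : 0 < Δ := by rw [hΔ]; positivity
  have hscN : Real.sqrt c ≤ N := by
    rw [show (N : ℝ) = Real.sqrt ((N : ℝ) ^ 2) by rw [Real.sqrt_sq hN0.le]]
    exact Real.sqrt_le_sqrt hcN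
  have hΔ2 : Δ ≤ 1 / 2 := by
    rw [hΔ, div_le_div_iff₀ (by positivity) (by norm_num)]
    linarith
  have hΔl : Δ / lam = 1 / Δ := by
    rw [hΔ, hlam]
    field_simp
    nlinarith
  obtain ⟨K, hK⟩ : ∃ K, K = ⌊c / (N : ℝ)⌋₊ := ⟨_, rfl⟩
  have hmaps : ∀ n ∈ Finset.Ioc N N', ⌊dl c n⌋₊ ∈ Finset.range (K + 1) := by
    intro n hn
    rw [Finset.mem_Ioc] at hn
    rw [Finset.mem_range, hK, Nat.lt_succ_iff]
    apply Nat.floor_le_floor
    refine (dl_le hc (by omega)).trans ?_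
    apply div_le_div_of_nonneg_left hc.le hN0
    exact_mod_cast hn.1.le
  rw [← Finset.sum_fiberwise_of_maps_to hmaps]
  have hone : ∀ n : ℕ, ‖cexp (2 * Real.pi * I * ((c * Real.log (n : ℝ) : ℝ) : ℂ))‖ = 1 := by
    intro n
    rw [show (2 * Real.pi * I * ((c * Real.log (n : ℝ) : ℝ) : ℂ) : ℂ) =
      ((2 * Real.pi * (c * Real.log (n : ℝ)) : ℝ) : ℂ) * I by push_cast; ring]
    exact Complex.norm_exp_ofReal_mul_I _
  have hk : ∀ k ∈ Finset.range (K + 1),
      ‖∑ n ∈ (Finset.Ioc N N').filter (fun n => ⌊dl c n⌋₊ = k),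
        cexp (2 * Real.pi * I * ((c * Real.log (n : ℝ) : ℝ) : ℂ))‖ ≤ 14 * (N / Real.sqrt c) := by
    intro k _
    obtain ⟨S, hS⟩ : ∃ S, S = (Finset.Ioc N N').filter (fun n => ⌊dl c n⌋₊ = k) := ⟨_, rfl⟩
    have hSm : ∀ n ∈ S, N < n ∧ n ≤ N' ∧ (k : ℝ) ≤ dl c n ∧ dl c n < k + 1 := by
      intro n hn
      rw [hS, Finset.mem_filter, Finset.mem_Ioc] at hn
      have h3 := dl_pos hc (n := n) (by omega)
      have h4 := Nat.floor_le h3.le
      have h5 := Nat.lt_floor_add_one (dl c n)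
      rw [hn.2] at h4 h5
      exact ⟨hn.1.1, hn.1.2, h4, h5⟩
    have hSm' : ∀ n, N < n → n ≤ N' → (k : ℝ) ≤ dl c n → dl c n < k + 1 → n ∈ S := by
      intro n h3 h4 h5 h6
      rw [hS, Finset.mem_filter, Finset.mem_Ioc]
      refine ⟨⟨h3, h4⟩, ?_⟩
      rw [Nat.floor_eq_iff ((Nat.cast_nonneg k).trans h5)]
      exact ⟨h5, h6⟩
    rw [← hS]
    rw [← Finset.sum_filter_add_sum_filter_not S
      (fun n => (k : ℝ) + Δ ≤ dl c n ∧ dl c n ≤ k + 1 - Δ)]
    have hA : ‖∑ n ∈ S.filter (fun n => (k : ℝ) + Δ ≤ dl c n ∧ dl c n ≤ k + 1 - Δ),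
        cexp (2 * Real.pi * I * ((c * Real.log (n : ℝ) : ℝ) : ℂ))‖ ≤ 4 / Δ := by
      obtain ⟨M, hM⟩ : ∃ M, M = S.filter (fun n => (k : ℝ) + Δ ≤ dl c n ∧ dl c n ≤ k + 1 - Δ) :=
        ⟨_, rfl⟩
      rw [← hM]
      have hMm : ∀ n ∈ M, N < n ∧ n ≤ N' ∧ (k : ℝ) + Δ ≤ dl c n ∧ dl c n ≤ k + 1 - Δ := by
        intro n hn
        rw [hM, Finset.mem_filter] at hn
        have := hSm n hn.1
        exact ⟨this.1, this.2.1, hn.2.1, hn.2.2⟩
      rcases M.eq_empty_or_nonempty with h | h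
      · rw [h]
        simp only [Finset.sum_empty, norm_zero]
        positivity
      · have hint : ∀ x ∈ M, ∀ y ∈ M, ∀ z, x ≤ z → z ≤ y → z ∈ M := by
          intro x hx y hy z hxz hzy
          have h3 := hMm x hx
          have h4 := hMm y hy
          have h5 := dl_anti hc (N := N) (a := x) (b := z) (by omega) hxz (by omega)
          have h6 := dl_anti hc (N := N) (a := z) (b := y) (by omega) hzy (by omega)
          rw [hM, Finset.mem_filter]
          refine ⟨hSm' z (by omega) (by omega) (by linarith) (by linarith), by linarith, by linarith⟩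
        have hI := eq_Icc M h hint
        have ha := hMm _ (M.min'_mem h)
        have hb := hMm _ (M.max'_mem h)
        obtain ⟨a, haa⟩ : ∃ a, a = M.min' h := ⟨_, rfl⟩
        obtain ⟨b, hbb⟩ : ∃ b, b = M.max' h := ⟨_, rfl⟩
        rw [← haa] at ha hI
        rw [← hbb] at hb hI
        rw [hI]
        have hkl := kusmin_landau (fun n => c * Real.log (n : ℝ)) a b Δ (k : ℤ) hΔ0 hΔ2
          (Or.inr (by
            intro m n ham hmn hnb
            exact dl_anti hc (N := N) (a := m) (b := n) (by omega) hmn (by omega)))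
          (by
            intro n han hnb
            have h3 : n ∈ M := by
              rw [hI, Finset.mem_Icc]
              omega
            have h4 := hMm n h3
            unfold dl at h4
            simp only [Int.cast_natCast]
            constructor
            · linarith [h4.2.2.1]
            · linarith [h4.2.2.2])
        exact hkl
    have hB : ‖∑ n ∈ S.filter (fun n => ¬ ((k : ℝ) + Δ ≤ dl c n ∧ dl c n ≤ k + 1 - Δ)),
        cexp (2 * Real.pi * I * ((c * Real.log (n : ℝ) : ℝ) : ℂ))‖ ≤ 2 * (Δ / lam + 1) := by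
      refine (norm_sum_le _ _).trans ?_
      rw [Finset.sum_congr rfl fun n _ => hone n]
      rw [Finset.sum_const, nsmul_eq_mul, mul_one]
      have hsub : S.filter (fun n => ¬ ((k : ℝ) + Δ ≤ dl c n ∧ dl c n ≤ k + 1 - Δ)) ⊆
          S.filter (fun n => dl c n ≤ k + Δ) ∪ S.filter (fun n => (k : ℝ) + 1 - Δ ≤ dl c n) := by
        intro n hn
        rw [Finset.mem_filter] at hn
        rw [Finset.mem_union, Finset.mem_filter, Finset.mem_filter]
        by_cases h3 : (k : ℝ) + Δ ≤ dl c n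
        · right
          refine ⟨hn.1, ?_⟩
          by_contra h4
          push Not at h4
          exact hn.2 ⟨h3, h4.le⟩
        · left
          push Not at h3
          exact ⟨hn.1, h3.le⟩
      have h3 := (Finset.card_le_card hsub).trans (Finset.card_union_le _ _)
      have h4 := card_le hc hN (S.filter (fun n => dl c n ≤ k + Δ)) k Δ hΔ0.le (by
        intro n hn
        rw [Finset.mem_filter] at hn
        have h5 := hSm n hn.1
        exact ⟨by omega, by omega, h5.2.2.1, hn.2⟩)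
      have h6 := card_le hc hN (S.filter (fun n => (k : ℝ) + 1 - Δ ≤ dl c n)) (k + 1 - Δ) Δ hΔ0.le
        (by
          intro n hn
          rw [Finset.mem_filter] at hn
          have h5 := hSm n hn.1
          exact ⟨by omega, by omega, hn.2, by linarith [h5.2.2.2]⟩)
      rw [← hlam] at h4 h6
      have h7 : ((S.filter (fun n => ¬ ((k : ℝ) + Δ ≤ dl c n ∧ dl c n ≤ k + 1 - Δ))).card : ℝ) ≤
          ((S.filter (fun n => dl c n ≤ k + Δ)).card : ℝ) +
          ((S.filter (fun n => (k : ℝ) + 1 - Δ ≤ dl c n)).card : ℝ) := by exact_mod_cast h3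
      linarith
    refine (norm_add_le _ _).trans ((add_le_add hA hB).trans ?_)
    rw [hΔl]
    have h3 : 1 / Δ = 2 * (N / Real.sqrt c) := by
      rw [hΔ]
      field_simp
    have h4 : 4 / Δ = 8 * (N / Real.sqrt c) := by
      rw [show (4 : ℝ) / Δ = 4 * (1 / Δ) by ring, h3]
      ring
    have h5 : 1 ≤ N / Real.sqrt c := by
      rw [le_div_iff₀ hsc]
      linarith
    rw [h3, h4]
    linarith
  refine (norm_sum_le _ _).trans ((Finset.sum_le_sum hk).trans ?_)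
  rw [Finset.sum_const, Finset.card_range, nsmul_eq_mul]
  have h3 : ((K + 1 : ℕ) : ℝ) ≤ c / N + 1 := by
    push_cast
    have : (K : ℝ) ≤ c / N := by
      rw [hK]
      exact Nat.floor_le (by positivity)
    linarith
  have h4 : 0 ≤ 14 * (N / Real.sqrt c) := by positivity
  calc ((K + 1 : ℕ) : ℝ) * (14 * (N / Real.sqrt c)) ≤ (c / N + 1) * (14 * (N / Real.sqrt c)) := by
        gcongr
    _ = 14 * (Real.sqrt c + N / Real.sqrt c) := by
        have h5 : c / N * (N / Real.sqrt c) = Real.sqrt c := by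
          field_simp
          nlinarith
        calc (c / N + 1) * (14 * (N / Real.sqrt c)) =
            14 * (c / N * (N / Real.sqrt c) + N / Real.sqrt c) := by ring
          _ = _ := by rw [h5]

theorem cpow_eq {n : ℕ} (hn : 1 ≤ n) (τ : ℝ) :
    ((n : ℝ) : ℂ) ^ ((τ : ℂ) * I) = cexp (((τ * Real.log (n : ℝ) : ℝ) : ℂ) * I) := by
  have h0 : (0 : ℝ) < n := by exact_mod_cast hn
  have h1 : ((n : ℝ) : ℂ) ≠ 0 := by
    rw [Ne, Complex.ofReal_eq_zero]
    exact h0.ne'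
  rw [Complex.cpow_def_of_ne_zero h1, ← Complex.ofReal_log h0.le]
  congr 1
  push_cast
  ring

theorem pos_case (N N' : ℕ) (τ : ℝ) (hN : 1 ≤ N) (hNN : N ≤ N') (h2 : N' ≤ 2 * N) (hτ : 1 ≤ τ) :
    ‖∑ n ∈ Finset.Ioc N N', ((n : ℝ) : ℂ) ^ ((τ : ℂ) * I)‖ ≤
      42 * (τ ^ (1 / 2 : ℝ) + N * τ ^ (-(1 / 2) : ℝ)) := by
  have hτ0 : 0 < τ := by linarith
  have hN0 : (0 : ℝ) < N := by exact_mod_cast hN
  have hpi := Real.pi_pos
  have hpi3 := Real.pi_gt_three
  have hpi4 := Real.pi_le_four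
  obtain ⟨c, hc⟩ : ∃ c, c = τ / (2 * Real.pi) := ⟨_, rfl⟩
  have hc0 : 0 < c := by rw [hc]; positivity
  have hs1 : τ ^ (1 / 2 : ℝ) = Real.sqrt τ := (Real.sqrt_eq_rpow τ).symm
  have hs2 : τ ^ (-(1 / 2) : ℝ) = 1 / Real.sqrt τ := by
    rw [Real.rpow_neg hτ0.le, hs1, one_div]
  have hst : 0 < Real.sqrt τ := Real.sqrt_pos.2 hτ0
  rw [hs1, hs2]
  rcases le_or_gt c ((N : ℝ) ^ 2) with hcN | hcN
  · have h3 := core hc0 hN hNN h2 hcN
    have h4 : ∑ n ∈ Finset.Ioc N N', ((n : ℝ) : ℂ) ^ ((τ : ℂ) * I) =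
        ∑ n ∈ Finset.Ioc N N', cexp (2 * Real.pi * I * ((c * Real.log (n : ℝ) : ℝ) : ℂ)) := by
      refine Finset.sum_congr rfl fun n hn => ?_
      rw [Finset.mem_Ioc] at hn
      rw [cpow_eq (by omega), hc]
      congr 1
      push_cast
      field_simp
    rw [h4]
    refine h3.trans ?_
    have hsc : 0 < Real.sqrt c := Real.sqrt_pos.2 hc0
    have h5 : Real.sqrt c ≤ Real.sqrt τ := by
      apply Real.sqrt_le_sqrt
      rw [hc]
      exact div_le_self hτ0.le (by linarith)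
    have h6 : Real.sqrt τ ≤ 3 * Real.sqrt c := by
      rw [show (3 : ℝ) * Real.sqrt c = Real.sqrt (9 * c) by
        rw [Real.sqrt_mul (by norm_num), show (9 : ℝ) = 3 ^ 2 by norm_num,
          Real.sqrt_sq (by norm_num)]]
      apply Real.sqrt_le_sqrt
      rw [hc, mul_div_assoc', le_div_iff₀ (by positivity)]
      nlinarith
    have h7 : (N : ℝ) / Real.sqrt c ≤ 3 * (N * (1 / Real.sqrt τ)) := by
      rw [div_le_iff₀ hsc]
      have h8 : 1 / Real.sqrt τ * Real.sqrt τ = 1 := by field_simp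
      have h9 : 0 < 1 / Real.sqrt τ := by positivity
      nlinarith [mul_le_mul_of_nonneg_left h6 (mul_pos hN0 h9).le]
    nlinarith
  · have h3 : ‖∑ n ∈ Finset.Ioc N N', ((n : ℝ) : ℂ) ^ ((τ : ℂ) * I)‖ ≤ N := by
      refine (norm_sum_le _ _).trans ?_
      calc ∑ n ∈ Finset.Ioc N N', ‖((n : ℝ) : ℂ) ^ ((τ : ℂ) * I)‖ =
          ∑ n ∈ Finset.Ioc N N', 1 := by
            refine Finset.sum_congr rfl fun n hn => ?_
            rw [Finset.mem_Ioc] at hn
            rw [cpow_eq (by omega), Complex.norm_exp_ofReal_mul_I]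
        _ = ((N' - N : ℕ) : ℝ) := by simp
        _ ≤ N := by exact_mod_cast (by omega : N' - N ≤ N)
    have h4 : (N : ℝ) ≤ Real.sqrt τ := by
      rw [show (N : ℝ) = Real.sqrt ((N : ℝ) ^ 2) by rw [Real.sqrt_sq hN0.le]]
      apply Real.sqrt_le_sqrt
      have h5 : c ≤ τ := by
        rw [hc]
        exact div_le_self hτ0.le (by linarith)
      linarith
    have h5 : 0 ≤ (N : ℝ) * (1 / Real.sqrt τ) := by positivity
    nlinarith

end VdcTwoAux

open VdcTwoAux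

theorem vdc_two : ∃ C : ℝ, 0 < C ∧ ∀ (N N' : ℕ) (τ : ℝ), 1 ≤ N → N ≤ N' → N' ≤ 2 * N → 1 ≤ |τ| →
    ‖∑ n ∈ Finset.Ioc N N', ((n : ℝ) : ℂ) ^ ((τ : ℂ) * I)‖ ≤
      C * (|τ| ^ (1 / 2 : ℝ) + N * |τ| ^ (-(1 / 2) : ℝ)) := by
  refine ⟨42, by norm_num, ?_⟩
  intro N N' τ hN hNN h2 hτ
  rcases le_or_gt 0 τ with h0 | h0
  · rw [abs_of_nonneg h0] at hτ ⊢
    exact pos_case N N' τ hN hNN h2 hτ
  · rw [abs_of_neg h0] at hτ ⊢
    have h3 := pos_case N N' (-τ) hN hNN h2 hτ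
    refine le_trans (le_of_eq ?_) h3
    rw [← Complex.norm_conj, map_sum]
    congr 1
    refine Finset.sum_congr rfl fun n hn => ?_
    rw [Finset.mem_Ioc] at hn
    rw [cpow_eq (by omega), cpow_eq (by omega), ← Complex.exp_conj]
    congr 1
    rw [map_mul, Complex.conj_ofReal, Complex.conj_I]
    push_cast
    ring

end Pool.Agent.P07318f
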