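import Pool.Agent.Lib.P07318s.AFE
import Pool.Agent.Lib.P07318d.Alt
import Pool.Agent.Lib.P07318f.VdcTwo
import Pool.Agent.Lib.P07318f.ZSum

/-!
# A subconvexity bound

PROOF. By `P07318d.eta_approx`, for `s = 1/2 + ix` and `m = 2^J`, `8x ≤ m ≤ 16x`, the function `(1 - 2 * 2^(-s)) ζ(s)` is
`∑_{n ≤ m} (-1)^(n-1) n^(-s) + O(m^(-1/2))`, and the alternating sum is `A m - 2 * 2^(-s) A (m/2)`, `A m = ∑_{n ≤ m} n^(-s)`.
Dyadic blocks `(N, 2N]`, `N ≤ 8x`; Abel summation bounds the block by `N^(-1/2) max_{N'} |∑_{N<n≤N'} n^(-ix)|`.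
CLAIM: for all `1 ≤ N ≤ 16x`, `N ≤ N' ≤ 2N` : `|∑_{N<m≤N'} m^(-ix)| ≤ C N^(1/2) x^(1/4 - c₁)`. Let `c₀` be the constant `c` of `zsum` with
`η = 1/8` and `U = x` (`τ = -x`), `c₁ = min(c₀,1/4)/8`. (i) `N ≤ x^(1/2-2c₁)`: trivial, `N ≤ N^(1/2) x^(1/4-c₁)`.
(ii) `x^(1/2-2c₁) ≤ N ≤ x^(1/2+2c₁)`: `zsum` gives `C N x^(-c₀) ≤ C N^(1/2) x^(1/4+c₁-c₀)`. (iii) `N ≥ x^(1/2+2c₁)`: `vdc_two`
gives `C(x^(1/2) + N x^(-1/2))`, and `x^(1/2) ≤ N^(1/2) x^(1/4-c₁)`, `N x^(-1/2) ≤ 4 N^(1/2)`. So `|ζ| ≤ C (1 + log x) x^(1/4-c₁)`.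
-/

set_option autoImplicit false

namespace Pool.Agent.P07318f

open Complex Pool.Agent.P07318s

namespace SubConvAux

lemma abel (w : ℕ → ℝ) (z : ℕ → ℂ) (N N' : ℕ) (T : ℝ) (hw : ∀ n, N ≤ n → w (n + 1) ≤ w n)
    (hw0 : ∀ n, N ≤ n → 0 ≤ w n) (hNN : N ≤ N')
    (hT : ∀ M, N ≤ M → M ≤ N' → ‖∑ n ∈ Finset.Ioc N M, z n‖ ≤ T) :
    ‖∑ n ∈ Finset.Ioc N N', (w n : ℂ) * z n‖ ≤ T * w N := by
  have h1 : ∀ M : ℕ, N ≤ M → M ≤ N' →
      ‖∑ n ∈ Finset.Ioc N M, (w n : ℂ) * z n - (w M : ℂ) * ∑ n ∈ Finset.Ioc N M, z n‖ ≤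
        T * (w N - w M) := by
    intro M hM
    induction M, hM using Nat.le_induction with
    | base => intro _; simp
    | succ m hm ih =>
      intro hm2
      have h2 := ih (by omega)
      have h3 := hT m hm (by omega)
      rw [Finset.sum_Ioc_succ_top (by omega), Finset.sum_Ioc_succ_top (by omega)]
      have h4 : ∑ n ∈ Finset.Ioc N m, (w n : ℂ) * z n + (w (m + 1) : ℂ) * z (m + 1) -
          (w (m + 1) : ℂ) * (∑ n ∈ Finset.Ioc N m, z n + z (m + 1)) =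
          (∑ n ∈ Finset.Ioc N m, (w n : ℂ) * z n - (w m : ℂ) * ∑ n ∈ Finset.Ioc N m, z n) +
            ((w m - w (m + 1) : ℝ) : ℂ) * ∑ n ∈ Finset.Ioc N m, z n := by
        push_cast
        ring
      rw [h4]
      refine (norm_add_le _ _).trans ?_
      rw [norm_mul, Complex.norm_real, Real.norm_eq_abs, abs_of_nonneg (by linarith [hw m hm])]
      have h5 : (w m - w (m + 1)) * ‖∑ n ∈ Finset.Ioc N m, z n‖ ≤ (w m - w (m + 1)) * T :=
        mul_le_mul_of_nonneg_left h3 (by linarith [hw m hm])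
      linarith
  have h2 := h1 N' hNN le_rfl
  have h3 := hT N' hNN le_rfl
  have h4 := hw0 N' hNN
  have h5 : ‖∑ n ∈ Finset.Ioc N N', (w n : ℂ) * z n‖ ≤
      ‖∑ n ∈ Finset.Ioc N N', (w n : ℂ) * z n - (w N' : ℂ) * ∑ n ∈ Finset.Ioc N N', z n‖ +
        ‖(w N' : ℂ) * ∑ n ∈ Finset.Ioc N N', z n‖ := by
    have := norm_add_le (∑ n ∈ Finset.Ioc N N', (w n : ℂ) * z n - (w N' : ℂ) * ∑ n ∈ Finset.Ioc N N', z n)
      ((w N' : ℂ) * ∑ n ∈ Finset.Ioc N N', z n)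
    rwa [sub_add_cancel] at this
  rw [norm_mul, Complex.norm_real, Real.norm_eq_abs, abs_of_nonneg h4] at h5
  have h6 : w N' * ‖∑ n ∈ Finset.Ioc N N', z n‖ ≤ w N' * T := mul_le_mul_of_nonneg_left h3 h4
  linarith

lemma claim : ∃ c C : ℝ, 0 < c ∧ c ≤ 1 / 32 ∧ 0 < C ∧ ∀ (x : ℝ) (N N' : ℕ), 1 ≤ x → 1 ≤ N →
    (N : ℝ) ≤ 16 * x → N ≤ N' → N' ≤ 2 * N →
    ‖∑ n ∈ Finset.Ioc N N', ((n : ℝ) : ℂ) ^ (((-x : ℝ) : ℂ) * I)‖ ≤
      C * ((N : ℝ) ^ (1 / 2 : ℝ) * x ^ (1 / 4 - c)) := by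
  obtain ⟨c0, C0, hc0, hC0, hz⟩ := zsum (1 / 8) (by norm_num) (by norm_num)
  obtain ⟨C1, hC1, hv⟩ := vdc_two
  refine ⟨min c0 (1 / 4) / 8, 1 + C0 + 5 * C1, by positivity, ?_, by positivity, ?_⟩
  · have := min_le_right c0 (1 / 4)
    linarith
  set c : ℝ := min c0 (1 / 4) / 8 with hc
  have hcpos : 0 < c := by positivity
  have hc32 : c ≤ 1 / 32 := by
    have := min_le_right c0 (1 / 4)
    linarith
  have hcc0 : 2 * c ≤ c0 := by
    have := min_le_left c0 (1 / 4)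
    linarith
  intro x N N' hx hN hNx hNN hN2
  have hx0 : 0 < x := by linarith
  have hN1 : (1 : ℝ) ≤ N := by exact_mod_cast hN
  have hN0 : (0 : ℝ) < N := by linarith
  set R : ℝ := (N : ℝ) ^ (1 / 2 : ℝ) * x ^ (1 / 4 - c) with hR
  have hR0 : 0 < R := by positivity
  have hNsq : (N : ℝ) = (N : ℝ) ^ (1 / 2 : ℝ) * (N : ℝ) ^ (1 / 2 : ℝ) := by
    rw [← Real.rpow_add hN0]
    norm_num
  rcases le_or_gt (N : ℝ) (x ^ (1 / 2 - 2 * c)) with h1 | h1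
  · -- trivial
    have h2 : ‖∑ n ∈ Finset.Ioc N N', ((n : ℝ) : ℂ) ^ (((-x : ℝ) : ℂ) * I)‖ ≤ N := by
      refine (norm_sum_le _ _).trans ?_
      have h2 : ∀ n ∈ Finset.Ioc N N', ‖((n : ℝ) : ℂ) ^ (((-x : ℝ) : ℂ) * I)‖ ≤ 1 := by
        intro n hn
        rw [Finset.mem_Ioc] at hn
        have hn0 : (0 : ℝ) < n := by
          have : 0 < n := by omega
          exact_mod_cast this
        rw [norm_cpow_eq_rpow_re_of_pos hn0]
        simp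
      refine (Finset.sum_le_card_nsmul _ _ _ h2).trans ?_
      rw [nsmul_eq_mul, mul_one, Nat.card_Ioc]
      have : N' - N ≤ N := by omega
      exact_mod_cast this
    have h3 : (N : ℝ) ^ (1 / 2 : ℝ) ≤ x ^ (1 / 4 - c) := by
      calc (N : ℝ) ^ (1 / 2 : ℝ) ≤ (x ^ (1 / 2 - 2 * c)) ^ (1 / 2 : ℝ) :=
            Real.rpow_le_rpow hN0.le h1 (by norm_num)
        _ = x ^ (1 / 4 - c) := by
            rw [← Real.rpow_mul hx0.le]
            congr 1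
            ring
    have h4 : (N : ℝ) ≤ R := by
      rw [hR]
      conv_lhs => rw [hNsq]
      exact mul_le_mul_of_nonneg_left h3 (by positivity)
    have h5 : R ≤ (1 + C0 + 5 * C1) * R := by nlinarith
    linarith
  rcases le_or_gt (N : ℝ) (x ^ (1 / 2 + 2 * c)) with h2 | h2
  · -- the middle range
    have h3 : x ^ (1 / 8 : ℝ) ≤ N := by
      refine le_trans ?_ h1.le
      exact Real.rpow_le_rpow_of_exponent_le hx (by linarith)
    have habs : |(-x)| = x := by rw [abs_neg, abs_of_pos hx0]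
    have h4 : x ^ (1 / 8 : ℝ) ≤ |(-x)| := by
      rw [habs]
      calc x ^ (1 / 8 : ℝ) ≤ x ^ (1 : ℝ) := Real.rpow_le_rpow_of_exponent_le hx (by norm_num)
        _ = x := Real.rpow_one x
    have h5 := hz x N N' (-x) hx h3 hNN hN2 h4 (by rw [habs]; linarith)
    refine h5.trans ?_
    have h6 : (N : ℝ) ^ (1 / 2 : ℝ) ≤ x ^ (1 / 4 + c) := by
      calc (N : ℝ) ^ (1 / 2 : ℝ) ≤ (x ^ (1 / 2 + 2 * c)) ^ (1 / 2 : ℝ) :=
            Real.rpow_le_rpow hN0.le h2 (by norm_num)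
        _ = x ^ (1 / 4 + c) := by
            rw [← Real.rpow_mul hx0.le]
            congr 1
            ring
    have h7 : (N : ℝ) * x ^ (-c0) ≤ R := by
      rw [hR]
      calc (N : ℝ) * x ^ (-c0) = (N : ℝ) ^ (1 / 2 : ℝ) * ((N : ℝ) ^ (1 / 2 : ℝ) * x ^ (-c0)) := by
            conv_lhs => rw [hNsq]
            ring
        _ ≤ (N : ℝ) ^ (1 / 2 : ℝ) * (x ^ (1 / 4 + c) * x ^ (-c0)) := by
            refine mul_le_mul_of_nonneg_left ?_ (by positivity)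
            exact mul_le_mul_of_nonneg_right h6 (by positivity)
        _ ≤ (N : ℝ) ^ (1 / 2 : ℝ) * x ^ (1 / 4 - c) := by
            refine mul_le_mul_of_nonneg_left ?_ (by positivity)
            rw [← Real.rpow_add hx0]
            exact Real.rpow_le_rpow_of_exponent_le hx (by linarith)
    calc C0 * (N : ℝ) * x ^ (-c0) = C0 * ((N : ℝ) * x ^ (-c0)) := by ring
      _ ≤ C0 * R := mul_le_mul_of_nonneg_left h7 hC0.le
      _ ≤ (1 + C0 + 5 * C1) * R := mul_le_mul_of_nonneg_right (by linarith) hR0.le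
  · -- large `N`
    have habs : |(-x)| = x := by rw [abs_neg, abs_of_pos hx0]
    have h3 := hv N N' (-x) hN hNN hN2 (by rw [habs]; exact hx)
    rw [habs] at h3
    refine h3.trans ?_
    have h4 : x ^ (1 / 2 : ℝ) ≤ R := by
      have h5 : x ^ (1 / 4 + c) ≤ (N : ℝ) ^ (1 / 2 : ℝ) := by
        calc x ^ (1 / 4 + c) = (x ^ (1 / 2 + 2 * c)) ^ (1 / 2 : ℝ) := by
              rw [← Real.rpow_mul hx0.le]
              congr 1
              ring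
          _ ≤ (N : ℝ) ^ (1 / 2 : ℝ) := Real.rpow_le_rpow (by positivity) h2.le (by norm_num)
      calc x ^ (1 / 2 : ℝ) = x ^ (1 / 4 + c) * x ^ (1 / 4 - c) := by
            rw [← Real.rpow_add hx0]
            congr 1
            ring
        _ ≤ R := mul_le_mul_of_nonneg_right h5 (by positivity)
    have h5 : (N : ℝ) * x ^ (-(1 / 2) : ℝ) ≤ 4 * R := by
      have h6 : (N : ℝ) ^ (1 / 2 : ℝ) ≤ 4 * x ^ (1 / 2 : ℝ) := by
        calc (N : ℝ) ^ (1 / 2 : ℝ) ≤ (16 * x) ^ (1 / 2 : ℝ) :=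
              Real.rpow_le_rpow hN0.le hNx (by norm_num)
          _ = 4 * x ^ (1 / 2 : ℝ) := by
              rw [Real.mul_rpow (by norm_num) hx0.le]
              congr 1
              rw [show (16 : ℝ) = 4 ^ (2 : ℝ) by norm_num, ← Real.rpow_mul (by norm_num)]
              norm_num
      have h7 : x ^ (1 / 2 : ℝ) * x ^ (-(1 / 2) : ℝ) = 1 := by
        rw [← Real.rpow_add hx0]
        norm_num
      have h8 : 1 ≤ x ^ (1 / 4 - c) := Real.one_le_rpow hx (by linarith)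
      calc (N : ℝ) * x ^ (-(1 / 2) : ℝ) =
            (N : ℝ) ^ (1 / 2 : ℝ) * ((N : ℝ) ^ (1 / 2 : ℝ) * x ^ (-(1 / 2) : ℝ)) := by
            conv_lhs => rw [hNsq]
            ring
        _ ≤ (N : ℝ) ^ (1 / 2 : ℝ) * (4 * x ^ (1 / 2 : ℝ) * x ^ (-(1 / 2) : ℝ)) := by
            refine mul_le_mul_of_nonneg_left ?_ (by positivity)
            exact mul_le_mul_of_nonneg_right h6 (by positivity)
        _ = 4 * (N : ℝ) ^ (1 / 2 : ℝ) * (x ^ (1 / 2 : ℝ) * x ^ (-(1 / 2) : ℝ)) := by ring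
        _ = 4 * (N : ℝ) ^ (1 / 2 : ℝ) * 1 := by rw [h7]
        _ ≤ 4 * (N : ℝ) ^ (1 / 2 : ℝ) * x ^ (1 / 4 - c) :=
            mul_le_mul_of_nonneg_left h8 (by positivity)
        _ = 4 * R := by rw [hR]; ring
    calc C1 * (x ^ (1 / 2 : ℝ) + N * x ^ (-(1 / 2) : ℝ)) ≤ C1 * (R + 4 * R) :=
          mul_le_mul_of_nonneg_left (by linarith) hC1.le
      _ = 5 * C1 * R := by ring
      _ ≤ (1 + C0 + 5 * C1) * R := mul_le_mul_of_nonneg_right (by linarith) hR0.le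

/-- `(n + 1)^(-s)` for `s = 1/2 + ix` -/
lemma term_eq (x : ℝ) (n : ℕ) (hn : 1 ≤ n) :
    ((n : ℝ) : ℂ) ^ (-(1 / 2 + (x : ℂ) * I)) =
      (((n : ℝ) ^ (-(1 / 2) : ℝ) : ℝ) : ℂ) * ((n : ℝ) : ℂ) ^ (((-x : ℝ) : ℂ) * I) := by
  have hn0 : (0 : ℝ) < n := by exact_mod_cast hn
  rw [ofReal_cpow hn0.le, ← cpow_add _ _ (by exact_mod_cast hn0.ne')]
  congr 1
  push_cast
  ring

lemma block : ∃ c C : ℝ, 0 < c ∧ c ≤ 1 / 32 ∧ 0 < C ∧ ∀ (x : ℝ) (N : ℕ), 1 ≤ x → 1 ≤ N →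
    (N : ℝ) ≤ 16 * x →
    ‖∑ n ∈ Finset.Ioc N (2 * N), ((n : ℝ) : ℂ) ^ (-(1 / 2 + (x : ℂ) * I))‖ ≤ C * x ^ (1 / 4 - c) := by
  obtain ⟨c, C, hc, hc2, hC, h⟩ := claim
  refine ⟨c, C, hc, hc2, hC, fun x N hx hN hNx => ?_⟩
  have hN0 : (0 : ℝ) < N := by exact_mod_cast hN
  have h1 : ∑ n ∈ Finset.Ioc N (2 * N), ((n : ℝ) : ℂ) ^ (-(1 / 2 + (x : ℂ) * I)) =
      ∑ n ∈ Finset.Ioc N (2 * N), (((n : ℝ) ^ (-(1 / 2) : ℝ) : ℝ) : ℂ) *
        ((n : ℝ) : ℂ) ^ (((-x : ℝ) : ℂ) * I) := by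
    refine Finset.sum_congr rfl (fun n hn => ?_)
    rw [Finset.mem_Ioc] at hn
    exact term_eq x n (by omega)
  rw [h1]
  have h2 := abel (fun n => (n : ℝ) ^ (-(1 / 2) : ℝ)) (fun n => ((n : ℝ) : ℂ) ^ (((-x : ℝ) : ℂ) * I))
    N (2 * N) (C * ((N : ℝ) ^ (1 / 2 : ℝ) * x ^ (1 / 4 - c))) (by
      intro n hn
      have hn0 : (0 : ℝ) < n := by
        have : 0 < n := by omega
        exact_mod_cast this
      refine Real.rpow_le_rpow_of_nonpos hn0 ?_ (by norm_num)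
      push_cast
      linarith) (fun n _ => by positivity) (by omega)
      (fun M hM1 hM2 => h x N M hx hN hNx hM1 hM2)
  refine h2.trans (le_of_eq ?_)
  have h3 : (N : ℝ) ^ (1 / 2 : ℝ) * (N : ℝ) ^ (-(1 / 2) : ℝ) = 1 := by
    rw [← Real.rpow_add hN0]
    norm_num
  calc C * ((N : ℝ) ^ (1 / 2 : ℝ) * x ^ (1 / 4 - c)) * (N : ℝ) ^ (-(1 / 2) : ℝ) =
        C * x ^ (1 / 4 - c) * ((N : ℝ) ^ (1 / 2 : ℝ) * (N : ℝ) ^ (-(1 / 2) : ℝ)) := by ring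
    _ = C * x ^ (1 / 4 - c) := by rw [h3, mul_one]

/-- partial sums -/
noncomputable def SA (x : ℝ) (m : ℕ) : ℂ :=
  ∑ n ∈ Finset.range m, (((n : ℝ) + 1 : ℝ) : ℂ) ^ (-(1 / 2 + (x : ℂ) * I))

lemma SA_step (x : ℝ) (N : ℕ) :
    SA x (2 * N) = SA x N + ∑ n ∈ Finset.Ioc N (2 * N), ((n : ℝ) : ℂ) ^ (-(1 / 2 + (x : ℂ) * I)) := by
  unfold SA
  rw [← Finset.sum_range_add_sum_Ico _ (show N ≤ 2 * N by omega)]
  congr 1
  have h1 := Finset.sum_Ico_add' (fun n : ℕ => ((n : ℝ) : ℂ) ^ (-(1 / 2 + (x : ℂ) * I))) N (2 * N) 1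
  have h2 : Finset.Ico (N + 1) (2 * N + 1) = Finset.Ioc N (2 * N) := by
    ext n
    rw [Finset.mem_Ico, Finset.mem_Ioc]
    omega
  rw [h2] at h1
  rw [← h1]
  refine Finset.sum_congr rfl (fun n _ => ?_)
  push_cast
  rfl

lemma alt_eq (x : ℝ) (m : ℕ) :
    ∑ n ∈ Finset.range (2 * m), (-1 : ℂ) ^ n * (((n : ℝ) + 1 : ℝ) : ℂ) ^ (-(1 / 2 + (x : ℂ) * I)) =
      SA x (2 * m) - 2 * (2 : ℂ) ^ (-(1 / 2 + (x : ℂ) * I)) * SA x m := by
  induction m with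
  | zero => simp [SA]
  | succ m ih =>
    have e : 2 * (m + 1) = 2 * m + 1 + 1 := by ring
    have h1 : SA x (2 * m + 1 + 1) = SA x (2 * m) +
        ((((2 * m : ℕ) : ℝ) + 1 : ℝ) : ℂ) ^ (-(1 / 2 + (x : ℂ) * I)) +
        ((((2 * m + 1 : ℕ) : ℝ) + 1 : ℝ) : ℂ) ^ (-(1 / 2 + (x : ℂ) * I)) := by
      unfold SA
      rw [Finset.sum_range_succ, Finset.sum_range_succ]
    have h2 : SA x (m + 1) = SA x m + ((((m : ℕ) : ℝ) + 1 : ℝ) : ℂ) ^ (-(1 / 2 + (x : ℂ) * I)) := by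
      unfold SA
      rw [Finset.sum_range_succ]
    have h3 : ((((2 * m + 1 : ℕ) : ℝ) + 1 : ℝ) : ℂ) ^ (-(1 / 2 + (x : ℂ) * I)) =
        (2 : ℂ) ^ (-(1 / 2 + (x : ℂ) * I)) * ((((m : ℕ) : ℝ) + 1 : ℝ) : ℂ) ^ (-(1 / 2 + (x : ℂ) * I)) := by
      have h4 := Complex.mul_cpow_ofReal_nonneg (show (0 : ℝ) ≤ 2 by norm_num)
        (show (0 : ℝ) ≤ ((m : ℕ) : ℝ) + 1 by positivity) (-(1 / 2 + (x : ℂ) * I))
      rw [show ((2 : ℝ) : ℂ) = (2 : ℂ) by norm_num] at h4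
      rw [← h4]
      congr 1
      push_cast
      ring
    rw [e, Finset.sum_range_succ, Finset.sum_range_succ, ih, h1, h2, h3]
    have h5 : (-1 : ℂ) ^ (2 * m) = 1 := by rw [pow_mul]; simp
    have h6 : (-1 : ℂ) ^ (2 * m + 1) = -1 := by rw [pow_succ, h5]; ring
    rw [h5, h6]
    ring

end SubConvAux

open SubConvAux

theorem subconvex : ∃ c C : ℝ, 0 < c ∧ 0 < C ∧ ∀ x : ℝ, 1 ≤ x →
    ‖riemannZeta (1 / 2 + x * I)‖ ^ 2 ≤ C * x ^ (1 / 2 - c) := by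
  obtain ⟨c, C, hc, hc2, hC, hb⟩ := block
  refine ⟨c, (5 / 2 * (5 + 12 * C) * (2 / c + 1)) ^ 2, hc, by positivity, fun x hx => ?_⟩
  have hx0 : 0 < x := by linarith
  set P : ℝ := x ^ (1 / 4 - c) with hP
  have hP1 : 1 ≤ P := Real.one_le_rpow hx (by linarith)
  -- the dyadic length
  set a : ℕ := Nat.log 2 ⌊x⌋₊ with ha
  have hfl : ⌊x⌋₊ ≠ 0 := by
    rw [ne_eq, Nat.floor_eq_zero]
    linarith
  have ha1 : ((2 ^ a : ℕ) : ℝ) ≤ x := by
    have h1 : 2 ^ a ≤ ⌊x⌋₊ := Nat.pow_log_le_self 2 hfl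
    have h2 : ((2 ^ a : ℕ) : ℝ) ≤ (⌊x⌋₊ : ℝ) := by exact_mod_cast h1
    exact h2.trans (Nat.floor_le hx0.le)
  have ha2 : x ≤ ((2 ^ (a + 1) : ℕ) : ℝ) := by
    have h1 : ⌊x⌋₊ < 2 ^ (a + 1) := Nat.lt_pow_succ_log_self (by norm_num) _
    have h2 : ⌊x⌋₊ + 1 ≤ 2 ^ (a + 1) := h1
    have h3 : ((⌊x⌋₊ + 1 : ℕ) : ℝ) ≤ ((2 ^ (a + 1) : ℕ) : ℝ) := by exact_mod_cast h2
    have h4 := (Nat.lt_floor_add_one x).le
    push_cast at h3 ⊢
    linarith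
  have hA : ∀ j : ℕ, j ≤ a + 4 → ‖SA x (2 ^ j)‖ ≤ 1 + j * (C * P) := by
    intro j
    induction j with
    | zero =>
      intro _
      have : SA x (2 ^ 0) = 1 := by
        unfold SA
        simp
      rw [this]
      simp
    | succ j ih =>
      intro hj
      have h1 := ih (by omega)
      have h2 : 2 ^ (j + 1) = 2 * 2 ^ j := by rw [pow_succ]; ring
      rw [h2, SA_step]
      refine (norm_add_le _ _).trans ?_
      have h3 : ((2 ^ j : ℕ) : ℝ) ≤ 16 * x := by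
        have h4 : 2 ^ j ≤ 2 ^ (a + 3) := Nat.pow_le_pow_right (by norm_num) (by omega)
        have h5 : ((2 ^ j : ℕ) : ℝ) ≤ ((2 ^ (a + 3) : ℕ) : ℝ) := by exact_mod_cast h4
        have h6 : ((2 ^ (a + 3) : ℕ) : ℝ) = 8 * ((2 ^ a : ℕ) : ℝ) := by
          push_cast
          rw [pow_add]
          ring
        rw [h6] at h5
        linarith
      have h4 := hb x (2 ^ j) hx (Nat.one_le_two_pow) h3
      have h5 : 1 + ((j + 1 : ℕ) : ℝ) * (C * P) = (1 + j * (C * P)) + C * P := by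
        push_cast
        ring
      rw [h5]
      exact add_le_add h1 h4
  -- the approximation
  set s : ℂ := 1 / 2 + (x : ℂ) * I with hs
  have hre : s.re = 1 / 2 := by simp [hs]
  have him : s.im = x := by simp [hs]
  have hns : ‖s‖ ≤ x + 1 := by
    rw [hs]
    refine (norm_add_le _ _).trans ?_
    rw [norm_mul, Complex.norm_I, mul_one, Complex.norm_real, Real.norm_of_nonneg hx0.le]
    have : ‖(1 / 2 : ℂ)‖ = 1 / 2 := by norm_num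
    rw [this]
    linarith
  have hm : ((2 ^ (a + 4) : ℕ) : ℝ) = 8 * ((2 ^ (a + 1) : ℕ) : ℝ) := by
    push_cast
    rw [pow_add, pow_add]
    ring
  have hsm : ‖s‖ + ((a + 4 : ℕ) : ℝ) ≤ ((2 ^ (a + 4) : ℕ) : ℝ) := by
    have h1 : ∀ k : ℕ, k + 4 ≤ 2 ^ (k + 2) := by
      intro k
      induction k with
      | zero => norm_num
      | succ k ih =>
        rw [show k + 1 + 2 = (k + 2) + 1 by ring, pow_succ]
        omega
    have h2 : ((a + 4 : ℕ) : ℝ) ≤ ((2 ^ (a + 2) : ℕ) : ℝ) := by exact_mod_cast h1 a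
    have h3 : ((2 ^ (a + 2) : ℕ) : ℝ) = 2 * ((2 ^ (a + 1) : ℕ) : ℝ) := by
      push_cast
      rw [pow_succ]
      ring
    rw [h3] at h2
    rw [hm]
    linarith
  have hap := Pool.Agent.P07318d.eta_approx (m := 2 ^ (a + 4)) (K := a + 4) (by omega)
    Nat.one_le_two_pow le_rfl (s := s) (by rw [hre]; norm_num) (by rw [him]; exact hx0) hsm
  have he : 2 ^ (a + 4) = 2 * 2 ^ (a + 3) := by rw [pow_succ]; ring
  have halt := alt_eq x (2 ^ (a + 3))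
  rw [← he, ← hs] at halt
  rw [halt] at hap
  have hA1 := hA (a + 4) le_rfl
  have hA2 := hA (a + 3) (by omega)
  have h2s : ‖(2 : ℂ) ^ (-s)‖ = (2 : ℝ) ^ (-(1 / 2) : ℝ) := by
    rw [show (2 : ℂ) = ((2 : ℝ) : ℂ) by norm_num, norm_cpow_eq_rpow_re_of_pos (by norm_num)]
    rw [neg_re, hre]
  have h2s' : (7 : ℝ) / 10 ≤ (2 : ℝ) ^ (-(1 / 2) : ℝ) ∧ (2 : ℝ) ^ (-(1 / 2) : ℝ) ≤ 1 := by
    constructor
    · rw [Real.rpow_neg (by norm_num), ← Real.sqrt_eq_rpow, le_inv_comm₀ (by norm_num) (by positivity)]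
      rw [Real.sqrt_le_left (by norm_num)]
      norm_num
    · exact Real.rpow_le_one_of_one_le_of_nonpos (by norm_num) (by norm_num)
  have hfac : (2 : ℝ) / 5 ≤ ‖1 - 2 * (2 : ℂ) ^ (-s)‖ := by
    have h1 := norm_sub_norm_le (2 * (2 : ℂ) ^ (-s)) 1
    rw [norm_sub_rev] at h1
    rw [norm_mul, h2s, norm_one, Complex.norm_ofNat] at h1
    linarith [h2s'.1]
  have herr : 2 * ((2 ^ (a + 4) : ℕ) : ℝ) ^ (-s.re) ≤ 2 := by
    have h1 : ((2 ^ (a + 4) : ℕ) : ℝ) ^ (-s.re) ≤ 1 := by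
      apply Real.rpow_le_one_of_one_le_of_nonpos
      · exact_mod_cast Nat.one_le_two_pow
      · rw [hre]; norm_num
    linarith
  have hCP : 0 ≤ C * P := by positivity
  have hz : ‖(1 - 2 * (2 : ℂ) ^ (-s)) * riemannZeta s‖ ≤ 2 + 3 * (1 + (a + 4) * (C * P)) := by
    have h1 : (1 - 2 * (2 : ℂ) ^ (-s)) * riemannZeta s =
        ((1 - 2 * (2 : ℂ) ^ (-s)) * riemannZeta s -
          (SA x (2 ^ (a + 4)) - 2 * (2 : ℂ) ^ (-s) * SA x (2 ^ (a + 3)))) +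
        (SA x (2 ^ (a + 4)) - 2 * (2 : ℂ) ^ (-s) * SA x (2 ^ (a + 3))) := by ring
    rw [h1]
    refine (norm_add_le _ _).trans ?_
    have h2 : ‖SA x (2 ^ (a + 4)) - 2 * (2 : ℂ) ^ (-s) * SA x (2 ^ (a + 3))‖ ≤
        (1 + (a + 4) * (C * P)) + 2 * (1 + (a + 4) * (C * P)) := by
      refine (norm_sub_le _ _).trans (add_le_add ?_ ?_)
      · push_cast at hA1
        exact hA1
      · rw [norm_mul, norm_mul, h2s, Complex.norm_ofNat]
        have h3 : ‖SA x (2 ^ (a + 3))‖ ≤ 1 + (a + 4) * (C * P) := by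
          push_cast at hA2
          nlinarith
        have h4 : (2 : ℝ) * (2 : ℝ) ^ (-(1 / 2) : ℝ) ≤ 2 := by linarith [h2s'.2]
        exact mul_le_mul h4 h3 (norm_nonneg _) (by norm_num)
    have h5 := hap.trans herr
    linarith
  rw [norm_mul] at hz
  have hlog : (a : ℝ) ≤ 2 * Real.log x := by
    have h1 : Real.log ((2 ^ a : ℕ) : ℝ) ≤ Real.log x :=
      Real.log_le_log (by positivity) ha1
    rw [Nat.cast_pow, Real.log_pow, Nat.cast_ofNat] at h1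
    have h2 := Real.log_two_gt_d9
    have h3 : (a : ℝ) * (1 / 2) ≤ a * Real.log 2 :=
      mul_le_mul_of_nonneg_left (by linarith) (Nat.cast_nonneg _)
    linarith
  have hlog0 : 0 ≤ Real.log x := Real.log_nonneg hx
  have hζ : ‖riemannZeta s‖ ≤ 5 / 2 * (5 + 12 * C) * ((Real.log x + 1) * P) := by
    have h1 : (2 : ℝ) / 5 * ‖riemannZeta s‖ ≤ 2 + 3 * (1 + (a + 4) * (C * P)) :=
      (mul_le_mul_of_nonneg_right hfac (norm_nonneg _)).trans hz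
    have h2 : 2 + 3 * (1 + ((a : ℝ) + 4) * (C * P)) ≤ (5 + 12 * C) * ((Real.log x + 1) * P) := by
      have h3 : ((a : ℝ) + 4) * (C * P) ≤ (4 * (Real.log x + 1)) * (C * P) :=
        mul_le_mul_of_nonneg_right (by linarith) hCP
      have h4 : 1 ≤ (Real.log x + 1) * P := by nlinarith
      nlinarith
    linarith
  have hlogP : (Real.log x + 1) * P ≤ (2 / c + 1) * (x ^ (c / 2) * P) := by
    have h1 : Real.log x ≤ x ^ (c / 2) / (c / 2) := Real.log_le_rpow_div hx0.le (by positivity)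
    have h2 : 1 ≤ x ^ (c / 2) := Real.one_le_rpow hx (by positivity)
    have h3 : x ^ (c / 2) / (c / 2) = 2 / c * x ^ (c / 2) := by
      field_simp
    rw [h3] at h1
    have h4 : Real.log x + 1 ≤ (2 / c + 1) * x ^ (c / 2) := by nlinarith
    calc (Real.log x + 1) * P ≤ ((2 / c + 1) * x ^ (c / 2)) * P :=
          mul_le_mul_of_nonneg_right h4 (by linarith)
      _ = _ := by ring
  have hfin : ‖riemannZeta s‖ ≤ (5 / 2 * (5 + 12 * C) * (2 / c + 1)) * (x ^ (c / 2) * P) := by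
    refine hζ.trans ?_
    calc 5 / 2 * (5 + 12 * C) * ((Real.log x + 1) * P) ≤
          5 / 2 * (5 + 12 * C) * ((2 / c + 1) * (x ^ (c / 2) * P)) :=
          mul_le_mul_of_nonneg_left hlogP (by positivity)
      _ = _ := by ring
  have hpw : (x ^ (c / 2) * P) ^ 2 = x ^ (1 / 2 - c) := by
    rw [hP, ← Real.rpow_add hx0, ← Real.rpow_natCast, ← Real.rpow_mul hx0.le]
    congr 1
    push_cast
    ring
  calc ‖riemannZeta s‖ ^ 2 ≤ ((5 / 2 * (5 + 12 * C) * (2 / c + 1)) * (x ^ (c / 2) * P)) ^ 2 :=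
        pow_le_pow_left₀ (norm_nonneg _) hfin 2
    _ = (5 / 2 * (5 + 12 * C) * (2 / c + 1)) ^ 2 * x ^ (1 / 2 - c) := by rw [mul_pow, hpw]

end Pool.Agent.P07318f
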