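import Pool.Agent.Lib.P07318s.FourthM
import Pool.Agent.Lib.P07318s.Cont
import Pool.Agent.Lib.P07318s.KapSum
import Pool.Agent.Lib.P07318f.Defs
import Pool.Agent.Lib.P07318f.SubConv
import Pool.Agent.Lib.P07318f.DKer
import Pool.Agent.Lib.P07318f.FourSep
import Pool.Agent.Lib.P07318f.LargeS

/-!
# The terms of large height of the approximate functional equation are small against `|ζ|⁴`, in mean square over the shift

`FdBig Y x = ∑_{height > Y} h^(-1/2) Om(h, x) q^(-ix)`, `FdSmall` the rest (`Fd = FdSmall + FdBig`: `Fd_eq` of P07318s).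

PROOF of `long_part`. `t + h ∈ [U, 16 U]`. By `four_sep` (small `δ`), `FdBig Y (t+h) = ∑_k ∑_q ω_k(h_q) h_q^(-1/2) e(k(t+h)/32U) ex (t+h) q`
(sum over `h_q > Y`, absolutely convergent), so `∫ G(t) FdBig Y (t+h) dt = ∑_k e(kh/32U) ∑_q ω_k(h_q) h_q^(-1/2) ex h q Gt_k(q)`,
`Gt_k(q) = ∫ G(t) e(kt/32U) ex t q dt`, `|Gt_k| ≤ ∫|G|`. `(∑_k a_k)² ≤ (∑ 1/(1+k²)) ∑ (1+k²) a_k²` and `large_sieve` (`H = U`,
`B q = C |Gt_k(q)|/(1+k²)` for `h_q > Y`, `0` otherwise): the integral over `h` is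
`≤ C U^(1+2δ) ∑_k (1+k²)^(-1) ∑_{h_q > Y} kap/h |Gt_k(q)|²`. The inner sum is `∫∫ G_k(t) conj G_k(t') Dk δ U Y (t-t') dt dt'`, with `|G_k| = |G|`,
so it is `≤ ∫∫ |G(t)||G(t')| |Dk δ U Y (t-t')|`. `|t-t'| ≤ 5U ≤ 16U`. Where `|t-t'| ≥ U^δ₁`: `dk_bound` (with `δ₀' = min(δ₀, δ₁)`; need `U^(δ₀') ≤ Y`, ok):
`≤ C U^(δ-c) (∫|G|)²`, `∫|G| ≤ ∫_U^{10U} |ζ|⁴ ≤ C U^(1+ε)` (`zeta_fourth` on pieces `[b, b+T]`). Where `|t-t'| < U^δ₁`: `|Dk| ≤ C U^δ` (`dk_trivial`) and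
`|G(t')| ≤ sup |ζ|⁴ ≤ C U^(1-2c')` (`subconvex`, heights `≤ 10U`), so `≤ C U^(δ+1-2c'+δ₁) ∫|G| ≤ C U^(2-2c'+δ₁+δ+ε)`. Choose `δ₁ = min(c', δ₀)`
(`c'` of `subconvex`, absolute), then `c` from `dk_bound`, then `δ, ε` small: total `≤ C U^(1+2δ) · U^(2 - c'')`.
-/

set_option autoImplicit false

namespace Pool.Agent.P07318f

open MeasureTheory Complex Pool.Agent.P07318s

/-- large heights -/
noncomputable def FdBig (Y x : ℝ) : ℂ :=
  ∑' q : Q, if Y < hgt q.1 then (((hgt q.1) ^ (-(1 / 2) : ℝ) * Om (hgt q.1) x : ℝ) : ℂ) * ex x q.1 else 0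

/-- small heights -/
noncomputable def FdSmall (Y x : ℝ) : ℂ :=
  ∑' q : Q, if Y < hgt q.1 then 0 else (((hgt q.1) ^ (-(1 / 2) : ℝ) * Om (hgt q.1) x : ℝ) : ℂ) * ex x q.1

namespace LongPartAux

/-! ### The coefficients `Om` -/

theorem Om_cont {h : ℝ} (hh : 1 ≤ h) : ContinuousOn (fun x : ℝ => Om h x) (Set.Ioi 0) := by
  intro x0 hx0
  have hx0' : 0 < x0 := hx0
  have hpi := Real.pi_pos
  have hh0 : 0 < h := by linarith
  have hg : ∀ g : ℕ+, (0 : ℝ) < ((g : ℕ) : ℝ) := fun g => by exact_mod_cast g.pos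
  have h1 : ContinuousOn (fun x : ℝ => Om h x) (Set.Ioo 0 (x0 + 1)) := by
    unfold Om
    refine continuousOn_tsum
      (u := fun g : ℕ+ => W (2 * Real.pi * ((g : ℕ) : ℝ) ^ 2 * h / (x0 + 1)) / ((g : ℕ) : ℝ))
      (fun g => ?_) (Om_summable (by linarith) hh) (fun g x hx => ?_)
    · refine ContinuousOn.div_const ?_ _
      refine W_continuousOn.comp (t := Set.Ioi 0)
        (f := fun x : ℝ => 2 * Real.pi * ((g : ℕ) : ℝ) ^ 2 * h / x) ?_ ?_
      · exact continuousOn_const.div continuousOn_id (fun x hx => ne_of_gt hx.1)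
      · intro x hx
        show 0 < 2 * Real.pi * ((g : ℕ) : ℝ) ^ 2 * h / x
        have h2 := hg g
        have h3 := hx.1
        positivity
    · rw [Real.norm_of_nonneg (div_nonneg (W_nonneg _) (hg g).le)]
      refine div_le_div_of_nonneg_right ?_ (hg g).le
      have h2 := hg g
      have h3 := hx.1
      refine W_antitone ?_ ?_ ?_
      · rw [Set.mem_Ioi]
        positivity
      · rw [Set.mem_Ioi]
        positivity
      · exact div_le_div_of_nonneg_left (by positivity) h3 hx.2.le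
  exact (h1.continuousAt (Ioo_mem_nhds hx0' (by linarith))).continuousWithinAt

theorem Om_mono {h x y : ℝ} (hh : 1 ≤ h) (hx : 0 < x) (hxy : x ≤ y) : Om h x ≤ Om h y := by
  have hpi := Real.pi_pos
  have hh0 : 0 < h := by linarith
  have hy : 0 < y := by linarith
  unfold Om
  refine Summable.tsum_le_tsum (fun g => ?_) (Om_summable hx hh) (Om_summable hy hh)
  have hg : (0 : ℝ) < ((g : ℕ) : ℝ) := by exact_mod_cast g.pos
  refine div_le_div_of_nonneg_right ?_ hg.le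
  refine W_antitone ?_ ?_ ?_
  · rw [Set.mem_Ioi]
    positivity
  · rw [Set.mem_Ioi]
    positivity
  · exact div_le_div_of_nonneg_left (by positivity) hx hxy

/-- the term of `FdBig` -/
noncomputable def bt (Y x : ℝ) (q : Q) : ℂ :=
  if Y < hgt q.1 then (((hgt q.1) ^ (-(1 / 2) : ℝ) * Om (hgt q.1) x : ℝ) : ℂ) * ex x q.1 else 0

lemma full_norm (x : ℝ) (q : Q) :
    ‖(((hgt q.1) ^ (-(1 / 2) : ℝ) * Om (hgt q.1) x : ℝ) : ℂ) * ex x q.1‖ =
      (hgt q.1) ^ (-(1 / 2) : ℝ) * Om (hgt q.1) x := by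
  rw [norm_mul, norm_ex, mul_one, Complex.norm_real, Real.norm_of_nonneg]
  exact mul_nonneg (Real.rpow_nonneg (hgt_pos q.1).le _) (Om_nonneg _ _)

lemma bt_norm (Y x : ℝ) (q : Q) : ‖bt Y x q‖ ≤ (hgt q.1) ^ (-(1 / 2) : ℝ) * Om (hgt q.1) x := by
  unfold bt
  split_ifs
  · rw [full_norm]
  · rw [norm_zero]
    exact mul_nonneg (Real.rpow_nonneg (hgt_pos q.1).le _) (Om_nonneg _ _)

/-! ### Characters -/

/-- the character `e(k x / 32 U)` -/
noncomputable def ek (U : ℝ) (k : ℤ) (x : ℝ) : ℂ :=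
  cexp (((2 * Real.pi * k * x / (32 * U) : ℝ) : ℂ) * I)

lemma norm_ek (U : ℝ) (k : ℤ) (x : ℝ) : ‖ek U k x‖ = 1 := norm_exp_ofReal_mul_I _

lemma ek_add (U : ℝ) (k : ℤ) (x y : ℝ) : ek U k (x + y) = ek U k x * ek U k y := by
  unfold ek
  rw [← Complex.exp_add]
  congr 1
  push_cast
  ring

lemma ek_cont (U : ℝ) (k : ℤ) : Continuous (ek U k) := by
  unfold ek
  fun_prop

lemma ex_cont (p : ℕ+ × ℕ+) : Continuous (fun x : ℝ => ex x p) := by
  unfold ex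
  fun_prop

/-- the coefficients after the separation -/
noncomputable def co (Y : ℝ) (ω : ℤ → ℝ → ℂ) (k : ℤ) (q : Q) : ℂ :=
  if Y < hgt q.1 then (((hgt q.1) ^ (-(1 / 2) : ℝ) : ℝ) : ℂ) * ω k (hgt q.1) else 0

/-- the weights `1 / (1 + k^2)` -/
noncomputable def pk (k : ℤ) : ℝ := 1 / (1 + (k : ℝ) ^ 2)

lemma pk_pos (k : ℤ) : 0 < pk k := by unfold pk; positivity

lemma pk_summable : Summable pk := by
  have h1 : Summable (fun k : ℤ => 1 / (k : ℝ) ^ 2) := Real.summable_one_div_int_pow.2 (by norm_num)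
  have h2 : Summable (fun k : ℤ => if k = 0 then (1 : ℝ) else 0) := (hasSum_ite_eq 0 1).summable
  refine Summable.of_nonneg_of_le (fun k => (pk_pos k).le) (fun k => ?_) (h1.add h2)
  unfold pk
  by_cases hk : k = 0
  · subst hk
    simp
  · rw [if_neg hk, add_zero]
    have hk' : (k : ℝ) ≠ 0 := by exact_mod_cast hk
    have h3 : 0 < (k : ℝ) ^ 2 := by positivity
    exact one_div_le_one_div_of_le h3 (by linarith)

lemma co_norm {Y δ U C : ℝ} {ω : ℤ → ℝ → ℂ} (hC : 0 ≤ C) (hU : 0 ≤ U)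
    (hω : ∀ (k : ℤ) (h : ℝ), 1 ≤ h → ‖ω k h‖ ≤ C / (1 + (k : ℝ) ^ 2) * kap δ U h) (k : ℤ) (q : Q) :
    ‖co Y ω k q‖ ≤ C * pk k * ww δ U q := by
  have h0 : 0 ≤ C * pk k * ww δ U q := mul_nonneg (mul_nonneg hC (pk_pos k).le) (ww_nonneg hU q)
  unfold co
  split_ifs
  · rw [norm_mul, Complex.norm_real, Real.norm_of_nonneg (Real.rpow_nonneg (hgt_pos q.1).le _)]
    have h1 := hω k (hgt q.1) (one_le_hgt q.1)
    calc (hgt q.1) ^ (-(1 / 2) : ℝ) * ‖ω k (hgt q.1)‖ ≤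
          (hgt q.1) ^ (-(1 / 2) : ℝ) * (C / (1 + (k : ℝ) ^ 2) * kap δ U (hgt q.1)) :=
          mul_le_mul_of_nonneg_left h1 (Real.rpow_nonneg (hgt_pos q.1).le _)
      _ = C * pk k * ww δ U q := by unfold pk ww; ring
  · rw [norm_zero]
    exact h0

lemma fdbig_hasSum {Y δ U C x : ℝ} {ω : ℤ → ℝ → ℂ} (hδ : 0 < δ) (hδ2 : δ ≤ 1 / 2) (hU : 1 ≤ U) (hC : 0 ≤ C)
    (hω : ∀ (k : ℤ) (h : ℝ), 1 ≤ h → ‖ω k h‖ ≤ C / (1 + (k : ℝ) ^ 2) * kap δ U h)
    (hs : ∀ h : ℝ, 1 ≤ h → HasSum (fun k : ℤ => ω k h * ek U k x) (Om h x : ℂ)) :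
    HasSum (fun z : Q × ℤ => co Y ω z.2 z.1 * (ek U z.2 x * ex x z.1.1)) (FdBig Y x) := by
  have hw := ww_summable hδ hδ2 hU
  have hsum : Summable (fun z : Q × ℤ => co Y ω z.2 z.1 * (ek U z.2 x * ex x z.1.1)) := by
    have h1 : Summable (fun z : Q × ℤ => ww δ U z.1 * (C * pk z.2)) :=
      Summable.mul_of_nonneg hw (pk_summable.mul_left C) (fun q => ww_nonneg (by linarith) q)
        (fun k => mul_nonneg hC (pk_pos k).le)
    refine Summable.of_norm_bounded h1 (fun z => ?_)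
    rw [norm_mul, norm_mul, norm_ek, norm_ex, mul_one, mul_one]
    refine (co_norm hC (by linarith) hω z.2 z.1).trans (le_of_eq (by ring))
  have hfib : ∀ q : Q, HasSum (fun k : ℤ => co Y ω k q * (ek U k x * ex x q.1)) (bt Y x q) := by
    intro q
    unfold co bt
    split_ifs
    · have h1 := ((hs (hgt q.1) (one_le_hgt q.1)).mul_left
        (((hgt q.1) ^ (-(1 / 2) : ℝ) : ℝ) : ℂ)).mul_right (ex x q.1)
      have h2 : (((hgt q.1) ^ (-(1 / 2) : ℝ) * Om (hgt q.1) x : ℝ) : ℂ) * ex x q.1 =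
          (((hgt q.1) ^ (-(1 / 2) : ℝ) : ℝ) : ℂ) * (Om (hgt q.1) x : ℂ) * ex x q.1 := by
        push_cast
        ring
      rw [h2]
      refine h1.congr_fun ?_
      intro k
      ring
    · simp
  have h1 := hsum.hasSum.prod_fiberwise hfib
  have h2 : FdBig Y x = ∑' z : Q × ℤ, co Y ω z.2 z.1 * (ek U z.2 x * ex x z.1.1) := by
    have h3 : FdBig Y x = ∑' q, bt Y x q := rfl
    rw [h3, h1.tsum_eq]
  rw [h2]
  exact hsum.hasSum

/-- the transform of `G` -/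
noncomputable def Gt (U : ℝ) (G : ℝ → ℂ) (k : ℤ) (q : Q) : ℂ := ∫ t, G t * (ek U k t * ex t q.1)

lemma Gt_int {U : ℝ} {G : ℝ → ℂ} (hG : Integrable G) (k : ℤ) (q : Q) :
    Integrable (fun t => G t * (ek U k t * ex t q.1)) := by
  refine hG.mono (hG.aestronglyMeasurable.mul
    ((ek_cont U k).mul (ex_cont q.1)).aestronglyMeasurable) (Filter.Eventually.of_forall fun t => ?_)
  rw [norm_mul, norm_mul, norm_ek, norm_ex, mul_one, mul_one]

lemma Gt_norm {U : ℝ} {G : ℝ → ℂ} (k : ℤ) (q : Q) : ‖Gt U G k q‖ ≤ ∫ t, ‖G t‖ := by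
  unfold Gt
  refine (norm_integral_le_integral_norm _).trans (le_of_eq ?_)
  refine integral_congr_ae (Filter.Eventually.of_forall fun t => ?_)
  simp only
  rw [norm_mul, norm_mul, norm_ek, norm_ex, mul_one, mul_one]

lemma int_hasSum {Y δ U C h : ℝ} {ω : ℤ → ℝ → ℂ} {G : ℝ → ℂ} (hδ : 0 < δ) (hδ2 : δ ≤ 1 / 2) (hU : 1 ≤ U)
    (hC : 0 ≤ C) (hω : ∀ (k : ℤ) (h : ℝ), 1 ≤ h → ‖ω k h‖ ≤ C / (1 + (k : ℝ) ^ 2) * kap δ U h)
    (hG : Integrable G)
    (hs : ∀ t, G t ≠ 0 → ∀ h' : ℝ, 1 ≤ h' → HasSum (fun k : ℤ => ω k h' * ek U k (t + h)) (Om h' (t + h) : ℂ)) :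
    HasSum (fun z : Q × ℤ => co Y ω z.2 z.1 * (ek U z.2 h * ex h z.1.1) * Gt U G z.2 z.1)
      (∫ t, G t * FdBig Y (t + h)) := by
  have hw := ww_summable hδ hδ2 hU
  set F : Q × ℤ → ℝ → ℂ := fun z t => G t * (co Y ω z.2 z.1 * (ek U z.2 (t + h) * ex (t + h) z.1.1)) with hF
  have hFe : ∀ z t, F z t = co Y ω z.2 z.1 * (ek U z.2 h * ex h z.1.1) *
      (G t * (ek U z.2 t * ex t z.1.1)) := by
    intro z t
    rw [hF]
    simp only
    rw [ek_add, lgr_add_aux]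
    ring
  have hFn : ∀ z t, ‖F z t‖ = ‖co Y ω z.2 z.1‖ * ‖G t‖ := by
    intro z t
    rw [hF]
    simp only
    rw [norm_mul, norm_mul, norm_mul, norm_ek, norm_ex, mul_one, mul_one, mul_comm]
  have hFint : ∀ z, Integrable (F z) := by
    intro z
    have h1 := (Gt_int (U := U) hG z.2 z.1).const_mul (co Y ω z.2 z.1 * (ek U z.2 h * ex h z.1.1))
    exact h1.congr (Filter.Eventually.of_forall fun t => (hFe z t).symm)
  have hFsum : Summable fun z => ∫ t, ‖F z t‖ := by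
    have h1 : Summable (fun z : Q × ℤ => (ww δ U z.1 * (C * pk z.2)) * ∫ t, ‖G t‖) :=
      (Summable.mul_of_nonneg hw (pk_summable.mul_left C) (fun q => ww_nonneg (by linarith) q)
        (fun k => mul_nonneg hC (pk_pos k).le)).mul_right _
    refine Summable.of_nonneg_of_le (fun z => integral_nonneg fun t => norm_nonneg _) (fun z => ?_) h1
    have h2 : ∫ t, ‖F z t‖ = ‖co Y ω z.2 z.1‖ * ∫ t, ‖G t‖ := by
      rw [← integral_const_mul]
      exact integral_congr_ae (Filter.Eventually.of_forall fun t => hFn z t)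
    rw [h2]
    refine mul_le_mul_of_nonneg_right ?_ (integral_nonneg fun t => norm_nonneg _)
    exact (co_norm hC (by linarith) hω z.2 z.1).trans (le_of_eq (by ring))
  have h1 := hasSum_integral_of_summable_integral_norm hFint hFsum
  have h2 : ∫ t, (∑' z, F z t) = ∫ t, G t * FdBig Y (t + h) := by
    refine integral_congr_ae (Filter.Eventually.of_forall fun t => ?_)
    simp only
    by_cases hGt : G t = 0
    · simp [hF, hGt]
    · exact ((fdbig_hasSum (Y := Y) hδ hδ2 hU hC hω (hs t hGt)).mul_left (G t)).tsum_eq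
  rw [h2] at h1
  refine h1.congr_fun ?_
  intro z
  unfold Gt
  rw [← integral_const_mul]
  exact integral_congr_ae (Filter.Eventually.of_forall fun t => (hFe z t).symm)

/-- the inner sums -/
noncomputable def Ak (Y U : ℝ) (ω : ℤ → ℝ → ℂ) (G : ℝ → ℂ) (k : ℤ) (h : ℝ) : ℂ :=
  ∑' q : Q, (co Y ω k q * Gt U G k q) * ex h q.1

lemma cG_norm {Y δ U C : ℝ} {ω : ℤ → ℝ → ℂ} {G : ℝ → ℂ} (hU : 1 ≤ U)
    (hC : 0 ≤ C) (hω : ∀ (k : ℤ) (h : ℝ), 1 ≤ h → ‖ω k h‖ ≤ C / (1 + (k : ℝ) ^ 2) * kap δ U h)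
    (k : ℤ) (q : Q) : ‖co Y ω k q * Gt U G k q‖ ≤ C * pk k * ww δ U q * ∫ t, ‖G t‖ := by
  rw [norm_mul]
  exact mul_le_mul (co_norm hC (by linarith) hω k q) (Gt_norm k q) (norm_nonneg _)
    (mul_nonneg (mul_nonneg hC (pk_pos k).le) (ww_nonneg (by linarith) q))

lemma cG_summable {Y δ U C : ℝ} {ω : ℤ → ℝ → ℂ} {G : ℝ → ℂ} (hδ : 0 < δ) (hδ2 : δ ≤ 1 / 2) (hU : 1 ≤ U)
    (hC : 0 ≤ C) (hω : ∀ (k : ℤ) (h : ℝ), 1 ≤ h → ‖ω k h‖ ≤ C / (1 + (k : ℝ) ^ 2) * kap δ U h)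
    (k : ℤ) : Summable (fun q : Q => ‖co Y ω k q * Gt U G k q‖) := by
  have hw := ww_summable hδ hδ2 hU
  refine Summable.of_nonneg_of_le (fun q => norm_nonneg _) (fun q => cG_norm hU hC hω k q)
    ((hw.mul_left (C * pk k)).mul_right _)

lemma Ak_cont {Y δ U C : ℝ} {ω : ℤ → ℝ → ℂ} {G : ℝ → ℂ} (hδ : 0 < δ) (hδ2 : δ ≤ 1 / 2) (hU : 1 ≤ U)
    (hC : 0 ≤ C) (hω : ∀ (k : ℤ) (h : ℝ), 1 ≤ h → ‖ω k h‖ ≤ C / (1 + (k : ℝ) ^ 2) * kap δ U h)
    (k : ℤ) : Continuous (Ak Y U ω G k) := by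
  unfold Ak
  refine continuous_tsum (fun q => continuous_const.mul (ex_cont q.1))
    (cG_summable (Y := Y) (G := G) hδ hδ2 hU hC hω k) (fun q h => ?_)
  rw [norm_mul, norm_ex, mul_one]

lemma int_bound {Y δ U C h : ℝ} {ω : ℤ → ℝ → ℂ} {G : ℝ → ℂ} (hδ : 0 < δ) (hδ2 : δ ≤ 1 / 2) (hU : 1 ≤ U)
    (hC : 0 ≤ C) (hω : ∀ (k : ℤ) (h : ℝ), 1 ≤ h → ‖ω k h‖ ≤ C / (1 + (k : ℝ) ^ 2) * kap δ U h)
    (hG : Integrable G)
    (hs : ∀ t, G t ≠ 0 → ∀ h' : ℝ, 1 ≤ h' → HasSum (fun k : ℤ => ω k h' * ek U k (t + h)) (Om h' (t + h) : ℂ)) :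
    ‖∫ t, G t * FdBig Y (t + h)‖ₑ ≤ ∑' k : ℤ, ‖Ak Y U ω G k h‖ₑ := by
  have h1 := int_hasSum (Y := Y) hδ hδ2 hU hC hω hG hs
  have h2 : HasSum (fun z : ℤ × Q => co Y ω z.1 z.2 * (ek U z.1 h * ex h z.2.1) * Gt U G z.1 z.2)
      (∫ t, G t * FdBig Y (t + h)) := by
    have h3 := (Equiv.prodComm ℤ Q).hasSum_iff.2 h1
    exact h3
  have hfib : ∀ k : ℤ, HasSum (fun q : Q => co Y ω k q * (ek U k h * ex h q.1) * Gt U G k q)
      (ek U k h * Ak Y U ω G k h) := by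
    intro k
    have hs2 : Summable (fun q : Q => (co Y ω k q * Gt U G k q) * ex h q.1) := by
      refine Summable.of_norm_bounded (cG_summable (Y := Y) (G := G) hδ hδ2 hU hC hω k) (fun q => ?_)
      rw [norm_mul, norm_ex, mul_one]
    have h4 := hs2.hasSum.mul_left (ek U k h)
    refine h4.congr_fun ?_
    intro q
    ring
  have h5 := h2.prod_fiberwise hfib
  rw [← h5.tsum_eq]
  refine enorm_tsum_le_tsum_enorm.trans (le_of_eq ?_)
  refine tsum_congr fun k => ?_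
  rw [enorm_mul]
  have h6 : ‖ek U k h‖ₑ = 1 := by
    rw [← ofReal_norm, norm_ek, ENNReal.ofReal_one]
  rw [h6, one_mul]

/-- Cauchy-Schwarz for series -/
lemma cs (p b : ℤ → ENNReal) (hp0 : ∀ k, p k ≠ 0) (hp1 : ∀ k, p k ≠ ⊤) :
    (∑' k, b k) ^ 2 ≤ (∑' k, p k) * ∑' k, (p k)⁻¹ * b k ^ 2 := by
  have h1 := ENNReal.lintegral_mul_le_Lp_mul_Lq (Measure.count : Measure ℤ)
    (Real.HolderConjugate.two_two) (f := fun k => p k ^ (1 / 2 : ℝ))
    (g := fun k => (p k ^ (1 / 2 : ℝ))⁻¹ * b k) (measurable_of_countable _).aemeasurable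
    (measurable_of_countable _).aemeasurable
  simp only [Pi.mul_apply, lintegral_count] at h1
  have h2 : ∀ k, p k ^ (1 / 2 : ℝ) * ((p k ^ (1 / 2 : ℝ))⁻¹ * b k) = b k := by
    intro k
    rw [← mul_assoc, ENNReal.mul_inv_cancel, one_mul]
    · intro h
      rw [ENNReal.rpow_eq_zero_iff] at h
      rcases h with ⟨h, _⟩ | ⟨h, _⟩
      · exact hp0 k h
      · exact hp1 k h
    · intro h
      rw [ENNReal.rpow_eq_top_iff] at h
      rcases h with ⟨h, _⟩ | ⟨h, _⟩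
      · exact hp0 k h
      · exact hp1 k h
  have h3 : ∀ k, (p k ^ (1 / 2 : ℝ)) ^ (2 : ℝ) = p k := by
    intro k
    rw [← ENNReal.rpow_mul]
    norm_num
  have h4 : ∀ k, ((p k ^ (1 / 2 : ℝ))⁻¹ * b k) ^ (2 : ℝ) = (p k)⁻¹ * b k ^ 2 := by
    intro k
    rw [ENNReal.mul_rpow_of_nonneg _ _ (by norm_num), ENNReal.inv_rpow, h3]
    congr 1
    exact ENNReal.rpow_two _
  simp only [h2, h3, h4] at h1
  calc (∑' k, b k) ^ 2 ≤ ((∑' k, p k) ^ (1 / 2 : ℝ) * (∑' k, (p k)⁻¹ * b k ^ 2) ^ (1 / 2 : ℝ)) ^ 2 := by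
        gcongr
    _ = (∑' k, p k) * ∑' k, (p k)⁻¹ * b k ^ 2 := by
        rw [mul_pow, ← ENNReal.rpow_two, ← ENNReal.rpow_two, ← ENNReal.rpow_mul, ← ENNReal.rpow_mul]
        norm_num

/-! ### The dual side -/

lemma ex_sub (x y : ℝ) (p : ℕ+ × ℕ+) : ex (x - y) p = ex x p * (starRingEnd ℂ) (ex y p) := by
  unfold ex
  rw [← Complex.exp_conj, ← Complex.exp_add]
  congr 1
  rw [map_mul, Complex.conj_I, Complex.conj_ofReal]
  push_cast
  ring

/-- the weights of the dual kernel -/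
noncomputable def wd (δ U Y : ℝ) (q : Q) : ℝ := if Y < hgt q.1 then kap δ U (hgt q.1) * (hgt q.1)⁻¹ else 0

lemma wd_nonneg {δ U Y : ℝ} (hU : 0 ≤ U) (q : Q) : 0 ≤ wd δ U Y q := by
  unfold wd
  split_ifs
  · exact mul_nonneg (kap_nonneg hU (hgt_pos q.1).le) (inv_nonneg.2 (hgt_pos q.1).le)
  · exact le_rfl

lemma wd_summable {δ U Y : ℝ} (hU : 0 ≤ U)
    (hs : Summable fun q : Q => kap δ U (hgt q.1) * (hgt q.1)⁻¹) : Summable (wd δ U Y) := by
  refine Summable.of_nonneg_of_le (fun q => wd_nonneg hU q) (fun q => ?_) hs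
  unfold wd
  split_ifs
  · exact le_rfl
  · exact mul_nonneg (kap_nonneg hU (hgt_pos q.1).le) (inv_nonneg.2 (hgt_pos q.1).le)

lemma dual_hasSum {δ U Y : ℝ} {G : ℝ → ℂ} (hU : 0 ≤ U) (hG : Integrable G)
    (hs : Summable fun q : Q => kap δ U (hgt q.1) * (hgt q.1)⁻¹) (k : ℤ) :
    HasSum (fun q : Q => ((wd δ U Y q * ‖Gt U G k q‖ ^ 2 : ℝ) : ℂ))
      (∫ z : ℝ × ℝ, (G z.1 * ek U k z.1) * (starRingEnd ℂ) (G z.2 * ek U k z.2) * Dk δ U Y (z.1 - z.2)) := by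
  have hw := wd_summable (Y := Y) hU hs
  have hi1 := fun q => Gt_int (U := U) hG k q
  have hi2 : ∀ q : Q, Integrable (fun t => (starRingEnd ℂ) (G t * (ek U k t * ex t q.1))) := by
    intro q
    refine (hi1 q).mono ?_ (Filter.Eventually.of_forall fun t => ?_)
    · exact Complex.continuous_conj.comp_aestronglyMeasurable (hi1 q).aestronglyMeasurable
    · simp
  set F : Q → ℝ × ℝ → ℂ := fun q z => (wd δ U Y q : ℂ) *
    ((G z.1 * (ek U k z.1 * ex z.1 q.1)) * (starRingEnd ℂ) (G z.2 * (ek U k z.2 * ex z.2 q.1))) with hF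
  have hFint : ∀ q, Integrable (F q) := by
    intro q
    exact ((hi1 q).mul_prod (hi2 q)).const_mul _
  have hFn : ∀ q z, ‖F q z‖ = wd δ U Y q * (‖G z.1‖ * ‖G z.2‖) := by
    intro q z
    rw [hF]
    simp only
    rw [norm_mul, norm_mul, Complex.norm_real, Real.norm_of_nonneg (wd_nonneg hU q), RCLike.norm_conj]
    simp only [norm_mul, norm_ek, norm_ex, mul_one]
  have hFI : ∀ q, ∫ z, ‖F q z‖ = wd δ U Y q * ((∫ t, ‖G t‖) * ∫ t, ‖G t‖) := by
    intro q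
    rw [← integral_prod_mul (μ := volume) (ν := volume) (fun t => ‖G t‖) (fun t => ‖G t‖),
      ← integral_const_mul]
    exact integral_congr_ae (Filter.Eventually.of_forall fun z => hFn q z)
  have hFsum : Summable fun q => ∫ z, ‖F q z‖ := by
    refine (hw.mul_right ((∫ t, ‖G t‖) * ∫ t, ‖G t‖)).congr fun q => ?_
    rw [hFI]
  have h1 := hasSum_integral_of_summable_integral_norm hFint hFsum
  have h2 : ∫ z, (∑' q, F q z) =
      ∫ z : ℝ × ℝ, (G z.1 * ek U k z.1) * (starRingEnd ℂ) (G z.2 * ek U k z.2) * Dk δ U Y (z.1 - z.2) := by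
    refine integral_congr_ae (Filter.Eventually.of_forall fun z => ?_)
    simp only
    unfold Dk
    rw [← tsum_mul_left]
    refine tsum_congr fun q => ?_
    rw [hF]
    simp only
    unfold wd
    rw [ex_sub, map_mul, map_mul, map_mul]
    split_ifs
    · ring
    · simp
  rw [h2] at h1
  refine h1.congr_fun ?_
  intro q
  have h3 : ∫ z, F q z = (wd δ U Y q : ℂ) *
      ((∫ t, G t * (ek U k t * ex t q.1)) * ∫ t, (starRingEnd ℂ) (G t * (ek U k t * ex t q.1))) := by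
    rw [← integral_prod_mul (μ := volume) (ν := volume) (fun t => G t * (ek U k t * ex t q.1))
      (fun t => (starRingEnd ℂ) (G t * (ek U k t * ex t q.1))), ← integral_const_mul]
    rfl
  rw [h3, integral_conj, Complex.mul_conj, Complex.normSq_eq_norm_sq]
  unfold Gt
  push_cast
  rfl

lemma dual_enorm {δ U Y : ℝ} {G : ℝ → ℂ} (hU : 0 ≤ U) (hG : Integrable G)
    (hs : Summable fun q : Q => kap δ U (hgt q.1) * (hgt q.1)⁻¹) (k : ℤ) :
    ∑' q : Q, ENNReal.ofReal (wd δ U Y q * ‖Gt U G k q‖ ^ 2) ≤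
      ∫⁻ z : ℝ × ℝ, ‖G z.1‖ₑ * (‖G z.2‖ₑ * ‖Dk δ U Y (z.1 - z.2)‖ₑ) := by
  have h1 := dual_hasSum (Y := Y) hU hG hs k
  have h2 : Summable (fun q : Q => wd δ U Y q * ‖Gt U G k q‖ ^ 2) := by
    exact_mod_cast h1.summable
  have h3 : (∫ z : ℝ × ℝ, (G z.1 * ek U k z.1) * (starRingEnd ℂ) (G z.2 * ek U k z.2) * Dk δ U Y (z.1 - z.2)) =
      ((∑' q : Q, wd δ U Y q * ‖Gt U G k q‖ ^ 2 : ℝ) : ℂ) := by
    rw [← h1.tsum_eq, Complex.ofReal_tsum]
  have h0 : ∀ q, 0 ≤ wd δ U Y q * ‖Gt U G k q‖ ^ 2 := fun q =>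
    mul_nonneg (wd_nonneg hU q) (by positivity)
  rw [← ENNReal.ofReal_tsum_of_nonneg h0 h2]
  have h4 : ENNReal.ofReal (∑' q : Q, wd δ U Y q * ‖Gt U G k q‖ ^ 2) =
      ‖∫ z : ℝ × ℝ, (G z.1 * ek U k z.1) * (starRingEnd ℂ) (G z.2 * ek U k z.2) * Dk δ U Y (z.1 - z.2)‖ₑ := by
    rw [h3, ← ofReal_norm, Complex.norm_real, Real.norm_of_nonneg (tsum_nonneg h0)]
  rw [h4]
  refine (enorm_integral_le_lintegral_enorm _).trans (le_of_eq ?_)
  refine lintegral_congr fun z => ?_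
  rw [enorm_mul, enorm_mul, mul_assoc]
  congr 1
  · rw [← ofReal_norm, ← ofReal_norm, norm_mul, norm_ek, mul_one]
  · congr 1
    rw [← ofReal_norm, ← ofReal_norm, RCLike.norm_conj, norm_mul, norm_ek, mul_one]

lemma double_bound {G : ℝ → ℂ} {D : ℝ → ℂ} (hG : Measurable G) {a b M : ENNReal} {r : ℝ}
    (hM : ∀ t, ‖G t‖ₑ ≤ M)
    (hD : ∀ t t', G t ≠ 0 → G t' ≠ 0 → ‖D (t - t')‖ₑ ≤ a + if |t - t'| < r then b else 0) :
    ∫⁻ z : ℝ × ℝ, ‖G z.1‖ₑ * (‖G z.2‖ₑ * ‖D (z.1 - z.2)‖ₑ) ≤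
      (∫⁻ t, ‖G t‖ₑ) * (a * (∫⁻ t, ‖G t‖ₑ) + b * (M * ENNReal.ofReal (2 * r))) := by
  have hGe : Measurable (fun t => ‖G t‖ₑ) := hG.enorm
  have hset : MeasurableSet {z : ℝ × ℝ | |z.1 - z.2| < r} :=
    measurableSet_lt ((measurable_fst.sub measurable_snd).abs) measurable_const
  have hite : Measurable (fun z : ℝ × ℝ => if |z.1 - z.2| < r then b else 0) :=
    Measurable.ite hset measurable_const measurable_const
  have h1 : ∫⁻ z : ℝ × ℝ, ‖G z.1‖ₑ * (‖G z.2‖ₑ * ‖D (z.1 - z.2)‖ₑ) ≤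
      ∫⁻ z : ℝ × ℝ, ‖G z.1‖ₑ * (‖G z.2‖ₑ * (a + if |z.1 - z.2| < r then b else 0)) := by
    refine lintegral_mono fun z => ?_
    by_cases h1 : G z.1 = 0
    · simp [h1]
    by_cases h2 : G z.2 = 0
    · simp [h2]
    exact mul_le_mul_right (mul_le_mul_right (hD z.1 z.2 h1 h2) _) _
  refine h1.trans ?_
  rw [Measure.volume_eq_prod, lintegral_prod _ (by
    exact ((hGe.comp measurable_fst).mul ((hGe.comp measurable_snd).mul
      (measurable_const.add hite))).aemeasurable)]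
  rw [← lintegral_mul_const _ hGe]
  refine lintegral_mono fun t => ?_
  have hm2 : Measurable (fun t' : ℝ => ‖G t'‖ₑ * (a + if |t - t'| < r then b else 0)) := by
    refine hGe.mul (measurable_const.add ?_)
    exact Measurable.ite (measurableSet_lt ((measurable_const.sub measurable_id).abs) measurable_const)
      measurable_const measurable_const
  simp only
  rw [lintegral_const_mul _ hm2]
  refine mul_le_mul_right ?_ _
  have h2 : ∀ t' : ℝ, ‖G t'‖ₑ * (a + if |t - t'| < r then b else 0) ≤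
      a * ‖G t'‖ₑ + (Set.Ioo (t - r) (t + r)).indicator (fun _ => b * M) t' := by
    intro t'
    rw [mul_add, mul_comm a]
    refine add_le_add le_rfl ?_
    by_cases h3 : |t - t'| < r
    · rw [if_pos h3, Set.indicator_of_mem, mul_comm]
      · exact mul_le_mul_right (hM t') _
      · rw [abs_lt] at h3
        exact ⟨by linarith, by linarith⟩
    · rw [if_neg h3, mul_zero]
      exact zero_le
  refine (lintegral_mono h2).trans ?_
  rw [lintegral_add_left (f := fun t' => a * ‖G t'‖ₑ) (hGe.const_mul a), lintegral_const_mul _ hGe,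
    lintegral_indicator measurableSet_Ioo, setLIntegral_const, Real.volume_Ioo]
  have h4 : t + r - (t - r) = 2 * r := by ring
  rw [h4, mul_assoc]

/-! ### Zeta -/

lemma zeta_cont4 : Continuous (fun x : ℝ => ‖riemannZeta (1 / 2 + x * I)‖ ^ 4) := by
  refine Continuous.pow (Continuous.norm ?_) 4
  refine continuous_iff_continuousAt.2 fun v => ?_
  refine ContinuousAt.comp (g := riemannZeta) ?_ (by fun_prop)
  refine (differentiableAt_riemannZeta ?_).continuousAt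
  intro h
  have := congrArg Complex.re h
  norm_num at this

lemma fourth_long (ε : ℝ) (hε : 0 < ε) (hε1 : ε ≤ 1) : ∃ C : ℝ, 0 < C ∧ ∀ U : ℝ, 1 ≤ U →
    ∫ x in U..(12 * U), ‖riemannZeta (1 / 2 + x * I)‖ ^ 4 ≤ C * U ^ (1 + ε) := by
  obtain ⟨C, hC, h⟩ := zeta_fourth ε hε
  refine ⟨29 * C, by positivity, fun U hU => ?_⟩
  have hU0 : 0 < U := by linarith
  set f : ℝ → ℝ := fun x => ‖riemannZeta (1 / 2 + x * I)‖ ^ 4 with hf
  have hfi : ∀ a b : ℝ, IntervalIntegrable f volume a b := fun a b => zeta_cont4.intervalIntegrable a b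
  have h1 := h U U hU le_rfl (by linarith)
  have h2 := h U (2 * U) hU (by linarith) (by linarith)
  have h3 := h (3 * U) (3 * U) (by linarith) le_rfl (by linarith)
  have h4 := h (3 * U) (6 * U) (by linarith) (by linarith) (by linarith)
  have h5 := h (3 * U) (9 * U) (by linarith) (by linarith) (by linarith)
  have e1 : U + U = 2 * U := by ring
  have e2 : 2 * U + U = 3 * U := by ring
  have e3 : 3 * U + 3 * U = 6 * U := by ring
  have e4 : 6 * U + 3 * U = 9 * U := by ring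
  have e5 : 9 * U + 3 * U = 12 * U := by ring
  rw [e1] at h1
  rw [e2] at h2
  rw [e3] at h3
  rw [e4] at h4
  rw [e5] at h5
  have h6 : (3 * U) ^ (1 + ε) ≤ 9 * U ^ (1 + ε) := by
    rw [Real.mul_rpow (by norm_num) hU0.le]
    refine mul_le_mul_of_nonneg_right ?_ (by positivity)
    calc (3 : ℝ) ^ (1 + ε) ≤ (3 : ℝ) ^ (2 : ℝ) := Real.rpow_le_rpow_of_exponent_le (by norm_num) (by linarith)
      _ = 9 := by norm_num
  have h7 : C * (3 * U) ^ (1 + ε) ≤ C * (9 * U ^ (1 + ε)) := mul_le_mul_of_nonneg_left h6 hC.le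
  rw [← intervalIntegral.integral_add_adjacent_intervals (hfi U (2 * U)) (hfi (2 * U) (12 * U)),
    ← intervalIntegral.integral_add_adjacent_intervals (hfi (2 * U) (3 * U)) (hfi (3 * U) (12 * U)),
    ← intervalIntegral.integral_add_adjacent_intervals (hfi (3 * U) (6 * U)) (hfi (6 * U) (12 * U)),
    ← intervalIntegral.integral_add_adjacent_intervals (hfi (6 * U) (9 * U)) (hfi (9 * U) (12 * U))]
  linarith

lemma G_lint {ε C U α : ℝ} {G : ℝ → ℂ} (hU : 1 ≤ U)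
    (hC : ∫ x in U..(12 * U), ‖riemannZeta (1 / 2 + x * I)‖ ^ 4 ≤ C * U ^ (1 + ε))
    (hα1 : 2 * U ≤ α) (hα2 : α ≤ 6 * U) (h1 : ∀ t, t < -U → G t = 0) (h2 : ∀ t, 4 * U < t → G t = 0)
    (h3 : ∀ t, ‖G t‖ ≤ ‖riemannZeta (1 / 2 + ((t + α : ℝ) : ℂ) * I)‖ ^ 4) :
    ∫⁻ t, ‖G t‖ₑ ≤ ENNReal.ofReal (C * U ^ (1 + ε)) := by
  set f : ℝ → ℝ := fun x => ‖riemannZeta (1 / 2 + x * I)‖ ^ 4 with hf
  have hfc : Continuous f := zeta_cont4
  have hfc2 : Continuous (fun t => f (t + α)) := hfc.comp (by fun_prop)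
  have hle : ∀ t, ‖G t‖ₑ ≤ (Set.Icc (-U) (4 * U)).indicator (fun t => ENNReal.ofReal (f (t + α))) t := by
    intro t
    by_cases ht : t ∈ Set.Icc (-U) (4 * U)
    · rw [Set.indicator_of_mem ht, ← ofReal_norm]
      exact ENNReal.ofReal_le_ofReal (h3 t)
    · have h0 : G t = 0 := by
        rw [Set.mem_Icc, not_and_or, not_le, not_le] at ht
        rcases ht with ht | ht
        · exact h1 t ht
        · exact h2 t ht
      simp [h0]
  refine (lintegral_mono hle).trans ?_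
  rw [lintegral_indicator measurableSet_Icc, ← ofReal_integral_eq_lintegral_ofReal
    (hfc2.continuousOn.integrableOn_compact isCompact_Icc)
    (Filter.Eventually.of_forall fun t => by simp only [hf, Pi.zero_apply]; positivity)]
  refine ENNReal.ofReal_le_ofReal (le_trans ?_ hC)
  rw [integral_Icc_eq_integral_Ioc, ← intervalIntegral.integral_of_le (by linarith),
    intervalIntegral.integral_comp_add_right f α]
  refine intervalIntegral.integral_mono_interval (by linarith) (by linarith) (by linarith)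
    (Filter.Eventually.of_forall fun t => by simp only [hf, Pi.zero_apply]; positivity)
    (hfc.intervalIntegrable _ _)

end LongPartAux

open LongPartAux

theorem Fd_split (Y x : ℝ) (hx : 0 < x) : Fd x = FdSmall Y x + FdBig Y x := by
  have hs := cfQ_summable hx
  rw [Fd_eq hx]
  unfold FdSmall FdBig
  rw [← Summable.tsum_add]
  · refine tsum_congr fun q => ?_
    split_ifs <;> simp
  · refine Summable.of_norm_bounded hs (fun q => ?_)
    split_ifs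
    · rw [norm_zero]
      exact mul_nonneg (Real.rpow_nonneg (hgt_pos q.1).le _) (Om_nonneg _ _)
    · rw [full_norm]
  · exact Summable.of_norm_bounded hs (fun q => bt_norm Y x q)

theorem FdBig_continuousOn (Y : ℝ) : ContinuousOn (FdBig Y) (Set.Ioi 0) := by
  intro x0 hx0
  have hx0' : 0 < x0 := hx0
  have h1 : ContinuousOn (FdBig Y) (Set.Ioo 0 (x0 + 1)) := by
    have h2 : FdBig Y = fun x => ∑' q, bt Y x q := rfl
    rw [h2]
    refine continuousOn_tsum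
      (u := fun q : Q => (hgt q.1) ^ (-(1 / 2) : ℝ) * Om (hgt q.1) (x0 + 1)) (fun q => ?_)
      (cfQ_summable (by linarith)) (fun q x hx => ?_)
    · unfold bt
      by_cases hq : Y < hgt q.1
      · simp only [if_pos hq]
        refine ContinuousOn.mul ?_ (ex_cont q.1).continuousOn
        refine Complex.continuous_ofReal.comp_continuousOn ?_
        exact continuousOn_const.mul ((Om_cont (one_le_hgt q.1)).mono fun x hx => hx.1)
      · simp only [if_neg hq]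
        exact continuousOn_const
    · refine (bt_norm Y x q).trans ?_
      exact mul_le_mul_of_nonneg_left (Om_mono (one_le_hgt q.1) hx.1 hx.2.le)
        (Real.rpow_nonneg (hgt_pos q.1).le _)
  exact (h1.continuousAt (Ioo_mem_nhds hx0' (by linarith))).continuousWithinAt

theorem long_part (δ₀ : ℝ) (hδ₀ : 0 < δ₀) (hδ₁ : δ₀ ≤ 1) : ∃ c C : ℝ, 0 < c ∧ 0 < C ∧ ∀ U Y α β : ℝ, 1 ≤ U →
    U ^ δ₀ ≤ Y → Y ≤ U → 2 * U ≤ α → α ≤ 6 * U → 2 * U ≤ β → β ≤ 6 * U → ∀ G : ℝ → ℂ, Measurable G →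
    (∀ t, t < -U → G t = 0) → (∀ t, 4 * U < t → G t = 0) →
    (∀ t, ‖G t‖ ≤ ‖riemannZeta (1 / 2 + ((t + α : ℝ) : ℂ) * I)‖ ^ 4) →
    ∫⁻ h in Set.Icc β (β + U), ‖∫ t, G t * FdBig Y (t + h)‖ₑ ^ 2 ≤ ENNReal.ofReal (C * U ^ (3 - c)) := by
  obtain ⟨c', C', hc', hC', hsub⟩ := subconvex
  obtain ⟨c1, hc1e⟩ : ∃ c1, c1 = min c' (1 / 4) := ⟨_, rfl⟩
  have hc1 : 0 < c1 := by rw [hc1e]; positivity
  have hc1c : c1 ≤ c' := by rw [hc1e]; exact min_le_left _ _
  have hc14 : c1 ≤ 1 / 4 := by rw [hc1e]; exact min_le_right _ _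
  obtain ⟨δ₁, hδe⟩ : ∃ δ₁, δ₁ = min c1 δ₀ := ⟨_, rfl⟩
  have hδp : 0 < δ₁ := by rw [hδe]; positivity
  have hδc : δ₁ ≤ c1 := by rw [hδe]; exact min_le_left _ _
  have hδd : δ₁ ≤ δ₀ := by rw [hδe]; exact min_le_right _ _
  obtain ⟨c2, hc2, hdk⟩ := dk_bound δ₁ hδp (by linarith)
  obtain ⟨c3, hc3e⟩ : ∃ c3, c3 = min c1 c2 := ⟨_, rfl⟩
  have hc3 : 0 < c3 := by rw [hc3e]; positivity
  have hc31 : c3 ≤ c1 := by rw [hc3e]; exact min_le_left _ _
  have hc32 : c3 ≤ c2 := by rw [hc3e]; exact min_le_right _ _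
  obtain ⟨δ, hδ⟩ : ∃ δ, δ = c3 / 10 := ⟨_, rfl⟩
  have hδ0 : 0 < δ := by rw [hδ]; positivity
  have hδ2 : δ ≤ 1 / 2 := by rw [hδ]; linarith
  obtain ⟨C2, hC2, hdk2⟩ := hdk δ hδ0 hδ2
  obtain ⟨C3, hC3, hdt⟩ := dk_trivial δ hδ0 hδ2
  obtain ⟨C4, hC4, hz4⟩ := fourth_long δ hδ0 (by linarith)
  obtain ⟨Cω, hCω, hsep⟩ := four_sep δ hδ0 hδ2
  obtain ⟨Cl, hCl, hls⟩ := large_sieve δ hδ0 hδ2
  set P : ℝ := ∑' k, pk k with hP
  have hP0 : 0 ≤ P := tsum_nonneg fun k => (pk_pos k).le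
  refine ⟨c3 / 2, P * (P * (Cω ^ 2 * (Cl * (C4 * (C2 * C4 + C3 * (10 * C' ^ 2 * 2)))))) + 1, by positivity,
    by positivity, ?_⟩
  intro U Y α β hU hY1 hY2 hα1 hα2 hβ1 hβ2 G hGm hG1 hG2 hG3
  have hU0 : 0 < U := by linarith
  -- the integral of `G`
  have hI := G_lint hU (hz4 U hU) hα1 hα2 hG1 hG2 hG3
  set I0 : ENNReal := ∫⁻ t, ‖G t‖ₑ with hI0
  have hGi : Integrable G := by
    refine ⟨hGm.aestronglyMeasurable, ?_⟩
    exact lt_of_le_of_lt hI ENNReal.ofReal_lt_top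
  -- the supremum of `G`
  set M : ℝ := 10 * C' ^ 2 * U ^ (1 - 2 * c1) with hM
  have hM0 : 0 ≤ M := by positivity
  have hGM : ∀ t, ‖G t‖ₑ ≤ ENNReal.ofReal M := by
    intro t
    rcases lt_or_ge t (-U) with ht | ht
    · rw [hG1 t ht]
      simp
    rcases lt_or_ge (4 * U) t with ht2 | ht2
    · rw [hG2 t ht2]
      simp
    rw [← ofReal_norm]
    refine ENNReal.ofReal_le_ofReal ((hG3 t).trans ?_)
    have hx1 : 1 ≤ t + α := by linarith
    have hx0 : 0 < t + α := by linarith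
    have h1 := hsub (t + α) hx1
    have h2 : (t + α) ^ (1 / 2 - c') ≤ (10 * U) ^ (1 / 2 - c1) := by
      calc (t + α) ^ (1 / 2 - c') ≤ (t + α) ^ (1 / 2 - c1) :=
            Real.rpow_le_rpow_of_exponent_le hx1 (by linarith)
        _ ≤ (10 * U) ^ (1 / 2 - c1) := Real.rpow_le_rpow hx0.le (by linarith) (by linarith)
    have h3 : ‖riemannZeta (1 / 2 + ((t + α : ℝ) : ℂ) * I)‖ ^ 2 ≤ C' * (10 * U) ^ (1 / 2 - c1) :=
      h1.trans (mul_le_mul_of_nonneg_left h2 hC'.le)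
    have h4 : ((10 * U) ^ (1 / 2 - c1)) ^ 2 ≤ 10 * U ^ (1 - 2 * c1) := by
      rw [← Real.rpow_natCast, ← Real.rpow_mul (by positivity)]
      have e : (1 / 2 - c1) * ((2 : ℕ) : ℝ) = 1 - 2 * c1 := by
        push_cast
        ring
      rw [e, Real.mul_rpow (by norm_num) hU0.le]
      refine mul_le_mul_of_nonneg_right ?_ (by positivity)
      calc (10 : ℝ) ^ (1 - 2 * c1) ≤ (10 : ℝ) ^ (1 : ℝ) :=
            Real.rpow_le_rpow_of_exponent_le (by norm_num) (by linarith)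
        _ = 10 := Real.rpow_one _
    calc ‖riemannZeta (1 / 2 + ((t + α : ℝ) : ℂ) * I)‖ ^ 4 =
          (‖riemannZeta (1 / 2 + ((t + α : ℝ) : ℂ) * I)‖ ^ 2) ^ 2 := by ring
      _ ≤ (C' * (10 * U) ^ (1 / 2 - c1)) ^ 2 := pow_le_pow_left₀ (by positivity) h3 2
      _ = C' ^ 2 * ((10 * U) ^ (1 / 2 - c1)) ^ 2 := by ring
      _ ≤ C' ^ 2 * (10 * U ^ (1 - 2 * c1)) := mul_le_mul_of_nonneg_left h4 (by positivity)
      _ = M := by rw [hM]; ring
  -- the dual kernel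
  set a : ℝ := C2 * U ^ (δ - c2) with ha
  set b : ℝ := C3 * U ^ δ with hb
  have ha0 : 0 ≤ a := by positivity
  have hb0 : 0 ≤ b := by positivity
  obtain ⟨hds, hdb⟩ := hdt U hU
  have hDtriv : ∀ τ, ‖Dk δ U Y τ‖ ≤ b := by
    intro τ
    refine le_trans ?_ hdb
    unfold Dk
    refine tsum_of_norm_bounded hds.hasSum fun q => ?_
    split_ifs
    · rw [norm_mul, norm_ex, mul_one, Complex.norm_real, Real.norm_of_nonneg]
      exact mul_nonneg (kap_nonneg hU0.le (hgt_pos q.1).le) (inv_nonneg.2 (hgt_pos q.1).le)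
    · rw [norm_zero]
      exact mul_nonneg (kap_nonneg hU0.le (hgt_pos q.1).le) (inv_nonneg.2 (hgt_pos q.1).le)
  have hrange : ∀ t, G t ≠ 0 → -U ≤ t ∧ t ≤ 4 * U := by
    intro t ht
    constructor
    · by_contra h
      push Not at h
      exact ht (hG1 t h)
    · by_contra h
      push Not at h
      exact ht (hG2 t h)
  have hD : ∀ t t', G t ≠ 0 → G t' ≠ 0 → ‖Dk δ U Y (t - t')‖ₑ ≤
      ENNReal.ofReal a + if |t - t'| < U ^ δ₁ then ENNReal.ofReal b else 0 := by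
    intro t t' ht ht'
    have h1 := hrange t ht
    have h2 := hrange t' ht'
    by_cases h3 : |t - t'| < U ^ δ₁
    · rw [if_pos h3, ← ofReal_norm]
      exact (ENNReal.ofReal_le_ofReal (hDtriv _)).trans le_add_self
    · rw [if_neg h3, add_zero, ← ofReal_norm]
      push Not at h3
      refine ENNReal.ofReal_le_ofReal (hdk2 U Y (t - t') hU ?_ hY2 h3 ?_)
      · refine le_trans ?_ hY1
        exact Real.rpow_le_rpow_of_exponent_le hU hδd
      · rw [abs_le]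
        constructor <;> linarith
  set V : ENNReal := I0 * (ENNReal.ofReal a * I0 + ENNReal.ofReal b * (ENNReal.ofReal M * ENNReal.ofReal (2 * U ^ δ₁)))
    with hV
  have hVb : ∀ k : ℤ, ∑' q : Q, ENNReal.ofReal (wd δ U Y q * ‖Gt U G k q‖ ^ 2) ≤ V := fun k =>
    (dual_enorm hU0.le hGi hds k).trans (double_bound hGm hGM hD)
  -- separation
  obtain ⟨ω, hω1, hω2⟩ := hsep U hU
  have hpt : ∀ h ∈ Set.Icc β (β + U), ‖∫ t, G t * FdBig Y (t + h)‖ₑ ^ 2 ≤
      (∑' k, ENNReal.ofReal (pk k)) * ∑' k, (ENNReal.ofReal (pk k))⁻¹ * ‖Ak Y U ω G k h‖ₑ ^ 2 := by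
    intro h hh
    have h1 := int_bound (Y := Y) (h := h) hδ0 hδ2 hU hCω.le hω1 hGi (by
      intro t ht h' hh'
      have h2 := hrange t ht
      exact hω2 h' hh' (t + h) (by linarith [hh.1]) (by linarith [hh.2]))
    refine le_trans ?_ (cs (fun k => ENNReal.ofReal (pk k)) (fun k => ‖Ak Y U ω G k h‖ₑ)
      (fun k => by
        rw [ne_eq, ENNReal.ofReal_eq_zero, not_le]
        exact pk_pos k) (fun k => ENNReal.ofReal_ne_top))
    gcongr
  have hPe : ∑' k, ENNReal.ofReal (pk k) = ENNReal.ofReal P := by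
    rw [hP, ENNReal.ofReal_tsum_of_nonneg (fun k => (pk_pos k).le) pk_summable]
  have hAk : ∀ k : ℤ, ∫⁻ h in Set.Icc β (β + U), ‖Ak Y U ω G k h‖ₑ ^ 2 ≤
      ENNReal.ofReal (Cl * U ^ (1 + 2 * δ)) * (ENNReal.ofReal ((Cω * pk k) ^ 2) * V) := by
    intro k
    set Bq : Q → ℝ := fun q => if Y < hgt q.1 then Cω * pk k * ‖Gt U G k q‖ else 0 with hBq
    have hB1 : ∀ q, 0 ≤ Bq q := by
      intro q
      rw [hBq]
      simp only
      split_ifs
      · exact mul_nonneg (mul_nonneg hCω.le (pk_pos k).le) (norm_nonneg _)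
      · exact le_rfl
    have hB2 : ∀ q, Bq q ≤ Cω * pk k * ∫ t, ‖G t‖ := by
      intro q
      rw [hBq]
      simp only
      split_ifs
      · exact mul_le_mul_of_nonneg_left (Gt_norm k q) (mul_nonneg hCω.le (pk_pos k).le)
      · exact mul_nonneg (mul_nonneg hCω.le (pk_pos k).le) (integral_nonneg fun t => norm_nonneg _)
    have hB3 : ∀ q, ‖co Y ω k q * Gt U G k q‖ ≤
        kap δ U (hgt q.1) * (hgt q.1) ^ (-(1 / 2) : ℝ) * Bq q := by
      intro q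
      rw [hBq]
      simp only
      split_ifs with hq
      · rw [norm_mul]
        have h1 := co_norm (Y := Y) hCω.le hU0.le hω1 k q
        calc ‖co Y ω k q‖ * ‖Gt U G k q‖ ≤ Cω * pk k * ww δ U q * ‖Gt U G k q‖ :=
              mul_le_mul_of_nonneg_right h1 (norm_nonneg _)
          _ = _ := by unfold ww; ring
      · unfold co
        rw [if_neg hq]
        simp
    obtain ⟨_, hls2⟩ := hls U U β hU hU0.le le_rfl (fun q => co Y ω k q * Gt U G k q) Bq _ hB1 hB2 hB3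
    refine hls2.trans ?_
    refine mul_le_mul_right ?_ _
    have h2 : ∀ q : Q, ENNReal.ofReal (kap δ U (hgt q.1) * (hgt q.1)⁻¹ * Bq q ^ 2) =
        ENNReal.ofReal ((Cω * pk k) ^ 2) * ENNReal.ofReal (wd δ U Y q * ‖Gt U G k q‖ ^ 2) := by
      intro q
      rw [← ENNReal.ofReal_mul (by positivity)]
      congr 1
      rw [hBq]
      unfold wd
      simp only
      split_ifs
      · ring
      · ring
    rw [tsum_congr h2, ENNReal.tsum_mul_left]
    exact mul_le_mul_right (hVb k) _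
  -- assembly
  have hmain : ∫⁻ h in Set.Icc β (β + U), ‖∫ t, G t * FdBig Y (t + h)‖ₑ ^ 2 ≤
      ENNReal.ofReal P * (ENNReal.ofReal P * (ENNReal.ofReal (Cω ^ 2) *
        (ENNReal.ofReal (Cl * U ^ (1 + 2 * δ)) * V))) := by
    have h1 : ∫⁻ h in Set.Icc β (β + U), ‖∫ t, G t * FdBig Y (t + h)‖ₑ ^ 2 ≤
        ∫⁻ h in Set.Icc β (β + U), ENNReal.ofReal P *
          ∑' k, (ENNReal.ofReal (pk k))⁻¹ * ‖Ak Y U ω G k h‖ₑ ^ 2 := by
      refine setLIntegral_mono' measurableSet_Icc (fun h hh => ?_)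
      rw [← hPe]
      exact hpt h hh
    refine h1.trans ?_
    have hmeas : ∀ k : ℤ, Measurable (fun h => (ENNReal.ofReal (pk k))⁻¹ * ‖Ak Y U ω G k h‖ₑ ^ 2) := by
      intro k
      exact ((Ak_cont (Y := Y) (G := G) hδ0 hδ2 hU hCω.le hω1 k).measurable.enorm.pow_const 2).const_mul _
    rw [lintegral_const_mul _ (Measurable.ennreal_tsum hmeas)]
    refine mul_le_mul_right ?_ _
    rw [lintegral_tsum (fun k => (hmeas k).aemeasurable)]
    have h2 : ∀ k : ℤ, ∫⁻ h in Set.Icc β (β + U), (ENNReal.ofReal (pk k))⁻¹ * ‖Ak Y U ω G k h‖ₑ ^ 2 ≤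
        ENNReal.ofReal (pk k) * (ENNReal.ofReal (Cω ^ 2) * (ENNReal.ofReal (Cl * U ^ (1 + 2 * δ)) * V)) := by
      intro k
      have hp0 : ENNReal.ofReal (pk k) ≠ 0 := by
        rw [ne_eq, ENNReal.ofReal_eq_zero, not_le]
        exact pk_pos k
      have hp1 : ENNReal.ofReal (pk k) ≠ ⊤ := ENNReal.ofReal_ne_top
      rw [lintegral_const_mul _
        ((Ak_cont (Y := Y) (G := G) hδ0 hδ2 hU hCω.le hω1 k).measurable.enorm.pow_const 2)]
      refine (mul_le_mul_right (hAk k) _).trans (le_of_eq ?_)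
      have e : ENNReal.ofReal ((Cω * pk k) ^ 2) =
          ENNReal.ofReal (Cω ^ 2) * (ENNReal.ofReal (pk k) * ENNReal.ofReal (pk k)) := by
        rw [← ENNReal.ofReal_mul (pk_pos k).le, ← ENNReal.ofReal_mul (by positivity)]
        congr 1
        ring
      rw [e]
      calc (ENNReal.ofReal (pk k))⁻¹ * (ENNReal.ofReal (Cl * U ^ (1 + 2 * δ)) *
            (ENNReal.ofReal (Cω ^ 2) * (ENNReal.ofReal (pk k) * ENNReal.ofReal (pk k)) * V)) =
            ((ENNReal.ofReal (pk k))⁻¹ * ENNReal.ofReal (pk k)) * (ENNReal.ofReal (pk k) *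
              (ENNReal.ofReal (Cω ^ 2) * (ENNReal.ofReal (Cl * U ^ (1 + 2 * δ)) * V))) := by ring
        _ = _ := by rw [ENNReal.inv_mul_cancel hp0 hp1, one_mul]
    refine (ENNReal.tsum_le_tsum h2).trans (le_of_eq ?_)
    rw [ENNReal.tsum_mul_right, hPe]
  refine hmain.trans ?_
  have hVr : V ≤ ENNReal.ofReal (C4 * (C2 * C4 + C3 * (10 * C' ^ 2 * 2)) * U ^ (2 + 3 * δ - c3)) := by
    rw [hV]
    set J : ℝ := C4 * U ^ (1 + δ) with hJ
    have hJ0 : 0 ≤ J := by positivity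
    have h1 : I0 * (ENNReal.ofReal a * I0 + ENNReal.ofReal b * (ENNReal.ofReal M * ENNReal.ofReal (2 * U ^ δ₁))) ≤
        ENNReal.ofReal J * (ENNReal.ofReal a * ENNReal.ofReal J +
          ENNReal.ofReal b * (ENNReal.ofReal M * ENNReal.ofReal (2 * U ^ δ₁))) := by
      gcongr
    refine h1.trans ?_
    rw [← ENNReal.ofReal_mul hM0, ← ENNReal.ofReal_mul hb0, ← ENNReal.ofReal_mul ha0,
      ← ENNReal.ofReal_add (by positivity) (by positivity), ← ENNReal.ofReal_mul hJ0]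
    refine ENNReal.ofReal_le_ofReal ?_
    have h2 : J * (a * J) = C4 * (C2 * C4) * U ^ (2 + 3 * δ - c2) := by
      rw [hJ, ha]
      have e : U ^ (2 + 3 * δ - c2) = U ^ (1 + δ) * (U ^ (δ - c2) * U ^ (1 + δ)) := by
        rw [← Real.rpow_add hU0, ← Real.rpow_add hU0]
        congr 1
        ring
      rw [e]
      ring
    have h3 : J * (b * (M * (2 * U ^ δ₁))) =
        C4 * (C3 * (10 * C' ^ 2 * 2)) * U ^ (2 + 2 * δ - 2 * c1 + δ₁) := by
      rw [hJ, hb, hM]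
      have e : U ^ (2 + 2 * δ - 2 * c1 + δ₁) = U ^ (1 + δ) * (U ^ δ * (U ^ (1 - 2 * c1) * U ^ δ₁)) := by
        rw [← Real.rpow_add hU0, ← Real.rpow_add hU0, ← Real.rpow_add hU0]
        congr 1
        ring
      rw [e]
      ring
    have h4 : U ^ (2 + 3 * δ - c2) ≤ U ^ (2 + 3 * δ - c3) :=
      Real.rpow_le_rpow_of_exponent_le hU (by linarith)
    have h5 : U ^ (2 + 2 * δ - 2 * c1 + δ₁) ≤ U ^ (2 + 3 * δ - c3) :=
      Real.rpow_le_rpow_of_exponent_le hU (by linarith)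
    calc J * (a * J + b * (M * (2 * U ^ δ₁))) = J * (a * J) + J * (b * (M * (2 * U ^ δ₁))) := by ring
      _ = C4 * (C2 * C4) * U ^ (2 + 3 * δ - c2) +
          C4 * (C3 * (10 * C' ^ 2 * 2)) * U ^ (2 + 2 * δ - 2 * c1 + δ₁) := by rw [h2, h3]
      _ ≤ C4 * (C2 * C4) * U ^ (2 + 3 * δ - c3) +
          C4 * (C3 * (10 * C' ^ 2 * 2)) * U ^ (2 + 3 * δ - c3) :=
          add_le_add (mul_le_mul_of_nonneg_left h4 (by positivity))
            (mul_le_mul_of_nonneg_left h5 (by positivity))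
      _ = _ := by ring
  have h1 : ENNReal.ofReal P * (ENNReal.ofReal P * (ENNReal.ofReal (Cω ^ 2) *
        (ENNReal.ofReal (Cl * U ^ (1 + 2 * δ)) * V))) ≤
      ENNReal.ofReal P * (ENNReal.ofReal P * (ENNReal.ofReal (Cω ^ 2) *
        (ENNReal.ofReal (Cl * U ^ (1 + 2 * δ)) *
          ENNReal.ofReal (C4 * (C2 * C4 + C3 * (10 * C' ^ 2 * 2)) * U ^ (2 + 3 * δ - c3))))) := by
    gcongr
  refine h1.trans ?_
  rw [← ENNReal.ofReal_mul (by positivity), ← ENNReal.ofReal_mul (by positivity),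
    ← ENNReal.ofReal_mul hP0, ← ENNReal.ofReal_mul hP0]
  refine ENNReal.ofReal_le_ofReal ?_
  have e : U ^ (3 - c3 / 2) = U ^ (1 + 2 * δ) * U ^ (2 + 3 * δ - c3) := by
    rw [← Real.rpow_add hU0]
    congr 1
    rw [hδ]
    ring
  rw [e]
  have hpos : 0 ≤ U ^ (1 + 2 * δ) * U ^ (2 + 3 * δ - c3) := by positivity
  calc P * (P * (Cω ^ 2 * (Cl * U ^ (1 + 2 * δ) *
        (C4 * (C2 * C4 + C3 * (10 * C' ^ 2 * 2)) * U ^ (2 + 3 * δ - c3))))) =
        P * (P * (Cω ^ 2 * (Cl * (C4 * (C2 * C4 + C3 * (10 * C' ^ 2 * 2)))))) *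
          (U ^ (1 + 2 * δ) * U ^ (2 + 3 * δ - c3)) := by ring
    _ ≤ (P * (P * (Cω ^ 2 * (Cl * (C4 * (C2 * C4 + C3 * (10 * C' ^ 2 * 2)))))) + 1) *
          (U ^ (1 + 2 * δ) * U ^ (2 + 3 * δ - c3)) :=
        mul_le_mul_of_nonneg_right (by linarith) hpos

end Pool.Agent.P07318f
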