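import Pool.Agent.Lib.P07318f.FullSum

/-!
# Bound and continuity of the final main term

`m_bound`: `κ = min(ε/40, 1/1000)`. `Mxy x y = (4(2πi)⁴)⁻¹ ∯_{|z_i|=1/16} K(z)/∏ z_i⁴` with the continuous `K(z) = HH x y ![z0,z1,-z2,-z3] X2 x ((z0+z1-z2-z3)/2) vdm z (z1-z0)(z3-z2)`
(see `MultiRes`, `rr_hh`), holomorphic in each variable on `0 < |z_i| ≤ 1/16`, so the radii may be decreased one after another to `κ`
(`circleIntegral_eq_of_differentiable_on_annulus`); there `‖HH‖ ≤ C U^(20κ)` (`hh_hol`), `‖X2 x (..)‖ ≤ (16U)^(2κ)`, `|vdm z (z1-z0)(z3-z2)| ≤ 1`, `|z_i|^(-4) = κ^(-4)`.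
(Alternatively use `mxy_eq` only for continuity/measurability; the radius `rho` of `av` is not small enough for the bound.)
`m_cont`: the integrand is jointly continuous (`hh_cont2`; `X2 x` for `x > 0`), `|z_i| = 1/16`: parametric torus integral.
-/

set_option autoImplicit false

namespace Pool.Agent.P07318f

open MeasureTheory Complex Pool.Agent.P07318s

namespace MBoundAux

/-- the continuous form of the integrand of `Mxy` -/
noncomputable def Phi (H : (Fin 4 → ℂ) → ℂ) (x : ℝ) (z : Fin 4 → ℂ) : ℂ :=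
  H ![z 0, z 1, -z 2, -z 3] * X2 x ((z 0 + z 1 - z 2 - z 3) / 2) *
    (vdm z * ((z 1 - z 0) * (z 3 - z 2))) / ∏ i, z i ^ 4

lemma integrand_eq (x y : ℝ) (z : Fin 4 → ℂ) :
    R3 x y ![z 0, z 1, -z 2, -z 3] * X2 x ((z 0 + z 1 - z 2 - z 3) / 2) * vdm z ^ 2 / ∏ i, z i ^ 4 =
      Phi (HH x y) x z := by
  unfold Phi
  congr 1
  have hv : vdm z = (z 1 - z 0) * (z 3 - z 2) * Pi4 ![z 0, z 1, -z 2, -z 3] := by
    unfold vdm Pi4
    simp only [Matrix.cons_val_zero, Matrix.cons_val_one, Matrix.cons_val]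
    ring
  by_cases h : Pi4 ![z 0, z 1, -z 2, -z 3] = 0
  · have hv0 : vdm z = 0 := by rw [hv, h, mul_zero]
    rw [hv0]
    ring
  · rw [rr_hh x y _ h]
    unfold RR
    have h2 : HH x y ![z 0, z 1, -z 2, -z 3] / Pi4 ![z 0, z 1, -z 2, -z 3] * vdm z =
        HH x y ![z 0, z 1, -z 2, -z 3] * ((z 1 - z 0) * (z 3 - z 2)) := by
      rw [hv]
      field_simp
    calc HH x y ![z 0, z 1, -z 2, -z 3] / Pi4 ![z 0, z 1, -z 2, -z 3] *
          X2 x ((z 0 + z 1 - z 2 - z 3) / 2) * vdm z ^ 2 =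
        (HH x y ![z 0, z 1, -z 2, -z 3] / Pi4 ![z 0, z 1, -z 2, -z 3] * vdm z) *
          (X2 x ((z 0 + z 1 - z 2 - z 3) / 2) * vdm z) := by ring
      _ = _ := by
        rw [h2]
        ring

lemma mxy_phi (x y : ℝ) : Mxy x y = (4 * (2 * Real.pi * I) ^ 4)⁻¹ *
    ∯ z in T((0 : Fin 4 → ℂ), fun _ => 1 / 16), Phi (HH x y) x z := by
  unfold Mxy
  congr 1
  unfold torusIntegral
  apply integral_congr_ae
  filter_upwards with θ
  rw [integrand_eq]

lemma bx_of_norm {L : ℝ} (hL : 1 / 2 ≤ L) (z : Fin 4 → ℂ) (hz : ∀ j, ‖z j‖ < 1 / 12) :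
    ![z 0, z 1, -z 2, -z 3] ∈ Bx L := by
  have h1 : ∀ j, |(z j).re| < 1 / 10 ∧ |(z j).im| < L := by
    intro j
    have := hz j
    exact ⟨(abs_re_le_norm _).trans_lt (by linarith), (abs_im_le_norm _).trans_lt (by linarith)⟩
  intro i
  fin_cases i
  · exact h1 0
  · exact h1 1
  · have := h1 2
    simpa using this
  · have := h1 3
    simpa using this

lemma x2_diff (x : ℝ) (hx : 0 < x) : Differentiable ℂ (fun w => X2 x w) := by
  unfold X2
  have h1 : (((x / (2 * Real.pi) : ℝ)) : ℂ) ≠ 0 := by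
    have : x / (2 * Real.pi) ≠ 0 := by positivity
    exact_mod_cast this
  intro w
  exact DifferentiableAt.const_cpow differentiableAt_id (Or.inl h1)

lemma phi_diff {L B : ℝ} {H : (Fin 4 → ℂ) → ℂ} (hH : Hol4 L B H) (hL : 1 / 2 ≤ L) {x : ℝ}
    (hx : 0 < x) (Z : ℂ → Fin 4 → ℂ) (S : Set ℂ) (hS : IsOpen S)
    (hZ : ∀ j, DifferentiableOn ℂ (fun w => Z w j) S)
    (hZ0 : ∀ w ∈ S, ∀ j, Z w j ≠ 0 ∧ ‖Z w j‖ < 1 / 12) :
    DifferentiableOn ℂ (fun w => Phi H x (Z w)) S := by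
  have h1 : DifferentiableOn ℂ (fun w => H ![Z w 0, Z w 1, -Z w 2, -Z w 3]) S := by
    apply hH.holo (fun w => ![Z w 0, Z w 1, -Z w 2, -Z w 3]) S hS
    · intro i
      fin_cases i
      · exact hZ 0
      · exact hZ 1
      · exact (hZ 2).neg
      · exact (hZ 3).neg
    · intro w hw
      exact bx_of_norm hL (Z w) (fun j => (hZ0 w hw j).2)
  have h2 : DifferentiableOn ℂ (fun w => X2 x ((Z w 0 + Z w 1 - Z w 2 - Z w 3) / 2)) S := by
    have h3 : DifferentiableOn ℂ (fun w => (Z w 0 + Z w 1 - Z w 2 - Z w 3) / 2) S :=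
      ((((hZ 0).add (hZ 1)).sub (hZ 2)).sub (hZ 3)).div_const 2
    exact (x2_diff x hx).comp_differentiableOn h3
  have h4 : DifferentiableOn ℂ (fun w => vdm (Z w) * ((Z w 1 - Z w 0) * (Z w 3 - Z w 2))) S := by
    unfold vdm
    have d : ∀ i j, DifferentiableOn ℂ (fun w => Z w i - Z w j) S := fun i j => (hZ i).sub (hZ j)
    exact ((((d 1 0).mul (d 2 0)).mul (d 3 0)).mul (((d 2 1).mul (d 3 1)).mul (d 3 2))).mul
      ((d 1 0).mul (d 3 2))
  have h5 : DifferentiableOn ℂ (fun w => ∏ i, Z w i ^ 4) S := by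
    simp only [Fin.prod_univ_four]
    exact ((((hZ 0).pow 4).mul ((hZ 1).pow 4)).mul ((hZ 2).pow 4)).mul ((hZ 3).pow 4)
  unfold Phi
  refine ((h1.mul h2).mul h4).div h5 ?_
  intro w hw
  rw [Finset.prod_ne_zero_iff]
  intro i _
  exact pow_ne_zero 4 (hZ0 w hw i).1

lemma phi_cont {L B : ℝ} {H : (Fin 4 → ℂ) → ℂ} (hH : Hol4 L B H) (hL : 1 / 2 ≤ L) {x : ℝ}
    (hx : 0 < x) :
    ContinuousOn (Phi H x) {z | ∀ j, z j ≠ 0 ∧ ‖z j‖ < 1 / 12} := by
  have h0 : Continuous (fun z : Fin 4 → ℂ => ![z 0, z 1, -z 2, -z 3]) := by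
    apply continuous_pi
    intro i
    fin_cases i
    · exact continuous_apply 0
    · exact continuous_apply 1
    · exact (continuous_apply 2).neg
    · exact (continuous_apply 3).neg
  have h1 : ContinuousOn (fun z : Fin 4 → ℂ => H ![z 0, z 1, -z 2, -z 3])
      {z | ∀ j, z j ≠ 0 ∧ ‖z j‖ < 1 / 12} := by
    apply hH.cont.comp h0.continuousOn
    intro z hz
    exact bx_of_norm hL z (fun j => (hz j).2)
  have h2 : Continuous (fun z : Fin 4 → ℂ => X2 x ((z 0 + z 1 - z 2 - z 3) / 2)) := by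
    apply (x2_diff x hx).continuous.comp
    fun_prop
  have h3 : Continuous (fun z : Fin 4 → ℂ => vdm z * ((z 1 - z 0) * (z 3 - z 2))) := by
    unfold vdm
    fun_prop
  have h4 : Continuous (fun z : Fin 4 → ℂ => ∏ i, z i ^ 4) := by
    fun_prop
  unfold Phi
  refine ((h1.mul h2.continuousOn).mul h3.continuousOn).div h4.continuousOn ?_
  intro z hz
  rw [Finset.prod_ne_zero_iff]
  intro i _
  exact pow_ne_zero 4 (hz i).1

lemma torusMap_cont {n : ℕ} (c : Fin n → ℂ) (R : Fin n → ℝ) : Continuous (torusMap c R) := by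
  unfold torusMap
  fun_prop

lemma torusMap_norm {n : ℕ} (R : Fin n → ℝ) (hR : ∀ j, 0 < R j) (θ : Fin n → ℝ) (j : Fin n) :
    ‖torusMap 0 R θ j‖ = R j := by
  unfold torusMap
  simp only [Pi.zero_apply, zero_add, norm_mul, Complex.norm_exp_ofReal_mul_I, mul_one,
    Complex.norm_real, Real.norm_eq_abs, abs_of_pos (hR j)]

lemma phi_int {L B : ℝ} {H : (Fin 4 → ℂ) → ℂ} (hH : Hol4 L B H) (hL : 1 / 2 ≤ L) {x : ℝ}
    (hx : 0 < x) (R : Fin 4 → ℝ) (hR : ∀ j, 0 < R j ∧ R j ≤ 1 / 16) :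
    TorusIntegrable (Phi H x) 0 R := by
  unfold TorusIntegrable
  have h1 : Continuous (fun θ : Fin 4 → ℝ => Phi H x (torusMap 0 R θ)) := by
    apply (phi_cont hH hL hx).comp_continuous (torusMap_cont 0 R)
    intro θ j
    have h2 := torusMap_norm R (fun j => (hR j).1) θ j
    constructor
    · intro h3
      rw [h3, norm_zero] at h2
      linarith [(hR j).1]
    · rw [h2]
      linarith [(hR j).2]
  exact h1.continuousOn.integrableOn_compact isCompact_Icc

set_option backward.isDefEq.respectTransparency.types false in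
lemma torus_inner {n : ℕ} {f : (Fin (n + 1) → ℂ) → ℂ} {c : Fin (n + 1) → ℂ} {R : Fin (n + 1) → ℝ}
    (hf : TorusIntegrable f c R) (i : Fin (n + 1)) :
    (∯ x in T(c, R), f x) =
      ∯ y in T(c ∘ i.succAbove, R ∘ i.succAbove), ∮ x in C(c i, R i), f (i.insertNth x y) := by
  set e : ℝ × (Fin n → ℝ) ≃ᵐ (Fin (n + 1) → ℝ) := (MeasurableEquiv.piFinSuccAbove (fun _ => ℝ) i).symm
  have hem : MeasurePreserving e :=
    (volume_preserving_piFinSuccAbove (fun _ : Fin (n + 1) => ℝ) i).symm _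
  have heπ : (e ⁻¹' Set.Icc 0 fun _ => 2 * Real.pi) =
      Set.Icc 0 (2 * Real.pi) ×ˢ Set.Icc (0 : Fin n → ℝ) fun _ => 2 * Real.pi :=
    ((Fin.insertNthOrderIso (fun _ => ℝ) i).preimage_Icc _ _).trans (Set.Icc_prod_eq _ _)
  have hint := hf.function_integrable
  rw [← hem.integrableOn_comp_preimage e.measurableEmbedding, heπ] at hint
  rw [torusIntegral, ← hem.map_eq, setIntegral_map_equiv, heπ, Measure.volume_eq_prod]
  rw [← Measure.prod_restrict, integral_prod_symm, torusIntegral]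
  · refine setIntegral_congr_fun measurableSet_Icc fun Θ _ => ?_
    rw [circleIntegral_def_Icc, ← integral_smul]
    refine setIntegral_congr_fun measurableSet_Icc fun θ _ => ?_
    simp +unfoldPartialApp only [e,
      deriv_circleMap, i.prod_univ_succAbove _, smul_smul, torusMap, circleMap_zero]
    simp only [MeasurableEquiv.piFinSuccAbove_symm_apply, i.insertNth_apply_same,
      i.insertNth_apply_succAbove, (· ∘ ·), Fin.insertNthEquiv, Equiv.coe_fn_mk]
    congr 1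
    · ring
    · congr 1
      simp only [funext_iff, i.forall_iff_succAbove, circleMap, Fin.insertNth_apply_same,
        Fin.insertNth_apply_succAbove, imp_true_iff, and_self_iff]
  · rw [Measure.volume_eq_prod, IntegrableOn, ← Measure.prod_restrict] at hint
    exact hint

/-- change of one radius -/
lemma torus_move {n : ℕ} {f : (Fin (n + 1) → ℂ) → ℂ} {R R' : Fin (n + 1) → ℝ} (i : Fin (n + 1))
    (hRR : ∀ j, R (i.succAbove j) = R' (i.succAbove j)) (hR0 : ∀ j, 0 < R j)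
    (hf : TorusIntegrable f 0 R) (hf' : TorusIntegrable f 0 R')
    (h : ∀ y : Fin n → ℂ, (∀ j, ‖y j‖ = R (i.succAbove j)) →
      (∮ x in C(0, R i), f (i.insertNth x y)) = ∮ x in C(0, R' i), f (i.insertNth x y)) :
    (∯ x in T(0, R), f x) = ∯ x in T(0, R'), f x := by
  rw [torus_inner hf i, torus_inner hf' i]
  have h1 : R' ∘ i.succAbove = R ∘ i.succAbove := by
    funext j
    exact (hRR j).symm
  rw [h1]
  unfold torusIntegral
  apply integral_congr_ae
  filter_upwards with θ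
  congr 1
  apply h
  intro j
  exact torusMap_norm (R ∘ i.succAbove) (fun j => hR0 _) θ j

/-- change of one radius of the integral of `Phi` -/
lemma phi_move {L B : ℝ} {H : (Fin 4 → ℂ) → ℂ} (hH : Hol4 L B H) (hL : 1 / 2 ≤ L) {x : ℝ}
    (hx : 0 < x) {κ : ℝ} (hκ : 0 < κ) (hκ1 : κ ≤ 1 / 16) (R : Fin 4 → ℝ)
    (hR : ∀ j, 0 < R j ∧ R j ≤ 1 / 16) (i : Fin 4) (hi : κ ≤ R i) :
    (∯ z in T(0, R), Phi H x z) = ∯ z in T(0, Function.update R i κ), Phi H x z := by
  have hR' : ∀ j, 0 < Function.update R i κ j ∧ Function.update R i κ j ≤ 1 / 16 := by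
    intro j
    by_cases h : j = i
    · subst h
      rw [Function.update_self]
      exact ⟨hκ, hκ1⟩
    · rw [Function.update_of_ne h]
      exact hR j
  apply torus_move i _ (fun j => (hR j).1) (phi_int hH hL hx R hR) (phi_int hH hL hx _ hR')
  · intro y hy
    rw [Function.update_self]
    have hy0 : ∀ j, y j ≠ 0 ∧ ‖y j‖ < 1 / 12 := by
      intro j
      have h1 := hy j
      have h2 := hR (i.succAbove j)
      constructor
      · intro h3
        rw [h3, norm_zero] at h1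
        linarith [h2.1]
      · rw [h1]
        linarith [h2.2]
    obtain ⟨S, hS⟩ : ∃ S : Set ℂ, S = {w | w ≠ 0 ∧ ‖w‖ < 1 / 12} := ⟨_, rfl⟩
    have hSo : IsOpen S := by
      rw [hS]
      exact isOpen_ne.inter (isOpen_lt continuous_norm continuous_const)
    have hd : DifferentiableOn ℂ (fun w => Phi H x (i.insertNth w y)) S := by
      apply phi_diff hH hL hx (fun w => (i.insertNth w y : Fin 4 → ℂ)) S hSo
      · intro j
        rcases Fin.eq_self_or_eq_succAbove i j with h | ⟨j', h⟩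
        · subst h
          simp only [Fin.insertNth_apply_same]
          exact differentiableOn_id
        · subst h
          simp only [Fin.insertNth_apply_succAbove]
          exact differentiableOn_const _
      · intro w hw j
        rw [hS] at hw
        rcases Fin.eq_self_or_eq_succAbove i j with h | ⟨j', h⟩
        · subst h
          rw [Fin.insertNth_apply_same]
          exact hw
        · subst h
          rw [Fin.insertNth_apply_succAbove]
          exact hy0 j'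
    have hsub : ∀ w : ℂ, κ ≤ ‖w‖ → ‖w‖ ≤ R i → w ∈ S := by
      intro w h1 h2
      rw [hS]
      constructor
      · intro h3
        rw [h3, norm_zero] at h1
        linarith
      · linarith [(hR i).2]
    apply circleIntegral_eq_of_differentiable_on_annulus_off_countable hκ hi Set.countable_empty
    · apply hd.continuousOn.mono
      intro w hw
      have h1 := hw.1
      have h2 := hw.2
      rw [Metric.mem_closedBall, dist_zero_right] at h1
      rw [Metric.mem_ball, dist_zero_right, not_lt] at h2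
      exact hsub w h2 h1
    · intro w hw
      have h1 := hw.1.1
      have h2 := hw.1.2
      rw [Metric.mem_ball, dist_zero_right] at h1
      rw [Metric.mem_closedBall, dist_zero_right, not_le] at h2
      exact hd.differentiableAt (hSo.mem_nhds (hsub w h2.le h1.le))
  · intro j
    rw [Function.update_of_ne (Fin.succAbove_ne i j)]

lemma phi_all {L B : ℝ} {H : (Fin 4 → ℂ) → ℂ} (hH : Hol4 L B H) (hL : 1 / 2 ≤ L) {x : ℝ}
    (hx : 0 < x) {κ : ℝ} (hκ : 0 < κ) (hκ1 : κ ≤ 1 / 16) :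
    (∯ z in T((0 : Fin 4 → ℂ), fun _ => 1 / 16), Phi H x z) =
      ∯ z in T((0 : Fin 4 → ℂ), fun _ => κ), Phi H x z := by
  obtain ⟨R0, hR0⟩ : ∃ R0 : Fin 4 → ℝ, R0 = fun _ => 1 / 16 := ⟨_, rfl⟩
  obtain ⟨R1, hR1⟩ : ∃ R1 : Fin 4 → ℝ, R1 = Function.update R0 0 κ := ⟨_, rfl⟩
  obtain ⟨R2, hR2⟩ : ∃ R2 : Fin 4 → ℝ, R2 = Function.update R1 1 κ := ⟨_, rfl⟩
  obtain ⟨R3', hR3⟩ : ∃ R3' : Fin 4 → ℝ, R3' = Function.update R2 2 κ := ⟨_, rfl⟩
  have upd : ∀ (R : Fin 4 → ℝ) (i : Fin 4), (∀ j, 0 < R j ∧ R j ≤ 1 / 16) →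
      ∀ j, 0 < Function.update R i κ j ∧ Function.update R i κ j ≤ 1 / 16 := by
    intro R i hR j
    by_cases h : j = i
    · subst h
      rw [Function.update_self]
      exact ⟨hκ, hκ1⟩
    · rw [Function.update_of_ne h]
      exact hR j
  have b0 : ∀ j, 0 < R0 j ∧ R0 j ≤ 1 / 16 := by
    intro j
    rw [hR0]
    norm_num
  have b1 : ∀ j, 0 < R1 j ∧ R1 j ≤ 1 / 16 := by rw [hR1]; exact upd R0 0 b0
  have b2 : ∀ j, 0 < R2 j ∧ R2 j ≤ 1 / 16 := by rw [hR2]; exact upd R1 1 b1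
  have b3 : ∀ j, 0 < R3' j ∧ R3' j ≤ 1 / 16 := by rw [hR3]; exact upd R2 2 b2
  have m0 := phi_move hH hL hx hκ hκ1 R0 b0 0 (by rw [hR0]; exact hκ1)
  have m1 := phi_move hH hL hx hκ hκ1 R1 b1 1 (by
    rw [hR1, Function.update_of_ne (by decide), hR0]; exact hκ1)
  have m2 := phi_move hH hL hx hκ hκ1 R2 b2 2 (by
    rw [hR2, Function.update_of_ne (by decide), hR1, Function.update_of_ne (by decide), hR0]
    exact hκ1)
  have m3 := phi_move hH hL hx hκ hκ1 R3' b3 3 (by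
    rw [hR3, Function.update_of_ne (by decide), hR2, Function.update_of_ne (by decide), hR1,
      Function.update_of_ne (by decide), hR0]
    exact hκ1)
  rw [← hR0, m0, ← hR1, m1, ← hR2, m2, ← hR3, m3]
  congr 1
  funext j
  rw [hR3, hR2, hR1, hR0]
  fin_cases j <;> simp [Function.update]

lemma x2_bound {U x κ : ℝ} (hU : 1 ≤ U) (h1 : U ≤ x) (h2 : x ≤ 16 * U) (w : ℂ)
    (hw : |w.re| ≤ 2 * κ) : ‖X2 x w‖ ≤ (16 * U) ^ (2 * κ) := by
  have hx : 0 < x := by linarith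
  have hpi := Real.pi_gt_three
  have hpi2 := Real.pi_lt_four
  have hb : 0 < x / (2 * Real.pi) := by positivity
  unfold X2
  rw [Complex.norm_cpow_eq_rpow_re_of_pos hb]
  have hT : 1 ≤ 16 * U := by linarith
  rcases le_or_gt 0 w.re with h | h
  · have h3 : x / (2 * Real.pi) ≤ 16 * U := by
      rw [div_le_iff₀ (by positivity)]
      nlinarith
    refine (Real.rpow_le_rpow hb.le h3 h).trans ?_
    apply Real.rpow_le_rpow_of_exponent_le hT
    exact (le_abs_self _).trans hw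
  · have h3 : (x / (2 * Real.pi))⁻¹ ≤ 16 * U := by
      rw [inv_div, div_le_iff₀ hx]
      nlinarith
    have h4 : (x / (2 * Real.pi)) ^ w.re = ((x / (2 * Real.pi))⁻¹) ^ (-w.re) := by
      rw [Real.inv_rpow hb.le, Real.rpow_neg hb.le, inv_inv]
    rw [h4]
    refine (Real.rpow_le_rpow (by positivity) h3 (by linarith)).trans ?_
    apply Real.rpow_le_rpow_of_exponent_le hT
    exact (neg_le_abs _).trans hw

lemma phi_bound {L B : ℝ} {H : (Fin 4 → ℂ) → ℂ} (hH : Hol4 L B H) (hL : 1 / 2 ≤ L) {U x κ : ℝ}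
    (hU : 1 ≤ U) (h1 : U ≤ x) (h2 : x ≤ 16 * U) (hκ : 0 < κ) (hκ1 : κ ≤ 1 / 1000) (z : Fin 4 → ℂ)
    (hz : ∀ j, ‖z j‖ = κ) : ‖Phi H x z‖ ≤ B * (16 * U) ^ (2 * κ) / κ ^ 16 := by
  have hz2 : ∀ j, ‖z j‖ < 1 / 12 := fun j => by rw [hz j]; linarith
  have hB := hH.bound _ (bx_of_norm hL z hz2)
  have hB0 : 0 ≤ B := (norm_nonneg _).trans hB
  have hX : ‖X2 x ((z 0 + z 1 - z 2 - z 3) / 2)‖ ≤ (16 * U) ^ (2 * κ) := by
    apply x2_bound hU h1 h2
    refine (abs_re_le_norm _).trans ?_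
    rw [norm_div]
    have h3 : ‖z 0 + z 1 - z 2 - z 3‖ ≤ 4 * κ := by
      have e1 := norm_sub_le (z 0 + z 1 - z 2) (z 3)
      have e2 := norm_sub_le (z 0 + z 1) (z 2)
      have e3 := norm_add_le (z 0) (z 1)
      rw [hz] at e1 e2 e3
      rw [hz] at e3
      linarith
    have h4 : ‖(2 : ℂ)‖ = 2 := by simp
    rw [h4]
    linarith
  have hd : ∀ i j, ‖z i - z j‖ ≤ 1 := by
    intro i j
    have e1 := norm_sub_le (z i) (z j)
    rw [hz i, hz j] at e1
    linarith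
  have hm : ∀ a b : ℂ, ‖a‖ ≤ 1 → ‖b‖ ≤ 1 → ‖a * b‖ ≤ 1 := by
    intro a b ha hb
    rw [norm_mul]
    exact mul_le_one₀ ha (norm_nonneg _) hb
  have hV : ‖vdm z * ((z 1 - z 0) * (z 3 - z 2))‖ ≤ 1 := by
    unfold vdm
    exact hm _ _ (hm _ _ (hm _ _ (hm _ _ (hd 1 0) (hd 2 0)) (hd 3 0))
      (hm _ _ (hm _ _ (hd 2 1) (hd 3 1)) (hd 3 2))) (hm _ _ (hd 1 0) (hd 3 2))
  have hP : ‖∏ i, z i ^ 4‖ = κ ^ 16 := by
    rw [norm_prod]
    simp only [norm_pow, hz, Finset.prod_const, Finset.card_univ, Fintype.card_fin]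
    rw [← pow_mul]
  unfold Phi
  rw [norm_div, hP]
  apply div_le_div_of_nonneg_right _ (by positivity)
  rw [norm_mul, norm_mul]
  calc ‖H ![z 0, z 1, -z 2, -z 3]‖ * ‖X2 x ((z 0 + z 1 - z 2 - z 3) / 2)‖ *
        ‖vdm z * ((z 1 - z 0) * (z 3 - z 2))‖ ≤ B * (16 * U) ^ (2 * κ) * 1 := by
        apply mul_le_mul _ hV (norm_nonneg _) (by positivity)
        exact mul_le_mul hB hX (norm_nonneg _) hB0
    _ = _ := mul_one _

lemma hh_comp {T : Type*} [TopologicalSpace T] (a b : T → ℝ) (u : T → Fin 4 → ℂ)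
    (ha : Continuous a) (hb : Continuous b) (hu : Continuous u)
    (h : ∀ t, 0 < a t ∧ 0 < b t ∧ 1 < |b t - a t| ∧ u t ∈ Bx (1 / 2)) :
    Continuous (fun t => HH (a t) (b t) (u t)) := by
  have hc : Continuous (fun t => ((a t, b t), u t)) := (ha.prodMk hb).prodMk hu
  have h1 := hh_cont2.comp_continuous hc h
  exact h1

lemma x2_comp {T : Type*} [TopologicalSpace T] (a : T → ℝ) (w : T → ℂ)
    (ha : Continuous a) (hw : Continuous w) (h : ∀ t, 0 < a t) :
    Continuous (fun t => X2 (a t) (w t)) := by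
  unfold X2
  apply Continuous.cpow
  · exact Complex.continuous_ofReal.comp (ha.div_const _)
  · exact hw
  · intro t
    rw [Complex.ofReal_mem_slitPlane]
    have := h t
    positivity

lemma phi_comp {T : Type*} [TopologicalSpace T] (a b : T → ℝ) (z : T → Fin 4 → ℂ)
    (ha : Continuous a) (hb : Continuous b) (hz : ∀ j, Continuous (fun t => z t j))
    (h : ∀ t, 0 < a t ∧ 0 < b t ∧ 1 < |b t - a t|) (hz' : ∀ t j, z t j ≠ 0 ∧ ‖z t j‖ < 1 / 12) :
    Continuous (fun t => Phi (HH (a t) (b t)) (a t) (z t)) := by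
  have c2 : Continuous (fun t => HH (a t) (b t) ![z t 0, z t 1, -z t 2, -z t 3]) := by
    apply hh_comp a b _ ha hb
    · apply continuous_pi
      intro i
      fin_cases i
      · exact hz 0
      · exact hz 1
      · exact (hz 2).neg
      · exact (hz 3).neg
    · intro t
      exact ⟨(h t).1, (h t).2.1, (h t).2.2, bx_of_norm le_rfl (z t) (fun j => (hz' t j).2)⟩
  have c4 : Continuous (fun t => X2 (a t) ((z t 0 + z t 1 - z t 2 - z t 3) / 2)) :=
    x2_comp a _ ha (((((hz 0).add (hz 1)).sub (hz 2)).sub (hz 3)).div_const 2) (fun t => (h t).1)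
  have c5 : Continuous (fun t => vdm (z t) * ((z t 1 - z t 0) * (z t 3 - z t 2))) := by
    unfold vdm
    have d : ∀ i j, Continuous (fun t => z t i - z t j) := fun i j => (hz i).sub (hz j)
    exact ((((d 1 0).mul (d 2 0)).mul (d 3 0)).mul (((d 2 1).mul (d 3 1)).mul (d 3 2))).mul
      ((d 1 0).mul (d 3 2))
  have c6 : Continuous (fun t => ∏ i, z t i ^ 4) := continuous_finsetProd _ fun i _ => (hz i).pow 4
  unfold Phi
  refine ((c2.mul c4).mul c5).div c6 ?_
  intro t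
  rw [Finset.prod_ne_zero_iff]
  intro i _
  exact pow_ne_zero 4 (hz' t i).1

lemma rg_open : IsOpen {p : ℝ × ℝ | 0 < p.1 ∧ 0 < p.2 ∧ 1 < |p.2 - p.1|} := by
  have h1 : IsOpen {p : ℝ × ℝ | 0 < p.1} := isOpen_lt continuous_const continuous_fst
  have h2 : IsOpen {p : ℝ × ℝ | 0 < p.2} := isOpen_lt continuous_const continuous_snd
  have h3 : IsOpen {p : ℝ × ℝ | 1 < |p.2 - p.1|} :=
    isOpen_lt continuous_const (continuous_snd.sub continuous_fst).abs
  exact h1.inter (h2.inter h3)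

end MBoundAux

open MBoundAux

theorem m_bound (ε : ℝ) (hε : 0 < ε) : ∃ κ : ℝ, 0 < κ ∧ κ ≤ 1 / 1000 ∧ ∀ B : ℝ, ∃ C : ℝ, 0 < C ∧ ∀ (U x y : ℝ),
    1 ≤ U → U ≤ x → x ≤ 16 * U → U ≤ y → y ≤ 16 * U → Good κ (U ^ κ) (B * U ^ κ) (y - x) →
    ‖Mxy x y‖ ≤ C * U ^ ε := by
  obtain ⟨κ, hκd⟩ : ∃ κ : ℝ, κ = min (ε / 40) (1 / 1000) := ⟨_, rfl⟩
  have hκ : 0 < κ := by
    rw [hκd]
    exact lt_min (by positivity) (by norm_num)
  have hκ1 : κ ≤ 1 / 1000 := by rw [hκd]; exact min_le_right _ _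
  have hκε : κ ≤ ε / 40 := by rw [hκd]; exact min_le_left _ _
  refine ⟨κ, hκ, hκ1, ?_⟩
  intro B
  obtain ⟨C, hC, hCH⟩ := hh_hol κ hκ hκ1 B
  refine ⟨C * 16 ^ (2 * κ) / κ ^ 16, by positivity, ?_⟩
  intro U x y hU hx1 hx2 hy1 hy2 hgood
  have hH := hCH U x y hU hx1 hx2 hy1 hy2 hgood
  have hL : 1 / 2 ≤ U ^ κ := by
    have := Real.one_le_rpow hU hκ.le
    linarith
  have hx : 0 < x := by linarith
  rw [mxy_phi, phi_all hH hL hx hκ (by linarith), norm_mul]
  have h1 := norm_torusIntegral_le_of_norm_le_const (f := Phi (HH x y) x) (c := (0 : Fin 4 → ℂ))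
    (R := fun _ => κ) (C := C * U ^ (20 * κ) * (16 * U) ^ (2 * κ) / κ ^ 16) (by
      intro θ
      exact phi_bound hH hL hU hx1 hx2 hκ hκ1 _ (torusMap_norm _ (fun _ => hκ) θ))
  have h2 : ‖(4 * (2 * (Real.pi : ℂ) * I) ^ 4)⁻¹‖ = (4 * (2 * Real.pi) ^ 4)⁻¹ := by
    rw [norm_inv, norm_mul, norm_pow, norm_mul, norm_mul, Complex.norm_I, Complex.norm_real,
      Real.norm_eq_abs, abs_of_pos Real.pi_pos]
    simp
  rw [h2]
  have h3 : ((2 * Real.pi) ^ 4 * ∏ _i : Fin 4, |κ|) = (2 * Real.pi) ^ 4 * κ ^ 4 := by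
    rw [Finset.prod_const, Finset.card_univ, Fintype.card_fin, abs_of_pos hκ]
  rw [h3] at h1
  obtain ⟨W, hW⟩ : ∃ W : ℝ, W = C * U ^ (20 * κ) * (16 * U) ^ (2 * κ) / κ ^ 16 := ⟨_, rfl⟩
  rw [← hW] at h1
  have hW0 : 0 ≤ W := by rw [hW]; positivity
  have h4 : (4 * (2 * Real.pi) ^ 4)⁻¹ * ((2 * Real.pi) ^ 4 * κ ^ 4 * W) ≤ W := by
    have h5 : (4 * (2 * Real.pi) ^ 4)⁻¹ * ((2 * Real.pi) ^ 4 * κ ^ 4 * W) = κ ^ 4 / 4 * W := by
      field_simp
    rw [h5]
    have h6 : κ ^ 4 ≤ 1 := pow_le_one₀ hκ.le (by linarith)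
    nlinarith
  have h5 : W ≤ C * 16 ^ (2 * κ) / κ ^ 16 * U ^ ε := by
    have h6 : (16 * U) ^ (2 * κ) = 16 ^ (2 * κ) * U ^ (2 * κ) :=
      Real.mul_rpow (by norm_num) (by linarith)
    have h7 : U ^ (20 * κ) * U ^ (2 * κ) ≤ U ^ ε := by
      rw [← Real.rpow_add (by linarith)]
      apply Real.rpow_le_rpow_of_exponent_le hU
      linarith
    calc W = C * 16 ^ (2 * κ) / κ ^ 16 * (U ^ (20 * κ) * U ^ (2 * κ)) := by
          rw [hW, h6]
          ring
      _ ≤ _ := by gcongr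
  calc (4 * (2 * Real.pi) ^ 4)⁻¹ * ‖∯ z in T((0 : Fin 4 → ℂ), fun _ => κ), Phi (HH x y) x z‖ ≤
      (4 * (2 * Real.pi) ^ 4)⁻¹ * ((2 * Real.pi) ^ 4 * κ ^ 4 * W) := by gcongr
    _ ≤ W := h4
    _ ≤ _ := h5

theorem m_cont : ContinuousOn (fun p : ℝ × ℝ => Mxy p.1 p.2) {p | 0 < p.1 ∧ 0 < p.2 ∧ 1 < |p.2 - p.1|} := by
  obtain ⟨Rg, hRg⟩ : ∃ Rg : Set (ℝ × ℝ), Rg = {p | 0 < p.1 ∧ 0 < p.2 ∧ 1 < |p.2 - p.1|} := ⟨_, rfl⟩
  have hRgo : IsOpen Rg := by
    rw [hRg]
    exact rg_open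
  have hprop : ∀ p ∈ Rg, 0 < p.1 ∧ 0 < p.2 ∧ 1 < |p.2 - p.1| := by
    intro p hp
    rw [hRg] at hp
    exact hp
  rw [← hRg]
  have h1 : (fun p : ℝ × ℝ => Mxy p.1 p.2) = fun p => (4 * (2 * Real.pi * I) ^ 4)⁻¹ *
      ∯ z in T((0 : Fin 4 → ℂ), fun _ => 1 / 16), Phi (HH p.1 p.2) p.1 z := by
    funext p
    exact mxy_phi p.1 p.2
  rw [h1]
  apply ContinuousOn.mul continuousOn_const
  rw [continuousOn_iff_continuous_domRestrict]
  have : LocallyCompactSpace Rg := hRgo.locallyCompactSpace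
  obtain ⟨R, hR⟩ : ∃ R : Fin 4 → ℝ, R = fun _ => 1 / 16 := ⟨_, rfl⟩
  have hR0 : ∀ j, 0 < R j := by
    intro j
    rw [hR]
    norm_num
  have hn : ∀ (θ : Fin 4 → ℝ) (j : Fin 4), ‖torusMap 0 R θ j‖ = 1 / 16 := by
    intro θ j
    rw [torusMap_norm R hR0 θ j, hR]
  have key : Continuous (Function.uncurry (fun (p : Rg) (θ : Fin 4 → ℝ) =>
      (∏ i, (R i : ℂ) * exp (θ i * I) * I : ℂ) • Phi (HH p.1.1 p.1.2) p.1.1 (torusMap 0 R θ))) := by
    have c1 : Continuous (fun q : Rg × (Fin 4 → ℝ) => (∏ i, (R i : ℂ) * exp (q.2 i * I) * I : ℂ)) := by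
      fun_prop
    have ct : ∀ j, Continuous (fun q : Rg × (Fin 4 → ℝ) => torusMap 0 R q.2 j) :=
      fun j => (continuous_apply j).comp ((torusMap_cont 0 R).comp continuous_snd)
    have c2 : Continuous (fun q : Rg × (Fin 4 → ℝ) =>
        Phi (HH q.1.1.1 q.1.1.2) q.1.1.1 (torusMap 0 R q.2)) := by
      apply phi_comp (fun q : Rg × (Fin 4 → ℝ) => q.1.1.1) (fun q : Rg × (Fin 4 → ℝ) => q.1.1.2)
        (fun q : Rg × (Fin 4 → ℝ) => torusMap 0 R q.2)
        (continuous_fst.comp (continuous_subtype_val.comp continuous_fst))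
        (continuous_snd.comp (continuous_subtype_val.comp continuous_fst)) ct
      · intro q
        exact hprop _ q.1.2
      · intro q j
        have h2 := hn q.2 j
        constructor
        · intro h
          rw [h, norm_zero] at h2
          norm_num at h2
        · rw [h2]
          norm_num
    exact c1.smul c2
  have h2 := continuous_parametric_integral_of_continuous (μ := volume) key
    (isCompact_Icc (a := (0 : Fin 4 → ℝ)) (b := fun _ => 2 * Real.pi))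
  refine h2.congr ?_
  intro p
  unfold torusIntegral
  rw [hR]
  rfl

end Pool.Agent.P07318f
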