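import Pool.Agent.Lib.P07318f.PhiFn
import Pool.Agent.Lib.P07318f.EEreg
import Pool.Agent.Lib.P07318f.DefsC
import Pool.Agent.Lib.P07318s.Crude

/-!
# Bounds and continuity of the main terms `MI`

`mi_int_d`, `mi_int_z`: with `w = cz + iv`: `Re (s+w), Re(2s+w) ≥ cz - 2ρ > 0`: `dd_bound` (`κ = 10^(-6)`), `|X2 x (2w)| ≤ x^(2cz)` for `x ≥ 1`, `|Gw|` Gaussian
(`Gw_bound`), `|w| ≥ cz`. For `Zint`: `|X2 x (-α-β+z1+z2)| ≤ C x^(2cz+4ρ)`, `|w+(z1+z2)/2| ≥ cw`, `‖riemannZeta (1-α-β-2w)‖ ≤ C (1+|v1|)` (`zeta_bound_im`, real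
part `15/16 ± 4ρ`), `ee_bound` (`κ = 10^(-6)`): with `u = uZ s α β w z1 z2`: `Re(u₀+u₃) = Re(3s-2α+2z1) ≥ 2cz-ρ`, `Re(u₁+u₂) = Re(3s-2β+2z2) ≥ 2cz-ρ`,
`Re(u₀+u₂) ≥ 1/16`-ish, `Re u₁, Re u₃ = -1/32 ± 2ρ ∈ [-1/10, 0]`. The Gaussians `exp(-(v1+(v2+v3)/2)²/2 - v2²/2 - v3²/2)` times polynomials are integrable
over `ℝ³` (change of variable `v1 ↦ v1 - (v2+v3)/2`). `2cz + 4ρ < 1/10000`.
`mi_cont`: dominated convergence (`continuousOn_of_dominated`; locally uniform bounds in `(s, x)`), `ee_cont`, `dd_summable` (for `DD` continuity: `DD = ζ(1+u₁+u₃) EE`).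
-/

set_option autoImplicit false

namespace Pool.Agent.P07318f

open MeasureTheory Complex Pool.Agent.P07318s


namespace MIbAux

theorem rho_pos : 0 < rho := by
  unfold rho
  norm_num

theorem cz_pos : 0 < cz := by
  unfold cz
  norm_num

theorem cw_pos : 0 < cw := by
  unfold cw
  norm_num

/-- the integrand of `Dint` -/
noncomputable def FD (a b : ℕ+) (s : ℂ) (x : ℝ) (v : ℝ) : ℂ :=
  Gw s (cz + v * I) / (cz + v * I) * X2 x (2 * (cz + v * I)) *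
      DD a b (uD s (cz + v * I) 0) (uD s (cz + v * I) 1) (uD s (cz + v * I) 2) (uD s (cz + v * I) 3)

/-- the integrand of `Zint` -/
noncomputable def FZ (a b : ℕ+) (s α β : ℂ) (x : ℝ) (v : ℝ × ℝ × ℝ) : ℂ :=
  Zker s α β x (cw + v.1 * I) (cz + v.2.1 * I) (cz + v.2.2 * I) *
      (riemannZeta (1 - α - β - 2 * (cw + v.1 * I)) *
        EE a b (uZ s α β (cw + v.1 * I) (cz + v.2.1 * I) (cz + v.2.2 * I) 0)
          (uZ s α β (cw + v.1 * I) (cz + v.2.1 * I) (cz + v.2.2 * I) 1)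
          (uZ s α β (cw + v.1 * I) (cz + v.2.1 * I) (cz + v.2.2 * I) 2)
          (uZ s α β (cw + v.1 * I) (cz + v.2.1 * I) (cz + v.2.2 * I) 3))

theorem uD_re {s : ℂ} (hs : ‖s‖ = rho) (v : ℝ) (i : Fin 4) :
    1 / 10 ^ 6 ≤ (uD s (cz + v * I) i).re := by
  have h1 := abs_le.1 (Complex.abs_re_le_norm s)
  rw [hs] at h1
  unfold rho at h1
  unfold uD
  fin_cases i
  · simp
    unfold cz
    linarith
  · simp
    unfold cz
    linarith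
  · simp
    unfold cz
    linarith
  · simp
    unfold cz
    linarith

theorem uD_mem {s : ℂ} (hs : ‖s‖ = rho) (v : ℝ) : uD s (cz + v * I) ∈ RegD := by
  have h := uD_re hs v
  have h0 := h 0
  have h1 := h 1
  have h2 := h 2
  have h3 := h 3
  have hp : (0:ℝ) < 1 / 10 ^ 6 := by norm_num
  refine ⟨?_, ?_, ?_, ?_⟩ <;> rw [Complex.add_re] <;> linarith

theorem uZ_re {s α β : ℂ} (hs : ‖s‖ = rho) (hα : ‖α‖ ≤ 2 * rho) (hβ : ‖β‖ ≤ 2 * rho)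
    (v1 v2 v3 : ℝ) :
    1 / 10 ^ 6 ≤ (uZ s α β (cw + v1 * I) (cz + v2 * I) (cz + v3 * I) 0 +
      uZ s α β (cw + v1 * I) (cz + v2 * I) (cz + v3 * I) 3).re ∧
    1 / 10 ^ 6 ≤ (uZ s α β (cw + v1 * I) (cz + v2 * I) (cz + v3 * I) 1 +
      uZ s α β (cw + v1 * I) (cz + v2 * I) (cz + v3 * I) 2).re ∧
    1 / 10 ^ 6 ≤ (uZ s α β (cw + v1 * I) (cz + v2 * I) (cz + v3 * I) 0 +
      uZ s α β (cw + v1 * I) (cz + v2 * I) (cz + v3 * I) 2).re ∧
    -(1 / 10) ≤ (uZ s α β (cw + v1 * I) (cz + v2 * I) (cz + v3 * I) 1).re ∧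
    (uZ s α β (cw + v1 * I) (cz + v2 * I) (cz + v3 * I) 1).re ≤ 0 ∧
    -(1 / 10) ≤ (uZ s α β (cw + v1 * I) (cz + v2 * I) (cz + v3 * I) 3).re ∧
    (uZ s α β (cw + v1 * I) (cz + v2 * I) (cz + v3 * I) 3).re ≤ 0 := by
  have h1 := abs_le.1 (Complex.abs_re_le_norm s)
  have h2 := abs_le.1 ((Complex.abs_re_le_norm α).trans hα)
  have h3 := abs_le.1 ((Complex.abs_re_le_norm β).trans hβ)
  rw [hs] at h1
  unfold rho at h1 h2 h3
  have e0 : (uZ s α β (cw + v1 * I) (cz + v2 * I) (cz + v3 * I) 0).re =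
      3 * s.re - α.re + cw + 2 * cz := by
    simp [uZ]
    ring
  have e1 : (uZ s α β (cw + v1 * I) (cz + v2 * I) (cz + v3 * I) 1).re =
      -β.re - cw := by
    simp [uZ]
  have e2 : (uZ s α β (cw + v1 * I) (cz + v2 * I) (cz + v3 * I) 2).re =
      3 * s.re - β.re + cw + 2 * cz := by
    simp [uZ]
    ring
  have e3 : (uZ s α β (cw + v1 * I) (cz + v2 * I) (cz + v3 * I) 3).re =
      -α.re - cw := by
    simp [uZ]
  rw [Complex.add_re, Complex.add_re, Complex.add_re, e0, e1, e2, e3]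
  unfold cz cw
  refine ⟨?_, ?_, ?_, ?_, ?_, ?_, ?_⟩ <;> linarith

theorem uZ_mem {s α β : ℂ} (hs : ‖s‖ = rho) (hα : ‖α‖ ≤ 2 * rho) (hβ : ‖β‖ ≤ 2 * rho)
    (v1 v2 v3 : ℝ) : uZ s α β (cw + v1 * I) (cz + v2 * I) (cz + v3 * I) ∈ RegE := by
  obtain ⟨h1, h2, h3, _⟩ := uZ_re hs hα hβ v1 v2 v3
  have hp : (0:ℝ) < 1 / 10 ^ 6 := by norm_num
  exact ⟨hp.trans_le h1, hp.trans_le h2, hp.trans_le h3⟩

theorem le_norm_add {c : ℝ} (hc : 0 < c) (v : ℝ) : c ≤ ‖(c : ℂ) + v * I‖ := by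
  have h := Complex.abs_re_le_norm ((c : ℂ) + v * I)
  simp only [Complex.add_re, Complex.ofReal_re, Complex.mul_re, Complex.I_re, mul_zero,
    Complex.ofReal_im, Complex.I_im, mul_one, sub_self, add_zero] at h
  rwa [abs_of_pos hc] at h

theorem ne_add {c : ℝ} (hc : 0 < c) (v : ℝ) : (c : ℂ) + v * I ≠ 0 := by
  intro h
  have := le_norm_add hc v
  rw [h, norm_zero] at this
  linarith

theorem norm_X2 {x : ℝ} (hx : 0 < x) (w : ℂ) : ‖X2 x w‖ = (x / (2 * Real.pi)) ^ w.re := by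
  unfold X2
  exact Complex.norm_cpow_eq_rpow_re_of_pos (by positivity) w

theorem exp_le8 (v : ℝ) : Real.exp (-(v ^ 2 / 2)) ≤ Real.exp (-(v ^ 2 / 8)) := by
  apply Real.exp_le_exp.2
  nlinarith [sq_nonneg v]

theorem FD_bound : ∃ C : ℝ, 0 < C ∧ ∀ (a b : ℕ+) (s : ℂ) (x v : ℝ), 0 < x → ‖s‖ = rho →
    Nat.Coprime (a : ℕ) (b : ℕ) → ‖FD a b s x v‖ ≤
      C * (x / (2 * Real.pi)) ^ (2 * cz) * ((a : ℕ) * (b : ℕ) : ℝ) ^ (-(1 / 2) : ℝ) *
        Real.exp (-(v ^ 2 / 8)) := by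
  obtain ⟨C1, hC1, h1⟩ := Gw_bound rho cz rho_pos
  obtain ⟨C2, hC2, h2⟩ := dd_bound (1 / 10 ^ 6) (by norm_num)
  have hcz := cz_pos
  refine ⟨C1 / cz * C2, by positivity, fun a b s x v hx hs hab => ?_⟩
  have b1 := h1 s hs cz v (abs_of_pos hcz).le
  have b2 := le_norm_add hcz v
  have b3 : ‖X2 x (2 * (cz + v * I))‖ = (x / (2 * Real.pi)) ^ (2 * cz) := by
    rw [norm_X2 hx]
    congr 1
    simp
  have b4 := h2 a b (uD s (cz + v * I)) hab (uD_re hs v)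
  have hX : 0 < (x / (2 * Real.pi)) ^ (2 * cz) := Real.rpow_pos_of_pos (by positivity) _
  unfold FD
  rw [norm_mul, norm_mul, norm_div, b3]
  calc ‖Gw s (cz + v * I)‖ / ‖(cz : ℂ) + v * I‖ * (x / (2 * Real.pi)) ^ (2 * cz) *
        ‖DD a b (uD s (cz + v * I) 0) (uD s (cz + v * I) 1) (uD s (cz + v * I) 2)
          (uD s (cz + v * I) 3)‖
      ≤ C1 * Real.exp (-(v ^ 2 / 8)) / cz * (x / (2 * Real.pi)) ^ (2 * cz) *
        (C2 * ((a : ℕ) * (b : ℕ) : ℝ) ^ (-(1 / 2) : ℝ)) := by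
        gcongr
        exact b1.trans (mul_le_mul_of_nonneg_left (exp_le8 v) hC1.le)
    _ = _ := by ring

/-- the dominating function -/
noncomputable def hd3 (v : ℝ × ℝ × ℝ) : ℝ :=
  Real.exp (-(v.1 ^ 2 / 8)) * (Real.exp (-(v.2.1 ^ 2 / 8)) * Real.exp (-(v.2.2 ^ 2 / 8)))

theorem int_exp8 : Integrable (fun v : ℝ => Real.exp (-(v ^ 2 / 8))) := by
  have h := integrable_exp_neg_mul_sq (b := 1 / 8) (by norm_num)
  refine h.congr (Filter.Eventually.of_forall fun v => ?_)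
  simp only
  congr 1
  ring

theorem int_hd3 : Integrable hd3 := by
  have h := int_exp8.mul_prod (int_exp8.mul_prod int_exp8)
  exact h

theorem hd3_nonneg (v : ℝ × ℝ × ℝ) : 0 ≤ hd3 v := by
  unfold hd3
  positivity

theorem gauss3 (v1 v2 v3 : ℝ) : Real.exp (-((v1 + (v2 + v3) / 2) ^ 2 / 2)) *
    (Real.exp (-(v2 ^ 2 / 2)) * Real.exp (-(v3 ^ 2 / 2))) * (1 + |v1|) ^ 2 ≤
    16 * hd3 (v1, v2, v3) := by
  have h1 : (1 + |v1|) ^ 2 ≤ 16 * Real.exp (v1 ^ 2 / 8) := by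
    have h2 := Real.add_one_le_exp (v1 ^ 2 / 8)
    have h3 : |v1| ^ 2 = v1 ^ 2 := sq_abs v1
    nlinarith [sq_nonneg (|v1| - 1)]
  unfold hd3
  rw [← Real.exp_add, ← Real.exp_add, ← Real.exp_add, ← Real.exp_add]
  calc Real.exp (-((v1 + (v2 + v3) / 2) ^ 2 / 2) + (-(v2 ^ 2 / 2) + -(v3 ^ 2 / 2))) *
        (1 + |v1|) ^ 2
      ≤ Real.exp (-((v1 + (v2 + v3) / 2) ^ 2 / 2) + (-(v2 ^ 2 / 2) + -(v3 ^ 2 / 2))) *
        (16 * Real.exp (v1 ^ 2 / 8)) := by gcongr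
    _ = 16 * Real.exp (-((v1 + (v2 + v3) / 2) ^ 2 / 2) + (-(v2 ^ 2 / 2) + -(v3 ^ 2 / 2)) +
        v1 ^ 2 / 8) := by
        rw [Real.exp_add _ (v1 ^ 2 / 8)]
        ring
    _ ≤ 16 * Real.exp (-(v1 ^ 2 / 8) + (-(v2 ^ 2 / 8) + -(v3 ^ 2 / 8))) := by
        apply mul_le_mul_of_nonneg_left _ (by norm_num)
        apply Real.exp_le_exp.2
        nlinarith [sq_nonneg (v1 + (v2 + v3)), sq_nonneg (v2 - v3), sq_nonneg v2, sq_nonneg v3]

theorem zeta_z : ∃ C : ℝ, 0 < C ∧ ∀ (α β : ℂ) (v : ℝ), ‖α‖ ≤ 2 * rho → ‖β‖ ≤ 2 * rho →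
    ‖riemannZeta (1 - α - β - 2 * (cw + v * I))‖ ≤ C * (1 + |v|) ^ 2 := by
  obtain ⟨C, hC, h⟩ := zE_bound (1 / 2) (by norm_num)
  refine ⟨C * 16 * 20, by positivity, fun α β v hα hβ => ?_⟩
  set z : ℂ := 1 - α - β - 2 * (cw + v * I) with hz
  have h2 := abs_le.1 ((Complex.abs_re_le_norm α).trans hα)
  have h3 := abs_le.1 ((Complex.abs_re_le_norm β).trans hβ)
  have hre : z.re = 1 - α.re - β.re - 2 * cw := by
    rw [hz]
    simp
  have hd : 1 / 20 ≤ ‖z - 1‖ := by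
    have h4 := Complex.abs_re_le_norm (z - 1)
    rw [Complex.sub_re, hre, Complex.one_re] at h4
    have h5 := neg_le_abs (1 - α.re - β.re - 2 * cw - 1)
    unfold cw rho at *
    linarith
  have hne : z ≠ 1 := by
    intro h5
    rw [h5, sub_self, norm_zero] at hd
    norm_num at hd
  have hn : ‖z‖ ≤ 3 + 2 * |v| := by
    have h5 : ‖z‖ ≤ ‖(1:ℂ)‖ + ‖α‖ + ‖β‖ + ‖2 * ((cw : ℂ) + v * I)‖ := by
      rw [hz]
      refine (norm_sub_le _ _).trans ?_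
      gcongr
      refine (norm_sub_le _ _).trans ?_
      gcongr
      exact norm_sub_le _ _
    have h6 : ‖2 * ((cw : ℂ) + v * I)‖ ≤ 2 * (cw + |v|) := by
      rw [norm_mul]
      have h7 : ‖(cw : ℂ) + v * I‖ ≤ cw + |v| := by
        refine (norm_add_le _ _).trans ?_
        rw [norm_mul, Complex.norm_real, Complex.norm_real, Complex.norm_I, mul_one,
          Real.norm_eq_abs, Real.norm_eq_abs, abs_of_pos cw_pos]
      have h8 : ‖(2:ℂ)‖ = 2 := by simp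
      rw [h8]
      gcongr
    rw [norm_one] at h5
    unfold rho at hα hβ
    unfold cw at h6 h5
    linarith
  have hE := h z (by rw [hre]; unfold cw; unfold rho at h2 h3; linarith)
  have hzE := P4f18dfV.zE_of_ne hne
  have hnE : ‖P4f18dfV.zE z‖ = ‖z - 1‖ * ‖riemannZeta z‖ := by
    rw [hzE, norm_mul]
  have h9 : 1 / 20 * ‖riemannZeta z‖ ≤ ‖P4f18dfV.zE z‖ := by
    rw [hnE]
    gcongr
  have h10 : C * (1 + ‖z‖) ^ 2 ≤ C * (4 * (1 + |v|)) ^ 2 := by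
    gcongr
    linarith [abs_nonneg v]
  calc ‖riemannZeta z‖ ≤ 20 * ‖P4f18dfV.zE z‖ := by linarith
    _ ≤ 20 * (C * (4 * (1 + |v|)) ^ 2) := by linarith
    _ = C * 16 * 20 * (1 + |v|) ^ 2 := by ring

theorem FZ_bound : ∃ C : ℝ, 0 < C ∧ ∀ (a b : ℕ+) (s α β : ℂ) (x : ℝ) (v : ℝ × ℝ × ℝ), 0 < x →
    ‖s‖ = rho → ‖α‖ ≤ 2 * rho → ‖β‖ ≤ 2 * rho → Nat.Coprime (a : ℕ) (b : ℕ) →
    ‖FZ a b s α β x v‖ ≤ C * (x / (2 * Real.pi)) ^ (2 * cz - α.re - β.re) *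
      ((a : ℕ) * (b : ℕ) : ℝ) ^ (-(1 / 2) + 1 / 9 : ℝ) * hd3 v := by
  obtain ⟨C1, hC1, h1⟩ := Gw_bound rho (cw + cz) rho_pos
  obtain ⟨C3, hC3, h3⟩ := Gz_bound rho cz rho_pos
  obtain ⟨C4, hC4, h4⟩ := zeta_z
  obtain ⟨C5, hC5, h5⟩ := ee_bound (1 / 10 ^ 6) (by norm_num)
  have hcz := cz_pos
  have hcw := cw_pos
  refine ⟨16 * (C1 / (cw + cz) * (C3 / cz * (C3 / cz)) * (C4 * C5)), by positivity, ?_⟩
  rintro a b s α β x ⟨v1, v2, v3⟩ hx hs hα hβ hab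
  have e1 : (cw : ℂ) + v1 * I + ((cz + v2 * I) + (cz + v3 * I)) / 2 =
      ((cw + cz : ℝ) : ℂ) + ((v1 + (v2 + v3) / 2 : ℝ) : ℂ) * I := by
    push_cast
    ring
  have b1 := h1 s hs (cw + cz) (v1 + (v2 + v3) / 2) (abs_of_pos (by positivity)).le
  have b1' := le_norm_add (c := cw + cz) (by positivity) (v1 + (v2 + v3) / 2)
  have b2 := h3 s hs v2
  have b2' := le_norm_add hcz v2
  have b3 := h3 s hs v3
  have b3' := le_norm_add hcz v3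
  have b4 := h4 α β v1 hα hβ
  obtain ⟨r1, r2, r3, r4, r5, r6, r7⟩ := uZ_re hs hα hβ v1 v2 v3
  have b5 := h5 a b (uZ s α β (cw + v1 * I) (cz + v2 * I) (cz + v3 * I)) hab r1 r2 r3 r4 r5 r6 r7
  have b6 : ‖X2 x (-α - β + (cz + v2 * I) + (cz + v3 * I))‖ =
      (x / (2 * Real.pi)) ^ (2 * cz - α.re - β.re) := by
    rw [norm_X2 hx]
    congr 1
    simp
    ring
  have hX : 0 < (x / (2 * Real.pi)) ^ (2 * cz - α.re - β.re) :=
    Real.rpow_pos_of_pos (by positivity) _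
  have hab0 : 0 ≤ ((a : ℕ) * (b : ℕ) : ℝ) ^ (-(1 / 2) + 1 / 9 : ℝ) := by positivity
  unfold FZ Zker
  simp only
  rw [e1, norm_mul, norm_mul, norm_mul, norm_mul, norm_mul, norm_div, norm_div, norm_div, b6]
  have hgs := gauss3 v1 v2 v3
  calc _ ≤ C1 * Real.exp (-((v1 + (v2 + v3) / 2) ^ 2 / 2)) / (cw + cz) *
        (C3 * Real.exp (-(v2 ^ 2 / 2)) / cz * (C3 * Real.exp (-(v3 ^ 2 / 2)) / cz)) *
        (x / (2 * Real.pi)) ^ (2 * cz - α.re - β.re) *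
        (C4 * (1 + |v1|) ^ 2 * (C5 * ((a : ℕ) * (b : ℕ) : ℝ) ^ (-(1 / 2) + 1 / 9 : ℝ))) := by
        gcongr
    _ = C1 / (cw + cz) * (C3 / cz * (C3 / cz)) * (C4 * C5) *
        (x / (2 * Real.pi)) ^ (2 * cz - α.re - β.re) *
        ((a : ℕ) * (b : ℕ) : ℝ) ^ (-(1 / 2) + 1 / 9 : ℝ) *
        (Real.exp (-((v1 + (v2 + v3) / 2) ^ 2 / 2)) *
          (Real.exp (-(v2 ^ 2 / 2)) * Real.exp (-(v3 ^ 2 / 2))) * (1 + |v1|) ^ 2) := by ring
    _ ≤ C1 / (cw + cz) * (C3 / cz * (C3 / cz)) * (C4 * C5) *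
        (x / (2 * Real.pi)) ^ (2 * cz - α.re - β.re) *
        ((a : ℕ) * (b : ℕ) : ℝ) ^ (-(1 / 2) + 1 / 9 : ℝ) * (16 * hd3 (v1, v2, v3)) := by
        gcongr
    _ = _ := by ring

theorem gw_cont {X : Type*} [TopologicalSpace X] {T : Set X} {s w : X → ℂ}
    (hs : ContinuousOn s T) (hw : ContinuousOn w T) (h : ∀ q ∈ T, s q ≠ 0) :
    ContinuousOn (fun q => Gw (s q) (w q)) T := by
  unfold Gw
  have hw2 : ContinuousOn (fun q => w q ^ 2) T := hw.pow 2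
  have hs2 : ContinuousOn (fun q => s q ^ 2) T := hs.pow 2
  have hs0 : ∀ q ∈ T, s q ^ 2 ≠ 0 := fun q hq => pow_ne_zero 2 (h q hq)
  refine hw2.cexp.mul ?_
  refine ContinuousOn.mul (ContinuousOn.mul ?_ (ContinuousOn.pow ?_ 2)) ?_
  · exact continuousOn_const.sub (hw2.div hs2 hs0)
  · exact continuousOn_const.sub ((continuousOn_const.mul hw2).div (continuousOn_const.mul hs2)
      (fun q hq => mul_ne_zero (by norm_num) (hs0 q hq)))
  · exact continuousOn_const.sub (hw2.div (continuousOn_const.mul hs2)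
      (fun q hq => mul_ne_zero (by norm_num) (hs0 q hq)))

theorem gz_cont {X : Type*} [TopologicalSpace X] {T : Set X} {s w : X → ℂ}
    (hs : ContinuousOn s T) (hw : ContinuousOn w T) (h : ∀ q ∈ T, s q ≠ 0) :
    ContinuousOn (fun q => Gz (s q) (w q)) T := by
  unfold Gz
  have hw2 : ContinuousOn (fun q => w q ^ 2) T := hw.pow 2
  have hs2 : ContinuousOn (fun q => s q ^ 2) T := hs.pow 2
  have hs0 : ∀ q ∈ T, s q ^ 2 ≠ 0 := fun q hq => pow_ne_zero 2 (h q hq)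
  exact hw2.cexp.mul (continuousOn_const.sub ((continuousOn_const.mul hw2).div hs2 hs0))

theorem x2_cont {X : Type*} [TopologicalSpace X] {T : Set X} {x : X → ℝ} {w : X → ℂ}
    (hx : ContinuousOn x T) (hw : ContinuousOn w T) (h : ∀ q ∈ T, 0 < x q) :
    ContinuousOn (fun q => X2 (x q) (w q)) T := by
  unfold X2
  refine ContinuousOn.cpow ?_ hw (fun q hq => ?_)
  · exact Complex.continuous_ofReal.comp_continuousOn (hx.div_const _)
  · have := h q hq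
    rw [Complex.ofReal_mem_slitPlane]
    positivity

theorem z_cont {X : Type*} [TopologicalSpace X] {T : Set X} {g : X → ℂ} (hg : ContinuousOn g T)
    (h : ∀ q ∈ T, g q ≠ 1) : ContinuousOn (fun q => riemannZeta (g q)) T := fun q hq =>
  (differentiableAt_riemannZeta (h q hq)).continuousAt.comp_continuousWithinAt (hg q hq)

theorem ee_cont' (a b : ℕ+) {X : Type*} [TopologicalSpace X] {T : Set X} {u : X → Fin 4 → ℂ}
    (hu : ContinuousOn u T) (h : ∀ q ∈ T, u q ∈ RegE) :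
    ContinuousOn (fun q => EE a b (u q 0) (u q 1) (u q 2) (u q 3)) T := by
  have h1 := ContinuousOn.comp (ee_cont a b) hu h
  exact h1

theorem uD_cont : Continuous (fun q : (ℂ × ℝ) × ℝ => uD q.1.1 (cz + q.2 * I)) := by
  refine continuous_pi fun j => ?_
  unfold uD
  fin_cases j
  · simp
    fun_prop
  · simp
    fun_prop
  · simp
    fun_prop
  · simp
    fun_prop

theorem uZ_cont : Continuous (fun q : (ℂ × ℂ × ℂ × ℝ) × (ℝ × ℝ × ℝ) =>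
    uZ q.1.1 q.1.2.1 q.1.2.2.1 (cw + q.2.1 * I) (cz + q.2.2.1 * I) (cz + q.2.2.2 * I)) := by
  refine continuous_pi fun j => ?_
  unfold uZ
  fin_cases j
  · simp
    fun_prop
  · simp
    fun_prop
  · simp
    fun_prop
  · simp
    fun_prop

theorem s_ne {s : ℂ} (hs : ‖s‖ = rho) : s ≠ 0 := by
  rintro rfl
  rw [norm_zero] at hs
  have := rho_pos
  linarith

theorem fd_cont (a b : ℕ+) : ContinuousOn (fun q : (ℂ × ℝ) × ℝ => FD a b q.1.1 q.1.2 q.2)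
    {q | q.1 ∈ {p : ℂ × ℝ | ‖p.1‖ = rho ∧ 0 < p.2}} := by
  unfold FD
  have hw : Continuous (fun q : (ℂ × ℝ) × ℝ => (cz : ℂ) + q.2 * I) := by fun_prop
  have hs : Continuous (fun q : (ℂ × ℝ) × ℝ => q.1.1) := by fun_prop
  have hx : Continuous (fun q : (ℂ × ℝ) × ℝ => q.1.2) := by fun_prop
  refine ContinuousOn.mul (ContinuousOn.mul (ContinuousOn.div ?_ hw.continuousOn ?_) ?_) ?_
  · exact gw_cont hs.continuousOn hw.continuousOn (fun q hq => s_ne hq.1)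
  · exact fun q _ => ne_add cz_pos q.2
  · exact x2_cont hx.continuousOn (continuous_const.mul hw).continuousOn (fun q hq => hq.2)
  · have h1 : ContinuousOn (fun q : (ℂ × ℝ) × ℝ => riemannZeta (1 + uD q.1.1 (cz + q.2 * I) 1 +
        uD q.1.1 (cz + q.2 * I) 3) * EE a b (uD q.1.1 (cz + q.2 * I) 0)
        (uD q.1.1 (cz + q.2 * I) 1) (uD q.1.1 (cz + q.2 * I) 2) (uD q.1.1 (cz + q.2 * I) 3))
        {q | q.1 ∈ {p : ℂ × ℝ | ‖p.1‖ = rho ∧ 0 < p.2}} := by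
      refine ContinuousOn.mul (z_cont ?_ ?_) (ee_cont' a b uD_cont.continuousOn ?_)
      · have c1 := (continuous_apply (1 : Fin 4)).comp uD_cont
        have c3 := (continuous_apply (3 : Fin 4)).comp uD_cont
        exact ((continuous_const.add c1).add c3).continuousOn
      · intro q hq h
        have h2 := congrArg Complex.re h
        rw [Complex.add_re, Complex.add_re, Complex.one_re] at h2
        have h3 := uD_re hq.1 q.2 1
        have h4 := uD_re hq.1 q.2 3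
        have hp : (0:ℝ) < 1 / 10 ^ 6 := by norm_num
        linarith
      · intro q hq
        obtain ⟨m1, m2, m3, _⟩ := uD_mem hq.1 q.2
        exact ⟨m1, m2, m3⟩
    refine h1.congr fun q hq => ?_
    exact (dd_summable a b (uD_mem hq.1 q.2)).2

/-- admissible parameters -/
def TZ : Set (ℂ × ℂ × ℂ × ℝ) :=
  {p | ‖p.1‖ = rho ∧ ‖p.2.1‖ ≤ 2 * rho ∧ ‖p.2.2.1‖ ≤ 2 * rho ∧ 0 < p.2.2.2}

theorem fz_cont (a b : ℕ+) : ContinuousOn (fun q : (ℂ × ℂ × ℂ × ℝ) × (ℝ × ℝ × ℝ) =>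
    FZ a b q.1.1 q.1.2.1 q.1.2.2.1 q.1.2.2.2 q.2) {q | q.1 ∈ TZ} := by
  unfold FZ Zker
  have hs : Continuous (fun q : (ℂ × ℂ × ℂ × ℝ) × (ℝ × ℝ × ℝ) => q.1.1) := by fun_prop
  have hx : Continuous (fun q : (ℂ × ℂ × ℂ × ℝ) × (ℝ × ℝ × ℝ) => q.1.2.2.2) := by fun_prop
  have hz1 : Continuous (fun q : (ℂ × ℂ × ℂ × ℝ) × (ℝ × ℝ × ℝ) => (cz : ℂ) + q.2.2.1 * I) := by
    fun_prop
  have hz2 : Continuous (fun q : (ℂ × ℂ × ℂ × ℝ) × (ℝ × ℝ × ℝ) => (cz : ℂ) + q.2.2.2 * I) := by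
    fun_prop
  have hw : Continuous (fun q : (ℂ × ℂ × ℂ × ℝ) × (ℝ × ℝ × ℝ) =>
      (cw : ℂ) + q.2.1 * I + ((cz + q.2.2.1 * I) + (cz + q.2.2.2 * I)) / 2) := by
    fun_prop
  have hs0 : ∀ q ∈ {q : (ℂ × ℂ × ℂ × ℝ) × (ℝ × ℝ × ℝ) | q.1 ∈ TZ}, q.1.1 ≠ 0 :=
    fun q hq => s_ne hq.1
  refine ContinuousOn.mul (ContinuousOn.mul (ContinuousOn.mul (ContinuousOn.div ?_ hw.continuousOn ?_)
    (ContinuousOn.mul (ContinuousOn.div ?_ hz1.continuousOn ?_)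
      (ContinuousOn.div ?_ hz2.continuousOn ?_))) ?_) (ContinuousOn.mul (z_cont ?_ ?_)
        (ee_cont' a b uZ_cont.continuousOn ?_))
  · exact gw_cont hs.continuousOn hw.continuousOn hs0
  · intro q _ h
    have h1 := congrArg Complex.re h
    simp at h1
    have := cz_pos
    have := cw_pos
    linarith
  · exact gz_cont hs.continuousOn hz1.continuousOn hs0
  · exact fun q _ => ne_add cz_pos _
  · exact gz_cont hs.continuousOn hz2.continuousOn hs0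
  · exact fun q _ => ne_add cz_pos _
  · refine x2_cont hx.continuousOn (Continuous.continuousOn ?_) (fun q hq => hq.2.2.2)
    fun_prop
  · refine Continuous.continuousOn ?_
    fun_prop
  · intro q hq h
    have h1 := congrArg Complex.re h
    simp at h1
    have h2 := abs_le.1 ((Complex.abs_re_le_norm _).trans hq.2.1)
    have h3 := abs_le.1 ((Complex.abs_re_le_norm _).trans hq.2.2.1)
    unfold rho at h2 h3
    unfold cw at h1
    linarith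
  · exact fun q hq => uZ_mem hq.1 hq.2.1 hq.2.2.1 _ _ _

theorem par {P V : Type*} [TopologicalSpace P] [FirstCountableTopology P] [TopologicalSpace V]
    [MeasureSpace V] [OpensMeasurableSpace V] [SecondCountableTopology V] {F : P → V → ℂ}
    {T : Set P} {B : P → ℝ} {g : V → ℝ}
    (hF : ContinuousOn (fun q : P × V => F q.1 q.2) {q | q.1 ∈ T}) (hB : ContinuousOn B T)
    (hg : Integrable g) (hg0 : ∀ v, 0 ≤ g v) (hb : ∀ p ∈ T, ∀ v, ‖F p v‖ ≤ B p * g v) :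
    (∀ p ∈ T, Integrable (F p)) ∧ ContinuousOn (fun p => ∫ v, F p v) T := by
  have hc : ∀ p ∈ T, Continuous (F p) := fun p hp =>
    hF.comp_continuous (by fun_prop : Continuous fun v : V => (p, v)) (fun v => hp)
  refine ⟨fun p hp => (hg.const_mul (B p)).mono' (hc p hp).aestronglyMeasurable
    (Filter.Eventually.of_forall (hb p hp)), fun p0 hp0 => ?_⟩
  refine continuousWithinAt_of_dominated (bound := fun v => (B p0 + 1) * g v) ?_ ?_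
    (hg.const_mul _) ?_
  · filter_upwards [self_mem_nhdsWithin] with p hp using (hc p hp).aestronglyMeasurable
  · filter_upwards [self_mem_nhdsWithin, (hB p0 hp0).eventually (gt_mem_nhds (lt_add_one _))]
      with p hp hlt
    exact Filter.Eventually.of_forall fun v =>
      (hb p hp v).trans (mul_le_mul_of_nonneg_right hlt.le (hg0 v))
  · refine Filter.Eventually.of_forall fun v => ?_
    have h1 : ContinuousWithinAt (fun p : P => (p, v)) T p0 := by fun_prop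
    have h2 : ContinuousWithinAt (fun q : P × V => F q.1 q.2) {q | q.1 ∈ T}
        ((fun p : P => (p, v)) p0) := hF (p0, v) hp0
    exact ContinuousWithinAt.comp (g := fun q : P × V => F q.1 q.2) (f := fun p : P => (p, v)) h2 h1
      (fun p hp => hp)

theorem pow_le {x r : ℝ} (hx : 1 ≤ x) (h0 : 0 ≤ r) (h1 : r ≤ 1 / 10000) :
    (x / (2 * Real.pi)) ^ r ≤ x ^ (1 / 10000 : ℝ) := by
  have hpi := Real.pi_gt_three
  have h2 : x / (2 * Real.pi) ≤ x := by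
    rw [div_le_iff₀ (by positivity)]
    nlinarith
  calc (x / (2 * Real.pi)) ^ r ≤ x ^ r := Real.rpow_le_rpow (by positivity) h2 h0
    _ ≤ x ^ (1 / 10000 : ℝ) := Real.rpow_le_rpow_of_exponent_le hx h1

theorem ab_one (a b : ℕ+) : (1:ℝ) ≤ ((a : ℕ) * (b : ℕ) : ℝ) := by
  have ha : (1 : ℝ) ≤ (a : ℕ) := by exact_mod_cast a.2
  have hb : (1 : ℝ) ≤ (b : ℕ) := by exact_mod_cast b.2
  nlinarith

/-- admissible parameters -/
def TD : Set (ℂ × ℝ) := {p | ‖p.1‖ = rho ∧ 0 < p.2}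

theorem fd_all (a b : ℕ+) (hab : Nat.Coprime (a : ℕ) (b : ℕ)) :
    (∀ p ∈ TD, Integrable (FD a b p.1 p.2)) ∧
    ContinuousOn (fun p : ℂ × ℝ => ∫ v, FD a b p.1 p.2 v) TD := by
  obtain ⟨C, hC, h⟩ := FD_bound
  have hB : ContinuousOn (fun p : ℂ × ℝ => C * (p.2 / (2 * Real.pi)) ^ (2 * cz) *
      ((a : ℕ) * (b : ℕ) : ℝ) ^ (-(1 / 2) : ℝ)) TD := by
    refine ContinuousOn.mul (ContinuousOn.mul continuousOn_const ?_) continuousOn_const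
    refine ContinuousOn.rpow_const ?_ (fun p hp => Or.inl ?_)
    · fun_prop
    · have := hp.2
      positivity
  have hb : ∀ p ∈ TD, ∀ v : ℝ, ‖FD a b p.1 p.2 v‖ ≤ C * (p.2 / (2 * Real.pi)) ^ (2 * cz) *
      ((a : ℕ) * (b : ℕ) : ℝ) ^ (-(1 / 2) : ℝ) * Real.exp (-(v ^ 2 / 8)) :=
    fun p hp v => h a b p.1 p.2 v hp.2 hp.1 hab
  have h3 := par (P := ℂ × ℝ) (V := ℝ) (F := fun p v => FD a b p.1 p.2 v) (T := TD)
    (fd_cont a b) hB int_exp8 (fun v => (Real.exp_pos _).le) hb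
  exact h3

theorem fz_all (a b : ℕ+) (hab : Nat.Coprime (a : ℕ) (b : ℕ)) :
    (∀ p ∈ TZ, Integrable (FZ a b p.1 p.2.1 p.2.2.1 p.2.2.2)) ∧
    ContinuousOn (fun p : ℂ × ℂ × ℂ × ℝ => ∫ v, FZ a b p.1 p.2.1 p.2.2.1 p.2.2.2 v) TZ := by
  obtain ⟨C, hC, h⟩ := FZ_bound
  have hB : ContinuousOn (fun p : ℂ × ℂ × ℂ × ℝ =>
      C * (p.2.2.2 / (2 * Real.pi)) ^ (2 * cz - p.2.1.re - p.2.2.1.re) *
      ((a : ℕ) * (b : ℕ) : ℝ) ^ (-(1 / 2) + 1 / 9 : ℝ)) TZ := by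
    refine ContinuousOn.mul (ContinuousOn.mul continuousOn_const ?_) continuousOn_const
    refine ContinuousOn.rpow ?_ ?_ (fun p hp => Or.inl ?_)
    · refine Continuous.continuousOn ?_
      fun_prop
    · refine Continuous.continuousOn ?_
      fun_prop
    · have := hp.2.2.2
      positivity
  have hb : ∀ p ∈ TZ, ∀ v : ℝ × ℝ × ℝ, ‖FZ a b p.1 p.2.1 p.2.2.1 p.2.2.2 v‖ ≤
      C * (p.2.2.2 / (2 * Real.pi)) ^ (2 * cz - p.2.1.re - p.2.2.1.re) *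
      ((a : ℕ) * (b : ℕ) : ℝ) ^ (-(1 / 2) + 1 / 9 : ℝ) * hd3 v :=
    fun p hp v => h a b p.1 p.2.1 p.2.2.1 p.2.2.2 v hp.2.2.2 hp.1 hp.2.1 hp.2.2.1 hab
  have h3 := par (P := ℂ × ℂ × ℂ × ℝ) (V := ℝ × ℝ × ℝ)
    (F := fun p v => FZ a b p.1 p.2.1 p.2.2.1 p.2.2.2 v) (T := TZ)
    (fz_cont a b) hB int_hd3 hd3_nonneg hb
  exact h3

end MIbAux

open MIbAux

theorem mi_int_d : ∃ C : ℝ, 0 < C ∧ ∀ (x : ℝ) (s : ℂ) (a b : ℕ+), 1 ≤ x → ‖s‖ = rho → Nat.Coprime (a : ℕ) (b : ℕ) →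
    Integrable (fun v : ℝ => Gw s (cz + v * I) / (cz + v * I) * X2 x (2 * (cz + v * I)) *
      DD a b (uD s (cz + v * I) 0) (uD s (cz + v * I) 1) (uD s (cz + v * I) 2) (uD s (cz + v * I) 3)) ∧
    ∫ v : ℝ, ‖Gw s (cz + v * I) / (cz + v * I) * X2 x (2 * (cz + v * I)) *
      DD a b (uD s (cz + v * I) 0) (uD s (cz + v * I) 1) (uD s (cz + v * I) 2) (uD s (cz + v * I) 3)‖ ≤
      C * x ^ (1 / 10000 : ℝ) * ((a : ℕ) * (b : ℕ) : ℝ) ^ (-(1 / 2) : ℝ) := by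
  obtain ⟨C, hC, h⟩ := FD_bound
  have hM : 0 ≤ ∫ v : ℝ, Real.exp (-(v ^ 2 / 8)) :=
    integral_nonneg fun v => (Real.exp_pos _).le
  refine ⟨C * (∫ v : ℝ, Real.exp (-(v ^ 2 / 8))) + 1, by positivity, ?_⟩
  intro x s a b hx hs hab
  have hx0 : 0 < x := by linarith
  have hi : Integrable (FD a b s x) := (fd_all a b hab).1 (s, x) ⟨hs, hx0⟩
  refine ⟨hi, ?_⟩
  have hp := pow_le (r := 2 * cz) hx (by unfold cz; norm_num) (by unfold cz; norm_num)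
  have hab0 : 0 ≤ ((a : ℕ) * (b : ℕ) : ℝ) ^ (-(1 / 2) : ℝ) := by positivity
  have hxp : 0 ≤ x ^ (1 / 10000 : ℝ) := by positivity
  calc ∫ v : ℝ, ‖FD a b s x v‖ ≤ ∫ v : ℝ, C * x ^ (1 / 10000 : ℝ) *
        ((a : ℕ) * (b : ℕ) : ℝ) ^ (-(1 / 2) : ℝ) * Real.exp (-(v ^ 2 / 8)) := by
        refine integral_mono hi.norm (int_exp8.const_mul _) fun v => ?_
        refine (h a b s x v hx0 hs hab).trans ?_
        gcongr
    _ = C * (∫ v : ℝ, Real.exp (-(v ^ 2 / 8))) * x ^ (1 / 10000 : ℝ) *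
        ((a : ℕ) * (b : ℕ) : ℝ) ^ (-(1 / 2) : ℝ) := by
        rw [integral_const_mul]
        ring
    _ ≤ (C * (∫ v : ℝ, Real.exp (-(v ^ 2 / 8))) + 1) * x ^ (1 / 10000 : ℝ) *
        ((a : ℕ) * (b : ℕ) : ℝ) ^ (-(1 / 2) : ℝ) := by
        gcongr
        linarith

theorem MIbAux.mi_int_z' : ∃ C : ℝ, 0 < C ∧ ∀ (x : ℝ) (s α β : ℂ) (a b : ℕ+), 1 ≤ x →
    ‖s‖ = rho → ‖α‖ ≤ 2 * rho → ‖β‖ ≤ 2 * rho → Nat.Coprime (a : ℕ) (b : ℕ) →
    Integrable (FZ a b s α β x) ∧ ∫ v, ‖FZ a b s α β x v‖ ≤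
      C * x ^ (1 / 10000 : ℝ) * ((a : ℕ) * (b : ℕ) : ℝ) ^ (-(1 / 2) + 1 / 9 : ℝ) := by
  obtain ⟨C, hC, h⟩ := FZ_bound
  have hM : 0 ≤ ∫ v, hd3 v := integral_nonneg hd3_nonneg
  refine ⟨C * (∫ v, hd3 v) + 1, by positivity, ?_⟩
  intro x s α β a b hx hs hα hβ hab
  have hx0 : 0 < x := by linarith
  have hi : Integrable (FZ a b s α β x) := (fz_all a b hab).1 (s, α, β, x) ⟨hs, hα, hβ, hx0⟩
  refine ⟨hi, ?_⟩
  have h2 := abs_le.1 ((Complex.abs_re_le_norm α).trans hα)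
  have h3 := abs_le.1 ((Complex.abs_re_le_norm β).trans hβ)
  unfold rho at h2 h3
  have hp := pow_le (r := 2 * cz - α.re - β.re) hx (by unfold cz; linarith)
    (by unfold cz; linarith)
  have hab0 : 0 ≤ ((a : ℕ) * (b : ℕ) : ℝ) ^ (-(1 / 2) + 1 / 9 : ℝ) := by positivity
  have hxp : 0 ≤ x ^ (1 / 10000 : ℝ) := by positivity
  calc ∫ v, ‖FZ a b s α β x v‖ ≤ ∫ v, C * x ^ (1 / 10000 : ℝ) *
        ((a : ℕ) * (b : ℕ) : ℝ) ^ (-(1 / 2) + 1 / 9 : ℝ) * hd3 v := by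
        refine integral_mono hi.norm (int_hd3.const_mul _) fun v => ?_
        refine (h a b s α β x v hx0 hs hα hβ hab).trans ?_
        have := hd3_nonneg v
        gcongr
    _ = C * (∫ v, hd3 v) * x ^ (1 / 10000 : ℝ) *
        ((a : ℕ) * (b : ℕ) : ℝ) ^ (-(1 / 2) + 1 / 9 : ℝ) := by
        rw [integral_const_mul]
        ring
    _ ≤ (C * (∫ v, hd3 v) + 1) * x ^ (1 / 10000 : ℝ) *
        ((a : ℕ) * (b : ℕ) : ℝ) ^ (-(1 / 2) + 1 / 9 : ℝ) := by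
        gcongr
        linarith

theorem MIbAux.norm_or {s α : ℂ} (hs : ‖s‖ = rho) (h : α = s ∨ α = 2 * s) : ‖α‖ ≤ 2 * rho := by
  have := rho_pos
  rcases h with rfl | rfl
  · rw [hs]
    linarith
  · rw [norm_mul, hs]
    simp

theorem mi_int_z : ∃ C : ℝ, 0 < C ∧ ∀ (x : ℝ) (s α β : ℂ) (a b : ℕ+), 1 ≤ x → ‖s‖ = rho → (α = s ∨ α = 2 * s) →
    (β = s ∨ β = 2 * s) → Nat.Coprime (a : ℕ) (b : ℕ) →
    Integrable (fun v : ℝ × ℝ × ℝ => Zker s α β x (cw + v.1 * I) (cz + v.2.1 * I) (cz + v.2.2 * I) *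
      (riemannZeta (1 - α - β - 2 * (cw + v.1 * I)) *
        EE a b (uZ s α β (cw + v.1 * I) (cz + v.2.1 * I) (cz + v.2.2 * I) 0)
          (uZ s α β (cw + v.1 * I) (cz + v.2.1 * I) (cz + v.2.2 * I) 1)
          (uZ s α β (cw + v.1 * I) (cz + v.2.1 * I) (cz + v.2.2 * I) 2)
          (uZ s α β (cw + v.1 * I) (cz + v.2.1 * I) (cz + v.2.2 * I) 3))) ∧
    ∫ v : ℝ × ℝ × ℝ, ‖Zker s α β x (cw + v.1 * I) (cz + v.2.1 * I) (cz + v.2.2 * I) *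
      (riemannZeta (1 - α - β - 2 * (cw + v.1 * I)) *
        EE a b (uZ s α β (cw + v.1 * I) (cz + v.2.1 * I) (cz + v.2.2 * I) 0)
          (uZ s α β (cw + v.1 * I) (cz + v.2.1 * I) (cz + v.2.2 * I) 1)
          (uZ s α β (cw + v.1 * I) (cz + v.2.1 * I) (cz + v.2.2 * I) 2)
          (uZ s α β (cw + v.1 * I) (cz + v.2.1 * I) (cz + v.2.2 * I) 3))‖ ≤
      C * x ^ (1 / 10000 : ℝ) * ((a : ℕ) * (b : ℕ) : ℝ) ^ (-(1 / 2) + 1 / 9 : ℝ) := by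
  obtain ⟨C, hC, h⟩ := mi_int_z'
  exact ⟨C, hC, fun x s α β a b hx hs hα hβ hab =>
    h x s α β a b hx hs (norm_or hs hα) (norm_or hs hβ) hab⟩

theorem MIbAux.norm_2pi : ‖(2 * Real.pi : ℂ)⁻¹‖ ≤ 1 := by
  have hpi := Real.pi_gt_three
  rw [norm_inv, norm_mul, Complex.norm_real, Real.norm_eq_abs, abs_of_pos Real.pi_pos]
  have h8 : ‖(2:ℂ)‖ = 2 := by simp
  rw [h8]
  apply inv_le_one_of_one_le₀
  linarith

theorem MIbAux.norm_2pi3 : ‖((2 * Real.pi : ℂ) ^ 3)⁻¹‖ ≤ 1 := by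
  rw [← inv_pow, norm_pow]
  exact pow_le_one₀ (norm_nonneg _) norm_2pi

theorem mi_bound : ∃ C : ℝ, 0 < C ∧ ∀ (x : ℝ) (s : ℂ) (a b : ℕ+), 1 ≤ x → ‖s‖ = rho → Nat.Coprime (a : ℕ) (b : ℕ) →
    ‖MI s x a b‖ ≤ C * x ^ (1 / 10000 : ℝ) * ((a : ℕ) * (b : ℕ) : ℝ) ^ (-(1 / 2) + 1 / 9 : ℝ) := by
  obtain ⟨C1, hC1, h1⟩ := mi_int_d
  obtain ⟨C2, hC2, h2⟩ := mi_int_z'
  refine ⟨C1 + 4 * C2, by positivity, fun x s a b hx hs hab => ?_⟩
  have hd : ‖Dint s x a b‖ ≤ C1 * x ^ (1 / 10000 : ℝ) *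
      ((a : ℕ) * (b : ℕ) : ℝ) ^ (-(1 / 2) + 1 / 9 : ℝ) := by
    have h3 := (h1 x s a b hx hs hab).2
    have h4 : ‖Dint s x a b‖ ≤ ∫ v : ℝ, ‖FD a b s x v‖ := by
      have e1 : Dint s x a b = (2 * Real.pi : ℂ)⁻¹ * ∫ v : ℝ, FD a b s x v := rfl
      rw [e1, norm_mul]
      calc ‖(2 * Real.pi : ℂ)⁻¹‖ * ‖∫ v : ℝ, FD a b s x v‖ ≤ 1 * ∫ v : ℝ, ‖FD a b s x v‖ := by
            gcongr
            · exact norm_2pi
            · exact norm_integral_le_integral_norm _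
        _ = _ := one_mul _
    refine h4.trans (h3.trans ?_)
    have h5 : ((a : ℕ) * (b : ℕ) : ℝ) ^ (-(1 / 2) : ℝ) ≤
        ((a : ℕ) * (b : ℕ) : ℝ) ^ (-(1 / 2) + 1 / 9 : ℝ) :=
      Real.rpow_le_rpow_of_exponent_le (ab_one a b) (by norm_num)
    gcongr
  have hz : ∀ α β : ℂ, (α = s ∨ α = 2 * s) → (β = s ∨ β = 2 * s) → ‖Zint s α β x a b‖ ≤
      C2 * x ^ (1 / 10000 : ℝ) * ((a : ℕ) * (b : ℕ) : ℝ) ^ (-(1 / 2) + 1 / 9 : ℝ) := by
    intro α β hα hβ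
    have h3 := (h2 x s α β a b hx hs (norm_or hs hα) (norm_or hs hβ) hab).2
    refine le_trans ?_ h3
    have e1 : Zint s α β x a b = ((2 * Real.pi : ℂ) ^ 3)⁻¹ * ∫ v : ℝ × ℝ × ℝ, FZ a b s α β x v := rfl
    rw [e1, norm_mul]
    calc ‖((2 * Real.pi : ℂ) ^ 3)⁻¹‖ * ‖∫ v : ℝ × ℝ × ℝ, FZ a b s α β x v‖
        ≤ 1 * ∫ v : ℝ × ℝ × ℝ, ‖FZ a b s α β x v‖ := by
          gcongr
          · exact norm_2pi3
          · exact norm_integral_le_integral_norm _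
      _ = _ := one_mul _
  unfold MI
  have z1 := hz s s (Or.inl rfl) (Or.inl rfl)
  have z2 := hz s (2 * s) (Or.inl rfl) (Or.inr rfl)
  have z3 := hz (2 * s) s (Or.inr rfl) (Or.inl rfl)
  have z4 := hz (2 * s) (2 * s) (Or.inr rfl) (Or.inr rfl)
  calc _ ≤ ‖Dint s x a b‖ + ((‖Zint s s s x a b‖ + ‖Zint s s (2 * s) x a b‖) +
        (‖Zint s (2 * s) s x a b‖ + ‖Zint s (2 * s) (2 * s) x a b‖)) := by
        refine (norm_add_le _ _).trans ?_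
        gcongr
        refine (norm_add_le _ _).trans ?_
        gcongr
        · exact norm_add_le _ _
        · exact norm_add_le _ _
    _ ≤ _ := by
        linarith

theorem mi_cont (a b : ℕ+) (hab : Nat.Coprime (a : ℕ) (b : ℕ)) :
    ContinuousOn (fun p : ℂ × ℝ => MI p.1 p.2 a b) (Metric.sphere 0 rho ×ˢ Set.Ioi 0) := by
  have hset : ∀ p ∈ (Metric.sphere (0:ℂ) rho ×ˢ Set.Ioi (0:ℝ)), ‖p.1‖ = rho ∧ 0 < p.2 := by
    intro p hp
    exact ⟨by simpa using hp.1, hp.2⟩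
  have hd : ContinuousOn (fun p : ℂ × ℝ => Dint p.1 p.2 a b)
      (Metric.sphere 0 rho ×ˢ Set.Ioi 0) := by
    have e1 : (fun p : ℂ × ℝ => Dint p.1 p.2 a b) =
        fun p => (2 * Real.pi : ℂ)⁻¹ * ∫ v : ℝ, FD a b p.1 p.2 v := rfl
    rw [e1]
    exact continuousOn_const.mul ((fd_all a b hab).2.mono hset)
  have hz : ∀ f g : ℂ × ℝ → ℂ, Continuous f → Continuous g →
      (∀ p, f p = p.1 ∨ f p = 2 * p.1) → (∀ p, g p = p.1 ∨ g p = 2 * p.1) →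
      ContinuousOn (fun p : ℂ × ℝ => Zint p.1 (f p) (g p) p.2 a b)
        (Metric.sphere 0 rho ×ˢ Set.Ioi 0) := by
    intro f g hf hg hf' hg'
    have e1 : (fun p : ℂ × ℝ => Zint p.1 (f p) (g p) p.2 a b) =
        fun p => ((2 * Real.pi : ℂ) ^ 3)⁻¹ * ∫ v : ℝ × ℝ × ℝ, FZ a b p.1 (f p) (g p) p.2 v := rfl
    rw [e1]
    refine continuousOn_const.mul ?_
    have hc : Continuous (fun p : ℂ × ℝ => (p.1, f p, g p, p.2)) := by fun_prop
    have h3 := ContinuousOn.comp (fz_all a b hab).2 hc.continuousOn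
      (s := Metric.sphere (0:ℂ) rho ×ˢ Set.Ioi (0:ℝ)) (fun p hp => by
        have h4 := hset p hp
        exact ⟨h4.1, norm_or h4.1 (hf' p), norm_or h4.1 (hg' p), h4.2⟩)
    exact h3
  have c1 : Continuous (fun p : ℂ × ℝ => p.1) := continuous_fst
  have c2 : Continuous (fun p : ℂ × ℝ => 2 * p.1) := continuous_const.mul continuous_fst
  unfold MI
  refine hd.add ((ContinuousOn.add ?_ ?_).add (ContinuousOn.add ?_ ?_))
  · exact hz _ _ c1 c1 (fun _ => Or.inl rfl) (fun _ => Or.inl rfl)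
  · exact hz _ _ c1 c2 (fun _ => Or.inl rfl) (fun _ => Or.inr rfl)
  · exact hz _ _ c2 c1 (fun _ => Or.inr rfl) (fun _ => Or.inl rfl)
  · exact hz _ _ c2 c2 (fun _ => Or.inr rfl) (fun _ => Or.inr rfl)

end Pool.Agent.P07318f
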