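import Pool.Agent.Lib.P07318f.MIb

/-!
# Bounds and continuity of `MM`

`MM x a b` is the mean of `X2 x (3s) MI s x a b + X2 x (-3s) MI (-s) x a b` over `s = circleMap 0 rho θ`: `mi_bound`, `‖X2 x (±3s)‖ ≤ C x^(3ρ)`, `3·10^(-7) + 1/10000`
`≤ 1/9000`. Continuity: the integrand is jointly continuous in `(θ, x)` (`mi_cont`), parametric interval integral.
-/

set_option autoImplicit false

namespace Pool.Agent.P07318f

open MeasureTheory Complex Pool.Agent.P07318s

namespace MMbAux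

theorem norm_X2 {x : ℝ} (hx : 0 < x) (w : ℂ) : ‖X2 x w‖ = (x / (2 * Real.pi)) ^ w.re := by
  unfold X2
  rw [Complex.norm_cpow_eq_rpow_re_of_pos (by positivity)]

theorem rpow_both {x t τ : ℝ} (hx : 1 ≤ x) (ht : |t| ≤ τ) :
    (x / (2 * Real.pi)) ^ t ≤ (2 * Real.pi * x) ^ τ := by
  have hpi : 3 < Real.pi := Real.pi_gt_three
  have h0 : 0 < x / (2 * Real.pi) := by positivity
  have hτ : 0 ≤ τ := (abs_nonneg t).trans ht
  have h2 : 0 < x := by linarith
  rcases le_total 1 (x / (2 * Real.pi)) with h | h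
  · refine (Real.rpow_le_rpow_of_exponent_le h ((le_abs_self t).trans ht)).trans ?_
    refine Real.rpow_le_rpow h0.le ?_ hτ
    rw [div_le_iff₀ (by positivity)]
    nlinarith [mul_pos h2 Real.pi_pos, mul_pos (mul_pos h2 Real.pi_pos) Real.pi_pos]
  · have h3 : (x / (2 * Real.pi)) ^ t = (2 * Real.pi / x) ^ (-t) := by
      rw [← inv_div, Real.inv_rpow (by positivity), Real.rpow_neg (by positivity)]
    rw [h3]
    have h4 : 1 ≤ 2 * Real.pi / x := by
      rw [div_le_one (by positivity)] at h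
      rwa [one_le_div h2]
    refine (Real.rpow_le_rpow_of_exponent_le h4 ((neg_le_abs t).trans ht)).trans ?_
    refine Real.rpow_le_rpow (by positivity) ?_ hτ
    rw [div_le_iff₀ h2]
    have : 1 ≤ x * x := by nlinarith
    nlinarith [mul_le_mul_of_nonneg_left this Real.pi_pos.le]

theorem norm_circ (θ : ℝ) : ‖circleMap 0 rho θ‖ = rho := by
  rw [norm_circleMap_zero, abs_of_pos]
  unfold rho
  norm_num

end MMbAux

open MMbAux

theorem mm_bound : ∃ C : ℝ, 0 < C ∧ ∀ (x : ℝ) (a b : ℕ+), 1 ≤ x → Nat.Coprime (a : ℕ) (b : ℕ) →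
    ‖MM x a b‖ ≤ C * x ^ (1 / 9000 : ℝ) * ((a : ℕ) * (b : ℕ) : ℝ) ^ (-(1 / 2) + 1 / 9 : ℝ) := by
  obtain ⟨C, hC, hb⟩ := mi_bound
  refine ⟨2 * (2 * Real.pi) ^ (3 * rho) * C, by positivity, fun x a b hx hab => ?_⟩
  have hx0 : 0 < x := by linarith
  set P : ℝ := ((a : ℕ) * (b : ℕ) : ℝ) ^ (-(1 / 2) + 1 / 9 : ℝ) with hP
  have hP0 : 0 ≤ P := by positivity
  have hX : ∀ s : ℂ, ‖s‖ = rho → ‖X2 x (3 * s)‖ ≤ (2 * Real.pi * x) ^ (3 * rho) ∧
      ‖X2 x (-3 * s)‖ ≤ (2 * Real.pi * x) ^ (3 * rho) := by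
    intro s hs
    have h1 : |s.re| ≤ rho := hs ▸ Complex.abs_re_le_norm s
    rw [norm_X2 hx0, norm_X2 hx0]
    constructor
    · apply rpow_both hx
      have : (3 * s).re = 3 * s.re := by simp
      rw [this, abs_mul, abs_of_pos (by norm_num : (0 : ℝ) < 3)]
      linarith
    · apply rpow_both hx
      have : (-3 * s).re = -(3 * s.re) := by simp
      rw [this, abs_neg, abs_mul, abs_of_pos (by norm_num : (0 : ℝ) < 3)]
      linarith
  have h1 : ∀ θ : ℝ, ‖X2 x (3 * circleMap 0 rho θ) * MI (circleMap 0 rho θ) x a b +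
      X2 x (-3 * circleMap 0 rho θ) * MI (-circleMap 0 rho θ) x a b‖ ≤
      2 * ((2 * Real.pi * x) ^ (3 * rho) * (C * x ^ (1 / 10000 : ℝ) * P)) := by
    intro θ
    have hs := norm_circ θ
    have hs' : ‖-circleMap 0 rho θ‖ = rho := by rw [norm_neg, hs]
    refine (norm_add_le _ _).trans ?_
    rw [norm_mul, norm_mul]
    have e1 := mul_le_mul (hX _ hs).1 (hb x _ a b hx hs hab) (norm_nonneg _) (by positivity)
    have e2 := mul_le_mul (hX _ hs).2 (hb x _ a b hx hs' hab) (norm_nonneg _) (by positivity)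
    rw [← hP] at e1 e2
    linarith
  have h2 : ‖MM x a b‖ ≤ 2 * ((2 * Real.pi * x) ^ (3 * rho) * (C * x ^ (1 / 10000 : ℝ) * P)) := by
    unfold MM av
    rw [norm_mul]
    have h3 := intervalIntegral.norm_integral_le_of_norm_le_const (a := 0) (b := 2 * Real.pi)
      (f := fun θ : ℝ => X2 x (3 * circleMap 0 rho θ) * MI (circleMap 0 rho θ) x a b +
      X2 x (-3 * circleMap 0 rho θ) * MI (-circleMap 0 rho θ) x a b) (fun θ _ => h1 θ)
    have h4 : ‖(2 * Real.pi : ℂ)⁻¹‖ = (2 * Real.pi)⁻¹ := by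
      rw [norm_inv, norm_mul, Complex.norm_real, Real.norm_of_nonneg Real.pi_pos.le]
      norm_num
    rw [h4, inv_mul_le_iff₀ (by positivity)]
    refine h3.trans_eq ?_
    rw [sub_zero, abs_of_pos (by positivity)]
    ring
  refine h2.trans ?_
  have h5 : (2 * Real.pi * x) ^ (3 * rho) = (2 * Real.pi) ^ (3 * rho) * x ^ (3 * rho) :=
    Real.mul_rpow (by positivity) hx0.le
  have h6 : x ^ (3 * rho) * x ^ (1 / 10000 : ℝ) ≤ x ^ (1 / 9000 : ℝ) := by
    rw [← Real.rpow_add hx0]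
    apply Real.rpow_le_rpow_of_exponent_le hx
    unfold rho
    norm_num
  rw [h5]
  calc 2 * ((2 * Real.pi) ^ (3 * rho) * x ^ (3 * rho) * (C * x ^ (1 / 10000 : ℝ) * P))
      = 2 * (2 * Real.pi) ^ (3 * rho) * C * (x ^ (3 * rho) * x ^ (1 / 10000 : ℝ)) * P := by ring
    _ ≤ 2 * (2 * Real.pi) ^ (3 * rho) * C * x ^ (1 / 9000 : ℝ) * P := by gcongr

theorem mm_cont (a b : ℕ+) (hab : Nat.Coprime (a : ℕ) (b : ℕ)) : ContinuousOn (fun x : ℝ => MM x a b) (Set.Ioi 0) := by
  rw [continuousOn_iff_continuous_domRestrict]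
  have hmi := mi_cont a b hab
  have hX : ∀ k : ℂ, Continuous fun q : (Set.Ioi (0 : ℝ)) × ℝ =>
      X2 (q.1 : ℝ) (k * circleMap 0 rho q.2) := by
    intro k
    unfold X2
    refine Continuous.cpow ?_ ?_ fun q => ?_
    · have : Continuous fun q : (Set.Ioi (0 : ℝ)) × ℝ => ((q.1 : ℝ) / (2 * Real.pi)) := by fun_prop
      exact Complex.continuous_ofReal.comp this
    · exact continuous_const.mul ((continuous_circleMap 0 rho).comp continuous_snd)
    · have h0 : (0 : ℝ) < (q.1 : ℝ) := q.1.2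
      rw [Complex.ofReal_mem_slitPlane]
      positivity
  have hM : ∀ ε : ℂ, ‖ε‖ = 1 → Continuous fun q : (Set.Ioi (0 : ℝ)) × ℝ =>
      MI (ε * circleMap 0 rho q.2) (q.1 : ℝ) a b := by
    intro ε hε
    refine hmi.comp_continuous (f := fun q : (Set.Ioi (0 : ℝ)) × ℝ =>
      (ε * circleMap 0 rho q.2, (q.1 : ℝ))) ?_ fun q => ?_
    · exact (continuous_const.mul ((continuous_circleMap 0 rho).comp continuous_snd)).prodMk
        (continuous_subtype_val.comp continuous_fst)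
    · refine ⟨?_, q.1.2⟩
      rw [mem_sphere_zero_iff_norm, norm_mul, hε, one_mul, norm_circ]
  have hc : Continuous (Function.uncurry fun (x : Set.Ioi (0 : ℝ)) (θ : ℝ) =>
      X2 (x : ℝ) (3 * circleMap 0 rho θ) * MI (circleMap 0 rho θ) (x : ℝ) a b +
      X2 (x : ℝ) (-3 * circleMap 0 rho θ) * MI (-circleMap 0 rho θ) (x : ℝ) a b) := by
    have h1 := hM 1 (by simp)
    have h2 := hM (-1) (by simp)
    simp only [one_mul, neg_one_mul] at h1 h2
    exact ((hX 3).mul h1).add ((hX (-3)).mul h2)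
  have h3 := intervalIntegral.continuous_parametric_intervalIntegral_of_continuous'
    (μ := volume) hc 0 (2 * Real.pi)
  exact continuous_const.mul h3

end Pool.Agent.P07318f
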