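import Pool.Agent.Lib.P07318f.DefsC

/-!
# The six swap terms as a fourfold integral

Let `K(z) = H ![z0, z1, -z2, -z3] · X2 x ((z0+z1-z2-z3)/2) · vdm z · (z1-z0) · (z3-z2)`. Since `vdm z = (z1-z0)(z3-z2) ∏_{i∈{0,1},j∈{2,3}} (z_i - z_j)`
and `Pi4 ![z0,z1,-z2,-z3] = ∏ (z_i - z_j)`: `RR H ![z0,z1,-z2,-z3] · X2 · vdm z ^ 2 = K z` for ALL `z` (if some `z_i = z_j` both sides are `0`). `K` is continuous
and holomorphic in each variable on `|z_i| < 1/10`. One variable: for `g` holomorphic near the disc `|z| ≤ 1/16`, with `ω(z) = (z²-s²)(z²-4s²)`,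
`(1/2πi) ∮_{|z|=1/16} g(z)/ω(z) dz = ∑_{a ∈ {s,2s,-s,-2s}} g(a)/ω'(a)`, `ω'(±s) = ∓6s³`, `ω'(±2s) = ±12 s³` (partial fractions and Cauchy's integral formula
`circleIntegral_sub_inv_smul_of_differentiable_on_off_countable`; `|a| ≤ 2ρ < 1/16`). Iterate (`torusIntegral_succ`, four times, parametric circle integrals are
continuous): `(2πi)^(-4) ∯ K/∏ω(z_i) = ∑_{f : Fin 4 → {s,2s,-s,-2s}} K(f)/∏ω'(f_i)`. `K(f) = 0` unless `f` is injective (`vdm`), and for injective `f`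
`vdm(f)² = vdm(s,2s,-s,-2s)² = (s·2s·3s·3s·4s·s)² = 5184 s¹² = ∏ ω'(a)`, so the term is `RR H ![f0,f1,-f2,-f3] X2 x ((f0+f1-f2-f3)/2)`.
The 24 injective `f` are the 6 choices of the set `{f0,f1}`, each 4 times with the same value by `Sym4` : `4 · Six H x s`
(`{s,2s}`, `{-s,-2s}`, `{2s,-s}`, `{2s,-2s}`, `{s,-s}`, `{s,-2s}` in the order of the definition of `Six`).
-/

set_option autoImplicit false

namespace Pool.Agent.P07318f

open MeasureTheory Complex

namespace MultiResAux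

/-- the open polydisc -/
def Pd (n : ℕ) : Set (Fin n → ℂ) := {z | ∀ i, ‖z i‖ < 1 / 10}

/-- continuous on the polydisc and holomorphic along curves -/
structure HolP {n : ℕ} (F : (Fin n → ℂ) → ℂ) : Prop where
  cont : ContinuousOn F (Pd n)
  holo : ∀ (f : ℂ → Fin n → ℂ) (S : Set ℂ), IsOpen S →
    (∀ i, DifferentiableOn ℂ (fun z => f z i) S) → (∀ z ∈ S, f z ∈ Pd n) →
    DifferentiableOn ℂ (fun z => F (f z)) S

/-- the four poles -/
def pp (s : ℂ) : Fin 4 → ℂ := ![s, 2 * s, -s, -(2 * s)]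

/-- the residues of `1 / om` -/
noncomputable def cr (s : ℂ) : Fin 4 → ℂ :=
  ![-(6 * s ^ 3)⁻¹, (12 * s ^ 3)⁻¹, (6 * s ^ 3)⁻¹, -(12 * s ^ 3)⁻¹]

/-- the polynomial with the zeros `pp` -/
def om (s z : ℂ) : ℂ := (z ^ 2 - s ^ 2) * (z ^ 2 - 4 * s ^ 2)

variable {s : ℂ}

theorem norm_pp (hs2 : 2 * ‖s‖ < 1 / 16) (k : Fin 4) : ‖pp s k‖ < 1 / 16 := by
  have h0 := norm_nonneg s
  fin_cases k
  · simp [pp]; linarith
  · simp [pp]; linarith
  · simp [pp]; linarith
  · simp [pp]; linarith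

theorem ne_pp (hs2 : 2 * ‖s‖ < 1 / 16) {z : ℂ} (hz : ‖z‖ = 1 / 16) (k : Fin 4) :
    z - pp s k ≠ 0 := by
  intro h
  rw [sub_eq_zero] at h
  have := norm_pp hs2 k
  rw [← h, hz] at this
  exact lt_irrefl _ this

theorem om_eq (s z : ℂ) : om s z = (z - pp s 0) * (z - pp s 1) * ((z - pp s 2) * (z - pp s 3)) := by
  simp only [om, pp, Matrix.cons_val_zero, Matrix.cons_val_one, Matrix.cons_val]
  ring

theorem om_ne (hs2 : 2 * ‖s‖ < 1 / 16) {z : ℂ} (hz : ‖z‖ = 1 / 16) : om s z ≠ 0 := by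
  rw [om_eq]
  exact mul_ne_zero (mul_ne_zero (ne_pp hs2 hz 0) (ne_pp hs2 hz 1))
    (mul_ne_zero (ne_pp hs2 hz 2) (ne_pp hs2 hz 3))

theorem partial_frac (hs : s ≠ 0) (hs2 : 2 * ‖s‖ < 1 / 16) {z : ℂ} (hz : ‖z‖ = 1 / 16) :
    (om s z)⁻¹ = ∑ k, cr s k * (z - pp s k)⁻¹ := by
  have h0 : z - s ≠ 0 := by simpa [pp] using ne_pp hs2 hz 0
  have h1 : z - 2 * s ≠ 0 := by simpa [pp] using ne_pp hs2 hz 1
  have h2 : z + s ≠ 0 := by simpa [pp] using ne_pp hs2 hz 2
  have h3 : z + 2 * s ≠ 0 := by simpa [pp] using ne_pp hs2 hz 3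
  have e : om s z = (z - s) * (z + s) * ((z - 2 * s) * (z + 2 * s)) := by
    unfold om
    ring
  have hom : om s z ≠ 0 := om_ne hs2 hz
  have e0 : om s z * (z - s)⁻¹ = (z + s) * ((z - 2 * s) * (z + 2 * s)) := by
    rw [e, show (z - s) * (z + s) * ((z - 2 * s) * (z + 2 * s)) =
      (z + s) * ((z - 2 * s) * (z + 2 * s)) * (z - s) by ring, mul_assoc, mul_inv_cancel₀ h0,
      mul_one]
  have e1 : om s z * (z - 2 * s)⁻¹ = (z - s) * (z + s) * (z + 2 * s) := by
    rw [e, show (z - s) * (z + s) * ((z - 2 * s) * (z + 2 * s)) =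
      (z - s) * (z + s) * (z + 2 * s) * (z - 2 * s) by ring, mul_assoc, mul_inv_cancel₀ h1,
      mul_one]
  have e2 : om s z * (z + s)⁻¹ = (z - s) * ((z - 2 * s) * (z + 2 * s)) := by
    rw [e, show (z - s) * (z + s) * ((z - 2 * s) * (z + 2 * s)) =
      (z - s) * ((z - 2 * s) * (z + 2 * s)) * (z + s) by ring, mul_assoc, mul_inv_cancel₀ h2,
      mul_one]
  have e3 : om s z * (z + 2 * s)⁻¹ = (z - s) * (z + s) * (z - 2 * s) := by
    rw [e, show (z - s) * (z + s) * ((z - 2 * s) * (z + 2 * s)) =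
      (z - s) * (z + s) * (z - 2 * s) * (z + 2 * s) by ring, mul_assoc, mul_inv_cancel₀ h3,
      mul_one]
  refine mul_left_cancel₀ hom ?_
  rw [mul_inv_cancel₀ hom, Fin.sum_univ_four]
  simp only [cr, pp, Matrix.cons_val_zero, Matrix.cons_val_one, Matrix.cons_val,
    sub_neg_eq_add]
  have e4 : om s z * (-(6 * s ^ 3)⁻¹ * (z - s)⁻¹ + (12 * s ^ 3)⁻¹ * (z - 2 * s)⁻¹ +
      (6 * s ^ 3)⁻¹ * (z + s)⁻¹ + -(12 * s ^ 3)⁻¹ * (z + 2 * s)⁻¹) =
      (12 * s ^ 3)⁻¹ * (-2 * (om s z * (z - s)⁻¹) + om s z * (z - 2 * s)⁻¹ +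
        2 * (om s z * (z + s)⁻¹) - om s z * (z + 2 * s)⁻¹) := by
    have e5 : (6 * s ^ 3)⁻¹ = 2 * (12 * s ^ 3)⁻¹ := by
      field_simp
      norm_num
    rw [e5]
    ring
  rw [e4, e0, e1, e2, e3]
  have hs3 : (12 * s ^ 3 : ℂ) ≠ 0 := mul_ne_zero (by norm_num) (pow_ne_zero _ hs)
  refine mul_left_cancel₀ hs3 ?_
  rw [← mul_assoc, mul_inv_cancel₀ hs3]
  ring

theorem one_var (hs : s ≠ 0) (hs2 : 2 * ‖s‖ < 1 / 16) {g : ℂ → ℂ}
    (hg : DifferentiableOn ℂ g (Metric.ball 0 (1 / 10))) :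
    (∮ z in C(0, 1 / 16), g z / om s z) =
      2 * Real.pi * I * ∑ k, cr s k * g (pp s k) := by
  have hsub : Metric.closedBall (0 : ℂ) (1 / 16) ⊆ Metric.ball 0 (1 / 10) :=
    Metric.closedBall_subset_ball (by norm_num)
  have hdc : DiffContOnCl ℂ g (Metric.ball 0 (1 / 16)) := by
    refine DifferentiableOn.diffContOnCl (hg.mono ?_)
    rw [closure_ball _ (by norm_num)]
    exact hsub
  have hgc : ContinuousOn g (Metric.sphere 0 (1 / 16)) :=
    (hg.continuousOn).mono (Metric.sphere_subset_closedBall.trans hsub)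
  have hz : ∀ z ∈ Metric.sphere (0 : ℂ) (1 / 16), ‖z‖ = 1 / 16 := fun z hz => by
    simpa using hz
  have h1 : (∮ z in C(0, 1 / 16), g z / om s z) =
      ∮ z in C(0, 1 / 16), ∑ k, cr s k * ((z - pp s k)⁻¹ • g z) := by
    refine circleIntegral.integral_congr (by norm_num) fun z hzs => ?_
    rw [div_eq_mul_inv, partial_frac hs hs2 (hz z hzs), Finset.mul_sum]
    refine Finset.sum_congr rfl fun k _ => ?_
    rw [smul_eq_mul]
    ring
  have hi : ∀ k ∈ (Finset.univ : Finset (Fin 4)), CircleIntegrable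
      (fun z => cr s k * ((z - pp s k)⁻¹ • g z)) 0 (1 / 16) := by
    intro k _
    refine ContinuousOn.circleIntegrable (by norm_num) ?_
    simp only [smul_eq_mul]
    refine ContinuousOn.mul continuousOn_const (ContinuousOn.mul ?_ hgc)
    refine ContinuousOn.inv₀ (by fun_prop) fun z hzs => ne_pp hs2 (hz z hzs) k
  rw [h1, circleIntegral.integral_fun_sum hi, Finset.mul_sum]
  refine Finset.sum_congr rfl fun k _ => ?_
  rw [circleIntegral.integral_const_mul, hdc.circleIntegral_sub_inv_smul (by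
    rw [mem_ball_zero_iff]
    exact norm_pp hs2 k), smul_eq_mul]
  ring

theorem norm_torus {n : ℕ} (θ : Fin n → ℝ) (i : Fin n) :
    ‖torusMap (0 : Fin n → ℂ) (fun _ => (1 / 16 : ℝ)) θ i‖ = 1 / 16 := by
  simp only [torusMap, Pi.zero_apply, zero_add]
  rw [norm_mul, Complex.norm_exp_ofReal_mul_I, mul_one, Complex.norm_real]
  norm_num

theorem torusInt {n : ℕ} (hs2 : 2 * ‖s‖ < 1 / 16) {F : (Fin n → ℂ) → ℂ} (hF : HolP F) :
    TorusIntegrable (fun z => F z / ∏ i, om s (z i)) (0 : Fin n → ℂ)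
      (fun _ => (1 / 16 : ℝ)) := by
  unfold TorusIntegrable
  refine ContinuousOn.integrableOn_compact isCompact_Icc ?_
  have hc : Continuous (torusMap (0 : Fin n → ℂ) (fun _ => (1 / 16 : ℝ))) := by
    unfold torusMap
    fun_prop
  refine ContinuousOn.div ?_ ?_ ?_
  · refine hF.cont.comp hc.continuousOn fun θ _ i => ?_
    rw [norm_torus]
    norm_num
  · refine Continuous.continuousOn ?_
    refine continuous_finsetProd _ fun i _ => ?_
    unfold om
    have := (continuous_apply i).comp hc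
    simp only [Function.comp_def] at this
    fun_prop
  · intro θ _
    exact Finset.prod_ne_zero_iff.2 fun i _ => om_ne hs2 (norm_torus θ i)

theorem HolP.cons {n : ℕ} {F : (Fin (n + 1) → ℂ) → ℂ} (hF : HolP F) {x : ℂ}
    (hx : ‖x‖ < 1 / 10) : HolP fun y : Fin n → ℂ => F (Fin.cons x y : Fin (n + 1) → ℂ) := by
  have hmem : ∀ y ∈ Pd n, (Fin.cons x y : Fin (n + 1) → ℂ) ∈ Pd (n + 1) := by
    intro y hy i
    refine Fin.cases ?_ (fun j => ?_) i
    · rw [Fin.cons_zero]; exact hx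
    · rw [Fin.cons_succ]; exact hy j
  constructor
  · refine hF.cont.comp ?_ hmem
    refine Continuous.continuousOn ?_
    refine continuous_pi fun i => ?_
    refine Fin.cases ?_ (fun j => ?_) i
    · simp only [Fin.cons_zero]; exact continuous_const
    · simp only [Fin.cons_succ]; exact continuous_apply j
  · intro f S hS hf hm
    refine hF.holo (fun z => (Fin.cons x (f z) : Fin (n + 1) → ℂ)) S hS ?_ ?_
    · intro i
      refine Fin.cases ?_ (fun j => ?_) i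
      · simp only [Fin.cons_zero]; exact differentiableOn_const _
      · simp only [Fin.cons_succ]; exact hf j
    · exact fun z hz => hmem _ (hm z hz)

theorem multi (hs : s ≠ 0) (hs2 : 2 * ‖s‖ < 1 / 16) : ∀ (n : ℕ) (F : (Fin n → ℂ) → ℂ),
    HolP F → (∯ z in T((0 : Fin n → ℂ), fun _ => (1 / 16 : ℝ)), F z / ∏ i, om s (z i)) =
      (2 * Real.pi * I) ^ n * ∑ f : Fin n → Fin 4, (∏ i, cr s (f i)) *
        F (fun i => pp s (f i)) := by
  intro n
  induction n with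
  | zero =>
    intro F _
    rw [torusIntegral_dim0]
    simp only [Finset.univ_eq_empty, Finset.prod_empty, div_one, pow_zero, one_mul,
      Finset.univ_unique, Finset.sum_singleton]
    congr 1
    exact Subsingleton.elim _ _
  | succ n ih =>
    intro F hF
    rw [torusIntegral_succ (torusInt hs2 hF)]
    have h1 : (∮ x in C((0 : Fin (n + 1) → ℂ) 0, (1 / 16 : ℝ)),
        ∯ y in T((0 : Fin (n + 1) → ℂ) ∘ Fin.succ, (fun _ : Fin (n + 1) => (1 / 16 : ℝ)) ∘ Fin.succ),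
          F (Fin.cons x y) / ∏ i, om s ((Fin.cons x y : Fin (n + 1) → ℂ) i)) =
        ∮ x in C(0, 1 / 16), ((2 * Real.pi * I) ^ n * ∑ f : Fin n → Fin 4,
          (∏ i, cr s (f i)) * F (Fin.cons x fun i => pp s (f i))) / om s x := by
      refine circleIntegral.integral_congr (by norm_num) fun x hx => ?_
      have hx' : ‖x‖ = 1 / 16 := by simpa using hx
      have h2 := ih _ (hF.cons (x := x) (by rw [hx']; norm_num))
      rw [← h2]
      refine Eq.trans ?_ (div_eq_inv_mul _ _).symm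
      rw [← torusIntegral_const_mul]
      have h3 : (0 : Fin (n + 1) → ℂ) ∘ Fin.succ = 0 := rfl
      have h4 : (fun _ : Fin (n + 1) => (1 / 16 : ℝ)) ∘ Fin.succ = fun _ => (1 / 16 : ℝ) := rfl
      rw [h3, h4]
      congr 1
      funext y
      rw [Fin.prod_univ_succ]
      simp only [Fin.cons_zero, Fin.cons_succ]
      rw [div_eq_mul_inv, div_eq_mul_inv, mul_inv]
      ring
    have hG : DifferentiableOn ℂ (fun x => (2 * Real.pi * I) ^ n * ∑ f : Fin n → Fin 4,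
          (∏ i, cr s (f i)) * F (Fin.cons x fun i => pp s (f i))) (Metric.ball 0 (1 / 10)) := by
      refine DifferentiableOn.const_mul (DifferentiableOn.fun_sum fun f _ =>
        DifferentiableOn.const_mul ?_ _) _
      refine hF.holo (fun x => (Fin.cons x fun i => pp s (f i) : Fin (n + 1) → ℂ)) _
        Metric.isOpen_ball ?_ ?_
      · intro i
        refine Fin.cases ?_ (fun j => ?_) i
        · simp only [Fin.cons_zero]; exact differentiableOn_id
        · simp only [Fin.cons_succ]; exact differentiableOn_const _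
      · intro x hx i
        refine Fin.cases ?_ (fun j => ?_) i
        · rw [Fin.cons_zero]; simpa using hx
        · rw [Fin.cons_succ]
          exact (norm_pp hs2 _).trans (by norm_num)
    refine h1.trans ((one_var hs hs2 hG).trans ?_)
    rw [pow_succ', mul_assoc (2 * (Real.pi : ℂ) * I) ((2 * (Real.pi : ℂ) * I) ^ n)]
    congr 1
    rw [← (Fin.consEquiv fun _ : Fin (n + 1) => Fin 4).sum_comp, Fintype.sum_prod_type,
      Finset.mul_sum]
    refine Finset.sum_congr rfl fun k _ => ?_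
    rw [Finset.mul_sum, Finset.mul_sum, Finset.mul_sum]
    refine Finset.sum_congr rfl fun f _ => ?_
    rw [Fin.prod_univ_succ]
    simp only [Fin.consEquiv_apply, Fin.cons_zero, Fin.cons_succ]
    have h5 : (Fin.cons (pp s k) fun i => pp s (f i) : Fin (n + 1) → ℂ) =
        fun i => pp s ((Fin.cons k f : Fin (n + 1) → Fin 4) i) := by
      funext i
      refine Fin.cases ?_ (fun j => ?_) i
      · rfl
      · rfl
    rw [h5]
    ring

/-- the function with the poles of `RR` removed -/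
noncomputable def KK4 (x : ℝ) (H : (Fin 4 → ℂ) → ℂ) (z : Fin 4 → ℂ) : ℂ :=
  H ![z 0, z 1, -z 2, -z 3] * X2 x ((z 0 + z 1 - z 2 - z 3) / 2) *
    (vdm z * ((z 1 - z 0) * (z 3 - z 2)))

theorem Pi4_eq (a b c d : ℂ) : Pi4 ![a, b, c, d] = (a + c) * (a + d) * ((b + c) * (b + d)) := by
  simp [Pi4]

theorem KK4_eq (x : ℝ) (H : (Fin 4 → ℂ) → ℂ) (z : Fin 4 → ℂ) :
    RR H ![z 0, z 1, -z 2, -z 3] * X2 x ((z 0 + z 1 - z 2 - z 3) / 2) * vdm z ^ 2 =
      KK4 x H z := by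
  unfold RR KK4
  have hv : vdm z = (z 1 - z 0) * (z 3 - z 2) * Pi4 ![z 0, z 1, -z 2, -z 3] := by
    rw [Pi4_eq]
    unfold vdm
    ring
  by_cases hP : Pi4 ![z 0, z 1, -z 2, -z 3] = 0
  · have hv0 : vdm z = 0 := by rw [hv, hP, mul_zero]
    rw [hv0]
    simp
  · have h2 : vdm z ^ 2 = vdm z * ((z 1 - z 0) * (z 3 - z 2)) *
        Pi4 ![z 0, z 1, -z 2, -z 3] := by
      rw [pow_two]
      nth_rewrite 2 [hv]
      ring
    rw [h2]
    field_simp

theorem X2_diff {x : ℝ} (hx : 0 < x) : Differentiable ℂ fun w => X2 x w := by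
  unfold X2
  have hb : ((x / (2 * Real.pi) : ℝ) : ℂ) ≠ 0 := by
    rw [Complex.ofReal_ne_zero]
    positivity
  intro w
  exact DifferentiableAt.const_cpow differentiableAt_id (Or.inl hb)

theorem holP_KK4 {x L B : ℝ} {H : (Fin 4 → ℂ) → ℂ} (hx : 0 < x) (hL : 1 / 2 ≤ L)
    (hH : Hol4 L B H) : HolP (KK4 x H) := by
  have hmem : ∀ z ∈ Pd 4, ![z 0, z 1, -z 2, -z 3] ∈ Bx L := by
    intro z hz i
    have hb : ∀ w : ℂ, ‖w‖ < 1 / 10 → |w.re| < 1 / 10 ∧ |w.im| < L := fun w hw =>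
      ⟨(Complex.abs_re_le_norm w).trans_lt hw, (Complex.abs_im_le_norm w).trans_lt
        (hw.trans (by linarith))⟩
    fin_cases i
    · exact hb _ (hz 0)
    · exact hb _ (hz 1)
    · exact hb (-z 2) (by rw [norm_neg]; exact hz 2)
    · exact hb (-z 3) (by rw [norm_neg]; exact hz 3)
  constructor
  · unfold KK4
    refine ContinuousOn.mul (ContinuousOn.mul ?_ ?_) ?_
    · refine hH.cont.comp ?_ hmem
      refine Continuous.continuousOn ?_
      refine continuous_pi fun i => ?_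
      fin_cases i
      · exact continuous_apply 0
      · exact continuous_apply 1
      · exact (continuous_apply 2).neg
      · exact (continuous_apply 3).neg
    · have h := (X2_diff hx).continuous
      have h2 : Continuous fun z : Fin 4 → ℂ => (z 0 + z 1 - z 2 - z 3) / 2 := by fun_prop
      exact (h.comp h2).continuousOn
    · unfold vdm
      fun_prop
  · intro f S hS hf hm
    unfold KK4
    have f0 := hf 0
    have f1 := hf 1
    have f2 := hf 2
    have f3 := hf 3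
    refine DifferentiableOn.mul (DifferentiableOn.mul ?_ ?_) ?_
    · refine hH.holo (fun z => ![f z 0, f z 1, -f z 2, -f z 3]) S hS ?_
        (fun z hz => hmem _ (hm z hz))
      intro i
      fin_cases i
      · exact f0
      · exact f1
      · exact f2.neg
      · exact f3.neg
    · have h2 : DifferentiableOn ℂ (fun z => (f z 0 + f z 1 - f z 2 - f z 3) / 2) S :=
        ((((f0.add f1).sub f2).sub f3).div_const 2)
      exact (X2_diff hx).comp_differentiableOn h2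
    · unfold vdm
      fun_prop

/-- the integer positions of the poles -/
def ee (i : Fin 4) : ℤ := ![1, 2, -1, -2] i

/-- the integer values of the derivative -/
def dd (i : Fin 4) : ℤ := ![-6, 12, 6, -12] i

theorem pp_eq (s : ℂ) (i : Fin 4) : pp s i = s * (ee i : ℂ) := by
  fin_cases i <;> simp [pp, ee] <;> ring

theorem cr_eq (s : ℂ) (i : Fin 4) : cr s i = (s ^ 3 * (dd i : ℂ))⁻¹ := by
  fin_cases i
  · simp [cr, dd]; ring
  · simp [cr, dd]; ring
  · simp [cr, dd]; ring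
  · simp [cr, dd]; ring

/-- the indices are different -/
def inj4 (i j k l : Fin 4) : Bool :=
  decide (i ≠ j ∧ i ≠ k ∧ i ≠ l ∧ j ≠ k ∧ j ≠ l ∧ k ≠ l)

theorem key_int : ∀ i j k l : Fin 4,
    ((ee j - ee i) * (ee k - ee i) * (ee l - ee i) * ((ee k - ee j) * (ee l - ee j) *
      (ee l - ee k))) ^ 2 = if inj4 i j k l then dd i * dd j * dd k * dd l else 0 := by
  decide

theorem dd_ne : ∀ i : Fin 4, dd i ≠ 0 := by decide

/-- the value of the integrand at a point of the grid -/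
noncomputable def gg (x : ℝ) (H : (Fin 4 → ℂ) → ℂ) (s : ℂ) (i j k l : Fin 4) : ℂ :=
  RR H ![pp s i, pp s j, -pp s k, -pp s l] * X2 x ((pp s i + pp s j - pp s k - pp s l) / 2)

theorem term_eq (hs : s ≠ 0) (x : ℝ) (H : (Fin 4 → ℂ) → ℂ) (f : Fin 4 → Fin 4) :
    (∏ i, cr s (f i)) * KK4 x H (fun i => pp s (f i)) =
      if inj4 (f 0) (f 1) (f 2) (f 3) then gg x H s (f 0) (f 1) (f 2) (f 3) else 0 := by
  rw [← KK4_eq]
  have hv : vdm (fun i => pp s (f i)) ^ 2 = s ^ 12 *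
      (((((ee (f 1) - ee (f 0)) * (ee (f 2) - ee (f 0)) * (ee (f 3) - ee (f 0)) *
        ((ee (f 2) - ee (f 1)) * (ee (f 3) - ee (f 1)) *
      (ee (f 3) - ee (f 2)))) ^ 2 : ℤ)) : ℂ) := by
    unfold vdm
    simp only [pp_eq]
    push_cast
    ring
  rw [hv, key_int, Fin.prod_univ_four]
  simp only [cr_eq]
  have d0 : (dd (f 0) : ℂ) ≠ 0 := by exact_mod_cast dd_ne _
  have d1 : (dd (f 1) : ℂ) ≠ 0 := by exact_mod_cast dd_ne _
  have d2 : (dd (f 2) : ℂ) ≠ 0 := by exact_mod_cast dd_ne _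
  have d3 : (dd (f 3) : ℂ) ≠ 0 := by exact_mod_cast dd_ne _
  split_ifs with h
  · unfold gg
    push_cast
    field_simp
  · simp

theorem sum_four {T : Fin 4 → Fin 4 → Fin 4 → Fin 4 → ℂ} :
    ∑ f : Fin 4 → Fin 4, T (f 0) (f 1) (f 2) (f 3) = ∑ i, ∑ j, ∑ k, ∑ l, T i j k l := by
  let e : (Fin 4 → Fin 4) ≃ Fin 4 × Fin 4 × Fin 4 × Fin 4 :=
    { toFun := fun f => (f 0, f 1, f 2, f 3)
      invFun := fun p => ![p.1, p.2.1, p.2.2.1, p.2.2.2]
      left_inv := fun f => by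
        funext i
        fin_cases i <;> rfl
      right_inv := fun p => rfl }
  have h := e.sum_comp (fun p => T p.1 p.2.1 p.2.2.1 p.2.2.2)
  refine Eq.trans ?_ (h.trans ?_)
  · rfl
  · simp only [Fintype.sum_prod_type]

theorem gg_sym {x : ℝ} {H : (Fin 4 → ℂ) → ℂ} (hS : Sym4 H) (s : ℂ) (i j k l : Fin 4) :
    gg x H s i j k l = gg x H s j i k l ∧ gg x H s i j k l = gg x H s i j l k := by
  unfold gg RR
  constructor
  · rw [(hS (pp s i) (pp s j) (-pp s k) (-pp s l)).1, Pi4_eq, Pi4_eq]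
    congr 2
    · ring
    · ring
  · rw [(hS (pp s i) (pp s j) (-pp s k) (-pp s l)).2, Pi4_eq, Pi4_eq]
    congr 2
    · ring
    · ring

theorem sum24 {g : Fin 4 → Fin 4 → Fin 4 → Fin 4 → ℂ}
    (h1 : ∀ i j k l, g i j k l = g j i k l) (h2 : ∀ i j k l, g i j k l = g i j l k) :
    (∑ i, ∑ j, ∑ k, ∑ l, if inj4 i j k l then g i j k l else 0) =
      4 * (g 0 1 2 3 + g 2 3 0 1 + (g 1 2 3 0 + g 1 3 2 0 + (g 0 2 3 1 + g 0 3 2 1))) := by
  simp only [Fin.sum_univ_four]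
  have hd : ∀ i j k l, inj4 i j k l = decide (i ≠ j ∧ i ≠ k ∧ i ≠ l ∧ j ≠ k ∧ j ≠ l ∧ k ≠ l) :=
    fun _ _ _ _ => rfl
  simp [hd]
  rw [h1 1 0 2 3, h1 1 0 3 2, h2 0 1 3 2, h2 2 3 1 0, h1 3 2 0 1, h1 3 2 1 0, h2 2 3 1 0,
    h1 2 1 3 0, h1 2 1 0 3, h2 1 2 0 3, h1 3 1 2 0, h1 3 1 0 2, h2 1 3 0 2,
    h1 2 0 3 1, h1 2 0 1 3, h2 0 2 1 3, h1 3 0 2 1, h1 3 0 1 2, h2 0 3 1 2]
  ring

theorem six_eq (x : ℝ) (H : (Fin 4 → ℂ) → ℂ) (s : ℂ) :
    Six H x s = gg x H s 0 1 2 3 + gg x H s 2 3 0 1 +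
      (gg x H s 1 2 3 0 + gg x H s 1 3 2 0 + (gg x H s 0 2 3 1 + gg x H s 0 3 2 1)) := by
  unfold Six gg
  simp only [pp, Matrix.cons_val_zero, Matrix.cons_val_one, Matrix.cons_val, neg_neg]
  have X0 : X2 x 0 = 1 := by
    unfold X2
    exact Complex.cpow_zero _
  have a1 : (s + 2 * s - -s - -(2 * s)) / 2 = 3 * s := by ring
  have a2 : (-s + -(2 * s) - s - 2 * s) / 2 = -3 * s := by ring
  have a3 : (2 * s + -s - -(2 * s) - s) / 2 = s := by ring
  have a4 : (2 * s + -(2 * s) - -s - s) / 2 = 0 := by ring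
  have a5 : (s + -s - -(2 * s) - 2 * s) / 2 = 0 := by ring
  have a6 : (s + -(2 * s) - -s - 2 * s) / 2 = -s := by ring
  rw [a1, a2, a3, a4, a5, a6, X0]
  ring

end MultiResAux

open MultiResAux

theorem multi_res (x L B : ℝ) (H : (Fin 4 → ℂ) → ℂ) (hx : 0 < x) (hL : 1 / 2 ≤ L) (hH : Hol4 L B H) (hS : Sym4 H) (s : ℂ)
    (hs : ‖s‖ = rho) :
    Six H x s = (4 * (2 * Real.pi * I) ^ 4)⁻¹ * ∯ z in T((0 : Fin 4 → ℂ), fun _ => 1 / 16),
      RR H ![z 0, z 1, -z 2, -z 3] * X2 x ((z 0 + z 1 - z 2 - z 3) / 2) * vdm z ^ 2 /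
        ∏ i, ((z i ^ 2 - s ^ 2) * (z i ^ 2 - 4 * s ^ 2)) := by
  have hs0 : s ≠ 0 := by
    intro h
    rw [h, norm_zero] at hs
    unfold rho at hs
    norm_num at hs
  have hs2 : 2 * ‖s‖ < 1 / 16 := by
    rw [hs]
    unfold rho
    norm_num
  have h1 := multi hs0 hs2 4 _ (holP_KK4 hx hL hH)
  have h2 : (∯ z in T((0 : Fin 4 → ℂ), fun _ => 1 / 16),
      RR H ![z 0, z 1, -z 2, -z 3] * X2 x ((z 0 + z 1 - z 2 - z 3) / 2) * vdm z ^ 2 /
        ∏ i, ((z i ^ 2 - s ^ 2) * (z i ^ 2 - 4 * s ^ 2))) =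
      ∯ z in T((0 : Fin 4 → ℂ), fun _ => (1 / 16 : ℝ)), KK4 x H z / ∏ i, om s (z i) := by
    congr 1
    funext z
    rw [KK4_eq]
    rfl
  have h3 : ∑ f : Fin 4 → Fin 4, (∏ i, cr s (f i)) * KK4 x H (fun i => pp s (f i)) =
      4 * Six H x s := by
    rw [Finset.sum_congr rfl fun f _ => term_eq hs0 x H f,
      sum_four (T := fun i j k l => if inj4 i j k l then gg x H s i j k l else 0),
      sum24 (fun i j k l => (gg_sym hS s i j k l).1) (fun i j k l => (gg_sym hS s i j k l).2),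
      six_eq]
  rw [h2, h1, h3]
  have hpi : (2 * (Real.pi : ℂ) * I) ^ 4 ≠ 0 := by
    refine pow_ne_zero _ (mul_ne_zero (mul_ne_zero two_ne_zero ?_) I_ne_zero)
    rw [Complex.ofReal_ne_zero]
    exact Real.pi_ne_zero
  field_simp

end Pool.Agent.P07318f
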