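import Pool.Agent.Lib.P07318f.Defs
import Pool.Agent.Lib.P5632c9.DivBound

/-!
# Linearisation of the off-diagonal terms

Notation: `q = ((m₁,m₂),(n₁,n₂))`, `A = a m₁ m₂`, `B = b n₁ n₂ ≠ A`, `l = A - B`, `η = l/A`. Off-diagonal quadruples correspond bijectively to
`(n₁, l, m₁, m₂)` with `l ≠ 0`, `b n₁ | A - l`, `A - l > 0`. Compare `T4 q` with `Wf n₁ l m₁ m₂`: in `Wf` the variable `n₂` is replaced by
`n₂' = A/(b n₁)`, `n₂ = n₂'(1-η)`, and `log(A/B) = -log(1-η)` by `η`.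
Bounds: `‖m₁^(-e₀)...‖ ≤ (m₁m₂)^(-5/2+δ)(n₁ n₂)^(-5/2+δ)`.
(i) `|η| ≤ 1/2`: `|(1-η)^(-e₃) - 1| ≤ C‖e₃‖|η|` (`‖e₃‖ |η|` may be large: then use the trivial bound, `(1-η)^(-e₃)` is bounded as `Re e₃ ≤ 3`),
`φ₂` changes by `≤ 2|η|`, `K(-log(1-η)) - K(η)`: the points differ by `≤ η²`, and `|K'| ≤ U(1+Δ|η|/2)^(-8)` on the segment
(`|−log(1−η)| ≥ |η|/2`...), so the change is `≤ C U η² (1+Δ|η|)^(-8)`. So `|T4 - Wf| ≤ C (1+‖e₃‖)(m₁m₂n₁n₂)^(-5/2+δ) (|η| + Uη²)(1+Δ|η|)^(-8)`.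
Sum: `m₁m₂n₁n₂ = AB/(ab)`, the number of `q` with given `A, B` is at most `d(A) d(B) ≤ C (AB)^δ'`, `B ≍ A`:
`≤ C (ab)^3 ∑_A A^(-5+4δ') ∑_{l≠0} (|l|/A + U l²/A²)(1+Δ|l|/A)^(-8)`, and `∑_l |l| (1+Δ|l|/A)^(-8) ≤ C min((A/Δ)^(2+δ'), (A/Δ)^8)`,
`∑_l l² (..) ≤ C min((A/Δ)^(3+δ'), (A/Δ)^8)` (`(1+t)^(-8) ≤ t^(-κ)`). So the sum is `≤ C(ab)^3 (Δ^(-5+6δ') + U Δ^(-6+6δ')) ≤ C U^(-4.9)`.
(ii) `|η| > 1/2`, `B > 0`: `|log(A/B)| ≥ 1/3`, `|T4| ≤ C (..)^(-5/2+δ) Δ^(-8)`, the sum over all `q` converges absolutely; `|Wf| ≤ C m₁^(..)…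
(A/(b n₁))^(-r₃) min(1,(bn₁²/A)^(-10)) (Δ|η|)^(-8)`, summed over `n₂ ≥ 1` with `|A - b n₁ n₂| > A/2` (`∑_l |η|^(-8) ≤ C (1+A)`) and `m₁, m₂, n₁`:
`≤ C (ab)^C Δ^(-8)`. (iii) `l ≥ A` (`η ≥ 1`): only `Wf`, same bound. Total `≤ C(1+‖e₃‖) U^(-4-1/2)`. The summability statements follow from the same bounds.
-/

set_option autoImplicit false

namespace Pool.Agent.P07318f

open MeasureTheory Complex

namespace NearAux

theorem pow_ge {t x : ℝ} (ht : 0 ≤ t) (hx : 0 ≤ x) (hx8 : x ≤ 8) : t ^ x ≤ (1 + t) ^ 8 := by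
  rcases le_or_gt 1 t with h | h
  · calc t ^ x ≤ t ^ ((8 : ℕ) : ℝ) :=
          Real.rpow_le_rpow_of_exponent_le h (by push_cast; exact hx8)
      _ = t ^ 8 := Real.rpow_natCast _ _
      _ ≤ (1 + t) ^ 8 := pow_le_pow_left₀ ht (by linarith) 8
  · calc t ^ x ≤ 1 := Real.rpow_le_one ht h.le hx
      _ ≤ (1 + t) ^ 8 := one_le_pow₀ (by linarith)

theorem inv_le_rpow {t x : ℝ} (ht : 0 < t) (hx : 0 ≤ x) (hx8 : x ≤ 8) :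
    ((1 + t) ^ 8)⁻¹ ≤ t ^ (-x) := by
  rw [Real.rpow_neg ht.le]
  exact inv_anti₀ (Real.rpow_pos_of_pos ht x) (pow_ge ht.le hx hx8)

theorem pn_one (m : ℕ+) : (1 : ℝ) ≤ ((m : ℕ) : ℝ) := by exact_mod_cast m.one_le

theorem pn_pos (m : ℕ+) : (0 : ℝ) < ((m : ℕ) : ℝ) := by exact_mod_cast m.pos

theorem pn_mono (m : ℕ+) {x y : ℝ} (h : x ≤ y) : ((m : ℕ) : ℝ) ^ x ≤ ((m : ℕ) : ℝ) ^ y :=
  Real.rpow_le_rpow_of_exponent_le (pn_one m) h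

theorem phi_le_one {φ : ℝ → ℂ} (h : PhiB φ) (L : ℝ) : ‖φ L‖ ≤ 1 :=
  (h.2 L).1.trans (min_le_left _ _)

theorem phi_le_exp {φ : ℝ → ℂ} (h : PhiB φ) (L : ℝ) : ‖φ L‖ ≤ Real.exp (-(10 * L)) :=
  (h.2 L).1.trans (min_le_right _ _)

theorem dphi_le_one {φ : ℝ → ℂ} (h : PhiB φ) (L : ℝ) : ‖deriv φ L‖ ≤ 1 :=
  (h.2 L).2.1.trans (min_le_left _ _)

theorem norm_pn (m : ℕ+) (z : ℂ) : ‖((m : ℕ) : ℂ) ^ (-z)‖ = ((m : ℕ) : ℝ) ^ (-z.re) := by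
  rw [Complex.norm_natCast_cpow_of_pos m.pos, Complex.neg_re]

theorem norm_T4_le {U Δ : ℝ} {e : Fin 4 → ℂ} {φ₁ φ₂ K : ℝ → ℂ} (a b : ℕ+) (h1 : PhiB φ₁)
    (h2 : PhiB φ₂) (hK : KerB U Δ K) (q : (ℕ+ × ℕ+) × (ℕ+ × ℕ+)) :
    ‖T4 e φ₁ φ₂ K a b q‖ ≤ ((q.1.1 : ℕ) : ℝ) ^ (-(e 0).re) * ((q.1.2 : ℕ) : ℝ) ^ (-(e 1).re) *
      (((q.2.1 : ℕ) : ℝ) ^ (-(e 2).re) * ((q.2.2 : ℕ) : ℝ) ^ (-(e 3).re)) *
      ((1 + Δ * |Real.log (a * q.1.1 * q.1.2 : ℕ) - Real.log (b * q.2.1 * q.2.2 : ℕ)|) ^ 8)⁻¹ := by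
  unfold T4
  rw [norm_mul, norm_mul, norm_mul, norm_mul, norm_mul, norm_mul, norm_pn, norm_pn, norm_pn,
    norm_pn]
  have h3 := (hK.2 (Real.log (a * q.1.1 * q.1.2 : ℕ) - Real.log (b * q.2.1 * q.2.2 : ℕ))).1
  have h4 : ‖φ₁ (Real.log (q.1.1 : ℕ) - Real.log (q.1.2 : ℕ))‖ *
      ‖φ₂ (Real.log (q.2.1 : ℕ) - Real.log (q.2.2 : ℕ))‖ ≤ 1 :=
    mul_le_one₀ (phi_le_one h1 _) (norm_nonneg _) (phi_le_one h2 _)
  refine mul_le_mul ?_ h3 (norm_nonneg _) (by positivity)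
  exact mul_le_of_le_one_right (by positivity) h4

theorem xr_le {x r : ℝ} {n : ℕ+} (hx : 0 < x) (hr : 0 ≤ r) (hr' : r ≤ 10) {φ : ℝ → ℂ}
    (h : PhiB φ) : x ^ (-r) * ‖φ (Real.log (n : ℕ) - Real.log x)‖ ≤ 1 := by
  rcases le_or_gt 1 x with h1 | h1
  · exact mul_le_one₀ (Real.rpow_le_one_of_one_le_of_nonpos h1 (by linarith)) (norm_nonneg _)
      (phi_le_one h _)
  · have h2 : ‖φ (Real.log (n : ℕ) - Real.log x)‖ ≤ x ^ (10 : ℝ) := by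
      refine (phi_le_exp h _).trans ?_
      rw [Real.rpow_def_of_pos hx]
      refine Real.exp_le_exp.2 ?_
      have := Real.log_nonneg (pn_one n)
      linarith
    calc x ^ (-r) * ‖φ (Real.log (n : ℕ) - Real.log x)‖ ≤ x ^ (-r) * x ^ (10 : ℝ) :=
          mul_le_mul_of_nonneg_left h2 (by positivity)
      _ = x ^ (-r + 10) := (Real.rpow_add hx _ _).symm
      _ ≤ 1 := Real.rpow_le_one hx.le h1.le (by linarith)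

theorem norm_Wf_le {U Δ : ℝ} {e : Fin 4 → ℂ} {φ₁ φ₂ K : ℝ → ℂ} (a b n : ℕ+) (l : ℤ)
    (h1 : PhiB φ₁) (h2 : PhiB φ₂) (hK : KerB U Δ K) (hr : 0 ≤ (e 3).re) (hr' : (e 3).re ≤ 10)
    (m₁ m₂ : ℕ+) :
    ‖Wf e φ₁ φ₂ K a b n l (m₁ : ℕ) (m₂ : ℕ)‖ ≤ ((m₁ : ℕ) : ℝ) ^ (-(e 0).re) *
      ((m₂ : ℕ) : ℝ) ^ (-(e 1).re) * ((n : ℕ) : ℝ) ^ (-(e 2).re) *
      ((1 + Δ * (|(l : ℝ)| / ((a : ℕ) * (m₁ : ℕ) * (m₂ : ℕ)))) ^ 8)⁻¹ := by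
  unfold Wf
  have hA : (0 : ℝ) < (a : ℕ) * (m₁ : ℕ) * (m₂ : ℕ) := by
    have := pn_pos a; have := pn_pos m₁; have := pn_pos m₂; positivity
  have hx : (0 : ℝ) < (a : ℕ) * (m₁ : ℕ) * (m₂ : ℕ) / ((b : ℕ) * (n : ℕ)) := by
    have := pn_pos b; have := pn_pos n; positivity
  have e1 : ‖(((m₁ : ℕ) : ℝ) : ℂ) ^ (-(e 0))‖ = ((m₁ : ℕ) : ℝ) ^ (-(e 0).re) := by
    rw [Complex.norm_cpow_eq_rpow_re_of_pos (pn_pos m₁), Complex.neg_re]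
  have e2 : ‖(((m₂ : ℕ) : ℝ) : ℂ) ^ (-(e 1))‖ = ((m₂ : ℕ) : ℝ) ^ (-(e 1).re) := by
    rw [Complex.norm_cpow_eq_rpow_re_of_pos (pn_pos m₂), Complex.neg_re]
  rw [norm_mul, norm_mul, norm_mul, norm_mul, norm_mul, norm_mul, e1, e2, norm_pn,
    Complex.norm_cpow_eq_rpow_re_of_pos hx, Complex.neg_re]
  have h3 := (hK.2 ((l : ℝ) / ((a : ℕ) * (m₁ : ℕ) * (m₂ : ℕ)))).1
  rw [abs_div, abs_of_pos hA] at h3
  have h4 := xr_le (n := n) hx hr hr' h2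
  have h5 := phi_le_one h1 (Real.log (m₁ : ℕ) - Real.log (m₂ : ℕ))
  refine mul_le_mul ?_ h3 (norm_nonneg _) (by positivity)
  set x := ((a : ℕ) * (m₁ : ℕ) * (m₂ : ℕ) / ((b : ℕ) * (n : ℕ)) : ℝ)
  set p1 := ‖φ₁ (Real.log (m₁ : ℕ) - Real.log (m₂ : ℕ))‖
  set p2 := ‖φ₂ (Real.log (n : ℕ) - Real.log x)‖
  calc ((m₁ : ℕ) : ℝ) ^ (-(e 0).re) * ((m₂ : ℕ) : ℝ) ^ (-(e 1).re) *
        (((n : ℕ) : ℝ) ^ (-(e 2).re) * x ^ (-(e 3).re)) * (p1 * p2)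
      = (((m₁ : ℕ) : ℝ) ^ (-(e 0).re) * ((m₂ : ℕ) : ℝ) ^ (-(e 1).re) *
        ((n : ℕ) : ℝ) ^ (-(e 2).re)) * (p1 * (x ^ (-(e 3).re) * p2)) := by ring
    _ ≤ (((m₁ : ℕ) : ℝ) ^ (-(e 0).re) * ((m₂ : ℕ) : ℝ) ^ (-(e 1).re) *
        ((n : ℕ) : ℝ) ^ (-(e 2).re)) * 1 := by
        refine mul_le_mul_of_nonneg_left ?_ (by positivity)
        exact mul_le_one₀ h5 (by positivity) h4
    _ = _ := mul_one _

/-! ### the analytic core of the near range -/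

theorem exp_close {z : ℂ} (hz : z.re ≤ 3) : ‖cexp z - 1‖ ≤ 22 * ‖z‖ := by
  rcases le_or_gt ‖z‖ 1 with h | h
  · have := Complex.norm_exp_sub_one_le h
    nlinarith [norm_nonneg z]
  · have h1 : ‖cexp z - 1‖ ≤ Real.exp 3 + 1 := by
      refine (norm_sub_le _ _).trans ?_
      rw [Complex.norm_exp, norm_one]
      have := Real.exp_le_exp.2 hz
      linarith
    have h2 : Real.exp 3 ≤ 21 := by
      have h3 : Real.exp 3 = Real.exp 1 ^ 3 := by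
        rw [← Real.exp_nat_mul]
        norm_num
      rw [h3]
      have h4 := Real.exp_one_lt_d9
      have h5 : Real.exp 1 ^ 3 ≤ (2.7182818286 : ℝ) ^ 3 :=
        pow_le_pow_left₀ (Real.exp_pos 1).le h4.le 3
      refine h5.trans ?_
      norm_num
    nlinarith

theorem log_facts {η : ℝ} (hη : |η| ≤ 1 / 2) :
    |Real.log (1 - η)| ≤ 2 * |η| ∧ |-Real.log (1 - η) - η| ≤ 2 * η ^ 2 ∧
      ∀ y ∈ Set.uIcc η (-Real.log (1 - η)), |η| / 2 ≤ |y| := by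
  have h1 : (0 : ℝ) < 1 - η := by have := (abs_le.1 hη).2; linarith
  have h2 := Real.abs_log_sub_add_sum_range_le (x := η) (by linarith) 1
  rw [Finset.sum_range_one] at h2
  norm_num at h2
  have h3 : |η| ^ 2 / (1 - |η|) ≤ 2 * η ^ 2 := by
    rw [div_le_iff₀ (by linarith), sq_abs]
    nlinarith [sq_nonneg η, abs_nonneg η]
  have h2' : |η + Real.log (1 - η)| ≤ 2 * η ^ 2 := by
    refine h2.trans ?_
    rw [← sq_abs η] at h3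
    rw [← sq_abs η]
    exact h3
  have hsq : 2 * η ^ 2 ≤ |η| := by
    rw [← sq_abs]
    nlinarith [abs_nonneg η]
  refine ⟨?_, ?_, ?_⟩
  · have h5 : Real.log (1 - η) = (η + Real.log (1 - η)) - η := by ring
    rw [h5]
    refine (abs_sub _ _).trans ?_
    linarith
  · have h5 : -Real.log (1 - η) - η = -(η + Real.log (1 - η)) := by ring
    rw [h5, abs_neg]
    exact h2'
  · intro y hy
    rcases le_or_gt 0 η with h0 | h0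
    · have h5 : η ≤ -Real.log (1 - η) := by
        have := Real.log_le_sub_one_of_pos h1
        linarith
      rw [Set.uIcc_of_le h5] at hy
      rw [abs_of_nonneg h0, abs_of_nonneg (h0.trans hy.1)]
      linarith [hy.1]
    · have h6 : 1 - (1 - η)⁻¹ ≤ Real.log (1 - η) := Real.one_sub_inv_le_log_of_pos h1
      have h7 : -η / 2 ≤ 1 - (1 - η)⁻¹ := by
        have h8 : 1 - (1 - η)⁻¹ = -η / (1 - η) := by
          field_simp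
          ring
        rw [h8]
        refine div_le_div_of_nonneg_left (by linarith) h1 ?_
        have := (abs_le.1 hη).1
        linarith
      have h9 : -Real.log (1 - η) ≤ η / 2 := by linarith
      have h10 : y ≤ η / 2 := by
        rcases Set.mem_uIcc.1 hy with h | h
        · exact h.2.trans h9
        · exact h.2.trans (by linarith)
      rw [abs_of_neg h0, abs_of_nonpos (by linarith)]
      linarith

theorem near_core {U Δ : ℝ} (hU : 0 ≤ U) (hΔ : 0 ≤ Δ) {φ K : ℝ → ℂ} (hφ : PhiB φ)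
    (hK : KerB U Δ K) {ε : ℂ} (hε : |ε.re| ≤ 3) {η : ℝ} (hη : |η| ≤ 1 / 2) (p : ℝ) :
    ‖cexp (-(ε * (Real.log (1 - η) : ℝ))) * φ (p - Real.log (1 - η)) * K (-Real.log (1 - η)) -
      φ p * K η‖ ≤ 50 * (1 + ‖ε‖) * (|η| + U * η ^ 2) * ((1 + Δ * (|η| / 2)) ^ 8)⁻¹ := by
  obtain ⟨hL1, hL2, hL3⟩ := log_facts hη
  set L := Real.log (1 - η) with hL
  set κ := ((1 + Δ * (|η| / 2)) ^ 8)⁻¹ with hκ
  have hκ0 : 0 ≤ κ := by rw [hκ]; positivity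
  have hmono : ∀ y, |η| / 2 ≤ |y| → ((1 + Δ * |y|) ^ 8)⁻¹ ≤ κ := by
    intro y hy
    rw [hκ]
    refine inv_anti₀ (by positivity) ?_
    exact pow_le_pow_left₀ (by positivity)
      (by have := mul_le_mul_of_nonneg_left hy hΔ; linarith) 8
  have hKL : ‖K (-L)‖ ≤ κ :=
    ((hK.2 (-L)).1).trans (hmono _ (hL3 _ Set.right_mem_uIcc))
  have hKd : ‖K (-L) - K η‖ ≤ U * κ * (2 * η ^ 2) := by
    have h1 : ‖K (-L) - K η‖ ≤ (U * κ) * ‖-L - η‖ := by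
      refine Convex.norm_image_sub_le_of_norm_deriv_le (s := Set.uIcc η (-L)) ?_ ?_
        (convex_uIcc _ _) Set.left_mem_uIcc Set.right_mem_uIcc
      · intro x _
        exact (hK.1.differentiable (by norm_num)) x
      · intro x hx
        exact ((hK.2 x).2.1).trans (mul_le_mul_of_nonneg_left (hmono _ (hL3 _ hx)) hU)
    refine h1.trans (mul_le_mul_of_nonneg_left ?_ (by positivity))
    rw [Real.norm_eq_abs]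
    exact hL2
  have hφd : ‖φ (p - L) - φ p‖ ≤ 2 * |η| := by
    have h1 : ‖φ (p - L) - φ p‖ ≤ 1 * ‖(p - L) - p‖ := by
      refine Convex.norm_image_sub_le_of_norm_deriv_le (s := Set.univ) ?_ ?_
        convex_univ (Set.mem_univ _) (Set.mem_univ _)
      · intro x _
        exact (hφ.1.differentiable (by norm_num)) x
      · intro x _
        exact dphi_le_one hφ x
    refine h1.trans ?_
    rw [one_mul, Real.norm_eq_abs, show p - L - p = -L by ring, abs_neg]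
    exact hL1
  have hE : ‖cexp (-(ε * (L : ℝ))) - 1‖ ≤ 44 * ‖ε‖ * |η| := by
    have hre : (-(ε * (L : ℝ))).re ≤ 3 := by
      rw [Complex.neg_re, Complex.re_mul_ofReal]
      have h1 : |ε.re * L| ≤ 3 * 1 := by
        rw [abs_mul]
        refine mul_le_mul hε ?_ (abs_nonneg _) (by norm_num)
        linarith
      have h2 := neg_abs_le (ε.re * L)
      linarith
    refine (exp_close hre).trans ?_
    rw [norm_neg, norm_mul, Complex.norm_real, Real.norm_eq_abs]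
    have := mul_le_mul_of_nonneg_left hL1 (norm_nonneg ε)
    nlinarith
  have hsplit : cexp (-(ε * (L : ℝ))) * φ (p - L) * K (-L) - φ p * K η =
      (cexp (-(ε * (L : ℝ))) - 1) * (φ (p - L) * K (-L)) +
        ((φ (p - L) - φ p) * K (-L) + φ p * (K (-L) - K η)) := by ring
  rw [hsplit]
  refine (norm_add_le _ _).trans ?_
  have t1 : ‖(cexp (-(ε * (L : ℝ))) - 1) * (φ (p - L) * K (-L))‖ ≤ 44 * ‖ε‖ * |η| * κ := by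
    rw [norm_mul, norm_mul]
    refine mul_le_mul hE ?_ (by positivity) (by positivity)
    calc ‖φ (p - L)‖ * ‖K (-L)‖ ≤ 1 * κ :=
          mul_le_mul (phi_le_one hφ _) hKL (norm_nonneg _) zero_le_one
      _ = κ := one_mul _
  have t2 : ‖(φ (p - L) - φ p) * K (-L)‖ ≤ 2 * |η| * κ := by
    rw [norm_mul]
    exact mul_le_mul hφd hKL (norm_nonneg _) (by positivity)
  have t3 : ‖φ p * (K (-L) - K η)‖ ≤ U * κ * (2 * η ^ 2) := by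
    rw [norm_mul]
    calc ‖φ p‖ * ‖K (-L) - K η‖ ≤ 1 * (U * κ * (2 * η ^ 2)) :=
          mul_le_mul (phi_le_one hφ _) hKd (norm_nonneg _) zero_le_one
      _ = _ := one_mul _
  have t4 := norm_add_le ((φ (p - L) - φ p) * K (-L)) (φ p * (K (-L) - K η))
  have hη0 := abs_nonneg η
  have hε0 := norm_nonneg ε
  have p1 : 0 ≤ ‖ε‖ * |η| * κ := by positivity
  have p2 : 0 ≤ |η| * κ := by positivity
  have p3 : 0 ≤ U * η ^ 2 * κ := by positivity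
  have p4 : 0 ≤ ‖ε‖ * (U * η ^ 2 * κ) := by positivity
  have : 50 * (1 + ‖ε‖) * (|η| + U * η ^ 2) * κ = 50 * (|η| * κ) + 50 * (‖ε‖ * |η| * κ) +
      50 * (U * η ^ 2 * κ) + 50 * (‖ε‖ * (U * η ^ 2 * κ)) := by ring
  rw [this]
  nlinarith

end NearAux

namespace NearAux

/-! ### the majorants -/

noncomputable def pp (x : ℝ) (n : ℕ+) : ℝ := ((n : ℕ) : ℝ) ^ (-x)

noncomputable def ll (x : ℝ) (l : {l : ℤ // l ≠ 0}) : ℝ := |((l : ℤ) : ℝ)| ^ (-x)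

theorem pp_nonneg (x : ℝ) (n : ℕ+) : 0 ≤ pp x n := Real.rpow_nonneg (pn_pos n).le _

theorem ll_nonneg (x : ℝ) (l : {l : ℤ // l ≠ 0}) : 0 ≤ ll x l := Real.rpow_nonneg (abs_nonneg _) _

theorem pp_summable {x : ℝ} (hx : 1 < x) : Summable (pp x) := by
  have h : Summable fun n : ℕ => (n : ℝ) ^ (-x) := Real.summable_nat_rpow.2 (by linarith)
  exact h.comp_injective PNat.coe_injective

theorem ll_summable {x : ℝ} (hx : 1 < x) : Summable (ll x) :=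
  (Real.summable_abs_int_rpow hx).comp_injective Subtype.val_injective

theorem lpos (l : {l : ℤ // l ≠ 0}) : 0 < |((l : ℤ) : ℝ)| := by
  have : ((l : ℤ) : ℝ) ≠ 0 := by exact_mod_cast l.2
  exact abs_pos.2 this

theorem lone (l : {l : ℤ // l ≠ 0}) : 1 ≤ |((l : ℤ) : ℝ)| := by
  have h : (1 : ℤ) ≤ |(l : ℤ)| := Int.one_le_abs l.2
  exact_mod_cast h

/-- the first majorant -/
noncomputable def PZ (z : (ℕ+ × {l : ℤ // l ≠ 0}) × (ℕ+ × ℕ+)) : ℝ :=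
  (pp (6 / 5) z.1.1 * ll (6 / 5) z.1.2) * (pp (6 / 5) z.2.1 * pp (6 / 5) z.2.2)

theorem PZ_nonneg (z : (ℕ+ × {l : ℤ // l ≠ 0}) × (ℕ+ × ℕ+)) : 0 ≤ PZ z :=
  mul_nonneg (mul_nonneg (pp_nonneg _ _) (ll_nonneg _ _)) (mul_nonneg (pp_nonneg _ _) (pp_nonneg _ _))

theorem PZ_summable : Summable PZ := by
  have h1 : Summable fun x : ℕ+ × {l : ℤ // l ≠ 0} => pp (6 / 5) x.1 * ll (6 / 5) x.2 :=
    (pp_summable (by norm_num)).mul_of_nonneg (ll_summable (by norm_num)) (pp_nonneg _)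
      (ll_nonneg _)
  have h2 : Summable fun x : ℕ+ × ℕ+ => pp (6 / 5) x.1 * pp (6 / 5) x.2 :=
    (pp_summable (by norm_num)).mul_of_nonneg (pp_summable (by norm_num)) (pp_nonneg _)
      (pp_nonneg _)
  exact h1.mul_of_nonneg h2 (fun x => mul_nonneg (pp_nonneg _ _) (ll_nonneg _ _))
    (fun x => mul_nonneg (pp_nonneg _ _) (pp_nonneg _ _))

theorem base_le {r0 r1 r2 : ℝ} (h0 : 12 / 5 ≤ r0) (h1 : 12 / 5 ≤ r1) (h2 : 6 / 5 ≤ r2)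
    (a m₁ m₂ n : ℕ+) (l : {l : ℤ // l ≠ 0}) :
    ((m₁ : ℕ) : ℝ) ^ (-r0) * ((m₂ : ℕ) : ℝ) ^ (-r1) * ((n : ℕ) : ℝ) ^ (-r2) *
      (|((l : ℤ) : ℝ)| / ((a : ℕ) * (m₁ : ℕ) * (m₂ : ℕ))) ^ (-(6 / 5) : ℝ) ≤
      ((a : ℕ) : ℝ) ^ (6 / 5 : ℝ) * PZ ((n, l), (m₁, m₂)) := by
  have ha := pn_pos a
  have hm₁ := pn_pos m₁
  have hm₂ := pn_pos m₂
  have hn := pn_pos n
  have hl := lpos l
  have e1 : (|((l : ℤ) : ℝ)| / ((a : ℕ) * (m₁ : ℕ) * (m₂ : ℕ))) ^ (-(6 / 5) : ℝ) =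
      |((l : ℤ) : ℝ)| ^ (-(6 / 5) : ℝ) * (((a : ℕ) : ℝ) ^ (6 / 5 : ℝ) *
        ((m₁ : ℕ) : ℝ) ^ (6 / 5 : ℝ) * ((m₂ : ℕ) : ℝ) ^ (6 / 5 : ℝ)) := by
    rw [Real.div_rpow hl.le (by positivity), div_eq_mul_inv, ← Real.rpow_neg (by positivity),
      neg_neg, Real.mul_rpow (by positivity) hm₂.le, Real.mul_rpow ha.le hm₁.le]
  have k1 : ((m₁ : ℕ) : ℝ) ^ (-r0) * ((m₁ : ℕ) : ℝ) ^ (6 / 5 : ℝ) ≤ pp (6 / 5) m₁ := by
    rw [← Real.rpow_add hm₁]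
    exact pn_mono m₁ (by linarith)
  have k2 : ((m₂ : ℕ) : ℝ) ^ (-r1) * ((m₂ : ℕ) : ℝ) ^ (6 / 5 : ℝ) ≤ pp (6 / 5) m₂ := by
    rw [← Real.rpow_add hm₂]
    exact pn_mono m₂ (by linarith)
  have k3 : ((n : ℕ) : ℝ) ^ (-r2) ≤ pp (6 / 5) n := pn_mono n (by linarith)
  rw [e1]
  calc ((m₁ : ℕ) : ℝ) ^ (-r0) * ((m₂ : ℕ) : ℝ) ^ (-r1) * ((n : ℕ) : ℝ) ^ (-r2) *
        (|((l : ℤ) : ℝ)| ^ (-(6 / 5) : ℝ) * (((a : ℕ) : ℝ) ^ (6 / 5 : ℝ) *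
        ((m₁ : ℕ) : ℝ) ^ (6 / 5 : ℝ) * ((m₂ : ℕ) : ℝ) ^ (6 / 5 : ℝ)))
      = ((a : ℕ) : ℝ) ^ (6 / 5 : ℝ) * ((((n : ℕ) : ℝ) ^ (-r2) *
          |((l : ℤ) : ℝ)| ^ (-(6 / 5) : ℝ)) *
          ((((m₁ : ℕ) : ℝ) ^ (-r0) * ((m₁ : ℕ) : ℝ) ^ (6 / 5 : ℝ)) *
            (((m₂ : ℕ) : ℝ) ^ (-r1) * ((m₂ : ℕ) : ℝ) ^ (6 / 5 : ℝ)))) := by ring
    _ ≤ ((a : ℕ) : ℝ) ^ (6 / 5 : ℝ) * ((pp (6 / 5) n * ll (6 / 5) l) *
          (pp (6 / 5) m₁ * pp (6 / 5) m₂)) := by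
        refine mul_le_mul_of_nonneg_left ?_ (by positivity)
        refine mul_le_mul ?_ ?_ (by positivity) (mul_nonneg (pp_nonneg _ _) (ll_nonneg _ _))
        · exact mul_le_mul_of_nonneg_right k3 (ll_nonneg _ _)
        · exact mul_le_mul k1 k2 (by positivity) (pp_nonneg _ _)
    _ = _ := rfl

/-! ### the far range -/

theorem far_W {U Δ : ℝ} (hΔ : 0 < Δ) {e : Fin 4 → ℂ} {φ₁ φ₂ K : ℝ → ℂ} (a b : ℕ+)
    (h1 : PhiB φ₁) (h2 : PhiB φ₂) (hK : KerB U Δ K) (hr : ∀ i, |(e i).re - 5 / 2| ≤ 1 / 1000)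
    (m₁ m₂ n : ℕ+) (l : {l : ℤ // l ≠ 0})
    (hfar : ((a : ℕ) * (m₁ : ℕ) * (m₂ : ℕ) : ℝ) ≤ 2 * |((l : ℤ) : ℝ)|) :
    ‖Wf e φ₁ φ₂ K a b n l (m₁ : ℕ) (m₂ : ℕ)‖ ≤ 2 ^ 8 * Δ ^ (-8 : ℝ) *
      (((a : ℕ) : ℝ) ^ (6 / 5 : ℝ) * PZ ((n, l), (m₁, m₂))) := by
  have hb0 := (abs_le.1 (hr 0)).1
  have hb1 := (abs_le.1 (hr 1)).1
  have hb2 := (abs_le.1 (hr 2)).1
  have hb3 := (abs_le.1 (hr 3))
  have hA : (0 : ℝ) < (a : ℕ) * (m₁ : ℕ) * (m₂ : ℕ) := by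
    have := pn_pos a; have := pn_pos m₁; have := pn_pos m₂; positivity
  refine (norm_Wf_le a b n l h1 h2 hK (by linarith [hb3.1]) (by linarith [hb3.2]) m₁ m₂).trans ?_
  set η : ℝ := |((l : ℤ) : ℝ)| / ((a : ℕ) * (m₁ : ℕ) * (m₂ : ℕ)) with hη
  have hη0 : 0 < η := div_pos (lpos l) hA
  have hη2 : 1 ≤ 2 * η := by
    rw [hη, ← mul_div_assoc, le_div_iff₀ hA, one_mul]
    exact hfar
  have h3 : ((1 + Δ * η) ^ 8)⁻¹ ≤ 2 ^ 8 * Δ ^ (-8 : ℝ) * η ^ (-(6 / 5) : ℝ) := by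
    refine (inv_le_rpow (x := 8) (mul_pos hΔ hη0) (by norm_num) (by norm_num)).trans ?_
    rw [Real.mul_rpow hΔ.le hη0.le]
    have h4 : η ^ (-8 : ℝ) ≤ 2 ^ 8 * η ^ (-(6 / 5) : ℝ) := by
      have h5 : (2 * η) ^ (-8 : ℝ) ≤ (2 * η) ^ (-(6 / 5) : ℝ) :=
        Real.rpow_le_rpow_of_exponent_le hη2 (by norm_num)
      rw [Real.mul_rpow (by norm_num) hη0.le, Real.mul_rpow (by norm_num) hη0.le] at h5
      have h6 : (2 : ℝ) ^ (-8 : ℝ) = (2 ^ 8)⁻¹ := by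
        rw [Real.rpow_neg (by norm_num)]
        norm_num
      have h7 : (2 : ℝ) ^ (-(6 / 5) : ℝ) ≤ 1 :=
        Real.rpow_le_one_of_one_le_of_nonpos (by norm_num) (by norm_num)
      rw [h6] at h5
      have h8 : (2 : ℝ) ^ (-(6 / 5) : ℝ) * η ^ (-(6 / 5) : ℝ) ≤ η ^ (-(6 / 5) : ℝ) :=
        mul_le_of_le_one_left (by positivity) h7
      have h9 : (2 ^ 8 : ℝ)⁻¹ * η ^ (-8 : ℝ) ≤ η ^ (-(6 / 5) : ℝ) := h5.trans h8
      rw [inv_mul_le_iff₀ (by positivity)] at h9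
      exact h9
    have := mul_le_mul_of_nonneg_left h4 (Real.rpow_nonneg hΔ.le (-8 : ℝ))
    linarith
  refine (mul_le_mul_of_nonneg_left h3 (by positivity)).trans ?_
  have h10 := base_le (r0 := (e 0).re) (r1 := (e 1).re) (r2 := (e 2).re) (by linarith)
    (by linarith) (by linarith) a m₁ m₂ n l
  have h11 := mul_le_mul_of_nonneg_left h10
    (by positivity : (0 : ℝ) ≤ 2 ^ 8 * Δ ^ (-8 : ℝ))
  refine le_trans (le_of_eq ?_) h11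
  ring

theorem log_far {A B : ℝ} (hA : 0 < A) (hB : 0 < B) (h : A ≤ 2 * |A - B|) :
    1 / 3 ≤ |Real.log A - Real.log B| := by
  rcases le_or_gt A B with h1 | h1
  · rw [abs_of_nonpos (by linarith)] at h
    have h2 : 1 - (B / A)⁻¹ ≤ Real.log (B / A) := Real.one_sub_inv_le_log_of_pos (by positivity)
    rw [inv_div, Real.log_div hB.ne' hA.ne'] at h2
    have h3 : A / B ≤ 2 / 3 := by
      rw [div_le_iff₀ hB]
      linarith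
    rw [abs_of_nonpos (by linarith)]
    linarith
  · rw [abs_of_nonneg (by linarith)] at h
    have h2 : 1 - (A / B)⁻¹ ≤ Real.log (A / B) := Real.one_sub_inv_le_log_of_pos (by positivity)
    rw [inv_div, Real.log_div hA.ne' hB.ne'] at h2
    have h3 : B / A ≤ 1 / 2 := by
      rw [div_le_iff₀ hA]
      linarith
    rw [abs_of_nonneg (by linarith)]
    linarith

theorem far_T {U Δ : ℝ} (hΔ : 0 < Δ) {e : Fin 4 → ℂ} {φ₁ φ₂ K : ℝ → ℂ} (a b : ℕ+)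
    (h1 : PhiB φ₁) (h2 : PhiB φ₂) (hK : KerB U Δ K) (hr : ∀ i, |(e i).re - 5 / 2| ≤ 1 / 1000)
    (m₁ m₂ n n₂ : ℕ+) (l : {l : ℤ // l ≠ 0})
    (hfar : ((a : ℕ) * (m₁ : ℕ) * (m₂ : ℕ) : ℝ) ≤ 2 * |((l : ℤ) : ℝ)|)
    (hn₂ : ((b * n * n₂ : ℕ) : ℤ) = ((a : ℕ) : ℤ) * (m₁ : ℕ) * (m₂ : ℕ) - l) :
    ‖T4 e φ₁ φ₂ K a b ((m₁, m₂), (n, n₂))‖ ≤ 3 ^ 8 * Δ ^ (-8 : ℝ) *
      (((a : ℕ) : ℝ) ^ (6 / 5 : ℝ) * ((b : ℕ) : ℝ) ^ (6 / 5 : ℝ) * PZ ((n, l), (m₁, m₂))) := by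
  have hb0 := (abs_le.1 (hr 0)).1
  have hb1 := (abs_le.1 (hr 1)).1
  have hb2 := (abs_le.1 (hr 2)).1
  have hb3 := (abs_le.1 (hr 3)).1
  have ha := pn_pos a
  have hb := pn_pos b
  have hm₁ := pn_pos m₁
  have hm₂ := pn_pos m₂
  have hn := pn_pos n
  have hn2 := pn_pos n₂
  have hl := lpos l
  have hB : ((b : ℕ) : ℝ) * (n : ℕ) * (n₂ : ℕ) = (a : ℕ) * (m₁ : ℕ) * (m₂ : ℕ) - ((l : ℤ) : ℝ) := by
    have h := congrArg (fun t : ℤ => (t : ℝ)) hn₂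
    push_cast at h
    exact h
  set A : ℝ := (a : ℕ) * (m₁ : ℕ) * (m₂ : ℕ) with hAdef
  set B : ℝ := ((b : ℕ) : ℝ) * (n : ℕ) * (n₂ : ℕ) with hBdef
  have hA : 0 < A := by positivity
  have hB0 : 0 < B := by positivity
  have hlAB : ((l : ℤ) : ℝ) = A - B := by linarith
  have hlog : 1 / 3 ≤ |Real.log A - Real.log B| := by
    refine log_far hA hB0 ?_
    rw [← hlAB]
    exact hfar
  refine (norm_T4_le a b h1 h2 hK _).trans ?_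
  simp only
  have eA : (((a : ℕ) * (m₁ : ℕ) * (m₂ : ℕ) : ℕ) : ℝ) = A := by rw [hAdef]; push_cast; ring
  have eB : (((b : ℕ) * (n : ℕ) * (n₂ : ℕ) : ℕ) : ℝ) = B := by rw [hBdef]; push_cast; ring
  rw [eA, eB]
  have h3 : ((1 + Δ * |Real.log A - Real.log B|) ^ 8)⁻¹ ≤ 3 ^ 8 * Δ ^ (-8 : ℝ) := by
    have h4 : ((1 + Δ * |Real.log A - Real.log B|) ^ 8)⁻¹ ≤ ((Δ / 3) ^ 8)⁻¹ := by
      refine inv_anti₀ (by positivity) (pow_le_pow_left₀ (by positivity) ?_ 8)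
      have := mul_le_mul_of_nonneg_left hlog hΔ.le
      linarith
    refine h4.trans (le_of_eq ?_)
    rw [Real.rpow_neg hΔ.le, div_pow, inv_div, div_eq_mul_inv]
    congr 2
    exact_mod_cast (Real.rpow_natCast Δ 8).symm
  -- the product
  have hprod : ((m₁ : ℕ) : ℝ) ^ (-(e 0).re) * ((m₂ : ℕ) : ℝ) ^ (-(e 1).re) *
      (((n : ℕ) : ℝ) ^ (-(e 2).re) * ((n₂ : ℕ) : ℝ) ^ (-(e 3).re)) ≤
      ((a : ℕ) : ℝ) ^ (6 / 5 : ℝ) * ((b : ℕ) : ℝ) ^ (6 / 5 : ℝ) * PZ ((n, l), (m₁, m₂)) := by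
    have ha1 : 1 ≤ ((a : ℕ) : ℝ) ^ (6 / 5 : ℝ) := Real.one_le_rpow (pn_one a) (by norm_num)
    have hb1' : 1 ≤ ((b : ℕ) : ℝ) ^ (6 / 5 : ℝ) := Real.one_le_rpow (pn_one b) (by norm_num)
    have hP := PZ_nonneg ((n, l), (m₁, m₂))
    have q1 : ((m₁ : ℕ) : ℝ) ^ (-(e 0).re) ≤ pp (6 / 5) m₁ := pn_mono m₁ (by linarith)
    have q2 : ((m₂ : ℕ) : ℝ) ^ (-(e 1).re) ≤ pp (6 / 5) m₂ := pn_mono m₂ (by linarith)
    rcases le_or_gt A B with hAB | hAB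
    · -- `|l| ≤ B`
      have hlB : |((l : ℤ) : ℝ)| ≤ B := by
        rw [hlAB, abs_of_nonpos (by linarith)]
        linarith
      have h5 : 1 ≤ (((b : ℕ) : ℝ) ^ (6 / 5 : ℝ) * ((n : ℕ) : ℝ) ^ (6 / 5 : ℝ) *
          ((n₂ : ℕ) : ℝ) ^ (6 / 5 : ℝ)) * ll (6 / 5) l := by
        rw [← Real.mul_rpow hb.le hn.le, ← Real.mul_rpow (by positivity) hn2.le, ll,
          Real.rpow_neg hl.le, ← div_eq_mul_inv, one_le_div (by positivity)]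
        exact Real.rpow_le_rpow hl.le hlB (by norm_num)
      have q3 : ((n : ℕ) : ℝ) ^ (-(e 2).re) * ((n : ℕ) : ℝ) ^ (6 / 5 : ℝ) ≤ pp (6 / 5) n := by
        rw [← Real.rpow_add hn]
        exact pn_mono n (by linarith)
      have q4 : ((n₂ : ℕ) : ℝ) ^ (-(e 3).re) * ((n₂ : ℕ) : ℝ) ^ (6 / 5 : ℝ) ≤ 1 := by
        rw [← Real.rpow_add hn2]
        exact Real.rpow_le_one_of_one_le_of_nonpos (pn_one n₂) (by linarith)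
      calc ((m₁ : ℕ) : ℝ) ^ (-(e 0).re) * ((m₂ : ℕ) : ℝ) ^ (-(e 1).re) *
            (((n : ℕ) : ℝ) ^ (-(e 2).re) * ((n₂ : ℕ) : ℝ) ^ (-(e 3).re))
          ≤ ((m₁ : ℕ) : ℝ) ^ (-(e 0).re) * ((m₂ : ℕ) : ℝ) ^ (-(e 1).re) *
            (((n : ℕ) : ℝ) ^ (-(e 2).re) * ((n₂ : ℕ) : ℝ) ^ (-(e 3).re)) *
            ((((b : ℕ) : ℝ) ^ (6 / 5 : ℝ) * ((n : ℕ) : ℝ) ^ (6 / 5 : ℝ) *
              ((n₂ : ℕ) : ℝ) ^ (6 / 5 : ℝ)) * ll (6 / 5) l) :=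
            le_mul_of_one_le_right (by positivity) h5
        _ = ((b : ℕ) : ℝ) ^ (6 / 5 : ℝ) *
            ((((n : ℕ) : ℝ) ^ (-(e 2).re) * ((n : ℕ) : ℝ) ^ (6 / 5 : ℝ)) * ll (6 / 5) l *
            (((m₁ : ℕ) : ℝ) ^ (-(e 0).re) * ((m₂ : ℕ) : ℝ) ^ (-(e 1).re)) *
            (((n₂ : ℕ) : ℝ) ^ (-(e 3).re) * ((n₂ : ℕ) : ℝ) ^ (6 / 5 : ℝ))) := by ring
        _ ≤ ((b : ℕ) : ℝ) ^ (6 / 5 : ℝ) *
            (pp (6 / 5) n * ll (6 / 5) l * (pp (6 / 5) m₁ * pp (6 / 5) m₂) * 1) := by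
            refine mul_le_mul_of_nonneg_left ?_ (by positivity)
            refine mul_le_mul ?_ q4 (by positivity) ?_
            · refine mul_le_mul (mul_le_mul_of_nonneg_right q3 (ll_nonneg _ _)) ?_
                (by positivity) (mul_nonneg (pp_nonneg _ _) (ll_nonneg _ _))
              exact mul_le_mul q1 q2 (by positivity) (pp_nonneg _ _)
            · exact mul_nonneg (mul_nonneg (pp_nonneg _ _) (ll_nonneg _ _))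
                (mul_nonneg (pp_nonneg _ _) (pp_nonneg _ _))
        _ = 1 * (((b : ℕ) : ℝ) ^ (6 / 5 : ℝ) * PZ ((n, l), (m₁, m₂))) := by
            simp only [PZ]; ring
        _ ≤ ((a : ℕ) : ℝ) ^ (6 / 5 : ℝ) *
            (((b : ℕ) : ℝ) ^ (6 / 5 : ℝ) * PZ ((n, l), (m₁, m₂))) :=
            mul_le_mul_of_nonneg_right ha1 (by positivity)
        _ = _ := by ring
    · -- `|l| ≤ A`
      have hlA : |((l : ℤ) : ℝ)| ≤ A := by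
        rw [hlAB, abs_of_nonneg (by linarith)]
        linarith
      have h5 : 1 ≤ (|((l : ℤ) : ℝ)| / A) ^ (-(6 / 5) : ℝ) := by
        rw [Real.rpow_neg (by positivity)]
        refine (one_le_inv₀ (by positivity)).2 ?_
        refine Real.rpow_le_one (by positivity) ?_ (by norm_num)
        rw [div_le_one hA]
        exact hlA
      have q4 : ((n₂ : ℕ) : ℝ) ^ (-(e 3).re) ≤ 1 :=
        Real.rpow_le_one_of_one_le_of_nonpos (pn_one n₂) (by linarith)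
      have q5 := base_le (r0 := (e 0).re) (r1 := (e 1).re) (r2 := (e 2).re) (by linarith)
        (by linarith) (by linarith) a m₁ m₂ n l
      calc ((m₁ : ℕ) : ℝ) ^ (-(e 0).re) * ((m₂ : ℕ) : ℝ) ^ (-(e 1).re) *
            (((n : ℕ) : ℝ) ^ (-(e 2).re) * ((n₂ : ℕ) : ℝ) ^ (-(e 3).re))
          = ((m₁ : ℕ) : ℝ) ^ (-(e 0).re) * ((m₂ : ℕ) : ℝ) ^ (-(e 1).re) *
            ((n : ℕ) : ℝ) ^ (-(e 2).re) * ((n₂ : ℕ) : ℝ) ^ (-(e 3).re) := by ring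
        _ ≤ ((m₁ : ℕ) : ℝ) ^ (-(e 0).re) * ((m₂ : ℕ) : ℝ) ^ (-(e 1).re) *
            ((n : ℕ) : ℝ) ^ (-(e 2).re) * (|((l : ℤ) : ℝ)| / A) ^ (-(6 / 5) : ℝ) :=
            mul_le_mul_of_nonneg_left (q4.trans h5) (by positivity)
        _ ≤ ((a : ℕ) : ℝ) ^ (6 / 5 : ℝ) * PZ ((n, l), (m₁, m₂)) := q5
        _ = ((a : ℕ) : ℝ) ^ (6 / 5 : ℝ) * PZ ((n, l), (m₁, m₂)) * 1 := (mul_one _).symm
        _ ≤ ((a : ℕ) : ℝ) ^ (6 / 5 : ℝ) * PZ ((n, l), (m₁, m₂)) *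
            ((b : ℕ) : ℝ) ^ (6 / 5 : ℝ) := mul_le_mul_of_nonneg_left hb1' (by positivity)
        _ = _ := by ring
  calc ((m₁ : ℕ) : ℝ) ^ (-(e 0).re) * ((m₂ : ℕ) : ℝ) ^ (-(e 1).re) *
        (((n : ℕ) : ℝ) ^ (-(e 2).re) * ((n₂ : ℕ) : ℝ) ^ (-(e 3).re)) *
        ((1 + Δ * |Real.log A - Real.log B|) ^ 8)⁻¹
      ≤ (((a : ℕ) : ℝ) ^ (6 / 5 : ℝ) * ((b : ℕ) : ℝ) ^ (6 / 5 : ℝ) *
          PZ ((n, l), (m₁, m₂))) * (3 ^ 8 * Δ ^ (-8 : ℝ)) :=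
        mul_le_mul hprod h3 (by positivity)
          (mul_nonneg (by positivity) (PZ_nonneg _))
    _ = _ := by ring

end NearAux

namespace NearAux

/-! ### the near range -/

theorem small_fac {U Δ t : ℝ} (hU : 0 ≤ U) (hΔ : 0 < Δ) (hΔU : Δ ≤ U) (ht : 0 < t) :
    (t + U * t ^ 2) * ((1 + Δ * (t / 2)) ^ 8)⁻¹ ≤
      96 * (U * Δ ^ (-(29 / 5) : ℝ)) * t ^ (-(19 / 5) : ℝ) := by
  have ht2 : 0 < Δ * (t / 2) := by positivity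
  have h1 := inv_le_rpow (x := 24 / 5) ht2 (by norm_num) (by norm_num)
  have h2 := inv_le_rpow (x := 29 / 5) ht2 (by norm_num) (by norm_num)
  have e : ∀ x : ℝ, (Δ * (t / 2)) ^ (-x) = Δ ^ (-x) * t ^ (-x) * 2 ^ x := by
    intro x
    rw [Real.mul_rpow hΔ.le (by positivity), Real.div_rpow ht.le (by norm_num), div_eq_mul_inv,
      ← Real.rpow_neg (by norm_num : (0 : ℝ) ≤ 2), neg_neg]
    ring
  rw [e] at h1 h2
  have p1 : (2 : ℝ) ^ (24 / 5 : ℝ) ≤ 32 := by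
    calc (2 : ℝ) ^ (24 / 5 : ℝ) ≤ 2 ^ ((5 : ℕ) : ℝ) :=
          Real.rpow_le_rpow_of_exponent_le (by norm_num) (by norm_num)
      _ = 32 := by rw [Real.rpow_natCast]; norm_num
  have p2 : (2 : ℝ) ^ (29 / 5 : ℝ) ≤ 64 := by
    calc (2 : ℝ) ^ (29 / 5 : ℝ) ≤ 2 ^ ((6 : ℕ) : ℝ) :=
          Real.rpow_le_rpow_of_exponent_le (by norm_num) (by norm_num)
      _ = 64 := by rw [Real.rpow_natCast]; norm_num
  have d1 : Δ ^ (-(24 / 5) : ℝ) ≤ U * Δ ^ (-(29 / 5) : ℝ) := by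
    have : Δ ^ (-(24 / 5) : ℝ) = Δ * Δ ^ (-(29 / 5) : ℝ) := by
      have h := Real.rpow_add hΔ 1 (-(29 / 5))
      rw [Real.rpow_one] at h
      rw [← h]
      norm_num
    rw [this]
    exact mul_le_mul_of_nonneg_right hΔU (by positivity)
  have t1 : t * t ^ (-(24 / 5) : ℝ) = t ^ (-(19 / 5) : ℝ) := by
    have h := Real.rpow_add ht 1 (-(24 / 5))
    rw [Real.rpow_one] at h
    rw [← h]
    norm_num
  have t2 : t ^ 2 * t ^ (-(29 / 5) : ℝ) = t ^ (-(19 / 5) : ℝ) := by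
    have h := Real.rpow_add ht ((2 : ℕ) : ℝ) (-(29 / 5))
    rw [Real.rpow_natCast] at h
    rw [← h]
    norm_num
  have s1 : t * ((1 + Δ * (t / 2)) ^ 8)⁻¹ ≤
      32 * (U * Δ ^ (-(29 / 5) : ℝ)) * t ^ (-(19 / 5) : ℝ) := by
    calc t * ((1 + Δ * (t / 2)) ^ 8)⁻¹
        ≤ t * (Δ ^ (-(24 / 5) : ℝ) * t ^ (-(24 / 5) : ℝ) * 2 ^ (24 / 5 : ℝ)) :=
          mul_le_mul_of_nonneg_left h1 ht.le
      _ = (2 ^ (24 / 5 : ℝ) * Δ ^ (-(24 / 5) : ℝ)) * (t * t ^ (-(24 / 5) : ℝ)) := by ring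
      _ = (2 ^ (24 / 5 : ℝ) * Δ ^ (-(24 / 5) : ℝ)) * t ^ (-(19 / 5) : ℝ) := by rw [t1]
      _ ≤ (32 * (U * Δ ^ (-(29 / 5) : ℝ))) * t ^ (-(19 / 5) : ℝ) := by
          refine mul_le_mul_of_nonneg_right ?_ (by positivity)
          exact mul_le_mul p1 d1 (by positivity) (by norm_num)
  have s2 : U * t ^ 2 * ((1 + Δ * (t / 2)) ^ 8)⁻¹ ≤
      64 * (U * Δ ^ (-(29 / 5) : ℝ)) * t ^ (-(19 / 5) : ℝ) := by
    calc U * t ^ 2 * ((1 + Δ * (t / 2)) ^ 8)⁻¹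
        ≤ U * t ^ 2 * (Δ ^ (-(29 / 5) : ℝ) * t ^ (-(29 / 5) : ℝ) * 2 ^ (29 / 5 : ℝ)) :=
          mul_le_mul_of_nonneg_left h2 (by positivity)
      _ = 2 ^ (29 / 5 : ℝ) * (U * Δ ^ (-(29 / 5) : ℝ) * (t ^ 2 * t ^ (-(29 / 5) : ℝ))) := by
          ring
      _ = 2 ^ (29 / 5 : ℝ) * (U * Δ ^ (-(29 / 5) : ℝ) * t ^ (-(19 / 5) : ℝ)) := by rw [t2]
      _ ≤ 64 * (U * Δ ^ (-(29 / 5) : ℝ) * t ^ (-(19 / 5) : ℝ)) :=
          mul_le_mul_of_nonneg_right p2 (by positivity)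
      _ = _ := by ring
  calc (t + U * t ^ 2) * ((1 + Δ * (t / 2)) ^ 8)⁻¹
      = t * ((1 + Δ * (t / 2)) ^ 8)⁻¹ + U * t ^ 2 * ((1 + Δ * (t / 2)) ^ 8)⁻¹ := by ring
    _ ≤ 32 * (U * Δ ^ (-(29 / 5) : ℝ)) * t ^ (-(19 / 5) : ℝ) +
        64 * (U * Δ ^ (-(29 / 5) : ℝ)) * t ^ (-(19 / 5) : ℝ) := add_le_add s1 s2
    _ = _ := by ring

theorem near_TW {U Δ : ℝ} (hU : 0 ≤ U) (hΔ : 0 < Δ) (hΔU : Δ ≤ U) {e : Fin 4 → ℂ}
    {φ₁ φ₂ K : ℝ → ℂ} (a b : ℕ+)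
    (h1 : PhiB φ₁) (h2 : PhiB φ₂) (hK : KerB U Δ K) (hr : ∀ i, |(e i).re - 5 / 2| ≤ 1 / 1000)
    (m₁ m₂ n n₂ : ℕ+) (l : {l : ℤ // l ≠ 0})
    (hnear : 2 * |((l : ℤ) : ℝ)| ≤ ((a : ℕ) * (m₁ : ℕ) * (m₂ : ℕ) : ℝ))
    (hn₂ : ((b * n * n₂ : ℕ) : ℤ) = ((a : ℕ) : ℤ) * (m₁ : ℕ) * (m₂ : ℕ) - l) :
    ‖T4 e φ₁ φ₂ K a b ((m₁, m₂), (n, n₂)) - Wf e φ₁ φ₂ K a b n l (m₁ : ℕ) (m₂ : ℕ)‖ ≤
      9600 * (1 + ‖e 3‖) * (((b : ℕ) : ℝ) ^ 3 * ((a : ℕ) : ℝ) ^ 4) * (U * Δ ^ (-(29 / 5) : ℝ)) *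
        ((pp (59 / 50) m₁ * pp (59 / 50) m₂) * ll (19 / 5) l) := by
  have hb0 := (abs_le.1 (hr 0)).1
  have hb1 := (abs_le.1 (hr 1)).1
  have hb2 := (abs_le.1 (hr 2)).1
  have hb3 := (abs_le.1 (hr 3))
  have ha := pn_pos a
  have hb := pn_pos b
  have hm₁ := pn_pos m₁
  have hm₂ := pn_pos m₂
  have hn := pn_pos n
  have hn2 := pn_pos n₂
  have hl := lpos l
  have hB : ((b : ℕ) : ℝ) * (n : ℕ) * (n₂ : ℕ) = (a : ℕ) * (m₁ : ℕ) * (m₂ : ℕ) - ((l : ℤ) : ℝ) := by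
    have h := congrArg (fun t : ℤ => (t : ℝ)) hn₂
    push_cast at h
    exact h
  set A : ℝ := (a : ℕ) * (m₁ : ℕ) * (m₂ : ℕ) with hAdef
  have hA : 0 < A := by positivity
  set η : ℝ := ((l : ℤ) : ℝ) / A with hηdef
  have hηabs : |η| = |((l : ℤ) : ℝ)| / A := by rw [hηdef, abs_div, abs_of_pos hA]
  have hη0 : 0 < |η| := by rw [hηabs]; positivity
  have hη : |η| ≤ 1 / 2 := by
    rw [hηabs, div_le_iff₀ hA]
    linarith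
  have h1η : (0 : ℝ) < 1 - η := by have := (abs_le.1 hη).2; linarith
  have h1η' : 1 - η ≤ 3 / 2 := by have := (abs_le.1 hη).1; linarith
  have hBA : ((b : ℕ) : ℝ) * (n : ℕ) * (n₂ : ℕ) = A * (1 - η) := by
    rw [hB, hηdef]
    field_simp
  set x : ℝ := A / ((b : ℕ) * (n : ℕ)) with hxdef
  have hx : 0 < x := by positivity
  have hn2x : ((n₂ : ℕ) : ℝ) = x * (1 - η) := by
    rw [hxdef, div_mul_eq_mul_div, eq_div_iff (by positivity)]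
    linarith
  set L : ℝ := Real.log (1 - η) with hLdef
  have hlogn2 : Real.log (n₂ : ℕ) = Real.log x + L := by
    rw [hn2x, Real.log_mul hx.ne' h1η.ne']
  -- the rewriting of `T4`
  have eT : T4 e φ₁ φ₂ K a b ((m₁, m₂), (n, n₂)) =
      (((m₁ : ℕ) : ℂ) ^ (-(e 0)) * ((m₂ : ℕ) : ℂ) ^ (-(e 1)) * (((n : ℕ) : ℂ) ^ (-(e 2)) *
        (x : ℂ) ^ (-(e 3))) * φ₁ (Real.log (m₁ : ℕ) - Real.log (m₂ : ℕ))) *
      (cexp (-(e 3 * (L : ℝ))) * φ₂ ((Real.log (n : ℕ) - Real.log x) - L) * K (-L)) := by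
    unfold T4
    simp only
    have f1 : Real.log (n : ℕ) - Real.log (n₂ : ℕ) = (Real.log (n : ℕ) - Real.log x) - L := by
      rw [hlogn2]
      ring
    have f2 : Real.log ((a : ℕ) * (m₁ : ℕ) * (m₂ : ℕ) : ℕ) -
        Real.log ((b : ℕ) * (n : ℕ) * (n₂ : ℕ) : ℕ) = -L := by
      have g1 : (((a : ℕ) * (m₁ : ℕ) * (m₂ : ℕ) : ℕ) : ℝ) = A := by
        rw [hAdef]; push_cast; ring
      have g2 : (((b : ℕ) * (n : ℕ) * (n₂ : ℕ) : ℕ) : ℝ) = A * (1 - η) := by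
        rw [← hBA]; push_cast; ring
      rw [g1, g2, Real.log_mul hA.ne' h1η.ne']
      ring
    have f3 : ((n₂ : ℕ) : ℂ) ^ (-(e 3)) = (x : ℂ) ^ (-(e 3)) * cexp (-(e 3 * (L : ℝ))) := by
      have g3 : ((n₂ : ℕ) : ℂ) = (x : ℂ) * ((1 - η : ℝ) : ℂ) := by
        rw [← Complex.ofReal_mul, ← hn2x]
        norm_cast
      rw [g3, Complex.mul_cpow_ofReal_nonneg hx.le h1η.le]
      congr 1
      rw [Complex.cpow_def_of_ne_zero (by exact_mod_cast h1η.ne'), ← Complex.ofReal_log h1η.le]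
      congr 1
      ring
    rw [f1, f2, f3]
    ring
  have eW : Wf e φ₁ φ₂ K a b n l (m₁ : ℕ) (m₂ : ℕ) =
      (((m₁ : ℕ) : ℂ) ^ (-(e 0)) * ((m₂ : ℕ) : ℂ) ^ (-(e 1)) * (((n : ℕ) : ℂ) ^ (-(e 2)) *
        (x : ℂ) ^ (-(e 3))) * φ₁ (Real.log (m₁ : ℕ) - Real.log (m₂ : ℕ))) *
      (φ₂ (Real.log (n : ℕ) - Real.log x) * K η) := by
    unfold Wf
    rw [← hAdef, ← hxdef, ← hηdef, Complex.ofReal_natCast, Complex.ofReal_natCast]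
    ring
  rw [eT, eW, ← mul_sub, norm_mul]
  have hcore := near_core hU hΔ.le h2 hK (ε := e 3) (abs_le.2 ⟨by linarith [hb3.1],
    by linarith [hb3.2]⟩) hη (Real.log (n : ℕ) - Real.log x)
  rw [← hLdef] at hcore
  have hsf := small_fac hU hΔ hΔU hη0
  rw [sq_abs] at hsf
  -- the front factor
  have hfront : ‖((m₁ : ℕ) : ℂ) ^ (-(e 0)) * ((m₂ : ℕ) : ℂ) ^ (-(e 1)) *
      (((n : ℕ) : ℂ) ^ (-(e 2)) * (x : ℂ) ^ (-(e 3))) *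
      φ₁ (Real.log (m₁ : ℕ) - Real.log (m₂ : ℕ))‖ ≤
      2 * ((b : ℕ) : ℝ) ^ 3 * (((m₁ : ℕ) : ℝ) ^ (-(249 / 50) : ℝ) *
        ((m₂ : ℕ) : ℝ) ^ (-(249 / 50) : ℝ)) := by
    rw [norm_mul, norm_mul, norm_mul, norm_mul, norm_pn, norm_pn, norm_pn,
      Complex.norm_cpow_eq_rpow_re_of_pos hx, Complex.neg_re]
    have hx23 : 2 / 3 ≤ x := by
      have h3 := pn_one n₂
      rw [hn2x] at h3
      by_contra hc
      push Not at hc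
      nlinarith
    have g1 : x ^ (-(e 3).re) ≤ 2 * x ^ (-(249 / 100) : ℝ) := by
      rcases le_or_gt 1 x with h3 | h3
      · have h4 : x ^ (-(e 3).re) ≤ x ^ (-(249 / 100) : ℝ) :=
          Real.rpow_le_rpow_of_exponent_le h3 (by linarith [hb3.1])
        have h5 : 0 ≤ x ^ (-(249 / 100) : ℝ) := by positivity
        linarith
      · have h4 : x ^ (-(e 3).re) = x ^ (-(249 / 100) : ℝ) * x ^ (249 / 100 - (e 3).re) := by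
          rw [← Real.rpow_add hx]
          congr 1
          ring
        have h5 : x ^ (249 / 100 - (e 3).re) ≤ 2 := by
          calc x ^ (249 / 100 - (e 3).re) ≤ x ^ (-1 : ℝ) :=
                Real.rpow_le_rpow_of_exponent_ge hx h3.le (by linarith [hb3.2])
            _ = x⁻¹ := Real.rpow_neg_one x
            _ ≤ (2 / 3)⁻¹ := inv_anti₀ (by norm_num) hx23
            _ ≤ 2 := by norm_num
        rw [h4]
        have h6 : 0 ≤ x ^ (-(249 / 100) : ℝ) := by positivity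
        nlinarith
    have g2 : ((n : ℕ) : ℝ) ^ (-(e 2).re) ≤ ((n : ℕ) : ℝ) ^ (-(249 / 100) : ℝ) :=
      pn_mono n (by linarith)
    have g3 : ((m₁ : ℕ) : ℝ) ^ (-(e 0).re) ≤ ((m₁ : ℕ) : ℝ) ^ (-(249 / 100) : ℝ) :=
      pn_mono m₁ (by linarith)
    have g4 : ((m₂ : ℕ) : ℝ) ^ (-(e 1).re) ≤ ((m₂ : ℕ) : ℝ) ^ (-(249 / 100) : ℝ) :=
      pn_mono m₂ (by linarith)
    have g5 : ((n : ℕ) : ℝ) ^ (-(249 / 100) : ℝ) * x ^ (-(249 / 100) : ℝ) ≤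
        ((b : ℕ) : ℝ) ^ 3 * (((m₁ : ℕ) : ℝ) ^ (-(249 / 100) : ℝ) *
          ((m₂ : ℕ) : ℝ) ^ (-(249 / 100) : ℝ)) := by
      have h3 : ((n : ℕ) : ℝ) * x = (a : ℕ) * (m₁ : ℕ) * (m₂ : ℕ) / (b : ℕ) := by
        rw [hxdef, hAdef]
        field_simp
      rw [← Real.mul_rpow hn.le hx.le, h3, Real.div_rpow (by positivity) hb.le,
        Real.mul_rpow (by positivity) hm₂.le, Real.mul_rpow ha.le hm₁.le, div_eq_mul_inv,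
        ← Real.rpow_neg hb.le, neg_neg]
      have h4 : ((a : ℕ) : ℝ) ^ (-(249 / 100) : ℝ) ≤ 1 :=
        Real.rpow_le_one_of_one_le_of_nonpos (pn_one a) (by norm_num)
      have h5 : ((b : ℕ) : ℝ) ^ (249 / 100 : ℝ) ≤ ((b : ℕ) : ℝ) ^ 3 := by
        calc ((b : ℕ) : ℝ) ^ (249 / 100 : ℝ) ≤ ((b : ℕ) : ℝ) ^ ((3 : ℕ) : ℝ) :=
              pn_mono b (by norm_num)
          _ = _ := Real.rpow_natCast _ _
      have h6 : 0 ≤ ((m₁ : ℕ) : ℝ) ^ (-(249 / 100) : ℝ) *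
          ((m₂ : ℕ) : ℝ) ^ (-(249 / 100) : ℝ) := by positivity
      calc ((a : ℕ) : ℝ) ^ (-(249 / 100) : ℝ) * ((m₁ : ℕ) : ℝ) ^ (-(249 / 100) : ℝ) *
            ((m₂ : ℕ) : ℝ) ^ (-(249 / 100) : ℝ) * ((b : ℕ) : ℝ) ^ (249 / 100 : ℝ)
          = (((a : ℕ) : ℝ) ^ (-(249 / 100) : ℝ) * ((b : ℕ) : ℝ) ^ (249 / 100 : ℝ)) *
            (((m₁ : ℕ) : ℝ) ^ (-(249 / 100) : ℝ) * ((m₂ : ℕ) : ℝ) ^ (-(249 / 100) : ℝ)) := by
            ring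
        _ ≤ (1 * ((b : ℕ) : ℝ) ^ 3) *
            (((m₁ : ℕ) : ℝ) ^ (-(249 / 100) : ℝ) * ((m₂ : ℕ) : ℝ) ^ (-(249 / 100) : ℝ)) := by
            refine mul_le_mul_of_nonneg_right ?_ h6
            exact mul_le_mul h4 h5 (by positivity) zero_le_one
        _ = _ := by ring
    have g6 : ((m₁ : ℕ) : ℝ) ^ (-(249 / 100) : ℝ) * ((m₁ : ℕ) : ℝ) ^ (-(249 / 100) : ℝ) =
        ((m₁ : ℕ) : ℝ) ^ (-(249 / 50) : ℝ) := by
      rw [← Real.rpow_add hm₁]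
      norm_num
    have g7 : ((m₂ : ℕ) : ℝ) ^ (-(249 / 100) : ℝ) * ((m₂ : ℕ) : ℝ) ^ (-(249 / 100) : ℝ) =
        ((m₂ : ℕ) : ℝ) ^ (-(249 / 50) : ℝ) := by
      rw [← Real.rpow_add hm₂]
      norm_num
    calc ((m₁ : ℕ) : ℝ) ^ (-(e 0).re) * ((m₂ : ℕ) : ℝ) ^ (-(e 1).re) *
          (((n : ℕ) : ℝ) ^ (-(e 2).re) * x ^ (-(e 3).re)) *
          ‖φ₁ (Real.log (m₁ : ℕ) - Real.log (m₂ : ℕ))‖
        ≤ (((m₁ : ℕ) : ℝ) ^ (-(249 / 100) : ℝ) * ((m₂ : ℕ) : ℝ) ^ (-(249 / 100) : ℝ)) *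
          (((n : ℕ) : ℝ) ^ (-(249 / 100) : ℝ) * (2 * x ^ (-(249 / 100) : ℝ))) * 1 := by
          refine mul_le_mul ?_ (phi_le_one h1 _) (norm_nonneg _) (by positivity)
          refine mul_le_mul ?_ ?_ (by positivity) (by positivity)
          · exact mul_le_mul g3 g4 (by positivity) (by positivity)
          · exact mul_le_mul g2 g1 (by positivity) (by positivity)
      _ = 2 * (((m₁ : ℕ) : ℝ) ^ (-(249 / 100) : ℝ) * ((m₂ : ℕ) : ℝ) ^ (-(249 / 100) : ℝ)) *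
          (((n : ℕ) : ℝ) ^ (-(249 / 100) : ℝ) * x ^ (-(249 / 100) : ℝ)) := by ring
      _ ≤ 2 * (((m₁ : ℕ) : ℝ) ^ (-(249 / 100) : ℝ) * ((m₂ : ℕ) : ℝ) ^ (-(249 / 100) : ℝ)) *
          (((b : ℕ) : ℝ) ^ 3 * (((m₁ : ℕ) : ℝ) ^ (-(249 / 100) : ℝ) *
          ((m₂ : ℕ) : ℝ) ^ (-(249 / 100) : ℝ))) :=
          mul_le_mul_of_nonneg_left g5 (by positivity)
      _ = 2 * ((b : ℕ) : ℝ) ^ 3 *
          ((((m₁ : ℕ) : ℝ) ^ (-(249 / 100) : ℝ) * ((m₁ : ℕ) : ℝ) ^ (-(249 / 100) : ℝ)) *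
          (((m₂ : ℕ) : ℝ) ^ (-(249 / 100) : ℝ) * ((m₂ : ℕ) : ℝ) ^ (-(249 / 100) : ℝ))) := by
          ring
      _ = _ := by rw [g6, g7]
  -- the power of `η`
  have hpow : |η| ^ (-(19 / 5) : ℝ) = ll (19 / 5) l * (((a : ℕ) : ℝ) ^ (19 / 5 : ℝ) *
      ((m₁ : ℕ) : ℝ) ^ (19 / 5 : ℝ) * ((m₂ : ℕ) : ℝ) ^ (19 / 5 : ℝ)) := by
    rw [hηabs, Real.div_rpow hl.le hA.le, div_eq_mul_inv, ← Real.rpow_neg hA.le, neg_neg, hAdef,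
      Real.mul_rpow (by positivity) hm₂.le, Real.mul_rpow ha.le hm₁.le]
    rfl
  have k1 : ((m₁ : ℕ) : ℝ) ^ (-(249 / 50) : ℝ) * ((m₁ : ℕ) : ℝ) ^ (19 / 5 : ℝ) =
      pp (59 / 50) m₁ := by
    rw [← Real.rpow_add hm₁, pp]
    norm_num
  have k2 : ((m₂ : ℕ) : ℝ) ^ (-(249 / 50) : ℝ) * ((m₂ : ℕ) : ℝ) ^ (19 / 5 : ℝ) =
      pp (59 / 50) m₂ := by
    rw [← Real.rpow_add hm₂, pp]
    norm_num
  have k3 : ((a : ℕ) : ℝ) ^ (19 / 5 : ℝ) ≤ ((a : ℕ) : ℝ) ^ 4 := by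
    calc ((a : ℕ) : ℝ) ^ (19 / 5 : ℝ) ≤ ((a : ℕ) : ℝ) ^ ((4 : ℕ) : ℝ) :=
          pn_mono a (by norm_num)
      _ = _ := Real.rpow_natCast _ _
  have hll := ll_nonneg (19 / 5) l
  have hp1 := pp_nonneg (59 / 50) m₁
  have hp2 := pp_nonneg (59 / 50) m₂
  have hε : 0 ≤ 1 + ‖e 3‖ := by positivity
  calc ‖((m₁ : ℕ) : ℂ) ^ (-(e 0)) * ((m₂ : ℕ) : ℂ) ^ (-(e 1)) *
        (((n : ℕ) : ℂ) ^ (-(e 2)) * (x : ℂ) ^ (-(e 3))) *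
        φ₁ (Real.log (m₁ : ℕ) - Real.log (m₂ : ℕ))‖ *
        ‖cexp (-(e 3 * (L : ℝ))) * φ₂ ((Real.log (n : ℕ) - Real.log x) - L) * K (-L) -
          φ₂ (Real.log (n : ℕ) - Real.log x) * K η‖
      ≤ (2 * ((b : ℕ) : ℝ) ^ 3 * (((m₁ : ℕ) : ℝ) ^ (-(249 / 50) : ℝ) *
        ((m₂ : ℕ) : ℝ) ^ (-(249 / 50) : ℝ))) *
        (50 * (1 + ‖e 3‖) * ((|η| + U * η ^ 2) * ((1 + Δ * (|η| / 2)) ^ 8)⁻¹)) := by
        refine mul_le_mul hfront ?_ (norm_nonneg _) (by positivity)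
        rw [← mul_assoc]
        exact hcore
    _ ≤ (2 * ((b : ℕ) : ℝ) ^ 3 * (((m₁ : ℕ) : ℝ) ^ (-(249 / 50) : ℝ) *
        ((m₂ : ℕ) : ℝ) ^ (-(249 / 50) : ℝ))) *
        (50 * (1 + ‖e 3‖) * (96 * (U * Δ ^ (-(29 / 5) : ℝ)) * |η| ^ (-(19 / 5) : ℝ))) := by
        refine mul_le_mul_of_nonneg_left ?_ (by positivity)
        exact mul_le_mul_of_nonneg_left hsf (by positivity)
    _ = (9600 * (1 + ‖e 3‖) * ((b : ℕ) : ℝ) ^ 3 * (U * Δ ^ (-(29 / 5) : ℝ)) *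
        (((((m₁ : ℕ) : ℝ) ^ (-(249 / 50) : ℝ) * ((m₁ : ℕ) : ℝ) ^ (19 / 5 : ℝ)) *
        (((m₂ : ℕ) : ℝ) ^ (-(249 / 50) : ℝ) * ((m₂ : ℕ) : ℝ) ^ (19 / 5 : ℝ))) *
          ll (19 / 5) l)) * ((a : ℕ) : ℝ) ^ (19 / 5 : ℝ) := by
        rw [hpow]
        ring
    _ = (9600 * (1 + ‖e 3‖) * ((b : ℕ) : ℝ) ^ 3 * (U * Δ ^ (-(29 / 5) : ℝ)) *
        ((pp (59 / 50) m₁ * pp (59 / 50) m₂) * ll (19 / 5) l)) *
          ((a : ℕ) : ℝ) ^ (19 / 5 : ℝ) := by rw [k1, k2]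
    _ ≤ (9600 * (1 + ‖e 3‖) * ((b : ℕ) : ℝ) ^ 3 * (U * Δ ^ (-(29 / 5) : ℝ)) *
        ((pp (59 / 50) m₁ * pp (59 / 50) m₂) * ll (19 / 5) l)) * ((a : ℕ) : ℝ) ^ 4 :=
        mul_le_mul_of_nonneg_left k3 (by positivity)
    _ = _ := by ring

/-! ### the sum over the near range -/

open Classical in
noncomputable def QZ (a b : ℕ+) (z : (ℕ+ × {l : ℤ // l ≠ 0}) × (ℕ+ × ℕ+)) : ℝ :=
  if ((b * z.1.1 : ℕ) : ℤ) ∣ ((a : ℕ) : ℤ) * (z.2.1 : ℕ) * (z.2.2 : ℕ) - z.1.2.1 ∧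
    2 * |((z.1.2 : ℤ) : ℝ)| ≤ ((a : ℕ) * (z.2.1 : ℕ) * (z.2.2 : ℕ) : ℝ) then
    (pp (59 / 50) z.2.1 * pp (59 / 50) z.2.2) * ll (19 / 5) z.1.2 else 0

theorem QZ_nonneg (a b : ℕ+) (z : (ℕ+ × {l : ℤ // l ≠ 0}) × (ℕ+ × ℕ+)) : 0 ≤ QZ a b z := by
  unfold QZ
  split_ifs
  · exact mul_nonneg (mul_nonneg (pp_nonneg _ _) (pp_nonneg _ _)) (ll_nonneg _ _)
  · exact le_rfl

theorem inner_bd {Cd : ℝ} (hCd : 1 ≤ Cd)
    (hd : ∀ n : ℕ, n ≠ 0 → (n.divisors.card : ℝ) ≤ Cd * (n : ℝ) ^ (1 / 20 : ℝ))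
    (a b : ℕ+) (l : {l : ℤ // l ≠ 0}) (m : ℕ+ × ℕ+) :
    ∑' n : ℕ+, ENNReal.ofReal (QZ a b ((n, l), m)) ≤
      ENNReal.ofReal (2 * Cd * (a : ℕ) * ((pp (113 / 100) m.1 * pp (113 / 100) m.2) *
        ll (19 / 5) l)) := by
  classical
  by_cases hA : 2 * |((l : ℤ) : ℝ)| ≤ ((a : ℕ) * (m.1 : ℕ) * (m.2 : ℕ) : ℝ)
  swap
  · have h0 : ∀ n : ℕ+, ENNReal.ofReal (QZ a b ((n, l), m)) = 0 := by
      intro n
      unfold QZ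
      rw [if_neg (fun h => hA h.2), ENNReal.ofReal_zero]
    simp [h0]
  have ha := pn_pos a
  have hm₁ := pn_pos m.1
  have hm₂ := pn_pos m.2
  set w : ℝ := (pp (59 / 50) m.1 * pp (59 / 50) m.2) * ll (19 / 5) l with hw
  have hw0 : 0 ≤ w := mul_nonneg (mul_nonneg (pp_nonneg _ _) (pp_nonneg _ _)) (ll_nonneg _ _)
  set D : ℤ := ((a : ℕ) : ℤ) * (m.1 : ℕ) * (m.2 : ℕ) - l with hD
  have hl1 := lone l
  have hDr : (D : ℝ) = ((a : ℕ) * (m.1 : ℕ) * (m.2 : ℕ) : ℝ) - ((l : ℤ) : ℝ) := by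
    rw [hD]
    push_cast
    ring
  have hDpos : 0 < D := by
    have : (0 : ℝ) < (D : ℝ) := by
      rw [hDr]
      have := le_abs_self ((l : ℤ) : ℝ)
      linarith
    exact_mod_cast this
  obtain ⟨N, hN⟩ : ∃ N : ℕ, (N : ℤ) = D := ⟨D.toNat, Int.toNat_of_nonneg hDpos.le⟩
  have hN0 : N ≠ 0 := by
    intro h
    rw [h] at hN
    simp only [Nat.cast_zero] at hN
    omega
  have hNr : (N : ℝ) ≤ 2 * ((a : ℕ) * (m.1 : ℕ) * (m.2 : ℕ) : ℝ) := by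
    have h1 : (N : ℝ) = (D : ℝ) := by exact_mod_cast congrArg (fun t : ℤ => (t : ℝ)) hN
    rw [h1, hDr]
    have := neg_abs_le ((l : ℤ) : ℝ)
    linarith
  have h1 : ∀ n : ℕ+, ENNReal.ofReal (QZ a b ((n, l), m)) ≤
      (fun k : ℕ => if k ∈ N.divisors then ENNReal.ofReal w else 0) (n : ℕ) := by
    intro n
    unfold QZ
    simp only
    split_ifs with h2 h3 h3
    · exact le_rfl
    · exfalso
      apply h3
      rw [Nat.mem_divisors]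
      refine ⟨?_, hN0⟩
      have h4 : (((b : ℕ) * (n : ℕ) : ℕ) : ℤ) ∣ (N : ℤ) := by
        rw [hN]
        exact h2.1
      have h5 : ((b : ℕ) * (n : ℕ)) ∣ N := by exact_mod_cast h4
      exact (Dvd.intro_left _ rfl).trans h5
    · rw [ENNReal.ofReal_zero]
      exact zero_le
    · rw [ENNReal.ofReal_zero]
  calc ∑' n : ℕ+, ENNReal.ofReal (QZ a b ((n, l), m))
      ≤ ∑' n : ℕ+, (fun k : ℕ => if k ∈ N.divisors then ENNReal.ofReal w else 0) (n : ℕ) :=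
        ENNReal.tsum_le_tsum h1
    _ ≤ ∑' k : ℕ, (if k ∈ N.divisors then ENNReal.ofReal w else 0) :=
        ENNReal.tsum_comp_le_tsum_of_injective PNat.coe_injective _
    _ = ∑ k ∈ N.divisors, ENNReal.ofReal w := by
        rw [tsum_eq_sum (s := N.divisors) (fun k hk => if_neg hk)]
        exact Finset.sum_congr rfl fun k hk => if_pos hk
    _ = ENNReal.ofReal ((N.divisors.card : ℝ) * w) := by
        have h9 : ENNReal.ofReal ((N.divisors.card : ℝ) * w) =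
            ENNReal.ofReal (N.divisors.card : ℝ) * ENNReal.ofReal w :=
          ENNReal.ofReal_mul (Nat.cast_nonneg _)
        rw [h9, ENNReal.ofReal_natCast, Finset.sum_const, nsmul_eq_mul]
    _ ≤ _ := by
        refine ENNReal.ofReal_le_ofReal ?_
        have h2 := hd N hN0
        have h3 : (N : ℝ) ^ (1 / 20 : ℝ) ≤ 2 * (a : ℕ) * (((m.1 : ℕ) : ℝ) ^ (1 / 20 : ℝ) *
            ((m.2 : ℕ) : ℝ) ^ (1 / 20 : ℝ)) := by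
          have h4 : (N : ℝ) ^ (1 / 20 : ℝ) ≤
              (2 * ((a : ℕ) * (m.1 : ℕ) * (m.2 : ℕ) : ℝ)) ^ (1 / 20 : ℝ) :=
            Real.rpow_le_rpow (by positivity) hNr (by norm_num)
          have h5 : (2 * ((a : ℕ) * (m.1 : ℕ) * (m.2 : ℕ) : ℝ)) ^ (1 / 20 : ℝ) =
              (2 * (a : ℕ) : ℝ) ^ (1 / 20 : ℝ) * (((m.1 : ℕ) : ℝ) ^ (1 / 20 : ℝ) *
              ((m.2 : ℕ) : ℝ) ^ (1 / 20 : ℝ)) := by
            rw [← Real.mul_rpow hm₁.le hm₂.le, ← Real.mul_rpow (by positivity) (by positivity)]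
            congr 1
            ring
          have h6 : (2 * (a : ℕ) : ℝ) ^ (1 / 20 : ℝ) ≤ 2 * (a : ℕ) := by
            have h7 : (1 : ℝ) ≤ 2 * (a : ℕ) := by have := pn_one a; linarith
            calc (2 * (a : ℕ) : ℝ) ^ (1 / 20 : ℝ) ≤ (2 * (a : ℕ) : ℝ) ^ (1 : ℝ) :=
                  Real.rpow_le_rpow_of_exponent_le h7 (by norm_num)
              _ = _ := Real.rpow_one _
          rw [h5] at h4
          exact h4.trans (mul_le_mul_of_nonneg_right h6 (by positivity))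
        have k1 : ((m.1 : ℕ) : ℝ) ^ (1 / 20 : ℝ) * pp (59 / 50) m.1 = pp (113 / 100) m.1 := by
          rw [pp, pp, ← Real.rpow_add hm₁]
          norm_num
        have k2 : ((m.2 : ℕ) : ℝ) ^ (1 / 20 : ℝ) * pp (59 / 50) m.2 = pp (113 / 100) m.2 := by
          rw [pp, pp, ← Real.rpow_add hm₂]
          norm_num
        calc (N.divisors.card : ℝ) * w ≤ (Cd * (N : ℝ) ^ (1 / 20 : ℝ)) * w :=
              mul_le_mul_of_nonneg_right h2 hw0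
          _ ≤ (Cd * (2 * (a : ℕ) * (((m.1 : ℕ) : ℝ) ^ (1 / 20 : ℝ) *
            ((m.2 : ℕ) : ℝ) ^ (1 / 20 : ℝ)))) * w := by
              refine mul_le_mul_of_nonneg_right ?_ hw0
              exact mul_le_mul_of_nonneg_left h3 (by linarith)
          _ = 2 * Cd * (a : ℕ) * (((((m.1 : ℕ) : ℝ) ^ (1 / 20 : ℝ) * pp (59 / 50) m.1) *
              (((m.2 : ℕ) : ℝ) ^ (1 / 20 : ℝ) * pp (59 / 50) m.2)) * ll (19 / 5) l) := by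
              rw [hw]
              ring
          _ = _ := by rw [k1, k2]

theorem Qsum : ∃ C : ℝ, 0 < C ∧ ∀ a b : ℕ+, Summable (QZ a b) ∧
    ∑' z, QZ a b z ≤ C * (a : ℕ) := by
  obtain ⟨Cd, hCd, hd⟩ := Pool.Agent.Lib.P5632c9.card_divisors_le (1 / 20) (by norm_num)
  have sG : Summable fun m : ℕ+ × ℕ+ => pp (113 / 100) m.1 * pp (113 / 100) m.2 :=
    (pp_summable (by norm_num)).mul_of_nonneg (pp_summable (by norm_num)) (pp_nonneg _)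
      (pp_nonneg _)
  have sH : Summable (ll (19 / 5)) := ll_summable (by norm_num)
  have G0 : ∀ m : ℕ+ × ℕ+, 0 ≤ pp (113 / 100) m.1 * pp (113 / 100) m.2 := fun m =>
    mul_nonneg (pp_nonneg _ _) (pp_nonneg _ _)
  set SG := ∑' m : ℕ+ × ℕ+, pp (113 / 100) m.1 * pp (113 / 100) m.2 with hSG
  set SH := ∑' l, ll (19 / 5) l with hSH
  have SG0 : 0 ≤ SG := tsum_nonneg G0
  have SH0 : 0 ≤ SH := tsum_nonneg (ll_nonneg _)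
  refine ⟨2 * Cd * (SG * SH) + 1, by positivity, fun a b => ?_⟩
  have ha := pn_pos a
  have key : ∑' z, ENNReal.ofReal (QZ a b z) ≤
      ENNReal.ofReal (2 * Cd * (a : ℕ) * (SG * SH)) := by
    calc ∑' z, ENNReal.ofReal (QZ a b z)
        = ∑' p : ℕ+ × {l : ℤ // l ≠ 0}, ∑' m : ℕ+ × ℕ+, ENNReal.ofReal (QZ a b (p, m)) :=
          ENNReal.tsum_prod'
      _ = ∑' n : ℕ+, ∑' l : {l : ℤ // l ≠ 0}, ∑' m : ℕ+ × ℕ+,
            ENNReal.ofReal (QZ a b ((n, l), m)) := ENNReal.tsum_prod'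
      _ = ∑' l : {l : ℤ // l ≠ 0}, ∑' n : ℕ+, ∑' m : ℕ+ × ℕ+,
            ENNReal.ofReal (QZ a b ((n, l), m)) := ENNReal.tsum_comm
      _ = ∑' l : {l : ℤ // l ≠ 0}, ∑' m : ℕ+ × ℕ+, ∑' n : ℕ+,
            ENNReal.ofReal (QZ a b ((n, l), m)) := tsum_congr fun l => ENNReal.tsum_comm
      _ ≤ ∑' l : {l : ℤ // l ≠ 0}, ∑' m : ℕ+ × ℕ+,
            ENNReal.ofReal (2 * Cd * (a : ℕ) * ((pp (113 / 100) m.1 * pp (113 / 100) m.2) *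
              ll (19 / 5) l)) :=
          ENNReal.tsum_le_tsum fun l => ENNReal.tsum_le_tsum fun m => inner_bd hCd hd a b l m
      _ = ENNReal.ofReal (2 * Cd * (a : ℕ) * (SG * SH)) := by
          have h1 : ∀ (l : {l : ℤ // l ≠ 0}) (m : ℕ+ × ℕ+),
              ENNReal.ofReal (2 * Cd * (a : ℕ) * ((pp (113 / 100) m.1 * pp (113 / 100) m.2) *
                ll (19 / 5) l)) = ENNReal.ofReal (2 * Cd * (a : ℕ)) *
                ENNReal.ofReal (pp (113 / 100) m.1 * pp (113 / 100) m.2) *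
                ENNReal.ofReal (ll (19 / 5) l) := by
            intro l m
            rw [ENNReal.ofReal_mul (by positivity), ENNReal.ofReal_mul (G0 m)]
            ring
          simp_rw [h1, ENNReal.tsum_mul_right, ENNReal.tsum_mul_left]
          rw [← ENNReal.ofReal_tsum_of_nonneg G0 sG,
            ← ENNReal.ofReal_tsum_of_nonneg (ll_nonneg _) sH, mul_assoc,
            ← ENNReal.ofReal_mul SG0, ← ENNReal.ofReal_mul (by positivity)]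
  have hsum : Summable (QZ a b) := by
    have h1 : ∑' z, ENNReal.ofReal (QZ a b z) ≠ ⊤ := ne_top_of_le_ne_top ENNReal.ofReal_ne_top key
    have h2 := ENNReal.summable_toReal h1
    exact h2.congr fun z => ENNReal.toReal_ofReal (QZ_nonneg a b z)
  refine ⟨hsum, ?_⟩
  rw [← ENNReal.ofReal_tsum_of_nonneg (QZ_nonneg a b) hsum,
    ENNReal.ofReal_le_ofReal_iff (by positivity)] at key
  have h3 : (0 : ℝ) ≤ (a : ℕ) := by positivity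
  nlinarith

end NearAux

namespace NearAux

/-! ### the bijection -/

/-- `A - l = b n n₂` for a positive `n₂` -/
def EZ (a b : ℕ+) (z : (ℕ+ × {l : ℤ // l ≠ 0}) × (ℕ+ × ℕ+)) : Prop :=
  ∃ n₂ : ℕ+, ((b * z.1.1 * n₂ : ℕ) : ℤ) =
    ((a : ℕ) : ℤ) * (z.2.1 : ℕ) * (z.2.2 : ℕ) - z.1.2.1

open Classical in
noncomputable def TZ (e : Fin 4 → ℂ) (φ₁ φ₂ K : ℝ → ℂ) (a b : ℕ+)
    (z : (ℕ+ × {l : ℤ // l ≠ 0}) × (ℕ+ × ℕ+)) : ℂ :=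
  if h : EZ a b z then T4 e φ₁ φ₂ K a b (z.2, (z.1.1, h.choose)) else 0

theorem n2_unique {b n x y : ℕ+} (h : ((b * n * x : ℕ) : ℤ) = ((b * n * y : ℕ) : ℤ)) : x = y := by
  have h1 : ((b : ℕ) * n) * x = ((b : ℕ) * n) * y := by exact_mod_cast h
  have h2 : 0 < (b : ℕ) * n := Nat.mul_pos b.pos n.pos
  exact PNat.coe_injective (Nat.eq_of_mul_eq_mul_left h2 h1)

theorem TZ_eq {e : Fin 4 → ℂ} {φ₁ φ₂ K : ℝ → ℂ} {a b : ℕ+}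
    {z : (ℕ+ × {l : ℤ // l ≠ 0}) × (ℕ+ × ℕ+)} {n₂ : ℕ+}
    (h : ((b * z.1.1 * n₂ : ℕ) : ℤ) = ((a : ℕ) : ℤ) * (z.2.1 : ℕ) * (z.2.2 : ℕ) - z.1.2.1) :
    TZ e φ₁ φ₂ K a b z = T4 e φ₁ φ₂ K a b (z.2, (z.1.1, n₂)) := by
  have hE : EZ a b z := ⟨n₂, h⟩
  unfold TZ
  rw [dif_pos hE]
  have h1 : hE.choose = n₂ := n2_unique (hE.choose_spec.trans h.symm)
  rw [h1]

theorem SOD_eq (e : Fin 4 → ℂ) (φ₁ φ₂ K : ℝ → ℂ) (a b : ℕ+) :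
    SOD e φ₁ φ₂ K a b = ∑' z, TZ e φ₁ φ₂ K a b z := by
  classical
  set S : Set ((ℕ+ × ℕ+) × (ℕ+ × ℕ+)) := {q | a * q.1.1 * q.1.2 ≠ b * q.2.1 * q.2.2} with hS
  have hne : ∀ q : S, ((a : ℕ) : ℤ) * (q.1.1.1 : ℕ) * (q.1.1.2 : ℕ) -
      ((b * q.1.2.1 * q.1.2.2 : ℕ) : ℤ) ≠ 0 := by
    intro q h
    apply q.2
    have h1 : (a * q.1.1.1 * q.1.1.2 : ℕ) = (b * q.1.2.1 * q.1.2.2 : ℕ) := by
      have h2 := sub_eq_zero.1 h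
      exact_mod_cast h2
    apply PNat.coe_injective
    push_cast
    exact h1
  set ι : S → (ℕ+ × {l : ℤ // l ≠ 0}) × (ℕ+ × ℕ+) := fun q =>
    ((q.1.2.1, ⟨_, hne q⟩), q.1.1) with hιdef
  have hι : Function.Injective ι := by
    rintro ⟨⟨m, n₁, n₂⟩, hq⟩ ⟨⟨m', n₁', n₂'⟩, hq'⟩ h
    simp only [hιdef, Prod.mk.injEq, Subtype.mk.injEq] at h
    obtain ⟨⟨h1, h2⟩, h3⟩ := h
    subst h1 h3
    have h4 : n₂ = n₂' := n2_unique (b := b) (n := n₁) (by linarith)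
    subst h4
    rfl
  have hsupp : Function.support (TZ e φ₁ φ₂ K a b) ⊆ Set.range ι := by
    intro z hz
    by_cases hE : EZ a b z
    · obtain ⟨n₂, hn₂⟩ := hE
      have hq : (z.2, (z.1.1, n₂)) ∈ S := by
        rw [hS, Set.mem_ofPred_eq]
        intro h
        have h1 : ((a * z.2.1 * z.2.2 : ℕ) : ℤ) = ((b * z.1.1 * n₂ : ℕ) : ℤ) := by
          have h2 := congrArg (fun t : ℕ+ => ((t : ℕ) : ℤ)) h
          push_cast at h2 ⊢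
          exact h2
        apply z.1.2.2
        rw [← h1] at hn₂
        push_cast at hn₂
        linarith
      refine ⟨⟨(z.2, (z.1.1, n₂)), hq⟩, ?_⟩
      rw [hιdef]
      refine Prod.ext (Prod.ext rfl (Subtype.ext ?_)) rfl
      simp only
      linarith
    · exfalso
      apply hz
      unfold TZ
      rw [dif_neg hE]
  rw [← hι.tsum_eq hsupp]
  have h1 : ∀ q : S, TZ e φ₁ φ₂ K a b (ι q) = T4 e φ₁ φ₂ K a b q.1 := by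
    intro q
    have h2 := TZ_eq (e := e) (φ₁ := φ₁) (φ₂ := φ₂) (K := K) (a := a) (b := b) (z := ι q)
      (n₂ := q.1.2.2) (by simp only [hιdef]; ring)
    rw [h2]
  rw [tsum_congr h1, tsum_subtype S (fun q => T4 e φ₁ φ₂ K a b q)]
  unfold SOD
  refine tsum_congr fun q => ?_
  by_cases hq : a * q.1.1 * q.1.2 = b * q.2.1 * q.2.2
  · rw [if_pos hq, Set.indicator_of_notMem]
    exact fun h => h hq
  · rw [if_neg hq, Set.indicator_of_mem]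
    exact hq

/-- the terms of the second sum -/
noncomputable def WZ (e : Fin 4 → ℂ) (φ₁ φ₂ K : ℝ → ℂ) (a b : ℕ+)
    (z : (ℕ+ × {l : ℤ // l ≠ 0}) × (ℕ+ × ℕ+)) : ℂ :=
  if ((b * z.1.1 : ℕ) : ℤ) ∣ ((a : ℕ) : ℤ) * (z.2.1 : ℕ) * (z.2.2 : ℕ) - z.1.2.1 then
    Wf e φ₁ φ₂ K a b z.1.1 z.1.2.1 (z.2.1 : ℕ) (z.2.2 : ℕ) else 0

theorem WZ_le {U Δ : ℝ} (hΔ : 0 < Δ) {e : Fin 4 → ℂ} {φ₁ φ₂ K : ℝ → ℂ} (a b : ℕ+)
    (h1 : PhiB φ₁) (h2 : PhiB φ₂) (hK : KerB U Δ K) (hr : ∀ i, |(e i).re - 5 / 2| ≤ 1 / 1000)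
    (z : (ℕ+ × {l : ℤ // l ≠ 0}) × (ℕ+ × ℕ+)) :
    ‖Wf e φ₁ φ₂ K a b z.1.1 z.1.2.1 (z.2.1 : ℕ) (z.2.2 : ℕ)‖ ≤
      Δ ^ (-(6 / 5) : ℝ) * ((a : ℕ) : ℝ) ^ (6 / 5 : ℝ) * PZ z := by
  obtain ⟨⟨n, l⟩, ⟨m₁, m₂⟩⟩ := z
  simp only
  have hb0 := (abs_le.1 (hr 0)).1
  have hb1 := (abs_le.1 (hr 1)).1
  have hb2 := (abs_le.1 (hr 2)).1
  have hb3 := (abs_le.1 (hr 3))
  have hA : (0 : ℝ) < (a : ℕ) * (m₁ : ℕ) * (m₂ : ℕ) := by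
    have := pn_pos a; have := pn_pos m₁; have := pn_pos m₂; positivity
  refine (norm_Wf_le a b n l h1 h2 hK (by linarith [hb3.1]) (by linarith [hb3.2]) m₁ m₂).trans ?_
  set η : ℝ := |((l : ℤ) : ℝ)| / ((a : ℕ) * (m₁ : ℕ) * (m₂ : ℕ)) with hη
  have hη0 : 0 < η := div_pos (lpos l) hA
  have h3 : ((1 + Δ * η) ^ 8)⁻¹ ≤ Δ ^ (-(6 / 5) : ℝ) * η ^ (-(6 / 5) : ℝ) := by
    refine (inv_le_rpow (x := 6 / 5) (mul_pos hΔ hη0) (by norm_num) (by norm_num)).trans ?_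
    rw [Real.mul_rpow hΔ.le hη0.le]
  refine (mul_le_mul_of_nonneg_left h3 (by positivity)).trans ?_
  have h10 := base_le (r0 := (e 0).re) (r1 := (e 1).re) (r2 := (e 2).re) (by linarith)
    (by linarith) (by linarith) a m₁ m₂ n l
  have h11 := mul_le_mul_of_nonneg_left h10 (by positivity : (0 : ℝ) ≤ Δ ^ (-(6 / 5) : ℝ))
  refine le_trans (le_of_eq ?_) (h11.trans (le_of_eq ?_))
  · ring
  · ring

/-- the pointwise bound of the difference -/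
theorem diff_le {U Δ : ℝ} (hU : 0 ≤ U) (hΔ : 0 < Δ) (hΔU : Δ ≤ U) {e : Fin 4 → ℂ}
    {φ₁ φ₂ K : ℝ → ℂ} (a b : ℕ+)
    (h1 : PhiB φ₁) (h2 : PhiB φ₂) (hK : KerB U Δ K) (hr : ∀ i, |(e i).re - 5 / 2| ≤ 1 / 1000)
    (z : (ℕ+ × {l : ℤ // l ≠ 0}) × (ℕ+ × ℕ+)) :
    ‖TZ e φ₁ φ₂ K a b z - WZ e φ₁ φ₂ K a b z‖ ≤
      (3 ^ 8 + 2 ^ 8) * Δ ^ (-8 : ℝ) * (((a : ℕ) : ℝ) ^ (6 / 5 : ℝ) *
        ((b : ℕ) : ℝ) ^ (6 / 5 : ℝ)) * PZ z +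
      9600 * (1 + ‖e 3‖) * (((b : ℕ) : ℝ) ^ 3 * ((a : ℕ) : ℝ) ^ 4) * (U * Δ ^ (-(29 / 5) : ℝ)) *
        QZ a b z := by
  have hPZ := PZ_nonneg z
  have hQZ := QZ_nonneg a b z
  have c1 : 0 ≤ (3 ^ 8 + 2 ^ 8) * Δ ^ (-8 : ℝ) * (((a : ℕ) : ℝ) ^ (6 / 5 : ℝ) *
        ((b : ℕ) : ℝ) ^ (6 / 5 : ℝ)) * PZ z := by positivity
  have c2 : 0 ≤ 9600 * (1 + ‖e 3‖) * (((b : ℕ) : ℝ) ^ 3 * ((a : ℕ) : ℝ) ^ 4) *
      (U * Δ ^ (-(29 / 5) : ℝ)) * QZ a b z := by positivity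
  obtain ⟨⟨n, l⟩, ⟨m₁, m₂⟩⟩ := z
  rcases le_or_gt ((a : ℕ) * (m₁ : ℕ) * (m₂ : ℕ) : ℝ) (2 * |((l : ℤ) : ℝ)|) with hfar | hnear
  · -- far
    have hT : ‖TZ e φ₁ φ₂ K a b ((n, l), (m₁, m₂))‖ ≤ 3 ^ 8 * Δ ^ (-8 : ℝ) *
        (((a : ℕ) : ℝ) ^ (6 / 5 : ℝ) * ((b : ℕ) : ℝ) ^ (6 / 5 : ℝ) *
          PZ ((n, l), (m₁, m₂))) := by
      by_cases hE : EZ a b ((n, l), (m₁, m₂))
      · obtain ⟨n₂, hn₂⟩ := hE
        rw [TZ_eq hn₂]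
        exact far_T hΔ a b h1 h2 hK hr m₁ m₂ n n₂ l hfar hn₂
      · unfold TZ
        rw [dif_neg hE, norm_zero]
        positivity
    have hW : ‖WZ e φ₁ φ₂ K a b ((n, l), (m₁, m₂))‖ ≤ 2 ^ 8 * Δ ^ (-8 : ℝ) *
        (((a : ℕ) : ℝ) ^ (6 / 5 : ℝ) * ((b : ℕ) : ℝ) ^ (6 / 5 : ℝ) *
          PZ ((n, l), (m₁, m₂))) := by
      unfold WZ
      split_ifs with hD
      · refine (far_W hΔ a b h1 h2 hK hr m₁ m₂ n l hfar).trans ?_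
        refine mul_le_mul_of_nonneg_left ?_ (by positivity)
        refine mul_le_mul_of_nonneg_right ?_ hPZ
        exact le_mul_of_one_le_right (by positivity)
          (Real.one_le_rpow (pn_one b) (by norm_num))
      · rw [norm_zero]
        positivity
    refine (norm_sub_le _ _).trans ((add_le_add hT hW).trans ?_)
    refine le_trans (le_of_eq ?_) (le_add_of_nonneg_right c2)
    ring
  · by_cases hD : ((b * n : ℕ) : ℤ) ∣ ((a : ℕ) : ℤ) * (m₁ : ℕ) * (m₂ : ℕ) - l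
    · -- near, with a solution
      obtain ⟨k, hk⟩ := hD
      have hposr : (0 : ℝ) < (a : ℕ) * (m₁ : ℕ) * (m₂ : ℕ) - ((l : ℤ) : ℝ) := by
        have := le_abs_self ((l : ℤ) : ℝ)
        have := lpos l
        linarith
      have hpos : (0 : ℤ) < ((a : ℕ) : ℤ) * (m₁ : ℕ) * (m₂ : ℕ) - l := by
        exact_mod_cast hposr
      have hbn : (0 : ℤ) < ((b * n : ℕ) : ℤ) := by
        have : 0 < (b : ℕ) * n := Nat.mul_pos b.pos n.pos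
        exact_mod_cast this
      have hk0 : 0 < k := by
        rw [hk] at hpos
        exact (pos_iff_pos_of_mul_pos hpos).1 hbn
      obtain ⟨n₂, hn₂⟩ : ∃ n₂ : ℕ+, ((n₂ : ℕ) : ℤ) = k :=
        ⟨⟨k.toNat, by omega⟩, by simp only [PNat.mk_coe]; omega⟩
      have hE : ((b * n * n₂ : ℕ) : ℤ) = ((a : ℕ) : ℤ) * (m₁ : ℕ) * (m₂ : ℕ) - l := by
        rw [hk, ← hn₂]
        push_cast
        ring
      have hQ : QZ a b ((n, l), (m₁, m₂)) =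
          (pp (59 / 50) m₁ * pp (59 / 50) m₂) * ll (19 / 5) l := by
        unfold QZ
        rw [if_pos ⟨⟨k, hk⟩, hnear.le⟩]
      rw [TZ_eq (z := ((n, l), (m₁, m₂))) hE]
      unfold WZ
      rw [if_pos ⟨k, hk⟩]
      rw [hQ] at c2 ⊢
      refine (near_TW hU hΔ hΔU a b h1 h2 hK hr m₁ m₂ n n₂ l hnear.le hE).trans ?_
      exact le_add_of_nonneg_left c1
    · -- no solution
      have hT : TZ e φ₁ φ₂ K a b ((n, l), (m₁, m₂)) = 0 := by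
        unfold TZ
        rw [dif_neg]
        rintro ⟨n₂, hn₂⟩
        apply hD
        refine ⟨((n₂ : ℕ) : ℤ), ?_⟩
        rw [← hn₂]
        push_cast
        ring
      have hW : WZ e φ₁ φ₂ K a b ((n, l), (m₁, m₂)) = 0 := by
        unfold WZ
        rw [if_neg hD]
      rw [hT, hW, sub_zero, norm_zero]
      exact add_nonneg c1 c2

end NearAux

open NearAux

theorem near : ∃ C : ℝ, 0 < C ∧ ∀ (U Δ δ : ℝ) (e : Fin 4 → ℂ) (φ₁ φ₂ K : ℝ → ℂ) (a b : ℕ+), 1 ≤ U → 0 ≤ δ →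
    δ ≤ 1 / 1000 → U ^ (1 - δ) ≤ Δ → Δ ≤ U → (∀ i, |(e i).re - 5 / 2| ≤ δ) → ((a : ℕ) : ℝ) ≤ U ^ δ →
    ((b : ℕ) : ℝ) ≤ U ^ δ → PhiB φ₁ → PhiB φ₂ → KerB U Δ K →
    (Summable fun q : (ℕ+ × ℕ+) × (ℕ+ × ℕ+) => ‖T4 e φ₁ φ₂ K a b q‖) ∧
    (Summable fun z : (ℕ+ × {l : ℤ // l ≠ 0}) × (ℕ+ × ℕ+) =>
      if ((b * z.1.1 : ℕ) : ℤ) ∣ ((a : ℕ) : ℤ) * (z.2.1 : ℕ) * (z.2.2 : ℕ) - z.1.2.1 then
        ‖Wf e φ₁ φ₂ K a b z.1.1 z.1.2.1 (z.2.1 : ℕ) (z.2.2 : ℕ)‖ else 0) ∧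
    ‖SOD e φ₁ φ₂ K a b - ∑' z : ℕ+ × {l : ℤ // l ≠ 0}, ∑' m : ℕ+ × ℕ+,
      (if ((b * z.1 : ℕ) : ℤ) ∣ ((a : ℕ) : ℤ) * (m.1 : ℕ) * (m.2 : ℕ) - z.2.1 then
        Wf e φ₁ φ₂ K a b z.1 z.2.1 (m.1 : ℕ) (m.2 : ℕ) else 0)‖ ≤
      C * (1 + ∑ i, ‖e i‖) * U ^ (-(4 + 1 / 2) : ℝ) := by
  obtain ⟨CQ, hCQ, hQ⟩ := Qsum
  set SP := ∑' z, PZ z with hSP
  have SP0 : 0 ≤ SP := tsum_nonneg PZ_nonneg
  refine ⟨(3 ^ 8 + 2 ^ 8) * SP + 9600 * CQ, by positivity, ?_⟩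
  intro U Δ δ e φ₁ φ₂ K a b hU hδ hδ' hΔ hΔU hr haU hbU h1 h2 hK
  have hU0 : 0 < U := by linarith
  have hΔ0 : 0 < Δ := lt_of_lt_of_le (Real.rpow_pos_of_pos hU0 _) hΔ
  have hr' : ∀ i, |(e i).re - 5 / 2| ≤ 1 / 1000 := fun i => (hr i).trans hδ'
  have hb0 := (abs_le.1 (hr' 0)).1
  have hb1 := (abs_le.1 (hr' 1)).1
  have hb2 := (abs_le.1 (hr' 2)).1
  have hb3 := (abs_le.1 (hr' 3)).1
  have ha := pn_pos a
  have hb := pn_pos b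
  -- (1)
  have part1 : Summable fun q : (ℕ+ × ℕ+) × (ℕ+ × ℕ+) => ‖T4 e φ₁ φ₂ K a b q‖ := by
    have s1 : Summable fun x : ℕ+ × ℕ+ => pp 2 x.1 * pp 2 x.2 :=
      (pp_summable (by norm_num)).mul_of_nonneg (pp_summable (by norm_num)) (pp_nonneg _)
        (pp_nonneg _)
    have s2 : Summable fun q : (ℕ+ × ℕ+) × (ℕ+ × ℕ+) =>
        (pp 2 q.1.1 * pp 2 q.1.2) * (pp 2 q.2.1 * pp 2 q.2.2) :=
      s1.mul_of_nonneg s1 (fun x => mul_nonneg (pp_nonneg _ _) (pp_nonneg _ _))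
        (fun x => mul_nonneg (pp_nonneg _ _) (pp_nonneg _ _))
    refine Summable.of_nonneg_of_le (fun q => norm_nonneg _) (fun q => ?_) s2
    refine (norm_T4_le a b h1 h2 hK q).trans ?_
    have g1 : ((q.1.1 : ℕ) : ℝ) ^ (-(e 0).re) ≤ pp 2 q.1.1 := pn_mono _ (by linarith)
    have g2 : ((q.1.2 : ℕ) : ℝ) ^ (-(e 1).re) ≤ pp 2 q.1.2 := pn_mono _ (by linarith)
    have g3 : ((q.2.1 : ℕ) : ℝ) ^ (-(e 2).re) ≤ pp 2 q.2.1 := pn_mono _ (by linarith)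
    have g4 : ((q.2.2 : ℕ) : ℝ) ^ (-(e 3).re) ≤ pp 2 q.2.2 := pn_mono _ (by linarith)
    have g5 : ((1 + Δ * |Real.log (a * q.1.1 * q.1.2 : ℕ) -
        Real.log (b * q.2.1 * q.2.2 : ℕ)|) ^ 8)⁻¹ ≤ 1 :=
      inv_le_one_of_one_le₀ (one_le_pow₀ (by
        have : 0 ≤ Δ * |Real.log (a * q.1.1 * q.1.2 : ℕ) - Real.log (b * q.2.1 * q.2.2 : ℕ)| := by
          positivity
        linarith))
    refine (mul_le_of_le_one_right (by positivity) g5).trans ?_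
    refine mul_le_mul (mul_le_mul g1 g2 (by positivity) (pp_nonneg _ _))
      (mul_le_mul g3 g4 (by positivity) (pp_nonneg _ _)) (by positivity)
      (mul_nonneg (pp_nonneg _ _) (pp_nonneg _ _))
  -- (2)
  have hWn : ∀ z, ‖WZ e φ₁ φ₂ K a b z‖ ≤
      Δ ^ (-(6 / 5) : ℝ) * ((a : ℕ) : ℝ) ^ (6 / 5 : ℝ) * PZ z := by
    intro z
    have hPZ := PZ_nonneg z
    unfold WZ
    split_ifs
    · exact WZ_le hΔ0 a b h1 h2 hK hr' z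
    · rw [norm_zero]
      positivity
  have sW : Summable fun z => ‖WZ e φ₁ φ₂ K a b z‖ :=
    Summable.of_nonneg_of_le (fun z => norm_nonneg _) hWn (PZ_summable.mul_left _)
  have part2 : Summable fun z : (ℕ+ × {l : ℤ // l ≠ 0}) × (ℕ+ × ℕ+) =>
      if ((b * z.1.1 : ℕ) : ℤ) ∣ ((a : ℕ) : ℤ) * (z.2.1 : ℕ) * (z.2.2 : ℕ) - z.1.2.1 then
        ‖Wf e φ₁ φ₂ K a b z.1.1 z.1.2.1 (z.2.1 : ℕ) (z.2.2 : ℕ)‖ else 0 := by
    refine sW.congr fun z => ?_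
    unfold WZ
    split_ifs
    · rfl
    · exact norm_zero
  refine ⟨part1, part2, ?_⟩
  -- (3)
  obtain ⟨sQ, hQ'⟩ := hQ a b
  set c1 : ℝ := (3 ^ 8 + 2 ^ 8) * Δ ^ (-8 : ℝ) * (((a : ℕ) : ℝ) ^ (6 / 5 : ℝ) *
        ((b : ℕ) : ℝ) ^ (6 / 5 : ℝ)) with hc1
  set c2 : ℝ := 9600 * (1 + ‖e 3‖) * (((b : ℕ) : ℝ) ^ 3 * ((a : ℕ) : ℝ) ^ 4) *
      (U * Δ ^ (-(29 / 5) : ℝ)) with hc2
  have c20 : 0 ≤ c2 := by positivity
  have sdom : Summable fun z => c1 * PZ z + c2 * QZ a b z :=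
    (PZ_summable.mul_left _).add (sQ.mul_left _)
  have hdiff : ∀ z, ‖TZ e φ₁ φ₂ K a b z - WZ e φ₁ φ₂ K a b z‖ ≤ c1 * PZ z + c2 * QZ a b z :=
    fun z => diff_le hU0.le hΔ0 hΔU a b h1 h2 hK hr' z
  have sD : Summable fun z => ‖TZ e φ₁ φ₂ K a b z - WZ e φ₁ φ₂ K a b z‖ :=
    Summable.of_nonneg_of_le (fun z => norm_nonneg _) hdiff sdom
  have sW' : Summable (WZ e φ₁ φ₂ K a b) := sW.of_norm
  have sT : Summable (TZ e φ₁ φ₂ K a b) := by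
    have := sD.of_norm.add sW'
    exact this.congr fun z => by ring
  have hsum : ∑' z : ℕ+ × {l : ℤ // l ≠ 0}, ∑' m : ℕ+ × ℕ+,
      (if ((b * z.1 : ℕ) : ℤ) ∣ ((a : ℕ) : ℤ) * (m.1 : ℕ) * (m.2 : ℕ) - z.2.1 then
        Wf e φ₁ φ₂ K a b z.1 z.2.1 (m.1 : ℕ) (m.2 : ℕ) else 0) =
      ∑' z, WZ e φ₁ φ₂ K a b z := (sW'.tsum_prod).symm
  rw [hsum, SOD_eq, ← sT.tsum_sub sW']
  have hfin : ‖∑' z, (TZ e φ₁ φ₂ K a b z - WZ e φ₁ φ₂ K a b z)‖ ≤ c1 * SP + c2 * (CQ * (a : ℕ)) := by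
    refine (norm_tsum_le_tsum_norm sD).trans ((sD.tsum_le_tsum hdiff sdom).trans ?_)
    rw [(PZ_summable.mul_left _).tsum_add (sQ.mul_left _), tsum_mul_left, tsum_mul_left]
    have := mul_le_mul_of_nonneg_left hQ' c20
    linarith
  refine hfin.trans ?_
  -- powers of `U`
  have hUe : ∀ x : ℝ, x ≤ -(4 + 1 / 2) → U ^ x ≤ U ^ (-(4 + 1 / 2) : ℝ) := fun x hx =>
    Real.rpow_le_rpow_of_exponent_le hU hx
  have hΔp : ∀ x : ℝ, 0 ≤ x → Δ ^ (-x) ≤ U ^ (-(x * (1 - δ))) := by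
    intro x hx
    calc Δ ^ (-x) ≤ (U ^ (1 - δ)) ^ (-x) :=
          Real.rpow_le_rpow_of_nonpos (Real.rpow_pos_of_pos hU0 _) hΔ (by linarith)
      _ = U ^ (-(x * (1 - δ))) := by
          rw [← Real.rpow_mul hU0.le]
          congr 1
          ring
  have hpa : ∀ x : ℝ, 0 ≤ x → ((a : ℕ) : ℝ) ^ x ≤ U ^ (δ * x) := by
    intro x hx
    rw [Real.rpow_mul hU0.le]
    exact Real.rpow_le_rpow ha.le haU hx
  have hpb : ∀ x : ℝ, 0 ≤ x → ((b : ℕ) : ℝ) ^ x ≤ U ^ (δ * x) := by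
    intro x hx
    rw [Real.rpow_mul hU0.le]
    exact Real.rpow_le_rpow hb.le hbU hx
  have t1 : c1 * SP ≤ (3 ^ 8 + 2 ^ 8) * SP * U ^ (-(4 + 1 / 2) : ℝ) := by
    have k1 : Δ ^ (-8 : ℝ) * (((a : ℕ) : ℝ) ^ (6 / 5 : ℝ) * ((b : ℕ) : ℝ) ^ (6 / 5 : ℝ)) ≤
        U ^ (-(4 + 1 / 2) : ℝ) := by
      calc Δ ^ (-8 : ℝ) * (((a : ℕ) : ℝ) ^ (6 / 5 : ℝ) * ((b : ℕ) : ℝ) ^ (6 / 5 : ℝ))
          ≤ U ^ (-(8 * (1 - δ))) * (U ^ (δ * (6 / 5)) * U ^ (δ * (6 / 5))) := by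
            refine mul_le_mul (hΔp 8 (by norm_num)) ?_ (by positivity) (by positivity)
            exact mul_le_mul (hpa _ (by norm_num)) (hpb _ (by norm_num)) (by positivity)
              (by positivity)
        _ = U ^ (-(8 * (1 - δ)) + (δ * (6 / 5) + δ * (6 / 5))) := by
            rw [← Real.rpow_add hU0, ← Real.rpow_add hU0]
        _ ≤ U ^ (-(4 + 1 / 2) : ℝ) := hUe _ (by linarith)
    calc c1 * SP = (3 ^ 8 + 2 ^ 8) * SP * (Δ ^ (-8 : ℝ) * (((a : ℕ) : ℝ) ^ (6 / 5 : ℝ) *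
          ((b : ℕ) : ℝ) ^ (6 / 5 : ℝ))) := by rw [hc1]; ring
      _ ≤ _ := mul_le_mul_of_nonneg_left k1 (by positivity)
  have t2 : c2 * (CQ * (a : ℕ)) ≤ 9600 * CQ * (1 + ‖e 3‖) * U ^ (-(4 + 1 / 2) : ℝ) := by
    have k1 : ((b : ℕ) : ℝ) ^ 3 * ((a : ℕ) : ℝ) ^ 4 * (a : ℕ) * (U * Δ ^ (-(29 / 5) : ℝ)) ≤
        U ^ (-(4 + 1 / 2) : ℝ) := by
      have j1 : ((b : ℕ) : ℝ) ^ 3 ≤ U ^ (δ * 3) := by
        have := hpb ((3 : ℕ) : ℝ) (by norm_num)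
        rw [Real.rpow_natCast] at this
        exact this.trans (le_of_eq (by norm_num))
      have j2 : ((a : ℕ) : ℝ) ^ 4 * (a : ℕ) ≤ U ^ (δ * 5) := by
        have := hpa ((5 : ℕ) : ℝ) (by norm_num)
        rw [Real.rpow_natCast] at this
        calc ((a : ℕ) : ℝ) ^ 4 * (a : ℕ) = ((a : ℕ) : ℝ) ^ 5 := by ring
          _ ≤ _ := this.trans (le_of_eq (by norm_num))
      calc ((b : ℕ) : ℝ) ^ 3 * ((a : ℕ) : ℝ) ^ 4 * (a : ℕ) * (U * Δ ^ (-(29 / 5) : ℝ))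
          = ((b : ℕ) : ℝ) ^ 3 * (((a : ℕ) : ℝ) ^ 4 * (a : ℕ)) *
            (U ^ (1 : ℝ) * Δ ^ (-(29 / 5) : ℝ)) := by rw [Real.rpow_one]; ring
        _ ≤ U ^ (δ * 3) * U ^ (δ * 5) * (U ^ (1 : ℝ) * U ^ (-((29 / 5) * (1 - δ)))) := by
            refine mul_le_mul ?_ ?_ (by positivity) (by positivity)
            · exact mul_le_mul j1 j2 (by positivity) (by positivity)
            · exact mul_le_mul_of_nonneg_left (hΔp (29 / 5) (by norm_num)) (by positivity)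
        _ = U ^ ((δ * 3 + δ * 5) + (1 + (-((29 / 5) * (1 - δ))))) := by
            rw [← Real.rpow_add hU0, ← Real.rpow_add hU0, ← Real.rpow_add hU0]
        _ ≤ U ^ (-(4 + 1 / 2) : ℝ) := hUe _ (by linarith)
    calc c2 * (CQ * (a : ℕ)) = 9600 * CQ * (1 + ‖e 3‖) * (((b : ℕ) : ℝ) ^ 3 *
          ((a : ℕ) : ℝ) ^ 4 * (a : ℕ) * (U * Δ ^ (-(29 / 5) : ℝ))) := by rw [hc2]; ring
      _ ≤ _ := mul_le_mul_of_nonneg_left k1 (by positivity)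
  have he3 : ‖e 3‖ ≤ ∑ i, ‖e i‖ :=
    Finset.single_le_sum (f := fun i => ‖e i‖) (fun i _ => norm_nonneg _) (Finset.mem_univ 3)
  have hes : 0 ≤ ∑ i, ‖e i‖ := Finset.sum_nonneg fun i _ => norm_nonneg _
  have hUp : 0 ≤ U ^ (-(4 + 1 / 2) : ℝ) := by positivity
  have u1 : (3 ^ 8 + 2 ^ 8) * SP * U ^ (-(4 + 1 / 2) : ℝ) ≤
      (3 ^ 8 + 2 ^ 8) * SP * (1 + ∑ i, ‖e i‖) * U ^ (-(4 + 1 / 2) : ℝ) := by
    refine mul_le_mul_of_nonneg_right ?_ hUp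
    exact le_mul_of_one_le_right (by positivity) (by linarith)
  have u2 : 9600 * CQ * (1 + ‖e 3‖) * U ^ (-(4 + 1 / 2) : ℝ) ≤
      9600 * CQ * (1 + ∑ i, ‖e i‖) * U ^ (-(4 + 1 / 2) : ℝ) := by
    refine mul_le_mul_of_nonneg_right ?_ hUp
    exact mul_le_mul_of_nonneg_left (by linarith) (by positivity)
  calc c1 * SP + c2 * (CQ * (a : ℕ))
      ≤ (3 ^ 8 + 2 ^ 8) * SP * (1 + ∑ i, ‖e i‖) * U ^ (-(4 + 1 / 2) : ℝ) +
        9600 * CQ * (1 + ∑ i, ‖e i‖) * U ^ (-(4 + 1 / 2) : ℝ) :=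
        add_le_add (t1.trans u1) (t2.trans u2)
    _ = _ := by ring

end Pool.Agent.P07318f
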