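import Pool.Agent.Lib.P07318f.Defs

/-!
# The mixed derivative of `Wf`

`Wf = X^(-e₀) Y^(-e₁) n^(-e₂) (aXY/(bn))^(-e₃) φ₁(log X - log Y) φ₂(log n - log(aXY/(bn))) K(l/(aXY))` is `C²` on `X, Y > 0`. In the variables
`x = log X`, `y = log Y` it is `exp(-e₀ x - e₁ y) φ₁(x-y) R(x+y)`, so `∂_x ∂_y` is a sum of products of at most second derivatives:
powers: factors `‖e_i‖`, `φ₁`: derivatives `±φ₁'`, `-φ₁''`; `φ₂(log n - log(a/(bn)) - p)`, `p = x+y`; `K(l e^(-p)/a)`: with `η = l e^(-p)/a`,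
`∂_p K(η) = -η K'(η)`, `∂_p² K(η) = η K' + η² K''`, bounded by `(U|η| + U²η²)(1+Δ|η|)^(-8) ≤ (1+U|η|)² (1+Δ|η|)^(-8)` times constants. So
`|∂_x∂_y Wf| ≤ C (1+∑‖e_i‖)² Wb` and `∂_X ∂_Y Wf = (XY)⁻¹ ∂_x∂_y Wf =: D`.
-/

set_option autoImplicit false

namespace Pool.Agent.P07318f

open MeasureTheory Complex Filter Topology
open scoped ENNReal

namespace WDerAux

/-- parameters -/
structure Par where
  e : Fin 4 → ℂ
  φ₁ : ℝ → ℂ
  φ₂ : ℝ → ℂ
  K : ℝ → ℂ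
  a : ℕ+
  b : ℕ+
  n : ℕ+
  l : ℤ

variable (q : Par)

/-- the constant -/
noncomputable def Par.c0 : ℂ :=
  ((q.n : ℕ) : ℂ) ^ (-(q.e 2)) * ((((q.a : ℕ) / ((q.b : ℕ) * (q.n : ℕ)) : ℝ)) : ℂ) ^ (-(q.e 3))

/-- shift of the second cut-off -/
noncomputable def Par.cc : ℝ := Real.log (q.n : ℕ) - Real.log ((q.a : ℕ) / ((q.b : ℕ) * (q.n : ℕ)))

/-- the argument of the kernel -/
noncomputable def Par.η (p : ℝ) : ℝ := q.l * Real.exp (-p) / (q.a : ℕ)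

noncomputable def Par.R (p : ℝ) : ℂ := q.φ₂ (q.cc - p) * q.K (q.η p)

noncomputable def Par.R1 (p : ℝ) : ℂ :=
  -(deriv q.φ₂ (q.cc - p) * q.K (q.η p)) - q.φ₂ (q.cc - p) * ((q.η p : ℂ) * deriv q.K (q.η p))

noncomputable def Par.R2 (p : ℝ) : ℂ :=
  deriv (deriv q.φ₂) (q.cc - p) * q.K (q.η p) +
    2 * (deriv q.φ₂ (q.cc - p) * ((q.η p : ℂ) * deriv q.K (q.η p))) +
    q.φ₂ (q.cc - p) * ((q.η p : ℂ) * deriv q.K (q.η p) +
      (q.η p : ℂ) ^ 2 * deriv (deriv q.K) (q.η p))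

noncomputable def Par.A : ℂ := q.e 0 + q.e 3
noncomputable def Par.B : ℂ := q.e 1 + q.e 3

noncomputable def Par.Ex (x y : ℝ) : ℂ := q.c0 * cexp (-(q.A * x + q.B * y))

noncomputable def Par.G (x y : ℝ) : ℂ := q.Ex x y * (q.φ₁ (x - y) * q.R (x + y))

noncomputable def Par.Gx (x y : ℝ) : ℂ :=
  q.Ex x y * (-q.A * (q.φ₁ (x - y) * q.R (x + y)) + deriv q.φ₁ (x - y) * q.R (x + y) +
    q.φ₁ (x - y) * q.R1 (x + y))

noncomputable def Par.Gxy (x y : ℝ) : ℂ :=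
  q.Ex x y * (q.A * q.B * (q.φ₁ (x - y) * q.R (x + y)) + (q.A - q.B) * (deriv q.φ₁ (x - y) * q.R (x + y)) -
    (q.A + q.B) * (q.φ₁ (x - y) * q.R1 (x + y)) - deriv (deriv q.φ₁) (x - y) * q.R (x + y) +
    q.φ₁ (x - y) * q.R2 (x + y))

/-! ### Differentiability -/

lemma der1 {φ : ℝ → ℂ} (h : ContDiff ℝ 2 φ) (x : ℝ) : HasDerivAt φ (deriv φ x) x :=
  ((h.differentiable (by norm_num)) x).hasDerivAt

lemma contDiff_deriv {φ : ℝ → ℂ} (h : ContDiff ℝ 2 φ) : ContDiff ℝ 1 (deriv φ) := by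
  have h2 : ContDiff ℝ (1 + 1) φ := by norm_num; exact h
  exact (contDiff_succ_iff_deriv.1 h2).2.2

lemma der2 {φ : ℝ → ℂ} (h : ContDiff ℝ 2 φ) (x : ℝ) :
    HasDerivAt (deriv φ) (deriv (deriv φ) x) x :=
  (((contDiff_deriv h).differentiable (by norm_num)) x).hasDerivAt

lemma cont0 {φ : ℝ → ℂ} (h : ContDiff ℝ 2 φ) : Continuous φ := h.continuous

lemma cont1 {φ : ℝ → ℂ} (h : ContDiff ℝ 2 φ) : Continuous (deriv φ) := (contDiff_deriv h).continuous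

lemma cont2 {φ : ℝ → ℂ} (h : ContDiff ℝ 2 φ) : Continuous (deriv (deriv φ)) := by
  have h2 : ContDiff ℝ (0 + 1) (deriv φ) := by norm_num; exact contDiff_deriv h
  exact (contDiff_succ_iff_deriv.1 h2).2.2.continuous

lemma hasDerivAt_η (p : ℝ) : HasDerivAt q.η (-q.η p) p := by
  have h1 : HasDerivAt (fun p : ℝ => Real.exp (-p)) (Real.exp (-p) * -1) p :=
    (hasDerivAt_neg p).exp
  have h2 := (h1.const_mul (q.l : ℝ)).div_const ((q.a : ℕ) : ℝ)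
  have e : (q.l : ℝ) * (Real.exp (-p) * -1) / ((q.a : ℕ) : ℝ) = -q.η p := by
    unfold Par.η
    ring
  rw [e] at h2
  exact h2

lemma hasDerivAt_comp_η {f : ℝ → ℂ} {f' : ℂ} {p : ℝ} (hf : HasDerivAt f f' (q.η p)) :
    HasDerivAt (fun p => f (q.η p)) (-((q.η p : ℂ) * f')) p := by
  have h := hf.scomp p (hasDerivAt_η q p)
  have e : (-q.η p) • f' = -((q.η p : ℂ) * f') := by
    rw [Complex.real_smul]
    push_cast
    ring
  rw [e] at h
  exact h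

lemma hasDerivAt_comp_cc {f : ℝ → ℂ} {f' : ℂ} {p : ℝ} (hf : HasDerivAt f f' (q.cc - p)) :
    HasDerivAt (fun p => f (q.cc - p)) (-f') p := by
  have h1 : HasDerivAt (fun p : ℝ => q.cc - p) (-1) p := by
    simpa using (hasDerivAt_id p).const_sub q.cc
  have h := hf.scomp p h1
  have e : (-1 : ℝ) • f' = -f' := by simp
  rw [e] at h
  exact h

lemma hasDerivAt_R (h2 : ContDiff ℝ 2 q.φ₂) (hK : ContDiff ℝ 2 q.K) (p : ℝ) :
    HasDerivAt q.R (q.R1 p) p := by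
  have h := (hasDerivAt_comp_cc q (der1 h2 (q.cc - p))).mul (hasDerivAt_comp_η q (der1 hK (q.η p)))
  refine h.congr_deriv ?_
  unfold Par.R1
  ring

lemma hasDerivAt_ηC (p : ℝ) : HasDerivAt (fun p => (q.η p : ℂ)) (-(q.η p : ℂ)) p := by
  have := (hasDerivAt_η q p).ofReal_comp
  simpa using this

lemma hasDerivAt_R1 (h2 : ContDiff ℝ 2 q.φ₂) (hK : ContDiff ℝ 2 q.K) (p : ℝ) :
    HasDerivAt q.R1 (q.R2 p) p := by
  have ha := (hasDerivAt_comp_cc q (der2 h2 (q.cc - p))).mul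
    (hasDerivAt_comp_η q (der1 hK (q.η p)))
  have hb := (hasDerivAt_comp_cc q (der1 h2 (q.cc - p))).mul
    ((hasDerivAt_ηC q p).mul (hasDerivAt_comp_η q (der2 hK (q.η p))))
  refine (ha.neg.sub hb).congr_deriv ?_
  simp only [Pi.mul_apply]
  unfold Par.R2
  ring

lemma hasDerivAt_Ex_x (x y : ℝ) : HasDerivAt (fun x => q.Ex x y) (-q.A * q.Ex x y) x := by
  have h1 : HasDerivAt (fun x : ℝ => -(q.A * (x : ℂ) + q.B * (y : ℂ))) (-(q.A * 1)) x :=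
    (((hasDerivAt_ofReal_id x).const_mul q.A).add_const (q.B * (y : ℂ))).neg
  have h2 := h1.cexp.const_mul q.c0
  refine h2.congr_deriv ?_
  unfold Par.Ex
  ring
where
  hasDerivAt_ofReal_id (x : ℝ) : HasDerivAt (fun x : ℝ => (x : ℂ)) 1 x := by
    simpa using (hasDerivAt_id x).ofReal_comp

lemma hasDerivAt_Ex_y (x y : ℝ) : HasDerivAt (fun y => q.Ex x y) (-q.B * q.Ex x y) y := by
  have h0 : HasDerivAt (fun y : ℝ => (y : ℂ)) 1 y := by
    simpa using (hasDerivAt_id y).ofReal_comp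
  have h1 : HasDerivAt (fun y : ℝ => -(q.A * (x : ℂ) + q.B * (y : ℂ))) (-(q.B * 1)) y :=
    ((h0.const_mul q.B).const_add (q.A * (x : ℂ))).neg
  have h2 := h1.cexp.const_mul q.c0
  refine h2.congr_deriv ?_
  unfold Par.Ex
  ring

lemma comp_sub_x {f : ℝ → ℂ} {f' : ℂ} {x y : ℝ} (hf : HasDerivAt f f' (x - y)) :
    HasDerivAt (fun x => f (x - y)) f' x := by
  have h1 : HasDerivAt (fun x : ℝ => x - y) 1 x := (hasDerivAt_id x).sub_const y
  have h := hf.scomp x h1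
  rw [one_smul] at h
  exact h

lemma comp_add_x {f : ℝ → ℂ} {f' : ℂ} {x y : ℝ} (hf : HasDerivAt f f' (x + y)) :
    HasDerivAt (fun x => f (x + y)) f' x := by
  have h1 : HasDerivAt (fun x : ℝ => x + y) 1 x := (hasDerivAt_id x).add_const y
  have h := hf.scomp x h1
  rw [one_smul] at h
  exact h

lemma comp_sub_y {f : ℝ → ℂ} {f' : ℂ} {x y : ℝ} (hf : HasDerivAt f f' (x - y)) :
    HasDerivAt (fun y => f (x - y)) (-f') y := by
  have h1 : HasDerivAt (fun y : ℝ => x - y) (-1) y := by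
    simpa using (hasDerivAt_id y).const_sub x
  have h := hf.scomp y h1
  have e : (-1 : ℝ) • f' = -f' := by simp
  rw [e] at h
  exact h

lemma comp_add_y {f : ℝ → ℂ} {f' : ℂ} {x y : ℝ} (hf : HasDerivAt f f' (x + y)) :
    HasDerivAt (fun y => f (x + y)) f' y := by
  have h1 : HasDerivAt (fun y : ℝ => x + y) 1 y := (hasDerivAt_id y).const_add x
  have h := hf.scomp y h1
  rw [one_smul] at h
  exact h

lemma hasDerivAt_G (h1 : ContDiff ℝ 2 q.φ₁) (h2 : ContDiff ℝ 2 q.φ₂) (hK : ContDiff ℝ 2 q.K)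
    (x y : ℝ) : HasDerivAt (fun x => q.G x y) (q.Gx x y) x := by
  have ha := comp_sub_x (der1 h1 (x - y))
  have hb := comp_add_x (hasDerivAt_R q h2 hK (x + y))
  refine ((hasDerivAt_Ex_x q x y).mul (ha.mul hb)).congr_deriv ?_
  simp only [Pi.mul_apply]
  unfold Par.Gx
  ring

lemma hasDerivAt_Gx (h1 : ContDiff ℝ 2 q.φ₁) (h2 : ContDiff ℝ 2 q.φ₂) (hK : ContDiff ℝ 2 q.K)
    (x y : ℝ) : HasDerivAt (fun y => q.Gx x y) (q.Gxy x y) y := by
  have ha := comp_sub_y (der1 h1 (x - y))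
  have ha' := comp_sub_y (der2 h1 (x - y))
  have hb := comp_add_y (hasDerivAt_R q h2 hK (x + y))
  have hb' := comp_add_y (hasDerivAt_R1 q h2 hK (x + y))
  refine ((hasDerivAt_Ex_y q x y).mul
    ((((ha.mul hb).const_mul (-q.A)).add (ha'.mul hb)).add (ha.mul hb'))).congr_deriv ?_
  simp only [Pi.mul_apply, Pi.add_apply]
  unfold Par.Gxy
  ring

/-! ### Continuity -/

lemma cont_η : Continuous q.η := by
  unfold Par.η
  fun_prop

lemma cont_R (h2 : ContDiff ℝ 2 q.φ₂) (hK : ContDiff ℝ 2 q.K) : Continuous q.R := by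
  have h := cont0 h2
  have hk := cont0 hK
  have hη := cont_η q
  unfold Par.R
  fun_prop

lemma cont_R1 (h2 : ContDiff ℝ 2 q.φ₂) (hK : ContDiff ℝ 2 q.K) : Continuous q.R1 := by
  have h := cont0 h2
  have h' := cont1 h2
  have hk := cont0 hK
  have hk' := cont1 hK
  have hη := cont_η q
  unfold Par.R1
  fun_prop

lemma cont_R2 (h2 : ContDiff ℝ 2 q.φ₂) (hK : ContDiff ℝ 2 q.K) : Continuous q.R2 := by
  have h := cont0 h2
  have h' := cont1 h2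
  have h'' := cont2 h2
  have hk := cont0 hK
  have hk' := cont1 hK
  have hk'' := cont2 hK
  have hη := cont_η q
  unfold Par.R2
  fun_prop

lemma cont_Ex : Continuous fun p : ℝ × ℝ => q.Ex p.1 p.2 := by
  unfold Par.Ex
  fun_prop

lemma cont_Gx (h1 : ContDiff ℝ 2 q.φ₁) (h2 : ContDiff ℝ 2 q.φ₂) (hK : ContDiff ℝ 2 q.K) :
    Continuous fun p : ℝ × ℝ => q.Gx p.1 p.2 := by
  have hE := cont_Ex q
  have hR := cont_R q h2 hK
  have hR1 := cont_R1 q h2 hK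
  have h := cont0 h1
  have h' := cont1 h1
  unfold Par.Gx
  fun_prop

lemma cont_Gxy (h1 : ContDiff ℝ 2 q.φ₁) (h2 : ContDiff ℝ 2 q.φ₂) (hK : ContDiff ℝ 2 q.K) :
    Continuous fun p : ℝ × ℝ => q.Gxy p.1 p.2 := by
  have hE := cont_Ex q
  have hR := cont_R q h2 hK
  have hR1 := cont_R1 q h2 hK
  have hR2 := cont_R2 q h2 hK
  have h := cont0 h1
  have h' := cont1 h1
  have h'' := cont2 h1
  unfold Par.Gxy
  fun_prop

/-! ### Bounds -/

/-- majorant of the cut-off -/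
noncomputable def F (L : ℝ) : ℝ := min 1 (Real.exp (-(10 * L)))

/-- majorant of the kernel -/
noncomputable def Par.κ (U Δ p : ℝ) : ℝ := (1 + U * |q.η p|) ^ 2 * ((1 + Δ * |q.η p|) ^ 8)⁻¹

lemma F_nonneg (L : ℝ) : 0 ≤ F L := le_min zero_le_one (Real.exp_pos _).le

lemma κ_nonneg {U Δ : ℝ} (hΔ : 0 < Δ) (p : ℝ) : 0 ≤ q.κ U Δ p := by
  unfold Par.κ
  positivity

lemma K_bounds {U Δ : ℝ} (hU : 1 ≤ U) (hΔ : 0 < Δ) (hK : KerB U Δ q.K) (p : ℝ) :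
    ‖q.K (q.η p)‖ ≤ q.κ U Δ p ∧ ‖(q.η p : ℂ) * deriv q.K (q.η p)‖ ≤ q.κ U Δ p ∧
      ‖(q.η p : ℂ) * deriv q.K (q.η p) + (q.η p : ℂ) ^ 2 * deriv (deriv q.K) (q.η p)‖ ≤
        q.κ U Δ p := by
  obtain ⟨h0, h1, h2⟩ := hK.2 (q.η p)
  set t := |q.η p| with ht
  have ht0 : 0 ≤ t := abs_nonneg _
  set w := ((1 + Δ * t) ^ 8)⁻¹ with hw
  have hw0 : 0 ≤ w := by positivity
  have hκ : q.κ U Δ p = (1 + U * t) ^ 2 * w := rfl
  have hUt : 0 ≤ U * t := by positivity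
  have hn : ‖(q.η p : ℂ)‖ = t := by rw [Complex.norm_real, Real.norm_eq_abs]
  rw [hκ]
  refine ⟨h0.trans ?_, ?_, ?_⟩
  · have : (1 : ℝ) ≤ (1 + U * t) ^ 2 := one_le_pow₀ (by linarith)
    nlinarith
  · rw [norm_mul, hn]
    have h3 : t * ‖deriv q.K (q.η p)‖ ≤ t * (U * w) := mul_le_mul_of_nonneg_left h1 ht0
    have h4 : t * (U * w) = (U * t) * w := by ring
    have h5 : U * t ≤ (1 + U * t) ^ 2 := by nlinarith
    rw [h4] at h3
    exact h3.trans (mul_le_mul_of_nonneg_right h5 hw0)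
  · refine (norm_add_le _ _).trans ?_
    rw [norm_mul, norm_mul, norm_pow, hn]
    have h3 : t * ‖deriv q.K (q.η p)‖ ≤ t * (U * w) := mul_le_mul_of_nonneg_left h1 ht0
    have h4 : t ^ 2 * ‖deriv (deriv q.K) (q.η p)‖ ≤ t ^ 2 * (U ^ 2 * w) :=
      mul_le_mul_of_nonneg_left h2 (by positivity)
    have h5 : t * (U * w) + t ^ 2 * (U ^ 2 * w) = (U * t + (U * t) ^ 2) * w := by ring
    have h6 : U * t + (U * t) ^ 2 ≤ (1 + U * t) ^ 2 := by nlinarith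
    calc t * ‖deriv q.K (q.η p)‖ + t ^ 2 * ‖deriv (deriv q.K) (q.η p)‖
        ≤ (U * t + (U * t) ^ 2) * w := by rw [← h5]; exact add_le_add h3 h4
      _ ≤ (1 + U * t) ^ 2 * w := mul_le_mul_of_nonneg_right h6 hw0

lemma R_bounds {U Δ : ℝ} (hU : 1 ≤ U) (hΔ : 0 < Δ) (h2 : PhiB q.φ₂) (hK : KerB U Δ q.K) (p : ℝ) :
    ‖q.R p‖ ≤ F (q.cc - p) * q.κ U Δ p ∧ ‖q.R1 p‖ ≤ 2 * (F (q.cc - p) * q.κ U Δ p) ∧
      ‖q.R2 p‖ ≤ 4 * (F (q.cc - p) * q.κ U Δ p) := by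
  obtain ⟨k0, k1, k2⟩ := K_bounds q hU hΔ hK p
  obtain ⟨f0, f1, f2⟩ := h2.2 (q.cc - p)
  have hF := F_nonneg (q.cc - p)
  have f0' : ‖q.φ₂ (q.cc - p)‖ ≤ F (q.cc - p) := f0
  have f1' : ‖deriv q.φ₂ (q.cc - p)‖ ≤ F (q.cc - p) := f1
  have f2' : ‖deriv (deriv q.φ₂) (q.cc - p)‖ ≤ F (q.cc - p) := f2
  have mul {z w : ℂ} (hz : ‖z‖ ≤ F (q.cc - p)) (hw : ‖w‖ ≤ q.κ U Δ p) :
      ‖z * w‖ ≤ F (q.cc - p) * q.κ U Δ p := by
    rw [norm_mul]
    exact mul_le_mul hz hw (norm_nonneg _) hF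
  refine ⟨mul f0' k0, ?_, ?_⟩
  · unfold Par.R1
    refine (norm_sub_le _ _).trans ?_
    rw [norm_neg]
    linarith [mul f1' k0, mul f0' k1]
  · unfold Par.R2
    refine (norm_add_le _ _).trans ?_
    refine (add_le_add (norm_add_le _ _) le_rfl).trans ?_
    have h3 : ‖(2 : ℂ) * (deriv q.φ₂ (q.cc - p) * ((q.η p : ℂ) * deriv q.K (q.η p)))‖ =
        2 * ‖deriv q.φ₂ (q.cc - p) * ((q.η p : ℂ) * deriv q.K (q.η p))‖ := by
      rw [norm_mul]
      simp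
    rw [h3]
    linarith [mul f2' k0, mul f1' k1, mul f0' k2]

/-- the size of the exponents -/
noncomputable def Par.S : ℝ := ∑ i, ‖q.e i‖

lemma S_nonneg : 0 ≤ q.S := Finset.sum_nonneg fun _ _ => norm_nonneg _

lemma A_le : ‖q.A‖ ≤ q.S := by
  unfold Par.A Par.S
  rw [Fin.sum_univ_four]
  refine (norm_add_le _ _).trans ?_
  have := norm_nonneg (q.e 1)
  have := norm_nonneg (q.e 2)
  linarith

lemma B_le : ‖q.B‖ ≤ q.S := by
  unfold Par.B Par.S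
  rw [Fin.sum_univ_four]
  refine (norm_add_le _ _).trans ?_
  have := norm_nonneg (q.e 0)
  have := norm_nonneg (q.e 2)
  linarith

/-- the majorant of `G` in logarithmic variables -/
noncomputable def Par.M (U Δ x y : ℝ) : ℝ := ‖q.Ex x y‖ * (F (x - y) * (F (q.cc - (x + y)) * q.κ U Δ (x + y)))

lemma bounds {U Δ : ℝ} (hU : 1 ≤ U) (hΔ : 0 < Δ) (h1 : PhiB q.φ₁) (h2 : PhiB q.φ₂)
    (hK : KerB U Δ q.K) (x y : ℝ) :
    ‖q.G x y‖ ≤ q.M U Δ x y ∧ ‖q.Gx x y‖ ≤ 3 * (1 + q.S) * q.M U Δ x y ∧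
      ‖q.Gxy x y‖ ≤ 7 * (1 + q.S) ^ 2 * q.M U Δ x y := by
  obtain ⟨r0, r1, r2⟩ := R_bounds q hU hΔ h2 hK (x + y)
  obtain ⟨f0, f1, f2⟩ := h1.2 (x - y)
  have f0' : ‖q.φ₁ (x - y)‖ ≤ F (x - y) := f0
  have f1' : ‖deriv q.φ₁ (x - y)‖ ≤ F (x - y) := f1
  have f2' : ‖deriv (deriv q.φ₁) (x - y)‖ ≤ F (x - y) := f2
  have hF := F_nonneg (x - y)
  have hA := A_le q
  have hB := B_le q
  have hS := S_nonneg q
  set T := F (q.cc - (x + y)) * q.κ U Δ (x + y) with hT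
  have hT0 : 0 ≤ T := mul_nonneg (F_nonneg _) (κ_nonneg q hΔ _)
  set V := F (x - y) * T with hV
  have hV0 : 0 ≤ V := mul_nonneg hF hT0
  have mul {z w : ℂ} {c : ℝ} (hc : 0 ≤ c) (hz : ‖z‖ ≤ F (x - y)) (hw : ‖w‖ ≤ c * T) :
      ‖z * w‖ ≤ c * V := by
    rw [norm_mul]
    calc ‖z‖ * ‖w‖ ≤ F (x - y) * (c * T) := mul_le_mul hz hw (norm_nonneg _) hF
      _ = c * V := by rw [hV]; ring
  have r0' : ‖q.R (x + y)‖ ≤ 1 * T := by rw [one_mul]; exact r0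
  have a0 := mul zero_le_one f0' r0'
  have a1 := mul zero_le_one f1' r0'
  have a2 := mul zero_le_one f2' r0'
  have b0 := mul (by norm_num : (0:ℝ) ≤ 2) f0' r1
  have c0 := mul (by norm_num : (0:ℝ) ≤ 4) f0' r2
  rw [one_mul] at a0 a1 a2
  have hM : q.M U Δ x y = ‖q.Ex x y‖ * V := rfl
  have hE : 0 ≤ ‖q.Ex x y‖ := norm_nonneg _
  refine ⟨?_, ?_, ?_⟩
  · unfold Par.G
    rw [norm_mul, hM]
    exact mul_le_mul_of_nonneg_left a0 hE
  · unfold Par.Gx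
    rw [norm_mul, hM]
    have h3 : ‖-q.A * (q.φ₁ (x - y) * q.R (x + y)) + deriv q.φ₁ (x - y) * q.R (x + y) +
        q.φ₁ (x - y) * q.R1 (x + y)‖ ≤ 3 * (1 + q.S) * V := by
      refine (norm_add_le _ _).trans ((add_le_add (norm_add_le _ _) le_rfl).trans ?_)
      rw [norm_mul (-q.A), norm_neg]
      have h4 : ‖q.A‖ * ‖q.φ₁ (x - y) * q.R (x + y)‖ ≤ q.S * V :=
        mul_le_mul hA a0 (norm_nonneg _) hS
      nlinarith
    calc ‖q.Ex x y‖ * _ ≤ ‖q.Ex x y‖ * (3 * (1 + q.S) * V) := mul_le_mul_of_nonneg_left h3 hE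
      _ = _ := by ring
  · unfold Par.Gxy
    rw [norm_mul, hM]
    have h3 : ‖q.A * q.B * (q.φ₁ (x - y) * q.R (x + y)) +
        (q.A - q.B) * (deriv q.φ₁ (x - y) * q.R (x + y)) -
        (q.A + q.B) * (q.φ₁ (x - y) * q.R1 (x + y)) - deriv (deriv q.φ₁) (x - y) * q.R (x + y) +
        q.φ₁ (x - y) * q.R2 (x + y)‖ ≤ 7 * (1 + q.S) ^ 2 * V := by
      refine (norm_add_le _ _).trans ((add_le_add (norm_sub_le _ _) le_rfl).trans ?_)
      refine (add_le_add (add_le_add (norm_sub_le _ _) le_rfl) le_rfl).trans ?_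
      refine (add_le_add (add_le_add (add_le_add (norm_add_le _ _) le_rfl) le_rfl) le_rfl).trans ?_
      have h4 : ‖q.A * q.B * (q.φ₁ (x - y) * q.R (x + y))‖ ≤ q.S * q.S * V := by
        rw [norm_mul, norm_mul]
        exact mul_le_mul (mul_le_mul hA hB (norm_nonneg _) hS) a0 (norm_nonneg _) (by positivity)
      have h5 : ‖(q.A - q.B) * (deriv q.φ₁ (x - y) * q.R (x + y))‖ ≤ 2 * q.S * V := by
        rw [norm_mul]
        refine mul_le_mul ((norm_sub_le _ _).trans (by linarith)) a1 (norm_nonneg _) (by positivity)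
      have h6 : ‖(q.A + q.B) * (q.φ₁ (x - y) * q.R1 (x + y))‖ ≤ 2 * q.S * (2 * V) := by
        rw [norm_mul]
        refine mul_le_mul ((norm_add_le _ _).trans (by linarith)) b0 (norm_nonneg _) (by positivity)
      have h7 : 0 ≤ q.S * V := mul_nonneg hS hV0
      have h8 : 0 ≤ q.S * q.S * V := mul_nonneg (mul_nonneg hS hS) hV0
      nlinarith
    calc ‖q.Ex x y‖ * _ ≤ ‖q.Ex x y‖ * (7 * (1 + q.S) ^ 2 * V) := mul_le_mul_of_nonneg_left h3 hE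
      _ = _ := by ring

/-! ### Back to the variables `X`, `Y` -/

lemma cpow_pos {t : ℝ} (ht : 0 < t) (z : ℂ) : ((t : ℝ) : ℂ) ^ z = cexp ((Real.log t : ℂ) * z) := by
  rw [Complex.cpow_def_of_ne_zero (by exact_mod_cast ht.ne'), ← Complex.ofReal_log ht.le]

lemma apos : (0 : ℝ) < (q.a : ℕ) := by exact_mod_cast q.a.pos
lemma bpos : (0 : ℝ) < (q.b : ℕ) := by exact_mod_cast q.b.pos
lemma npos : (0 : ℝ) < (q.n : ℕ) := by exact_mod_cast q.n.pos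

lemma log_P {X Y : ℝ} (hX : 0 < X) (hY : 0 < Y) :
    Real.log ((q.a : ℕ) * X * Y / ((q.b : ℕ) * (q.n : ℕ))) =
      Real.log ((q.a : ℕ) / ((q.b : ℕ) * (q.n : ℕ))) + Real.log X + Real.log Y := by
  have ha := apos q
  have hb := bpos q
  have hn := npos q
  have e : (q.a : ℕ) * X * Y / (((q.b : ℕ) : ℝ) * (q.n : ℕ)) =
      (q.a : ℕ) / (((q.b : ℕ) : ℝ) * (q.n : ℕ)) * X * Y := by ring
  rw [e, Real.log_mul (by positivity) hY.ne', Real.log_mul (by positivity) hX.ne']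

lemma η_eq {X Y : ℝ} (hX : 0 < X) (hY : 0 < Y) :
    q.η (Real.log X + Real.log Y) = q.l / ((q.a : ℕ) * X * Y) := by
  have ha := apos q
  unfold Par.η
  rw [Real.exp_neg, Real.exp_add, Real.exp_log hX, Real.exp_log hY]
  field_simp

lemma Wf_eq {X Y : ℝ} (hX : 0 < X) (hY : 0 < Y) :
    Wf q.e q.φ₁ q.φ₂ q.K q.a q.b q.n q.l X Y = q.G (Real.log X) (Real.log Y) := by
  have ha := apos q
  have hb := bpos q
  have hn := npos q
  have hP : 0 < (q.a : ℕ) * X * Y / (((q.b : ℕ) : ℝ) * (q.n : ℕ)) := by positivity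
  have h0 : 0 < (q.a : ℕ) / (((q.b : ℕ) : ℝ) * (q.n : ℕ)) := by positivity
  unfold Wf Par.G Par.Ex Par.R Par.c0
  rw [η_eq q hX hY, cpow_pos hX, cpow_pos hY, cpow_pos hP, cpow_pos h0, log_P q hX hY]
  have e1 : Real.log (q.n : ℕ) - (Real.log ((q.a : ℕ) / ((q.b : ℕ) * (q.n : ℕ))) + Real.log X +
      Real.log Y) = q.cc - (Real.log X + Real.log Y) := by
    unfold Par.cc
    ring
  rw [e1]
  have e2 : cexp ((Real.log X : ℂ) * -q.e 0) * cexp ((Real.log Y : ℂ) * -q.e 1) *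
      cexp (((Real.log ((q.a : ℕ) / ((q.b : ℕ) * (q.n : ℕ))) + Real.log X + Real.log Y : ℝ) : ℂ) *
        -q.e 3) = cexp ((Real.log ((q.a : ℕ) / ((q.b : ℕ) * (q.n : ℕ))) : ℂ) * -q.e 3) *
        cexp (-(q.A * (Real.log X : ℂ) + q.B * (Real.log Y : ℂ))) := by
    rw [← Complex.exp_add, ← Complex.exp_add, ← Complex.exp_add]
    congr 1
    unfold Par.A Par.B
    push_cast
    ring
  linear_combination (((q.n : ℕ) : ℂ) ^ (-(q.e 2)) * (q.φ₁ (Real.log X - Real.log Y) *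
    (q.φ₂ (q.cc - (Real.log X + Real.log Y)) * q.K (q.l / ((q.a : ℕ) * X * Y))))) * e2

lemma norm_Ex (x y : ℝ) :
    ‖q.Ex x y‖ = ‖q.c0‖ * Real.exp (-(q.A.re * x + q.B.re * y)) := by
  unfold Par.Ex
  rw [norm_mul, Complex.norm_exp]
  congr 2
  simp

lemma exp_eq {X Y : ℝ} (hX : 0 < X) (hY : 0 < Y) (r s : ℝ) :
    Real.exp (-(r * Real.log X + s * Real.log Y)) = X ^ (-r) * Y ^ (-s) := by
  rw [Real.rpow_def_of_pos hX, Real.rpow_def_of_pos hY, ← Real.exp_add]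
  congr 1
  ring

lemma F_eq {X Y : ℝ} (hX : 0 < X) (hY : 0 < Y) :
    F (Real.log X - Real.log Y) = min 1 ((X / Y) ^ (-10 : ℝ)) := by
  unfold F
  rw [Real.rpow_def_of_pos (by positivity), Real.log_div hX.ne' hY.ne']
  congr 2
  ring

lemma F_eq' {X Y : ℝ} (hX : 0 < X) (hY : 0 < Y) :
    F (q.cc - (Real.log X + Real.log Y)) =
      min 1 ((((q.b : ℕ) : ℝ) * ((q.n : ℕ) : ℝ) ^ 2 / ((q.a : ℕ) * X * Y)) ^ (-10 : ℝ)) := by
  have ha := apos q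
  have hb := bpos q
  have hn := npos q
  unfold F
  rw [Real.rpow_def_of_pos (by positivity)]
  have e : Real.log (((q.b : ℕ) : ℝ) * ((q.n : ℕ) : ℝ) ^ 2 / ((q.a : ℕ) * X * Y)) =
      q.cc - (Real.log X + Real.log Y) := by
    have e1 : ((q.b : ℕ) : ℝ) * ((q.n : ℕ) : ℝ) ^ 2 / ((q.a : ℕ) * X * Y) =
        (q.n : ℕ) / ((q.a : ℕ) * X * Y / (((q.b : ℕ) : ℝ) * (q.n : ℕ))) := by
      field_simp
    rw [e1, Real.log_div hn.ne' (by positivity), log_P q hX hY]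
    unfold Par.cc
    ring
  rw [e]
  congr 2
  ring

lemma M_eq {U Δ X Y : ℝ} (hX : 0 < X) (hY : 0 < Y) :
    q.M U Δ (Real.log X) (Real.log Y) =
      Wb U Δ (fun i => (q.e i).re) q.a q.b q.n q.l X Y := by
  have ha := apos q
  have hb := bpos q
  have hn := npos q
  unfold Par.M Wb
  rw [norm_Ex, exp_eq hX hY, F_eq hX hY, F_eq' q hX hY]
  have h0 : 0 < (q.a : ℕ) / (((q.b : ℕ) : ℝ) * (q.n : ℕ)) := by positivity
  have e1 : ‖q.c0‖ = ((q.n : ℕ) : ℝ) ^ (-(q.e 2).re) *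
      ((q.a : ℕ) / (((q.b : ℕ) : ℝ) * (q.n : ℕ))) ^ (-(q.e 3).re) := by
    unfold Par.c0
    rw [norm_mul]
    congr 1
    · have := Complex.norm_cpow_eq_rpow_re_of_pos hn (-(q.e 2))
      simpa using this
    · have := Complex.norm_cpow_eq_rpow_re_of_pos h0 (-(q.e 3))
      rw [this]
      simp
  have e2 : X ^ (-q.A.re) = X ^ (-(q.e 0).re) * X ^ (-(q.e 3).re) := by
    rw [← Real.rpow_add hX]
    congr 1
    unfold Par.A
    simp
    ring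
  have e3 : Y ^ (-q.B.re) = Y ^ (-(q.e 1).re) * Y ^ (-(q.e 3).re) := by
    rw [← Real.rpow_add hY]
    congr 1
    unfold Par.B
    simp
    ring
  have e4 : ((q.a : ℕ) * X * Y / (((q.b : ℕ) : ℝ) * (q.n : ℕ))) ^ (-(q.e 3).re) =
      ((q.a : ℕ) / (((q.b : ℕ) : ℝ) * (q.n : ℕ))) ^ (-(q.e 3).re) * X ^ (-(q.e 3).re) *
        Y ^ (-(q.e 3).re) := by
    have e : (q.a : ℕ) * X * Y / (((q.b : ℕ) : ℝ) * (q.n : ℕ)) =
        (q.a : ℕ) / (((q.b : ℕ) : ℝ) * (q.n : ℕ)) * X * Y := by ring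
    rw [e, Real.mul_rpow (by positivity) hY.le, Real.mul_rpow h0.le hX.le]
  have e5 : q.κ U Δ (Real.log X + Real.log Y) =
      (1 + U * (|(q.l : ℝ)| / ((q.a : ℕ) * X * Y))) ^ 2 *
        ((1 + Δ * (|(q.l : ℝ)| / ((q.a : ℕ) * X * Y))) ^ 8)⁻¹ := by
    unfold Par.κ
    rw [η_eq q hX hY, abs_div, abs_of_pos (show 0 < ((q.a : ℕ) : ℝ) * X * Y by positivity)]
  rw [e1, e2, e3, e4, e5]
  ring

lemma κ_le {U Δ : ℝ} (hΔ : 0 < Δ) (hΔU : Δ ≤ U) (p : ℝ) : q.κ U Δ p ≤ (U / Δ) ^ 2 := by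
  unfold Par.κ
  set t := |q.η p| with ht
  have ht0 : 0 ≤ t := abs_nonneg _
  have hU : 0 < U := lt_of_lt_of_le hΔ hΔU
  have h1 : 1 + U * t ≤ (U / Δ) * (1 + Δ * t) := by
    have h2 : 1 ≤ U / Δ := (one_le_div hΔ).2 hΔU
    have h3 : (U / Δ) * (1 + Δ * t) = U / Δ + U * t := by field_simp
    linarith
  have h4 : (1 + U * t) ^ 2 ≤ (U / Δ) ^ 2 * (1 + Δ * t) ^ 8 := by
    calc (1 + U * t) ^ 2 ≤ ((U / Δ) * (1 + Δ * t)) ^ 2 :=
          pow_le_pow_left₀ (by positivity) h1 2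
      _ = (U / Δ) ^ 2 * (1 + Δ * t) ^ 2 := by ring
      _ ≤ (U / Δ) ^ 2 * (1 + Δ * t) ^ 8 := by
          have h5 : (1 : ℝ) ≤ 1 + Δ * t := by
            have : 0 ≤ Δ * t := by positivity
            linarith
          exact mul_le_mul_of_nonneg_left (pow_le_pow_right₀ h5 (by norm_num)) (by positivity)
  rw [← div_eq_mul_inv, div_le_iff₀ (by positivity)]
  exact h4

/-- a constant -/
noncomputable def Par.Q (U Δ : ℝ) : ℝ := ‖q.c0‖ * (U / Δ) ^ 2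

lemma Q_nonneg (U Δ : ℝ) : 0 ≤ q.Q U Δ := by
  unfold Par.Q
  positivity

lemma M_le {U Δ X Y : ℝ} (hΔ : 0 < Δ) (hΔU : Δ ≤ U) (hX : 0 < X) (hY : 0 < Y) :
    q.M U Δ (Real.log X) (Real.log Y) ≤
      q.Q U Δ * (X ^ (-q.A.re) * Y ^ (-q.B.re) * F (Real.log X - Real.log Y)) := by
  unfold Par.M Par.Q
  rw [norm_Ex, exp_eq hX hY]
  have h1 : F (q.cc - (Real.log X + Real.log Y)) * q.κ U Δ (Real.log X + Real.log Y) ≤
      1 * (U / Δ) ^ 2 :=
    mul_le_mul (min_le_left _ _) (κ_le q hΔ hΔU _) (κ_nonneg q hΔ _) zero_le_one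
  rw [one_mul] at h1
  have hF := F_nonneg (Real.log X - Real.log Y)
  have hc : 0 ≤ ‖q.c0‖ * (X ^ (-q.A.re) * Y ^ (-q.B.re)) := by positivity
  calc ‖q.c0‖ * (X ^ (-q.A.re) * Y ^ (-q.B.re)) * (F (Real.log X - Real.log Y) *
        (F (q.cc - (Real.log X + Real.log Y)) * q.κ U Δ (Real.log X + Real.log Y)))
      ≤ ‖q.c0‖ * (X ^ (-q.A.re) * Y ^ (-q.B.re)) * (F (Real.log X - Real.log Y) * (U / Δ) ^ 2) :=
        mul_le_mul_of_nonneg_left (mul_le_mul_of_nonneg_left h1 hF) hc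
    _ = _ := by ring

lemma M_le' {U Δ X Y : ℝ} (hΔ : 0 < Δ) (hΔU : Δ ≤ U) (hX : 0 < X) (hY : 0 < Y) :
    q.M U Δ (Real.log X) (Real.log Y) ≤ q.Q U Δ * (X ^ (-q.A.re) * Y ^ (-q.B.re)) := by
  refine (M_le q hΔ hΔU hX hY).trans (mul_le_mul_of_nonneg_left ?_ (Q_nonneg q U Δ))
  exact mul_le_of_le_one_right (by positivity) (min_le_left _ _)

/-- the derivative with respect to `X` -/
noncomputable def Par.WX (X Y : ℝ) : ℂ := ((X⁻¹ : ℝ) : ℂ) * q.Gx (Real.log X) (Real.log Y)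

open Classical in
/-- the mixed derivative -/
noncomputable def Par.D (X Y : ℝ) : ℂ :=
  if 0 < X ∧ 0 < Y then (((X * Y)⁻¹ : ℝ) : ℂ) * q.Gxy (Real.log X) (Real.log Y) else 0

lemma D_eq {X Y : ℝ} (hX : 0 < X) (hY : 0 < Y) :
    q.D X Y = (((X * Y)⁻¹ : ℝ) : ℂ) * q.Gxy (Real.log X) (Real.log Y) := by
  unfold Par.D
  rw [if_pos ⟨hX, hY⟩]

lemma measurable_aux {H : ℝ → ℝ → ℂ} (hH : Continuous fun p : ℝ × ℝ => H p.1 p.2) :
    Measurable fun p : ℝ × ℝ => H (Real.log p.1) (Real.log p.2) := by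
  have hL : Measurable fun p : ℝ × ℝ => (Real.log p.1, Real.log p.2) :=
    (Real.measurable_log.comp measurable_fst).prodMk (Real.measurable_log.comp measurable_snd)
  exact hH.measurable.comp hL

lemma measurable_aux2 {H : ℝ → ℝ → ℂ} (hH : Continuous fun p : ℝ × ℝ => H p.1 p.2) :
    Measurable fun p : ℝ × ℝ => (((p.1 * p.2)⁻¹ : ℝ) : ℂ) * H (Real.log p.1) (Real.log p.2) := by
  have h := measurable_aux hH
  have h2 : Measurable fun p : ℝ × ℝ => (((p.1 * p.2)⁻¹ : ℝ) : ℂ) :=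
    Complex.measurable_ofReal.comp (measurable_fst.mul measurable_snd).inv
  exact h2.mul h

lemma measurable_aux3 {H : ℝ → ℝ → ℂ} (hH : Continuous fun p : ℝ × ℝ => H p.1 p.2) :
    Measurable fun p : ℝ × ℝ => (((p.1)⁻¹ : ℝ) : ℂ) * H (Real.log p.1) (Real.log p.2) := by
  have h := measurable_aux hH
  have h2 : Measurable fun p : ℝ × ℝ => (((p.1)⁻¹ : ℝ) : ℂ) :=
    Complex.measurable_ofReal.comp measurable_fst.inv
  exact h2.mul h

lemma measurableSet_quad : MeasurableSet {p : ℝ × ℝ | 0 < p.1 ∧ 0 < p.2} :=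
  (measurableSet_lt measurable_const measurable_fst).inter
    (measurableSet_lt measurable_const measurable_snd)

lemma measurable_D (h1 : ContDiff ℝ 2 q.φ₁) (h2 : ContDiff ℝ 2 q.φ₂) (hK : ContDiff ℝ 2 q.K) :
    Measurable (Function.uncurry q.D) := by
  have hG := measurable_aux2 (cont_Gxy q h1 h2 hK)
  have e : Function.uncurry q.D = ({p : ℝ × ℝ | 0 < p.1 ∧ 0 < p.2}).indicator
      (fun p => (((p.1 * p.2)⁻¹ : ℝ) : ℂ) * q.Gxy (Real.log p.1) (Real.log p.2)) := by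
    funext p
    classical
    rw [Set.indicator_apply]
    simp only [Function.uncurry, Par.D, Set.mem_setOf_eq]
  rw [e]
  exact hG.indicator measurableSet_quad

lemma measurable_WX (h1 : ContDiff ℝ 2 q.φ₁) (h2 : ContDiff ℝ 2 q.φ₂) (hK : ContDiff ℝ 2 q.K)
    (Y : ℝ) : Measurable fun X => q.WX X Y := by
  have hG := measurable_aux3 (cont_Gx q h1 h2 hK)
  have hp : Measurable fun X : ℝ => (X, Y) := measurable_id.prodMk measurable_const
  have e : (fun X => q.WX X Y) = (fun p : ℝ × ℝ => (((p.1)⁻¹ : ℝ) : ℂ) *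
      q.Gx (Real.log p.1) (Real.log p.2)) ∘ fun X : ℝ => (X, Y) := by
    funext X
    simp only [Function.comp_apply, Par.WX]
  rw [e]
  exact hG.comp hp

lemma hasDerivAt_GX (h1 : ContDiff ℝ 2 q.φ₁) (h2 : ContDiff ℝ 2 q.φ₂) (hK : ContDiff ℝ 2 q.K)
    {X : ℝ} (hX : 0 < X) (Y : ℝ) :
    HasDerivAt (fun X => q.G (Real.log X) (Real.log Y)) (q.WX X Y) X := by
  have h := (hasDerivAt_G q h1 h2 hK (Real.log X) (Real.log Y)).scomp X
    (Real.hasDerivAt_log hX.ne')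
  have e : X⁻¹ • q.Gx (Real.log X) (Real.log Y) = q.WX X Y := by
    rw [Complex.real_smul]
    rfl
  rw [e] at h
  exact h

lemma hasDerivAt_WX (h1 : ContDiff ℝ 2 q.φ₁) (h2 : ContDiff ℝ 2 q.φ₂) (hK : ContDiff ℝ 2 q.K)
    {X Y : ℝ} (hX : 0 < X) (hY : 0 < Y) :
    HasDerivAt (fun Y => q.WX X Y) (q.D X Y) Y := by
  have h := ((hasDerivAt_Gx q h1 h2 hK (Real.log X) (Real.log Y)).scomp Y
    (Real.hasDerivAt_log hY.ne')).const_mul (((X⁻¹ : ℝ) : ℂ))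
  have e : ((X⁻¹ : ℝ) : ℂ) * (Y⁻¹ • q.Gxy (Real.log X) (Real.log Y)) = q.D X Y := by
    rw [Complex.real_smul, D_eq q hX hY, mul_inv]
    push_cast
    ring
  rw [e] at h
  exact h

section final

variable {U Δ : ℝ} (hU : 1 ≤ U) (hΔ : 0 < Δ) (hΔU : Δ ≤ U) (he : ∀ i, 2 ≤ (q.e i).re)
  (he' : ∀ i, (q.e i).re ≤ 3) (h1 : PhiB q.φ₁) (h2 : PhiB q.φ₂) (hK : KerB U Δ q.K)

include he in
lemma A_ge : 4 ≤ q.A.re := by
  unfold Par.A
  rw [Complex.add_re]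
  linarith [he 0, he 3]

include he in
lemma B_ge : 4 ≤ q.B.re := by
  unfold Par.B
  rw [Complex.add_re]
  linarith [he 1, he 3]

include he' in
lemma B_le' : q.B.re ≤ 6 := by
  unfold Par.B
  rw [Complex.add_re]
  linarith [he' 1, he' 3]

include hU hΔ hΔU he h1 h2 hK in
lemma inner {X Y : ℝ} (hX : 0 < X) (hY : 0 < Y) :
    ∫ Y' in Set.Ioi Y, q.D X Y' = -q.WX X Y := by
  have hB := B_ge q he
  have hder : ∀ Y' ∈ Set.Ici Y, HasDerivAt (fun Y => q.WX X Y) (q.D X Y') Y' := fun Y' hY' =>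
    hasDerivAt_WX q h1.1 h2.1 hK.1 hX (lt_of_lt_of_le hY hY')
  have hbd : ∀ Y' : ℝ, 0 < Y' → ‖q.WX X Y'‖ ≤
      X⁻¹ * (3 * (1 + q.S) * (q.Q U Δ * X ^ (-q.A.re))) * Y' ^ (-q.B.re) := by
    intro Y' hY'
    unfold Par.WX
    rw [norm_mul, Complex.norm_real, Real.norm_eq_abs, abs_of_pos (inv_pos.2 hX)]
    have h3 := (bounds q hU hΔ h1 h2 hK (Real.log X) (Real.log Y')).2.1
    have h4 := M_le' q hΔ hΔU hX hY'
    have hS := S_nonneg q
    calc X⁻¹ * ‖q.Gx (Real.log X) (Real.log Y')‖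
        ≤ X⁻¹ * (3 * (1 + q.S) * (q.Q U Δ * (X ^ (-q.A.re) * Y' ^ (-q.B.re)))) := by
          refine mul_le_mul_of_nonneg_left (h3.trans ?_) (inv_pos.2 hX).le
          exact mul_le_mul_of_nonneg_left h4 (by positivity)
      _ = _ := by ring
  have htend : Tendsto (fun Y => q.WX X Y) atTop (𝓝 0) := by
    refine squeeze_zero_norm' (a := fun Y' : ℝ =>
      X⁻¹ * (3 * (1 + q.S) * (q.Q U Δ * X ^ (-q.A.re))) * Y' ^ (-q.B.re)) ?_ ?_
    · filter_upwards [eventually_gt_atTop 0] with Y' hY'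
      exact hbd Y' hY'
    · have := (tendsto_rpow_neg_atTop (show 0 < q.B.re by linarith)).const_mul
        (X⁻¹ * (3 * (1 + q.S) * (q.Q U Δ * X ^ (-q.A.re))))
      simpa using this
  have hint : IntegrableOn (fun Y' => q.D X Y') (Set.Ioi Y) := by
    have hg : IntegrableOn (fun Y' : ℝ =>
        X⁻¹ * (7 * (1 + q.S) ^ 2 * (q.Q U Δ * X ^ (-q.A.re))) * Y' ^ (-1 - q.B.re))
        (Set.Ioi Y) := (integrableOn_Ioi_rpow_of_lt (by linarith) hY).const_mul _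
    refine Integrable.mono' hg ?_ ?_
    · exact ((measurable_D q h1.1 h2.1 hK.1).comp
        (measurable_const.prodMk measurable_id)).aestronglyMeasurable
    · refine (ae_restrict_iff' measurableSet_Ioi).2 (Eventually.of_forall fun Y' hY'0 => ?_)
      have hY' : 0 < Y' := hY.trans hY'0
      rw [D_eq q hX hY', norm_mul, Complex.norm_real, Real.norm_eq_abs,
        abs_of_pos (by positivity)]
      have h3 := (bounds q hU hΔ h1 h2 hK (Real.log X) (Real.log Y')).2.2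
      have h4 := M_le' q hΔ hΔU hX hY'
      have hS := S_nonneg q
      have e : Y' ^ (-1 - q.B.re) = Y'⁻¹ * Y' ^ (-q.B.re) := by
        rw [sub_eq_add_neg, Real.rpow_add hY', Real.rpow_neg_one]
      rw [e]
      calc (X * Y')⁻¹ * ‖q.Gxy (Real.log X) (Real.log Y')‖
          ≤ (X * Y')⁻¹ * (7 * (1 + q.S) ^ 2 *
              (q.Q U Δ * (X ^ (-q.A.re) * Y' ^ (-q.B.re)))) := by
            refine mul_le_mul_of_nonneg_left (h3.trans ?_) (by positivity)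
            exact mul_le_mul_of_nonneg_left h4 (by positivity)
        _ = _ := by
            rw [mul_inv]
            ring
  have := integral_Ioi_of_hasDerivAt_of_tendsto' hder hint htend
  rw [this, zero_sub]

include hU hΔ hΔU he h1 h2 hK in
lemma outer {X Y : ℝ} (hX : 0 < X) (hY : 0 < Y) :
    q.G (Real.log X) (Real.log Y) = ∫ X' in Set.Ioi X, ∫ Y' in Set.Ioi Y, q.D X' Y' := by
  have hA := A_ge q he
  have e1 : ∫ X' in Set.Ioi X, ∫ Y' in Set.Ioi Y, q.D X' Y' = ∫ X' in Set.Ioi X, -q.WX X' Y := by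
    refine setIntegral_congr_fun measurableSet_Ioi fun X' hX' => ?_
    exact inner q hU hΔ hΔU he h1 h2 hK (hX.trans hX') hY
  rw [e1, integral_neg]
  have hder : ∀ X' ∈ Set.Ici X,
      HasDerivAt (fun X => q.G (Real.log X) (Real.log Y)) (q.WX X' Y) X' := fun X' hX' =>
    hasDerivAt_GX q h1.1 h2.1 hK.1 (lt_of_lt_of_le hX hX') Y
  have htend : Tendsto (fun X => q.G (Real.log X) (Real.log Y)) atTop (𝓝 0) := by
    refine squeeze_zero_norm' (a := fun X' : ℝ =>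
      (q.Q U Δ * Y ^ (-q.B.re)) * X' ^ (-q.A.re)) ?_ ?_
    · filter_upwards [eventually_gt_atTop 0] with X' hX'
      have h3 := (bounds q hU hΔ h1 h2 hK (Real.log X') (Real.log Y)).1
      have h4 := M_le' q hΔ hΔU hX' hY
      refine (h3.trans h4).trans (le_of_eq ?_)
      ring
    · have := (tendsto_rpow_neg_atTop (show 0 < q.A.re by linarith)).const_mul
        (q.Q U Δ * Y ^ (-q.B.re))
      simpa using this
  have hint : IntegrableOn (fun X' => q.WX X' Y) (Set.Ioi X) := by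
    have hg : IntegrableOn (fun X' : ℝ =>
        (3 * (1 + q.S) * (q.Q U Δ * Y ^ (-q.B.re))) * X' ^ (-1 - q.A.re))
        (Set.Ioi X) := (integrableOn_Ioi_rpow_of_lt (by linarith) hX).const_mul _
    refine Integrable.mono' hg ?_ ?_
    · exact (measurable_WX q h1.1 h2.1 hK.1 Y).aestronglyMeasurable
    · refine (ae_restrict_iff' measurableSet_Ioi).2 (Eventually.of_forall fun X' hX'0 => ?_)
      have hX' : 0 < X' := hX.trans hX'0
      unfold Par.WX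
      rw [norm_mul, Complex.norm_real, Real.norm_eq_abs, abs_of_pos (by positivity)]
      have h3 := (bounds q hU hΔ h1 h2 hK (Real.log X') (Real.log Y)).2.1
      have h4 := M_le' q hΔ hΔU hX' hY
      have hS := S_nonneg q
      have e : X' ^ (-1 - q.A.re) = X'⁻¹ * X' ^ (-q.A.re) := by
        rw [sub_eq_add_neg, Real.rpow_add hX', Real.rpow_neg_one]
      rw [e]
      calc X'⁻¹ * ‖q.Gx (Real.log X') (Real.log Y)‖
          ≤ X'⁻¹ * (3 * (1 + q.S) * (q.Q U Δ * (X' ^ (-q.A.re) * Y ^ (-q.B.re)))) := by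
            refine mul_le_mul_of_nonneg_left (h3.trans ?_) (by positivity)
            exact mul_le_mul_of_nonneg_left h4 (by positivity)
        _ = _ := by ring
  have := integral_Ioi_of_hasDerivAt_of_tendsto' hder hint htend
  rw [this, zero_sub, neg_neg]

include he he' in
lemma pw_bound {X Y : ℝ} (hX : 1 < X) (hY : 0 < Y) :
    X ^ (-q.A.re) * Y ^ (-q.B.re) * F (Real.log X - Real.log Y) ≤
      4 * ((1 + X ^ 2)⁻¹ * (1 + Y ^ 2)⁻¹) := by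
  have hA := A_ge q he
  have hB := B_ge q he
  have hB' := B_le' q he'
  have hX0 : 0 < X := zero_lt_one.trans hX
  have key : ∀ t : ℝ, 1 ≤ t → t ^ (-2 : ℝ) ≤ 2 * (1 + t ^ 2)⁻¹ := by
    intro t ht
    have ht0 : 0 < t := lt_of_lt_of_le zero_lt_one ht
    have e : t ^ (-2 : ℝ) = (t ^ 2)⁻¹ := by
      rw [Real.rpow_neg ht0.le]
      norm_num
    rw [e, ← div_eq_mul_inv, inv_eq_one_div, div_le_div_iff₀ (by positivity) (by positivity)]
    nlinarith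
  rcases le_or_gt Y 1 with hY1 | hY1
  · have h3 : F (Real.log X - Real.log Y) ≤ X ^ (-10 : ℝ) * Y ^ (10 : ℝ) := by
      refine (min_le_right _ _).trans (le_of_eq ?_)
      rw [Real.rpow_def_of_pos hX0, Real.rpow_def_of_pos hY, ← Real.exp_add]
      congr 1
      ring
    have h4 : X ^ (-q.A.re) * X ^ (-10 : ℝ) ≤ X ^ (-2 : ℝ) := by
      rw [← Real.rpow_add hX0]
      exact Real.rpow_le_rpow_of_exponent_le hX.le (by linarith)
    have h5 : Y ^ (-q.B.re) * Y ^ (10 : ℝ) ≤ 1 := by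
      rw [← Real.rpow_add hY]
      exact Real.rpow_le_one hY.le hY1 (by linarith)
    have h6 : (1 : ℝ) ≤ 2 * (1 + Y ^ 2)⁻¹ := by
      rw [← div_eq_mul_inv, le_div_iff₀ (by positivity)]
      nlinarith
    calc X ^ (-q.A.re) * Y ^ (-q.B.re) * F (Real.log X - Real.log Y)
        ≤ X ^ (-q.A.re) * Y ^ (-q.B.re) * (X ^ (-10 : ℝ) * Y ^ (10 : ℝ)) :=
          mul_le_mul_of_nonneg_left h3 (by positivity)
      _ = (X ^ (-q.A.re) * X ^ (-10 : ℝ)) * (Y ^ (-q.B.re) * Y ^ (10 : ℝ)) := by ring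
      _ ≤ X ^ (-2 : ℝ) * 1 := mul_le_mul h4 h5 (by positivity) (by positivity)
      _ ≤ (2 * (1 + X ^ 2)⁻¹) * (2 * (1 + Y ^ 2)⁻¹) :=
          mul_le_mul (key X hX.le) h6 zero_le_one (by positivity)
      _ = _ := by ring
  · have h4 : X ^ (-q.A.re) ≤ X ^ (-2 : ℝ) :=
      Real.rpow_le_rpow_of_exponent_le hX.le (by linarith)
    have h5 : Y ^ (-q.B.re) ≤ Y ^ (-2 : ℝ) :=
      Real.rpow_le_rpow_of_exponent_le hY1.le (by linarith)
    calc X ^ (-q.A.re) * Y ^ (-q.B.re) * F (Real.log X - Real.log Y)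
        ≤ X ^ (-q.A.re) * Y ^ (-q.B.re) :=
          mul_le_of_le_one_right (by positivity) (min_le_left _ _)
      _ ≤ X ^ (-2 : ℝ) * Y ^ (-2 : ℝ) := mul_le_mul h4 h5 (by positivity) (by positivity)
      _ ≤ (2 * (1 + X ^ 2)⁻¹) * (2 * (1 + Y ^ 2)⁻¹) :=
          mul_le_mul (key X hX.le) (key Y hY1.le) (by positivity) (by positivity)
      _ = _ := by ring

include hU hΔ hΔU he he' h1 h2 hK in
lemma fin_int : ∫⁻ X in Set.Ioi (1:ℝ), ∫⁻ Y in Set.Ioi (0:ℝ),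
    ENNReal.ofReal (X * Y) * ‖q.D X Y‖ₑ ≠ ⊤ := by
  have hS := S_nonneg q
  have hQ := Q_nonneg q U Δ
  set c : ℝ := 7 * (1 + q.S) ^ 2 * q.Q U Δ * 4 with hc
  have hc0 : 0 ≤ c := by positivity
  have hbd : ∀ X : ℝ, 1 < X → ∀ Y : ℝ, 0 < Y → ENNReal.ofReal (X * Y) * ‖q.D X Y‖ₑ ≤
      ENNReal.ofReal (c * (1 + X ^ 2)⁻¹) * ENNReal.ofReal ((1 + Y ^ 2)⁻¹) := by
    intro X hX Y hY
    have hX0 : 0 < X := zero_lt_one.trans hX
    rw [← ENNReal.ofReal_mul (by positivity), ← ofReal_norm,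
      ← ENNReal.ofReal_mul (by positivity)]
    refine ENNReal.ofReal_le_ofReal ?_
    rw [D_eq q hX0 hY, norm_mul, Complex.norm_real, Real.norm_eq_abs,
      abs_of_pos (by positivity), mul_inv_cancel_left₀ (by positivity)]
    have h3 := (bounds q hU hΔ h1 h2 hK (Real.log X) (Real.log Y)).2.2
    have h4 := M_le q hΔ hΔU hX0 hY
    have h5 := pw_bound q he he' hX hY
    calc ‖q.Gxy (Real.log X) (Real.log Y)‖
        ≤ 7 * (1 + q.S) ^ 2 * q.M U Δ (Real.log X) (Real.log Y) := h3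
      _ ≤ 7 * (1 + q.S) ^ 2 * (q.Q U Δ * (X ^ (-q.A.re) * Y ^ (-q.B.re) *
            F (Real.log X - Real.log Y))) := mul_le_mul_of_nonneg_left h4 (by positivity)
      _ ≤ 7 * (1 + q.S) ^ 2 * (q.Q U Δ * (4 * ((1 + X ^ 2)⁻¹ * (1 + Y ^ 2)⁻¹))) := by
          gcongr
      _ = _ := by
          rw [hc]
          ring
  have hJ : ∫⁻ Y : ℝ, ENNReal.ofReal ((1 + Y ^ 2)⁻¹) < ⊤ :=
    integrable_inv_one_add_sq.lintegral_lt_top
  have hJ2 : ∫⁻ X : ℝ, ENNReal.ofReal (c * (1 + X ^ 2)⁻¹) < ⊤ :=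
    (integrable_inv_one_add_sq.const_mul c).lintegral_lt_top
  have hm : Measurable fun Y : ℝ => ENNReal.ofReal ((1 + Y ^ 2)⁻¹) := by fun_prop
  have hm2 : Measurable fun X : ℝ => ENNReal.ofReal (c * (1 + X ^ 2)⁻¹) := by fun_prop
  refine ne_of_lt (lt_of_le_of_lt ?_ (ENNReal.mul_lt_top hJ2 hJ))
  calc ∫⁻ X in Set.Ioi (1:ℝ), ∫⁻ Y in Set.Ioi (0:ℝ), ENNReal.ofReal (X * Y) * ‖q.D X Y‖ₑ
      ≤ ∫⁻ X in Set.Ioi (1:ℝ), ENNReal.ofReal (c * (1 + X ^ 2)⁻¹) *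
          ∫⁻ Y : ℝ, ENNReal.ofReal ((1 + Y ^ 2)⁻¹) := by
        refine setLIntegral_mono' measurableSet_Ioi fun X hX => ?_
        rw [← lintegral_const_mul _ hm]
        refine (setLIntegral_mono' measurableSet_Ioi fun Y hY => hbd X hX Y hY).trans ?_
        exact setLIntegral_le_lintegral _ _
    _ ≤ ∫⁻ X : ℝ, ENNReal.ofReal (c * (1 + X ^ 2)⁻¹) *
          ∫⁻ Y : ℝ, ENNReal.ofReal ((1 + Y ^ 2)⁻¹) := setLIntegral_le_lintegral _ _
    _ = _ := lintegral_mul_const _ hm2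

end final

end WDerAux

open WDerAux in
theorem w_der : ∃ C : ℝ, 0 < C ∧ ∀ (U Δ : ℝ) (e : Fin 4 → ℂ) (φ₁ φ₂ K : ℝ → ℂ) (a b n : ℕ+) (l : ℤ), 1 ≤ U → 0 < Δ →
    Δ ≤ U → (∀ i, 2 ≤ (e i).re) → (∀ i, (e i).re ≤ 3) → PhiB φ₁ → PhiB φ₂ → KerB U Δ K →
    ∃ D : ℝ → ℝ → ℂ, Measurable (Function.uncurry D) ∧
      (∀ X Y : ℝ, 0 < X → 0 < Y →
        ‖D X Y‖ ≤ C * (1 + ∑ i, ‖e i‖) ^ 2 * (X * Y)⁻¹ * Wb U Δ (fun i => (e i).re) a b n l X Y) ∧
      (∀ X Y : ℝ, 0 < X → 0 < Y → Wf e φ₁ φ₂ K a b n l X Y = ∫ X' in Set.Ioi X, ∫ Y' in Set.Ioi Y, D X' Y') ∧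
      ∫⁻ X in Set.Ioi (1:ℝ), ∫⁻ Y in Set.Ioi (0:ℝ), ENNReal.ofReal (X * Y) * ‖D X Y‖ₑ ≠ ⊤ := by
  refine ⟨7, by norm_num, ?_⟩
  intro U Δ e φ₁ φ₂ K a b n l hU hΔ hΔU he he' h1 h2 hK
  let q : Par := ⟨e, φ₁, φ₂, K, a, b, n, l⟩
  refine ⟨q.D, measurable_D q h1.1 h2.1 hK.1, ?_, ?_, fin_int q hU hΔ hΔU he he' h1 h2 hK⟩
  · intro X Y hX hY
    have h3 := (bounds q hU hΔ h1 h2 hK (Real.log X) (Real.log Y)).2.2
    have h4 := M_eq q (U := U) (Δ := Δ) hX hY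
    rw [h4] at h3
    rw [D_eq q hX hY, norm_mul, Complex.norm_real, Real.norm_eq_abs, abs_of_pos (by positivity)]
    calc (X * Y)⁻¹ * ‖q.Gxy (Real.log X) (Real.log Y)‖
        ≤ (X * Y)⁻¹ * (7 * (1 + q.S) ^ 2 * Wb U Δ (fun i => (q.e i).re) q.a q.b q.n q.l X Y) :=
          mul_le_mul_of_nonneg_left h3 (by positivity)
      _ = 7 * (1 + ∑ i, ‖e i‖) ^ 2 * (X * Y)⁻¹ * Wb U Δ (fun i => (e i).re) a b n l X Y := by
          have e1 : q.S = ∑ i, ‖e i‖ := rfl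
          rw [e1]
          ring
  · intro X Y hX hY
    have h3 := Wf_eq q hX hY
    rw [show Wf e φ₁ φ₂ K a b n l X Y = q.G (Real.log X) (Real.log Y) from h3]
    exact outer q hU hΔ hΔU he h1 h2 hK hX hY

end Pool.Agent.P07318f
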