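import Pool.Agent.Lib.P07318f.Near
import Pool.Agent.Lib.P07318f.AbelTwo
import Pool.Agent.Lib.P07318f.WDer
import Pool.Agent.Lib.P07318f.CongCount
import Pool.Agent.Lib.P07318f.ErrSum

/-!
# The off-diagonal sum equals its zero frequency terms up to a power saving

For each `(n, l)`: `w_der` provides `D`, `abel_two` with `f = Wf .. n l` gives
`‖∑'_m [..] Wf - ∑'_m dens ∫ Wf(m, Y) dY‖ₑ ≤ ∫∫ |disc| ‖D‖`, `cong_count` (`ε = 1/1000`) bounds `disc`, `w_der` bounds `D`, and `err_sum` (with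
`r i = (e i).re`) the sum over `(n,l)`: total error `≤ C (1+∑‖e‖)² U^(-4-1/16)`. In particular `∑_{n,l} ‖∑'_m dens ∫ Wf‖` converges. Absolute
convergence of `∑_{n,l,m} dens ∫ ‖Wf‖` (third claim, after reindexing): apply `abel_two`-type bounds to the majorant, or directly:
`∫_0^∞ Wb(m, Y) dY`, `dens ≤ gcd/(bn) ≤ 1`, `Wb ≤ (U/Δ)² m^(-r₀-r₃).. Y^(-r₁-r₃) min(1,(Y/m)^10) min(1,(bn²/(amY))^(-10)) (1+Δ|l|/(amY))^(-6)`, sum over `l`: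
`≤ C amY/Δ`, over `n`: converges because of the second minimum, over `m` and `∫ dY`: `m^(-4) Y^(-4) min(1, (Y/m)^10)` converges.
Reindexing: for fixed `(m, n)`, `g = gcd(am, bn)`, only `l = g l'` contribute, `dens = g/(bn) = 1/v`, `v = vv a b m n`, `u = uu a b m n`; substitute
`Y = v σ`: `(1/v) ∫_0^∞ Wf(m, Y) dY = ∫_0^∞ Wf(m, vσ) dσ`, `a m v σ/(bn) = u σ` and `l/(a m v σ) = l'/(u v σ)`. So the sum of the
`∑'_m dens ∫ Wf` over `(n,l)` is `ZF` (`p = (m, n)`).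
-/

set_option autoImplicit false

namespace Pool.Agent.P07318f

open MeasureTheory Complex Filter Topology
open scoped ENNReal

/-- the integrand of the zero frequency terms -/
noncomputable def ZFi (e : Fin 4 → ℂ) (φ₁ φ₂ K : ℝ → ℂ) (a b : ℕ+) (p : ℕ+ × ℕ+) (l : ℤ) (σ : ℝ) : ℂ :=
  ((p.1 : ℕ) : ℂ) ^ (-(e 0)) * (((vv a b p.1 p.2 : ℕ) * σ : ℝ) : ℂ) ^ (-(e 1)) *
    (((p.2 : ℕ) : ℂ) ^ (-(e 2)) * (((uu a b p.1 p.2 : ℕ) * σ : ℝ) : ℂ) ^ (-(e 3))) *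
    (φ₁ (Real.log (p.1 : ℕ) - Real.log ((vv a b p.1 p.2 : ℕ) * σ)) *
      φ₂ (Real.log (p.2 : ℕ) - Real.log ((uu a b p.1 p.2 : ℕ) * σ))) *
    K ((l : ℝ) / ((uu a b p.1 p.2 : ℕ) * (vv a b p.1 p.2 : ℕ) * σ))

namespace ODiagAux

/-- nonzero integers -/
abbrev L := {l : ℤ // l ≠ 0}

/-! ### The majorant -/

lemma min_rpow_le {w : ℝ} (hw : 0 < w) : min 1 (w ^ (-10 : ℝ)) ≤ w ^ (-(3 / 4) : ℝ) := by
  rcases le_or_gt 1 w with h | h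
  · exact (min_le_right _ _).trans (Real.rpow_le_rpow_of_exponent_le h (by norm_num))
  · refine (min_le_left _ _).trans ?_
    exact Real.one_le_rpow_of_pos_of_le_one_of_nonpos hw h.le (by norm_num)

lemma ker_le {U Δ t : ℝ} (hΔ : 0 < Δ) (hΔU : Δ ≤ U) (ht : 0 < t) :
    (1 + U * t) ^ 2 * ((1 + Δ * t) ^ 8)⁻¹ ≤ (U / Δ) ^ 2 * (Δ * t) ^ (-(3 / 2) : ℝ) := by
  have hU : 0 < U := lt_of_lt_of_le hΔ hΔU
  have hs : 0 < Δ * t := by positivity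
  have h1 : 1 + U * t ≤ (U / Δ) * (1 + Δ * t) := by
    have h2 : 1 ≤ U / Δ := (one_le_div hΔ).2 hΔU
    have h3 : (U / Δ) * (1 + Δ * t) = U / Δ + U * t := by field_simp
    linarith
  have h2 : (1 + U * t) ^ 2 ≤ (U / Δ) ^ 2 * (1 + Δ * t) ^ 2 := by
    calc (1 + U * t) ^ 2 ≤ ((U / Δ) * (1 + Δ * t)) ^ 2 := pow_le_pow_left₀ (by positivity) h1 2
      _ = (U / Δ) ^ 2 * (1 + Δ * t) ^ 2 := by ring
  have h3 : (1 + Δ * t) ^ 2 * ((1 + Δ * t) ^ 8)⁻¹ ≤ (Δ * t) ^ (-(3 / 2) : ℝ) := by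
    have e : (1 + Δ * t) ^ 2 * ((1 + Δ * t) ^ 8)⁻¹ = ((1 + Δ * t) ^ 6)⁻¹ := by
      field_simp
    rw [e, Real.rpow_neg hs.le]
    refine inv_anti₀ (Real.rpow_pos_of_pos hs _) ?_
    calc (Δ * t) ^ (3 / 2 : ℝ) ≤ (1 + Δ * t) ^ (3 / 2 : ℝ) :=
          Real.rpow_le_rpow hs.le (by linarith) (by norm_num)
      _ ≤ (1 + Δ * t) ^ (6 : ℝ) :=
          Real.rpow_le_rpow_of_exponent_le (by linarith) (by norm_num)
      _ = (1 + Δ * t) ^ 6 := by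
          rw [← Real.rpow_natCast]
          norm_num
  calc (1 + U * t) ^ 2 * ((1 + Δ * t) ^ 8)⁻¹
      ≤ (U / Δ) ^ 2 * (1 + Δ * t) ^ 2 * ((1 + Δ * t) ^ 8)⁻¹ :=
        mul_le_mul_of_nonneg_right h2 (by positivity)
    _ = (U / Δ) ^ 2 * ((1 + Δ * t) ^ 2 * ((1 + Δ * t) ^ 8)⁻¹) := by ring
    _ ≤ _ := mul_le_mul_of_nonneg_left h3 (by positivity)

/-- the constant of the majorant -/
noncomputable def QQ (U Δ : ℝ) (r3 : ℝ) (a b : ℕ+) : ℝ :=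
  2 * ((U / Δ) ^ 2 * (((a : ℕ) / (b : ℕ) : ℝ) ^ (-r3) * (((b : ℕ) / (a : ℕ) : ℝ) ^ (-(3 / 4) : ℝ) *
    (Δ / (a : ℕ)) ^ (-(3 / 2) : ℝ))))

lemma QQ_nonneg {U Δ : ℝ} (hΔ : 0 < Δ) (r3 : ℝ) (a b : ℕ+) : 0 ≤ QQ U Δ r3 a b := by
  unfold QQ
  positivity

lemma prod_eq {X Y n a b Δ t : ℝ} (hX : 0 < X) (hY : 0 < Y) (hn : 0 < n) (ha : 0 < a) (hb : 0 < b)
    (hΔ : 0 < Δ) (ht : 0 < t) (r0 r1 r2 r3 : ℝ) :
    X ^ (-r0) * Y ^ (-r1) * (n ^ (-r2) * (a * X * Y / (b * n)) ^ (-r3)) *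
      ((b * n ^ 2 / (a * X * Y)) ^ (-(3 / 4) : ℝ)) * (Δ * (t / (a * X * Y))) ^ (-(3 / 2) : ℝ) =
    ((a / b) ^ (-r3) * ((b / a) ^ (-(3 / 4) : ℝ) * (Δ / a) ^ (-(3 / 2) : ℝ))) *
      (X ^ (-r0 - r3 + 9 / 4) * n ^ (-r2 + r3 - 3 / 2) * t ^ (-(3 / 2) : ℝ)) *
        Y ^ (-r1 - r3 + 9 / 4) := by
  have l1 : Real.log (a * X * Y / (b * n)) =
      Real.log a + Real.log X + Real.log Y - (Real.log b + Real.log n) := by
    rw [Real.log_div (by positivity) (by positivity), Real.log_mul (by positivity) hY.ne',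
      Real.log_mul ha.ne' hX.ne', Real.log_mul hb.ne' hn.ne']
  have l2 : Real.log (b * n ^ 2 / (a * X * Y)) =
      Real.log b + 2 * Real.log n - (Real.log a + Real.log X + Real.log Y) := by
    rw [Real.log_div (by positivity) (by positivity), Real.log_mul (by positivity) hY.ne',
      Real.log_mul ha.ne' hX.ne', Real.log_mul hb.ne' (by positivity), Real.log_pow]
    norm_num
  have l3 : Real.log (Δ * (t / (a * X * Y))) =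
      Real.log Δ + (Real.log t - (Real.log a + Real.log X + Real.log Y)) := by
    rw [Real.log_mul hΔ.ne' (by positivity), Real.log_div ht.ne' (by positivity),
      Real.log_mul (by positivity) hY.ne', Real.log_mul ha.ne' hX.ne']
  rw [Real.rpow_def_of_pos hX, Real.rpow_def_of_pos hY, Real.rpow_def_of_pos hn,
    Real.rpow_def_of_pos (by positivity : 0 < a * X * Y / (b * n)),
    Real.rpow_def_of_pos (by positivity : 0 < b * n ^ 2 / (a * X * Y)),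
    Real.rpow_def_of_pos (by positivity : 0 < Δ * (t / (a * X * Y))),
    Real.rpow_def_of_pos (by positivity : 0 < a / b),
    Real.rpow_def_of_pos (by positivity : 0 < b / a),
    Real.rpow_def_of_pos (by positivity : 0 < Δ / a), Real.rpow_def_of_pos hX,
    Real.rpow_def_of_pos hn, Real.rpow_def_of_pos ht, Real.rpow_def_of_pos hY, l1, l2, l3,
    Real.log_div ha.ne' hb.ne', Real.log_div hb.ne' ha.ne', Real.log_div hΔ.ne' ha.ne']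
  simp only [← Real.exp_add]
  congr 1
  ring

lemma cut_le {X Y y : ℝ} (hX : 1 ≤ X) (hY : 0 < Y) (hy : y ≤ -2) (hy' : -10 ≤ y) :
    min 1 ((X / Y) ^ (-10 : ℝ)) * Y ^ y ≤ 2 * (1 + Y ^ 2)⁻¹ := by
  have hX0 : 0 < X := lt_of_lt_of_le zero_lt_one hX
  rcases le_or_gt Y 1 with hY1 | hY1
  · have h1 : (X / Y) ^ (-10 : ℝ) ≤ Y ^ (10 : ℝ) := by
      rw [Real.div_rpow hX0.le hY.le, Real.rpow_neg hY.le, div_inv_eq_mul]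
      exact mul_le_of_le_one_left (by positivity)
        (Real.rpow_le_one_of_one_le_of_nonpos hX (by norm_num))
    have h2 : Y ^ (10 : ℝ) * Y ^ y ≤ 1 := by
      rw [← Real.rpow_add hY]
      exact Real.rpow_le_one hY.le hY1 (by linarith)
    have h6 : (1 : ℝ) ≤ 2 * (1 + Y ^ 2)⁻¹ := by
      rw [← div_eq_mul_inv, le_div_iff₀ (by positivity)]
      nlinarith
    calc min 1 ((X / Y) ^ (-10 : ℝ)) * Y ^ y ≤ Y ^ (10 : ℝ) * Y ^ y :=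
          mul_le_mul_of_nonneg_right ((min_le_right _ _).trans h1) (by positivity)
      _ ≤ 1 := h2
      _ ≤ _ := h6
  · have h1 : Y ^ y ≤ Y ^ (-2 : ℝ) := Real.rpow_le_rpow_of_exponent_le hY1.le hy
    have h2 : Y ^ (-2 : ℝ) ≤ 2 * (1 + Y ^ 2)⁻¹ := by
      have e : Y ^ (-2 : ℝ) = (Y ^ 2)⁻¹ := by
        rw [Real.rpow_neg hY.le]
        norm_num
      rw [e, ← div_eq_mul_inv, inv_eq_one_div, div_le_div_iff₀ (by positivity) (by positivity)]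
      nlinarith
    calc min 1 ((X / Y) ^ (-10 : ℝ)) * Y ^ y ≤ 1 * Y ^ y :=
          mul_le_mul_of_nonneg_right (min_le_left _ _) (by positivity)
      _ = Y ^ y := one_mul _
      _ ≤ _ := h1.trans h2

lemma Wb_le {U Δ : ℝ} (hΔ : 0 < Δ) (hΔU : Δ ≤ U) {r : Fin 4 → ℝ}
    (hr : ∀ i, |r i - 5 / 2| ≤ 1 / 1000) (a b n : ℕ+) {l : ℤ} (hl : l ≠ 0) {X Y : ℝ} (hX : 1 ≤ X)
    (hY : 0 < Y) : Wb U Δ r a b n l X Y ≤ QQ U Δ (r 3) a b *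
      (X ^ (-2 : ℝ) * ((n : ℕ) : ℝ) ^ (-(5 / 4) : ℝ) * |(l : ℝ)| ^ (-(3 / 2) : ℝ)) *
        (1 + Y ^ 2)⁻¹ := by
  have hX0 : 0 < X := lt_of_lt_of_le zero_lt_one hX
  have ha : (0 : ℝ) < (a : ℕ) := by exact_mod_cast a.pos
  have hb : (0 : ℝ) < (b : ℕ) := by exact_mod_cast b.pos
  have hn : (0 : ℝ) < (n : ℕ) := by exact_mod_cast n.pos
  have hn1 : (1 : ℝ) ≤ (n : ℕ) := by exact_mod_cast n.pos
  have ht : 0 < |(l : ℝ)| := abs_pos.2 (by exact_mod_cast hl)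
  have h0 := abs_le.1 (hr 0)
  have h1 := abs_le.1 (hr 1)
  have h2 := abs_le.1 (hr 2)
  have h3 := abs_le.1 (hr 3)
  have hw : 0 < (((b : ℕ) : ℝ) * ((n : ℕ) : ℝ) ^ 2 / ((a : ℕ) * X * Y)) := by positivity
  have k1 := ker_le (U := U) hΔ hΔU (show 0 < |(l : ℝ)| / ((a : ℕ) * X * Y) by positivity)
  have k2 := min_rpow_le hw
  have k3 := cut_le (y := -r 1 - r 3 + 9 / 4) hX hY (by linarith) (by linarith)
  have k4 : X ^ (-r 0 - r 3 + 9 / 4) ≤ X ^ (-2 : ℝ) :=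
    Real.rpow_le_rpow_of_exponent_le hX (by linarith)
  have k5 : ((n : ℕ) : ℝ) ^ (-r 2 + r 3 - 3 / 2) ≤ ((n : ℕ) : ℝ) ^ (-(5 / 4) : ℝ) :=
    Real.rpow_le_rpow_of_exponent_le hn1 (by linarith)
  have hm : 0 ≤ min 1 ((X / Y) ^ (-10 : ℝ)) := le_min zero_le_one (by positivity)
  unfold Wb
  calc X ^ (-(r 0)) * Y ^ (-(r 1)) *
      (((n : ℕ) : ℝ) ^ (-(r 2)) * ((a : ℕ) * X * Y / ((b : ℕ) * (n : ℕ)) : ℝ) ^ (-(r 3))) *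
      (min 1 ((X / Y) ^ (-10 : ℝ)) *
        min 1 ((((b : ℕ) : ℝ) * ((n : ℕ) : ℝ) ^ 2 / ((a : ℕ) * X * Y)) ^ (-10 : ℝ))) *
      ((1 + U * (|(l : ℝ)| / ((a : ℕ) * X * Y))) ^ 2 *
        ((1 + Δ * (|(l : ℝ)| / ((a : ℕ) * X * Y))) ^ 8)⁻¹)
      ≤ X ^ (-(r 0)) * Y ^ (-(r 1)) *
      (((n : ℕ) : ℝ) ^ (-(r 2)) * ((a : ℕ) * X * Y / ((b : ℕ) * (n : ℕ)) : ℝ) ^ (-(r 3))) *
      (min 1 ((X / Y) ^ (-10 : ℝ)) *
        (((b : ℕ) : ℝ) * ((n : ℕ) : ℝ) ^ 2 / ((a : ℕ) * X * Y)) ^ (-(3 / 4) : ℝ)) *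
      ((U / Δ) ^ 2 * (Δ * (|(l : ℝ)| / ((a : ℕ) * X * Y))) ^ (-(3 / 2) : ℝ)) := by
        refine mul_le_mul ?_ k1 (by positivity) (by positivity)
        refine mul_le_mul_of_nonneg_left ?_ (by positivity)
        exact mul_le_mul_of_nonneg_left k2 hm
    _ = (U / Δ) ^ 2 * min 1 ((X / Y) ^ (-10 : ℝ)) * (X ^ (-(r 0)) * Y ^ (-(r 1)) *
      (((n : ℕ) : ℝ) ^ (-(r 2)) * ((a : ℕ) * X * Y / ((b : ℕ) * (n : ℕ)) : ℝ) ^ (-(r 3))) *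
      ((((b : ℕ) : ℝ) * ((n : ℕ) : ℝ) ^ 2 / ((a : ℕ) * X * Y)) ^ (-(3 / 4) : ℝ)) *
      (Δ * (|(l : ℝ)| / ((a : ℕ) * X * Y))) ^ (-(3 / 2) : ℝ)) := by ring
    _ = (U / Δ) ^ 2 * ((((a : ℕ) / (b : ℕ) : ℝ) ^ (-r 3) * (((b : ℕ) / (a : ℕ) : ℝ) ^ (-(3 / 4) : ℝ) *
        (Δ / (a : ℕ)) ^ (-(3 / 2) : ℝ)))) * (X ^ (-r 0 - r 3 + 9 / 4) *
          ((n : ℕ) : ℝ) ^ (-r 2 + r 3 - 3 / 2) * |(l : ℝ)| ^ (-(3 / 2) : ℝ)) *
        (min 1 ((X / Y) ^ (-10 : ℝ)) * Y ^ (-r 1 - r 3 + 9 / 4)) := by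
        rw [prod_eq hX0 hY hn ha hb hΔ ht]
        ring
    _ ≤ (U / Δ) ^ 2 * ((((a : ℕ) / (b : ℕ) : ℝ) ^ (-r 3) * (((b : ℕ) / (a : ℕ) : ℝ) ^ (-(3 / 4) : ℝ) *
        (Δ / (a : ℕ)) ^ (-(3 / 2) : ℝ)))) * (X ^ (-2 : ℝ) *
          ((n : ℕ) : ℝ) ^ (-(5 / 4) : ℝ) * |(l : ℝ)| ^ (-(3 / 2) : ℝ)) *
        (2 * (1 + Y ^ 2)⁻¹) := by
        gcongr
    _ = _ := by
        unfold QQ
        ring

/-! ### The terms -/

section terms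

variable (e : Fin 4 → ℂ) (φ₁ φ₂ K : ℝ → ℂ) (a b : ℕ+)

/-- one term of the zero frequency sum before reindexing -/
noncomputable def Φ (m n : ℕ+) (l : ℤ) : ℂ :=
  (dens a b n l m : ℂ) * ∫ Y in Set.Ioi (0:ℝ), Wf e φ₁ φ₂ K a b n l (m : ℕ) Y

/-- its absolute version -/
noncomputable def Φa (m n : ℕ+) (l : ℤ) : ℝ :=
  dens a b n l m * ∫ Y in Set.Ioi (0:ℝ), ‖Wf e φ₁ φ₂ K a b n l (m : ℕ) Y‖

lemma dens_nonneg (n : ℕ+) (l : ℤ) (m : ℕ+) : 0 ≤ dens a b n l m := by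
  unfold dens
  split_ifs
  · positivity
  · exact le_rfl

lemma dens_le_one (n : ℕ+) (l : ℤ) (m : ℕ+) : dens a b n l m ≤ 1 := by
  unfold dens
  split_ifs
  · have hb : (0 : ℝ) < (b : ℕ) := by exact_mod_cast b.pos
    have hn : (0 : ℝ) < (n : ℕ) := by exact_mod_cast n.pos
    rw [div_le_one (by positivity)]
    have h1 : Nat.gcd (a * m : ℕ) (b * n : ℕ) ≤ (b * n : ℕ) :=
      Nat.gcd_le_right _ (Nat.mul_pos b.pos n.pos)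
    exact_mod_cast h1
  · exact zero_le_one

lemma Φa_nonneg (m n : ℕ+) (l : ℤ) : 0 ≤ Φa e φ₁ φ₂ K a b m n l :=
  mul_nonneg (dens_nonneg a b n l m) (integral_nonneg fun _ => norm_nonneg _)

lemma norm_Φ_le (m n : ℕ+) (l : ℤ) : ‖Φ e φ₁ φ₂ K a b m n l‖ ≤ Φa e φ₁ φ₂ K a b m n l := by
  unfold Φ Φa
  rw [norm_mul, Complex.norm_real, Real.norm_eq_abs, abs_of_nonneg (dens_nonneg a b n l m)]
  exact mul_le_mul_of_nonneg_left (norm_integral_le_integral_norm _) (dens_nonneg a b n l m)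

variable {e φ₁ φ₂ K}

lemma norm_Wf_le {U Δ : ℝ} (hU : 1 ≤ U) (hΔ : 0 < Δ) (h1 : PhiB φ₁) (h2 : PhiB φ₂)
    (hK : KerB U Δ K) (n : ℕ+) (l : ℤ) {X Y : ℝ} (hX : 0 < X) (hY : 0 < Y) :
    ‖Wf e φ₁ φ₂ K a b n l X Y‖ ≤ Wb U Δ (fun i => (e i).re) a b n l X Y := by
  let q : WDerAux.Par := ⟨e, φ₁, φ₂, K, a, b, n, l⟩
  have h3 := (WDerAux.bounds q hU hΔ h1 h2 hK (Real.log X) (Real.log Y)).1
  rw [WDerAux.M_eq q hX hY, ← WDerAux.Wf_eq q hX hY] at h3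
  exact h3

lemma Φa_le {U Δ : ℝ} (hU : 1 ≤ U) (hΔ : 0 < Δ) (hΔU : Δ ≤ U)
    (he : ∀ i, |(e i).re - 5 / 2| ≤ 1 / 1000) (h1 : PhiB φ₁) (h2 : PhiB φ₂)
    (hK : KerB U Δ K) (m n : ℕ+) {l : ℤ} (hl : l ≠ 0) :
    Φa e φ₁ φ₂ K a b m n l ≤ (QQ U Δ (e 3).re a b * ∫ Y in Set.Ioi (0:ℝ), (1 + Y ^ 2)⁻¹) *
      (((m : ℕ) : ℝ) ^ (-2 : ℝ) * ((n : ℕ) : ℝ) ^ (-(5 / 4) : ℝ) * |(l : ℝ)| ^ (-(3 / 2) : ℝ)) := by
  have hm : (1 : ℝ) ≤ (m : ℕ) := by exact_mod_cast m.pos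
  set c : ℝ := QQ U Δ (e 3).re a b *
      (((m : ℕ) : ℝ) ^ (-2 : ℝ) * ((n : ℕ) : ℝ) ^ (-(5 / 4) : ℝ) * |(l : ℝ)| ^ (-(3 / 2) : ℝ)) with hc
  have hint : ∫ Y in Set.Ioi (0:ℝ), ‖Wf e φ₁ φ₂ K a b n l (m : ℕ) Y‖ ≤
      ∫ Y in Set.Ioi (0:ℝ), c * (1 + Y ^ 2)⁻¹ := by
    refine integral_mono_of_nonneg (Eventually.of_forall fun _ => norm_nonneg _) ?_ ?_
    · exact (integrable_inv_one_add_sq.const_mul c).integrableOn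
    · refine (ae_restrict_iff' measurableSet_Ioi).2 (Eventually.of_forall fun Y hY => ?_)
      exact (norm_Wf_le a b hU hΔ h1 h2 hK n l (zero_lt_one.trans_le hm) hY).trans
        (Wb_le hΔ hΔU he a b n hl hm hY)
  have h3 : Φa e φ₁ φ₂ K a b m n l ≤ 1 * ∫ Y in Set.Ioi (0:ℝ), c * (1 + Y ^ 2)⁻¹ :=
    mul_le_mul (dens_le_one a b n l m) hint (integral_nonneg fun _ => norm_nonneg _) zero_le_one
  refine h3.trans (le_of_eq ?_)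
  rw [one_mul, integral_const_mul, hc]
  ring

lemma summable_maj : Summable fun z : (ℕ+ × ℕ+) × L =>
    ((z.1.1 : ℕ) : ℝ) ^ (-2 : ℝ) * ((z.1.2 : ℕ) : ℝ) ^ (-(5 / 4) : ℝ) *
      |(z.2.1 : ℝ)| ^ (-(3 / 2) : ℝ) := by
  have s1 : Summable fun m : ℕ+ => ((m : ℕ) : ℝ) ^ (-2 : ℝ) :=
    (Real.summable_nat_rpow.2 (by norm_num)).comp_injective PNat.coe_injective
  have s2 : Summable fun m : ℕ+ => ((m : ℕ) : ℝ) ^ (-(5 / 4) : ℝ) :=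
    (Real.summable_nat_rpow.2 (by norm_num)).comp_injective PNat.coe_injective
  have s3 : Summable fun l : L => |(l.1 : ℝ)| ^ (-(3 / 2) : ℝ) :=
    (Real.summable_abs_int_rpow (b := 3 / 2) (by norm_num)).comp_injective Subtype.val_injective
  exact (s1.mul_of_nonneg s2 (fun _ => by positivity) (fun _ => by positivity)).mul_of_nonneg s3
    (fun _ => by positivity) (fun _ => by positivity)

lemma summable_Φa {U Δ : ℝ} (hU : 1 ≤ U) (hΔ : 0 < Δ) (hΔU : Δ ≤ U)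
    (he : ∀ i, |(e i).re - 5 / 2| ≤ 1 / 1000) (h1 : PhiB φ₁) (h2 : PhiB φ₂) (hK : KerB U Δ K) :
    Summable fun z : (ℕ+ × ℕ+) × L => Φa e φ₁ φ₂ K a b z.1.1 z.1.2 z.2.1 := by
  refine Summable.of_nonneg_of_le (fun _ => Φa_nonneg e φ₁ φ₂ K a b _ _ _)
    (fun z => Φa_le a b hU hΔ hΔU he h1 h2 hK z.1.1 z.1.2 z.2.2) ?_
  exact summable_maj.mul_left _

lemma summable_Φ {U Δ : ℝ} (hU : 1 ≤ U) (hΔ : 0 < Δ) (hΔU : Δ ≤ U)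
    (he : ∀ i, |(e i).re - 5 / 2| ≤ 1 / 1000) (h1 : PhiB φ₁) (h2 : PhiB φ₂) (hK : KerB U Δ K) :
    Summable fun z : (ℕ+ × ℕ+) × L => Φ e φ₁ φ₂ K a b z.1.1 z.1.2 z.2.1 :=
  Summable.of_norm_bounded (summable_Φa a b hU hΔ hΔU he h1 h2 hK)
    fun _ => norm_Φ_le e φ₁ φ₂ K a b _ _ _

/-! ### Reindexing -/

/-- the gcd -/
def gg (m n : ℕ+) : ℕ := Nat.gcd (a * m : ℕ) (b * n : ℕ)

lemma gg_pos (m n : ℕ+) : 0 < gg a b m n :=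
  Nat.gcd_pos_of_pos_left _ (Nat.mul_pos a.pos m.pos)

lemma uu_mul (m n : ℕ+) : uu a b m n * gg a b m n = a * m :=
  Nat.div_mul_cancel (Nat.gcd_dvd_left _ _)

lemma vv_mul (m n : ℕ+) : vv a b m n * gg a b m n = b * n :=
  Nat.div_mul_cancel (Nat.gcd_dvd_right _ _)

lemma ZFi_eq (m n : ℕ+) (l : ℤ) (σ : ℝ) :
    ZFi e φ₁ φ₂ K a b (m, n) l σ =
      Wf e φ₁ φ₂ K a b n (gg a b m n * l) (m : ℕ) ((vv a b m n : ℕ) * σ) := by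
  have ha : (0 : ℝ) < (a : ℕ) := by exact_mod_cast a.pos
  have hb : (0 : ℝ) < (b : ℕ) := by exact_mod_cast b.pos
  have hn : (0 : ℝ) < (n : ℕ) := by exact_mod_cast n.pos
  have hm : (0 : ℝ) < (m : ℕ) := by exact_mod_cast m.pos
  have hg : (0 : ℝ) < (gg a b m n : ℕ) := by exact_mod_cast gg_pos a b m n
  have hu : (uu a b m n : ℝ) * (gg a b m n : ℝ) = (a : ℕ) * (m : ℕ) := by
    exact_mod_cast uu_mul a b m n
  have hv : (vv a b m n : ℝ) * (gg a b m n : ℝ) = (b : ℕ) * (n : ℕ) := by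
    exact_mod_cast vv_mul a b m n
  have e1 : ((a : ℕ) : ℝ) * (m : ℕ) * ((vv a b m n : ℕ) * σ) / ((b : ℕ) * (n : ℕ)) =
      (uu a b m n : ℕ) * σ := by
    rw [div_eq_iff (by positivity), ← hv, ← hu]
    ring
  have e2 : ((gg a b m n * l : ℤ) : ℝ) / ((a : ℕ) * (m : ℕ) * ((vv a b m n : ℕ) * σ)) =
      (l : ℝ) / ((uu a b m n : ℕ) * (vv a b m n : ℕ) * σ) := by
    rw [← hu]
    push_cast
    rw [show (uu a b m n : ℝ) * (gg a b m n : ℝ) * ((vv a b m n : ℝ) * σ) =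
      (gg a b m n : ℝ) * ((uu a b m n : ℝ) * (vv a b m n : ℝ) * σ) by ring]
    rw [mul_div_mul_left _ _ hg.ne']
  unfold ZFi Wf
  simp only [e1, e2]
  push_cast
  rfl

lemma dens_gg (m n : ℕ+) (l : ℤ) : dens a b n (gg a b m n * l) m = ((vv a b m n : ℕ) : ℝ)⁻¹ := by
  have hb : (0 : ℝ) < (b : ℕ) := by exact_mod_cast b.pos
  have hn : (0 : ℝ) < (n : ℕ) := by exact_mod_cast n.pos
  have hg : (0 : ℝ) < (gg a b m n : ℕ) := by exact_mod_cast gg_pos a b m n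
  have hv : (vv a b m n : ℝ) * (gg a b m n : ℝ) = (b : ℕ) * (n : ℕ) := by
    exact_mod_cast vv_mul a b m n
  have hv0 : (vv a b m n : ℝ) ≠ 0 := by
    intro h
    rw [h, zero_mul] at hv
    have : (0 : ℝ) < (b : ℕ) * (n : ℕ) := by positivity
    linarith
  unfold dens
  have hd : (((Nat.gcd (a * m : ℕ) (b * n : ℕ) : ℕ) : ℤ)) ∣ (gg a b m n : ℤ) * l :=
    Dvd.intro _ rfl
  rw [if_pos hd, ← hv]
  show (gg a b m n : ℝ) / ((vv a b m n : ℝ) * (gg a b m n : ℝ)) = _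
  field_simp

lemma vv_pos (m n : ℕ+) : 0 < vv a b m n := by
  rcases Nat.eq_zero_or_pos (vv a b m n) with h | h
  · have := vv_mul a b m n
    rw [h, zero_mul] at this
    have h2 : 0 < (b : ℕ) * (n : ℕ) := Nat.mul_pos b.pos n.pos
    omega
  · exact h

lemma int_ZFi (m n : ℕ+) (l : ℤ) :
    ∫ σ in Set.Ioi (0:ℝ), ZFi e φ₁ φ₂ K a b (m, n) l σ =
      Φ e φ₁ φ₂ K a b m n (gg a b m n * l) := by
  have hv : (0 : ℝ) < (vv a b m n : ℕ) := by exact_mod_cast vv_pos a b m n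
  unfold Φ
  rw [dens_gg]
  simp_rw [ZFi_eq]
  rw [integral_comp_mul_left_Ioi
    (fun Y => Wf e φ₁ φ₂ K a b n (gg a b m n * l) (m : ℕ) Y) 0 hv, mul_zero, Complex.real_smul]

lemma int_norm_ZFi (m n : ℕ+) (l : ℤ) :
    ∫ σ in Set.Ioi (0:ℝ), ‖ZFi e φ₁ φ₂ K a b (m, n) l σ‖ =
      Φa e φ₁ φ₂ K a b m n (gg a b m n * l) := by
  have hv : (0 : ℝ) < (vv a b m n : ℕ) := by exact_mod_cast vv_pos a b m n
  unfold Φa
  rw [dens_gg]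
  simp_rw [ZFi_eq]
  rw [integral_comp_mul_left_Ioi
    (fun Y => ‖Wf e φ₁ φ₂ K a b n (gg a b m n * l) (m : ℕ) Y‖) 0 hv, mul_zero, smul_eq_mul]

/-- multiplication by the gcd -/
def gm (m n : ℕ+) (l : L) : L :=
  ⟨gg a b m n * l.1, mul_ne_zero (by exact_mod_cast (gg_pos a b m n).ne') l.2⟩

lemma gm_inj (m n : ℕ+) : Function.Injective (gm a b m n) := by
  intro l l' h
  have h1 : (gg a b m n : ℤ) * l.1 = gg a b m n * l'.1 := congrArg Subtype.val h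
  have h2 : (gg a b m n : ℤ) ≠ 0 := by exact_mod_cast (gg_pos a b m n).ne'
  exact Subtype.ext (mul_left_cancel₀ h2 h1)

lemma gm_inj' : Function.Injective fun z : (ℕ+ × ℕ+) × L => (z.1, gm a b z.1.1 z.1.2 z.2) := by
  rintro ⟨p, l⟩ ⟨p', l'⟩ h
  simp only [Prod.mk.injEq] at h
  obtain ⟨h1, h2⟩ := h
  subst h1
  rw [gm_inj a b p.1 p.2 h2]

lemma tsum_gm (m n : ℕ+) :
    ∑' l : L, Φ e φ₁ φ₂ K a b m n (gg a b m n * l.1) = ∑' l : L, Φ e φ₁ φ₂ K a b m n l.1 := by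
  refine Function.Injective.tsum_eq (g := gm a b m n)
    (f := fun l : L => Φ e φ₁ φ₂ K a b m n l.1) (gm_inj a b m n) ?_
  intro l hl
  by_contra hcon
  apply hl
  show Φ e φ₁ φ₂ K a b m n l.1 = 0
  unfold Φ
  have h1 : dens a b n l.1 m = 0 := by
    unfold dens
    rw [if_neg]
    rintro ⟨k, hk⟩
    apply hcon
    have hk0 : k ≠ 0 := by
      rintro rfl
      rw [mul_zero] at hk
      exact l.2 hk
    exact ⟨⟨k, hk0⟩, Subtype.ext hk.symm⟩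
  rw [h1]
  simp

lemma ZF_eq : ZF e φ₁ φ₂ K a b = ∑' p : ℕ+ × ℕ+, ∑' l : L, Φ e φ₁ φ₂ K a b p.1 p.2 l.1 := by
  have h : ZF e φ₁ φ₂ K a b = ∑' p : ℕ+ × ℕ+, ∑' l : L,
      ∫ σ in Set.Ioi (0:ℝ), ZFi e φ₁ φ₂ K a b p l.1 σ := rfl
  rw [h]
  refine tsum_congr fun p => ?_
  obtain ⟨m, n⟩ := p
  rw [← tsum_gm a b m n]
  exact tsum_congr fun l => int_ZFi a b m n l.1

/-- reordering of the variables -/
def reord : (ℕ+ × ℕ+) × L ≃ (ℕ+ × L) × ℕ+ where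
  toFun z := ((z.1.2, z.2), z.1.1)
  invFun z := ((z.2, z.1.1), z.1.2)
  left_inv _ := rfl
  right_inv _ := rfl

lemma swap_sum (hs : Summable fun z : (ℕ+ × ℕ+) × L => Φ e φ₁ φ₂ K a b z.1.1 z.1.2 z.2.1) :
    (Summable fun z : ℕ+ × L => ∑' m : ℕ+, Φ e φ₁ φ₂ K a b m z.1 z.2.1) ∧
    ∑' z : ℕ+ × L, ∑' m : ℕ+, Φ e φ₁ φ₂ K a b m z.1 z.2.1 = ZF e φ₁ φ₂ K a b := by
  have hs2 : Summable fun z : (ℕ+ × L) × ℕ+ => Φ e φ₁ φ₂ K a b z.2 z.1.1 z.1.2.1 :=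
    (reord.summable_iff (f := fun z : (ℕ+ × L) × ℕ+ => Φ e φ₁ φ₂ K a b z.2 z.1.1 z.1.2.1)).1 hs
  refine ⟨hs2.prod, ?_⟩
  rw [ZF_eq, ← hs.tsum_prod, ← hs2.tsum_prod]
  exact (reord.tsum_eq (fun z : (ℕ+ × L) × ℕ+ => Φ e φ₁ φ₂ K a b z.2 z.1.1 z.1.2.1)).symm

end terms

end ODiagAux

open ODiagAux in
theorem off_diag : ∃ C : ℝ, 0 < C ∧ ∀ (U Δ δ : ℝ) (e : Fin 4 → ℂ) (φ₁ φ₂ K : ℝ → ℂ) (a b : ℕ+), 1 ≤ U → 0 ≤ δ →
    δ ≤ 1 / 1000 → U ^ (1 - δ) ≤ Δ → Δ ≤ U → (∀ i, |(e i).re - 5 / 2| ≤ δ) → ((a : ℕ) : ℝ) ≤ U ^ δ →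
    ((b : ℕ) : ℝ) ≤ U ^ δ → Nat.Coprime (a : ℕ) (b : ℕ) → PhiB φ₁ → PhiB φ₂ → KerB U Δ K →
    (Summable fun q : (ℕ+ × ℕ+) × (ℕ+ × ℕ+) => ‖T4 e φ₁ φ₂ K a b q‖) ∧
    (Summable fun z : (ℕ+ × ℕ+) × {l : ℤ // l ≠ 0} => ∫ σ in Set.Ioi (0:ℝ), ‖ZFi e φ₁ φ₂ K a b z.1 z.2.1 σ‖) ∧
    ‖SOD e φ₁ φ₂ K a b - ZF e φ₁ φ₂ K a b‖ ≤ C * (1 + ∑ i, ‖e i‖) ^ 2 * U ^ (-(4 + 1 / 16) : ℝ) := by
  obtain ⟨C1, hC1, hnear⟩ := near
  obtain ⟨C2, hC2, hder⟩ := w_der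
  obtain ⟨C3, hC3, hcong⟩ := cong_count (1 / 1000) (by norm_num) (by norm_num)
  obtain ⟨C4, hC4, herr⟩ := err_sum
  refine ⟨C1 + C3 * C2 * C4, by positivity, ?_⟩
  intro U Δ δ e φ₁ φ₂ K a b hU hδ hδ1 hUΔ hΔU he ha hb hab h1 h2 hK
  have hU0 : 0 < U := zero_lt_one.trans_le hU
  have hΔ : 0 < Δ := (Real.rpow_pos_of_pos hU0 _).trans_le hUΔ
  have he' : ∀ i, |(e i).re - 5 / 2| ≤ 1 / 1000 := fun i => (he i).trans hδ1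
  have he2 : ∀ i, 2 ≤ (e i).re := fun i => by
    have := abs_le.1 (he' i)
    linarith
  have he3 : ∀ i, (e i).re ≤ 3 := fun i => by
    have := abs_le.1 (he' i)
    linarith
  obtain ⟨n1, n2, n3⟩ := hnear U Δ δ e φ₁ φ₂ K a b hU hδ hδ1 hUΔ hΔU he ha hb h1 h2 hK
  have hsΦa := summable_Φa a b hU hΔ hΔU he' h1 h2 hK (e := e)
  have hsΦ := summable_Φ a b hU hΔ hΔU he' h1 h2 hK (e := e)
  obtain ⟨hT, hTZ⟩ := swap_sum a b hsΦ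
  refine ⟨n1, ?_, ?_⟩
  · refine (hsΦa.comp_injective (gm_inj' a b)).congr fun z => ?_
    obtain ⟨⟨m, n⟩, l⟩ := z
    exact (int_norm_ZFi a b m n l.1).symm
  -- the sums over `m`
  set S : ℝ := ∑ i, ‖e i‖ with hS
  have hS0 : 0 ≤ S := Finset.sum_nonneg fun _ _ => norm_nonneg _
  set F : ℕ+ × L → ℂ := fun z => ∑' m : ℕ+ × ℕ+,
      (if ((b * z.1 : ℕ) : ℤ) ∣ ((a : ℕ) : ℤ) * (m.1 : ℕ) * (m.2 : ℕ) - z.2.1 then
        Wf e φ₁ φ₂ K a b z.1 z.2.1 (m.1 : ℕ) (m.2 : ℕ) else 0) with hF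
  set T : ℕ+ × L → ℂ := fun z => ∑' m : ℕ+, Φ e φ₁ φ₂ K a b m z.1 z.2.1 with hTdef
  have hFs : Summable F := by
    have h3 : Summable fun z : (ℕ+ × L) × (ℕ+ × ℕ+) =>
        (if ((b * z.1.1 : ℕ) : ℤ) ∣ ((a : ℕ) : ℤ) * (z.2.1 : ℕ) * (z.2.2 : ℕ) - z.1.2.1 then
        Wf e φ₁ φ₂ K a b z.1.1 z.1.2.1 (z.2.1 : ℕ) (z.2.2 : ℕ) else 0) := by
      refine Summable.of_norm (n2.congr fun z => ?_)
      split_ifs
      · rfl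
      · simp
    exact h3.prod
  -- the error for one pair
  have hE : ∀ z : ℕ+ × L, ‖F z - T z‖ₑ ≤ ENNReal.ofReal (C3 * (C2 * (1 + S) ^ 2)) *
      ∫⁻ X in Set.Ioi (1:ℝ), ∫⁻ Y in Set.Ioi (0:ℝ),
        ENNReal.ofReal (((a : ℕ) * (b : ℕ)) * (z.2.1 : ℝ) ^ 2 *
        (((z.1 : ℕ) : ℝ) ^ (3 / 4 + 1 / 1000 : ℝ) + X * ((z.1 : ℕ) : ℝ) ^ (-(1 / 4) + 1 / 1000 : ℝ)) *
          ((X * Y)⁻¹ * Wb U Δ (fun i => (e i).re) a b z.1 z.2.1 X Y)) := by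
    rintro ⟨n, l⟩
    obtain ⟨D, hD1, hD2, hD3, hD4⟩ := hder U Δ e φ₁ φ₂ K a b n l.1 hU hΔ hΔU he2 he3 h1 h2 hK
    obtain ⟨-, -, h3⟩ := abel_two a b n l.1 (Wf e φ₁ φ₂ K a b n l.1) D hD1 hD4
      (fun X Y hX hY => hD3 X Y (zero_lt_one.trans_le hX) hY)
    refine h3.trans ?_
    rw [← lintegral_const_mul' _ _ ENNReal.ofReal_ne_top]
    refine setLIntegral_mono' measurableSet_Ioi fun X hX => ?_
    rw [← lintegral_const_mul' _ _ ENNReal.ofReal_ne_top]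
    refine setLIntegral_mono' measurableSet_Ioi fun Y hY => ?_
    have hX0 : 0 < X := zero_lt_one.trans hX
    have hY0 : 0 < Y := hY
    have h4 := hcong a b n l.1 X Y l.2 hab hX0.le hY0.le
    have h5 := hD2 X Y hX0 hY0
    rw [← ofReal_norm, ← ENNReal.ofReal_mul (abs_nonneg _), ← ENNReal.ofReal_mul (by positivity)]
    refine ENNReal.ofReal_le_ofReal ?_
    refine (mul_le_mul h4 h5 (norm_nonneg _) (by positivity)).trans (le_of_eq ?_)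
    ring
  have hsum : ∑' z : ℕ+ × L, ‖F z - T z‖ₑ ≤
      ENNReal.ofReal (C3 * (C2 * (1 + S) ^ 2)) * ENNReal.ofReal (C4 * U ^ (-(4 + 1 / 16) : ℝ)) := by
    refine (ENNReal.tsum_le_tsum hE).trans ?_
    rw [ENNReal.tsum_mul_left, ENNReal.tsum_prod']
    gcongr
    exact herr U Δ δ (fun i => (e i).re) a b hU hδ hδ1 hUΔ hΔU he ha hb
  have hdiff : ‖∑' z, F z - ZF e φ₁ φ₂ K a b‖ ≤
      C3 * (C2 * (1 + S) ^ 2) * (C4 * U ^ (-(4 + 1 / 16) : ℝ)) := by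
    rw [← hTZ, ← hFs.tsum_sub hT]
    have h3 : ‖∑' z, (F z - T z)‖ₑ ≤
        ENNReal.ofReal (C3 * (C2 * (1 + S) ^ 2) * (C4 * U ^ (-(4 + 1 / 16) : ℝ))) := by
      have h0 : 0 ≤ C3 * (C2 * (1 + S) ^ 2) := by positivity
      exact enorm_tsum_le_tsum_enorm.trans (hsum.trans (le_of_eq (ENNReal.ofReal_mul h0).symm))
    rw [← ofReal_norm] at h3
    exact (ENNReal.ofReal_le_ofReal_iff (by positivity)).1 h3
  have htri : ‖SOD e φ₁ φ₂ K a b - ZF e φ₁ φ₂ K a b‖ ≤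
      ‖SOD e φ₁ φ₂ K a b - ∑' z, F z‖ + ‖∑' z, F z - ZF e φ₁ φ₂ K a b‖ := by
    have := norm_add_le (SOD e φ₁ φ₂ K a b - ∑' z, F z) (∑' z, F z - ZF e φ₁ φ₂ K a b)
    rwa [sub_add_sub_cancel] at this
  refine htri.trans ?_
  have h6 : C1 * (1 + S) * U ^ (-(4 + 1 / 2) : ℝ) ≤
      C1 * (1 + S) ^ 2 * U ^ (-(4 + 1 / 16) : ℝ) := by
    have h7 : U ^ (-(4 + 1 / 2) : ℝ) ≤ U ^ (-(4 + 1 / 16) : ℝ) :=
      Real.rpow_le_rpow_of_exponent_le hU (by norm_num)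
    have h8 : C1 * (1 + S) ≤ C1 * (1 + S) ^ 2 := by
      refine mul_le_mul_of_nonneg_left ?_ hC1.le
      nlinarith
    exact mul_le_mul h8 h7 (by positivity) (by positivity)
  calc ‖SOD e φ₁ φ₂ K a b - ∑' z, F z‖ + ‖∑' z, F z - ZF e φ₁ φ₂ K a b‖
      ≤ C1 * (1 + S) * U ^ (-(4 + 1 / 2) : ℝ) +
        C3 * (C2 * (1 + S) ^ 2) * (C4 * U ^ (-(4 + 1 / 16) : ℝ)) := add_le_add n3 hdiff
    _ ≤ C1 * (1 + S) ^ 2 * U ^ (-(4 + 1 / 16) : ℝ) +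
        C3 * (C2 * (1 + S) ^ 2) * (C4 * U ^ (-(4 + 1 / 16) : ℝ)) := by linarith
    _ = (C1 + C3 * C2 * C4) * (1 + S) ^ 2 * U ^ (-(4 + 1 / 16) : ℝ) := by ring

end Pool.Agent.P07318f
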