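import Pool.Agent.Lib.P07318f.Defs
import Pool.Agent.Lib.P07318s.WMellin
import Pool.Agent.Lib.P07318s.Crude
import Pool.Agent.Lib.P07318s.Regroup

/-!
# Mellin transform of the coefficients

`W_eq` with `y := 2π g² h / y`, sum over `g` with the weight `1/g` (absolutely convergent, `∑ g^(-1-2c)`), `∑_g g^(-1-2w) = ζ(1+2w)`.
-/

set_option autoImplicit false

namespace Pool.Agent.P07318f

open MeasureTheory Complex Pool.Agent.P07318s

namespace OmMelAux

theorem zeta_pnat {z : ℂ} (hz : 1 < z.re) :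
    (Summable fun n : ℕ+ => ‖((n : ℕ) : ℂ) ^ (-z)‖) ∧
      riemannZeta z = ∑' n : ℕ+, ((n : ℕ) : ℂ) ^ (-z) := by
  have h1 : Summable (fun n : ℕ => 1 / (n : ℂ) ^ z) := Complex.summable_one_div_nat_cpow.2 hz
  have h2 : Summable (fun n : ℕ+ => ((n : ℕ) : ℂ) ^ (-z)) := by
    have := h1.comp_injective PNat.coe_injective
    refine this.congr fun n => ?_
    simp [cpow_neg]
  refine ⟨h2.norm, ?_⟩
  rw [zeta_eq_tsum_one_div_nat_add_one_cpow hz,
    tsum_pnat_eq_tsum_succ (f := fun n : ℕ => (n : ℂ) ^ (-z))]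
  refine tsum_congr fun n => ?_
  rw [cpow_neg]
  push_cast
  simp

theorem cpR {t : ℝ} (ht : 0 < t) (z : ℂ) : (t : ℂ) ^ z = cexp (z * (Real.log t : ℝ)) := by
  rw [Complex.cpow_def_of_ne_zero (by exact_mod_cast ht.ne'), ← Complex.ofReal_log ht.le, mul_comm]

theorem term_eq {h y : ℝ} (hh : 0 < h) (hy : 0 < y) (g : ℕ+) (s : ℂ) :
    ((2 * Real.pi * ((g : ℕ) : ℝ) ^ 2 * h / y : ℝ) : ℂ) ^ (-s) * ((((g : ℕ) : ℝ) : ℂ))⁻¹ =
      X2 y s * (h : ℂ) ^ (-s) * ((g : ℕ) : ℂ) ^ (-(1 + 2 * s)) := by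
  have hg : (0 : ℝ) < ((g : ℕ) : ℝ) := by exact_mod_cast g.2
  have hpi : (0 : ℝ) < 2 * Real.pi := by positivity
  have e1 : ((g : ℕ) : ℂ) = (((g : ℕ) : ℝ) : ℂ) := by norm_cast
  have e2 : ((((g : ℕ) : ℝ) : ℂ))⁻¹ = (((g : ℕ) : ℝ) : ℂ) ^ (-1 : ℂ) := by
    rw [cpow_neg_one]
  unfold X2
  rw [e2, e1, cpR (by positivity), cpR hg, cpR (by positivity), cpR hh, cpR hg,
    ← Complex.exp_add, ← Complex.exp_add, ← Complex.exp_add]
  congr 1
  rw [Real.log_div (by positivity) hy.ne', Real.log_mul (by positivity) hh.ne',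
    Real.log_mul hpi.ne' (by positivity), Real.log_pow, Real.log_div hy.ne' hpi.ne']
  push_cast
  ring

end OmMelAux

open OmMelAux in
theorem om_mellin {c : ℝ} (hc : 0 < c) {h y : ℝ} (hh : 1 ≤ h) (hy : 0 < y) :
    Integrable (fun v : ℝ => cexp ((c + v * I) ^ 2) / (c + v * I) *
      (X2 y (c + v * I) * (h : ℂ) ^ (-(c + v * I)) * riemannZeta (1 + 2 * (c + v * I)))) ∧
    (Om h y : ℂ) = (Real.pi : ℂ)⁻¹ * ∫ v : ℝ, cexp ((c + v * I) ^ 2) / (c + v * I) *
      (X2 y (c + v * I) * (h : ℂ) ^ (-(c + v * I)) * riemannZeta (1 + 2 * (c + v * I))) := by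
  have hh0 : (0 : ℝ) < h := by linarith
  have hre : ∀ v : ℝ, 1 < (1 + 2 * ((c : ℂ) + v * I)).re := by
    intro v
    have : (1 + 2 * ((c : ℂ) + v * I)).re = 1 + 2 * c := by simp
    rw [this]
    linarith
  -- the function without zeta is integrable
  have hf0 : Integrable (fun v : ℝ => cexp (((c : ℂ) + v * I) ^ 2) / (c + v * I) *
      (X2 y (c + v * I) * (h : ℂ) ^ (-((c : ℂ) + v * I)))) := by
    have h1 := W_integrand_integrable hc (y := 2 * Real.pi * h / y) (by positivity)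
    refine h1.congr (Filter.Eventually.of_forall fun v => ?_)
    have h2 := term_eq hh0 hy 1 ((c : ℂ) + v * I)
    simp only [PNat.one_coe, Nat.cast_one, one_pow, mul_one, Complex.ofReal_one, inv_one,
      Complex.one_cpow] at h2
    simp only
    rw [h2]
    ring
  have hterm : ∀ (g : ℕ+) (v : ℝ), cexp (((c : ℂ) + v * I) ^ 2) *
      ((2 * Real.pi * ((g : ℕ) : ℝ) ^ 2 * h / y : ℝ) : ℂ) ^ (-((c : ℂ) + v * I)) /
        ((c : ℂ) + v * I) * ((((g : ℕ) : ℝ) : ℂ))⁻¹ =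
      cexp (((c : ℂ) + v * I) ^ 2) / (c + v * I) *
      (X2 y (c + v * I) * (h : ℂ) ^ (-((c : ℂ) + v * I))) *
        ((g : ℕ) : ℂ) ^ (-(1 + 2 * ((c : ℂ) + v * I))) := by
    intro g v
    have h2 := term_eq hh0 hy g ((c : ℂ) + v * I)
    calc _ = cexp (((c : ℂ) + v * I) ^ 2) / (c + v * I) *
          (((2 * Real.pi * ((g : ℕ) : ℝ) ^ 2 * h / y : ℝ) : ℂ) ^ (-((c : ℂ) + v * I)) *
            ((((g : ℕ) : ℝ) : ℂ))⁻¹) := by ring
      _ = _ := by rw [h2]; ring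
  have hnorm : ∀ (g : ℕ+) (v : ℝ), ‖((g : ℕ) : ℂ) ^ (-(1 + 2 * ((c : ℂ) + v * I)))‖ =
      ((g : ℕ) : ℝ) ^ (-(1 + 2 * c)) := by
    intro g v
    rw [Complex.norm_natCast_cpow_of_pos (PNat.pos g)]
    congr 1
    simp
  have hF1 : ∀ g : ℕ+, Integrable (fun v : ℝ => cexp (((c : ℂ) + v * I) ^ 2) / (c + v * I) *
      (X2 y (c + v * I) * (h : ℂ) ^ (-((c : ℂ) + v * I))) *
        ((g : ℕ) : ℂ) ^ (-(1 + 2 * ((c : ℂ) + v * I)))) := by
    intro g
    have hg : (0 : ℝ) < ((g : ℕ) : ℝ) := by exact_mod_cast g.2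
    have h1 := (W_integrand_integrable hc (y := 2 * Real.pi * ((g : ℕ) : ℝ) ^ 2 * h / y)
      (by positivity)).mul_const ((((g : ℕ) : ℝ) : ℂ))⁻¹
    refine h1.congr (Filter.Eventually.of_forall fun v => ?_)
    exact hterm g v
  have hsum : Summable (fun g : ℕ+ => ((g : ℕ) : ℝ) ^ (-(1 + 2 * c))) := by
    have h1 : Summable (fun g : ℕ => (g : ℝ) ^ (-(1 + 2 * c))) :=
      Real.summable_nat_rpow.2 (by linarith)
    exact h1.comp_injective PNat.coe_injective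
  have hF2 : Summable (fun g : ℕ+ => ∫ v : ℝ, ‖cexp (((c : ℂ) + v * I) ^ 2) / (c + v * I) *
      (X2 y (c + v * I) * (h : ℂ) ^ (-((c : ℂ) + v * I))) *
        ((g : ℕ) : ℂ) ^ (-(1 + 2 * ((c : ℂ) + v * I)))‖) := by
    have h1 : ∀ g : ℕ+, (∫ v : ℝ, ‖cexp (((c : ℂ) + v * I) ^ 2) / (c + v * I) *
      (X2 y (c + v * I) * (h : ℂ) ^ (-((c : ℂ) + v * I))) *
        ((g : ℕ) : ℂ) ^ (-(1 + 2 * ((c : ℂ) + v * I)))‖) =
        (∫ v : ℝ, ‖cexp (((c : ℂ) + v * I) ^ 2) / (c + v * I) *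
      (X2 y (c + v * I) * (h : ℂ) ^ (-((c : ℂ) + v * I)))‖) * ((g : ℕ) : ℝ) ^ (-(1 + 2 * c)) := by
      intro g
      rw [← integral_mul_const]
      refine integral_congr_ae (Filter.Eventually.of_forall fun v => ?_)
      simp only
      rw [norm_mul, hnorm]
    simp_rw [h1]
    exact hsum.mul_left _
  have hz : ∀ v : ℝ, ∑' g : ℕ+, cexp (((c : ℂ) + v * I) ^ 2) / (c + v * I) *
      (X2 y (c + v * I) * (h : ℂ) ^ (-((c : ℂ) + v * I))) *
        ((g : ℕ) : ℂ) ^ (-(1 + 2 * ((c : ℂ) + v * I))) =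
      cexp (((c : ℂ) + v * I) ^ 2) / (c + v * I) *
      (X2 y (c + v * I) * (h : ℂ) ^ (-((c : ℂ) + v * I)) * riemannZeta (1 + 2 * (c + v * I))) := by
    intro v
    rw [tsum_mul_left, ← (zeta_pnat (hre v)).2]
    ring
  refine ⟨?_, ?_⟩
  · have h1 : Continuous fun v : ℝ => riemannZeta (1 + 2 * ((c : ℂ) + v * I)) := by
      rw [continuous_iff_continuousAt]
      intro v
      have h2 : (1 + 2 * ((c : ℂ) + v * I)) ≠ 1 := by
        intro h3
        have := hre v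
        rw [h3] at this
        simp at this
      have h4 : ContinuousAt riemannZeta (1 + 2 * ((c : ℂ) + v * I)) :=
        (differentiableAt_riemannZeta h2).continuousAt
      have h5 : Continuous fun v : ℝ => (1 + 2 * ((c : ℂ) + v * I)) := by fun_prop
      exact ContinuousAt.comp (f := fun v : ℝ => (1 + 2 * ((c : ℂ) + v * I))) h4 h5.continuousAt
    have h2 : ∀ v : ℝ, ‖riemannZeta (1 + 2 * ((c : ℂ) + v * I))‖ ≤
        ∑' g : ℕ+, ((g : ℕ) : ℝ) ^ (-(1 + 2 * c)) := by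
      intro v
      rw [(zeta_pnat (hre v)).2]
      refine (norm_tsum_le_tsum_norm (zeta_pnat (hre v)).1).trans_eq ?_
      exact tsum_congr fun g => hnorm g v
    have h3 := hf0.mul_bdd (c := ∑' g : ℕ+, ((g : ℕ) : ℝ) ^ (-(1 + 2 * c)))
      h1.aestronglyMeasurable (Filter.Eventually.of_forall h2)
    refine h3.congr (Filter.Eventually.of_forall fun v => ?_)
    simp only
    ring
  · have h1 := hasSum_integral_of_summable_integral_norm hF1 hF2
    have h2 : (Om h y : ℂ) = ∑' g : ℕ+, (Real.pi : ℂ)⁻¹ *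
        ∫ v : ℝ, cexp (((c : ℂ) + v * I) ^ 2) / (c + v * I) *
      (X2 y (c + v * I) * (h : ℂ) ^ (-((c : ℂ) + v * I))) *
        ((g : ℕ) : ℂ) ^ (-(1 + 2 * ((c : ℂ) + v * I))) := by
      unfold Om
      rw [Complex.ofReal_tsum]
      refine tsum_congr fun g => ?_
      have hg : (0 : ℝ) < ((g : ℕ) : ℝ) := by exact_mod_cast g.2
      rw [Complex.ofReal_div, W_eq hc (y := 2 * Real.pi * ((g : ℕ) : ℝ) ^ 2 * h / y)
        (by positivity), div_eq_mul_inv, mul_assoc, ← integral_mul_const]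
      congr 1
      refine integral_congr_ae (Filter.Eventually.of_forall fun v => ?_)
      exact hterm g v
    rw [h2, tsum_mul_left, h1.tsum_eq]
    congr 1
    refine integral_congr_ae (Filter.Eventually.of_forall fun v => ?_)
    exact hz v

end Pool.Agent.P07318f
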