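import Pool.Agent.Lib.P07318f.DirZ
import Pool.Agent.Lib.P07318f.OmMel
import Pool.Agent.Lib.P07318s.OneVar
import Pool.Agent.Lib.P07318s.Shift

/-!
# The sum over the fractions is the residue in the third variable

PROOF. `c = 3/20`. By `om_mellin` and `dir_z` (`Re (u_i + w) > 3/20 - 1/10 > 0`), interchange of `∑_q` and `∫ dv` (dominated by
`∑_q hgt^(-1/2-c) ‖EE_q‖ < ∞`): `TT x y u = π⁻¹ ∫_v exp(w²)/w X2 y w G3 x y u w dv`, `w = c + iv`. Multiply by `Pi4 u`: as the four sums `u_i + u_j`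
(`i ∈ {0,1}`, `j ∈ {2,3}`) are `≠ 0` (`RegE` and the hypothesis), `Pi4 u * G3 x y u w = riemannZeta (1 + 2 w) * HF x y u w` (`zE_of_ne`).
Bound of `HF` for `|Re w| ≤ 3/20`, `|Im w| ≤ U^κ`: `AA` by `aa_bound` (`Re ≥ -3/20 > -1/6`), `zE (1 + u_i + u_j)`: `zE_bound (1/2)` gives `C U^(2κ)` each, the
four zeta factors have real part `≥ 3/4` and `≤ 3`, `|Im(u_i + w)| ≤ 2 U^κ`: `≤ B U^κ` by `Good` (for `-(y-x)` use `zeta_conj`). So `B' = C U^(12κ)`.
Holomorphy of `w ↦ HF x y u w` there: `aa_diff`, `differentiableAt_riemannZeta` (`Im (u_i + w) ≠ ±(y-x)` as `|y - x| > 4 U^κ`).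
`one_var` with `r = 1/8`, `c = 3/20`, `e = 7/20`, `X = y/2π`, `Y = U^κ`, `f = HF x y u`: the integral over `|v| ≤ U^κ` is the circle integral of `HH` up to
`C B' (X^(-3/20) + X^(3/20) exp(-U^(2κ)/2)) ≤ C U^(-1/10)` (`U^(12κ) ≤ U^(12/1000)`). Tails `|v| > U^κ` on `Re w = 3/20`: zeta factors have real part `≥ 1 + 1/20`,
bounded; `|zE| ≤ C U^(2κ)`; so `≤ C U^(8κ) U^(3/20) ∫_{|v| > U^κ} exp(-v²) dv ≤ C_κ U^(-1)`.
-/

set_option autoImplicit false

namespace Pool.Agent.P07318f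

open MeasureTheory Complex Pool.Agent.P07318s

namespace ResThreeAux

/-- the point `3/20 + i v` -/
noncomputable def ww (v : ℝ) : ℂ := ((3 / 20 : ℝ) : ℂ) + v * I

lemma ww_re (v : ℝ) : (ww v).re = 3 / 20 := by simp [ww]

lemma ww_im (v : ℝ) : (ww v).im = v := by simp [ww]

lemma ww_ne (v : ℝ) : ww v ≠ 0 := by
  intro h
  have := congrArg Complex.re h
  rw [ww_re] at this
  norm_num at this

lemma tt_int {x y : ℝ} {u : Fin 4 → ℂ} (hy : 0 < y) (hu : ∀ i, |(u i).re| < 1 / 10)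
    (hE : u ∈ RegE) :
    TT x y u = (Real.pi : ℂ)⁻¹ *
      ∫ v : ℝ, cexp (ww v ^ 2) / ww v * (X2 y (ww v) * G3 x y u (ww v)) := by
  have hw : ∀ v, 0 < (ww v).re := fun v => by rw [ww_re]; norm_num
  have hw1 : ∀ v, (ww v).re ≤ 3 / 20 := fun v => by rw [ww_re]
  have huw : ∀ v i, 0 < (u i + ww v).re := fun v i => by
    rw [add_re, ww_re]
    have := abs_lt.1 (hu i)
    linarith [this.1]
  have hD := fun v => dir_z x y u (ww v) hE (hw v) (hw1 v) (huw v)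
  set K : Q → ℂ := fun q => ((hgt q.1 : ℝ) : ℂ) ^ (((-(1 / 2) : ℝ)) : ℂ) *
    (ex (y - x) q.1 * EE q.1.1 q.1.2 (u 0) (u 1) (u 2) (u 3)) with hK
  set F : Q → ℝ → ℂ := fun q v => cexp (ww v ^ 2) / ww v *
    (X2 y (ww v) * ((hgt q.1 : ℝ) : ℂ) ^ (-(ww v)) * riemannZeta (1 + 2 * ww v)) * K q with hF
  have hom := fun q : Q => om_mellin (c := 3 / 20) (by norm_num) (one_le_hgt q.1) hy
  have hFi : ∀ q, Integrable (F q) := fun q => (hom q).1.mul_const _
  have hOmF : ∀ q : Q, (Om (hgt q.1) y : ℂ) * K q = (Real.pi : ℂ)⁻¹ * ∫ v, F q v := by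
    intro q
    rw [(hom q).2, mul_assoc, ← integral_mul_const]
    rfl
  set A : ℝ → ℂ := fun v => cexp (ww v ^ 2) / ww v *
    (X2 y (ww v) * riemannZeta (1 + 2 * ww v)) with hA
  have hn : ∀ q v, ‖F q v‖ = ‖A v‖ * ((hgt q.1) ^ (-(1 / 2 + 3 / 20 : ℝ)) *
      ‖EE q.1.1 q.1.2 (u 0) (u 1) (u 2) (u 3)‖) := by
    intro q v
    have h1 : ‖((hgt q.1 : ℝ) : ℂ) ^ (-(ww v))‖ = (hgt q.1) ^ (-(3 / 20 : ℝ)) := by
      rw [Complex.norm_cpow_eq_rpow_re_of_pos (hgt_pos q.1), neg_re, ww_re]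
    have h2 : ‖((hgt q.1 : ℝ) : ℂ) ^ (((-(1 / 2) : ℝ)) : ℂ)‖ = (hgt q.1) ^ (-(1 / 2) : ℝ) := by
      rw [Complex.norm_cpow_eq_rpow_re_of_pos (hgt_pos q.1), ofReal_re]
    have h3 : (hgt q.1) ^ (-(1 / 2 + 3 / 20 : ℝ)) =
        (hgt q.1) ^ (-(1 / 2) : ℝ) * (hgt q.1) ^ (-(3 / 20 : ℝ)) := by
      rw [← Real.rpow_add (hgt_pos q.1)]
      norm_num
    simp only [hF, hA, hK, norm_mul, h1, h2, norm_ex, h3]
    ring
  have hsum : Summable fun q : Q => ∫ v, ‖F q v‖ := by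
    have h1 : ∀ q : Q, ∫ v, ‖F q v‖ = (∫ v, ‖A v‖) * ((hgt q.1) ^ (-(1 / 2 + 3 / 20 : ℝ)) *
      ‖EE q.1.1 q.1.2 (u 0) (u 1) (u 2) (u 3)‖) := by
      intro q
      rw [← integral_mul_const]
      exact integral_congr_ae (Filter.Eventually.of_forall fun v => hn q v)
    have h2 := (hD 0).1
    rw [ww_re] at h2
    exact (h2.mul_left (∫ v, ‖A v‖)).congr (fun q => (h1 q).symm)
  have hHS := hasSum_integral_of_summable_integral_norm hFi hsum
  have hT : TT x y u = riemannZeta (1 + u 1 + u 3) * ((Real.pi : ℂ)⁻¹ *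
      ∫ v, ∑' q, F q v) := by
    unfold TT
    have h6 : (Real.pi : ℂ)⁻¹ * ∫ v, ∑' q, F q v = ∑' q : Q, (Real.pi : ℂ)⁻¹ * ∫ v, F q v := by
      rw [← hHS.tsum_eq, tsum_mul_left]
    rw [h6]
    congr 1
    refine tsum_congr fun q => ?_
    rw [← hOmF q]
    simp only [hK]
    rw [← Complex.ofReal_cpow (hgt_pos q.1).le]
    push_cast
    ring
  rw [hT, ← mul_assoc, mul_comm (riemannZeta (1 + u 1 + u 3)), mul_assoc, ← integral_const_mul]
  congr 1
  refine integral_congr_ae (Filter.Eventually.of_forall fun v => ?_)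
  show riemannZeta (1 + u 1 + u 3) * ∑' q, F q v =
    cexp (ww v ^ 2) / ww v * (X2 y (ww v) * G3 x y u (ww v))
  have h4 : ∑' q, F q v = A v * ∑' q : Q, ((hgt q.1 : ℝ) : ℂ) ^ (-(1 / 2 + ww v)) *
      ex (y - x) q.1 * EE q.1.1 q.1.2 (u 0) (u 1) (u 2) (u 3) := by
    rw [← tsum_mul_left]
    refine tsum_congr fun q => ?_
    have h5 : ((hgt q.1 : ℝ) : ℂ) ^ (-(1 / 2 + ww v)) =
        ((hgt q.1 : ℝ) : ℂ) ^ (-(ww v)) * ((hgt q.1 : ℝ) : ℂ) ^ (((-(1 / 2) : ℝ)) : ℂ) := by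
      rw [← Complex.cpow_add _ _ (by exact_mod_cast (hgt_pos q.1).ne')]
      congr 1
      push_cast
      ring
    rw [h5]
    simp only [hF, hK, hA]
    ring
  rw [h4, ← (hD v).2]
  simp only [hA]
  ring

lemma zE_add {z : ℂ} (hz : z ≠ 0) : P4f18dfV.zE (1 + z) = z * riemannZeta (1 + z) := by
  rw [P4f18dfV.zE_of_ne]
  · ring
  · intro h
    apply hz
    linear_combination h

lemma pi4_g3 {x y : ℝ} {u : Fin 4 → ℂ} (h02 : u 0 + u 2 ≠ 0) (h03 : u 0 + u 3 ≠ 0)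
    (h12 : u 1 + u 2 ≠ 0) (h13 : u 1 + u 3 ≠ 0) (w : ℂ) :
    Pi4 u * G3 x y u w = riemannZeta (1 + 2 * w) * HF x y u w := by
  have e02 := zE_add h02
  have e03 := zE_add h03
  have e12 := zE_add h12
  have e13 := zE_add h13
  rw [← add_assoc] at e02 e03 e12 e13
  unfold Pi4 G3 HF GG
  rw [e02, e03, e12, e13]
  simp only [Fin.prod_univ_three, Matrix.cons_val_zero, Matrix.cons_val_one, Matrix.cons_val_two,
    Matrix.head_cons, Matrix.tail_cons]
  have a1 : 1 + (u 0 + x * I) - (-u 2 + x * I) = 1 + u 0 + u 2 := by ring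
  have a2 : 1 + (u 0 + x * I) - (-u 3 + x * I) = 1 + u 0 + u 3 := by ring
  have a3 : 1 + (u 0 + x * I) - (-w + y * I) = 1 + u 0 + w - (y - x) * I := by ring
  have b1 : 1 + (u 1 + x * I) - (-u 2 + x * I) = 1 + u 1 + u 2 := by ring
  have b2 : 1 + (u 1 + x * I) - (-u 3 + x * I) = 1 + u 1 + u 3 := by ring
  have b3 : 1 + (u 1 + x * I) - (-w + y * I) = 1 + u 1 + w - (y - x) * I := by ring
  have c1 : 1 + (w + y * I) - (-u 2 + x * I) = 1 + u 2 + w + (y - x) * I := by ring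
  have c2 : 1 + (w + y * I) - (-u 3 + x * I) = 1 + u 3 + w + (y - x) * I := by ring
  have c3 : 1 + (w + y * I) - (-w + y * I) = 1 + 2 * w := by ring
  rw [a1, a2, a3, b1, b2, b3, c1, c2, c3]
  ring

/-- the Euler product and the factors `zE` -/
noncomputable def Pa (x y : ℝ) (u : Fin 4 → ℂ) (w : ℂ) : ℂ :=
  AA ![u 0 + x * I, u 1 + x * I, w + y * I] ![-u 2 + x * I, -u 3 + x * I, -w + y * I] *
    (P4f18dfV.zE (1 + u 0 + u 2) * P4f18dfV.zE (1 + u 0 + u 3) *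
      (P4f18dfV.zE (1 + u 1 + u 2) * P4f18dfV.zE (1 + u 1 + u 3)))

/-- the four mixed zeta factors -/
noncomputable def Za (x y : ℝ) (u : Fin 4 → ℂ) (w : ℂ) : ℂ :=
  riemannZeta (1 + u 0 + w - (y - x) * I) * riemannZeta (1 + u 1 + w - (y - x) * I) *
      (riemannZeta (1 + u 2 + w + (y - x) * I) * riemannZeta (1 + u 3 + w + (y - x) * I))

lemma HF_eq (x y : ℝ) (u : Fin 4 → ℂ) (w : ℂ) : HF x y u w = Pa x y u w * Za x y u w := rfl

lemma mem_RegA {x y : ℝ} {u : Fin 4 → ℂ} {w : ℂ} (hu : ∀ i, |(u i).re| < 1 / 10)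
    (h1 : -(1 / 6) < w.re) (h2 : w.re < 1 / 6) :
    ((![u 0 + x * I, u 1 + x * I, w + y * I], ![-u 2 + x * I, -u 3 + x * I, -w + y * I]) :
      (Fin 3 → ℂ) × (Fin 3 → ℂ)) ∈ RegA 3 := by
  have a0 := abs_lt.1 (hu 0)
  have a1 := abs_lt.1 (hu 1)
  have a2 := abs_lt.1 (hu 2)
  have a3 := abs_lt.1 (hu 3)
  constructor
  · intro j
    fin_cases j
    · simp
      linarith [a0.1]
    · simp
      linarith [a1.1]
    · simp
      linarith
  · intro j
    fin_cases j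
    · simp
      linarith [a2.1]
    · simp
      linarith [a3.1]
    · simp
      linarith

lemma pa_bound : ∃ C : ℝ, 0 < C ∧ ∀ (x y Y : ℝ) (u : Fin 4 → ℂ) (w : ℂ), 1 ≤ Y → u ∈ Bx Y →
    -(1 / 6) < w.re → w.re < 1 / 6 → ‖Pa x y u w‖ ≤ C * Y ^ 8 := by
  obtain ⟨C1, hC1, h1⟩ := aa_bound 3
  obtain ⟨C2, hC2, h2⟩ := zE_bound (1 / 2) (by norm_num)
  refine ⟨C1 * (25 * C2) ^ 4, by positivity, ?_⟩
  intro x y Y u w hY hu hw1 hw2
  have hu' : ∀ i, |(u i).re| < 1 / 10 := fun i => (hu i).1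
  have hA := (h1 _ (mem_RegA (x := x) (y := y) hu' hw1 hw2)).2
  have hz : ∀ i j, ‖P4f18dfV.zE (1 + u i + u j)‖ ≤ 25 * C2 * Y ^ 2 := by
    intro i j
    have ni : ∀ k, ‖u k‖ ≤ 1 / 10 + Y := fun k =>
      (Complex.norm_le_abs_re_add_abs_im _).trans (add_le_add (hu k).1.le (hu k).2.le)
    have hre : (1 / 2 : ℝ) ≤ (1 + u i + u j).re := by
      have ai := abs_lt.1 (hu' i)
      have aj := abs_lt.1 (hu' j)
      simp only [add_re, one_re]
      linarith [ai.1, aj.1]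
    have hn : ‖1 + u i + u j‖ ≤ 1 + (1 / 10 + Y) + (1 / 10 + Y) := by
      refine (norm_add_le _ _).trans (add_le_add ((norm_add_le _ _).trans ?_) (ni j))
      rw [norm_one]
      exact add_le_add le_rfl (ni i)
    calc ‖P4f18dfV.zE (1 + u i + u j)‖ ≤ C2 * (1 + ‖1 + u i + u j‖) ^ 2 := h2 _ hre
      _ ≤ C2 * (5 * Y) ^ 2 := by
          apply mul_le_mul_of_nonneg_left _ hC2.le
          apply pow_le_pow_left₀ (by positivity)
          linarith
      _ = 25 * C2 * Y ^ 2 := by ring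
  unfold Pa
  rw [norm_mul, norm_mul, norm_mul, norm_mul]
  calc _ ≤ C1 * (25 * C2 * Y ^ 2 * (25 * C2 * Y ^ 2) * (25 * C2 * Y ^ 2 * (25 * C2 * Y ^ 2))) := by
        gcongr
        · exact hz 0 2
        · exact hz 0 3
        · exact hz 1 2
        · exact hz 1 3
    _ = _ := by ring

lemma za_good {κ Y B x y : ℝ} {u : Fin 4 → ℂ} {w : ℂ} (hκ1 : κ ≤ 1 / 4)
    (hG : Good κ Y B (y - x)) (hu : u ∈ Bx Y) (h1 : -(3 / 20) ≤ w.re) (h2 : w.re ≤ 3 / 20)
    (h3 : |w.im| ≤ Y) : ‖Za x y u w‖ ≤ B ^ 4 := by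
  have hB : 0 ≤ B := (norm_nonneg _).trans (hG.2 1 0 (by linarith) (by norm_num) (by
    rw [abs_zero]; linarith [abs_nonneg w.im]))
  have hp : ∀ i, ‖riemannZeta (1 + u i + w + (y - x) * I)‖ ≤ B := by
    intro i
    have a := abs_lt.1 (hu i).1
    have b := abs_lt.1 (hu i).2
    have c := abs_le.1 h3
    have h4 := hG.2 (1 + (u i).re + w.re) ((u i).im + w.im) (by linarith [a.1]) (by linarith [a.2])
      (abs_le.2 ⟨by linarith [b.1, c.1], by linarith [b.2, c.2]⟩)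
    have e : (1 + u i + w + (y - x) * I : ℂ) =
        ((1 + (u i).re + w.re : ℝ) : ℂ) + ((y - x + ((u i).im + w.im) : ℝ) : ℂ) * I := by
      apply Complex.ext <;> simp
      ring
    rw [e]
    exact h4
  have hm : ∀ i, ‖riemannZeta (1 + u i + w - (y - x) * I)‖ ≤ B := by
    intro i
    have a := abs_lt.1 (hu i).1
    have b := abs_lt.1 (hu i).2
    have c := abs_le.1 h3
    have h4 := hG.2 (1 + (u i).re + w.re) (-((u i).im + w.im)) (by linarith [a.1])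
      (by linarith [a.2]) (abs_le.2 ⟨by linarith [b.2, c.2], by linarith [b.1, c.1]⟩)
    have e : (1 + u i + w - (y - x) * I : ℂ) = (starRingEnd ℂ)
        (((1 + (u i).re + w.re : ℝ) : ℂ) + ((y - x + (-((u i).im + w.im)) : ℝ) : ℂ) * I) := by
      apply Complex.ext <;> simp
      ring
    rw [e, zeta_conj, RCLike.norm_conj]
    exact h4
  unfold Za
  rw [norm_mul, norm_mul, norm_mul]
  calc _ ≤ B * B * (B * B) := by
        gcongr
        · exact hm 0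
        · exact hm 1
        · exact hp 2
        · exact hp 3
    _ = _ := by ring

lemma za_line : ∃ C : ℝ, 0 < C ∧ ∀ (x y : ℝ) (u : Fin 4 → ℂ) (v : ℝ), (∀ i, |(u i).re| < 1 / 10) →
    ‖Za x y u (ww v)‖ ≤ C := by
  obtain ⟨C, hC, h⟩ := zeta_bound_re (1 / 20) (by norm_num)
  refine ⟨C ^ 4, by positivity, fun x y u v hu => ?_⟩
  have hp : ∀ i, ‖riemannZeta (1 + u i + ww v + (y - x) * I)‖ ≤ C := by
    intro i
    apply h
    have a := abs_lt.1 (hu i)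
    simp only [add_re, one_re, ww_re, mul_re, sub_re, ofReal_re, I_re, sub_im, ofReal_im, I_im]
    linarith [a.1]
  have hm : ∀ i, ‖riemannZeta (1 + u i + ww v - (y - x) * I)‖ ≤ C := by
    intro i
    apply h
    have a := abs_lt.1 (hu i)
    simp only [add_re, one_re, ww_re, mul_re, sub_re, ofReal_re, I_re, sub_im, ofReal_im, I_im]
    linarith [a.1]
  unfold Za
  rw [norm_mul, norm_mul, norm_mul]
  calc _ ≤ C * C * (C * C) := by
        gcongr
        · exact hm 0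
        · exact hm 1
        · exact hp 2
        · exact hp 3
    _ = _ := by ring

lemma hf_diff {x y : ℝ} {u : Fin 4 → ℂ} {w : ℂ} (hu : ∀ i, |(u i).re| < 1 / 10)
    (h1 : -(1 / 6) < w.re) (h2 : w.re < 1 / 6)
    (hm : ∀ i, 1 + u i + w - (y - x) * I ≠ 1) (hp : ∀ i, 1 + u i + w + (y - x) * I ≠ 1) :
    DifferentiableAt ℂ (HF x y u) w := by
  have hS : IsOpen {w : ℂ | -(1 / 6) < w.re ∧ w.re < 1 / 6} :=
    (isOpen_lt continuous_const continuous_re).inter (isOpen_lt continuous_re continuous_const)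
  have hAA : DifferentiableAt ℂ (fun w : ℂ => AA ![u 0 + x * I, u 1 + x * I, w + y * I]
      ![-u 2 + x * I, -u 3 + x * I, -w + y * I]) w := by
    have := aa_diff (k := 3) (fun w => ![u 0 + x * I, u 1 + x * I, w + y * I])
      (fun w => ![-u 2 + x * I, -u 3 + x * I, -w + y * I]) _ hS
      (fun j => by
        fin_cases j
        · exact differentiableOn_const _
        · exact differentiableOn_const _
        · exact (differentiable_id.add_const _).differentiableOn)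
      (fun j => by
        fin_cases j
        · exact differentiableOn_const _
        · exact differentiableOn_const _
        · exact (differentiable_neg.add_const _).differentiableOn)
      (fun z hz => mem_RegA hu hz.1 hz.2)
    exact (this w ⟨h1, h2⟩).differentiableAt (hS.mem_nhds ⟨h1, h2⟩)
  have hzm : ∀ i, DifferentiableAt ℂ (fun w : ℂ => riemannZeta (1 + u i + w - (y - x) * I)) w := by
    intro i
    have h3 := differentiableAt_riemannZeta (hm i)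
    exact DifferentiableAt.comp (g := riemannZeta) w h3 (by fun_prop)
  have hzp : ∀ i, DifferentiableAt ℂ (fun w : ℂ => riemannZeta (1 + u i + w + (y - x) * I)) w := by
    intro i
    have h3 := differentiableAt_riemannZeta (hp i)
    exact DifferentiableAt.comp (g := riemannZeta) w h3 (by fun_prop)
  exact (hAA.mul_const _).mul (((hzm 0).mul (hzm 1)).mul ((hzp 2).mul (hzp 3)))

lemma growth {κ a : ℝ} (hκ : 0 < κ) : ∃ C : ℝ, 0 < C ∧ ∀ U : ℝ, 1 ≤ U →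
    U ^ a * Real.exp (-((U ^ κ) ^ 2 / 2)) ≤ C := by
  obtain ⟨n, hn⟩ := exists_nat_ge (a / (2 * κ))
  refine ⟨2 ^ n * n.factorial, by positivity, fun U hU => ?_⟩
  have hU0 : 0 < U := by linarith
  have h1 : U ^ a ≤ ((U ^ κ) ^ 2) ^ n := by
    rw [← pow_mul, ← Real.rpow_natCast (U ^ κ), ← Real.rpow_mul hU0.le]
    apply Real.rpow_le_rpow_of_exponent_le hU
    rw [div_le_iff₀ (by positivity)] at hn
    push_cast
    linarith
  have h2 : ((U ^ κ) ^ 2 / 2) ^ n / n.factorial ≤ Real.exp ((U ^ κ) ^ 2 / 2) :=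
    Real.pow_div_factorial_le_exp _ (by positivity) n
  rw [div_le_iff₀ (by positivity)] at h2
  have h3 : ((U ^ κ) ^ 2) ^ n ≤ 2 ^ n * n.factorial * Real.exp ((U ^ κ) ^ 2 / 2) := by
    calc ((U ^ κ) ^ 2) ^ n = 2 ^ n * ((U ^ κ) ^ 2 / 2) ^ n := by
          rw [← mul_pow]; congr 1; ring
      _ ≤ 2 ^ n * (Real.exp ((U ^ κ) ^ 2 / 2) * n.factorial) := by gcongr
      _ = _ := by ring
  calc U ^ a * Real.exp (-((U ^ κ) ^ 2 / 2))
      ≤ (2 ^ n * n.factorial * Real.exp ((U ^ κ) ^ 2 / 2)) * Real.exp (-((U ^ κ) ^ 2 / 2)) :=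
        mul_le_mul_of_nonneg_right (h1.trans h3) (Real.exp_pos _).le
    _ = 2 ^ n * n.factorial := by
        rw [mul_assoc, ← Real.exp_add, add_neg_cancel, Real.exp_zero, mul_one]

/-- the full integrand -/
noncomputable def gI (x y : ℝ) (u : Fin 4 → ℂ) (v : ℝ) : ℂ :=
  cexp (ww v ^ 2) / ww v * (X2 y (ww v) * (riemannZeta (1 + 2 * ww v) * HF x y u (ww v)))

lemma pi4_tt {x y : ℝ} {u : Fin 4 → ℂ} (hy : 0 < y) (hu : ∀ i, |(u i).re| < 1 / 10)
    (hE : u ∈ RegE) (h13 : u 1 + u 3 ≠ 0) :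
    Pi4 u * TT x y u = (Real.pi : ℂ)⁻¹ * ∫ v : ℝ, gI x y u v := by
  have hne : ∀ z : ℂ, 0 < z.re → z ≠ 0 := by
    intro z hz h
    rw [h] at hz
    exact lt_irrefl _ hz
  rw [tt_int hy hu hE, ← mul_assoc, mul_comm (Pi4 u), mul_assoc, ← integral_const_mul]
  congr 1
  refine integral_congr_ae (Filter.Eventually.of_forall fun v => ?_)
  show Pi4 u * (cexp (ww v ^ 2) / ww v * (X2 y (ww v) * G3 x y u (ww v))) = gI x y u v
  have h := pi4_g3 (x := x) (y := y) (hne _ hE.2.2) (hne _ hE.1) (hne _ hE.2.1) h13 (ww v)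
  unfold gI
  rw [← h]
  ring

lemma norm_X2 {y : ℝ} (hy : 0 < y) (w : ℂ) : ‖X2 y w‖ = (y / (2 * Real.pi)) ^ w.re := by
  unfold X2
  rw [Complex.norm_cpow_eq_rpow_re_of_pos (by positivity)]

lemma gI_bound : ∃ C : ℝ, 0 < C ∧ ∀ (x y Y : ℝ) (u : Fin 4 → ℂ), 0 < y → 1 ≤ Y → u ∈ Bx Y →
    ∀ v : ℝ, ‖gI x y u v‖ ≤
      C * ((y / (2 * Real.pi)) ^ (3 / 20 : ℝ) * Y ^ 8) * Real.exp (-v ^ 2) := by
  obtain ⟨Ca, hCa, hPa⟩ := pa_bound
  obtain ⟨Cz, hCz, hZa⟩ := za_line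
  obtain ⟨Cr, hCr, hzr⟩ := zeta_bound_re (3 / 10) (by norm_num)
  refine ⟨3 * (20 / 3) * (Cr * (Ca * Cz)), by positivity, fun x y Y u hy hY hu v => ?_⟩
  have hu' : ∀ i, |(u i).re| < 1 / 10 := fun i => (hu i).1
  have h1 : ‖cexp (ww v ^ 2)‖ ≤ 3 * Real.exp (-v ^ 2) := by
    rw [Complex.norm_exp]
    have e : (ww v ^ 2).re = 9 / 400 + -v ^ 2 := by
      rw [sq, mul_re, ww_re, ww_im]
      ring
    rw [e, Real.exp_add]
    apply mul_le_mul_of_nonneg_right _ (Real.exp_pos _).le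
    calc Real.exp (9 / 400) ≤ Real.exp 1 := Real.exp_le_exp.2 (by norm_num)
      _ ≤ 3 := by
          have := Real.exp_one_lt_d9
          linarith
  have h2 : 3 / 20 ≤ ‖ww v‖ := by
    have := Complex.re_le_norm (ww v)
    rwa [ww_re] at this
  have h3 : ‖riemannZeta (1 + 2 * ww v)‖ ≤ Cr := by
    apply hzr
    simp only [add_re, one_re, mul_re, re_ofNat, ww_re, im_ofNat]
    norm_num
  have h4 := hPa x y Y u (ww v) hY hu (by rw [ww_re]; norm_num) (by rw [ww_re]; norm_num)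
  have h5 := hZa x y u v hu'
  have h6 : 0 < (y / (2 * Real.pi)) ^ (3 / 20 : ℝ) := Real.rpow_pos_of_pos (by positivity) _
  unfold gI
  rw [HF_eq, norm_mul, norm_div, norm_mul, norm_mul, norm_mul, norm_X2 hy, ww_re]
  have h7 : ‖cexp (ww v ^ 2)‖ / ‖ww v‖ ≤ 3 * Real.exp (-v ^ 2) * (20 / 3) := by
    rw [div_le_iff₀ (by linarith)]
    have : 3 * Real.exp (-v ^ 2) * (20 / 3) * (3 / 20) ≤
        3 * Real.exp (-v ^ 2) * (20 / 3) * ‖ww v‖ :=
      mul_le_mul_of_nonneg_left h2 (by positivity)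
    linarith
  calc _ ≤ (3 * Real.exp (-v ^ 2) * (20 / 3)) * ((y / (2 * Real.pi)) ^ (3 / 20 : ℝ) *
        (Cr * ((Ca * Y ^ 8) * Cz))) := by gcongr
    _ = _ := by ring

lemma gI_cont {x y : ℝ} {u : Fin 4 → ℂ} (hy : 0 < y) (hu : ∀ i, |(u i).re| < 1 / 10) :
    Continuous (gI x y u) := by
  rw [continuous_iff_continuousAt]
  intro v
  have hww : ContinuousAt ww v := by
    unfold ww
    fun_prop
  have hne1 : ∀ z : ℂ, 1 < z.re → z ≠ 1 := by
    intro z hz h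
    rw [h] at hz
    simp at hz
  have h1 : ContinuousAt (HF x y u) (ww v) := by
    apply DifferentiableAt.continuousAt (𝕜 := ℂ)
    apply hf_diff hu (by rw [ww_re]; norm_num) (by rw [ww_re]; norm_num)
    · intro i
      apply hne1
      have a := abs_lt.1 (hu i)
      simp only [add_re, one_re, ww_re, mul_re, sub_re, ofReal_re, I_re, sub_im, ofReal_im, I_im]
      linarith [a.1]
    · intro i
      apply hne1
      have a := abs_lt.1 (hu i)
      simp only [add_re, one_re, ww_re, mul_re, sub_re, ofReal_re, I_re, sub_im, ofReal_im, I_im]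
      linarith [a.1]
  have h2 : ContinuousAt (fun w : ℂ => riemannZeta (1 + 2 * w)) (ww v) := by
    apply DifferentiableAt.continuousAt (𝕜 := ℂ)
    have h3 : DifferentiableAt ℂ riemannZeta (1 + 2 * ww v) := by
      apply differentiableAt_riemannZeta
      apply hne1
      simp only [add_re, one_re, mul_re, re_ofNat, ww_re, im_ofNat]
      norm_num
    exact DifferentiableAt.comp (g := riemannZeta) (ww v) h3 (by fun_prop)
  have h4 : ContinuousAt (fun w : ℂ => X2 y w) (ww v) := by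
    apply DifferentiableAt.continuousAt (𝕜 := ℂ)
    unfold X2
    exact differentiableAt_id.const_cpow (Or.inl (by
      have : (y / (2 * Real.pi) : ℝ) ≠ 0 := by positivity
      exact_mod_cast this))
  have h5 : ContinuousAt (fun w : ℂ => cexp (w ^ 2) / w *
      (X2 y w * (riemannZeta (1 + 2 * w) * HF x y u w))) (ww v) := by
    refine ContinuousAt.mul (ContinuousAt.div ?_ continuousAt_id (ww_ne v)) (h4.mul (h2.mul h1))
    fun_prop
  exact ContinuousAt.comp (g := fun w : ℂ => cexp (w ^ 2) / w *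
      (X2 y w * (riemannZeta (1 + 2 * w) * HF x y u w))) (f := ww) h5 hww

lemma int_exp_half : Integrable (fun v : ℝ => Real.exp (-(v ^ 2 / 2))) := by
  have h := integrable_exp_neg_mul_sq (b := 1 / 2) (by norm_num)
  refine h.congr (Filter.Eventually.of_forall fun v => ?_)
  simp only
  congr 1
  ring

lemma tail_bound {g : ℝ → ℂ} (hg : Continuous g) {M Y : ℝ} (hM : 0 ≤ M) (hY : 0 ≤ Y)
    (hb : ∀ v, ‖g v‖ ≤ M * Real.exp (-v ^ 2)) :
    ‖(∫ v, g v) - ∫ v in (-Y)..Y, g v‖ ≤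
      M * Real.exp (-(Y ^ 2 / 2)) * ∫ v : ℝ, Real.exp (-(v ^ 2 / 2)) := by
  have hI1 : Integrable (fun v : ℝ => M * Real.exp (-v ^ 2)) := by
    have h := (integrable_exp_neg_mul_sq (b := 1) (by norm_num)).const_mul M
    refine h.congr (Filter.Eventually.of_forall fun v => ?_)
    simp only
    rw [neg_one_mul]
  have hI : Integrable g := hI1.mono' hg.aestronglyMeasurable (Filter.Eventually.of_forall hb)
  have hI2 : Integrable (fun v : ℝ => M * Real.exp (-(Y ^ 2 / 2)) * Real.exp (-(v ^ 2 / 2))) :=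
    int_exp_half.const_mul _
  rw [intervalIntegral.integral_of_le (by linarith), ← integral_add_compl measurableSet_Ioc hI,
    add_sub_cancel_left]
  have h1 : ‖∫ v in (Set.Ioc (-Y) Y)ᶜ, g v‖ ≤
      ∫ v in (Set.Ioc (-Y) Y)ᶜ, M * Real.exp (-(Y ^ 2 / 2)) * Real.exp (-(v ^ 2 / 2)) := by
    refine norm_integral_le_of_norm_le hI2.integrableOn ?_
    refine (ae_restrict_iff' measurableSet_Ioc.compl).2 (Filter.Eventually.of_forall fun v hv => ?_)
    refine (hb v).trans ?_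
    rw [mul_assoc, ← Real.exp_add]
    apply mul_le_mul_of_nonneg_left _ hM
    apply Real.exp_le_exp.2
    have hv2 : Y ^ 2 ≤ v ^ 2 := by
      rw [sq_le_sq, abs_of_nonneg hY]
      simp only [Set.mem_compl_iff, Set.mem_Ioc, not_and_or, not_lt, not_le] at hv
      rcases hv with hv | hv
      · rw [abs_of_nonpos (by linarith)]
        linarith
      · exact hv.le.trans (le_abs_self v)
    linarith
  refine h1.trans ((setIntegral_le_integral hI2 (Filter.Eventually.of_forall fun v => ?_)).trans ?_)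
  · exact mul_nonneg (mul_nonneg hM (Real.exp_pos _).le) (Real.exp_pos _).le
  · rw [integral_const_mul]

end ResThreeAux

open ResThreeAux in
theorem res_three (κ : ℝ) (hκ : 0 < κ) (hκ1 : κ ≤ 1 / 1000) (B : ℝ) : ∃ C : ℝ, 0 < C ∧ ∀ (U x y : ℝ) (u : Fin 4 → ℂ),
    1 ≤ U → U ≤ x → x ≤ 16 * U → U ≤ y → y ≤ 16 * U → Good κ (U ^ κ) (B * U ^ κ) (y - x) →
    u ∈ Bx (U ^ κ) → u ∈ RegE → u 1 + u 3 ≠ 0 →
    ‖Pi4 u * TT x y u - HH x y u‖ ≤ C * U ^ (-(1 / 10) : ℝ) := by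
  obtain ⟨Ca, hCa, hPa⟩ := pa_bound
  obtain ⟨Ct, hCt, hgb⟩ := gI_bound
  obtain ⟨Co, hCo, hone⟩ := one_var (e := 7 / 20) (r := 1 / 8) (c := 3 / 20) (by norm_num)
    (by norm_num) (by norm_num) (by norm_num) (by norm_num)
  obtain ⟨Cg, hCg, hgr⟩ := growth (κ := κ) (a := 1 / 4 + 12 * κ) hκ
  set Ig : ℝ := ∫ v : ℝ, Real.exp (-(v ^ 2 / 2)) with hIg
  have hIg0 : 0 ≤ Ig := integral_nonneg fun v => (Real.exp_pos _).le
  refine ⟨Co * (Ca * B ^ 4) * (7 + 16 * Cg) + Ct * 16 * Ig * Cg + 1, by positivity, ?_⟩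
  intro U x y u hU _ _ hy1 hy2 hG hu hE h13
  set Y : ℝ := U ^ κ with hYdef
  have hU0 : 0 < U := by linarith
  have hy0 : 0 < y := by linarith
  have hY : 1 ≤ Y := Real.one_le_rpow hU hκ.le
  have hY0 : 0 < Y := by linarith
  have hu' : ∀ i, |(u i).re| < 1 / 10 := fun i => (hu i).1
  set X : ℝ := y / (2 * Real.pi) with hX
  have hπ3 := Real.pi_gt_three
  have hπ4 := Real.pi_lt_d2
  have hX0 : 0 < X := by positivity
  have hXu : X ≤ 16 * U := by
    rw [hX, div_le_iff₀ (by positivity)]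
    nlinarith
  have hXl : U / 7 ≤ X := by
    rw [hX, div_le_div_iff₀ (by norm_num) (by positivity)]
    nlinarith
  have hBY : 0 ≤ B * Y := (norm_nonneg _).trans (hG.2 1 0 (by linarith) (by norm_num) (by
    rw [abs_zero]; linarith))
  -- the main part
  have hdiff : ∀ s : ℂ, -(1 / 2) + 7 / 20 ≤ s.re → s.re ≤ 3 / 20 → |s.im| ≤ Y →
      DifferentiableAt ℂ (HF x y u) s := by
    intro s hs1 hs2 hs3
    have hc := abs_le.1 hs3
    apply hf_diff hu' (by linarith) (by linarith)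
    · intro i h
      have b := abs_lt.1 (hu i).2
      have h' := congrArg Complex.im h
      simp only [add_im, one_im, sub_im, mul_im, sub_re, ofReal_re, I_im, ofReal_im, I_re] at h'
      have h4 := hG.1
      have h5 : |y - x| ≤ 2 * Y := abs_le.2 ⟨by linarith [b.1, hc.1], by linarith [b.2, hc.2]⟩
      linarith
    · intro i h
      have b := abs_lt.1 (hu i).2
      have h' := congrArg Complex.im h
      simp only [add_im, one_im, sub_im, mul_im, sub_re, ofReal_re, I_im, ofReal_im, I_re] at h'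
      have h4 := hG.1
      have h5 : |y - x| ≤ 2 * Y := abs_le.2 ⟨by linarith [b.2, hc.2], by linarith [b.1, hc.1]⟩
      linarith
  have hbd : ∀ s : ℂ, -(1 / 2) + 7 / 20 ≤ s.re → s.re ≤ 3 / 20 → |s.im| ≤ Y →
      ‖HF x y u s‖ ≤ Ca * Y ^ 8 * (B * Y) ^ 4 := by
    intro s hs1 hs2 hs3
    rw [HF_eq, norm_mul]
    have h1 := hPa x y Y u s hY hu (by linarith) (by linarith)
    have h2 := za_good (by linarith) hG hu (by linarith) hs2 hs3
    gcongr
  have hm := hone X Y (Ca * Y ^ 8 * (B * Y) ^ 4) (HF x y u) hX0 hY (by positivity) hdiff hbd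
  -- the tail
  have ht := tail_bound (gI_cont (x := x) hy0 hu') (M := Ct * (X ^ (3 / 20 : ℝ) * Y ^ 8)) (Y := Y)
    (by positivity) hY0.le (hgb x y Y u hy0 hY hu)
  -- assembly
  set Mn : ℂ := ∫ v in (-Y)..Y, gI x y u v with hMn
  have hMn' : Mn = ∫ v in (-Y)..Y, cexp ((((3 / 20 : ℝ) : ℂ) + v * I) ^ 2) *
      ((X : ℂ) ^ (((3 / 20 : ℝ) : ℂ) + v * I) * riemannZeta (1 + 2 * (((3 / 20 : ℝ) : ℂ) + v * I)) /
        (((3 / 20 : ℝ) : ℂ) + v * I) * HF x y u (((3 / 20 : ℝ) : ℂ) + v * I)) := by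
    rw [hMn]
    refine intervalIntegral.integral_congr fun v _ => ?_
    show cexp (ResThreeAux.ww v ^ 2) / ResThreeAux.ww v * (X2 y (ResThreeAux.ww v) * (riemannZeta (1 + 2 * ResThreeAux.ww v) * HF x y u (ResThreeAux.ww v))) =
      cexp (ResThreeAux.ww v ^ 2) * ((X : ℂ) ^ (ResThreeAux.ww v) * riemannZeta (1 + 2 * ResThreeAux.ww v) / ResThreeAux.ww v * HF x y u (ResThreeAux.ww v))
    unfold X2
    ring
  set Cc : ℂ := ∮ s in C(0, 1 / 8), ((X : ℂ) ^ s * riemannZeta (1 + 2 * s) / s * HF x y u s) with hCc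
  have hHH : HH x y u = (Real.pi : ℂ)⁻¹ * (I⁻¹ * Cc) := by
    unfold HH
    rw [mul_inv, mul_assoc]
    congr 2
    rw [hCc]
    congr 1
    funext s
    unfold X2
    ring
  rw [pi4_tt hy0 hu' hE h13, hHH, ← mul_sub, norm_mul]
  have hπn : ‖(Real.pi : ℂ)⁻¹‖ ≤ 1 := by
    rw [norm_inv, Complex.norm_real, Real.norm_of_nonneg Real.pi_pos.le]
    exact inv_le_one_of_one_le₀ (by linarith)
  have hsplit : (∫ v : ℝ, gI x y u v) - I⁻¹ * Cc = (Mn - I⁻¹ * Cc) +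
      ((∫ v : ℝ, gI x y u v) - Mn) := by ring
  rw [← hMn'] at hm
  have h12 : Y ^ 12 = U ^ (12 * κ) := by
    rw [hYdef, ← Real.rpow_natCast, ← Real.rpow_mul hU0.le]
    congr 1
    push_cast
    ring
  have h8 : Y ^ 8 ≤ Y ^ 12 := pow_le_pow_right₀ hY (by norm_num)
  have hXp : X ^ (3 / 20 : ℝ) ≤ 16 * U ^ (3 / 20 : ℝ) := by
    calc X ^ (3 / 20 : ℝ) ≤ (16 * U) ^ (3 / 20 : ℝ) :=
          Real.rpow_le_rpow hX0.le hXu (by norm_num)
      _ = 16 ^ (3 / 20 : ℝ) * U ^ (3 / 20 : ℝ) := Real.mul_rpow (by norm_num) hU0.le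
      _ ≤ 16 * U ^ (3 / 20 : ℝ) := by
          apply mul_le_mul_of_nonneg_right _ (Real.rpow_nonneg hU0.le _)
          calc (16 : ℝ) ^ (3 / 20 : ℝ) ≤ 16 ^ (1 : ℝ) :=
                Real.rpow_le_rpow_of_exponent_le (by norm_num) (by norm_num)
            _ = 16 := Real.rpow_one _
  have hXm : X ^ (-(1 / 2) + 7 / 20 : ℝ) ≤ 7 * U ^ (-(3 / 20) : ℝ) := by
    have e : (-(1 / 2) + 7 / 20 : ℝ) = -(3 / 20) := by norm_num
    rw [e, Real.rpow_neg hX0.le, Real.rpow_neg hU0.le]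
    have h9 : U ^ (3 / 20 : ℝ) / 7 ≤ X ^ (3 / 20 : ℝ) := by
      calc U ^ (3 / 20 : ℝ) / 7 ≤ U ^ (3 / 20 : ℝ) / 7 ^ (3 / 20 : ℝ) := by
            apply div_le_div_of_nonneg_left (Real.rpow_nonneg hU0.le _)
              (Real.rpow_pos_of_pos (by norm_num) _)
            calc (7 : ℝ) ^ (3 / 20 : ℝ) ≤ 7 ^ (1 : ℝ) :=
                  Real.rpow_le_rpow_of_exponent_le (by norm_num) (by norm_num)
              _ = 7 := Real.rpow_one _
        _ = (U / 7) ^ (3 / 20 : ℝ) := (Real.div_rpow hU0.le (by norm_num) _).symm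
        _ ≤ X ^ (3 / 20 : ℝ) := Real.rpow_le_rpow (by positivity) hXl (by norm_num)
    have h10 : 0 < U ^ (3 / 20 : ℝ) := Real.rpow_pos_of_pos hU0 _
    calc (X ^ (3 / 20 : ℝ))⁻¹ ≤ (U ^ (3 / 20 : ℝ) / 7)⁻¹ := inv_anti₀ (by positivity) h9
      _ = 7 * (U ^ (3 / 20 : ℝ))⁻¹ := by field_simp
  have K1 : Y ^ 12 * U ^ (3 / 20 : ℝ) * Real.exp (-(Y ^ 2 / 2)) ≤ Cg * U ^ (-(1 / 10) : ℝ) := by
    have e : U ^ (12 * κ) * U ^ (3 / 20 : ℝ) = U ^ (-(1 / 10) : ℝ) * U ^ (1 / 4 + 12 * κ) := by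
      rw [← Real.rpow_add hU0, ← Real.rpow_add hU0]
      congr 1
      ring
    rw [h12, e, mul_assoc, mul_comm Cg]
    exact mul_le_mul_of_nonneg_left (hgr U hU) (Real.rpow_nonneg hU0.le _)
  have K2 : Y ^ 12 * U ^ (-(3 / 20) : ℝ) ≤ U ^ (-(1 / 10) : ℝ) := by
    rw [h12, ← Real.rpow_add hU0]
    apply Real.rpow_le_rpow_of_exponent_le hU
    linarith
  have hE0 : 0 < Real.exp (-(Y ^ 2 / 2)) := Real.exp_pos _
  have hmain : ‖Mn - I⁻¹ * Cc‖ ≤ Co * (Ca * B ^ 4) * (7 + 16 * Cg) * U ^ (-(1 / 10) : ℝ) := by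
    refine hm.trans ?_
    have hB4 : 0 ≤ B ^ 4 := by positivity
    calc Co * (Ca * Y ^ 8 * (B * Y) ^ 4) * (X ^ (-(1 / 2) + 7 / 20 : ℝ) +
          X ^ (3 / 20 : ℝ) * Real.exp (-(Y ^ 2 / 2)))
        ≤ Co * (Ca * Y ^ 8 * (B * Y) ^ 4) * (7 * U ^ (-(3 / 20) : ℝ) +
          16 * U ^ (3 / 20 : ℝ) * Real.exp (-(Y ^ 2 / 2))) := by gcongr
      _ = Co * (Ca * B ^ 4) * (7 * (Y ^ 12 * U ^ (-(3 / 20) : ℝ)) +
          16 * (Y ^ 12 * U ^ (3 / 20 : ℝ) * Real.exp (-(Y ^ 2 / 2)))) := by ring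
      _ ≤ Co * (Ca * B ^ 4) * (7 * U ^ (-(1 / 10) : ℝ) + 16 * (Cg * U ^ (-(1 / 10) : ℝ))) := by
          gcongr
      _ = _ := by ring
  have htail : ‖(∫ v : ℝ, gI x y u v) - Mn‖ ≤ Ct * 16 * Ig * Cg * U ^ (-(1 / 10) : ℝ) := by
    refine ht.trans ?_
    calc Ct * (X ^ (3 / 20 : ℝ) * Y ^ 8) * Real.exp (-(Y ^ 2 / 2)) * Ig
        ≤ Ct * (16 * U ^ (3 / 20 : ℝ) * Y ^ 12) * Real.exp (-(Y ^ 2 / 2)) * Ig := by gcongr
      _ = Ct * 16 * Ig * (Y ^ 12 * U ^ (3 / 20 : ℝ) * Real.exp (-(Y ^ 2 / 2))) := by ring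
      _ ≤ Ct * 16 * Ig * (Cg * U ^ (-(1 / 10) : ℝ)) := by gcongr
      _ = _ := by ring
  have hUp : 0 ≤ U ^ (-(1 / 10) : ℝ) := Real.rpow_nonneg hU0.le _
  calc ‖(Real.pi : ℂ)⁻¹‖ * ‖(∫ v : ℝ, gI x y u v) - I⁻¹ * Cc‖
      ≤ 1 * ‖(∫ v : ℝ, gI x y u v) - I⁻¹ * Cc‖ :=
        mul_le_mul_of_nonneg_right hπn (norm_nonneg _)
    _ ≤ ‖Mn - I⁻¹ * Cc‖ + ‖(∫ v : ℝ, gI x y u v) - Mn‖ := by
        rw [one_mul, hsplit]
        exact norm_add_le _ _
    _ ≤ _ := by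
        rw [add_mul, add_mul, one_mul]
        linarith

end Pool.Agent.P07318f
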