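import Pool.Agent.Lib.P07318f.ZFsum
import Pool.Agent.Lib.P07318s.Crude

/-!
# Change of the contours in the zero frequency terms

For fixed `x > 0`. (1) `∫_t ∫_z` at `Re w = 2`, `Re z_i = 7/4`; substitute `w = w' + (z₁+z₂)/2`, i.e. translate `t` by `(Im z₁ + Im z₂)/2` (for fixed
`z₁, z₂`, absolutely convergent integrals): `Re w' = 1/4`. In the variables `(w', z₁, z₂)`: `1-α-β-2w+z₁+z₂ = 1-α-β-2w'`, the arguments of `EE` are
`u₁ = 3s-α+w'+(3z₁+z₂)/2`, `u₂ = -β-w'+(z₂-z₁)/2`, `u₃ = 3s-β+w'+(z₁+3z₂)/2`, `u₄ = -α-w'+(z₁-z₂)/2` : `u₁+u₄ = 3s-2α+2z₁`,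
`u₂+u₃ = 3s-2β+2z₂`, `u₁+u₃ = 6s-α-β+2w'+2z₁+2z₂`. (2) For fixed `z₁, z₂` shift `w'` from `1/4` to `cw = 1/32`: the integrand is holomorphic for
`0 < Re w' + Re(z₁+z₂)/2` and `0 < Re(2w'+α+β)` (no pole of zeta; `Re(2w'+α+β) ≥ 1/16 - 4·10^(-7)`), (`ee_diff`), Gaussian decay on horizontal lines
(`Gw_bound`, zeta polynomially bounded for `1/2 ≤ Re ≤ 15/16`, `EE` bounded: `‖EE‖ ≤` the absolutely convergent sum at the real parts). (3) shift `z₁` from
`7/4` to `cz = 10^(-5)`, then `z₂`: conditions `Re(u₁+u₄) ≥ 2cz - 6ρ > 0` etc. (`‖s‖ = ρ = 10^(-7)`, `α, β ∈ {s, 2s}`). The result is `Zint s α β x a b`.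
Uniform domination in `x` on compact sets for the outer integral over `x` (the statement is for fixed `x`).
-/

set_option autoImplicit false

namespace Pool.Agent.P07318f

open MeasureTheory Complex

namespace ShiftBAux

lemma line_re (a t : ℝ) : ((a : ℂ) + t * I).re = a := by simp
lemma line_im (a t : ℝ) : ((a : ℂ) + t * I).im = t := by simp

lemma line_integrable {F : ℂ → ℂ} {a K κ : ℝ} (hκ : 0 < κ)
    (hF : ∀ t : ℝ, ContinuousAt F (a + t * I))
    (hK : ∀ t : ℝ, ‖F (a + t * I)‖ ≤ K * Real.exp (-κ * t ^ 2)) :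
    Integrable (fun t : ℝ => F (a + t * I)) := by
  have hc : Continuous (fun t : ℝ => F (a + t * I)) := by
    rw [continuous_iff_continuousAt]
    intro t
    have h2 : ContinuousAt (fun t : ℝ => (a : ℂ) + t * I) t := by fun_prop
    exact ContinuousAt.comp (f := fun t : ℝ => (a : ℂ) + t * I) (hF t) h2
  exact ((integrable_exp_neg_mul_sq hκ).const_mul K).mono' hc.aestronglyMeasurable
    (Filter.Eventually.of_forall hK)

/-- shift of a vertical line -/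
theorem shift1 {F : ℂ → ℂ} {a b K κ : ℝ} (hab : a ≤ b) (hκ : 0 < κ)
    (hF : ∀ s : ℂ, a ≤ s.re → s.re ≤ b → DifferentiableAt ℂ F s)
    (hK : ∀ s : ℂ, a ≤ s.re → s.re ≤ b → ‖F s‖ ≤ K * Real.exp (-κ * s.im ^ 2)) :
    ∫ t : ℝ, F (a + t * I) = ∫ t : ℝ, F (b + t * I) := by
  have hbound : ∀ c : ℝ, a ≤ c → c ≤ b → ∀ t : ℝ,
      ‖F (c + t * I)‖ ≤ K * Real.exp (-κ * t ^ 2) := by
    intro c hc1 hc2 t
    have := hK ((c : ℂ) + t * I) (by rw [line_re]; exact hc1) (by rw [line_re]; exact hc2)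
    rwa [line_im] at this
  have hca : ∀ c : ℝ, a ≤ c → c ≤ b → ∀ t : ℝ, ContinuousAt F (c + t * I) := by
    intro c hc1 hc2 t
    exact (hF _ (by rw [line_re]; exact hc1) (by rw [line_re]; exact hc2)).continuousAt
  have hia := line_integrable hκ (hca a le_rfl hab) (hbound a le_rfl hab)
  have hib := line_integrable hκ (hca b hab le_rfl) (hbound b hab le_rfl)
  -- the rectangle identity
  have hrect : ∀ R : ℝ, 0 ≤ R →
      (∫ x : ℝ in a..b, F (x + ((-R : ℝ) : ℂ) * I)) - (∫ x : ℝ in a..b, F (x + (R : ℂ) * I)) +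
      I • (∫ y : ℝ in (-R)..R, F ((b : ℂ) + y * I)) -
      I • (∫ y : ℝ in (-R)..R, F ((a : ℂ) + y * I)) = 0 := by
    intro R hR
    have hz := integral_boundary_rect_eq_zero_of_differentiableOn F
      ((a : ℂ) + ((-R : ℝ) : ℂ) * I) ((b : ℂ) + (R : ℂ) * I) ?_
    · simp only [line_re, line_im] at hz
      exact hz
    · intro s hs
      rw [Complex.mem_reProdIm, line_re, line_re, Set.uIcc_of_le hab] at hs
      exact (hF s hs.1.1 hs.1.2).differentiableWithinAt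
  -- horizontal sides
  have hhor : ∀ R : ℝ, ‖∫ x : ℝ in a..b, F (x + (R : ℂ) * I)‖ ≤
      K * Real.exp (-κ * R ^ 2) * (b - a) := by
    intro R
    have := intervalIntegral.norm_integral_le_of_norm_le_const (a := a) (b := b)
      (f := fun x : ℝ => F (x + (R : ℂ) * I))
      (C := K * Real.exp (-κ * R ^ 2)) ?_
    · rwa [abs_of_nonneg (by linarith)] at this
    · intro x hx
      rw [Set.uIoc_of_le hab] at hx
      exact hbound x hx.1.le hx.2 R
  have hexp0 : Filter.Tendsto (fun R : ℝ => Real.exp (-κ * R ^ 2)) Filter.atTop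
      (nhds 0) := by
    refine Real.tendsto_exp_atBot.comp ?_
    have h1 : Filter.Tendsto (fun R : ℝ => R ^ 2) Filter.atTop Filter.atTop :=
      Filter.tendsto_pow_atTop (by norm_num)
    exact h1.const_mul_atTop_of_neg (by linarith)
  have hlim0 : Filter.Tendsto (fun R : ℝ => K * Real.exp (-κ * R ^ 2) * (b - a))
      Filter.atTop (nhds 0) := by
    have := (hexp0.const_mul K).mul_const (b - a)
    simpa using this
  have hup : Filter.Tendsto (fun R : ℝ => ∫ x : ℝ in a..b, F (x + (R : ℂ) * I)) Filter.atTop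
      (nhds 0) := squeeze_zero_norm hhor hlim0
  have hdown : Filter.Tendsto (fun R : ℝ => ∫ x : ℝ in a..b, F (x + ((-R : ℝ) : ℂ) * I))
      Filter.atTop (nhds 0) := by
    refine squeeze_zero_norm (fun R => ?_) hlim0
    have := hhor (-R)
    rwa [neg_sq] at this
  have hvb : Filter.Tendsto (fun R : ℝ => ∫ y : ℝ in (-R)..R, F ((b : ℂ) + y * I)) Filter.atTop
      (nhds (∫ y : ℝ, F ((b : ℂ) + y * I))) :=
    intervalIntegral_tendsto_integral hib Filter.tendsto_neg_atTop_atBot Filter.tendsto_id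
  have hva : Filter.Tendsto (fun R : ℝ => ∫ y : ℝ in (-R)..R, F ((a : ℂ) + y * I)) Filter.atTop
      (nhds (∫ y : ℝ, F ((a : ℂ) + y * I))) :=
    intervalIntegral_tendsto_integral hia Filter.tendsto_neg_atTop_atBot Filter.tendsto_id
  have htot := ((hdown.sub hup).add (hvb.const_smul I)).sub (hva.const_smul I)
  have hzero : Filter.Tendsto (fun R : ℝ =>
      (∫ x : ℝ in a..b, F (x + ((-R : ℝ) : ℂ) * I)) - (∫ x : ℝ in a..b, F (x + (R : ℂ) * I)) +
      I • (∫ y : ℝ in (-R)..R, F ((b : ℂ) + y * I)) -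
      I • (∫ y : ℝ in (-R)..R, F ((a : ℂ) + y * I))) Filter.atTop (nhds 0) := by
    refine tendsto_const_nhds.congr' ?_
    filter_upwards [Filter.eventually_ge_atTop 0] with R hR
    exact (hrect R hR).symm
  have huniq := tendsto_nhds_unique htot hzero
  rw [sub_zero, zero_add, ← smul_sub, smul_eq_mul, mul_eq_zero] at huniq
  rcases huniq with h0 | h0
  · exact absurd h0 I_ne_zero
  · exact (sub_eq_zero.mp h0).symm

/-- the tube -/
def Tb (a b : Fin 3 → ℝ) (w z₁ z₂ : ℂ) : Prop :=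
  (a 0 ≤ w.re ∧ w.re ≤ b 0) ∧ (a 1 ≤ z₁.re ∧ z₁.re ≤ b 1) ∧ (a 2 ≤ z₂.re ∧ z₂.re ≤ b 2)

/-- integrand on vertical lines -/
noncomputable def ln (Φ : ℂ → ℂ → ℂ → ℂ) (c : Fin 3 → ℝ) (v : ℝ × ℝ × ℝ) : ℂ :=
  Φ (c 0 + v.1 * I) (c 1 + v.2.1 * I) (c 2 + v.2.2 * I)

theorem tube_integrable {Φ : ℂ → ℂ → ℂ → ℂ} {a b : Fin 3 → ℝ} {K κ : ℝ} (hκ : 0 < κ)
    (hc : ContinuousOn (fun p : ℂ × ℂ × ℂ => Φ p.1 p.2.1 p.2.2) {p | Tb a b p.1 p.2.1 p.2.2})
    (hB : ∀ w z₁ z₂ : ℂ, Tb a b w z₁ z₂ → ‖Φ w z₁ z₂‖ ≤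
      K * Real.exp (-κ * (w.im ^ 2 + (z₁.im ^ 2 + z₂.im ^ 2)))) {c : Fin 3 → ℝ}
    (h1 : ∀ i, a i ≤ c i) (h2 : ∀ i, c i ≤ b i) : Integrable (ln Φ c) := by
  have hmem : ∀ v : ℝ × ℝ × ℝ, Tb a b (c 0 + v.1 * I) (c 1 + v.2.1 * I) (c 2 + v.2.2 * I) := by
    intro v
    unfold Tb
    simp only [line_re]
    exact ⟨⟨h1 0, h2 0⟩, ⟨h1 1, h2 1⟩, ⟨h1 2, h2 2⟩⟩
  have hcont : Continuous (ln Φ c) := by
    have h3 : Continuous (fun v : ℝ × ℝ × ℝ =>
        (((c 0 : ℂ) + v.1 * I, (c 1 : ℂ) + v.2.1 * I, (c 2 : ℂ) + v.2.2 * I) : ℂ × ℂ × ℂ)) := by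
      fun_prop
    exact hc.comp_continuous h3 hmem
  have hg := (integrable_exp_neg_mul_sq hκ).mul_prod
    ((integrable_exp_neg_mul_sq hκ).mul_prod (integrable_exp_neg_mul_sq hκ))
  refine (hg.const_mul K).mono' hcont.aestronglyMeasurable
    (Filter.Eventually.of_forall fun v => ?_)
  have h4 := hB _ _ _ (hmem v)
  simp only [line_im] at h4
  refine h4.trans (le_of_eq ?_)
  rw [← Real.exp_add, ← Real.exp_add]
  congr 2
  ring

theorem tube_slice {Φ : ℂ → ℂ → ℂ → ℂ} {a b : Fin 3 → ℝ} {K κ : ℝ} (hκ : 0 < κ)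
    (hc : ContinuousOn (fun p : ℂ × ℂ × ℂ => Φ p.1 p.2.1 p.2.2) {p | Tb a b p.1 p.2.1 p.2.2})
    (hB : ∀ w z₁ z₂ : ℂ, Tb a b w z₁ z₂ → ‖Φ w z₁ z₂‖ ≤
      K * Real.exp (-κ * (w.im ^ 2 + (z₁.im ^ 2 + z₂.im ^ 2)))) {c : Fin 3 → ℝ}
    (h1 : ∀ i, a i ≤ c i) (h2 : ∀ i, c i ≤ b i) (t : ℝ) :
    Integrable (fun u : ℝ × ℝ => ln Φ c (t, u)) := by
  have hmem : ∀ u : ℝ × ℝ, Tb a b (c 0 + t * I) (c 1 + u.1 * I) (c 2 + u.2 * I) := by
    intro v
    unfold Tb
    simp only [line_re]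
    exact ⟨⟨h1 0, h2 0⟩, ⟨h1 1, h2 1⟩, ⟨h1 2, h2 2⟩⟩
  have hcont : Continuous (fun u : ℝ × ℝ => ln Φ c (t, u)) := by
    have h3 : Continuous (fun v : ℝ × ℝ =>
        (((c 0 : ℂ) + t * I, (c 1 : ℂ) + v.1 * I, (c 2 : ℂ) + v.2 * I) : ℂ × ℂ × ℂ)) := by
      fun_prop
    exact hc.comp_continuous h3 hmem
  have hg := (integrable_exp_neg_mul_sq hκ).mul_prod (integrable_exp_neg_mul_sq hκ)
  refine (hg.const_mul (K * Real.exp (-κ * t ^ 2))).mono' hcont.aestronglyMeasurable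
    (Filter.Eventually.of_forall fun v => ?_)
  have h4 := hB _ _ _ (hmem v)
  simp only [line_im] at h4
  refine h4.trans (le_of_eq ?_)
  rw [mul_assoc, ← Real.exp_add, ← Real.exp_add]
  congr 2
  ring

/-- shift of the three contours -/
theorem tube_shift {Φ : ℂ → ℂ → ℂ → ℂ} {a b : Fin 3 → ℝ} {K κ : ℝ} (hκ : 0 < κ)
    (hab : ∀ i, a i ≤ b i)
    (hc : ContinuousOn (fun p : ℂ × ℂ × ℂ => Φ p.1 p.2.1 p.2.2) {p | Tb a b p.1 p.2.1 p.2.2})
    (hd0 : ∀ w z₁ z₂ : ℂ, Tb a b w z₁ z₂ → DifferentiableAt ℂ (fun z => Φ z z₁ z₂) w)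
    (hd1 : ∀ w z₁ z₂ : ℂ, Tb a b w z₁ z₂ → DifferentiableAt ℂ (fun z => Φ w z z₂) z₁)
    (hd2 : ∀ w z₁ z₂ : ℂ, Tb a b w z₁ z₂ → DifferentiableAt ℂ (fun z => Φ w z₁ z) z₂)
    (hB : ∀ w z₁ z₂ : ℂ, Tb a b w z₁ z₂ → ‖Φ w z₁ z₂‖ ≤
      K * Real.exp (-κ * (w.im ^ 2 + (z₁.im ^ 2 + z₂.im ^ 2)))) :
    ∫ v, ln Φ a v = ∫ v, ln Φ b v := by
  have hK0 : 0 ≤ K := by
    have h := (norm_nonneg _).trans (hB (a 0) (a 1) (a 2) (by
      unfold Tb
      simp only [Complex.ofReal_re]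
      exact ⟨⟨le_rfl, hab 0⟩, ⟨le_rfl, hab 1⟩, ⟨le_rfl, hab 2⟩⟩))
    exact nonneg_of_mul_nonneg_left h (Real.exp_pos _)
  have hexp : ∀ x y : ℝ, K * Real.exp (-κ * (x ^ 2 + y ^ 2)) ≤ K * Real.exp (-κ * x ^ 2) := by
    intro x y
    refine mul_le_mul_of_nonneg_left (Real.exp_le_exp.2 ?_) hK0
    nlinarith [sq_nonneg y]
  -- first variable
  have s0 : ∀ c : Fin 3 → ℝ, (∀ i, a i ≤ c i) → (∀ i, c i ≤ b i) →
      ∫ v, ln Φ (Function.update c 0 (a 0)) v = ∫ v, ln Φ (Function.update c 0 (b 0)) v := by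
    intro c h1 h2
    have ha1 : ∀ i, a i ≤ Function.update c 0 (a 0) i := by
      intro i
      rcases eq_or_ne i 0 with rfl | hi
      · rw [Function.update_self]
      · rw [Function.update_of_ne hi]; exact h1 i
    have ha2 : ∀ i, Function.update c 0 (a 0) i ≤ b i := by
      intro i
      rcases eq_or_ne i 0 with rfl | hi
      · rw [Function.update_self]; exact hab 0
      · rw [Function.update_of_ne hi]; exact h2 i
    have hb1 : ∀ i, a i ≤ Function.update c 0 (b 0) i := by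
      intro i
      rcases eq_or_ne i 0 with rfl | hi
      · rw [Function.update_self]; exact hab 0
      · rw [Function.update_of_ne hi]; exact h1 i
    have hb2 : ∀ i, Function.update c 0 (b 0) i ≤ b i := by
      intro i
      rcases eq_or_ne i 0 with rfl | hi
      · rw [Function.update_self]
      · rw [Function.update_of_ne hi]; exact h2 i
    have i1 : Integrable (ln Φ (Function.update c 0 (a 0)))
        ((volume : Measure ℝ).prod (volume : Measure (ℝ × ℝ))) :=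
      tube_integrable hκ hc hB ha1 ha2
    have i2 : Integrable (ln Φ (Function.update c 0 (b 0)))
        ((volume : Measure ℝ).prod (volume : Measure (ℝ × ℝ))) :=
      tube_integrable hκ hc hB hb1 hb2
    rw [Measure.volume_eq_prod, integral_prod_symm _ i1, integral_prod_symm _ i2]
    congr 1
    funext u
    simp only [ln]
    rw [Function.update_self, Function.update_self, Function.update_of_ne (by decide),
      Function.update_of_ne (by decide), Function.update_of_ne (by decide),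
      Function.update_of_ne (by decide)]
    have hm : ∀ s : ℂ, a 0 ≤ s.re → s.re ≤ b 0 → Tb a b s (c 1 + u.1 * I) (c 2 + u.2 * I) := by
      intro s h3 h4
      unfold Tb
      simp only [line_re]
      exact ⟨⟨h3, h4⟩, ⟨h1 1, h2 1⟩, ⟨h1 2, h2 2⟩⟩
    refine shift1 (F := fun w => Φ w (c 1 + u.1 * I) (c 2 + u.2 * I)) (K := K) (hab 0) hκ
      (fun s h3 h4 => hd0 _ _ _ (hm s h3 h4)) (fun s h3 h4 => ?_)
    refine (hB _ _ _ (hm s h3 h4)).trans ?_
    simp only [line_im]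
    refine mul_le_mul_of_nonneg_left (Real.exp_le_exp.2 ?_) hK0
    nlinarith [sq_nonneg u.1, sq_nonneg u.2]
  -- second variable
  have s1 : ∀ c : Fin 3 → ℝ, (∀ i, a i ≤ c i) → (∀ i, c i ≤ b i) →
      ∫ v, ln Φ (Function.update c 1 (a 1)) v = ∫ v, ln Φ (Function.update c 1 (b 1)) v := by
    intro c h1 h2
    have ha1 : ∀ i, a i ≤ Function.update c 1 (a 1) i := by
      intro i
      rcases eq_or_ne i 1 with rfl | hi
      · rw [Function.update_self]
      · rw [Function.update_of_ne hi]; exact h1 i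
    have ha2 : ∀ i, Function.update c 1 (a 1) i ≤ b i := by
      intro i
      rcases eq_or_ne i 1 with rfl | hi
      · rw [Function.update_self]; exact hab 1
      · rw [Function.update_of_ne hi]; exact h2 i
    have hb1 : ∀ i, a i ≤ Function.update c 1 (b 1) i := by
      intro i
      rcases eq_or_ne i 1 with rfl | hi
      · rw [Function.update_self]; exact hab 1
      · rw [Function.update_of_ne hi]; exact h1 i
    have hb2 : ∀ i, Function.update c 1 (b 1) i ≤ b i := by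
      intro i
      rcases eq_or_ne i 1 with rfl | hi
      · rw [Function.update_self]
      · rw [Function.update_of_ne hi]; exact h2 i
    have i1 : Integrable (ln Φ (Function.update c 1 (a 1)))
        ((volume : Measure ℝ).prod (volume : Measure (ℝ × ℝ))) :=
      tube_integrable hκ hc hB ha1 ha2
    have i2 : Integrable (ln Φ (Function.update c 1 (b 1)))
        ((volume : Measure ℝ).prod (volume : Measure (ℝ × ℝ))) :=
      tube_integrable hκ hc hB hb1 hb2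
    rw [Measure.volume_eq_prod, integral_prod _ i1, integral_prod _ i2]
    congr 1
    funext t
    have j1 : Integrable (fun u : ℝ × ℝ => ln Φ (Function.update c 1 (a 1)) (t, u))
        ((volume : Measure ℝ).prod (volume : Measure ℝ)) := tube_slice hκ hc hB ha1 ha2 t
    have j2 : Integrable (fun u : ℝ × ℝ => ln Φ (Function.update c 1 (b 1)) (t, u))
        ((volume : Measure ℝ).prod (volume : Measure ℝ)) := tube_slice hκ hc hB hb1 hb2 t
    rw [Measure.volume_eq_prod, integral_prod_symm _ j1, integral_prod_symm _ j2]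
    congr 1
    funext y
    simp only [ln]
    rw [Function.update_self, Function.update_self, Function.update_of_ne (by decide),
      Function.update_of_ne (by decide), Function.update_of_ne (by decide),
      Function.update_of_ne (by decide)]
    have hm : ∀ s : ℂ, a 1 ≤ s.re → s.re ≤ b 1 → Tb a b (c 0 + t * I) s (c 2 + y * I) := by
      intro s h3 h4
      unfold Tb
      simp only [line_re]
      exact ⟨⟨h1 0, h2 0⟩, ⟨h3, h4⟩, ⟨h1 2, h2 2⟩⟩
    refine shift1 (F := fun w => Φ (c 0 + t * I) w (c 2 + y * I)) (K := K) (hab 1) hκ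
      (fun s h3 h4 => hd1 _ _ _ (hm s h3 h4)) (fun s h3 h4 => ?_)
    refine (hB _ _ _ (hm s h3 h4)).trans ?_
    simp only [line_im]
    refine mul_le_mul_of_nonneg_left (Real.exp_le_exp.2 ?_) hK0
    nlinarith [sq_nonneg t, sq_nonneg y]
  -- third variable
  have s2 : ∀ c : Fin 3 → ℝ, (∀ i, a i ≤ c i) → (∀ i, c i ≤ b i) →
      ∫ v, ln Φ (Function.update c 2 (a 2)) v = ∫ v, ln Φ (Function.update c 2 (b 2)) v := by
    intro c h1 h2
    have ha1 : ∀ i, a i ≤ Function.update c 2 (a 2) i := by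
      intro i
      rcases eq_or_ne i 2 with rfl | hi
      · rw [Function.update_self]
      · rw [Function.update_of_ne hi]; exact h1 i
    have ha2 : ∀ i, Function.update c 2 (a 2) i ≤ b i := by
      intro i
      rcases eq_or_ne i 2 with rfl | hi
      · rw [Function.update_self]; exact hab 2
      · rw [Function.update_of_ne hi]; exact h2 i
    have hb1 : ∀ i, a i ≤ Function.update c 2 (b 2) i := by
      intro i
      rcases eq_or_ne i 2 with rfl | hi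
      · rw [Function.update_self]; exact hab 2
      · rw [Function.update_of_ne hi]; exact h1 i
    have hb2 : ∀ i, Function.update c 2 (b 2) i ≤ b i := by
      intro i
      rcases eq_or_ne i 2 with rfl | hi
      · rw [Function.update_self]
      · rw [Function.update_of_ne hi]; exact h2 i
    have i1 : Integrable (ln Φ (Function.update c 2 (a 2)))
        ((volume : Measure ℝ).prod (volume : Measure (ℝ × ℝ))) :=
      tube_integrable hκ hc hB ha1 ha2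
    have i2 : Integrable (ln Φ (Function.update c 2 (b 2)))
        ((volume : Measure ℝ).prod (volume : Measure (ℝ × ℝ))) :=
      tube_integrable hκ hc hB hb1 hb2
    rw [Measure.volume_eq_prod, integral_prod _ i1, integral_prod _ i2]
    congr 1
    funext t
    have j1 : Integrable (fun u : ℝ × ℝ => ln Φ (Function.update c 2 (a 2)) (t, u))
        ((volume : Measure ℝ).prod (volume : Measure ℝ)) := tube_slice hκ hc hB ha1 ha2 t
    have j2 : Integrable (fun u : ℝ × ℝ => ln Φ (Function.update c 2 (b 2)) (t, u))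
        ((volume : Measure ℝ).prod (volume : Measure ℝ)) := tube_slice hκ hc hB hb1 hb2 t
    rw [Measure.volume_eq_prod, integral_prod _ j1, integral_prod _ j2]
    congr 1
    funext y
    simp only [ln]
    rw [Function.update_self, Function.update_self, Function.update_of_ne (by decide),
      Function.update_of_ne (by decide), Function.update_of_ne (by decide),
      Function.update_of_ne (by decide)]
    have hm : ∀ s : ℂ, a 2 ≤ s.re → s.re ≤ b 2 → Tb a b (c 0 + t * I) (c 1 + y * I) s := by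
      intro s h3 h4
      unfold Tb
      simp only [line_re]
      exact ⟨⟨h1 0, h2 0⟩, ⟨h1 1, h2 1⟩, ⟨h3, h4⟩⟩
    refine shift1 (F := fun w => Φ (c 0 + t * I) (c 1 + y * I) w) (K := K) (hab 2) hκ
      (fun s h3 h4 => hd2 _ _ _ (hm s h3 h4)) (fun s h3 h4 => ?_)
    refine (hB _ _ _ (hm s h3 h4)).trans ?_
    simp only [line_im]
    refine mul_le_mul_of_nonneg_left (Real.exp_le_exp.2 ?_) hK0
    nlinarith [sq_nonneg t, sq_nonneg y]
  have e0 : Function.update a 0 (a 0) = a := Function.update_eq_self 0 a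
  have k0 := s0 a (fun i => le_rfl) hab
  rw [e0] at k0
  have u01 : ∀ i, a i ≤ Function.update a 0 (b 0) i := by
    intro i
    rcases eq_or_ne i 0 with rfl | hi
    · rw [Function.update_self]; exact hab 0
    · rw [Function.update_of_ne hi]
  have u02 : ∀ i, Function.update a 0 (b 0) i ≤ b i := by
    intro i
    rcases eq_or_ne i 0 with rfl | hi
    · rw [Function.update_self]
    · rw [Function.update_of_ne hi]; exact hab i
  have k1 := s1 (Function.update a 0 (b 0)) u01 u02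
  have e1 : Function.update (Function.update a 0 (b 0)) 1 (a 1) = Function.update a 0 (b 0) := by
    funext i
    fin_cases i <;> simp
  rw [e1] at k1
  have u11 : ∀ i, a i ≤ Function.update (Function.update a 0 (b 0)) 1 (b 1) i := by
    intro i
    rcases eq_or_ne i 1 with rfl | hi
    · rw [Function.update_self]; exact hab 1
    · rw [Function.update_of_ne hi]; exact u01 i
  have u12 : ∀ i, Function.update (Function.update a 0 (b 0)) 1 (b 1) i ≤ b i := by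
    intro i
    rcases eq_or_ne i 1 with rfl | hi
    · rw [Function.update_self]
    · rw [Function.update_of_ne hi]; exact u02 i
  have k2 := s2 (Function.update (Function.update a 0 (b 0)) 1 (b 1)) u11 u12
  have e2 : Function.update (Function.update (Function.update a 0 (b 0)) 1 (b 1)) 2 (a 2) =
      Function.update (Function.update a 0 (b 0)) 1 (b 1) := by
    funext i
    fin_cases i <;> simp
  have e3 : Function.update (Function.update (Function.update a 0 (b 0)) 1 (b 1)) 2 (b 2) = b := by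
    funext i
    fin_cases i <;> simp
  rw [e2, e3] at k2
  exact k0.trans (k1.trans k2)

/-- the shear -/
noncomputable def shr (v : ℝ × ℝ × ℝ) : ℝ × ℝ × ℝ := (v.1 + (v.2.1 + v.2.2) / 2, v.2)

theorem shr_mp : MeasurePreserving shr ∧ MeasurableEmbedding shr := by
  constructor
  · have h1 : MeasurePreserving (fun p : (ℝ × ℝ) × ℝ => (id p.1, p.2 + (p.1.1 + p.1.2) / 2))
        ((volume : Measure (ℝ × ℝ)).prod (volume : Measure ℝ))
        ((volume : Measure (ℝ × ℝ)).prod (volume : Measure ℝ)) := by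
      refine MeasurePreserving.skew_product (g := fun (u : ℝ × ℝ) (t : ℝ) => t + (u.1 + u.2) / 2)
        (MeasurePreserving.id _) ?_ (Filter.Eventually.of_forall fun u => ?_)
      · fun_prop
      · exact map_add_right_eq_self _ _
    have h2 := (Measure.measurePreserving_swap (μ := (volume : Measure (ℝ × ℝ)))
      (ν := (volume : Measure ℝ))).comp (h1.comp (Measure.measurePreserving_swap
      (μ := (volume : Measure ℝ)) (ν := (volume : Measure (ℝ × ℝ)))))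
    exact h2
  · let e : (ℝ × ℝ × ℝ) ≃ᵐ (ℝ × ℝ × ℝ) :=
      { toFun := shr
        invFun := fun v => (v.1 - (v.2.1 + v.2.2) / 2, v.2)
        left_inv := fun v => by simp [shr]
        right_inv := fun v => by simp [shr]
        measurable_toFun := by
          show Measurable shr
          unfold shr
          fun_prop
        measurable_invFun := by
          show Measurable (fun v : ℝ × ℝ × ℝ => (v.1 - (v.2.1 + v.2.2) / 2, v.2))
          fun_prop }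
    exact e.measurableEmbedding


/-! ### Bounds of the factors -/

lemma exp_lin_sq (y : ℝ) : 1 + y ^ 2 ≤ 2 * Real.exp (y ^ 2 / 2) := by
  have := Real.add_one_le_exp (y ^ 2 / 2)
  nlinarith [Real.exp_pos (y ^ 2 / 2)]

/-- uniform bound of `Gz` in a strip -/
lemma gz_bd {s : ℂ} (hs : s ≠ 0) {c : ℝ} : ∃ C : ℝ, 0 < C ∧ ∀ z : ℂ, |z.re| ≤ c →
    ‖Gz s z‖ ≤ C * Real.exp (-(z.im ^ 2 / 2)) := by
  have hs0 : 0 < ‖s‖ := norm_pos_iff.mpr hs
  have hA : 0 < 1 + 8 * (c ^ 2 + 1) / ‖s‖ ^ 2 := by positivity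
  refine ⟨2 * Real.exp (c ^ 2) * (1 + 8 * (c ^ 2 + 1) / ‖s‖ ^ 2), by positivity, fun z hz => ?_⟩
  have hre2 : z.re ^ 2 ≤ c ^ 2 := by
    rw [← sq_abs z.re]
    exact pow_le_pow_left₀ (abs_nonneg _) hz 2
  have h1 : ‖cexp (z ^ 2)‖ ≤ Real.exp (c ^ 2) * Real.exp (-(z.im ^ 2)) := by
    rw [Complex.norm_exp, ← Real.exp_add]
    apply Real.exp_le_exp.2
    have : (z ^ 2).re = z.re ^ 2 - z.im ^ 2 := by
      rw [sq, Complex.mul_re]
      ring
    rw [this]
    linarith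
  have hn2 : ‖z‖ ^ 2 = z.re ^ 2 + z.im ^ 2 := by
    rw [← Complex.normSq_eq_norm_sq, Complex.normSq_apply]
    ring
  have h2 : ‖1 - 4 * z ^ 2 / s ^ 2‖ ≤ (1 + 8 * (c ^ 2 + 1) / ‖s‖ ^ 2) * (1 + z.im ^ 2) := by
    have h3 : ‖1 - 4 * z ^ 2 / s ^ 2‖ ≤ 1 + 4 * (z.re ^ 2 + z.im ^ 2) / ‖s‖ ^ 2 := by
      refine (norm_sub_le _ _).trans ?_
      rw [norm_one, norm_div, norm_mul, norm_pow, norm_pow, hn2]
      norm_num
    refine h3.trans ?_
    have h4 : 4 * (z.re ^ 2 + z.im ^ 2) / ‖s‖ ^ 2 ≤ 8 * (c ^ 2 + 1) * (1 + z.im ^ 2) / ‖s‖ ^ 2 := by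
      apply div_le_div_of_nonneg_right _ (by positivity)
      nlinarith [sq_nonneg z.im, sq_nonneg c, mul_nonneg (sq_nonneg c) (sq_nonneg z.im)]
    have h5 : (1 + 8 * (c ^ 2 + 1) / ‖s‖ ^ 2) * (1 + z.im ^ 2) =
        (1 + z.im ^ 2) + 8 * (c ^ 2 + 1) * (1 + z.im ^ 2) / ‖s‖ ^ 2 := by
      ring
    rw [h5]
    nlinarith [sq_nonneg z.im]
  have h6 : (1 + z.im ^ 2) * Real.exp (-(z.im ^ 2)) ≤ 2 * Real.exp (-(z.im ^ 2 / 2)) := by
    have h7 := mul_le_mul_of_nonneg_right (exp_lin_sq z.im) (Real.exp_pos (-(z.im ^ 2))).le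
    rw [mul_assoc, ← Real.exp_add] at h7
    have h8 : z.im ^ 2 / 2 + -(z.im ^ 2) = -(z.im ^ 2 / 2) := by ring
    rwa [h8] at h7
  unfold Gz
  rw [norm_mul]
  calc ‖cexp (z ^ 2)‖ * ‖1 - 4 * z ^ 2 / s ^ 2‖
      ≤ (Real.exp (c ^ 2) * Real.exp (-(z.im ^ 2))) *
        ((1 + 8 * (c ^ 2 + 1) / ‖s‖ ^ 2) * (1 + z.im ^ 2)) :=
        mul_le_mul h1 h2 (norm_nonneg _) (by positivity)
    _ = Real.exp (c ^ 2) * (1 + 8 * (c ^ 2 + 1) / ‖s‖ ^ 2) *
        ((1 + z.im ^ 2) * Real.exp (-(z.im ^ 2))) := by ring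
    _ ≤ Real.exp (c ^ 2) * (1 + 8 * (c ^ 2 + 1) / ‖s‖ ^ 2) *
        (2 * Real.exp (-(z.im ^ 2 / 2))) := mul_le_mul_of_nonneg_left h6 (by positivity)
    _ = _ := by ring

/-- zeta to the left of the pole -/
lemma zeta_bd : ∃ C : ℝ, 0 < C ∧ ∀ S : ℂ, 1 / 4 ≤ S.re → S.re ≤ 15 / 16 + 1 / 100 →
    ‖riemannZeta S‖ ≤ C * (1 + S.im ^ 2) := by
  obtain ⟨C, hC, h⟩ := P07318s.zE_bound (1 / 4) (by norm_num)
  refine ⟨C * 200, by positivity, fun S h1 h2 => ?_⟩
  have hS1 : S ≠ 1 := by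
    rintro rfl
    rw [Complex.one_re] at h2
    norm_num at h2
  have h3 := h S h1
  rw [P4f18dfV.zE_of_ne hS1, norm_mul] at h3
  have h4 : 1 / 20 ≤ ‖S - 1‖ := by
    have h5 := Complex.abs_re_le_norm (S - 1)
    rw [Complex.sub_re, Complex.one_re] at h5
    have h6 : 1 / 20 ≤ |S.re - 1| := by
      rw [abs_of_nonpos (by linarith)]
      linarith
    linarith
  have h5 : ‖S‖ ≤ 1 + |S.im| := by
    refine (Complex.norm_le_abs_re_add_abs_im S).trans ?_
    rw [abs_of_nonneg (by linarith : (0:ℝ) ≤ S.re)]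
    linarith
  have h6 : (1 + ‖S‖) ^ 2 ≤ 10 * (1 + S.im ^ 2) := by
    have h7 : (1 + ‖S‖) ^ 2 ≤ (2 + |S.im|) ^ 2 := pow_le_pow_left₀ (by positivity) (by linarith) 2
    have h8 : |S.im| ^ 2 = S.im ^ 2 := sq_abs _
    nlinarith [sq_nonneg (|S.im| - 1), abs_nonneg S.im]
  have h7 : 1 / 20 * ‖riemannZeta S‖ ≤ C * (10 * (1 + S.im ^ 2)) :=
    calc 1 / 20 * ‖riemannZeta S‖ ≤ ‖S - 1‖ * ‖riemannZeta S‖ :=
          mul_le_mul_of_nonneg_right h4 (norm_nonneg _)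
      _ ≤ C * (1 + ‖S‖) ^ 2 := h3
      _ ≤ C * (10 * (1 + S.im ^ 2)) := mul_le_mul_of_nonneg_left h6 hC.le
  linarith

/-- `‖EE‖` is at most `‖EE‖` at the real parts -/
lemma ee_le_re (a b : ℕ+) {u : Fin 4 → ℂ} (hu : u ∈ RegE) :
    ‖EE a b (u 0) (u 1) (u 2) (u 3)‖ ≤
      ‖EE a b ((u 0).re : ℂ) ((u 1).re : ℂ) ((u 2).re : ℂ) ((u 3).re : ℂ)‖ := by
  have hs := ee_summable a b hu
  have hpw : ∀ (n : ℕ+) (z : ℂ), ‖pw n z‖ = ((n : ℕ) : ℝ) ^ (-(1 / 2 + z.re)) := by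
    intro n z
    unfold pw
    have hn : (0:ℝ) < ((n : ℕ) : ℝ) := by exact_mod_cast n.pos
    rw [← Complex.ofReal_natCast, Complex.norm_cpow_eq_rpow_re_of_pos hn]
    congr 1
    simp
  have hcp : ∀ (n : ℕ), 0 < n → ∀ z : ℂ, ‖((n : ℕ) : ℂ) ^ (-(1 / 2 + z))‖ =
      ((n : ℕ) : ℝ) ^ (-(1 / 2 + z.re)) := by
    intro n hn z
    have hn : (0:ℝ) < ((n : ℕ) : ℝ) := by exact_mod_cast hn
    rw [← Complex.ofReal_natCast, Complex.norm_cpow_eq_rpow_re_of_pos hn]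
    congr 1
    simp
  have hcpr : ∀ (n : ℕ), 0 < n → ∀ r : ℝ, ((n : ℕ) : ℂ) ^ (-(1 / 2 + (r : ℂ))) =
      ((((n : ℕ) : ℝ) ^ (-(1 / 2 + r)) : ℝ) : ℂ) := by
    intro n hn r
    rw [Complex.ofReal_cpow (Nat.cast_nonneg n)]
    push_cast
    rfl
  have hvv : ∀ m n : ℕ+, 0 < vv a b m n := by
    intro m n
    unfold vv
    exact Nat.div_pos (Nat.le_of_dvd (Nat.mul_pos b.pos n.pos) (Nat.gcd_dvd_right _ _))
      (Nat.gcd_pos_of_pos_left _ (Nat.mul_pos a.pos m.pos))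
  have huu : ∀ m n : ℕ+, 0 < uu a b m n := by
    intro m n
    unfold uu
    exact Nat.div_pos (Nat.le_of_dvd (Nat.mul_pos a.pos m.pos) (Nat.gcd_dvd_left _ _))
      (Nat.gcd_pos_of_pos_left _ (Nat.mul_pos a.pos m.pos))
  set f : ℕ+ × ℕ+ → ℝ := fun p => ‖pw p.1 (u 0) * pw p.2 (u 2) *
      ((((vv a b p.1 p.2 : ℕ) : ℂ) ^ (-(1 / 2 + u 1))) *
        (((uu a b p.1 p.2 : ℕ) : ℂ) ^ (-(1 / 2 + u 3))))‖ with hf
  have e : EE a b ((u 0).re : ℂ) ((u 1).re : ℂ) ((u 2).re : ℂ) ((u 3).re : ℂ) =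
      ((∑' p, f p : ℝ) : ℂ) := by
    rw [Complex.ofReal_tsum]
    unfold EE
    refine tsum_congr fun p => ?_
    simp only [hf]
    rw [norm_mul, norm_mul, norm_mul, hpw, hpw, hcp _ (hvv _ _), hcp _ (huu _ _),
      hcpr _ (hvv _ _), hcpr _ (huu _ _)]
    unfold pw
    rw [hcpr _ p.1.pos, hcpr _ p.2.pos]
    push_cast
    rfl
  rw [e, Complex.norm_real, Real.norm_of_nonneg (tsum_nonneg fun p => norm_nonneg _)]
  unfold EE
  exact norm_tsum_le_tsum_norm hs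

lemma regE_open : IsOpen RegE := by
  unfold RegE
  have h1 : IsOpen {u : Fin 4 → ℂ | 0 < (u 0 + u 3).re} :=
    isOpen_lt continuous_const (Complex.continuous_re.comp (by fun_prop))
  have h2 : IsOpen {u : Fin 4 → ℂ | 0 < (u 1 + u 2).re} :=
    isOpen_lt continuous_const (Complex.continuous_re.comp (by fun_prop))
  have h3 : IsOpen {u : Fin 4 → ℂ | 0 < (u 0 + u 2).re} :=
    isOpen_lt continuous_const (Complex.continuous_re.comp (by fun_prop))
  exact h1.inter (h2.inter h3)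

/-- `EE` along a curve -/
lemma ee_at (a b : ℕ+) {f : Fin 4 → ℂ → ℂ} (hf : ∀ i, Differentiable ℂ (f i)) {z : ℂ}
    (hz : (fun i => f i z) ∈ RegE) :
    DifferentiableAt ℂ (fun z => EE a b (f 0 z) (f 1 z) (f 2 z) (f 3 z)) z := by
  have hc : Continuous (fun z => (fun i => f i z : Fin 4 → ℂ)) :=
    continuous_pi fun i => (hf i).continuous
  have hS : IsOpen ((fun z => (fun i => f i z : Fin 4 → ℂ)) ⁻¹' RegE) := regE_open.preimage hc
  exact (ee_diff a b f _ hS (fun i => (hf i).differentiableOn) (fun z hz => hz)).differentiableAt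
    (hS.mem_nhds hz)

lemma X2_norm {x : ℝ} (hx : 0 < x) (w : ℂ) :
    ‖X2 x w‖ = (x / (2 * Real.pi)) ^ w.re := by
  unfold X2
  rw [Complex.norm_cpow_eq_rpow_re_of_pos (by positivity)]

lemma X2_bd {x : ℝ} (hx : 0 < x) {c : ℝ} (hc : 0 ≤ c) {w : ℂ} (hw : |w.re| ≤ c) :
    ‖X2 x w‖ ≤ (x / (2 * Real.pi) + (x / (2 * Real.pi))⁻¹ + 1) ^ c := by
  rw [X2_norm hx]
  set y : ℝ := x / (2 * Real.pi) with hy
  have hy0 : 0 < y := by positivity
  have hB : 1 ≤ y + y⁻¹ + 1 := by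
    have := inv_pos.2 hy0
    linarith
  rw [abs_le] at hw
  rcases le_total 1 y with h | h
  · calc y ^ w.re ≤ y ^ c := Real.rpow_le_rpow_of_exponent_le h hw.2
      _ ≤ (y + y⁻¹ + 1) ^ c := Real.rpow_le_rpow hy0.le (by
          have := inv_pos.2 hy0
          linarith) hc
  · have h1 : y ^ w.re ≤ y ^ (-c) := Real.rpow_le_rpow_of_exponent_ge hy0 h (by linarith)
    rw [Real.rpow_neg hy0.le, ← Real.inv_rpow hy0.le] at h1
    refine h1.trans (Real.rpow_le_rpow (inv_pos.2 hy0).le (by linarith) hc)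

lemma X2_diff {x : ℝ} (hx : 0 < x) : Differentiable ℂ (X2 x) := by
  have h : ((x / (2 * Real.pi) : ℝ) : ℂ) ≠ 0 := by
    rw [Complex.ofReal_ne_zero]
    positivity
  intro w
  unfold X2
  exact (differentiableAt_id).const_cpow (Or.inl h)

/-! ### The kernel of the zero frequency terms -/

/-- the four arguments of `EE` -/
noncomputable def ua (s α β w z₁ z₂ : ℂ) : Fin 4 → ℂ :=
  ![3 * s - α + w + (3 * z₁ + z₂) / 2, -β - w + (z₂ - z₁) / 2,
    3 * s - β + w + (z₁ + 3 * z₂) / 2, -α - w + (z₁ - z₂) / 2]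

/-- the kernel in the new variables -/
noncomputable def Pk (s α β : ℂ) (x : ℝ) (a b : ℕ+) (w z₁ z₂ : ℂ) : ℂ :=
  Zker s α β x w z₁ z₂ * (riemannZeta (1 - α - β - 2 * w) *
    EE a b (ua s α β w z₁ z₂ 0) (ua s α β w z₁ z₂ 1) (ua s α β w z₁ z₂ 2) (ua s α β w z₁ z₂ 3))

lemma pk_eq (s α β : ℂ) (x : ℝ) (a b : ℕ+) (w z₁ z₂ : ℂ) :
    Gw s (w + (z₁ + z₂) / 2) / (w + (z₁ + z₂) / 2) *
      Z1 s α β x a b (w + (z₁ + z₂) / 2) z₁ z₂ = Pk s α β x a b w z₁ z₂ := by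
  have e0 : 3 * s - α + (w + (z₁ + z₂) / 2) + z₁ = 3 * s - α + w + (3 * z₁ + z₂) / 2 := by ring
  have e1 : -β - (w + (z₁ + z₂) / 2) + z₂ = -β - w + (z₂ - z₁) / 2 := by ring
  have e2 : 3 * s - β + (w + (z₁ + z₂) / 2) + z₂ = 3 * s - β + w + (z₁ + 3 * z₂) / 2 := by ring
  have e3 : -α - (w + (z₁ + z₂) / 2) + z₁ = -α - w + (z₁ - z₂) / 2 := by ring
  have e4 : 1 - α - β - 2 * (w + (z₁ + z₂) / 2) + z₁ + z₂ = 1 - α - β - 2 * w := by ring
  unfold Z1 Pk Zker
  rw [e0, e1, e2, e3, e4]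
  simp only [ua, Matrix.cons_val]
  ring

/-- the open region -/
def Gd (s α β w z₁ z₂ : ℂ) : Prop :=
  0 < w.re ∧ 0 < z₁.re ∧ 0 < z₂.re ∧ 0 < (α + β + 2 * w).re ∧ ua s α β w z₁ z₂ ∈ RegE

lemma ne_of_re {z : ℂ} (h : 0 < z.re) : z ≠ 0 := by
  rintro rfl
  simp at h

lemma Gw_diff (s : ℂ) : Differentiable ℂ (Gw s) := by
  unfold Gw
  fun_prop

lemma Gz_diff (s : ℂ) : Differentiable ℂ (Gz s) := by
  unfold Gz
  fun_prop

lemma sum_re {w z₁ z₂ : ℂ} : (w + (z₁ + z₂) / 2).re = w.re + (z₁.re + z₂.re) / 2 := by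
  simp

lemma sum_im {w z₁ z₂ : ℂ} : (w + (z₁ + z₂) / 2).im = w.im + (z₁.im + z₂.im) / 2 := by
  simp

lemma pk_diffAt (s α β : ℂ) {x : ℝ} (hx : 0 < x) (a b : ℕ+) {f g h : ℂ → ℂ}
    (hf : Differentiable ℂ f) (hg : Differentiable ℂ g) (hh : Differentiable ℂ h) {z : ℂ}
    (hz : Gd s α β (f z) (g z) (h z)) :
    DifferentiableAt ℂ (fun z => Pk s α β x a b (f z) (g z) (h z)) z := by
  obtain ⟨h1, h2, h3, h4, h5⟩ := hz
  have hW : f z + (g z + h z) / 2 ≠ 0 := ne_of_re (by rw [sum_re]; linarith)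
  have hz1 : g z ≠ 0 := ne_of_re h2
  have hz2 : h z ≠ 0 := ne_of_re h3
  have hS : 1 - α - β - 2 * f z ≠ 1 := by
    intro hc
    have h6 : α + β + 2 * f z = 0 := by linear_combination -hc
    rw [h6] at h4
    simp at h4
  have dW : DifferentiableAt ℂ (fun z => f z + (g z + h z) / 2) z := by fun_prop
  have d1 : DifferentiableAt ℂ (fun z => Gw s (f z + (g z + h z) / 2)) z :=
    ((Gw_diff s) _).comp z dW
  have d2 : DifferentiableAt ℂ (fun z => Gz s (g z)) z := ((Gz_diff s) _).comp z (hg z)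
  have d3 : DifferentiableAt ℂ (fun z => Gz s (h z)) z := ((Gz_diff s) _).comp z (hh z)
  have d4 : DifferentiableAt ℂ (fun z => X2 x (-α - β + g z + h z)) z :=
    ((X2_diff hx) _).comp z (by fun_prop)
  have d5 : DifferentiableAt ℂ (fun z => riemannZeta (1 - α - β - 2 * f z)) z :=
    (differentiableAt_riemannZeta hS).comp z (by fun_prop)
  have d6 : DifferentiableAt ℂ (fun z => EE a b (ua s α β (f z) (g z) (h z) 0)
      (ua s α β (f z) (g z) (h z) 1) (ua s α β (f z) (g z) (h z) 2)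
      (ua s α β (f z) (g z) (h z) 3)) z := by
    refine ee_at a b (f := fun i z => ua s α β (f z) (g z) (h z) i) (fun i => ?_) h5
    fin_cases i
    · show Differentiable ℂ (fun z => 3 * s - α + f z + (3 * g z + h z) / 2)
      fun_prop
    · show Differentiable ℂ (fun z => -β - f z + (h z - g z) / 2)
      fun_prop
    · show Differentiable ℂ (fun z => 3 * s - β + f z + (g z + 3 * h z) / 2)
      fun_prop
    · show Differentiable ℂ (fun z => -α - f z + (g z - h z) / 2)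
      fun_prop
  unfold Pk Zker
  exact (((d1.div dW hW).mul ((d2.div (hg z) hz1).mul (d3.div (hh z) hz2))).mul d4).mul
    (d5.mul d6)

lemma pk_contAt (s α β : ℂ) {x : ℝ} (hx : 0 < x) (a b : ℕ+) {p : ℂ × ℂ × ℂ}
    (hp : Gd s α β p.1 p.2.1 p.2.2) :
    ContinuousAt (fun p : ℂ × ℂ × ℂ => Pk s α β x a b p.1 p.2.1 p.2.2) p := by
  obtain ⟨h1, h2, h3, h4, h5⟩ := hp
  have hW : p.1 + (p.2.1 + p.2.2) / 2 ≠ 0 := ne_of_re (by rw [sum_re]; linarith)
  have hz1 : p.2.1 ≠ 0 := ne_of_re h2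
  have hz2 : p.2.2 ≠ 0 := ne_of_re h3
  have hS : 1 - α - β - 2 * p.1 ≠ 1 := by
    intro hc
    have h6 : α + β + 2 * p.1 = 0 := by linear_combination -hc
    rw [h6] at h4
    simp at h4
  have dW : ContinuousAt (fun p : ℂ × ℂ × ℂ => p.1 + (p.2.1 + p.2.2) / 2) p := by fun_prop
  have c1 : ContinuousAt (fun p : ℂ × ℂ × ℂ => p.2.1) p := by fun_prop
  have c2 : ContinuousAt (fun p : ℂ × ℂ × ℂ => p.2.2) p := by fun_prop
  have d1 : ContinuousAt (fun p : ℂ × ℂ × ℂ => Gw s (p.1 + (p.2.1 + p.2.2) / 2)) p :=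
    ContinuousAt.comp (g := Gw s) (f := fun p : ℂ × ℂ × ℂ => p.1 + (p.2.1 + p.2.2) / 2)
      (Gw_diff s).continuous.continuousAt dW
  have d2 : ContinuousAt (fun p : ℂ × ℂ × ℂ => Gz s p.2.1) p :=
    ContinuousAt.comp (g := Gz s) (f := fun p : ℂ × ℂ × ℂ => p.2.1)
      (Gz_diff s).continuous.continuousAt c1
  have d3 : ContinuousAt (fun p : ℂ × ℂ × ℂ => Gz s p.2.2) p :=
    ContinuousAt.comp (g := Gz s) (f := fun p : ℂ × ℂ × ℂ => p.2.2)
      (Gz_diff s).continuous.continuousAt c2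
  have d4 : ContinuousAt (fun p : ℂ × ℂ × ℂ => X2 x (-α - β + p.2.1 + p.2.2)) p :=
    ContinuousAt.comp (g := X2 x) (f := fun p : ℂ × ℂ × ℂ => -α - β + p.2.1 + p.2.2)
      (X2_diff hx).continuous.continuousAt (by fun_prop)
  have d5 : ContinuousAt (fun p : ℂ × ℂ × ℂ => riemannZeta (1 - α - β - 2 * p.1)) p :=
    ContinuousAt.comp (g := riemannZeta) (f := fun p : ℂ × ℂ × ℂ => 1 - α - β - 2 * p.1)
      (differentiableAt_riemannZeta hS).continuousAt (by fun_prop)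
  have d6 : ContinuousAt (fun p : ℂ × ℂ × ℂ => EE a b (ua s α β p.1 p.2.1 p.2.2 0)
      (ua s α β p.1 p.2.1 p.2.2 1) (ua s α β p.1 p.2.1 p.2.2 2)
      (ua s α β p.1 p.2.1 p.2.2 3)) p := by
    have hc : Continuous (fun p : ℂ × ℂ × ℂ => ua s α β p.1 p.2.1 p.2.2) := by
      refine continuous_pi fun i => ?_
      fin_cases i
      · show Continuous (fun p : ℂ × ℂ × ℂ => 3 * s - α + p.1 + (3 * p.2.1 + p.2.2) / 2)
        fun_prop
      · show Continuous (fun p : ℂ × ℂ × ℂ => -β - p.1 + (p.2.2 - p.2.1) / 2)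
        fun_prop
      · show Continuous (fun p : ℂ × ℂ × ℂ => 3 * s - β + p.1 + (p.2.1 + 3 * p.2.2) / 2)
        fun_prop
      · show Continuous (fun p : ℂ × ℂ × ℂ => -α - p.1 + (p.2.1 - p.2.2) / 2)
        fun_prop
    exact ContinuousAt.comp
      (g := fun u : Fin 4 → ℂ => EE a b (u 0) (u 1) (u 2) (u 3))
      (f := fun p : ℂ × ℂ × ℂ => ua s α β p.1 p.2.1 p.2.2)
      ((ee_cont a b).continuousAt (regE_open.mem_nhds h5)) hc.continuousAt
  unfold Pk Zker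
  exact (((d1.div dW hW).mul ((d2.div c1 hz1).mul (d3.div c2 hz2))).mul d4).mul
    (d5.mul d6)

/-- the corners of the tube -/
noncomputable def lo : Fin 3 → ℝ := ![cw, cz, cz]
noncomputable def hi : Fin 3 → ℝ := ![1 / 4, 7 / 4, 7 / 4]

lemma lo_hi : ∀ i, lo i ≤ hi i := by
  intro i
  fin_cases i
  · show cw ≤ 1 / 4
    unfold cw; norm_num
  · show cz ≤ 7 / 4
    unfold cz; norm_num
  · show cz ≤ 7 / 4
    unfold cz; norm_num

lemma small {s : ℂ} (hs : ‖s‖ = rho) {α : ℂ} (hα : α = s ∨ α = 2 * s) :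
    |s.re| ≤ rho ∧ |α.re| ≤ 2 * rho ∧ |α.im| ≤ 2 * rho := by
  have h1 := Complex.abs_re_le_norm s
  have h2 := Complex.abs_im_le_norm s
  rw [hs] at h1 h2
  have h3 : 0 < rho := by unfold rho; norm_num
  refine ⟨h1, ?_, ?_⟩
  · rcases hα with rfl | rfl
    · linarith
    · have : (2 * s).re = 2 * s.re := by simp
      rw [this, abs_mul, abs_two]
      linarith
  · rcases hα with rfl | rfl
    · linarith
    · have : (2 * s).im = 2 * s.im := by simp
      rw [this, abs_mul, abs_two]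
      linarith

/-- real parts of the arguments -/
noncomputable def rr (s α β : ℂ) (r : ℝ × ℝ × ℝ) : Fin 4 → ℝ :=
  ![3 * s.re - α.re + r.1 + (3 * r.2.1 + r.2.2) / 2, -β.re - r.1 + (r.2.2 - r.2.1) / 2,
    3 * s.re - β.re + r.1 + (r.2.1 + 3 * r.2.2) / 2, -α.re - r.1 + (r.2.1 - r.2.2) / 2]

lemma ua_re (s α β w z₁ z₂ : ℂ) (i : Fin 4) :
    (ua s α β w z₁ z₂ i).re = rr s α β (w.re, z₁.re, z₂.re) i := by
  fin_cases i <;> simp [ua, rr]

lemma rr_pos {s : ℂ} (hs : ‖s‖ = rho) {α β : ℂ} (hα : α = s ∨ α = 2 * s)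
    (hβ : β = s ∨ β = 2 * s) {r : ℝ × ℝ × ℝ} (h0 : cw ≤ r.1) (h1 : cz ≤ r.2.1)
    (h2 : cz ≤ r.2.2) :
    0 < rr s α β r 0 + rr s α β r 3 ∧ 0 < rr s α β r 1 + rr s α β r 2 ∧
      0 < rr s α β r 0 + rr s α β r 2 := by
  obtain ⟨a1, a2, -⟩ := small hs hα
  obtain ⟨-, b2, -⟩ := small hs hβ
  rw [abs_le] at a1 a2 b2
  unfold rho at a1 a2 b2
  unfold cw at h0
  unfold cz at h1 h2
  refine ⟨?_, ?_, ?_⟩
  · show 0 < (3 * s.re - α.re + r.1 + (3 * r.2.1 + r.2.2) / 2) +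
      (-α.re - r.1 + (r.2.1 - r.2.2) / 2)
    linarith
  · show 0 < (-β.re - r.1 + (r.2.2 - r.2.1) / 2) +
      (3 * s.re - β.re + r.1 + (r.2.1 + 3 * r.2.2) / 2)
    linarith
  · show 0 < (3 * s.re - α.re + r.1 + (3 * r.2.1 + r.2.2) / 2) +
      (3 * s.re - β.re + r.1 + (r.2.1 + 3 * r.2.2) / 2)
    linarith

lemma ua_mem {s : ℂ} (hs : ‖s‖ = rho) {α β : ℂ} (hα : α = s ∨ α = 2 * s)
    (hβ : β = s ∨ β = 2 * s) {w z₁ z₂ : ℂ} (h0 : cw ≤ w.re) (h1 : cz ≤ z₁.re)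
    (h2 : cz ≤ z₂.re) : ua s α β w z₁ z₂ ∈ RegE := by
  have h := rr_pos hs hα hβ (r := (w.re, z₁.re, z₂.re)) h0 h1 h2
  unfold RegE
  simp only [Set.mem_ofPred_eq, Complex.add_re, ua_re]
  exact h

lemma tb_gd {s : ℂ} (hs : ‖s‖ = rho) {α β : ℂ} (hα : α = s ∨ α = 2 * s)
    (hβ : β = s ∨ β = 2 * s) {w z₁ z₂ : ℂ} (h : Tb lo hi w z₁ z₂) : Gd s α β w z₁ z₂ := by
  obtain ⟨⟨h0, -⟩, ⟨h1, -⟩, ⟨h2, -⟩⟩ := h
  have h0' : cw ≤ w.re := h0
  have h1' : cz ≤ z₁.re := h1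
  have h2' : cz ≤ z₂.re := h2
  have hcw : 0 < cw := by unfold cw; norm_num
  have hcz : 0 < cz := by unfold cz; norm_num
  refine ⟨by linarith, by linarith, by linarith, ?_, ua_mem hs hα hβ h0' h1' h2'⟩
  obtain ⟨-, a2, -⟩ := small hs hα
  obtain ⟨-, b2, -⟩ := small hs hβ
  rw [abs_le] at a2 b2
  have e : (α + β + 2 * w).re = α.re + β.re + 2 * w.re := by simp
  rw [e]
  unfold rho at a2 b2
  unfold cw at h0'
  linarith

lemma ee_box {s : ℂ} (hs : ‖s‖ = rho) {α β : ℂ} (hα : α = s ∨ α = 2 * s)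
    (hβ : β = s ∨ β = 2 * s) (a b : ℕ+) : ∃ C : ℝ, 0 < C ∧ ∀ w z₁ z₂ : ℂ, Tb lo hi w z₁ z₂ →
    ‖EE a b (ua s α β w z₁ z₂ 0) (ua s α β w z₁ z₂ 1) (ua s α β w z₁ z₂ 2)
      (ua s α β w z₁ z₂ 3)‖ ≤ C := by
  set B : Set (ℝ × ℝ × ℝ) := Set.Icc (lo 0) (hi 0) ×ˢ (Set.Icc (lo 1) (hi 1) ×ˢ
    Set.Icc (lo 2) (hi 2)) with hB
  have hBc : IsCompact B := isCompact_Icc.prod (isCompact_Icc.prod isCompact_Icc)
  have hcm : Continuous (fun r : ℝ × ℝ × ℝ => (fun i => ((rr s α β r i : ℝ) : ℂ) : Fin 4 → ℂ)) := by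
    refine continuous_pi fun i => Complex.continuous_ofReal.comp ?_
    fin_cases i
    · show Continuous (fun r : ℝ × ℝ × ℝ => 3 * s.re - α.re + r.1 + (3 * r.2.1 + r.2.2) / 2)
      fun_prop
    · show Continuous (fun r : ℝ × ℝ × ℝ => -β.re - r.1 + (r.2.2 - r.2.1) / 2)
      fun_prop
    · show Continuous (fun r : ℝ × ℝ × ℝ => 3 * s.re - β.re + r.1 + (r.2.1 + 3 * r.2.2) / 2)
      fun_prop
    · show Continuous (fun r : ℝ × ℝ × ℝ => -α.re - r.1 + (r.2.1 - r.2.2) / 2)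
      fun_prop
  have hmaps : Set.MapsTo (fun r : ℝ × ℝ × ℝ => (fun i => ((rr s α β r i : ℝ) : ℂ) : Fin 4 → ℂ))
      B RegE := by
    intro r hr
    have h := rr_pos hs hα hβ (r := r) hr.1.1 hr.2.1.1 hr.2.2.1
    unfold RegE
    simp only [Set.mem_ofPred_eq, Complex.add_re, Complex.ofReal_re]
    exact h
  obtain ⟨C, hC⟩ := hBc.exists_bound_of_continuousOn
    ((ee_cont a b).comp hcm.continuousOn hmaps)
  refine ⟨max C 1, by positivity, fun w z₁ z₂ h => ?_⟩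
  have hmem : (w.re, z₁.re, z₂.re) ∈ B := ⟨h.1, h.2.1, h.2.2⟩
  have h1 := hC _ hmem
  have h2 := ee_le_re a b (ua_mem hs hα hβ (w := w) (z₁ := z₁) (z₂ := z₂) h.1.1 h.2.1.1 h.2.2.1)
  rw [ua_re, ua_re, ua_re, ua_re] at h2
  exact h2.trans (h1.trans (le_max_left _ _))

lemma exp_combine (t y₁ y₂ : ℝ) :
    (1 + t ^ 2) * (Real.exp (-((t + (y₁ + y₂) / 2) ^ 2 / 2)) *
      (Real.exp (-(y₁ ^ 2 / 2)) * Real.exp (-(y₂ ^ 2 / 2)))) ≤
      8 * Real.exp (-(1 / 8) * (t ^ 2 + (y₁ ^ 2 + y₂ ^ 2))) := by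
  have h1 : 1 + t ^ 2 ≤ 8 * Real.exp (t ^ 2 / 8) := by
    have := Real.add_one_le_exp (t ^ 2 / 8)
    nlinarith
  rw [← Real.exp_add, ← Real.exp_add]
  refine (mul_le_mul_of_nonneg_right h1 (Real.exp_pos _).le).trans ?_
  rw [mul_assoc, ← Real.exp_add]
  refine mul_le_mul_of_nonneg_left (Real.exp_le_exp.2 ?_) (by norm_num)
  nlinarith [sq_nonneg (t + (y₁ + y₂) / 2 + (y₁ + y₂) / 2), sq_nonneg (t + (y₁ + y₂)),
    sq_nonneg (y₁ - y₂), sq_nonneg t, sq_nonneg y₁, sq_nonneg y₂, sq_nonneg (2 * t + (y₁ + y₂)),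
    sq_nonneg (t + (y₁ + y₂) / 2 - t / 2)]

lemma pk_bound {s : ℂ} (hs : ‖s‖ = rho) {α β : ℂ} (hα : α = s ∨ α = 2 * s)
    (hβ : β = s ∨ β = 2 * s) {x : ℝ} (hx : 0 < x) (a b : ℕ+) :
    ∃ K : ℝ, ∀ w z₁ z₂ : ℂ, Tb lo hi w z₁ z₂ → ‖Pk s α β x a b w z₁ z₂‖ ≤
      K * Real.exp (-(1 / 8) * (w.im ^ 2 + (z₁.im ^ 2 + z₂.im ^ 2))) := by
  have hrho : 0 < rho := by unfold rho; norm_num
  have hs0 : s ≠ 0 := by
    rw [← norm_pos_iff, hs]
    exact hrho
  obtain ⟨C1, hC1, b1⟩ := Gw_bound rho 2 hrho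
  obtain ⟨C2, hC2, b2⟩ := gz_bd hs0 (c := 7 / 4)
  obtain ⟨C4, hC4, b4⟩ := zeta_bd
  obtain ⟨C5, hC5, b5⟩ := ee_box hs hα hβ a b
  set C3 : ℝ := (x / (2 * Real.pi) + (x / (2 * Real.pi))⁻¹ + 1) ^ (4:ℝ) with hC3
  have hC3p : 0 < C3 := by positivity
  refine ⟨(C1 * 32 * (C2 * 10 ^ 5 * (C2 * 10 ^ 5))) * C3 * (C4 * 8 * C5) * 8,
    fun w z₁ z₂ h => ?_⟩
  have h0 : 1 / 32 ≤ w.re := h.1.1
  have h0' : w.re ≤ 1 / 4 := h.1.2
  have h1 : 1 / 10 ^ 5 ≤ z₁.re := h.2.1.1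
  have h1' : z₁.re ≤ 7 / 4 := h.2.1.2
  have h2 : 1 / 10 ^ 5 ≤ z₂.re := h.2.2.1
  have h2' : z₂.re ≤ 7 / 4 := h.2.2.2
  obtain ⟨-, a2, a3⟩ := small hs hα
  obtain ⟨-, b2', b3⟩ := small hs hβ
  have hr1 : rho ≤ 1 / 1000 := by unfold rho; norm_num
  have hWre := sum_re (w := w) (z₁ := z₁) (z₂ := z₂)
  have hWim := sum_im (w := w) (z₁ := z₁) (z₂ := z₂)
  set W : ℂ := w + (z₁ + z₂) / 2 with hW
  have hW1 : 1 / 32 ≤ W.re := by rw [hWre]; linarith
  have hW2 : W.re ≤ 2 := by rw [hWre]; linarith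
  have hWn : 1 / 32 ≤ ‖W‖ := hW1.trans (Complex.re_le_norm W)
  have g1 : ‖Gw s W / W‖ ≤ C1 * 32 * Real.exp (-(W.im ^ 2 / 2)) := by
    have h3 := b1 s hs W.re W.im (by rw [abs_of_nonneg (by linarith)]; exact hW2)
    rw [Complex.re_add_im] at h3
    rw [norm_div]
    calc ‖Gw s W‖ / ‖W‖ ≤ (C1 * Real.exp (-(W.im ^ 2 / 2))) / (1 / 32) :=
          div_le_div₀ (by positivity) h3 (by norm_num) hWn
      _ = _ := by ring
  have g2 : ∀ z : ℂ, 1 / 10 ^ 5 ≤ z.re → z.re ≤ 7 / 4 →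
      ‖Gz s z / z‖ ≤ C2 * 10 ^ 5 * Real.exp (-(z.im ^ 2 / 2)) := by
    intro z h3 h4
    have h5 := b2 z (by rw [abs_of_nonneg (by linarith)]; exact h4)
    have h6 : 1 / 10 ^ 5 ≤ ‖z‖ := h3.trans (Complex.re_le_norm z)
    rw [norm_div]
    calc ‖Gz s z‖ / ‖z‖ ≤ (C2 * Real.exp (-(z.im ^ 2 / 2))) / (1 / 10 ^ 5) :=
          div_le_div₀ (by positivity) h5 (by norm_num) h6
      _ = _ := by ring
  have g4 : ‖X2 x (-α - β + z₁ + z₂)‖ ≤ C3 := by
    refine X2_bd hx (by norm_num) ?_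
    have e : (-α - β + z₁ + z₂).re = -α.re - β.re + z₁.re + z₂.re := by simp
    rw [e, abs_le]
    rw [abs_le] at a2 b2'
    constructor <;> linarith
  have g5 : ‖riemannZeta (1 - α - β - 2 * w)‖ ≤ C4 * 8 * (1 + w.im ^ 2) := by
    have e : (1 - α - β - 2 * w).re = 1 - α.re - β.re - 2 * w.re := by simp
    have e' : (1 - α - β - 2 * w).im = -(α.im + β.im + 2 * w.im) := by
      simp
      ring
    have a2' := abs_le.1 a2
    have b2'' := abs_le.1 b2'
    have hrr : rho = 1 / 10 ^ 7 := rfl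
    rw [hrr] at a2' b2''
    have h3 := b4 (1 - α - β - 2 * w) (by rw [e]; linarith [a2'.1, a2'.2, b2''.1, b2''.2])
      (by rw [e]; linarith [a2'.1, a2'.2, b2''.1, b2''.2])
    refine h3.trans ?_
    rw [mul_assoc]
    refine mul_le_mul_of_nonneg_left ?_ hC4.le
    rw [e', neg_sq]
    have h4 : (α.im + β.im + 2 * w.im) ^ 2 ≤ (1 + 2 * |w.im|) ^ 2 := by
      rw [← sq_abs (α.im + β.im + 2 * w.im)]
      refine pow_le_pow_left₀ (abs_nonneg _) ?_ 2
      calc |α.im + β.im + 2 * w.im| ≤ |α.im| + |β.im| + |2 * w.im| :=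
            (abs_add_le _ _).trans (add_le_add_left (abs_add_le _ _) _)
        _ ≤ 1 + 2 * |w.im| := by
            rw [abs_mul, abs_two]
            linarith
    have h5 : |w.im| ^ 2 = w.im ^ 2 := sq_abs _
    nlinarith [sq_nonneg (|w.im| - 1), abs_nonneg w.im]
  have g6 := b5 w z₁ z₂ h
  have hcomb := exp_combine w.im z₁.im z₂.im
  rw [← hWim] at hcomb
  unfold Pk Zker
  rw [norm_mul, norm_mul, norm_mul, norm_mul, norm_mul]
  calc ‖Gw s W / W‖ * (‖Gz s z₁ / z₁‖ * ‖Gz s z₂ / z₂‖) * ‖X2 x (-α - β + z₁ + z₂)‖ *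
        (‖riemannZeta (1 - α - β - 2 * w)‖ * ‖EE a b (ua s α β w z₁ z₂ 0)
          (ua s α β w z₁ z₂ 1) (ua s α β w z₁ z₂ 2) (ua s α β w z₁ z₂ 3)‖)
      ≤ (C1 * 32 * Real.exp (-(W.im ^ 2 / 2))) *
        ((C2 * 10 ^ 5 * Real.exp (-(z₁.im ^ 2 / 2))) *
          (C2 * 10 ^ 5 * Real.exp (-(z₂.im ^ 2 / 2)))) * C3 *
        ((C4 * 8 * (1 + w.im ^ 2)) * C5) := by
        have k2 := g2 z₁ h1 h1'
        have k3 := g2 z₂ h2 h2'
        gcongr
    _ = (C1 * 32 * (C2 * 10 ^ 5 * (C2 * 10 ^ 5))) * C3 * (C4 * 8 * C5) *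
        ((1 + w.im ^ 2) * (Real.exp (-(W.im ^ 2 / 2)) *
          (Real.exp (-(z₁.im ^ 2 / 2)) * Real.exp (-(z₂.im ^ 2 / 2))))) := by ring
    _ ≤ (C1 * 32 * (C2 * 10 ^ 5 * (C2 * 10 ^ 5))) * C3 * (C4 * 8 * C5) *
        (8 * Real.exp (-(1 / 8) * (w.im ^ 2 + (z₁.im ^ 2 + z₂.im ^ 2)))) :=
        mul_le_mul_of_nonneg_left hcomb (by positivity)
    _ = _ := by ring

/-! ### The kernel of the diagonal terms -/

/-- the four arguments -/
noncomputable def ud (s w : ℂ) : Fin 4 → ℂ := ![s + w, 2 * s + w, s + w, 2 * s + w]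

noncomputable def Dk (s : ℂ) (x : ℝ) (a b : ℕ+) (w : ℂ) : ℂ :=
  Gw s w / w * X2 x (2 * w) * (riemannZeta (1 + (2 * s + w) + (2 * s + w)) *
    EE a b (ud s w 0) (ud s w 1) (ud s w 2) (ud s w 3))

lemma ud_mem {s : ℂ} (hs : ‖s‖ = rho) {w : ℂ} (hw : cz ≤ w.re) : ud s w ∈ RegD := by
  have h1 := Complex.abs_re_le_norm s
  rw [hs, abs_le] at h1
  unfold rho at h1
  unfold cz at hw
  have e1 : (s + w + (2 * s + w)).re = 3 * s.re + 2 * w.re := by
    simp
    ring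
  have e2 : (2 * s + w + (s + w)).re = 3 * s.re + 2 * w.re := by
    simp
    ring
  have e3 : (s + w + (s + w)).re = 2 * s.re + 2 * w.re := by
    simp
    ring
  have e4 : (2 * s + w + (2 * s + w)).re = 4 * s.re + 2 * w.re := by
    simp
    ring
  refine ⟨?_, ?_, ?_, ?_⟩
  · show 0 < (s + w + (2 * s + w)).re
    rw [e1]
    linarith
  · show 0 < (2 * s + w + (s + w)).re
    rw [e2]
    linarith
  · show 0 < (s + w + (s + w)).re
    rw [e3]
    linarith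
  · show 0 < (2 * s + w + (2 * s + w)).re
    rw [e4]
    linarith

lemma ud_memE {s : ℂ} (hs : ‖s‖ = rho) {w : ℂ} (hw : cz ≤ w.re) : ud s w ∈ RegE :=
  ⟨(ud_mem hs hw).1, (ud_mem hs hw).2.1, (ud_mem hs hw).2.2.1⟩

lemma dk_eq {s : ℂ} (hs : ‖s‖ = rho) (x : ℝ) (a b : ℕ+) {w : ℂ} (hw : cz ≤ w.re) :
    Gw s w / w * X2 x (2 * w) * DD a b (s + w) (2 * s + w) (s + w) (2 * s + w) =
      Dk s x a b w := by
  have h := (dd_summable a b (ud_mem hs hw)).2
  have h' : DD a b (s + w) (2 * s + w) (s + w) (2 * s + w) =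
      riemannZeta (1 + (2 * s + w) + (2 * s + w)) *
        EE a b (ud s w 0) (ud s w 1) (ud s w 2) (ud s w 3) := h
  rw [h']
  rfl

lemma dk_diff {s : ℂ} (hs : ‖s‖ = rho) {x : ℝ} (hx : 0 < x) (a b : ℕ+) {w : ℂ}
    (hw : cz ≤ w.re) : DifferentiableAt ℂ (Dk s x a b) w := by
  have hcz : 0 < cz := by unfold cz; norm_num
  have hw0 : w ≠ 0 := ne_of_re (by linarith)
  have hz : 1 + (2 * s + w) + (2 * s + w) ≠ 1 := by
    intro hc
    have h1 : (2 * s + w) + (2 * s + w) = 0 := by linear_combination hc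
    have h2 : 0 < ((2 * s + w) + (2 * s + w)).re := (ud_mem hs hw).2.2.2
    rw [h1] at h2
    simp at h2
  have d1 : DifferentiableAt ℂ (Gw s) w := (Gw_diff s) w
  have d2 : DifferentiableAt ℂ (fun w => X2 x (2 * w)) w :=
    ((X2_diff hx) _).comp w (by fun_prop)
  have d3 : DifferentiableAt ℂ (fun w => riemannZeta (1 + (2 * s + w) + (2 * s + w))) w :=
    (differentiableAt_riemannZeta hz).comp w (by fun_prop)
  have d4 : DifferentiableAt ℂ (fun w => EE a b (ud s w 0) (ud s w 1) (ud s w 2) (ud s w 3)) w := by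
    refine ee_at a b (f := fun i w => ud s w i) (fun i => ?_) (ud_memE hs hw)
    fin_cases i
    · show Differentiable ℂ (fun w => s + w)
      fun_prop
    · show Differentiable ℂ (fun w => 2 * s + w)
      fun_prop
    · show Differentiable ℂ (fun w => s + w)
      fun_prop
    · show Differentiable ℂ (fun w => 2 * s + w)
      fun_prop
  have h : Dk s x a b = fun w => Gw s w / w * X2 x (2 * w) *
      (riemannZeta (1 + (2 * s + w) + (2 * s + w)) *
        EE a b (ud s w 0) (ud s w 1) (ud s w 2) (ud s w 3)) := rfl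
  rw [h]
  exact ((d1.div differentiableAt_id hw0).mul d2).mul (d3.mul d4)

lemma ee_seg {s : ℂ} (hs : ‖s‖ = rho) (a b : ℕ+) : ∃ C : ℝ, 0 < C ∧ ∀ w : ℂ, cz ≤ w.re →
    w.re ≤ 2 → ‖EE a b (ud s w 0) (ud s w 1) (ud s w 2) (ud s w 3)‖ ≤ C := by
  have hcm : Continuous (fun r : ℝ => (fun i => (((ud s (r : ℂ) i).re : ℝ) : ℂ) : Fin 4 → ℂ)) := by
    refine continuous_pi fun i => Complex.continuous_ofReal.comp (Complex.continuous_re.comp ?_)
    fin_cases i
    · show Continuous (fun r : ℝ => s + (r : ℂ))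
      fun_prop
    · show Continuous (fun r : ℝ => 2 * s + (r : ℂ))
      fun_prop
    · show Continuous (fun r : ℝ => s + (r : ℂ))
      fun_prop
    · show Continuous (fun r : ℝ => 2 * s + (r : ℂ))
      fun_prop
  have hmaps : Set.MapsTo (fun r : ℝ => (fun i => (((ud s (r : ℂ) i).re : ℝ) : ℂ) : Fin 4 → ℂ))
      (Set.Icc cz 2) RegE := by
    intro r hr
    have h := ud_memE hs (w := (r : ℂ)) (by rw [Complex.ofReal_re]; exact hr.1)
    unfold RegE at h ⊢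
    refine ⟨?_, ?_, ?_⟩
    · have := h.1
      rw [Complex.add_re] at this
      rw [Complex.add_re, Complex.ofReal_re, Complex.ofReal_re]
      exact this
    · have := h.2.1
      rw [Complex.add_re] at this
      rw [Complex.add_re, Complex.ofReal_re, Complex.ofReal_re]
      exact this
    · have := h.2.2
      rw [Complex.add_re] at this
      rw [Complex.add_re, Complex.ofReal_re, Complex.ofReal_re]
      exact this
  obtain ⟨C, hC⟩ := (isCompact_Icc (a := cz) (b := (2:ℝ))).exists_bound_of_continuousOn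
    ((ee_cont a b).comp hcm.continuousOn hmaps)
  refine ⟨max C 1, by positivity, fun w h1 h2 => ?_⟩
  have h3 := hC w.re ⟨h1, h2⟩
  have h4 := ee_le_re a b (ud_memE hs h1)
  have e : ∀ i : Fin 4, (ud s (w.re : ℂ) i).re = (ud s w i).re := by
    intro i
    fin_cases i <;> simp [ud]
  simp only [Function.comp] at h3
  rw [e, e, e, e] at h3
  exact h4.trans (h3.trans (le_max_left _ _))

lemma dk_bound {s : ℂ} (hs : ‖s‖ = rho) {x : ℝ} (hx : 0 < x) (a b : ℕ+) :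
    ∃ K : ℝ, ∀ w : ℂ, cz ≤ w.re → w.re ≤ 2 →
      ‖Dk s x a b w‖ ≤ K * Real.exp (-(1 / 2) * w.im ^ 2) := by
  have hrho : 0 < rho := by unfold rho; norm_num
  have hcz : 0 < cz := by unfold cz; norm_num
  obtain ⟨C1, hC1, b1⟩ := Gw_bound rho 2 hrho
  obtain ⟨C4, hC4, b4⟩ := P07318s.zeta_bound_re cz hcz
  obtain ⟨C5, hC5, b5⟩ := ee_seg hs a b
  set C3 : ℝ := (x / (2 * Real.pi) + (x / (2 * Real.pi))⁻¹ + 1) ^ (4:ℝ) with hC3
  have hC3p : 0 < C3 := by positivity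
  refine ⟨C1 / cz * C3 * (C4 * C5), fun w h1 h2 => ?_⟩
  have g1 : ‖Gw s w / w‖ ≤ C1 / cz * Real.exp (-(1 / 2) * w.im ^ 2) := by
    have h3 := b1 s hs w.re w.im (by rw [abs_of_nonneg (by linarith)]; exact h2)
    rw [Complex.re_add_im] at h3
    have e : -(w.im ^ 2 / 2) = -(1 / 2) * w.im ^ 2 := by ring
    rw [e] at h3
    rw [norm_div]
    calc ‖Gw s w‖ / ‖w‖ ≤ (C1 * Real.exp (-(1 / 2) * w.im ^ 2)) / cz :=
          div_le_div₀ (by positivity) h3 hcz (h1.trans (Complex.re_le_norm w))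
      _ = _ := by ring
  have g2 : ‖X2 x (2 * w)‖ ≤ C3 := by
    refine X2_bd hx (by norm_num) ?_
    have e : (2 * w).re = 2 * w.re := by simp
    rw [e, abs_le]
    constructor <;> linarith
  have g3 : ‖riemannZeta (1 + (2 * s + w) + (2 * s + w))‖ ≤ C4 := by
    refine b4 _ ?_
    have e : (1 + (2 * s + w) + (2 * s + w)).re = 1 + 4 * s.re + 2 * w.re := by
      simp
      ring
    rw [e]
    have h3 := Complex.abs_re_le_norm s
    rw [hs, abs_le] at h3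
    unfold rho at h3
    unfold cz at h1 ⊢
    linarith [h3.1]
  have g4 := b5 w h1 h2
  unfold Dk
  rw [norm_mul, norm_mul, norm_mul]
  calc ‖Gw s w / w‖ * ‖X2 x (2 * w)‖ * (‖riemannZeta (1 + (2 * s + w) + (2 * s + w))‖ *
        ‖EE a b (ud s w 0) (ud s w 1) (ud s w 2) (ud s w 3)‖)
      ≤ (C1 / cz * Real.exp (-(1 / 2) * w.im ^ 2)) * C3 * (C4 * C5) := by gcongr
    _ = _ := by ring

end ShiftBAux

open ShiftBAux in
theorem shift_b {s : ℂ} (hs : ‖s‖ = rho) {α β : ℂ} (hα : α = s ∨ α = 2 * s) (hβ : β = s ∨ β = 2 * s) {x : ℝ} (hx : 0 < x)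
    (a b : ℕ+) :
    Integrable (fun v : ℝ × ℝ × ℝ => Gw s (2 + v.1 * I) / (2 + v.1 * I) *
      Z1 s α β x a b (2 + v.1 * I) (7 / 4 + v.2.1 * I) (7 / 4 + v.2.2 * I)) ∧
    ((2 * Real.pi : ℂ) ^ 3)⁻¹ * ∫ v : ℝ × ℝ × ℝ, Gw s (2 + v.1 * I) / (2 + v.1 * I) *
      Z1 s α β x a b (2 + v.1 * I) (7 / 4 + v.2.1 * I) (7 / 4 + v.2.2 * I) = Zint s α β x a b := by
  obtain ⟨K, hK⟩ := pk_bound hs hα hβ hx a b
  have hκ : (0:ℝ) < 1 / 8 := by norm_num
  have hc : ContinuousOn (fun p : ℂ × ℂ × ℂ => Pk s α β x a b p.1 p.2.1 p.2.2)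
      {p | Tb lo hi p.1 p.2.1 p.2.2} := fun p hp =>
    (pk_contAt s α β hx a b (tb_gd hs hα hβ hp)).continuousWithinAt
  set h : ℝ × ℝ × ℝ → ℂ := fun v => Gw s (2 + v.1 * I) / (2 + v.1 * I) *
      Z1 s α β x a b (2 + v.1 * I) (7 / 4 + v.2.1 * I) (7 / 4 + v.2.2 * I) with hh
  have e : ln (Pk s α β x a b) hi = h ∘ shr := by
    funext v
    unfold ln
    rw [← pk_eq]
    simp only [hh, Function.comp, shr]
    have e1 : (hi 1 : ℂ) = 7 / 4 := by
      show ((7 / 4 : ℝ) : ℂ) = 7 / 4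
      push_cast
      rfl
    have e2 : (hi 2 : ℂ) = 7 / 4 := by
      show ((7 / 4 : ℝ) : ℂ) = 7 / 4
      push_cast
      rfl
    have e0 : (hi 0 : ℂ) = 1 / 4 := by
      show ((1 / 4 : ℝ) : ℂ) = 1 / 4
      push_cast
      rfl
    rw [e0, e1, e2]
    have e3 : (1 / 4 : ℂ) + v.1 * I + ((7 / 4 + v.2.1 * I) + (7 / 4 + v.2.2 * I)) / 2 =
        2 + ((v.1 + (v.2.1 + v.2.2) / 2 : ℝ) : ℂ) * I := by
      push_cast
      ring
    rw [e3]
  have hint : Integrable (h ∘ shr) := by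
    rw [← e]
    exact tube_integrable hκ hc hK lo_hi (fun i => le_rfl)
  have hsh := tube_shift hκ lo_hi hc
    (fun w z₁ z₂ ht => pk_diffAt s α β hx a b (f := fun z => z) (g := fun _ => z₁)
      (h := fun _ => z₂) (by fun_prop) (by fun_prop) (by fun_prop) (tb_gd hs hα hβ ht))
    (fun w z₁ z₂ ht => pk_diffAt s α β hx a b (f := fun _ => w) (g := fun z => z)
      (h := fun _ => z₂) (by fun_prop) (by fun_prop) (by fun_prop) (tb_gd hs hα hβ ht))
    (fun w z₁ z₂ ht => pk_diffAt s α β hx a b (f := fun _ => w) (g := fun _ => z₁)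
      (h := fun z => z) (by fun_prop) (by fun_prop) (by fun_prop) (tb_gd hs hα hβ ht)) hK
  refine ⟨(shr_mp.1.integrable_comp_emb shr_mp.2).1 hint, ?_⟩
  have hcomp : ∫ v, h (shr v) = ∫ v, h v := shr_mp.1.integral_comp shr_mp.2 h
  have hcomp' : ∫ v, ln (Pk s α β x a b) hi v = ∫ v, h v := by
    rw [← hcomp, e]
    rfl
  rw [← hcomp', ← hsh]
  rfl

open ShiftBAux in
theorem shift_d {s : ℂ} (hs : ‖s‖ = rho) {x : ℝ} (hx : 0 < x) (a b : ℕ+) :
    Integrable (fun v : ℝ => Gw s (2 + v * I) / (2 + v * I) * X2 x (2 * (2 + v * I)) *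
      DD a b (s + (2 + v * I)) (2 * s + (2 + v * I)) (s + (2 + v * I)) (2 * s + (2 + v * I))) ∧
    (2 * Real.pi : ℂ)⁻¹ * ∫ v : ℝ, Gw s (2 + v * I) / (2 + v * I) * X2 x (2 * (2 + v * I)) *
      DD a b (s + (2 + v * I)) (2 * s + (2 + v * I)) (s + (2 + v * I)) (2 * s + (2 + v * I)) = Dint s x a b := by
  obtain ⟨K, hK⟩ := dk_bound hs hx a b
  have hκ : (0:ℝ) < 1 / 2 := by norm_num
  have hcz2 : cz ≤ 2 := by unfold cz; norm_num
  have e : ∀ (c : ℝ) (c' : ℂ), c' = c → cz ≤ c → ∀ v : ℝ,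
      Gw s (c' + v * I) / (c' + v * I) * X2 x (2 * (c' + v * I)) *
        DD a b (s + (c' + v * I)) (2 * s + (c' + v * I)) (s + (c' + v * I))
          (2 * s + (c' + v * I)) = Dk s x a b (c + v * I) := by
    intro c c' hc' hc v
    rw [hc']
    exact dk_eq hs x a b (by rw [line_re]; exact hc)
  have h2 : (2 : ℂ) = ((2 : ℝ) : ℂ) := by push_cast; rfl
  have i1 : Integrable (fun v : ℝ => Dk s x a b (((2 : ℝ) : ℂ) + v * I)) :=
    line_integrable hκ
      (fun t => (dk_diff hs hx a b (by rw [line_re]; exact hcz2)).continuousAt)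
      (fun t => by
        have := hK (((2 : ℝ) : ℂ) + t * I) (by rw [line_re]; exact hcz2) (by rw [line_re])
        rwa [line_im] at this)
  have hsh := shift1 (F := Dk s x a b) hcz2 hκ (fun w h1 _ => dk_diff hs hx a b h1)
    (fun w h1 h2 => hK w h1 h2)
  constructor
  · simp only [e 2 2 h2 hcz2]
    exact i1
  · simp only [e 2 2 h2 hcz2]
    rw [← hsh]
    unfold Dint
    simp only [e cz cz rfl le_rfl]

end Pool.Agent.P07318f
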