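import Pool.Agent.Lib.P07318f.TwAvg
import Pool.Agent.Lib.P07318f.OmMel

/-!
# The twisted fourth moment with the weight of the third factor

`h = ab`, `c = 1/1000`. `om_mellin` for `Om h (x+τ)` (`x + τ ≥ U/2 > 0` on the support of `Ω`), Fubini (`x` in a compact set, Gaussian decay in `v`): both integrals are
`π⁻¹ ∫_v exp(w²)/w h^(-w) ζ(1+2w) [∫ Ω(x) X2 (x+τ) w (..) dx] dv`, `w = c+iv`. `Ω_w(x) = Ω(x) X2 (x+τ) w / (C₁ (1+|v|)^8 U^c)` is admissible for the scale `Δ`: on the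
closed support `x + τ ∈ [U/2, 16U]`, so `|((x+τ)^w)^(j)| ≤ C (1+|v|)^8 U^c U^(-j)`, Leibniz; `Ω_w` is `C⁸` (it vanishes outside the closed support of `Ω`, where
`x+τ ≥ U/2` by continuity). `tw_avg` for `Ω_w`: error `≤ C U^(c + 1 - 1/25) ∫ exp(c²-v²)(1+|v|)^8 |ζ(1+2w)|/|w| dv`.
-/

set_option autoImplicit false

namespace Pool.Agent.P07318f

open MeasureTheory Complex Pool.Agent.P07318s

namespace TwOmAux

open Twist4Aux

/-- the line of integration -/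
noncomputable def c0 : ℝ := 1 / 1000

theorem c0_pos : 0 < c0 := by unfold c0; norm_num

theorem c0_le : c0 ≤ 1 := by unfold c0; norm_num

/-- the point on the line -/
noncomputable def wv (v : ℝ) : ℂ := (c0 : ℂ) + v * I

theorem wv_re (v : ℝ) : (wv v).re = c0 := by simp [wv]

theorem norm_wv (v : ℝ) : ‖wv v‖ ≤ 1 + |v| := by
  unfold wv
  refine (norm_add_le _ _).trans ?_
  rw [norm_mul, Complex.norm_I, Complex.norm_real, Complex.norm_real, Real.norm_eq_abs,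
    Real.norm_eq_abs, abs_of_pos c0_pos]
  have := c0_le
  linarith

theorem c0_le_norm (v : ℝ) : c0 ≤ ‖wv v‖ := by
  have h := Complex.abs_re_le_norm (wv v)
  rw [wv_re, abs_of_pos c0_pos] at h
  exact h

theorem wv_ne (v : ℝ) : wv v ≠ 0 := by
  intro h
  have := c0_le_norm v
  rw [h, norm_zero] at this
  linarith [c0_pos]

theorem wv_cont : Continuous wv := by unfold wv; fun_prop

theorem norm_dp {c : ℂ} {k : ℕ} (hk : k ≤ 8) {V : ℝ} (hV : 1 ≤ V) (hc : ‖c‖ ≤ V) :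
    ‖dp c k‖ ≤ (9 * V) ^ 8 := by
  unfold dp
  rw [norm_prod]
  calc ∏ j ∈ Finset.range k, ‖c - j‖ ≤ ∏ j ∈ Finset.range k, (9 * V) := by
        refine Finset.prod_le_prod (fun _ _ => norm_nonneg _) fun j hj => ?_
        refine (norm_sub_le _ _).trans ?_
        rw [Complex.norm_natCast]
        have hj' : (j : ℝ) ≤ 8 := by
          have := Finset.mem_range.1 hj
          exact_mod_cast (by omega : j ≤ 8)
        nlinarith
    _ = (9 * V) ^ k := by rw [Finset.prod_const, Finset.card_range]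
    _ ≤ _ := pow_le_pow_right₀ (by linarith) hk

theorem norm_X2 {x : ℝ} (hx : 0 < x) (v : ℝ) : ‖X2 x (wv v)‖ = (x / (2 * Real.pi)) ^ c0 := by
  unfold X2
  rw [Complex.norm_cpow_eq_rpow_re_of_pos (by positivity), wv_re]

theorem X2_le {U x : ℝ} (hU : 1 ≤ U) (h1 : U / 2 ≤ x) (h2 : x ≤ 16 * U) (v : ℝ) :
    ‖X2 x (wv v)‖ ≤ 16 * U ^ c0 := by
  have hx : 0 < x := by linarith
  have hp : (1 : ℝ) ≤ 2 * Real.pi := by linarith [Real.pi_gt_three]
  rw [norm_X2 hx]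
  calc (x / (2 * Real.pi)) ^ c0 ≤ (16 * U) ^ c0 := by
        apply Real.rpow_le_rpow (by positivity) _ c0_pos.le
        exact (div_le_self hx.le hp).trans h2
    _ = 16 ^ c0 * U ^ c0 := Real.mul_rpow (by norm_num) (by linarith)
    _ ≤ 16 ^ (1 : ℝ) * U ^ c0 := by
        apply mul_le_mul_of_nonneg_right _ (by positivity)
        exact Real.rpow_le_rpow_of_exponent_le (by norm_num) c0_le
    _ = _ := by rw [Real.rpow_one]

theorem iter_le {U x : ℝ} (hU : 1 ≤ U) (hx1 : U / 2 ≤ x) (hx2 : x ≤ 16 * U) (v : ℝ) {k : ℕ}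
    (hk : k ≤ 8) {Δ : ℝ} (hΔ : 0 < Δ) (hΔU : Δ ≤ U) :
    ‖iteratedDeriv k (fun y : ℝ => X2 y (wv v)) x‖ ≤
      16 * (9 * (1 + |v|)) ^ 8 * U ^ c0 * (2 * Δ⁻¹) ^ k := by
  have hx : 0 < x := by linarith
  have hV : (1 : ℝ) ≤ 1 + |v| := by linarith [abs_nonneg v]
  have hd := norm_dp (c := wv v) hk hV (norm_wv v)
  have e : ((2 * Real.pi : ℝ) : ℂ) ^ (-(wv v)) * (dp (wv v) k * (x : ℂ) ^ (wv v - k)) =
      dp (wv v) k * X2 x (wv v) * ((x : ℂ) ^ k)⁻¹ := by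
    rw [X2_split hx, Complex.cpow_sub _ _ (by exact_mod_cast hx.ne'), Complex.cpow_natCast,
      div_eq_mul_inv]
    ring
  rw [iter_X2 (wv v) k hx, e, norm_mul, norm_mul, norm_inv, norm_pow, Complex.norm_real,
    Real.norm_of_nonneg hx.le, ← inv_pow]
  have h6 : x⁻¹ ≤ 2 * Δ⁻¹ := by
    rw [← div_eq_mul_inv, inv_eq_one_div, div_le_div_iff₀ hx hΔ]
    linarith
  have h7 := X2_le hU hx1 hx2 v
  have h8 : x⁻¹ ^ k ≤ (2 * Δ⁻¹) ^ k := pow_le_pow_left₀ (by positivity) h6 k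
  calc ‖dp (wv v) k‖ * ‖X2 x (wv v)‖ * x⁻¹ ^ k
      ≤ (9 * (1 + |v|)) ^ 8 * (16 * U ^ c0) * (2 * Δ⁻¹) ^ k := by gcongr
    _ = _ := by ring

/-- the normalisation -/
noncomputable def K1 (U v : ℝ) : ℝ := 16 * (9 * (1 + |v|)) ^ 8 * 3 ^ 8 * U ^ c0

theorem K1_pos {U : ℝ} (hU : 1 ≤ U) (v : ℝ) : 0 < K1 U v := by
  unfold K1; positivity

/-- the modified weight -/
noncomputable def Om3 (U τ v : ℝ) (Ω : ℝ → ℂ) (x : ℝ) : ℂ :=
  Ω x * X2 (x + τ) (wv v) * ((K1 U v : ℝ) : ℂ)⁻¹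

theorem cdiff_shift {x τ : ℝ} (hx : 0 < x + τ) (v : ℝ) (n : WithTop ℕ∞) :
    ContDiffAt ℝ n (fun y : ℝ => X2 (y + τ) (wv v)) x := by
  have h1 : ContDiffAt ℝ n (fun y : ℝ => y + τ) x := contDiffAt_id.add contDiffAt_const
  exact ContDiffAt.comp (g := fun y : ℝ => X2 y (wv v)) (f := fun y : ℝ => y + τ) x
    (cdiff_X2 (wv v) hx n) h1

theorem adm_Om3 {U Δ τ : ℝ} (hU : 1 ≤ U) (hΔ : 0 < Δ) (hΔU : Δ ≤ U) {Ω : ℝ → ℂ}
    (hΩ : Adm U Δ Ω) (hτ : ∀ x, Ω x ≠ 0 → U / 2 ≤ x + τ ∧ x + τ ≤ 16 * U) (v : ℝ) :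
    Adm U Δ (Om3 U τ v Ω) := by
  have hK := K1_pos hU v
  have hcl : ∀ x ∈ tsupport Ω, U / 2 ≤ x + τ ∧ x + τ ≤ 16 * U := by
    have hc : IsClosed {x : ℝ | U / 2 ≤ x + τ ∧ x + τ ≤ 16 * U} := by
      have h1 : IsClosed {x : ℝ | U / 2 ≤ x + τ} :=
        isClosed_le continuous_const (continuous_id.add continuous_const)
      have h2 : IsClosed {x : ℝ | x + τ ≤ 16 * U} :=
        isClosed_le (continuous_id.add continuous_const) continuous_const
      exact h1.inter h2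
    intro x hx
    exact closure_minimal (fun y hy => hτ y hy) hc hx
  have hev : ∀ x, x ∉ tsupport Ω → Om3 U τ v Ω =ᶠ[nhds x] fun _ => 0 := by
    intro x hx
    have h1 := notMem_tsupport_iff_eventuallyEq.1 hx
    filter_upwards [h1] with y hy
    unfold Om3
    rw [hy]
    simp
  refine ⟨?_, ?_, ?_, ?_⟩
  · rw [contDiff_iff_contDiffAt]
    intro x
    by_cases hx : x ∈ tsupport Ω
    · have h1 := (hcl x hx).1
      have h2 : ContDiffAt ℝ 8 (fun y : ℝ => X2 (y + τ) (wv v)) x := cdiff_shift (by linarith) v 8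
      exact ((hΩ.1.contDiffAt).mul h2).mul contDiffAt_const
    · exact contDiffAt_const.congr_of_eventuallyEq (hev x hx)
  · intro x hx
    unfold Om3
    rw [hΩ.2.1 x hx]
    simp
  · intro x hx
    unfold Om3
    rw [hΩ.2.2.1 x hx]
    simp
  · intro j hj x
    by_cases hx : x ∈ tsupport Ω
    · obtain ⟨hx1, hx2⟩ := hcl x hx
      have hj' : ((j : ℕ) : WithTop ℕ∞) ≤ 8 := by exact_mod_cast hj
      have h2 : ContDiffAt ℝ j (fun y : ℝ => X2 (y + τ) (wv v)) x := cdiff_shift (by linarith) v j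
      have e1 : iteratedDeriv j (Om3 U τ v Ω) x =
          iteratedDeriv j (fun y => Ω y * X2 (y + τ) (wv v)) x * ((K1 U v : ℝ) : ℂ)⁻¹ := by
        unfold Om3
        rw [iteratedDeriv_mul_const_field]
      have e2 : iteratedDeriv j (fun y => Ω y * X2 (y + τ) (wv v)) x =
          ∑ i ∈ Finset.range (j + 1),
          j.choose i * iteratedDeriv i Ω x *
            iteratedDeriv (j - i) (fun y => X2 (y + τ) (wv v)) x :=
        iteratedDeriv_fun_mul (hΩ.1.contDiffAt.of_le hj') h2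
      rw [e1, e2, norm_mul, norm_inv, Complex.norm_real, Real.norm_of_nonneg hK.le,
        ← div_eq_mul_inv, div_le_iff₀ hK]
      calc ‖∑ i ∈ Finset.range (j + 1), (j.choose i : ℂ) * iteratedDeriv i Ω x *
            iteratedDeriv (j - i) (fun y => X2 (y + τ) (wv v)) x‖
          ≤ ∑ i ∈ Finset.range (j + 1), (j.choose i : ℝ) * (Δ⁻¹) ^ i *
            (16 * (9 * (1 + |v|)) ^ 8 * U ^ c0 * (2 * Δ⁻¹) ^ (j - i)) := by
            refine (norm_sum_le _ _).trans (Finset.sum_le_sum fun i hi => ?_)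
            have hi' : i ≤ j := Nat.lt_succ_iff.1 (Finset.mem_range.1 hi)
            rw [norm_mul, norm_mul, Complex.norm_natCast]
            have a1 := hΩ.2.2.2 i (by omega) x
            have a2 := iter_le hU hx1 hx2 v (k := j - i) (by omega) hΔ hΔU
            have a3 : iteratedDeriv (j - i) (fun y => X2 (y + τ) (wv v)) x =
                iteratedDeriv (j - i) (fun y => X2 y (wv v)) (x + τ) := by
              have := iteratedDeriv_comp_add_const (n := j - i) (f := fun y => X2 y (wv v)) (s := τ)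
              exact congrFun this x
            rw [a3]
            gcongr
        _ = 16 * (9 * (1 + |v|)) ^ 8 * U ^ c0 * ∑ i ∈ Finset.range (j + 1), (Δ⁻¹) ^ i *
            (2 * Δ⁻¹) ^ (j - i) * (j.choose i : ℝ) := by
            rw [Finset.mul_sum]
            refine Finset.sum_congr rfl fun i _ => ?_
            ring
        _ = 16 * (9 * (1 + |v|)) ^ 8 * U ^ c0 * (3 ^ j * (Δ⁻¹) ^ j) := by
            rw [← add_pow, ← mul_pow]
            congr 2
            ring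
        _ ≤ 16 * (9 * (1 + |v|)) ^ 8 * U ^ c0 * (3 ^ 8 * (Δ⁻¹) ^ j) := by
            gcongr
            · norm_num
        _ = _ := by unfold K1; ring
    · rw [(hev x hx).iteratedDeriv_eq]
      have : iteratedDeriv j (fun _ : ℝ => (0 : ℂ)) x = 0 := by
        cases j with
        | zero => simp
        | succ j => simp
      rw [this, norm_zero]
      positivity

/-- the kernel in `v` -/
noncomputable def Ev (h v : ℝ) : ℂ :=
  cexp ((wv v) ^ 2) / wv v * ((h : ℂ) ^ (-(wv v)) * riemannZeta (1 + 2 * wv v))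

theorem om_eq {h y : ℝ} (hh : 1 ≤ h) (hy : 0 < y) :
    (Om h y : ℂ) = (Real.pi : ℂ)⁻¹ * ∫ v : ℝ, Ev h v * X2 y (wv v) := by
  have := (om_mellin c0_pos hh hy).2
  rw [this]
  congr 1
  refine integral_congr_ae (Filter.Eventually.of_forall fun v => ?_)
  simp only [Ev, wv]
  ring

theorem Ev_int {h : ℝ} (hh : 1 ≤ h) : Integrable (Ev h) := by
  have := (om_mellin c0_pos hh (y := 2 * Real.pi) (by positivity)).1
  refine this.congr (Filter.Eventually.of_forall fun v => ?_)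
  simp only [Ev, wv]
  rw [X2_pi]
  ring

theorem Ev_bound : ∃ C : ℝ, 0 < C ∧ ∀ h v : ℝ, 1 ≤ h → ‖Ev h v‖ ≤ C * Real.exp (-v ^ 2) := by
  obtain ⟨C, hC, hz⟩ := zeta_bound_re (2 * c0) (by have := c0_pos; linarith)
  refine ⟨3 * c0⁻¹ * C, by have := c0_pos; positivity, fun h v hh => ?_⟩
  unfold Ev
  rw [norm_mul, norm_div, norm_mul]
  have h1 : ‖cexp ((wv v) ^ 2)‖ ≤ 3 * Real.exp (-v ^ 2) := by
    rw [Complex.norm_exp]
    have e : ((wv v) ^ 2).re = c0 ^ 2 + (-v ^ 2) := by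
      simp [wv, pow_two]
      ring
    rw [e, Real.exp_add]
    apply mul_le_mul_of_nonneg_right _ (Real.exp_pos _).le
    have : c0 ^ 2 ≤ 1 := by unfold c0; norm_num
    calc Real.exp (c0 ^ 2) ≤ Real.exp 1 := Real.exp_le_exp.2 this
      _ ≤ 3 := by linarith [Real.exp_one_lt_d9]
  have h2 : ‖(h : ℂ) ^ (-(wv v))‖ ≤ 1 := by
    rw [Complex.norm_cpow_eq_rpow_re_of_pos (by linarith), Complex.neg_re, wv_re]
    exact Real.rpow_le_one_of_one_le_of_nonpos hh (by linarith [c0_pos])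
  have h3 : ‖riemannZeta (1 + 2 * wv v)‖ ≤ C := by
    apply hz
    have : (1 + 2 * wv v).re = 1 + 2 * c0 := by simp [wv]
    rw [this]
  have h4 := c0_le_norm v
  have h5 : ‖cexp ((wv v) ^ 2)‖ / ‖wv v‖ ≤ 3 * Real.exp (-v ^ 2) * c0⁻¹ := by
    rw [div_eq_mul_inv]
    apply mul_le_mul h1 _ (by positivity) (by positivity)
    exact inv_anti₀ c0_pos h4
  have hcp := c0_pos
  calc ‖cexp ((wv v) ^ 2)‖ / ‖wv v‖ * (‖(h : ℂ) ^ (-(wv v))‖ * ‖riemannZeta (1 + 2 * wv v)‖)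
      ≤ 3 * Real.exp (-v ^ 2) * c0⁻¹ * (1 * C) := by gcongr
    _ = _ := by ring

theorem fub {h : ℝ} (hh : 1 ≤ h) {U τ : ℝ} (hU : 1 ≤ U) {A : ℝ → ℂ} (hA : Integrable A)
    (hs : ∀ x, A x ≠ 0 → U / 2 ≤ x + τ ∧ x + τ ≤ 16 * U) :
    (Integrable fun v : ℝ => Ev h v * ∫ x : ℝ, A x * X2 (x + τ) (wv v)) ∧
    ∫ x : ℝ, A x * (Om h (x + τ) : ℂ) =
      (Real.pi : ℂ)⁻¹ * ∫ v : ℝ, Ev h v * ∫ x : ℝ, A x * X2 (x + τ) (wv v) := by
  have hprod : Integrable (fun z : ℝ × ℝ => A z.1 * Ev h z.2) (volume.prod volume) :=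
    hA.mul_prod (Ev_int hh)
  have hmeas : Measurable fun z : ℝ × ℝ => X2 (z.1 + τ) (wv z.2) := by
    unfold X2 wv
    fun_prop
  have hf : Integrable (Function.uncurry fun x v : ℝ => A x * Ev h v * X2 (x + τ) (wv v))
      (volume.prod volume) := by
    refine (hprod.norm.mul_const (16 * U ^ c0)).mono'
      (hprod.aestronglyMeasurable.mul hmeas.aestronglyMeasurable) ?_
    refine Filter.Eventually.of_forall fun z => ?_
    simp only [Function.uncurry]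
    rw [norm_mul]
    by_cases hz : A z.1 = 0
    · rw [hz]
      simp
    · obtain ⟨h1, h2⟩ := hs z.1 hz
      exact mul_le_mul_of_nonneg_left (X2_le hU h1 h2 z.2) (norm_nonneg _)
  have hpi : (Real.pi : ℂ) ≠ 0 := by exact_mod_cast Real.pi_ne_zero
  have e1 : ∀ x : ℝ, A x * (Om h (x + τ) : ℂ) =
      (Real.pi : ℂ)⁻¹ * ∫ v : ℝ, A x * Ev h v * X2 (x + τ) (wv v) := by
    intro x
    by_cases hx : A x = 0
    · simp [hx]
    · have h1 := (hs x hx).1
      rw [om_eq hh (show 0 < x + τ by linarith)]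
      have : ∀ v, A x * Ev h v * X2 (x + τ) (wv v) = A x * (Ev h v * X2 (x + τ) (wv v)) :=
        fun v => by ring
      simp_rw [this]
      rw [integral_const_mul]
      ring
  have e2 : ∀ v : ℝ, Ev h v * ∫ x : ℝ, A x * X2 (x + τ) (wv v) =
      ∫ x : ℝ, A x * Ev h v * X2 (x + τ) (wv v) := by
    intro v
    rw [← integral_const_mul]
    refine integral_congr_ae (Filter.Eventually.of_forall fun x => ?_)
    simp only
    ring
  refine ⟨?_, ?_⟩
  · simp_rw [e2]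
    exact hf.integral_prod_right
  · simp_rw [e1, e2]
    rw [integral_const_mul, integral_integral_swap hf]

theorem poly_gauss : Integrable fun v : ℝ => (1 + |v|) ^ 8 * Real.exp (-v ^ 2) := by
  have h1 := integrable_exp_neg_mul_sq (b := 1) one_pos
  have h2 := integrable_rpow_mul_exp_neg_mul_sq (b := 1) one_pos (s := 8) (by norm_num)
  refine ((h1.add h2).const_mul 256).mono' (by fun_prop) (Filter.Eventually.of_forall fun v => ?_)
  have e0 : v ^ (8 : ℝ) = |v| ^ 8 := by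
    have : v ^ (8 : ℝ) = v ^ (8 : ℕ) := by
      rw [← Real.rpow_natCast]; norm_num
    rw [this]
    have h := Even.pow_abs (n := 8) (by decide) v
    exact h.symm
  have e1 : -1 * v ^ 2 = -v ^ 2 := by ring
  simp only [Pi.add_apply]
  rw [e0, e1, Real.norm_of_nonneg (by positivity)]
  have ha := abs_nonneg v
  have e2 : (1 + |v|) ^ 8 ≤ 256 * (1 + |v| ^ 8) := by
    by_cases hv : |v| ≤ 1
    · calc (1 + |v|) ^ 8 ≤ (2 : ℝ) ^ 8 := pow_le_pow_left₀ (by positivity) (by linarith) 8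
        _ = 256 * 1 := by norm_num
        _ ≤ _ := by
          have : 0 ≤ |v| ^ 8 := by positivity
          linarith
    · push Not at hv
      calc (1 + |v|) ^ 8 ≤ (2 * |v|) ^ 8 := pow_le_pow_left₀ (by positivity) (by linarith) 8
        _ = 256 * |v| ^ 8 := by ring
        _ ≤ _ := by linarith
  calc (1 + |v|) ^ 8 * Real.exp (-v ^ 2) ≤ 256 * (1 + |v| ^ 8) * Real.exp (-v ^ 2) :=
        mul_le_mul_of_nonneg_right e2 (Real.exp_pos _).le
    _ = _ := by ring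

end TwOmAux

open TwOmAux Twist4Aux in
theorem tw_om : ∃ C : ℝ, 0 < C ∧ ∀ (U Δ τ : ℝ) (Ω : ℝ → ℂ) (a b : ℕ+), 1 ≤ U → U ^ (1 - 1 / 1000 : ℝ) ≤ Δ →
    Δ ≤ U → Adm U Δ Ω → Nat.Coprime (a : ℕ) (b : ℕ) → ((a : ℕ) : ℝ) ≤ U ^ (1 / 1000 : ℝ) →
    ((b : ℕ) : ℝ) ≤ U ^ (1 / 1000 : ℝ) → (∀ x, Ω x ≠ 0 → U / 2 ≤ x + τ ∧ x + τ ≤ 16 * U) →
    ‖(∫ x : ℝ, Ω x * (Om (hgt (a, b)) (x + τ) : ℂ) * ((‖riemannZeta (1 / 2 + x * I)‖ ^ 4 : ℝ) : ℂ) * ex x (a, b)) -
      ∫ x : ℝ, Ω x * (Om (hgt (a, b)) (x + τ) : ℂ) * MM x a b‖ ≤ C * U ^ (1 - 1 / 30 : ℝ) := by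
  obtain ⟨C, hC, hav⟩ := tw_avg
  obtain ⟨C', hC', hE⟩ := Ev_bound
  set IG : ℝ := ∫ v : ℝ, (1 + |v|) ^ 8 * Real.exp (-v ^ 2) with hIG
  have hIG0 : 0 ≤ IG := integral_nonneg fun v => by positivity
  set C9 : ℝ := 16 * 9 ^ 8 * 3 ^ 8 with hC9
  have hC9p : 0 < C9 := by rw [hC9]; norm_num
  refine ⟨C' * C * C9 * IG + 1, by positivity, ?_⟩
  intro U Δ τ Ω a b hU hΔ hΔU hΩ hab ha hb hτ
  have hU0 : 0 < U := by linarith
  have hΔ0 : 0 < Δ := lt_of_lt_of_le (by positivity) hΔ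
  have hh := one_le_hgt (a, b)
  -- the two functions
  set Z : ℝ → ℂ := fun x => ((‖riemannZeta (1 / 2 + x * I)‖ ^ 4 : ℝ) : ℂ) * ex x (a, b) with hZ
  have hzc : Continuous Z := by
    have h1 : Continuous fun x : ℝ => riemannZeta (1 / 2 + x * I) := by
      rw [continuous_iff_continuousAt]
      intro x
      have hne : (1 / 2 + x * I : ℂ) ≠ 1 := by
        intro h
        have := congrArg Complex.re h
        simp at this
      have h2 : ContinuousAt riemannZeta (1 / 2 + x * I) :=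
        (differentiableAt_riemannZeta hne).continuousAt
      exact ContinuousAt.comp (f := fun x : ℝ => (1 / 2 + x * I : ℂ)) h2 (by fun_prop)
    exact (Complex.continuous_ofReal.comp (h1.norm.pow 4)).mul (ex_cont (a, b))
  set A1 : ℝ → ℂ := fun x => Ω x * Z x with hA1
  set A2 : ℝ → ℂ := fun x => Ω x * MM x a b with hA2
  have hsup : ∀ (g : ℝ → ℂ) (x : ℝ), x ∉ Set.Icc (U / 2) (8 * U) → Ω x * g x = 0 := by
    intro g x hx
    rw [Set.mem_Icc, not_and_or, not_le, not_le] at hx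
    rcases hx with hx | hx
    · rw [hΩ.2.1 x hx.le, zero_mul]
    · rw [hΩ.2.2.1 x hx.le, zero_mul]
  have hint : ∀ g : ℝ → ℂ, ContinuousOn g (Set.Icc (U / 2) (8 * U)) →
      Integrable fun x => Ω x * g x := by
    intro g hg
    have h1 : IntegrableOn (fun x => Ω x * g x) (Set.Icc (U / 2) (8 * U)) :=
      ContinuousOn.integrableOn_Icc ((om_cont hΩ).continuousOn.mul hg)
    rw [integrableOn_iff_integrable_of_support_subset] at h1
    · exact h1
    · intro x hx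
      by_contra hx'
      exact hx (hsup g x hx')
  have hi1 : Integrable A1 := hint Z hzc.continuousOn
  have hi2 : Integrable A2 := hint _ ((mm_cont a b hab).mono fun x hx =>
    Set.mem_Ioi.2 (lt_of_lt_of_le (by linarith) hx.1))
  have hs1 : ∀ x, A1 x ≠ 0 → U / 2 ≤ x + τ ∧ x + τ ≤ 16 * U :=
    fun x hx => hτ x (left_ne_zero_of_mul hx)
  have hs2 : ∀ x, A2 x ≠ 0 → U / 2 ≤ x + τ ∧ x + τ ≤ 16 * U :=
    fun x hx => hτ x (left_ne_zero_of_mul hx)
  obtain ⟨f1i, f1⟩ := fub hh hU hi1 hs1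
  obtain ⟨f2i, f2⟩ := fub hh hU hi2 hs2
  have e1 : (∫ x : ℝ, Ω x * (Om (hgt (a, b)) (x + τ) : ℂ) *
      ((‖riemannZeta (1 / 2 + x * I)‖ ^ 4 : ℝ) : ℂ) * ex x (a, b)) =
      ∫ x : ℝ, A1 x * (Om (hgt (a, b)) (x + τ) : ℂ) := by
    refine integral_congr_ae (Filter.Eventually.of_forall fun x => ?_)
    simp only [hA1, hZ]
    ring
  have e2 : (∫ x : ℝ, Ω x * (Om (hgt (a, b)) (x + τ) : ℂ) * MM x a b) =
      ∫ x : ℝ, A2 x * (Om (hgt (a, b)) (x + τ) : ℂ) := by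
    refine integral_congr_ae (Filter.Eventually.of_forall fun x => ?_)
    simp only [hA2]
    ring
  rw [e1, e2, f1, f2, ← mul_sub, ← integral_sub f1i f2i, norm_mul]
  -- the inner difference
  have hin : ∀ v : ℝ, ‖(∫ x : ℝ, A1 x * X2 (x + τ) (wv v)) - ∫ x : ℝ, A2 x * X2 (x + τ) (wv v)‖ ≤
      K1 U v * (C * U ^ (1 - 1 / 25 : ℝ)) := by
    intro v
    have hK := K1_pos hU v
    have hKc : ((K1 U v : ℝ) : ℂ) ≠ 0 := by exact_mod_cast hK.ne'
    have h1 := hav U Δ (Om3 U τ v Ω) a b hU hΔ hΔU (adm_Om3 hU hΔ0 hΔU hΩ hτ v) hab ha hb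
    have g1 : (∫ x : ℝ, A1 x * X2 (x + τ) (wv v)) = ((K1 U v : ℝ) : ℂ) *
        ∫ x : ℝ, Om3 U τ v Ω x * ((‖riemannZeta (1 / 2 + x * I)‖ ^ 4 : ℝ) : ℂ) * ex x (a, b) := by
      rw [← integral_const_mul]
      refine integral_congr_ae (Filter.Eventually.of_forall fun x => ?_)
      simp only [hA1, hZ, Om3]
      field_simp
    have g2 : (∫ x : ℝ, A2 x * X2 (x + τ) (wv v)) = ((K1 U v : ℝ) : ℂ) *
        ∫ x : ℝ, Om3 U τ v Ω x * MM x a b := by
      rw [← integral_const_mul]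
      refine integral_congr_ae (Filter.Eventually.of_forall fun x => ?_)
      simp only [hA2, Om3]
      field_simp
    rw [g1, g2, ← mul_sub, norm_mul, Complex.norm_real, Real.norm_of_nonneg hK.le]
    exact mul_le_mul_of_nonneg_left h1 hK.le
  have hK2 : ∀ v : ℝ, K1 U v = C9 * ((1 + |v|) ^ 8 * U ^ c0) := by
    intro v
    unfold K1
    rw [hC9]
    ring
  have hb1 : ‖∫ v : ℝ, (Ev (hgt (a, b)) v * ∫ x : ℝ, A1 x * X2 (x + τ) (wv v)) -
      Ev (hgt (a, b)) v * ∫ x : ℝ, A2 x * X2 (x + τ) (wv v)‖ ≤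
      ∫ v : ℝ, C' * C * C9 * (U ^ c0 * U ^ (1 - 1 / 25 : ℝ)) *
        ((1 + |v|) ^ 8 * Real.exp (-v ^ 2)) := by
    refine norm_integral_le_of_norm_le (poly_gauss.const_mul _)
      (Filter.Eventually.of_forall fun v => ?_)
    rw [← mul_sub, norm_mul]
    calc ‖Ev (hgt (a, b)) v‖ * ‖(∫ x : ℝ, A1 x * X2 (x + τ) (wv v)) -
          ∫ x : ℝ, A2 x * X2 (x + τ) (wv v)‖
        ≤ (C' * Real.exp (-v ^ 2)) * (K1 U v * (C * U ^ (1 - 1 / 25 : ℝ))) := by
          have a1 := hE (hgt (a, b)) v hh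
          have a2 := hin v
          gcongr
      _ = _ := by rw [hK2]; ring
  rw [integral_const_mul, ← hIG] at hb1
  have hpi : ‖(Real.pi : ℂ)⁻¹‖ ≤ 1 := by
    rw [norm_inv, Complex.norm_real, Real.norm_of_nonneg Real.pi_pos.le]
    exact inv_le_one_of_one_le₀ (by linarith [Real.pi_gt_three])
  have hpow : U ^ c0 * U ^ (1 - 1 / 25 : ℝ) ≤ U ^ (1 - 1 / 30 : ℝ) := by
    rw [← Real.rpow_add hU0]
    apply Real.rpow_le_rpow_of_exponent_le hU
    unfold c0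
    norm_num
  calc ‖(Real.pi : ℂ)⁻¹‖ * ‖∫ v : ℝ, (Ev (hgt (a, b)) v * ∫ x : ℝ, A1 x * X2 (x + τ) (wv v)) -
      Ev (hgt (a, b)) v * ∫ x : ℝ, A2 x * X2 (x + τ) (wv v)‖
      ≤ 1 * (C' * C * C9 * (U ^ c0 * U ^ (1 - 1 / 25 : ℝ)) * IG) := by gcongr
    _ = C' * C * C9 * IG * (U ^ c0 * U ^ (1 - 1 / 25 : ℝ)) := by ring
    _ ≤ C' * C * C9 * IG * U ^ (1 - 1 / 30 : ℝ) := by gcongr
    _ ≤ _ := by
        have : 0 ≤ U ^ (1 - 1 / 30 : ℝ) := by positivity
        nlinarith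

end Pool.Agent.P07318f
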