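import Pool.Agent.Lib.P07318f.LongPart
import Pool.Agent.Lib.P07318f.TwOm
import Pool.Agent.Lib.P07318f.TailMM
import Pool.Agent.Lib.P07318f.FullSum
import Pool.Agent.Lib.P07318f.MBound

/-!
# The smoothed sixth moment

`τ = h - α`, `x ∈ [U, 8U]`, `y = x + τ ∈ [U, 11U]`, `Y = U^(1/1000)`. (1) `‖ζ(1/2+iy)‖² = Fd y + O(y^(-1/2+ε))` (`afe`), the error contributes
`≤ C U^(-1/2+ε) ∫_U^{8U} ‖ζ‖⁴ ≤ C U^(1/2+2ε)` (`zeta_fourth` on finitely many intervals). (2) `Fd = FdSmall Y + FdBig Y` (`Fd_split`). `∫ Ω(x) ‖ζ(x)‖⁴ FdBig Y (x+τ) dx`: substitute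
`x = t + α`: `long_part` with `δ₀ = 1/1000`, `G(t) = Ω(t+α) ‖ζ(1/2+i(t+α))‖⁴` (`t ∈ [-U, 4U]`): mean square `≤ C U^(3-c)`. (3) `FdSmall Y (x+τ)` is the finite sum over
`q`, `h_q ≤ Y` (at most `Y²` fractions, `a, b ≤ h_q ≤ U^(1/1000)`) of `h_q^(-1/2) Om(h_q, x+τ) ex x q ex τ q` (`lgr_add_aux`): `tw_om` for each `q`, total error
`≤ C U^(1-1/30+2/1000)`. (4) `∑_{h_q ≤ Y} h_q^(-1/2) ex τ q ∫ Ω Om(h_q,x+τ) MM x q dx = ∫ Ω(x) (∑_{all q} - MTail Y x τ) dx` (`mm_summable`), `tail_mm`: mean square of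
the `MTail` part `≤ C U^(3-1/4000)`, and `full_sum` (`y - x = τ` good) for the rest: `≤ 8U · C U^(-1/1000)`. So for good `h` the quantity is `A₁(h) + A₂(h) + A₃(h)`,
`|A₃| ≤ C U^(1-1/1000)` pointwise, `∫ |A₁|², ∫ |A₂|² ≤ C U^(3-c)`; `(a+b+c)² ≤ 3(a²+b²+c²)`. Measurability of `A₁` (in `h`): `FdBig_continuousOn`; of the set of good
`h`: `FinalAux.measurableSet_bad` in P07318s/Final.lean. (Mxy is integrable in `x` against `Ω` for good `h`: `m_cont`, `|τ| > 4`.)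
-/

set_option autoImplicit false

namespace Pool.Agent.P07318f

open MeasureTheory Complex Pool.Agent.P07318s

namespace SmoothMainAux

theorem measurableSet_bad (κ Y B : ℝ) : MeasurableSet {δ : ℝ | ¬ Good κ Y B δ} := by
  have h : {δ : ℝ | ¬ Good κ Y B δ} = {δ : ℝ | |δ| ≤ 4 * Y} ∪ {δ : ℝ | 4 * Y < |δ| ∧
      ∃ σ v : ℝ, 1 / 2 + κ ≤ σ ∧ σ ≤ 3 ∧ |v| ≤ 2 * Y ∧
        B < ‖riemannZeta (σ + ((δ + v : ℝ) : ℂ) * I)‖} := by
    ext δ
    change ¬ (4 * Y < |δ| ∧ ∀ σ v : ℝ, 1 / 2 + κ ≤ σ → σ ≤ 3 → |v| ≤ 2 * Y →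
      ‖riemannZeta (σ + ((δ + v : ℝ) : ℂ) * I)‖ ≤ B) ↔ (|δ| ≤ 4 * Y ∨ (4 * Y < |δ| ∧
      ∃ σ v : ℝ, 1 / 2 + κ ≤ σ ∧ σ ≤ 3 ∧ |v| ≤ 2 * Y ∧
        B < ‖riemannZeta (σ + ((δ + v : ℝ) : ℂ) * I)‖))
    constructor
    · intro h
      by_cases h1 : |δ| ≤ 4 * Y
      · exact Or.inl h1
      · right
        push Not at h1
        refine ⟨h1, ?_⟩
        by_contra hcon
        push Not at hcon
        exact h ⟨h1, fun σ v a b c => hcon σ v a b c⟩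
    · rintro (h1 | ⟨h1, σ, v, a, b, c, d⟩) ⟨h2, h3⟩
      · linarith
      · have := h3 σ v a b c
        linarith
  rw [h]
  refine (measurableSet_le (by fun_prop) (by fun_prop)).union (IsOpen.measurableSet ?_)
  rw [isOpen_iff_mem_nhds]
  rintro δ₀ ⟨h1, σ, v, h2, h3, h4, h5⟩
  have hne : δ₀ + v ≠ 0 := by
    intro h0
    have h6 : δ₀ = -v := by linarith
    rw [h6, abs_neg] at h1
    have := abs_nonneg v
    linarith
  have hne1 : (σ : ℂ) + ((δ₀ + v : ℝ) : ℂ) * I ≠ 1 := by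
    intro h0
    have := congrArg Complex.im h0
    simp at this
    exact hne (by exact_mod_cast this)
  have hc : ContinuousAt (fun δ : ℝ => ‖riemannZeta (σ + ((δ + v : ℝ) : ℂ) * I)‖) δ₀ := by
    apply ContinuousAt.norm
    apply ContinuousAt.comp (g := riemannZeta) (f := fun δ : ℝ => (σ : ℂ) + ((δ + v : ℝ) : ℂ) * I)
      (differentiableAt_riemannZeta hne1).continuousAt
    fun_prop
  have hc2 : ContinuousAt (fun δ : ℝ => |δ|) δ₀ := by fun_prop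
  filter_upwards [hc.eventually (lt_mem_nhds h5), hc2.eventually (lt_mem_nhds h1)] with δ ha hb
  exact ⟨hb, σ, v, h2, h3, h4, ha⟩

theorem om_cont {h : ℝ} (hh : 1 ≤ h) : ContinuousOn (fun x : ℝ => Om h x) (Set.Ioi 0) := by
  intro x0 hx0
  have hx0' : 0 < x0 := hx0
  have hpi := Real.pi_pos
  have hh0 : 0 < h := by linarith
  have hg : ∀ g : ℕ+, (0 : ℝ) < ((g : ℕ) : ℝ) := fun g => by exact_mod_cast g.pos
  have h1 : ContinuousOn (fun x : ℝ => Om h x) (Set.Ioo 0 (x0 + 1)) := by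
    unfold Om
    refine continuousOn_tsum
      (u := fun g : ℕ+ => W (2 * Real.pi * ((g : ℕ) : ℝ) ^ 2 * h / (x0 + 1)) / ((g : ℕ) : ℝ))
      (fun g => ?_) (Om_summable (by linarith) hh) (fun g x hx => ?_)
    · refine ContinuousOn.div_const ?_ _
      refine W_continuousOn.comp (t := Set.Ioi 0)
        (f := fun x : ℝ => 2 * Real.pi * ((g : ℕ) : ℝ) ^ 2 * h / x) ?_ ?_
      · exact continuousOn_const.div continuousOn_id (fun x hx => ne_of_gt hx.1)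
      · intro x hx
        show 0 < 2 * Real.pi * ((g : ℕ) : ℝ) ^ 2 * h / x
        have h2 := hg g
        have h3 := hx.1
        positivity
    · rw [Real.norm_of_nonneg (div_nonneg (W_nonneg _) (hg g).le)]
      refine div_le_div_of_nonneg_right ?_ (hg g).le
      have h2 := hg g
      have h3 := hx.1
      refine W_antitone ?_ ?_ ?_
      · rw [Set.mem_Ioi]
        positivity
      · rw [Set.mem_Ioi]
        positivity
      · exact div_le_div_of_nonneg_left (by positivity) h3 hx.2.le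
  exact (h1.continuousAt (Ioo_mem_nhds hx0' (by linarith))).continuousWithinAt

theorem zeta_half_cont : Continuous (fun x : ℝ => riemannZeta (1 / 2 + x * I)) := by
  rw [continuous_iff_continuousAt]
  intro x
  have h1 : ((1:ℂ) / 2 + x * I) ≠ 1 := by
    intro h
    have := congrArg Complex.re h
    simp at this
  have h2 : ContinuousAt (fun x : ℝ => ((1:ℂ) / 2 + x * I)) x := by fun_prop
  exact ContinuousAt.comp (g := riemannZeta) (f := fun x : ℝ => ((1:ℂ) / 2 + x * I))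
    (differentiableAt_riemannZeta h1).continuousAt h2

/-- fourth moment on `[U, 8U]` -/
theorem zeta_four_piece (ε : ℝ) (hε : 0 < ε) : ∃ C : ℝ, 0 < C ∧ ∀ U : ℝ, 1 ≤ U →
    ∫ x in U..(8 * U), ‖riemannZeta (1 / 2 + x * I)‖ ^ 4 ≤ C * U ^ (1 + ε) := by
  obtain ⟨C, hC, h⟩ := zeta_fourth ε hε
  refine ⟨C * (1 + 3 * 2 ^ (1 + ε)), by positivity, fun U hU => ?_⟩
  have hc : Continuous fun x : ℝ => ‖riemannZeta (1 / 2 + x * I)‖ ^ 4 := (zeta_half_cont.norm).pow 4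
  have hi : ∀ a b : ℝ, IntervalIntegrable (fun x : ℝ => ‖riemannZeta (1 / 2 + x * I)‖ ^ 4) volume a b :=
    fun a b => hc.intervalIntegrable a b
  have h1 := h U U hU le_rfl (by linarith)
  have h2 := h (2 * U) (2 * U) (by linarith) le_rfl (by linarith)
  have h3 := h (2 * U) (4 * U) (by linarith) (by linarith) (by linarith)
  have h4 := h (2 * U) (6 * U) (by linarith) (by linarith) (by linarith)
  have e : ∫ x in U..(8 * U), ‖riemannZeta (1 / 2 + x * I)‖ ^ 4 =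
      (∫ x in U..(U + U), ‖riemannZeta (1 / 2 + x * I)‖ ^ 4) +
      (∫ x in (2 * U)..(2 * U + 2 * U), ‖riemannZeta (1 / 2 + x * I)‖ ^ 4) +
      (∫ x in (4 * U)..(4 * U + 2 * U), ‖riemannZeta (1 / 2 + x * I)‖ ^ 4) +
      (∫ x in (6 * U)..(6 * U + 2 * U), ‖riemannZeta (1 / 2 + x * I)‖ ^ 4) := by
    rw [show U + U = 2 * U by ring, show 2 * U + 2 * U = 4 * U by ring, show 4 * U + 2 * U = 6 * U by ring,
      show 6 * U + 2 * U = 8 * U by ring, intervalIntegral.integral_add_adjacent_intervals (hi _ _) (hi _ _),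
      intervalIntegral.integral_add_adjacent_intervals (hi _ _) (hi _ _),
      intervalIntegral.integral_add_adjacent_intervals (hi _ _) (hi _ _)]
  rw [Real.mul_rpow (by norm_num) (by linarith)] at h2 h3 h4
  rw [e]
  calc _ ≤ C * U ^ (1 + ε) + C * (2 ^ (1 + ε) * U ^ (1 + ε)) + C * (2 ^ (1 + ε) * U ^ (1 + ε)) +
        C * (2 ^ (1 + ε) * U ^ (1 + ε)) := by gcongr
    _ = C * (1 + 3 * 2 ^ (1 + ε)) * U ^ (1 + ε) := by ring

theorem small_aux (q : Q) {Y : ℝ} (h : ¬ Y < hgt q.1) :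
    ((q.1.1 : ℕ) : ℝ) ≤ Y ∧ ((q.1.2 : ℕ) : ℝ) ≤ Y := by
  push Not at h
  have h1 : (1 : ℝ) ≤ ((q.1.1 : ℕ) : ℝ) := by exact_mod_cast q.1.1.2
  have h2 : (1 : ℝ) ≤ ((q.1.2 : ℕ) : ℝ) := by exact_mod_cast q.1.2.2
  unfold hgt at h
  constructor <;> nlinarith

/-- the finite set of fractions of small height -/
theorem small_finite (Y : ℝ) (hY : 0 ≤ Y) : ∃ s : Finset Q, (∀ q, q ∈ s ↔ ¬ Y < hgt q.1) ∧
    (s.card : ℝ) ≤ Y ^ 2 := by
  set f : Q → ℕ × ℕ := fun q => ((q.1.1 : ℕ), (q.1.2 : ℕ)) with hf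
  have hinj : Function.Injective f := by
    intro q q' h
    apply Subtype.ext
    apply Prod.ext
    · exact PNat.coe_injective (Prod.ext_iff.1 h).1
    · exact PNat.coe_injective (Prod.ext_iff.1 h).2
  set R : Finset (ℕ × ℕ) := Finset.Icc 1 ⌊Y⌋₊ ×ˢ Finset.Icc 1 ⌊Y⌋₊ with hR
  have hmem : ∀ q : Q, ¬ Y < hgt q.1 → f q ∈ R := by
    intro q hq
    obtain ⟨h1, h2⟩ := small_aux q hq
    rw [hR, Finset.mem_product, Finset.mem_Icc, Finset.mem_Icc]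
    exact ⟨⟨q.1.1.2, Nat.le_floor h1⟩, ⟨q.1.2.2, Nat.le_floor h2⟩⟩
  have hfin : Set.Finite {q : Q | ¬ Y < hgt q.1} := by
    refine Set.Finite.of_finite_image (f := f) (R.finite_toSet.subset ?_) hinj.injOn
    rintro _ ⟨q, hq, rfl⟩
    exact hmem q hq
  refine ⟨hfin.toFinset, fun q => by simp, ?_⟩
  have hcard : hfin.toFinset.card ≤ R.card := by
    refine Finset.card_le_card_of_injOn f ?_ hinj.injOn
    intro q hq
    exact hmem q (by simpa using hq)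
  have hRc : R.card = ⌊Y⌋₊ * ⌊Y⌋₊ := by
    rw [hR, Finset.card_product, Nat.card_Icc, Nat.add_sub_cancel]
  have h1 : ((hfin.toFinset.card : ℕ) : ℝ) ≤ (⌊Y⌋₊ : ℝ) * (⌊Y⌋₊ : ℝ) := by
    rw [hRc] at hcard
    exact_mod_cast hcard
  have h2 := Nat.floor_le hY
  have h3 : (0:ℝ) ≤ (⌊Y⌋₊ : ℝ) := Nat.cast_nonneg _
  nlinarith

/-- integrability and size of `Ω g` -/
theorem bdd_int {Ω g : ℝ → ℂ} (hΩc : Continuous Ω) (hΩ1 : ∀ x, ‖Ω x‖ ≤ 1) {K : Set ℝ} (hKm : MeasurableSet K)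
    (hKv : volume K < ⊤) (hK : ∀ x, Ω x ≠ 0 → x ∈ K) (hg : AEStronglyMeasurable g (volume.restrict K))
    {M : ℝ} (hM : ∀ x ∈ K, ‖g x‖ ≤ M) :
    Integrable (fun x => Ω x * g x) ∧ ‖∫ x, Ω x * g x‖ ≤ M * volume.real K := by
  have hb : ∀ x ∈ K, ‖Ω x * g x‖ ≤ M := by
    intro x hx
    rw [norm_mul]
    have h1 := hΩ1 x
    have h2 := hM x hx
    have h3 := norm_nonneg (g x)
    have h4 := norm_nonneg (Ω x)
    nlinarith
  have hsupp : Function.support (fun x => Ω x * g x) ⊆ K := by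
    intro x hx
    apply hK
    intro h0
    apply hx
    simp only
    rw [h0, zero_mul]
  constructor
  · rw [← integrableOn_iff_integrable_of_support_subset hsupp]
    have : IsFiniteMeasure (volume.restrict K) := ⟨by simpa using hKv⟩
    refine Integrable.of_bound (hΩc.aestronglyMeasurable.mul hg) M ?_
    exact (ae_restrict_iff' hKm).2 (Filter.Eventually.of_forall hb)
  · rw [← setIntegral_eq_integral_of_forall_compl_eq_zero (s := K) (f := fun x => Ω x * g x)]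
    · exact norm_setIntegral_le_of_norm_le_const hKv hb
    · intro x hx
      by_contra h0
      exact hx (hsupp h0)

theorem cont_int {Ω g : ℝ → ℂ} (hΩc : Continuous Ω) (hΩ1 : ∀ x, ‖Ω x‖ ≤ 1) {K : Set ℝ} (hKc : IsCompact K)
    (hK : ∀ x, Ω x ≠ 0 → x ∈ K) (hg : ContinuousOn g K) : Integrable (fun x => Ω x * g x) := by
  obtain ⟨M, hM⟩ := hKc.exists_bound_of_continuousOn hg
  exact (bdd_int hΩc hΩ1 hKc.measurableSet hKc.measure_lt_top hK
    (hg.aestronglyMeasurable hKc.measurableSet) hM).1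


/-- the coefficient -/
noncomputable def cq (τ : ℝ) (q : Q) : ℂ := (((hgt q.1) ^ (-(1 / 2) : ℝ) : ℝ) : ℂ) * ex τ q.1

theorem norm_cq_le (τ : ℝ) (q : Q) : ‖cq τ q‖ ≤ 1 := by
  unfold cq
  rw [norm_mul, norm_ex, mul_one, Complex.norm_real, Real.norm_of_nonneg (Real.rpow_nonneg (hgt_pos q.1).le _)]
  exact Real.rpow_le_one_of_one_le_of_nonpos (one_le_hgt q.1) (by norm_num)

/-- one term of the full sum -/
noncomputable def ft (τ x : ℝ) (q : Q) : ℂ :=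
  (((hgt q.1) ^ (-(1 / 2) : ℝ) * Om (hgt q.1) (x + τ) : ℝ) : ℂ) * ex τ q.1 * MM x q.1.1 q.1.2

theorem ft_eq (τ x : ℝ) (q : Q) : ft τ x q = cq τ q * ((Om (hgt q.1) (x + τ) : ℂ) * MM x q.1.1 q.1.2) := by
  unfold ft cq
  push_cast
  ring

theorem fdSmall_eq {s : Finset Q} {Y : ℝ} (hs : ∀ q, q ∈ s ↔ ¬ Y < hgt q.1) (x τ : ℝ) :
    FdSmall Y (x + τ) = ∑ q ∈ s, cq τ q * ((Om (hgt q.1) (x + τ) : ℂ) * ex x q.1) := by
  unfold FdSmall
  rw [tsum_eq_sum (s := s)]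
  · refine Finset.sum_congr rfl fun q hq => ?_
    rw [if_neg ((hs q).1 hq), lgr_add_aux]
    unfold cq
    push_cast
    ring
  · intro q hq
    rw [hs, not_not] at hq
    rw [if_pos hq]

theorem mtail_eq {s : Finset Q} {Y : ℝ} (hs : ∀ q, q ∈ s ↔ ¬ Y < hgt q.1) (x τ : ℝ) (hx : 1 ≤ x)
    (hy : 0 < x + τ) : MTail Y x τ = (∑' q, ft τ x q) - ∑ q ∈ s, ft τ x q := by
  have h1 : Summable (fun q => ft τ x q) := (mm_summable x (x + τ) τ hx hy).of_norm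
  have h2 : HasSum (fun q => if Y < hgt q.1 then 0 else ft τ x q) (∑ q ∈ s, ft τ x q) := by
    have h3 : ∑ q ∈ s, ft τ x q = ∑ q ∈ s, (if Y < hgt q.1 then 0 else ft τ x q) := by
      refine Finset.sum_congr rfl fun q hq => ?_
      rw [if_neg ((hs q).1 hq)]
    rw [h3]
    refine hasSum_sum_of_ne_finset_zero fun q hq => ?_
    rw [hs, not_not] at hq
    rw [if_pos hq]
  have h4 := h1.hasSum.sub h2
  rw [← h4.tsum_eq]
  unfold MTail
  refine tsum_congr fun q => ?_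
  split_ifs with hc
  · rw [sub_zero]
    rfl
  · rw [sub_self]

theorem ft_cont (τ : ℝ) (q : Q) {K : Set ℝ} (hK1 : ∀ x ∈ K, 1 ≤ x) (hK2 : ∀ x ∈ K, 0 < x + τ) :
    ContinuousOn (fun x => ft τ x q) K := by
  unfold ft
  refine ContinuousOn.mul (ContinuousOn.mul ?_ continuousOn_const) ?_
  · refine Complex.continuous_ofReal.comp_continuousOn (continuousOn_const.mul ?_)
    exact (om_cont (one_le_hgt q.1)).comp (f := fun x : ℝ => x + τ) (by fun_prop) (fun x hx => hK2 x hx)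
  · exact (mm_cont q.1.1 q.1.2 q.2).mono fun x hx => lt_of_lt_of_le one_pos (hK1 x hx)

theorem fs_meas (τ : ℝ) {K : Set ℝ} (hKm : MeasurableSet K) (hK1 : ∀ x ∈ K, 1 ≤ x)
    (hK2 : ∀ x ∈ K, 0 < x + τ) : AEStronglyMeasurable (fun x => ∑' q, ft τ x q) (volume.restrict K) := by
  refine aestronglyMeasurable_of_tendsto_ae (Filter.atTop : Filter (Finset Q))
    (f := fun s x => ∑ q ∈ s, ft τ x q) (fun s => ?_) ?_
  · exact (continuousOn_finsetSum s fun q _ => ft_cont τ q hK1 hK2).aestronglyMeasurable hKm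
  · refine (ae_restrict_iff' hKm).2 (Filter.Eventually.of_forall fun x hx => ?_)
    exact ((mm_summable x (x + τ) τ (hK1 x hx) (hK2 x hx)).of_norm).hasSum

theorem int5 {f a b c d e : ℝ → ℂ} (ha : Integrable a) (hb : Integrable b) (hc : Integrable c)
    (hd : Integrable d) (he : Integrable e) (hf : ∀ x, f x = a x + b x + c x - d x + e x) :
    ∫ x, f x = (∫ x, a x) + (∫ x, b x) + (∫ x, c x) - (∫ x, d x) + ∫ x, e x := by
  have h1 : Integrable (fun x => a x + b x) := ha.add hb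
  have h2 : Integrable (fun x => a x + b x + c x) := h1.add hc
  have h3 : Integrable (fun x => a x + b x + c x - d x) := h2.sub hd
  rw [integral_congr_ae (Filter.Eventually.of_forall hf), integral_add h3 he, integral_sub h2 hd,
    integral_add h1 hc, integral_add ha hb]

theorem fixed_h (B : ℝ) : ∃ C : ℝ, 0 < C ∧ ∀ (U Δ α β h : ℝ) (Ω : ℝ → ℂ), 1 ≤ U →
    U ^ (1 - 1 / 1000 : ℝ) ≤ Δ → Δ ≤ U → 2 * U ≤ α → α ≤ 6 * U → 2 * U ≤ β → β ≤ 6 * U → Adm U Δ Ω →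
    (∀ x, Ω x ≠ 0 → U ≤ x ∧ α - U ≤ x ∧ x ≤ α + 4 * U) → h ∈ Set.Icc β (β + U) →
    Good (1 / 10000) (U ^ (1 / 10000 : ℝ)) (B * U ^ (1 / 10000 : ℝ)) (h - α) →
    ‖∫ x, Ω x * (((‖riemannZeta (1 / 2 + x * I)‖ ^ 4 *
        ‖riemannZeta (1 / 2 + ((x + (h - α) : ℝ) : ℂ) * I)‖ ^ 2 : ℝ) : ℂ) - Mxy x (x + (h - α)))‖ ≤
      ‖∫ x, Ω x * (((‖riemannZeta (1 / 2 + x * I)‖ ^ 4 : ℝ) : ℂ) *
        FdBig (U ^ (1 / 1000 : ℝ)) (x + (h - α)))‖ +
      ‖∫ x, Ω x * MTail (U ^ (1 / 1000 : ℝ)) x (h - α)‖ + C * U ^ (1 - 1 / 1000 : ℝ) := by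
  obtain ⟨Ca, hCa, hafe⟩ := afe (1 / 8) (by norm_num)
  obtain ⟨Cz, hCz, hzf⟩ := zeta_four_piece (1 / 8) (by norm_num)
  obtain ⟨Ct, hCt, htw⟩ := tw_om
  obtain ⟨Cf, hCf, hfs⟩ := full_sum B
  refine ⟨Ca * Cz + Ct + 7 * Cf, by positivity, ?_⟩
  intro U Δ α β h Ω hU hΔ1 hΔ2 hα1 hα2 hβ1 hβ2 hAdm hsupp hh hgood
  have hU0 : 0 < U := by linarith
  have hΩd := hAdm.1
  have hΩz2 := hAdm.2.2.1
  have hΩb := hAdm.2.2.2
  have hΩc : Continuous Ω := hΩd.continuous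
  have hΩ1 : ∀ x, ‖Ω x‖ ≤ 1 := fun x => by simpa using hΩb 0 (by norm_num) x
  obtain ⟨hh1, hh2⟩ := hh
  set τ : ℝ := h - α with hτ
  set Y : ℝ := U ^ (1 / 1000 : ℝ) with hY
  have hY0 : 0 ≤ Y := Real.rpow_nonneg hU0.le _
  set K : Set ℝ := Set.Icc U (8 * U) ∩ Set.Icc (α - U) (α + 4 * U) with hKdef
  have hKc : IsCompact K := isCompact_Icc.inter_right isClosed_Icc
  have hKm : MeasurableSet K := hKc.measurableSet
  have hKv : volume K < ⊤ := hKc.measure_lt_top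
  have hK : ∀ x, Ω x ≠ 0 → x ∈ K := by
    intro x hx
    obtain ⟨h1, h2, h3⟩ := hsupp x hx
    refine ⟨⟨h1, ?_⟩, h2, h3⟩
    by_contra hc
    push Not at hc
    exact hx (hΩz2 x hc.le)
  have hKx : ∀ x ∈ K, U ≤ x ∧ x ≤ 8 * U ∧ U ≤ x + τ ∧ x + τ ≤ 11 * U := by
    rintro x ⟨⟨h1, h2⟩, h3, h4⟩
    exact ⟨h1, h2, by linarith, by linarith⟩
  have hK1 : ∀ x ∈ K, 1 ≤ x := fun x hx => hU.trans (hKx x hx).1
  have hK0 : ∀ x ∈ K, 0 < x := fun x hx => one_pos.trans_le (hK1 x hx)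
  have hK2 : ∀ x ∈ K, 0 < x + τ := fun x hx => hU0.trans_le (hKx x hx).2.2.1
  have hKr : volume.real K ≤ 7 * U := by
    refine (measureReal_mono Set.inter_subset_left (by simp)).trans ?_
    rw [Real.volume_real_Icc_of_le (by linarith)]
    linarith
  obtain ⟨s, hs, hcard⟩ := small_finite Y hY0
  set Z4 : ℝ → ℂ := fun x => ((‖riemannZeta (1 / 2 + x * I)‖ ^ 4 : ℝ) : ℂ) with hZ4
  set Z2 : ℝ → ℂ := fun x => ((‖riemannZeta (1 / 2 + ((x + τ : ℝ) : ℂ) * I)‖ ^ 2 : ℝ) : ℂ) with hZ2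
  have hZ4c : Continuous Z4 := Complex.continuous_ofReal.comp ((zeta_half_cont.norm).pow 4)
  have hZ2c : Continuous Z2 := Complex.continuous_ofReal.comp
    (((zeta_half_cont.comp (continuous_id.add continuous_const)).norm).pow 2)
  have hshift : ∀ f : ℝ → ℂ, ContinuousOn f (Set.Ioi 0) → ContinuousOn (fun x => f (x + τ)) K :=
    fun f hf => hf.comp (f := fun x : ℝ => x + τ) (by fun_prop) (fun x hx => hK2 x hx)
  have hFdc := hshift Fd Fd_continuousOn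
  have hFBc := hshift (FdBig Y) (FdBig_continuousOn Y)
  have hτ1 : 1 < |τ| := by
    have h1 := hgood.1
    have h2 : 1 ≤ U ^ (1 / 10000 : ℝ) := Real.one_le_rpow hU (by norm_num)
    linarith
  have hMc : ContinuousOn (fun x => Mxy x (x + τ)) K := by
    refine m_cont.comp (f := fun x : ℝ => (x, x + τ)) (by fun_prop) ?_
    intro x hx
    exact ⟨hK0 x hx, hK2 x hx, by simpa using hτ1⟩
  have hFS : ∀ x ∈ K, ‖(∑' q, ft τ x q) - Mxy x (x + τ)‖ ≤ Cf * U ^ (-(1 / 1000) : ℝ) := by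
    intro x hx
    obtain ⟨h1, h2, h3, h4⟩ := hKx x hx
    have h5 := hfs U x (x + τ) hU h1 (by linarith) h3 (by linarith) (by
      rw [add_sub_cancel_left]
      exact hgood)
    rw [add_sub_cancel_left] at h5
    exact h5
  have hFSm := fs_meas τ hKm hK1 hK2
  -- integrability
  have i0 : Integrable (fun x => Ω x * (Z4 x * (Z2 x - Fd (x + τ)))) :=
    cont_int hΩc hΩ1 hKc hK (hZ4c.continuousOn.mul (hZ2c.continuousOn.sub hFdc))
  have i1 : Integrable (fun x => Ω x * (Z4 x * FdBig Y (x + τ))) :=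
    cont_int hΩc hΩ1 hKc hK (hZ4c.continuousOn.mul hFBc)
  have hOmc : ∀ q : Q, ContinuousOn (fun x => (Om (hgt q.1) (x + τ) : ℂ)) K := fun q =>
    hshift (fun x => (Om (hgt q.1) x : ℂ))
      (Complex.continuous_ofReal.comp_continuousOn (om_cont (one_le_hgt q.1)))
  have i2 : ∀ q : Q, Integrable (fun x => Ω x * (Om (hgt q.1) (x + τ) : ℂ) * Z4 x * ex x q.1) := by
    intro q
    have h1 := cont_int hΩc hΩ1 hKc hK (g := fun x => (Om (hgt q.1) (x + τ) : ℂ) * (Z4 x * ex x q.1))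
      ((hOmc q).mul (hZ4c.mul (Cont_ex_continuous q.1)).continuousOn)
    refine h1.congr (Filter.Eventually.of_forall fun x => ?_)
    simp only
    ring
  have hMMc : ∀ q : Q, ContinuousOn (fun x => MM x q.1.1 q.1.2) K := fun q =>
    (mm_cont q.1.1 q.1.2 q.2).mono fun x hx => hK0 x hx
  have i3 : ∀ q : Q, Integrable (fun x => Ω x * (Om (hgt q.1) (x + τ) : ℂ) * MM x q.1.1 q.1.2) := by
    intro q
    have h1 := cont_int hΩc hΩ1 hKc hK (g := fun x => (Om (hgt q.1) (x + τ) : ℂ) * MM x q.1.1 q.1.2)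
      ((hOmc q).mul (hMMc q))
    refine h1.congr (Filter.Eventually.of_forall fun x => ?_)
    simp only
    ring
  have i4 := bdd_int hΩc hΩ1 hKm hKv hK
    (hFSm.sub (hMc.aestronglyMeasurable hKm)) (M := Cf * U ^ (-(1 / 1000) : ℝ)) hFS
  have i5 : Integrable (fun x => Ω x * Mxy x (x + τ)) := cont_int hΩc hΩ1 hKc hK hMc
  have i6 : Integrable (fun x => Ω x * ∑' q, ft τ x q) := by
    refine (i4.1.add i5).congr (Filter.Eventually.of_forall fun x => ?_)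
    simp only [Pi.add_apply, Pi.sub_apply]
    ring
  have i7 : Integrable (fun x => ∑ q ∈ s, cq τ q *
      (Ω x * (Om (hgt q.1) (x + τ) : ℂ) * MM x q.1.1 q.1.2)) :=
    integrable_finsetSum _ fun q _ => (i3 q).const_mul _
  have i8 : Integrable (fun x => Ω x * MTail Y x τ) := by
    refine (i6.sub i7).congr (Filter.Eventually.of_forall fun x => ?_)
    simp only [Pi.sub_apply]
    by_cases hx : Ω x = 0
    · simp [hx]
    · have hxK := hK x hx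
      rw [mtail_eq hs x τ (hK1 x hxK) (hK2 x hxK), mul_sub, Finset.mul_sum]
      congr 1
      refine Finset.sum_congr rfl fun q _ => ?_
      rw [ft_eq]
      ring
  have i9 : Integrable (fun x => ∑ q ∈ s, cq τ q *
      (Ω x * (Om (hgt q.1) (x + τ) : ℂ) * Z4 x * ex x q.1 -
        Ω x * (Om (hgt q.1) (x + τ) : ℂ) * MM x q.1.1 q.1.2)) :=
    integrable_finsetSum _ fun q _ => ((i2 q).sub (i3 q)).const_mul _
  -- the identity
  have key : ∀ x, Ω x * (((‖riemannZeta (1 / 2 + x * I)‖ ^ 4 *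
        ‖riemannZeta (1 / 2 + ((x + τ : ℝ) : ℂ) * I)‖ ^ 2 : ℝ) : ℂ) - Mxy x (x + τ)) =
      Ω x * (Z4 x * (Z2 x - Fd (x + τ))) + Ω x * (Z4 x * FdBig Y (x + τ)) +
      (∑ q ∈ s, cq τ q * (Ω x * (Om (hgt q.1) (x + τ) : ℂ) * Z4 x * ex x q.1 -
        Ω x * (Om (hgt q.1) (x + τ) : ℂ) * MM x q.1.1 q.1.2)) - Ω x * MTail Y x τ +
      Ω x * ((∑' q, ft τ x q) - Mxy x (x + τ)) := by
    intro x
    by_cases hx : Ω x = 0
    · simp [hx]
    have hxK := hK x hx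
    rw [mtail_eq hs x τ (hK1 x hxK) (hK2 x hxK)]
    have e1 : ∑ q ∈ s, cq τ q * (Ω x * (Om (hgt q.1) (x + τ) : ℂ) * Z4 x * ex x q.1 -
        Ω x * (Om (hgt q.1) (x + τ) : ℂ) * MM x q.1.1 q.1.2) =
        Ω x * Z4 x * FdSmall Y (x + τ) - Ω x * ∑ q ∈ s, ft τ x q := by
      rw [fdSmall_eq hs, Finset.mul_sum, Finset.mul_sum, ← Finset.sum_sub_distrib]
      refine Finset.sum_congr rfl fun q _ => ?_
      rw [ft_eq]
      ring
    rw [e1, Fd_split Y (x + τ) (hK2 x hxK)]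
    simp only [hZ4, hZ2]
    push_cast
    ring
  have hint : ∫ x, Ω x * (((‖riemannZeta (1 / 2 + x * I)‖ ^ 4 *
        ‖riemannZeta (1 / 2 + ((x + τ : ℝ) : ℂ) * I)‖ ^ 2 : ℝ) : ℂ) - Mxy x (x + τ)) =
      (∫ x, Ω x * (Z4 x * (Z2 x - Fd (x + τ)))) + (∫ x, Ω x * (Z4 x * FdBig Y (x + τ))) +
      (∫ x, ∑ q ∈ s, cq τ q * (Ω x * (Om (hgt q.1) (x + τ) : ℂ) * Z4 x * ex x q.1 -
        Ω x * (Om (hgt q.1) (x + τ) : ℂ) * MM x q.1.1 q.1.2)) - (∫ x, Ω x * MTail Y x τ) +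
      ∫ x, Ω x * ((∑' q, ft τ x q) - Mxy x (x + τ)) := int5 i0 i1 i9 i8 i4.1 key
  -- the bounds
  have b0 : ‖∫ x, Ω x * (Z4 x * (Z2 x - Fd (x + τ)))‖ ≤ Ca * Cz * U ^ (1 - 1 / 1000 : ℝ) := by
    rw [← setIntegral_eq_integral_of_forall_compl_eq_zero (s := Set.Icc U (8 * U))]
    swap
    · intro x hx
      have : Ω x = 0 := by
        by_contra h0
        exact hx (hK x h0).1
      rw [this, zero_mul]
    have h1 : ∀ x ∈ Set.Icc U (8 * U), ‖Ω x * (Z4 x * (Z2 x - Fd (x + τ)))‖ ≤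
        Ca * U ^ (-(1 / 2) + 1 / 8 : ℝ) * ‖riemannZeta (1 / 2 + x * I)‖ ^ 4 := by
      intro x _
      have hp : 0 ≤ Ca * U ^ (-(1 / 2) + 1 / 8 : ℝ) * ‖riemannZeta (1 / 2 + x * I)‖ ^ 4 := by positivity
      by_cases hx : Ω x = 0
      · rw [hx, zero_mul, norm_zero]
        exact hp
      obtain ⟨_, _, h3, _⟩ := hKx x (hK x hx)
      have h4 := hafe (x + τ) (hU.trans h3)
      have h5 : (x + τ) ^ (-(1 / 2) + 1 / 8 : ℝ) ≤ U ^ (-(1 / 2) + 1 / 8 : ℝ) :=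
        Real.rpow_le_rpow_of_nonpos hU0 h3 (by norm_num)
      have h6 : ‖Z2 x - Fd (x + τ)‖ ≤ Ca * U ^ (-(1 / 2) + 1 / 8 : ℝ) :=
        h4.trans (mul_le_mul_of_nonneg_left h5 hCa.le)
      have h7 : ‖Z4 x‖ = ‖riemannZeta (1 / 2 + x * I)‖ ^ 4 := by
        rw [hZ4]
        simp only
        rw [Complex.norm_real, Real.norm_of_nonneg (by positivity)]
      rw [norm_mul, norm_mul, h7]
      have h8 := hΩ1 x
      have h9 : ‖riemannZeta (1 / 2 + x * I)‖ ^ 4 * ‖Z2 x - Fd (x + τ)‖ ≤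
          ‖riemannZeta (1 / 2 + x * I)‖ ^ 4 * (Ca * U ^ (-(1 / 2) + 1 / 8 : ℝ)) :=
        mul_le_mul_of_nonneg_left h6 (by positivity)
      calc ‖Ω x‖ * (‖riemannZeta (1 / 2 + x * I)‖ ^ 4 * ‖Z2 x - Fd (x + τ)‖)
          ≤ 1 * (‖riemannZeta (1 / 2 + x * I)‖ ^ 4 * ‖Z2 x - Fd (x + τ)‖) :=
            mul_le_mul_of_nonneg_right h8 (by positivity)
        _ ≤ Ca * U ^ (-(1 / 2) + 1 / 8 : ℝ) * ‖riemannZeta (1 / 2 + x * I)‖ ^ 4 := by linarith
    have hgc : Continuous fun x : ℝ => Ca * U ^ (-(1 / 2) + 1 / 8 : ℝ) *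
        ‖riemannZeta (1 / 2 + x * I)‖ ^ 4 := continuous_const.mul ((zeta_half_cont.norm).pow 4)
    have h2 := norm_integral_le_of_norm_le (μ := volume.restrict (Set.Icc U (8 * U)))
      (hgc.continuousOn.integrableOn_compact isCompact_Icc)
      ((ae_restrict_iff' measurableSet_Icc).2 (Filter.Eventually.of_forall h1))
    refine h2.trans ?_
    rw [integral_const_mul, integral_Icc_eq_integral_Ioc,
      ← intervalIntegral.integral_of_le (by linarith)]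
    have h3 := hzf U hU
    calc Ca * U ^ (-(1 / 2) + 1 / 8 : ℝ) * ∫ x in U..(8 * U), ‖riemannZeta (1 / 2 + x * I)‖ ^ 4
        ≤ Ca * U ^ (-(1 / 2) + 1 / 8 : ℝ) * (Cz * U ^ (1 + 1 / 8 : ℝ)) :=
          mul_le_mul_of_nonneg_left h3 (by positivity)
      _ = Ca * Cz * (U ^ (-(1 / 2) + 1 / 8 : ℝ) * U ^ (1 + 1 / 8 : ℝ)) := by ring
      _ = Ca * Cz * U ^ ((-(1 / 2) + 1 / 8) + (1 + 1 / 8) : ℝ) := by rw [← Real.rpow_add hU0]
      _ ≤ Ca * Cz * U ^ (1 - 1 / 1000 : ℝ) := by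
          refine mul_le_mul_of_nonneg_left (Real.rpow_le_rpow_of_exponent_le hU (by norm_num)) (by positivity)
  have b2 : ‖∫ x, ∑ q ∈ s, cq τ q * (Ω x * (Om (hgt q.1) (x + τ) : ℂ) * Z4 x * ex x q.1 -
        Ω x * (Om (hgt q.1) (x + τ) : ℂ) * MM x q.1.1 q.1.2)‖ ≤ Ct * U ^ (1 - 1 / 1000 : ℝ) := by
    have i9' : ∀ q ∈ s, Integrable (fun x => cq τ q * (Ω x * (Om (hgt q.1) (x + τ) : ℂ) * Z4 x * ex x q.1 -
        Ω x * (Om (hgt q.1) (x + τ) : ℂ) * MM x q.1.1 q.1.2)) :=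
      fun q _ => ((i2 q).sub (i3 q)).const_mul _
    rw [integral_finsetSum s i9']
    have h1 : ∀ q ∈ s, ‖∫ x, cq τ q * (Ω x * (Om (hgt q.1) (x + τ) : ℂ) * Z4 x * ex x q.1 -
        Ω x * (Om (hgt q.1) (x + τ) : ℂ) * MM x q.1.1 q.1.2)‖ ≤ Ct * U ^ (1 - 1 / 30 : ℝ) := by
      intro q hq
      obtain ⟨ha, hb⟩ := small_aux q ((hs q).1 hq)
      have h2 := htw U Δ τ Ω q.1.1 q.1.2 hU hΔ1 hΔ2 hAdm q.2 ha hb (by
        intro x hx
        obtain ⟨_, _, h3, h4⟩ := hKx x (hK x hx)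
        exact ⟨by linarith, by linarith⟩)
      rw [integral_const_mul, integral_sub (i2 q) (i3 q), norm_mul]
      calc _ ≤ 1 * (Ct * U ^ (1 - 1 / 30 : ℝ)) :=
            mul_le_mul (norm_cq_le τ q) h2 (norm_nonneg _) zero_le_one
        _ = _ := one_mul _
    refine (norm_sum_le_of_le s h1).trans ?_
    rw [Finset.sum_const, nsmul_eq_mul]
    have h3 : Y ^ 2 = U ^ (2 / 1000 : ℝ) := by
      rw [hY, ← Real.rpow_natCast, ← Real.rpow_mul hU0.le]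
      norm_num
    calc (s.card : ℝ) * (Ct * U ^ (1 - 1 / 30 : ℝ)) ≤ Y ^ 2 * (Ct * U ^ (1 - 1 / 30 : ℝ)) :=
          mul_le_mul_of_nonneg_right hcard (by positivity)
      _ = Ct * (U ^ (2 / 1000 : ℝ) * U ^ (1 - 1 / 30 : ℝ)) := by rw [h3]; ring
      _ = Ct * U ^ (2 / 1000 + (1 - 1 / 30) : ℝ) := by rw [← Real.rpow_add hU0]
      _ ≤ Ct * U ^ (1 - 1 / 1000 : ℝ) :=
          mul_le_mul_of_nonneg_left (Real.rpow_le_rpow_of_exponent_le hU (by norm_num)) hCt.le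
  have b4 : ‖∫ x, Ω x * ((∑' q, ft τ x q) - Mxy x (x + τ))‖ ≤ 7 * Cf * U ^ (1 - 1 / 1000 : ℝ) := by
    refine i4.2.trans ?_
    calc Cf * U ^ (-(1 / 1000) : ℝ) * volume.real K ≤ Cf * U ^ (-(1 / 1000) : ℝ) * (7 * U) :=
          mul_le_mul_of_nonneg_left hKr (by positivity)
      _ = 7 * Cf * (U ^ (-(1 / 1000) : ℝ) * U ^ (1:ℝ)) := by rw [Real.rpow_one]; ring
      _ = 7 * Cf * U ^ (1 - 1 / 1000 : ℝ) := by
          rw [← Real.rpow_add hU0]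
          norm_num
  rw [hint]
  have t1 := norm_add_le ((∫ x, Ω x * (Z4 x * (Z2 x - Fd (x + τ)))) + (∫ x, Ω x * (Z4 x * FdBig Y (x + τ))) +
      (∫ x, ∑ q ∈ s, cq τ q * (Ω x * (Om (hgt q.1) (x + τ) : ℂ) * Z4 x * ex x q.1 -
        Ω x * (Om (hgt q.1) (x + τ) : ℂ) * MM x q.1.1 q.1.2)) - (∫ x, Ω x * MTail Y x τ))
      (∫ x, Ω x * ((∑' q, ft τ x q) - Mxy x (x + τ)))
  have t2 := norm_sub_le ((∫ x, Ω x * (Z4 x * (Z2 x - Fd (x + τ)))) + (∫ x, Ω x * (Z4 x * FdBig Y (x + τ))) +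
      (∫ x, ∑ q ∈ s, cq τ q * (Ω x * (Om (hgt q.1) (x + τ) : ℂ) * Z4 x * ex x q.1 -
        Ω x * (Om (hgt q.1) (x + τ) : ℂ) * MM x q.1.1 q.1.2))) (∫ x, Ω x * MTail Y x τ)
  have t3 := norm_add₃_le (a := ∫ x, Ω x * (Z4 x * (Z2 x - Fd (x + τ))))
    (b := ∫ x, Ω x * (Z4 x * FdBig Y (x + τ)))
    (c := ∫ x, ∑ q ∈ s, cq τ q * (Ω x * (Om (hgt q.1) (x + τ) : ℂ) * Z4 x * ex x q.1 -
        Ω x * (Om (hgt q.1) (x + τ) : ℂ) * MM x q.1.1 q.1.2))
  have t4 : (Ca * Cz + Ct + 7 * Cf) * U ^ (1 - 1 / 1000 : ℝ) = Ca * Cz * U ^ (1 - 1 / 1000 : ℝ) +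
      Ct * U ^ (1 - 1 / 1000 : ℝ) + 7 * Cf * U ^ (1 - 1 / 1000 : ℝ) := by ring
  rw [t4]
  linarith

theorem fb_meas (Y : ℝ) : ∃ F : ℝ → ℂ, Measurable F ∧ ∀ y, 0 < y → F y = FdBig Y y := by
  classical
  refine ⟨(Set.Ioi (0:ℝ)).piecewise (FdBig Y) (fun _ => 0), ?_, ?_⟩
  · exact (FdBig_continuousOn Y).measurable_piecewise continuousOn_const measurableSet_Ioi
  · intro y hy
    exact Set.piecewise_eq_of_mem _ _ _ hy

theorem enorm_sq_le {z : ℂ} {a b : ℂ} {c : ℝ} (hc : 0 ≤ c) (h : ‖z‖ ≤ ‖a‖ + ‖b‖ + c) :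
    ‖z‖ₑ ^ 2 ≤ 3 * ‖a‖ₑ ^ 2 + (3 * ‖b‖ₑ ^ 2 + ENNReal.ofReal (3 * c ^ 2)) := by
  have e : ∀ w : ℂ, ‖w‖ₑ ^ 2 = ENNReal.ofReal (‖w‖ ^ 2) := by
    intro w
    rw [← ofReal_norm, ENNReal.ofReal_pow (norm_nonneg _)]
  have e3 : (3 : ENNReal) = ENNReal.ofReal 3 := by
    rw [ENNReal.ofReal_ofNat]
  rw [e, e, e, e3, ← ENNReal.ofReal_mul (by norm_num), ← ENNReal.ofReal_mul (by norm_num),
    ← ENNReal.ofReal_add (by positivity) (by positivity), ← ENNReal.ofReal_add (by positivity) (by positivity)]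
  apply ENNReal.ofReal_le_ofReal
  have h0 := norm_nonneg z
  have ha := norm_nonneg a
  have hb := norm_nonneg b
  nlinarith [sq_nonneg (‖a‖ - ‖b‖), sq_nonneg (‖a‖ - c), sq_nonneg (‖b‖ - c),
    mul_self_le_mul_self h0 h]

end SmoothMainAux

open SmoothMainAux in
theorem smooth_main (B : ℝ) : ∃ c C : ℝ, 0 < c ∧ 0 < C ∧ ∀ (U Δ α β : ℝ) (Ω : ℝ → ℂ), 1 ≤ U →
    U ^ (1 - 1 / 1000 : ℝ) ≤ Δ → Δ ≤ U → 2 * U ≤ α → α ≤ 6 * U → 2 * U ≤ β → β ≤ 6 * U → Adm U Δ Ω →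
    (∀ x, Ω x ≠ 0 → U ≤ x ∧ α - U ≤ x ∧ x ≤ α + 4 * U) →
    ∫⁻ h in {h ∈ Set.Icc β (β + U) | Good (1 / 10000) (U ^ (1 / 10000 : ℝ)) (B * U ^ (1 / 10000 : ℝ)) (h - α)},
      ‖∫ x, Ω x * (((‖riemannZeta (1 / 2 + x * I)‖ ^ 4 *
        ‖riemannZeta (1 / 2 + ((x + (h - α) : ℝ) : ℂ) * I)‖ ^ 2 : ℝ) : ℂ) - Mxy x (x + (h - α)))‖ₑ ^ 2 ≤
      ENNReal.ofReal (C * U ^ (3 - c)) := by
  obtain ⟨c1, C1, hc1, hC1, hlong⟩ := long_part (1 / 1000) (by norm_num) (by norm_num)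
  obtain ⟨C2, hC2, htail⟩ := tail_mm
  obtain ⟨C3, hC3, hfix⟩ := fixed_h B
  refine ⟨min c1 (1 / 4000), 3 * C1 + 3 * C2 + 3 * C3 ^ 2, lt_min hc1 (by norm_num), by positivity, ?_⟩
  intro U Δ α β Ω hU hΔ1 hΔ2 hα1 hα2 hβ1 hβ2 hAdm hsupp
  have hU0 : 0 < U := by linarith
  have hΩc : Continuous Ω := hAdm.1.continuous
  have hΩ1 : ∀ x, ‖Ω x‖ ≤ 1 := fun x => by simpa using hAdm.2.2.2 0 (by norm_num) x
  set Y : ℝ := U ^ (1 / 1000 : ℝ) with hY
  have hYU : Y ≤ U := by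
    calc Y ≤ U ^ (1:ℝ) := Real.rpow_le_rpow_of_exponent_le hU (by norm_num)
      _ = U := Real.rpow_one U
  set P : Set ℝ := {h ∈ Set.Icc β (β + U) | Good (1 / 10000) (U ^ (1 / 10000 : ℝ))
    (B * U ^ (1 / 10000 : ℝ)) (h - α)} with hP
  have hPm : MeasurableSet P := by
    have h1 : MeasurableSet ((fun h : ℝ => h - α) ⁻¹' ({δ : ℝ | ¬ Good (1 / 10000) (U ^ (1 / 10000 : ℝ))
        (B * U ^ (1 / 10000 : ℝ)) δ}ᶜ)) :=
      (measurable_id.sub_const α) (measurableSet_bad _ _ _).compl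
    have h2 : P = Set.Icc β (β + U) ∩ ((fun h : ℝ => h - α) ⁻¹' ({δ : ℝ | ¬ Good (1 / 10000)
        (U ^ (1 / 10000 : ℝ)) (B * U ^ (1 / 10000 : ℝ)) δ}ᶜ)) := by
      ext h
      simp [hP]
    rw [h2]
    exact measurableSet_Icc.inter h1
  set G : ℝ → ℂ := fun t => Ω (t + α) * ((‖riemannZeta (1 / 2 + ((t + α : ℝ) : ℂ) * I)‖ ^ 4 : ℝ) : ℂ) with hG
  have hGc : Continuous G := (hΩc.comp (continuous_id.add continuous_const)).mul
    (Complex.continuous_ofReal.comp (((zeta_half_cont.comp (continuous_id.add continuous_const)).norm).pow 4))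
  have hG1 : ∀ t, t < -U → G t = 0 := by
    intro t ht
    have : Ω (t + α) = 0 := by
      by_contra h0
      have := (hsupp _ h0).2.1
      linarith
    simp [hG, this]
  have hG2 : ∀ t, 4 * U < t → G t = 0 := by
    intro t ht
    have : Ω (t + α) = 0 := by
      by_contra h0
      have := (hsupp _ h0).2.2
      linarith
    simp [hG, this]
  have hG3 : ∀ t, ‖G t‖ ≤ ‖riemannZeta (1 / 2 + ((t + α : ℝ) : ℂ) * I)‖ ^ 4 := by
    intro t
    simp only [hG]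
    rw [norm_mul, Complex.norm_real, Real.norm_of_nonneg (by positivity)]
    exact mul_le_of_le_one_left (by positivity) (hΩ1 _)
  have hA : ∀ h : ℝ, ∫ x, Ω x * (((‖riemannZeta (1 / 2 + x * I)‖ ^ 4 : ℝ) : ℂ) *
      FdBig Y (x + (h - α))) = ∫ t, G t * FdBig Y (t + h) := by
    intro h
    rw [← integral_add_right_eq_self (μ := volume) (fun x : ℝ => Ω x *
      (((‖riemannZeta (1 / 2 + x * I)‖ ^ 4 : ℝ) : ℂ) * FdBig Y (x + (h - α)))) α]
    refine integral_congr_ae (Filter.Eventually.of_forall fun t => ?_)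
    simp only [hG]
    rw [show t + α + (h - α) = t + h by ring]
    ring
  have hL := hlong U Y α β hU (le_of_eq hY.symm) hYU hα1 hα2 hβ1 hβ2 G hGc.measurable hG1 hG2 hG3
  have hT := htail U Y α β Ω hU (le_of_eq hY.symm) hα1 hα2 hβ1 hβ2 hΩc hΩ1 (by
    intro x hx
    obtain ⟨h1, h2, h3⟩ := hsupp x hx
    refine ⟨h1, ?_, h2, h3⟩
    by_contra hcon
    push Not at hcon
    exact hx (hAdm.2.2.1 x hcon.le))
  obtain ⟨FB, hFBm, hFB⟩ := fb_meas Y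
  have hmeas : AEMeasurable (fun h : ℝ => 3 * ‖∫ t, G t * FdBig Y (t + h)‖ₑ ^ 2)
      (volume.restrict (Set.Icc β (β + U))) := by
    have h1 : StronglyMeasurable (fun h : ℝ => ∫ t, G t * FB (t + h)) := by
      refine StronglyMeasurable.integral_prod_right (f := fun h t : ℝ => G t * FB (t + h)) ?_
      refine Measurable.stronglyMeasurable ?_
      exact (hGc.measurable.comp measurable_snd).mul (hFBm.comp (measurable_snd.add measurable_fst))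
    have h2 : Measurable (fun h : ℝ => 3 * ‖∫ t, G t * FB (t + h)‖ₑ ^ 2) :=
      (h1.measurable.enorm.pow_const 2).const_mul _
    refine h2.aemeasurable.congr ((ae_restrict_iff' measurableSet_Icc).2
      (Filter.Eventually.of_forall fun h hh => ?_))
    have h3 : ∫ t, G t * FB (t + h) = ∫ t, G t * FdBig Y (t + h) := by
      refine integral_congr_ae (Filter.Eventually.of_forall fun t => ?_)
      simp only
      by_cases ht : t < -U
      · rw [hG1 t ht, zero_mul, zero_mul]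
      · push Not at ht
        rw [hFB (t + h) (by linarith [hh.1])]
    simp only
    rw [h3]
  have hpt : ∀ h ∈ P, ‖∫ x, Ω x * (((‖riemannZeta (1 / 2 + x * I)‖ ^ 4 *
        ‖riemannZeta (1 / 2 + ((x + (h - α) : ℝ) : ℂ) * I)‖ ^ 2 : ℝ) : ℂ) - Mxy x (x + (h - α)))‖ₑ ^ 2 ≤
      3 * ‖∫ t, G t * FdBig Y (t + h)‖ₑ ^ 2 + (3 * ‖∫ x, Ω x * MTail Y x (h - α)‖ₑ ^ 2 +
        ENNReal.ofReal (3 * (C3 * U ^ (1 - 1 / 1000 : ℝ)) ^ 2)) := by
    intro h hh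
    refine enorm_sq_le (by positivity) ?_
    rw [← hA]
    exact hfix U Δ α β h Ω hU hΔ1 hΔ2 hα1 hα2 hβ1 hβ2 hAdm hsupp hh.1 hh.2
  refine (setLIntegral_mono' hPm hpt).trans ?_
  refine (lintegral_mono_set (Set.sep_subset _ _)).trans ?_
  rw [lintegral_add_left' hmeas, lintegral_add_right _ measurable_const,
    lintegral_const_mul' _ _ (by norm_num), lintegral_const_mul' _ _ (by norm_num), setLIntegral_const,
    Real.volume_Icc]
  set c : ℝ := min c1 (1 / 4000) with hc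
  have hcc1 : c ≤ c1 := min_le_left _ _
  have hcc2 : c ≤ 1 / 4000 := min_le_right _ _
  have r1 : C1 * U ^ (3 - c1) ≤ C1 * U ^ (3 - c) :=
    mul_le_mul_of_nonneg_left (Real.rpow_le_rpow_of_exponent_le hU (by linarith)) hC1.le
  have r2 : C2 * U ^ (3 - 1 / 4000 : ℝ) ≤ C2 * U ^ (3 - c) :=
    mul_le_mul_of_nonneg_left (Real.rpow_le_rpow_of_exponent_le hU (by linarith)) hC2.le
  have r3 : 3 * (C3 * U ^ (1 - 1 / 1000 : ℝ)) ^ 2 * (β + U - β) ≤ 3 * C3 ^ 2 * U ^ (3 - c) := by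
    have e1 : (U ^ (1 - 1 / 1000 : ℝ)) ^ 2 * U = U ^ (3 - 1 / 500 : ℝ) := by
      rw [← Real.rpow_natCast, ← Real.rpow_mul hU0.le, ← Real.rpow_add_one hU0.ne']
      congr 1
      norm_num
    have e2 : U ^ (3 - 1 / 500 : ℝ) ≤ U ^ (3 - c) := Real.rpow_le_rpow_of_exponent_le hU (by linarith)
    calc 3 * (C3 * U ^ (1 - 1 / 1000 : ℝ)) ^ 2 * (β + U - β)
        = 3 * C3 ^ 2 * ((U ^ (1 - 1 / 1000 : ℝ)) ^ 2 * U) := by ring
      _ = 3 * C3 ^ 2 * U ^ (3 - 1 / 500 : ℝ) := by rw [e1]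
      _ ≤ 3 * C3 ^ 2 * U ^ (3 - c) := mul_le_mul_of_nonneg_left e2 (by positivity)
  have e3 : (3 : ENNReal) = ENNReal.ofReal 3 := by
    rw [ENNReal.ofReal_ofNat]
  calc 3 * (∫⁻ h in Set.Icc β (β + U), ‖∫ t, G t * FdBig Y (t + h)‖ₑ ^ 2) +
        (3 * (∫⁻ h in Set.Icc β (β + U), ‖∫ x, Ω x * MTail Y x (h - α)‖ₑ ^ 2) +
          ENNReal.ofReal (3 * (C3 * U ^ (1 - 1 / 1000 : ℝ)) ^ 2) * ENNReal.ofReal (β + U - β))
      ≤ 3 * ENNReal.ofReal (C1 * U ^ (3 - c1)) + (3 * ENNReal.ofReal (C2 * U ^ (3 - 1 / 4000 : ℝ)) +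
          ENNReal.ofReal (3 * (C3 * U ^ (1 - 1 / 1000 : ℝ)) ^ 2) * ENNReal.ofReal (β + U - β)) := by
        gcongr
    _ = ENNReal.ofReal (3 * (C1 * U ^ (3 - c1)) + (3 * (C2 * U ^ (3 - 1 / 4000 : ℝ)) +
          3 * (C3 * U ^ (1 - 1 / 1000 : ℝ)) ^ 2 * (β + U - β))) := by
        have hbu : 0 ≤ β + U - β := by linarith
        rw [e3, ← ENNReal.ofReal_mul (by norm_num), ← ENNReal.ofReal_mul (by norm_num),
          ← ENNReal.ofReal_mul (by positivity), ← ENNReal.ofReal_add (by positivity) (by positivity),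
          ← ENNReal.ofReal_add (by positivity) (by positivity)]
    _ ≤ ENNReal.ofReal ((3 * C1 + 3 * C2 + 3 * C3 ^ 2) * U ^ (3 - c)) := by
        apply ENNReal.ofReal_le_ofReal
        nlinarith

end Pool.Agent.P07318f
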