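import Pool.Agent.Lib.P07318f.MIb
import Pool.Agent.Lib.P07318f.DirZ
import Pool.Agent.Lib.P07318f.OmMel

/-!
# The sum of the main terms over all reduced fractions

Fubini for the sum over the fractions and the integrals in `MI s x q` (`mi_int_d`, `mi_int_z`): the weights
`(hgt q)^(-1/2) Om (hgt q) y` are summable and all other factors are bounded. For the diagonal part:
`DD a b u = ζ(1+u₁+u₃) EE a b u` for `u = uD s w` (`dd_summable`), for the other part `1 + u₁ + u₃ = 1-α-β-2w`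
for `u = uZ ..`. So the sums are `TT x y (uD ..)`, `TT x y (uZ ..)`.
-/

set_option autoImplicit false

namespace Pool.Agent.P07318f

open MeasureTheory Complex Pool.Agent.P07318s

/-- the diagonal part of the sum -/
noncomputable def DF (s : ℂ) (x y : ℝ) : ℂ :=
  (2 * Real.pi : ℂ)⁻¹ * ∫ v : ℝ, Gw s (cz + v * I) / (cz + v * I) * X2 x (2 * (cz + v * I)) *
    TT x y (uD s (cz + v * I))

/-- the zero frequency part of the sum -/
noncomputable def ZG (s α β : ℂ) (x y : ℝ) : ℂ :=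
  ((2 * Real.pi : ℂ) ^ 3)⁻¹ * ∫ v : ℝ × ℝ × ℝ, Zker s α β x (cw + v.1 * I) (cz + v.2.1 * I) (cz + v.2.2 * I) *
    TT x y (uZ s α β (cw + v.1 * I) (cz + v.2.1 * I) (cz + v.2.2 * I))

namespace SumMIAux

open Regroup

/-- the weight of a fraction -/
noncomputable def cq (y : ℝ) (q : Q) : ℝ := (hgt q.1) ^ (-(1 / 2) : ℝ) * Om (hgt q.1) y

theorem cq_nonneg (y : ℝ) (q : Q) : 0 ≤ cq y q :=
  mul_nonneg (Real.rpow_nonneg (hgt_pos _).le _) (Om_nonneg _ _)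

theorem cq_summable {y : ℝ} (hy : 0 < y) : Summable (cq y) := cfQ_summable hy

theorem cf_le {C : ℝ} (hW : ∀ y : ℝ, 0 < y → W y ≤ C * y ^ (-1 : ℝ)) {x : ℝ} (hx : 0 < x)
    (p : ℕ+ × ℕ+) : cf x p ≤ C * x / (2 * Real.pi) *
      ((((p.1 : ℕ) : ℝ) ^ (-(3 / 2) : ℝ)) * (((p.2 : ℕ) : ℝ) ^ (-(3 / 2) : ℝ))) := by
  have hp := hgt_pos p
  have hpi := Real.pi_pos
  have hy : 0 < 2 * Real.pi * hgt p / x := by positivity
  calc cf x p = (hgt p) ^ (-(1 / 2) : ℝ) * W (2 * Real.pi * hgt p / x) := rfl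
    _ ≤ (hgt p) ^ (-(1 / 2) : ℝ) * (C * (2 * Real.pi * hgt p / x) ^ (-1 : ℝ)) := by
        have := hW _ hy
        exact mul_le_mul_of_nonneg_left this (Real.rpow_nonneg hp.le _)
    _ = C * x / (2 * Real.pi) * (hgt p) ^ (-(3 / 2) : ℝ) := by
        have e : (hgt p) ^ (-(3 / 2) : ℝ) = (hgt p) ^ (-(1 / 2) : ℝ) * (hgt p)⁻¹ := by
          rw [← Real.rpow_neg_one, ← Real.rpow_add hp]
          norm_num
        rw [e, Real.rpow_neg_one]
        field_simp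
    _ = _ := by
        unfold hgt
        rw [Real.mul_rpow (gpos _).le (gpos _).le]

theorem cq_sum : ∃ C : ℝ, 0 < C ∧ ∀ y : ℝ, 0 < y → ∑' q, cq y q ≤ C * y := by
  obtain ⟨C, hC, hW⟩ := W_le_rpow 1 one_pos
  have hs : Summable (fun p : ℕ+ × ℕ+ =>
      (((p.1 : ℕ) : ℝ) ^ (-(3 / 2) : ℝ)) * (((p.2 : ℕ) : ℝ) ^ (-(3 / 2) : ℝ))) :=
    Summable.mul_of_nonneg summable_three_halves summable_three_halves
      (fun g => Real.rpow_nonneg (gpos g).le _) (fun g => Real.rpow_nonneg (gpos g).le _)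
  set S : ℝ := ∑' p : ℕ+ × ℕ+,
      (((p.1 : ℕ) : ℝ) ^ (-(3 / 2) : ℝ)) * (((p.2 : ℕ) : ℝ) ^ (-(3 / 2) : ℝ)) with hS
  have hS0 : 0 ≤ S := tsum_nonneg fun p =>
    mul_nonneg (Real.rpow_nonneg (gpos _).le _) (Real.rpow_nonneg (gpos _).le _)
  have hpi := Real.pi_pos
  refine ⟨C / (2 * Real.pi) * S + 1, by positivity, fun y hy => ?_⟩
  have e1 : ∑' q, cq y q = ∑' p, cf y p := by
    rw [← ge.tsum_eq (fun p => cf y p)]
    have e : ∀ z, cf y (ge z) = cf y (gm z) := fun _ => rfl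
    simp_rw [e]
    rw [(summable_z hy).tsum_prod]
    exact tsum_congr fun q => (tsum_g q).symm
  rw [e1]
  have h1 : ∑' p, cf y p ≤ C * y / (2 * Real.pi) * S := by
    rw [hS, ← tsum_mul_left]
    exact (cf_summable hy).tsum_le_tsum (fun p => cf_le hW hy p) (hs.mul_left _)
  refine h1.trans ?_
  have : C * y / (2 * Real.pi) * S = C / (2 * Real.pi) * S * y := by ring
  rw [this]
  nlinarith

theorem norm_cq (x y : ℝ) (q : Q) : ‖((cq y q : ℝ) : ℂ) * ex (y - x) q.1‖ = cq y q := by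
  rw [norm_mul, norm_ex, mul_one, Complex.norm_real, Real.norm_of_nonneg (cq_nonneg y q)]

theorem exch {α : Type*} [MeasurableSpace α] {μ : Measure α} (x y : ℝ) (hy : 0 < y) (F : Q → α → ℂ)
    (B : ℝ) (hF : ∀ q, Integrable (F q) μ) (hB : ∀ q, ∫ v, ‖F q v‖ ∂μ ≤ B) :
    HasSum (fun q : Q => ((cq y q : ℝ) : ℂ) * ex (y - x) q.1 * ∫ v, F q v ∂μ)
      (∫ v, ∑' q : Q, ((cq y q : ℝ) : ℂ) * ex (y - x) q.1 * F q v ∂μ) := by
  have h1 : ∀ q : Q, Integrable (fun v => ((cq y q : ℝ) : ℂ) * ex (y - x) q.1 * F q v) μ :=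
    fun q => (hF q).const_mul _
  have h2 : Summable fun q : Q => ∫ v, ‖((cq y q : ℝ) : ℂ) * ex (y - x) q.1 * F q v‖ ∂μ := by
    refine Summable.of_nonneg_of_le (fun q => integral_nonneg fun v => norm_nonneg _) (fun q => ?_)
      ((cq_summable hy).mul_right B)
    have e : ∀ v, ‖((cq y q : ℝ) : ℂ) * ex (y - x) q.1 * F q v‖ = cq y q * ‖F q v‖ := fun v => by
      rw [norm_mul, norm_cq]
    simp_rw [e]
    rw [integral_const_mul]
    exact mul_le_mul_of_nonneg_left (hB q) (cq_nonneg y q)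
  have h3 := hasSum_integral_of_summable_integral_norm h1 h2
  simpa only [integral_const_mul] using h3

theorem re_rho {s : ℂ} (hs : ‖s‖ = rho) : -(1 / 10 ^ 7) ≤ s.re ∧ s.re ≤ 1 / 10 ^ 7 := by
  have h := Complex.abs_re_le_norm s
  rw [hs] at h
  unfold rho at h
  exact abs_le.1 h

theorem im_rho {s : ℂ} (hs : ‖s‖ = rho) : -(1 / 10 ^ 7) ≤ s.im ∧ s.im ≤ 1 / 10 ^ 7 := by
  have h := Complex.abs_im_le_norm s
  rw [hs] at h
  unfold rho at h
  exact abs_le.1 h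

theorem uD_re {s : ℂ} (hs : ‖s‖ = rho) (v : ℝ) (i : Fin 4) :
    1 / 10 ^ 6 ≤ (uD s (cz + v * I) i).re := by
  obtain ⟨h1, h2⟩ := re_rho hs
  fin_cases i
  · show 1 / 10 ^ 6 ≤ (s + (cz + v * I)).re
    simp [cz]
    norm_num at h1 h2 ⊢
    linarith
  · show 1 / 10 ^ 6 ≤ (2 * s + (cz + v * I)).re
    simp [cz]
    norm_num at h1 h2 ⊢
    linarith
  · show 1 / 10 ^ 6 ≤ (s + (cz + v * I)).re
    simp [cz]
    norm_num at h1 h2 ⊢
    linarith
  · show 1 / 10 ^ 6 ≤ (2 * s + (cz + v * I)).re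
    simp [cz]
    norm_num at h1 h2 ⊢
    linarith

theorem uD_mem {s : ℂ} (hs : ‖s‖ = rho) (v : ℝ) : uD s (cz + v * I) ∈ RegD := by
  have h0 := uD_re hs v 0
  have h1 := uD_re hs v 1
  have h2 := uD_re hs v 2
  have h3 := uD_re hs v 3
  norm_num at h0 h1 h2 h3
  refine ⟨?_, ?_, ?_, ?_⟩ <;> rw [add_re] <;> linarith

theorem tt_d {x y : ℝ} {s : ℂ} (hs : ‖s‖ = rho) (v : ℝ) :
    ∑' q : Q, ((cq y q : ℝ) : ℂ) * ex (y - x) q.1 *
      DD q.1.1 q.1.2 (uD s (cz + v * I) 0) (uD s (cz + v * I) 1) (uD s (cz + v * I) 2)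
        (uD s (cz + v * I) 3) = TT x y (uD s (cz + v * I)) := by
  unfold TT
  rw [← tsum_mul_left]
  refine tsum_congr fun q => ?_
  rw [(dd_summable q.1.1 q.1.2 (uD_mem hs v)).2]
  unfold cq
  ring

theorem sum_d {x y : ℝ} {s : ℂ} (hx : 1 ≤ x) (hy : 0 < y) (hs : ‖s‖ = rho) :
    HasSum (fun q : Q => ((cq y q : ℝ) : ℂ) * ex (y - x) q.1 * Dint s x q.1.1 q.1.2) (DF s x y) := by
  obtain ⟨C, hC, h⟩ := mi_int_d
  have hpos : 0 ≤ C * x ^ (1 / 10000 : ℝ) := by positivity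
  have key := exch x y hy (μ := volume) (fun (q : Q) (v : ℝ) =>
      Gw s (cz + v * I) / (cz + v * I) * X2 x (2 * (cz + v * I)) *
      DD q.1.1 q.1.2 (uD s (cz + v * I) 0) (uD s (cz + v * I) 1) (uD s (cz + v * I) 2)
        (uD s (cz + v * I) 3)) (C * x ^ (1 / 10000 : ℝ))
    (fun q => (h x s q.1.1 q.1.2 hx hs q.2).1) (fun q => by
      refine (h x s q.1.1 q.1.2 hx hs q.2).2.trans ?_
      refine mul_le_of_le_one_right hpos ?_
      exact Real.rpow_le_one_of_one_le_of_nonpos (one_le_hgt q.1) (by norm_num))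
  have k2 := key.mul_left ((2 * Real.pi : ℂ)⁻¹)
  have e : (2 * Real.pi : ℂ)⁻¹ * (∫ v : ℝ, ∑' q : Q, ((cq y q : ℝ) : ℂ) * ex (y - x) q.1 *
      (Gw s (cz + v * I) / (cz + v * I) * X2 x (2 * (cz + v * I)) *
      DD q.1.1 q.1.2 (uD s (cz + v * I) 0) (uD s (cz + v * I) 1) (uD s (cz + v * I) 2)
        (uD s (cz + v * I) 3))) = DF s x y := by
    unfold DF
    congr 1
    refine integral_congr_ae (Filter.Eventually.of_forall fun v => ?_)
    simp only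
    rw [← tt_d hs v, ← tsum_mul_left]
    exact tsum_congr fun q => by ring
  rw [e] at k2
  have e2 : ∀ q : Q, Dint s x q.1.1 q.1.2 = (2 * Real.pi : ℂ)⁻¹ * ∫ v : ℝ,
      Gw s (cz + v * I) / (cz + v * I) * X2 x (2 * (cz + v * I)) *
      DD q.1.1 q.1.2 (uD s (cz + v * I) 0) (uD s (cz + v * I) 1) (uD s (cz + v * I) 2)
        (uD s (cz + v * I) 3) := fun q => rfl
  refine k2.congr_fun fun q => ?_
  rw [e2]
  ring

theorem uZ_sum (s α β w z1 z2 : ℂ) : 1 + uZ s α β w z1 z2 1 + uZ s α β w z1 z2 3 = 1 - α - β - 2 * w := by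
  show 1 + (-β - w + (z2 - z1) / 2) + (-α - w + (z1 - z2) / 2) = _
  ring

theorem sum_z {x y : ℝ} {s α β : ℂ} (hx : 1 ≤ x) (hy : 0 < y) (hs : ‖s‖ = rho) (hα : α = s ∨ α = 2 * s)
    (hβ : β = s ∨ β = 2 * s) :
    HasSum (fun q : Q => ((cq y q : ℝ) : ℂ) * ex (y - x) q.1 * Zint s α β x q.1.1 q.1.2)
      (ZG s α β x y) := by
  obtain ⟨C, hC, h⟩ := mi_int_z
  have hpos : 0 ≤ C * x ^ (1 / 10000 : ℝ) := by positivity
  have key := exch x y hy (μ := volume) (fun (q : Q) (v : ℝ × ℝ × ℝ) =>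
      Zker s α β x (cw + v.1 * I) (cz + v.2.1 * I) (cz + v.2.2 * I) *
      (riemannZeta (1 - α - β - 2 * (cw + v.1 * I)) *
        EE q.1.1 q.1.2 (uZ s α β (cw + v.1 * I) (cz + v.2.1 * I) (cz + v.2.2 * I) 0)
          (uZ s α β (cw + v.1 * I) (cz + v.2.1 * I) (cz + v.2.2 * I) 1)
          (uZ s α β (cw + v.1 * I) (cz + v.2.1 * I) (cz + v.2.2 * I) 2)
          (uZ s α β (cw + v.1 * I) (cz + v.2.1 * I) (cz + v.2.2 * I) 3))) (C * x ^ (1 / 10000 : ℝ))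
    (fun q => (h x s α β q.1.1 q.1.2 hx hs hα hβ q.2).1) (fun q => by
      refine (h x s α β q.1.1 q.1.2 hx hs hα hβ q.2).2.trans ?_
      refine mul_le_of_le_one_right hpos ?_
      exact Real.rpow_le_one_of_one_le_of_nonpos (one_le_hgt q.1) (by norm_num))
  have k2 := key.mul_left (((2 * Real.pi : ℂ) ^ 3)⁻¹)
  have e : ((2 * Real.pi : ℂ) ^ 3)⁻¹ * (∫ v : ℝ × ℝ × ℝ, ∑' q : Q, ((cq y q : ℝ) : ℂ) * ex (y - x) q.1 *
      (Zker s α β x (cw + v.1 * I) (cz + v.2.1 * I) (cz + v.2.2 * I) *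
      (riemannZeta (1 - α - β - 2 * (cw + v.1 * I)) *
        EE q.1.1 q.1.2 (uZ s α β (cw + v.1 * I) (cz + v.2.1 * I) (cz + v.2.2 * I) 0)
          (uZ s α β (cw + v.1 * I) (cz + v.2.1 * I) (cz + v.2.2 * I) 1)
          (uZ s α β (cw + v.1 * I) (cz + v.2.1 * I) (cz + v.2.2 * I) 2)
          (uZ s α β (cw + v.1 * I) (cz + v.2.1 * I) (cz + v.2.2 * I) 3)))) = ZG s α β x y := by
    unfold ZG
    congr 1
    refine integral_congr_ae (Filter.Eventually.of_forall fun v => ?_)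
    simp only
    unfold TT
    rw [uZ_sum, ← tsum_mul_left, ← tsum_mul_left]
    refine tsum_congr fun q => ?_
    unfold cq
    ring
  rw [e] at k2
  have e2 : ∀ q : Q, Zint s α β x q.1.1 q.1.2 = ((2 * Real.pi : ℂ) ^ 3)⁻¹ * ∫ v : ℝ × ℝ × ℝ,
      Zker s α β x (cw + v.1 * I) (cz + v.2.1 * I) (cz + v.2.2 * I) *
      (riemannZeta (1 - α - β - 2 * (cw + v.1 * I)) *
        EE q.1.1 q.1.2 (uZ s α β (cw + v.1 * I) (cz + v.2.1 * I) (cz + v.2.2 * I) 0)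
          (uZ s α β (cw + v.1 * I) (cz + v.2.1 * I) (cz + v.2.2 * I) 1)
          (uZ s α β (cw + v.1 * I) (cz + v.2.1 * I) (cz + v.2.2 * I) 2)
          (uZ s α β (cw + v.1 * I) (cz + v.2.1 * I) (cz + v.2.2 * I) 3)) := fun q => rfl
  refine k2.congr_fun fun q => ?_
  rw [e2]
  ring

theorem zeta_b : ∃ C : ℝ, 0 < C ∧ ∀ s : ℂ, 1 / 2 ≤ s.re → s.re ≤ 4 →
    1 / 20 ≤ ‖s - 1‖ → ‖riemannZeta s‖ ≤ C * (1 + |s.im|) := by
  obtain ⟨C, hC, hb⟩ := zE_bound (1 / 2) (by norm_num)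
  refine ⟨525 * C, by positivity, fun s h1 h2 h3 => ?_⟩
  have hs1 : s ≠ 1 := by
    rintro rfl
    simp at h3
    norm_num at h3
  have hz := P4f18dfV.zE_of_ne hs1
  have hz' := congrArg norm hz
  rw [norm_mul] at hz'
  have h4 : |s.im| ≤ ‖s - 1‖ := by
    have := Complex.abs_im_le_norm (s - 1)
    simpa using this
  have h5 : 1 + |s.im| ≤ 21 * ‖s - 1‖ := by linarith
  have h6 : ‖s‖ ≤ 4 + |s.im| := by
    refine (Complex.norm_le_abs_re_add_abs_im s).trans ?_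
    rw [abs_of_pos (by linarith)]
    linarith
  have him : 0 ≤ |s.im| := abs_nonneg _
  have h7 : ‖s - 1‖ * ‖riemannZeta s‖ ≤ C * (25 * (1 + |s.im|) ^ 2) := by
    rw [← hz']
    refine (hb s h1).trans ?_
    refine mul_le_mul_of_nonneg_left ?_ hC.le
    have : (1 + ‖s‖) ^ 2 ≤ (5 + |s.im|) ^ 2 := by
      apply pow_le_pow_left₀ (by positivity)
      linarith
    nlinarith
  have h8 : (1 + |s.im|) * ‖riemannZeta s‖ ≤ (1 + |s.im|) * (525 * C * (1 + |s.im|)) := by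
    calc (1 + |s.im|) * ‖riemannZeta s‖ ≤ 21 * ‖s - 1‖ * ‖riemannZeta s‖ := by gcongr
      _ = 21 * (‖s - 1‖ * ‖riemannZeta s‖) := by ring
      _ ≤ 21 * (C * (25 * (1 + |s.im|) ^ 2)) := by gcongr
      _ = _ := by ring
  exact le_of_mul_le_mul_left h8 (by positivity)

/-- bound of a weighted sum -/
theorem wsum_le {x y B : ℝ} (hy : 0 < y) (_hB : 0 ≤ B) (E : Q → ℂ) (hE : ∀ q, ‖E q‖ ≤ B) :
    ‖∑' q : Q, ((cq y q : ℝ) : ℂ) * ex (y - x) q.1 * E q‖ ≤ B * ∑' q, cq y q := by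
  have h1 : ∀ q : Q, ‖((cq y q : ℝ) : ℂ) * ex (y - x) q.1 * E q‖ ≤ B * cq y q := fun q => by
    rw [norm_mul, norm_cq, mul_comm]
    exact mul_le_mul_of_nonneg_right (hE q) (cq_nonneg y q)
  have h2 : Summable fun q : Q => ‖((cq y q : ℝ) : ℂ) * ex (y - x) q.1 * E q‖ :=
    Summable.of_nonneg_of_le (fun q => norm_nonneg _) h1 ((cq_summable hy).mul_left B)
  refine (norm_tsum_le_tsum_norm h2).trans ?_
  rw [← tsum_mul_left]
  exact h2.tsum_le_tsum h1 ((cq_summable hy).mul_left B)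

theorem two_cases {s α : ℂ} (hs : ‖s‖ = rho) (hα : α = s ∨ α = 2 * s) :
    (-(2 / 10 ^ 7) ≤ α.re ∧ α.re ≤ 2 / 10 ^ 7) ∧ (-(2 / 10 ^ 7) ≤ α.im ∧ α.im ≤ 2 / 10 ^ 7) ∧
      (-(1 / 10 ^ 7) ≤ 3 * s.re - 2 * α.re) := by
  obtain ⟨h1, h2⟩ := re_rho hs
  obtain ⟨h3, h4⟩ := im_rho hs
  rcases hα with rfl | rfl
  · refine ⟨⟨?_, ?_⟩, ⟨?_, ?_⟩, ?_⟩ <;> norm_num at h1 h2 h3 h4 ⊢ <;> linarith
  · refine ⟨⟨?_, ?_⟩, ⟨?_, ?_⟩, ?_⟩ <;> norm_num at h1 h2 h3 h4 ⊢ <;> simp <;> linarith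

end SumMIAux

open SumMIAux in
theorem sum_mi (x y : ℝ) (s : ℂ) (hx : 1 ≤ x) (hy : 0 < y) (hs : ‖s‖ = rho) :
    (Summable fun q : Q => ‖(((hgt q.1) ^ (-(1 / 2) : ℝ) * Om (hgt q.1) y : ℝ) : ℂ) * ex (y - x) q.1 *
      MI s x q.1.1 q.1.2‖) ∧
    ∑' q : Q, (((hgt q.1) ^ (-(1 / 2) : ℝ) * Om (hgt q.1) y : ℝ) : ℂ) * ex (y - x) q.1 * MI s x q.1.1 q.1.2 =
      DF s x y + (ZG s s s x y + ZG s s (2 * s) x y + (ZG s (2 * s) s x y + ZG s (2 * s) (2 * s) x y)) := by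
  constructor
  · obtain ⟨C, hC, h⟩ := mi_bound
    have hpos : 0 ≤ C * x ^ (1 / 10000 : ℝ) := by positivity
    refine Summable.of_nonneg_of_le (fun q => norm_nonneg _) (fun q => ?_)
      ((cq_summable hy).mul_right (C * x ^ (1 / 10000 : ℝ)))
    have e := norm_cq x y q
    unfold cq at e
    rw [norm_mul, e]
    refine mul_le_mul_of_nonneg_left ?_ (cq_nonneg y q)
    refine (h x s q.1.1 q.1.2 hx hs q.2).trans ?_
    refine mul_le_of_le_one_right hpos ?_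
    exact Real.rpow_le_one_of_one_le_of_nonpos (one_le_hgt q.1) (by norm_num)
  · have h := (sum_d hx hy hs).add (((sum_z hx hy hs (Or.inl rfl) (Or.inl rfl)).add
      (sum_z hx hy hs (Or.inl rfl) (Or.inr rfl))).add ((sum_z hx hy hs (Or.inr rfl) (Or.inl rfl)).add
      (sum_z hx hy hs (Or.inr rfl) (Or.inr rfl))))
    rw [← h.tsum_eq]
    refine tsum_congr fun q => ?_
    unfold MI cq
    ring

open SumMIAux in
theorem tt_crude : ∃ C : ℝ, 0 < C ∧ ∀ (U x y : ℝ) (s : ℂ), 1 ≤ U → U ≤ x → x ≤ 16 * U → U ≤ y → y ≤ 16 * U → ‖s‖ = rho →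
    (∀ v : ℝ, ‖TT x y (uD s (cz + v * I))‖ ≤ C * U) ∧
    ∀ α β : ℂ, (α = s ∨ α = 2 * s) → (β = s ∨ β = 2 * s) → ∀ v1 v2 v3 : ℝ,
      ‖TT x y (uZ s α β (cw + v1 * I) (cz + v2 * I) (cz + v3 * I))‖ ≤ C * U * (1 + |v1|) := by
  obtain ⟨Cs, hCs, hsum⟩ := cq_sum
  obtain ⟨Cd, hCd, hdd⟩ := dd_bound (1 / 10 ^ 6) (by norm_num)
  obtain ⟨Ce, hCe, hee⟩ := ee_bound (1 / 10 ^ 6) (by norm_num)
  obtain ⟨Cz, hCz, hzz⟩ := zeta_b
  refine ⟨Cd * (Cs * 16) + Cz * 3 * (Ce * (Cs * 16)), by positivity, ?_⟩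
  intro U x y s hU hx1 hx2 hy1 hy2 hs
  have hy : 0 < y := by linarith
  have hsy : ∑' q, cq y q ≤ Cs * 16 * U := by
    refine (hsum y hy).trans ?_
    rw [mul_assoc]
    exact mul_le_mul_of_nonneg_left hy2 hCs.le
  have hs0 : 0 ≤ ∑' q, cq y q := tsum_nonneg fun q => cq_nonneg y q
  constructor
  · intro v
    rw [← tt_d hs v]
    have h1 := wsum_le (x := x) hy hCd.le (fun q : Q => DD q.1.1 q.1.2 (uD s (cz + v * I) 0)
      (uD s (cz + v * I) 1) (uD s (cz + v * I) 2) (uD s (cz + v * I) 3)) (fun q => by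
        refine (hdd q.1.1 q.1.2 _ q.2 (uD_re hs v)).trans ?_
        refine mul_le_of_le_one_right hCd.le ?_
        exact Real.rpow_le_one_of_one_le_of_nonpos (one_le_hgt q.1) (by norm_num))
    refine h1.trans ?_
    have h2 : Cd * ∑' q, cq y q ≤ Cd * (Cs * 16 * U) := mul_le_mul_of_nonneg_left hsy hCd.le
    have h3 : 0 ≤ Cz * 3 * (Ce * (Cs * 16)) * U := by positivity
    linarith [h2, h3]
  · intro α β hα hβ v1 v2 v3
    obtain ⟨⟨a1, a2⟩, ⟨a3, a4⟩, a5⟩ := two_cases hs hα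
    obtain ⟨⟨b1, b2⟩, ⟨b3, b4⟩, b5⟩ := two_cases hs hβ
    obtain ⟨s1, s2⟩ := re_rho hs
    have hz : ‖riemannZeta (1 - α - β - 2 * (cw + v1 * I))‖ ≤ Cz * (3 * (1 + |v1|)) := by
      have hre : (1 - α - β - 2 * ((cw : ℂ) + v1 * I)).re = 1 - α.re - β.re - 1 / 16 := by
        simp [cw]
        norm_num
      have him : (1 - α - β - 2 * ((cw : ℂ) + v1 * I)).im = - α.im - β.im - 2 * v1 := by
        simp [cw]
      refine (hzz _ ?_ ?_ ?_).trans ?_
      · rw [hre]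
        norm_num at a1 a2 b1 b2 ⊢
        linarith
      · rw [hre]
        norm_num at a1 a2 b1 b2 ⊢
        linarith
      · have h1 := Complex.abs_re_le_norm (1 - α - β - 2 * ((cw : ℂ) + v1 * I) - 1)
        rw [sub_re, hre, one_re] at h1
        refine le_trans ?_ h1
        rw [le_abs]
        right
        norm_num at a1 a2 b1 b2 ⊢
        linarith
      · rw [him]
        refine mul_le_mul_of_nonneg_left ?_ hCz.le
        have h1 : |-α.im - β.im - 2 * v1| ≤ |α.im| + |β.im| + 2 * |v1| := by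
          have e : -α.im - β.im - 2 * v1 = -(α.im + β.im + 2 * v1) := by ring
          rw [e, abs_neg]
          refine (abs_add_three _ _ _).trans ?_
          rw [abs_mul, abs_two]
        have h2 : |α.im| ≤ 1 / 2 := abs_le.2 ⟨by norm_num at a3 ⊢; linarith, by norm_num at a4 ⊢; linarith⟩
        have h3 : |β.im| ≤ 1 / 2 := abs_le.2 ⟨by norm_num at b3 ⊢; linarith, by norm_num at b4 ⊢; linarith⟩
        have h4 := abs_nonneg v1
        linarith
    unfold TT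
    rw [uZ_sum, norm_mul]
    have h1 := wsum_le (x := x) hy hCe.le (fun q : Q => EE q.1.1 q.1.2
      (uZ s α β (cw + v1 * I) (cz + v2 * I) (cz + v3 * I) 0)
      (uZ s α β (cw + v1 * I) (cz + v2 * I) (cz + v3 * I) 1)
      (uZ s α β (cw + v1 * I) (cz + v2 * I) (cz + v3 * I) 2)
      (uZ s α β (cw + v1 * I) (cz + v2 * I) (cz + v3 * I) 3)) (fun q => by
        refine (hee q.1.1 q.1.2 _ q.2 ?_ ?_ ?_ ?_ ?_ ?_ ?_).trans ?_
        · show 1 / 10 ^ 6 ≤ ((3 * s - α + ((cw : ℂ) + v1 * I) + (3 * ((cz : ℂ) + v2 * I) + (cz + v3 * I)) / 2) +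
            (-α - (cw + v1 * I) + ((cz + v2 * I) - (cz + v3 * I)) / 2)).re
          have e : (3 * s - α + ((cw : ℂ) + v1 * I) + (3 * ((cz : ℂ) + v2 * I) + (cz + v3 * I)) / 2) +
            (-α - (cw + v1 * I) + ((cz + v2 * I) - (cz + v3 * I)) / 2) =
              3 * s - 2 * α + 2 * ((cz : ℂ) + v2 * I) := by ring
          rw [e]
          simp [cz]
          norm_num at a5 ⊢
          linarith
        · show 1 / 10 ^ 6 ≤ ((-β - ((cw : ℂ) + v1 * I) + (((cz : ℂ) + v3 * I) - (cz + v2 * I)) / 2) +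
            (3 * s - β + (cw + v1 * I) + ((cz + v2 * I) + 3 * (cz + v3 * I)) / 2)).re
          have e : (-β - ((cw : ℂ) + v1 * I) + (((cz : ℂ) + v3 * I) - (cz + v2 * I)) / 2) +
            (3 * s - β + (cw + v1 * I) + ((cz + v2 * I) + 3 * (cz + v3 * I)) / 2) =
              3 * s - 2 * β + 2 * ((cz : ℂ) + v3 * I) := by ring
          rw [e]
          simp [cz]
          norm_num at b5 ⊢
          linarith
        · show 1 / 10 ^ 6 ≤ ((3 * s - α + ((cw : ℂ) + v1 * I) + (3 * ((cz : ℂ) + v2 * I) + (cz + v3 * I)) / 2) +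
            (3 * s - β + (cw + v1 * I) + ((cz + v2 * I) + 3 * (cz + v3 * I)) / 2)).re
          have e : (3 * s - α + ((cw : ℂ) + v1 * I) + (3 * ((cz : ℂ) + v2 * I) + (cz + v3 * I)) / 2) +
            (3 * s - β + (cw + v1 * I) + ((cz + v2 * I) + 3 * (cz + v3 * I)) / 2) =
              6 * s - α - β + 2 * ((cw : ℂ) + v1 * I) + 2 * ((cz : ℂ) + v2 * I) +
                2 * ((cz : ℂ) + v3 * I) := by ring
          rw [e]
          simp [cz, cw]
          norm_num at a1 a2 b1 b2 s1 s2 ⊢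
          linarith
        · show -(1 / 10) ≤ (-β - ((cw : ℂ) + v1 * I) + (((cz : ℂ) + v3 * I) - (cz + v2 * I)) / 2).re
          simp [cz, cw]
          norm_num at b1 b2 ⊢
          linarith
        · show (-β - ((cw : ℂ) + v1 * I) + (((cz : ℂ) + v3 * I) - (cz + v2 * I)) / 2).re ≤ 0
          simp [cz, cw]
          norm_num at b1 b2 ⊢
          linarith
        · show -(1 / 10) ≤ (-α - ((cw : ℂ) + v1 * I) + (((cz : ℂ) + v2 * I) - (cz + v3 * I)) / 2).re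
          simp [cz, cw]
          norm_num at a1 a2 ⊢
          linarith
        · show (-α - ((cw : ℂ) + v1 * I) + (((cz : ℂ) + v2 * I) - (cz + v3 * I)) / 2).re ≤ 0
          simp [cz, cw]
          norm_num at a1 a2 ⊢
          linarith
        · refine mul_le_of_le_one_right hCe.le ?_
          exact Real.rpow_le_one_of_one_le_of_nonpos (one_le_hgt q.1) (by norm_num))
    have h2 : ‖∑' q : Q, ((cq y q : ℝ) : ℂ) * ex (y - x) q.1 * EE q.1.1 q.1.2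
      (uZ s α β (cw + v1 * I) (cz + v2 * I) (cz + v3 * I) 0)
      (uZ s α β (cw + v1 * I) (cz + v2 * I) (cz + v3 * I) 1)
      (uZ s α β (cw + v1 * I) (cz + v2 * I) (cz + v3 * I) 2)
      (uZ s α β (cw + v1 * I) (cz + v2 * I) (cz + v3 * I) 3)‖ ≤ Ce * (Cs * 16 * U) :=
      h1.trans (mul_le_mul_of_nonneg_left hsy hCe.le)
    have h3 := mul_le_mul hz h2 (norm_nonneg _) (by positivity)
    refine h3.trans ?_
    have h4 : 0 ≤ Cd * (Cs * 16) * U * (1 + |v1|) := by positivity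
    have h5 : Cz * (3 * (1 + |v1|)) * (Ce * (Cs * 16 * U)) = Cz * 3 * (Ce * (Cs * 16)) * U * (1 + |v1|) := by
      ring
    rw [h5, add_mul, add_mul]
    linarith

end Pool.Agent.P07318f
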