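import Pool.Agent.Lib.P07318f.SumMI
import Pool.Agent.Lib.P07318f.ResThree
import Pool.Agent.Lib.P07318f.HHreg

/-!
# Truncation

`L = U^κ`. `trunc_d`: for `|v| ≤ L/2` the point `u = uD s (cz+iv)` is in `Bx L` (if `L ≥ 1`: `|Im| ≤ L/2 + 2ρ`) and in `RegE`, `u₁+u₃ ≠ 0`, `|u_i + u_j| ≥ 2cz - 4ρ`,
so `res_three` gives `‖TT x y u - RR (HH x y) u‖ ≤ C U^(-1/10)`, and `|Gw/w X2 x (2w)| ≤ C exp(-v²/2) x^(2cz)`: the difference of the integrals over `|v| ≤ L/2` is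
`≤ C U^(-1/10+1/1000)`. For `|v| > L/2`: `tt_crude`: `≤ C U^2 ∫_{|v|>L/2} exp(-v²/2) dv ≤ C_κ U^(-1)`. `trunc_z`: the same with `uZ`: for `|v_i| ≤ L/8` the
point is in `Bx L ∩ RegE`: `Re(u₀+u₃) ≥ 2cz-ρ`, `Re(u₁+u₂) ≥ 2cz-ρ`, `Re(u₀+u₂) > 1/17`, `|u₁+u₃| ≥ 1/16-4ρ`; outside the cube some `|v_i| > L/8` and the
Gaussian `exp(-(v1+(v2+v3)/2)²/2 - v2²/2 - v3²/2)·` polynomial is integrable with integral over the complement `≤ C exp(-L²/1000) ≤ C_κ U^(-3)`.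
The integral over the cube as an iterated interval integral: `integral_prod`, `intervalIntegral.integral_of_le`.
-/

set_option autoImplicit false

namespace Pool.Agent.P07318f

open MeasureTheory Complex Pool.Agent.P07318s

namespace TruncAux

open SumMIAux

theorem trunc_abs {X : Type*} [MeasurableSpace X] {μ : Measure X} {S : Set X}
    (hS : MeasurableSet S) {F1 F2 : X → ℂ} {G : X → ℝ} {a b : ℝ} (h1 : Integrable F1 μ)
    (h2 : IntegrableOn F2 S μ) (hG : Integrable G μ) (hG0 : ∀ v, 0 ≤ G v) (ha : 0 ≤ a)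
    (hb : 0 ≤ b) (hin : ∀ v ∈ S, ‖F1 v - F2 v‖ ≤ a * G v)
    (hout : ∀ v, v ∉ S → ‖F1 v‖ ≤ b * G v) :
    ‖(∫ v, F1 v ∂μ) - ∫ v in S, F2 v ∂μ‖ ≤ (a + b) * ∫ v, G v ∂μ := by
  rw [← integral_add_compl hS h1]
  have e : (∫ v in S, F1 v ∂μ) + (∫ v in Sᶜ, F1 v ∂μ) - ∫ v in S, F2 v ∂μ =
      (∫ v in S, (F1 v - F2 v) ∂μ) + ∫ v in Sᶜ, F1 v ∂μ := by
    rw [integral_sub h1.integrableOn h2]
    ring
  rw [e]
  have k1 : ‖∫ v in S, (F1 v - F2 v) ∂μ‖ ≤ a * ∫ v, G v ∂μ := by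
    calc ‖∫ v in S, (F1 v - F2 v) ∂μ‖ ≤ ∫ v in S, a * G v ∂μ :=
          norm_integral_le_of_norm_le (hG.const_mul a).integrableOn
            ((ae_restrict_iff' hS).2 (Filter.Eventually.of_forall hin))
      _ ≤ ∫ v, a * G v ∂μ := setIntegral_le_integral (hG.const_mul a)
          (Filter.Eventually.of_forall fun v => mul_nonneg ha (hG0 v))
      _ = _ := integral_const_mul _ _
  have k2 : ‖∫ v in Sᶜ, F1 v ∂μ‖ ≤ b * ∫ v, G v ∂μ := by
    calc ‖∫ v in Sᶜ, F1 v ∂μ‖ ≤ ∫ v in Sᶜ, b * G v ∂μ :=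
          norm_integral_le_of_norm_le (hG.const_mul b).integrableOn
            ((ae_restrict_iff' hS.compl).2 (Filter.Eventually.of_forall fun v hv => hout v hv))
      _ ≤ ∫ v, b * G v ∂μ := setIntegral_le_integral (hG.const_mul b)
          (Filter.Eventually.of_forall fun v => mul_nonneg hb (hG0 v))
      _ = _ := integral_const_mul _ _
  calc _ ≤ ‖∫ v in S, (F1 v - F2 v) ∂μ‖ + ‖∫ v in Sᶜ, F1 v ∂μ‖ := norm_add_le _ _
    _ ≤ a * (∫ v, G v ∂μ) + b * ∫ v, G v ∂μ := add_le_add k1 k2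
    _ = _ := by ring

theorem growth' {κ a c : ℝ} (hκ : 0 < κ) (hc : 0 < c) : ∃ C : ℝ, 0 < C ∧ ∀ U : ℝ, 1 ≤ U →
    U ^ a * Real.exp (-((U ^ κ) ^ 2 / c)) ≤ C := by
  obtain ⟨n, hn⟩ := exists_nat_ge (a / (2 * κ))
  refine ⟨c ^ n * n.factorial, by positivity, fun U hU => ?_⟩
  have hU0 : 0 < U := by linarith
  have h1 : U ^ a ≤ ((U ^ κ) ^ 2) ^ n := by
    rw [← pow_mul, ← Real.rpow_natCast (U ^ κ), ← Real.rpow_mul hU0.le]
    apply Real.rpow_le_rpow_of_exponent_le hU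
    rw [div_le_iff₀ (by positivity)] at hn
    push_cast
    linarith
  have h2 : ((U ^ κ) ^ 2 / c) ^ n / n.factorial ≤ Real.exp ((U ^ κ) ^ 2 / c) :=
    Real.pow_div_factorial_le_exp _ (by positivity) n
  rw [div_le_iff₀ (by positivity)] at h2
  have h3 : ((U ^ κ) ^ 2) ^ n ≤ c ^ n * n.factorial * Real.exp ((U ^ κ) ^ 2 / c) := by
    calc ((U ^ κ) ^ 2) ^ n = c ^ n * ((U ^ κ) ^ 2 / c) ^ n := by
          rw [← mul_pow]; congr 1; field_simp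
      _ ≤ c ^ n * (Real.exp ((U ^ κ) ^ 2 / c) * n.factorial) := by gcongr
      _ = _ := by ring
  calc U ^ a * Real.exp (-((U ^ κ) ^ 2 / c))
      ≤ (c ^ n * n.factorial * Real.exp ((U ^ κ) ^ 2 / c)) * Real.exp (-((U ^ κ) ^ 2 / c)) :=
        mul_le_mul_of_nonneg_right (h1.trans h3) (Real.exp_pos _).le
    _ = c ^ n * n.factorial := by
        rw [mul_assoc, ← Real.exp_add, add_neg_cancel, Real.exp_zero, mul_one]

theorem X2_small {U x : ℝ} {w : ℂ} (hU : 1 ≤ U) (hx1 : U ≤ x) (hx2 : x ≤ 16 * U)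
    (h0 : 0 ≤ w.re) (h1 : w.re ≤ 1 / 1000) : ‖X2 x w‖ ≤ 16 * U ^ (1 / 1000 : ℝ) := by
  have hx : 0 < x := by linarith
  have hp : (1 : ℝ) ≤ 2 * Real.pi := by linarith [Real.pi_gt_three]
  unfold X2
  rw [Complex.norm_cpow_eq_rpow_re_of_pos (by positivity)]
  calc (x / (2 * Real.pi)) ^ w.re ≤ (16 * U) ^ w.re := by
        apply Real.rpow_le_rpow (by positivity) _ h0
        exact (div_le_self hx.le hp).trans hx2
    _ ≤ (16 * U) ^ (1 / 1000 : ℝ) := Real.rpow_le_rpow_of_exponent_le (by linarith) h1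
    _ = 16 ^ (1 / 1000 : ℝ) * U ^ (1 / 1000 : ℝ) := Real.mul_rpow (by norm_num) (by linarith)
    _ ≤ 16 ^ (1 : ℝ) * U ^ (1 / 1000 : ℝ) := by
        apply mul_le_mul_of_nonneg_right _ (by positivity)
        exact Real.rpow_le_rpow_of_exponent_le (by norm_num) (by norm_num)
    _ = _ := by rw [Real.rpow_one]

theorem X2_cont {x : ℝ} (hx : 0 < x) : Continuous (X2 x) := by
  have h : ((x / (2 * Real.pi) : ℝ) : ℂ) ≠ 0 := by
    rw [Complex.ofReal_ne_zero]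
    positivity
  rw [continuous_iff_continuousAt]
  intro w
  unfold X2
  exact (continuousAt_id).const_cpow (Or.inl h)

theorem Gw_cont (s : ℂ) : Continuous (Gw s) := by
  unfold Gw
  fun_prop

theorem Gz_cont (s : ℂ) : Continuous (Gz s) := by
  unfold Gz
  fun_prop

theorem Pi4_cont : Continuous Pi4 := by
  unfold Pi4
  fun_prop

theorem zeta_cont {X : Type*} [TopologicalSpace X] {g : X → ℂ} (hg : Continuous g)
    (h : ∀ z, g z ≠ 1) : Continuous fun z => riemannZeta (g z) := by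
  rw [continuous_iff_continuousAt]
  intro z
  exact ContinuousAt.comp (g := riemannZeta) (differentiableAt_riemannZeta (h z)).continuousAt
    hg.continuousAt

theorem Pi4_lower {u : Fin 4 → ℂ} (h02 : 1 / 10 ^ 6 ≤ ‖u 0 + u 2‖) (h03 : 1 / 10 ^ 6 ≤ ‖u 0 + u 3‖)
    (h12 : 1 / 10 ^ 6 ≤ ‖u 1 + u 2‖) (h13 : 1 / 10 ^ 6 ≤ ‖u 1 + u 3‖) :
    ((1 / 10 ^ 6) ^ 4 : ℝ) ≤ ‖Pi4 u‖ := by
  unfold Pi4
  rw [norm_mul, norm_mul, norm_mul]
  calc ((1 / 10 ^ 6) ^ 4 : ℝ) = (1 / 10 ^ 6) * (1 / 10 ^ 6) * ((1 / 10 ^ 6) * (1 / 10 ^ 6)) := by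
        ring
    _ ≤ _ := by gcongr

theorem rr_close {x y : ℝ} {u : Fin 4 → ℂ} {E : ℝ} (hP : ((1 / 10 ^ 6) ^ 4 : ℝ) ≤ ‖Pi4 u‖)
    (h : ‖Pi4 u * TT x y u - HH x y u‖ ≤ E) :
    ‖TT x y u - RR (HH x y) u‖ ≤ 10 ^ 24 * E := by
  have hpos : (0 : ℝ) < ‖Pi4 u‖ := lt_of_lt_of_le (by positivity) hP
  have hne : Pi4 u ≠ 0 := norm_pos_iff.1 hpos
  have e : TT x y u - RR (HH x y) u = (Pi4 u * TT x y u - HH x y u) / Pi4 u := by
    unfold RR
    field_simp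
  rw [e, norm_div, div_le_iff₀ hpos]
  have hE : 0 ≤ E := (norm_nonneg _).trans h
  calc ‖Pi4 u * TT x y u - HH x y u‖ ≤ E := h
    _ = 10 ^ 24 * E * (1 / 10 ^ 6) ^ 4 := by ring
    _ ≤ _ := mul_le_mul_of_nonneg_left hP (by positivity)

/-! ### the diagonal part -/

theorem uD_cont (s : ℂ) : Continuous fun v : ℝ => uD s (cz + v * I) := by
  refine continuous_pi fun i => ?_
  fin_cases i
  · show Continuous fun v : ℝ => s + ((cz : ℂ) + v * I)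
    fun_prop
  · show Continuous fun v : ℝ => 2 * s + ((cz : ℂ) + v * I)
    fun_prop
  · show Continuous fun v : ℝ => s + ((cz : ℂ) + v * I)
    fun_prop
  · show Continuous fun v : ℝ => 2 * s + ((cz : ℂ) + v * I)
    fun_prop

theorem re_le_norm' {z : ℂ} {a : ℝ} (h : a ≤ z.re) : a ≤ ‖z‖ :=
  h.trans (Complex.re_le_norm z)

theorem uD_low {s : ℂ} (hs : ‖s‖ = rho) (v : ℝ) :
    ((1 / 10 ^ 6) ^ 4 : ℝ) ≤ ‖Pi4 (uD s (cz + v * I))‖ := by
  have h0 := uD_re hs v 0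
  have h1 := uD_re hs v 1
  have h2 := uD_re hs v 2
  have h3 := uD_re hs v 3
  apply Pi4_lower <;> apply re_le_norm' <;> rw [add_re] <;> norm_num at h0 h1 h2 h3 ⊢ <;> linarith

theorem box1 {σ : ℂ} (h1 : |σ.re| ≤ 2 / 10 ^ 7) (h2 : |σ.im| ≤ 2 / 10 ^ 7) {L v : ℝ} (hL : 1 ≤ L)
    (hv : |v| ≤ L / 2) : |(σ + ((cz : ℂ) + v * I)).re| < 1 / 10 ∧
      |(σ + ((cz : ℂ) + v * I)).im| < L := by
  rw [abs_le] at h1 h2 hv
  rw [abs_lt, abs_lt]
  obtain ⟨a1, a2⟩ := h1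
  obtain ⟨b1, b2⟩ := h2
  obtain ⟨c1, c2⟩ := hv
  refine ⟨⟨?_, ?_⟩, ⟨?_, ?_⟩⟩ <;> simp [cz] <;> norm_num at a1 a2 b1 b2 ⊢ <;> linarith

theorem uD_box {s : ℂ} (hs : ‖s‖ = rho) {L v : ℝ} (hL : 1 ≤ L) (hv : |v| ≤ L / 2) :
    uD s (cz + v * I) ∈ Bx L := by
  obtain ⟨h1, h2⟩ := re_rho hs
  obtain ⟨h3, h4⟩ := im_rho hs
  norm_num at h1 h2 h3 h4
  have hs1 : |s.re| ≤ 2 / 10 ^ 7 := abs_le.2 ⟨by norm_num; linarith, by norm_num; linarith⟩
  have hs2 : |s.im| ≤ 2 / 10 ^ 7 := abs_le.2 ⟨by norm_num; linarith, by norm_num; linarith⟩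
  have ht1 : |(2 * s).re| ≤ 2 / 10 ^ 7 := abs_le.2 ⟨by simp; linarith, by simp; linarith⟩
  have ht2 : |(2 * s).im| ≤ 2 / 10 ^ 7 := abs_le.2 ⟨by simp; linarith, by simp; linarith⟩
  intro i
  fin_cases i
  · exact box1 hs1 hs2 hL hv
  · exact box1 ht1 ht2 hL hv
  · exact box1 hs1 hs2 hL hv
  · exact box1 ht1 ht2 hL hv

theorem uD_memE {s : ℂ} (hs : ‖s‖ = rho) (v : ℝ) : uD s (cz + v * I) ∈ RegE :=
  ⟨(uD_mem hs v).1, (uD_mem hs v).2.1, (uD_mem hs v).2.2.1⟩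

theorem ttD_cont {x y : ℝ} (hy : 0 < y) {s : ℂ} (hs : ‖s‖ = rho) :
    Continuous fun v : ℝ => TT x y (uD s (cz + v * I)) := by
  obtain ⟨Cd, hCd, hdd⟩ := dd_bound (1 / 10 ^ 6) (by norm_num)
  have e : (fun v : ℝ => TT x y (uD s (cz + v * I))) = fun v : ℝ =>
      ∑' q : Q, ((cq y q : ℝ) : ℂ) * ex (y - x) q.1 *
      DD q.1.1 q.1.2 (uD s (cz + v * I) 0) (uD s (cz + v * I) 1) (uD s (cz + v * I) 2)
        (uD s (cz + v * I) 3) := by
    funext v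
    exact (tt_d hs v).symm
  rw [e]
  refine continuous_tsum (fun q => ?_) ((cq_summable hy).mul_right Cd) (fun q v => ?_)
  · refine continuous_const.mul ?_
    have e2 : (fun v : ℝ => DD q.1.1 q.1.2 (uD s (cz + v * I) 0) (uD s (cz + v * I) 1)
        (uD s (cz + v * I) 2) (uD s (cz + v * I) 3)) = fun v : ℝ =>
        riemannZeta (1 + uD s (cz + v * I) 1 + uD s (cz + v * I) 3) *
        EE q.1.1 q.1.2 (uD s (cz + v * I) 0) (uD s (cz + v * I) 1)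
        (uD s (cz + v * I) 2) (uD s (cz + v * I) 3) := by
      funext v
      exact (dd_summable q.1.1 q.1.2 (uD_mem hs v)).2
    rw [e2]
    refine Continuous.mul ?_ ?_
    · have hc := uD_cont s
      refine zeta_cont ?_ ?_
      · exact (continuous_const.add ((continuous_apply 1).comp hc)).add
          ((continuous_apply 3).comp hc)
      · intro v h
        have h4 := (uD_mem hs v).2.2.2
        have h5 : uD s (cz + v * I) 1 + uD s (cz + v * I) 3 = 0 := by linear_combination h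
        rw [h5] at h4
        simp at h4
    · exact (ee_cont q.1.1 q.1.2).comp_continuous (uD_cont s) (fun v => uD_memE hs v)
  · rw [norm_mul, norm_cq]
    refine mul_le_mul_of_nonneg_left ?_ (cq_nonneg y q)
    refine (hdd q.1.1 q.1.2 _ q.2 (uD_re hs v)).trans ?_
    refine mul_le_of_le_one_right hCd.le ?_
    exact Real.rpow_le_one_of_one_le_of_nonpos (one_le_hgt q.1) (by norm_num)

/-- the kernel of the diagonal part -/
noncomputable def kD (s : ℂ) (x v : ℝ) : ℂ :=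
  Gw s (cz + v * I) / (cz + v * I) * X2 x (2 * (cz + v * I))

theorem cz_pos : 0 < cz := by unfold cz; norm_num

theorem cz_le_norm (v : ℝ) : cz ≤ ‖(cz : ℂ) + v * I‖ := by
  apply re_le_norm'
  simp

theorem czv_ne (v : ℝ) : (cz : ℂ) + v * I ≠ 0 := by
  intro h
  have := cz_le_norm v
  rw [h, norm_zero] at this
  linarith [cz_pos]

theorem kD_cont (s : ℂ) {x : ℝ} (hx : 0 < x) : Continuous (kD s x) := by
  unfold kD
  refine Continuous.mul (Continuous.div ((Gw_cont s).comp (by fun_prop)) (by fun_prop) czv_ne) ?_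
  exact (X2_cont hx).comp (by fun_prop)

theorem kD_bound : ∃ C : ℝ, 0 < C ∧ ∀ (U x : ℝ) (s : ℂ) (v : ℝ), 1 ≤ U → U ≤ x → x ≤ 16 * U →
    ‖s‖ = rho → ‖kD s x v‖ ≤ C * U ^ (1 / 1000 : ℝ) * Real.exp (-(v ^ 2 / 2)) := by
  obtain ⟨C, hC, h⟩ := Gw_bound rho 1 (by unfold rho; norm_num)
  have hcz := cz_pos
  refine ⟨C * cz⁻¹ * 16, by positivity, fun U x s v hU hx1 hx2 hs => ?_⟩
  unfold kD
  rw [norm_mul, norm_div]
  have h1 := h s hs cz v (by unfold cz; rw [abs_of_pos] <;> norm_num)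
  have h2 : ‖X2 x (2 * ((cz : ℂ) + v * I))‖ ≤ 16 * U ^ (1 / 1000 : ℝ) := by
    apply X2_small hU hx1 hx2
    · simp
      exact hcz.le
    · simp [cz]
      norm_num
  have h3 : ‖Gw s (cz + v * I)‖ / ‖(cz : ℂ) + v * I‖ ≤
      C * Real.exp (-(v ^ 2 / 2)) * cz⁻¹ := by
    rw [div_eq_mul_inv]
    exact mul_le_mul h1 (inv_anti₀ hcz (cz_le_norm v)) (by positivity) (by positivity)
  calc _ ≤ (C * Real.exp (-(v ^ 2 / 2)) * cz⁻¹) * (16 * U ^ (1 / 1000 : ℝ)) := by gcongr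
    _ = _ := by ring

/-- the Gaussian -/
noncomputable def gs (v : ℝ) : ℝ := Real.exp (-(v ^ 2 / 16))

theorem gs_int : Integrable gs := by
  have h := integrable_exp_neg_mul_sq (b := 1 / 16) (by norm_num)
  refine h.congr (Filter.Eventually.of_forall fun v => ?_)
  simp only [gs]
  congr 1
  ring

theorem gs_nonneg (v : ℝ) : 0 ≤ gs v := (Real.exp_pos _).le

/-! ### the zero frequency part -/

section

variable {s α β : ℂ}

theorem uZ_cont (s α β : ℂ) : Continuous fun v : ℝ × ℝ × ℝ =>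
    uZ s α β (cw + v.1 * I) (cz + v.2.1 * I) (cz + v.2.2 * I) := by
  refine continuous_pi fun i => ?_
  fin_cases i
  · show Continuous fun v : ℝ × ℝ × ℝ => 3 * s - α + ((cw : ℂ) + v.1 * I) +
      (3 * ((cz : ℂ) + v.2.1 * I) + ((cz : ℂ) + v.2.2 * I)) / 2
    fun_prop
  · show Continuous fun v : ℝ × ℝ × ℝ => -β - ((cw : ℂ) + v.1 * I) +
      (((cz : ℂ) + v.2.2 * I) - ((cz : ℂ) + v.2.1 * I)) / 2
    fun_prop
  · show Continuous fun v : ℝ × ℝ × ℝ => 3 * s - β + ((cw : ℂ) + v.1 * I) +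
      (((cz : ℂ) + v.2.1 * I) + 3 * ((cz : ℂ) + v.2.2 * I)) / 2
    fun_prop
  · show Continuous fun v : ℝ × ℝ × ℝ => -α - ((cw : ℂ) + v.1 * I) +
      (((cz : ℂ) + v.2.1 * I) - ((cz : ℂ) + v.2.2 * I)) / 2
    fun_prop

theorem uZ03 (s α β : ℂ) (v1 v2 v3 : ℝ) :
    uZ s α β (cw + v1 * I) (cz + v2 * I) (cz + v3 * I) 0 +
      uZ s α β (cw + v1 * I) (cz + v2 * I) (cz + v3 * I) 3 =
        3 * s - 2 * α + 2 * ((cz : ℂ) + v2 * I) := by
  show (3 * s - α + ((cw : ℂ) + v1 * I) + (3 * ((cz : ℂ) + v2 * I) + (cz + v3 * I)) / 2) +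
      (-α - (cw + v1 * I) + ((cz + v2 * I) - (cz + v3 * I)) / 2) = _
  ring

theorem uZ12 (s α β : ℂ) (v1 v2 v3 : ℝ) :
    uZ s α β (cw + v1 * I) (cz + v2 * I) (cz + v3 * I) 1 +
      uZ s α β (cw + v1 * I) (cz + v2 * I) (cz + v3 * I) 2 =
        3 * s - 2 * β + 2 * ((cz : ℂ) + v3 * I) := by
  show (-β - ((cw : ℂ) + v1 * I) + (((cz : ℂ) + v3 * I) - (cz + v2 * I)) / 2) +
      (3 * s - β + (cw + v1 * I) + ((cz + v2 * I) + 3 * (cz + v3 * I)) / 2) = _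
  ring

theorem uZ02 (s α β : ℂ) (v1 v2 v3 : ℝ) :
    uZ s α β (cw + v1 * I) (cz + v2 * I) (cz + v3 * I) 0 +
      uZ s α β (cw + v1 * I) (cz + v2 * I) (cz + v3 * I) 2 =
        6 * s - α - β + 2 * ((cw : ℂ) + v1 * I) + 2 * ((cz : ℂ) + v2 * I) +
                2 * ((cz : ℂ) + v3 * I) := by
  show (3 * s - α + ((cw : ℂ) + v1 * I) + (3 * ((cz : ℂ) + v2 * I) + (cz + v3 * I)) / 2) +
      (3 * s - β + (cw + v1 * I) + ((cz + v2 * I) + 3 * (cz + v3 * I)) / 2) = _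
  ring

theorem uZ13 (s α β : ℂ) (v1 v2 v3 : ℝ) :
    uZ s α β (cw + v1 * I) (cz + v2 * I) (cz + v3 * I) 1 +
      uZ s α β (cw + v1 * I) (cz + v2 * I) (cz + v3 * I) 3 =
        -α - β - 2 * ((cw : ℂ) + v1 * I) := by
  have := uZ_sum s α β (cw + v1 * I) (cz + v2 * I) (cz + v3 * I)
  linear_combination this

theorem uZ_re03 (hs : ‖s‖ = rho) (hα : α = s ∨ α = 2 * s) (v1 v2 v3 : ℝ) :
    1 / 10 ^ 6 ≤ (uZ s α β (cw + v1 * I) (cz + v2 * I) (cz + v3 * I) 0 +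
      uZ s α β (cw + v1 * I) (cz + v2 * I) (cz + v3 * I) 3).re := by
  obtain ⟨-, -, a5⟩ := two_cases hs hα
  rw [uZ03]
  simp [cz]
  norm_num at a5 ⊢
  linarith

theorem uZ_re12 (hs : ‖s‖ = rho) (hβ : β = s ∨ β = 2 * s) (v1 v2 v3 : ℝ) :
    1 / 10 ^ 6 ≤ (uZ s α β (cw + v1 * I) (cz + v2 * I) (cz + v3 * I) 1 +
      uZ s α β (cw + v1 * I) (cz + v2 * I) (cz + v3 * I) 2).re := by
  obtain ⟨-, -, b5⟩ := two_cases hs hβ
  rw [uZ12]
  simp [cz]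
  norm_num at b5 ⊢
  linarith

theorem uZ_re02 (hs : ‖s‖ = rho) (hα : α = s ∨ α = 2 * s) (hβ : β = s ∨ β = 2 * s)
    (v1 v2 v3 : ℝ) :
    1 / 10 ^ 6 ≤ (uZ s α β (cw + v1 * I) (cz + v2 * I) (cz + v3 * I) 0 +
      uZ s α β (cw + v1 * I) (cz + v2 * I) (cz + v3 * I) 2).re := by
  obtain ⟨⟨a1, a2⟩, -, -⟩ := two_cases hs hα
  obtain ⟨⟨b1, b2⟩, -, -⟩ := two_cases hs hβ
  obtain ⟨s1, s2⟩ := re_rho hs
  rw [uZ02]
  simp [cz, cw]
  norm_num at a1 a2 b1 b2 s1 s2 ⊢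
  linarith

theorem uZ_re13 (hs : ‖s‖ = rho) (hα : α = s ∨ α = 2 * s) (hβ : β = s ∨ β = 2 * s)
    (v1 v2 v3 : ℝ) :
    (uZ s α β (cw + v1 * I) (cz + v2 * I) (cz + v3 * I) 1 +
      uZ s α β (cw + v1 * I) (cz + v2 * I) (cz + v3 * I) 3).re ≤ -(1 / 10 ^ 6) := by
  obtain ⟨⟨a1, a2⟩, -, -⟩ := two_cases hs hα
  obtain ⟨⟨b1, b2⟩, -, -⟩ := two_cases hs hβ
  rw [uZ13]
  simp [cw]
  norm_num at a1 a2 b1 b2 ⊢
  linarith

theorem uZ_ne13 (hs : ‖s‖ = rho) (hα : α = s ∨ α = 2 * s) (hβ : β = s ∨ β = 2 * s)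
    (v1 v2 v3 : ℝ) :
    uZ s α β (cw + v1 * I) (cz + v2 * I) (cz + v3 * I) 1 +
      uZ s α β (cw + v1 * I) (cz + v2 * I) (cz + v3 * I) 3 ≠ 0 := by
  intro h
  have := uZ_re13 hs hα hβ v1 v2 v3
  rw [h] at this
  norm_num at this

theorem uZ_memE (hs : ‖s‖ = rho) (hα : α = s ∨ α = 2 * s) (hβ : β = s ∨ β = 2 * s)
    (v1 v2 v3 : ℝ) : uZ s α β (cw + v1 * I) (cz + v2 * I) (cz + v3 * I) ∈ RegE :=
  ⟨lt_of_lt_of_le (by norm_num) (uZ_re03 hs hα v1 v2 v3),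
    lt_of_lt_of_le (by norm_num) (uZ_re12 hs hβ v1 v2 v3),
    lt_of_lt_of_le (by norm_num) (uZ_re02 hs hα hβ v1 v2 v3)⟩

theorem uZ_low (hs : ‖s‖ = rho) (hα : α = s ∨ α = 2 * s) (hβ : β = s ∨ β = 2 * s)
    (v1 v2 v3 : ℝ) :
    ((1 / 10 ^ 6) ^ 4 : ℝ) ≤ ‖Pi4 (uZ s α β (cw + v1 * I) (cz + v2 * I) (cz + v3 * I))‖ := by
  refine Pi4_lower (re_le_norm' (uZ_re02 hs hα hβ v1 v2 v3))
    (re_le_norm' (uZ_re03 hs hα v1 v2 v3)) (re_le_norm' (uZ_re12 hs hβ v1 v2 v3)) ?_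
  have h := uZ_re13 hs hα hβ v1 v2 v3
  have h2 := Complex.abs_re_le_norm (uZ s α β (cw + v1 * I) (cz + v2 * I) (cz + v3 * I) 1 +
      uZ s α β (cw + v1 * I) (cz + v2 * I) (cz + v3 * I) 3)
  refine le_trans ?_ h2
  rw [le_abs]
  right
  linarith

theorem uZ_box (hs : ‖s‖ = rho) (hα : α = s ∨ α = 2 * s) (hβ : β = s ∨ β = 2 * s)
    {L v1 v2 v3 : ℝ} (hL : 1 ≤ L) (h1 : |v1| ≤ L / 8) (h2 : |v2| ≤ L / 8) (h3 : |v3| ≤ L / 8) :
    uZ s α β (cw + v1 * I) (cz + v2 * I) (cz + v3 * I) ∈ Bx L := by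
  obtain ⟨⟨a1, a2⟩, ⟨a3, a4⟩, -⟩ := two_cases hs hα
  obtain ⟨⟨b1, b2⟩, ⟨b3, b4⟩, -⟩ := two_cases hs hβ
  obtain ⟨s1, s2⟩ := re_rho hs
  obtain ⟨s3, s4⟩ := im_rho hs
  obtain ⟨c1, c2⟩ := abs_le.1 h1
  obtain ⟨d1, d2⟩ := abs_le.1 h2
  obtain ⟨e1, e2⟩ := abs_le.1 h3
  norm_num at a1 a2 a3 a4 b1 b2 b3 b4 s1 s2 s3 s4
  intro i
  rw [abs_lt, abs_lt]
  fin_cases i
  · have er : (uZ s α β (cw + v1 * I) (cz + v2 * I) (cz + v3 * I) 0).re =
        3 * s.re - α.re + 1 / 32 + (3 * (1 / 100000) + 1 / 100000) / 2 := by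
      show (3 * s - α + ((cw : ℂ) + v1 * I) + (3 * ((cz : ℂ) + v2 * I) + (cz + v3 * I)) / 2).re = _
      simp [cz, cw]
      norm_num
    have ei : (uZ s α β (cw + v1 * I) (cz + v2 * I) (cz + v3 * I) 0).im =
        3 * s.im - α.im + v1 + (3 * v2 + v3) / 2 := by
      show (3 * s - α + ((cw : ℂ) + v1 * I) + (3 * ((cz : ℂ) + v2 * I) + (cz + v3 * I)) / 2).im = _
      simp
    show (_ < (uZ s α β (cw + v1 * I) (cz + v2 * I) (cz + v3 * I) 0).re ∧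
      (uZ s α β (cw + v1 * I) (cz + v2 * I) (cz + v3 * I) 0).re < _) ∧
      (_ < (uZ s α β (cw + v1 * I) (cz + v2 * I) (cz + v3 * I) 0).im ∧
      (uZ s α β (cw + v1 * I) (cz + v2 * I) (cz + v3 * I) 0).im < _)
    rw [er, ei]
    refine ⟨⟨?_, ?_⟩, ⟨?_, ?_⟩⟩ <;> linarith
  · have er : (uZ s α β (cw + v1 * I) (cz + v2 * I) (cz + v3 * I) 1).re = -β.re - 1 / 32 := by
      show (-β - ((cw : ℂ) + v1 * I) + (((cz : ℂ) + v3 * I) - (cz + v2 * I)) / 2).re = _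
      simp [cz, cw]
    have ei : (uZ s α β (cw + v1 * I) (cz + v2 * I) (cz + v3 * I) 1).im =
        -β.im - v1 + (v3 - v2) / 2 := by
      show (-β - ((cw : ℂ) + v1 * I) + (((cz : ℂ) + v3 * I) - (cz + v2 * I)) / 2).im = _
      simp
    show (_ < (uZ s α β (cw + v1 * I) (cz + v2 * I) (cz + v3 * I) 1).re ∧
      (uZ s α β (cw + v1 * I) (cz + v2 * I) (cz + v3 * I) 1).re < _) ∧
      (_ < (uZ s α β (cw + v1 * I) (cz + v2 * I) (cz + v3 * I) 1).im ∧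
      (uZ s α β (cw + v1 * I) (cz + v2 * I) (cz + v3 * I) 1).im < _)
    rw [er, ei]
    refine ⟨⟨?_, ?_⟩, ⟨?_, ?_⟩⟩ <;> linarith
  · have er : (uZ s α β (cw + v1 * I) (cz + v2 * I) (cz + v3 * I) 2).re =
        3 * s.re - β.re + 1 / 32 + (1 / 100000 + 3 * (1 / 100000)) / 2 := by
      show (3 * s - β + ((cw : ℂ) + v1 * I) + (((cz : ℂ) + v2 * I) + 3 * (cz + v3 * I)) / 2).re = _
      simp [cz, cw]
      norm_num
    have ei : (uZ s α β (cw + v1 * I) (cz + v2 * I) (cz + v3 * I) 2).im =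
        3 * s.im - β.im + v1 + (v2 + 3 * v3) / 2 := by
      show (3 * s - β + ((cw : ℂ) + v1 * I) + (((cz : ℂ) + v2 * I) + 3 * (cz + v3 * I)) / 2).im = _
      simp
    show (_ < (uZ s α β (cw + v1 * I) (cz + v2 * I) (cz + v3 * I) 2).re ∧
      (uZ s α β (cw + v1 * I) (cz + v2 * I) (cz + v3 * I) 2).re < _) ∧
      (_ < (uZ s α β (cw + v1 * I) (cz + v2 * I) (cz + v3 * I) 2).im ∧
      (uZ s α β (cw + v1 * I) (cz + v2 * I) (cz + v3 * I) 2).im < _)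
    rw [er, ei]
    refine ⟨⟨?_, ?_⟩, ⟨?_, ?_⟩⟩ <;> linarith
  · have er : (uZ s α β (cw + v1 * I) (cz + v2 * I) (cz + v3 * I) 3).re = -α.re - 1 / 32 := by
      show (-α - ((cw : ℂ) + v1 * I) + (((cz : ℂ) + v2 * I) - (cz + v3 * I)) / 2).re = _
      simp [cz, cw]
    have ei : (uZ s α β (cw + v1 * I) (cz + v2 * I) (cz + v3 * I) 3).im =
        -α.im - v1 + (v2 - v3) / 2 := by
      show (-α - ((cw : ℂ) + v1 * I) + (((cz : ℂ) + v2 * I) - (cz + v3 * I)) / 2).im = _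
      simp
    show (_ < (uZ s α β (cw + v1 * I) (cz + v2 * I) (cz + v3 * I) 3).re ∧
      (uZ s α β (cw + v1 * I) (cz + v2 * I) (cz + v3 * I) 3).re < _) ∧
      (_ < (uZ s α β (cw + v1 * I) (cz + v2 * I) (cz + v3 * I) 3).im ∧
      (uZ s α β (cw + v1 * I) (cz + v2 * I) (cz + v3 * I) 3).im < _)
    rw [er, ei]
    refine ⟨⟨?_, ?_⟩, ⟨?_, ?_⟩⟩ <;> linarith

theorem uZ_re1 (hs : ‖s‖ = rho) (hβ : β = s ∨ β = 2 * s) (v1 v2 v3 : ℝ) :
    -(1 / 10) ≤ (uZ s α β (cw + v1 * I) (cz + v2 * I) (cz + v3 * I) 1).re ∧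
    (uZ s α β (cw + v1 * I) (cz + v2 * I) (cz + v3 * I) 1).re ≤ 0 := by
  obtain ⟨⟨b1, b2⟩, -, -⟩ := two_cases hs hβ
  have er : (uZ s α β (cw + v1 * I) (cz + v2 * I) (cz + v3 * I) 1).re = -β.re - 1 / 32 := by
    show (-β - ((cw : ℂ) + v1 * I) + (((cz : ℂ) + v3 * I) - (cz + v2 * I)) / 2).re = _
    simp [cz, cw]
  rw [er]
  norm_num at b1 b2 ⊢
  constructor <;> linarith

theorem uZ_re3 (hs : ‖s‖ = rho) (hα : α = s ∨ α = 2 * s) (v1 v2 v3 : ℝ) :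
    -(1 / 10) ≤ (uZ s α β (cw + v1 * I) (cz + v2 * I) (cz + v3 * I) 3).re ∧
    (uZ s α β (cw + v1 * I) (cz + v2 * I) (cz + v3 * I) 3).re ≤ 0 := by
  obtain ⟨⟨a1, a2⟩, -, -⟩ := two_cases hs hα
  have er : (uZ s α β (cw + v1 * I) (cz + v2 * I) (cz + v3 * I) 3).re = -α.re - 1 / 32 := by
    show (-α - ((cw : ℂ) + v1 * I) + (((cz : ℂ) + v2 * I) - (cz + v3 * I)) / 2).re = _
    simp [cz, cw]
  rw [er]
  norm_num at a1 a2 ⊢
  constructor <;> linarith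

theorem ttZ_cont {x y : ℝ} (hy : 0 < y) (hs : ‖s‖ = rho) (hα : α = s ∨ α = 2 * s)
    (hβ : β = s ∨ β = 2 * s) :
    Continuous fun v : ℝ × ℝ × ℝ =>
      TT x y (uZ s α β (cw + v.1 * I) (cz + v.2.1 * I) (cz + v.2.2 * I)) := by
  obtain ⟨Ce, hCe, hee⟩ := ee_bound (1 / 10 ^ 6) (by norm_num)
  have hc := uZ_cont s α β
  unfold TT
  refine Continuous.mul ?_ ?_
  · refine zeta_cont ?_ ?_
    · exact (continuous_const.add ((continuous_apply 1).comp hc)).add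
        ((continuous_apply 3).comp hc)
    · intro v h
      exact uZ_ne13 hs hα hβ v.1 v.2.1 v.2.2 (by linear_combination h)
  · refine continuous_tsum (u := fun q => cq y q * Ce) (fun q => ?_)
      ((cq_summable hy).mul_right Ce) (fun q v => ?_)
    · exact continuous_const.mul ((ee_cont q.1.1 q.1.2).comp_continuous hc
        (fun v => uZ_memE hs hα hβ v.1 v.2.1 v.2.2))
    · have e := norm_cq x y q
      unfold cq at e
      rw [norm_mul, e]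
      refine mul_le_mul_of_nonneg_left ?_ (cq_nonneg y q)
      have r1 := uZ_re1 (α := α) hs hβ v.1 v.2.1 v.2.2
      have r3 := uZ_re3 (β := β) hs hα v.1 v.2.1 v.2.2
      refine (hee q.1.1 q.1.2 _ q.2 (uZ_re03 hs hα _ _ _) (uZ_re12 hs hβ _ _ _)
        (uZ_re02 hs hα hβ _ _ _) r1.1 r1.2 r3.1 r3.2).trans ?_
      refine mul_le_of_le_one_right hCe.le ?_
      exact Real.rpow_le_one_of_one_le_of_nonpos (one_le_hgt q.1) (by norm_num)

end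

theorem cwz (v1 v2 v3 : ℝ) : ((cw : ℂ) + v1 * I) + (((cz : ℂ) + v2 * I) + (cz + v3 * I)) / 2 =
    ((cw + cz : ℝ) : ℂ) + ((v1 + (v2 + v3) / 2 : ℝ) : ℂ) * I := by
  push_cast
  ring

theorem cwz_norm (v1 v2 v3 : ℝ) :
    1 / 32 ≤ ‖((cw : ℂ) + v1 * I) + (((cz : ℂ) + v2 * I) + (cz + v3 * I)) / 2‖ := by
  rw [cwz]
  apply re_le_norm'
  simp [cw, cz]
  norm_num

theorem cwz_ne (v1 v2 v3 : ℝ) :
    ((cw : ℂ) + v1 * I) + (((cz : ℂ) + v2 * I) + (cz + v3 * I)) / 2 ≠ 0 := by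
  intro h
  have := cwz_norm v1 v2 v3
  rw [h, norm_zero] at this
  norm_num at this

/-- the kernel of the zero frequency part -/
noncomputable def kZ (s α β : ℂ) (x : ℝ) (v : ℝ × ℝ × ℝ) : ℂ :=
  Zker s α β x (cw + v.1 * I) (cz + v.2.1 * I) (cz + v.2.2 * I)

theorem kZ_cont (s α β : ℂ) {x : ℝ} (hx : 0 < x) : Continuous (kZ s α β x) := by
  unfold kZ Zker
  refine Continuous.mul (Continuous.mul ?_ (Continuous.mul ?_ ?_)) ?_
  · exact Continuous.div ((Gw_cont s).comp (by fun_prop)) (by fun_prop) (fun v => cwz_ne _ _ _)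
  · exact Continuous.div ((Gz_cont s).comp (by fun_prop)) (by fun_prop) (fun v => czv_ne _)
  · exact Continuous.div ((Gz_cont s).comp (by fun_prop)) (by fun_prop) (fun v => czv_ne _)
  · exact (X2_cont hx).comp (by fun_prop)

/-- sum of squares -/
def Qs (v : ℝ × ℝ × ℝ) : ℝ := v.1 ^ 2 + v.2.1 ^ 2 + v.2.2 ^ 2

theorem kZ_bound : ∃ C : ℝ, 0 < C ∧ ∀ (U x : ℝ) (s α β : ℂ) (v : ℝ × ℝ × ℝ), 1 ≤ U → U ≤ x →
    x ≤ 16 * U → ‖s‖ = rho → (α = s ∨ α = 2 * s) → (β = s ∨ β = 2 * s) →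
    ‖kZ s α β x v‖ ≤ C * U ^ (1 / 1000 : ℝ) * Real.exp (-(Qs v / 4)) := by
  obtain ⟨C, hC, h⟩ := Gw_bound rho 1 (by unfold rho; norm_num)
  obtain ⟨D, hD, hd⟩ := Gz_bound rho cz (by unfold rho; norm_num)
  have hcz := cz_pos
  refine ⟨C * 32 * (D * cz⁻¹ * (D * cz⁻¹)) * 16, by positivity,
    fun U x s α β v hU hx1 hx2 hs hα hβ => ?_⟩
  obtain ⟨v1, v2, v3⟩ := v
  unfold kZ Zker
  simp only
  rw [norm_mul, norm_mul, norm_mul, norm_div, norm_div, norm_div]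
  have h1 : ‖Gw s (((cw : ℂ) + v1 * I) + (((cz : ℂ) + v2 * I) + (cz + v3 * I)) / 2)‖ ≤
      C * Real.exp (-((v1 + (v2 + v3) / 2) ^ 2 / 2)) := by
    rw [cwz]
    exact h s hs (cw + cz) (v1 + (v2 + v3) / 2) (by unfold cw cz; rw [abs_of_pos] <;> norm_num)
  have h2 := hd s hs v2
  have h3 := hd s hs v3
  have h4 : ‖X2 x (-α - β + ((cz : ℂ) + v2 * I) + ((cz : ℂ) + v3 * I))‖ ≤
      16 * U ^ (1 / 1000 : ℝ) := by
    obtain ⟨⟨a1, a2⟩, -, -⟩ := two_cases hs hα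
    obtain ⟨⟨b1, b2⟩, -, -⟩ := two_cases hs hβ
    norm_num at a1 a2 b1 b2
    apply X2_small hU hx1 hx2
    · simp [cz]
      norm_num
      linarith
    · simp [cz]
      norm_num
      linarith
  have g1 : ‖Gw s (((cw : ℂ) + v1 * I) + (((cz : ℂ) + v2 * I) + (cz + v3 * I)) / 2)‖ /
      ‖((cw : ℂ) + v1 * I) + (((cz : ℂ) + v2 * I) + (cz + v3 * I)) / 2‖ ≤
      C * Real.exp (-((v1 + (v2 + v3) / 2) ^ 2 / 2)) * 32 := by
    rw [div_eq_mul_inv]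
    refine mul_le_mul h1 ?_ (by positivity) (by positivity)
    have := inv_anti₀ (by norm_num) (cwz_norm v1 v2 v3)
    norm_num at this ⊢
    exact this
  have g2 : ∀ t : ℝ, ‖Gz s (cz + t * I)‖ / ‖(cz : ℂ) + t * I‖ ≤
      D * Real.exp (-(t ^ 2 / 2)) * cz⁻¹ := by
    intro t
    rw [div_eq_mul_inv]
    exact mul_le_mul (hd s hs t) (inv_anti₀ hcz (cz_le_norm t)) (by positivity) (by positivity)
  have hexp : Real.exp (-((v1 + (v2 + v3) / 2) ^ 2 / 2)) * (Real.exp (-(v2 ^ 2 / 2)) *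
      Real.exp (-(v3 ^ 2 / 2))) ≤ Real.exp (-(Qs (v1, v2, v3) / 4)) := by
    rw [← Real.exp_add, ← Real.exp_add]
    apply Real.exp_le_exp.2
    simp only [Qs]
    nlinarith [sq_nonneg (v1 + (v2 + v3)), sq_nonneg (v2 - v3)]
  calc _ ≤ (C * Real.exp (-((v1 + (v2 + v3) / 2) ^ 2 / 2)) * 32) *
        ((D * Real.exp (-(v2 ^ 2 / 2)) * cz⁻¹) * (D * Real.exp (-(v3 ^ 2 / 2)) * cz⁻¹)) *
        (16 * U ^ (1 / 1000 : ℝ)) := by
        have := g2 v2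
        have := g2 v3
        gcongr
    _ = C * 32 * (D * cz⁻¹ * (D * cz⁻¹)) * 16 * U ^ (1 / 1000 : ℝ) *
        (Real.exp (-((v1 + (v2 + v3) / 2) ^ 2 / 2)) * (Real.exp (-(v2 ^ 2 / 2)) *
        Real.exp (-(v3 ^ 2 / 2)))) := by ring
    _ ≤ _ := by gcongr

/-- the Gaussian in three variables -/
noncomputable def g3 (v : ℝ × ℝ × ℝ) : ℝ := Real.exp (-(Qs v / 16))

theorem g3_int : Integrable g3 := by
  have h : Integrable (fun v : ℝ × ℝ × ℝ => gs v.1 * (gs v.2.1 * gs v.2.2)) :=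
    gs_int.mul_prod (gs_int.mul_prod gs_int)
  refine h.congr (Filter.Eventually.of_forall fun v => ?_)
  simp only [gs, g3, Qs]
  rw [← Real.exp_add, ← Real.exp_add]
  congr 1
  ring

theorem one_add_le (t : ℝ) : 1 + |t| ≤ 4 * Real.exp (t ^ 2 / 8) := by
  have h := Real.add_one_le_exp (t ^ 2 / 8)
  have h2 := sq_abs t
  nlinarith [sq_nonneg (|t| - 1)]

end TruncAux

open TruncAux SumMIAux

theorem trunc_d (κ : ℝ) (hκ : 0 < κ) (hκ1 : κ ≤ 1 / 1000) (B : ℝ) : ∃ C : ℝ, 0 < C ∧ ∀ (U x y : ℝ) (s : ℂ),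
    1 ≤ U → U ≤ x → x ≤ 16 * U → U ≤ y → y ≤ 16 * U → Good κ (U ^ κ) (B * U ^ κ) (y - x) → ‖s‖ = rho →
    ‖DF s x y - DT (HH x y) s x (U ^ κ)‖ ≤ C * U ^ (-(1 / 20) : ℝ) := by
  obtain ⟨C1, hC1, h1⟩ := res_three κ hκ hκ1 B
  obtain ⟨C2, hC2, h2⟩ := hh_hol κ hκ hκ1 B
  obtain ⟨C3, hC3, h3⟩ := tt_crude
  obtain ⟨C4, hC4, h4⟩ := kD_bound
  obtain ⟨C5, hC5, h5⟩ := growth' (κ := κ) (a := 1 + 1 / 1000 + 1 / 20) (c := 1024) hκ (by norm_num)
  set IG : ℝ := ∫ v, gs v with hIG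
  have hIG0 : 0 ≤ IG := integral_nonneg gs_nonneg
  refine ⟨(C4 * (10 ^ 24 * C1) + C4 * C3 * C5) * IG + 1, by positivity, ?_⟩
  intro U x y s hU hx1 hx2 hy1 hy2 hG hs
  have hU0 : 0 < U := by linarith
  have hx0 : 0 < x := by linarith
  have hy0 : 0 < y := by linarith
  set L : ℝ := U ^ κ with hL
  have hL1 : 1 ≤ L := Real.one_le_rpow hU hκ.le
  have hHol := h2 U x y hU hx1 hx2 hy1 hy2 hG
  have hF1c : Continuous fun v : ℝ => kD s x v * TT x y (uD s (cz + v * I)) :=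
    (kD_cont s hx0).mul (ttD_cont hy0 hs)
  have hF1b : ∀ v : ℝ, ‖kD s x v * TT x y (uD s (cz + v * I))‖ ≤
      C4 * U ^ (1 / 1000 : ℝ) * Real.exp (-(v ^ 2 / 2)) * (C3 * U) := by
    intro v
    rw [norm_mul]
    have a1 := h4 U x s v hU hx1 hx2 hs
    have a2 := (h3 U x y s hU hx1 hx2 hy1 hy2 hs).1 v
    exact mul_le_mul a1 a2 (norm_nonneg _) (by positivity)
  have hF1i : Integrable fun v : ℝ => kD s x v * TT x y (uD s (cz + v * I)) := by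
    refine (gs_int.const_mul (C4 * U ^ (1 / 1000 : ℝ) * (C3 * U))).mono'
      hF1c.aestronglyMeasurable (Filter.Eventually.of_forall fun v => ?_)
    refine (hF1b v).trans ?_
    have : Real.exp (-(v ^ 2 / 2)) ≤ gs v := by
      unfold gs
      apply Real.exp_le_exp.2
      nlinarith [sq_nonneg v]
    calc C4 * U ^ (1 / 1000 : ℝ) * Real.exp (-(v ^ 2 / 2)) * (C3 * U)
        ≤ C4 * U ^ (1 / 1000 : ℝ) * gs v * (C3 * U) := by gcongr
      _ = _ := by ring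
  have hmem : ∀ v ∈ Set.Icc (-(L / 2)) (L / 2), uD s (cz + v * I) ∈ Bx L :=
    fun v hv => uD_box hs hL1 (abs_le.2 hv)
  have hF2c : ContinuousOn (fun v : ℝ => kD s x v * RR (HH x y) (uD s (cz + v * I)))
      (Set.Icc (-(L / 2)) (L / 2)) := by
    refine (kD_cont s hx0).continuousOn.mul ?_
    unfold RR
    refine ContinuousOn.div ?_ (Pi4_cont.comp (uD_cont s)).continuousOn ?_
    · exact hHol.cont.comp (uD_cont s).continuousOn hmem
    · intro v _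
      exact norm_pos_iff.1 (lt_of_lt_of_le (by positivity) (uD_low hs v))
  have hF2i : IntegrableOn (fun v : ℝ => kD s x v * RR (HH x y) (uD s (cz + v * I)))
      (Set.Ioc (-(L / 2)) (L / 2)) :=
    (hF2c.integrableOn_compact isCompact_Icc).mono_set Set.Ioc_subset_Icc_self
  have key := trunc_abs (μ := volume) (S := Set.Ioc (-(L / 2)) (L / 2)) measurableSet_Ioc hF1i hF2i
    gs_int gs_nonneg (a := C4 * (10 ^ 24 * C1) * U ^ (-(1 / 20) : ℝ))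
    (b := C4 * C3 * C5 * U ^ (-(1 / 20) : ℝ)) (by positivity) (by positivity) ?_ ?_
  · have e1 : DF s x y - DT (HH x y) s x L = (2 * Real.pi : ℂ)⁻¹ *
        ((∫ v : ℝ, kD s x v * TT x y (uD s (cz + v * I))) -
          ∫ v in Set.Ioc (-(L / 2)) (L / 2), kD s x v * RR (HH x y) (uD s (cz + v * I))) := by
      unfold DF DT
      rw [intervalIntegral.integral_of_le (by linarith), mul_sub]
      rfl
    rw [e1, norm_mul]
    have hpi : ‖(2 * Real.pi : ℂ)⁻¹‖ ≤ 1 := by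
      rw [norm_inv, norm_mul, Complex.norm_real, Real.norm_of_nonneg Real.pi_pos.le]
      apply inv_le_one_of_one_le₀
      simp
      linarith [Real.pi_gt_three]
    calc _ ≤ 1 * ((C4 * (10 ^ 24 * C1) * U ^ (-(1 / 20) : ℝ) + C4 * C3 * C5 * U ^ (-(1 / 20) : ℝ)) * IG) :=
          mul_le_mul hpi key (norm_nonneg _) one_pos.le
      _ = (C4 * (10 ^ 24 * C1) + C4 * C3 * C5) * IG * U ^ (-(1 / 20) : ℝ) := by ring
      _ ≤ _ := by
          have : 0 ≤ U ^ (-(1 / 20) : ℝ) := by positivity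
          nlinarith
  · intro v hv
    have hv' : v ∈ Set.Icc (-(L / 2)) (L / 2) := Set.Ioc_subset_Icc_self hv
    have h13 : uD s (cz + v * I) 1 + uD s (cz + v * I) 3 ≠ 0 := by
      intro h
      have := (uD_mem hs v).2.2.2
      rw [h] at this
      simp at this
    have a1 := rr_close (uD_low hs v)
      (h1 U x y _ hU hx1 hx2 hy1 hy2 hG (hmem v hv') (uD_memE hs v) h13)
    have a2 := h4 U x s v hU hx1 hx2 hs
    rw [← mul_sub, norm_mul]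
    have a3 : Real.exp (-(v ^ 2 / 2)) ≤ gs v := by
      unfold gs
      apply Real.exp_le_exp.2
      nlinarith [sq_nonneg v]
    have a4 : U ^ (1 / 1000 : ℝ) * U ^ (-(1 / 10) : ℝ) ≤ U ^ (-(1 / 20) : ℝ) := by
      rw [← Real.rpow_add hU0]
      exact Real.rpow_le_rpow_of_exponent_le hU (by norm_num)
    have hg := gs_nonneg v
    calc _ ≤ (C4 * U ^ (1 / 1000 : ℝ) * Real.exp (-(v ^ 2 / 2))) *
          (10 ^ 24 * (C1 * U ^ (-(1 / 10) : ℝ))) :=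
          mul_le_mul a2 a1 (norm_nonneg _) (by positivity)
      _ ≤ (C4 * U ^ (1 / 1000 : ℝ) * gs v) * (10 ^ 24 * (C1 * U ^ (-(1 / 10) : ℝ))) := by gcongr
      _ = C4 * (10 ^ 24 * C1) * (U ^ (1 / 1000 : ℝ) * U ^ (-(1 / 10) : ℝ)) * gs v := by ring
      _ ≤ _ := by gcongr
  · intro v hv
    refine (hF1b v).trans ?_
    have hv2 : L ^ 2 / 4 ≤ v ^ 2 := by
      simp only [Set.mem_Ioc, not_and_or, not_lt, not_le] at hv
      rcases hv with hv | hv <;> nlinarith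
    have a1 : Real.exp (-(v ^ 2 / 2)) ≤ Real.exp (-(L ^ 2 / 1024)) * gs v := by
      unfold gs
      rw [← Real.exp_add]
      apply Real.exp_le_exp.2
      nlinarith [sq_nonneg L]
    have a2 : U ^ (1 / 1000 : ℝ) * U * Real.exp (-(L ^ 2 / 1024)) ≤
        C5 * U ^ (-(1 / 20) : ℝ) := by
      have e : U ^ (1 / 1000 : ℝ) * U = U ^ (-(1 / 20) : ℝ) * U ^ (1 + 1 / 1000 + 1 / 20 : ℝ) := by
        rw [← Real.rpow_add hU0]
        nth_rewrite 2 [← Real.rpow_one U]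
        rw [← Real.rpow_add hU0]
        congr 1
        ring
      rw [e]
      have := h5 U hU
      calc U ^ (-(1 / 20) : ℝ) * U ^ (1 + 1 / 1000 + 1 / 20 : ℝ) * Real.exp (-(L ^ 2 / 1024))
          = U ^ (-(1 / 20) : ℝ) * (U ^ (1 + 1 / 1000 + 1 / 20 : ℝ) *
            Real.exp (-(L ^ 2 / 1024))) := by ring
        _ ≤ U ^ (-(1 / 20) : ℝ) * C5 := by gcongr
        _ = _ := by ring
    have hg := gs_nonneg v
    calc C4 * U ^ (1 / 1000 : ℝ) * Real.exp (-(v ^ 2 / 2)) * (C3 * U)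
        ≤ C4 * U ^ (1 / 1000 : ℝ) * (Real.exp (-(L ^ 2 / 1024)) * gs v) * (C3 * U) := by gcongr
      _ = C4 * C3 * (U ^ (1 / 1000 : ℝ) * U * Real.exp (-(L ^ 2 / 1024))) * gs v := by ring
      _ ≤ C4 * C3 * (C5 * U ^ (-(1 / 20) : ℝ)) * gs v := by gcongr
      _ = _ := by ring

theorem trunc_z (κ : ℝ) (hκ : 0 < κ) (hκ1 : κ ≤ 1 / 1000) (B : ℝ) : ∃ C : ℝ, 0 < C ∧ ∀ (U x y : ℝ) (s α β : ℂ),
    1 ≤ U → U ≤ x → x ≤ 16 * U → U ≤ y → y ≤ 16 * U → Good κ (U ^ κ) (B * U ^ κ) (y - x) → ‖s‖ = rho →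
    (α = s ∨ α = 2 * s) → (β = s ∨ β = 2 * s) →
    ‖ZG s α β x y - ZT (HH x y) s α β x (U ^ κ)‖ ≤ C * U ^ (-(1 / 20) : ℝ) := by
  obtain ⟨C1, hC1, h1⟩ := res_three κ hκ hκ1 B
  obtain ⟨C2, hC2, h2⟩ := hh_hol κ hκ hκ1 B
  obtain ⟨C3, hC3, h3⟩ := tt_crude
  obtain ⟨C4, hC4, h4⟩ := kZ_bound
  obtain ⟨C5, hC5, h5⟩ := growth' (κ := κ) (a := 1 + 1 / 1000 + 1 / 20) (c := 1024) hκ (by norm_num)
  set IG : ℝ := ∫ v, g3 v with hIG
  have hg0 : ∀ v, 0 ≤ g3 v := fun v => (Real.exp_pos _).le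
  have hIG0 : 0 ≤ IG := integral_nonneg hg0
  refine ⟨(C4 * (10 ^ 24 * C1) + C4 * (C3 * 4) * C5) * IG + 1, by positivity, ?_⟩
  intro U x y s α β hU hx1 hx2 hy1 hy2 hG hs hα hβ
  have hU0 : 0 < U := by linarith
  have hx0 : 0 < x := by linarith
  have hy0 : 0 < y := by linarith
  set L : ℝ := U ^ κ with hL
  have hL1 : 1 ≤ L := Real.one_le_rpow hU hκ.le
  have hHol := h2 U x y hU hx1 hx2 hy1 hy2 hG
  set uu' : ℝ × ℝ × ℝ → Fin 4 → ℂ := fun v =>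
    uZ s α β (cw + v.1 * I) (cz + v.2.1 * I) (cz + v.2.2 * I) with huu
  have huc : Continuous uu' := uZ_cont s α β
  have hF1c : Continuous fun v => kZ s α β x v * TT x y (uu' v) :=
    (kZ_cont s α β hx0).mul (ttZ_cont hy0 hs hα hβ)
  have hQ0 : ∀ v, 0 ≤ Qs v := fun v => by unfold Qs; positivity
  have hF1b : ∀ v, ‖kZ s α β x v * TT x y (uu' v)‖ ≤
      C4 * U ^ (1 / 1000 : ℝ) * (C3 * 4 * U) * Real.exp (-(Qs v / 8)) := by
    intro v
    rw [norm_mul]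
    have a1 := h4 U x s α β v hU hx1 hx2 hs hα hβ
    have a2 := (h3 U x y s hU hx1 hx2 hy1 hy2 hs).2 α β hα hβ v.1 v.2.1 v.2.2
    have a3 := one_add_le v.1
    have a4 : Real.exp (v.1 ^ 2 / 8) * Real.exp (-(Qs v / 4)) ≤ Real.exp (-(Qs v / 8)) := by
      rw [← Real.exp_add]
      apply Real.exp_le_exp.2
      have : v.1 ^ 2 ≤ Qs v := by unfold Qs; nlinarith [sq_nonneg v.2.1, sq_nonneg v.2.2]
      linarith
    calc _ ≤ (C4 * U ^ (1 / 1000 : ℝ) * Real.exp (-(Qs v / 4))) * (C3 * U * (1 + |v.1|)) :=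
          mul_le_mul a1 a2 (norm_nonneg _) (by positivity)
      _ ≤ (C4 * U ^ (1 / 1000 : ℝ) * Real.exp (-(Qs v / 4))) *
          (C3 * U * (4 * Real.exp (v.1 ^ 2 / 8))) := by gcongr
      _ = C4 * U ^ (1 / 1000 : ℝ) * (C3 * 4 * U) *
          (Real.exp (v.1 ^ 2 / 8) * Real.exp (-(Qs v / 4))) := by ring
      _ ≤ _ := by gcongr
  have hF1i : Integrable fun v => kZ s α β x v * TT x y (uu' v) := by
    refine (g3_int.const_mul (C4 * U ^ (1 / 1000 : ℝ) * (C3 * 4 * U))).mono'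
      hF1c.aestronglyMeasurable (Filter.Eventually.of_forall fun v => ?_)
    refine (hF1b v).trans ?_
    have : Real.exp (-(Qs v / 8)) ≤ g3 v := by
      unfold g3
      apply Real.exp_le_exp.2
      have := hQ0 v
      linarith
    gcongr
  set J : Set ℝ := Set.Icc (-(L / 8)) (L / 8) with hJ
  set J' : Set ℝ := Set.Ioc (-(L / 8)) (L / 8) with hJ'
  have hJJ : J' ⊆ J := Set.Ioc_subset_Icc_self
  have hmem : ∀ v ∈ J ×ˢ (J ×ˢ J), uu' v ∈ Bx L := by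
    rintro ⟨v1, v2, v3⟩ ⟨m1, m2, m3⟩
    exact uZ_box hs hα hβ hL1 (abs_le.2 m1) (abs_le.2 m2) (abs_le.2 m3)
  have hF2c : ContinuousOn (fun v => kZ s α β x v * RR (HH x y) (uu' v)) (J ×ˢ (J ×ˢ J)) := by
    refine (kZ_cont s α β hx0).continuousOn.mul ?_
    unfold RR
    refine ContinuousOn.div ?_ (Pi4_cont.comp huc).continuousOn ?_
    · exact hHol.cont.comp huc.continuousOn hmem
    · intro v _
      exact norm_pos_iff.1 (lt_of_lt_of_le (by positivity) (uZ_low hs hα hβ v.1 v.2.1 v.2.2))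
  have hcomp : IsCompact (J ×ˢ (J ×ˢ J)) :=
    isCompact_Icc.prod (isCompact_Icc.prod isCompact_Icc)
  have hsub : J' ×ˢ (J' ×ˢ J') ⊆ J ×ˢ (J ×ˢ J) := Set.prod_mono hJJ (Set.prod_mono hJJ hJJ)
  have hF2i : IntegrableOn (fun v => kZ s α β x v * RR (HH x y) (uu' v)) (J' ×ˢ (J' ×ˢ J')) :=
    (hF2c.integrableOn_compact hcomp).mono_set hsub
  have hmS : MeasurableSet (J' ×ˢ (J' ×ˢ J')) :=
    measurableSet_Ioc.prod (measurableSet_Ioc.prod measurableSet_Ioc)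
  have key := trunc_abs (μ := volume) (S := J' ×ˢ (J' ×ˢ J')) hmS hF1i hF2i
    g3_int hg0 (a := C4 * (10 ^ 24 * C1) * U ^ (-(1 / 20) : ℝ))
    (b := C4 * (C3 * 4) * C5 * U ^ (-(1 / 20) : ℝ)) (by positivity) (by positivity) ?_ ?_
  · have eI : (∫ v1 in (-(L / 8))..(L / 8), ∫ v2 in (-(L / 8))..(L / 8),
        ∫ v3 in (-(L / 8))..(L / 8), Zker s α β x (cw + v1 * I) (cz + v2 * I) (cz + v3 * I) *
        RR (HH x y) (uZ s α β (cw + v1 * I) (cz + v2 * I) (cz + v3 * I))) =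
        ∫ v in J' ×ˢ (J' ×ˢ J'), kZ s α β x v * RR (HH x y) (uu' v) := by
      have hle : -(L / 8) ≤ L / 8 := by linarith
      have hF2i' : IntegrableOn (fun v => kZ s α β x v * RR (HH x y) (uu' v))
          (J' ×ˢ (J' ×ˢ J')) (volume.prod volume) := hF2i
      have e0 := setIntegral_prod (μ := (volume : Measure ℝ)) (ν := (volume : Measure (ℝ × ℝ)))
        (fun v => kZ s α β x v * RR (HH x y) (uu' v)) hF2i'
      have e0' : ∫ v in J' ×ˢ (J' ×ˢ J'), kZ s α β x v * RR (HH x y) (uu' v) =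
        ∫ v1 in J', ∫ p in J' ×ˢ J', kZ s α β x (v1, p) * RR (HH x y) (uu' (v1, p)) := e0
      rw [e0', intervalIntegral.integral_of_le hle]
      refine setIntegral_congr_fun measurableSet_Ioc (fun v1 hv1 => ?_)
      rw [intervalIntegral.integral_of_le hle]
      have hc2 : ContinuousOn (fun p : ℝ × ℝ => kZ s α β x (v1, p) * RR (HH x y) (uu' (v1, p)))
          (J ×ˢ J) := by
        refine hF2c.comp (f := fun p : ℝ × ℝ => (v1, p)) (by fun_prop) ?_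
        intro p hp
        exact ⟨hJJ hv1, hp⟩
      have hi2 : IntegrableOn (fun p : ℝ × ℝ => kZ s α β x (v1, p) * RR (HH x y) (uu' (v1, p)))
          (J' ×ˢ J') (volume.prod volume) :=
        (hc2.integrableOn_compact (isCompact_Icc.prod isCompact_Icc)).mono_set
          (Set.prod_mono hJJ hJJ)
      have e2 := setIntegral_prod (μ := (volume : Measure ℝ)) (ν := (volume : Measure ℝ))
        (fun p : ℝ × ℝ => kZ s α β x (v1, p) * RR (HH x y) (uu' (v1, p))) hi2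
      have e2' : ∫ p in J' ×ˢ J', kZ s α β x (v1, p) * RR (HH x y) (uu' (v1, p)) =
        ∫ v2 in J', ∫ v3 in J', kZ s α β x (v1, v2, v3) * RR (HH x y) (uu' (v1, v2, v3)) := e2
      rw [e2']
      refine setIntegral_congr_fun measurableSet_Ioc (fun v2 _ => ?_)
      rw [intervalIntegral.integral_of_le hle]
      rfl
    have e1 : ZG s α β x y - ZT (HH x y) s α β x L = ((2 * Real.pi : ℂ) ^ 3)⁻¹ *
        ((∫ v, kZ s α β x v * TT x y (uu' v)) -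
          ∫ v in J' ×ˢ (J' ×ˢ J'), kZ s α β x v * RR (HH x y) (uu' v)) := by
      unfold ZG ZT
      rw [eI, mul_sub]
      rfl
    rw [e1, norm_mul]
    have hpi : ‖((2 * Real.pi : ℂ) ^ 3)⁻¹‖ ≤ 1 := by
      rw [norm_inv, norm_pow, norm_mul, Complex.norm_real, Real.norm_of_nonneg Real.pi_pos.le]
      apply inv_le_one_of_one_le₀
      apply one_le_pow₀
      simp
      linarith [Real.pi_gt_three]
    calc _ ≤ 1 * ((C4 * (10 ^ 24 * C1) * U ^ (-(1 / 20) : ℝ) +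
          C4 * (C3 * 4) * C5 * U ^ (-(1 / 20) : ℝ)) * IG) :=
          mul_le_mul hpi key (norm_nonneg _) one_pos.le
      _ = (C4 * (10 ^ 24 * C1) + C4 * (C3 * 4) * C5) * IG * U ^ (-(1 / 20) : ℝ) := by ring
      _ ≤ _ := by
          have : 0 ≤ U ^ (-(1 / 20) : ℝ) := by positivity
          nlinarith
  · intro v hv
    have hv' := hsub hv
    have a1 := rr_close (uZ_low hs hα hβ v.1 v.2.1 v.2.2)
      (h1 U x y _ hU hx1 hx2 hy1 hy2 hG (hmem v hv') (uZ_memE hs hα hβ v.1 v.2.1 v.2.2)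
        (uZ_ne13 hs hα hβ v.1 v.2.1 v.2.2))
    have a2 := h4 U x s α β v hU hx1 hx2 hs hα hβ
    rw [← mul_sub, norm_mul]
    have a3 : Real.exp (-(Qs v / 4)) ≤ g3 v := by
      unfold g3
      apply Real.exp_le_exp.2
      have := hQ0 v
      linarith
    have a4 : U ^ (1 / 1000 : ℝ) * U ^ (-(1 / 10) : ℝ) ≤ U ^ (-(1 / 20) : ℝ) := by
      rw [← Real.rpow_add hU0]
      exact Real.rpow_le_rpow_of_exponent_le hU (by norm_num)
    have hg := hg0 v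
    calc _ ≤ (C4 * U ^ (1 / 1000 : ℝ) * Real.exp (-(Qs v / 4))) *
          (10 ^ 24 * (C1 * U ^ (-(1 / 10) : ℝ))) :=
          mul_le_mul a2 a1 (norm_nonneg _) (by positivity)
      _ ≤ (C4 * U ^ (1 / 1000 : ℝ) * g3 v) * (10 ^ 24 * (C1 * U ^ (-(1 / 10) : ℝ))) := by gcongr
      _ = C4 * (10 ^ 24 * C1) * (U ^ (1 / 1000 : ℝ) * U ^ (-(1 / 10) : ℝ)) * g3 v := by ring
      _ ≤ _ := by gcongr
  · intro v hv
    refine (hF1b v).trans ?_
    have hv2 : L ^ 2 / 64 ≤ Qs v := by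
      have hor : v.1 ∉ J' ∨ v.2.1 ∉ J' ∨ v.2.2 ∉ J' := by
        by_contra hcon
        push Not at hcon
        exact hv ⟨hcon.1, hcon.2.1, hcon.2.2⟩
      have hone : ∀ t : ℝ, t ∉ J' → L ^ 2 / 64 ≤ t ^ 2 := by
        intro t ht
        simp only [hJ', Set.mem_Ioc, not_and_or, not_lt, not_le] at ht
        rcases ht with ht | ht <;> nlinarith
      unfold Qs
      rcases hor with h | h | h
      · have := hone _ h
        nlinarith [sq_nonneg v.2.1, sq_nonneg v.2.2]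
      · have := hone _ h
        nlinarith [sq_nonneg v.1, sq_nonneg v.2.2]
      · have := hone _ h
        nlinarith [sq_nonneg v.1, sq_nonneg v.2.1]
    have a1 : Real.exp (-(Qs v / 8)) ≤ Real.exp (-(L ^ 2 / 1024)) * g3 v := by
      unfold g3
      rw [← Real.exp_add]
      apply Real.exp_le_exp.2
      linarith
    have a2 : U ^ (1 / 1000 : ℝ) * U * Real.exp (-(L ^ 2 / 1024)) ≤
        C5 * U ^ (-(1 / 20) : ℝ) := by
      have e : U ^ (1 / 1000 : ℝ) * U = U ^ (-(1 / 20) : ℝ) * U ^ (1 + 1 / 1000 + 1 / 20 : ℝ) := by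
        rw [← Real.rpow_add hU0]
        nth_rewrite 2 [← Real.rpow_one U]
        rw [← Real.rpow_add hU0]
        congr 1
        ring
      rw [e]
      have := h5 U hU
      calc U ^ (-(1 / 20) : ℝ) * U ^ (1 + 1 / 1000 + 1 / 20 : ℝ) * Real.exp (-(L ^ 2 / 1024))
          = U ^ (-(1 / 20) : ℝ) * (U ^ (1 + 1 / 1000 + 1 / 20 : ℝ) *
            Real.exp (-(L ^ 2 / 1024))) := by ring
        _ ≤ U ^ (-(1 / 20) : ℝ) * C5 := by gcongr
        _ = _ := by ring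
    have hg := hg0 v
    calc C4 * U ^ (1 / 1000 : ℝ) * (C3 * 4 * U) * Real.exp (-(Qs v / 8))
        ≤ C4 * U ^ (1 / 1000 : ℝ) * (C3 * 4 * U) * (Real.exp (-(L ^ 2 / 1024)) * g3 v) := by
          gcongr
      _ = C4 * (C3 * 4) * (U ^ (1 / 1000 : ℝ) * U * Real.exp (-(L ^ 2 / 1024))) * g3 v := by ring
      _ ≤ C4 * (C3 * 4) * (C5 * U ^ (-(1 / 20) : ℝ)) * g3 v := by gcongr
      _ = _ := by ring

end Pool.Agent.P07318f
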