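import Pool.Agent.Lib.P07318f.Twist4
import Pool.Agent.Lib.P07318f.MMb

/-!
# The twisted fourth moment of zeta

(1) For `x > 0` the function `s ↦ X2 x (3s) FF s x` is holomorphic for `‖s‖ < 1/4` (`1/2 + s ± ix`, `1/2 + 2s ± ix` are `≠ 1`), its value at `0` is
`ζ(1/2+ix)² ζ(1/2-ix)² = ‖ζ(1/2+ix)‖⁴` (`zeta_conj`), so `av (fun s => X2 x (3s) FF s x) = ‖ζ(1/2+ix)‖⁴` (mean value property, `circleMap`).
(2) Fubini for `∫ Ω(x) (av ..) ex dx` and for `∫ Ω(x) MM x a b dx` (jointly continuous in `(θ, x)`, `x` in the compact support `[U/2, 8U]`: `mi_cont`).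
(3) For each `s = circleMap 0 rho θ`: `Ω_s(x) = Ω(x) X2 x (3s) / (C₁ U^(3ρ))` is admissible for the same `Δ` (Leibniz: `|((x/2π)^(3s))^(j)| ≤ C x^(3ρ-j)` on
`x ≥ U/2`, `x^(-1) ≤ 2 Δ⁻¹`; `C₁` large enough), so `twist4` gives
`‖∫ Ω X2(3s) FF ex - ∫ Ω (X2 x (3s) MI s x a b + X2 x (-3s) MI (-s) x a b)‖ ≤ C C₁ U^(3ρ) U^(1-1/20)` (`X2 x (3s) X2 x (-6s) = X2 x (-3s)`).
-/

set_option autoImplicit false

namespace Pool.Agent.P07318f

open MeasureTheory Complex Pool.Agent.P07318s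

namespace TwAvgAux

open Twist4Aux

lemma norm_cm (θ : ℝ) : ‖circleMap 0 rho θ‖ = rho := by
  rw [norm_circleMap_zero, abs_of_pos rho_pos]

lemma av_eq (f : ℂ → ℂ) : av f = Real.circleAverage f 0 rho := by
  unfold av Real.circleAverage
  rw [Complex.real_smul]
  push_cast
  rfl

lemma zeta_diff {f : ℂ → ℂ} (hf : Differentiable ℂ f) {s : ℂ} (h : (f s).re < 1) :
    DifferentiableAt ℂ (fun s => riemannZeta (f s)) s := by
  refine DifferentiableAt.comp (g := riemannZeta) s (differentiableAt_riemannZeta ?_) (hf s)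
  intro h1
  rw [h1] at h
  simp at h

lemma mean_FF {x : ℝ} (hx : 0 < x) :
    av (fun s => X2 x (3 * s) * FF s x) = ((‖riemannZeta (1 / 2 + x * I)‖ ^ 4 : ℝ) : ℂ) := by
  have hr := rho_le
  have hd : ∀ s : ℂ, ‖s‖ ≤ rho → DifferentiableAt ℂ (fun s => X2 x (3 * s) * FF s x) s := by
    intro s hs
    have h0 := abs_le.1 ((Complex.abs_re_le_norm s).trans hs)
    refine DifferentiableAt.fun_mul ?_ ?_
    · have hne : (((x / (2 * Real.pi) : ℝ)) : ℂ) ≠ 0 := by
        have h1 : 0 < x / (2 * Real.pi) := by positivity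
        exact_mod_cast h1.ne'
      unfold X2
      exact DifferentiableAt.const_cpow (by fun_prop) (Or.inl hne)
    · unfold FF
      refine DifferentiableAt.fun_mul (DifferentiableAt.fun_mul ?_ ?_) (DifferentiableAt.fun_mul ?_ ?_)
      all_goals
        refine zeta_diff (by fun_prop) ?_
        simp
        linarith
  rw [av_eq, circleAverage_of_differentiable_on_off_countable (s := ∅) Set.countable_empty]
  · have e0 : X2 x (3 * 0) = 1 := by
      unfold X2
      rw [mul_zero, Complex.cpow_zero]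
    have e1 : riemannZeta (1 / 2 - x * I) = (starRingEnd ℂ) (riemannZeta (1 / 2 + x * I)) := by
      rw [← riemannZeta_conj]
      congr 1
      simp [Complex.ext_iff]
    have e2 : FF 0 x = (riemannZeta (1 / 2 + x * I) * (starRingEnd ℂ) (riemannZeta (1 / 2 + x * I))) ^ 2 := by
      unfold FF
      rw [mul_zero, add_zero, e1]
      ring
    rw [e0, e2, one_mul, Complex.mul_conj, Complex.normSq_eq_norm_sq]
    push_cast
    ring
  · intro s hs
    rw [mem_closedBall_zero_iff, abs_of_pos rho_pos] at hs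
    exact (hd s hs).continuousAt.continuousWithinAt
  · intro s hs
    have hs1 := hs.1
    rw [mem_ball_zero_iff, abs_of_pos rho_pos] at hs1
    exact hd s hs1.le

lemma FF_joint : Continuous fun p : ℝ × ℝ => FF (circleMap 0 rho p.1) p.2 := by
  have hr := rho_le
  have hc : Continuous fun p : ℝ × ℝ => circleMap 0 rho p.1 :=
    (continuous_circleMap 0 rho).comp continuous_fst
  have key : ∀ f : ℝ × ℝ → ℂ, Continuous f → (∀ p, (f p).re < 1) →
      Continuous fun p => riemannZeta (f p) := by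
    intro f hf h1
    refine continuous_iff_continuousAt.2 fun p => ?_
    refine ContinuousAt.comp (g := riemannZeta) ?_ hf.continuousAt
    refine (differentiableAt_riemannZeta ?_).continuousAt
    intro h
    have := h1 p
    rw [h] at this
    simp at this
  have hre : ∀ θ : ℝ, |(circleMap 0 rho θ).re| ≤ rho := fun θ => by
    have := Complex.abs_re_le_norm (circleMap 0 rho θ)
    rwa [norm_cm] at this
  unfold FF
  refine ((key _ (by fun_prop) fun p => ?_).mul (key _ (by fun_prop) fun p => ?_)).mul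
    ((key _ (by fun_prop) fun p => ?_).mul (key _ (by fun_prop) fun p => ?_))
  all_goals
    have h0 := abs_le.1 (hre p.1)
    simp only [add_re, sub_re, mul_re, ofReal_re, ofReal_im, I_re, I_im, one_div]
    norm_num
    linarith

/-- integrand of the two sides -/
noncomputable def P1 (Ω : ℝ → ℂ) (U : ℝ) (a b : ℕ+) (θ x : ℝ) : ℂ :=
  Ω x * (XX U x (3 * circleMap 0 rho θ) * FF (circleMap 0 rho θ) x * ex x (a, b))

noncomputable def P2 (Ω : ℝ → ℂ) (U : ℝ) (a b : ℕ+) (θ x : ℝ) : ℂ :=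
  Ω x * (XX U x (3 * circleMap 0 rho θ) * MI (circleMap 0 rho θ) x a b +
    XX U x (-3 * circleMap 0 rho θ) * MI (-circleMap 0 rho θ) x a b)

lemma P1_cont {U Δ : ℝ} (hU : 1 ≤ U) {Ω : ℝ → ℂ} (hΩ : Adm U Δ Ω) (a b : ℕ+) :
    Continuous fun p : ℝ × ℝ => P1 Ω U a b p.1 p.2 := by
  have hc : Continuous fun p : ℝ × ℝ => circleMap 0 rho p.1 :=
    (continuous_circleMap 0 rho).comp continuous_fst
  unfold P1
  refine ((om_cont hΩ).comp continuous_snd).mul (((XX_cont hU continuous_snd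
    (continuous_const.mul hc)).mul FF_joint).mul ((ex_cont (a, b)).comp continuous_snd))

lemma P2_cont {U Δ : ℝ} (hU : 1 ≤ U) {Ω : ℝ → ℂ} (hΩ : Adm U Δ Ω) (a b : ℕ+)
    (hab : Nat.Coprime (a : ℕ) (b : ℕ)) :
    ContinuousOn (fun p : ℝ × ℝ => P2 Ω U a b p.1 p.2) (Set.univ ×ˢ Set.Ioi 0) := by
  have hc : Continuous fun p : ℝ × ℝ => circleMap 0 rho p.1 :=
    (continuous_circleMap 0 rho).comp continuous_fst
  have h1 : ContinuousOn (fun p : ℝ × ℝ => MI (circleMap 0 rho p.1) p.2 a b)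
      (Set.univ ×ˢ Set.Ioi 0) := by
    refine (mi_cont a b hab).comp (f := fun p : ℝ × ℝ => (circleMap 0 rho p.1, p.2))
      (hc.prodMk continuous_snd).continuousOn ?_
    intro p hp
    refine ⟨?_, hp.2⟩
    rw [mem_sphere_zero_iff_norm]
    exact norm_cm p.1
  have h2 : ContinuousOn (fun p : ℝ × ℝ => MI (-circleMap 0 rho p.1) p.2 a b)
      (Set.univ ×ˢ Set.Ioi 0) := by
    refine (mi_cont a b hab).comp (f := fun p : ℝ × ℝ => (-circleMap 0 rho p.1, p.2))
      (hc.neg.prodMk continuous_snd).continuousOn ?_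
    intro p hp
    refine ⟨?_, hp.2⟩
    rw [mem_sphere_zero_iff_norm, norm_neg]
    exact norm_cm p.1
  unfold P2
  have x1 : Continuous fun p : ℝ × ℝ => XX U p.2 (3 * circleMap 0 rho p.1) :=
    XX_cont hU continuous_snd (continuous_const.mul hc)
  have x2 : Continuous fun p : ℝ × ℝ => XX U p.2 (-3 * circleMap 0 rho p.1) :=
    XX_cont hU continuous_snd (continuous_const.mul hc)
  exact ((om_cont hΩ).comp continuous_snd).continuousOn.mul
    ((x1.continuousOn.mul h1).add (x2.continuousOn.mul h2))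

lemma X2_add {x : ℝ} (hx : 0 < x) (c d : ℂ) : X2 x (c + d) = X2 x c * X2 x d := by
  unfold X2
  refine Complex.cpow_add _ _ ?_
  have h1 : 0 < x / (2 * Real.pi) := by positivity
  exact_mod_cast h1.ne'

/-- bound for a fixed `θ` -/
lemma fixed : ∃ C : ℝ, 0 < C ∧ ∀ (U Δ : ℝ) (Ω : ℝ → ℂ) (a b : ℕ+) (θ : ℝ), 1 ≤ U →
    U ^ (1 - 1 / 1000 : ℝ) ≤ Δ → Δ ≤ U → Adm U Δ Ω → Nat.Coprime (a : ℕ) (b : ℕ) →
    ((a : ℕ) : ℝ) ≤ U ^ (1 / 1000 : ℝ) → ((b : ℕ) : ℝ) ≤ U ^ (1 / 1000 : ℝ) →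
    ‖∫ x in Set.Icc (U / 2) (8 * U), (P1 Ω U a b θ x - P2 Ω U a b θ x)‖ ≤
      C * U ^ (1 - 1 / 25 : ℝ) := by
  obtain ⟨C, hC, h⟩ := twist4
  have hC3 := C3_pos
  refine ⟨C3 * C, by positivity, ?_⟩
  intro U Δ Ω a b θ hU hΔ hΔU hΩ hab ha hb
  have hU0 : 0 < U := by linarith
  have hΔ0 : 0 < Δ := lt_of_lt_of_le (by positivity) hΔ
  set s : ℂ := circleMap 0 rho θ with hs
  have hsn : ‖s‖ = rho := norm_cm θ
  have hc3 : ‖3 * s‖ ≤ 6 * rho := by
    rw [norm_mul, hsn]
    have := rho_pos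
    norm_num
    linarith
  have hΩ2 := adm_Om2 hU hΔ0 hΔU hΩ hc3
  have hB0 : 0 < C3 * U ^ (6 * rho) := by positivity
  have eOm : ∀ x, Ω x * X2 x (3 * s) = ((C3 * U ^ (6 * rho) : ℝ) : ℂ) * Om2 U (3 * s) Ω x := by
    intro x
    unfold Om2
    have : ((C3 * U ^ (6 * rho) : ℝ) : ℂ) ≠ 0 := by exact_mod_cast hB0.ne'
    field_simp
  have hfix : Continuous fun x : ℝ => ((θ, x) : ℝ × ℝ) := by fun_prop
  have hsub : Set.Icc (U / 2) (8 * U) ⊆ Set.Ioi 0 := fun x hx => lt_of_lt_of_le (by positivity) hx.1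
  have i1 : IntegrableOn (fun x => P1 Ω U a b θ x) (Set.Icc (U / 2) (8 * U)) :=
    ((P1_cont hU hΩ a b).comp hfix).continuousOn.integrableOn_compact isCompact_Icc
  have i2 : IntegrableOn (fun x => P2 Ω U a b θ x) (Set.Icc (U / 2) (8 * U)) := by
    have h1 : ContinuousOn (fun x => P2 Ω U a b θ x) (Set.Icc (U / 2) (8 * U)) := by
      refine (P2_cont hU hΩ a b hab).comp (f := fun x : ℝ => ((θ, x) : ℝ × ℝ))
        hfix.continuousOn ?_
      intro x hx
      exact ⟨trivial, hsub hx⟩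
    exact h1.integrableOn_compact isCompact_Icc
  have hout : ∀ x, x ∉ Set.Icc (U / 2) (8 * U) → Ω x = 0 := by
    intro x hx
    by_cases h1 : U / 2 ≤ x
    · refine hΩ.2.2.1 x ?_
      by_contra h2
      exact hx ⟨h1, by linarith⟩
    · exact hΩ.2.1 x (by linarith)
  have v1 : ∫ x in Set.Icc (U / 2) (8 * U), P1 Ω U a b θ x = ((C3 * U ^ (6 * rho) : ℝ) : ℂ) *
      ∫ x : ℝ, Om2 U (3 * s) Ω x * FF s x * ex x (a, b) := by
    rw [setIntegral_eq_integral_of_forall_compl_eq_zero (fun x hx => by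
      unfold P1; rw [hout x hx, zero_mul]), ← integral_const_mul]
    refine integral_congr_ae (Filter.Eventually.of_forall fun x => ?_)
    simp only
    unfold P1
    have e := om_XX hU hΩ x (3 * s)
    calc Ω x * (XX U x (3 * s) * FF s x * ex x (a, b))
        = (Ω x * XX U x (3 * s)) * FF s x * ex x (a, b) := by ring
      _ = _ := by rw [e, eOm]; ring
  have v2 : ∫ x in Set.Icc (U / 2) (8 * U), P2 Ω U a b θ x = ((C3 * U ^ (6 * rho) : ℝ) : ℂ) *
      ∫ x : ℝ, Om2 U (3 * s) Ω x * (MI s x a b + X2 x (-6 * s) * MI (-s) x a b) := by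
    rw [setIntegral_eq_integral_of_forall_compl_eq_zero (fun x hx => by
      unfold P2; rw [hout x hx, zero_mul]), ← integral_const_mul]
    refine integral_congr_ae (Filter.Eventually.of_forall fun x => ?_)
    simp only
    unfold P2
    by_cases hx : U / 2 ≤ x
    · have hx0 : 0 < x := by linarith
      have e := om_XX hU hΩ x (3 * s)
      have e' := om_XX hU hΩ x (-3 * s)
      have e3 : X2 x (-3 * s) = X2 x (3 * s) * X2 x (-6 * s) := by
        rw [← X2_add hx0]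
        congr 1
        ring
      calc Ω x * (XX U x (3 * s) * MI s x a b + XX U x (-3 * s) * MI (-s) x a b)
          = (Ω x * XX U x (3 * s)) * MI s x a b + (Ω x * XX U x (-3 * s)) * MI (-s) x a b := by ring
        _ = (Ω x * X2 x (3 * s)) * (MI s x a b + X2 x (-6 * s) * MI (-s) x a b) := by
            rw [e, e', e3]
            ring
        _ = _ := by rw [eOm]; ring
    · have h0 : Ω x = 0 := hΩ.2.1 x (by linarith)
      unfold Om2
      rw [h0]
      ring
  rw [integral_sub i1 i2, v1, v2, ← mul_sub, norm_mul, Complex.norm_real,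
    Real.norm_of_nonneg hB0.le]
  have h5 := h U Δ (Om2 U (3 * s) Ω) a b s hU hΔ hΔU hΩ2 hsn hab ha hb
  have h6 : U ^ (6 * rho) * U ^ (1 - 1 / 20 : ℝ) ≤ U ^ (1 - 1 / 25 : ℝ) := by
    rw [← Real.rpow_add hU0]
    refine Real.rpow_le_rpow_of_exponent_le hU ?_
    unfold rho
    norm_num
  calc C3 * U ^ (6 * rho) * _ ≤ C3 * U ^ (6 * rho) * (C * U ^ (1 - 1 / 20 : ℝ)) :=
        mul_le_mul_of_nonneg_left h5 hB0.le
    _ = C3 * C * (U ^ (6 * rho) * U ^ (1 - 1 / 20 : ℝ)) := by ring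
    _ ≤ _ := mul_le_mul_of_nonneg_left h6 (by positivity)

end TwAvgAux

open TwAvgAux Twist4Aux

theorem tw_avg : ∃ C : ℝ, 0 < C ∧ ∀ (U Δ : ℝ) (Ω : ℝ → ℂ) (a b : ℕ+), 1 ≤ U → U ^ (1 - 1 / 1000 : ℝ) ≤ Δ →
    Δ ≤ U → Adm U Δ Ω → Nat.Coprime (a : ℕ) (b : ℕ) → ((a : ℕ) : ℝ) ≤ U ^ (1 / 1000 : ℝ) →
    ((b : ℕ) : ℝ) ≤ U ^ (1 / 1000 : ℝ) →
    ‖(∫ x : ℝ, Ω x * ((‖riemannZeta (1 / 2 + x * I)‖ ^ 4 : ℝ) : ℂ) * ex x (a, b)) -
      ∫ x : ℝ, Ω x * MM x a b‖ ≤ C * U ^ (1 - 1 / 25 : ℝ) := by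
  obtain ⟨C, hC, h⟩ := fixed
  refine ⟨C, hC, ?_⟩
  intro U Δ Ω a b hU hΔ hΔU hΩ hab ha hb
  have hU0 : 0 < U := by linarith
  have hsub : Set.Icc (U / 2) (8 * U) ⊆ Set.Ioi 0 := fun x hx => lt_of_lt_of_le (by positivity) hx.1
  have hpi : (0 : ℝ) ≤ 2 * Real.pi := by positivity
  have hout : ∀ x, x ∉ Set.Icc (U / 2) (8 * U) → Ω x = 0 := by
    intro x hx
    by_cases h1 : U / 2 ≤ x
    · refine hΩ.2.2.1 x ?_
      by_contra h2
      exact hx ⟨h1, by linarith⟩
    · exact hΩ.2.1 x (by linarith)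
  have hζc : Continuous fun x : ℝ => ((‖riemannZeta (1 / 2 + x * I)‖ ^ 4 : ℝ) : ℂ) := by
    have hζ : Continuous fun x : ℝ => riemannZeta (1 / 2 + x * I) := by
      refine continuous_iff_continuousAt.2 fun v => ?_
      refine ContinuousAt.comp (g := riemannZeta) ?_ (by fun_prop)
      refine (differentiableAt_riemannZeta ?_).continuousAt
      intro h
      have := congrArg Complex.re h
      simp at this
    exact Complex.continuous_ofReal.comp (hζ.norm.pow 4)
  have j1 : IntegrableOn (fun x : ℝ => Ω x * ((‖riemannZeta (1 / 2 + x * I)‖ ^ 4 : ℝ) : ℂ) *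
      ex x (a, b)) (Set.Icc (U / 2) (8 * U)) :=
    (((om_cont hΩ).mul hζc).mul (ex_cont (a, b))).continuousOn.integrableOn_compact isCompact_Icc
  have j2 : IntegrableOn (fun x : ℝ => Ω x * MM x a b) (Set.Icc (U / 2) (8 * U)) :=
    ((om_cont hΩ).continuousOn.mul ((mm_cont a b hab).mono hsub)).integrableOn_compact
      isCompact_Icc
  have w1 : (∫ x : ℝ, Ω x * ((‖riemannZeta (1 / 2 + x * I)‖ ^ 4 : ℝ) : ℂ) * ex x (a, b)) -
      ∫ x : ℝ, Ω x * MM x a b = ∫ x in Set.Icc (U / 2) (8 * U),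
        (Ω x * ((‖riemannZeta (1 / 2 + x * I)‖ ^ 4 : ℝ) : ℂ) * ex x (a, b) - Ω x * MM x a b) := by
    rw [integral_sub j1 j2, setIntegral_eq_integral_of_forall_compl_eq_zero (fun x hx => by
      rw [hout x hx, zero_mul, zero_mul]), setIntegral_eq_integral_of_forall_compl_eq_zero
      (fun x hx => by rw [hout x hx, zero_mul])]
  have w2 : ∀ x ∈ Set.Icc (U / 2) (8 * U),
      Ω x * ((‖riemannZeta (1 / 2 + x * I)‖ ^ 4 : ℝ) : ℂ) * ex x (a, b) - Ω x * MM x a b =
      (2 * Real.pi : ℂ)⁻¹ * ∫ θ in (0:ℝ)..(2 * Real.pi), (P1 Ω U a b θ x - P2 Ω U a b θ x) := by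
    intro x hx
    have hx0 : 0 < x := hsub hx
    have hfix : Continuous fun θ : ℝ => ((θ, x) : ℝ × ℝ) := by fun_prop
    have c1 : Continuous fun θ => P1 Ω U a b θ x := (P1_cont hU hΩ a b).comp hfix
    have c2 : Continuous fun θ => P2 Ω U a b θ x := by
      refine (P2_cont hU hΩ a b hab).comp_continuous (f := fun θ : ℝ => ((θ, x) : ℝ × ℝ)) hfix ?_
      intro θ
      exact ⟨trivial, hx0⟩
    rw [intervalIntegral.integral_sub (c1.intervalIntegrable _ _) (c2.intervalIntegrable _ _),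
      mul_sub, ← mean_FF hx0]
    congr 1
    · unfold av P1
      have e : ∀ θ : ℝ, Ω x * (XX U x (3 * circleMap 0 rho θ) * FF (circleMap 0 rho θ) x *
          ex x (a, b)) = (Ω x * ex x (a, b)) * (X2 x (3 * circleMap 0 rho θ) *
          FF (circleMap 0 rho θ) x) := by
        intro θ
        rw [XX_eq hU hx.1]
        ring
      simp only [e]
      rw [intervalIntegral.integral_const_mul]
      ring
    · unfold MM av P2
      have e : ∀ θ : ℝ, Ω x * (XX U x (3 * circleMap 0 rho θ) * MI (circleMap 0 rho θ) x a b +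
          XX U x (-3 * circleMap 0 rho θ) * MI (-circleMap 0 rho θ) x a b) =
          Ω x * (X2 x (3 * circleMap 0 rho θ) * MI (circleMap 0 rho θ) x a b +
          X2 x (-3 * circleMap 0 rho θ) * MI (-circleMap 0 rho θ) x a b) := by
        intro θ
        rw [XX_eq hU hx.1, XX_eq hU hx.1]
      simp only [e]
      rw [intervalIntegral.integral_const_mul]
      ring
  have hint : Integrable (Function.uncurry fun x θ : ℝ => P1 Ω U a b θ x - P2 Ω U a b θ x)
      ((volume.restrict (Set.Icc (U / 2) (8 * U))).prod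
        (volume.restrict (Set.Ioc 0 (2 * Real.pi)))) := by
    rw [Measure.prod_restrict]
    have hsw : Continuous fun p : ℝ × ℝ => ((p.2, p.1) : ℝ × ℝ) := by fun_prop
    have h1 : ContinuousOn (Function.uncurry fun x θ : ℝ => P1 Ω U a b θ x - P2 Ω U a b θ x)
        (Set.Icc (U / 2) (8 * U) ×ˢ Set.Icc 0 (2 * Real.pi)) := by
      refine (((P1_cont hU hΩ a b).comp hsw).continuousOn).sub ?_
      refine (P2_cont hU hΩ a b hab).comp (f := fun p : ℝ × ℝ => ((p.2, p.1) : ℝ × ℝ))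
        hsw.continuousOn ?_
      intro p hp
      exact ⟨trivial, hsub hp.1⟩
    have h2 : IntegrableOn (Function.uncurry fun x θ : ℝ => P1 Ω U a b θ x - P2 Ω U a b θ x)
        (Set.Icc (U / 2) (8 * U) ×ˢ Set.Icc 0 (2 * Real.pi)) ((volume : Measure ℝ).prod volume) :=
      h1.integrableOn_compact (isCompact_Icc.prod isCompact_Icc)
    exact h2.mono_set (Set.prod_mono le_rfl Set.Ioc_subset_Icc_self)
  rw [w1, setIntegral_congr_fun measurableSet_Icc w2, integral_const_mul]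
  simp_rw [intervalIntegral.integral_of_le hpi]
  rw [integral_integral_swap hint, ← intervalIntegral.integral_of_le hpi, norm_mul]
  have h3 := intervalIntegral.norm_integral_le_of_norm_le_const (a := 0) (b := 2 * Real.pi)
    (C := C * U ^ (1 - 1 / 25 : ℝ))
    (f := fun θ => ∫ x in Set.Icc (U / 2) (8 * U), (P1 Ω U a b θ x - P2 Ω U a b θ x))
    (fun θ _ => h U Δ Ω a b θ hU hΔ hΔU hΩ hab ha hb)
  rw [sub_zero, abs_of_nonneg hpi] at h3
  have h4 : ‖(2 * Real.pi : ℂ)⁻¹‖ = (2 * Real.pi)⁻¹ := by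
    rw [norm_inv, norm_mul, Complex.norm_real, Real.norm_of_nonneg Real.pi_pos.le]
    simp
  rw [h4]
  calc (2 * Real.pi)⁻¹ * _ ≤ (2 * Real.pi)⁻¹ * (C * U ^ (1 - 1 / 25 : ℝ) * (2 * Real.pi)) :=
        mul_le_mul_of_nonneg_left h3 (by positivity)
    _ = C * U ^ (1 - 1 / 25 : ℝ) := by
        field_simp

end Pool.Agent.P07318f
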