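import Pool.Agent.Lib.P07318f.KerK
import Pool.Agent.Lib.P07318f.ShiftB
import Pool.Agent.Lib.P07318f.Afe4
import Pool.Agent.Lib.P07318s.AFE

/-!
# The twisted shifted fourth moment with a power saving

(1) `∫ Ω FF ex` is `∫ Ω (AH s + X2(-6s) AH(-s)) ex + O(U^(1/2))` (`afe4`, `‖Ω‖ ≤ 1`, support in `[U/2, 8U]`). (2) One half (`half_main`): `L4 s w x` at
`Re w = 2` is the absolutely convergent series `∑_q pw m₁ (s+w) pw m₂ (2s+w) pw n₁ (s+w) pw n₂ (2s+w) (m₁m₂/(n₁n₂))^(-ix)`, so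
`∫ Ω(x) AH s x ex x (a,b) dx = (1/2π) ∫_t Gw w/w ∑_q (..) KK Ω w (log(a m₁m₂) - log(b n₁n₂)) dt`. (3) The diagonal terms: `KK Ω w 0 = ∫ Ω X2 x (2w)`:
`(1/2π)∫_t Gw w/w ∫ Ω(x) X2 x (2w) DD a b (..) = ∫ Ω Dint` (`shift_d`). (4) Off the diagonal insert
`1 = (ph s (log m₁/m₂) + ph s (log m₂/m₁)) (ph s (log n₁/n₂) + ph s (log n₂/n₁))` (`ph_add`): four sums; each, after exchanging the names of `m₁, m₂` and/or
`n₁, n₂`, is `SOD (ev s α β w) (ph s) (ph s) (KK Ω w) a b` with `α, β ∈ {s, 2s}` the shifts of the large variables. (5) `off_diag` for `ph s / C₁`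
(`ph_bound`) and `KK Ω w / (C₂ (1+‖w‖)^8 U^5)` (`kk_bound`), `δ = 1/1000` (`|Re e_i - 5/2| ≤ 2ρ`): `‖SOD - ZF‖ ≤ C (1+‖w‖)^10 U^(5-4-1/16)`, integrate against
`|Gw w/w| ≤ C exp(-t²/2)` (`Gw_bound`). (6) `(1/2π) ∫_t Gw w/w ZF dt = ∫ Ω Zint` by `zf_sum`, Fubini and `shift_b`.
(7) The second half: the weight `Ω(x) (x/2π)^(-6s)` is `C₃ U^(6ρ)` times an admissible weight for the scale `Δ` (Leibniz, `|((x/2π)^(-6s))^(j)| ≤ C x^(6ρ-j)`),
and `-s` instead of `s`.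
-/

set_option autoImplicit false

namespace Pool.Agent.P07318f

open MeasureTheory Complex Pool.Agent.P07318s

namespace Twist4Aux

/-- the coefficient -/
noncomputable def cq (s w : ℂ) (q : (ℕ+ × ℕ+) × (ℕ+ × ℕ+)) : ℂ :=
  pw q.1.1 (s + w) * pw q.1.2 (2 * s + w) * (pw q.2.1 (s + w) * pw q.2.2 (2 * s + w))

/-- the frequency -/
noncomputable def yq (a b : ℕ+) (q : (ℕ+ × ℕ+) × (ℕ+ × ℕ+)) : ℝ :=
  Real.log (a * q.1.1 * q.1.2 : ℕ) - Real.log (b * q.2.1 * q.2.2 : ℕ)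

theorem nat_pos_real (n : ℕ+) : (0 : ℝ) < ((n : ℕ) : ℝ) := by exact_mod_cast n.2

theorem pw_shift (n : ℕ+) (u : ℂ) (y : ℝ) : ((n : ℕ) : ℂ) ^ (-(1 / 2 + u + y * I)) =
    pw n u * cexp (((-(y * Real.log (n : ℕ)) : ℝ) : ℂ) * I) := by
  unfold pw
  have h := nat_pos_real n
  have e1 : ((n : ℕ) : ℂ) = (((n : ℕ) : ℝ) : ℂ) := by norm_cast
  rw [e1, AFEX.cpow_pos h, AFEX.cpow_pos h, ← Complex.exp_add]
  congr 1
  push_cast
  ring

theorem norm_pw (n : ℕ+) (u : ℂ) : ‖pw n u‖ = ((n : ℕ) : ℝ) ^ (-(1 / 2 + u.re)) := by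
  unfold pw
  have h := nat_pos_real n
  have e1 : ((n : ℕ) : ℂ) = (((n : ℕ) : ℝ) : ℂ) := by norm_cast
  rw [e1, Complex.norm_cpow_eq_rpow_re_of_pos h]
  simp

theorem pw_summable {u : ℂ} (hu : 1 / 2 < u.re) : Summable fun n : ℕ+ => ‖pw n u‖ := by
  have h := (AFEX.zeta_pnat (z := 1 / 2 + u) (by simp; linarith)).1
  exact h

theorem log_yq (a b : ℕ+) (q : (ℕ+ × ℕ+) × (ℕ+ × ℕ+)) : yq a b q =
    (Real.log (a : ℕ) - Real.log (b : ℕ)) + (Real.log (q.1.1 : ℕ) + Real.log (q.1.2 : ℕ)) -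
      (Real.log (q.2.1 : ℕ) + Real.log (q.2.2 : ℕ)) := by
  unfold yq
  have := nat_pos_real
  push_cast
  rw [Real.log_mul (mul_pos (this _) (this _)).ne' (this _).ne', Real.log_mul (this _).ne' (this _).ne',
    Real.log_mul (mul_pos (this _) (this _)).ne' (this _).ne', Real.log_mul (this _).ne' (this _).ne']
  ring

theorem cq_summable {s w : ℂ} (hs : ‖s‖ ≤ 1 / 4) (hw : w.re = 2) : Summable fun q => ‖cq s w q‖ := by
  have h0 := Complex.abs_re_le_norm s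
  have h0' := abs_le.1 h0
  have h1 : 1 / 2 < (s + w).re := by simp; linarith
  have h2 : 1 / 2 < (2 * s + w).re := by simp; linarith
  have h3 := (pw_summable h1).mul_norm (pw_summable h2)
  have h4 := h3.mul_norm h3
  refine h4.congr fun q => ?_
  unfold cq
  rfl

theorem L4_eq {s w : ℂ} (hs : ‖s‖ ≤ 1 / 4) (hw : w.re = 2) (x : ℝ) (a b : ℕ+) :
    L4 s w x * ex x (a, b) = ∑' q, cq s w q * cexp (((-(x * yq a b q) : ℝ) : ℂ) * I) := by
  have h0 := Complex.abs_re_le_norm s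
  have h0' := abs_le.1 h0
  have h1 : 1 / 2 < (s + w).re := by simp; linarith
  have h2 : 1 / 2 < (2 * s + w).re := by simp; linarith
  have z1 := AFEX.zeta_pnat (z := 1 / 2 + s + w + x * I) (by simp at h1 ⊢; linarith)
  have z2 := AFEX.zeta_pnat (z := 1 / 2 + 2 * s + w + x * I) (by simp at h2 ⊢; linarith)
  have z3 := AFEX.zeta_pnat (z := 1 / 2 + s + w - x * I) (by simp at h1 ⊢; linarith)
  have z4 := AFEX.zeta_pnat (z := 1 / 2 + 2 * s + w - x * I) (by simp at h2 ⊢; linarith)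
  unfold L4
  rw [z1.2, z2.2, z3.2, z4.2, tsum_mul_tsum_of_summable_norm z1.1 z2.1, tsum_mul_tsum_of_summable_norm z3.1 z4.1,
    tsum_mul_tsum_of_summable_norm (z1.1.mul_norm z2.1) (z3.1.mul_norm z4.1), ← tsum_mul_right]
  refine tsum_congr fun q => ?_
  have e1 : (-(1 / 2 + s + w + x * I) : ℂ) = -(1 / 2 + (s + w) + x * I) := by ring
  have e2 : (-(1 / 2 + 2 * s + w + x * I) : ℂ) = -(1 / 2 + (2 * s + w) + x * I) := by ring
  have e3 : (-(1 / 2 + s + w - x * I) : ℂ) = -(1 / 2 + (s + w) + ((-x : ℝ) : ℂ) * I) := by push_cast; ring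
  have e4 : (-(1 / 2 + 2 * s + w - x * I) : ℂ) = -(1 / 2 + (2 * s + w) + ((-x : ℝ) : ℂ) * I) := by push_cast; ring
  rw [e1, e2, e3, e4, pw_shift, pw_shift, pw_shift, pw_shift, log_yq]
  unfold cq ex lgr
  have e5 : cexp (((-(x * ((Real.log (a : ℕ) - Real.log (b : ℕ)) + (Real.log (q.1.1 : ℕ) + Real.log (q.1.2 : ℕ)) -
      (Real.log (q.2.1 : ℕ) + Real.log (q.2.2 : ℕ)))) : ℝ) : ℂ) * I) =
      cexp (((-(x * Real.log (q.1.1 : ℕ)) : ℝ) : ℂ) * I) * cexp (((-(x * Real.log (q.1.2 : ℕ)) : ℝ) : ℂ) * I) *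
      (cexp (((-((-x) * Real.log (q.2.1 : ℕ)) : ℝ) : ℂ) * I) * cexp (((-((-x) * Real.log (q.2.2 : ℕ)) : ℝ) : ℂ) * I)) *
      cexp (((-(x * (Real.log (a : ℕ) - Real.log (b : ℕ))) : ℝ) : ℂ) * I) := by
    rw [← Complex.exp_add, ← Complex.exp_add, ← Complex.exp_add, ← Complex.exp_add]
    congr 1
    push_cast
    ring
  rw [e5]
  ring

/-! ### the power of `x` made continuous -/

noncomputable def XX (U x : ℝ) (c : ℂ) : ℂ := cexp (((Real.log (max x (U / 2) / (2 * Real.pi)) : ℝ) : ℂ) * c)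

theorem xm_pos {U : ℝ} (hU : 1 ≤ U) (x : ℝ) : 0 < max x (U / 2) / (2 * Real.pi) := by
  have : 0 < max x (U / 2) := lt_of_lt_of_le (by linarith) (le_max_right _ _)
  positivity

theorem XX_eq {U x : ℝ} (hU : 1 ≤ U) (hx : U / 2 ≤ x) (c : ℂ) : XX U x c = X2 x c := by
  unfold XX X2
  rw [max_eq_left hx, AFEX.cpow_pos]
  have : 0 < x := by linarith
  positivity

theorem X2_pi (c : ℂ) : X2 (2 * Real.pi) c = 1 := by
  unfold X2
  rw [div_self (by positivity)]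
  simp

theorem om_XX {U Δ : ℝ} (hU : 1 ≤ U) {Ω : ℝ → ℂ} (hΩ : Adm U Δ Ω) (x : ℝ) (c : ℂ) :
    Ω x * XX U x c = Ω x * X2 x c := by
  by_cases h : U / 2 ≤ x
  · rw [XX_eq hU h]
  · rw [hΩ.2.1 x (by linarith)]
    simp

theorem XX_cont {U : ℝ} (hU : 1 ≤ U) {X : Type*} [TopologicalSpace X] {f : X → ℝ} {g : X → ℂ} (hf : Continuous f)
    (hg : Continuous g) : Continuous fun y => XX U (f y) (g y) := by
  unfold XX
  have h1 : Continuous fun y => max (f y) (U / 2) / (2 * Real.pi) := by fun_prop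
  have h2 : Continuous fun y => Real.log (max (f y) (U / 2) / (2 * Real.pi)) :=
    h1.log fun y => (xm_pos hU (f y)).ne'
  fun_prop

/-- bound of the logarithm on the support -/
noncomputable def Mx (U : ℝ) : ℝ := |Real.log (U / 2 / (2 * Real.pi))| + |Real.log (8 * U / (2 * Real.pi))|

theorem Mx_nonneg (U : ℝ) : 0 ≤ Mx U := by unfold Mx; positivity

theorem log_le_Mx {U x : ℝ} (hU : 1 ≤ U) (hx : x ≤ 8 * U) : |Real.log (max x (U / 2) / (2 * Real.pi))| ≤ Mx U := by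
  have h0 : 0 < U / 2 / (2 * Real.pi) := by positivity
  have h1 : Real.log (U / 2 / (2 * Real.pi)) ≤ Real.log (max x (U / 2) / (2 * Real.pi)) :=
    Real.log_le_log h0 (by
      apply div_le_div_of_nonneg_right (le_max_right _ _) (by positivity))
  have h2 : Real.log (max x (U / 2) / (2 * Real.pi)) ≤ Real.log (8 * U / (2 * Real.pi)) :=
    Real.log_le_log (xm_pos hU x) (by
      apply div_le_div_of_nonneg_right (max_le hx (by linarith)) (by positivity))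
  unfold Mx
  rw [abs_le]
  have h3 := neg_abs_le (Real.log (U / 2 / (2 * Real.pi)))
  have h4 := le_abs_self (Real.log (8 * U / (2 * Real.pi)))
  have h5 := abs_nonneg (Real.log (U / 2 / (2 * Real.pi)))
  have h6 := abs_nonneg (Real.log (8 * U / (2 * Real.pi)))
  constructor <;> linarith

theorem norm_XX {U x R : ℝ} (hU : 1 ≤ U) (hx : x ≤ 8 * U) {c : ℂ} (hc : |c.re| ≤ R) :
    ‖XX U x c‖ ≤ Real.exp (Mx U * R) := by
  unfold XX
  rw [Complex.norm_exp]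
  apply Real.exp_le_exp.2
  rw [Complex.re_ofReal_mul]
  calc _ ≤ |Real.log (max x (U / 2) / (2 * Real.pi)) * c.re| := le_abs_self _
    _ = |Real.log (max x (U / 2) / (2 * Real.pi))| * |c.re| := abs_mul _ _
    _ ≤ Mx U * R := mul_le_mul (log_le_Mx hU hx) hc (abs_nonneg _) (Mx_nonneg U)

theorem om_bd {U Δ R : ℝ} (hU : 1 ≤ U) {Ω : ℝ → ℂ} (hΩ : Adm U Δ Ω) (x : ℝ) {c : ℂ} (hc : |c.re| ≤ R) :
    ‖Ω x * XX U x c‖ ≤ ‖Ω x‖ * Real.exp (Mx U * R) := by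
  by_cases hx : x ≤ 8 * U
  · rw [norm_mul]
    exact mul_le_mul_of_nonneg_left (norm_XX hU hx hc) (norm_nonneg _)
  · rw [hΩ.2.2.1 x (by linarith)]
    simp

theorem om_cont {U Δ : ℝ} {Ω : ℝ → ℂ} (hΩ : Adm U Δ Ω) : Continuous Ω := hΩ.1.continuous

theorem om_int {U Δ : ℝ} {Ω : ℝ → ℂ} (hΩ : Adm U Δ Ω) : Integrable Ω := by
  refine (om_cont hΩ).integrable_of_hasCompactSupport ?_
  refine HasCompactSupport.of_support_subset_isCompact (K := Set.Icc (U / 2) (8 * U)) isCompact_Icc ?_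
  intro x hx
  rw [Function.mem_support] at hx
  constructor
  · by_contra h
    exact hx (hΩ.2.1 x (by linarith))
  · by_contra h
    exact hx (hΩ.2.2.1 x (by linarith))

/-- the kernel in `t` -/
noncomputable def Qw (s : ℂ) (t : ℝ) : ℂ := Gw s (2 + t * I) / (2 + t * I)

theorem w_ne (t : ℝ) : (2 + t * I : ℂ) ≠ 0 := by
  intro h
  have := congrArg Complex.re h
  simp at this

theorem Qw_cont (s : ℂ) : Continuous (Qw s) := by
  unfold Qw Gw
  refine Continuous.div (by fun_prop) (by fun_prop) w_ne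

theorem one_le_w (t : ℝ) : 1 ≤ ‖(2 + t * I : ℂ)‖ := by
  have h := Complex.abs_re_le_norm (2 + t * I : ℂ)
  have h2 : (2 + t * I : ℂ).re = 2 := by simp
  rw [h2] at h
  norm_num at h
  linarith

theorem Qw_bound : ∃ C : ℝ, 0 < C ∧ ∀ s : ℂ, ‖s‖ = rho → ∀ t : ℝ, ‖Qw s t‖ ≤ C * Real.exp (-(t ^ 2 / 2)) := by
  obtain ⟨C, hC, h⟩ := Gw_bound rho 2 (by unfold rho; positivity)
  refine ⟨C, hC, fun s hs t => ?_⟩
  have h1 := h s hs 2 t (by norm_num)
  push_cast at h1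
  unfold Qw
  rw [norm_div]
  exact (div_le_self (norm_nonneg _) (one_le_w t)).trans h1

theorem gauss_int : Integrable fun t : ℝ => Real.exp (-(t ^ 2 / 2)) := by
  have := integrable_exp_neg_mul_sq (b := 1 / 2) (by norm_num)
  refine this.congr (Filter.Eventually.of_forall fun t => ?_)
  simp only
  congr 1
  ring

theorem Qw_int {s : ℂ} (hs : ‖s‖ = rho) : Integrable (Qw s) := by
  obtain ⟨C, hC, h⟩ := Qw_bound
  exact (gauss_int.const_mul C).mono' (Qw_cont s).aestronglyMeasurable (Filter.Eventually.of_forall (h s hs))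

theorem rho_le : rho ≤ 1 / 10000 := by unfold rho; norm_num

theorem rho_pos : 0 < rho := by unfold rho; norm_num

theorem s_small {s : ℂ} (hs : ‖s‖ = rho) : ‖s‖ ≤ 1 / 4 := by
  have := rho_le
  rw [hs]
  linarith

theorem L4_cont {s : ℂ} (hs : ‖s‖ ≤ 1 / 4) : Continuous fun p : ℝ × ℝ => L4 s (2 + p.2 * I) p.1 := by
  have h0 := Complex.abs_re_le_norm s
  have h0' := abs_le.1 h0
  have key : ∀ f : ℝ × ℝ → ℂ, Continuous f → (∀ p, 1 < (f p).re) → Continuous fun p => riemannZeta (f p) := by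
    intro f hf h1
    refine continuous_iff_continuousAt.2 fun p => ?_
    refine ContinuousAt.comp (g := riemannZeta) ?_ hf.continuousAt
    refine (differentiableAt_riemannZeta ?_).continuousAt
    intro h
    have := h1 p
    rw [h] at this
    simp at this
  unfold L4
  refine ((key _ (by fun_prop) fun p => ?_).mul (key _ (by fun_prop) fun p => ?_)).mul
    ((key _ (by fun_prop) fun p => ?_).mul (key _ (by fun_prop) fun p => ?_))
  all_goals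
    simp
    linarith

theorem L4_bound : ∃ C : ℝ, 0 < C ∧ ∀ s : ℂ, ‖s‖ ≤ 1 / 4 → ∀ t x : ℝ, ‖L4 s (2 + t * I) x‖ ≤ C := by
  obtain ⟨C, hC, h⟩ := zeta_bound_re (1 / 2) (by norm_num)
  refine ⟨C * C * (C * C), by positivity, fun s hs t x => ?_⟩
  have h0 := Complex.abs_re_le_norm s
  have h0' := abs_le.1 h0
  unfold L4
  rw [norm_mul, norm_mul, norm_mul]
  have a1 := h (1 / 2 + s + (2 + t * I) + x * I) (by simp; linarith)
  have a2 := h (1 / 2 + 2 * s + (2 + t * I) + x * I) (by simp; linarith)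
  have a3 := h (1 / 2 + s + (2 + t * I) - x * I) (by simp; linarith)
  have a4 := h (1 / 2 + 2 * s + (2 + t * I) - x * I) (by simp; linarith)
  gcongr

theorem ex_cont (p : ℕ+ × ℕ+) : Continuous fun x => ex x p := by
  unfold ex
  fun_prop

/-! ### the total -/

noncomputable def gA (s : ℂ) (Ω : ℝ → ℂ) (U : ℝ) (a b : ℕ+) (p : ℝ × ℝ) : ℂ :=
  Ω p.1 * (Qw s p.2 * XX U p.1 (2 * (2 + p.2 * I)) * L4 s (2 + p.2 * I) p.1) * ex p.1 (a, b)

theorem re_two_w (t : ℝ) : (2 * (2 + t * I) : ℂ).re = 4 := by simp; norm_num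

theorem gA_int {s : ℂ} (hs : ‖s‖ = rho) {U Δ : ℝ} (hU : 1 ≤ U) {Ω : ℝ → ℂ} (hΩ : Adm U Δ Ω) (a b : ℕ+) :
    Integrable (gA s Ω U a b) (volume.prod volume) := by
  obtain ⟨C, hC, h⟩ := L4_bound
  have hs4 := s_small hs
  have h1 : Integrable (fun x => ‖Ω x‖ * Real.exp (Mx U * 4)) := (om_int hΩ).norm.mul_const _
  have h2 : Integrable (fun t => ‖Qw s t‖ * C) := (Qw_int hs).norm.mul_const _
  refine (h1.mul_prod h2).mono' ?_ ?_
  · have hc : Continuous (gA s Ω U a b) := by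
      unfold gA
      refine Continuous.mul (((om_cont hΩ).comp continuous_fst).mul ?_) ((ex_cont (a, b)).comp continuous_fst)
      refine Continuous.mul (((Qw_cont s).comp continuous_snd).mul ?_) (L4_cont hs4)
      exact XX_cont hU continuous_fst (by fun_prop)
    exact hc.aestronglyMeasurable
  · refine Filter.Eventually.of_forall fun p => ?_
    unfold gA
    rw [norm_mul, norm_ex, mul_one]
    have e : Ω p.1 * (Qw s p.2 * XX U p.1 (2 * (2 + p.2 * I)) * L4 s (2 + p.2 * I) p.1) =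
        (Ω p.1 * XX U p.1 (2 * (2 + p.2 * I))) * (Qw s p.2 * L4 s (2 + p.2 * I) p.1) := by ring
    rw [e, norm_mul, norm_mul (Qw s p.2)]
    have h3 := om_bd hU hΩ p.1 (c := 2 * (2 + p.2 * I)) (R := 4) (by rw [re_two_w]; norm_num)
    have h4 := h s hs4 p.2 p.1
    gcongr

theorem AH_eq {s : ℂ} {U Δ : ℝ} (hU : 1 ≤ U) {Ω : ℝ → ℂ} (hΩ : Adm U Δ Ω) (a b : ℕ+) (x : ℝ) :
    Ω x * AH s x * ex x (a, b) = (2 * Real.pi : ℂ)⁻¹ * ∫ t : ℝ, gA s Ω U a b (x, t) := by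
  unfold AH gA Qw
  have : ∀ t : ℝ, Ω x * (Gw s (2 + t * I) / (2 + t * I) * XX U x (2 * (2 + t * I)) * L4 s (2 + t * I) x) * ex x (a, b) =
      Ω x * (Gw s (2 + t * I) / (2 + t * I) * X2 x (2 * (2 + t * I)) * L4 s (2 + t * I) x) * ex x (a, b) := by
    intro t
    have e := om_XX hU hΩ x (2 * (2 + t * I))
    calc _ = (Ω x * XX U x (2 * (2 + t * I))) * (Gw s (2 + t * I) / (2 + t * I) * L4 s (2 + t * I) x) * ex x (a, b) := by ring
      _ = _ := by rw [e]; ring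
  simp only [this]
  rw [integral_mul_const, integral_const_mul]
  ring

theorem gx_int {s : ℂ} (hs : ‖s‖ ≤ 1 / 4) {U Δ : ℝ} (hU : 1 ≤ U) {Ω : ℝ → ℂ} (hΩ : Adm U Δ Ω) (a b : ℕ+) (t : ℝ) :
    ∫ x : ℝ, gA s Ω U a b (x, t) = Qw s t * ∑' q, cq s (2 + t * I) q * KK Ω (2 + t * I) (yq a b q) := by
  set w : ℂ := 2 + t * I with hw
  have hwre : w.re = 2 := by simp [hw]
  let F : (ℕ+ × ℕ+) × (ℕ+ × ℕ+) → ℝ → ℂ := fun q x =>
    cq s w q * (Ω x * XX U x (2 * w) * cexp (((-(x * yq a b q) : ℝ) : ℂ) * I))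
  have hcont : Continuous fun x : ℝ => Ω x * XX U x (2 * w) :=
    (om_cont hΩ).mul (XX_cont hU continuous_id continuous_const)
  have hb : ∀ x, ‖Ω x * XX U x (2 * w)‖ ≤ ‖Ω x‖ * Real.exp (Mx U * 4) := fun x =>
    om_bd hU hΩ x (by rw [hw, re_two_w]; norm_num)
  have h1 : Integrable fun x : ℝ => Ω x * XX U x (2 * w) :=
    ((om_int hΩ).norm.mul_const (Real.exp (Mx U * 4))).mono' hcont.aestronglyMeasurable (Filter.Eventually.of_forall hb)
  have hn : ∀ (q : (ℕ+ × ℕ+) × (ℕ+ × ℕ+)) (x : ℝ), ‖cexp (((-(x * yq a b q) : ℝ) : ℂ) * I)‖ = 1 := fun q x =>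
    Complex.norm_exp_ofReal_mul_I _
  have hI : ∀ q, Integrable (F q) := fun q => by
    refine Integrable.const_mul ?_ _
    refine h1.mul_bdd (c := 1) (Continuous.aestronglyMeasurable (by fun_prop)) (Filter.Eventually.of_forall fun x => ?_)
    rw [hn]
  have hN : ∀ q, ∫ x, ‖F q x‖ = ‖cq s w q‖ * ∫ x, ‖Ω x * XX U x (2 * w)‖ := fun q => by
    rw [← integral_const_mul]
    refine integral_congr_ae (Filter.Eventually.of_forall fun x => ?_)
    simp only [F]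
    rw [norm_mul, norm_mul _ (cexp _), hn, mul_one]
  have hS : Summable fun q => ∫ x, ‖F q x‖ := by
    simp_rw [hN]
    exact (cq_summable hs hwre).mul_right _
  have h2 := (hasSum_integral_of_summable_integral_norm hI hS).tsum_eq
  have h3 : ∀ x : ℝ, gA s Ω U a b (x, t) = Qw s t * ∑' q, F q x := by
    intro x
    unfold gA
    simp only
    rw [← hw]
    have e := L4_eq hs hwre x a b
    calc _ = Qw s t * (Ω x * XX U x (2 * w)) * (L4 s w x * ex x (a, b)) := by ring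
      _ = _ := by
        rw [e, mul_assoc, ← tsum_mul_left]
        congr 1
        refine tsum_congr fun q => ?_
        simp only [F]
        ring
  simp_rw [h3]
  rw [integral_const_mul, ← h2]
  congr 1
  refine tsum_congr fun q => ?_
  simp only [F]
  rw [integral_const_mul]
  congr 1
  unfold KK
  refine integral_congr_ae (Filter.Eventually.of_forall fun x => ?_)
  simp only
  rw [om_XX hU hΩ]

/-- the sum over the quadruples -/
noncomputable def JJt (s : ℂ) (Ω : ℝ → ℂ) (a b : ℕ+) (t : ℝ) : ℂ :=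
  ∑' q, cq s (2 + t * I) q * KK Ω (2 + t * I) (yq a b q)

theorem total {s : ℂ} (hs : ‖s‖ = rho) {U Δ : ℝ} (hU : 1 ≤ U) {Ω : ℝ → ℂ} (hΩ : Adm U Δ Ω) (a b : ℕ+) :
    Integrable (fun x => Ω x * AH s x * ex x (a, b)) ∧ Integrable (fun t => Qw s t * JJt s Ω a b t) ∧
    ∫ x : ℝ, Ω x * AH s x * ex x (a, b) = (2 * Real.pi : ℂ)⁻¹ * ∫ t : ℝ, Qw s t * JJt s Ω a b t := by
  have h := gA_int hs hU hΩ a b
  have h1 : ∀ t : ℝ, ∫ x : ℝ, gA s Ω U a b (x, t) = Qw s t * JJt s Ω a b t := gx_int (s_small hs) hU hΩ a b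
  refine ⟨?_, ?_, ?_⟩
  · have := h.integral_prod_left.const_mul (2 * Real.pi : ℂ)⁻¹
    refine this.congr (Filter.Eventually.of_forall fun x => ?_)
    simp only
    rw [← AH_eq hU hΩ a b x]
  · have := h.integral_prod_right
    refine this.congr (Filter.Eventually.of_forall fun t => ?_)
    exact h1 t
  · simp_rw [AH_eq hU hΩ a b, integral_const_mul]
    congr 1
    rw [integral_integral_swap (f := fun x t => gA s Ω U a b (x, t)) h]
    exact integral_congr_ae (Filter.Eventually.of_forall h1)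

/-! ### the diagonal and the off-diagonal terms -/

theorem KK_bd {U Δ : ℝ} (hU : 1 ≤ U) {Ω : ℝ → ℂ} (hΩ : Adm U Δ Ω) (t y : ℝ) :
    ‖KK Ω (2 + t * I) y‖ ≤ ∫ x : ℝ, ‖Ω x‖ * Real.exp (Mx U * 4) := by
  unfold KK
  refine norm_integral_le_of_norm_le ((om_int hΩ).norm.mul_const _) (Filter.Eventually.of_forall fun x => ?_)
  rw [norm_mul, Complex.norm_exp_ofReal_mul_I, mul_one, ← om_XX hU hΩ]
  exact om_bd hU hΩ x (by rw [re_two_w]; norm_num)

theorem cqK_summable {s : ℂ} (hs : ‖s‖ ≤ 1 / 4) {U Δ : ℝ} (hU : 1 ≤ U) {Ω : ℝ → ℂ} (hΩ : Adm U Δ Ω) (a b : ℕ+) (t : ℝ) :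
    Summable fun q => cq s (2 + t * I) q * KK Ω (2 + t * I) (yq a b q) := by
  refine Summable.of_norm_bounded
    ((cq_summable hs (w := 2 + t * I) (by simp)).mul_right (∫ x : ℝ, ‖Ω x‖ * Real.exp (Mx U * 4))) fun q => ?_
  rw [norm_mul]
  exact mul_le_mul_of_nonneg_left (KK_bd hU hΩ t _) (norm_nonneg _)

/-- the off-diagonal terms -/
noncomputable def ODt (s : ℂ) (Ω : ℝ → ℂ) (a b : ℕ+) (t : ℝ) : ℂ :=
  ∑' q : (ℕ+ × ℕ+) × (ℕ+ × ℕ+), if a * q.1.1 * q.1.2 = b * q.2.1 * q.2.2 then 0 else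
    cq s (2 + t * I) q * KK Ω (2 + t * I) (yq a b q)

theorem yq_zero {a b : ℕ+} {q : (ℕ+ × ℕ+) × (ℕ+ × ℕ+)} (h : a * q.1.1 * q.1.2 = b * q.2.1 * q.2.2) : yq a b q = 0 := by
  unfold yq
  have := congrArg (fun n : ℕ+ => (n : ℕ)) h
  simp only [PNat.mul_coe] at this
  rw [this]
  ring

theorem JJ_split {s : ℂ} (hs : ‖s‖ ≤ 1 / 4) {U Δ : ℝ} (hU : 1 ≤ U) {Ω : ℝ → ℂ} (hΩ : Adm U Δ Ω) (a b : ℕ+) (t : ℝ) :
    JJt s Ω a b t = KK Ω (2 + t * I) 0 *
      DD a b (s + (2 + t * I)) (2 * s + (2 + t * I)) (s + (2 + t * I)) (2 * s + (2 + t * I)) + ODt s Ω a b t := by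
  have hsum := cqK_summable hs hU hΩ a b t
  set w : ℂ := 2 + t * I with hw
  have e1 : KK Ω w 0 * DD a b (s + w) (2 * s + w) (s + w) (2 * s + w) =
      ∑' q : (ℕ+ × ℕ+) × (ℕ+ × ℕ+), if a * q.1.1 * q.1.2 = b * q.2.1 * q.2.2 then
        cq s w q * KK Ω w (yq a b q) else 0 := by
    unfold DD
    rw [← tsum_mul_left]
    refine tsum_congr fun q => ?_
    split_ifs with h
    · rw [yq_zero h]
      unfold cq
      ring
    · ring
  have s1 : Summable fun q : (ℕ+ × ℕ+) × (ℕ+ × ℕ+) => if a * q.1.1 * q.1.2 = b * q.2.1 * q.2.2 then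
        cq s w q * KK Ω w (yq a b q) else 0 := by
    refine Summable.of_norm_bounded hsum.norm fun q => ?_
    split_ifs
    · exact le_rfl
    · exact norm_zero.trans_le (norm_nonneg _)
  have s2 : Summable fun q : (ℕ+ × ℕ+) × (ℕ+ × ℕ+) => if a * q.1.1 * q.1.2 = b * q.2.1 * q.2.2 then 0 else
        cq s w q * KK Ω w (yq a b q) := by
    refine Summable.of_norm_bounded hsum.norm fun q => ?_
    split_ifs
    · exact norm_zero.trans_le (norm_nonneg _)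
    · exact le_rfl
  rw [e1]
  unfold ODt JJt
  rw [← hw, ← s1.tsum_add s2]
  refine tsum_congr fun q => ?_
  split_ifs <;> ring

/-- exchange of the names -/
def sw1 : ((ℕ+ × ℕ+) × (ℕ+ × ℕ+)) ≃ ((ℕ+ × ℕ+) × (ℕ+ × ℕ+)) :=
  Equiv.prodCongr (Equiv.prodComm _ _) (Equiv.refl _)

def sw2 : ((ℕ+ × ℕ+) × (ℕ+ × ℕ+)) ≃ ((ℕ+ × ℕ+) × (ℕ+ × ℕ+)) :=
  Equiv.prodCongr (Equiv.refl _) (Equiv.prodComm _ _)

theorem sw1_apply (q : (ℕ+ × ℕ+) × (ℕ+ × ℕ+)) : sw1 q = ((q.1.2, q.1.1), (q.2.1, q.2.2)) := rfl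

theorem sw2_apply (q : (ℕ+ × ℕ+) × (ℕ+ × ℕ+)) : sw2 q = ((q.1.1, q.1.2), (q.2.2, q.2.1)) := rfl

theorem cond_sw1 (a b : ℕ+) (q : (ℕ+ × ℕ+) × (ℕ+ × ℕ+)) :
    (a * (sw1 q).1.1 * (sw1 q).1.2 = b * (sw1 q).2.1 * (sw1 q).2.2) ↔ (a * q.1.1 * q.1.2 = b * q.2.1 * q.2.2) := by
  rw [sw1_apply, mul_right_comm a]

theorem cond_sw2 (a b : ℕ+) (q : (ℕ+ × ℕ+) × (ℕ+ × ℕ+)) :
    (a * (sw2 q).1.1 * (sw2 q).1.2 = b * (sw2 q).2.1 * (sw2 q).2.2) ↔ (a * q.1.1 * q.1.2 = b * q.2.1 * q.2.2) := by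
  rw [sw2_apply, mul_right_comm b]

theorem T4_pp (s w : ℂ) (φ₁ φ₂ K : ℝ → ℂ) (a b : ℕ+) (q : (ℕ+ × ℕ+) × (ℕ+ × ℕ+)) :
    T4 (ev s (2 * s) (2 * s) w) φ₁ φ₂ K a b q = cq s w q *
      (φ₁ (Real.log (q.1.1 : ℕ) - Real.log (q.1.2 : ℕ)) * φ₂ (Real.log (q.2.1 : ℕ) - Real.log (q.2.2 : ℕ))) *
      K (yq a b q) := by
  unfold T4 cq pw yq ev
  simp only [Matrix.cons_val_zero, Matrix.cons_val_one, Matrix.cons_val]
  have e1 : (-(1 / 2 + (3 * s - 2 * s) + w) : ℂ) = -(1 / 2 + (s + w)) := by ring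
  have e2 : (-(1 / 2 + 2 * s + w) : ℂ) = -(1 / 2 + (2 * s + w)) := by ring
  rw [e1, e2]

theorem T4_mp (s w : ℂ) (φ₁ φ₂ K : ℝ → ℂ) (a b : ℕ+) (q : (ℕ+ × ℕ+) × (ℕ+ × ℕ+)) :
    T4 (ev s s (2 * s) w) φ₁ φ₂ K a b (sw1 q) = cq s w q *
      (φ₁ (-(Real.log (q.1.1 : ℕ) - Real.log (q.1.2 : ℕ))) * φ₂ (Real.log (q.2.1 : ℕ) - Real.log (q.2.2 : ℕ))) *
      K (yq a b q) := by
  unfold T4 cq pw yq ev
  simp only [Matrix.cons_val_zero, Matrix.cons_val_one, Matrix.cons_val, sw1_apply]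
  have e1 : (-(1 / 2 + (3 * s - 2 * s) + w) : ℂ) = -(1 / 2 + (s + w)) := by ring
  have e2 : (-(1 / 2 + 2 * s + w) : ℂ) = -(1 / 2 + (2 * s + w)) := by ring
  have e3 : (-(1 / 2 + (3 * s - s) + w) : ℂ) = -(1 / 2 + (2 * s + w)) := by ring
  have e4 : (-(1 / 2 + s + w) : ℂ) = -(1 / 2 + (s + w)) := by ring
  have e5 : Real.log (q.1.2 : ℕ) - Real.log (q.1.1 : ℕ) = -(Real.log (q.1.1 : ℕ) - Real.log (q.1.2 : ℕ)) := by ring
  have e6 : (a : ℕ) * (q.1.2 : ℕ) * (q.1.1 : ℕ) = (a : ℕ) * (q.1.1 : ℕ) * (q.1.2 : ℕ) := by ring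
  rw [e1, e2, e3, e4, e5, e6]
  ring

theorem T4_pm (s w : ℂ) (φ₁ φ₂ K : ℝ → ℂ) (a b : ℕ+) (q : (ℕ+ × ℕ+) × (ℕ+ × ℕ+)) :
    T4 (ev s (2 * s) s w) φ₁ φ₂ K a b (sw2 q) = cq s w q *
      (φ₁ (Real.log (q.1.1 : ℕ) - Real.log (q.1.2 : ℕ)) * φ₂ (-(Real.log (q.2.1 : ℕ) - Real.log (q.2.2 : ℕ)))) *
      K (yq a b q) := by
  unfold T4 cq pw yq ev
  simp only [Matrix.cons_val_zero, Matrix.cons_val_one, Matrix.cons_val, sw2_apply]
  have e1 : (-(1 / 2 + (3 * s - 2 * s) + w) : ℂ) = -(1 / 2 + (s + w)) := by ring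
  have e2 : (-(1 / 2 + 2 * s + w) : ℂ) = -(1 / 2 + (2 * s + w)) := by ring
  have e3 : (-(1 / 2 + (3 * s - s) + w) : ℂ) = -(1 / 2 + (2 * s + w)) := by ring
  have e4 : (-(1 / 2 + s + w) : ℂ) = -(1 / 2 + (s + w)) := by ring
  have e5 : Real.log (q.2.2 : ℕ) - Real.log (q.2.1 : ℕ) = -(Real.log (q.2.1 : ℕ) - Real.log (q.2.2 : ℕ)) := by ring
  have e6 : (b : ℕ) * (q.2.2 : ℕ) * (q.2.1 : ℕ) = (b : ℕ) * (q.2.1 : ℕ) * (q.2.2 : ℕ) := by ring
  rw [e1, e2, e3, e4, e5, e6]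
  ring

theorem T4_mm (s w : ℂ) (φ₁ φ₂ K : ℝ → ℂ) (a b : ℕ+) (q : (ℕ+ × ℕ+) × (ℕ+ × ℕ+)) :
    T4 (ev s s s w) φ₁ φ₂ K a b (sw1 (sw2 q)) = cq s w q *
      (φ₁ (-(Real.log (q.1.1 : ℕ) - Real.log (q.1.2 : ℕ))) * φ₂ (-(Real.log (q.2.1 : ℕ) - Real.log (q.2.2 : ℕ)))) *
      K (yq a b q) := by
  unfold T4 cq pw yq ev
  simp only [Matrix.cons_val_zero, Matrix.cons_val_one, Matrix.cons_val, sw1_apply, sw2_apply]
  have e3 : (-(1 / 2 + (3 * s - s) + w) : ℂ) = -(1 / 2 + (2 * s + w)) := by ring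
  have e4 : (-(1 / 2 + s + w) : ℂ) = -(1 / 2 + (s + w)) := by ring
  have e5 : Real.log (q.2.2 : ℕ) - Real.log (q.2.1 : ℕ) = -(Real.log (q.2.1 : ℕ) - Real.log (q.2.2 : ℕ)) := by ring
  have e5' : Real.log (q.1.2 : ℕ) - Real.log (q.1.1 : ℕ) = -(Real.log (q.1.1 : ℕ) - Real.log (q.1.2 : ℕ)) := by ring
  have e6 : (b : ℕ) * (q.2.2 : ℕ) * (q.2.1 : ℕ) = (b : ℕ) * (q.2.1 : ℕ) * (q.2.2 : ℕ) := by ring
  have e6' : (a : ℕ) * (q.1.2 : ℕ) * (q.1.1 : ℕ) = (a : ℕ) * (q.1.1 : ℕ) * (q.1.2 : ℕ) := by ring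
  rw [e3, e4, e5, e5', e6, e6']
  ring

/-- summability of all the terms -/
def SumT (e : Fin 4 → ℂ) (φ K : ℝ → ℂ) (a b : ℕ+) : Prop :=
  Summable fun q : (ℕ+ × ℕ+) × (ℕ+ × ℕ+) => ‖T4 e φ φ K a b q‖

theorem sumT_if {e : Fin 4 → ℂ} {φ K : ℝ → ℂ} {a b : ℕ+} (h : SumT e φ K a b) :
    Summable fun q : (ℕ+ × ℕ+) × (ℕ+ × ℕ+) => if a * q.1.1 * q.1.2 = b * q.2.1 * q.2.2 then 0 else
      T4 e φ φ K a b q := by
  refine Summable.of_norm_bounded h fun q => ?_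
  split_ifs
  · simp
  · exact le_rfl

theorem OD_eq {s : ℂ} (hs0 : s ≠ 0) {Ω : ℝ → ℂ} (a b : ℕ+) (t : ℝ)
    (h1 : SumT (ev s s s (2 + t * I)) (ph s) (KK Ω (2 + t * I)) a b)
    (h2 : SumT (ev s s (2 * s) (2 + t * I)) (ph s) (KK Ω (2 + t * I)) a b)
    (h3 : SumT (ev s (2 * s) s (2 + t * I)) (ph s) (KK Ω (2 + t * I)) a b)
    (h4 : SumT (ev s (2 * s) (2 * s) (2 + t * I)) (ph s) (KK Ω (2 + t * I)) a b) :
    ODt s Ω a b t =
      SOD (ev s s s (2 + t * I)) (ph s) (ph s) (KK Ω (2 + t * I)) a b +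
      SOD (ev s s (2 * s) (2 + t * I)) (ph s) (ph s) (KK Ω (2 + t * I)) a b +
      (SOD (ev s (2 * s) s (2 + t * I)) (ph s) (ph s) (KK Ω (2 + t * I)) a b +
      SOD (ev s (2 * s) (2 * s) (2 + t * I)) (ph s) (ph s) (KK Ω (2 + t * I)) a b) := by
  set w : ℂ := 2 + t * I with hw
  have u1 := sumT_if h1
  have u2 := sumT_if h2
  have u3 := sumT_if h3
  have u4 := sumT_if h4
  have v1 := (Equiv.summable_iff (sw2.trans sw1)).2 u1
  have v2 := (Equiv.summable_iff sw1).2 u2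
  have v3 := (Equiv.summable_iff sw2).2 u3
  simp only [Function.comp_def] at v1 v2 v3
  have t1 := Equiv.tsum_eq (sw2.trans sw1) (fun q : (ℕ+ × ℕ+) × (ℕ+ × ℕ+) =>
    if a * q.1.1 * q.1.2 = b * q.2.1 * q.2.2 then 0 else T4 (ev s s s w) (ph s) (ph s) (KK Ω w) a b q)
  have t2 := Equiv.tsum_eq sw1 (fun q : (ℕ+ × ℕ+) × (ℕ+ × ℕ+) =>
    if a * q.1.1 * q.1.2 = b * q.2.1 * q.2.2 then 0 else T4 (ev s s (2 * s) w) (ph s) (ph s) (KK Ω w) a b q)
  have t3 := Equiv.tsum_eq sw2 (fun q : (ℕ+ × ℕ+) × (ℕ+ × ℕ+) =>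
    if a * q.1.1 * q.1.2 = b * q.2.1 * q.2.2 then 0 else T4 (ev s (2 * s) s w) (ph s) (ph s) (KK Ω w) a b q)
  unfold SOD ODt
  rw [← t1, ← t2, ← t3, ← hw]
  rw [← v1.tsum_add v2, ← v3.tsum_add u4, ← (v1.add v2).tsum_add (v3.add u4)]
  refine tsum_congr fun q => ?_
  have c1 : (a * ((sw2.trans sw1) q).1.1 * ((sw2.trans sw1) q).1.2 = b * ((sw2.trans sw1) q).2.1 * ((sw2.trans sw1) q).2.2) ↔
      (a * q.1.1 * q.1.2 = b * q.2.1 * q.2.2) := (cond_sw1 a b (sw2 q)).trans (cond_sw2 a b q)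
  have c2 := cond_sw1 a b q
  have c3 := cond_sw2 a b q
  by_cases hc : a * q.1.1 * q.1.2 = b * q.2.1 * q.2.2
  · rw [if_pos hc, if_pos (c1.2 hc), if_pos (c2.2 hc), if_pos (c3.2 hc), if_pos hc]
    ring
  · rw [if_neg hc, if_neg (mt c1.1 hc), if_neg (mt c2.1 hc), if_neg (mt c3.1 hc), if_neg hc]
    rw [Equiv.trans_apply, T4_mm, T4_mp, T4_pm, T4_pp]
    have p1 := ph_add hs0 (Real.log (q.1.1 : ℕ) - Real.log (q.1.2 : ℕ))
    have p2 := ph_add hs0 (Real.log (q.2.1 : ℕ) - Real.log (q.2.2 : ℕ))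
    set A := ph s (Real.log (q.1.1 : ℕ) - Real.log (q.1.2 : ℕ))
    set A' := ph s (-(Real.log (q.1.1 : ℕ) - Real.log (q.1.2 : ℕ)))
    set B := ph s (Real.log (q.2.1 : ℕ) - Real.log (q.2.2 : ℕ))
    set B' := ph s (-(Real.log (q.2.1 : ℕ) - Real.log (q.2.2 : ℕ)))
    have p3 : A' = 1 - A := by linear_combination p1
    have p4 : B' = 1 - B := by linear_combination p2
    rw [p3, p4]
    ring

/-! ### the off-diagonal terms and the zero frequency terms -/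

theorem T4_scale (e : Fin 4 → ℂ) (φ K : ℝ → ℂ) (a b : ℕ+) (A B : ℂ) (q : (ℕ+ × ℕ+) × (ℕ+ × ℕ+)) :
    T4 e (fun L => φ L / A) (fun L => φ L / A) (fun y => K y / B) a b q = T4 e φ φ K a b q / (A * A * B) := by
  unfold T4
  simp only [div_eq_mul_inv, mul_inv]
  ring

theorem SOD_scale (e : Fin 4 → ℂ) (φ K : ℝ → ℂ) (a b : ℕ+) (A B : ℂ) :
    SOD e (fun L => φ L / A) (fun L => φ L / A) (fun y => K y / B) a b = SOD e φ φ K a b / (A * A * B) := by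
  unfold SOD
  rw [← tsum_div_const]
  refine tsum_congr fun q => ?_
  rw [T4_scale]
  split_ifs
  · simp
  · rfl

theorem ZF_scale (e : Fin 4 → ℂ) (φ K : ℝ → ℂ) (a b : ℕ+) (A B : ℂ) :
    ZF e (fun L => φ L / A) (fun L => φ L / A) (fun y => K y / B) a b = ZF e φ φ K a b / (A * A * B) := by
  unfold ZF
  rw [← tsum_div_const]
  refine tsum_congr fun p => ?_
  rw [← tsum_div_const]
  refine tsum_congr fun l => ?_
  rw [← integral_div]
  refine integral_congr_ae (Filter.Eventually.of_forall fun σ => ?_)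
  simp only [div_eq_mul_inv, mul_inv]
  ring

theorem ev_re {s α β : ℂ} (hs : ‖s‖ = rho) (hα : α = s ∨ α = 2 * s) (hβ : β = s ∨ β = 2 * s) (t : ℝ) (i : Fin 4) :
    |(ev s α β (2 + t * I) i).re - 5 / 2| ≤ 1 / 1000 ∧ ‖ev s α β (2 + t * I) i‖ ≤ 1 + ‖(2 + t * I : ℂ)‖ := by
  have hr := rho_le
  have key : ∀ c : ℂ, ‖c‖ ≤ 5 * rho → |(1 / 2 + c + (2 + t * I)).re - 5 / 2| ≤ 1 / 1000 ∧
      ‖1 / 2 + c + (2 + t * I)‖ ≤ 1 + ‖(2 + t * I : ℂ)‖ := by
    intro c hc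
    constructor
    · have h1 : (1 / 2 + c + (2 + t * I)).re - 5 / 2 = c.re := by simp; ring
      rw [h1]
      have := Complex.abs_re_le_norm c
      linarith
    · have h1 := norm_add_le (1 / 2 + c) (2 + t * I)
      have h2 := norm_add_le (1 / 2 : ℂ) c
      have h3 : ‖(1 / 2 : ℂ)‖ = 1 / 2 := by simp
      linarith
  have h2s : ‖2 * s‖ = 2 * rho := by rw [norm_mul, hs]; simp
  have h3s : ‖3 * s‖ = 3 * rho := by rw [norm_mul, hs]; simp
  have hα' : ‖α‖ ≤ 2 * rho := by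
    have := rho_pos
    rcases hα with h | h
    · rw [h, hs]; linarith
    · rw [h, h2s]
  have hβ' : ‖β‖ ≤ 2 * rho := by
    have := rho_pos
    rcases hβ with h | h
    · rw [h, hs]; linarith
    · rw [h, h2s]
  have hr0 := rho_pos
  fin_cases i
  · exact key (3 * s - α) ((norm_sub_le _ _).trans (by linarith))
  · exact key α (by linarith)
  · exact key (3 * s - β) ((norm_sub_le _ _).trans (by linarith))
  · exact key β (by linarith)

theorem sod_zf : ∃ C : ℝ, 0 < C ∧ ∀ (U Δ : ℝ) (Ω : ℝ → ℂ) (a b : ℕ+) (s : ℂ), 1 ≤ U → U ^ (1 - 1 / 1000 : ℝ) ≤ Δ →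
    Δ ≤ U → Adm U Δ Ω → ‖s‖ = rho → Nat.Coprime (a : ℕ) (b : ℕ) → ((a : ℕ) : ℝ) ≤ U ^ (1 / 1000 : ℝ) →
    ((b : ℕ) : ℝ) ≤ U ^ (1 / 1000 : ℝ) → ∀ (t : ℝ) (α β : ℂ), (α = s ∨ α = 2 * s) → (β = s ∨ β = 2 * s) →
    SumT (ev s α β (2 + t * I)) (ph s) (KK Ω (2 + t * I)) a b ∧
    ‖SOD (ev s α β (2 + t * I)) (ph s) (ph s) (KK Ω (2 + t * I)) a b -
      ZF (ev s α β (2 + t * I)) (ph s) (ph s) (KK Ω (2 + t * I)) a b‖ ≤
      C * (1 + ‖(2 + t * I : ℂ)‖) ^ 10 * U ^ (1 - 1 / 16 : ℝ) := by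
  obtain ⟨C₀, hC₀, h0⟩ := off_diag
  obtain ⟨C₁, hC₁, h1⟩ := ph_bound rho rho_pos
  obtain ⟨C₂, hC₂, h2⟩ := kk_bound
  refine ⟨C₁ * C₁ * C₂ * (C₀ * 25), by positivity, ?_⟩
  intro U Δ Ω a b s hU hΔ hΔU hΩ hs hab ha hb t α β hα hβ
  set w : ℂ := 2 + t * I with hw
  have hU0 : 0 < U := by linarith
  have hΔ0 : 0 < Δ := lt_of_lt_of_le (by positivity) hΔ
  have hre : w.re = 2 := by simp [hw]
  have h1' := h1 s hs
  have h2' := h2 U Δ Ω w hU hΔ0 hΔU hΩ (by rw [hre]; norm_num) (by rw [hre])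
  set B : ℝ := C₂ * (1 + ‖w‖) ^ 8 * U ^ (1 + 2 * w.re) with hB
  have hB0 : 0 < B := by positivity
  have hev := fun i => ev_re hs hα hβ t i
  obtain ⟨r1, -, r3⟩ := h0 U Δ (1 / 1000) (ev s α β w) (fun L => ph s L / C₁) (fun L => ph s L / C₁)
    (fun y => KK Ω w y / (B : ℂ)) a b hU (by norm_num) le_rfl hΔ hΔU (fun i => (hev i).1) ha hb hab h1' h1' h2'
  have hA : ((C₁ : ℝ) : ℂ) ≠ 0 := by exact_mod_cast (by linarith : C₁ ≠ 0)
  have hBc : ((B : ℝ) : ℂ) ≠ 0 := by exact_mod_cast hB0.ne'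
  have hABC : ((C₁ : ℂ) * C₁ * B) ≠ 0 := mul_ne_zero (mul_ne_zero hA hA) hBc
  constructor
  · unfold SumT
    have := r1.mul_left ‖((C₁ : ℂ) * C₁ * B)‖
    refine this.congr fun q => ?_
    rw [T4_scale, ← norm_mul, mul_div_cancel₀ _ hABC]
  · rw [SOD_scale, ZF_scale, ← sub_div, norm_div] at r3
    have hn : ‖((C₁ : ℂ) * C₁ * B)‖ = C₁ * C₁ * B := by
      rw [norm_mul, norm_mul, Complex.norm_real, Complex.norm_real, Real.norm_of_nonneg (by linarith),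
        Real.norm_of_nonneg hB0.le]
    rw [hn, div_le_iff₀ (by positivity)] at r3
    refine r3.trans ?_
    have hsum : 1 + ∑ i, ‖ev s α β w i‖ ≤ 5 * (1 + ‖w‖) := by
      rw [Fin.sum_univ_four]
      have e0 := (hev 0).2
      have e1 := (hev 1).2
      have e2 := (hev 2).2
      have e3 := (hev 3).2
      rw [← hw] at e0 e1 e2 e3
      have := norm_nonneg w
      linarith
    have hsum0 : 0 ≤ 1 + ∑ i, ‖ev s α β w i‖ := by positivity
    have hpow : U ^ (1 + 2 * w.re) * U ^ (-(4 + 1 / 16) : ℝ) = U ^ (1 - 1 / 16 : ℝ) := by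
      rw [← Real.rpow_add hU0, hre]
      congr 1
      norm_num
    calc C₀ * (1 + ∑ i, ‖ev s α β w i‖) ^ 2 * U ^ (-(4 + 1 / 16) : ℝ) * (C₁ * C₁ * B)
        ≤ C₀ * (5 * (1 + ‖w‖)) ^ 2 * U ^ (-(4 + 1 / 16) : ℝ) * (C₁ * C₁ * B) := by gcongr
      _ = C₁ * C₁ * C₂ * (C₀ * 25) * (1 + ‖w‖) ^ 10 * (U ^ (1 + 2 * w.re) * U ^ (-(4 + 1 / 16) : ℝ)) := by
          rw [hB]; ring
      _ = _ := by rw [hpow]

/-! ### the diagonal in integral form -/

/-- the diagonal integrand without the power of `x` -/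
noncomputable def Fd4 (s : ℂ) (a b : ℕ+) (t : ℝ) : ℂ :=
  Qw s t * DD a b (s + (2 + t * I)) (2 * s + (2 + t * I)) (s + (2 + t * I)) (2 * s + (2 + t * I))

theorem Fd4_int {s : ℂ} (hs : ‖s‖ = rho) (a b : ℕ+) : Integrable (Fd4 s a b) := by
  have h := (shift_d hs (x := 2 * Real.pi) (by positivity) a b).1
  refine h.congr (Filter.Eventually.of_forall fun t => ?_)
  simp only
  rw [X2_pi, mul_one]
  rfl

noncomputable def gD (s : ℂ) (Ω : ℝ → ℂ) (U : ℝ) (a b : ℕ+) (p : ℝ × ℝ) : ℂ :=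
  (Ω p.1 * XX U p.1 (2 * (2 + p.2 * I))) * Fd4 s a b p.2

theorem gD_int {s : ℂ} (hs : ‖s‖ = rho) {U Δ : ℝ} (hU : 1 ≤ U) {Ω : ℝ → ℂ} (hΩ : Adm U Δ Ω) (a b : ℕ+) :
    Integrable (gD s Ω U a b) (volume.prod volume) := by
  have h1 : Integrable (fun x => ‖Ω x‖ * Real.exp (Mx U * 4)) := (om_int hΩ).norm.mul_const _
  have h2 := (Fd4_int hs a b).norm
  refine (h1.mul_prod h2).mono' ?_ ?_
  · refine AEStronglyMeasurable.mul ?_ ?_
    · have hc : Continuous fun p : ℝ × ℝ => Ω p.1 * XX U p.1 (2 * (2 + p.2 * I)) :=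
        ((om_cont hΩ).comp continuous_fst).mul (XX_cont hU continuous_fst (by fun_prop))
      exact hc.aestronglyMeasurable
    · exact (Fd4_int hs a b).aestronglyMeasurable.comp_snd
  · refine Filter.Eventually.of_forall fun p => ?_
    unfold gD
    rw [norm_mul]
    exact mul_le_mul_of_nonneg_right (om_bd hU hΩ p.1 (by rw [re_two_w]; norm_num)) (norm_nonneg _)

theorem diag {s : ℂ} (hs : ‖s‖ = rho) {U Δ : ℝ} (hU : 1 ≤ U) {Ω : ℝ → ℂ} (hΩ : Adm U Δ Ω) (a b : ℕ+) :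
    Integrable (fun x => Ω x * Dint s x a b) ∧
    Integrable (fun t : ℝ => Qw s t * (KK Ω (2 + t * I) 0 *
      DD a b (s + (2 + t * I)) (2 * s + (2 + t * I)) (s + (2 + t * I)) (2 * s + (2 + t * I)))) ∧
    ∫ x : ℝ, Ω x * Dint s x a b = (2 * Real.pi : ℂ)⁻¹ * ∫ t : ℝ, Qw s t * (KK Ω (2 + t * I) 0 *
      DD a b (s + (2 + t * I)) (2 * s + (2 + t * I)) (s + (2 + t * I)) (2 * s + (2 + t * I))) := by
  have h := gD_int hs hU hΩ a b
  have h1 : ∀ t : ℝ, ∫ x : ℝ, gD s Ω U a b (x, t) = Qw s t * (KK Ω (2 + t * I) 0 *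
      DD a b (s + (2 + t * I)) (2 * s + (2 + t * I)) (s + (2 + t * I)) (2 * s + (2 + t * I))) := by
    intro t
    unfold gD Fd4 KK
    simp only
    rw [integral_mul_const]
    have : ∀ x : ℝ, Ω x * X2 x (2 * (2 + t * I)) * cexp (((-(x * 0) : ℝ) : ℂ) * I) =
        Ω x * XX U x (2 * (2 + t * I)) := by
      intro x
      rw [om_XX hU hΩ]
      simp
    simp_rw [this]
    ring
  have h2 : ∀ x : ℝ, Ω x * Dint s x a b = (2 * Real.pi : ℂ)⁻¹ * ∫ t : ℝ, gD s Ω U a b (x, t) := by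
    intro x
    by_cases hx : 0 < x
    · rw [← (shift_d hs hx a b).2, mul_left_comm, ← integral_const_mul]
      congr 1
      refine integral_congr_ae (Filter.Eventually.of_forall fun t => ?_)
      unfold gD Fd4 Qw
      simp only
      rw [om_XX hU hΩ]
      ring
    · have h0 : Ω x = 0 := hΩ.2.1 x (by linarith)
      unfold gD
      simp [h0]
  refine ⟨?_, ?_, ?_⟩
  · have := h.integral_prod_left.const_mul (2 * Real.pi : ℂ)⁻¹
    refine this.congr (Filter.Eventually.of_forall fun x => ?_)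
    simp only
    rw [h2]
  · refine h.integral_prod_right.congr (Filter.Eventually.of_forall fun t => ?_)
    exact h1 t
  · simp_rw [h2, integral_const_mul]
    congr 1
    rw [integral_integral_swap (f := fun x t => gD s Ω U a b (x, t)) h]
    exact integral_congr_ae (Filter.Eventually.of_forall h1)

/-! ### the zero frequency terms in integral form -/

/-- the integrand of the zero frequency terms without the power of `x` -/
noncomputable def Fz (s α β : ℂ) (a b : ℕ+) (v : ℝ × (ℝ × ℝ)) : ℂ :=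
  Qw s v.1 * Z1 s α β (2 * Real.pi) a b (2 + v.1 * I) (7 / 4 + v.2.1 * I) (7 / 4 + v.2.2 * I)

theorem Fz_int {s : ℂ} (hs : ‖s‖ = rho) {α β : ℂ} (hα : α = s ∨ α = 2 * s) (hβ : β = s ∨ β = 2 * s) (a b : ℕ+) :
    Integrable (Fz s α β a b) (volume.prod volume) :=
  (shift_b hs hα hβ (x := 2 * Real.pi) (by positivity) a b).1

/-- the exponent of `x` -/
noncomputable def ez (α β : ℂ) (z : ℝ × ℝ) : ℂ := -α - β + (7 / 4 + z.1 * I) + (7 / 4 + z.2 * I)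

theorem Z1_eq (s α β : ℂ) (x : ℝ) (a b : ℕ+) (w : ℂ) (z : ℝ × ℝ) :
    Z1 s α β x a b w (7 / 4 + z.1 * I) (7 / 4 + z.2 * I) = X2 x (ez α β z) *
      Z1 s α β (2 * Real.pi) a b w (7 / 4 + z.1 * I) (7 / 4 + z.2 * I) := by
  unfold Z1
  rw [X2_pi]
  unfold ez
  ring

noncomputable def gZ (s α β : ℂ) (Ω : ℝ → ℂ) (U : ℝ) (a b : ℕ+) (p : ℝ × (ℝ × (ℝ × ℝ))) : ℂ :=
  (Ω p.1 * XX U p.1 (ez α β p.2.2)) * Fz s α β a b p.2

theorem gZ_int {s : ℂ} (hs : ‖s‖ = rho) {α β : ℂ} (hα : α = s ∨ α = 2 * s) (hβ : β = s ∨ β = 2 * s)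
    {U Δ : ℝ} (hU : 1 ≤ U) {Ω : ℝ → ℂ} (hΩ : Adm U Δ Ω) (a b : ℕ+) :
    Integrable (gZ s α β Ω U a b) (volume.prod (volume.prod volume)) := by
  have h1 : Integrable (fun x => ‖Ω x‖ * Real.exp (Mx U * (4 + ‖α‖ + ‖β‖))) := (om_int hΩ).norm.mul_const _
  have h2 := (Fz_int hs hα hβ a b).norm
  refine (h1.mul_prod h2).mono' ?_ ?_
  · refine AEStronglyMeasurable.mul ?_ ?_
    · have hc : Continuous fun p : ℝ × (ℝ × (ℝ × ℝ)) => Ω p.1 * XX U p.1 (ez α β p.2.2) := by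
        refine ((om_cont hΩ).comp continuous_fst).mul (XX_cont hU continuous_fst ?_)
        unfold ez
        fun_prop
      exact hc.aestronglyMeasurable
    · exact (Fz_int hs hα hβ a b).aestronglyMeasurable.comp_snd
  · refine Filter.Eventually.of_forall fun p => ?_
    unfold gZ
    rw [norm_mul]
    refine mul_le_mul_of_nonneg_right (om_bd hU hΩ p.1 ?_) (norm_nonneg _)
    have e : (ez α β p.2.2).re = -α.re - β.re + 7 / 2 := by
      unfold ez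
      simp
      ring
    rw [e]
    have a1 := Complex.abs_re_le_norm α
    have a2 := Complex.abs_re_le_norm β
    rw [abs_le] at *
    constructor <;> linarith [norm_nonneg α, norm_nonneg β]

theorem zero_freq {s : ℂ} (hs : ‖s‖ = rho) {α β : ℂ} (hα : α = s ∨ α = 2 * s) (hβ : β = s ∨ β = 2 * s)
    {U Δ : ℝ} (hU : 1 ≤ U) (hΔ : 0 < Δ) {Ω : ℝ → ℂ} (hΩ : Adm U Δ Ω) (a b : ℕ+) :
    Integrable (fun x => Ω x * Zint s α β x a b) ∧
    Integrable (fun t : ℝ => Qw s t * ZF (ev s α β (2 + t * I)) (ph s) (ph s) (KK Ω (2 + t * I)) a b) ∧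
    ∫ x : ℝ, Ω x * Zint s α β x a b = (2 * Real.pi : ℂ)⁻¹ *
      ∫ t : ℝ, Qw s t * ZF (ev s α β (2 + t * I)) (ph s) (ph s) (KK Ω (2 + t * I)) a b := by
  have h := gZ_int hs hα hβ hU hΩ a b
  have hr := rho_le
  have hr0 := rho_pos
  have hs0 : s ≠ 0 := by
    rintro rfl
    rw [norm_zero] at hs
    linarith
  have h2s : ‖2 * s‖ = 2 * rho := by rw [norm_mul, hs]; simp
  have hα' : ‖α‖ ≤ 1 / 100 := by
    rcases hα with h | h
    · rw [h, hs]; linarith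
    · rw [h, h2s]; linarith
  have hβ' : ‖β‖ ≤ 1 / 100 := by
    rcases hβ with h | h
    · rw [h, hs]; linarith
    · rw [h, h2s]; linarith
  have h2pi : (2 * Real.pi : ℂ) ≠ 0 := by exact_mod_cast (by positivity : (2 * Real.pi : ℝ) ≠ 0)
  -- the two orders
  have hassoc : MeasurePreserving (MeasurableEquiv.prodAssoc : (ℝ × ℝ) × (ℝ × ℝ) ≃ᵐ ℝ × (ℝ × (ℝ × ℝ)))
      (((volume : Measure ℝ).prod (volume : Measure ℝ)).prod (volume.prod volume))
      ((volume : Measure ℝ).prod ((volume : Measure ℝ).prod (volume.prod volume))) :=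
    ⟨MeasurableEquiv.prodAssoc.measurable, Measure.prodAssoc_prod⟩
  have h' : Integrable (fun p : (ℝ × ℝ) × (ℝ × ℝ) => gZ s α β Ω U a b (p.1.1, (p.1.2, p.2)))
      ((volume.prod volume).prod (volume.prod volume)) :=
    (hassoc.integrable_comp_emb MeasurableEquiv.prodAssoc.measurableEmbedding).2 h
  -- integrated over `z`
  have hu : Integrable (fun p : ℝ × ℝ => ∫ z : ℝ × ℝ, gZ s α β Ω U a b (p.1, (p.2, z))) (volume.prod volume) :=
    h'.integral_prod_left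
  have k1 : ∀ x t : ℝ, ∫ z : ℝ × ℝ, gZ s α β Ω U a b (x, (t, z)) = Qw s t * (Ω x *
      ∫ z : ℝ × ℝ, Z1 s α β x a b (2 + t * I) (7 / 4 + z.1 * I) (7 / 4 + z.2 * I)) := by
    intro x t
    rw [← integral_const_mul, ← integral_const_mul]
    refine integral_congr_ae (Filter.Eventually.of_forall fun z => ?_)
    simp only
    rw [Z1_eq]
    unfold gZ Fz
    simp only
    rw [om_XX hU hΩ]
    ring
  have k2 : ∀ t : ℝ, ∫ x : ℝ, ∫ z : ℝ × ℝ, gZ s α β Ω U a b (x, (t, z)) = (2 * Real.pi : ℂ) ^ 2 *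
      (Qw s t * ZF (ev s α β (2 + t * I)) (ph s) (ph s) (KK Ω (2 + t * I)) a b) := by
    intro t
    rw [zf_sum U Δ hU hΔ Ω hΩ s α β hs0 (by rw [hs]; linarith) hα' hβ' t a b]
    simp_rw [k1]
    rw [integral_const_mul]
    have : ∀ x : ℝ, Ω x * (((2 * Real.pi : ℂ) ^ 2)⁻¹ *
        ∫ z : ℝ × ℝ, Z1 s α β x a b (2 + t * I) (7 / 4 + z.1 * I) (7 / 4 + z.2 * I)) =
        ((2 * Real.pi : ℂ) ^ 2)⁻¹ * (Ω x *
        ∫ z : ℝ × ℝ, Z1 s α β x a b (2 + t * I) (7 / 4 + z.1 * I) (7 / 4 + z.2 * I)) := by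
      intro x
      ring
    simp_rw [this]
    rw [integral_const_mul]
    field_simp
  have k3 : ∀ x : ℝ, Ω x * Zint s α β x a b = ((2 * Real.pi : ℂ) ^ 3)⁻¹ *
      ∫ v : ℝ × (ℝ × ℝ), gZ s α β Ω U a b (x, v) := by
    intro x
    by_cases hx : 0 < x
    · rw [← (shift_b hs hα hβ hx a b).2, mul_left_comm, ← integral_const_mul]
      congr 1
      refine integral_congr_ae (Filter.Eventually.of_forall fun v => ?_)
      simp only
      rw [Z1_eq s α β x]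
      unfold gZ Fz Qw
      simp only
      rw [om_XX hU hΩ]
      ring
    · have h0 : Ω x = 0 := hΩ.2.1 x (by linarith)
      unfold gZ
      simp [h0]
  have k4 : ∀ᵐ x : ℝ, ∫ v : ℝ × (ℝ × ℝ), gZ s α β Ω U a b (x, v) =
      ∫ t : ℝ, ∫ z : ℝ × ℝ, gZ s α β Ω U a b (x, (t, z)) := by
    filter_upwards [h.prod_right_ae] with x hx
    exact integral_prod _ hx
  refine ⟨?_, ?_, ?_⟩
  · have := h.integral_prod_left.const_mul ((2 * Real.pi : ℂ) ^ 3)⁻¹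
    refine this.congr (Filter.Eventually.of_forall fun x => ?_)
    simp only
    rw [k3]
    rfl
  · have := hu.integral_prod_right.const_mul ((2 * Real.pi : ℂ) ^ 2)⁻¹
    refine this.congr (Filter.Eventually.of_forall fun t => ?_)
    simp only
    rw [k2]
    field_simp
  · simp_rw [k3, integral_const_mul]
    rw [integral_congr_ae k4,
      integral_integral_swap (f := fun x t => ∫ z : ℝ × ℝ, gZ s α β Ω U a b (x, (t, z))) hu]
    simp_rw [k2]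
    rw [integral_const_mul, ← mul_assoc]
    congr 1
    field_simp

/-! ### one half -/

theorem pow10_int : ∃ K : ℝ → ℝ, Integrable K ∧ ∀ t : ℝ,
    Real.exp (-(t ^ 2 / 2)) * (1 + ‖(2 + t * I : ℂ)‖) ^ 10 ≤ K t := by
  have h1 : Integrable fun t : ℝ => (Nat.factorial 10 : ℝ) * Real.exp 4 * Real.exp (-(1 / 4) * t ^ 2) :=
    (integrable_exp_neg_mul_sq (by norm_num)).const_mul _
  refine ⟨_, h1, fun t => ?_⟩
  have hn : ‖(2 + t * I : ℂ)‖ ≤ 2 + |t| := by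
    refine (norm_add_le _ _).trans ?_
    rw [norm_mul, Complex.norm_I, mul_one, Complex.norm_real]
    simp
  have h2 : (1 + ‖(2 + t * I : ℂ)‖) ^ 10 ≤ (Nat.factorial 10 : ℝ) * Real.exp (3 + |t|) := by
    have h3 := Real.pow_div_factorial_le_exp (3 + |t|) (by positivity) 10
    rw [div_le_iff₀ (by positivity)] at h3
    calc (1 + ‖(2 + t * I : ℂ)‖) ^ 10 ≤ (3 + |t|) ^ 10 := by
          apply pow_le_pow_left₀ (by positivity)
          linarith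
      _ ≤ _ := by rw [mul_comm]; exact h3
  calc Real.exp (-(t ^ 2 / 2)) * (1 + ‖(2 + t * I : ℂ)‖) ^ 10
      ≤ Real.exp (-(t ^ 2 / 2)) * ((Nat.factorial 10 : ℝ) * Real.exp (3 + |t|)) := by gcongr
    _ = (Nat.factorial 10 : ℝ) * Real.exp (-(t ^ 2 / 2) + (3 + |t|)) := by
        rw [Real.exp_add (-(t ^ 2 / 2)) (3 + |t|)]
        ac_rfl
    _ ≤ (Nat.factorial 10 : ℝ) * Real.exp (4 + -(1 / 4) * t ^ 2) := by
        refine mul_le_mul_of_nonneg_left (Real.exp_le_exp.2 ?_) (by positivity)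
        have := sq_nonneg (|t| / 2 - 1)
        have e : t ^ 2 = |t| ^ 2 := (sq_abs t).symm
        nlinarith
    _ = _ := by
        rw [Real.exp_add 4]
        ac_rfl

theorem int5 {f0 f1 f2 f3 f4 : ℝ → ℂ} (h0 : Integrable f0) (h1 : Integrable f1) (h2 : Integrable f2)
    (h3 : Integrable f3) (h4 : Integrable f4) :
    Integrable (fun x => f0 x + ((f1 x + f2 x) + (f3 x + f4 x))) ∧
    ∫ x, (f0 x + ((f1 x + f2 x) + (f3 x + f4 x))) =
      (∫ x, f0 x) + (((∫ x, f1 x) + ∫ x, f2 x) + ((∫ x, f3 x) + ∫ x, f4 x)) := by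
  have h12 : Integrable fun x => f1 x + f2 x := h1.add h2
  have h34 : Integrable fun x => f3 x + f4 x := h3.add h4
  have h14 : Integrable fun x => (f1 x + f2 x) + (f3 x + f4 x) := h12.add h34
  refine ⟨h0.add h14, ?_⟩
  rw [integral_add h0 h14, integral_add h12 h34, integral_add h1 h2, integral_add h3 h4]

theorem half_core : ∃ C : ℝ, 0 < C ∧ ∀ (U Δ : ℝ) (Ω : ℝ → ℂ) (a b : ℕ+) (s : ℂ), 1 ≤ U → U ^ (1 - 1 / 1000 : ℝ) ≤ Δ →
    Δ ≤ U → Adm U Δ Ω → ‖s‖ = rho → Nat.Coprime (a : ℕ) (b : ℕ) → ((a : ℕ) : ℝ) ≤ U ^ (1 / 1000 : ℝ) →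
    ((b : ℕ) : ℝ) ≤ U ^ (1 / 1000 : ℝ) →
    Integrable (fun x => Ω x * MI s x a b) ∧
    ‖(∫ x : ℝ, Ω x * AH s x * ex x (a, b)) - ∫ x : ℝ, Ω x * MI s x a b‖ ≤ C * U ^ (1 - 1 / 16 : ℝ) := by
  obtain ⟨C₁, hC₁, h1⟩ := sod_zf
  obtain ⟨C₂, hC₂, h2⟩ := Qw_bound
  obtain ⟨K, hK, hK2⟩ := pow10_int
  have hK0 : ∀ t, 0 ≤ K t := fun t => le_trans (by positivity) (hK2 t)
  have hKi : 0 ≤ ∫ t, K t := integral_nonneg hK0
  refine ⟨C₂ * (4 * C₁) * (∫ t, K t) + 1, by positivity, ?_⟩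
  intro U Δ Ω a b s hU hΔ hΔU hΩ hs hab ha hb
  have hU0 : 0 < U := by linarith
  have hΔ0 : 0 < Δ := lt_of_lt_of_le (by positivity) hΔ
  have hs0 : s ≠ 0 := by
    rintro rfl
    rw [norm_zero] at hs
    have := rho_pos
    linarith
  have hh := h1 U Δ Ω a b s hU hΔ hΔU hΩ hs hab ha hb
  obtain ⟨-, A2, A3⟩ := total hs hU hΩ a b
  obtain ⟨D1, D2, D3⟩ := diag hs hU hΩ a b
  obtain ⟨P1, P2, P3⟩ := zero_freq hs (Or.inl rfl) (Or.inl rfl) hU hΔ0 hΩ a b (α := s) (β := s)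
  obtain ⟨Q1, Q2, Q3⟩ := zero_freq hs (Or.inl rfl) (Or.inr rfl) hU hΔ0 hΩ a b (α := s) (β := 2 * s)
  obtain ⟨R1, R2, R3⟩ := zero_freq hs (Or.inr rfl) (Or.inl rfl) hU hΔ0 hΩ a b (α := 2 * s) (β := s)
  obtain ⟨S1, S2, S3⟩ := zero_freq hs (Or.inr rfl) (Or.inr rfl) hU hΔ0 hΩ a b (α := 2 * s) (β := 2 * s)
  have hM : ∀ x, Ω x * MI s x a b = Ω x * Dint s x a b + ((Ω x * Zint s s s x a b + Ω x * Zint s s (2 * s) x a b) +
      (Ω x * Zint s (2 * s) s x a b + Ω x * Zint s (2 * s) (2 * s) x a b)) := by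
    intro x
    unfold MI
    ring
  have J1 := int5 D1 P1 Q1 R1 S1
  have J2 := int5 D2 P2 Q2 R2 S2
  refine ⟨?_, ?_⟩
  · simp_rw [hM]
    exact J1.1
  have e2 : ∫ x : ℝ, Ω x * MI s x a b = (2 * Real.pi : ℂ)⁻¹ * ∫ t : ℝ,
      (Qw s t * (KK Ω (2 + t * I) 0 *
      DD a b (s + (2 + t * I)) (2 * s + (2 + t * I)) (s + (2 + t * I)) (2 * s + (2 + t * I))) +
      ((Qw s t * ZF (ev s s s (2 + t * I)) (ph s) (ph s) (KK Ω (2 + t * I)) a b +
      Qw s t * ZF (ev s s (2 * s) (2 + t * I)) (ph s) (ph s) (KK Ω (2 + t * I)) a b) +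
      (Qw s t * ZF (ev s (2 * s) s (2 + t * I)) (ph s) (ph s) (KK Ω (2 + t * I)) a b +
      Qw s t * ZF (ev s (2 * s) (2 * s) (2 + t * I)) (ph s) (ph s) (KK Ω (2 + t * I)) a b))) := by
    simp_rw [hM]
    rw [J1.2, J2.2, D3, P3, Q3, R3, S3]
    ring
  rw [A3, e2, ← mul_sub, ← integral_sub A2 J2.1]
  rw [norm_mul]
  have hpt : ∀ t : ℝ, ‖Qw s t * JJt s Ω a b t - (Qw s t * (KK Ω (2 + t * I) 0 *
      DD a b (s + (2 + t * I)) (2 * s + (2 + t * I)) (s + (2 + t * I)) (2 * s + (2 + t * I))) +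
      ((Qw s t * ZF (ev s s s (2 + t * I)) (ph s) (ph s) (KK Ω (2 + t * I)) a b +
      Qw s t * ZF (ev s s (2 * s) (2 + t * I)) (ph s) (ph s) (KK Ω (2 + t * I)) a b) +
      (Qw s t * ZF (ev s (2 * s) s (2 + t * I)) (ph s) (ph s) (KK Ω (2 + t * I)) a b +
      Qw s t * ZF (ev s (2 * s) (2 * s) (2 + t * I)) (ph s) (ph s) (KK Ω (2 + t * I)) a b)))‖ ≤
      C₂ * (4 * C₁) * U ^ (1 - 1 / 16 : ℝ) * K t := by
    intro t
    obtain ⟨p1, p2⟩ := hh t s s (Or.inl rfl) (Or.inl rfl)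
    obtain ⟨q1, q2⟩ := hh t s (2 * s) (Or.inl rfl) (Or.inr rfl)
    obtain ⟨r1, r2⟩ := hh t (2 * s) s (Or.inr rfl) (Or.inl rfl)
    obtain ⟨s1, s2⟩ := hh t (2 * s) (2 * s) (Or.inr rfl) (Or.inr rfl)
    rw [JJ_split (s_small hs) hU hΩ, OD_eq hs0 a b t p1 q1 r1 s1]
    set w : ℂ := 2 + t * I with hw
    set z1 := SOD (ev s s s w) (ph s) (ph s) (KK Ω w) a b
    set z2 := SOD (ev s s (2 * s) w) (ph s) (ph s) (KK Ω w) a b
    set z3 := SOD (ev s (2 * s) s w) (ph s) (ph s) (KK Ω w) a b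
    set z4 := SOD (ev s (2 * s) (2 * s) w) (ph s) (ph s) (KK Ω w) a b
    set y1 := ZF (ev s s s w) (ph s) (ph s) (KK Ω w) a b
    set y2 := ZF (ev s s (2 * s) w) (ph s) (ph s) (KK Ω w) a b
    set y3 := ZF (ev s (2 * s) s w) (ph s) (ph s) (KK Ω w) a b
    set y4 := ZF (ev s (2 * s) (2 * s) w) (ph s) (ph s) (KK Ω w) a b
    set d0 := KK Ω w 0 * DD a b (s + w) (2 * s + w) (s + w) (2 * s + w)
    have e3 : Qw s t * (d0 + (z1 + z2 + (z3 + z4))) -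
        (Qw s t * d0 + (Qw s t * y1 + Qw s t * y2 + (Qw s t * y3 + Qw s t * y4))) =
        Qw s t * ((z1 - y1) + (z2 - y2) + ((z3 - y3) + (z4 - y4))) := by ring
    rw [e3, norm_mul]
    have n1 := norm_add_le ((z1 - y1) + (z2 - y2)) ((z3 - y3) + (z4 - y4))
    have n2 := norm_add_le (z1 - y1) (z2 - y2)
    have n3 := norm_add_le (z3 - y3) (z4 - y4)
    have n4 : ‖(z1 - y1) + (z2 - y2) + ((z3 - y3) + (z4 - y4))‖ ≤
        4 * (C₁ * (1 + ‖w‖) ^ 10 * U ^ (1 - 1 / 16 : ℝ)) := by linarith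
    calc ‖Qw s t‖ * ‖(z1 - y1) + (z2 - y2) + ((z3 - y3) + (z4 - y4))‖
        ≤ (C₂ * Real.exp (-(t ^ 2 / 2))) * (4 * (C₁ * (1 + ‖w‖) ^ 10 * U ^ (1 - 1 / 16 : ℝ))) :=
          mul_le_mul (h2 s hs t) n4 (norm_nonneg _) (by positivity)
      _ = C₂ * (4 * C₁) * U ^ (1 - 1 / 16 : ℝ) * (Real.exp (-(t ^ 2 / 2)) * (1 + ‖w‖) ^ 10) := by ring
      _ ≤ _ := mul_le_mul_of_nonneg_left (hK2 t) (by positivity)
  have hint := norm_integral_le_of_norm_le (hK.const_mul (C₂ * (4 * C₁) * U ^ (1 - 1 / 16 : ℝ)))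
    (Filter.Eventually.of_forall hpt)
  rw [integral_const_mul] at hint
  have hpi : ‖(2 * Real.pi : ℂ)⁻¹‖ ≤ 1 := by
    rw [norm_inv]
    have : ‖(2 * Real.pi : ℂ)‖ = 2 * Real.pi := by
      rw [norm_mul, Complex.norm_real, Real.norm_of_nonneg Real.pi_pos.le]
      simp
    rw [this]
    apply inv_le_one_of_one_le₀
    have := Real.pi_gt_three
    linarith
  have hUp : 0 ≤ U ^ (1 - 1 / 16 : ℝ) := by positivity
  refine (mul_le_mul hpi hint (norm_nonneg _) (by norm_num)).trans ?_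
  nlinarith


/-! ### the second half: admissible weights with a power -/

/-- `c (c-1) ... (c-k+1)` -/
noncomputable def dp (c : ℂ) (k : ℕ) : ℂ := ∏ j ∈ Finset.range k, (c - j)

theorem dp_bound {c : ℂ} (hc : ‖c‖ ≤ 1) {k : ℕ} (hk : k ≤ 8) : ‖dp c k‖ ≤ (Nat.factorial 8 : ℝ) := by
  unfold dp
  rw [norm_prod]
  calc ∏ j ∈ Finset.range k, ‖c - j‖ ≤ ∏ j ∈ Finset.range k, ((j : ℝ) + 1) := by
        refine Finset.prod_le_prod (fun _ _ => norm_nonneg _) fun j _ => ?_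
        refine (norm_sub_le _ _).trans ?_
        rw [Complex.norm_natCast]
        linarith
    _ = (Nat.factorial k : ℝ) := by
        rw [← Finset.prod_range_add_one_eq_factorial]
        push_cast
        rfl
    _ ≤ _ := by exact_mod_cast Nat.factorial_le hk

theorem deriv_pow_pos (c : ℂ) {x : ℝ} (hx : 0 < x) :
    HasDerivAt (fun y : ℝ => (y : ℂ) ^ c) (c * (x : ℂ) ^ (c - 1)) x := by
  have h := ((hasDerivAt_id (x : ℂ)).cpow_const (c := c) (Or.inl (by simpa using hx))).comp_ofReal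
  simpa using h

theorem iter_pow (c : ℂ) (k : ℕ) : ∀ x : ℝ, 0 < x →
    iteratedDeriv k (fun y : ℝ => (y : ℂ) ^ c) x = dp c k * (x : ℂ) ^ (c - k) := by
  induction k with
  | zero => intro x _; simp [dp]
  | succ k ih =>
    intro x hx
    rw [iteratedDeriv_succ]
    have he : iteratedDeriv k (fun y : ℝ => (y : ℂ) ^ c) =ᶠ[nhds x] fun y : ℝ => dp c k * (y : ℂ) ^ (c - k) := by
      filter_upwards [Ioi_mem_nhds hx] with y hy
      exact ih y hy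
    rw [he.deriv_eq, ((deriv_pow_pos (c - k) hx).const_mul (dp c k)).deriv]
    unfold dp
    rw [Finset.prod_range_succ]
    have e : (c - (k : ℂ) - 1) = c - ((k + 1 : ℕ) : ℂ) := by push_cast; ring
    rw [e]
    ring

theorem X2_split {x : ℝ} (hx : 0 < x) (c : ℂ) : X2 x c = ((2 * Real.pi : ℝ) : ℂ) ^ (-c) * (x : ℂ) ^ c := by
  unfold X2
  rw [AFEX.cpow_pos (by positivity), AFEX.cpow_pos (by positivity), AFEX.cpow_pos hx, ← Complex.exp_add,
    Real.log_div hx.ne' (by positivity)]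
  congr 1
  push_cast
  ring

theorem cdiff_X2 (c : ℂ) {x : ℝ} (hx : 0 < x) (n : WithTop ℕ∞) : ContDiffAt ℝ n (fun y : ℝ => X2 y c) x := by
  have h1 : ContDiffAt ℝ n (fun y : ℝ => cexp (((Real.log (y / (2 * Real.pi)) : ℝ) : ℂ) * c)) x := by
    have h2 : ContDiffAt ℝ n (fun y : ℝ => Real.log (y / (2 * Real.pi))) x := by
      refine ContDiffAt.log (by fun_prop) (by positivity)
    have h3 : ContDiffAt ℝ n (fun y : ℝ => ((Real.log (y / (2 * Real.pi)) : ℝ) : ℂ)) x :=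
      Complex.ofRealCLM.contDiff.contDiffAt.comp x h2
    exact (h3.mul contDiffAt_const).cexp
  refine h1.congr_of_eventuallyEq ?_
  filter_upwards [Ioi_mem_nhds hx] with y hy
  unfold X2
  rw [AFEX.cpow_pos]
  have : 0 < y := hy
  positivity

theorem iter_X2 (c : ℂ) (k : ℕ) {x : ℝ} (hx : 0 < x) :
    iteratedDeriv k (fun y : ℝ => X2 y c) x = ((2 * Real.pi : ℝ) : ℂ) ^ (-c) * (dp c k * (x : ℂ) ^ (c - k)) := by
  have he : (fun y : ℝ => X2 y c) =ᶠ[nhds x] fun y : ℝ => ((2 * Real.pi : ℝ) : ℂ) ^ (-c) * (y : ℂ) ^ c := by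
    filter_upwards [Ioi_mem_nhds hx] with y hy
    exact X2_split hy c
  rw [he.iteratedDeriv_eq, iteratedDeriv_const_mul_field, iter_pow c k x hx]

/-- the size of the power -/
noncomputable def C3 : ℝ := 7 * 8 * (Nat.factorial 8 : ℝ) * 3 ^ 8

theorem C3_pos : 0 < C3 := by unfold C3; positivity

theorem norm_X2_le {U x : ℝ} (hU : 1 ≤ U) (hx1 : U / 2 ≤ x) (hx2 : x ≤ 8 * U) {c : ℂ} (hc : ‖c‖ ≤ 6 * rho) {k : ℕ}
    (hk : k ≤ 8) {Δ : ℝ} (hΔ : 0 < Δ) (hΔU : Δ ≤ U) :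
    ‖iteratedDeriv k (fun y : ℝ => X2 y c) x‖ ≤ 7 * 8 * (Nat.factorial 8 : ℝ) * U ^ (6 * rho) * (2 * Δ⁻¹) ^ k := by
  have hx : 0 < x := by linarith
  have hr := rho_le
  have hr0 := rho_pos
  rw [iter_X2 c k hx, norm_mul, norm_mul]
  have hre := abs_le.1 ((Complex.abs_re_le_norm c).trans hc)
  have h1 : ‖((2 * Real.pi : ℝ) : ℂ) ^ (-c)‖ ≤ 7 := by
    rw [Complex.norm_cpow_eq_rpow_re_of_pos (by positivity)]
    have h2 : (1 : ℝ) ≤ 2 * Real.pi := by linarith [Real.pi_gt_three]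
    calc (2 * Real.pi) ^ ((-c).re) ≤ (2 * Real.pi) ^ (1 : ℝ) := by
          apply Real.rpow_le_rpow_of_exponent_le h2
          simp
          linarith [hre.1]
      _ ≤ 7 := by rw [Real.rpow_one]; linarith [Real.pi_lt_d2]
  have h2 : ‖dp c k‖ ≤ (Nat.factorial 8 : ℝ) := dp_bound (by linarith) hk
  have h3 : ‖(x : ℂ) ^ (c - k)‖ ≤ 8 * U ^ (6 * rho) * (2 * Δ⁻¹) ^ k := by
    rw [Complex.norm_cpow_eq_rpow_re_of_pos hx]
    have e : (c - k).re = c.re - (k : ℝ) := by simp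
    rw [e, Real.rpow_sub hx, Real.rpow_natCast, div_eq_mul_inv, ← inv_pow]
    have h4 : x ^ c.re ≤ 8 * U ^ (6 * rho) := by
      by_cases hx3 : 1 ≤ x
      · calc x ^ c.re ≤ x ^ (6 * rho) := Real.rpow_le_rpow_of_exponent_le hx3 hre.2
          _ ≤ (8 * U) ^ (6 * rho) := Real.rpow_le_rpow hx.le hx2 (by positivity)
          _ = 8 ^ (6 * rho) * U ^ (6 * rho) := Real.mul_rpow (by norm_num) (by linarith)
          _ ≤ 8 ^ (1 : ℝ) * U ^ (6 * rho) := by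
              apply mul_le_mul_of_nonneg_right _ (by positivity)
              apply Real.rpow_le_rpow_of_exponent_le (by norm_num)
              linarith
          _ = _ := by rw [Real.rpow_one]
      · push Not at hx3
        have h5 : 1 / 2 ≤ x := by linarith
        calc x ^ c.re ≤ x ^ (-1 : ℝ) := Real.rpow_le_rpow_of_exponent_ge hx hx3.le (by linarith [hre.1])
          _ = x⁻¹ := Real.rpow_neg_one x
          _ ≤ 2 := by
              rw [inv_le_comm₀ hx (by norm_num)]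
              linarith
          _ ≤ 8 * 1 := by norm_num
          _ ≤ 8 * U ^ (6 * rho) := by
              apply mul_le_mul_of_nonneg_left _ (by norm_num)
              exact Real.one_le_rpow hU (by positivity)
    have h6 : x⁻¹ ≤ 2 * Δ⁻¹ := by
      rw [← div_eq_mul_inv, inv_eq_one_div, div_le_div_iff₀ hx hΔ]
      linarith
    exact mul_le_mul h4 (pow_le_pow_left₀ (by positivity) h6 k) (by positivity) (by positivity)
  calc ‖((2 * Real.pi : ℝ) : ℂ) ^ (-c)‖ * (‖dp c k‖ * ‖(x : ℂ) ^ (c - k)‖)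
      ≤ 7 * ((Nat.factorial 8 : ℝ) * (8 * U ^ (6 * rho) * (2 * Δ⁻¹) ^ k)) := by
        gcongr
    _ = _ := by ring

/-- the modified weight -/
noncomputable def Om2 (U : ℝ) (c : ℂ) (Ω : ℝ → ℂ) (x : ℝ) : ℂ := Ω x * X2 x c * ((C3 * U ^ (6 * rho) : ℝ) : ℂ)⁻¹

theorem iter_zero_left {f : ℝ → ℂ} {U x : ℝ} (hf : ∀ y, y ≤ U / 2 → f y = 0) (hx : x < U / 2) (j : ℕ) :
    iteratedDeriv j f x = 0 := by
  have he : f =ᶠ[nhds x] fun _ => 0 := by
    filter_upwards [Iio_mem_nhds hx] with y hy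
    exact hf y (le_of_lt hy)
  rw [he.iteratedDeriv_eq]
  cases j with
  | zero => simp
  | succ j => simp

theorem iter_zero_right {f : ℝ → ℂ} {U x : ℝ} (hf : ∀ y, 8 * U ≤ y → f y = 0) (hx : 8 * U < x) (j : ℕ) :
    iteratedDeriv j f x = 0 := by
  have he : f =ᶠ[nhds x] fun _ => 0 := by
    filter_upwards [Ioi_mem_nhds hx] with y hy
    exact hf y (le_of_lt hy)
  rw [he.iteratedDeriv_eq]
  cases j with
  | zero => simp
  | succ j => simp

theorem adm_Om2 {U Δ : ℝ} (hU : 1 ≤ U) (hΔ : 0 < Δ) (hΔU : Δ ≤ U) {Ω : ℝ → ℂ} (hΩ : Adm U Δ Ω) {c : ℂ}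
    (hc : ‖c‖ ≤ 6 * rho) : Adm U Δ (Om2 U c Ω) := by
  have hUp : 0 < U ^ (6 * rho) := by positivity
  have hC3 := C3_pos
  have z1 : ∀ x, x ≤ U / 2 → Om2 U c Ω x = 0 := by
    intro x hx
    unfold Om2
    rw [hΩ.2.1 x hx]
    simp
  have z2 : ∀ x, 8 * U ≤ x → Om2 U c Ω x = 0 := by
    intro x hx
    unfold Om2
    rw [hΩ.2.2.1 x hx]
    simp
  refine ⟨?_, z1, z2, ?_⟩
  · rw [contDiff_iff_contDiffAt]
    intro x
    by_cases hx : 0 < x
    · exact ((hΩ.1.contDiffAt).mul (cdiff_X2 c hx _)).mul contDiffAt_const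
    · have he : Om2 U c Ω =ᶠ[nhds x] fun _ => 0 := by
        filter_upwards [Iio_mem_nhds (show x < U / 2 by linarith)] with y hy
        exact z1 y (le_of_lt hy)
      exact contDiffAt_const.congr_of_eventuallyEq he
  · intro j hj x
    by_cases hx1 : x < U / 2
    · rw [iter_zero_left z1 hx1, norm_zero]
      positivity
    by_cases hx2 : 8 * U < x
    · rw [iter_zero_right z2 hx2, norm_zero]
      positivity
    push Not at hx1 hx2
    have hx : 0 < x := by linarith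
    have hj' : ((j : ℕ) : WithTop ℕ∞) ≤ 8 := by exact_mod_cast hj
    have e1 : iteratedDeriv j (Om2 U c Ω) x = iteratedDeriv j (fun y => Ω y * X2 y c) x *
        ((C3 * U ^ (6 * rho) : ℝ) : ℂ)⁻¹ := by
      unfold Om2
      rw [iteratedDeriv_mul_const_field]
    have e2 : iteratedDeriv j (fun y => Ω y * X2 y c) x = ∑ i ∈ Finset.range (j + 1),
        j.choose i * iteratedDeriv i Ω x * iteratedDeriv (j - i) (fun y => X2 y c) x :=
      iteratedDeriv_fun_mul (hΩ.1.contDiffAt.of_le hj') (cdiff_X2 c hx _)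
    rw [e1, e2, norm_mul, norm_inv, Complex.norm_real, Real.norm_of_nonneg (by positivity),
      ← div_eq_mul_inv, div_le_iff₀ (by positivity)]
    calc ‖∑ i ∈ Finset.range (j + 1), (j.choose i : ℂ) * iteratedDeriv i Ω x *
          iteratedDeriv (j - i) (fun y => X2 y c) x‖
        ≤ ∑ i ∈ Finset.range (j + 1), (j.choose i : ℝ) * (Δ⁻¹) ^ i *
          (7 * 8 * (Nat.factorial 8 : ℝ) * U ^ (6 * rho) * (2 * Δ⁻¹) ^ (j - i)) := by
          refine (norm_sum_le _ _).trans (Finset.sum_le_sum fun i hi => ?_)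
          have hi' : i ≤ j := Nat.lt_succ_iff.1 (Finset.mem_range.1 hi)
          rw [norm_mul, norm_mul, Complex.norm_natCast]
          have a1 := hΩ.2.2.2 i (by omega) x
          have a2 := norm_X2_le hU hx1 hx2 hc (k := j - i) (by omega) hΔ hΔU
          gcongr
      _ = 7 * 8 * (Nat.factorial 8 : ℝ) * U ^ (6 * rho) * ∑ i ∈ Finset.range (j + 1), (Δ⁻¹) ^ i *
          (2 * Δ⁻¹) ^ (j - i) * (j.choose i : ℝ) := by
          rw [Finset.mul_sum]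
          refine Finset.sum_congr rfl fun i _ => ?_
          ring
      _ = 7 * 8 * (Nat.factorial 8 : ℝ) * U ^ (6 * rho) * (3 ^ j * (Δ⁻¹) ^ j) := by
          rw [← add_pow, ← mul_pow]
          congr 2
          ring
      _ ≤ 7 * 8 * (Nat.factorial 8 : ℝ) * U ^ (6 * rho) * (3 ^ 8 * (Δ⁻¹) ^ j) := by
          gcongr
          · norm_num
      _ = _ := by unfold C3; ring

/-! ### assembling -/

theorem FF_cont {s : ℂ} (hs : ‖s‖ = rho) : Continuous (FF s) := by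
  have hr := rho_le
  have h0 := Complex.abs_re_le_norm s
  rw [hs] at h0
  have h0' := abs_le.1 h0
  have key : ∀ f : ℝ → ℂ, Continuous f → (∀ p, (f p).re < 1) → Continuous fun p => riemannZeta (f p) := by
    intro f hf h1
    refine continuous_iff_continuousAt.2 fun p => ?_
    refine ContinuousAt.comp (g := riemannZeta) ?_ hf.continuousAt
    refine (differentiableAt_riemannZeta ?_).continuousAt
    intro h
    have := h1 p
    rw [h] at this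
    simp at this
  unfold FF
  refine ((key _ (by fun_prop) fun p => ?_).mul (key _ (by fun_prop) fun p => ?_)).mul
    ((key _ (by fun_prop) fun p => ?_).mul (key _ (by fun_prop) fun p => ?_))
  all_goals
    simp
    linarith

theorem om_mul_int {U Δ : ℝ} {Ω : ℝ → ℂ} (hΩ : Adm U Δ Ω) {f : ℝ → ℂ} (hf : Continuous f) :
    Integrable fun x => Ω x * f x := by
  refine ((om_cont hΩ).mul hf).integrable_of_hasCompactSupport ?_
  refine HasCompactSupport.of_support_subset_isCompact (K := Set.Icc (U / 2) (8 * U)) isCompact_Icc ?_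
  intro x hx
  rw [Function.mem_support] at hx
  have hx' : Ω x ≠ 0 := left_ne_zero_of_mul hx
  constructor
  · by_contra h
    exact hx' (hΩ.2.1 x (by linarith))
  · by_contra h
    exact hx' (hΩ.2.2.1 x (by linarith))

end Twist4Aux

open Twist4Aux in
theorem half_main : ∃ C : ℝ, 0 < C ∧ ∀ (U Δ : ℝ) (Ω : ℝ → ℂ) (a b : ℕ+) (s : ℂ), 1 ≤ U → U ^ (1 - 1 / 1000 : ℝ) ≤ Δ →
    Δ ≤ U → Adm U Δ Ω → ‖s‖ = rho → Nat.Coprime (a : ℕ) (b : ℕ) → ((a : ℕ) : ℝ) ≤ U ^ (1 / 1000 : ℝ) →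
    ((b : ℕ) : ℝ) ≤ U ^ (1 / 1000 : ℝ) →
    ‖(∫ x : ℝ, Ω x * AH s x * ex x (a, b)) - ∫ x : ℝ, Ω x * MI s x a b‖ ≤ C * U ^ (1 - 1 / 16 : ℝ) := by
  obtain ⟨C, hC, h⟩ := half_core
  exact ⟨C, hC, fun U Δ Ω a b s h1 h2 h3 h4 h5 h6 h7 h8 => (h U Δ Ω a b s h1 h2 h3 h4 h5 h6 h7 h8).2⟩

open Twist4Aux in
theorem twist4 : ∃ C : ℝ, 0 < C ∧ ∀ (U Δ : ℝ) (Ω : ℝ → ℂ) (a b : ℕ+) (s : ℂ), 1 ≤ U → U ^ (1 - 1 / 1000 : ℝ) ≤ Δ →
    Δ ≤ U → Adm U Δ Ω → ‖s‖ = rho → Nat.Coprime (a : ℕ) (b : ℕ) → ((a : ℕ) : ℝ) ≤ U ^ (1 / 1000 : ℝ) →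
    ((b : ℕ) : ℝ) ≤ U ^ (1 / 1000 : ℝ) →
    ‖(∫ x : ℝ, Ω x * FF s x * ex x (a, b)) -
      ∫ x : ℝ, Ω x * (MI s x a b + X2 x (-6 * s) * MI (-s) x a b)‖ ≤ C * U ^ (1 - 1 / 20 : ℝ) := by
  obtain ⟨C₁, hC₁, h1⟩ := half_core
  obtain ⟨C₄, hC₄, h4⟩ := afe4
  have hC3 := C3_pos
  refine ⟨C₄ + C₁ + C3 * C₁, by positivity, ?_⟩
  intro U Δ Ω a b s hU hΔ hΔU hΩ hs hab ha hb
  have hU0 : 0 < U := by linarith
  have hΔ0 : 0 < Δ := lt_of_lt_of_le (by positivity) hΔ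
  have hr := rho_le
  have hr0 := rho_pos
  have hs' : ‖-s‖ = rho := by rw [norm_neg, hs]
  have hc6 : ‖-6 * s‖ ≤ 6 * rho := by rw [norm_mul, hs]; simp
  have hΩ2 := adm_Om2 hU hΔ0 hΔU hΩ hc6
  have hB0 : 0 < C3 * U ^ (6 * rho) := by positivity
  have hBc : ((C3 * U ^ (6 * rho) : ℝ) : ℂ) ≠ 0 := by exact_mod_cast hB0.ne'
  obtain ⟨m1, m2⟩ := h1 U Δ Ω a b s hU hΔ hΔU hΩ hs hab ha hb
  obtain ⟨n1, n2⟩ := h1 U Δ (Om2 U (-6 * s) Ω) a b (-s) hU hΔ hΔU hΩ2 hs' hab ha hb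
  obtain ⟨A1, -, -⟩ := total hs hU hΩ a b
  obtain ⟨B1, -, -⟩ := total hs' hU hΩ2 a b
  have eOm : ∀ x, Ω x * X2 x (-6 * s) = ((C3 * U ^ (6 * rho) : ℝ) : ℂ) * Om2 U (-6 * s) Ω x := by
    intro x
    unfold Om2
    field_simp
  have i1 : Integrable fun x : ℝ => Ω x * X2 x (-6 * s) * AH (-s) x * ex x (a, b) := by
    refine (B1.const_mul ((C3 * U ^ (6 * rho) : ℝ) : ℂ)).congr (Filter.Eventually.of_forall fun x => ?_)
    simp only
    rw [eOm]
    ring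
  have i2 : Integrable fun x : ℝ => Ω x * X2 x (-6 * s) * MI (-s) x a b := by
    refine (n1.const_mul ((C3 * U ^ (6 * rho) : ℝ) : ℂ)).congr (Filter.Eventually.of_forall fun x => ?_)
    simp only
    rw [eOm]
    ring
  have i3 : Integrable fun x : ℝ => Ω x * FF s x * ex x (a, b) := by
    have hcc : Continuous fun x : ℝ => FF s x * ex x (a, b) := (FF_cont hs).mul (ex_cont (a, b))
    refine (om_mul_int hΩ hcc).congr (Filter.Eventually.of_forall fun x => ?_)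
    simp only
    ring
  have v1 : ∫ x : ℝ, Ω x * X2 x (-6 * s) * AH (-s) x * ex x (a, b) = ((C3 * U ^ (6 * rho) : ℝ) : ℂ) *
      ∫ x : ℝ, Om2 U (-6 * s) Ω x * AH (-s) x * ex x (a, b) := by
    rw [← integral_const_mul]
    refine integral_congr_ae (Filter.Eventually.of_forall fun x => ?_)
    simp only
    rw [eOm]
    ring
  have v2 : ∫ x : ℝ, Ω x * X2 x (-6 * s) * MI (-s) x a b = ((C3 * U ^ (6 * rho) : ℝ) : ℂ) *
      ∫ x : ℝ, Om2 U (-6 * s) Ω x * MI (-s) x a b := by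
    rw [← integral_const_mul]
    refine integral_congr_ae (Filter.Eventually.of_forall fun x => ?_)
    simp only
    rw [eOm]
    ring
  have v3 : ∫ x : ℝ, Ω x * (MI s x a b + X2 x (-6 * s) * MI (-s) x a b) =
      (∫ x : ℝ, Ω x * MI s x a b) + ∫ x : ℝ, Ω x * X2 x (-6 * s) * MI (-s) x a b := by
    rw [← integral_add m1 i2]
    refine integral_congr_ae (Filter.Eventually.of_forall fun x => ?_)
    simp only
    ring
  -- the error of the approximate functional equation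
  have i4 : Integrable fun x : ℝ => Ω x * AH s x * ex x (a, b) + Ω x * X2 x (-6 * s) * AH (-s) x * ex x (a, b) :=
    A1.add i1
  have v4 : (∫ x : ℝ, Ω x * FF s x * ex x (a, b)) - ((∫ x : ℝ, Ω x * AH s x * ex x (a, b)) +
      ∫ x : ℝ, Ω x * X2 x (-6 * s) * AH (-s) x * ex x (a, b)) =
      ∫ x : ℝ, Ω x * (FF s x - (AH s x + X2 x (-6 * s) * AH (-s) x)) * ex x (a, b) := by
    rw [← integral_add A1 i1, ← integral_sub i3 i4]
    refine integral_congr_ae (Filter.Eventually.of_forall fun x => ?_)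
    simp only
    ring
  have hb1 : ‖∫ x : ℝ, Ω x * (FF s x - (AH s x + X2 x (-6 * s) * AH (-s) x)) * ex x (a, b)‖ ≤
      C₄ * U ^ (1 / 2 : ℝ) := by
    have h5 : ‖∫ x : ℝ, Ω x * (FF s x - (AH s x + X2 x (-6 * s) * AH (-s) x)) * ex x (a, b)‖ₑ ≤
        ENNReal.ofReal (C₄ * U ^ (1 / 2 : ℝ)) := by
      refine (enorm_integral_le_lintegral_enorm _).trans ?_
      refine le_trans ?_ (h4 U s hU hs)
      rw [← lintegral_indicator measurableSet_Icc]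
      refine lintegral_mono fun x => ?_
      by_cases hx : x ∈ Set.Icc (U / 2) (8 * U)
      · rw [Set.indicator_of_mem hx, enorm_mul, enorm_mul]
        have e1 : ‖ex x (a, b)‖ₑ = 1 := by
          rw [← ofReal_norm, norm_ex]
          simp
        have e2 : ‖Ω x‖ₑ ≤ 1 := by
          rw [← ofReal_norm]
          have := hΩ.2.2.2 0 (by norm_num) x
          simp only [iteratedDeriv_zero, pow_zero] at this
          simpa using ENNReal.ofReal_le_ofReal this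
        rw [e1, mul_one]
        calc _ ≤ 1 * ‖FF s x - (AH s x + X2 x (-6 * s) * AH (-s) x)‖ₑ := by gcongr
          _ = _ := one_mul _
      · rw [Set.indicator_of_notMem hx]
        have : Ω x = 0 := by
          rw [Set.mem_Icc, not_and_or, not_le, not_le] at hx
          rcases hx with hx | hx
          · exact hΩ.2.1 x hx.le
          · exact hΩ.2.2.1 x hx.le
        rw [this]
        simp
    rw [← ofReal_norm] at h5
    exact (ENNReal.ofReal_le_ofReal_iff (by positivity)).1 h5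
  have key : (∫ x : ℝ, Ω x * FF s x * ex x (a, b)) -
      ∫ x : ℝ, Ω x * (MI s x a b + X2 x (-6 * s) * MI (-s) x a b) =
      (∫ x : ℝ, Ω x * (FF s x - (AH s x + X2 x (-6 * s) * AH (-s) x)) * ex x (a, b)) +
      ((∫ x : ℝ, Ω x * AH s x * ex x (a, b)) - ∫ x : ℝ, Ω x * MI s x a b) +
      ((C3 * U ^ (6 * rho) : ℝ) : ℂ) * ((∫ x : ℝ, Om2 U (-6 * s) Ω x * AH (-s) x * ex x (a, b)) -
        ∫ x : ℝ, Om2 U (-6 * s) Ω x * MI (-s) x a b) := by
    rw [← v4, v3, v1, v2]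
    ring
  rw [key]
  have p1 : U ^ (1 / 2 : ℝ) ≤ U ^ (1 - 1 / 20 : ℝ) := Real.rpow_le_rpow_of_exponent_le hU (by norm_num)
  have p2 : U ^ (1 - 1 / 16 : ℝ) ≤ U ^ (1 - 1 / 20 : ℝ) := Real.rpow_le_rpow_of_exponent_le hU (by norm_num)
  have p3 : U ^ (6 * rho) * U ^ (1 - 1 / 16 : ℝ) ≤ U ^ (1 - 1 / 20 : ℝ) := by
    rw [← Real.rpow_add hU0]
    apply Real.rpow_le_rpow_of_exponent_le hU
    have : rho ≤ 1 / 10000 := hr
    linarith
  refine (norm_add_le _ _).trans ?_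
  have q1 := norm_add_le (∫ x : ℝ, Ω x * (FF s x - (AH s x + X2 x (-6 * s) * AH (-s) x)) * ex x (a, b))
    ((∫ x : ℝ, Ω x * AH s x * ex x (a, b)) - ∫ x : ℝ, Ω x * MI s x a b)
  have q2 : ‖((C3 * U ^ (6 * rho) : ℝ) : ℂ) * ((∫ x : ℝ, Om2 U (-6 * s) Ω x * AH (-s) x * ex x (a, b)) -
        ∫ x : ℝ, Om2 U (-6 * s) Ω x * MI (-s) x a b)‖ ≤ C3 * C₁ * U ^ (1 - 1 / 20 : ℝ) := by
    rw [norm_mul, Complex.norm_real, Real.norm_of_nonneg hB0.le]
    calc C3 * U ^ (6 * rho) * ‖(∫ x : ℝ, Om2 U (-6 * s) Ω x * AH (-s) x * ex x (a, b)) -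
        ∫ x : ℝ, Om2 U (-6 * s) Ω x * MI (-s) x a b‖ ≤ C3 * U ^ (6 * rho) * (C₁ * U ^ (1 - 1 / 16 : ℝ)) := by gcongr
      _ = C3 * C₁ * (U ^ (6 * rho) * U ^ (1 - 1 / 16 : ℝ)) := by ring
      _ ≤ _ := by gcongr
  have q3 : C₄ * U ^ (1 / 2 : ℝ) ≤ C₄ * U ^ (1 - 1 / 20 : ℝ) := by gcongr
  have q4 : C₁ * U ^ (1 - 1 / 16 : ℝ) ≤ C₁ * U ^ (1 - 1 / 20 : ℝ) := by gcongr
  linarith

end Pool.Agent.P07318f
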