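import Pool.Agent.Lib.P07318f.VdcTwo

/-!
# Van der Corput's method with finite differences

`(fwdDiff 1)^[k] g n` is the k-th forward difference of `g : ℕ → ℝ`. Write `e(x) = exp(2πix)`.

PROOF by induction on `k`, exponents `c₂ = 1/2`, `c_{k+1} = c_k/4`, (`c k = 2 · 4^(1-k) · ..`: any positive exponent is fine, the statement is existential.)
BASE `k = 2` (copy of the proof of `vdc_two`, with the general increments `d n = g(n+1) - g n`, which are increasing, `λ ≤ d(n+1) - d n ≤ A λ`): if `λ ≥ 1/4` or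
`N² λ ≤ 1` the trivial bound `N` is enough (`C` large). Otherwise `Δ = λ^(1/2) ≤ 1/2`; the increments lie in an interval of length `≤ A λ N`; for each of the at most
`AλN + 2` integers `k'` in its range remove the `n` with `|d n - k'| < Δ`: at most `2Δ/λ + 1` consecutive integers; on each of the at most `AλN + 3` remaining intervals
`kusmin_landau` gives `≤ 4/Δ`. Total `≤ (AλN + 3)(4/Δ + 2Δ/λ + 3) ≤ C (N λ^(1/2) + λ^(-1/2))`.
STEP. Let `λ ≤ Δ^{k+1} g ≤ A λ` on the range. Van der Corput's inequality: for `1 ≤ H ≤ N/2`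
`|∑_{n ∈ I} e(g n)|² ≤ 4 N²/H + (4 N/H) ∑_{1 ≤ h < H} |∑_{n, n+h ∈ I} e(g(n+h) - g n)|` (Cauchy-Schwarz for `H ∑_n z_n = ∑_m ∑_{0≤r<H} z_{m+r}`, `z = 0` outside `I`; see
`cor_*` in Lib/VL/VdC.lean or write it again). For fixed `h` the function `g_h n = g(n+h) - g n = ∑_{i<h} (g(n+i+1) - g(n+i))` has
`Δ^k g_h n = ∑_{i<h} Δ^{k+1} g (n+i) ∈ [hλ, A hλ]`, so the inner sum is (length `N-h ≥ N/2`) `≤ C N ((hλ)^c + (N^k hλ)^(-c) + N^(-c))` (if `hλ > 1` trivially, as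
`(hλ)^c ≥ 1`). So `|∑|² ≤ C N² (1/H + (Hλ)^c + (N^k λ)^(-c) H^(-c)·C' + N^(-c))` (`∑_{h<H} h^(-c) ≤ 2 H^(1-c)·..` for `c ≤ 1/2`). If `λ ≥ N^(-2)` take `H ≈ λ^(-1/2)/2`:
`1/H ≤ C λ^(1/2)`, `(Hλ)^c ≤ λ^(c/2)`, `(N^k λ H)^(-c) ≤ C (N^k λ^(1/2))^(-c) ≤ C (N^(k+1) λ)^(-c/2)` (as `2k ≥ k+1`). If `λ < N^(-2)` take `H ≈ N/2`: `(Hλ)^c ≤ N^(-c)`,
`(N^k λ H)^(-c) ≤ C (N^(k+1) λ)^(-c)`. Square roots: `c_{k+1} = c_k/4`. (`N ≤ 4`, `λ > 1/4`, `N^(k+1) λ < 1`: trivial bound.)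
-/

set_option autoImplicit false

namespace Pool.Agent.P07318f

open Complex

namespace VdcKAux

section VdcIneq

open Finset

/-- the sequence extended by zero -/
noncomputable def ext (z : ℕ → ℂ) (L : ℕ) (j : ℤ) : ℂ := if 0 ≤ j ∧ j < L then z j.toNat else 0

lemma ext_of_notMem {z : ℕ → ℂ} {L : ℕ} {j : ℤ} (h : ¬ (0 ≤ j ∧ j < L)) : ext z L j = 0 := by
  unfold ext
  rw [if_neg h]

/-- the correlations -/
noncomputable def cor (z : ℕ → ℂ) (L : ℕ) (t : ℤ) : ℂ :=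
  ∑ j ∈ Ico (0 : ℤ) L, ext z L (j + t) * (starRingEnd ℂ) (ext z L j)

lemma cor_shift (z : ℕ → ℂ) (L : ℕ) (t a b : ℤ) (ha : a ≤ 0) (hb : L ≤ b) :
    ∑ j ∈ Ico a b, ext z L (j + t) * (starRingEnd ℂ) (ext z L j) = cor z L t := by
  unfold cor
  symm
  apply sum_subset
  · intro j hj
    rw [mem_Ico] at hj ⊢
    omega
  · intro j _ hj
    rw [mem_Ico] at hj
    rw [ext_of_notMem hj, map_zero, mul_zero]

lemma cor_pair (z : ℕ → ℂ) (L H : ℕ) (r s : ℕ) (hs : s < H) :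
    ∑ k ∈ Ico (0 : ℤ) (L + H), ext z L (k - r) * (starRingEnd ℂ) (ext z L (k - s)) =
      cor z L (s - r) := by
  rw [← cor_shift z L (s - r) (-s) (L + H - s) (by omega) (by omega)]
  refine sum_bij' (fun k _ => k - s) (fun j _ => j + s) ?_ ?_ ?_ ?_ ?_
  · intro k hk
    rw [mem_Ico] at hk ⊢
    omega
  · intro k hk
    rw [mem_Ico] at hk ⊢
    omega
  · intro k _
    ring
  · intro k _
    ring
  · intro k _
    rw [show k - s + ((s : ℤ) - r) = k - r by ring]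

lemma cor_neg (z : ℕ → ℂ) (L : ℕ) (t : ℤ) : cor z L (-t) = (starRingEnd ℂ) (cor z L t) := by
  have h1 : ∀ t : ℤ, cor z L t =
      ∑ j ∈ Ico (- |t|) (L + |t|), ext z L (j + t) * (starRingEnd ℂ) (ext z L j) := by
    intro t
    rw [cor_shift z L t _ _ (by have := abs_nonneg t; omega) (by have := abs_nonneg t; omega)]
  have h2 : cor z L (-t) =
      ∑ j ∈ Ico (0 - t) (L - t), ext z L j * (starRingEnd ℂ) (ext z L (j + t)) := by
    unfold cor
    refine sum_bij' (fun k _ => k - t) (fun j _ => j + t) ?_ ?_ ?_ ?_ ?_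
    · intro k hk
      rw [mem_Ico] at hk ⊢
      omega
    · intro k hk
      rw [mem_Ico] at hk ⊢
      omega
    · intro k _
      ring
    · intro k _
      ring
    · intro k _
      rw [show k - t + t = k by ring, show k + -t = k - t by ring]
  rw [h2, h1, map_sum]
  have h3 : ∀ j, (starRingEnd ℂ) (ext z L (j + t) * (starRingEnd ℂ) (ext z L j)) =
      ext z L j * (starRingEnd ℂ) (ext z L (j + t)) := by
    intro j
    rw [map_mul, Complex.conj_conj, mul_comm]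
  simp only [h3]
  apply sum_subset
  · intro j hj
    rw [mem_Ico] at hj ⊢
    have := neg_abs_le t
    have := le_abs_self t
    omega
  · intro j _ hj
    rw [mem_Ico] at hj
    rw [ext_of_notMem (j := j + t) (by omega), map_zero, mul_zero]

lemma sum_ext (z : ℕ → ℂ) (L H : ℕ) (r : ℕ) (hr : r < H) :
    ∑ k ∈ Ico (0 : ℤ) (L + H), ext z L (k - r) = ∑ m ∈ range L, z m := by
  have h1 : ∑ m ∈ range L, z m = ∑ k ∈ Ico (r : ℤ) (L + r), ext z L (k - r) := by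
    refine sum_bij' (fun m _ => (m : ℤ) + r) (fun k _ => (k - r).toNat) ?_ ?_ ?_ ?_ ?_
    · intro m hm
      rw [mem_range] at hm
      rw [mem_Ico]
      omega
    · intro k hk
      rw [mem_Ico] at hk
      rw [mem_range]
      omega
    · intro m _
      simp
    · intro k hk
      rw [mem_Ico] at hk
      omega
    · intro m hm
      rw [mem_range] at hm
      unfold ext
      rw [if_pos (by omega)]
      congr 1
      omega
  rw [h1]
  symm
  apply sum_subset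
  · intro j hj
    rw [mem_Ico] at hj ⊢
    omega
  · intro j _ hj
    rw [mem_Ico] at hj
    rw [ext_of_notMem (by omega)]

lemma cor_nat (z : ℕ → ℂ) (L h : ℕ) :
    cor z L h = ∑ m ∈ range (L - h), z (m + h) * (starRingEnd ℂ) (z m) := by
  have h1 : ∑ m ∈ range (L - h), z (m + h) * (starRingEnd ℂ) (z m) =
      ∑ j ∈ Ico (0 : ℤ) ((L - h : ℕ) : ℤ), ext z L (j + h) * (starRingEnd ℂ) (ext z L j) := by
    refine sum_bij' (fun m _ => (m : ℤ)) (fun k _ => k.toNat) ?_ ?_ ?_ ?_ ?_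
    · intro m hm
      rw [mem_range] at hm
      rw [mem_Ico]
      omega
    · intro k hk
      rw [mem_Ico] at hk
      rw [mem_range]
      omega
    · intro m _
      simp
    · intro k hk
      rw [mem_Ico] at hk
      show ((k.toNat : ℕ) : ℤ) = k
      omega
    · intro m hm
      rw [mem_range] at hm
      unfold ext
      rw [if_pos (by omega), if_pos (by omega)]
      congr 2
  rw [h1]
  unfold cor
  symm
  apply sum_subset
  · intro j hj
    rw [mem_Ico] at hj ⊢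
    omega
  · intro j hj hj2
    rw [mem_Ico] at hj hj2
    rw [ext_of_notMem (j := j + h) (by omega), zero_mul]

lemma row_sum (c : ℕ → ℝ) (hc : ∀ h, 0 ≤ c h) (H r : ℕ) (hr : r < H) :
    ∑ s ∈ range H, c ((s : ℤ) - r).natAbs ≤ c 0 + 2 * ∑ h ∈ Ico 1 H, c h := by
  have h1 : range H = (range r ∪ {r}) ∪ Ico (r + 1) H := by
    ext s
    rw [mem_union, mem_union, mem_range, mem_range, mem_singleton, mem_Ico]
    omega
  rw [h1, sum_union, sum_union, sum_singleton]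
  · have h2 : ∑ s ∈ range r, c ((s : ℤ) - r).natAbs ≤ ∑ h ∈ Ico 1 H, c h := by
      have h3 : ∑ s ∈ range r, c ((s : ℤ) - r).natAbs = ∑ h ∈ Ico 1 (r + 1), c h := by
        refine sum_bij' (fun s _ => r - s) (fun h _ => r - h) ?_ ?_ ?_ ?_ ?_
        · intro s hs
          rw [mem_range] at hs
          rw [mem_Ico]
          omega
        · intro s hs
          rw [mem_Ico] at hs
          rw [mem_range]
          omega
        · intro s hs
          rw [mem_range] at hs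
          show r - (r - s) = s
          omega
        · intro s hs
          rw [mem_Ico] at hs
          show r - (r - s) = s
          omega
        · intro s hs
          rw [mem_range] at hs
          congr 1
          omega
      rw [h3]
      apply sum_le_sum_of_subset_of_nonneg
      · intro h hh
        rw [mem_Ico] at hh ⊢
        omega
      · intro h _ _
        exact hc h
    have h4 : ∑ s ∈ Ico (r + 1) H, c ((s : ℤ) - r).natAbs ≤ ∑ h ∈ Ico 1 H, c h := by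
      have h3 : ∑ s ∈ Ico (r + 1) H, c ((s : ℤ) - r).natAbs = ∑ h ∈ Ico 1 (H - r), c h := by
        refine sum_bij' (fun s _ => s - r) (fun h _ => h + r) ?_ ?_ ?_ ?_ ?_
        · intro s hs
          rw [mem_Ico] at hs ⊢
          omega
        · intro s hs
          rw [mem_Ico] at hs ⊢
          omega
        · intro s hs
          rw [mem_Ico] at hs
          show s - r + r = s
          omega
        · intro s hs
          rw [mem_Ico] at hs
          show s + r - r = s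
          omega
        · intro s hs
          rw [mem_Ico] at hs
          congr 1
          omega
      rw [h3]
      apply sum_le_sum_of_subset_of_nonneg
      · intro h hh
        rw [mem_Ico] at hh ⊢
        omega
      · intro h _ _
        exact hc h
    have h5 : ((r : ℤ) - r).natAbs = 0 := by omega
    rw [h5]
    linarith
  · rw [disjoint_left]
    intro s hs
    rw [mem_range] at hs
    rw [mem_singleton]
    omega
  · rw [disjoint_left]
    intro s hs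
    rw [mem_union, mem_range, mem_singleton] at hs
    rw [mem_Ico]
    omega

/-- van der Corput's inequality. -/
lemma vdc_ineq (z : ℕ → ℂ) (L H : ℕ) (hH : 1 ≤ H) :
    (H : ℝ) * ‖∑ m ∈ range L, z m‖ ^ 2 ≤ (L + H) *
      (‖∑ m ∈ range L, z m * (starRingEnd ℂ) (z m)‖ + 2 * ∑ h ∈ Ico 1 H,
        ‖∑ m ∈ range (L - h), z (m + h) * (starRingEnd ℂ) (z m)‖) := by
  have hH0 : (0 : ℝ) < H := by exact_mod_cast hH
  set S := ∑ m ∈ range L, z m with hS
  set a : ℤ → ℂ := fun k => ∑ r ∈ range H, ext z L (k - r) with ha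
  have h1 : (H : ℂ) * S = ∑ k ∈ Ico (0 : ℤ) (L + H), a k := by
    rw [ha]
    simp only
    rw [sum_comm]
    rw [sum_congr rfl (fun r hr => sum_ext z L H r (mem_range.1 hr)), sum_const, card_range,
      nsmul_eq_mul]
  have h2 : ‖(H : ℂ) * S‖ ^ 2 ≤ (L + H) * ∑ k ∈ Ico (0 : ℤ) (L + H), ‖a k‖ ^ 2 := by
    rw [h1]
    calc ‖∑ k ∈ Ico (0 : ℤ) (L + H), a k‖ ^ 2 ≤ (∑ k ∈ Ico (0 : ℤ) (L + H), ‖a k‖) ^ 2 :=
          pow_le_pow_left₀ (norm_nonneg _) (norm_sum_le _ _) 2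
      _ ≤ (#(Ico (0 : ℤ) (L + H)) : ℝ) * ∑ k ∈ Ico (0 : ℤ) (L + H), ‖a k‖ ^ 2 :=
          sq_sum_le_card_mul_sum_sq
      _ = (L + H) * ∑ k ∈ Ico (0 : ℤ) (L + H), ‖a k‖ ^ 2 := by
          rw [Int.card_Ico, sub_zero]
          congr 1
          have : ((L : ℤ) + H).toNat = L + H := by omega
          rw [this]
          push_cast
          ring
  have h3 : ((∑ k ∈ Ico (0 : ℤ) (L + H), ‖a k‖ ^ 2 : ℝ) : ℂ) =
      ∑ r ∈ range H, ∑ s ∈ range H, cor z L (s - r) := by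
    push_cast
    have h4 : ∀ k : ℤ, ((‖a k‖ : ℂ)) ^ 2 = ∑ r ∈ range H, ∑ s ∈ range H,
        ext z L (k - r) * (starRingEnd ℂ) (ext z L (k - s)) := by
      intro k
      rw [← Complex.mul_conj', ha]
      simp only [map_sum]
      rw [sum_mul_sum]
    simp only [h4]
    rw [sum_comm]
    refine sum_congr rfl fun r _ => ?_
    rw [sum_comm]
    refine sum_congr rfl fun s hs => ?_
    exact cor_pair z L H r s (mem_range.1 hs)
  have h5 : ∑ k ∈ Ico (0 : ℤ) (L + H), ‖a k‖ ^ 2 ≤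
      H * (‖cor z L 0‖ + 2 * ∑ h ∈ Ico 1 H, ‖cor z L (h : ℤ)‖) := by
    have h6 : ‖((∑ k ∈ Ico (0 : ℤ) (L + H), ‖a k‖ ^ 2 : ℝ) : ℂ)‖ =
        ∑ k ∈ Ico (0 : ℤ) (L + H), ‖a k‖ ^ 2 := by
      rw [Complex.norm_real, Real.norm_eq_abs, abs_of_nonneg (sum_nonneg fun _ _ => by positivity)]
    rw [← h6, h3]
    refine (norm_sum_le _ _).trans ?_
    have h7 : ∀ r ∈ range H, ‖∑ s ∈ range H, cor z L (s - r)‖ ≤
        ‖cor z L 0‖ + 2 * ∑ h ∈ Ico 1 H, ‖cor z L (h : ℤ)‖ := by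
      intro r hr
      refine (norm_sum_le _ _).trans ?_
      have h8 := row_sum (fun h => ‖cor z L (h : ℤ)‖) (fun _ => norm_nonneg _) H r
        (mem_range.1 hr)
      simp only [Nat.cast_zero] at h8
      refine le_trans (le_of_eq (sum_congr rfl fun s _ => ?_)) h8
      rcases le_total 0 ((s : ℤ) - r) with h9 | h9
      · have h10 : ((((s : ℤ) - r).natAbs : ℕ) : ℤ) = s - r := by omega
        rw [h10]
      · have h10 : ((((s : ℤ) - r).natAbs : ℕ) : ℤ) = -(s - r) := by omega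
        rw [h10, cor_neg, RCLike.norm_conj]
    refine (sum_le_sum h7).trans (le_of_eq ?_)
    rw [sum_const, card_range, nsmul_eq_mul]
  have h6 : cor z L 0 = ∑ m ∈ range L, z m * (starRingEnd ℂ) (z m) := by
    have := cor_nat z L 0
    simpa using this
  rw [h6] at h5
  simp only [cor_nat] at h5
  rw [norm_mul, Complex.norm_natCast, mul_pow] at h2
  have h7 : (H : ℝ) ^ 2 * ‖S‖ ^ 2 ≤ (L + H) * (H *
      (‖∑ m ∈ range L, z m * (starRingEnd ℂ) (z m)‖ + 2 * ∑ h ∈ Ico 1 H,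
        ‖∑ m ∈ range (L - h), z (m + h) * (starRingEnd ℂ) (z m)‖)) :=
    h2.trans (mul_le_mul_of_nonneg_left h5 (by positivity))
  have h8 : (H : ℝ) * ((H : ℝ) * ‖S‖ ^ 2) ≤ H * ((L + H) *
      (‖∑ m ∈ range L, z m * (starRingEnd ℂ) (z m)‖ + 2 * ∑ h ∈ Ico 1 H,
        ‖∑ m ∈ range (L - h), z (m + h) * (starRingEnd ℂ) (z m)‖)) := by
    calc _ = (H : ℝ) ^ 2 * ‖S‖ ^ 2 := by ring
      _ ≤ _ := h7
      _ = _ := by ring
  exact le_of_mul_le_mul_left h8 hH0

end VdcIneq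

/-! ### forward differences -/

lemma two_le {R x : ℝ} (hx : 0 ≤ x) (h : R ^ 2 = 8 + x) (hR : 0 ≤ R) : 2 ≤ R := by
  by_contra hc
  push Not at hc
  nlinarith

lemma half_of {s l : ℝ} (h : s * s = l) (hl : l ≤ 1 / 4) : s ≤ 1 / 2 := by
  by_contra hc
  push Not at hc
  nlinarith

lemma half_le {s l : ℝ} (h : s * s = l) (hl : 1 / 4 < l) (hs : 0 ≤ s) : 1 / 2 ≤ s := by
  by_contra hc
  push Not at hc
  nlinarith

lemma one_le_of {Q q : ℝ} (h : Q * Q = q) (hq : 1 ≤ q) (hQ : 0 ≤ Q) : 1 ≤ Q := by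
  by_contra hc
  push Not at hc
  nlinarith

lemma fin1 {B C U V W : ℝ} (hB : 1 ≤ B) (hC : 0 < C) (hU : 0 ≤ U) (hV : 0 ≤ V) (hW : 0 ≤ W) :
    8 * (U + W) + 4 * C * (U + 4 * B * (4 * V) + 2 * W) ≤ (8 + 64 * B * C) * (U + V + W) := by
  have h4 : C ≤ B * C := by nlinarith
  have h5 : 0 ≤ (B * C - C) * U := mul_nonneg (by linarith) hU
  have h6 : 0 ≤ (B * C - C) * W := mul_nonneg (by linarith) hW
  have h7 : 0 ≤ C * U := by positivity
  have h8 : 0 ≤ C * W := by positivity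
  nlinarith

lemma fin2 {u v w : ℝ} (hu : 0 < u) (hv : 0 < v) (hw : 0 < w) :
    u ^ 2 + v ^ 2 + w ^ 2 ≤ (u + v + w) ^ 2 := by
  nlinarith [mul_pos hu hv, mul_pos hu hw, mul_pos hv hw]

lemma le_of_sq_le_sq {a b : ℝ} (h : a ^ 2 ≤ b ^ 2) (hb : 0 ≤ b) : a ≤ b := by
  by_contra hcon
  push Not at hcon
  nlinarith

lemma it_succ (k : ℕ) (g : ℕ → ℝ) (n : ℕ) :
    (fwdDiff 1)^[k + 1] g n = (fwdDiff 1)^[k] g (n + 1) - (fwdDiff 1)^[k] g n := by
  rw [Function.iterate_succ_apply']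
  rfl

lemma it_shift (k h : ℕ) (g : ℕ → ℝ) (n : ℕ) :
    (fwdDiff 1)^[k] (fun n => g (n + h) - g n) n =
      (fwdDiff 1)^[k] g (n + h) - (fwdDiff 1)^[k] g n := by
  induction k generalizing n with
  | zero => rfl
  | succ k ih =>
    rw [it_succ, it_succ, it_succ, ih, ih, add_right_comm n 1 h]
    ring

lemma tel (F : ℕ → ℝ) (n : ℕ) (l A : ℝ) (h : ℕ)
    (H : ∀ i < h, l ≤ F (n + i + 1) - F (n + i) ∧ F (n + i + 1) - F (n + i) ≤ A * l) :
    h * l ≤ F (n + h) - F n ∧ F (n + h) - F n ≤ A * (h * l) := by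
  induction h with
  | zero => simp
  | succ h ih =>
    obtain ⟨h1, h2⟩ := ih (fun i hi => H i (by omega))
    obtain ⟨h3, h4⟩ := H h (by omega)
    rw [show n + (h + 1) = n + h + 1 by ring]
    push_cast
    constructor
    · linarith
    · have : A * ((h + 1) * l) = A * (h * l) + A * l := by ring
      rw [this]
      linarith

lemma norm_e (x : ℝ) : ‖cexp (2 * Real.pi * I * (x : ℂ))‖ = 1 := by
  rw [show (2 * Real.pi * I * (x : ℂ) : ℂ) = ((2 * Real.pi * x : ℝ) : ℂ) * I by push_cast; ring]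
  exact Complex.norm_exp_ofReal_mul_I _

lemma e_sub (x y : ℝ) : cexp (2 * Real.pi * I * (x : ℂ)) *
    (starRingEnd ℂ) (cexp (2 * Real.pi * I * (y : ℂ))) =
      cexp (2 * Real.pi * I * ((x - y : ℝ) : ℂ)) := by
  rw [← Complex.exp_conj, ← Complex.exp_add]
  congr 1
  simp only [map_mul, Complex.conj_ofReal, Complex.conj_I, map_ofNat]
  push_cast
  ring

lemma card_bd (S : Finset ℕ) (g : ℕ → ℝ) :
    ‖∑ n ∈ S, cexp (2 * Real.pi * I * (g n : ℂ))‖ ≤ S.card := by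
  refine (norm_sum_le _ _).trans ?_
  rw [Finset.sum_congr rfl fun n _ => norm_e (g n)]
  rw [Finset.sum_const, nsmul_eq_mul, mul_one]

lemma triv (g : ℕ → ℝ) (a N : ℕ) :
    ‖∑ n ∈ Finset.Ico a (a + N), cexp (2 * Real.pi * I * (g n : ℂ))‖ ≤ N := by
  have := card_bd (Finset.Ico a (a + N)) g
  rwa [Nat.card_Ico, Nat.add_sub_cancel_left] at this

/-! ### the base case -/

lemma eq_Icc (M : Finset ℕ) (h : M.Nonempty)
    (hM : ∀ x ∈ M, ∀ y ∈ M, ∀ z, x ≤ z → z ≤ y → z ∈ M) :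
    M = Finset.Icc (M.min' h) (M.max' h) := by
  ext z
  rw [Finset.mem_Icc]
  constructor
  · intro hz
    exact ⟨M.min'_le _ hz, M.le_max' _ hz⟩
  · rintro ⟨h1, h2⟩
    exact hM _ (M.min'_mem h) _ (M.max'_mem h) z h1 h2

/-- increments on `[a, b]` which grow by at least `l` -/
lemma inc_sub {d : ℕ → ℝ} {a b : ℕ} {l : ℝ}
    (hd : ∀ n, a ≤ n → n < b → l ≤ d (n + 1) - d n) {m n : ℕ} (ham : a ≤ m) (hmn : m ≤ n)
    (hnb : n ≤ b) : l * ((n : ℝ) - m) ≤ d n - d m := by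
  induction n, hmn using Nat.le_induction with
  | base => simp
  | succ n hmn ih =>
    have h1 := ih (by omega)
    have h2 := hd n (by omega) (by omega)
    push_cast
    nlinarith

lemma inc_mono {d : ℕ → ℝ} {a b : ℕ} {l : ℝ} (hl : 0 < l)
    (hd : ∀ n, a ≤ n → n < b → l ≤ d (n + 1) - d n) {m n : ℕ} (ham : a ≤ m) (hmn : m ≤ n)
    (hnb : n ≤ b) : d m ≤ d n := by
  have h1 := inc_sub hd ham hmn hnb
  have h2 : (0 : ℝ) ≤ (n : ℝ) - m := by
    have : (m : ℝ) ≤ n := by exact_mod_cast hmn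
    linarith
  nlinarith [mul_nonneg hl.le h2]

lemma card_le {d : ℕ → ℝ} {a b : ℕ} {l : ℝ} (hl : 0 < l)
    (hd : ∀ n, a ≤ n → n < b → l ≤ d (n + 1) - d n) (T : Finset ℕ) (u L : ℝ) (hL : 0 ≤ L)
    (hT : ∀ n ∈ T, a ≤ n ∧ n ≤ b ∧ u ≤ d n ∧ d n ≤ u + L) :
    (T.card : ℝ) ≤ L / l + 1 := by
  rcases T.eq_empty_or_nonempty with h | h
  · rw [h]
    simp only [Finset.card_empty, Nat.cast_zero]
    positivity
  · have ha := hT _ (T.min'_mem h)
    have hb := hT _ (T.max'_mem h)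
    have hab : T.min' h ≤ T.max' h := T.min'_le _ (T.max'_mem h)
    have h1 := inc_sub hd ha.1 hab hb.2.1
    have h2 : T.card ≤ T.max' h + 1 - T.min' h := by
      have h3 : T ⊆ Finset.Icc (T.min' h) (T.max' h) := fun x hx =>
        Finset.mem_Icc.2 ⟨T.min'_le _ hx, T.le_max' _ hx⟩
      have h4 := Finset.card_le_card h3
      rwa [Nat.card_Icc] at h4
    have h5 : (T.card : ℝ) ≤ (T.max' h : ℝ) + 1 - (T.min' h : ℝ) := by
      have h6 : T.card + T.min' h ≤ T.max' h + 1 := by omega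
      have h7 : (T.card : ℝ) + (T.min' h : ℝ) ≤ (T.max' h : ℝ) + 1 := by exact_mod_cast h6
      linarith
    have h8 : (T.max' h : ℝ) - (T.min' h : ℝ) ≤ L / l := by
      rw [le_div_iff₀ hl]
      linarith [ha.2.2.2, hb.2.2.1]
    linarith

/-- the sum over `[a, b]`, `b - a` bounded in terms of the increments -/
lemma base_core (g : ℕ → ℝ) (a b : ℕ) (l A : ℝ) (hl : 0 < l) (hl4 : l ≤ 1 / 4) (hA : 1 ≤ A)
    (hab : a ≤ b)
    (hd : ∀ n, a ≤ n → n < b → l ≤ (g (n + 1 + 1) - g (n + 1)) - (g (n + 1) - g n))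
    (hd' : (g (b + 1) - g b) - (g (a + 1) - g a) ≤ A * l * ((b : ℝ) - a)) :
    ‖∑ n ∈ Finset.Icc a b, cexp (2 * Real.pi * I * (g n : ℂ))‖ ≤
      (A * l * ((b : ℝ) - a) + 2) * (8 / Real.sqrt l) := by
  obtain ⟨d, hdd⟩ : ∃ d : ℕ → ℝ, d = fun n => g (n + 1) - g n := ⟨_, rfl⟩
  have hdn : ∀ n, d n = g (n + 1) - g n := fun n => by rw [hdd]
  have hinc : ∀ n, a ≤ n → n < b → l ≤ d (n + 1) - d n := by
    intro n h1 h2
    rw [hdn, hdn]
    exact hd n h1 h2
  rw [← hdn, ← hdn] at hd'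
  obtain ⟨Δ, hΔ⟩ : ∃ Δ, Δ = Real.sqrt l := ⟨_, rfl⟩
  have hΔ0 : 0 < Δ := by rw [hΔ]; exact Real.sqrt_pos.2 hl
  have hΔΔ : Δ * Δ = l := by rw [hΔ]; exact Real.mul_self_sqrt hl.le
  have hΔ2 : Δ ≤ 1 / 2 := half_of hΔΔ hl4
  rw [← hΔ]
  have hmaps : ∀ n ∈ Finset.Icc a b, ⌊d n⌋ ∈ Finset.Icc ⌊d a⌋ ⌊d b⌋ := by
    intro n hn
    rw [Finset.mem_Icc] at hn ⊢
    exact ⟨Int.floor_le_floor (inc_mono hl hinc le_rfl hn.1 hn.2),
      Int.floor_le_floor (inc_mono hl hinc hn.1 hn.2 le_rfl)⟩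
  rw [← Finset.sum_fiberwise_of_maps_to hmaps]
  have hk : ∀ k ∈ Finset.Icc ⌊d a⌋ ⌊d b⌋,
      ‖∑ n ∈ (Finset.Icc a b).filter (fun n => ⌊d n⌋ = k),
        cexp (2 * Real.pi * I * (g n : ℂ))‖ ≤ 8 / Δ := by
    intro k _
    obtain ⟨S, hS⟩ : ∃ S, S = (Finset.Icc a b).filter (fun n => ⌊d n⌋ = k) := ⟨_, rfl⟩
    have hSm : ∀ n ∈ S, a ≤ n ∧ n ≤ b ∧ (k : ℝ) ≤ d n ∧ d n < k + 1 := by
      intro n hn
      rw [hS, Finset.mem_filter, Finset.mem_Icc] at hn
      have h4 := Int.floor_le (d n)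
      have h5 := Int.lt_floor_add_one (d n)
      rw [hn.2] at h4 h5
      exact ⟨hn.1.1, hn.1.2, h4, h5⟩
    have hSm' : ∀ n, a ≤ n → n ≤ b → (k : ℝ) ≤ d n → d n < k + 1 → n ∈ S := by
      intro n h3 h4 h5 h6
      rw [hS, Finset.mem_filter, Finset.mem_Icc]
      refine ⟨⟨h3, h4⟩, ?_⟩
      rw [Int.floor_eq_iff]
      exact ⟨h5, h6⟩
    rw [← hS]
    rw [← Finset.sum_filter_add_sum_filter_not S
      (fun n => (k : ℝ) + Δ ≤ d n ∧ d n ≤ k + 1 - Δ)]
    have hA' : ‖∑ n ∈ S.filter (fun n => (k : ℝ) + Δ ≤ d n ∧ d n ≤ k + 1 - Δ),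
        cexp (2 * Real.pi * I * (g n : ℂ))‖ ≤ 4 / Δ := by
      obtain ⟨M, hM⟩ : ∃ M, M = S.filter (fun n => (k : ℝ) + Δ ≤ d n ∧ d n ≤ k + 1 - Δ) :=
        ⟨_, rfl⟩
      rw [← hM]
      have hMm : ∀ n ∈ M, a ≤ n ∧ n ≤ b ∧ (k : ℝ) + Δ ≤ d n ∧ d n ≤ k + 1 - Δ := by
        intro n hn
        rw [hM, Finset.mem_filter] at hn
        have := hSm n hn.1
        exact ⟨this.1, this.2.1, hn.2.1, hn.2.2⟩
      rcases M.eq_empty_or_nonempty with h | h
      · rw [h]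
        simp only [Finset.sum_empty, norm_zero]
        positivity
      · have hint : ∀ x ∈ M, ∀ y ∈ M, ∀ z, x ≤ z → z ≤ y → z ∈ M := by
          intro x hx y hy z hxz hzy
          have h3 := hMm x hx
          have h4 := hMm y hy
          have h5 := inc_mono hl hinc (m := x) (n := z) h3.1 hxz (by omega)
          have h6 := inc_mono hl hinc (m := z) (n := y) (by omega) hzy h4.2.1
          rw [hM, Finset.mem_filter]
          refine ⟨hSm' z (by omega) (by omega) (by linarith) (by linarith), by linarith, by linarith⟩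
        have hI := eq_Icc M h hint
        have ha := hMm _ (M.min'_mem h)
        have hb := hMm _ (M.max'_mem h)
        obtain ⟨a', haa⟩ : ∃ a', a' = M.min' h := ⟨_, rfl⟩
        obtain ⟨b', hbb⟩ : ∃ b', b' = M.max' h := ⟨_, rfl⟩
        rw [← haa] at ha hI
        rw [← hbb] at hb hI
        rw [hI]
        refine kusmin_landau g a' b' Δ k hΔ0 hΔ2 (Or.inl ?_) ?_
        · intro m n ham hmn hnb
          rw [← hdn, ← hdn]
          exact inc_mono hl hinc (m := m) (n := n) (by omega) hmn (by omega)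
        · intro n han hnb
          have h3 : n ∈ M := by
            rw [hI, Finset.mem_Icc]
            omega
          have h4 := hMm n h3
          rw [← hdn]
          constructor
          · linarith [h4.2.2.1]
          · linarith [h4.2.2.2]
    have hB : ‖∑ n ∈ S.filter (fun n => ¬ ((k : ℝ) + Δ ≤ d n ∧ d n ≤ k + 1 - Δ)),
        cexp (2 * Real.pi * I * (g n : ℂ))‖ ≤ 2 * (Δ / l + 1) := by
      refine (card_bd _ g).trans ?_
      have hsub : S.filter (fun n => ¬ ((k : ℝ) + Δ ≤ d n ∧ d n ≤ k + 1 - Δ)) ⊆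
          S.filter (fun n => d n ≤ k + Δ) ∪ S.filter (fun n => (k : ℝ) + 1 - Δ ≤ d n) := by
        intro n hn
        rw [Finset.mem_filter] at hn
        rw [Finset.mem_union, Finset.mem_filter, Finset.mem_filter]
        by_cases h3 : (k : ℝ) + Δ ≤ d n
        · right
          refine ⟨hn.1, ?_⟩
          by_contra h4
          push Not at h4
          exact hn.2 ⟨h3, h4.le⟩
        · left
          push Not at h3
          exact ⟨hn.1, h3.le⟩
      have h3 := (Finset.card_le_card hsub).trans (Finset.card_union_le _ _)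
      have h4 := card_le hl hinc (S.filter (fun n => d n ≤ k + Δ)) k Δ hΔ0.le (by
        intro n hn
        rw [Finset.mem_filter] at hn
        have h5 := hSm n hn.1
        exact ⟨h5.1, h5.2.1, h5.2.2.1, hn.2⟩)
      have h6 := card_le hl hinc (S.filter (fun n => (k : ℝ) + 1 - Δ ≤ d n)) (k + 1 - Δ) Δ hΔ0.le
        (by
          intro n hn
          rw [Finset.mem_filter] at hn
          have h5 := hSm n hn.1
          exact ⟨h5.1, h5.2.1, hn.2, by linarith [h5.2.2.2]⟩)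
      have h7 : ((S.filter (fun n => ¬ ((k : ℝ) + Δ ≤ d n ∧ d n ≤ k + 1 - Δ))).card : ℝ) ≤
          ((S.filter (fun n => d n ≤ k + Δ)).card : ℝ) +
          ((S.filter (fun n => (k : ℝ) + 1 - Δ ≤ d n)).card : ℝ) := by exact_mod_cast h3
      linarith
    refine (norm_add_le _ _).trans ((add_le_add hA' hB).trans ?_)
    have h3 : Δ / l = 1 / Δ := by
      rw [← hΔΔ]
      field_simp
    rw [h3]
    have h4 : 1 ≤ 1 / Δ := by
      rw [le_div_iff₀ hΔ0]
      linarith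
    have h5 : 4 / Δ = 4 * (1 / Δ) := by ring
    have h6 : 8 / Δ = 8 * (1 / Δ) := by ring
    rw [h5, h6]
    linarith
  refine (norm_sum_le _ _).trans ((Finset.sum_le_sum hk).trans ?_)
  rw [Finset.sum_const, nsmul_eq_mul]
  refine mul_le_mul_of_nonneg_right ?_ (by positivity)
  rw [Int.card_Icc]
  have h3 : ((⌊d b⌋ + 1 - ⌊d a⌋).toNat : ℝ) = (⌊d b⌋ : ℝ) + 1 - ⌊d a⌋ := by
    have h4 : ⌊d a⌋ ≤ ⌊d b⌋ := Int.floor_le_floor (inc_mono hl hinc le_rfl hab le_rfl)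
    have h5 : ((⌊d b⌋ + 1 - ⌊d a⌋).toNat : ℤ) = ⌊d b⌋ + 1 - ⌊d a⌋ := Int.toNat_of_nonneg (by omega)
    have h6 : (((⌊d b⌋ + 1 - ⌊d a⌋).toNat : ℤ) : ℝ) = ((⌊d b⌋ + 1 - ⌊d a⌋ : ℤ) : ℝ) := by rw [h5]
    push_cast at h6
    exact h6
  rw [h3]
  have h4 := Int.floor_le (d b)
  have h5 := Int.lt_floor_add_one (d a)
  linarith

/-- the bound for exponent `k` -/
def Bd (k : ℕ) (A c C : ℝ) : Prop := ∀ (g : ℕ → ℝ) (a N : ℕ) (l : ℝ),
    1 ≤ N → 0 < l → (∀ n, a ≤ n → n + k < a + N → l ≤ (fwdDiff 1)^[k] g n ∧ (fwdDiff 1)^[k] g n ≤ A * l) →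
    ‖∑ n ∈ Finset.Ico a (a + N), cexp (2 * Real.pi * I * (g n : ℂ))‖ ≤
      C * N * (l ^ c + ((N : ℝ) ^ k * l) ^ (-c) + (N : ℝ) ^ (-c))

lemma base2 (A : ℝ) (hA : 1 ≤ A) : Bd 2 A (1 / 2) (17 * A) := by
  intro g a N l hN hl hd
  have hN0 : (0 : ℝ) < N := by exact_mod_cast hN
  have hs : l ^ (1 / 2 : ℝ) = Real.sqrt l := (Real.sqrt_eq_rpow l).symm
  have hsl : 0 < Real.sqrt l := Real.sqrt_pos.2 hl
  have hss : Real.sqrt l * Real.sqrt l = l := Real.mul_self_sqrt hl.le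
  have hs2 : ((N : ℝ) ^ 2 * l) ^ (-(1 / 2) : ℝ) = 1 / (N * Real.sqrt l) := by
    rw [Real.rpow_neg (by positivity), ← Real.sqrt_eq_rpow, Real.sqrt_mul (by positivity),
      Real.sqrt_sq hN0.le, one_div]
  rw [hs, hs2]
  have h0 : 0 ≤ (N : ℝ) ^ (-(1 / 2) : ℝ) := by positivity
  have h00 : 0 ≤ 17 * A * N * (N : ℝ) ^ (-(1 / 2) : ℝ) := by positivity
  have hgoal : ‖∑ n ∈ Finset.Ico a (a + N), cexp (2 * Real.pi * I * (g n : ℂ))‖ ≤
      17 * A * (N * Real.sqrt l + 1 / Real.sqrt l) := by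
    rcases le_or_gt l (1 / 4) with hl4 | hl4
    · have hsl2 : Real.sqrt l ≤ 1 / 2 := half_of hss hl4
      have h1s : 1 ≤ 1 / Real.sqrt l := by
        rw [le_div_iff₀ hsl]; linarith
      rcases Nat.lt_or_ge N 2 with hN2 | hN2
      · have hN1 : N = 1 := by omega
        have h1 := triv g a N
        rw [hN1] at h1 ⊢
        push_cast at h1 ⊢
        have h2 : 1 ≤ A * (1 / Real.sqrt l) := one_le_mul_of_one_le_of_one_le hA h1s
        have h3 : 0 < A * Real.sqrt l := by positivity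
        linarith
      · obtain ⟨b, hb⟩ : ∃ b, a + N = b + 2 := ⟨a + N - 2, by omega⟩
        have hab : a ≤ b := by omega
        have hsplit : Finset.Ico a (a + N) = insert (b + 1) (Finset.Icc a b) := by
          ext n
          rw [Finset.mem_Ico, Finset.mem_insert, Finset.mem_Icc]
          omega
        have hnot : b + 1 ∉ Finset.Icc a b := by
          rw [Finset.mem_Icc]; omega
        rw [hsplit, Finset.sum_insert hnot]
        have hdd : ∀ n, a ≤ n → n < b → l ≤ (g (n + 1 + 1) - g (n + 1)) - (g (n + 1) - g n) ∧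
            (g (n + 1 + 1) - g (n + 1)) - (g (n + 1) - g n) ≤ A * l := by
          intro n h1 h2
          have h3 := hd n h1 (by omega)
          have h4 : (fwdDiff 1)^[2] g n = (g (n + 1 + 1) - g (n + 1)) - (g (n + 1) - g n) := by
            rw [it_succ 1 g n, it_succ 0 g (n + 1), it_succ 0 g n]
            rfl
          rw [h4] at h3
          exact h3
        have hd' : (g (b + 1) - g b) - (g (a + 1) - g a) ≤ A * l * ((b : ℝ) - a) := by
          have h1 := (tel (fun n => g (n + 1) - g n) a l A (b - a) (fun i hi =>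
            hdd (a + i) (by omega) (by omega))).2
          rw [show a + (b - a) = b by omega] at h1
          refine h1.trans (le_of_eq ?_)
          rw [Nat.cast_sub hab]
          ring
        have hc := base_core g a b l A hl hl4 hA hab (fun n h1 h2 => (hdd n h1 h2).1) hd'
        refine (norm_add_le _ _).trans ?_
        rw [norm_e]
        have hbN : (b : ℝ) - a ≤ N := by
          have : (b : ℝ) + 2 = a + N := by exact_mod_cast hb.symm
          linarith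
        have h2 : (A * l * ((b : ℝ) - a) + 2) * (8 / Real.sqrt l) ≤
            (A * l * N + 2) * (8 / Real.sqrt l) := by
          gcongr
        have h3 : (A * l * N + 2) * (8 / Real.sqrt l) =
            8 * A * (N * Real.sqrt l) + 16 * (1 / Real.sqrt l) := by
          have : l / Real.sqrt l = Real.sqrt l := by
            rw [div_eq_iff hsl.ne']; exact hss.symm
          calc (A * l * N + 2) * (8 / Real.sqrt l) =
              8 * A * (N * (l / Real.sqrt l)) + 16 * (1 / Real.sqrt l) := by ring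
            _ = _ := by rw [this]
        have h4 : 0 ≤ N * Real.sqrt l := by positivity
        have h5 : 17 * (1 / Real.sqrt l) ≤ 17 * A * (1 / Real.sqrt l) := by
          have : 0 < 1 / Real.sqrt l := by positivity
          gcongr
          linarith
        have h6 : 8 * A * (N * Real.sqrt l) ≤ 17 * A * (N * Real.sqrt l) := by
          have : 0 ≤ A * (N * Real.sqrt l) := by positivity
          linarith
        linarith
    · have h1 := triv g a N
      have h2 : 1 / 2 ≤ Real.sqrt l := half_le hss hl4 hsl.le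
      have h3 : 0 < 1 / Real.sqrt l := by positivity
      have h4 : (N : ℝ) ≤ 2 * (N * Real.sqrt l) := by
        have := mul_le_mul_of_nonneg_left h2 hN0.le
        linarith
      have h5 : 2 * (N * Real.sqrt l) ≤ 17 * A * (N * Real.sqrt l) := by
        have : 0 ≤ N * Real.sqrt l := by positivity
        gcongr
        linarith
      have h6 : 0 ≤ 17 * A * (1 / Real.sqrt l) := by positivity
      linarith
  refine hgoal.trans ?_
  have h1 : 17 * A * N * (Real.sqrt l + 1 / (N * Real.sqrt l) + (N : ℝ) ^ (-(1 / 2) : ℝ)) =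
      17 * A * (N * Real.sqrt l + 1 / Real.sqrt l) + 17 * A * N * (N : ℝ) ^ (-(1 / 2) : ℝ) := by
    field_simp
  rw [h1]
  linarith

/-! ### the induction step -/

lemma sum_rpow (c : ℝ) (hc0 : 0 < c) (hc : c ≤ 1 / 2) (H : ℕ) (hH : 1 ≤ H) :
    ∑ h ∈ Finset.Ico 1 H, (h : ℝ) ^ (-c) ≤ 4 * (H : ℝ) ^ (1 - c) := by
  induction H, hH using Nat.le_induction with
  | base => simp
  | succ H hH ih =>
    rw [Finset.sum_Ico_succ_top hH]
    have hH0 : (0 : ℝ) < H := by exact_mod_cast hH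
    have hH1 : (0 : ℝ) < (H : ℝ) + 1 := by positivity
    push_cast
    -- Bernoulli
    have h1 := rpow_one_add_le_one_add_mul_self (s := -(1 / ((H : ℝ) + 1)))
      (by
        have : 1 / ((H : ℝ) + 1) ≤ 1 := by rw [div_le_one hH1]; linarith
        linarith) (p := 1 - c) (by linarith) (by linarith)
    have h2 : 1 + -(1 / ((H : ℝ) + 1)) = H / (H + 1) := by field_simp; ring
    rw [h2, Real.div_rpow hH0.le hH1.le, div_le_iff₀ (by positivity)] at h1
    have h3 : ((H : ℝ) + 1) ^ (1 - c) = (H + 1) * ((H : ℝ) + 1) ^ (-c) := by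
      rw [show (1 - c : ℝ) = 1 + (-c) by ring, Real.rpow_add hH1, Real.rpow_one]
    have h4 : (1 + (1 - c) * -(1 / ((H : ℝ) + 1))) * ((H : ℝ) + 1) ^ (1 - c) =
        ((H : ℝ) + 1) ^ (1 - c) - (1 - c) * ((H : ℝ) + 1) ^ (-c) := by
      rw [h3]
      field_simp
      ring
    rw [h4] at h1
    have h5 : (H : ℝ) ^ (-c) ≤ 2 * ((H : ℝ) + 1) ^ (-c) := by
      have h6 : ((H : ℝ) + 1) ^ c ≤ 2 * (H : ℝ) ^ c := by
        have h7 : ((H : ℝ) + 1) ^ c ≤ (2 * H) ^ c :=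
          Real.rpow_le_rpow hH1.le (by
            have : (1 : ℝ) ≤ H := by exact_mod_cast hH
            linarith) hc0.le
        rw [Real.mul_rpow (by norm_num) hH0.le] at h7
        have h8 : (2 : ℝ) ^ c ≤ 2 ^ (1 : ℝ) :=
          Real.rpow_le_rpow_of_exponent_le (by norm_num) (by linarith)
        rw [Real.rpow_one] at h8
        have h9 : 0 ≤ (H : ℝ) ^ c := by positivity
        nlinarith
      rw [Real.rpow_neg hH0.le, Real.rpow_neg hH1.le, ← div_eq_mul_inv, inv_eq_one_div,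
        div_le_div_iff₀ (by positivity) (by positivity)]
      linarith
    have h10 : 0 < ((H : ℝ) + 1) ^ (-c) := by positivity
    have h11 : (1 / 2) * ((H : ℝ) + 1) ^ (-c) ≤ (1 - c) * ((H : ℝ) + 1) ^ (-c) := by
      apply mul_le_mul_of_nonneg_right _ h10.le
      linarith
    linarith

/-- the sums of the differenced function -/
lemma diffd {k : ℕ} {A c C : ℝ} (hc0 : 0 < c) (hc : c ≤ 1 / 2) (hC : 0 < C) (hB : Bd k A c C)
    (g : ℕ → ℝ) (a N : ℕ) (l : ℝ) (hl : 0 < l)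
    (hd : ∀ n, a ≤ n → n + (k + 1) < a + N →
      l ≤ (fwdDiff 1)^[k + 1] g n ∧ (fwdDiff 1)^[k + 1] g n ≤ A * l)
    {h H : ℕ} (h1 : 1 ≤ h) (hH : h < H) (hHN : 2 * H ≤ N) :
    ‖∑ m ∈ Finset.range (N - h), cexp (2 * Real.pi * I * (g (a + (m + h)) : ℂ)) *
      (starRingEnd ℂ) (cexp (2 * Real.pi * I * (g (a + m) : ℂ)))‖ ≤
      C * N * ((H * l) ^ c + (2 ^ k : ℝ) ^ c * ((N : ℝ) ^ k * l) ^ (-c) * (h : ℝ) ^ (-c) +
        2 * (N : ℝ) ^ (-c)) := by
  have hh0 : (0 : ℝ) < h := by exact_mod_cast h1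
  have hN0 : (0 : ℝ) < N := by
    have : 0 < N := by omega
    exact_mod_cast this
  have hsum : ∑ m ∈ Finset.range (N - h), cexp (2 * Real.pi * I * (g (a + (m + h)) : ℂ)) *
      (starRingEnd ℂ) (cexp (2 * Real.pi * I * (g (a + m) : ℂ))) =
      ∑ n ∈ Finset.Ico a (a + (N - h)),
        cexp (2 * Real.pi * I * (((fun n => g (n + h) - g n) n : ℝ) : ℂ)) := by
    rw [Finset.sum_Ico_eq_sum_range, Nat.add_sub_cancel_left]
    refine Finset.sum_congr rfl fun m _ => ?_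
    rw [e_sub, ← add_assoc]
  rw [hsum]
  have h2 := hB (fun n => g (n + h) - g n) a (N - h) (h * l) (by omega) (by positivity) (by
    intro n hn hn2
    rw [it_shift]
    refine tel ((fwdDiff 1)^[k] g) n l A h fun i hi => ?_
    rw [← it_succ]
    exact hd (n + i) (by omega) (by omega))
  refine h2.trans ?_
  have hNh : (N : ℝ) / 2 ≤ ((N - h : ℕ) : ℝ) := by
    rw [div_le_iff₀ (by norm_num)]
    have : N ≤ (N - h) * 2 := by omega
    exact_mod_cast this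
  have hNh0 : (0 : ℝ) < ((N - h : ℕ) : ℝ) := by linarith
  have hNh1 : ((N - h : ℕ) : ℝ) ≤ N := by exact_mod_cast Nat.sub_le N h
  have e1 : ((h : ℝ) * l) ^ c ≤ (H * l) ^ c := by
    refine Real.rpow_le_rpow (by positivity) ?_ hc0.le
    have : (h : ℝ) ≤ H := by exact_mod_cast hH.le
    gcongr
  have e2 : ((((N - h : ℕ) : ℝ)) ^ k * (h * l)) ^ (-c) ≤
      (2 ^ k : ℝ) ^ c * ((N : ℝ) ^ k * l) ^ (-c) * (h : ℝ) ^ (-c) := by
    have e3 : ((((N - h : ℕ) : ℝ)) ^ k * (h * l)) ^ (-c) ≤ (((N : ℝ) / 2) ^ k * (h * l)) ^ (-c) := by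
      refine Real.rpow_le_rpow_of_nonpos (by positivity) ?_ (by linarith)
      gcongr
    refine e3.trans (le_of_eq ?_)
    have e4 : ((N : ℝ) / 2) ^ k * (h * l) = (2 ^ k : ℝ)⁻¹ * ((N : ℝ) ^ k * l) * h := by
      rw [div_pow]
      field_simp
    rw [e4, Real.mul_rpow (by positivity) hh0.le, Real.mul_rpow (by positivity) (by positivity),
      Real.inv_rpow (by positivity), Real.rpow_neg (by positivity : (0 : ℝ) ≤ 2 ^ k), inv_inv]
  have e3 : (((N - h : ℕ) : ℝ)) ^ (-c) ≤ 2 * (N : ℝ) ^ (-c) := by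
    have e4 : (((N - h : ℕ) : ℝ)) ^ (-c) ≤ ((N : ℝ) / 2) ^ (-c) :=
      Real.rpow_le_rpow_of_nonpos (by positivity) hNh (by linarith)
    refine e4.trans ?_
    rw [Real.div_rpow hN0.le (by norm_num), Real.rpow_neg (by norm_num : (0 : ℝ) ≤ 2),
      div_inv_eq_mul, mul_comm]
    have h8 : (2 : ℝ) ^ c ≤ 2 ^ (1 : ℝ) :=
      Real.rpow_le_rpow_of_exponent_le (by norm_num) (by linarith)
    rw [Real.rpow_one] at h8
    have h9 : 0 ≤ (N : ℝ) ^ (-c) := by positivity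
    nlinarith
  have e5 : 0 ≤ ((h : ℝ) * l) ^ c + ((((N - h : ℕ) : ℝ)) ^ k * (h * l)) ^ (-c) +
      (((N - h : ℕ) : ℝ)) ^ (-c) := by positivity
  calc C * (((N - h : ℕ) : ℝ)) * (((h : ℝ) * l) ^ c + ((((N - h : ℕ) : ℝ)) ^ k * (h * l)) ^ (-c) +
      (((N - h : ℕ) : ℝ)) ^ (-c)) ≤ C * N * (((h : ℝ) * l) ^ c +
      ((((N - h : ℕ) : ℝ)) ^ k * (h * l)) ^ (-c) + (((N - h : ℕ) : ℝ)) ^ (-c)) := by
        gcongr
    _ ≤ _ := by gcongr

/-- van der Corput's inequality with the bound of the previous step -/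
lemma step_H {k : ℕ} {A c C : ℝ} (hc0 : 0 < c) (hc : c ≤ 1 / 2) (hC : 0 < C) (hB : Bd k A c C)
    (g : ℕ → ℝ) (a N : ℕ) (l : ℝ) (hl : 0 < l)
    (hd : ∀ n, a ≤ n → n + (k + 1) < a + N →
      l ≤ (fwdDiff 1)^[k + 1] g n ∧ (fwdDiff 1)^[k + 1] g n ≤ A * l)
    {H : ℕ} (hH : 1 ≤ H) (hHN : 2 * H ≤ N) :
    ‖∑ n ∈ Finset.Ico a (a + N), cexp (2 * Real.pi * I * (g n : ℂ))‖ ^ 2 ≤
      (N : ℝ) ^ 2 * (2 / H + 4 * C * ((H * l) ^ c +
        4 * (2 ^ k : ℝ) ^ c * ((N : ℝ) ^ k * (H * l)) ^ (-c) + 2 * (N : ℝ) ^ (-c))) := by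
  have hH0 : (0 : ℝ) < H := by exact_mod_cast hH
  have hN0 : (0 : ℝ) < N := by
    have : 0 < N := by omega
    exact_mod_cast this
  have h1 := vdc_ineq (fun m => cexp (2 * Real.pi * I * (g (a + m) : ℂ))) N H hH
  have h2 : ∑ n ∈ Finset.Ico a (a + N), cexp (2 * Real.pi * I * (g n : ℂ)) =
      ∑ m ∈ Finset.range N, cexp (2 * Real.pi * I * (g (a + m) : ℂ)) := by
    rw [Finset.sum_Ico_eq_sum_range, Nat.add_sub_cancel_left]
  rw [← h2] at h1
  have h3 : ‖∑ m ∈ Finset.range N, (fun m => cexp (2 * Real.pi * I * (g (a + m) : ℂ))) m *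
      (starRingEnd ℂ) ((fun m => cexp (2 * Real.pi * I * (g (a + m) : ℂ))) m)‖ ≤ N := by
    refine (norm_sum_le _ _).trans (le_of_eq ?_)
    have : ∀ m ∈ Finset.range N, ‖(fun m => cexp (2 * Real.pi * I * (g (a + m) : ℂ))) m *
      (starRingEnd ℂ) ((fun m => cexp (2 * Real.pi * I * (g (a + m) : ℂ))) m)‖ = 1 := by
      intro m _
      simp only
      rw [norm_mul, RCLike.norm_conj, norm_e, one_mul]
    rw [Finset.sum_congr rfl this, Finset.sum_const, Finset.card_range, nsmul_eq_mul, mul_one]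
  have h4 : ∑ h ∈ Finset.Ico 1 H, ‖∑ m ∈ Finset.range (N - h),
      (fun m => cexp (2 * Real.pi * I * (g (a + m) : ℂ))) (m + h) *
      (starRingEnd ℂ) ((fun m => cexp (2 * Real.pi * I * (g (a + m) : ℂ))) m)‖ ≤
      C * N * (H * (H * l) ^ c + (2 ^ k : ℝ) ^ c * ((N : ℝ) ^ k * l) ^ (-c) *
        (4 * (H : ℝ) ^ (1 - c)) + H * (2 * (N : ℝ) ^ (-c))) := by
    have h5 : ∀ h ∈ Finset.Ico 1 H, ‖∑ m ∈ Finset.range (N - h),
      (fun m => cexp (2 * Real.pi * I * (g (a + m) : ℂ))) (m + h) *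
      (starRingEnd ℂ) ((fun m => cexp (2 * Real.pi * I * (g (a + m) : ℂ))) m)‖ ≤
      C * N * ((H * l) ^ c + (2 ^ k : ℝ) ^ c * ((N : ℝ) ^ k * l) ^ (-c) * (h : ℝ) ^ (-c) +
        2 * (N : ℝ) ^ (-c)) := by
      intro h hh
      rw [Finset.mem_Ico] at hh
      exact diffd hc0 hc hC hB g a N l hl hd hh.1 hh.2 hHN
    refine (Finset.sum_le_sum h5).trans ?_
    rw [← Finset.mul_sum, Finset.sum_add_distrib, Finset.sum_add_distrib, ← Finset.mul_sum,
      Finset.sum_const, Finset.sum_const, Nat.card_Ico, nsmul_eq_mul, nsmul_eq_mul]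
    have h6 : ((H - 1 : ℕ) : ℝ) ≤ H := by exact_mod_cast Nat.sub_le H 1
    have h7 := sum_rpow c hc0 hc H hH
    gcongr
  have h5 : (N : ℝ) + H ≤ 2 * N := by
    have : (H : ℝ) ≤ N := by exact_mod_cast (by omega : H ≤ N)
    linarith
  have h6 : (H : ℝ) * ‖∑ n ∈ Finset.Ico a (a + N), cexp (2 * Real.pi * I * (g n : ℂ))‖ ^ 2 ≤
      (2 * N) * (N + 2 * (C * N * (H * (H * l) ^ c + (2 ^ k : ℝ) ^ c * ((N : ℝ) ^ k * l) ^ (-c) *
        (4 * (H : ℝ) ^ (1 - c)) + H * (2 * (N : ℝ) ^ (-c))))) := by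
    refine h1.trans ?_
    refine mul_le_mul h5 (add_le_add h3 (mul_le_mul_of_nonneg_left h4 (by norm_num))) ?_
      (by positivity)
    positivity
  have h7 : (H : ℝ) ^ (1 - c) = H * (H : ℝ) ^ (-c) := by
    rw [show (1 - c : ℝ) = 1 + (-c) by ring, Real.rpow_add hH0, Real.rpow_one]
  have h8 : ((N : ℝ) ^ k * (H * l)) ^ (-c) = ((N : ℝ) ^ k * l) ^ (-c) * (H : ℝ) ^ (-c) := by
    rw [show (N : ℝ) ^ k * (H * l) = ((N : ℝ) ^ k * l) * H by ring,
      Real.mul_rpow (by positivity) hH0.le]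
  have h9 : (2 * N) * (N + 2 * (C * N * (H * (H * l) ^ c + (2 ^ k : ℝ) ^ c *
      ((N : ℝ) ^ k * l) ^ (-c) * (4 * (H : ℝ) ^ (1 - c)) + H * (2 * (N : ℝ) ^ (-c))))) =
      (H : ℝ) * ((N : ℝ) ^ 2 * (2 / H + 4 * C * ((H * l) ^ c +
        4 * (2 ^ k : ℝ) ^ c * ((N : ℝ) ^ k * (H * l)) ^ (-c) + 2 * (N : ℝ) ^ (-c)))) := by
    rw [h7, h8]
    field_simp
    ring
  rw [h9] at h6
  exact le_of_mul_le_mul_left h6 hH0

lemma sq_quarter {x c : ℝ} (hx : 0 < x) : (x ^ (c / 4)) ^ 2 = x ^ (c / 2) := by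
  rw [← Real.rpow_natCast, ← Real.rpow_mul hx.le]
  congr 1
  push_cast
  ring

lemma sq_quarter' {x c : ℝ} (hx : 0 < x) : (x ^ (-(c / 4))) ^ 2 = x ^ (-(c / 2)) := by
  rw [← Real.rpow_natCast, ← Real.rpow_mul hx.le]
  congr 1
  push_cast
  ring

lemma step {k : ℕ} (hk : 1 ≤ k) {A c C : ℝ} (hc0 : 0 < c) (hc : c ≤ 1 / 2) (hC : 0 < C)
    (hB : Bd k A c C) :
    Bd (k + 1) A (c / 4) (Real.sqrt (8 + 64 * (2 ^ k : ℝ) ^ c * C)) := by
  intro g a N l hN hl hd
  have hN0 : (0 : ℝ) < N := by exact_mod_cast hN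
  have hN1 : (1 : ℝ) ≤ N := by exact_mod_cast hN
  obtain ⟨B, hBd⟩ : ∃ B, B = (2 ^ k : ℝ) ^ c := ⟨_, rfl⟩
  have hB1 : 1 ≤ B := by
    rw [hBd]
    exact Real.one_le_rpow (one_le_pow₀ (by norm_num)) hc0.le
  rw [← hBd]
  obtain ⟨R, hR⟩ : ∃ R, R = Real.sqrt (8 + 64 * B * C) := ⟨_, rfl⟩
  have hR2 : R ^ 2 = 8 + 64 * B * C := by rw [hR]; exact Real.sq_sqrt (by positivity)
  have hR0 : 0 ≤ R := by rw [hR]; exact Real.sqrt_nonneg _
  have hRge : 2 ≤ R := two_le (x := 64 * B * C) (by positivity) hR2 hR0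
  rw [← hR]
  obtain ⟨u, hu⟩ : ∃ u, u = l ^ (c / 4) := ⟨_, rfl⟩
  obtain ⟨v, hv⟩ : ∃ v, v = ((N : ℝ) ^ (k + 1) * l) ^ (-(c / 4)) := ⟨_, rfl⟩
  obtain ⟨w, hw⟩ : ∃ w, w = (N : ℝ) ^ (-(c / 4)) := ⟨_, rfl⟩
  have hu0 : 0 < u := by rw [hu]; positivity
  have hv0 : 0 < v := by rw [hv]; positivity
  have hw0 : 0 < w := by rw [hw]; positivity
  have hu2 : u ^ 2 = l ^ (c / 2) := by rw [hu]; exact sq_quarter hl
  have hv2 : v ^ 2 = ((N : ℝ) ^ (k + 1) * l) ^ (-(c / 2)) := by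
    rw [hv]; exact sq_quarter' (by positivity)
  have hw2 : w ^ 2 = (N : ℝ) ^ (-(c / 2)) := by rw [hw]; exact sq_quarter' hN0
  rw [← hu, ← hv, ← hw]
  have htriv := triv g a N
  -- trivial cases
  have htc : 1 / 2 ≤ u + v + w → ‖∑ n ∈ Finset.Ico a (a + N),
      cexp (2 * Real.pi * I * (g n : ℂ))‖ ≤ R * N * (u + v + w) := by
    intro h
    refine htriv.trans ?_
    have h1 : (1 : ℝ) ≤ R * (u + v + w) := by
      calc (1 : ℝ) = 2 * (1 / 2) := by norm_num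
        _ ≤ R * (u + v + w) := mul_le_mul hRge h (by norm_num) hR0
    calc (N : ℝ) = N * 1 := (mul_one _).symm
      _ ≤ N * (R * (u + v + w)) := mul_le_mul_of_nonneg_left h1 hN0.le
      _ = R * N * (u + v + w) := by ring
  rcases lt_or_ge (1 / 4) l with hl4 | hl4
  · apply htc
    have h1 : (1 / 4 : ℝ) ^ (c / 4) ≤ u := by
      rw [hu]
      exact Real.rpow_le_rpow (by norm_num) hl4.le (by linarith)
    have h2 : (1 / 4 : ℝ) ^ (1 / 2 : ℝ) ≤ (1 / 4 : ℝ) ^ (c / 4) :=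
      Real.rpow_le_rpow_of_exponent_ge (by norm_num) (by norm_num) (by linarith)
    have h3 : (1 / 4 : ℝ) ^ (1 / 2 : ℝ) = 1 / 2 := by
      rw [← Real.sqrt_eq_rpow, show (1 / 4 : ℝ) = (1 / 2) ^ 2 by norm_num,
        Real.sqrt_sq (by norm_num)]
    linarith
  rcases lt_or_ge ((N : ℝ) ^ (k + 1) * l) 1 with hNl | hNl
  · apply htc
    have h1 : 1 ≤ v := by
      rw [hv]
      exact Real.one_le_rpow_of_pos_of_le_one_of_nonpos (by positivity) hNl.le (by linarith)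
    linarith
  rcases Nat.lt_or_ge N 2 with hN2 | hN2
  · apply htc
    have h1 : w = 1 := by
      rw [hw, show N = 1 by omega]
      simp
    linarith
  -- the main case
  have hN2' : (2 : ℝ) ≤ N := by exact_mod_cast hN2
  have hsl : 0 < Real.sqrt l := Real.sqrt_pos.2 hl
  have hss : Real.sqrt l * Real.sqrt l = l := Real.mul_self_sqrt hl.le
  have hs2 : Real.sqrt l ≤ 1 / 2 := half_of hss hl4
  obtain ⟨ρ, hρ⟩ : ∃ ρ, ρ = max (Real.sqrt l) (1 / N) := ⟨_, rfl⟩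
  have hρ1 : Real.sqrt l ≤ ρ := by rw [hρ]; exact le_max_left _ _
  have hρ2 : 1 / (N : ℝ) ≤ ρ := by rw [hρ]; exact le_max_right _ _
  have hρ0 : 0 < ρ := by linarith
  have hρ3 : ρ ≤ 1 / 2 := by
    rw [hρ]
    refine max_le hs2 ?_
    rw [div_le_div_iff₀ hN0 (by norm_num)]
    linarith
  have hρ4 : ρ = Real.sqrt l ∨ ρ = 1 / N := by
    rw [hρ]
    exact max_choice _ _
  obtain ⟨H, hH⟩ : ∃ H, H = ⌊1 / (2 * ρ)⌋₊ := ⟨_, rfl⟩
  have hx1 : 1 ≤ 1 / (2 * ρ) := by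
    rw [le_div_iff₀ (by positivity)]
    linarith
  have hH1 : 1 ≤ H := by
    rw [hH, Nat.one_le_floor_iff]
    exact hx1
  have hH0 : (0 : ℝ) < H := by exact_mod_cast hH1
  have hHx : (H : ℝ) ≤ 1 / (2 * ρ) := by
    rw [hH]
    exact Nat.floor_le (by positivity)
  have hHx2 : 1 / (4 * ρ) ≤ H := by
    have h1 := Nat.lt_floor_add_one (1 / (2 * ρ))
    rw [← hH] at h1
    have h2 : (1 : ℝ) ≤ H := by exact_mod_cast hH1
    have h3 : 1 / (2 * ρ) = 2 * (1 / (4 * ρ)) := by field_simp; ring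
    linarith
  have hρN : 1 ≤ ρ * N := by
    rw [div_le_iff₀ hN0] at hρ2
    exact hρ2
  have hHN : 2 * H ≤ N := by
    have h1 : 1 / (2 * ρ) ≤ N / 2 := by
      rw [div_le_div_iff₀ (by positivity) (by norm_num)]
      linarith
    have h2 : (2 : ℝ) * H ≤ N := by linarith
    exact_mod_cast h2
  have hmain := step_H hc0 hc hC hB g a N l hl hd hH1 hHN
  rw [← hBd] at hmain
  have e1 : 2 / (H : ℝ) ≤ 8 * (u ^ 2 + w ^ 2) := by
    have h1 : 2 / (H : ℝ) ≤ 8 * ρ := by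
      rw [div_le_iff₀ hH0]
      rw [div_le_iff₀ (by positivity)] at hHx2
      linarith
    have h2 : ρ ≤ Real.sqrt l + 1 / N := by
      have h0 : 0 < 1 / (N : ℝ) := by positivity
      rcases hρ4 with h | h
      · rw [h]; linarith
      · rw [h]; linarith
    have h3 : Real.sqrt l ≤ u ^ 2 := by
      rw [hu2, Real.sqrt_eq_rpow]
      exact Real.rpow_le_rpow_of_exponent_ge hl (by linarith) (by linarith)
    have h4 : 1 / (N : ℝ) ≤ w ^ 2 := by
      rw [hw2, one_div, ← Real.rpow_neg_one]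
      exact Real.rpow_le_rpow_of_exponent_le hN1 (by linarith)
    linarith
  have e2 : ((H : ℝ) * l) ^ c ≤ u ^ 2 := by
    have h1 : (H : ℝ) * l ≤ Real.sqrt l := by
      have h2 : (H : ℝ) * l ≤ 1 / (2 * ρ) * l := by gcongr
      have h3 : 1 / (2 * ρ) * l ≤ Real.sqrt l := by
        rw [div_mul_eq_mul_div, one_mul, div_le_iff₀ (by positivity)]
        have h4 := mul_le_mul_of_nonneg_left hρ1 hsl.le
        linarith
      linarith
    have h2 : ((H : ℝ) * l) ^ c ≤ (Real.sqrt l) ^ c := Real.rpow_le_rpow (by positivity) h1 hc0.le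
    refine h2.trans (le_of_eq ?_)
    rw [hu2, Real.sqrt_eq_rpow, ← Real.rpow_mul hl.le]
    congr 1
    ring
  have e3 : ((N : ℝ) ^ k * (H * l)) ^ (-c) ≤ 4 * v ^ 2 := by
    have hQ0 : 0 < (N : ℝ) ^ (k + 1) * l := by positivity
    obtain ⟨Q, hQ⟩ : ∃ Q, Q = Real.sqrt ((N : ℝ) ^ (k + 1) * l) := ⟨_, rfl⟩
    have hQp : 0 < Q := by rw [hQ]; exact Real.sqrt_pos.2 hQ0
    have hQQ : Q * Q = (N : ℝ) ^ (k + 1) * l := by rw [hQ]; exact Real.mul_self_sqrt hQ0.le
    have h1 : Q / 4 ≤ (N : ℝ) ^ k * (H * l) := by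
      have h2 : ρ * Q ≤ (N : ℝ) ^ k * l := by
        rcases hρ4 with h | h
        · -- ρ = √l
          have h3 : Q ≤ Real.sqrt l * (N : ℝ) ^ k := by
            rw [hQ]
            apply Real.sqrt_le_iff.2
            refine ⟨by positivity, ?_⟩
            rw [mul_pow, sq (Real.sqrt l), hss, mul_comm]
            have h4 : (N : ℝ) ^ (k + 1) ≤ ((N : ℝ) ^ k) ^ 2 := by
              rw [← pow_mul]
              exact pow_le_pow_right₀ hN1 (by omega)
            exact mul_le_mul_of_nonneg_left h4 hl.le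
          calc ρ * Q ≤ Real.sqrt l * (Real.sqrt l * (N : ℝ) ^ k) := by rw [h]; gcongr
            _ = (N : ℝ) ^ k * l := by rw [← mul_assoc, hss, mul_comm]
        · rw [h]
          have h3 : 1 ≤ Q := one_le_of hQQ hNl hQp.le
          have h4 : Q ≤ (N : ℝ) ^ (k + 1) * l := by
            rw [← hQQ]; exact le_mul_of_one_le_left hQp.le h3
          rw [div_mul_eq_mul_div, one_mul, div_le_iff₀ hN0]
          refine h4.trans (le_of_eq ?_)
          rw [pow_succ]; ring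
      have h3 : (N : ℝ) ^ k * ((1 / (4 * ρ)) * l) ≤ (N : ℝ) ^ k * (H * l) := by gcongr
      refine le_trans ?_ h3
      have h4 : (N : ℝ) ^ k * ((1 / (4 * ρ)) * l) = ((N : ℝ) ^ k * l) / (4 * ρ) := by ring
      rw [h4, div_le_div_iff₀ (by norm_num) (by positivity)]
      linarith
    have h2 : ((N : ℝ) ^ k * (H * l)) ^ (-c) ≤ (Q / 4) ^ (-c) :=
      Real.rpow_le_rpow_of_nonpos (by positivity) h1 (by linarith)
    refine h2.trans ?_
    rw [Real.div_rpow hQp.le (by norm_num), Real.rpow_neg (by norm_num : (0 : ℝ) ≤ 4),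
      div_inv_eq_mul, mul_comm]
    have h8 : (4 : ℝ) ^ c ≤ 4 ^ (1 : ℝ) :=
      Real.rpow_le_rpow_of_exponent_le (by norm_num) (by linarith)
    rw [Real.rpow_one] at h8
    have h9 : Q ^ (-c) = v ^ 2 := by
      rw [hv2, hQ, Real.sqrt_eq_rpow, ← Real.rpow_mul hQ0.le]
      congr 1
      ring
    rw [h9]
    exact mul_le_mul_of_nonneg_right h8 (by positivity)
  have e4 : (N : ℝ) ^ (-c) ≤ w ^ 2 := by
    rw [hw2]
    exact Real.rpow_le_rpow_of_exponent_le hN1 (by linarith)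
  have hfin : ‖∑ n ∈ Finset.Ico a (a + N), cexp (2 * Real.pi * I * (g n : ℂ))‖ ^ 2 ≤
      (R * N * (u + v + w)) ^ 2 := by
    refine hmain.trans ?_
    have h1 : 2 / (H : ℝ) + 4 * C * ((H * l) ^ c +
        4 * B * ((N : ℝ) ^ k * (H * l)) ^ (-c) + 2 * (N : ℝ) ^ (-c)) ≤
        R ^ 2 * (u + v + w) ^ 2 := by
      have h2 : 4 * C * ((H * l) ^ c + 4 * B * ((N : ℝ) ^ k * (H * l)) ^ (-c) +
          2 * (N : ℝ) ^ (-c)) ≤ 4 * C * (u ^ 2 + 4 * B * (4 * v ^ 2) + 2 * w ^ 2) := by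
        gcongr
      have h3 : 8 * (u ^ 2 + w ^ 2) + 4 * C * (u ^ 2 + 4 * B * (4 * v ^ 2) + 2 * w ^ 2) ≤
          (8 + 64 * B * C) * (u ^ 2 + v ^ 2 + w ^ 2) :=
        fin1 hB1 hC (sq_nonneg u) (sq_nonneg v) (sq_nonneg w)
      have h4 : u ^ 2 + v ^ 2 + w ^ 2 ≤ (u + v + w) ^ 2 := fin2 hu0 hv0 hw0
      rw [hR2]
      have h5 : (8 + 64 * B * C) * (u ^ 2 + v ^ 2 + w ^ 2) ≤ (8 + 64 * B * C) * (u + v + w) ^ 2 := by
        gcongr
      linarith
    calc (N : ℝ) ^ 2 * (2 / (H : ℝ) + 4 * C * ((H * l) ^ c +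
        4 * B * ((N : ℝ) ^ k * (H * l)) ^ (-c) + 2 * (N : ℝ) ^ (-c))) ≤
        (N : ℝ) ^ 2 * (R ^ 2 * (u + v + w) ^ 2) := by gcongr
      _ = (R * N * (u + v + w)) ^ 2 := by ring
  exact le_of_sq_le_sq hfin (by positivity)

end VdcKAux

open VdcKAux

theorem vdc_k (k : ℕ) (hk : 2 ≤ k) (A : ℝ) (hA : 1 ≤ A) : ∃ c C : ℝ, 0 < c ∧ 0 < C ∧ ∀ (g : ℕ → ℝ) (a N : ℕ) (l : ℝ),
    1 ≤ N → 0 < l → (∀ n, a ≤ n → n + k < a + N → l ≤ (fwdDiff 1)^[k] g n ∧ (fwdDiff 1)^[k] g n ≤ A * l) →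
    ‖∑ n ∈ Finset.Ico a (a + N), cexp (2 * Real.pi * I * (g n : ℂ))‖ ≤
      C * N * (l ^ c + ((N : ℝ) ^ k * l) ^ (-c) + (N : ℝ) ^ (-c)) := by
  have H : ∃ c C : ℝ, 0 < c ∧ c ≤ 1 / 2 ∧ 0 < C ∧ Bd k A c C := by
    induction k, hk using Nat.le_induction with
    | base => exact ⟨1 / 2, 17 * A, by norm_num, le_rfl, by positivity, base2 A hA⟩
    | succ k hk ih =>
      obtain ⟨c, C, hc0, hc, hC, hB⟩ := ih
      exact ⟨c / 4, _, by positivity, by linarith, Real.sqrt_pos.2 (by positivity),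
        step (by omega) hc0 hc hC hB⟩
  obtain ⟨c, C, hc0, -, hC, hB⟩ := H
  exact ⟨c, C, hc0, hC, hB⟩

end Pool.Agent.P07318f
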