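import Pool.Agent.Lib.P07318f.PhiFn
import Pool.Agent.Lib.P07318s.Crude

/-!
# The zero frequency terms as a contour integral

Fixed naturals `m, n, u, v ≥ 1`, `w = 2 + i t`, `e = ev s α β w`, `‖α‖, ‖β‖ ≤ 1/100`. All integrals converge absolutely. For each `l ≠ 0`
write `KK Ω w (l/(uvσ)) = ∫ Ω(x) X2 x (2w) e(-l x/(2π uvσ)) dx` and interchange (Fubini: for `Ω` bounded with compact support in `(0,∞)`, and
`σ^(-e₁-e₃) φφ` is integrable on `(0,∞)`: near `0` the `φ`'s are `O(σ^10)` each, near `∞` the power is `σ^(-5)`). For fixed `x` substitute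
`y = x/(2πuvσ)`: the `σ`-integral becomes `m^(-e₀) n^(-e₂) (x/2π)^(1-e₁-e₃) u^(e₁-1) v^(e₃-1) ∫_0^∞ H(y) exp(-2πi l y) dy`,
`H(y) = y^(e₁+e₃-2) ph(log(2π m u y/x)) ph(log(2π n v y/x))`, `e₁ + e₃ - 2 = -1+α+β+2w` (real part about `3`), `H` is `C²` on `[0,∞)`, `H(0) = H'(0) = 0`,
rapidly decreasing with its derivatives. Hence (`Poisson`: `Real.tsum_eq_tsum_fourier_of_rpow_decay`-type, or two integrations by parts and the absolutely
convergent Fourier series of the Bernoulli polynomial `B₂({y})`)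
`∑_{l≠0} ∫ H(y) e(-ly) dy = ∑_{j≥1} H(j) - ∫_0^∞ H = ∫_0^∞ {y} H'(y) dy` (Abel summation). The sum over `l` may be interchanged with `∫ dx` since
`|∫ H e(-ly)| ≤ C/l²` uniformly for `x` in the support. Now insert `ph_mellin` with `c = 7/4` twice:
`H(y) = (2π)^(-2) ∫∫ Gz z₁/z₁ Gz z₂/z₂ (2πmu/x)^(-z₁) (2πnv/x)^(-z₂) y^(-S)`, `S = 1-α-β-2w+z₁+z₂`, `0 < Re S < 1`, differentiate under the integral, and
`∫_0^∞ {y} (-S) y^(-S-1) dy = ζ(S)` for `0 < Re S < 1`. (The last formula: for `Re S > 1`, `ζ(S) = S/(S-1) - S ∫_1^∞ {y} y^(-S-1) dy` extends to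
`Re S > 0`, and `-S ∫_0^1 y·y^(-S-1) dy = -S/(1-S)`. Check Mathlib / team library for `riemannZeta` with the fractional part, e.g. `zE` in P4f18dfV.)
-/

set_option autoImplicit false

namespace Pool.Agent.P07318f

open MeasureTheory Complex

/-- the kernel of the zero frequency terms for given `m, n, u, v` -/
noncomputable def Zk0 (s α β : ℂ) (x : ℝ) (w z1 z2 : ℂ) (m n u v : ℕ) : ℂ :=
  Gz s z1 / z1 * (Gz s z2 / z2) * X2 x (-α - β + z1 + z2) *
    ((m : ℂ) ^ (-(1 / 2 + (3 * s - α + w + z1))) * (n : ℂ) ^ (-(1 / 2 + (3 * s - β + w + z2))) *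
      ((v : ℂ) ^ (-(1 / 2 + (-β - w + z2))) * (u : ℂ) ^ (-(1 / 2 + (-α - w + z1))))) *
    riemannZeta (1 - α - β - 2 * w + z1 + z2)

namespace ZFoneAux

open Set Filter Topology
open scoped FourierTransform

/-- `y ^ κ G (log y)` for `y > 0`, zero otherwise -/
noncomputable def FG (κ : ℂ) (G : ℝ → ℂ) (y : ℝ) : ℂ :=
  if 0 < y then (y : ℂ) ^ κ * G (Real.log y) else 0

lemma FG_pos {κ : ℂ} {G : ℝ → ℂ} {y : ℝ} (hy : 0 < y) :
    FG κ G y = (y : ℂ) ^ κ * G (Real.log y) := by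
  unfold FG
  rw [if_pos hy]

lemma FG_nonpos {κ : ℂ} {G : ℝ → ℂ} {y : ℝ} (hy : y ≤ 0) : FG κ G y = 0 := by
  unfold FG
  rw [if_neg (not_lt.2 hy)]

lemma FG_norm {κ : ℂ} {G : ℝ → ℂ} {y : ℝ} (hy : 0 < y) :
    ‖FG κ G y‖ = y ^ κ.re * ‖G (Real.log y)‖ := by
  rw [FG_pos hy, norm_mul, Complex.norm_cpow_eq_rpow_re_of_pos hy]

lemma FG_deriv {κ : ℂ} {G G' : ℝ → ℂ} {C : ℝ} (hκ : 1 < κ.re) (hG : ∀ L, HasDerivAt G (G' L) L)
    (hC : ∀ L, ‖G L‖ ≤ C) (y : ℝ) :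
    HasDerivAt (FG κ G) (FG (κ - 1) (fun L => κ * G L + G' L) y) y := by
  rcases lt_trichotomy y 0 with hy | hy | hy
  · rw [FG_nonpos hy.le]
    have h1 : FG κ G =ᶠ[𝓝 y] fun _ => 0 := by
      filter_upwards [Iio_mem_nhds hy] with z hz
      exact FG_nonpos (le_of_lt hz)
    exact (hasDerivAt_const y (0 : ℂ)).congr_of_eventuallyEq h1
  · subst hy
    rw [FG_nonpos le_rfl]
    rw [hasDerivAt_iff_isLittleO]
    have hC0 : 0 ≤ C := (norm_nonneg _).trans (hC 0)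
    have h1 : (fun x' : ℝ => FG κ G x' - FG κ G 0 - (x' - 0) • (0 : ℂ)) =O[𝓝 0]
        fun x : ℝ => |x| ^ κ.re := by
      refine Asymptotics.IsBigO.of_bound C (Eventually.of_forall fun z => ?_)
      rw [FG_nonpos (le_refl (0 : ℝ)), smul_zero, sub_zero, sub_zero, Real.norm_of_nonneg
        (Real.rpow_nonneg (abs_nonneg z) _)]
      rcases le_or_gt z 0 with hz | hz
      · rw [FG_nonpos hz, norm_zero]
        positivity
      · rw [FG_norm hz, abs_of_pos hz, mul_comm]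
        exact mul_le_mul_of_nonneg_right (hC _) (Real.rpow_nonneg hz.le _)
    refine h1.trans_isLittleO ?_
    have h2 : (fun x : ℝ => |x| ^ κ.re) = fun x : ℝ => |x| * |x| ^ (κ.re - 1) := by
      funext x
      rcases eq_or_ne x 0 with rfl | hx
      · simp [Real.zero_rpow (by linarith : κ.re ≠ 0)]
      · rw [← Real.rpow_one_add' (abs_nonneg x) (by linarith)]
        congr 1
        ring
    rw [h2]
    have h3 : Tendsto (fun x : ℝ => |x| ^ (κ.re - 1)) (𝓝 0) (𝓝 0) := by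
      have h4 : ContinuousAt (fun x : ℝ => |x| ^ (κ.re - 1)) 0 :=
        (continuous_abs.continuousAt).rpow_const (Or.inr (by linarith))
      have h5 := h4.tendsto
      rwa [abs_zero, Real.zero_rpow (by linarith)] at h5
    have h6 : (fun x : ℝ => |x| * |x| ^ (κ.re - 1)) =o[𝓝 0] fun x : ℝ => |x| * 1 :=
      (Asymptotics.isBigO_refl _ _).mul_isLittleO ((Asymptotics.isLittleO_one_iff ℝ).2 h3)
    refine h6.trans_isBigO ?_
    refine Asymptotics.IsBigO.of_bound 1 (Eventually.of_forall fun z => ?_)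
    simp
  · have hy0 : (y : ℂ) ≠ 0 := by exact_mod_cast hy.ne'
    have h1 : FG κ G =ᶠ[𝓝 y] fun z => (z : ℂ) ^ κ * G (Real.log z) := by
      filter_upwards [Ioi_mem_nhds hy] with z hz
      exact FG_pos hz
    refine HasDerivAt.congr_of_eventuallyEq ?_ h1
    have h2 : HasDerivAt (fun z : ℝ => (z : ℂ) ^ κ) (κ * (y : ℂ) ^ (κ - 1)) y := by
      have h3 := (hasDerivAt_id (y : ℂ)).cpow_const (c := κ) (Or.inl (by simpa using hy))
      have h4 := h3.comp_ofReal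
      simpa using h4
    have h3 : HasDerivAt (fun z : ℝ => G (Real.log z)) ((y⁻¹ : ℝ) • G' (Real.log y)) y :=
      (hG (Real.log y)).scomp y (Real.hasDerivAt_log hy.ne')
    have h4 := h2.mul h3
    refine h4.congr_deriv ?_
    rw [FG_pos hy]
    have h5 : (y : ℂ) ^ κ = (y : ℂ) ^ (κ - 1) * y := by
      have h6 := Complex.cpow_add (κ - 1) 1 hy0
      rw [sub_add_cancel, Complex.cpow_one] at h6
      exact h6
    rw [h5, Complex.real_smul]
    push_cast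
    field_simp

lemma FG_le {κ : ℂ} {G : ℝ → ℂ} {C : ℝ} (hC : ∀ L, ‖G L‖ ≤ C * min 1 (Real.exp (-(10 * L))))
    {y : ℝ} (hy : 0 < y) : ‖FG κ G y‖ ≤ C * (y ^ κ.re * min 1 (y ^ (-10 : ℝ))) := by
  rw [FG_norm hy]
  have h1 : Real.exp (-(10 * Real.log y)) = y ^ (-10 : ℝ) := by
    rw [Real.rpow_def_of_pos hy]
    congr 1
    ring
  have h2 := hC (Real.log y)
  rw [h1] at h2
  calc y ^ κ.re * ‖G (Real.log y)‖ ≤ y ^ κ.re * (C * min 1 (y ^ (-10 : ℝ))) :=
        mul_le_mul_of_nonneg_left h2 (Real.rpow_nonneg hy.le _)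
    _ = _ := by ring

lemma maj_int {r : ℝ} (h1 : -1 < r) (h2 : r < 9) :
    IntegrableOn (fun y : ℝ => y ^ r * min 1 (y ^ (-10 : ℝ))) (Ioi 0) := by
  have h3 : Ioi (0 : ℝ) = Ioc 0 1 ∪ Ioi 1 := (Ioc_union_Ioi_eq_Ioi zero_le_one).symm
  have hm : Measurable (fun y : ℝ => y ^ r * min 1 (y ^ (-10 : ℝ))) := by fun_prop
  rw [h3]
  refine IntegrableOn.union ?_ ?_
  · have h4 : IntegrableOn (fun y : ℝ => y ^ r) (Ioc 0 1) := by
      have h5 := intervalIntegral.intervalIntegrable_rpow' (a := 0) (b := 1) h1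
      rwa [intervalIntegrable_iff_integrableOn_Ioc_of_le zero_le_one] at h5
    refine Integrable.mono h4 hm.aestronglyMeasurable ?_
    filter_upwards [ae_restrict_mem measurableSet_Ioc] with y hy
    have hy0 : 0 ≤ y := hy.1.le
    rw [Real.norm_of_nonneg (by positivity), Real.norm_of_nonneg (by positivity)]
    calc y ^ r * min 1 (y ^ (-10 : ℝ)) ≤ y ^ r * 1 :=
          mul_le_mul_of_nonneg_left (min_le_left _ _) (by positivity)
      _ = y ^ r := mul_one _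
  · have h4 : IntegrableOn (fun y : ℝ => y ^ (r - 10)) (Ioi 1) :=
      integrableOn_Ioi_rpow_of_lt (by linarith) one_pos
    refine Integrable.mono h4 hm.aestronglyMeasurable ?_
    filter_upwards [ae_restrict_mem measurableSet_Ioi] with y hy
    have hy0 : 0 < y := lt_trans one_pos hy
    rw [Real.norm_of_nonneg (by positivity), Real.norm_of_nonneg (by positivity)]
    calc y ^ r * min 1 (y ^ (-10 : ℝ)) ≤ y ^ r * y ^ (-10 : ℝ) :=
          mul_le_mul_of_nonneg_left (min_le_right _ _) (by positivity)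
      _ = y ^ (r - 10) := by rw [← Real.rpow_add hy0]; ring_nf

lemma FG_meas {κ : ℂ} {G : ℝ → ℂ} (hG : Measurable G) : Measurable (FG κ G) := by
  unfold FG
  refine Measurable.ite (measurableSet_Ioi (a := (0 : ℝ))) ?_ measurable_const
  have h1 : Measurable fun y : ℝ => (y : ℂ) ^ κ := by fun_prop
  exact h1.mul (hG.comp Real.measurable_log)

lemma FG_int {κ : ℂ} {G : ℝ → ℂ} {C : ℝ} (hG : Measurable G) (h1 : -1 < κ.re) (h2 : κ.re < 9)
    (hC : ∀ L, ‖G L‖ ≤ C * min 1 (Real.exp (-(10 * L)))) : Integrable (FG κ G) := by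
  have h3 : IntegrableOn (FG κ G) (Ioi 0) := by
    refine Integrable.mono' ((maj_int h1 h2).const_mul C) (FG_meas hG).aestronglyMeasurable ?_
    filter_upwards [ae_restrict_mem measurableSet_Ioi] with y hy
    exact FG_le hC hy
  have h4 : FG κ G = (Ioi 0).indicator (FG κ G) := by
    funext y
    by_cases hy : 0 < y
    · rw [indicator_of_mem (mem_Ioi.2 hy)]
    · rw [indicator_of_notMem (by simpa using hy), FG_nonpos (not_lt.1 hy)]
  rw [h4, integrable_indicator_iff measurableSet_Ioi]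
  exact h3

open FourierTransform in
lemma FG_fourier {κ : ℂ} {G G' G'' : ℝ → ℂ} {C : ℝ} (h1 : 2 < κ.re) (h2 : κ.re < 9)
    (hG : ∀ L, HasDerivAt G (G' L) L) (hG' : ∀ L, HasDerivAt G' (G'' L) L) (hGm : Measurable G'')
    (hC : ∀ L, ‖G L‖ ≤ C * min 1 (Real.exp (-(10 * L))))
    (hC' : ∀ L, ‖G' L‖ ≤ C * min 1 (Real.exp (-(10 * L))))
    (hC'' : ∀ L, ‖G'' L‖ ≤ C * min 1 (Real.exp (-(10 * L)))) :
    ∃ B : ℝ, 0 ≤ B ∧ ∀ ξ : ℝ, ‖𝓕 (FG κ G) ξ‖ * ξ ^ 2 ≤ B := by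
  have hC0 : 0 ≤ C := by
    have h3 := (norm_nonneg _).trans (hC 0)
    simpa using h3
  have hb : ∀ {g : ℝ → ℂ}, (∀ L, ‖g L‖ ≤ C * min 1 (Real.exp (-(10 * L)))) → ∀ L, ‖g L‖ ≤ C := by
    intro g hg L
    calc ‖g L‖ ≤ C * min 1 (Real.exp (-(10 * L))) := hg L
      _ ≤ C * 1 := mul_le_mul_of_nonneg_left (min_le_left _ _) hC0
      _ = C := mul_one C
  have hGc : Continuous G := continuous_iff_continuousAt.2 fun L => (hG L).continuousAt
  have hGc' : Continuous G' := continuous_iff_continuousAt.2 fun L => (hG' L).continuousAt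
  set G1 : ℝ → ℂ := fun L => κ * G L + G' L with hG1
  set G2 : ℝ → ℂ := fun L => (κ - 1) * G1 L + (κ * G' L + G'' L) with hG2
  have hd1 : ∀ y, HasDerivAt (FG κ G) (FG (κ - 1) G1 y) y := FG_deriv (by linarith) hG (hb hC)
  have hG1d : ∀ L, HasDerivAt G1 (κ * G' L + G'' L) L := fun L =>
    ((hG L).const_mul κ).add (hG' L)
  have hG1b : ∀ L, ‖G1 L‖ ≤ (‖κ‖ * C + C) * min 1 (Real.exp (-(10 * L))) := by
    intro L
    calc ‖G1 L‖ ≤ ‖κ‖ * ‖G L‖ + ‖G' L‖ := by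
          refine (norm_add_le _ _).trans ?_
          rw [norm_mul]
      _ ≤ ‖κ‖ * (C * min 1 (Real.exp (-(10 * L)))) + C * min 1 (Real.exp (-(10 * L))) :=
          add_le_add (mul_le_mul_of_nonneg_left (hC L) (norm_nonneg _)) (hC' L)
      _ = _ := by ring
  have hG1b' : ∀ L, ‖κ * G' L + G'' L‖ ≤ (‖κ‖ * C + C) * min 1 (Real.exp (-(10 * L))) := by
    intro L
    calc ‖κ * G' L + G'' L‖ ≤ ‖κ‖ * ‖G' L‖ + ‖G'' L‖ := by
          refine (norm_add_le _ _).trans ?_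
          rw [norm_mul]
      _ ≤ ‖κ‖ * (C * min 1 (Real.exp (-(10 * L)))) + C * min 1 (Real.exp (-(10 * L))) :=
          add_le_add (mul_le_mul_of_nonneg_left (hC' L) (norm_nonneg _)) (hC'' L)
      _ = _ := by ring
  have hre : (κ - 1).re = κ.re - 1 := by simp
  have hre2 : (κ - 1 - 1).re = κ.re - 2 := by
    simp
    ring
  have hd2 : ∀ y, HasDerivAt (FG (κ - 1) G1) (FG (κ - 1 - 1) G2 y) y :=
    FG_deriv (C := ‖κ‖ * C + C) (by rw [hre]; linarith) hG1d (fun L => by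
      calc ‖G1 L‖ ≤ (‖κ‖ * C + C) * min 1 (Real.exp (-(10 * L))) := hG1b L
        _ ≤ (‖κ‖ * C + C) * 1 := mul_le_mul_of_nonneg_left (min_le_left _ _) (by positivity)
        _ = _ := mul_one _)
  have hG2b : ∀ L, ‖G2 L‖ ≤ (‖κ - 1‖ * (‖κ‖ * C + C) + (‖κ‖ * C + C)) *
      min 1 (Real.exp (-(10 * L))) := by
    intro L
    calc ‖G2 L‖ ≤ ‖κ - 1‖ * ‖G1 L‖ + ‖κ * G' L + G'' L‖ := by
          refine (norm_add_le _ _).trans ?_
          rw [norm_mul]
      _ ≤ ‖κ - 1‖ * ((‖κ‖ * C + C) * min 1 (Real.exp (-(10 * L)))) +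
            (‖κ‖ * C + C) * min 1 (Real.exp (-(10 * L))) :=
          add_le_add (mul_le_mul_of_nonneg_left (hG1b L) (norm_nonneg _)) (hG1b' L)
      _ = _ := by ring
  have hi0 : Integrable (FG κ G) := FG_int hGc.measurable (by linarith) h2 hC
  have hi1 : Integrable (FG (κ - 1) G1) := FG_int ((hGc.const_smul κ).add hGc').measurable
    (by rw [hre]; linarith) (by rw [hre]; linarith) hG1b
  have hG2m : Measurable G2 := by
    have h3 : Measurable G1 := ((hGc.const_smul κ).add hGc').measurable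
    exact (h3.const_mul _).add ((hGc'.measurable.const_mul _).add hGm)
  have hi2 : Integrable (FG (κ - 1 - 1) G2) := FG_int hG2m
    (by rw [hre2]; linarith) (by rw [hre2]; linarith) hG2b
  have hdd1 : deriv (FG κ G) = FG (κ - 1) G1 := funext fun y => (hd1 y).deriv
  have hdd2 : deriv (FG (κ - 1) G1) = FG (κ - 1 - 1) G2 := funext fun y => (hd2 y).deriv
  have hF1 := Real.fourier_deriv hi0 (fun y => (hd1 y).differentiableAt) (by rw [hdd1]; exact hi1)
  have hF2 := Real.fourier_deriv hi1 (fun y => (hd2 y).differentiableAt) (by rw [hdd2]; exact hi2)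
  rw [hdd1] at hF1
  rw [hdd2, hF1] at hF2
  refine ⟨∫ y, ‖FG (κ - 1 - 1) G2 y‖, integral_nonneg fun _ => norm_nonneg _, fun ξ => ?_⟩
  have h3 : ‖𝓕 (FG (κ - 1 - 1) G2) ξ‖ ≤ ∫ y, ‖FG (κ - 1 - 1) G2 y‖ := by
    rw [Real.fourier_eq]
    refine (norm_integral_le_integral_norm _).trans (le_of_eq ?_)
    refine integral_congr_ae (Eventually.of_forall fun y => ?_)
    simp only [Circle.norm_smul]
  rw [hF2] at h3
  simp only [norm_smul, norm_mul, Complex.norm_I, Complex.norm_real, Complex.norm_ofNat,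
    Real.norm_eq_abs, abs_of_pos Real.pi_pos, mul_one] at h3
  have h4 : ‖𝓕 (FG κ G) ξ‖ * ξ ^ 2 ≤ 2 * Real.pi * |ξ| * (2 * Real.pi * |ξ| * ‖𝓕 (FG κ G) ξ‖) := by
    have h5 : 2 * Real.pi * |ξ| * (2 * Real.pi * |ξ| * ‖𝓕 (FG κ G) ξ‖) =
        (2 * Real.pi) ^ 2 * (‖𝓕 (FG κ G) ξ‖ * ξ ^ 2) := by
      rw [← sq_abs ξ]
      ring
    rw [h5]
    have h6 : 0 ≤ ‖𝓕 (FG κ G) ξ‖ * ξ ^ 2 := by positivity
    have h7 : 1 ≤ (2 * Real.pi) ^ 2 := by
      have := Real.pi_gt_three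
      nlinarith
    nlinarith
  exact h4.trans h3

open FourierTransform in
lemma fourier_scale (h : ℝ → ℂ) {a : ℝ} (ha : 0 < a) (ξ : ℝ) :
    𝓕 (fun y => (a : ℂ) * h (a * y)) ξ = 𝓕 h (ξ / a) := by
  rw [Real.fourier_eq', Real.fourier_eq']
  have h1 := Measure.integral_comp_mul_left (fun y : ℝ =>
    cexp (((-2 * Real.pi * inner ℝ y (ξ / a) : ℝ) : ℂ) * I) • h y) a
  simp only [abs_inv, abs_of_pos ha] at h1
  have h2 : ∫ y : ℝ, cexp (((-2 * Real.pi * inner ℝ y ξ : ℝ) : ℂ) * I) • ((a : ℂ) * h (a * y)) =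
      a • ∫ y : ℝ, cexp (((-2 * Real.pi * inner ℝ (a * y) (ξ / a) : ℝ) : ℂ) * I) • h (a * y) := by
    rw [← integral_smul]
    refine integral_congr_ae (Eventually.of_forall fun y => ?_)
    have h3 : inner ℝ (a * y) (ξ / a) = inner ℝ y ξ := by
      simp only [RCLike.inner_apply, conj_trivial]
      field_simp
    simp only [h3, smul_eq_mul, Complex.real_smul]
    ring
  rw [h2, h1, smul_smul, mul_inv_cancel₀ ha.ne', one_smul]

open FourierTransform in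
lemma FG_poisson {κ : ℂ} {G G' G'' : ℝ → ℂ} {C : ℝ} (h1 : 2 < κ.re) (h2 : κ.re < 8)
    (hG : ∀ L, HasDerivAt G (G' L) L) (hG' : ∀ L, HasDerivAt G' (G'' L) L) (hGm : Measurable G'')
    (hC : ∀ L, ‖G L‖ ≤ C * min 1 (Real.exp (-(10 * L))))
    (hC' : ∀ L, ‖G' L‖ ≤ C * min 1 (Real.exp (-(10 * L))))
    (hC'' : ∀ L, ‖G'' L‖ ≤ C * min 1 (Real.exp (-(10 * L)))) {a : ℝ} (ha : 0 < a) :
    Summable (fun l : ℤ => 𝓕 (FG κ G) (l / a)) ∧
    Summable (fun n : ℕ => FG κ G (a * (n + 1))) ∧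
    ∑' l : ℤ, 𝓕 (FG κ G) (l / a) = a * ∑' n : ℕ, FG κ G (a * (n + 1)) := by
  have hC0 : 0 ≤ C := by
    have h3 := (norm_nonneg _).trans (hC 0)
    simpa using h3
  have hb : ∀ L, ‖G L‖ ≤ C := by
    intro L
    calc ‖G L‖ ≤ C * min 1 (Real.exp (-(10 * L))) := hC L
      _ ≤ C * 1 := mul_le_mul_of_nonneg_left (min_le_left _ _) hC0
      _ = C := mul_one C
  have hd1 : ∀ y, HasDerivAt (FG κ G) (FG (κ - 1) (fun L => κ * G L + G' L) y) y :=
    FG_deriv (by linarith) hG hb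
  have hcont : Continuous (FG κ G) := continuous_iff_continuousAt.2 fun y => (hd1 y).continuousAt
  obtain ⟨B, hB0, hB⟩ := FG_fourier h1 (by linarith) hG hG' hGm hC hC' hC''
  have hsum : Summable (fun l : ℤ => 𝓕 (FG κ G) (l / a)) := by
    have h3 : Summable (fun l : ℤ => B * a ^ 2 * (1 / (l : ℝ) ^ 2)) :=
      (Real.summable_one_div_int_pow.2 one_lt_two).mul_left _
    refine Summable.of_norm_bounded_eventually h3 ?_
    have h4 : ∀ l : ℤ, l ≠ 0 → ‖𝓕 (FG κ G) (l / a)‖ ≤ B * a ^ 2 * (1 / (l : ℝ) ^ 2) := by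
      intro l hl
      have h5 := hB (l / a)
      have hl' : (0 : ℝ) < (l : ℝ) ^ 2 := by positivity
      rw [div_pow, ← mul_div_assoc, div_le_iff₀ (by positivity)] at h5
      rw [mul_one_div, le_div_iff₀ hl']
      exact h5
    have h5 : ({0} : Set ℤ).Finite := Set.finite_singleton 0
    refine Filter.mem_of_superset (h5.compl_mem_cofinite) fun l hl => ?_
    exact h4 l (by simpa using hl)
  have hf : (fun y : ℝ => (a : ℂ) * FG κ G (a * y)) =O[cocompact ℝ] fun x : ℝ => |x| ^ (-(10 - κ.re)) := by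
    refine Asymptotics.IsBigO.of_bound (a * C * a ^ (κ.re - 10)) (Eventually.of_forall fun y => ?_)
    rw [Real.norm_of_nonneg (Real.rpow_nonneg (abs_nonneg y) _)]
    rcases le_or_gt y 0 with hy | hy
    · rw [FG_nonpos (mul_nonpos_of_nonneg_of_nonpos ha.le hy), mul_zero, norm_zero]
      positivity
    · have hay : 0 < a * y := mul_pos ha hy
      rw [norm_mul, Complex.norm_real, Real.norm_of_nonneg ha.le, abs_of_pos hy]
      have h3 : ‖FG κ G (a * y)‖ ≤ C * (a * y) ^ (κ.re - 10) := by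
        refine (FG_le hC hay).trans ?_
        refine mul_le_mul_of_nonneg_left ?_ hC0
        calc (a * y) ^ κ.re * min 1 ((a * y) ^ (-10 : ℝ)) ≤ (a * y) ^ κ.re * (a * y) ^ (-10 : ℝ) :=
              mul_le_mul_of_nonneg_left (min_le_right _ _) (by positivity)
          _ = (a * y) ^ (κ.re - 10) := by rw [← Real.rpow_add hay]; ring_nf
      rw [Real.mul_rpow ha.le hy.le] at h3
      calc a * ‖FG κ G (a * y)‖ ≤ a * (C * (a ^ (κ.re - 10) * y ^ (κ.re - 10))) :=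
            mul_le_mul_of_nonneg_left h3 ha.le
        _ = a * C * a ^ (κ.re - 10) * y ^ (-(10 - κ.re)) := by
            rw [neg_sub]
            ring
  have hsumN : Summable (fun n : ℕ => FG κ G (a * (n + 1))) := by
    have h3 : Summable (fun n : ℕ => C * a ^ (κ.re - 10) * ((n : ℝ) + 1) ^ (κ.re - 10)) := by
      refine Summable.mul_left _ ?_
      have h4 := (summable_nat_add_iff 1).2 (Real.summable_nat_rpow.2 (show κ.re - 10 < -1 by linarith))
      simpa using h4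
    refine Summable.of_norm_bounded h3 fun n => ?_
    have hn : (0 : ℝ) < (n : ℝ) + 1 := by positivity
    have hay : 0 < a * ((n : ℝ) + 1) := mul_pos ha hn
    refine (FG_le hC hay).trans ?_
    rw [mul_assoc]
    refine mul_le_mul_of_nonneg_left ?_ hC0
    calc (a * ((n : ℝ) + 1)) ^ κ.re * min 1 ((a * ((n : ℝ) + 1)) ^ (-10 : ℝ)) ≤
          (a * ((n : ℝ) + 1)) ^ κ.re * (a * ((n : ℝ) + 1)) ^ (-10 : ℝ) :=
          mul_le_mul_of_nonneg_left (min_le_right _ _) (by positivity)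
      _ = (a * ((n : ℝ) + 1)) ^ (κ.re - 10) := by rw [← Real.rpow_add hay]; ring_nf
      _ = a ^ (κ.re - 10) * ((n : ℝ) + 1) ^ (κ.re - 10) := Real.mul_rpow ha.le hn.le
  refine ⟨hsum, hsumN, ?_⟩
  have hP := Real.tsum_eq_tsum_fourier_of_rpow_decay_of_summable
    (f := fun y : ℝ => (a : ℂ) * FG κ G (a * y))
    (continuous_const.mul (hcont.comp (continuous_const.mul continuous_id)))
    (b := 10 - κ.re) (by linarith) hf
    (by
      have h3 : (fun n : ℤ => 𝓕 (fun y : ℝ => (a : ℂ) * FG κ G (a * y)) (n : ℝ)) =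
          fun l : ℤ => 𝓕 (FG κ G) (l / a) := funext fun l => fourier_scale _ ha _
      rw [h3]
      exact hsum) 0
  have h3 : ∑' n : ℤ, 𝓕 (fun y : ℝ => (a : ℂ) * FG κ G (a * y)) (n : ℝ) *
      fourier n ((0 : ℝ) : UnitAddCircle) = ∑' l : ℤ, 𝓕 (FG κ G) (l / a) := by
    refine tsum_congr fun l => ?_
    rw [fourier_scale _ ha]
    simp
  rw [h3] at hP
  rw [← hP, ← tsum_mul_left]
  have hinj : Function.Injective (fun n : ℕ => (n : ℤ) + 1) := by
    intro m n hmn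
    simpa using hmn
  have h4 := hinj.tsum_eq (f := fun n : ℤ => (a : ℂ) * FG κ G (a * ((0 : ℝ) + n))) (by
    intro n hn
    rw [Function.mem_support] at hn
    have h5 : 0 < n := by
      by_contra h6
      apply hn
      have h7 : (n : ℝ) ≤ 0 := by exact_mod_cast not_lt.1 h6
      rw [FG_nonpos (mul_nonpos_of_nonneg_of_nonpos ha.le (by linarith)), mul_zero]
    exact ⟨(n - 1).toNat, by
      show (((n - 1).toNat : ℕ) : ℤ) + 1 = n
      omega⟩)
  rw [← h4]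
  refine tsum_congr fun n => ?_
  push_cast
  rw [zero_add]

lemma fract_step {s : ℂ} (hs : 0 < s.re) (hs1 : s ≠ 1) {N : ℕ} (hN : 1 ≤ N) :
    s * ∫ x in (N : ℝ)..((N : ℝ) + 1), ((Int.fract x : ℝ) : ℂ) * (x : ℂ) ^ (-(s + 1)) =
      (((N : ℂ) + 1) ^ (1 - s) - (N : ℂ) ^ (1 - s)) / (1 - s) - ((N : ℂ) + 1) ^ (-s) := by
  have hN0 : (0 : ℝ) < N := by exact_mod_cast hN
  have hNc : (N : ℂ) ≠ 0 := by exact_mod_cast hN0.ne'
  have hs0 : s ≠ 0 := by
    rintro rfl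
    simp at hs
  have h1s : (1 : ℂ) - s ≠ 0 := sub_ne_zero.2 (Ne.symm hs1)
  have h0 : (0 : ℝ) ∉ uIcc (N : ℝ) ((N : ℝ) + 1) := by
    rw [uIcc_of_le (by linarith)]
    intro h
    linarith [h.1]
  have hle : (N : ℝ) ≤ (N : ℝ) + 1 := by linarith
  have h1 : ∫ x in (N : ℝ)..((N : ℝ) + 1), ((Int.fract x : ℝ) : ℂ) * (x : ℂ) ^ (-(s + 1)) =
      ∫ x in (N : ℝ)..((N : ℝ) + 1), ((x : ℂ) ^ (-s) - (N : ℂ) * (x : ℂ) ^ (-(s + 1))) := by
    rw [intervalIntegral.integral_of_le hle, intervalIntegral.integral_of_le hle,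
      integral_Ioc_eq_integral_Ioo, integral_Ioc_eq_integral_Ioo]
    refine setIntegral_congr_fun measurableSet_Ioo fun x hx => ?_
    have hx0 : 0 < x := lt_trans hN0 hx.1
    have hxc : (x : ℂ) ≠ 0 := by exact_mod_cast hx0.ne'
    have h2 : Int.fract x = x - N := by
      rw [Int.fract_eq_iff]
      refine ⟨by linarith [hx.1], by linarith [hx.2], N, by push_cast; ring⟩
    have h3 : (x : ℂ) ^ (-s) = (x : ℂ) ^ (-(s + 1)) * x := by
      have h6 := Complex.cpow_add (-(s + 1)) 1 hxc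
      rw [Complex.cpow_one] at h6
      rw [← h6]
      congr 1
      ring
    show ((Int.fract x : ℝ) : ℂ) * (x : ℂ) ^ (-(s + 1)) = (x : ℂ) ^ (-s) - (N : ℂ) * (x : ℂ) ^ (-(s + 1))
    rw [h2, h3]
    push_cast
    ring
  have hi1 : IntervalIntegrable (fun x : ℝ => (x : ℂ) ^ (-s)) volume (N : ℝ) ((N : ℝ) + 1) :=
    intervalIntegral.intervalIntegrable_cpow (Or.inr h0)
  have hi2 : IntervalIntegrable (fun x : ℝ => (x : ℂ) ^ (-(s + 1))) volume (N : ℝ) ((N : ℝ) + 1) :=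
    intervalIntegral.intervalIntegrable_cpow (Or.inr h0)
  have e1 : (-s : ℂ) ≠ -1 := fun h => hs1 (neg_injective h)
  have e2 : (-(s + 1) : ℂ) ≠ -1 := by
    intro h
    apply hs0
    have := neg_injective h
    simpa using this
  rw [h1, intervalIntegral.integral_sub hi1 (hi2.const_mul _), intervalIntegral.integral_const_mul,
    integral_cpow (Or.inr ⟨e1, h0⟩), integral_cpow (Or.inr ⟨e2, h0⟩)]
  have h5 : (-(s + 1) + 1 : ℂ) = -s := by ring
  have h6 : (-s + 1 : ℂ) = 1 - s := by ring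
  rw [h5, h6]
  push_cast
  have h7 : (N : ℂ) ^ (1 - s) = (N : ℂ) ^ (-s) * N := by
    have h8 := Complex.cpow_add (-s) 1 hNc
    rw [Complex.cpow_one] at h8
    rw [← h8]
    congr 1
    ring
  have hN1c : (N : ℂ) + 1 ≠ 0 := by
    have : ((N : ℝ) + 1 : ℝ) ≠ 0 := by positivity
    exact_mod_cast this
  have h9 : ((N : ℂ) + 1) ^ (1 - s) = ((N : ℂ) + 1) ^ (-s) * (N + 1) := by
    have h8 := Complex.cpow_add (-s) 1 hN1c
    rw [Complex.cpow_one] at h8
    rw [← h8]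
    congr 1
    ring
  rw [h7, h9]
  field_simp
  ring

lemma zeta_id {s : ℂ} (hs : 0 < s.re) (hs1 : s ≠ 1) (N : ℕ) (hN : 1 ≤ N) :
    ∑ j ∈ Finset.range N, ((j : ℂ) + 1) ^ (-s) - (N : ℂ) ^ (1 - s) / (1 - s) =
      s / (s - 1) - s * ∫ x in (1 : ℝ)..(N : ℝ), ((Int.fract x : ℝ) : ℂ) * (x : ℂ) ^ (-(s + 1)) := by
  have h1s : (1 : ℂ) - s ≠ 0 := sub_ne_zero.2 (Ne.symm hs1)
  have hs1' : s - 1 ≠ 0 := sub_ne_zero.2 hs1
  have hint : ∀ a b : ℝ, 1 ≤ a → 1 ≤ b → IntervalIntegrable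
      (fun x : ℝ => ((Int.fract x : ℝ) : ℂ) * (x : ℂ) ^ (-(s + 1))) volume a b := by
    intro a b ha hb
    have h0 : (0 : ℝ) ∉ uIcc a b := by
      intro h
      have h2 : (1 : ℝ) ≤ a ⊓ b := le_inf ha hb
      have h3 : a ⊓ b ≤ 0 := h.1
      linarith
    have h1 : IntervalIntegrable (fun x : ℝ => (x : ℂ) ^ (-(s + 1))) volume a b :=
      intervalIntegral.intervalIntegrable_cpow (Or.inr h0)
    rw [intervalIntegrable_iff] at h1 ⊢
    refine h1.bdd_mul (c := 1) ?_ ?_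
    · exact (Complex.measurable_ofReal.comp measurable_fract).aestronglyMeasurable
    · refine Eventually.of_forall fun x => ?_
      rw [Complex.norm_real, Real.norm_of_nonneg (Int.fract_nonneg x)]
      exact (Int.fract_lt_one x).le
  induction N, hN using Nat.le_induction with
  | base =>
    simp only [Nat.cast_one, intervalIntegral.integral_same, mul_zero, sub_zero,
      Finset.sum_range_one, Nat.cast_zero, zero_add, Complex.one_cpow]
    field_simp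
    ring
  | succ N hN ih =>
    have hN1 : (1 : ℝ) ≤ N := by exact_mod_cast hN
    have h2 := intervalIntegral.integral_add_adjacent_intervals (hint 1 N le_rfl hN1)
      (hint N (N + 1) hN1 (by linarith))
    have h3 := fract_step hs hs1 hN
    rw [Finset.sum_range_succ]
    push_cast
    rw [← h2, mul_add, h3]
    linear_combination ih

lemma zeta_err {s : ℂ} (hs : 0 < s.re) (hs1 : s ≠ 1) (N : ℕ) (hN : 1 ≤ N) :
    ‖∑ j ∈ Finset.range N, ((j : ℂ) + 1) ^ (-s) - (N : ℂ) ^ (1 - s) / (1 - s) - riemannZeta s‖ ≤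
      ‖s‖ / s.re * (N : ℝ) ^ (-s.re) := by
  have hs1' : s - 1 ≠ 0 := sub_ne_zero.2 hs1
  have hN0 : (0 : ℝ) < N := by exact_mod_cast hN
  have hN1 : (1 : ℝ) ≤ N := by exact_mod_cast hN
  have h1 := Pool.Agent.P07318s.zE_formula hs
  rw [P4f18dfV.zE_of_ne hs1] at h1
  have h2 : riemannZeta s = s / (s - 1) - s * P4f18dfV.hpA s := by
    have h3 : riemannZeta s = (s - 1)⁻¹ * ((s - 1) * riemannZeta s) := by
      rw [← mul_assoc, inv_mul_cancel₀ hs1', one_mul]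
    rw [h3, h1]
    field_simp
  have hint : IntegrableOn (fun x : ℝ => ((Int.fract x : ℝ) : ℂ) * (x : ℂ) ^ (-(s + 1))) (Ioi 1) := by
    have h3 : IntegrableOn (fun x : ℝ => (x : ℂ) ^ (-(s + 1))) (Ioi 1) :=
      integrableOn_Ioi_cpow_of_lt (by simp; linarith) one_pos
    refine h3.bdd_mul (c := 1) ?_ ?_
    · exact (Complex.measurable_ofReal.comp measurable_fract).aestronglyMeasurable
    · refine Eventually.of_forall fun x => ?_
      rw [Complex.norm_real, Real.norm_of_nonneg (Int.fract_nonneg x)]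
      exact (Int.fract_lt_one x).le
  have h3 : P4f18dfV.hpA s = (∫ x in (1 : ℝ)..(N : ℝ), ((Int.fract x : ℝ) : ℂ) * (x : ℂ) ^ (-(s + 1))) +
      ∫ x in Ioi (N : ℝ), ((Int.fract x : ℝ) : ℂ) * (x : ℂ) ^ (-(s + 1)) := by
    rw [P4f18dfV.hpA_eq, intervalIntegral.integral_of_le hN1, ← setIntegral_union
      (Ioc_disjoint_Ioi le_rfl) measurableSet_Ioi (hint.mono_set Ioc_subset_Ioi_self)
      (hint.mono_set (Ioi_subset_Ioi hN1)), Ioc_union_Ioi_eq_Ioi hN1]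
  rw [zeta_id hs hs1 N hN, h2, h3]
  have h4 : s / (s - 1) - s * (∫ x in (1 : ℝ)..(N : ℝ), ((Int.fract x : ℝ) : ℂ) * (x : ℂ) ^ (-(s + 1))) -
      (s / (s - 1) - s * ((∫ x in (1 : ℝ)..(N : ℝ), ((Int.fract x : ℝ) : ℂ) * (x : ℂ) ^ (-(s + 1))) +
        ∫ x in Ioi (N : ℝ), ((Int.fract x : ℝ) : ℂ) * (x : ℂ) ^ (-(s + 1)))) =
      s * ∫ x in Ioi (N : ℝ), ((Int.fract x : ℝ) : ℂ) * (x : ℂ) ^ (-(s + 1)) := by ring
  rw [h4, norm_mul, div_mul_eq_mul_div, mul_div_assoc]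
  refine mul_le_mul_of_nonneg_left ?_ (norm_nonneg s)
  have h5 : IntegrableOn (fun x : ℝ => x ^ (-s.re - 1)) (Ioi (N : ℝ)) :=
    integrableOn_Ioi_rpow_of_lt (by linarith) hN0
  refine (norm_integral_le_of_norm_le h5 ?_).trans ?_
  · filter_upwards [ae_restrict_mem measurableSet_Ioi] with x hx
    have hx0 : 0 < x := lt_trans hN0 hx
    rw [norm_mul, Complex.norm_real, Real.norm_of_nonneg (Int.fract_nonneg x),
      Complex.norm_cpow_eq_rpow_re_of_pos hx0]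
    have h6 : (-(s + 1)).re = -s.re - 1 := by
      simp
      ring
    rw [h6]
    calc Int.fract x * x ^ (-s.re - 1) ≤ 1 * x ^ (-s.re - 1) :=
          mul_le_mul_of_nonneg_right (Int.fract_lt_one x).le (Real.rpow_nonneg hx0.le _)
      _ = _ := one_mul _
  · rw [integral_Ioi_rpow_of_lt (by linarith) hN0]
    apply le_of_eq
    have h6 : -s.re - 1 + 1 = -s.re := by ring
    rw [h6, neg_div_neg_eq]

/-- the exponent -/
noncomputable def Sv (κ : ℂ) (v : ℝ × ℝ) : ℂ := -κ + (7 / 4 + v.1 * I) + (7 / 4 + v.2 * I)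

lemma Sv_re (κ : ℂ) (v : ℝ × ℝ) : (Sv κ v).re = 7 / 2 - κ.re := by
  unfold Sv
  have h : (-κ + (7 / 4 + v.1 * I) + (7 / 4 + v.2 * I) : ℂ) =
      -κ + ((7 / 2 : ℝ) : ℂ) + ((v.1 + v.2 : ℝ) : ℂ) * I := by
    push_cast
    ring
  rw [h]
  simp
  ring

lemma Sv_cont (κ : ℂ) : Continuous (Sv κ) := by
  unfold Sv
  fun_prop

lemma gauss_int : Integrable (fun v : ℝ => (1 + |v|) * Real.exp (-(v ^ 2 / 2))) := by
  have h1 : Integrable (fun v : ℝ => Real.exp (-(1 / 2) * v ^ 2)) :=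
    integrable_exp_neg_mul_sq (by norm_num)
  have h2 : Integrable (fun v : ℝ => v * Real.exp (-(1 / 2) * v ^ 2)) :=
    integrable_mul_exp_neg_mul_sq (by norm_num)
  have h3 := h1.add h2.abs
  refine h3.congr (Eventually.of_forall fun v => ?_)
  simp only [Pi.add_apply]
  rw [abs_mul, abs_of_pos (Real.exp_pos _)]
  have e : -(1 / 2) * v ^ 2 = -(v ^ 2 / 2) := by ring
  rw [e]
  ring

lemma Sv_norm (κ : ℂ) (v : ℝ × ℝ) : ‖Sv κ v‖ ≤ (‖κ‖ + 7 / 2) * ((1 + |v.1|) * (1 + |v.2|)) := by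
  have h1 : ∀ x : ℝ, ‖(7 / 4 + x * I : ℂ)‖ ≤ 7 / 4 + |x| := by
    intro x
    refine (norm_add_le _ _).trans ?_
    rw [norm_mul, Complex.norm_I, mul_one, Complex.norm_real, Real.norm_eq_abs]
    norm_num
  have h2 : ‖Sv κ v‖ ≤ ‖κ‖ + (7 / 4 + |v.1|) + (7 / 4 + |v.2|) := by
    unfold Sv
    refine (norm_add_le _ _).trans (add_le_add ((norm_add_le _ _).trans (add_le_add ?_ (h1 _))) (h1 _))
    rw [norm_neg]
  have h3 := abs_nonneg v.1
  have h4 := abs_nonneg v.2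
  have h5 := norm_nonneg κ
  refine h2.trans ?_
  nlinarith [mul_nonneg h3 h4, mul_nonneg h5 h3, mul_nonneg h5 h4, mul_nonneg h5 (mul_nonneg h3 h4)]

lemma zeta_crude {s : ℂ} (h0 : 0 < s.re) (h1 : s.re < 1) :
    ‖riemannZeta s‖ ≤ 1 + 1 / (1 - s.re) + ‖s‖ / s.re := by
  have hs1 : s ≠ 1 := by
    rintro rfl
    simp at h1
  have h2 := zeta_err h0 hs1 1 le_rfl
  simp only [Finset.sum_range_one, Nat.cast_zero, zero_add, Complex.one_cpow, Nat.cast_one,
    Real.one_rpow, mul_one] at h2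
  have h3 : riemannZeta s = (1 - 1 / (1 - s)) - (1 - 1 / (1 - s) - riemannZeta s) := by ring
  have h4 : ‖(1 : ℂ) - 1 / (1 - s)‖ ≤ 1 + 1 / (1 - s.re) := by
    refine (norm_sub_le _ _).trans ?_
    rw [norm_one, norm_div, norm_one]
    have h5 : 1 - s.re ≤ ‖1 - s‖ := by
      have := Complex.re_le_norm (1 - s)
      simpa using this
    have h6 : 1 / ‖1 - s‖ ≤ 1 / (1 - s.re) := one_div_le_one_div_of_le (by linarith) h5
    linarith
  rw [h3]
  refine (norm_sub_le _ _).trans ?_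
  linarith

lemma mellin_zeta {g1 g2 : ℝ → ℂ} {C : ℝ} (hg1 : Continuous g1) (hg2 : Continuous g2)
    (hb1 : ∀ v, ‖g1 v‖ ≤ C * Real.exp (-(v ^ 2 / 2))) (hb2 : ∀ v, ‖g2 v‖ ≤ C * Real.exp (-(v ^ 2 / 2)))
    {κ : ℂ} (hκ : 5 / 2 < κ.re) (hκ' : κ.re < 7 / 2) {h : ℝ → ℂ}
    (hh : ∀ η : ℝ, 0 < η → h η = ((2 * Real.pi : ℂ) ^ 2)⁻¹ *
      ∫ v : ℝ × ℝ, g1 v.1 * g2 v.2 * (η : ℂ) ^ (-(Sv κ v)))
    (hint : IntegrableOn h (Ioi 0)) {a : ℝ} (ha : 0 < a)
    (hsum : Summable (fun n : ℕ => h (a * (n + 1)))) :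
    (a : ℂ) * ∑' n : ℕ, h (a * (n + 1)) - ∫ η in Ioi (0 : ℝ), h η =
      ((2 * Real.pi : ℂ) ^ 2)⁻¹ *
        ∫ v : ℝ × ℝ, g1 v.1 * g2 v.2 * ((a : ℂ) ^ (1 - Sv κ v) * riemannZeta (Sv κ v)) := by
  have hC0 : 0 ≤ C := by
    have h1 := (norm_nonneg _).trans (hb1 0)
    simpa using h1
  have hre : ∀ v, (Sv κ v).re = 7 / 2 - κ.re := Sv_re κ
  set σ : ℝ := 7 / 2 - κ.re with hσ
  have hσ0 : 0 < σ := by linarith
  have hσ1 : σ < 1 := by linarith
  have hSne : ∀ v, Sv κ v ≠ 1 := by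
    intro v h1
    have h2 := hre v
    rw [h1] at h2
    simp at h2
    linarith
  have h1S : ∀ v, (1 : ℂ) - Sv κ v ≠ 0 := fun v => sub_ne_zero.2 (Ne.symm (hSne v))
  have hS0 : ∀ v, Sv κ v ≠ 0 := by
    intro v h1
    have h2 := hre v
    rw [h1] at h2
    simp at h2
    linarith
  have hac : (a : ℂ) ≠ 0 := by exact_mod_cast ha.ne'
  -- majorants
  have hQc : Continuous (fun v : ℝ × ℝ => g1 v.1 * g2 v.2) :=
    (hg1.comp continuous_fst).mul (hg2.comp continuous_snd)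
  have hM2 : Integrable (fun v : ℝ × ℝ => (C * ((1 + |v.1|) * Real.exp (-(v.1 ^ 2 / 2)))) *
      (C * ((1 + |v.2|) * Real.exp (-(v.2 ^ 2 / 2))))) :=
    (gauss_int.const_mul C).mul_prod (gauss_int.const_mul C)
  have hQle : ∀ v : ℝ × ℝ, ‖g1 v.1 * g2 v.2‖ * ((1 + |v.1|) * (1 + |v.2|)) ≤
      (C * ((1 + |v.1|) * Real.exp (-(v.1 ^ 2 / 2)))) *
      (C * ((1 + |v.2|) * Real.exp (-(v.2 ^ 2 / 2)))) := by
    intro v
    rw [norm_mul]
    have h1 := mul_le_mul (hb1 v.1) (hb2 v.2) (norm_nonneg _) (by positivity)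
    have h2 : 0 ≤ (1 + |v.1|) * (1 + |v.2|) := by positivity
    calc ‖g1 v.1‖ * ‖g2 v.2‖ * ((1 + |v.1|) * (1 + |v.2|)) ≤
          C * Real.exp (-(v.1 ^ 2 / 2)) * (C * Real.exp (-(v.2 ^ 2 / 2))) *
            ((1 + |v.1|) * (1 + |v.2|)) := mul_le_mul_of_nonneg_right h1 h2
      _ = _ := by ring
  have h1le : ∀ v : ℝ × ℝ, (1 : ℝ) ≤ (1 + |v.1|) * (1 + |v.2|) := by
    intro v
    nlinarith [abs_nonneg v.1, abs_nonneg v.2, mul_nonneg (abs_nonneg v.1) (abs_nonneg v.2)]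
  have hQi : Integrable (fun v : ℝ × ℝ => g1 v.1 * g2 v.2) := by
    refine hM2.mono' hQc.aestronglyMeasurable (Eventually.of_forall fun v => ?_)
    calc ‖g1 v.1 * g2 v.2‖ = ‖g1 v.1 * g2 v.2‖ * 1 := (mul_one _).symm
      _ ≤ ‖g1 v.1 * g2 v.2‖ * ((1 + |v.1|) * (1 + |v.2|)) :=
          mul_le_mul_of_nonneg_left (h1le v) (norm_nonneg _)
      _ ≤ _ := hQle v
  have hQSi : Integrable (fun v : ℝ × ℝ => ‖g1 v.1 * g2 v.2‖ * ‖Sv κ v‖) := by
    refine (hM2.const_mul (‖κ‖ + 7 / 2)).mono' ((hQc.norm.mul (Sv_cont κ).norm).aestronglyMeasurable)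
      (Eventually.of_forall fun v => ?_)
    rw [Real.norm_of_nonneg (by positivity)]
    calc ‖g1 v.1 * g2 v.2‖ * ‖Sv κ v‖ ≤
          ‖g1 v.1 * g2 v.2‖ * ((‖κ‖ + 7 / 2) * ((1 + |v.1|) * (1 + |v.2|))) :=
          mul_le_mul_of_nonneg_left (Sv_norm κ v) (norm_nonneg _)
      _ = (‖κ‖ + 7 / 2) * (‖g1 v.1 * g2 v.2‖ * ((1 + |v.1|) * (1 + |v.2|))) := by ring
      _ ≤ _ := mul_le_mul_of_nonneg_left (hQle v) (by positivity)
  have hpowc : ∀ {b : ℝ}, 0 < b → Continuous fun v : ℝ × ℝ => (b : ℂ) ^ (-(Sv κ v)) := by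
    intro b hb
    have hbc : (b : ℂ) ≠ 0 := by exact_mod_cast hb.ne'
    exact (Sv_cont κ).neg.const_cpow (Or.inl hbc)
  have hpown : ∀ {b : ℝ}, 0 < b → ∀ v : ℝ × ℝ, ‖(b : ℂ) ^ (-(Sv κ v))‖ = b ^ (-σ) := by
    intro b hb v
    rw [Complex.norm_cpow_eq_rpow_re_of_pos hb, Complex.neg_re, hre]
  have hint1 : ∀ {b : ℝ}, 0 < b →
      Integrable (fun v : ℝ × ℝ => g1 v.1 * g2 v.2 * (b : ℂ) ^ (-(Sv κ v))) := by
    intro b hb
    refine hQi.mul_bdd (c := b ^ (-σ)) (hpowc hb).aestronglyMeasurable ?_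
    exact Eventually.of_forall fun v => (hpown hb v).le
  have hapn : ∀ v : ℝ × ℝ, ‖(a : ℂ) ^ (1 - Sv κ v)‖ = a ^ (1 - σ) := by
    intro v
    rw [Complex.norm_cpow_eq_rpow_re_of_pos ha, Complex.sub_re, Complex.one_re, hre]
  have hapc : Continuous fun v : ℝ × ℝ => (a : ℂ) ^ (1 - Sv κ v) :=
    (continuous_const.sub (Sv_cont κ)).const_cpow (Or.inl hac)
  have hzc : Continuous fun v : ℝ × ℝ => riemannZeta (Sv κ v) := by
    refine continuous_iff_continuousAt.2 fun v => ?_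
    exact (differentiableAt_riemannZeta (hSne v)).continuousAt.comp (Sv_cont κ).continuousAt
  have hzi : Integrable (fun v : ℝ × ℝ => g1 v.1 * g2 v.2 *
      ((a : ℂ) ^ (1 - Sv κ v) * riemannZeta (Sv κ v))) := by
    have h1 : Integrable (fun v : ℝ × ℝ => a ^ (1 - σ) * ((1 + 1 / (1 - σ)) * ‖g1 v.1 * g2 v.2‖ +
        (1 / σ) * (‖g1 v.1 * g2 v.2‖ * ‖Sv κ v‖))) :=
      ((hQi.norm.const_mul _).add (hQSi.const_mul _)).const_mul _
    refine h1.mono' ((hQc.mul (hapc.mul hzc)).aestronglyMeasurable) (Eventually.of_forall fun v => ?_)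
    rw [norm_mul, norm_mul ((a : ℂ) ^ (1 - Sv κ v)), hapn]
    have h2 := zeta_crude (s := Sv κ v) (by rw [hre]; exact hσ0) (by rw [hre]; exact hσ1)
    rw [hre] at h2
    have h3 := norm_nonneg (g1 v.1 * g2 v.2)
    calc ‖g1 v.1 * g2 v.2‖ * (a ^ (1 - σ) * ‖riemannZeta (Sv κ v)‖) ≤
          ‖g1 v.1 * g2 v.2‖ * (a ^ (1 - σ) * (1 + 1 / (1 - σ) + ‖Sv κ v‖ / σ)) := by gcongr
      _ = _ := by ring
  -- finite version
  have hfin : ∀ N : ℕ, 1 ≤ N → (a : ℂ) * ∑ n ∈ Finset.range N, h (a * (n + 1)) -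
      ∫ η in (0 : ℝ)..(a * N), h η = ((2 * Real.pi : ℂ) ^ 2)⁻¹ * ∫ v : ℝ × ℝ, g1 v.1 * g2 v.2 *
        ((a : ℂ) ^ (1 - Sv κ v) * (∑ j ∈ Finset.range N, ((j : ℂ) + 1) ^ (-(Sv κ v)) -
          (N : ℂ) ^ (1 - Sv κ v) / (1 - Sv κ v))) := by
    intro N hN
    have hN0 : (0 : ℝ) < N := by exact_mod_cast hN
    have hT : 0 < a * (N : ℝ) := mul_pos ha hN0
    have hsumN : (a : ℂ) * ∑ n ∈ Finset.range N, h (a * (n + 1)) =
        ((2 * Real.pi : ℂ) ^ 2)⁻¹ * ∫ v : ℝ × ℝ, g1 v.1 * g2 v.2 *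
          ((a : ℂ) ^ (1 - Sv κ v) * ∑ j ∈ Finset.range N, ((j : ℂ) + 1) ^ (-(Sv κ v))) := by
      have e1 : ∀ n ∈ Finset.range N, h (a * (n + 1)) = ((2 * Real.pi : ℂ) ^ 2)⁻¹ *
          ∫ v : ℝ × ℝ, g1 v.1 * g2 v.2 * ((a * (n + 1) : ℝ) : ℂ) ^ (-(Sv κ v)) := by
        intro n _
        exact hh _ (mul_pos ha (by positivity))
      have e5 : ∑ n ∈ Finset.range N, ∫ v : ℝ × ℝ, g1 v.1 * g2 v.2 *
          ((a * (n + 1) : ℝ) : ℂ) ^ (-(Sv κ v)) = ∫ v : ℝ × ℝ, ∑ n ∈ Finset.range N,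
          g1 v.1 * g2 v.2 * ((a * (n + 1) : ℝ) : ℂ) ^ (-(Sv κ v)) :=
        (integral_finsetSum (Finset.range N) (fun n _ =>
          hint1 (mul_pos ha (by positivity : (0 : ℝ) < (n : ℝ) + 1)))).symm
      rw [Finset.sum_congr rfl e1, ← Finset.mul_sum, e5, mul_left_comm,
        ← integral_const_mul]
      congr 1
      refine integral_congr_ae (Eventually.of_forall fun v => ?_)
      simp only
      rw [Finset.mul_sum, Finset.mul_sum, Finset.mul_sum]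
      refine Finset.sum_congr rfl fun n _ => ?_
      have e2 : ((a * ((n : ℝ) + 1) : ℝ) : ℂ) ^ (-(Sv κ v)) =
          (a : ℂ) ^ (-(Sv κ v)) * ((n : ℂ) + 1) ^ (-(Sv κ v)) := by
        have e3 := Complex.mul_cpow_ofReal_nonneg ha.le (by positivity : (0 : ℝ) ≤ (n : ℝ) + 1)
          (-(Sv κ v))
        rw [Complex.ofReal_mul, e3]
        push_cast
        rfl
      have e4 : (a : ℂ) ^ (1 - Sv κ v) = a * (a : ℂ) ^ (-(Sv κ v)) := by
        rw [sub_eq_add_neg, Complex.cpow_add _ _ hac, Complex.cpow_one]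
      rw [e2, e4]
      ring
    have hintN : ∫ η in (0 : ℝ)..(a * N), h η = ((2 * Real.pi : ℂ) ^ 2)⁻¹ *
        ∫ v : ℝ × ℝ, g1 v.1 * g2 v.2 *
          ((a : ℂ) ^ (1 - Sv κ v) * ((N : ℂ) ^ (1 - Sv κ v) / (1 - Sv κ v))) := by
      rw [intervalIntegral.integral_of_le hT.le]
      have e1 : ∫ η in Ioc (0 : ℝ) (a * N), h η = ∫ η in Ioc (0 : ℝ) (a * N),
          ((2 * Real.pi : ℂ) ^ 2)⁻¹ * ∫ v : ℝ × ℝ, g1 v.1 * g2 v.2 * (η : ℂ) ^ (-(Sv κ v)) :=
        setIntegral_congr_fun measurableSet_Ioc fun η hη => hh η hη.1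
      rw [e1, integral_const_mul]
      congr 1
      have hrp : IntegrableOn (fun η : ℝ => η ^ (-σ)) (Ioc 0 (a * N)) := by
        have h5 := intervalIntegral.intervalIntegrable_rpow' (a := 0) (b := a * N)
          (show -1 < -σ by linarith)
        rwa [intervalIntegrable_iff_integrableOn_Ioc_of_le hT.le] at h5
      have hprod : Integrable (Function.uncurry fun (η : ℝ) (v : ℝ × ℝ) =>
          g1 v.1 * g2 v.2 * (η : ℂ) ^ (-(Sv κ v)))
          ((volume.restrict (Ioc 0 (a * (N : ℝ)))).prod volume) := by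
        have h6 := Integrable.mul_prod (μ := volume.restrict (Ioc 0 (a * (N : ℝ))))
          (ν := (volume : Measure (ℝ × ℝ))) hrp hQi.norm
        refine h6.mono' ?_ ?_
        · refine Measurable.aestronglyMeasurable ?_
          have h7 : Measurable fun p : ℝ × ℝ × ℝ => g1 p.2.1 * g2 p.2.2 :=
            (hQc.comp continuous_snd).measurable
          have h8 : Measurable fun p : ℝ × ℝ × ℝ => (p.1 : ℂ) ^ (-(Sv κ p.2)) := by
            refine Measurable.pow (Complex.measurable_ofReal.comp measurable_fst) ?_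
            exact (((Sv_cont κ).comp continuous_snd).neg).measurable
          exact h7.mul h8
        · have h9 : ∀ᵐ p : ℝ × ℝ × ℝ ∂((volume.restrict (Ioc 0 (a * (N : ℝ)))).prod volume),
              p.1 ∈ Ioc 0 (a * (N : ℝ)) := by
            have h10 : ∀ᵐ η : ℝ ∂(volume.restrict (Ioc 0 (a * (N : ℝ)))), η ∈ Ioc 0 (a * (N : ℝ)) :=
              ae_restrict_mem measurableSet_Ioc
            exact Measure.quasiMeasurePreserving_fst.ae h10
          filter_upwards [h9] with p hp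
          simp only [Function.uncurry]
          rw [norm_mul, hpown hp.1, mul_comm]
      rw [integral_integral_swap hprod]
      refine integral_congr_ae (Eventually.of_forall fun v => ?_)
      simp only
      rw [integral_const_mul]
      congr 1
      rw [← intervalIntegral.integral_of_le hT.le, integral_cpow (Or.inl (by
        rw [Complex.neg_re, hre]
        linarith))]
      have e2 : (-(Sv κ v) + 1 : ℂ) = 1 - Sv κ v := by ring
      rw [e2, Complex.ofReal_zero, Complex.zero_cpow (h1S v), sub_zero]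
      have e3 := Complex.mul_cpow_ofReal_nonneg ha.le hN0.le (1 - Sv κ v)
      rw [Complex.ofReal_mul, e3, Complex.ofReal_natCast]
      ring
    rw [hsumN, hintN, ← mul_sub, ← integral_sub]
    · congr 1
      refine integral_congr_ae (Eventually.of_forall fun v => ?_)
      simp only
      ring
    · have e5 : (fun v : ℝ × ℝ => g1 v.1 * g2 v.2 *
          ((a : ℂ) ^ (1 - Sv κ v) * ∑ j ∈ Finset.range N, ((j : ℂ) + 1) ^ (-(Sv κ v)))) =
          fun v : ℝ × ℝ => ∑ j ∈ Finset.range N, g1 v.1 * g2 v.2 *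
            ((a : ℂ) ^ (1 - Sv κ v) * ((j : ℂ) + 1) ^ (-(Sv κ v))) := by
        funext v
        rw [Finset.mul_sum, Finset.mul_sum]
      rw [e5]
      refine integrable_finsetSum _ fun j _ => ?_
      have hj : (0 : ℝ) < (j : ℝ) + 1 := by positivity
      refine hQi.mul_bdd (c := a ^ (1 - σ) * ((j : ℝ) + 1) ^ (-σ)) ?_ ?_
      · have h7 := hpowc hj
        push_cast at h7
        exact (hapc.mul h7).aestronglyMeasurable
      · refine Eventually.of_forall fun v => ?_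
        have h7 := hpown hj v
        push_cast at h7
        rw [norm_mul, hapn, h7]
    · refine hQi.mul_bdd (c := a ^ (1 - σ) * ((N : ℝ) ^ (1 - σ) / (1 - σ))) ?_ ?_
      · have hNc : (N : ℂ) ≠ 0 := by exact_mod_cast hN0.ne'
        have h7 : Continuous fun v : ℝ × ℝ => (N : ℂ) ^ (1 - Sv κ v) :=
          (continuous_const.sub (Sv_cont κ)).const_cpow (Or.inl hNc)
        exact (hapc.mul (h7.div (continuous_const.sub (Sv_cont κ)) h1S)).aestronglyMeasurable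
      · refine Eventually.of_forall fun v => ?_
        rw [norm_mul, hapn, norm_div]
        have h7 : ‖(N : ℂ) ^ (1 - Sv κ v)‖ = (N : ℝ) ^ (1 - σ) := by
          have h8 := Complex.norm_cpow_eq_rpow_re_of_pos hN0 (1 - Sv κ v)
          rw [Complex.sub_re, Complex.one_re, hre, Complex.ofReal_natCast] at h8
          exact h8
        have h8 : 1 - σ ≤ ‖1 - Sv κ v‖ := by
          have h9 := Complex.re_le_norm (1 - Sv κ v)
          rw [Complex.sub_re, Complex.one_re, hre] at h9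
          exact h9
        rw [h7]
        have h9 : (N : ℝ) ^ (1 - σ) / ‖1 - Sv κ v‖ ≤ (N : ℝ) ^ (1 - σ) / (1 - σ) :=
          div_le_div_of_nonneg_left (by positivity) (by linarith) h8
        exact mul_le_mul_of_nonneg_left h9 (by positivity)
  -- limits
  have hlim1 : Tendsto (fun N : ℕ => (a : ℂ) * ∑ n ∈ Finset.range N, h (a * (n + 1)) -
      ∫ η in (0 : ℝ)..(a * N), h η) atTop
      (𝓝 ((a : ℂ) * ∑' n : ℕ, h (a * (n + 1)) - ∫ η in Ioi (0 : ℝ), h η)) := by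
    refine Tendsto.sub (hsum.hasSum.tendsto_sum_nat.const_mul _) ?_
    refine intervalIntegral_tendsto_integral_Ioi 0 hint ?_
    exact tendsto_natCast_atTop_atTop.const_mul_atTop ha
  have hlim2 : Tendsto (fun N : ℕ => (a : ℂ) * ∑ n ∈ Finset.range N, h (a * (n + 1)) -
      ∫ η in (0 : ℝ)..(a * N), h η) atTop
      (𝓝 (((2 * Real.pi : ℂ) ^ 2)⁻¹ *
        ∫ v : ℝ × ℝ, g1 v.1 * g2 v.2 * ((a : ℂ) ^ (1 - Sv κ v) * riemannZeta (Sv κ v)))) := by
    rw [tendsto_iff_norm_sub_tendsto_zero]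
    have hK : Tendsto (fun N : ℕ => (‖((2 * Real.pi : ℂ) ^ 2)⁻¹‖ * (a ^ (1 - σ) * (1 / σ) *
        ∫ v : ℝ × ℝ, ‖g1 v.1 * g2 v.2‖ * ‖Sv κ v‖)) * (N : ℝ) ^ (-σ)) atTop (𝓝 0) := by
      have h5 : Tendsto (fun N : ℕ => (N : ℝ) ^ (-σ)) atTop (𝓝 0) :=
        (tendsto_rpow_neg_atTop hσ0).comp tendsto_natCast_atTop_atTop
      have h6 := h5.const_mul (‖((2 * Real.pi : ℂ) ^ 2)⁻¹‖ * (a ^ (1 - σ) * (1 / σ) *
        ∫ v : ℝ × ℝ, ‖g1 v.1 * g2 v.2‖ * ‖Sv κ v‖))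
      rwa [mul_zero] at h6
    refine squeeze_zero' (Eventually.of_forall fun _ => norm_nonneg _) ?_ hK
    filter_upwards [eventually_ge_atTop 1] with N hN
    have hN0 : (0 : ℝ) < N := by exact_mod_cast hN
    rw [hfin N hN, ← mul_sub, norm_mul, mul_assoc]
    refine mul_le_mul_of_nonneg_left ?_ (norm_nonneg _)
    have hdiff : Integrable (fun v : ℝ × ℝ => (a ^ (1 - σ) * (1 / σ) * (N : ℝ) ^ (-σ)) *
        (‖g1 v.1 * g2 v.2‖ * ‖Sv κ v‖)) := hQSi.const_mul _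
    have hpt : ∀ v : ℝ × ℝ, ‖g1 v.1 * g2 v.2 *
        ((a : ℂ) ^ (1 - Sv κ v) * (∑ j ∈ Finset.range N, ((j : ℂ) + 1) ^ (-(Sv κ v)) -
          (N : ℂ) ^ (1 - Sv κ v) / (1 - Sv κ v))) -
        g1 v.1 * g2 v.2 * ((a : ℂ) ^ (1 - Sv κ v) * riemannZeta (Sv κ v))‖ ≤
        (a ^ (1 - σ) * (1 / σ) * (N : ℝ) ^ (-σ)) * (‖g1 v.1 * g2 v.2‖ * ‖Sv κ v‖) := by
      intro v
      have e1 : g1 v.1 * g2 v.2 *
        ((a : ℂ) ^ (1 - Sv κ v) * (∑ j ∈ Finset.range N, ((j : ℂ) + 1) ^ (-(Sv κ v)) -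
          (N : ℂ) ^ (1 - Sv κ v) / (1 - Sv κ v))) -
        g1 v.1 * g2 v.2 * ((a : ℂ) ^ (1 - Sv κ v) * riemannZeta (Sv κ v)) =
        g1 v.1 * g2 v.2 * ((a : ℂ) ^ (1 - Sv κ v) *
          (∑ j ∈ Finset.range N, ((j : ℂ) + 1) ^ (-(Sv κ v)) -
          (N : ℂ) ^ (1 - Sv κ v) / (1 - Sv κ v) - riemannZeta (Sv κ v))) := by ring
      rw [e1, norm_mul, norm_mul ((a : ℂ) ^ (1 - Sv κ v)), hapn]
      have h5 := zeta_err (s := Sv κ v) (by rw [hre]; exact hσ0) (hSne v) N hN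
      rw [hre] at h5
      calc ‖g1 v.1 * g2 v.2‖ * (a ^ (1 - σ) *
            ‖∑ j ∈ Finset.range N, ((j : ℂ) + 1) ^ (-(Sv κ v)) -
              (N : ℂ) ^ (1 - Sv κ v) / (1 - Sv κ v) - riemannZeta (Sv κ v)‖) ≤
          ‖g1 v.1 * g2 v.2‖ * (a ^ (1 - σ) * (‖Sv κ v‖ / σ * (N : ℝ) ^ (-σ))) := by gcongr
        _ = _ := by ring
    have hi2 : Integrable (fun v : ℝ × ℝ => g1 v.1 * g2 v.2 *
        ((a : ℂ) ^ (1 - Sv κ v) * (∑ j ∈ Finset.range N, ((j : ℂ) + 1) ^ (-(Sv κ v)) -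
          (N : ℂ) ^ (1 - Sv κ v) / (1 - Sv κ v)))) := by
      have hNc : (N : ℂ) ≠ 0 := by exact_mod_cast hN0.ne'
      have hm : Continuous (fun v : ℝ × ℝ => g1 v.1 * g2 v.2 *
        ((a : ℂ) ^ (1 - Sv κ v) * (∑ j ∈ Finset.range N, ((j : ℂ) + 1) ^ (-(Sv κ v)) -
          (N : ℂ) ^ (1 - Sv κ v) / (1 - Sv κ v)))) := by
        have h7 : Continuous fun v : ℝ × ℝ => (N : ℂ) ^ (1 - Sv κ v) :=
          (continuous_const.sub (Sv_cont κ)).const_cpow (Or.inl hNc)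
        have h8 : Continuous fun v : ℝ × ℝ => ∑ j ∈ Finset.range N, ((j : ℂ) + 1) ^ (-(Sv κ v)) := by
          refine continuous_finsetSum _ fun j _ => ?_
          have hj : (0 : ℝ) < (j : ℝ) + 1 := by positivity
          have h9 := hpowc hj
          push_cast at h9
          exact h9
        exact hQc.mul (hapc.mul (h8.sub (h7.div (continuous_const.sub (Sv_cont κ)) h1S)))
      have h9 := hzi.norm.add hdiff
      refine h9.mono' hm.aestronglyMeasurable (Eventually.of_forall fun v => ?_)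
      simp only [Pi.add_apply]
      have h10 := hpt v
      have h11 := norm_sub_norm_le (g1 v.1 * g2 v.2 *
        ((a : ℂ) ^ (1 - Sv κ v) * (∑ j ∈ Finset.range N, ((j : ℂ) + 1) ^ (-(Sv κ v)) -
          (N : ℂ) ^ (1 - Sv κ v) / (1 - Sv κ v))))
        (g1 v.1 * g2 v.2 * ((a : ℂ) ^ (1 - Sv κ v) * riemannZeta (Sv κ v)))
      linarith
    rw [← integral_sub hi2 hzi]
    refine (norm_integral_le_of_norm_le hdiff (Eventually.of_forall hpt)).trans (le_of_eq ?_)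
    rw [integral_const_mul]
    ring
  exact tendsto_nhds_unique hlim1 hlim2

lemma cp {x : ℝ} (hx : 0 < x) (z : ℂ) : (x : ℂ) ^ z = cexp (((Real.log x : ℝ) : ℂ) * z) := by
  rw [Complex.cpow_def_of_ne_zero (by exact_mod_cast hx.ne'), Complex.ofReal_log hx.le]

lemma subst_inv (F : ℝ → ℂ) {b : ℝ} (hb : 0 < b) :
    ∫ σ in Ioi (0 : ℝ), F σ = ∫ η in Ioi (0 : ℝ), ((1 / (b * η ^ 2) : ℝ) : ℂ) * F (1 / (b * η)) := by
  have h1 := integral_comp_rpow_Ioi F (p := -1) (by norm_num)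
  rw [← h1]
  have h2 := integral_comp_mul_left_Ioi
    (fun x : ℝ => (|(-1 : ℝ)| * x ^ ((-1 : ℝ) - 1)) • F (x ^ (-1 : ℝ))) 0 hb
  rw [mul_zero] at h2
  have h3 : ∫ x in Ioi (0 : ℝ), (|(-1 : ℝ)| * x ^ ((-1 : ℝ) - 1)) • F (x ^ (-1 : ℝ)) =
      b • ∫ x in Ioi (0 : ℝ), (|(-1 : ℝ)| * (b * x) ^ ((-1 : ℝ) - 1)) • F ((b * x) ^ (-1 : ℝ)) := by
    rw [h2, smul_smul, mul_inv_cancel₀ hb.ne', one_smul]
  rw [h3, ← integral_smul]
  refine setIntegral_congr_fun measurableSet_Ioi fun η hη => ?_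
  have hη0 : (0 : ℝ) < η := hη
  have h4 : (b * η) ^ ((-1 : ℝ) - 1) = ((b * η) ^ 2)⁻¹ := by
    rw [show ((-1 : ℝ) - 1) = -(2 : ℝ) by norm_num, Real.rpow_neg (by positivity), Real.rpow_two]
  have h5 : (b * η) ^ (-1 : ℝ) = 1 / (b * η) := by
    rw [Real.rpow_neg_one, one_div]
  rw [h4, h5, smul_smul, Complex.real_smul]
  congr 2
  rw [abs_neg, abs_one, one_mul]
  field_simp

lemma minM {L a : ℝ} (ha : 0 ≤ a) :
    min 1 (Real.exp (-(10 * (L + a)))) ≤ min 1 (Real.exp (-(10 * L))) := by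
  refine min_le_min le_rfl (Real.exp_le_exp.2 (by linarith))

lemma G_data {s : ℂ} (hs : s ≠ 0) {a1 a2 : ℝ} (h1 : 0 ≤ a1) (h2 : 0 ≤ a2) :
    ∃ (G' G'' : ℝ → ℂ) (C : ℝ),
      (∀ L, HasDerivAt (fun L : ℝ => ph s (L + a1) * ph s (L + a2)) (G' L) L) ∧
      (∀ L, HasDerivAt G' (G'' L) L) ∧ Measurable G'' ∧
      (∀ L, ‖ph s (L + a1) * ph s (L + a2)‖ ≤ C * min 1 (Real.exp (-(10 * L)))) ∧
      (∀ L, ‖G' L‖ ≤ C * min 1 (Real.exp (-(10 * L)))) ∧
      (∀ L, ‖G'' L‖ ≤ C * min 1 (Real.exp (-(10 * L)))) := by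
  obtain ⟨C, hC1, hC⟩ := ph_bound ‖s‖ (norm_pos_iff.2 hs)
  obtain ⟨hcd, hb⟩ := hC s rfl
  have hC0 : (C : ℂ) ≠ 0 := by
    have h3 : C ≠ 0 := by linarith
    exact_mod_cast h3
  set φ : ℝ → ℂ := fun L => ph s L / C with hφ
  have hph : ∀ L, ph s L = C * φ L := by
    intro L
    simp only [hφ]
    field_simp
  have hd1 : ∀ L, HasDerivAt φ (deriv φ L) L := fun L =>
    ((hcd.differentiable (by norm_num)) L).hasDerivAt
  have hcd1 : ContDiff ℝ 1 (deriv φ) := by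
    have h3 : ContDiff ℝ (1 + 1) φ := by
      have h4 : (1 + 1 : WithTop ℕ∞) = 2 := by norm_num
      rw [h4]
      exact hcd
    exact (contDiff_succ_iff_deriv.1 h3).2.2
  have hd2 : ∀ L, HasDerivAt (deriv φ) (deriv (deriv φ) L) L := fun L =>
    ((hcd1.differentiable (by norm_num)) L).hasDerivAt
  have hc2 : Continuous (deriv (deriv φ)) := hcd1.continuous_deriv (by norm_num)
  have hc1 : Continuous (deriv φ) := hcd1.continuous
  have hc0 : Continuous φ := hcd.continuous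
  refine ⟨fun L => C ^ 2 * (deriv φ (L + a1) * φ (L + a2) + φ (L + a1) * deriv φ (L + a2)),
    fun L => C ^ 2 * (deriv (deriv φ) (L + a1) * φ (L + a2) + deriv φ (L + a1) * deriv φ (L + a2) +
      (deriv φ (L + a1) * deriv φ (L + a2) + φ (L + a1) * deriv (deriv φ) (L + a2))),
    4 * C ^ 2, ?_, ?_, ?_, ?_, ?_, ?_⟩
  · intro L
    have h3 : HasDerivAt (fun L => φ (L + a1)) (deriv φ (L + a1)) L := (hd1 (L + a1)).comp_add_const L a1
    have h4 : HasDerivAt (fun L => φ (L + a2)) (deriv φ (L + a2)) L := (hd1 (L + a2)).comp_add_const L a2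
    have h5 := (h3.mul h4).const_mul ((C : ℂ) ^ 2)
    have h6 : (fun L : ℝ => ph s (L + a1) * ph s (L + a2)) =
        fun L => (C : ℂ) ^ 2 * (φ (L + a1) * φ (L + a2)) := by
      funext L
      rw [hph, hph]
      ring
    rw [h6]
    exact h5
  · intro L
    have h3 : HasDerivAt (fun L => φ (L + a1)) (deriv φ (L + a1)) L := (hd1 (L + a1)).comp_add_const L a1
    have h4 : HasDerivAt (fun L => φ (L + a2)) (deriv φ (L + a2)) L := (hd1 (L + a2)).comp_add_const L a2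
    have h5 : HasDerivAt (fun L => deriv φ (L + a1)) (deriv (deriv φ) (L + a1)) L :=
      (hd2 (L + a1)).comp_add_const L a1
    have h6 : HasDerivAt (fun L => deriv φ (L + a2)) (deriv (deriv φ) (L + a2)) L :=
      (hd2 (L + a2)).comp_add_const L a2
    exact ((h5.mul h4).add (h3.mul h6)).const_mul ((C : ℂ) ^ 2)
  · refine Continuous.measurable ?_
    have e1 : Continuous fun L : ℝ => L + a1 := by fun_prop
    have e2 : Continuous fun L : ℝ => L + a2 := by fun_prop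
    exact continuous_const.mul ((((hc2.comp e1).mul (hc0.comp e2)).add ((hc1.comp e1).mul (hc1.comp e2))).add
      (((hc1.comp e1).mul (hc1.comp e2)).add ((hc0.comp e1).mul (hc2.comp e2))))
  · intro L
    have h3 := (hb (L + a1)).1.trans (minM h1)
    have h4 := ((hb (L + a2)).1).trans (min_le_left _ _)
    have hM : 0 ≤ min 1 (Real.exp (-(10 * L))) := by positivity
    rw [hph, hph]
    have h5 : ‖(C : ℂ) * φ (L + a1) * ((C : ℂ) * φ (L + a2))‖ =
        C ^ 2 * (‖φ (L + a1)‖ * ‖φ (L + a2)‖) := by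
      rw [norm_mul, norm_mul, norm_mul, Complex.norm_real, Real.norm_of_nonneg (by linarith)]
      ring
    rw [h5]
    have h6 : ‖φ (L + a1)‖ * ‖φ (L + a2)‖ ≤ min 1 (Real.exp (-(10 * L))) * 1 :=
      mul_le_mul h3 h4 (norm_nonneg _) hM
    nlinarith [mul_nonneg (sq_nonneg C) hM, mul_le_mul_of_nonneg_left h6 (sq_nonneg C)]
  · intro L
    have hM : 0 ≤ min 1 (Real.exp (-(10 * L))) := by positivity
    obtain ⟨p0, p1, p2⟩ := hb (L + a1)
    obtain ⟨q0, q1, q2⟩ := hb (L + a2)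
    have hn2 : ‖(C : ℂ) ^ 2‖ = C ^ 2 := by
      rw [norm_pow, Complex.norm_real, Real.norm_of_nonneg (by linarith)]
    rw [norm_mul, hn2]
    have h6 : ‖deriv φ (L + a1) * φ (L + a2)‖ ≤ min 1 (Real.exp (-(10 * L))) := by
      rw [norm_mul]
      calc _ ≤ min 1 (Real.exp (-(10 * L))) * 1 :=
            mul_le_mul (p1.trans (minM h1)) (q0.trans (min_le_left _ _)) (norm_nonneg _) hM
        _ = _ := mul_one _
    have h7 : ‖φ (L + a1) * deriv φ (L + a2)‖ ≤ min 1 (Real.exp (-(10 * L))) := by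
      rw [norm_mul]
      calc _ ≤ min 1 (Real.exp (-(10 * L))) * 1 :=
            mul_le_mul (p0.trans (minM h1)) (q1.trans (min_le_left _ _)) (norm_nonneg _) hM
        _ = _ := mul_one _
    have h8 := (norm_add_le (deriv φ (L + a1) * φ (L + a2)) (φ (L + a1) * deriv φ (L + a2))).trans
      (add_le_add h6 h7)
    nlinarith [mul_nonneg (sq_nonneg C) hM, mul_le_mul_of_nonneg_left h8 (sq_nonneg C)]
  · intro L
    have hM : 0 ≤ min 1 (Real.exp (-(10 * L))) := by positivity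
    obtain ⟨p0, p1, p2⟩ := hb (L + a1)
    obtain ⟨q0, q1, q2⟩ := hb (L + a2)
    have hn2 : ‖(C : ℂ) ^ 2‖ = C ^ 2 := by
      rw [norm_pow, Complex.norm_real, Real.norm_of_nonneg (by linarith)]
    rw [norm_mul, hn2]
    have hp : ∀ {A B : ℂ}, ‖A‖ ≤ min 1 (Real.exp (-(10 * (L + a1)))) →
        ‖B‖ ≤ min 1 (Real.exp (-(10 * (L + a2)))) → ‖A * B‖ ≤ min 1 (Real.exp (-(10 * L))) := by
      intro A B hA hB
      rw [norm_mul]
      calc _ ≤ min 1 (Real.exp (-(10 * L))) * 1 :=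
            mul_le_mul (hA.trans (minM h1)) (hB.trans (min_le_left _ _)) (norm_nonneg _) hM
        _ = _ := mul_one _
    have h8 := (norm_add_le (deriv (deriv φ) (L + a1) * φ (L + a2)) (deriv φ (L + a1) * deriv φ (L + a2))).trans
      (add_le_add (hp p2 q0) (hp p1 q1))
    have h9 := (norm_add_le (deriv φ (L + a1) * deriv φ (L + a2)) (φ (L + a1) * deriv (deriv φ) (L + a2))).trans
      (add_le_add (hp p1 q1) (hp p0 q2))
    have h10 := (norm_add_le (deriv (deriv φ) (L + a1) * φ (L + a2) + deriv φ (L + a1) * deriv φ (L + a2))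
      (deriv φ (L + a1) * deriv φ (L + a2) + φ (L + a1) * deriv (deriv φ) (L + a2))).trans
      (add_le_add h8 h9)
    nlinarith [mul_nonneg (sq_nonneg C) hM, mul_le_mul_of_nonneg_left h10 (sq_nonneg C)]

noncomputable def gg (s : ℂ) (a : ℝ) (v : ℝ) : ℂ :=
  Gz s (7 / 4 + v * I) / (7 / 4 + v * I) * cexp (-((7 / 4 + v * I) * a))

lemma gg_bound {s : ℂ} (hs : s ≠ 0) : ∃ C : ℝ, 0 < C ∧ ∀ a : ℝ, 0 ≤ a → ∀ v : ℝ,
    ‖gg s a v‖ ≤ C * Real.exp (-(v ^ 2 / 2)) := by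
  obtain ⟨C, hC0, hC⟩ := Gz_bound ‖s‖ (7 / 4) (norm_pos_iff.2 hs)
  refine ⟨C, hC0, fun a ha v => ?_⟩
  have h1 := hC s rfl v
  have e1 : (((7 / 4 : ℝ) : ℂ) + v * I) = 7 / 4 + v * I := by
    push_cast
    ring
  rw [e1] at h1
  have h2 : (1 : ℝ) ≤ ‖(7 / 4 + v * I : ℂ)‖ := by
    have h3 := Complex.re_le_norm (7 / 4 + v * I : ℂ)
    have h4 : (7 / 4 + v * I : ℂ).re = 7 / 4 := by
      rw [← e1]
      simp
    rw [h4] at h3
    linarith
  have h5 : ‖cexp (-((7 / 4 + v * I) * a))‖ ≤ 1 := by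
    rw [Complex.norm_exp]
    have h6 : (-((7 / 4 + v * I) * a) : ℂ).re = -(7 / 4 * a) := by
      rw [← e1]
      simp
    rw [h6]
    exact Real.exp_le_one_iff.2 (by linarith)
  unfold gg
  rw [norm_mul, norm_div]
  have h7 : ‖Gz s (7 / 4 + v * I)‖ / ‖(7 / 4 + v * I : ℂ)‖ ≤ C * Real.exp (-(v ^ 2 / 2)) :=
    (div_le_self (norm_nonneg _) h2).trans h1
  calc _ ≤ C * Real.exp (-(v ^ 2 / 2)) * 1 :=
        mul_le_mul h7 h5 (norm_nonneg _) (by positivity)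
    _ = _ := mul_one _

lemma gg_cont (s : ℂ) (a : ℝ) : Continuous (gg s a) := by
  unfold gg Gz
  have h1 : ∀ v : ℝ, (7 / 4 + v * I : ℂ) ≠ 0 := by
    intro v h0
    have h2 := congrArg Complex.re h0
    have e1 : (((7 / 4 : ℝ) : ℂ) + v * I) = 7 / 4 + v * I := by
      push_cast
      ring
    rw [← e1] at h2
    simp at h2
  have h3 : Continuous fun v : ℝ => (7 / 4 + v * I : ℂ) := by fun_prop
  refine Continuous.mul (Continuous.div ?_ h3 h1) ?_
  · fun_prop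
  · fun_prop

lemma h_mellin {s : ℂ} (hs : s ≠ 0) (κ : ℂ) (a1 a2 : ℝ) {η : ℝ} (hη : 0 < η) :
    FG κ (fun L => ph s (L + a1) * ph s (L + a2)) η = ((2 * Real.pi : ℂ) ^ 2)⁻¹ *
      ∫ v : ℝ × ℝ, gg s a1 v.1 * gg s a2 v.2 * (η : ℂ) ^ (-(Sv κ v)) := by
  rw [FG_pos hη]
  have h1 := (ph_mellin hs (c := 7 / 4) (by norm_num) (Real.log η + a1)).2
  have h2 := (ph_mellin hs (c := 7 / 4) (by norm_num) (Real.log η + a2)).2
  rw [h1, h2]
  have h3 := integral_prod_mul (μ := (volume : Measure ℝ)) (ν := (volume : Measure ℝ))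
    (fun v : ℝ => Gz s (((7 / 4 : ℝ) : ℂ) + v * I) / (((7 / 4 : ℝ) : ℂ) + v * I) *
      cexp (-((((7 / 4 : ℝ) : ℂ) + v * I) * ((Real.log η + a1 : ℝ) : ℂ))))
    (fun v : ℝ => Gz s (((7 / 4 : ℝ) : ℂ) + v * I) / (((7 / 4 : ℝ) : ℂ) + v * I) *
      cexp (-((((7 / 4 : ℝ) : ℂ) + v * I) * ((Real.log η + a2 : ℝ) : ℂ))))
  rw [mul_mul_mul_comm, ← h3, ← Measure.volume_eq_prod, mul_left_comm, ← integral_const_mul]
  have e0 : (2 * Real.pi : ℂ)⁻¹ * (2 * Real.pi : ℂ)⁻¹ = ((2 * Real.pi : ℂ) ^ 2)⁻¹ := by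
    rw [← mul_inv, sq]
  rw [e0]
  congr 1
  refine integral_congr_ae (Eventually.of_forall fun v => ?_)
  simp only [gg, Sv]
  rw [cp hη, cp hη]
  have e1 : (((7 / 4 : ℝ) : ℂ)) = 7 / 4 := by
    push_cast
    ring
  rw [e1]
  have e2 : cexp (((Real.log η : ℝ) : ℂ) * κ) *
      (cexp (-((7 / 4 + v.1 * I) * ((Real.log η + a1 : ℝ) : ℂ))) *
        cexp (-((7 / 4 + v.2 * I) * ((Real.log η + a2 : ℝ) : ℂ)))) =
      cexp (-((7 / 4 + v.1 * I) * a1)) * cexp (-((7 / 4 + v.2 * I) * a2)) *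
        cexp (((Real.log η : ℝ) : ℂ) * -(-κ + (7 / 4 + v.1 * I) + (7 / 4 + v.2 * I))) := by
    rw [← Complex.exp_add, ← Complex.exp_add, ← Complex.exp_add, ← Complex.exp_add]
    congr 1
    push_cast
    ring
  linear_combination (Gz s (7 / 4 + v.1 * I) / (7 / 4 + v.1 * I)) *
    (Gz s (7 / 4 + v.2 * I) / (7 / 4 + v.2 * I)) * e2

lemma fourier_cont {h : ℝ → ℂ} (hh : Integrable h) : Continuous (𝓕 h) := by
  have h1 := VectorFourier.fourierIntegral_continuous (V := ℝ) (W := ℝ) (μ := (volume : Measure ℝ))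
    (L := innerₗ ℝ) (e := Real.fourierChar) Real.continuous_fourierChar (by fun_prop) hh
  exact h1

lemma fub {h P : ℝ → ℂ} (hh : Integrable h) (h0 : ∀ y ≤ 0, h y = 0) (hP : Integrable P) (l : ℝ) :
    ∫ η in Ioi (0 : ℝ), h η * ∫ x : ℝ, P x * cexp (((-(x * (l * η)) : ℝ) : ℂ) * I) =
      ∫ x : ℝ, P x * 𝓕 h (l * x / (2 * Real.pi)) := by
  have e1 : ∫ η in Ioi (0 : ℝ), h η * ∫ x : ℝ, P x * cexp (((-(x * (l * η)) : ℝ) : ℂ) * I) =
      ∫ η : ℝ, h η * ∫ x : ℝ, P x * cexp (((-(x * (l * η)) : ℝ) : ℂ) * I) := by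
    rw [← integral_indicator measurableSet_Ioi]
    refine integral_congr_ae (Eventually.of_forall fun η => ?_)
    simp only
    by_cases hη : 0 < η
    · rw [indicator_of_mem (mem_Ioi.2 hη)]
    · rw [indicator_of_notMem (by simpa using hη), h0 η (not_lt.1 hη), zero_mul]
  rw [e1]
  have hprod : Integrable (Function.uncurry fun (η x : ℝ) =>
      h η * (P x * cexp (((-(x * (l * η)) : ℝ) : ℂ) * I))) (volume.prod volume) := by
    have h1 := Integrable.mul_prod hh hP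
    have h2 : Integrable (fun p : ℝ × ℝ => (h p.1 * P p.2) *
        cexp (((-(p.2 * (l * p.1)) : ℝ) : ℂ) * I)) (volume.prod volume) := by
      refine h1.mul_bdd (c := 1) ?_ ?_
      · exact (by fun_prop : Continuous fun p : ℝ × ℝ =>
          cexp (((-(p.2 * (l * p.1)) : ℝ) : ℂ) * I)).aestronglyMeasurable
      · refine Eventually.of_forall fun p => ?_
        rw [Complex.norm_exp_ofReal_mul_I]
    refine h2.congr (Eventually.of_forall fun p => ?_)
    simp only [Function.uncurry]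
    ring
  have e2 : ∫ η : ℝ, h η * ∫ x : ℝ, P x * cexp (((-(x * (l * η)) : ℝ) : ℂ) * I) =
      ∫ η : ℝ, ∫ x : ℝ, h η * (P x * cexp (((-(x * (l * η)) : ℝ) : ℂ) * I)) := by
    refine integral_congr_ae (Eventually.of_forall fun η => ?_)
    simp only
    rw [integral_const_mul]
  rw [e2, integral_integral_swap hprod]
  refine integral_congr_ae (Eventually.of_forall fun x => ?_)
  simp only
  rw [Real.fourier_eq', ← integral_const_mul]
  refine integral_congr_ae (Eventually.of_forall fun η => ?_)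
  simp only [smul_eq_mul]
  have e3 : (-(x * (l * η)) : ℝ) = -2 * Real.pi * inner ℝ η (l * x / (2 * Real.pi)) := by
    have hpi := Real.pi_ne_zero
    simp only [RCLike.inner_apply, conj_trivial]
    field_simp
  rw [e3]
  ring

lemma sum_int {h P : ℝ → ℂ} {B U : ℝ} (hU : 1 ≤ U) (hh : Integrable h)
    (hB : ∀ ξ : ℝ, ‖𝓕 h ξ‖ * ξ ^ 2 ≤ B) (hP : Integrable P) (hP0 : ∀ x, x ≤ U / 2 → P x = 0) :
    ∑' l : {l : ℤ // l ≠ 0}, ∫ x : ℝ, P x * 𝓕 h ((l.1 : ℝ) * x / (2 * Real.pi)) =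
      ∫ x : ℝ, P x * ∑' l : {l : ℤ // l ≠ 0}, 𝓕 h ((l.1 : ℝ) * x / (2 * Real.pi)) := by
  have hpi := Real.pi_pos
  have hfc := fourier_cont hh
  have hB0 : 0 ≤ B := by
    have h1 := hB 0
    simpa using h1
  have hbd : ∀ (l : {l : ℤ // l ≠ 0}) (x : ℝ), ‖P x * 𝓕 h ((l.1 : ℝ) * x / (2 * Real.pi))‖ ≤
      ‖P x‖ * (16 * Real.pi ^ 2 * B * (1 / (l.1 : ℝ) ^ 2)) := by
    intro l x
    rw [norm_mul]
    by_cases hx : x ≤ U / 2
    · rw [hP0 x hx, norm_zero, zero_mul, zero_mul]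
    · have hx1 : 1 / 2 ≤ x := by
        have := not_le.1 hx
        linarith
      refine mul_le_mul_of_nonneg_left ?_ (norm_nonneg _)
      have hl : (l.1 : ℝ) ≠ 0 := by exact_mod_cast l.2
      have hl2 : 0 < (l.1 : ℝ) ^ 2 := by positivity
      have h1 := hB ((l.1 : ℝ) * x / (2 * Real.pi))
      have h2 : ((l.1 : ℝ) * x / (2 * Real.pi)) ^ 2 = (l.1 : ℝ) ^ 2 * x ^ 2 / (4 * Real.pi ^ 2) := by
        ring
      rw [h2] at h1
      have h3 : (1 / 4 : ℝ) ≤ x ^ 2 := by nlinarith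
      have h4 : (l.1 : ℝ) ^ 2 * (1 / 4) / (4 * Real.pi ^ 2) ≤ (l.1 : ℝ) ^ 2 * x ^ 2 / (4 * Real.pi ^ 2) := by
        gcongr
      have h5 : ‖𝓕 h ((l.1 : ℝ) * x / (2 * Real.pi))‖ * ((l.1 : ℝ) ^ 2 * (1 / 4) / (4 * Real.pi ^ 2)) ≤ B :=
        (mul_le_mul_of_nonneg_left h4 (norm_nonneg _)).trans h1
      have h6 : ‖𝓕 h ((l.1 : ℝ) * x / (2 * Real.pi))‖ * ((l.1 : ℝ) ^ 2 * (1 / 4) / (4 * Real.pi ^ 2)) =
          ‖𝓕 h ((l.1 : ℝ) * x / (2 * Real.pi))‖ * (l.1 : ℝ) ^ 2 / (16 * Real.pi ^ 2) := by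
        field_simp
        ring
      rw [h6, div_le_iff₀ (by positivity)] at h5
      rw [mul_one_div, le_div_iff₀ hl2]
      linarith
  have hF : ∀ l : {l : ℤ // l ≠ 0}, Integrable fun x : ℝ => P x * 𝓕 h ((l.1 : ℝ) * x / (2 * Real.pi)) := by
    intro l
    refine (hP.norm.mul_const (16 * Real.pi ^ 2 * B * (1 / (l.1 : ℝ) ^ 2))).mono' ?_
      (Eventually.of_forall fun x => hbd l x)
    exact hP.aestronglyMeasurable.mul (hfc.comp (by fun_prop)).aestronglyMeasurable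
  have hs1 : Summable fun l : {l : ℤ // l ≠ 0} => (1 / (l.1 : ℝ) ^ 2) :=
    ((Real.summable_one_div_int_pow (p := 2)).2 (by norm_num)).comp_injective Subtype.val_injective
  have hsum : Summable fun l : {l : ℤ // l ≠ 0} => ∫ x : ℝ, ‖P x * 𝓕 h ((l.1 : ℝ) * x / (2 * Real.pi))‖ := by
    refine Summable.of_nonneg_of_le (fun l => integral_nonneg fun x => norm_nonneg _) (fun l => ?_)
      (hs1.mul_left ((∫ x : ℝ, ‖P x‖) * (16 * Real.pi ^ 2 * B)))
    have h1 := integral_mono (hF l).norm (hP.norm.mul_const (16 * Real.pi ^ 2 * B * (1 / (l.1 : ℝ) ^ 2)))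
      (fun x => hbd l x)
    rw [integral_mul_const] at h1
    refine h1.trans (le_of_eq ?_)
    ring
  have h1 := hasSum_integral_of_summable_integral_norm hF hsum
  rw [h1.tsum_eq]
  refine integral_congr_ae (Eventually.of_forall fun x => ?_)
  simp only
  rw [tsum_mul_left]

lemma cpn {m : ℕ} (hm : 1 ≤ m) (z : ℂ) : (m : ℂ) ^ z = cexp (((Real.log m : ℝ) : ℂ) * z) := by
  have h1 : (0 : ℝ) < m := by exact_mod_cast hm
  rw [← cp h1 z, Complex.ofReal_natCast]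

/-- the constant factor -/
noncomputable def C0 (s α β w : ℂ) (m n u v : ℕ) : ℂ :=
  (m : ℂ) ^ (-(1 / 2 + (3 * s - α) + w)) * (n : ℂ) ^ (-(1 / 2 + (3 * s - β) + w)) *
    ((u : ℂ) ^ (1 / 2 + α + w - 1) * (v : ℂ) ^ (1 / 2 + β + w - 1))

lemma term_eq (Ω : ℝ → ℂ) (s α β w : ℂ) (m n u v : ℕ) (hm : 1 ≤ m) (hn : 1 ≤ n)
    (hu : 1 ≤ u) (hv : 1 ≤ v) (l : ℝ) :
    ∫ σ in Ioi (0 : ℝ),
      (m : ℂ) ^ (-(ev s α β w 0)) * ((v * σ : ℝ) : ℂ) ^ (-(ev s α β w 1)) *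
      ((n : ℂ) ^ (-(ev s α β w 2)) * ((u * σ : ℝ) : ℂ) ^ (-(ev s α β w 3))) *
      (ph s (Real.log m - Real.log (v * σ)) * ph s (Real.log n - Real.log (u * σ))) *
      KK Ω w (l / (u * v * σ)) =
    C0 s α β w m n u v * ∫ η in Ioi (0 : ℝ), FG (-1 + α + β + 2 * w)
      (fun L => ph s (L + (Real.log m + Real.log u)) * ph s (L + (Real.log n + Real.log v))) η *
      ∫ x : ℝ, (Ω x * X2 x (2 * w)) * cexp (((-(x * (l * η)) : ℝ) : ℂ) * I) := by
  have hu0 : (0 : ℝ) < u := by exact_mod_cast hu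
  have hv0 : (0 : ℝ) < v := by exact_mod_cast hv
  have hb : (0 : ℝ) < (u : ℝ) * v := mul_pos hu0 hv0
  rw [subst_inv _ hb, ← integral_const_mul]
  refine setIntegral_congr_fun measurableSet_Ioi fun η hη => ?_
  have hη0 : (0 : ℝ) < η := hη
  have e1 : (v : ℝ) * (1 / ((u : ℝ) * v * η)) = 1 / (u * η) := by field_simp
  have e2 : (u : ℝ) * (1 / ((u : ℝ) * v * η)) = 1 / (v * η) := by field_simp
  have e3 : l / ((u : ℝ) * v * (1 / ((u : ℝ) * v * η))) = l * η := by field_simp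
  have p1 : (0 : ℝ) < 1 / (u * η) := by positivity
  have p2 : (0 : ℝ) < 1 / (v * η) := by positivity
  have l1 : Real.log (1 / (u * η)) = -Real.log u - Real.log η := by
    rw [one_div, Real.log_inv, Real.log_mul hu0.ne' hη0.ne']
    ring
  have l2 : Real.log (1 / (v * η)) = -Real.log v - Real.log η := by
    rw [one_div, Real.log_inv, Real.log_mul hv0.ne' hη0.ne']
    ring
  have p3 : (0 : ℝ) < 1 / ((u : ℝ) * v * η ^ 2) := by positivity
  have e4 : ((1 / ((u : ℝ) * v * η ^ 2) : ℝ) : ℂ) =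
      cexp (-((Real.log u : ℝ) : ℂ) - ((Real.log v : ℝ) : ℂ) - 2 * ((Real.log η : ℝ) : ℂ)) := by
    have h1 := cp p3 1
    rw [Complex.cpow_one] at h1
    rw [h1]
    congr 1
    rw [one_div, Real.log_inv, Real.log_mul hb.ne' (by positivity), Real.log_mul hu0.ne' hv0.ne',
      Real.log_pow]
    push_cast
    ring
  rw [e1, e2, e3, e4, cp p1, cp p2, l1, l2, FG_pos hη0, cp hη0]
  unfold C0 KK
  rw [cpn hm, cpn hm, cpn hn, cpn hn, cpn hu, cpn hv]
  have a1 : Real.log m - (-Real.log u - Real.log η) = Real.log η + (Real.log m + Real.log u) := by ring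
  have a2 : Real.log n - (-Real.log v - Real.log η) = Real.log η + (Real.log n + Real.log v) := by ring
  rw [a1, a2]
  have ev0 : ev s α β w 0 = 1 / 2 + (3 * s - α) + w := rfl
  have ev1 : ev s α β w 1 = 1 / 2 + α + w := rfl
  have ev2 : ev s α β w 2 = 1 / 2 + (3 * s - β) + w := rfl
  have ev3 : ev s α β w 3 = 1 / 2 + β + w := rfl
  rw [ev0, ev1, ev2, ev3]
  have key : cexp (-((Real.log u : ℝ) : ℂ) - ((Real.log v : ℝ) : ℂ) - 2 * ((Real.log η : ℝ) : ℂ)) *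
      (cexp (((Real.log m : ℝ) : ℂ) * -(1 / 2 + (3 * s - α) + w)) *
        cexp (((-Real.log u - Real.log η : ℝ) : ℂ) * -(1 / 2 + α + w)) *
        (cexp (((Real.log n : ℝ) : ℂ) * -(1 / 2 + (3 * s - β) + w)) *
        cexp (((-Real.log v - Real.log η : ℝ) : ℂ) * -(1 / 2 + β + w)))) =
      cexp (((Real.log m : ℝ) : ℂ) * -(1 / 2 + (3 * s - α) + w)) *
        cexp (((Real.log n : ℝ) : ℂ) * -(1 / 2 + (3 * s - β) + w)) *
        (cexp (((Real.log u : ℝ) : ℂ) * (1 / 2 + α + w - 1)) *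
          cexp (((Real.log v : ℝ) : ℂ) * (1 / 2 + β + w - 1))) *
        cexp (((Real.log η : ℝ) : ℂ) * (-1 + α + β + 2 * w)) := by
    simp only [← Complex.exp_add]
    congr 1
    push_cast
    ring
  linear_combination (ph s (Real.log η + (Real.log m + Real.log u)) *
    ph s (Real.log η + (Real.log n + Real.log v)) *
    ∫ x : ℝ, Ω x * X2 x (2 * w) * cexp (((-(x * (l * η)) : ℝ) : ℂ) * I)) * key

lemma Zk_eq (s α β w : ℂ) {x : ℝ} (hx : 0 < x) (m n u v : ℕ) (hm : 1 ≤ m) (hn : 1 ≤ n)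
    (hu : 1 ≤ u) (hv : 1 ≤ v) (y : ℝ × ℝ) :
    C0 s α β w m n u v * X2 x (2 * w) * (gg s (Real.log m + Real.log u) y.1 *
      gg s (Real.log n + Real.log v) y.2 *
      (((2 * Real.pi / x : ℝ) : ℂ) ^ (1 - Sv (-1 + α + β + 2 * w) y) *
        riemannZeta (Sv (-1 + α + β + 2 * w) y))) =
    Zk0 s α β x w (7 / 4 + y.1 * I) (7 / 4 + y.2 * I) m n u v := by
  have hpi := Real.pi_pos
  have p1 : (0 : ℝ) < 2 * Real.pi / x := by positivity
  have p2 : (0 : ℝ) < x / (2 * Real.pi) := by positivity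
  have l1 : Real.log (2 * Real.pi / x) = -Real.log (x / (2 * Real.pi)) := by
    rw [← Real.log_inv, inv_div]
  have hS : Sv (-1 + α + β + 2 * w) y =
      1 - α - β - 2 * w + (7 / 4 + y.1 * I) + (7 / 4 + y.2 * I) := by
    unfold Sv
    ring
  rw [hS]
  unfold Zk0 C0 X2 gg
  generalize (7 / 4 + y.1 * I : ℂ) = z1
  generalize (7 / 4 + y.2 * I : ℂ) = z2
  rw [cp p1, cp p2, cp p2, l1, cpn hm, cpn hm, cpn hn, cpn hn, cpn hu, cpn hu, cpn hv, cpn hv]
  generalize Real.log (x / (2 * Real.pi)) = Lx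
  have key : cexp (((Real.log m : ℝ) : ℂ) * -(1 / 2 + (3 * s - α) + w)) *
      cexp (((Real.log n : ℝ) : ℂ) * -(1 / 2 + (3 * s - β) + w)) *
      (cexp (((Real.log u : ℝ) : ℂ) * (1 / 2 + α + w - 1)) *
        cexp (((Real.log v : ℝ) : ℂ) * (1 / 2 + β + w - 1))) *
      cexp ((Lx : ℂ) * (2 * w)) *
      (cexp (-(z1 * ((Real.log m + Real.log u : ℝ) : ℂ))) *
        cexp (-(z2 * ((Real.log n + Real.log v : ℝ) : ℂ))) *
        cexp (((-Lx : ℝ) : ℂ) * (1 - (1 - α - β - 2 * w + z1 + z2)))) =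
      cexp ((Lx : ℂ) * (-α - β + z1 + z2)) *
      (cexp (((Real.log m : ℝ) : ℂ) * -(1 / 2 + (3 * s - α + w + z1))) *
        cexp (((Real.log n : ℝ) : ℂ) * -(1 / 2 + (3 * s - β + w + z2))) *
      (cexp (((Real.log v : ℝ) : ℂ) * -(1 / 2 + (-β - w + z2))) *
        cexp (((Real.log u : ℝ) : ℂ) * -(1 / 2 + (-α - w + z1))))) := by
    simp only [← Complex.exp_add]
    congr 1
    push_cast
    ring
  linear_combination (Gz s z1 / z1) * (Gz s z2 / z2) *
    riemannZeta (1 - α - β - 2 * w + z1 + z2) * key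

end ZFoneAux

open Set Filter Topology ZFoneAux in
open scoped FourierTransform in
theorem zf_one (U Δ : ℝ) (hU : 1 ≤ U) (hΔ : 0 < Δ) (Ω : ℝ → ℂ) (hΩ : Adm U Δ Ω) (s α β : ℂ) (hs : s ≠ 0)
    (hs1 : ‖s‖ ≤ 1 / 100) (hα : ‖α‖ ≤ 1 / 100) (hβ : ‖β‖ ≤ 1 / 100) (t : ℝ) (m n u v : ℕ) (hm : 1 ≤ m) (hn : 1 ≤ n)
    (hu : 1 ≤ u) (hv : 1 ≤ v) :
    ∑' l : {l : ℤ // l ≠ 0}, ∫ σ in Set.Ioi (0:ℝ),
      (m : ℂ) ^ (-(ev s α β (2 + t * I) 0)) * ((v * σ : ℝ) : ℂ) ^ (-(ev s α β (2 + t * I) 1)) *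
      ((n : ℂ) ^ (-(ev s α β (2 + t * I) 2)) * ((u * σ : ℝ) : ℂ) ^ (-(ev s α β (2 + t * I) 3))) *
      (ph s (Real.log m - Real.log (v * σ)) * ph s (Real.log n - Real.log (u * σ))) *
      KK Ω (2 + t * I) ((l.1 : ℝ) / (u * v * σ)) =
    ∫ x : ℝ, Ω x * (((2 * Real.pi : ℂ) ^ 2)⁻¹ *
      ∫ z : ℝ × ℝ, Zk0 s α β x (2 + t * I) (7 / 4 + z.1 * I) (7 / 4 + z.2 * I) m n u v) := by
  have hpi := Real.pi_pos
  set w : ℂ := 2 + t * I with hw
  set κ : ℂ := -1 + α + β + 2 * w with hκ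
  have hκre : κ.re = 3 + α.re + β.re := by
    simp [hκ, hw]
    ring
  have hα1 := (Complex.abs_re_le_norm α).trans hα
  have hβ1 := (Complex.abs_re_le_norm β).trans hβ
  rw [abs_le] at hα1 hβ1
  obtain ⟨hα2, hα3⟩ := hα1
  obtain ⟨hβ2, hβ3⟩ := hβ1
  have ha1 : 0 ≤ Real.log m + Real.log u := add_nonneg (Real.log_natCast_nonneg m) (Real.log_natCast_nonneg u)
  have ha2 : 0 ≤ Real.log n + Real.log v := add_nonneg (Real.log_natCast_nonneg n) (Real.log_natCast_nonneg v)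
  obtain ⟨G', G'', C, hG, hG', hGm, b0, b1, b2⟩ := G_data hs ha1 ha2
  set G : ℝ → ℂ := fun L => ph s (L + (Real.log m + Real.log u)) * ph s (L + (Real.log n + Real.log v))
    with hGdef
  have hGmeas : Measurable G := by
    have h1 : Differentiable ℝ G := fun L => (hG L).differentiableAt
    exact h1.continuous.measurable
  have hint : Integrable (FG κ G) := FG_int hGmeas (by linarith) (by linarith) b0
  obtain ⟨B, hB0, hB⟩ := FG_fourier (κ := κ) (by linarith) (by linarith) hG hG' hGm b0 b1 b2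
  obtain ⟨hΩc, hΩ1, hΩ2, -⟩ := hΩ
  have hP0 : ∀ x, x ≤ U / 2 → Ω x * X2 x (2 * w) = 0 := by
    intro x hx
    rw [hΩ1 x hx, zero_mul]
  have hP : Integrable (fun x => Ω x * X2 x (2 * w)) := by
    have h1 : IntegrableOn (fun x => Ω x * X2 x (2 * w)) (Icc (U / 2) (8 * U)) := by
      refine ContinuousOn.integrableOn_Icc ?_
      refine hΩc.continuous.continuousOn.mul ?_
      unfold X2
      refine ContinuousOn.cpow ?_ continuousOn_const ?_
      · fun_prop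
      · intro x hx
        refine Complex.ofReal_mem_slitPlane.2 ?_
        have hx1 : 0 < x := lt_of_lt_of_le (by linarith) hx.1
        positivity
    refine (integrableOn_iff_integrable_of_support_subset ?_).1 h1
    intro x hx
    rw [Function.mem_support] at hx
    by_contra h2
    apply hx
    rcases le_or_gt x (U / 2) with h3 | h3
    · exact hP0 x h3
    · have h4 : 8 * U ≤ x := by
        by_contra h5
        exact h2 ⟨h3.le, (not_le.1 h5).le⟩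
      rw [hΩ2 x h4, zero_mul]
  have hstep : ∀ l : {l : ℤ // l ≠ 0}, ∫ σ in Set.Ioi (0:ℝ),
      (m : ℂ) ^ (-(ev s α β w 0)) * ((v * σ : ℝ) : ℂ) ^ (-(ev s α β w 1)) *
      ((n : ℂ) ^ (-(ev s α β w 2)) * ((u * σ : ℝ) : ℂ) ^ (-(ev s α β w 3))) *
      (ph s (Real.log m - Real.log (v * σ)) * ph s (Real.log n - Real.log (u * σ))) *
      KK Ω w ((l.1 : ℝ) / (u * v * σ)) =
      C0 s α β w m n u v * ∫ x : ℝ, (Ω x * X2 x (2 * w)) * 𝓕 (FG κ G) ((l.1 : ℝ) * x / (2 * Real.pi)) := by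
    intro l
    rw [term_eq Ω s α β w m n u v hm hn hu hv (l.1 : ℝ)]
    congr 1
    exact fub hint (fun y hy => FG_nonpos hy) hP (l.1 : ℝ)
  rw [tsum_congr hstep, tsum_mul_left, sum_int hU hint hB hP hP0, ← integral_const_mul]
  refine integral_congr_ae (Eventually.of_forall fun x => ?_)
  simp only
  by_cases hx : x ≤ U / 2
  · rw [hΩ1 x hx]
    ring
  have hx0 : 0 < x := by
    have := not_le.1 hx
    linarith
  have ha : 0 < 2 * Real.pi / x := by positivity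
  obtain ⟨hS1, hS2, hS3⟩ := FG_poisson (κ := κ) (by linarith) (by linarith) hG hG' hGm b0 b1 b2 ha
  have e1 : ∑' l : {l : ℤ // l ≠ 0}, 𝓕 (FG κ G) ((l.1 : ℝ) * x / (2 * Real.pi)) =
      ∑' l : ℤ, 𝓕 (FG κ G) ((l : ℝ) / (2 * Real.pi / x)) - 𝓕 (FG κ G) 0 := by
    have h1 : ∑' l : {l : ℤ // l ≠ 0}, 𝓕 (FG κ G) ((l.1 : ℝ) * x / (2 * Real.pi)) =
        ∑' l : {l : ℤ // l ≠ 0}, 𝓕 (FG κ G) ((l.1 : ℝ) / (2 * Real.pi / x)) := by
      refine tsum_congr fun l => ?_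
      congr 1
      field_simp
    rw [h1]
    have h2 := hS1.tsum_eq_add_tsum_ite (0 : ℤ)
    have h3 : ∑' l : {l : ℤ // l ≠ 0}, 𝓕 (FG κ G) ((l.1 : ℝ) / (2 * Real.pi / x)) =
        ∑' l : ℤ, {l : ℤ | l ≠ 0}.indicator (fun l : ℤ => 𝓕 (FG κ G) ((l : ℝ) / (2 * Real.pi / x))) l :=
      tsum_subtype {l : ℤ | l ≠ 0} (fun l : ℤ => 𝓕 (FG κ G) ((l : ℝ) / (2 * Real.pi / x)))
    have h4 : ∑' l : ℤ, {l : ℤ | l ≠ 0}.indicator (fun l : ℤ => 𝓕 (FG κ G) ((l : ℝ) / (2 * Real.pi / x))) l =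
        ∑' l : ℤ, if l = 0 then 0 else 𝓕 (FG κ G) ((l : ℝ) / (2 * Real.pi / x)) := by
      refine tsum_congr fun l => ?_
      by_cases hl : l = 0
      · rw [if_pos hl, indicator_of_notMem (by simpa using hl)]
      · rw [if_neg hl, indicator_of_mem (by simpa using hl)]
    rw [h3, h4, h2]
    push_cast
    rw [zero_div]
    ring
  have e2 : 𝓕 (FG κ G) 0 = ∫ η in Ioi (0 : ℝ), FG κ G η := by
    rw [Real.fourier_eq', ← integral_indicator measurableSet_Ioi]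
    refine integral_congr_ae (Eventually.of_forall fun η => ?_)
    simp only [inner_zero_right, mul_zero, Complex.ofReal_zero, zero_mul, Complex.exp_zero, one_smul]
    by_cases hη : 0 < η
    · rw [indicator_of_mem (mem_Ioi.2 hη)]
    · rw [indicator_of_notMem (by simpa using hη), FG_nonpos (not_lt.1 hη)]
  obtain ⟨Cg, hCg0, hCg⟩ := gg_bound hs
  have e3 := mellin_zeta (gg_cont s (Real.log m + Real.log u)) (gg_cont s (Real.log n + Real.log v))
    (hCg _ ha1) (hCg _ ha2) (κ := κ) (by linarith) (by linarith)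
    (fun η hη => h_mellin hs κ (Real.log m + Real.log u) (Real.log n + Real.log v) hη)
    hint.integrableOn ha hS2
  rw [e1, hS3, e2, e3]
  have e4 : C0 s α β w m n u v * (Ω x * X2 x (2 * w) * (((2 * Real.pi : ℂ) ^ 2)⁻¹ *
      ∫ v_1 : ℝ × ℝ, gg s (Real.log m + Real.log u) v_1.1 * gg s (Real.log n + Real.log v) v_1.2 *
        (((2 * Real.pi / x : ℝ) : ℂ) ^ (1 - Sv κ v_1) * riemannZeta (Sv κ v_1)))) =
      Ω x * (((2 * Real.pi : ℂ) ^ 2)⁻¹ * (C0 s α β w m n u v * X2 x (2 * w) *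
      ∫ v_1 : ℝ × ℝ, gg s (Real.log m + Real.log u) v_1.1 * gg s (Real.log n + Real.log v) v_1.2 *
        (((2 * Real.pi / x : ℝ) : ℂ) ^ (1 - Sv κ v_1) * riemannZeta (Sv κ v_1)))) := by ring
  rw [e4, ← integral_const_mul]
  congr 2
  refine integral_congr_ae (Eventually.of_forall fun y => ?_)
  exact Zk_eq s α β w hx0 m n u v hm hn hu hv y

end Pool.Agent.P07318f
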