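import Pool.Agent.Lib.P07318f.ODiag
import Pool.Agent.Lib.P07318f.ZFone
import Pool.Agent.Lib.P07318f.EEreg
import Pool.Agent.Lib.P07318s.Crude

/-!
# Sum of the zero frequency terms

`ZF (ev s α β w) (ph s) (ph s) (KK Ω w) a b = ∑'_p ∑'_l ∫ ..`; for each `p = (m, n)` apply `zf_one` with `u = uu a b m n`, `v = vv a b m n` (positive).
Then `∑'_p ∫ x ∫ z = ∫ x ∫ z ∑'_p` by absolute convergence: at `Re w = 2`, `Re z_i = 7/4` the exponents are: `m^(-1/2-(3s-α)-w-z₁)`: real part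
about `-4.25`, same for `n`; `u, v` to the power `-1/2-1/4+..` (`≤ 1` in absolute value); `Gz s z_i/z_i` is bounded by a Gaussian (`Gz_bound`),
`riemannZeta(S)`, `Re S ∈ [1/4, 3/4]`: polynomially bounded (`zeta_bound_im` in P07318s/Crude.lean); `Ω X2 x (..)` bounded with compact support.
-/

set_option autoImplicit false

namespace Pool.Agent.P07318f

open MeasureTheory Complex

/-- the triple kernel before the change of contours -/
noncomputable def Z1 (s α β : ℂ) (x : ℝ) (a b : ℕ+) (w z1 z2 : ℂ) : ℂ :=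
  Gz s z1 / z1 * (Gz s z2 / z2) * X2 x (-α - β + z1 + z2) *
    (riemannZeta (1 - α - β - 2 * w + z1 + z2) *
      EE a b (3 * s - α + w + z1) (-β - w + z2) (3 * s - β + w + z2) (-α - w + z1))

namespace ZFsumAux

/-- the common factor -/
noncomputable def Ph (Ω : ℝ → ℂ) (s α β w : ℂ) (q : ℝ × (ℝ × ℝ)) : ℂ :=
  Ω q.1 * (((2 * Real.pi : ℂ) ^ 2)⁻¹ *
    (Gz s (7 / 4 + q.2.1 * I) / (7 / 4 + q.2.1 * I) * (Gz s (7 / 4 + q.2.2 * I) / (7 / 4 + q.2.2 * I)) *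
      X2 q.1 (-α - β + (7 / 4 + q.2.1 * I) + (7 / 4 + q.2.2 * I)) *
      riemannZeta (1 - α - β - 2 * w + (7 / 4 + q.2.1 * I) + (7 / 4 + q.2.2 * I))))

/-- the terms of the series `EE` -/
noncomputable def tt (s α β w : ℂ) (a b : ℕ+) (p : ℕ+ × ℕ+) (z : ℝ × ℝ) : ℂ :=
  pw p.1 (3 * s - α + w + (7 / 4 + z.1 * I)) * pw p.2 (3 * s - β + w + (7 / 4 + z.2 * I)) *
    ((((vv a b p.1 p.2 : ℕ) : ℂ) ^ (-(1 / 2 + (-β - w + (7 / 4 + z.2 * I))))) *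
      (((uu a b p.1 p.2 : ℕ) : ℂ) ^ (-(1 / 2 + (-α - w + (7 / 4 + z.1 * I))))))

lemma uu_pos (a b m n : ℕ+) : 1 ≤ uu a b m n := by
  unfold uu
  have h : 0 < ((a : ℕ) * (m : ℕ)) := Nat.mul_pos a.pos m.pos
  exact Nat.div_pos (Nat.le_of_dvd h (Nat.gcd_dvd_left _ _)) (Nat.gcd_pos_of_pos_left _ h)

lemma vv_pos (a b m n : ℕ+) : 1 ≤ vv a b m n := by
  unfold vv
  have h : 0 < ((b : ℕ) * (n : ℕ)) := Nat.mul_pos b.pos n.pos
  exact Nat.div_pos (Nat.le_of_dvd h (Nat.gcd_dvd_right _ _)) (Nat.gcd_pos_of_pos_right _ h)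

lemma norm_pow_le_one {n : ℕ} (hn : 1 ≤ n) (u : ℂ) (hu : u.re ≤ 0) : ‖(n : ℂ) ^ u‖ ≤ 1 := by
  rw [Complex.norm_natCast_cpow_of_pos (by omega)]
  exact Real.rpow_le_one_of_one_le_of_nonpos (by exact_mod_cast hn) hu

lemma norm_pw_le (n : ℕ+) (u : ℂ) (hu : 4 ≤ 1 / 2 + u.re) : ‖pw n u‖ ≤ ((n : ℕ) : ℝ) ^ (-4 : ℝ) := by
  unfold pw
  rw [Complex.norm_natCast_cpow_of_pos n.pos]
  apply Real.rpow_le_rpow_of_exponent_le (by exact_mod_cast n.pos)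
  have e : (-(1 / 2 + u)).re = -(1 / 2 + u.re) := by simp
  rw [e]
  linarith

lemma re_le {u : ℂ} (hu : ‖u‖ ≤ 1 / 100) : -(1 / 100) ≤ u.re ∧ u.re ≤ 1 / 100 :=
  abs_le.mp ((abs_re_le_norm u).trans hu)

lemma im_le {u : ℂ} (hu : ‖u‖ ≤ 1 / 100) : |u.im| ≤ 1 / 100 := (abs_im_le_norm u).trans hu

lemma norm_tt {s α β : ℂ} (hs : ‖s‖ ≤ 1 / 100) (hα : ‖α‖ ≤ 1 / 100) (hβ : ‖β‖ ≤ 1 / 100) (t : ℝ)
    (a b : ℕ+) (p : ℕ+ × ℕ+) (z : ℝ × ℝ) :
    ‖tt s α β (2 + t * I) a b p z‖ ≤ ((p.1 : ℕ) : ℝ) ^ (-4 : ℝ) * ((p.2 : ℕ) : ℝ) ^ (-4 : ℝ) := by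
  have h1 := re_le hs
  have h2 := re_le hα
  have h3 := re_le hβ
  unfold tt
  rw [norm_mul, norm_mul, norm_mul]
  have e1 : (3 * s - α + (2 + t * I) + (7 / 4 + z.1 * I)).re = 3 * s.re - α.re + 2 + 7 / 4 := by
    simp
  have e2 : (3 * s - β + (2 + t * I) + (7 / 4 + z.2 * I)).re = 3 * s.re - β.re + 2 + 7 / 4 := by
    simp
  have e3 : (-(1 / 2 + (-β - (2 + t * I) + (7 / 4 + z.2 * I)))).re = -(1 / 2 + (-β.re - 2 + 7 / 4)) := by
    simp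
  have e4 : (-(1 / 2 + (-α - (2 + t * I) + (7 / 4 + z.1 * I)))).re = -(1 / 2 + (-α.re - 2 + 7 / 4)) := by
    simp
  have g1 := norm_pw_le p.1 (3 * s - α + (2 + t * I) + (7 / 4 + z.1 * I)) (by
    rw [e1]; linarith [h1.1, h2.2])
  have g2 := norm_pw_le p.2 (3 * s - β + (2 + t * I) + (7 / 4 + z.2 * I)) (by
    rw [e2]; linarith [h1.1, h3.2])
  have g3 := norm_pow_le_one (vv_pos a b p.1 p.2) (-(1 / 2 + (-β - (2 + t * I) + (7 / 4 + z.2 * I)))) (by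
    rw [e3]; linarith [h3.2])
  have g4 := norm_pow_le_one (uu_pos a b p.1 p.2) (-(1 / 2 + (-α - (2 + t * I) + (7 / 4 + z.1 * I)))) (by
    rw [e4]; linarith [h2.2])
  calc _ ≤ (((p.1 : ℕ) : ℝ) ^ (-4 : ℝ) * ((p.2 : ℕ) : ℝ) ^ (-4 : ℝ)) * (1 * 1) :=
        mul_le_mul (mul_le_mul g1 g2 (norm_nonneg _) (by positivity))
          (mul_le_mul g3 g4 (norm_nonneg _) (by norm_num)) (by positivity) (by positivity)
    _ = _ := by ring

lemma summable_b : Summable fun p : ℕ+ × ℕ+ =>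
    ((p.1 : ℕ) : ℝ) ^ (-4 : ℝ) * ((p.2 : ℕ) : ℝ) ^ (-4 : ℝ) := by
  have h1 : Summable fun n : ℕ+ => ((n : ℕ) : ℝ) ^ (-4 : ℝ) :=
    (Real.summable_nat_rpow.2 (by norm_num)).comp_injective PNat.coe_injective
  exact h1.mul_of_nonneg h1 (fun n => by positivity) (fun n => by positivity)

lemma cont_tt (s α β w : ℂ) (a b : ℕ+) (p : ℕ+ × ℕ+) : Continuous (tt s α β w a b p) := by
  unfold tt pw
  have h1 : ((p.1 : ℕ) : ℂ) ≠ 0 := by exact_mod_cast p.1.ne_zero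
  have h2 : ((p.2 : ℕ) : ℂ) ≠ 0 := by exact_mod_cast p.2.ne_zero
  have h3 : ((vv a b p.1 p.2 : ℕ) : ℂ) ≠ 0 := by
    have := vv_pos a b p.1 p.2
    exact_mod_cast (by omega : vv a b p.1 p.2 ≠ 0)
  have h4 : ((uu a b p.1 p.2 : ℕ) : ℂ) ≠ 0 := by
    have := uu_pos a b p.1 p.2
    exact_mod_cast (by omega : uu a b p.1 p.2 ≠ 0)
  refine ((Continuous.const_cpow (by fun_prop) (Or.inl h1)).mul
    (Continuous.const_cpow (by fun_prop) (Or.inl h2))).mul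
    ((Continuous.const_cpow (by fun_prop) (Or.inl h3)).mul
      (Continuous.const_cpow (by fun_prop) (Or.inl h4)))

/-- the auxiliary majorant -/
noncomputable def gg (v : ℝ) : ℝ := 2 * Real.exp (-(1 / 4) * v ^ 2)

lemma gg_int : Integrable gg := by
  unfold gg
  exact (integrable_exp_neg_mul_sq (by norm_num)).const_mul 2

lemma gg_bound (v : ℝ) : (1 + |v|) * Real.exp (-(v ^ 2 / 2)) ≤ gg v := by
  unfold gg
  have h1 : 1 + |v| ≤ 2 * Real.exp (v ^ 2 / 4) := by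
    have h2 := Real.add_one_le_exp (v ^ 2 / 4)
    have h3 : 0 ≤ (|v| - 1) ^ 2 := sq_nonneg _
    have h4 : |v| ^ 2 = v ^ 2 := sq_abs v
    nlinarith
  calc (1 + |v|) * Real.exp (-(v ^ 2 / 2)) ≤ (2 * Real.exp (v ^ 2 / 4)) * Real.exp (-(v ^ 2 / 2)) :=
        mul_le_mul_of_nonneg_right h1 (Real.exp_pos _).le
    _ = 2 * Real.exp (-(1 / 4) * v ^ 2) := by
        rw [mul_assoc, ← Real.exp_add]
        congr 2
        ring

lemma Ph_meas {Ω : ℝ → ℂ} (hΩ : Continuous Ω) (s : ℂ) {α β : ℂ} (hα : ‖α‖ ≤ 1 / 100)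
    (hβ : ‖β‖ ≤ 1 / 100) (t : ℝ) :
    Measurable (Ph Ω s α β (2 + t * I)) := by
  have hα' := re_le hα
  have hβ' := re_le hβ
  have hne : ∀ v : ℝ, (7 / 4 + v * I : ℂ) ≠ 0 := by
    intro v h
    have := congrArg Complex.re h
    simp at this
  have hG : ∀ f : ℝ × (ℝ × ℝ) → ℝ, Continuous f →
      Continuous fun q => Gz s (7 / 4 + f q * I) / (7 / 4 + f q * I) := by
    intro f hf
    refine Continuous.div ?_ (by fun_prop) (fun q => hne _)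
    unfold Gz
    fun_prop
  unfold Ph
  refine Measurable.mul (hΩ.measurable.comp measurable_fst) (Measurable.const_mul ?_ _)
  refine Measurable.mul (Measurable.mul (Measurable.mul ?_ ?_) ?_) ?_
  · exact (hG (fun q => q.2.1) (by fun_prop)).measurable
  · exact (hG (fun q => q.2.2) (by fun_prop)).measurable
  · unfold X2
    refine Measurable.pow ?_ ?_
    · fun_prop
    · fun_prop
  · refine Continuous.measurable ?_
    rw [continuous_iff_continuousAt]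
    intro q
    have h1 : (1 - α - β - 2 * (2 + t * I) + (7 / 4 + q.2.1 * I) + (7 / 4 + q.2.2 * I) : ℂ) ≠ 1 := by
      intro h
      have := congrArg Complex.re h
      simp at this
      linarith [hα'.1, hα'.2, hβ'.1, hβ'.2]
    have h2 : ContinuousAt riemannZeta
        (1 - α - β - 2 * (2 + t * I) + (7 / 4 + q.2.1 * I) + (7 / 4 + q.2.2 * I)) :=
      (differentiableAt_riemannZeta h1).continuousAt
    exact ContinuousAt.comp (f := fun q : ℝ × (ℝ × ℝ) =>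
      (1 - α - β - 2 * (2 + t * I) + (7 / 4 + q.2.1 * I) + (7 / 4 + q.2.2 * I) : ℂ)) h2
      (by fun_prop)

lemma Ph_int {U Δ : ℝ} (hU : 1 ≤ U) {Ω : ℝ → ℂ} (hΩ : Adm U Δ Ω) {s α β : ℂ} (hs : s ≠ 0)
    (hα : ‖α‖ ≤ 1 / 100) (hβ : ‖β‖ ≤ 1 / 100) (t : ℝ) :
    Integrable (Ph Ω s α β (2 + t * I)) := by
  obtain ⟨hΩc, hΩ1, hΩ2, _⟩ := hΩ
  have hΩcont : Continuous Ω := hΩc.continuous
  have hΩi : Integrable (fun x => ‖Ω x‖) := by
    refine (hΩcont.integrable_of_hasCompactSupport ?_).norm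
    refine HasCompactSupport.intro (isCompact_Icc (a := U / 2) (b := 8 * U)) fun x hx => ?_
    rw [Set.mem_Icc, not_and_or, not_le, not_le] at hx
    rcases hx with hx | hx
    · exact hΩ1 x hx.le
    · exact hΩ2 x hx.le
  obtain ⟨C₁, hC₁, hG⟩ := Gz_bound ‖s‖ (7 / 4) (norm_pos_iff.mpr hs)
  obtain ⟨C₂, hC₂, hz⟩ := Pool.Agent.P07318s.zeta_bound_im (1 / 4) (by norm_num)
  have hα' := re_le hα
  have hβ' := re_le hβ
  have hα'' := im_le hα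
  have hβ'' := im_le hβ
  obtain ⟨A, hA⟩ : ∃ A, A = 2 + 2 * |t| := ⟨_, rfl⟩
  have hA0 : 0 < A := by rw [hA]; positivity
  obtain ⟨Kc, hKc⟩ : ∃ Kc, Kc = ‖((2 * Real.pi : ℂ) ^ 2)⁻¹‖ * (C₁ * C₁ * (8 * U) ^ (4:ℝ) * (C₂ * A)) := ⟨_, rfl⟩
  have hdom : Integrable (fun q : ℝ × (ℝ × ℝ) => (Kc * ‖Ω q.1‖) * (gg q.2.1 * gg q.2.2)) :=
    (hΩi.const_mul Kc).mul_prod (gg_int.mul_prod gg_int)
  refine Integrable.mono' hdom (Ph_meas hΩcont s hα hβ t).aestronglyMeasurable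
    (Filter.Eventually.of_forall fun q => ?_)
  have hUpos : 0 < U := by linarith
  by_cases hq : Ω q.1 = 0
  · unfold Ph
    rw [hq, zero_mul, norm_zero]
    simp
  have hx1 : U / 2 < q.1 := by
    by_contra h
    exact hq (hΩ1 _ (not_lt.mp h))
  have hx2 : q.1 < 8 * U := by
    by_contra h
    exact hq (hΩ2 _ (not_lt.mp h))
  have hx0 : 0 < q.1 := by linarith
  have hinv : ∀ v : ℝ, ‖Gz s (7 / 4 + v * I) / (7 / 4 + v * I)‖ ≤ C₁ * Real.exp (-(v ^ 2 / 2)) := by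
    intro v
    have h1 := hG s rfl v
    have h2 : (1:ℝ) ≤ ‖(7 / 4 + v * I : ℂ)‖ := by
      have := Complex.abs_re_le_norm (7 / 4 + v * I : ℂ)
      have e : (7 / 4 + v * I : ℂ).re = 7 / 4 := by simp
      rw [e, abs_of_pos (by norm_num)] at this
      linarith
    have e : (((7 / 4 : ℝ) : ℂ) + v * I) = 7 / 4 + v * I := by push_cast; ring
    rw [e] at h1
    rw [norm_div]
    exact (div_le_self (norm_nonneg _) h2).trans h1
  have hX : ‖X2 q.1 (-α - β + (7 / 4 + q.2.1 * I) + (7 / 4 + q.2.2 * I))‖ ≤ (8 * U) ^ (4:ℝ) := by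
    unfold X2
    have hpi := Real.pi_pos
    have hp3 := Real.pi_gt_three
    rw [norm_cpow_eq_rpow_re_of_pos (by positivity)]
    have e : (-α - β + (7 / 4 + q.2.1 * I) + (7 / 4 + q.2.2 * I)).re = -α.re - β.re + 7 / 4 + 7 / 4 := by
      simp
    rw [e]
    have h1 : q.1 / (2 * Real.pi) ≤ 8 * U := by
      refine (div_le_self hx0.le (by linarith)).trans hx2.le
    calc (q.1 / (2 * Real.pi)) ^ (-α.re - β.re + 7 / 4 + 7 / 4) ≤
          (8 * U) ^ (-α.re - β.re + 7 / 4 + 7 / 4) :=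
          Real.rpow_le_rpow (by positivity) h1 (by linarith [hα'.2, hβ'.2])
      _ ≤ (8 * U) ^ (4:ℝ) :=
          Real.rpow_le_rpow_of_exponent_le (by linarith) (by linarith [hα'.1, hβ'.1])
  have hzz : ‖riemannZeta (1 - α - β - 2 * (2 + t * I) + (7 / 4 + q.2.1 * I) + (7 / 4 + q.2.2 * I))‖ ≤
      C₂ * A * ((1 + |q.2.1|) * (1 + |q.2.2|)) := by
    have er : (1 - α - β - 2 * (2 + t * I) + (7 / 4 + q.2.1 * I) + (7 / 4 + q.2.2 * I) : ℂ).re =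
        1 - α.re - β.re - 4 + 7 / 4 + 7 / 4 := by
      simp
      ring
    have ei : (1 - α - β - 2 * (2 + t * I) + (7 / 4 + q.2.1 * I) + (7 / 4 + q.2.2 * I) : ℂ).im =
        -α.im - β.im - 2 * t + q.2.1 + q.2.2 := by
      simp
    have h1 := hz (1 - α - β - 2 * (2 + t * I) + (7 / 4 + q.2.1 * I) + (7 / 4 + q.2.2 * I))
      (by rw [er]; linarith [hα'.2, hβ'.2]) (by rw [er]; linarith [hα'.1, hβ'.1]) (by
        have h2 := Complex.abs_re_le_norm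
          (1 - α - β - 2 * (2 + t * I) + (7 / 4 + q.2.1 * I) + (7 / 4 + q.2.2 * I) - 1 : ℂ)
        rw [sub_re, er, one_re] at h2
        have h3 := neg_abs_le (1 - α.re - β.re - 4 + 7 / 4 + 7 / 4 - 1)
        linarith [hα'.1, hβ'.1])
    rw [ei] at h1
    refine h1.trans ?_
    rw [mul_assoc]
    apply mul_le_mul_of_nonneg_left _ hC₂.le
    have h4 : |-α.im - β.im - 2 * t + q.2.1 + q.2.2| ≤
        |α.im| + |β.im| + 2 * |t| + |q.2.1| + |q.2.2| := by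
      have a1 := abs_add_le (-α.im - β.im - 2 * t + q.2.1) q.2.2
      have a2 := abs_add_le (-α.im - β.im - 2 * t) q.2.1
      have a3 := abs_sub (-α.im - β.im) (2 * t)
      have a4 := abs_sub (-α.im) β.im
      rw [abs_neg] at a4
      rw [abs_mul, abs_of_pos (by norm_num : (0:ℝ) < 2)] at a3
      linarith
    have h5 := abs_nonneg q.2.1
    have h6 := abs_nonneg q.2.2
    have h7 := abs_nonneg t
    rw [hA]
    nlinarith [mul_nonneg h5 h6, mul_nonneg h7 h5, mul_nonneg h7 h6, mul_nonneg h7 (mul_nonneg h5 h6)]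
  have hb1 := hinv q.2.1
  have hb2 := hinv q.2.2
  have g1 := gg_bound q.2.1
  have g2 := gg_bound q.2.2
  unfold Ph
  rw [norm_mul, norm_mul, norm_mul, norm_mul, norm_mul]
  have e1 := Real.exp_pos (-(q.2.1 ^ 2 / 2))
  have e2 := Real.exp_pos (-(q.2.2 ^ 2 / 2))
  have hU4 : 0 < (8 * U) ^ (4:ℝ) := Real.rpow_pos_of_pos (by linarith) _
  have hcc : 0 ≤ ‖((2 * Real.pi : ℂ) ^ 2)⁻¹‖ := norm_nonneg _
  have step : ‖Gz s (7 / 4 + q.2.1 * I) / (7 / 4 + q.2.1 * I)‖ *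
      ‖Gz s (7 / 4 + q.2.2 * I) / (7 / 4 + q.2.2 * I)‖ *
      ‖X2 q.1 (-α - β + (7 / 4 + q.2.1 * I) + (7 / 4 + q.2.2 * I))‖ *
      ‖riemannZeta (1 - α - β - 2 * (2 + t * I) + (7 / 4 + q.2.1 * I) + (7 / 4 + q.2.2 * I))‖ ≤
      (C₁ * Real.exp (-(q.2.1 ^ 2 / 2))) * (C₁ * Real.exp (-(q.2.2 ^ 2 / 2))) * (8 * U) ^ (4:ℝ) *
        (C₂ * A * ((1 + |q.2.1|) * (1 + |q.2.2|))) :=
    mul_le_mul (mul_le_mul (mul_le_mul hb1 hb2 (norm_nonneg _) (by positivity)) hX (norm_nonneg _)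
      (by positivity)) hzz (norm_nonneg _) (by positivity)
  have step2 : (C₁ * Real.exp (-(q.2.1 ^ 2 / 2))) * (C₁ * Real.exp (-(q.2.2 ^ 2 / 2))) * (8 * U) ^ (4:ℝ) *
        (C₂ * A * ((1 + |q.2.1|) * (1 + |q.2.2|))) =
      (C₁ * C₁ * (8 * U) ^ (4:ℝ) * (C₂ * A)) * (((1 + |q.2.1|) * Real.exp (-(q.2.1 ^ 2 / 2))) *
        ((1 + |q.2.2|) * Real.exp (-(q.2.2 ^ 2 / 2)))) := by ring
  have step3 : ((1 + |q.2.1|) * Real.exp (-(q.2.1 ^ 2 / 2))) *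
        ((1 + |q.2.2|) * Real.exp (-(q.2.2 ^ 2 / 2))) ≤ gg q.2.1 * gg q.2.2 :=
    mul_le_mul g1 g2 (by positivity) (by unfold gg; positivity)
  rw [step2] at step
  have step4 := step.trans (mul_le_mul_of_nonneg_left step3
    (by positivity : 0 ≤ C₁ * C₁ * (8 * U) ^ (4:ℝ) * (C₂ * A)))
  calc ‖Ω q.1‖ * (‖((2 * Real.pi : ℂ) ^ 2)⁻¹‖ * _) ≤
      ‖Ω q.1‖ * (‖((2 * Real.pi : ℂ) ^ 2)⁻¹‖ *
        ((C₁ * C₁ * (8 * U) ^ (4:ℝ) * (C₂ * A)) * (gg q.2.1 * gg q.2.2))) := by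
        apply mul_le_mul_of_nonneg_left _ (norm_nonneg _)
        exact mul_le_mul_of_nonneg_left step4 hcc
    _ = (Kc * ‖Ω q.1‖) * (gg q.2.1 * gg q.2.2) := by
        rw [hKc]
        ring

end ZFsumAux

open ZFsumAux

theorem zf_sum (U Δ : ℝ) (hU : 1 ≤ U) (hΔ : 0 < Δ) (Ω : ℝ → ℂ) (hΩ : Adm U Δ Ω) (s α β : ℂ) (hs : s ≠ 0)
    (hs1 : ‖s‖ ≤ 1 / 100) (hα : ‖α‖ ≤ 1 / 100) (hβ : ‖β‖ ≤ 1 / 100) (t : ℝ) (a b : ℕ+) :
    ZF (ev s α β (2 + t * I)) (ph s) (ph s) (KK Ω (2 + t * I)) a b =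
      ∫ x : ℝ, Ω x * (((2 * Real.pi : ℂ) ^ 2)⁻¹ *
        ∫ z : ℝ × ℝ, Z1 s α β x a b (2 + t * I) (7 / 4 + z.1 * I) (7 / 4 + z.2 * I)) := by
  have hPh := Ph_int hU hΩ hs hα hβ t
  -- the terms
  have hF : ∀ p : ℕ+ × ℕ+, Integrable fun q : ℝ × (ℝ × ℝ) =>
      Ph Ω s α β (2 + t * I) q * tt s α β (2 + t * I) a b p q.2 := by
    intro p
    have h1 : Integrable fun q : ℝ × (ℝ × ℝ) =>
        tt s α β (2 + t * I) a b p q.2 * Ph Ω s α β (2 + t * I) q := by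
      refine hPh.bdd_mul (c := ((p.1 : ℕ) : ℝ) ^ (-4 : ℝ) * ((p.2 : ℕ) : ℝ) ^ (-4 : ℝ)) ?_ ?_
      · exact ((cont_tt s α β (2 + t * I) a b p).comp continuous_snd).aestronglyMeasurable
      · exact Filter.Eventually.of_forall fun q => norm_tt hs1 hα hβ t a b p q.2
    exact h1.congr (Filter.Eventually.of_forall fun q => mul_comm _ _)
  have hsum : Summable fun p : ℕ+ × ℕ+ => ∫ q : ℝ × (ℝ × ℝ),
      ‖Ph Ω s α β (2 + t * I) q * tt s α β (2 + t * I) a b p q.2‖ := by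
    refine Summable.of_nonneg_of_le (fun p => integral_nonneg fun q => norm_nonneg _) (fun p => ?_)
      (summable_b.mul_right (∫ q : ℝ × (ℝ × ℝ), ‖Ph Ω s α β (2 + t * I) q‖))
    rw [← integral_const_mul]
    refine integral_mono (hF p).norm (hPh.norm.const_mul _) fun q => ?_
    show ‖Ph Ω s α β (2 + t * I) q * tt s α β (2 + t * I) a b p q.2‖ ≤ _
    rw [norm_mul, mul_comm]
    exact mul_le_mul_of_nonneg_right (norm_tt hs1 hα hβ t a b p q.2) (norm_nonneg _)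
  have hkey := hasSum_integral_of_summable_integral_norm hF hsum
  -- the left side
  have hL : ∀ p : ℕ+ × ℕ+, (∑' l : {l : ℤ // l ≠ 0}, ∫ σ in Set.Ioi (0:ℝ),
      ((p.1 : ℕ) : ℂ) ^ (-(ev s α β (2 + t * I) 0)) *
        (((vv a b p.1 p.2 : ℕ) * σ : ℝ) : ℂ) ^ (-(ev s α β (2 + t * I) 1)) *
      (((p.2 : ℕ) : ℂ) ^ (-(ev s α β (2 + t * I) 2)) *
        (((uu a b p.1 p.2 : ℕ) * σ : ℝ) : ℂ) ^ (-(ev s α β (2 + t * I) 3))) *
      (ph s (Real.log (p.1 : ℕ) - Real.log ((vv a b p.1 p.2 : ℕ) * σ)) *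
        ph s (Real.log (p.2 : ℕ) - Real.log ((uu a b p.1 p.2 : ℕ) * σ))) *
      KK Ω (2 + t * I) ((l.1 : ℝ) / ((uu a b p.1 p.2 : ℕ) * (vv a b p.1 p.2 : ℕ) * σ))) =
      ∫ q : ℝ × (ℝ × ℝ), Ph Ω s α β (2 + t * I) q * tt s α β (2 + t * I) a b p q.2 := by
    intro p
    rw [zf_one U Δ hU hΔ Ω hΩ s α β hs hs1 hα hβ t p.1 p.2 (uu a b p.1 p.2) (vv a b p.1 p.2) p.1.pos
      p.2.pos (uu_pos a b p.1 p.2) (vv_pos a b p.1 p.2)]
    rw [Measure.volume_eq_prod ℝ (ℝ × ℝ), integral_prod _ (hF p)]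
    refine integral_congr_ae (Filter.Eventually.of_forall fun x => ?_)
    beta_reduce
    rw [← integral_const_mul, ← integral_const_mul]
    refine integral_congr_ae (Filter.Eventually.of_forall fun z => ?_)
    simp only [Zk0, Ph, tt, pw]
    ring
  unfold ZF
  rw [tsum_congr hL, hkey.tsum_eq]
  -- the right side
  have hT : ∀ q : ℝ × (ℝ × ℝ), (∑' p : ℕ+ × ℕ+, Ph Ω s α β (2 + t * I) q * tt s α β (2 + t * I) a b p q.2) =
      Ph Ω s α β (2 + t * I) q * ∑' p : ℕ+ × ℕ+, tt s α β (2 + t * I) a b p q.2 :=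
    fun q => tsum_mul_left
  simp_rw [hT]
  have hTc : Continuous fun z : ℝ × ℝ => ∑' p : ℕ+ × ℕ+, tt s α β (2 + t * I) a b p z :=
    continuous_tsum (fun p => cont_tt s α β (2 + t * I) a b p) summable_b
      (fun p z => norm_tt hs1 hα hβ t a b p z)
  have hTi : Integrable fun q : ℝ × (ℝ × ℝ) =>
      Ph Ω s α β (2 + t * I) q * ∑' p : ℕ+ × ℕ+, tt s α β (2 + t * I) a b p q.2 := by
    have h1 : Integrable fun q : ℝ × (ℝ × ℝ) =>
        (∑' p : ℕ+ × ℕ+, tt s α β (2 + t * I) a b p q.2) * Ph Ω s α β (2 + t * I) q := by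
      refine hPh.bdd_mul (c := ∑' p : ℕ+ × ℕ+, ((p.1 : ℕ) : ℝ) ^ (-4 : ℝ) * ((p.2 : ℕ) : ℝ) ^ (-4 : ℝ)) ?_ ?_
      · exact (hTc.comp continuous_snd).aestronglyMeasurable
      · exact Filter.Eventually.of_forall fun q =>
          tsum_of_norm_bounded summable_b.hasSum fun p => norm_tt hs1 hα hβ t a b p q.2
    exact h1.congr (Filter.Eventually.of_forall fun q => mul_comm _ _)
  rw [Measure.volume_eq_prod ℝ (ℝ × ℝ), integral_prod _ hTi]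
  refine integral_congr_ae (Filter.Eventually.of_forall fun x => ?_)
  beta_reduce
  rw [← integral_const_mul, ← integral_const_mul]
  refine integral_congr_ae (Filter.Eventually.of_forall fun z => ?_)
  beta_reduce
  have hEE : EE a b (3 * s - α + (2 + t * I) + (7 / 4 + z.1 * I)) (-β - (2 + t * I) + (7 / 4 + z.2 * I))
      (3 * s - β + (2 + t * I) + (7 / 4 + z.2 * I)) (-α - (2 + t * I) + (7 / 4 + z.1 * I)) =
      ∑' p : ℕ+ × ℕ+, tt s α β (2 + t * I) a b p z := rfl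
  simp only [Z1]
  rw [hEE]
  simp only [Ph]
  ring

end Pool.Agent.P07318f
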