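import Pool.Agent.Lib.P07318f.VdcK

/-!
# A power saving for `∑ n^(iτ)`, without Vinogradov's method

This replaces `zsum` of ZSum.lean (same statement), in order to remove the dependence on the long chain Lib/VK.

PROOF. By conjugation `τ ≥ 1`... precisely: `n^(iτ) = e(g n)`, `g n = τ log n/(2π)`; for `k ≥ 2` (mean value theorem for divided differences, or induction:
`Δ^k f (n) = ∫_{[0,1]^k} f^(k)(n + t₁+..+t_k)`, or: there is `ξ ∈ (n, n+k)` with `Δ^k f n = f^(k)(ξ)`) `Δ^k log (n) = (-1)^(k-1) (k-1)! ξ^(-k)`, `n ≤ ξ ≤ n + k`. So for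
`n ∈ (N, 2N]`, (`ξ ∈ [N, (2+k) N]`) the k-th difference of `g` or of `-g` (conjugate sum) lies in `[l, A l]`, `l = |τ| (k-1)!/(2π) ((2+k) N)^(-k)`, `A = (2+k)^k`.
`U` bounded: trivial. Let `K = ⌈2/η⌉ + 2`, so that `16 U ≤ N^(K-1)` for `U` large, and let `k ∈ [2, K]` be minimal with `|τ| ≤ N^(k-1/2)`. `vdc_k` (for each
`k ≤ K`; take the smallest `c` and the largest `C`): `l ≤ C_k |τ| N^(-k) ≤ C_k N^(-1/2)`, `N^k l ≥ c_k |τ| ≥ c_k U^η`, `N ≥ U^η`: the sum is `≤ C N U^(-cη/2)`.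
(No lower bound of `|τ|` in terms of `N` is needed: for `|τ| ≤ N^(3/2)` use `k = 2`.) The length `N' - N` instead of `N`: if `N' - N < N^(1 - c'')` the trivial bound is enough,
or extend: `vdc_k` is applied with length `M = N' - N ≥ 1`, `M ≤ N`; for `M ≥ N^(1-δ')` with small `δ'` one has `(M^k l)^(-c) ≤ (N^k l)^(-c) N^(kcδ') ≤ U^(-ηc) N^(kcδ')`:
hence use `N ≤ C U^(...)`? NOT bounded: so instead, for `N ≥ U^2` (`|τ| ≤ 16U ≤ 16 N^(1/2)`) compare with the integral (as in ZSum.lean: error `≤ |τ|`, integral `≤ 3N/|τ|`), and for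
`N ≤ U^2` choose `δ' = η/(8K)`: trivial bound if `M ≤ N^(1-δ')`, otherwise `N^(kcδ') ≤ U^(2kcδ') ≤ U^(cη/4)`.
-/

set_option autoImplicit false

namespace Pool.Agent.P07318f

open Complex

namespace ZSumKAux

lemma norm_pow_sub (τ x y : ℝ) (hx : 0 < x) (hxy : x ≤ y) :
    ‖(x : ℂ) ^ ((τ : ℂ) * I) - (y : ℂ) ^ ((τ : ℂ) * I)‖ ≤ |τ| * ((y - x) / x) := by
  have hy : 0 < y := lt_of_lt_of_le hx hxy
  have h1 : (x : ℂ) ^ ((τ : ℂ) * I) = cexp (I * ((τ * Real.log x : ℝ) : ℂ)) := by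
    rw [cpow_def_of_ne_zero (by exact_mod_cast hx.ne'), ← ofReal_log hx.le]
    congr 1
    push_cast
    ring
  have h2 : (y : ℂ) ^ ((τ : ℂ) * I) = cexp (I * ((τ * Real.log y : ℝ) : ℂ)) := by
    rw [cpow_def_of_ne_zero (by exact_mod_cast hy.ne'), ← ofReal_log hy.le]
    congr 1
    push_cast
    ring
  have h3 : (x : ℂ) ^ ((τ : ℂ) * I) - (y : ℂ) ^ ((τ : ℂ) * I) =
      cexp (I * ((τ * Real.log y : ℝ) : ℂ)) *
        (cexp (I * ((τ * Real.log x - τ * Real.log y : ℝ) : ℂ)) - 1) := by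
    rw [h1, h2, mul_sub, ← Complex.exp_add, mul_one]
    congr 2
    push_cast
    ring
  rw [h3, norm_mul]
  have h4 : ‖cexp (I * ((τ * Real.log y : ℝ) : ℂ))‖ = 1 := by
    rw [mul_comm]
    exact norm_exp_ofReal_mul_I _
  rw [h4, one_mul]
  refine Real.norm_exp_I_mul_ofReal_sub_one_le.trans ?_
  rw [← mul_sub, norm_mul, Real.norm_eq_abs, Real.norm_eq_abs]
  refine mul_le_mul_of_nonneg_left ?_ (abs_nonneg _)
  have h5 : Real.log x ≤ Real.log y := Real.log_le_log hx hxy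
  rw [abs_of_nonpos (by linarith)]
  have h6 : Real.log y - Real.log x ≤ (y - x) / x := by
    rw [← Real.log_div hy.ne' hx.ne']
    have := Real.log_le_sub_one_of_pos (div_pos hy hx)
    refine this.trans (le_of_eq ?_)
    field_simp
  linarith

lemma small_tau (N N' : ℕ) (τ : ℝ) (hN : 1 ≤ N) (hN1 : N ≤ N') (hN2 : N' ≤ 2 * N) (hτ : 0 < |τ|) :
    ‖∑ n ∈ Finset.Ioc N N', ((n : ℝ) : ℂ) ^ ((τ : ℂ) * I)‖ ≤ 3 * N / |τ| + |τ| := by
  have hN0 : (1 : ℝ) ≤ N := by exact_mod_cast hN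
  have hr : (τ : ℂ) * I ≠ -1 := by
    intro h
    have := congrArg Complex.re h
    simp at this
  set G : ℝ → ℂ := fun y => (y : ℂ) ^ ((τ : ℂ) * I + 1) / ((τ : ℂ) * I + 1) with hG
  have hG' : ∀ x : ℝ, x ≠ 0 → HasDerivAt G ((x : ℂ) ^ ((τ : ℂ) * I)) x := fun x hx =>
    hasDerivAt_ofReal_cpow_const' hx hr
  have hstep : ∀ m : ℕ, N ≤ m →
      ‖((((m + 1 : ℕ) : ℝ) : ℂ) ^ ((τ : ℂ) * I)) - (G ((m + 1 : ℕ) : ℝ) - G (m : ℝ))‖ ≤ |τ| / N := by
    intro m hm
    have hm0 : (N : ℝ) ≤ m := by exact_mod_cast hm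
    set z : ℂ := (((m + 1 : ℕ) : ℝ) : ℂ) ^ ((τ : ℂ) * I) with hz
    have h1 : ∀ x ∈ Set.Icc (m : ℝ) ((m + 1 : ℕ) : ℝ),
        HasDerivWithinAt (fun x : ℝ => G x - z * (x : ℂ)) ((x : ℂ) ^ ((τ : ℂ) * I) - z * 1)
          (Set.Icc (m : ℝ) ((m + 1 : ℕ) : ℝ)) x := by
      intro x hx
      have hx0 : x ≠ 0 := by
        have := hx.1
        intro h
        rw [h] at this
        linarith
      have h2 : HasDerivAt (fun x : ℝ => (x : ℂ)) 1 x := Complex.ofRealCLM.hasDerivAt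
      exact ((hG' x hx0).sub (h2.const_mul z)).hasDerivWithinAt
    have h2 : ∀ x ∈ Set.Ico (m : ℝ) ((m + 1 : ℕ) : ℝ), ‖(x : ℂ) ^ ((τ : ℂ) * I) - z * 1‖ ≤ |τ| / N := by
      intro x hx
      have hx0 : 0 < x := by
        have := hx.1
        linarith
      rw [mul_one, hz]
      refine (norm_pow_sub τ x _ hx0 hx.2.le).trans ?_
      have h5 : |τ| / (N : ℝ) = |τ| * (1 / N) := by ring
      rw [h5]
      refine mul_le_mul_of_nonneg_left ?_ (abs_nonneg _)
      have h3 := hx.1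
      push_cast
      exact div_le_div₀ (by norm_num) (by linarith) (by linarith) (by linarith)
    have h3 := norm_image_sub_le_of_norm_deriv_le_segment' h1 h2 ((m + 1 : ℕ) : ℝ)
      (Set.right_mem_Icc.2 (by push_cast; linarith))
    have h4 : |τ| / N * (((m + 1 : ℕ) : ℝ) - m) = |τ| / N := by
      push_cast
      ring
    rw [h4] at h3
    refine le_trans (le_of_eq ?_) h3
    rw [← norm_neg]
    congr 1
    push_cast
    ring
  have htel : ∀ M : ℕ, N ≤ M →
      ‖∑ n ∈ Finset.Ioc N M, ((n : ℝ) : ℂ) ^ ((τ : ℂ) * I) - (G (M : ℝ) - G (N : ℝ))‖ ≤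
        (M - N : ℝ) * (|τ| / N) := by
    intro M hM
    induction M, hM using Nat.le_induction with
    | base => simp
    | succ m hm ih =>
      rw [Finset.sum_Ioc_succ_top (by omega)]
      have h1 := hstep m hm
      have h2 : ∑ n ∈ Finset.Ioc N m, ((n : ℝ) : ℂ) ^ ((τ : ℂ) * I) +
          (((m + 1 : ℕ) : ℝ) : ℂ) ^ ((τ : ℂ) * I) - (G ((m + 1 : ℕ) : ℝ) - G (N : ℝ)) =
          (∑ n ∈ Finset.Ioc N m, ((n : ℝ) : ℂ) ^ ((τ : ℂ) * I) - (G (m : ℝ) - G (N : ℝ))) +
          ((((m + 1 : ℕ) : ℝ) : ℂ) ^ ((τ : ℂ) * I) - (G ((m + 1 : ℕ) : ℝ) - G (m : ℝ))) := by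
        ring
      rw [h2]
      refine (norm_add_le _ _).trans ?_
      have h3 : ((m + 1 : ℕ) - N : ℝ) * (|τ| / N) = (m - N : ℝ) * (|τ| / N) + |τ| / N := by
        push_cast
        ring
      rw [h3]
      exact add_le_add ih h1
  have h1 := htel N' hN1
  have hGn : ∀ M : ℕ, 1 ≤ M → ‖G (M : ℝ)‖ ≤ M / |τ| := by
    intro M hM
    have hM0 : (0 : ℝ) < M := by exact_mod_cast hM
    simp only [hG]
    rw [norm_div, norm_cpow_eq_rpow_re_of_pos hM0]
    have h2 : ((τ : ℂ) * I + 1).re = 1 := by simp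
    rw [h2, Real.rpow_one]
    refine div_le_div_of_nonneg_left hM0.le hτ ?_
    have h3 := Complex.abs_im_le_norm ((τ : ℂ) * I + 1)
    simpa using h3
  have h2 := hGn N' (by omega)
  have h3 := hGn N hN
  have hN2' : (N' : ℝ) ≤ 2 * N := by exact_mod_cast hN2
  have h4 : ‖∑ n ∈ Finset.Ioc N N', ((n : ℝ) : ℂ) ^ ((τ : ℂ) * I)‖ ≤
      ‖∑ n ∈ Finset.Ioc N N', ((n : ℝ) : ℂ) ^ ((τ : ℂ) * I) - (G (N' : ℝ) - G (N : ℝ))‖ +
        (‖G (N' : ℝ)‖ + ‖G (N : ℝ)‖) := by
    have h5 : ∑ n ∈ Finset.Ioc N N', ((n : ℝ) : ℂ) ^ ((τ : ℂ) * I) =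
        (∑ n ∈ Finset.Ioc N N', ((n : ℝ) : ℂ) ^ ((τ : ℂ) * I) - (G (N' : ℝ) - G (N : ℝ))) +
          (G (N' : ℝ) - G (N : ℝ)) := by ring
    calc _ = ‖(∑ n ∈ Finset.Ioc N N', ((n : ℝ) : ℂ) ^ ((τ : ℂ) * I) - (G (N' : ℝ) - G (N : ℝ))) +
          (G (N' : ℝ) - G (N : ℝ))‖ := by rw [← h5]
      _ ≤ _ := (norm_add_le _ _).trans (add_le_add le_rfl (norm_sub_le _ _))
  have h6 : (N' - N : ℝ) * (|τ| / N) ≤ |τ| := by
    have h7 : (N' - N : ℝ) ≤ N := by linarith
    calc (N' - N : ℝ) * (|τ| / N) ≤ N * (|τ| / N) :=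
          mul_le_mul_of_nonneg_right h7 (by positivity)
      _ = |τ| := by field_simp
  have h8 : (N' : ℝ) / |τ| + N / |τ| ≤ 3 * N / |τ| := by
    rw [← add_div]
    exact div_le_div_of_nonneg_right (by linarith) hτ.le
  linarith


/-- iterated differences of the logarithm -/
noncomputable def L : ℕ → ℝ → ℝ
  | 0, x => Real.log x
  | (m + 1), x => L m (x + 1) - L m x

/-- the m-th difference of `1/x` -/
noncomputable def R (m : ℕ) (x : ℝ) : ℝ :=
  (-1) ^ m * (m.factorial : ℝ) / ∏ j ∈ Finset.range (m + 1), (x + j)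

lemma prod_pos (m : ℕ) (x : ℝ) (hx : 0 < x) : 0 < ∏ j ∈ Finset.range (m + 1), (x + (j : ℝ)) :=
  Finset.prod_pos (fun j _ => by positivity)

lemma R_succ (m : ℕ) (x : ℝ) (hx : 0 < x) : R (m + 1) x = R m (x + 1) - R m x := by
  have h1 : ∏ j ∈ Finset.range (m + 1 + 1), (x + (j : ℝ)) =
      (∏ j ∈ Finset.range (m + 1), (x + (j : ℝ))) * (x + (m + 1 : ℕ)) := Finset.prod_range_succ _ _
  have h2 : ∏ j ∈ Finset.range (m + 1 + 1), (x + (j : ℝ)) =
      (∏ j ∈ Finset.range (m + 1), (x + 1 + (j : ℝ))) * x := by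
    rw [Finset.prod_range_succ']
    simp only [Nat.cast_add, Nat.cast_one, Nat.cast_zero, add_zero]
    congr 1
    refine Finset.prod_congr rfl (fun j _ => ?_)
    ring
  have hP := prod_pos m x hx
  have hQ := prod_pos m (x + 1) (by linarith)
  have hPQ := prod_pos (m + 1) x hx
  unfold R
  set P := ∏ j ∈ Finset.range (m + 1), (x + (j : ℝ)) with hPdef
  set Q := ∏ j ∈ Finset.range (m + 1), (x + 1 + (j : ℝ)) with hQdef
  have h3 : P * (x + (m + 1 : ℕ)) = Q * x := by rw [← h1, h2]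
  have hxm : (0 : ℝ) < x + (m + 1 : ℕ) := by positivity
  rw [h1, Nat.factorial_succ, div_sub_div _ _ hQ.ne' hP.ne', div_eq_div_iff (by positivity) (by positivity)]
  push_cast at h3 ⊢
  have h4 : Q * x - P * x = P * (m + 1) := by
    linear_combination -h3
  have h5 : (Q - P) * x = P * (m + 1) := by linear_combination h4
  have e1 : (-1 : ℝ) ^ (m + 1) = -(-1) ^ m := by ring
  rw [e1]
  set s : ℝ := (-1) ^ m
  set F : ℝ := (m.factorial : ℝ)
  have h6 : Q * x = P * (x + (m + 1)) := by linear_combination -h3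
  linear_combination (s * F * P) * h4

lemma hasDeriv (m : ℕ) : ∀ x : ℝ, 0 < x → HasDerivAt (L m) (R m x) x := by
  induction m with
  | zero =>
    intro x hx
    have h1 : L 0 = Real.log := rfl
    rw [h1]
    have h2 : R 0 x = x⁻¹ := by
      unfold R
      simp
    rw [h2]
    exact Real.hasDerivAt_log hx.ne'
  | succ m ih =>
    intro x hx
    rw [R_succ m x hx]
    have h1 : L (m + 1) = fun x => L m (x + 1) - L m x := rfl
    rw [h1]
    have h2 : HasDerivAt (fun x : ℝ => L m (x + 1)) (R m (x + 1)) x := by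
      have := (ih (x + 1) (by linarith)).comp_add_const x 1
      exact this
    exact h2.sub (ih x hx)

lemma mvt (m : ℕ) (x : ℝ) (hx : 0 < x) : ∃ y, x < y ∧ y < x + 1 ∧ L (m + 1) x = R m y := by
  obtain ⟨y, hy, h⟩ := exists_hasDerivAt_eq_slope (L m) (R m) (show x < x + 1 by linarith)
    (fun y hy => (hasDeriv m y (lt_of_lt_of_le hx hy.1)).continuousAt.continuousWithinAt)
    (fun y hy => hasDeriv m y (lt_trans hx hy.1))
  refine ⟨y, hy.1, hy.2, ?_⟩
  have h1 : x + 1 - x = 1 := by ring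
  rw [h, h1, div_one]
  rfl

lemma iter_log (k : ℕ) : ∀ n : ℕ, (fwdDiff 1)^[k] (fun n : ℕ => Real.log n) n = L k n := by
  induction k with
  | zero => intro n; rfl
  | succ k ih =>
    intro n
    rw [Function.iterate_succ_apply']
    have h1 : (fwdDiff 1)^[k] (fun n : ℕ => Real.log n) = fun n : ℕ => L k n := funext ih
    rw [h1]
    show L k ((n + 1 : ℕ) : ℝ) - L k n = L (k + 1) n
    push_cast
    rfl

lemma iter_smul (k : ℕ) (c : ℝ) (f : ℕ → ℝ) :
    ∀ n : ℕ, (fwdDiff 1)^[k] (fun n : ℕ => c * f n) n = c * (fwdDiff 1)^[k] f n := by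
  induction k with
  | zero => intro n; rfl
  | succ k ih =>
    intro n
    rw [Function.iterate_succ_apply', Function.iterate_succ_apply']
    have h1 : (fwdDiff 1)^[k] (fun n : ℕ => c * f n) = fun n : ℕ => c * (fwdDiff 1)^[k] f n := funext ih
    rw [h1]
    simp only [fwdDiff]
    ring

lemma R_bounds (m : ℕ) (y : ℝ) (hy : 0 < y) :
    (m.factorial : ℝ) / (y + m) ^ (m + 1) ≤ (-1) ^ m * R m y ∧
      (-1) ^ m * R m y ≤ (m.factorial : ℝ) / y ^ (m + 1) := by
  have h0 : (-1 : ℝ) ^ m * R m y = (m.factorial : ℝ) / ∏ j ∈ Finset.range (m + 1), (y + j) := by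
    unfold R
    rw [mul_div_assoc, ← mul_assoc, ← mul_pow]
    simp
  rw [h0]
  have hP := prod_pos m y hy
  constructor
  · refine div_le_div_of_nonneg_left (by positivity) hP ?_
    calc ∏ j ∈ Finset.range (m + 1), (y + (j : ℝ)) ≤ ∏ _j ∈ Finset.range (m + 1), (y + (m : ℝ)) := by
          refine Finset.prod_le_prod (fun j _ => by positivity) (fun j hj => ?_)
          have h1 : j ≤ m := by
            have := Finset.mem_range.1 hj
            omega
          have h2 : (j : ℝ) ≤ m := by exact_mod_cast h1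
          linarith
      _ = (y + m) ^ (m + 1) := by simp
  · refine div_le_div_of_nonneg_left (by positivity) (by positivity) ?_
    calc y ^ (m + 1) = ∏ _j ∈ Finset.range (m + 1), y := by simp
      _ ≤ _ := by
          refine Finset.prod_le_prod (fun j _ => hy.le) (fun j _ => ?_)
          have : (0 : ℝ) ≤ j := by positivity
          linarith


lemma trivial_bound (N N' : ℕ) (τ : ℝ) :
    ‖∑ n ∈ Finset.Ioc N N', ((n : ℝ) : ℂ) ^ ((τ : ℂ) * I)‖ ≤ (N' - N : ℕ) := by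
  refine (norm_sum_le _ _).trans ?_
  have h2 : ∀ n ∈ Finset.Ioc N N', ‖((n : ℝ) : ℂ) ^ ((τ : ℂ) * I)‖ ≤ 1 := by
    intro n hn
    rw [Finset.mem_Ioc] at hn
    have hn0 : (0 : ℝ) < n := by
      have : 0 < n := by omega
      exact_mod_cast this
    rw [norm_cpow_eq_rpow_re_of_pos hn0]
    simp
  refine (Finset.sum_le_card_nsmul _ _ _ h2).trans ?_
  rw [nsmul_eq_mul, mul_one, Nat.card_Ioc]

/-- the sum as an exponential sum with a sign `s = ± 1` -/
lemma norm_eq (N M : ℕ) (τ s : ℝ) (hs : s = 1 ∨ s = -1) :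
    ‖∑ n ∈ Finset.Ioc N (N + M), ((n : ℝ) : ℂ) ^ ((τ : ℂ) * I)‖ =
      ‖∑ n ∈ Finset.Ico (N + 1) (N + 1 + M),
        cexp (2 * Real.pi * I * ((s * τ / (2 * Real.pi) * Real.log n : ℝ) : ℂ))‖ := by
  have hset : Finset.Ioc N (N + M) = Finset.Ico (N + 1) (N + 1 + M) := by
    ext n
    simp only [Finset.mem_Ioc, Finset.mem_Ico]
    omega
  rw [hset]
  have hpi : (Real.pi : ℂ) ≠ 0 := by exact_mod_cast Real.pi_ne_zero
  have hterm : ∀ n ∈ Finset.Ico (N + 1) (N + 1 + M), ((n : ℝ) : ℂ) ^ ((τ : ℂ) * I) =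
      cexp (I * ((τ * Real.log n : ℝ) : ℂ)) := by
    intro n hn
    have hn0 : (0 : ℝ) < n := by
      have : 0 < n := by
        have := (Finset.mem_Ico.1 hn).1
        omega
      exact_mod_cast this
    rw [cpow_def_of_ne_zero (by exact_mod_cast hn0.ne'), ← ofReal_log hn0.le]
    congr 1
    push_cast
    ring
  rcases hs with hs | hs
  · congr 1
    refine Finset.sum_congr rfl (fun n hn => ?_)
    rw [hterm n hn, hs]
    congr 1
    push_cast
    field_simp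
  · rw [← Complex.norm_conj]
    congr 1
    rw [map_sum]
    refine Finset.sum_congr rfl (fun n hn => ?_)
    rw [hterm n hn, hs, ← Complex.exp_conj]
    congr 1
    rw [map_mul, conj_I, conj_ofReal]
    push_cast
    field_simp

/-- the bound for `N ≤ U ^ 2` -/
lemma main_case (η : ℝ) (hη : 0 < η) (hη1 : η ≤ 1) (k : ℕ) (hk : 2 ≤ k) :
    ∃ c C : ℝ, 0 < c ∧ c ≤ 1 ∧ 0 < C ∧ ∀ (U : ℝ) (N N' : ℕ) (τ : ℝ), 1 ≤ U →
    U ^ η ≤ N → N ≤ N' → N' ≤ 2 * N → U ^ η ≤ |τ| → (N : ℝ) ≤ U ^ (2 : ℝ) →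
    |τ| ≤ (N : ℝ) ^ ((k : ℝ) - 1 / 2) →
    ‖∑ n ∈ Finset.Ioc N N', ((n : ℝ) : ℂ) ^ ((τ : ℂ) * I)‖ ≤ C * N * U ^ (-c) := by
  obtain ⟨m, rfl⟩ : ∃ m, k = m + 1 := ⟨k - 1, by omega⟩
  have hm0 : (0 : ℝ) ≤ m := Nat.cast_nonneg m
  have hA : (1 : ℝ) ≤ ((2 + (m + 1 : ℕ) : ℝ)) ^ (m + 1) := one_le_pow₀ (by push_cast; linarith)
  obtain ⟨c1, C1, hc1, hC1, hv⟩ := vdc_k (m + 1) hk _ hA
  set A : ℝ := ((2 + (m + 1 : ℕ) : ℝ)) ^ (m + 1) with hAdef
  set b : ℝ := (m.factorial : ℝ) / (2 * Real.pi) / A with hb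
  have hA0 : 0 < A := by linarith
  have hb0 : 0 < b := by positivity
  set K : ℝ := ((m + 1 : ℕ) : ℝ) with hK
  have hK1 : 1 ≤ K := by rw [hK]; exact_mod_cast (by omega : 1 ≤ m + 1)
  have hKm : K = m + 1 := by rw [hK]; push_cast; ring
  set d : ℝ := η / (8 * K) with hd
  have hd0 : 0 < d := by positivity
  have hdK : d * K = η / 8 := by rw [hd]; field_simp
  have hd1 : d ≤ 1 / 8 := by nlinarith
  have hbA : b ≤ 1 := by
    rw [hb, div_le_one hA0]
    have h1 : (m.factorial : ℝ) / (2 * Real.pi) ≤ m.factorial := by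
      refine div_le_self (by positivity) ?_
      linarith [Real.pi_gt_three]
    have h2 : (m.factorial : ℝ) ≤ (m : ℝ) ^ m := by exact_mod_cast Nat.factorial_le_pow m
    have h3 : (m : ℝ) ^ m ≤ A := by
      calc (m : ℝ) ^ m ≤ ((2 + (m + 1 : ℕ) : ℝ)) ^ m := pow_le_pow_left₀ hm0 (by push_cast; linarith) m
        _ ≤ A := pow_le_pow_right₀ (by push_cast; linarith) (by omega)
    linarith
  -- the exponent
  set c : ℝ := min (η * d) (min (η * c1 / 2) 1) with hc
  have hc0 : 0 < c := by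
    refine lt_min (by positivity) (lt_min (by positivity) one_pos)
  have hcA : c ≤ η * d := min_le_left _ _
  have hcB : c ≤ η * c1 / 2 := (min_le_right _ _).trans (min_le_left _ _)
  have hcC : c ≤ 1 := (min_le_right _ _).trans (min_le_right _ _)
  refine ⟨c, 1 + C1 * (2 + b ^ (-c1)), hc0, hcC, by positivity, ?_⟩
  intro U N N' τ hU hN hN1 hN2 hτ hNU hτ2
  have hU0 : 0 < U := by linarith
  have hUη : 1 ≤ U ^ η := Real.one_le_rpow hU hη.le
  have hN1' : (1 : ℝ) ≤ N := hUη.trans hN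
  have hNn : 1 ≤ N := by exact_mod_cast hN1'
  have hN0 : (0 : ℝ) < N := by linarith
  have hτ0 : 0 < |τ| := by linarith
  have hUc0 : 0 < U ^ (-c) := Real.rpow_pos_of_pos hU0 _
  have hbc : 0 < b ^ (-c1) := Real.rpow_pos_of_pos hb0 _
  obtain ⟨M, rfl⟩ : ∃ M, N' = N + M := ⟨N' - N, by omega⟩
  have hMN : M ≤ N := by omega
  have hMN' : (M : ℝ) ≤ N := by exact_mod_cast hMN
  rcases lt_or_ge (M : ℝ) ((N : ℝ) ^ (1 - d)) with hM | hM
  · refine (trivial_bound N (N + M) τ).trans ?_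
    have h1 : (((N + M) - N : ℕ) : ℝ) = M := by
      congr 1
      omega
    rw [h1]
    have h2 : (N : ℝ) ^ (1 - d) = N * (N : ℝ) ^ (-d) := by
      rw [sub_eq_add_neg, Real.rpow_add hN0, Real.rpow_one]
    have h3 : (N : ℝ) ^ (-d) ≤ U ^ (-c) := by
      calc (N : ℝ) ^ (-d) ≤ (U ^ η) ^ (-d) := Real.rpow_le_rpow_of_nonpos (by positivity) hN (by linarith)
        _ = U ^ (η * (-d)) := by rw [Real.rpow_mul hU0.le]
        _ ≤ U ^ (-c) := Real.rpow_le_rpow_of_exponent_le hU (by linarith)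
    calc (M : ℝ) ≤ N * (N : ℝ) ^ (-d) := by rw [← h2]; exact hM.le
      _ ≤ N * U ^ (-c) := mul_le_mul_of_nonneg_left h3 hN0.le
      _ = 1 * (N * U ^ (-c)) := by ring
      _ ≤ (1 + C1 * (2 + b ^ (-c1))) * (N * U ^ (-c)) := by
        refine mul_le_mul_of_nonneg_right ?_ (by positivity)
        have : 0 < C1 * (2 + b ^ (-c1)) := by positivity
        linarith
      _ = _ := by ring
  · have hMpos : (1 : ℝ) ≤ M := by
      refine le_trans ?_ hM
      exact Real.one_le_rpow hN1' (by linarith)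
    have hM1 : 1 ≤ M := by exact_mod_cast hMpos
    have hM0 : (0 : ℝ) < M := by linarith
    -- the sign
    obtain ⟨s, hs, hsτ⟩ : ∃ s : ℝ, (s = 1 ∨ s = -1) ∧ s * τ = (-1) ^ m * |τ| := by
      rcases neg_one_pow_eq_or ℝ m with h | h <;> rcases abs_choice τ with h' | h' <;> rw [h, h']
      · exact ⟨1, Or.inl rfl, by ring⟩
      · exact ⟨-1, Or.inr rfl, by ring⟩
      · exact ⟨-1, Or.inr rfl, by ring⟩
      · exact ⟨1, Or.inl rfl, by ring⟩
    rw [norm_eq N M τ s hs]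
    set l : ℝ := b * |τ| * (N : ℝ) ^ (-K) with hl
    have hNK : 0 < (N : ℝ) ^ (-K) := Real.rpow_pos_of_pos hN0 _
    have hl0 : 0 < l := by positivity
    have hNKeq : (N : ℝ) ^ (-K) = ((N : ℝ) ^ (m + 1))⁻¹ := by
      rw [Real.rpow_neg hN0.le, hK, Real.rpow_natCast]
    have hmain := hv (fun n => s * τ / (2 * Real.pi) * Real.log n) (N + 1) M l hM1 hl0 (by
      intro n hn1 hn2
      rw [iter_smul (m + 1) (s * τ / (2 * Real.pi)) (fun n : ℕ => Real.log n) n, iter_log]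
      have hn0 : (0 : ℝ) < n := by
        have : 0 < n := by omega
        exact_mod_cast this
      obtain ⟨y, hy1, hy2, hy3⟩ := mvt m n hn0
      have hy0 : 0 < y := hn0.trans hy1
      obtain ⟨hR1, hR2⟩ := R_bounds m y hy0
      rw [hy3, hsτ]
      have e1 : (-1) ^ m * |τ| / (2 * Real.pi) * R m y = |τ| / (2 * Real.pi) * ((-1) ^ m * R m y) := by ring
      rw [e1]
      have hnN : (N : ℝ) + 1 ≤ n := by exact_mod_cast hn1
      have hn2' : (n : ℝ) + (m + 1) ≤ N + 1 + M := by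
        have : n + (m + 1) ≤ N + 1 + M := by omega
        exact_mod_cast this
      have hyN : (N : ℝ) ≤ y := by linarith
      have hyN2 : y + m ≤ (2 + (m + 1 : ℕ) : ℝ) * N := by
        push_cast
        nlinarith
      constructor
      · calc l = |τ| / (2 * Real.pi) * ((m.factorial : ℝ) / ((2 + (m + 1 : ℕ) : ℝ) * N) ^ (m + 1)) := by
              rw [hl, hb, hNKeq, mul_pow, ← hAdef]
              field_simp
          _ ≤ |τ| / (2 * Real.pi) * ((m.factorial : ℝ) / (y + m) ^ (m + 1)) := by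
              refine mul_le_mul_of_nonneg_left ?_ (by positivity)
              refine div_le_div_of_nonneg_left (by positivity) (by positivity) ?_
              exact pow_le_pow_left₀ (by positivity) hyN2 _
          _ ≤ _ := mul_le_mul_of_nonneg_left hR1 (by positivity)
      · calc |τ| / (2 * Real.pi) * ((-1) ^ m * R m y) ≤ |τ| / (2 * Real.pi) * ((m.factorial : ℝ) / y ^ (m + 1)) :=
              mul_le_mul_of_nonneg_left hR2 (by positivity)
          _ ≤ |τ| / (2 * Real.pi) * ((m.factorial : ℝ) / (N : ℝ) ^ (m + 1)) := by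
              refine mul_le_mul_of_nonneg_left ?_ (by positivity)
              refine div_le_div_of_nonneg_left (by positivity) (by positivity) ?_
              exact pow_le_pow_left₀ hN0.le hyN _
          _ = A * l := by
              rw [hl, hb, hNKeq]
              field_simp)
    refine hmain.trans ?_
    -- the three terms
    have hUbase : U ^ (-(η * c1 / 2)) ≤ U ^ (-c) := Real.rpow_le_rpow_of_exponent_le hU (by linarith)
    have t1 : l ^ c1 ≤ U ^ (-c) := by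
      have h1 : l ≤ (N : ℝ) ^ (-(1 / 2) : ℝ) := by
        calc l = b * (|τ| * (N : ℝ) ^ (-K)) := by rw [hl]; ring
          _ ≤ 1 * ((N : ℝ) ^ (K - 1 / 2) * (N : ℝ) ^ (-K)) := by
              refine mul_le_mul hbA ?_ (by positivity) zero_le_one
              exact mul_le_mul_of_nonneg_right hτ2 hNK.le
          _ = (N : ℝ) ^ (-(1 / 2) : ℝ) := by
              rw [one_mul, ← Real.rpow_add hN0]
              congr 1
              ring
      calc l ^ c1 ≤ ((N : ℝ) ^ (-(1 / 2) : ℝ)) ^ c1 := Real.rpow_le_rpow hl0.le h1 hc1.le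
        _ = (N : ℝ) ^ (-(1 / 2) * c1 : ℝ) := by rw [← Real.rpow_mul hN0.le]
        _ ≤ (U ^ η) ^ (-(1 / 2) * c1 : ℝ) := Real.rpow_le_rpow_of_nonpos (by positivity) hN (by nlinarith)
        _ = U ^ (-(η * c1 / 2)) := by
            rw [← Real.rpow_mul hU0.le]
            congr 1
            ring
        _ ≤ _ := hUbase
    have hMU : U ^ (η / 2) ≤ M := by
      calc U ^ (η / 2) ≤ U ^ (η * (1 - d)) := Real.rpow_le_rpow_of_exponent_le hU (by nlinarith)
        _ = (U ^ η) ^ (1 - d) := by rw [Real.rpow_mul hU0.le]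
        _ ≤ (N : ℝ) ^ (1 - d) := Real.rpow_le_rpow (by positivity) hN (by linarith)
        _ ≤ M := hM
    have t3 : (M : ℝ) ^ (-c1) ≤ U ^ (-c) := by
      calc (M : ℝ) ^ (-c1) ≤ (U ^ (η / 2)) ^ (-c1) :=
            Real.rpow_le_rpow_of_nonpos (by positivity) hMU (by linarith)
        _ = U ^ (-(η * c1 / 2)) := by
            rw [← Real.rpow_mul hU0.le]
            congr 1
            ring
        _ ≤ _ := hUbase
    have t2 : ((M : ℝ) ^ (m + 1) * l) ^ (-c1) ≤ b ^ (-c1) * U ^ (-c) := by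
      have h1 : b * U ^ (η / 2) ≤ (M : ℝ) ^ (m + 1) * l := by
        have h2 : ((N : ℝ) ^ (1 - d)) ^ (m + 1) ≤ (M : ℝ) ^ (m + 1) :=
          pow_le_pow_left₀ (by positivity) hM _
        have h3 : ((N : ℝ) ^ (1 - d)) ^ (m + 1) = (N : ℝ) ^ ((1 - d) * K) := by
          rw [← Real.rpow_natCast, ← Real.rpow_mul hN0.le]
        have h4 : (N : ℝ) ^ ((1 - d) * K) * (N : ℝ) ^ (-K) = (N : ℝ) ^ (-(η / 8)) := by
          rw [← Real.rpow_add hN0]
          congr 1
          linear_combination -hdK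
        have h5 : U ^ (-(η / 4)) ≤ (N : ℝ) ^ (-(η / 8)) := by
          calc U ^ (-(η / 4)) = (U ^ (2 : ℝ)) ^ (-(η / 8)) := by
                rw [← Real.rpow_mul hU0.le]
                congr 1
                ring
            _ ≤ (N : ℝ) ^ (-(η / 8)) := Real.rpow_le_rpow_of_nonpos hN0 hNU (by linarith)
        calc b * U ^ (η / 2) ≤ b * (U ^ η * U ^ (-(η / 4))) := by
              refine mul_le_mul_of_nonneg_left ?_ hb0.le
              rw [← Real.rpow_add hU0]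
              exact Real.rpow_le_rpow_of_exponent_le hU (by linarith)
          _ ≤ b * (|τ| * (N : ℝ) ^ (-(η / 8))) := by
              refine mul_le_mul_of_nonneg_left ?_ hb0.le
              exact mul_le_mul hτ h5 (by positivity) hτ0.le
          _ = (N : ℝ) ^ ((1 - d) * K) * l := by
              rw [hl, ← h4]
              ring
          _ ≤ (M : ℝ) ^ (m + 1) * l := by
              rw [← h3]
              exact mul_le_mul_of_nonneg_right h2 hl0.le
      calc ((M : ℝ) ^ (m + 1) * l) ^ (-c1) ≤ (b * U ^ (η / 2)) ^ (-c1) :=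
            Real.rpow_le_rpow_of_nonpos (by positivity) h1 (by linarith)
        _ = b ^ (-c1) * U ^ (-(η * c1 / 2)) := by
            rw [Real.mul_rpow hb0.le (by positivity), ← Real.rpow_mul hU0.le]
            congr 2
            ring
        _ ≤ _ := mul_le_mul_of_nonneg_left hUbase hbc.le
    have hsum : l ^ c1 + ((M : ℝ) ^ (m + 1) * l) ^ (-c1) + (M : ℝ) ^ (-c1) ≤
        (2 + b ^ (-c1)) * U ^ (-c) := by
      calc l ^ c1 + ((M : ℝ) ^ (m + 1) * l) ^ (-c1) + (M : ℝ) ^ (-c1) ≤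
          U ^ (-c) + b ^ (-c1) * U ^ (-c) + U ^ (-c) := add_le_add (add_le_add t1 t2) t3
        _ = _ := by ring
    calc C1 * M * (l ^ c1 + ((M : ℝ) ^ (m + 1) * l) ^ (-c1) + (M : ℝ) ^ (-c1)) ≤
        C1 * N * ((2 + b ^ (-c1)) * U ^ (-c)) := by
          refine mul_le_mul ?_ hsum (by positivity) (by positivity)
          exact mul_le_mul_of_nonneg_left hMN' hC1.le
      _ = (C1 * (2 + b ^ (-c1))) * (N * U ^ (-c)) := by ring
      _ ≤ (1 + C1 * (2 + b ^ (-c1))) * (N * U ^ (-c)) := by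
          refine mul_le_mul_of_nonneg_right ?_ (by positivity)
          linarith
      _ = _ := by ring

end ZSumKAux

open ZSumKAux

theorem zsum_k (η : ℝ) (hη : 0 < η) (hη1 : η ≤ 1) : ∃ c C : ℝ, 0 < c ∧ 0 < C ∧ ∀ (U : ℝ) (N N' : ℕ) (τ : ℝ), 1 ≤ U →
    U ^ η ≤ N → N ≤ N' → N' ≤ 2 * N → U ^ η ≤ |τ| → |τ| ≤ 16 * U →
    ‖∑ n ∈ Finset.Ioc N N', ((n : ℝ) : ℂ) ^ ((τ : ℂ) * I)‖ ≤ C * N * U ^ (-c) := by
  obtain ⟨K, hK⟩ : ∃ K : ℕ, K = ⌈2 / η⌉₊ + 2 := ⟨_, rfl⟩
  have hK2 : 2 ≤ K := by omega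
  have hKη : 2 / η ≤ (K : ℝ) - 2 := by
    rw [hK]
    push_cast
    have := Nat.le_ceil (2 / η)
    linarith
  have hKη' : 2 ≤ η * ((K : ℝ) - 1 / 2) := by
    rw [div_le_iff₀ hη] at hKη
    nlinarith
  obtain ⟨c1, C1, hc1, hc11, hC1, hmain⟩ := main_case η hη hη1 K hK2
  set c : ℝ := min c1 η with hc
  have hc0 : 0 < c := lt_min hc1 hη
  have hcc : c ≤ c1 := min_le_left _ _
  have hcη : c ≤ η := min_le_right _ _
  refine ⟨c, C1 + 19, hc0, by linarith, ?_⟩
  intro U N N' τ hU hN hN1 hN2 hτ hτ2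
  have hU0 : 0 < U := by linarith
  have hUη : 1 ≤ U ^ η := Real.one_le_rpow hU hη.le
  have hN1' : (1 : ℝ) ≤ N := hUη.trans hN
  have hNn : 1 ≤ N := by exact_mod_cast hN1'
  have hN0 : (0 : ℝ) < N := by linarith
  have hτ0 : 0 < |τ| := by linarith
  have hUc0 : 0 < U ^ (-c) := Real.rpow_pos_of_pos hU0 _
  rcases lt_or_ge U 16 with hU4 | hU4
  · -- bounded `U`
    refine (trivial_bound N N' τ).trans ?_
    have h0 : ((N' - N : ℕ) : ℝ) ≤ N := by
      have : N' - N ≤ N := by omega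
      exact_mod_cast this
    have h3 : (1 : ℝ) / 16 ≤ U ^ (-c) := by
      rw [Real.rpow_neg hU0.le, one_div]
      refine inv_anti₀ (Real.rpow_pos_of_pos hU0 _) ?_
      calc U ^ c ≤ U ^ (1 : ℝ) := Real.rpow_le_rpow_of_exponent_le hU (by linarith)
        _ = U := Real.rpow_one _
        _ ≤ 16 := hU4.le
    calc ((N' - N : ℕ) : ℝ) ≤ N := h0
      _ = 16 * N * (1 / 16) := by ring
      _ ≤ (C1 + 19) * N * U ^ (-c) := by
        refine mul_le_mul ?_ h3 (by norm_num) (by positivity)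
        exact mul_le_mul_of_nonneg_right (by linarith) hN0.le
  rcases le_or_gt (N : ℝ) (U ^ (2 : ℝ)) with hb | hb
  · have h1 : |τ| ≤ (N : ℝ) ^ ((K : ℝ) - 1 / 2) := by
      calc |τ| ≤ 16 * U := hτ2
        _ ≤ U ^ (2 : ℝ) := by
            rw [Real.rpow_two]
            nlinarith
        _ ≤ U ^ (η * ((K : ℝ) - 1 / 2)) := Real.rpow_le_rpow_of_exponent_le hU hKη'
        _ = (U ^ η) ^ ((K : ℝ) - 1 / 2) := by rw [Real.rpow_mul hU0.le]
        _ ≤ _ := Real.rpow_le_rpow (by positivity) hN (by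
            have : (2 : ℝ) ≤ K := by exact_mod_cast hK2
            linarith)
    refine (hmain U N N' τ hU hN hN1 hN2 hτ hb h1).trans ?_
    have h2 : U ^ (-c1) ≤ U ^ (-c) := Real.rpow_le_rpow_of_exponent_le hU (by linarith)
    refine mul_le_mul ?_ h2 (by positivity) (by positivity)
    exact mul_le_mul_of_nonneg_right (by linarith) hN0.le
  · refine (small_tau N N' τ hNn hN1 hN2 hτ0).trans ?_
    have h1 : 3 * (N : ℝ) / |τ| ≤ 3 * N * U ^ (-c) := by
      rw [div_eq_mul_inv]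
      refine mul_le_mul_of_nonneg_left ?_ (by positivity)
      calc |τ|⁻¹ ≤ (U ^ η)⁻¹ := inv_anti₀ (by positivity) hτ
        _ = U ^ (-η) := by rw [Real.rpow_neg hU0.le]
        _ ≤ U ^ (-c) := Real.rpow_le_rpow_of_exponent_le hU (by linarith)
    have h2 : |τ| ≤ 16 * (N * U ^ (-c)) := by
      calc |τ| ≤ 16 * U := hτ2
        _ = 16 * (U ^ (2 : ℝ) * U ^ (-1 : ℝ)) := by
            rw [← Real.rpow_add hU0]
            norm_num
        _ ≤ 16 * (N * U ^ (-c)) := by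
            refine mul_le_mul_of_nonneg_left ?_ (by norm_num)
            refine mul_le_mul hb.le ?_ (by positivity) hN0.le
            exact Real.rpow_le_rpow_of_exponent_le hU (by linarith)
    have h3 : 3 * (N : ℝ) * U ^ (-c) + 16 * (N * U ^ (-c)) ≤ (C1 + 19) * N * U ^ (-c) := by
      have h4 : 3 * (N : ℝ) * U ^ (-c) + 16 * (N * U ^ (-c)) = 19 * (N * U ^ (-c)) := by ring
      have h5 : (C1 + 19) * N * U ^ (-c) = (C1 + 19) * (N * U ^ (-c)) := by ring
      rw [h4, h5]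
      exact mul_le_mul_of_nonneg_right (by linarith) (by positivity)
    linarith

end Pool.Agent.P07318f
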